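import Pool.Agent.Work.MP_b7dc8a_pr.F.DefG
import Pool.Agent.Work.MP_b7dc8a_pr.Exlow

/-! Module TRANS (S): on the whole cube, expectations of functions of `|C(x)|` do not depend on `x`.
Same proof as `exlow_trans` in Exlow.lean (`exlow_equiv`, `exlow_cl`). -/

namespace Pool.Agent.Work.MP_b7dc8a_pr

open Finset

theorem trans_card {m : ℕ} (p : ℝ) (F : ℕ → ℝ) (x o : Q m) :
    Ex (cubeE m) p (fun ω => F (cl ω x).card) = Ex (cubeE m) p (fun ω => F (cl ω o).card) := by
  have hz : exlowTr (fun i => xor (x i) (o i)) x = o := by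
    funext i
    simp [exlowTr]
  have h := exlow_equiv (cubeE m) (exlowSym (exlowTr (fun i => xor (x i) (o i)))) p
    (exlow_mem _) (fun ω => F (cl ω o).card)
  rw [← h]
  refine Ex_congr _ _ _ _ fun ω _ => ?_
  have h2 := exlow_cl (exlowTr (fun i => xor (x i) (o i))) ω x
  rw [hz] at h2
  rw [h2]

theorem trans_Mh {m : ℕ} (p h : ℝ) (x o : Q m) : Mh (cubeE m) p h x = Mh (cubeE m) p h o := by
  unfold Mh
  rw [trans_card p (fun n => (1 - h) ^ n) x o]

theorem trans_mo {m : ℕ} (p h : ℝ) (k : ℕ) (x o : Q m) :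
    mo (cubeE m) p h k x = mo (cubeE m) p h k o := by
  unfold mo
  exact trans_card p (fun n => (n : ℝ) ^ k * (1 - h) ^ n) x o

theorem trans_chi {m : ℕ} (p : ℝ) (x o : Q m) : chi (cubeE m) p x = chi (cubeE m) p o := by
  unfold chi
  exact trans_card p (fun n => (n : ℝ)) x o

end Pool.Agent.Work.MP_b7dc8a_pr
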