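import Pool.Agent.Work.MP_b7dc8a_pr.F.Mhd
import Pool.Agent.Work.MP_b7dc8a_pr.F.Trans
import Pool.Agent.Work.MP_b7dc8a_pr.B.Russ
import Pool.Agent.Work.MP_b7dc8a_pr.Var

/-! Module AB (M): differential inequality `(1-p) dM/dp <= m M mo_1` on the cube.

`E = cubeE m`, `F_x ω = 1 - (1-h)^|cl ω x|`, `Mh E p h x = Ex E p F_x`. `b_russ`: derivative
`D_x = ∑_{e∈E} Ex E p (F_x (insert e ω) - F_x (ω.erase e))`. By TRANS, `Mh E p h x` is the same function of
`p` for all `x`, so `D_x = D` does not depend on `x` and `2^m D = ∑_x D_x`. Let `e = s(a,b)`,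
`ω' = ω.erase e`, `A = cl ω' a`, `B = cl ω' b`. If `b ∈ A`, `F_x (insert e ω) = F_x ω'` for all `x`. Otherwise
`cl (insert e ω) x = A ∪ B` for `x ∈ A ∪ B` and unchanged for the other `x`, so
`∑_x (F_x (insert e ω) - F_x ω') = |A| (1-h)^|A| (1 - (1-h)^|B|) + |B| (1-h)^|B| (1 - (1-h)^|A|)`.
The expectation over `ω` is the expectation over `E.erase e` (`ω' ⊆ E.erase e`, independent of `e`;
`Ex_insert`). Exploring `A` (`b_mark_cl` in `E.erase e`): `Ex (E.erase e) (ind (b ∉ A) |A| (1-h)^|A| θ(B)) =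
Ex (ind (b ∉ A) |A| (1-h)^|A| Mh (offE (E.erase e) A) b) <= M mo (E.erase e) p h 1 a` (`xb_wt_mono_E`).
And `(1-p) mo (E.erase e) a <= mo E a` (`Ex_insert`: the term with `e` closed). There are `m 2^m`
ordered pairs `(a,b)`. So `(1-p) 2^m D <= m 2^m M mo`. `D >= 0` since `F_x` is increasing. -/

namespace Pool.Agent.Work.MP_b7dc8a_pr

open Finset

section AB
variable {V : Type} [Fintype V] [DecidableEq V]

private theorem ab_cl_in (ω : Finset (Sym2 V)) (a b x : V) (hx : x ∈ cl ω a) :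
    cl (insert s(a, b) ω) x = cl ω a ∪ cl ω b := by
  have h1 : cl (insert s(a, b) ω) a = cl ω a ∪ cl ω b := by
    rw [← cls_singleton, cls_insert ω {a} a b (Finset.mem_singleton_self a)]
    ext y
    rw [xb_mem_cls, Finset.mem_union]
    constructor
    · rintro ⟨z, hz, hy⟩
      rcases Finset.mem_insert.1 hz with rfl | hz
      · exact Or.inr hy
      · rw [Finset.mem_singleton] at hz
        subst hz
        exact Or.inl hy
    · rintro (hy | hy)
      · exact ⟨a, by simp, hy⟩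
      · exact ⟨b, by simp, hy⟩
  have h2 : x ∈ cl (insert s(a, b) ω) a := cl_mono _ _ (Finset.subset_insert _ _) a hx
  rw [cl_eq_of_mem _ a x h2, h1]

private theorem ab_cl_out (ω : Finset (Sym2 V)) (a b x : V) (ha : x ∉ cl ω a)
    (hb : x ∉ cl ω b) : cl (insert s(a, b) ω) x = cl ω x := by
  refine cl_eq_of ω _ x fun z hz y => ?_
  rw [Finset.mem_insert]
  constructor
  · exact Or.inr
  · rintro (h | h)
    · exfalso
      rw [Sym2.eq_iff] at h
      rcases h with ⟨rfl, rfl⟩ | ⟨rfl, rfl⟩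
      · exact ha ((cl_symm ω _ _).1 hz)
      · exact hb ((cl_symm ω _ _).1 hz)
    · exact h

private theorem ab_ind_sum (A : Finset V) (c : ℝ) : ∑ x : V, ind (x ∈ A) * c = A.card * c := by
  rw [← Finset.sum_mul]
  congr 1
  rw [← Finset.sum_subset (Finset.subset_univ A) (fun d _ hd => by unfold ind; rw [if_neg hd])]
  have h4 : ∀ d ∈ A, ind (d ∈ A) = 1 := fun d hd => by unfold ind; rw [if_pos hd]
  rw [Finset.sum_congr rfl h4]
  simp

private theorem ab_sum (ω : Finset (Sym2 V)) (a b : V) (q : ℝ) :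
    ∑ x : V, ((1 - q ^ (cl (insert s(a, b) ω) x).card) - (1 - q ^ (cl ω x).card)) =
      ind (b ∉ cl ω a) * (((cl ω a).card : ℝ) * q ^ (cl ω a).card * (1 - q ^ (cl ω b).card)) +
      ind (a ∉ cl ω b) * (((cl ω b).card : ℝ) * q ^ (cl ω b).card * (1 - q ^ (cl ω a).card)) := by
  by_cases hb : b ∈ cl ω a
  · have hBA : cl ω b = cl ω a := cl_eq_of_mem ω a b hb
    have ha : a ∈ cl ω b := (cl_symm ω a b).1 hb
    have h1 : ∀ x : V, cl (insert s(a, b) ω) x = cl ω x := by
      intro x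
      by_cases hx : x ∈ cl ω a
      · rw [ab_cl_in ω a b x hx, hBA, Finset.union_self, cl_eq_of_mem ω a x hx]
      · exact ab_cl_out ω a b x hx (by rw [hBA]; exact hx)
    have i1 : ind (b ∉ cl ω a) = 0 := by unfold ind; rw [if_neg (not_not.2 hb)]
    have i2 : ind (a ∉ cl ω b) = 0 := by unfold ind; rw [if_neg (not_not.2 ha)]
    rw [i1, i2]
    simp_rw [h1]
    simp
  · have ha : a ∉ cl ω b := fun h => hb ((cl_symm ω b a).1 h)
    have hd : Disjoint (cl ω a) (cl ω b) := by
      rw [Finset.disjoint_left]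
      intro z hza hzb
      apply hb
      rw [← cl_eq_of_mem ω a z hza, cl_eq_of_mem ω b z hzb]
      exact mem_cl_self ω b
    have i1 : ind (b ∉ cl ω a) = 1 := by unfold ind; rw [if_pos hb]
    have i2 : ind (a ∉ cl ω b) = 1 := by unfold ind; rw [if_pos ha]
    rw [i1, i2, one_mul, one_mul]
    have h2 : ∀ x : V, (1 - q ^ (cl (insert s(a, b) ω) x).card) - (1 - q ^ (cl ω x).card) =
        ind (x ∈ cl ω a) * (q ^ (cl ω a).card * (1 - q ^ (cl ω b).card)) +
        ind (x ∈ cl ω b) * (q ^ (cl ω b).card * (1 - q ^ (cl ω a).card)) := by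
      intro x
      have hcard : (cl ω a ∪ cl ω b).card = (cl ω a).card + (cl ω b).card :=
        Finset.card_union_of_disjoint hd
      by_cases hxa : x ∈ cl ω a
      · have hxb : x ∉ cl ω b := fun h => Finset.disjoint_left.1 hd hxa h
        have j1 : ind (x ∈ cl ω a) = 1 := by unfold ind; rw [if_pos hxa]
        have j2 : ind (x ∈ cl ω b) = 0 := by unfold ind; rw [if_neg hxb]
        rw [j1, j2, ab_cl_in ω a b x hxa, cl_eq_of_mem ω a x hxa, hcard, pow_add]
        ring
      · by_cases hxb : x ∈ cl ω b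
        · have j1 : ind (x ∈ cl ω a) = 0 := by unfold ind; rw [if_neg hxa]
          have j2 : ind (x ∈ cl ω b) = 1 := by unfold ind; rw [if_pos hxb]
          have h3 : cl (insert s(a, b) ω) x = cl ω a ∪ cl ω b := by
            rw [Sym2.eq_swap, ab_cl_in ω b a x hxb, Finset.union_comm]
          rw [j1, j2, h3, cl_eq_of_mem ω b x hxb, hcard, pow_add]
          ring
        · have j1 : ind (x ∈ cl ω a) = 0 := by unfold ind; rw [if_neg hxa]
          have j2 : ind (x ∈ cl ω b) = 0 := by unfold ind; rw [if_neg hxb]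
          rw [j1, j2, ab_cl_out ω a b x hxa hxb]
          ring
    rw [Finset.sum_congr rfl fun x _ => h2 x, Finset.sum_add_distrib, ab_ind_sum, ab_ind_sum]
    ring

private theorem ab_mh_wt (E : Finset (Sym2 V)) (p h : ℝ) (x : V) :
    Mh E p h x = wt E p (fun A => 1 - (1 - h) ^ A.card) x := by
  unfold Mh wt
  rw [Ex_sub, Ex_const]

private theorem ab_mo_nonneg (E : Finset (Sym2 V)) (p h : ℝ) (h0 : 0 ≤ p) (h1 : p ≤ 1)
    (hh1 : h ≤ 1) (x : V) : 0 ≤ mo E p h 1 x :=
  xb_Ex_nonneg E p h0 h1 _ fun ω _ =>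
    mul_nonneg (pow_nonneg (Nat.cast_nonneg _) _) (pow_nonneg (by linarith) _)

private theorem ab_mo_erase (E : Finset (Sym2 V)) (p h : ℝ) (h0 : 0 ≤ p) (h1 : p ≤ 1)
    (hh1 : h ≤ 1) (e : Sym2 V) (he : e ∈ E) (x : V) :
    (1 - p) * mo (E.erase e) p h 1 x ≤ mo E p h 1 x := by
  have h2 : mo E p h 1 x = mo (insert e (E.erase e)) p h 1 x := by rw [Finset.insert_erase he]
  rw [h2]
  unfold mo
  rw [Ex_insert e (E.erase e) (Finset.notMem_erase e E)]
  have h3 : 0 ≤ p * Ex (E.erase e) p (fun ω => ((cl (insert e ω) x).card : ℝ) ^ 1 *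
      (1 - h) ^ (cl (insert e ω) x).card) :=
    mul_nonneg h0 (xb_Ex_nonneg _ p h0 h1 _ fun ω _ =>
      mul_nonneg (pow_nonneg (Nat.cast_nonneg _) _) (pow_nonneg (by linarith) _))
  linarith

/-- exploring the cluster of `a` -/
private theorem ab_half (E E' : Finset (Sym2 V)) (hE : E' ⊆ E) (p h : ℝ) (h0 : 0 ≤ p) (h1 : p ≤ 1)
    (hh0 : 0 ≤ h) (hh1 : h ≤ 1) (a b : V) :
    Ex E' p (fun ω => ind (b ∉ cl ω a) * (((cl ω a).card : ℝ) * (1 - h) ^ (cl ω a).card *
      (1 - (1 - h) ^ (cl ω b).card))) ≤ Mh E p h b * mo E' p h 1 a := by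
  set q : ℝ := 1 - h with hq
  have hq0 : 0 ≤ q := by rw [hq]; linarith
  have hq1 : q ≤ 1 := by rw [hq]; linarith
  set H : Finset V → Finset (Sym2 V) → Finset (Sym2 V) → ℝ := fun A _ η =>
    ind (b ∉ A) * ((A.card : ℝ) * q ^ A.card * (1 - q ^ (cl η b).card)) with hH
  have e1 : Ex E' p (fun ω => ind (b ∉ cl ω a) * (((cl ω a).card : ℝ) * q ^ (cl ω a).card *
      (1 - q ^ (cl ω b).card))) =
      Ex E' p (fun ω => H (cl ω a) (ω \ offE E' (cl ω a)) (ω ∩ offE E' (cl ω a))) := by
    refine Ex_congr E' p _ _ fun ω hω => ?_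
    simp only [hH]
    by_cases hb : b ∈ cl ω a
    · have : ind (b ∉ cl ω a) = 0 := by unfold ind; rw [if_neg (not_not.2 hb)]
      rw [this, zero_mul, zero_mul]
    · have h7 : b ∉ cls ω {a} := by rw [cls_singleton]; exact hb
      have h8 := (xb_cl_outside E' ω hω {a} b h7).1
      rw [cls_singleton] at h8
      rw [h8]
  rw [e1, b_mark_cl E' a p H]
  have hmono : ∀ A B : Finset V, A ⊆ B → 1 - q ^ A.card ≤ 1 - q ^ B.card := by
    intro A B hAB
    have := pow_le_pow_of_le_one hq0 hq1 (Finset.card_le_card hAB)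
    linarith
  have e2 : ∀ ω ⊆ E', Ex (offE E' (cl ω a)) p (fun η => H (cl ω a) (ω \ offE E' (cl ω a)) η) ≤
      Mh E p h b * (((cl ω a).card : ℝ) ^ 1 * q ^ (cl ω a).card) := by
    intro ω hω
    simp only [hH]
    have e3 : Ex (offE E' (cl ω a)) p (fun η => ind (b ∉ cl ω a) * (((cl ω a).card : ℝ) *
        q ^ (cl ω a).card * (1 - q ^ (cl η b).card))) =
        ind (b ∉ cl ω a) * (((cl ω a).card : ℝ) * q ^ (cl ω a).card) *
          wt (offE E' (cl ω a)) p (fun A => 1 - q ^ A.card) b := by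
      unfold wt
      rw [← Ex_mul_left]
      refine Ex_congr _ _ _ _ fun η _ => ?_
      ring
    rw [e3, pow_one]
    have h2 : wt (offE E' (cl ω a)) p (fun A => 1 - q ^ A.card) b ≤ Mh E p h b := by
      rw [ab_mh_wt]
      exact xb_wt_mono_E E _ ((xb_offE_subset E' _).trans hE) p h0 h1 _ hmono b
    have h3 : 0 ≤ wt (offE E' (cl ω a)) p (fun A => 1 - q ^ A.card) b := by
      refine xb_Ex_nonneg _ p h0 h1 _ fun η _ => ?_
      have : q ^ (cl η b).card ≤ 1 := pow_le_one₀ hq0 hq1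
      linarith
    have h4 : 0 ≤ ((cl ω a).card : ℝ) * q ^ (cl ω a).card := by positivity
    have h5 := xb_ind_le_one (b ∉ cl ω a)
    have h6 := xb_ind_nonneg (b ∉ cl ω a)
    calc ind (b ∉ cl ω a) * (((cl ω a).card : ℝ) * q ^ (cl ω a).card) *
          wt (offE E' (cl ω a)) p (fun A => 1 - q ^ A.card) b
        ≤ 1 * (((cl ω a).card : ℝ) * q ^ (cl ω a).card) * Mh E p h b := by
          apply mul_le_mul _ h2 h3 (by positivity)
          exact mul_le_mul_of_nonneg_right h5 h4
      _ = _ := by ring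
  refine (Ex_mono E' p h0 h1 _ _ e2).trans (le_of_eq ?_)
  rw [Ex_mul_left]
  rfl

end AB

theorem ab_ineq (m : ℕ) (p h : ℝ) (h0 : 0 ≤ p) (h1 : p ≤ 1) (hh0 : 0 ≤ h) (hh1 : h ≤ 1)
    (x : Q m) : ∃ D : ℝ, HasDerivAt (fun p => Mh (cubeE m) p h x) D p ∧ 0 ≤ D ∧
      D = ∑ e ∈ cubeE m, Ex (cubeE m) p (fun ω => (1 - (1 - h) ^ (cl (insert e ω) x).card) -
        (1 - (1 - h) ^ (cl (ω.erase e) x).card)) ∧
      (1 - p) * D ≤ m * Mh (cubeE m) p h x * mo (cubeE m) p h 1 x := by
  set q : ℝ := 1 - h with hq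
  have hq0 : 0 ≤ q := by rw [hq]; linarith
  have hq1 : q ≤ 1 := by rw [hq]; linarith
  set DD : Q m → ℝ := fun y => ∑ e ∈ cubeE m, Ex (cubeE m) p (fun ω =>
    (1 - q ^ (cl (insert e ω) y).card) - (1 - q ^ (cl (ω.erase e) y).card)) with hDD
  have hder : ∀ y : Q m, HasDerivAt (fun p => Mh (cubeE m) p h y) (DD y) p := by
    intro y
    have h2 := b_russ (cubeE m) (fun ω => 1 - q ^ (cl ω y).card) p
    have h3 : (fun p => Mh (cubeE m) p h y) =
        fun p => Ex (cubeE m) p (fun ω => 1 - q ^ (cl ω y).card) := by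
      funext p
      rw [ab_mh_wt]
      rfl
    rw [h3]
    exact h2
  have hDeq : ∀ y : Q m, DD y = DD x := by
    intro y
    have h2 : (fun p => Mh (cubeE m) p h y) = fun p => Mh (cubeE m) p h x := by
      funext p
      exact trans_Mh p h y x
    have h3 := hder y
    rw [h2] at h3
    exact h3.unique (hder x)
  have hD0 : 0 ≤ DD x := by
    refine Finset.sum_nonneg fun e _ => xb_Ex_nonneg _ p h0 h1 _ fun ω _ => ?_
    have h2 : (cl (ω.erase e) x).card ≤ (cl (insert e ω) x).card :=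
      Finset.card_le_card (cl_mono _ _ ((Finset.erase_subset _ _).trans
        (Finset.subset_insert _ _)) x)
    have := pow_le_pow_of_le_one hq0 hq1 h2
    linarith
  refine ⟨DD x, hder x, hD0, rfl, ?_⟩
  set M : ℝ := Mh (cubeE m) p h x with hM
  set c : ℝ := mo (cubeE m) p h 1 x with hc
  have hM0 : 0 ≤ M := (mh_nonneg (cubeE m) p h h0 h1 hh0 hh1 x).1
  have hc0 : 0 ≤ c := ab_mo_nonneg (cubeE m) p h h0 h1 hh1 x
  have hedge : ∀ e ∈ cubeE m, (1 - p) * ∑ y : Q m, Ex (cubeE m) p (fun ω =>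
      (1 - q ^ (cl (insert e ω) y).card) - (1 - q ^ (cl (ω.erase e) y).card)) ≤ 2 * (M * c) := by
    intro e he
    induction e with
    | h a b =>
      set E' := (cubeE m).erase s(a, b) with hE'
      have hE'sub : E' ⊆ cubeE m := Finset.erase_subset _ _
      have h2 : ∑ y : Q m, Ex (cubeE m) p (fun ω =>
          (1 - q ^ (cl (insert s(a, b) ω) y).card) -
            (1 - q ^ (cl (ω.erase s(a, b)) y).card)) =
          Ex E' p (fun ω => ind (b ∉ cl ω a) * (((cl ω a).card : ℝ) * q ^ (cl ω a).card *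
            (1 - q ^ (cl ω b).card)) + ind (a ∉ cl ω b) * (((cl ω b).card : ℝ) *
              q ^ (cl ω b).card * (1 - q ^ (cl ω a).card))) := by
        rw [← Ex_sum, ← Ex_restrict (cubeE m) E' hE'sub]
        refine Ex_congr _ _ _ _ fun ω hω => ?_
        have h3 : ω ∩ E' = ω.erase s(a, b) := by
          ext e
          rw [hE', Finset.mem_inter, Finset.mem_erase, Finset.mem_erase]
          constructor
          · rintro ⟨h4, h5, h6⟩
            exact ⟨h5, h4⟩
          · rintro ⟨h4, h5⟩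
            exact ⟨h5, h4, hω h5⟩
        rw [h3, ← ab_sum]
        refine Finset.sum_congr rfl fun y _ => ?_
        have h5 : insert s(a, b) (ω.erase s(a, b)) = insert s(a, b) ω := by
          ext z
          simp only [Finset.mem_insert, Finset.mem_erase]
          tauto
        rw [h5]
      rw [h2, Ex_add, mul_add]
      have h6 := ab_half (cubeE m) E' hE'sub p h h0 h1 hh0 hh1 a b
      have h7 := ab_half (cubeE m) E' hE'sub p h h0 h1 hh0 hh1 b a
      have h8 := ab_mo_erase (cubeE m) p h h0 h1 hh1 s(a, b) he a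
      have h9 := ab_mo_erase (cubeE m) p h h0 h1 hh1 s(a, b) he b
      have ea : mo (cubeE m) p h 1 a = c := trans_mo p h 1 a x
      have eb : mo (cubeE m) p h 1 b = c := trans_mo p h 1 b x
      have ma : Mh (cubeE m) p h a = M := trans_Mh p h a x
      have mb : Mh (cubeE m) p h b = M := trans_Mh p h b x
      rw [mb] at h6
      rw [ma] at h7
      rw [ea] at h8
      rw [eb] at h9
      have hp0 : 0 ≤ 1 - p := by linarith
      have h10 := mul_le_mul_of_nonneg_left h6 hp0
      have h11 := mul_le_mul_of_nonneg_left h7 hp0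
      have h12 := mul_le_mul_of_nonneg_left h8 hM0
      have h13 := mul_le_mul_of_nonneg_left h9 hM0
      calc _ ≤ (1 - p) * (M * mo E' p h 1 a) + (1 - p) * (M * mo E' p h 1 b) :=
            add_le_add h10 h11
        _ = M * ((1 - p) * mo E' p h 1 a) + M * ((1 - p) * mo E' p h 1 b) := by ring
        _ ≤ M * c + M * c := add_le_add h12 h13
        _ = _ := by ring
  have htot : 2 ^ m * ((1 - p) * DD x) ≤ (cubeE m).card * (2 * (M * c)) := by
    have h2 : 2 ^ m * ((1 - p) * DD x) = ∑ y : Q m, (1 - p) * DD y := by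
      simp_rw [hDeq]
      rw [Finset.sum_const, Finset.card_univ, nsmul_eq_mul]
      congr 1
      simp
    rw [h2, ← Finset.mul_sum]
    have h3 : (1 - p) * ∑ y : Q m, DD y = ∑ e ∈ cubeE m, (1 - p) * ∑ y : Q m, Ex (cubeE m) p
        (fun ω => (1 - q ^ (cl (insert e ω) y).card) - (1 - q ^ (cl (ω.erase e) y).card)) := by
      rw [← Finset.mul_sum, hDD]
      simp only
      rw [Finset.sum_comm]
    rw [h3]
    refine (Finset.sum_le_sum hedge).trans (le_of_eq ?_)
    rw [Finset.sum_const, nsmul_eq_mul]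
  rcases Nat.eq_zero_or_pos m with hm | hm
  · subst hm
    have h2 : cubeE 0 = ∅ := by
      apply Finset.eq_empty_of_forall_notMem
      intro e he
      induction e with
      | h a b =>
        unfold cubeE at he
        rw [SimpleGraph.mem_edgeFinset, SimpleGraph.mem_edgeSet] at he
        exact he.ne (Subsingleton.elim a b)
    rw [h2] at htot
    simp at htot
    simpa using htot
  · have h2 := var_edges m hm
    have h3 : ((cubeE m).card : ℝ) * 2 = m * 2 ^ m := by
      rw [h2]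
      push_cast
      obtain ⟨n, rfl⟩ := Nat.exists_eq_succ_of_ne_zero hm.ne'
      simp only [Nat.succ_eq_add_one, Nat.add_sub_cancel]
      rw [pow_succ (2 : ℝ) n]
      ring
    have hN : (0 : ℝ) < 2 ^ m := by positivity
    refine le_of_mul_le_mul_left ?_ hN
    calc 2 ^ m * ((1 - p) * DD x) ≤ (cubeE m).card * (2 * (M * c)) := htot
      _ = ((cubeE m).card * 2) * (M * c) := by ring
      _ = 2 ^ m * (m * M * c) := by rw [h3]; ring

end Pool.Agent.Work.MP_b7dc8a_pr
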