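import Pool.Agent.Work.MP_b7dc8a_pr.F.DefI

/-! Definitions for the module family F, group U (do not change) -/

namespace Pool.Agent.Work.MP_b7dc8a_pr

open Finset

open Classical in
/-- vertices outside `W` which are joined to `S` by an edge of `η` -/
noncomputable def BBS {V : Type} [Fintype V] (S W : Finset V) (η : Finset (Sym2 V)) : Finset V :=
  univ.filter fun y => y ∉ W ∧ ∃ x ∈ S, s(x, y) ∈ η

open Classical in
/-- number of edges between `y` and `S`, for `y ∉ W` -/
noncomputable def fS {V : Type} (E : Finset (Sym2 V)) (S W : Finset V) (y : V) : ℝ :=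
  if y ∈ W then 0 else (dgr E y S : ℝ)

open Classical in
/-- the number of vertices in clusters with more than `R` vertices -/
noncomputable def ZR {V : Type} [Fintype V] (R : ℕ) (ω : Finset (Sym2 V)) : ℝ :=
  ((univ.filter fun x => R < (cl ω x).card).card : ℝ)

/-- there are two different clusters with more than `R` vertices -/
def TwoBig {V : Type} [Fintype V] (R : ℕ) (ω : Finset (Sym2 V)) : Prop :=
  ∃ x y, R < (cl ω x).card ∧ R < (cl ω y).card ∧ y ∉ cl ω x

end Pool.Agent.Work.MP_b7dc8a_pr
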