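import Pool.Agent.Work.MP_b7dc8a_pr.F.D2b
import Pool.Agent.Work.MP_b7dc8a_pr.F.DefU
import Pool.Agent.Work.MP_b7dc8a_pr.Lclt

/-! Module APX (M): the largest cluster compared with `V - N`, `N = NN E ∅`, `E = cubeE m`, `V = 2^m`.

For `ω ⊆ E`: `V - N ω G = |cls ω G|` (`nn_total`).
`zr_l1`: `|ZR n ω - |cls ω G|| <= ∑_x (ind (n < |cl ω x|, x ∉ cls ω G) + ind (|cl ω x| <= n, x ∈ cls ω G))`; given `ω`,
 `x ∉ cls ω G` has probability `(1-h)^|cl ω x|` (`gh_not`, `gh_disj`): first sum `<= V (1-h)^n θ`, `θ = Ex (ind (n < |cl ω x|)) <= 2 Mh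
 <= 2 C0 e` (`1 - (1-h)^k >= 1/2` for `k > n`); second `<= V h Ex (|cl ω x| ind (|cl ω x| <= n)) <= V h C0/e`.
`zr_zero`: `Y = |cls ω G|` has mean `>= c9 e V` (`hlow`; mean is `∑_x Mh x`) and variance `<= 36 C0^3 V/e` (`varn_up`). If all
 clusters have at most `n` vertices then `ZR = 0`, so `Y <= EG Y/2` or `|ZR - Y| >= c9 e V/2`. Chebyshev and Markov:
 `P <= 4 Var/(c9 e V)^2 + 2 EG |ZR - Y|/(c9 e V)`.
`apx`: a function of `ω` only: `ExC F = EGC (fun ω _ => F ω)`. If `TwoBig n ω` fails and some cluster has more than `n`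
 vertices, then `largest ω = ZR n ω` (all vertices with `|cl| > n` lie in one cluster, which is the largest) and the
 exponents differ by `|t| |ZR n ω - (V - N)|/σ` (`|exp (ix) - exp (iy)| <= |x - y|`); otherwise the difference is at most
 `2`. -/

namespace Pool.Agent.Work.MP_b7dc8a_pr

open Finset

section
variable {V : Type} [Fintype V] [DecidableEq V]

omit [DecidableEq V] in
private theorem apx_mono (E : Finset (Sym2 V)) (p h : ℝ) (h0 : 0 ≤ p) (h1 : p ≤ 1) (hh0 : 0 ≤ h)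
    (hh1 : h ≤ 1) (F H : Finset (Sym2 V) → Finset V → ℝ) (hFH : ∀ ω ⊆ E, ∀ G, F ω G ≤ H ω G) :
    EG E p h F ≤ EG E p h H :=
  Ex_mono _ _ h0 h1 _ _ fun _ hω => Ex_mono _ _ hh0 hh1 _ _ fun _ _ => hFH _ hω _

omit [DecidableEq V] in
private theorem apx_add (E : Finset (Sym2 V)) (p h : ℝ) (F H : Finset (Sym2 V) → Finset V → ℝ) :
    EG E p h (fun ω G => F ω G + H ω G) = EG E p h F + EG E p h H := by
  unfold EG
  rw [← Ex_add]
  exact Ex_congr _ _ _ _ fun ω _ => Ex_add _ _ _ _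

omit [DecidableEq V] in
private theorem apx_mul (E : Finset (Sym2 V)) (p h c : ℝ) (F : Finset (Sym2 V) → Finset V → ℝ) :
    EG E p h (fun ω G => c * F ω G) = c * EG E p h F := by
  unfold EG
  rw [← Ex_mul_left]
  exact Ex_congr _ _ _ _ fun ω _ => Ex_mul_left _ _ _ _

omit [DecidableEq V] in
private theorem apx_const (E : Finset (Sym2 V)) (p h c : ℝ) :
    EG E p h (fun _ _ => c) = c := by
  unfold EG
  rw [Ex_const, Ex_const]

omit [DecidableEq V] in
private theorem apx_om (E : Finset (Sym2 V)) (p h : ℝ) (F : Finset (Sym2 V) → ℝ) :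
    EG E p h (fun ω _ => F ω) = Ex E p F := by
  unfold EG
  exact Ex_congr _ _ _ _ fun ω _ => Ex_const _ _ _

omit [DecidableEq V] in
private theorem apx_sum {ι : Type*} (I : Finset ι) (E : Finset (Sym2 V)) (p h : ℝ)
    (F : ι → Finset (Sym2 V) → Finset V → ℝ) :
    EG E p h (fun ω G => ∑ i ∈ I, F i ω G) = ∑ i ∈ I, EG E p h (F i) := by
  unfold EG
  rw [← Ex_sum]
  exact Ex_congr _ _ _ _ fun ω _ => Ex_sum _ _ _ _

private theorem apx_nn (E : Finset (Sym2 V)) (ω : Finset (Sym2 V)) (hω : ω ⊆ E) (G : Finset V) :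
    (Fintype.card V : ℝ) - NN E ∅ ω G = ∑ x, ind (¬ Disjoint (cl ω x) G) := by
  classical
  unfold NN
  rw [xb_offE_empty, inter_eq_left.2 hω]
  have h1 : (univ.filter fun z : V => z ∉ (∅ : Finset V) ∧ z ∉ cls ω G) =
      univ.filter fun z => Disjoint (cl ω z) G := by
    ext z
    simp [gh_not]
  rw [h1]
  have h2 : (((univ.filter fun z => Disjoint (cl ω z) G).card : ℕ) : ℝ) =
      ∑ x, ind (Disjoint (cl ω x) G) := by
    rw [card_filter]
    push_cast
    refine Finset.sum_congr rfl fun x _ => ?_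
    unfold ind
    by_cases hd : Disjoint (cl ω x) G
    · simp [hd]
    · simp [hd]
  rw [h2]
  have h3 : (Fintype.card V : ℝ) = ∑ _x : V, (1 : ℝ) := by simp
  rw [h3, ← Finset.sum_sub_distrib]
  refine Finset.sum_congr rfl fun x _ => ?_
  unfold ind
  by_cases hd : Disjoint (cl ω x) G
  · simp [hd]
  · simp [hd]

omit [DecidableEq V] in
private theorem apx_zr (n : ℕ) (ω : Finset (Sym2 V)) :
    ZR n ω = ∑ x, ind (n < (cl ω x).card) := by
  classical
  unfold ZR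
  rw [card_filter]
  push_cast
  refine Finset.sum_congr rfl fun x _ => ?_
  unfold ind
  by_cases hd : n < (cl ω x).card
  · simp [hd]
  · simp [hd]

private theorem apx_Mh (E : Finset (Sym2 V)) (p h : ℝ) :
    EG E p h (fun ω G => ∑ x, ind (¬ Disjoint (cl ω x) G)) = ∑ x, Mh E p h x := by
  rw [apx_sum]
  refine Finset.sum_congr rfl fun x _ => ?_
  unfold EG Mh
  simp only [gh_hit]
  rw [Ex_sub, Ex_const]

end

private theorem apx_cardQ (m : ℕ) : ((Fintype.card (Q m) : ℕ) : ℝ) = 2 ^ m := by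
  simp [Q]

theorem zr_l1 (C0 e p h : ℝ) (K m : ℕ) (R : Reg C0 K m e p h) (n : ℕ) (ht : (1 - h) ^ n ≤ 1 / 2)
    (hs : ∀ x : Q m, Ex (cubeE m) p (fun ω => ((cl ω x).card : ℝ) * ind ((cl ω x).card ≤ n)) ≤
      C0 / e) :
    EG (cubeE m) p h (fun ω G => |ZR n ω - (2 ^ m - NN (cubeE m) ∅ ω G)|) ≤
      2 ^ m * (2 * (1 - h) ^ n * C0 * e + h * C0 / e) := by
  have hp0 := R.hp0
  have hp1 : p ≤ 1 := by linarith [R.hp1]
  have he0 := R.he0
  have he1 := R.he1
  have hh0 := R.hh0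
  have hh1 : h ≤ 1 := by nlinarith [R.hh]
  have hC0 := R.hC0
  have hq0 : 0 ≤ 1 - h := by linarith
  have hq1 : 1 - h ≤ 1 := by linarith
  have h1 : EG (cubeE m) p h (fun ω G => |ZR n ω - (2 ^ m - NN (cubeE m) ∅ ω G)|) ≤
      EG (cubeE m) p h (fun ω G => ∑ x, (ind (n < (cl ω x).card) * ind (Disjoint (cl ω x) G) +
        ind ((cl ω x).card ≤ n) * ind (¬ Disjoint (cl ω x) G))) := by
    refine apx_mono _ _ _ hp0 hp1 hh0 hh1 _ _ fun ω hω G => ?_
    rw [← apx_cardQ, apx_nn _ ω hω, apx_zr, ← Finset.sum_sub_distrib]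
    refine (Finset.abs_sum_le_sum_abs _ _).trans (Finset.sum_le_sum fun x _ => ?_)
    unfold ind
    by_cases a1 : n < (cl ω x).card
    · have a2 : ¬ (cl ω x).card ≤ n := by omega
      by_cases a3 : Disjoint (cl ω x) G <;> simp [a1, a2, a3]
    · have a2 : (cl ω x).card ≤ n := by omega
      by_cases a3 : Disjoint (cl ω x) G <;> simp [a1, a2, a3]
  refine h1.trans ?_
  rw [apx_sum]
  have h2 : ∀ x : Q m, EG (cubeE m) p h (fun ω G => ind (n < (cl ω x).card) *
      ind (Disjoint (cl ω x) G) + ind ((cl ω x).card ≤ n) * ind (¬ Disjoint (cl ω x) G)) ≤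
      2 * (1 - h) ^ n * C0 * e + h * C0 / e := by
    intro x
    rw [apx_add]
    have g1 : EG (cubeE m) p h (fun ω G => ind (n < (cl ω x).card) *
      ind (Disjoint (cl ω x) G)) ≤ 2 * (1 - h) ^ n * C0 * e := by
      unfold EG
      have k1 : Ex (cubeE m) p (fun ω => Ex (univ : Finset (Q m)) h (fun G =>
          ind (n < (cl ω x).card) * ind (Disjoint (cl ω x) G))) ≤
          Ex (cubeE m) p (fun ω => (2 * (1 - h) ^ n) * (1 - (1 - h) ^ (cl ω x).card)) := by
        refine Ex_mono _ _ hp0 hp1 _ _ fun ω _ => ?_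
        rw [Ex_mul_left, gh_disj]
        have q0 : 0 ≤ (1 - h) ^ n := pow_nonneg hq0 _
        have q1 : (1 - h) ^ (cl ω x).card ≤ 1 := pow_le_one₀ hq0 hq1
        by_cases a1 : n < (cl ω x).card
        · rw [walk_ind_pos _ a1, one_mul]
          have q2 : (1 - h) ^ (cl ω x).card ≤ (1 - h) ^ n :=
            pow_le_pow_of_le_one hq0 hq1 a1.le
          have q3 : 1 / 2 ≤ 1 - (1 - h) ^ (cl ω x).card := by linarith
          have q4 := mul_le_mul_of_nonneg_left q3 (by linarith : 0 ≤ 2 * (1 - h) ^ n)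
          linarith
        · rw [walk_ind_neg _ a1, zero_mul]
          have q3 : 0 ≤ 1 - (1 - h) ^ (cl ω x).card := by linarith
          positivity
      refine k1.trans ?_
      rw [Ex_mul_left, Ex_sub, Ex_const]
      have k2 := R.hM x
      unfold Mh at k2
      have q0 : 0 ≤ 2 * (1 - h) ^ n := by
        have := pow_nonneg hq0 n
        linarith
      have k3 := mul_le_mul_of_nonneg_left k2 q0
      linarith
    have g2 : EG (cubeE m) p h (fun ω G => ind ((cl ω x).card ≤ n) *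
      ind (¬ Disjoint (cl ω x) G)) ≤ h * C0 / e := by
      unfold EG
      have k1 : Ex (cubeE m) p (fun ω => Ex (univ : Finset (Q m)) h (fun G =>
          ind ((cl ω x).card ≤ n) * ind (¬ Disjoint (cl ω x) G))) ≤
          Ex (cubeE m) p (fun ω => h * (((cl ω x).card : ℝ) * ind ((cl ω x).card ≤ n))) := by
        refine Ex_mono _ _ hp0 hp1 _ _ fun ω _ => ?_
        rw [Ex_mul_left, gh_hit]
        have q1 : 1 - (1 - h) ^ (cl ω x).card ≤ h * (cl ω x).card := by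
          have := one_add_mul_le_pow (a := -h) (by linarith) (cl ω x).card
          have e1 : 1 + -h = 1 - h := by ring
          rw [e1] at this
          linarith
        have q2 := mul_le_mul_of_nonneg_left q1 (xb_ind_nonneg ((cl ω x).card ≤ n))
        linarith
      refine k1.trans ?_
      rw [Ex_mul_left]
      have := mul_le_mul_of_nonneg_left (hs x) hh0
      refine this.trans_eq ?_
      ring
    linarith
  refine (Finset.sum_le_sum fun x _ => h2 x).trans_eq ?_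
  rw [Finset.sum_const, nsmul_eq_mul, Finset.card_univ, apx_cardQ]

theorem zr_zero (C0 e p h c9 : ℝ) (K m : ℕ) (R : Reg C0 K m e p h) (hK : 2 ≤ K) (n : ℕ)
    (hc9 : 0 < c9) (hlow : ∀ x : Q m, c9 * e ≤ Mh (cubeE m) p h x) :
    Ex (cubeE m) p (fun ω => ind (∀ x, (cl ω x).card ≤ n)) ≤
      4 * (36 * C0 ^ 3 * 2 ^ m / e) / (c9 * e * 2 ^ m) ^ 2 +
      2 * EG (cubeE m) p h (fun ω G => |ZR n ω - (2 ^ m - NN (cubeE m) ∅ ω G)|) /
        (c9 * e * 2 ^ m) := by
  have hp0 := R.hp0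
  have hp1 : p ≤ 1 := by linarith [R.hp1]
  have he0 := R.he0
  have he1 := R.he1
  have hh0 := R.hh0
  have hh1 : h ≤ 1 := by nlinarith [R.hh]
  have hC0 := R.hC0
  have hV0 : (0 : ℝ) < 2 ^ m := by positivity
  set a := c9 * e * 2 ^ m with ha
  have ha0 : 0 < a := by positivity
  set μN := EG (cubeE m) p h (NN (cubeE m) ∅) with hμN
  have hμ : a ≤ 2 ^ m - μN := by
    have e1 : 2 ^ m - μN = EG (cubeE m) p h (fun ω G => 2 ^ m + -1 * NN (cubeE m) ∅ ω G) := by
      rw [apx_add, apx_const, apx_mul]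
      ring
    have e2 : EG (cubeE m) p h (fun ω G => 2 ^ m + -1 * NN (cubeE m) ∅ ω G) =
        EG (cubeE m) p h (fun ω G => ∑ x, ind (¬ Disjoint (cl ω x) G)) := by
      unfold EG
      refine Ex_congr _ _ _ _ fun ω hω => Ex_congr _ _ _ _ fun G _ => ?_
      beta_reduce
      rw [← apx_nn _ ω hω, apx_cardQ]
      ring
    rw [e1, e2, apx_Mh]
    calc a = ∑ _x : Q m, c9 * e := by
          rw [Finset.sum_const, nsmul_eq_mul, Finset.card_univ, apx_cardQ, ha]
          ring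
      _ ≤ _ := Finset.sum_le_sum fun x _ => hlow x
  have hvar : EG (cubeE m) p h (fun ω G => (NN (cubeE m) ∅ ω G - μN) ^ 2) ≤
      36 * C0 ^ 3 * 2 ^ m / e := by
    refine le_trans (le_of_eq ?_) (varn_up C0 e p h K m R hK)
    have e1 : (fun (ω : Finset (Sym2 (Q m))) (G : Finset (Q m)) =>
        (NN (cubeE m) ∅ ω G - μN) ^ 2) = fun ω G =>
        (NN (cubeE m) ∅ ω G ^ 2 + -2 * μN * NN (cubeE m) ∅ ω G) + μN ^ 2 := by
      funext ω G
      ring
    rw [e1, apx_add, apx_add, apx_const, apx_mul]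
    ring
  have h1 : EG (cubeE m) p h (fun ω _ => ind (∀ x, (cl ω x).card ≤ n)) ≤
      EG (cubeE m) p h (fun ω G => (4 / a ^ 2) * (NN (cubeE m) ∅ ω G - μN) ^ 2 +
        (2 / a) * |ZR n ω - (2 ^ m - NN (cubeE m) ∅ ω G)|) := by
    refine apx_mono _ _ _ hp0 hp1 hh0 hh1 _ _ fun ω hω G => ?_
    by_cases hA : ∀ x, (cl ω x).card ≤ n
    · rw [walk_ind_pos _ hA]
      have hZ : ZR n ω = 0 := by
        rw [apx_zr]
        refine Finset.sum_eq_zero fun x _ => walk_ind_neg _ ?_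
        have := hA x
        omega
      rw [hZ]
      set Y := 2 ^ m - NN (cubeE m) ∅ ω G with hY
      have hN : NN (cubeE m) ∅ ω G = 2 ^ m - Y := by rw [hY]; ring
      rw [hN]
      by_cases hb : a / 2 ≤ Y
      · have q1 : a / 2 ≤ |0 - Y| := by
          rw [zero_sub, abs_neg]
          exact hb.trans (le_abs_self _)
        have q2 := mul_le_mul_of_nonneg_left q1 (by positivity : 0 ≤ 2 / a)
        have q3 : 2 / a * (a / 2) = 1 := by field_simp
        have q4 : 0 ≤ 4 / a ^ 2 * (2 ^ m - Y - μN) ^ 2 := by positivity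
        linarith
      · have q1 : a / 2 ≤ 2 ^ m - Y - μN := by linarith
        have q2 : (a / 2) ^ 2 ≤ (2 ^ m - Y - μN) ^ 2 := pow_le_pow_left₀ (by positivity) q1 2
        have q3 := mul_le_mul_of_nonneg_left q2 (by positivity : 0 ≤ 4 / a ^ 2)
        have q4 : 4 / a ^ 2 * (a / 2) ^ 2 = 1 := by field_simp; norm_num
        have q5 : 0 ≤ 2 / a * |0 - Y| := by positivity
        linarith
    · rw [walk_ind_neg _ hA]
      positivity
  rw [apx_om, apx_add, apx_mul, apx_mul] at h1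
  refine h1.trans ?_
  have h2 := mul_le_mul_of_nonneg_left hvar (by positivity : 0 ≤ 4 / a ^ 2)
  have e1 : 4 / a ^ 2 * (36 * C0 ^ 3 * 2 ^ m / e) = 4 * (36 * C0 ^ 3 * 2 ^ m / e) / a ^ 2 := by
    ring
  have e2 : 2 / a * EG (cubeE m) p h (fun ω G => |ZR n ω - (2 ^ m - NN (cubeE m) ∅ ω G)|) =
      2 * EG (cubeE m) p h (fun ω G => |ZR n ω - (2 ^ m - NN (cubeE m) ∅ ω G)|) / a := by ring
  rw [e1] at h2
  rw [e2]
  linarith

private theorem apx_largest (m n : ℕ) (ω : Finset (Sym2 (Q m))) (h1 : ¬ TwoBig n ω)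
    (h2 : ¬ ∀ x, (cl ω x).card ≤ n) : (largest ω : ℝ) = ZR n ω := by
  classical
  push Not at h2
  obtain ⟨x, hx⟩ := h2
  have h3 : ∀ y, n < (cl ω y).card → y ∈ cl ω x := by
    intro y hy
    by_contra hc
    exact h1 ⟨x, y, hx, hy, hc⟩
  have h4 : (univ.filter fun y => n < (cl ω y).card) = cl ω x := by
    ext y
    rw [mem_filter]
    constructor
    · rintro ⟨_, hy⟩
      exact h3 y hy
    · intro hy
      refine ⟨mem_univ _, ?_⟩
      rw [cl_eq_of_mem ω x y hy]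
      exact hx
  have h5 : largest ω = (cl ω x).card := by
    unfold largest
    refine le_antisymm (Finset.sup_le fun y _ => ?_) (Finset.le_sup (f := fun x => (cl ω x).card)
      (mem_univ x))
    by_cases hy : n < (cl ω y).card
    · rw [cl_eq_of_mem ω x y (h3 y hy)]
    · omega
  rw [h5]
  unfold ZR
  have h6 : (univ.filter fun y => n < (cl ω y).card).card = (cl ω x).card := by rw [h4]
  rw [← h6]

private theorem apx_exp (x y : ℝ) : ‖Complex.exp (Complex.I * (x : ℂ)) -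
    Complex.exp (Complex.I * (y : ℂ))‖ ≤ |x - y| := by
  have e1 : Complex.exp (Complex.I * (x : ℂ)) - Complex.exp (Complex.I * (y : ℂ)) =
      Complex.exp (Complex.I * (y : ℂ)) * (Complex.exp (Complex.I * ((x - y : ℝ) : ℂ)) - 1) := by
    rw [mul_sub, ← Complex.exp_add, mul_one]
    congr 2
    push_cast
    ring
  rw [e1, norm_mul, Complex.norm_exp_I_mul_ofReal, one_mul, ← Real.norm_eq_abs]
  exact Real.norm_exp_I_mul_ofReal_sub_one_le

theorem apx (m n : ℕ) (p h σ μ t : ℝ) (h0 : 0 ≤ p) (h1 : p ≤ 1) (hh0 : 0 ≤ h) (hh1 : h ≤ 1)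
    (hσ : 0 < σ) :
    ‖ExC (cubeE m) p (fun ω =>
        Complex.exp (Complex.I * ((t * (((largest ω : ℝ) - (2 ^ m - μ)) / σ) : ℝ) : ℂ))) -
      EGC (cubeE m) p h (fun ω G =>
        Complex.exp (Complex.I * ((-t * ((NN (cubeE m) ∅ ω G - μ) / σ) : ℝ) : ℂ)))‖ ≤
    2 * Ex (cubeE m) p (fun ω => ind (TwoBig n ω)) +
      2 * Ex (cubeE m) p (fun ω => ind (∀ x, (cl ω x).card ≤ n)) +
      |t| / σ * EG (cubeE m) p h (fun ω G => |ZR n ω - (2 ^ m - NN (cubeE m) ∅ ω G)|) := by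
  have e1 : ∀ ω : Finset (Sym2 (Q m)),
      Complex.exp (Complex.I * ((t * (((largest ω : ℝ) - (2 ^ m - μ)) / σ) : ℝ) : ℂ)) =
      ExC (univ : Finset (Q m)) h (fun _ =>
        Complex.exp (Complex.I * ((t * (((largest ω : ℝ) - (2 ^ m - μ)) / σ) : ℝ) : ℂ))) := by
    intro ω
    generalize Complex.exp (Complex.I * ((t * (((largest ω : ℝ) - (2 ^ m - μ)) / σ) : ℝ) : ℂ)) = z
    have k1 : ExC (univ : Finset (Q m)) h (fun _ => ((1 : ℝ) : ℂ)) = ((1 : ℝ) : ℂ) := by
      rw [ExC_ofReal (univ : Finset (Q m)) h (fun _ => (1 : ℝ)), Ex_const]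
    have k2 := ExC_mul_left (univ : Finset (Q m)) h z (fun _ => ((1 : ℝ) : ℂ))
    rw [k1] at k2
    simpa using k2.symm
  have e2 : ExC (cubeE m) p (fun ω =>
        Complex.exp (Complex.I * ((t * (((largest ω : ℝ) - (2 ^ m - μ)) / σ) : ℝ) : ℂ))) -
      EGC (cubeE m) p h (fun ω G =>
        Complex.exp (Complex.I * ((-t * ((NN (cubeE m) ∅ ω G - μ) / σ) : ℝ) : ℂ))) =
      ExC (cubeE m) p (fun ω => ExC (univ : Finset (Q m)) h (fun G =>
        Complex.exp (Complex.I * ((t * (((largest ω : ℝ) - (2 ^ m - μ)) / σ) : ℝ) : ℂ)) -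
        Complex.exp (Complex.I * ((-t * ((NN (cubeE m) ∅ ω G - μ) / σ) : ℝ) : ℂ)))) := by
    unfold EGC
    rw [← ExC_sub]
    congr 1
    funext ω
    rw [ExC_sub, ← e1 ω]
  rw [e2]
  have h2 : ‖ExC (cubeE m) p (fun ω => ExC (univ : Finset (Q m)) h (fun G =>
        Complex.exp (Complex.I * ((t * (((largest ω : ℝ) - (2 ^ m - μ)) / σ) : ℝ) : ℂ)) -
        Complex.exp (Complex.I * ((-t * ((NN (cubeE m) ∅ ω G - μ) / σ) : ℝ) : ℂ))))‖ ≤
      EG (cubeE m) p h (fun ω G => ‖Complex.exp (Complex.I *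
        ((t * (((largest ω : ℝ) - (2 ^ m - μ)) / σ) : ℝ) : ℂ)) -
        Complex.exp (Complex.I * ((-t * ((NN (cubeE m) ∅ ω G - μ) / σ) : ℝ) : ℂ))‖) := by
    refine (ExC_norm_le _ _ h0 h1 _).trans ?_
    unfold EG
    exact Ex_mono _ _ h0 h1 _ _ fun ω _ => ExC_norm_le _ _ hh0 hh1 _
  refine h2.trans ?_
  have h3 : EG (cubeE m) p h (fun ω G => ‖Complex.exp (Complex.I *
        ((t * (((largest ω : ℝ) - (2 ^ m - μ)) / σ) : ℝ) : ℂ)) -
        Complex.exp (Complex.I * ((-t * ((NN (cubeE m) ∅ ω G - μ) / σ) : ℝ) : ℂ))‖) ≤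
      EG (cubeE m) p h (fun ω G => (2 * ind (TwoBig n ω) +
        2 * ind (∀ x, (cl ω x).card ≤ n)) +
        |t| / σ * |ZR n ω - (2 ^ m - NN (cubeE m) ∅ ω G)|) := by
    refine apx_mono _ _ _ h0 h1 hh0 hh1 _ _ fun ω hω G => ?_
    have i1 := xb_ind_nonneg (TwoBig n ω)
    have i2 := xb_ind_nonneg (∀ x, (cl ω x).card ≤ n)
    have i3 : 0 ≤ |t| / σ * |ZR n ω - (2 ^ m - NN (cubeE m) ∅ ω G)| := by positivity
    have n2 : ‖Complex.exp (Complex.I *
        ((t * (((largest ω : ℝ) - (2 ^ m - μ)) / σ) : ℝ) : ℂ)) -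
        Complex.exp (Complex.I * ((-t * ((NN (cubeE m) ∅ ω G - μ) / σ) : ℝ) : ℂ))‖ ≤ 2 := by
      refine (norm_sub_le _ _).trans ?_
      rw [Complex.norm_exp_I_mul_ofReal, Complex.norm_exp_I_mul_ofReal]
      norm_num
    by_cases c1 : TwoBig n ω
    · rw [walk_ind_pos _ c1] at i1 ⊢
      linarith
    by_cases c2 : ∀ x, (cl ω x).card ≤ n
    · rw [walk_ind_pos _ c2] at i2 ⊢
      linarith
    rw [walk_ind_neg _ c1, walk_ind_neg _ c2]
    refine (apx_exp _ _).trans ?_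
    rw [apx_largest m n ω c1 c2]
    have e3 : t * ((ZR n ω - (2 ^ m - μ)) / σ) - -t * ((NN (cubeE m) ∅ ω G - μ) / σ) =
        (t / σ) * (ZR n ω - (2 ^ m - NN (cubeE m) ∅ ω G)) := by
      field_simp
      ring
    rw [e3, abs_mul, abs_div, abs_of_pos hσ]
    linarith
  refine h3.trans ?_
  rw [apx_add, apx_add, apx_mul, apx_mul, apx_mul, apx_om, apx_om]

end Pool.Agent.Work.MP_b7dc8a_pr
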