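import Pool.Agent.Work.MP_b7dc8a_pr.F.Ghost

/-! Module SPV (M-L): special vertices. For a vertex `v` put `Ev = offE (cubeE m) {v}`, `ω_v = ω ∩ Ev`.

For `ω ⊆ cubeE m`, `G`, vertices `x, v` and distinct neighbours `u, a, b` of `v` let `A(x,v,u,a,b)` be the
event: `v ∉ G`; the edges of `ω` at `v` are exactly `s(v,u), s(v,a), s(v,b)`; `x ∈ cl ω_v u`,
`cl ω_v u` does not meet `G`, `cl ω_v a` and `cl ω_v b` meet `G`, `b ∉ cl ω_v a`.
(1) On `A` we have `x ∈ cls ω G` (via `v` and `a`).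
(2) For given `(ω, G, x)` the vertex `v` is unique. Let `A(x,v,u,a,b)` and `A(x,v',u',a',b')` hold with
 `v ≠ v'`. Put `K_u = cl ω_v u`, `K_a = cl ω_v a`, `K_b = cl ω_v b`: `K_u` has no ghost, `K_a, K_b` have
 ghosts, `K_a ∩ K_b = ∅`, and `cl ω x = {v} ∪ K_u ∪ K_a ∪ K_b` (disjoint). As `x ∈ cl ω_{v'} u'` and
 `s(v',u') ∈ ω`, `v' ∈ cl ω x`, so `v'` lies in exactly one of `K_u, K_a, K_b`.
 Case `v' ∈ K_u`: `{v} ∪ K_a ∪ K_b` is connected in `ω_{v'}` (it does not contain `v'`) and contains all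
 ghosts of `cl ω x`. But `cl ω_{v'} a'` and `cl ω_{v'} b'` are contained in `cl ω x`, disjoint, and both
 contain ghosts, contradiction.
 Case `v' ∈ K_a` (the case `K_b` is the same): `K_u ∪ {v} ∪ K_b` is connected in `ω_{v'}`, so
 `cl ω_{v'} x = cl ω_{v'} u'` contains the ghosts of `K_b`, contradiction.
 For given `v`: `{u,a,b}` is the set of open neighbours of `v`, and `u` is the only one of them whose
 branch `cl ω_v u` has no ghost; so there are at most 2 ordered triples `(u,a,b)`.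
(3) So `∑_{v,u,a,b} ind A(x,v,u,a,b) <= 2 ind (x ∈ cls ω G)` for every `(ω, G, x)`. Take `EG` and sum
 over `x`: right side `2 ∑_x Mh x` (`gh_not`, `gh_hit`). Left side: `∑_x ind (x ∈ cl ω_v u) =
 |cl ω_v u|`; the edges at `v` (there are `m`, independent of `Ev`, `Ex_mul_indep`) give
 `p^3 (1-p)^(m-3)`, `v ∉ G` gives `(1-h)` (the sets `cl ω_v u` etc. do not contain `v`, `xb_cl_off'`), and
 the three disjoint sets give `(1-h)^|cl ω_v u| θ(cl ω_v a) θ(cl ω_v b)` (`gh_prod`, `gh_disj`), on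
 `a, b ∉ cl ω_v u`, `b ∉ cl ω_v a`. So it is `(1-h) p^3 (1-p)^(m-3) ∑ Jf Ev p h u a b`. -/

namespace Pool.Agent.Work.MP_b7dc8a_pr

open Finset

section SPV
variable {V : Type} [Fintype V] [DecidableEq V]

/-- the event `A(x,v,u,a,b)` -/
private def AA (E ω : Finset (Sym2 V)) (G : Finset V) (x v u a b : V) : Prop :=
  v ∉ G ∧ (∀ z, s(v, z) ∈ ω ↔ z = u ∨ z = a ∨ z = b) ∧ x ∈ cl (ω ∩ offE E {v}) u ∧
  Disjoint (cl (ω ∩ offE E {v}) u) G ∧ ¬ Disjoint (cl (ω ∩ offE E {v}) a) G ∧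
  ¬ Disjoint (cl (ω ∩ offE E {v}) b) G ∧ b ∉ cl (ω ∩ offE E {v}) a

omit [DecidableEq V] in
private theorem cl_meet (ω : Finset (Sym2 V)) (x y z : V) (hx : z ∈ cl ω x) (hy : z ∈ cl ω y) :
    cl ω x = cl ω y := by
  rw [← cl_eq_of_mem ω x z hx, cl_eq_of_mem ω y z hy]

omit [DecidableEq V] in
private theorem cl_in (ω : Finset (Sym2 V)) (x y z : V) (hx : x ∈ cl ω z) (hy : y ∈ cl ω z) :
    y ∈ cl ω x := by
  rw [cl_eq_of_mem ω z x hx]
  exact hy

private theorem AA_symm (E ω : Finset (Sym2 V)) (G : Finset V) (x v u a b : V)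
    (h : AA E ω G x v u a b) : AA E ω G x v u b a := by
  obtain ⟨h1, h2, h3, h4, h5, h6, h7⟩ := h
  refine ⟨h1, fun z => ?_, h3, h4, h6, h5, fun h => h7 ((cl_symm _ _ _).1 h)⟩
  rw [h2 z]
  tauto

private theorem AA_cls (E ω : Finset (Sym2 V)) (G : Finset V) (x v u a b : V)
    (h : AA E ω G x v u a b) : x ∈ cls ω G := by
  obtain ⟨h1, h2, h3, h4, h5, h6, h7⟩ := h
  rw [Finset.not_disjoint_iff] at h5
  obtain ⟨g, hg, hgG⟩ := h5
  rw [xb_mem_cls]
  refine ⟨g, hgG, ?_⟩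
  have hx : x ∈ cl ω u := cl_mono _ _ inter_subset_left u h3
  have hg' : g ∈ cl ω a := cl_mono _ _ inter_subset_left a hg
  have hu : u ∈ cl ω v := cl_closed ω v v u (mem_cl_self ω v) ((h2 u).2 (Or.inl rfl))
  have ha : a ∈ cl ω v := cl_closed ω v v a (mem_cl_self ω v) ((h2 a).2 (Or.inr (Or.inl rfl)))
  rw [cl_eq_of_mem ω v u hu] at hx
  rw [cl_eq_of_mem ω v a ha] at hg'
  exact cl_in ω g x v hg' hx

private theorem keep (E ω : Finset (Sym2 V)) (v v' w : V)
    (h : v' ∉ cl (ω ∩ offE E {v}) w) :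
    cl (ω ∩ offE E {v}) w ⊆ cl (ω ∩ offE E {v'}) w := by
  have h1 : cl ((ω ∩ offE E {v}) ∩ offE E {v'}) w = cl (ω ∩ offE E {v}) w := by
    refine cl_eq_of _ _ w fun x hx y => ?_
    rw [mem_inter (a := s(x, y)) (s₁ := ω ∩ offE E {v})]
    refine ⟨fun hxy => ⟨hxy, ?_⟩, fun hxy => hxy.1⟩
    have hy := cl_closed _ w x y hx hxy
    rw [xb_mem_offE, mem_singleton, mem_singleton]
    refine ⟨((xb_mem_offE E {v} x y).1 (mem_inter.1 hxy).2).1, ?_, ?_⟩
    · rintro rfl
      exact h hx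
    · rintro rfl
      exact h hy
  rw [← h1]
  exact cl_mono _ _ (inter_subset_inter_right inter_subset_left) w

private theorem edge (E ω : Finset (Sym2 V)) (hω : ω ⊆ E) (v v' w : V) (h : s(v, w) ∈ ω)
    (h1 : v ≠ v') (h2 : w ≠ v') : v ∈ cl (ω ∩ offE E {v'}) w := by
  refine cl_closed _ w w v (mem_cl_self _ w) ?_
  rw [mem_inter, Sym2.eq_swap]
  refine ⟨h, ?_⟩
  rw [xb_mem_offE, mem_singleton, mem_singleton]
  exact ⟨hω h, h1, h2⟩

private theorem cover (E ω : Finset (Sym2 V)) (hω : ω ⊆ E) (x v u a b z : V)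
    (h2 : ∀ z, s(v, z) ∈ ω ↔ z = u ∨ z = a ∨ z = b) (h3 : x ∈ cl (ω ∩ offE E {v}) u)
    (hz : z ∈ cl ω x) : z = v ∨ z ∈ cl (ω ∩ offE E {v}) u ∨ z ∈ cl (ω ∩ offE E {v}) a ∨
      z ∈ cl (ω ∩ offE E {v}) b := by
  rw [clb_mem_cl] at hz
  refine clb_closed ω {z | z = v ∨ z ∈ cl (ω ∩ offE E {v}) u ∨ z ∈ cl (ω ∩ offE E {v}) a ∨
      z ∈ cl (ω ∩ offE E {v}) b} (fun α hα β hαβ => ?_) x z (Or.inr (Or.inl h3)) hz
  rw [Set.mem_ofPred_eq] at hα ⊢
  by_cases hβ : β = v
  · exact Or.inl hβ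
  by_cases hαv : α = v
  · subst hαv
    rcases (h2 β).1 hαβ with h | h | h
    · subst h; exact Or.inr (Or.inl (mem_cl_self _ _))
    · subst h; exact Or.inr (Or.inr (Or.inl (mem_cl_self _ _)))
    · subst h; exact Or.inr (Or.inr (Or.inr (mem_cl_self _ _)))
  · have hin : s(α, β) ∈ ω ∩ offE E {v} := by
      rw [mem_inter, xb_mem_offE, mem_singleton, mem_singleton]
      exact ⟨hαβ, hω hαβ, hαv, hβ⟩
    rcases hα with h | h | h | h
    · exact absurd h hαv
    · exact Or.inr (Or.inl (cl_closed _ u α β h hin))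
    · exact Or.inr (Or.inr (Or.inl (cl_closed _ a α β h hin)))
    · exact Or.inr (Or.inr (Or.inr (cl_closed _ b α β h hin)))

private theorem AA_dj (E ω : Finset (Sym2 V)) (G : Finset V) (x v u a b : V)
    (h : AA E ω G x v u a b) :
    (∀ z, z ∈ cl (ω ∩ offE E {v}) u → z ∉ cl (ω ∩ offE E {v}) a) ∧
    (∀ z, z ∈ cl (ω ∩ offE E {v}) u → z ∉ cl (ω ∩ offE E {v}) b) ∧
    (∀ z, z ∈ cl (ω ∩ offE E {v}) a → z ∉ cl (ω ∩ offE E {v}) b) := by
  obtain ⟨h1, h2, h3, h4, h5, h6, h7⟩ := h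
  refine ⟨fun z hz hz' => ?_, fun z hz hz' => ?_, fun z hz hz' => ?_⟩
  · rw [cl_meet _ _ _ z hz hz'] at h4
    exact h5 h4
  · rw [cl_meet _ _ _ z hz hz'] at h4
    exact h6 h4
  · rw [cl_meet _ _ _ z hz hz'] at h7
    exact h7 (mem_cl_self _ _)

/-- case `v' ∈ K_a` -/
private theorem AA_case_a (E ω : Finset (Sym2 V)) (hω : ω ⊆ E) (G : Finset V)
    (x v u a b v' u' a' b' : V) (hA : AA E ω G x v u a b) (hA' : AA E ω G x v' u' a' b')
    (hne : v ≠ v') (hv' : v' ∈ cl (ω ∩ offE E {v}) a) : False := by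
  obtain ⟨d1, d2, d3⟩ := AA_dj E ω G x v u a b hA
  obtain ⟨h1, h2, h3, h4, h5, h6, h7⟩ := hA
  obtain ⟨k1, k2, k3, k4, k5, k6, k7⟩ := hA'
  have n1 : v' ∉ cl (ω ∩ offE E {v}) u := fun h => d1 v' h hv'
  have n2 : v' ∉ cl (ω ∩ offE E {v}) b := d3 v' hv'
  have hu : u ≠ v' := fun h => n1 (h ▸ mem_cl_self _ _)
  have hb : b ≠ v' := fun h => n2 (h ▸ mem_cl_self _ _)
  have e1 := edge E ω hω v v' u ((h2 u).2 (Or.inl rfl)) hne hu
  have e2 := edge E ω hω v v' b ((h2 b).2 (Or.inr (Or.inr rfl))) hne hb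
  have e3 : x ∈ cl (ω ∩ offE E {v'}) u := keep E ω v v' u n1 h3
  rw [Finset.not_disjoint_iff] at h6
  obtain ⟨g, hg, hgG⟩ := h6
  have e4 : g ∈ cl (ω ∩ offE E {v'}) b := keep E ω v v' b n2 hg
  have e5 := cl_meet _ _ _ v e1 e2
  have e6 := cl_meet _ _ _ x e3 k3
  rw [← e5, e6] at e4
  exact Finset.disjoint_left.1 k4 e4 hgG

private theorem AA_v (E ω : Finset (Sym2 V)) (hω : ω ⊆ E) (G : Finset V)
    (x v u a b v' u' a' b' : V) (hA : AA E ω G x v u a b) (hA' : AA E ω G x v' u' a' b') :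
    v = v' := by
  by_contra hne
  obtain ⟨d1, d2, d3⟩ := AA_dj E ω G x v u a b hA
  have hA0 := hA
  have hA0' := hA'
  obtain ⟨h1, h2, h3, h4, h5, h6, h7⟩ := hA
  obtain ⟨k1, k2, k3, k4, k5, k6, k7⟩ := hA'
  have f0 : ∀ w, s(v', w) ∈ ω → ∀ z ∈ cl (ω ∩ offE E {v'}) w, z ∈ cl ω v' := by
    intro w hw z hz
    have f1 : z ∈ cl ω w := cl_mono _ _ inter_subset_left w hz
    have f2 : w ∈ cl ω v' := cl_closed ω v' v' w (mem_cl_self ω v') hw
    rwa [cl_eq_of_mem ω v' w f2] at f1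
  have f1 : x ∈ cl ω v' := f0 u' ((k2 u').2 (Or.inl rfl)) x k3
  have f2 : cl ω x = cl ω v' := cl_eq_of_mem ω v' x f1
  have hv'x : v' ∈ cl ω x := by
    rw [f2]
    exact mem_cl_self _ _
  rcases cover E ω hω x v u a b v' h2 h3 hv'x with h | h | h | h
  · exact hne h.symm
  · have n1 : v' ∉ cl (ω ∩ offE E {v}) a := d1 v' h
    have n2 : v' ∉ cl (ω ∩ offE E {v}) b := d2 v' h
    have ha : a ≠ v' := fun h => n1 (h ▸ mem_cl_self _ _)
    have hb : b ≠ v' := fun h => n2 (h ▸ mem_cl_self _ _)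
    have e1 := edge E ω hω v v' a ((h2 a).2 (Or.inr (Or.inl rfl))) hne ha
    have e2 := edge E ω hω v v' b ((h2 b).2 (Or.inr (Or.inr rfl))) hne hb
    have key : ∀ g ∈ G, g ∈ cl ω x → g ∈ cl (ω ∩ offE E {v'}) v := by
      intro g hgG hg
      rcases cover E ω hω x v u a b g h2 h3 hg with h | h | h | h
      · exact absurd (h ▸ hgG) h1
      · exact absurd hgG (Finset.disjoint_left.1 h4 h)
      · exact cl_in _ v g a e1 (keep E ω v v' a n1 h)
      · exact cl_in _ v g b e2 (keep E ω v v' b n2 h)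
    rw [Finset.not_disjoint_iff] at k5 k6
    obtain ⟨g1, hg1, hg1G⟩ := k5
    obtain ⟨g2, hg2, hg2G⟩ := k6
    have r1 := key g1 hg1G (by rw [f2]; exact f0 a' ((k2 a').2 (Or.inr (Or.inl rfl))) g1 hg1)
    have r2 := key g2 hg2G (by rw [f2]; exact f0 b' ((k2 b').2 (Or.inr (Or.inr rfl))) g2 hg2)
    have s1 := cl_meet _ _ _ g1 hg1 r1
    have s2 := cl_meet _ _ _ g2 hg2 r2
    rw [s1, ← s2] at k7
    exact k7 (mem_cl_self _ _)
  · exact AA_case_a E ω hω G x v u a b v' u' a' b' hA0 hA0' hne h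
  · exact AA_case_a E ω hω G x v u b a v' u' a' b' (AA_symm _ _ _ _ _ _ _ _ hA0) hA0' hne h

private theorem AA_two (E ω : Finset (Sym2 V)) (G : Finset V) (x v u a b u' a' b' : V)
    (hA : AA E ω G x v u a b) (hA' : AA E ω G x v u' a' b') :
    u' = u ∧ ((a' = a ∧ b' = b) ∨ (a' = b ∧ b' = a)) := by
  obtain ⟨h1, h2, h3, h4, h5, h6, h7⟩ := hA
  obtain ⟨k1, k2, k3, k4, k5, k6, k7⟩ := hA'
  have hu : u' = u := by
    rcases (h2 u').1 ((k2 u').2 (Or.inl rfl)) with h | h | h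
    · exact h
    · rw [h] at k4; exact absurd k4 h5
    · rw [h] at k4; exact absurd k4 h6
  refine ⟨hu, ?_⟩
  have hab' : b' ≠ a' := by
    rintro rfl
    exact k7 (mem_cl_self _ _)
  have ha : a' = a ∨ a' = b := by
    rcases (h2 a').1 ((k2 a').2 (Or.inr (Or.inl rfl))) with h | h
    · rw [h] at k5; exact absurd h4 k5
    · exact h
  have hb : b' = a ∨ b' = b := by
    rcases (h2 b').1 ((k2 b').2 (Or.inr (Or.inr rfl))) with h | h
    · rw [h] at k6; exact absurd h4 k6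
    · exact h
  rcases ha with ha | ha <;> rcases hb with hb | hb
  · exact absurd (hb.trans ha.symm) hab'
  · exact Or.inl ⟨ha, hb⟩
  · exact Or.inr ⟨ha, hb⟩
  · exact absurd (hb.trans ha.symm) hab'

/-- at most two quadruples -/
private theorem AA_sum (E ω : Finset (Sym2 V)) (hω : ω ⊆ E) (G : Finset V) (x : V) :
    ∑ t : V × V × V × V, ind (AA E ω G x t.1 t.2.1 t.2.2.1 t.2.2.2) ≤ 2 * ind (x ∈ cls ω G) := by
  by_cases h : ∃ t : V × V × V × V, AA E ω G x t.1 t.2.1 t.2.2.1 t.2.2.2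
  · obtain ⟨⟨v, u, a, b⟩, ht⟩ := h
    simp only at ht
    have hx := AA_cls E ω G x v u a b ht
    have e1 : ∀ t : V × V × V × V, ind (AA E ω G x t.1 t.2.1 t.2.2.1 t.2.2.2) ≤
        (if t = (v, u, a, b) then (1 : ℝ) else 0) + (if t = (v, u, b, a) then (1 : ℝ) else 0) := by
      rintro ⟨v', u', a', b'⟩
      by_cases hA : AA E ω G x v' u' a' b'
      · have hv := AA_v E ω hω G x v u a b v' u' a' b' ht hA
        subst hv
        obtain ⟨hu, hab⟩ := AA_two E ω G x v u a b u' a' b' ht hA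
        subst hu
        simp only
        rw [ind, if_pos hA]
        rcases hab with ⟨r1, r2⟩ | ⟨r1, r2⟩
        · subst r1; subst r2
          rw [if_pos rfl]
          split_ifs <;> norm_num
        · subst r1; subst r2
          rw [if_pos (rfl : (v, u', a', b') = (v, u', a', b'))]
          split_ifs <;> norm_num
      · simp only
        rw [ind, if_neg hA]
        split_ifs <;> norm_num
    refine (Finset.sum_le_sum fun t _ => e1 t).trans ?_
    rw [Finset.sum_add_distrib, Finset.sum_ite_eq', Finset.sum_ite_eq', if_pos (mem_univ _),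
      if_pos (mem_univ _), ind, if_pos hx]
    norm_num
  · have e1 : ∀ t : V × V × V × V, ind (AA E ω G x t.1 t.2.1 t.2.2.1 t.2.2.2) = 0 := by
      intro t
      rw [ind, if_neg fun h' => h ⟨t, h'⟩]
    rw [Finset.sum_congr rfl fun t _ => e1 t, Finset.sum_const_zero]
    exact mul_nonneg (by norm_num) (xb_ind_nonneg _)

/-! ### expectations -/

private theorem gh_three (h : ℝ) (A B C : Finset V) (hAB : Disjoint A B) (hAC : Disjoint A C)
    (hBC : Disjoint B C) :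
    Ex (univ : Finset V) h (fun G => ind (Disjoint A G) * ind (¬ Disjoint B G) *
      ind (¬ Disjoint C G)) = (1 - h) ^ A.card * (1 - (1 - h) ^ B.card) * (1 - (1 - h) ^ C.card) := by
  have r : ∀ S T G : Finset V, S ⊆ T → (Disjoint S (G ∩ T) ↔ Disjoint S G) := by
    intro S T G hST
    rw [Finset.disjoint_left, Finset.disjoint_left]
    refine ⟨fun h z hz hz' => h hz (mem_inter.2 ⟨hz', hST hz⟩), fun h z hz hz' =>
      h hz (mem_inter.1 hz').1⟩
  have h1 := gh_prod h (A ∪ B) C (disjoint_union_left.2 ⟨hAC, hBC⟩)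
    (fun G => ind (Disjoint A G) * ind (¬ Disjoint B G)) (fun G => ind (¬ Disjoint C G))
  have h2 := gh_prod h A B hAB (fun G => ind (Disjoint A G)) (fun G => ind (¬ Disjoint B G))
  simp only [r A (A ∪ B) _ subset_union_left, r B (A ∪ B) _ subset_union_right,
    r A A _ (Subset.refl A), r B B _ (Subset.refl B), r C C _ (Subset.refl C)] at h1 h2
  rw [h1, h2, gh_disj, gh_hit, gh_hit]

omit [Fintype V] [DecidableEq V] in
private theorem Ex_point {α : Type} [DecidableEq α] (S T : Finset α) (hT : T ⊆ S) (p : ℝ) :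
    Ex S p (fun ω => ind (ω = T)) = p ^ T.card * (1 - p) ^ (S.card - T.card) := by
  unfold Ex
  rw [Finset.sum_eq_single T]
  · simp [ind]
  · intro ω _ hω
    simp [ind, hω]
  · intro h
    exact absurd (mem_powerset.2 hT) h

omit [Fintype V] in
private theorem not_off (E : Finset (Sym2 V)) (v : V) (e : Sym2 V) :
    e ∈ E \ offE E {v} ↔ ∃ z, e = s(v, z) ∧ s(v, z) ∈ E := by
  induction e with
  | h x y =>
    rw [mem_sdiff, xb_mem_offE, mem_singleton, mem_singleton]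
    constructor
    · rintro ⟨h1, h2⟩
      by_cases hx : x = v
      · subst hx
        exact ⟨y, rfl, h1⟩
      by_cases hy : y = v
      · subst hy
        exact ⟨x, Sym2.eq_swap, by rw [Sym2.eq_swap]; exact h1⟩
      · exact absurd ⟨h1, hx, hy⟩ h2
    · rintro ⟨z, hz, hzE⟩
      rw [hz]
      refine ⟨hzE, ?_⟩
      rintro ⟨_, h1, h2⟩
      rw [Sym2.eq_iff] at hz
      rcases hz with ⟨h, _⟩ | ⟨_, h⟩
      · exact h1 h
      · exact h2 h

/-- the edges at `v` -/
private theorem card_off (E : Finset (Sym2 V)) (v : V) (m : ℕ)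
    (hdeg : nb E (fun _ => 1) v = m) : (E \ offE E {v}).card = m := by
  classical
  have h1 : E \ offE E {v} = (univ.filter fun z => s(v, z) ∈ E).image (fun z => s(v, z)) := by
    ext e
    rw [not_off, mem_image]
    constructor
    · rintro ⟨z, hz, hzE⟩
      exact ⟨z, mem_filter.2 ⟨mem_univ _, hzE⟩, hz.symm⟩
    · rintro ⟨z, hz, hze⟩
      exact ⟨z, hze.symm, (mem_filter.1 hz).2⟩
  rw [h1, Finset.card_image_of_injective _ fun z z' h => Sym2.congr_right.1 h]
  have h2 : nb E (fun _ => 1) v = ((univ.filter fun z => s(v, z) ∈ E).card : ℝ) := by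
    unfold nb
    rw [Finset.sum_const, nsmul_eq_mul, mul_one]
    congr
  rw [h2] at hdeg
  exact_mod_cast hdeg

omit [Fintype V] in
private theorem inter_iff (E ω : Finset (Sym2 V)) (hω : ω ⊆ E) (v u a b : V) :
    (∀ z, s(v, z) ∈ ω ↔ z = u ∨ z = a ∨ z = b) ↔
      ω ∩ (E \ offE E {v}) = {s(v, u), s(v, a), s(v, b)} := by
  constructor
  · intro h
    ext e
    rw [mem_inter, not_off]
    simp only [mem_insert, mem_singleton]
    constructor
    · rintro ⟨h1, z, hz, _⟩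
      rw [hz] at h1 ⊢
      rcases (h z).1 h1 with h | h | h
      · rw [h]; exact Or.inl rfl
      · rw [h]; exact Or.inr (Or.inl rfl)
      · rw [h]; exact Or.inr (Or.inr rfl)
    · rintro (h1 | h1 | h1)
      · rw [h1]
        exact ⟨(h u).2 (Or.inl rfl), u, rfl, hω ((h u).2 (Or.inl rfl))⟩
      · rw [h1]
        exact ⟨(h a).2 (Or.inr (Or.inl rfl)), a, rfl, hω ((h a).2 (Or.inr (Or.inl rfl)))⟩
      · rw [h1]
        exact ⟨(h b).2 (Or.inr (Or.inr rfl)), b, rfl, hω ((h b).2 (Or.inr (Or.inr rfl)))⟩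
  · intro h z
    have h1 : s(v, z) ∈ ω ↔ s(v, z) ∈ ω ∩ (E \ offE E {v}) := by
      rw [mem_inter, not_off]
      exact ⟨fun h => ⟨h, z, rfl, hω h⟩, fun h => h.1⟩
    rw [h1, h]
    simp only [mem_insert, mem_singleton, Sym2.congr_right]

omit [DecidableEq V] in
private theorem EG_sum {ι : Type} (I : Finset ι) (E : Finset (Sym2 V)) (p h : ℝ)
    (F : ι → Finset (Sym2 V) → Finset V → ℝ) :
    EG E p h (fun ω G => ∑ i ∈ I, F i ω G) = ∑ i ∈ I, EG E p h (F i) := by
  unfold EG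
  rw [← Ex_sum]
  exact Ex_congr _ _ _ _ fun ω _ => by rw [Ex_sum]

omit [DecidableEq V] in
private theorem EG_mono (E : Finset (Sym2 V)) (p h : ℝ) (h0 : 0 ≤ p) (h1 : p ≤ 1) (hh0 : 0 ≤ h)
    (hh1 : h ≤ 1) (F F' : Finset (Sym2 V) → Finset V → ℝ) (hF : ∀ ω ⊆ E, ∀ G, F ω G ≤ F' ω G) :
    EG E p h F ≤ EG E p h F' := by
  unfold EG
  exact Ex_mono _ _ h0 h1 _ _ fun ω hω => Ex_mono _ _ hh0 hh1 _ _ fun G _ => hF ω hω G

omit [DecidableEq V] in
private theorem EG_mul (E : Finset (Sym2 V)) (p h c : ℝ)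
    (F : Finset (Sym2 V) → Finset V → ℝ) :
    EG E p h (fun ω G => c * F ω G) = c * EG E p h F := by
  unfold EG
  rw [← Ex_mul_left]
  exact Ex_congr _ _ _ _ fun ω _ => by rw [Ex_mul_left]

private theorem EG_cls (E : Finset (Sym2 V)) (p h : ℝ) (x : V) :
    EG E p h (fun ω G => ind (x ∈ cls ω G)) = Mh E p h x := by
  have h1 : Mh E p h x = Ex E p (fun ω => 1 - (1 - h) ^ (cl ω x).card) := by
    rw [Ex_sub, Ex_const]
    rfl
  rw [h1]
  unfold EG
  refine Ex_congr _ _ _ _ fun ω _ => ?_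
  rw [← gh_hit]
  refine Ex_congr _ _ _ _ fun G _ => ?_
  rw [← gh_not, not_not]

private theorem ind_one {P : Prop} (h : P) : ind P = 1 := by rw [ind, if_pos h]

private theorem ind_zero {P : Prop} (h : ¬ P) : ind P = 0 := by rw [ind, if_neg h]

omit [DecidableEq V] in
private theorem sum_ind (A : Finset V) : ∑ x, ind (x ∈ A) = (A.card : ℝ) := by
  rw [← Finset.sum_subset (Finset.subset_univ A) (fun x _ hx => ind_zero hx),
    Finset.sum_congr rfl fun x hx => ind_one hx, Finset.sum_const, nsmul_eq_mul, mul_one]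

/-- value of the inner function -/
private noncomputable def Phi (h : ℝ) (u a b : V) (η : Finset (Sym2 V)) : ℝ :=
  (1 - h) * (((cl η u).card : ℝ) * (1 - h) ^ (cl η u).card *
    (ind (a ∉ cl η u) * ind (b ∉ cl η u) * ind (b ∉ cl η a)) *
    ((1 - (1 - h) ^ (cl η a).card) * (1 - (1 - h) ^ (cl η b).card)))

private theorem inner (E ω : Finset (Sym2 V)) (hω : ω ⊆ E) (h : ℝ) (v u a b : V)
    (hu : v ≠ u) (ha : v ≠ a) (hb : v ≠ b) :
    Ex (univ : Finset V) h (fun G => ∑ x, ind (AA E ω G x v u a b)) =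
      ind (ω ∩ (E \ offE E {v}) = {s(v, u), s(v, a), s(v, b)}) *
        Phi h u a b (ω ∩ offE E {v}) := by
  have zero : (∀ G x, ¬ AA E ω G x v u a b) →
      Ex (univ : Finset V) h (fun G => ∑ x, ind (AA E ω G x v u a b)) = 0 := by
    intro hz
    rw [← Ex_const (univ : Finset V) h 0]
    refine Ex_congr _ _ _ _ fun G _ => ?_
    exact Finset.sum_eq_zero fun x _ => ind_zero (hz G x)
  by_cases hT : ω ∩ (E \ offE E {v}) = {s(v, u), s(v, a), s(v, b)}
  swap
  · rw [ind_zero hT, zero_mul]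
    exact zero fun G x hA => hT ((inter_iff E ω hω v u a b).1 hA.2.1)
  rw [ind_one hT, one_mul]
  unfold Phi
  set η := ω ∩ offE E {v} with hη
  by_cases c1 : a ∈ cl η u
  · rw [ind_zero (not_not.2 c1), zero]
    · ring
    · intro G x hA
      exact (AA_dj E ω G x v u a b hA).1 a c1 (mem_cl_self _ _)
  by_cases c2 : b ∈ cl η u
  · rw [ind_zero (not_not.2 c2), zero]
    · ring
    · intro G x hA
      exact (AA_dj E ω G x v u a b hA).2.1 b c2 (mem_cl_self _ _)
  by_cases c3 : b ∈ cl η a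
  · rw [ind_zero (not_not.2 c3), zero]
    · ring
    · intro G x hA
      exact hA.2.2.2.2.2.2 c3
  rw [ind_one c1, ind_one c2, ind_one c3]
  have hηE : η ⊆ offE E {v} := inter_subset_right
  have v1 : v ∉ cl η u := fun h' => Finset.disjoint_left.1
    (xb_cl_off' E η {v} hηE u (by rw [mem_singleton]; exact hu.symm)) h' (mem_singleton_self v)
  have v2 : v ∉ cl η a := fun h' => Finset.disjoint_left.1
    (xb_cl_off' E η {v} hηE a (by rw [mem_singleton]; exact ha.symm)) h' (mem_singleton_self v)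
  have v3 : v ∉ cl η b := fun h' => Finset.disjoint_left.1
    (xb_cl_off' E η {v} hηE b (by rw [mem_singleton]; exact hb.symm)) h' (mem_singleton_self v)
  have dj : ∀ y z, z ∉ cl η y → Disjoint (cl η y) (cl η z) := by
    intro y z hz
    rw [Finset.disjoint_left]
    intro w h1 h2
    apply hz
    rw [cl_meet η y z w h1 h2]
    exact mem_cl_self _ _
  have d1 : Disjoint (insert v (cl η u)) (cl η a) := by
    rw [Finset.disjoint_insert_left]
    exact ⟨v2, dj u a c1⟩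
  have d2 : Disjoint (insert v (cl η u)) (cl η b) := by
    rw [Finset.disjoint_insert_left]
    exact ⟨v3, dj u b c2⟩
  have h3 := gh_three h (insert v (cl η u)) (cl η a) (cl η b) d1 d2 (dj a b c3)
  rw [card_insert_of_notMem v1] at h3
  have h4 : ∀ G : Finset V, ∑ x, ind (AA E ω G x v u a b) = ((cl η u).card : ℝ) *
      (ind (Disjoint (insert v (cl η u)) G) * ind (¬ Disjoint (cl η a) G) *
        ind (¬ Disjoint (cl η b) G)) := by
    intro G
    have h5 : ∀ x, ind (AA E ω G x v u a b) = ind (x ∈ cl η u) *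
      (ind (Disjoint (insert v (cl η u)) G) * ind (¬ Disjoint (cl η a) G) *
        ind (¬ Disjoint (cl η b) G)) := by
      intro x
      by_cases q1 : x ∈ cl η u
      swap
      · rw [ind_zero q1, ind_zero fun hA => q1 hA.2.2.1, zero_mul]
      by_cases q2 : Disjoint (insert v (cl η u)) G
      swap
      · rw [ind_zero q2, ind_zero fun hA => q2 ?_]
        · ring
        · rw [Finset.disjoint_insert_left]
          exact ⟨hA.1, hA.2.2.2.1⟩
      by_cases q3 : Disjoint (cl η a) G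
      · rw [ind_zero (not_not.2 q3), ind_zero fun hA => hA.2.2.2.2.1 q3]
        ring
      by_cases q4 : Disjoint (cl η b) G
      · rw [ind_zero (not_not.2 q4), ind_zero fun hA => hA.2.2.2.2.2.1 q4]
        ring
      rw [ind_one q1, ind_one q2, ind_one q3, ind_one q4, ind_one]
      · ring
      · rw [Finset.disjoint_insert_left] at q2
        exact ⟨q2.1, (inter_iff E ω hω v u a b).2 hT, q1, q2.2, q3, q4, c3⟩
    rw [Finset.sum_congr rfl fun x _ => h5 x, ← Finset.sum_mul]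
    congr 1
    exact sum_ind (cl η u)
  rw [Ex_congr _ _ _ _ fun G _ => h4 G, Ex_mul_left, h3, pow_succ]
  ring

private theorem quad (E : Finset (Sym2 V)) (hloop : ∀ z, s(z, z) ∉ E) (p h : ℝ) (m : ℕ)
    (v u a b : V) (hdeg : nb E (fun _ => 1) v = m) (hu : s(v, u) ∈ E) (ha : s(v, a) ∈ E)
    (hb : s(v, b) ∈ E) (hau : a ≠ u) (hbu : b ≠ u) (hba : b ≠ a) :
    EG E p h (fun ω G => ∑ x, ind (AA E ω G x v u a b)) =
      (1 - h) * p ^ 3 * (1 - p) ^ (m - 3) * Jf (offE E {v}) p h u a b := by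
  have nu : v ≠ u := by
    rintro rfl
    exact hloop _ hu
  have na : v ≠ a := by
    rintro rfl
    exact hloop _ ha
  have nb' : v ≠ b := by
    rintro rfl
    exact hloop _ hb
  unfold EG
  rw [Ex_congr _ _ _ _ fun ω hω => inner E ω hω h v u a b nu na nb']
  set S := E \ offE E {v} with hS
  set T : Finset (Sym2 V) := {s(v, u), s(v, a), s(v, b)} with hT
  have hoff : offE E {v} ⊆ E := xb_offE_subset E {v}
  have hSE : S ⊆ E := sdiff_subset
  rw [Ex_mul_indep E S (offE E {v}) sdiff_disjoint p (fun ω => ind (ω ∩ S = T))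
    (fun ω => Phi h u a b (ω ∩ offE E {v}))
    (fun ω _ => by simp only [inter_assoc, inter_self])
    (fun ω _ => by simp only [inter_assoc, inter_self])]
  rw [Ex_restrict E S hSE p (fun ω => ind (ω = T)), Ex_restrict E (offE E {v}) hoff p (Phi h u a b)]
  have hTS : T ⊆ S := by
    intro e he
    rw [hT] at he
    simp only [mem_insert, mem_singleton] at he
    rw [hS, not_off]
    rcases he with h | h | h
    · exact ⟨u, h, hu⟩
    · exact ⟨a, h, ha⟩
    · exact ⟨b, h, hb⟩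
  have hTc : T.card = 3 := by
    rw [hT, card_insert_of_notMem, card_insert_of_notMem, card_singleton]
    · rw [mem_singleton, Sym2.congr_right]
      exact hba.symm
    · rw [mem_insert, mem_singleton, Sym2.congr_right, Sym2.congr_right]
      rintro (h | h)
      · exact hau h.symm
      · exact hbu h.symm
  rw [Ex_point S T hTS p, card_off E v m hdeg, hTc]
  have hPhi : Ex (offE E {v}) p (Phi h u a b) = (1 - h) * Jf (offE E {v}) p h u a b := by
    unfold Phi Jf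
    rw [Ex_mul_left]
  rw [hPhi]
  ring

private theorem nb_ind (E : Finset (Sym2 V)) (f : V → ℝ) (x : V) :
    nb E f x = ∑ z, ind (s(x, z) ∈ E) * f z := by
  unfold nb ind
  rw [Finset.sum_filter]
  refine Finset.sum_congr rfl fun z _ => ?_
  split_ifs <;> ring

open Classical in
private theorem spv_gen (E : Finset (Sym2 V)) (hloop : ∀ z, s(z, z) ∉ E) (p h : ℝ) (h0 : 0 ≤ p)
    (h1 : p ≤ 1) (hh0 : 0 ≤ h) (hh1 : h ≤ 1) (m : ℕ)
    (hdeg : ∀ v, nb E (fun _ => 1) v = m) :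
    (1 - h) * p ^ 3 * (1 - p) ^ (m - 3) * ∑ v : V, nb E (fun u => nb E (fun a =>
      nb E (fun b => if a = u ∨ b = u ∨ b = a then 0 else
        Jf (offE E {v}) p h u a b) v) v) v ≤ 2 * ∑ x : V, Mh E p h x := by
  set κ := (1 - h) * p ^ 3 * (1 - p) ^ (m - 3) with hκ
  have hR : EG E p h (fun ω G => ∑ x, 2 * ind (x ∈ cls ω G)) = 2 * ∑ x, Mh E p h x := by
    rw [EG_sum, Finset.mul_sum]
    exact Finset.sum_congr rfl fun x _ => by rw [EG_mul, EG_cls]
  rw [← hR]
  have h2 : EG E p h (fun ω G => ∑ x, ∑ t : V × V × V × V,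
      ind (AA E ω G x t.1 t.2.1 t.2.2.1 t.2.2.2)) ≤
      EG E p h (fun ω G => ∑ x, 2 * ind (x ∈ cls ω G)) :=
    EG_mono E p h h0 h1 hh0 hh1 _ _ fun ω hω G => Finset.sum_le_sum fun x _ => AA_sum E ω hω G x
  refine le_trans ?_ h2
  have h3 : EG E p h (fun ω G => ∑ x, ∑ t : V × V × V × V,
      ind (AA E ω G x t.1 t.2.1 t.2.2.1 t.2.2.2)) =
      ∑ t : V × V × V × V, EG E p h (fun ω G => ∑ x, ind (AA E ω G x t.1 t.2.1 t.2.2.1 t.2.2.2)) := by
    rw [← EG_sum]
    congr 1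
    funext ω G
    exact Finset.sum_comm
  rw [h3, Fintype.sum_prod_type, Finset.mul_sum]
  refine Finset.sum_le_sum fun v _ => ?_
  rw [Fintype.sum_prod_type, nb_ind, Finset.mul_sum]
  refine Finset.sum_le_sum fun u _ => ?_
  rw [Fintype.sum_prod_type, nb_ind, Finset.mul_sum, Finset.mul_sum]
  refine Finset.sum_le_sum fun a _ => ?_
  rw [nb_ind, Finset.mul_sum, Finset.mul_sum, Finset.mul_sum]
  refine Finset.sum_le_sum fun b _ => ?_
  simp only
  have hnn : 0 ≤ EG E p h (fun ω G => ∑ x, ind (AA E ω G x v u a b)) := by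
    unfold EG
    exact xb_Ex_nonneg _ _ h0 h1 _ fun ω _ => xb_Ex_nonneg _ _ hh0 hh1 _ fun G _ =>
      Finset.sum_nonneg fun x _ => xb_ind_nonneg _
  by_cases hu : s(v, u) ∈ E
  swap
  · rw [ind_zero hu, zero_mul, mul_zero]; exact hnn
  by_cases ha : s(v, a) ∈ E
  swap
  · rw [ind_zero ha, zero_mul, mul_zero, mul_zero]; exact hnn
  by_cases hb : s(v, b) ∈ E
  swap
  · rw [ind_zero hb, zero_mul, mul_zero, mul_zero, mul_zero]; exact hnn
  by_cases hd : a = u ∨ b = u ∨ b = a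
  · rw [if_pos hd, mul_zero, mul_zero, mul_zero, mul_zero]; exact hnn
  · rw [if_neg hd, ind_one hu, ind_one ha, ind_one hb, one_mul, one_mul, one_mul]
    simp only [not_or] at hd
    rw [quad E hloop p h m v u a b (hdeg v) hu ha hb hd.1 hd.2.1 hd.2.2]

end SPV

open Classical in
theorem spv (m : ℕ) (hm : 3 ≤ m) (p h : ℝ) (h0 : 0 ≤ p) (h1 : p ≤ 1) (hh0 : 0 ≤ h) (hh1 : h ≤ 1) :
    (1 - h) * p ^ 3 * (1 - p) ^ (m - 3) * ∑ v : Q m, nb (cubeE m) (fun u => nb (cubeE m) (fun a =>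
      nb (cubeE m) (fun b => if a = u ∨ b = u ∨ b = a then 0 else
        Jf (offE (cubeE m) {v}) p h u a b) v) v) v ≤ 2 * ∑ x : Q m, Mh (cubeE m) p h x := by
  have hloop : ∀ z : Q m, s(z, z) ∉ cubeE m := by
    intro z
    unfold cubeE
    rw [SimpleGraph.mem_edgeFinset, SimpleGraph.mem_edgeSet]
    exact (cube m).irrefl
  convert spv_gen (cubeE m) hloop p h h0 h1 hh0 hh1 m (fun v => nb_cube_one m v) using 1

end Pool.Agent.Work.MP_b7dc8a_pr
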