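import Pool.Agent.Work.MP_b7dc8a_pr.F.Jlow
import Pool.Agent.Work.MP_b7dc8a_pr.F.Spv
import Pool.Agent.Work.MP_b7dc8a_pr.F.Trans

/-! Module BA (M): `E[|C| (1-h)^|C|] * M <= 2000` if the triangle diagram is small (`1/100`).

`E = cubeE m`, `M = Mh E p h x`, `c = mo E p h 1 x` (independent of `x`, TRANS). For a vertex `v`,
`Ev = offE E {v}`. For distinct `x, y`: `tau E p x y <= tri E p x y <= 1/100` (terms `u = x`, `w = x`), and
`∑_w tau x w tau w y <= tri x y`.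
(a) `mo Ev p h 1 x <= 4 c` for all `x`: all edges at `v` are closed with probability `(1-p)^m >= 1/4`
 (`p m <= 11/10`, `m` large; the edges at `v` are independent of `Ev`) and then `cl ω x = cl (ω ∩ Ev) x`; so
 `c = mo E x >= (1-p)^m mo Ev x`.
(b) `mo Ev p h 1 u >= c (1 - 1/100)` for `u ≠ v`: if `v ∉ cl ω u` then `cl ω u = cl (ω ∩ Ev) u`, so
 `c <= mo Ev u + Ex E (|cl ω u| (1-h)^|cl ω u| ind (v ∈ cl ω u)) <= mo Ev u + c ∑_d tau u d tau v d`
 (`gh_tree`) `<= mo Ev u + c tri u v`.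
(c) `Mh Ev p h a >= (99/100) M` for `a ≠ v`: `b_obst` with `D = {v}`: `M <= Mh Ev a + tau a v M`.
(d) `jlow` with `E' = Ev`, `c1 = 4 c`: for distinct neighbours `u, a, b` of `v`
 `Jf Ev u a b >= (99/100)^3 c M^2 - 4 c M^2 (2/100) - (1/100) 4 c M^2 >= c M^2/2`.
(e) `spv`: there are `2^m m (m-1) (m-2)` terms: `(1-h) p^3 (1-p)^(m-3) 2^m m (m-1)(m-2) c M^2/2
 <= 2 * 2^m M`. If `M > 0`: `c M <= 4/((1-h) p^3 m (m-1)(m-2) (1-p)^(m-3))`; `1 - h >= 1/2`,
 `(p m)^3 >= 1/8`, `(m-1)(m-2)/m^2 >= 1/2`, `(1-p)^(m-3) >= (1-p)^m >= 1/4`: `c M <= 512`. -/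

namespace Pool.Agent.Work.MP_b7dc8a_pr

open Finset

section BA
variable {V : Type} [Fintype V] [DecidableEq V]

/-- all edges of `B` are closed -/
private theorem ba_closed {α : Type} [DecidableEq α] (E B : Finset α) (hd : Disjoint B E) (p : ℝ)
    (h0 : 0 ≤ p) (h1 : p ≤ 1) (F : Finset α → ℝ) (hF : ∀ ω ⊆ B ∪ E, 0 ≤ F ω) :
    (1 - p) ^ B.card * Ex E p F ≤ Ex (B ∪ E) p F := by
  rw [Ex_union B E hd p F]
  set G : Finset α → ℝ := fun ω₁ => Ex E p (fun ω₂ => F (ω₁ ∪ ω₂)) with hG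
  have hGn : ∀ ω ⊆ B, 0 ≤ G ω := by
    intro ω hω
    have := Ex_mono E p h0 h1 (fun _ => 0) (fun ω₂ => F (ω ∪ ω₂))
      fun ω₂ h2 => hF _ (Finset.union_subset_union hω h2)
    rwa [Ex_const] at this
  have hG0 : G ∅ = Ex E p F := by
    simp only [hG, Finset.empty_union]
  unfold Ex
  have h2 := Finset.single_le_sum (s := B.powerset)
    (f := fun ω => p ^ ω.card * (1 - p) ^ (B.card - ω.card) * G ω)
    (fun ω hω => mul_nonneg (mul_nonneg (pow_nonneg h0 _) (pow_nonneg (by linarith) _))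
      (hGn ω (Finset.mem_powerset.1 hω))) (Finset.empty_mem_powerset B)
  simp only [Finset.card_empty, pow_zero, one_mul, Nat.sub_zero, hG0] at h2
  exact h2

private theorem ba_tau_le_tri (E : Finset (Sym2 V)) (p : ℝ) (h0 : 0 ≤ p) (h1 : p ≤ 1) (x y : V) :
    tau E p x y ≤ tri E p x y := by
  unfold tri
  have hn : ∀ u w, 0 ≤ tau E p x u * tau E p u w * tau E p w y := fun u w =>
    mul_nonneg (mul_nonneg (xb_tau_nonneg E p h0 h1 _ _) (xb_tau_nonneg E p h0 h1 _ _))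
      (xb_tau_nonneg E p h0 h1 _ _)
  have h2 := Finset.single_le_sum (s := (Finset.univ : Finset V))
    (f := fun u => ∑ w, tau E p x u * tau E p u w * tau E p w y)
    (fun u _ => Finset.sum_nonneg fun w _ => hn u w) (Finset.mem_univ x)
  have h3 := Finset.single_le_sum (s := (Finset.univ : Finset V))
    (f := fun w => tau E p x x * tau E p x w * tau E p w y)
    (fun w _ => hn x w) (Finset.mem_univ x)
  simp only [xb_tau_self, one_mul] at h3
  simp only [xb_tau_self, one_mul] at h2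
  exact h3.trans h2

private theorem ba_bub_le_tri (E : Finset (Sym2 V)) (p : ℝ) (h0 : 0 ≤ p) (h1 : p ≤ 1) (x y : V) :
    ∑ d, tau E p x d * tau E p y d ≤ tri E p x y := by
  unfold tri
  refine Finset.sum_le_sum fun u _ => ?_
  have hn : ∀ w, 0 ≤ tau E p x u * tau E p u w * tau E p w y := fun w =>
    mul_nonneg (mul_nonneg (xb_tau_nonneg E p h0 h1 _ _) (xb_tau_nonneg E p h0 h1 _ _))
      (xb_tau_nonneg E p h0 h1 _ _)
  have h3 := Finset.single_le_sum (s := (Finset.univ : Finset V))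
    (f := fun w => tau E p x u * tau E p u w * tau E p w y)
    (fun w _ => hn w) (Finset.mem_univ u)
  simp only [xb_tau_self, mul_one] at h3
  rw [xb_tau_comm E p y u]
  exact h3

private theorem ba_mh_wt (E : Finset (Sym2 V)) (p h : ℝ) (x : V) :
    Mh E p h x = wt E p (fun A => 1 - (1 - h) ^ A.card) x := by
  unfold Mh wt
  rw [Ex_sub, Ex_const]

private theorem ba_mo_nonneg (E : Finset (Sym2 V)) (p h : ℝ) (h0 : 0 ≤ p) (h1 : p ≤ 1)
    (hh1 : h ≤ 1) (x : V) : 0 ≤ mo E p h 1 x :=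
  xb_Ex_nonneg E p h0 h1 _ fun ω _ =>
    mul_nonneg (pow_nonneg (Nat.cast_nonneg _) _) (pow_nonneg (by linarith) _)

private theorem ba_mh_nonneg (E : Finset (Sym2 V)) (p h : ℝ) (h0 : 0 ≤ p) (h1 : p ≤ 1)
    (hh0 : 0 ≤ h) (hh1 : h ≤ 1) (x : V) : 0 ≤ Mh E p h x := by
  rw [ba_mh_wt]
  refine xb_Ex_nonneg E p h0 h1 _ fun ω _ => ?_
  have : (1 - h) ^ (cl ω x).card ≤ 1 := pow_le_one₀ (by linarith) (by linarith)
  linarith

/-- (b) -/
private theorem ba_mo_low (E : Finset (Sym2 V)) (p h c t : ℝ) (h0 : 0 ≤ p) (h1 : p ≤ 1)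
    (hh0 : 0 ≤ h) (hh1 : h ≤ 1) (hc : ∀ x, mo E p h 1 x = c) (u v : V) (huv : u ≠ v)
    (ht : tri E p u v ≤ t) (hc0 : 0 ≤ c) : c * (1 - t) ≤ mo (offE E {v}) p h 1 u := by
  have h2 : c ≤ mo (offE E {v}) p h 1 u +
      Ex E p (fun ω => ((cl ω u).card : ℝ) * (1 - h) ^ (cl ω u).card * ind (v ∈ cl ω u)) := by
    rw [← hc u]
    have h3 : mo (offE E {v}) p h 1 u = Ex E p (fun ω => ((cl (ω ∩ offE E {v}) u).card : ℝ) ^ 1 *
        (1 - h) ^ (cl (ω ∩ offE E {v}) u).card) := by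
      unfold mo
      rw [← Ex_restrict E (offE E {v}) (xb_offE_subset E {v})]
    rw [h3, ← Ex_add]
    unfold mo
    refine Ex_mono E p h0 h1 _ _ fun ω hω => ?_
    have hn1 : 0 ≤ ((cl (ω ∩ offE E {v}) u).card : ℝ) ^ 1 *
        (1 - h) ^ (cl (ω ∩ offE E {v}) u).card :=
      mul_nonneg (pow_nonneg (Nat.cast_nonneg _) _) (pow_nonneg (by linarith) _)
    by_cases hv : v ∈ cl ω u
    · have : ind (v ∈ cl ω u) = 1 := by unfold ind; rw [if_pos hv]
      rw [this]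
      simp only [pow_one] at hn1 ⊢
      linarith
    · have : ind (v ∈ cl ω u) = 0 := by unfold ind; rw [if_neg hv]
      have h4 : cl (ω ∩ offE E {v}) u = cl ω u := by
        refine cl_eq_of ω _ u fun z hz y => ?_
        rw [Finset.mem_inter, xb_mem_offE]
        constructor
        · intro h5
          refine ⟨h5, hω h5, ?_, ?_⟩
          · rw [Finset.mem_singleton]
            rintro rfl
            exact hv hz
          · rw [Finset.mem_singleton]
            rintro rfl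
            exact hv (cl_closed ω u z _ hz h5)
        · exact fun h5 => h5.1
      rw [this, h4, mul_zero, add_zero]
  have h3 := gh_tree E p h h0 h1 hh0 hh1 u v
  simp_rw [hc] at h3
  rw [← Finset.sum_mul] at h3
  have h4 : (∑ d, tau E p u d * tau E p v d) * c ≤ t * c :=
    mul_le_mul_of_nonneg_right ((ba_bub_le_tri E p h0 h1 u v).trans ht) hc0
  linarith

/-- (c) -/
private theorem ba_mh_low (E : Finset (Sym2 V)) (p h M t : ℝ) (h0 : 0 ≤ p) (h1 : p ≤ 1)
    (hh0 : 0 ≤ h) (hh1 : h ≤ 1) (hM : ∀ x, Mh E p h x = M) (a v : V) (hav : a ≠ v)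
    (ht : tri E p a v ≤ t) (hM0 : 0 ≤ M) : M * (1 - t) ≤ Mh (offE E {v}) p h a := by
  have hq0 : 0 ≤ 1 - h := by linarith
  have hq1 : 1 - h ≤ 1 := by linarith
  have h2 := b_obst E p h0 h1 (fun A => 1 - (1 - h) ^ A.card)
    (fun A B hAB => by
      have := pow_le_pow_of_le_one hq0 hq1 (Finset.card_le_card hAB)
      linarith)
    (fun A B => by
      have h3 : (A ∪ B).card ≤ A.card + B.card := Finset.card_union_le A B
      have h4 := pow_le_pow_of_le_one hq0 hq1 h3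
      rw [pow_add] at h4
      have h5 : (1 - h) ^ A.card ≤ 1 := pow_le_one₀ hq0 hq1
      have h6 : (1 - h) ^ B.card ≤ 1 := pow_le_one₀ hq0 hq1
      nlinarith [mul_nonneg (sub_nonneg.2 h5) (sub_nonneg.2 h6)])
    (fun A => by
      have h5 : (1 - h) ^ A.card ≤ 1 := pow_le_one₀ hq0 hq1
      linarith) {v} a (by rw [Finset.mem_singleton]; exact hav)
  rw [← ba_mh_wt, ← ba_mh_wt, Finset.sum_singleton, ← ba_mh_wt, hM, hM] at h2
  have h3 : tau E p a v * M ≤ t * M :=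
    mul_le_mul_of_nonneg_right ((ba_tau_le_tri E p h0 h1 a v).trans ht) hM0
  linarith

end BA

private theorem ba_pow (m : ℕ) (hm : 100 ≤ m) (p : ℝ) (h0 : 0 ≤ p) (hp : p * m ≤ 11 / 10) :
    1 / 4 ≤ (1 - p) ^ m := by
  have hm' : (100 : ℝ) ≤ m := by exact_mod_cast hm
  have hp1 : p ≤ 11 / 1000 := by nlinarith
  have h1p : 0 < 1 - p := by linarith
  have h2 : Real.exp (-(p / (1 - p))) ≤ 1 - p := by
    have h3 := Real.add_one_le_exp (p / (1 - p))
    have h4 : p / (1 - p) + 1 = 1 / (1 - p) := by field_simp; ring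
    rw [h4] at h3
    rw [Real.exp_neg, inv_le_comm₀ (Real.exp_pos _) h1p, ← one_div]
    exact h3
  have h3 : Real.exp (-(6 / 5)) ≤ (1 - p) ^ m := by
    calc Real.exp (-(6 / 5)) ≤ Real.exp (-(p / (1 - p))) ^ m := by
          rw [← Real.exp_nat_mul]
          apply Real.exp_le_exp.2
          have h4 : (m : ℝ) * (p / (1 - p)) ≤ 6 / 5 := by
            rw [mul_div_assoc', div_le_iff₀ h1p]
            nlinarith
          linarith
      _ ≤ _ := pow_le_pow_left₀ (Real.exp_pos _).le h2 m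
  refine le_trans ?_ h3
  rw [Real.exp_neg, one_div]
  apply inv_anti₀ (Real.exp_pos _)
  have h4 : Real.exp (6 / 5) = Real.exp 1 * Real.exp (1 / 5) := by
    rw [← Real.exp_add]; norm_num
  have h5 : Real.exp (1 / 5) ≤ 5 / 4 := by
    have h6 := Real.add_one_le_exp (-(1 / 5 : ℝ))
    rw [Real.exp_neg] at h6
    have h7 := Real.exp_pos (1 / 5 : ℝ)
    have h8 : (4 / 5 : ℝ) ≤ (Real.exp (1 / 5))⁻¹ := by linarith
    rw [le_inv_comm₀ (by norm_num) h7] at h8
    linarith [h8, (by norm_num : ((4 / 5 : ℝ))⁻¹ = 5 / 4)]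
  have h6 := Real.exp_one_lt_d9
  rw [h4]
  nlinarith [Real.exp_pos 1, Real.exp_pos (1 / 5 : ℝ)]

private theorem ba_deg (m : ℕ) (v : Q m) :
    ((univ.filter (fun z => s(v, z) ∈ cubeE m)).card : ℝ) = m := by
  have h := nb_cube_one m v
  unfold nb at h
  rw [Finset.sum_const, nsmul_eq_mul, mul_one] at h
  rw [← h]
  congr!

private theorem ba_nb (m : ℕ) (v : Q m) (f : Q m → ℝ) :
    nb (cubeE m) f v = ∑ z ∈ univ.filter (fun z => s(v, z) ∈ cubeE m), f z := by
  unfold nb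
  refine Finset.sum_congr ?_ fun _ _ => rfl
  ext z
  simp only [Finset.mem_filter, Finset.mem_univ, true_and]

open Classical in
/-- the triple sum over distinct neighbours -/
private theorem ba_triple (m : ℕ) (hm : 3 ≤ m) (v : Q m) (f : Q m → Q m → Q m → ℝ) (K : ℝ)
    (hK : 0 ≤ K) (hf : ∀ u a b, s(v, u) ∈ cubeE m → s(v, a) ∈ cubeE m → s(v, b) ∈ cubeE m →
      a ≠ u → b ≠ u → b ≠ a → K ≤ f u a b) :
    (m : ℝ) * ((m - 1) * ((m - 2) * K)) ≤ nb (cubeE m) (fun u => nb (cubeE m) (fun a =>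
      nb (cubeE m) (fun b => if a = u ∨ b = u ∨ b = a then 0 else f u a b) v) v) v := by
  have hdeg := ba_deg m v
  have hdeg' : (univ.filter (fun z => s(v, z) ∈ cubeE m)).card = m := by exact_mod_cast hdeg
  have hm' : (3 : ℝ) ≤ m := by exact_mod_cast hm
  simp only [ba_nb]
  generalize hN : univ.filter (fun z => s(v, z) ∈ cubeE m) = N at hdeg hdeg' ⊢
  have hmem : ∀ z ∈ N, s(v, z) ∈ cubeE m := fun z hz => by
    rw [← hN] at hz
    exact (Finset.mem_filter.1 hz).2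
  have hfn : ∀ u ∈ N, ∀ a ∈ N, ∀ b ∈ N,
      0 ≤ if a = u ∨ b = u ∨ b = a then (0 : ℝ) else f u a b := by
    intro u hu a ha b hb
    split_ifs with hc
    · exact le_rfl
    · push Not at hc
      exact hK.trans (hf u a b (hmem u hu) (hmem a ha) (hmem b hb) hc.1 hc.2.1 hc.2.2)
  have hlow : ∀ u ∈ N, (m - 1 : ℝ) * ((m - 2) * K) ≤ ∑ a ∈ N, ∑ b ∈ N,
      if a = u ∨ b = u ∨ b = a then (0 : ℝ) else f u a b := by
    intro u hu
    have hcu : ((N.erase u).card : ℝ) = m - 1 := by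
      rw [Finset.card_erase_of_mem hu, hdeg', Nat.cast_sub (by omega), Nat.cast_one]
    have h2 : ∑ a ∈ N.erase u, ∑ b ∈ N, (if a = u ∨ b = u ∨ b = a then (0 : ℝ) else f u a b) ≤
        ∑ a ∈ N, ∑ b ∈ N, if a = u ∨ b = u ∨ b = a then (0 : ℝ) else f u a b :=
      Finset.sum_le_sum_of_subset_of_nonneg (Finset.erase_subset _ _) fun a ha _ =>
        Finset.sum_nonneg fun b hb => hfn u hu a ha b hb
    refine le_trans ?_ h2
    rw [← hcu, ← nsmul_eq_mul]
    refine Finset.card_nsmul_le_sum _ _ _ fun a ha => ?_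
    have haN := Finset.mem_of_mem_erase ha
    have hau := Finset.ne_of_mem_erase ha
    have hcua : (((N.erase u).erase a).card : ℝ) = m - 2 := by
      rw [Finset.card_erase_of_mem ha, Finset.card_erase_of_mem hu, hdeg', Nat.cast_sub (by omega),
        Nat.cast_sub (by omega)]
      push_cast
      ring
    have h3 : ∑ b ∈ (N.erase u).erase a,
        (if a = u ∨ b = u ∨ b = a then (0 : ℝ) else f u a b) ≤
        ∑ b ∈ N, if a = u ∨ b = u ∨ b = a then (0 : ℝ) else f u a b :=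
      Finset.sum_le_sum_of_subset_of_nonneg ((Finset.erase_subset _ _).trans
        (Finset.erase_subset _ _)) fun b hb _ => hfn u hu a haN b hb
    refine le_trans ?_ h3
    rw [← hcua, ← nsmul_eq_mul]
    refine Finset.card_nsmul_le_sum _ _ _ fun b hb => ?_
    have hba := Finset.ne_of_mem_erase hb
    have hb' := Finset.mem_of_mem_erase hb
    have hbu := Finset.ne_of_mem_erase hb'
    have hbN := Finset.mem_of_mem_erase hb'
    rw [if_neg (by tauto)]
    exact hf u a b (hmem u hu) (hmem a haN) (hmem b hbN) hau hbu hba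
  have h4 := Finset.card_nsmul_le_sum N _ _ hlow
  rw [nsmul_eq_mul, hdeg'] at h4
  exact h4

private theorem ba_split (m : ℕ) (v : Q m) : ∃ B : Finset (Sym2 (Q m)),
    Disjoint B (offE (cubeE m) {v}) ∧ B ∪ offE (cubeE m) {v} = cubeE m ∧ B.card ≤ m := by
  classical
  refine ⟨cubeE m \ offE (cubeE m) {v}, Finset.sdiff_disjoint,
    Finset.sdiff_union_of_subset (xb_offE_subset _ _), ?_⟩
  have h2 : cubeE m \ offE (cubeE m) {v} ⊆
      (univ.filter (fun z => s(v, z) ∈ cubeE m)).image (fun z => s(v, z)) := by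
    intro e he
    rw [Finset.mem_sdiff] at he
    induction e with
    | h a b =>
      rw [xb_mem_offE] at he
      simp only [Finset.mem_singleton] at he
      rw [Finset.mem_image]
      by_cases ha : a = v
      · subst ha
        exact ⟨b, Finset.mem_filter.2 ⟨Finset.mem_univ _, he.1⟩, rfl⟩
      · have hb : b = v := by
          by_contra hb
          exact he.2 ⟨he.1, ha, hb⟩
        subst hb
        exact ⟨a, Finset.mem_filter.2 ⟨Finset.mem_univ _, by rw [Sym2.eq_swap]; exact he.1⟩,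
          Sym2.eq_swap⟩
  have h3 := (Finset.card_le_card h2).trans Finset.card_image_le
  have h4 : (univ.filter (fun z => s(v, z) ∈ cubeE m)).card = m := by exact_mod_cast ba_deg m v
  rw [h4] at h3
  exact h3

private theorem ba_arith1 (c M u a b t1 t2 t3 J : ℝ) (hc0 : 0 ≤ c) (hM0 : 0 ≤ M)
    (h3 : c * (1 - 1 / 100) ≤ u) (h4 : M * (1 - 1 / 100) ≤ a) (h5 : M * (1 - 1 / 100) ≤ b)
    (ht1 : t1 ≤ 1 / 100) (ht2 : t2 ≤ 1 / 100) (ht3 : t3 ≤ 1 / 100) (h6 : u ≤ 4 * c) (hu : 0 ≤ u)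
    (h2 : u * (a * b) - M ^ 2 * (4 * c) * (t1 + t2) - M ^ 2 * t3 * u ≤ J) :
    c * M ^ 2 / 2 ≤ J := by
  have e1 : c * (1 - 1 / 100) * (M * (1 - 1 / 100) * (M * (1 - 1 / 100))) ≤ u * (a * b) := by
    have q1 : 0 ≤ M * (1 - 1 / 100) := by linarith
    have q2 : 0 ≤ c * (1 - 1 / 100) := by linarith
    exact mul_le_mul h3 (mul_le_mul h4 h5 q1 (q1.trans h4)) (mul_nonneg q1 q1) hu
  have e2 : M ^ 2 * (4 * c) * (t1 + t2) ≤ M ^ 2 * (4 * c) * (2 / 100) := by
    apply mul_le_mul_of_nonneg_left _ (by positivity)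
    linarith
  have e3 : M ^ 2 * t3 * u ≤ M ^ 2 * (1 / 100) * (4 * c) := by
    apply mul_le_mul _ h6 hu (by positivity)
    exact mul_le_mul_of_nonneg_left ht3 (by positivity)
  have e4 : 0 ≤ c * M ^ 2 := by positivity
  have e5 : c * (1 - 1 / 100) * (M * (1 - 1 / 100) * (M * (1 - 1 / 100))) =
      970299 / 1000000 * (c * M ^ 2) := by ring
  have e6 : M ^ 2 * (4 * c) * (2 / 100) = 8 / 100 * (c * M ^ 2) := by ring
  have e7 : M ^ 2 * (1 / 100) * (4 * c) = 4 / 100 * (c * M ^ 2) := by ring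
  rw [e5] at e1
  rw [e6] at e2
  rw [e7] at e3
  linarith

private theorem ba_arith2 (m N p h c M r : ℝ) (hm' : 100 ≤ m) (hN : 0 < N) (hpl : 1 / 2 ≤ p * m)
    (h0 : 0 ≤ p) (hh0 : 0 ≤ h) (hh2 : h ≤ 1 / 2) (hc0 : 0 ≤ c) (hMpos : 0 < M)
    (hpow3 : 1 / 4 ≤ r)
    (hmain : (1 - h) * p ^ 3 * r * (N * (m * ((m - 1) * ((m - 2) * (c * M ^ 2 / 2))))) ≤
      2 * (N * M)) : c * M ≤ 2000 := by
  have hm0 : (0 : ℝ) < m := by linarith
  have hpm3 : 1 / 8 ≤ (p * m) ^ 3 := by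
    have := pow_le_pow_left₀ (by norm_num : (0 : ℝ) ≤ 1 / 2) hpl 3
    linarith [(by norm_num : ((1 / 2 : ℝ)) ^ 3 = 1 / 8)]
  have hm12 : (m : ℝ) ^ 2 / 2 ≤ (m - 1) * (m - 2) := by nlinarith
  have h7 : (1 - h) * p ^ 3 * r * (m * ((m - 1) * (m - 2))) * (c * M / 2) ≤ 2 := by
    have h8 : (N * M) * ((1 - h) * p ^ 3 * r * (m * ((m - 1) * (m - 2))) *
        (c * M / 2)) ≤ (N * M) * 2 := by
      calc _ = (1 - h) * p ^ 3 * r *
            (N * ((m : ℝ) * ((m - 1) * ((m - 2) * (c * M ^ 2 / 2))))) := by ring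
        _ ≤ 2 * (N * M) := hmain
        _ = _ := by ring
    exact le_of_mul_le_mul_left h8 (by positivity)
  have h9 : 1 / 128 ≤ (1 - h) * p ^ 3 * r * (m * ((m - 1) * (m - 2))) := by
    have h10 : (p * m) ^ 3 / 2 ≤ p ^ 3 * (m * ((m - 1) * (m - 2))) := by
      have h10' : m * ((m : ℝ) ^ 2 / 2) ≤ m * ((m - 1) * (m - 2)) :=
        mul_le_mul_of_nonneg_left hm12 hm0.le
      have : p ^ 3 * (m * ((m : ℝ) ^ 2 / 2)) ≤ p ^ 3 * (m * ((m - 1) * (m - 2))) :=
        mul_le_mul_of_nonneg_left h10' (by positivity)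
      calc (p * m) ^ 3 / 2 = p ^ 3 * (m * ((m : ℝ) ^ 2 / 2)) := by ring
        _ ≤ _ := this
    have h11 : 1 / 16 ≤ p ^ 3 * (m * ((m - 1) * (m - 2))) := by linarith
    have h12 : 1 / 8 ≤ (1 - h) * r := by
      calc (1 : ℝ) / 8 = 1 / 2 * (1 / 4) := by norm_num
        _ ≤ (1 - h) * r :=
          mul_le_mul (by linarith) hpow3 (by norm_num) (by linarith)
    calc (1 : ℝ) / 128 = 1 / 8 * (1 / 16) := by norm_num
      _ ≤ ((1 - h) * r) * (p ^ 3 * (m * ((m - 1) * (m - 2)))) :=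
        mul_le_mul h12 h11 (by norm_num) (by linarith)
      _ = _ := by ring
  have hcM : 0 ≤ c * M / 2 := by positivity
  have h13 := mul_le_mul_of_nonneg_right h9 hcM
  linarith

theorem ba : ∃ m0 : ℕ, ∀ m ≥ m0, ∀ p h : ℝ, 1 / 2 ≤ p * m → p * m ≤ 11 / 10 → 0 ≤ h → h ≤ 1 / 2 →
    (∀ x y : Q m, x ≠ y → tri (cubeE m) p x y ≤ 1 / 100) → ∀ x : Q m,
    mo (cubeE m) p h 1 x * Mh (cubeE m) p h x ≤ 2000 := by
  refine ⟨100, fun m hm p h hpl hpu hh0 hh2 htri x => ?_⟩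
  have hm' : (100 : ℝ) ≤ m := by exact_mod_cast hm
  have hm0 : (0 : ℝ) < m := by linarith
  have h0 : 0 ≤ p := by
    by_contra hneg
    push Not at hneg
    nlinarith
  have h1 : p ≤ 1 := by nlinarith
  have hh1 : h ≤ 1 := by linarith
  set E := cubeE m with hE
  set c : ℝ := mo E p h 1 x with hc
  set M : ℝ := Mh E p h x with hM
  have hcx : ∀ y, mo E p h 1 y = c := fun y => trans_mo p h 1 y x
  have hMx : ∀ y, Mh E p h y = M := fun y => trans_Mh p h y x
  have hc0 : 0 ≤ c := ba_mo_nonneg E p h h0 h1 hh1 x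
  have hM0 : 0 ≤ M := ba_mh_nonneg E p h h0 h1 hh0 hh1 x
  have hpow := ba_pow m hm p h0 hpu
  rcases hM0.eq_or_lt with hMz | hMpos
  · rw [← hMz, mul_zero]
    norm_num
  -- (a)
  have hA : ∀ v y : Q m, mo (offE E {v}) p h 1 y ≤ 4 * c := by
    intro v y
    obtain ⟨B, hBd, hBu, hBc⟩ := ba_split m v
    have h2 := ba_closed (offE E {v}) B hBd p h0 h1
      (fun ω => ((cl ω y).card : ℝ) ^ 1 * (1 - h) ^ (cl ω y).card)
      (fun ω _ => mul_nonneg (pow_nonneg (Nat.cast_nonneg _) _) (pow_nonneg (by linarith) _))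
    rw [hBu] at h2
    have h3 : (1 - p) ^ B.card * mo (offE E {v}) p h 1 y ≤ c := by
      rw [← hcx y]
      exact h2
    have h4 : 1 / 4 ≤ (1 - p) ^ B.card :=
      hpow.trans (pow_le_pow_of_le_one (by linarith) (by linarith) hBc)
    have h5 := ba_mo_nonneg (offE E {v}) p h h0 h1 hh1 y
    nlinarith [mul_le_mul_of_nonneg_right h4 h5]
  have hadj : ∀ v u : Q m, s(v, u) ∈ E → u ≠ v := by
    intro v u huv
    rw [hE] at huv
    unfold cubeE at huv
    rw [SimpleGraph.mem_edgeFinset, SimpleGraph.mem_edgeSet] at huv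
    exact huv.ne'
  have hJ : ∀ v u a b : Q m, s(v, u) ∈ E → s(v, a) ∈ E → s(v, b) ∈ E → a ≠ u → b ≠ u → b ≠ a →
      c * M ^ 2 / 2 ≤ Jf (offE E {v}) p h u a b := by
    intro v u a b hu ha hb hau hbu hba
    have h2 := jlow E (offE E {v}) (xb_offE_subset E {v}) p h M (4 * c) h0 h1 hh0 hh1
      (fun y => (hMx y).le) (fun y => hA v y) u a b
    have h3 := ba_mo_low E p h c (1 / 100) h0 h1 hh0 hh1 hcx u v (hadj v u hu)
      (htri u v (hadj v u hu)) hc0
    have h4 := ba_mh_low E p h M (1 / 100) h0 h1 hh0 hh1 hMx a v (hadj v a ha)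
      (htri a v (hadj v a ha)) hM0
    have h5 := ba_mh_low E p h M (1 / 100) h0 h1 hh0 hh1 hMx b v (hadj v b hb)
      (htri b v (hadj v b hb)) hM0
    have t1 := htri a u hau
    have t2 := htri b u hbu
    have t3 := htri a b hba.symm
    have h6 := hA v u
    have hmo0 := ba_mo_nonneg (offE E {v}) p h h0 h1 hh1 u
    exact ba_arith1 c M _ _ _ _ _ _ _ hc0 hM0 h3 h4 h5 t1 t2 t3 h6 hmo0 h2
  have hK0 : 0 ≤ c * M ^ 2 / 2 := by positivity
  have hspv := spv m (by omega) p h h0 h1 hh0 hh1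
  have hsum : (2 : ℝ) ^ m * ((m : ℝ) * ((m - 1) * ((m - 2) * (c * M ^ 2 / 2)))) ≤
      ∑ v : Q m, nb (cubeE m) (fun u => nb (cubeE m) (fun a =>
      nb (cubeE m) (fun b => if a = u ∨ b = u ∨ b = a then 0 else
        Jf (offE (cubeE m) {v}) p h u a b) v) v) v := by
    have h2 : (2 : ℝ) ^ m * ((m : ℝ) * ((m - 1) * ((m - 2) * (c * M ^ 2 / 2)))) =
        ∑ v : Q m, ((m : ℝ) * ((m - 1) * ((m - 2) * (c * M ^ 2 / 2)))) := by
      rw [Finset.sum_const, Finset.card_univ, nsmul_eq_mul]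
      congr 1
      simp
    rw [h2]
    refine Finset.sum_le_sum fun v _ => ?_
    exact ba_triple m (by omega) v _ _ hK0 fun u a b hu ha hb hau hbu hba =>
      hJ v u a b hu ha hb hau hbu hba
  have hR : ∑ y : Q m, Mh (cubeE m) p h y = 2 ^ m * M := by
    rw [Finset.sum_congr rfl fun y _ => hMx y, Finset.sum_const, Finset.card_univ, nsmul_eq_mul]
    congr 1
    simp
  rw [hR] at hspv
  have hq : 0 ≤ (1 - h) * p ^ 3 * (1 - p) ^ (m - 3) := by
    have : 0 ≤ 1 - h := by linarith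
    have : 0 ≤ 1 - p := by linarith
    positivity
  have hmain := (mul_le_mul_of_nonneg_left hsum hq).trans hspv
  have hpow3 : 1 / 4 ≤ (1 - p) ^ (m - 3) :=
    hpow.trans (pow_le_pow_of_le_one (by linarith) (by linarith) (Nat.sub_le _ _))
  have hN : (0 : ℝ) < 2 ^ m := by positivity
  exact ba_arith2 m (2 ^ m) p h c M _ hm' hN hpl h0 hh0 hh2 hc0 hMpos hpow3 hmain

end Pool.Agent.Work.MP_b7dc8a_pr
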