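import Pool.Agent.Work.MP_b7dc8a_pr.F.Nbw
import Pool.Agent.Work.MP_b7dc8a_pr.B.Twop

/-! Module NBTWO (M): two point function and non backtracking walks.

`nb_one`: let `x ≠ w`, `E' = offE E {w}`, `ω ⊆ E'` (or work with `ω ∩ E'`), `y ∈ cl ω x`, `y ≠ x`. Take
a path (without repeated vertices) from `x` to `y`; its first edge is `s(x,z)` with `z ≠ w`, and the
rest of the path does not touch `x`, so `y ∈ cl (ω ∩ offE E {x}) z`. Hence
`ind (y ∈ cl ω x) <= [x = y] + ∑_{z : s(x,z) ∈ E, z ≠ w} ind (s(x,z) ∈ ω) ind (y ∈ cl (ω ∩ offE E {x}) z)`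
(closedness argument instead of paths: the set of all `u` which are `x` or lie in
`cl (ω ∩ offE E {x}) z` for some `z ≠ w` with `s(x,z) ∈ ω` is closed under edges of `ω`).
Take expectations: the edge `s(x,z)` is independent of `offE E {x}` (`Ex_mul_indep`), as in `b_twop1`
(B/Twop). (`cl` of `offE (offE E {w}) {x}` is contained in `cl` of `offE E {x}`.)

`nb_two`: by induction on `T`, for all `w`, `x ≠ w`:
`tau (offE E {w}) p x y <= ∑_{i<T} p^i nbt E i w x y + p^T ∑_z nbt E T w x z * tau E p z y`.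
`T = 0`: monotonicity (`xb_tau_mono_E`). Step: `nb_one`, then the induction hypothesis with `w := x`,
`x := z` (`z ≠ x` by `hE`). Finally `tau E p x y <= [x = y] + p nb E (fun z => tau (offE E {x}) p z y) x`
(same proof as `nb_one` without `w`) and the bound just proved, `T - 1` steps. (`T = 0` is trivial.) -/

namespace Pool.Agent.Work.MP_b7dc8a_pr

open Finset

section NBTWO
variable {V : Type} [Fintype V] [DecidableEq V]

omit [Fintype V] [DecidableEq V] in
private theorem nbx_ind_mem (E : Finset (Sym2 V)) (p : ℝ) (e : Sym2 V) (he : e ∈ E) :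
    Ex E p (fun ω => ind (e ∈ ω)) = p := by
  classical
  have h1 : Ex E p (fun ω => ind (e ∈ ω)) = Ex E p (fun ω => ind (e ∈ ω ∩ {e})) := by
    refine Ex_congr _ _ _ _ fun ω _ => ?_
    congr 1
    simp
  rw [h1, Ex_restrict E {e} (by simpa using he) p (fun ω => ind (e ∈ ω))]
  have h2 : ({e} : Finset (Sym2 V)) = insert e ∅ := by simp
  rw [h2, Ex_insert e ∅ (by simp), Ex_empty, Ex_empty]
  simp [ind]

private theorem nbx_reach (E ω : Finset (Sym2 V)) (hω : ω ⊆ E) (x y : V) (hxy : x ≠ y)
    (h : y ∈ cl ω x) : ∃ z, s(x, z) ∈ ω ∧ y ∈ cl (ω ∩ offE E {x}) z := by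
  rw [clb_mem_cl] at h
  have key := clb_closed ω {w | w = x ∨ ∃ z, s(x, z) ∈ ω ∧ w ∈ cl (ω ∩ offE E {x}) z} ?_ x y
    (Or.inl rfl) h
  · rcases key with h1 | h1
    · exact absurd h1.symm hxy
    · exact h1
  · intro a ha b hab
    by_cases hax : a = x
    · right
      refine ⟨b, ?_, mem_cl_self _ _⟩
      rw [← hax]; exact hab
    · rcases ha with ha | ⟨z, hz, haz⟩
      · exact absurd ha hax
      · by_cases hbx : b = x
        · exact Or.inl hbx
        · right
          refine ⟨z, hz, cl_closed _ z a b haz ?_⟩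
          rw [Finset.mem_inter, xb_mem_offE]
          refine ⟨hab, hω hab, ?_, ?_⟩
          · simpa using hax
          · simpa using hbx

/-- the step, with the two point function of the graph without `x` on the right -/
private theorem nbx_strong (E : Finset (Sym2 V)) (p : ℝ) (h0 : 0 ≤ p) (h1 : p ≤ 1) (x y : V) :
    tau E p x y ≤ ind (x = y) + p * ∑ z, ind (s(x, z) ∈ E) * tau (offE E {x}) p z y := by
  classical
  by_cases hxy : x = y
  · rw [walk_ind_pos _ hxy, hxy, xb_tau_self]
    have : 0 ≤ p * ∑ z, ind (s(y, z) ∈ E) * tau (offE E {y}) p z y :=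
      mul_nonneg h0 (Finset.sum_nonneg fun z _ =>
        mul_nonneg (xb_ind_nonneg _) (xb_tau_nonneg _ p h0 h1 z y))
    linarith
  · rw [walk_ind_neg _ hxy, zero_add]
    have hpt : ∀ ω ⊆ E, ind (y ∈ cl ω x) ≤ ∑ z, (if s(x, z) ∈ E then
        ind (s(x, z) ∈ ω) * ind (y ∈ cl (ω ∩ offE E {x}) z) else 0) := by
      intro ω hω
      by_cases h : y ∈ cl ω x
      · obtain ⟨z, hz, hyz⟩ := nbx_reach E ω hω x y hxy h
        have h2 : (if s(x, z) ∈ E then
            ind (s(x, z) ∈ ω) * ind (y ∈ cl (ω ∩ offE E {x}) z) else 0) = 1 := by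
          rw [if_pos (hω hz)]
          simp [ind, hz, hyz]
        have h3 := Finset.single_le_sum (f := fun z => (if s(x, z) ∈ E then
            ind (s(x, z) ∈ ω) * ind (y ∈ cl (ω ∩ offE E {x}) z) else 0)) (s := univ)
          (fun z _ => by
            split_ifs
            · exact mul_nonneg (xb_ind_nonneg _) (xb_ind_nonneg _)
            · exact le_rfl) (Finset.mem_univ z)
        beta_reduce at h3
        rw [h2] at h3
        exact (xb_ind_le_one _).trans h3
      · have h4 : ind (y ∈ cl ω x) = 0 := by simp [ind, h]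
        rw [h4]
        refine Finset.sum_nonneg fun z _ => ?_
        split_ifs
        · exact mul_nonneg (xb_ind_nonneg _) (xb_ind_nonneg _)
        · exact le_rfl
    have h5 : tau E p x y ≤ ∑ z, Ex E p (fun ω => (if s(x, z) ∈ E then
        ind (s(x, z) ∈ ω) * ind (y ∈ cl (ω ∩ offE E {x}) z) else 0)) := by
      rw [← Ex_sum]
      exact Ex_mono E p h0 h1 _ _ hpt
    refine h5.trans ?_
    rw [Finset.mul_sum]
    refine Finset.sum_le_sum fun z _ => ?_
    by_cases hz : s(x, z) ∈ E
    · simp only [if_pos hz]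
      have hd : Disjoint ({s(x, z)} : Finset (Sym2 V)) (offE E {x}) := by
        rw [Finset.disjoint_singleton_left, xb_mem_offE]
        rintro ⟨_, h6, _⟩
        simp at h6
      have h7 := Ex_mul_indep E {s(x, z)} (offE E {x}) hd p (fun ω => ind (s(x, z) ∈ ω))
        (fun ω => ind (y ∈ cl (ω ∩ offE E {x}) z))
        (fun ω _ => by congr 1; simp)
        (fun ω _ => by rw [Finset.inter_assoc, Finset.inter_self])
      rw [h7, nbx_ind_mem E p _ hz]
      have h8 : Ex E p (fun ω => ind (y ∈ cl (ω ∩ offE E {x}) z)) = tau (offE E {x}) p z y :=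
        Ex_restrict E (offE E {x}) (xb_offE_subset E {x}) p (fun ω => ind (y ∈ cl ω z))
      rw [h8, walk_ind_pos _ hz, one_mul]
    · simp only [if_neg hz]
      rw [Ex_const, walk_ind_neg _ hz, zero_mul, mul_zero]

/-- `nb_one` with indicators -/
private theorem nbx_one (E : Finset (Sym2 V)) (p : ℝ) (h0 : 0 ≤ p) (h1 : p ≤ 1) (w x y : V) :
    tau (offE E {w}) p x y ≤ ind (x = y) +
      p * ∑ z, ind (s(x, z) ∈ E) * (ind (z ≠ w) * tau (offE E {x}) p z y) := by
  refine (nbx_strong (offE E {w}) p h0 h1 x y).trans ?_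
  refine add_le_add le_rfl (mul_le_mul_of_nonneg_left (Finset.sum_le_sum fun z _ => ?_) h0)
  by_cases hz : s(x, z) ∈ offE E {w}
  · obtain ⟨h2, h3, h4⟩ := (xb_mem_offE _ _ _ _).1 hz
    have h5 : z ≠ w := by simpa using h4
    rw [walk_ind_pos _ hz, walk_ind_pos _ h2, walk_ind_pos _ h5, one_mul, one_mul, one_mul]
    exact xb_tau_mono_E _ _ (xb_offE_mono _ _ _ (xb_offE_subset E {w})) p h0 h1 z y
  · rw [walk_ind_neg _ hz, zero_mul]
    exact mul_nonneg (xb_ind_nonneg _) (mul_nonneg (xb_ind_nonneg _) (xb_tau_nonneg _ p h0 h1 z y))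

omit [DecidableEq V] in
private theorem nbx_nbt (E : Finset (Sym2 V)) (t : ℕ) (w x y : V) :
    nbt E (t + 1) w x y = ∑ z, ind (s(x, z) ∈ E) * (ind (z ≠ w) * nbt E t x z y) := by
  rw [show nbt E (t + 1) w x y = nb E (fun z => @ite ℝ (z = w) (Classical.propDecidable _) 0
    (nbt E t x z y)) x from rfl, walk_nb_ind]
  refine Finset.sum_congr rfl fun z _ => ?_
  congr 1
  by_cases h : z = w
  · rw [if_pos h, walk_ind_neg _ (by simpa using h), zero_mul]
  · rw [if_neg h, walk_ind_pos _ h, one_mul]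

omit [DecidableEq V] in
private theorem nbx_nbt0 (E : Finset (Sym2 V)) (w x y : V) : nbt E 0 w x y = ind (x = y) := by
  rfl

omit [DecidableEq V] in
private theorem nbx_na (E : Finset (Sym2 V)) (t : ℕ) (x y : V) :
    na E (t + 1) x y = ∑ z, ind (s(x, z) ∈ E) * nbt E t x z y := by
  rw [show na E (t + 1) x y = nb E (fun z => nbt E t x z y) x from rfl, walk_nb_ind]

omit [DecidableEq V] in
private theorem nbx_na0 (E : Finset (Sym2 V)) (x y : V) : na E 0 x y = ind (x = y) := by
  rfl

private theorem nbx_core (E : Finset (Sym2 V)) (hE : ∀ e ∈ E, ¬ e.IsDiag) (p : ℝ) (h0 : 0 ≤ p)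
    (h1 : p ≤ 1) (T : ℕ) : ∀ (w x y : V), x ≠ w → tau (offE E {w}) p x y ≤
      ∑ i ∈ range T, p ^ i * nbt E i w x y + p ^ T * ∑ z, nbt E T w x z * tau E p z y := by
  induction T with
  | zero =>
    intro w x y _
    rw [Finset.sum_range_zero, zero_add, pow_zero, one_mul]
    have h2 : ∑ z, nbt E 0 w x z * tau E p z y = tau E p x y := by
      rw [Finset.sum_eq_single x]
      · rw [nbx_nbt0, walk_ind_pos _ rfl, one_mul]
      · intro b _ hb
        rw [nbx_nbt0, walk_ind_neg _ (Ne.symm hb), zero_mul]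
      · intro h; exact absurd (Finset.mem_univ x) h
    rw [h2]
    exact xb_tau_mono_E _ _ (xb_offE_subset E {w}) p h0 h1 x y
  | succ T ih =>
    intro w x y _
    refine (nbx_one E p h0 h1 w x y).trans ?_
    have h3 : ∀ z, ind (s(x, z) ∈ E) * (ind (z ≠ w) * tau (offE E {x}) p z y) ≤
        ind (s(x, z) ∈ E) * (ind (z ≠ w) * (∑ i ∈ range T, p ^ i * nbt E i x z y +
          p ^ T * ∑ u, nbt E T x z u * tau E p u y)) := by
      intro z
      by_cases hz : s(x, z) ∈ E
      · have hzx : z ≠ x := by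
          intro h
          exact hE _ hz (by rw [h]; exact Sym2.mk_isDiag_iff.mpr rfl)
        exact mul_le_mul_of_nonneg_left (mul_le_mul_of_nonneg_left (ih x z y hzx) (xb_ind_nonneg _))
          (xb_ind_nonneg _)
      · rw [walk_ind_neg _ hz, zero_mul, zero_mul]
    have h4 := mul_le_mul_of_nonneg_left (Finset.sum_le_sum fun z (_ : z ∈ univ) => h3 z) h0
    refine (add_le_add le_rfl h4).trans (le_of_eq ?_)
    rw [Finset.sum_range_succ', nbx_nbt0, pow_zero, one_mul]
    have h5 : ∑ z, ind (s(x, z) ∈ E) * (ind (z ≠ w) * (∑ i ∈ range T, p ^ i * nbt E i x z y +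
          p ^ T * ∑ u, nbt E T x z u * tau E p u y)) =
        ∑ i ∈ range T, p ^ i * nbt E (i + 1) w x y +
          p ^ T * ∑ u, nbt E (T + 1) w x u * tau E p u y := by
      simp only [nbx_nbt]
      have e1 : ∑ i ∈ range T, p ^ i * ∑ z, ind (s(x, z) ∈ E) * (ind (z ≠ w) * nbt E i x z y) =
          ∑ z, ∑ i ∈ range T, p ^ i * (ind (s(x, z) ∈ E) * (ind (z ≠ w) * nbt E i x z y)) := by
        simp only [Finset.mul_sum]
        exact Finset.sum_comm
      have e2 : ∑ u, (∑ z, ind (s(x, z) ∈ E) * (ind (z ≠ w) * nbt E T x z u)) * tau E p u y =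
          ∑ z, ∑ u, ind (s(x, z) ∈ E) * (ind (z ≠ w) * nbt E T x z u) * tau E p u y := by
        simp only [Finset.sum_mul]
        exact Finset.sum_comm
      rw [e1, e2, Finset.mul_sum, ← Finset.sum_add_distrib]
      refine Finset.sum_congr rfl fun z _ => ?_
      rw [mul_add, mul_add, Finset.mul_sum, Finset.mul_sum, Finset.mul_sum, Finset.mul_sum,
        Finset.mul_sum, Finset.mul_sum]
      congr 1
      · refine Finset.sum_congr rfl fun i _ => ?_
        ring
      · refine Finset.sum_congr rfl fun u _ => ?_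
        ring
    rw [h5, mul_add, Finset.mul_sum]
    have e3 : ∑ i ∈ range T, p * (p ^ i * nbt E (i + 1) w x y) =
        ∑ i ∈ range T, p ^ (i + 1) * nbt E (i + 1) w x y :=
      Finset.sum_congr rfl fun i _ => by ring
    rw [e3]
    ring

open Classical in
theorem nb_one (E : Finset (Sym2 V)) (hE : ∀ e ∈ E, ¬ e.IsDiag) (p : ℝ) (h0 : 0 ≤ p) (h1 : p ≤ 1)
    (w x y : V) (hxw : x ≠ w) :
    tau (offE E {w}) p x y ≤ (if x = y then 1 else 0) +
      p * nb E (fun z => if z = w then 0 else tau (offE E {x}) p z y) x := by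
  refine (nbx_one E p h0 h1 w x y).trans (le_of_eq ?_)
  rw [walk_nb_ind]
  congr 1
  · by_cases h : x = y
    · rw [walk_ind_pos _ h, if_pos h]
    · rw [walk_ind_neg _ h, if_neg h]
  · congr 1
    refine Finset.sum_congr rfl fun z _ => ?_
    congr 1
    by_cases h : z = w
    · rw [if_pos h, walk_ind_neg _ (by simpa using h), zero_mul]
    · rw [if_neg h, walk_ind_pos _ h, one_mul]

theorem nb_two (E : Finset (Sym2 V)) (hE : ∀ e ∈ E, ¬ e.IsDiag) (p : ℝ) (h0 : 0 ≤ p) (h1 : p ≤ 1)
    (T : ℕ) (x y : V) :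
    tau E p x y ≤ ∑ i ∈ range T, p ^ i * na E i x y + p ^ T * ∑ z, na E T x z * tau E p z y := by
  rcases T with _ | T
  · rw [Finset.sum_range_zero, zero_add, pow_zero, one_mul]
    have h2 : ∑ z, na E 0 x z * tau E p z y = tau E p x y := by
      rw [Finset.sum_eq_single x]
      · rw [nbx_na0, walk_ind_pos _ rfl, one_mul]
      · intro b _ hb
        rw [nbx_na0, walk_ind_neg _ (Ne.symm hb), zero_mul]
      · intro h; exact absurd (Finset.mem_univ x) h
    rw [h2]
  · refine (nbx_strong E p h0 h1 x y).trans ?_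
    have h3 : ∀ z, ind (s(x, z) ∈ E) * tau (offE E {x}) p z y ≤
        ind (s(x, z) ∈ E) * (∑ i ∈ range T, p ^ i * nbt E i x z y +
          p ^ T * ∑ u, nbt E T x z u * tau E p u y) := by
      intro z
      by_cases hz : s(x, z) ∈ E
      · have hzx : z ≠ x := by
          intro h
          exact hE _ hz (by rw [h]; exact Sym2.mk_isDiag_iff.mpr rfl)
        exact mul_le_mul_of_nonneg_left (nbx_core E hE p h0 h1 T x z y hzx) (xb_ind_nonneg _)
      · rw [walk_ind_neg _ hz, zero_mul, zero_mul]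
    have h4 := mul_le_mul_of_nonneg_left (Finset.sum_le_sum fun z (_ : z ∈ univ) => h3 z) h0
    refine (add_le_add le_rfl h4).trans (le_of_eq ?_)
    rw [Finset.sum_range_succ', nbx_na0, pow_zero, one_mul]
    have h5 : ∑ z, ind (s(x, z) ∈ E) * (∑ i ∈ range T, p ^ i * nbt E i x z y +
          p ^ T * ∑ u, nbt E T x z u * tau E p u y) =
        ∑ i ∈ range T, p ^ i * na E (i + 1) x y +
          p ^ T * ∑ u, na E (T + 1) x u * tau E p u y := by
      simp only [nbx_na]
      have e1 : ∑ i ∈ range T, p ^ i * ∑ z, ind (s(x, z) ∈ E) * nbt E i x z y =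
          ∑ z, ∑ i ∈ range T, p ^ i * (ind (s(x, z) ∈ E) * nbt E i x z y) := by
        simp only [Finset.mul_sum]
        exact Finset.sum_comm
      have e2 : ∑ u, (∑ z, ind (s(x, z) ∈ E) * nbt E T x z u) * tau E p u y =
          ∑ z, ∑ u, ind (s(x, z) ∈ E) * nbt E T x z u * tau E p u y := by
        simp only [Finset.sum_mul]
        exact Finset.sum_comm
      rw [e1, e2, Finset.mul_sum, ← Finset.sum_add_distrib]
      refine Finset.sum_congr rfl fun z _ => ?_
      rw [mul_add, Finset.mul_sum, Finset.mul_sum, Finset.mul_sum, Finset.mul_sum]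
      congr 1
      · refine Finset.sum_congr rfl fun i _ => ?_
        ring
      · refine Finset.sum_congr rfl fun u _ => ?_
        ring
    rw [h5, mul_add, Finset.mul_sum]
    have e3 : ∑ i ∈ range T, p * (p ^ i * na E (i + 1) x y) =
        ∑ i ∈ range T, p ^ (i + 1) * na E (i + 1) x y :=
      Finset.sum_congr rfl fun i _ => by ring
    rw [e3]
    ring

end NBTWO

end Pool.Agent.Work.MP_b7dc8a_pr
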