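import Pool.Agent.Work.MP_b7dc8a_pr.F.Rect2
import Pool.Agent.Work.MP_b7dc8a_pr.F.Nbtwo
import Pool.Agent.Work.MP_b7dc8a_pr.Exlow

/-! Module BPM (S-M): sharp bounds for `p` from the susceptibility.

`bpm_up`: `chi (cubeE m) p x` does not depend on `x` (`exlow_trans` in Exlow.lean); call it `X`
(`1 <= X <= 2^(2m/5)`, so `LL 30000 m X^2 <= 2^m` for large `m`). `rect_core` with `W = ∅` (`xb_offE_empty`),
`g = 1` (`xb_chi_wt`), `vmax = X`, `a = LL 30000 m X^3/2^m <= X`: `1 + p m X <= X (1 + m p^2 + 5 l4) +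
2 l4 X`, so `p m <= 1 + m p^2 + 7 l4 m`, i.e. `p m (1 - p) <= 1 + 7 l4`, `p (m-1) = p m - p
<= 1 + 7 l4 + p (p m - 1) <= 1 + 7 l4 + (2/m) 5000 dl m <= 1 + log^5 m/m^2` for large `m`.

`bpm_low` (any `p` with `p (m-1) < 1`): `nb_two` summed over `y` with `na_sum`:
`X <= 1 + ∑_{1 <= i < T} p^i m (m-1)^(i-1) + p^T m (m-1)^(T-1) X` (use
`∑_y ∑_z na T x z tau z y = ∑_z na T x z chi z = X ∑_z na T x z`); let `T → ∞`
(`p (m-1) < 1`): `X <= 1 + p m/(1 - p (m-1))`, i.e. `(X - 1) (1 - p (m-1)) <= p m`. If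
`p (m-1) >= 1` the left side is `<= 0`. -/

namespace Pool.Agent.Work.MP_b7dc8a_pr

open Finset

theorem bpm_up : ∃ m0 : ℕ, ∀ m ≥ m0, ∀ (p : ℝ) (x : Q m), 0 ≤ p → p * m ≤ 1 + 5000 * dl m →
    chi (cubeE m) p x ≤ (2 : ℝ) ^ (2 * (m : ℝ) / 5) →
    p * ((m : ℝ) - 1) ≤ 1 + Real.log m ^ 5 / (m : ℝ) ^ 2 := by
  obtain ⟨m1, h1⟩ := rect_core
  obtain ⟨m2, h2⟩ := xn_dl 5000 1 one_pos
  have hr : (1 : ℝ) < (2 : ℝ) ^ ((1 : ℝ) / 5) := Real.one_lt_rpow (by norm_num) (by norm_num)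
  obtain ⟨m3, h3⟩ := xn_exp 30000 ((2 : ℝ) ^ ((1 : ℝ) / 5)) hr
  obtain ⟨m4, hm4⟩ := Filter.eventually_atTop.1
    ((Real.tendsto_log_atTop.comp tendsto_natCast_atTop_atTop).eventually
      (Filter.eventually_ge_atTop (17 : ℝ)))
  refine ⟨max 3 (max (max m1 m2) (max m3 m4)), fun m hm p x h0 hpm hchi => ?_⟩
  have hm3 : 3 ≤ m := (le_max_left _ _).trans hm
  have hm' : max (max m1 m2) (max m3 m4) ≤ m := (le_max_right _ _).trans hm
  have hR := h1 m (((le_max_left _ _).trans (le_max_left _ _)).trans hm')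
  have hd := h2 m (((le_max_right _ _).trans (le_max_left _ _)).trans hm')
  have hL := h3 m (((le_max_left _ _).trans (le_max_right _ _)).trans hm')
  have hlog : (17 : ℝ) ≤ Real.log m := hm4 m (((le_max_right _ _).trans (le_max_right _ _)).trans hm')
  have hm3' : (3 : ℝ) ≤ m := by exact_mod_cast hm3
  have hm0 : (0 : ℝ) < m := by linarith
  have hpm2 : p * m ≤ 2 := by linarith
  have hp1 : p ≤ 1 := by
    by_contra h
    push Not at h
    nlinarith
  set X : ℝ := chi (cubeE m) p x with hX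
  have hX1 : 1 ≤ X := xb_chi_ge_one _ p h0 hp1 x
  have hXall : ∀ y, chi (cubeE m) p y = X := fun y => exlow_trans p y x
  -- LL X^2 <= 2^m
  have hLX : LL 30000 m * X ^ 2 ≤ 2 ^ m := by
    have e1 : X ^ 2 ≤ (2 : ℝ) ^ (4 * (m : ℝ) / 5) := by
      refine (pow_le_pow_left₀ (by linarith) hchi 2).trans (le_of_eq ?_)
      rw [← Real.rpow_natCast, ← Real.rpow_mul (by norm_num)]
      congr 1
      push_cast
      ring
    have e2 : ((2 : ℝ) ^ ((1 : ℝ) / 5)) ^ m = (2 : ℝ) ^ ((m : ℝ) / 5) := by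
      rw [← Real.rpow_natCast, ← Real.rpow_mul (by norm_num)]
      congr 1
      ring
    rw [e2] at hL
    calc LL 30000 m * X ^ 2 ≤ (2 : ℝ) ^ ((m : ℝ) / 5) * (2 : ℝ) ^ (4 * (m : ℝ) / 5) :=
          mul_le_mul hL e1 (by positivity) (by positivity)
      _ = (2 : ℝ) ^ ((m : ℝ)) := by
          rw [← Real.rpow_add (by norm_num)]
          congr 1
          ring
      _ = 2 ^ m := Real.rpow_natCast 2 m
  have hLpos := xn_LL_pos 30000 m
  set a : ℝ := LL 30000 m * X ^ 2 * X / 2 ^ m with ha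
  have haX : a ≤ X := by
    rw [ha, div_le_iff₀ (by positivity)]
    calc LL 30000 m * X ^ 2 * X ≤ 2 ^ m * X := mul_le_mul_of_nonneg_right hLX (by linarith)
      _ = X * 2 ^ m := mul_comm _ _
  have hwt : ∀ y, wt (offE (cubeE m) ∅) p (sm fun _ => 1) y = X := by
    intro y
    rw [xb_offE_empty, ← xb_chi_wt, hXall]
  have hcore := hR X X a p hX1 (by linarith) hLX le_rfl h0 hpm (fun y => (hXall y).le) ∅
    (fun _ => 1) (fun _ => zero_le_one) (fun y => (hwt y).le) x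
  simp only [hwt] at hcore
  have hnb : nb (offE (cubeE m) ∅) (fun _ => X) x = m * X := by
    rw [xb_offE_empty]
    have e1 : nb (cubeE m) (fun _ => X * 1) x = X * nb (cubeE m) (fun _ => 1) x :=
      nb_iter_smul (cubeE m) 1 X (fun _ => 1) x
    rw [nb_cube_one, mul_one] at e1
    rw [e1, mul_comm]
  rw [hnb] at hcore
  have hl4 : 0 ≤ l4 m := by unfold l4; positivity
  have h5 : X * (p * m) ≤ X * (1 + m * p ^ 2 + 7 * l4 m) := by
    have h6 : 2 * l4 m * a ≤ 2 * l4 m * X := mul_le_mul_of_nonneg_left haX (by positivity)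
    nlinarith
  have h7 : p * m ≤ 1 + m * p ^ 2 + 7 * l4 m := le_of_mul_le_mul_left h5 (by linarith)
  have h8 : p * (p * m - 1) ≤ 10000 * Real.log m / (m : ℝ) ^ 2 := by
    have h9 : p * (p * m - 1) ≤ p * (5000 * dl m) := mul_le_mul_of_nonneg_left (by linarith) h0
    have h10 : p ≤ 2 / m := by
      rw [le_div_iff₀ hm0]; exact hpm2
    have h11 : p * (5000 * dl m) ≤ 2 / m * (5000 * dl m) :=
      mul_le_mul_of_nonneg_right h10 (by have := xn_dl_nonneg m; positivity)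
    refine (h9.trans h11).trans (le_of_eq ?_)
    unfold dl
    field_simp
    ring
  have h12 : p * ((m : ℝ) - 1) ≤ 1 + 7 * l4 m + p * (p * m - 1) := by nlinarith
  have h13 : 7 * l4 m + 10000 * Real.log m / (m : ℝ) ^ 2 ≤ Real.log m ^ 5 / (m : ℝ) ^ 2 := by
    unfold l4
    rw [← mul_div_assoc, ← add_div]
    refine div_le_div_of_nonneg_right ?_ (by positivity)
    set L := Real.log m with hLdef
    have h14 : (1000 : ℝ) ≤ L ^ 3 := by
      have : (10 : ℝ) ≤ L := by linarith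
      calc (1000 : ℝ) = 10 ^ 3 := by norm_num
        _ ≤ L ^ 3 := pow_le_pow_left₀ (by norm_num) this 3
    have h15 : L ^ 5 - 7 * L ^ 4 - 10000 * L = L * (L ^ 3 * (L - 7) - 10000) := by ring
    have h16 : 0 ≤ L ^ 3 * (L - 7) - 10000 := by nlinarith
    have h17 : 0 ≤ L * (L ^ 3 * (L - 7) - 10000) := mul_nonneg (by linarith) h16
    linarith
  linarith

theorem bpm_low (m : ℕ) (hm : 2 ≤ m) (p : ℝ) (h0 : 0 ≤ p) (h1 : p ≤ 1) (x : Q m) :
    (chi (cubeE m) p x - 1) * (1 - p * ((m : ℝ) - 1)) ≤ p * m := by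
  have hm2 : (2 : ℝ) ≤ m := by exact_mod_cast hm
  have hX1 : 1 ≤ chi (cubeE m) p x := xb_chi_ge_one _ p h0 h1 x
  have hpm0 : 0 ≤ p * m := mul_nonneg h0 (by linarith)
  by_cases hq : 1 ≤ p * ((m : ℝ) - 1)
  · have : (chi (cubeE m) p x - 1) * (1 - p * ((m : ℝ) - 1)) ≤ 0 :=
      mul_nonpos_of_nonneg_of_nonpos (by linarith) (by linarith)
    linarith
  push Not at hq
  set q : ℝ := p * ((m : ℝ) - 1) with hqdef
  set X : ℝ := chi (cubeE m) p x with hX
  have hq0 : 0 ≤ q := mul_nonneg h0 (by linarith)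
  have hXall : ∀ y, chi (cubeE m) p y = X := fun y => exlow_trans p y x
  have hdiag : ∀ e ∈ cubeE m, ¬ e.IsDiag := fun e he => SimpleGraph.not_isDiag_of_mem_edgeFinset he
  have hstep : ∀ n : ℕ, X ≤ 1 + p * m / (1 - q) + p * m * X * q ^ n := by
    intro n
    have h2 : X ≤ ∑ y, (∑ i ∈ range (n + 1), p ^ i * na (cubeE m) i x y +
        p ^ (n + 1) * ∑ z, na (cubeE m) (n + 1) x z * tau (cubeE m) p z y) := by
      rw [hX, xb_chi_sum]
      exact Finset.sum_le_sum fun y _ => nb_two (cubeE m) hdiag p h0 h1 (n + 1) x y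
    have h3 : ∑ y, (∑ i ∈ range (n + 1), p ^ i * na (cubeE m) i x y +
        p ^ (n + 1) * ∑ z, na (cubeE m) (n + 1) x z * tau (cubeE m) p z y) =
        ∑ i ∈ range (n + 1), p ^ i * ∑ y, na (cubeE m) i x y +
          p ^ (n + 1) * (X * ∑ z, na (cubeE m) (n + 1) x z) := by
      rw [Finset.sum_add_distrib]
      congr 1
      · rw [Finset.sum_comm]
        exact Finset.sum_congr rfl fun i _ => by rw [Finset.mul_sum]
      · rw [← Finset.mul_sum, Finset.sum_comm]
        congr 1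
        rw [Finset.mul_sum]
        refine Finset.sum_congr rfl fun z _ => ?_
        rw [← Finset.mul_sum, ← xb_chi_sum, hXall, mul_comm]
    rw [h3] at h2
    have h4 : ∑ i ∈ range (n + 1), p ^ i * ∑ y, na (cubeE m) i x y ≤ 1 + p * m / (1 - q) := by
      rw [Finset.sum_range_succ', add_comm]
      refine add_le_add ?_ ?_
      · rw [pow_zero, one_mul]
        simp only [na_zero]
        simp
      · have h5 : ∀ i ∈ range n, p ^ (i + 1) * ∑ y, na (cubeE m) (i + 1) x y ≤ p * m * q ^ i := by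
          intro i _
          have h6 := na_sum m (by omega) (cubeE m) (Finset.Subset.refl _) i x
          calc p ^ (i + 1) * ∑ y, na (cubeE m) (i + 1) x y ≤ p ^ (i + 1) * (m * ((m : ℝ) - 1) ^ i) :=
                mul_le_mul_of_nonneg_left h6 (pow_nonneg h0 _)
            _ = p * m * q ^ i := by rw [hqdef, mul_pow, pow_succ]; ring
        refine (Finset.sum_le_sum h5).trans ?_
        rw [← Finset.mul_sum, div_eq_mul_inv]
        refine mul_le_mul_of_nonneg_left ?_ hpm0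
        have h7 : ∑ i ∈ range n, q ^ i ≤ ∑' i : ℕ, q ^ i :=
          (summable_geometric_of_lt_one hq0 hq).sum_le_tsum _ fun i _ => pow_nonneg hq0 i
        rw [tsum_geometric_of_lt_one hq0 hq] at h7
        exact h7
    have h8 : p ^ (n + 1) * (X * ∑ z, na (cubeE m) (n + 1) x z) ≤ p * m * X * q ^ n := by
      have h6 := na_sum m (by omega) (cubeE m) (Finset.Subset.refl _) n x
      calc p ^ (n + 1) * (X * ∑ z, na (cubeE m) (n + 1) x z)
          ≤ p ^ (n + 1) * (X * (m * ((m : ℝ) - 1) ^ n)) :=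
            mul_le_mul_of_nonneg_left (mul_le_mul_of_nonneg_left h6 (by linarith)) (pow_nonneg h0 _)
        _ = p * m * X * q ^ n := by rw [hqdef, mul_pow, pow_succ]; ring
    linarith
  have hlim : Filter.Tendsto (fun n : ℕ => 1 + p * m / (1 - q) + p * m * X * q ^ n) Filter.atTop
      (nhds (1 + p * m / (1 - q) + p * m * X * 0)) :=
    (tendsto_pow_atTop_nhds_zero_of_lt_one hq0 hq).const_mul _ |>.const_add _
  have hfin : X ≤ 1 + p * m / (1 - q) + p * m * X * 0 := ge_of_tendsto' hlim hstep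
  have h9 : X - 1 ≤ p * m / (1 - q) := by linarith
  exact (le_div_iff₀ (by linarith)).mp h9

end Pool.Agent.Work.MP_b7dc8a_pr
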