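import Pool.Agent.Work.MP_b7dc8a_pr.F.DefG

/-! Module MHD (S): `Mh` as a function of `h`.

`mh_deriv`: finite sum of polynomials in `h`; `d/dh (1 - (1-h)^n) = n (1-h)^(n-1) = n (1-h)^n/(1-h)`.
`mh_sq`: `f h = Mh E p h x` satisfies `f 0 = 0`, `f' = mo/(1-h) >= 0`, `(f^2)' = 2 f mo/(1-h) <= 4 B` on
`[0, 1/2]`; mean value inequality.
`mh_low`: `1 - (1-h)^n = h ∑_{i<n} (1-h)^i >= h n (1-h)^n`. `mh_mono_h`: obvious. -/

namespace Pool.Agent.Work.MP_b7dc8a_pr

open Finset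

section MHD
variable {V : Type} [Fintype V]

theorem mh_deriv (E : Finset (Sym2 V)) (p h : ℝ) (hh : h ≠ 1) (x : V) :
    HasDerivAt (fun h => Mh E p h x) (mo E p h 1 x / (1 - h)) h := by
  have h1h : (1 - h) ≠ 0 := sub_ne_zero.2 hh.symm
  unfold Mh Ex
  have h1 : HasDerivAt (fun h : ℝ => ∑ ω ∈ E.powerset, p ^ ω.card * (1 - p) ^ (E.card - ω.card) *
      (1 - h) ^ (cl ω x).card) (∑ ω ∈ E.powerset, p ^ ω.card * (1 - p) ^ (E.card - ω.card) *
        (((cl ω x).card : ℝ) * (1 - h) ^ ((cl ω x).card - 1) * (-1))) h := by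
    apply HasDerivAt.fun_sum
    intro ω _
    apply HasDerivAt.const_mul
    have h2 : HasDerivAt (fun h : ℝ => 1 - h) (-1) h := by
      simpa using (hasDerivAt_id h).const_sub 1
    exact h2.pow _
  refine (h1.const_sub 1).congr_deriv ?_
  unfold mo Ex
  rw [Finset.sum_div, ← Finset.sum_neg_distrib]
  refine Finset.sum_congr rfl fun ω _ => ?_
  rcases Nat.eq_zero_or_pos (cl ω x).card with h0 | h0
  · simp [h0]
  · obtain ⟨n, hn⟩ := Nat.exists_eq_succ_of_ne_zero h0.ne'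
    simp only [hn, Nat.succ_eq_add_one, Nat.add_sub_cancel, pow_one]
    rw [pow_succ (1 - h) n]
    field_simp

theorem mh_low (E : Finset (Sym2 V)) (p h : ℝ) (h0 : 0 ≤ p) (h1 : p ≤ 1) (hh0 : 0 ≤ h)
    (hh1 : h ≤ 1) (x : V) : h * mo E p h 1 x ≤ Mh E p h x := by
  unfold Mh mo
  have h2 : 1 - Ex E p (fun ω => (1 - h) ^ (cl ω x).card) =
      Ex E p (fun ω => 1 - (1 - h) ^ (cl ω x).card) := by
    rw [Ex_sub, Ex_const]
  rw [h2, ← Ex_mul_left]
  refine Ex_mono E p h0 h1 _ _ fun ω _ => ?_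
  have key : ∀ n : ℕ, h * ((n : ℝ) ^ 1 * (1 - h) ^ n) ≤ 1 - (1 - h) ^ n := by
    intro n
    have hq0 : 0 ≤ 1 - h := by linarith
    have hq1 : 1 - h ≤ 1 := by linarith
    induction n with
    | zero => simp
    | succ n ih =>
      have h3 : 0 ≤ (1 - h) ^ n := pow_nonneg hq0 n
      have h4 : (1 - h) ^ (n + 1) = (1 - h) ^ n * (1 - h) := pow_succ _ _
      have h5 : (1 - h) ^ n ≤ 1 := pow_le_one₀ hq0 hq1
      rw [h4]
      push_cast
      simp only [pow_one] at ih ⊢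
      have h6 : 0 ≤ (n : ℝ) * (1 - h) ^ n := by positivity
      nlinarith [mul_nonneg hh0 h3, mul_nonneg hh0 (mul_nonneg hh0 h3),
        mul_nonneg hh0 (mul_nonneg hh0 h6)]
  exact key (cl ω x).card

theorem mh_mono_h (E : Finset (Sym2 V)) (p h h' : ℝ) (h0 : 0 ≤ p) (h1 : p ≤ 1) (hh0 : 0 ≤ h)
    (hh : h ≤ h') (hh1 : h' ≤ 1) (x : V) : Mh E p h x ≤ Mh E p h' x := by
  unfold Mh
  have : Ex E p (fun ω => (1 - h') ^ (cl ω x).card) ≤ Ex E p (fun ω => (1 - h) ^ (cl ω x).card) :=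
    Ex_mono E p h0 h1 _ _ fun ω _ => pow_le_pow_left₀ (by linarith) (by linarith) _
  linarith

theorem mh_nonneg (E : Finset (Sym2 V)) (p h : ℝ) (h0 : 0 ≤ p) (h1 : p ≤ 1) (hh0 : 0 ≤ h)
    (hh1 : h ≤ 1) (x : V) : 0 ≤ Mh E p h x ∧ Mh E p h x ≤ 1 := by
  classical
  unfold Mh
  have hA : Ex E p (fun ω => (1 - h) ^ (cl ω x).card) ≤ 1 := by
    have := Ex_mono E p h0 h1 (fun ω => (1 - h) ^ (cl ω x).card) (fun _ => 1)
      fun ω _ => pow_le_one₀ (by linarith) (by linarith)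
    rwa [Ex_const] at this
  have hB : 0 ≤ Ex E p (fun ω => (1 - h) ^ (cl ω x).card) := by
    have := Ex_mono E p h0 h1 (fun _ => 0) (fun ω => (1 - h) ^ (cl ω x).card)
      fun ω _ => pow_nonneg (by linarith) _
    rwa [Ex_const] at this
  constructor <;> linarith

theorem mh_sq (E : Finset (Sym2 V)) (p B : ℝ) (h0 : 0 ≤ p) (h1 : p ≤ 1) (x : V)
    (hB : ∀ h, 0 ≤ h → h ≤ 1 / 2 → mo E p h 1 x * Mh E p h x ≤ B) (h : ℝ) (hh0 : 0 ≤ h)
    (hh1 : h ≤ 1 / 2) : Mh E p h x ^ 2 ≤ 4 * B * h := by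
  have hder : ∀ y ∈ Set.Icc (0 : ℝ) (1 / 2), HasDerivAt (fun h => 4 * B * h - Mh E p h x ^ 2)
      (4 * B - 2 * Mh E p y x * (mo E p y 1 x / (1 - y))) y := by
    intro y hy
    have h2 := mh_deriv E p y (by have := hy.2; intro h; linarith) x
    have h3 := (h2.pow 2)
    have h4 : HasDerivAt (fun h : ℝ => 4 * B * h) (4 * B) y := by
      simpa using (hasDerivAt_id y).const_mul (4 * B)
    have h5 : HasDerivAt (fun h => 4 * B * h - Mh E p h x ^ 2)
        (4 * B - ((2 : ℕ) : ℝ) * Mh E p y x ^ (2 - 1) * (mo E p y 1 x / (1 - y))) y := h4.sub h3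
    refine h5.congr_deriv ?_
    norm_num
  have hmono : MonotoneOn (fun h => 4 * B * h - Mh E p h x ^ 2) (Set.Icc (0 : ℝ) (1 / 2)) := by
    apply monotoneOn_of_deriv_nonneg (convex_Icc _ _)
    · intro y hy
      exact (hder y hy).continuousAt.continuousWithinAt
    · intro y hy
      rw [interior_Icc] at hy
      exact (hder y ⟨hy.1.le, hy.2.le⟩).differentiableAt.differentiableWithinAt
    · intro y hy
      rw [interior_Icc] at hy
      rw [(hder y ⟨hy.1.le, hy.2.le⟩).deriv]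
      have h2 := hB y hy.1.le hy.2.le
      have h3 : 0 < 1 - y := by have := hy.2; linarith
      have h4 := (mh_nonneg E p y h0 h1 hy.1.le (by have := hy.2; linarith) x).1
      have h5 : 0 ≤ mo E p y 1 x := by
        have := Ex_mono E p h0 h1 (fun _ => 0)
          (fun ω => ((cl ω x).card : ℝ) ^ 1 * (1 - y) ^ (cl ω x).card)
          fun ω _ => mul_nonneg (pow_nonneg (Nat.cast_nonneg _) _) (pow_nonneg h3.le _)
        rwa [Ex_const] at this
      have h6 : 2 * Mh E p y x * (mo E p y 1 x / (1 - y)) ≤ 4 * (mo E p y 1 x * Mh E p y x) := by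
        have h7 : 2 * Mh E p y x * (mo E p y 1 x / (1 - y)) =
            (2 / (1 - y)) * (mo E p y 1 x * Mh E p y x) := by
          field_simp
        rw [h7]
        apply mul_le_mul_of_nonneg_right _ (mul_nonneg h5 h4)
        rw [div_le_iff₀ h3]
        have := hy.2
        linarith
      linarith
  have h2 := hmono (⟨le_rfl, by norm_num⟩ : (0 : ℝ) ∈ Set.Icc (0 : ℝ) (1 / 2))
    (⟨hh0, hh1⟩ : h ∈ Set.Icc (0 : ℝ) (1 / 2)) hh0
  have h3 : Mh E p 0 x = 0 := by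
    unfold Mh
    simp [Ex_const]
  simp only [h3] at h2
  linarith

end MHD

end Pool.Agent.Work.MP_b7dc8a_pr
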