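import Pool.Agent.Work.MP_b7dc8a_pr.F.Def

/-! Module LOCB (M): properties of `Loc m J x y = ∑_{n < (J+1) TN} (n+1)^J P^n(x,y)`,
`P^n(x,y) = wk (cubeE m) n x y/m^n`, `TN m = 4 TT m`. -/

namespace Pool.Agent.Work.MP_b7dc8a_pr

open Finset

/-- transition probabilities -/
private noncomputable def PP (m n : ℕ) (x y : Q m) : ℝ := wk (cubeE m) n x y / (m : ℝ) ^ n

private theorem pp_nonneg (m n : ℕ) (x y : Q m) : 0 ≤ PP m n x y :=
  div_nonneg (wk_nonneg _ _ _ _) (by positivity)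

private theorem pp_comm (m n : ℕ) (x y : Q m) : PP m n x y = PP m n y x := by
  unfold PP
  rw [wk_comm]

private theorem pp_sum (m n : ℕ) (hm : 1 ≤ m) (x : Q m) : ∑ y, PP m n x y = 1 := by
  have h0 : (m : ℝ) ≠ 0 := by
    have : (1 : ℝ) ≤ m := by exact_mod_cast hm
    linarith
  unfold PP
  rw [← Finset.sum_div, wk_cube_sum, div_self (pow_ne_zero _ h0)]

private theorem pp_zero (m : ℕ) (x y : Q m) : PP m 0 x y = if x = y then 1 else 0 := by
  unfold PP
  rw [wk_zero, pow_zero, div_one]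

private theorem pp_conv (m i j : ℕ) (x y : Q m) :
    ∑ z, PP m i x z * PP m j z y = PP m (i + j) x y := by
  have h : wk (cubeE m) (i + j) x y = ∑ z, wk (cubeE m) i x z * wk (cubeE m) j z y := by
    rw [← nb_iter_eq]
    unfold wk
    rw [Function.iterate_add_apply]
  unfold PP
  rw [h, Finset.sum_div]
  refine Finset.sum_congr rfl fun z _ => ?_
  rw [pow_add, mul_div_mul_comm]

private theorem loc_eq (m J : ℕ) (x y : Q m) :
    Loc m J x y = ∑ n ∈ range ((J + 1) * TN m), ((n : ℝ) + 1) ^ J * PP m n x y := rfl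

private theorem one_le_TN (m : ℕ) (hm : 2 ≤ m) : 1 ≤ TN m := by
  have h1 := (xn_TT m (by omega)).1
  have h2 : (0 : ℝ) < Real.log m := Real.log_pos (by exact_mod_cast (by omega : 1 < m))
  have h3 : (0 : ℝ) < m := by exact_mod_cast (by omega : 0 < m)
  have h4 : (0 : ℝ) < TT m := lt_of_lt_of_le (mul_pos h3 h2) h1
  have h5 : 0 < TT m := by exact_mod_cast h4
  unfold TN
  omega

theorem loc_nonneg (m J : ℕ) (x y : Q m) : 0 ≤ Loc m J x y := by
  rw [loc_eq]
  exact Finset.sum_nonneg fun n _ => mul_nonneg (by positivity) (pp_nonneg _ _ _ _)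

theorem loc_comm (m J : ℕ) (x y : Q m) : Loc m J x y = Loc m J y x := by
  rw [loc_eq, loc_eq]
  exact Finset.sum_congr rfl fun n _ => by rw [pp_comm]

theorem loc_mono (m J K : ℕ) (h : J ≤ K) (x y : Q m) : Loc m J x y ≤ Loc m K x y := by
  rw [loc_eq, loc_eq]
  have h1 : range ((J + 1) * TN m) ⊆ range ((K + 1) * TN m) :=
    Finset.range_subset_range.2 (Nat.mul_le_mul_right _ (by omega))
  refine (Finset.sum_le_sum_of_subset_of_nonneg h1 fun n _ _ =>
    mul_nonneg (by positivity) (pp_nonneg _ _ _ _)).trans ?_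
  refine Finset.sum_le_sum fun n _ => mul_le_mul_of_nonneg_right ?_ (pp_nonneg _ _ _ _)
  exact pow_le_pow_right₀ (by linarith [Nat.cast_nonneg (α := ℝ) n]) h

theorem loc_one_le (m J : ℕ) (hm : 2 ≤ m) (x : Q m) : 1 ≤ Loc m J x x := by
  rw [loc_eq]
  have h1 := one_le_TN m hm
  have h0 : 0 ∈ range ((J + 1) * TN m) := by
    rw [Finset.mem_range]
    positivity
  have h2 := Finset.single_le_sum (f := fun n : ℕ => ((n : ℝ) + 1) ^ J * PP m n x x)
    (fun n _ => mul_nonneg (by positivity) (pp_nonneg _ _ _ _)) h0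
  refine le_trans (le_of_eq ?_) h2
  simp [pp_zero]

private theorem sum_pairs (a b : ℕ) (g : ℕ → ℝ) (hg : ∀ n, 0 ≤ g n) :
    ∑ i ∈ range a, ∑ j ∈ range b, g (i + j) ≤ ∑ n ∈ range (a + b), ((n : ℝ) + 1) * g n := by
  have h1 : ∀ i ∈ range a, ∑ j ∈ range b, g (i + j) ≤
      ∑ n ∈ range (a + b), if i ≤ n then g n else 0 := by
    intro i hi
    rw [Finset.mem_range] at hi
    rw [← Finset.sum_filter]
    have h2 : ∑ j ∈ range b, g (i + j) = ∑ n ∈ (range b).map (addLeftEmbedding i), g n := by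
      rw [Finset.sum_map]
      rfl
    rw [h2]
    refine Finset.sum_le_sum_of_subset_of_nonneg ?_ fun n _ _ => hg n
    intro n hn
    rw [Finset.mem_map] at hn
    obtain ⟨j, hj, rfl⟩ := hn
    rw [Finset.mem_range] at hj
    rw [Finset.mem_filter, Finset.mem_range]
    constructor
    · show i + j < a + b
      omega
    · show i ≤ i + j
      omega
  refine (Finset.sum_le_sum h1).trans ?_
  rw [Finset.sum_comm]
  refine Finset.sum_le_sum fun n _ => ?_
  rw [← Finset.sum_filter, Finset.sum_const, nsmul_eq_mul]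
  refine mul_le_mul_of_nonneg_right ?_ (hg n)
  have h3 : ((range a).filter fun i => i ≤ n) ⊆ range (n + 1) := by
    intro i hi
    rw [Finset.mem_filter] at hi
    rw [Finset.mem_range]
    omega
  have h4 := Finset.card_le_card h3
  rw [Finset.card_range] at h4
  exact_mod_cast h4

theorem loc_conv (m J K : ℕ) (hm : 1 ≤ m) (x y : Q m) :
    ∑ z, Loc m J x z * Loc m K z y ≤ Loc m (J + K + 1) x y := by
  set a := (J + 1) * TN m with ha
  set b := (K + 1) * TN m with hb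
  have h1 : ∑ z, Loc m J x z * Loc m K z y =
      ∑ i ∈ range a, ∑ j ∈ range b, ((i : ℝ) + 1) ^ J * ((j : ℝ) + 1) ^ K *
        PP m (i + j) x y := by
    calc ∑ z, Loc m J x z * Loc m K z y
        = ∑ z, ∑ i ∈ range a, ∑ j ∈ range b, (((i : ℝ) + 1) ^ J * PP m i x z) *
            (((j : ℝ) + 1) ^ K * PP m j z y) :=
          Finset.sum_congr rfl fun z _ => by rw [loc_eq, loc_eq, Finset.sum_mul_sum]
      _ = ∑ i ∈ range a, ∑ z, ∑ j ∈ range b, (((i : ℝ) + 1) ^ J * PP m i x z) *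
            (((j : ℝ) + 1) ^ K * PP m j z y) := Finset.sum_comm
      _ = _ := by
          refine Finset.sum_congr rfl fun i _ => ?_
          rw [Finset.sum_comm]
          refine Finset.sum_congr rfl fun j _ => ?_
          rw [← pp_conv, Finset.mul_sum]
          exact Finset.sum_congr rfl fun z _ => by ring
  rw [h1]
  have h2 : ∑ i ∈ range a, ∑ j ∈ range b, ((i : ℝ) + 1) ^ J * ((j : ℝ) + 1) ^ K *
        PP m (i + j) x y ≤ ∑ i ∈ range a, ∑ j ∈ range b,
        (fun n : ℕ => ((n : ℝ) + 1) ^ (J + K) * PP m n x y) (i + j) := by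
    refine Finset.sum_le_sum fun i _ => Finset.sum_le_sum fun j _ => ?_
    refine mul_le_mul_of_nonneg_right ?_ (pp_nonneg _ _ _ _)
    rw [pow_add]
    push_cast
    have hi : (0 : ℝ) ≤ i := Nat.cast_nonneg i
    have hj : (0 : ℝ) ≤ j := Nat.cast_nonneg j
    gcongr <;> linarith
  have h4 := sum_pairs a b (fun n : ℕ => ((n : ℝ) + 1) ^ (J + K) * PP m n x y)
    (fun n => mul_nonneg (by positivity) (pp_nonneg _ _ _ _))
  refine h2.trans (h4.trans (le_of_eq ?_))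
  rw [loc_eq]
  have h3 : a + b = (J + K + 1 + 1) * TN m := by rw [ha, hb]; ring
  rw [h3]
  refine Finset.sum_congr rfl fun n _ => ?_
  rw [pow_succ]
  ring

private theorem nb_le_const {V : Type} [Fintype V] (E : Finset (Sym2 V)) (f : V → ℝ) (c : ℝ) (x : V)
    (h : ∀ z, s(x, z) ∈ E → f z ≤ c) : nb E f x ≤ nb E (fun _ => 1) x * c := by
  unfold nb
  rw [Finset.sum_mul]
  refine Finset.sum_le_sum fun z hz => ?_
  rw [one_mul]
  simp only [Finset.mem_filter, Finset.mem_univ, true_and] at hz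
  exact h z hz

private theorem nb_sum_coef {m : ℕ} (I : Finset ℕ) (c : ℕ → ℝ) (f : ℕ → Q m → ℝ) (x : Q m) :
    nb (cubeE m) (fun z => ∑ n ∈ I, c n * f n z) x = ∑ n ∈ I, c n * nb (cubeE m) (f n) x := by
  unfold nb
  rw [Finset.sum_comm]
  exact Finset.sum_congr rfl fun n _ => by rw [Finset.mul_sum]

private theorem pp_succ (m n : ℕ) (x y : Q m) :
    nb (cubeE m) (fun z => PP m n z y) x / m = PP m (n + 1) x y := by
  unfold PP
  rw [wk_succ]
  unfold nb
  rw [← Finset.sum_div, div_div, pow_succ]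

theorem loc_shift (m J : ℕ) (hm : 2 ≤ m) (x y : Q m) :
    nb (cubeE m) (fun z => Loc m J z y) x / m ≤ Loc m (J + 1) x y := by
  set a := (J + 1) * TN m with ha
  have h0 : nb (cubeE m) (fun z => Loc m J z y) x / m =
      ∑ n ∈ range a, ((n : ℝ) + 1) ^ J * PP m (n + 1) x y := by
    have h1 : (fun z => Loc m J z y) = fun z => ∑ n ∈ range a, ((n : ℝ) + 1) ^ J * PP m n z y := by
      funext z
      exact loc_eq m J z y
    rw [h1, nb_sum_coef, Finset.sum_div]
    refine Finset.sum_congr rfl fun n _ => ?_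
    rw [mul_div_assoc, pp_succ]
  rw [h0]
  have h2 : ∑ n ∈ range a, ((n : ℝ) + 1) ^ J * PP m (n + 1) x y ≤
      ∑ n ∈ range a, (((n + 1 : ℕ) : ℝ) + 1) ^ (J + 1) * PP m (n + 1) x y := by
    refine Finset.sum_le_sum fun n _ => mul_le_mul_of_nonneg_right ?_ (pp_nonneg _ _ _ _)
    push_cast
    have hn : (0 : ℝ) ≤ n := Nat.cast_nonneg n
    calc ((n : ℝ) + 1) ^ J ≤ ((n : ℝ) + 1 + 1) ^ J := by gcongr; linarith
      _ ≤ ((n : ℝ) + 1 + 1) ^ (J + 1) := pow_le_pow_right₀ (by linarith) (by omega)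
  have h3 : ∑ n ∈ range a, (((n + 1 : ℕ) : ℝ) + 1) ^ (J + 1) * PP m (n + 1) x y ≤
      ∑ n ∈ range (a + 1), ((n : ℝ) + 1) ^ (J + 1) * PP m n x y := by
    rw [Finset.sum_range_succ' (fun n : ℕ => ((n : ℝ) + 1) ^ (J + 1) * PP m n x y)]
    have := mul_nonneg (a := ((0 : ℕ) : ℝ) + 1) (b := 1) (by positivity) zero_le_one
    have h4 : 0 ≤ (((0 : ℕ) : ℝ) + 1) ^ (J + 1) * PP m 0 x y :=
      mul_nonneg (by positivity) (pp_nonneg _ _ _ _)
    linarith
  refine h2.trans (h3.trans ?_)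
  rw [loc_eq]
  have h5 : a + 1 ≤ (J + 1 + 1) * TN m := by
    have := one_le_TN m hm
    rw [ha, Nat.succ_mul (J + 1)]
    omega
  exact Finset.sum_le_sum_of_subset_of_nonneg (Finset.range_subset_range.2 h5)
    fun n _ _ => mul_nonneg (by positivity) (pp_nonneg _ _ _ _)

theorem loc_sum (m J : ℕ) (hm : 1 ≤ m) (x : Q m) :
    ∑ y, Loc m J x y ≤ (((J : ℝ) + 1) * TN m) ^ (J + 1) := by
  have h1 : ∑ y, Loc m J x y = ∑ n ∈ range ((J + 1) * TN m), ((n : ℝ) + 1) ^ J := by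
    simp_rw [loc_eq]
    rw [Finset.sum_comm]
    refine Finset.sum_congr rfl fun n _ => ?_
    rw [← Finset.mul_sum, pp_sum m n hm, mul_one]
  rw [h1]
  have h2 : ∀ n ∈ range ((J + 1) * TN m), ((n : ℝ) + 1) ^ J ≤ (((J : ℝ) + 1) * TN m) ^ J := by
    intro n hn
    rw [Finset.mem_range] at hn
    have h3 : ((n : ℝ) + 1) ≤ ((J : ℝ) + 1) * TN m := by exact_mod_cast hn
    gcongr
  refine (Finset.sum_le_sum h2).trans (le_of_eq ?_)
  rw [Finset.sum_const, Finset.card_range, nsmul_eq_mul, pow_succ]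
  push_cast
  ring

private theorem exp_ineq (u : ℝ) (h0 : 0 ≤ u) (h2 : u ≤ 2) :
    (1 + Real.exp (-u)) / 2 ≤ Real.exp (-(u / 5)) := by
  have h1 := Real.quadratic_le_exp_of_nonneg h0
  have h3 : Real.exp (-u) ≤ 1 - 2 * u / 5 := by
    rw [Real.exp_neg, inv_le_comm₀ (Real.exp_pos u) (by linarith)]
    refine le_trans ?_ h1
    rw [inv_le_iff_one_le_mul₀ (by linarith)]
    nlinarith [mul_nonneg h0 (mul_nonneg (sub_nonneg.2 h2) (by linarith : 0 ≤ 3 + 2 * u))]
  have h4 := Real.add_one_le_exp (-(u / 5))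
  linarith

private theorem pp_upper (m n : ℕ) (hm : 1 ≤ m) (x y : Q m) :
    PP m n x y ≤ 2 * (Real.exp (-(2 * n / 5)) + Real.exp (-(2 * m / 5))) := by
  have hm0 : (0 : ℝ) < m := by exact_mod_cast hm
  have h1 := four_upper m hm n x y
  have h2 : PP m n x y ≤ 2 * ((1 + Real.exp (-(2 * n / m))) / 2) ^ m := by
    unfold PP
    rw [div_le_iff₀ (by positivity)]
    linarith
  refine h2.trans ?_
  refine mul_le_mul_of_nonneg_left ?_ (by norm_num)
  have hpos : (0 : ℝ) ≤ (1 + Real.exp (-(2 * n / m))) / 2 := by positivity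
  rcases le_total (n : ℝ) m with h | h
  · have h3 : (2 : ℝ) * n / m ≤ 2 := by
      rw [div_le_iff₀ hm0]
      linarith
    have h4 := exp_ineq (2 * n / m) (by positivity) h3
    have h5 := pow_le_pow_left₀ hpos h4 m
    rw [← Real.exp_nat_mul] at h5
    have h6 : (m : ℝ) * -(2 * n / m / 5) = -(2 * n / 5) := by
      field_simp
    rw [h6] at h5
    linarith [Real.exp_pos (-(2 * (m : ℝ) / 5))]
  · have h3 : (2 : ℝ) ≤ 2 * n / m := by
      rw [le_div_iff₀ hm0]
      linarith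
    have h4 := exp_ineq 2 (by norm_num) le_rfl
    have h7 : Real.exp (-(2 * n / m)) ≤ Real.exp (-2) := Real.exp_le_exp.2 (by linarith)
    have h5 := pow_le_pow_left₀ hpos (show (1 + Real.exp (-(2 * n / m))) / 2 ≤
      Real.exp (-(2 / 5)) by linarith) m
    rw [← Real.exp_nat_mul] at h5
    have h6 : (m : ℝ) * -(2 / 5) = -(2 * m / 5) := by ring
    rw [h6] at h5
    linarith [Real.exp_pos (-(2 * (n : ℝ) / 5))]

private theorem pp_small (m n : ℕ) (hm : 1 ≤ m) (h2 : 2 ≤ n) (hn : n ≤ m) (x y : Q m)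
    (hxy : x ≠ y) : PP m n x y ≤ 9 / (m : ℝ) ^ 2 := by
  have hm0 : (0 : ℝ) < m := by exact_mod_cast hm
  have h1 := wk_off m hm n h2 x y hxy
  have h3 : (1 + 1 / (m : ℝ)) ^ n ≤ 3 := by
    have h4 : (1 + 1 / (m : ℝ)) ^ n ≤ Real.exp (1 / m) ^ n := by
      refine pow_le_pow_left₀ (by positivity) ?_ n
      have := Real.add_one_le_exp (1 / (m : ℝ))
      linarith
    rw [← Real.exp_nat_mul] at h4
    have h5 : (n : ℝ) * (1 / m) ≤ 1 := by
      rw [mul_one_div, div_le_one hm0]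
      exact_mod_cast hn
    have h6 := Real.exp_le_exp.2 h5
    have := Real.exp_one_lt_d9
    linarith
  unfold PP
  rw [div_le_iff₀ (by positivity)]
  refine h1.trans ?_
  have h7 : 3 * (1 + 1 / (m : ℝ)) ^ n * (m : ℝ) ^ n / (m : ℝ) ^ 2 =
      (3 * (1 + 1 / (m : ℝ)) ^ n) * ((m : ℝ) ^ n / (m : ℝ) ^ 2) := by ring
  rw [h7]
  have h8 : 9 / (m : ℝ) ^ 2 * (m : ℝ) ^ n = 9 * ((m : ℝ) ^ n / (m : ℝ) ^ 2) := by ring
  rw [h8]
  exact mul_le_mul_of_nonneg_right (by linarith) (by positivity)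

private theorem pp_one (m : ℕ) (hm : 1 ≤ m) (x y : Q m) : PP m 1 x y ≤ 1 / m := by
  have hm0 : (0 : ℝ) < m := by exact_mod_cast hm
  unfold PP
  rw [pow_one]
  exact div_le_div_of_nonneg_right (wk_one m x y) hm0.le

private theorem exp_series (J : ℕ) : ∃ S : ℝ, 0 < S ∧ ∀ N : ℕ,
    ∑ n ∈ range N, ((n : ℝ) + 1) ^ J * Real.exp (-((n : ℝ) / 5)) ≤ S := by
  have h1 := Real.summable_pow_mul_exp_neg_nat_mul J (r := 1 / 5) (by norm_num)
  have h2 := (summable_nat_add_iff 1).2 h1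
  have h3 : Summable fun n : ℕ => ((n : ℝ) + 1) ^ J * Real.exp (-((n : ℝ) / 5)) := by
    refine (h2.mul_left (Real.exp (1 / 5))).congr fun n => ?_
    push_cast
    rw [mul_left_comm, ← Real.exp_add]
    congr 2
    ring
  refine ⟨∑' n : ℕ, ((n : ℝ) + 1) ^ J * Real.exp (-((n : ℝ) / 5)) + 1, ?_, fun N => ?_⟩
  · have : 0 ≤ ∑' n : ℕ, ((n : ℝ) + 1) ^ J * Real.exp (-((n : ℝ) / 5)) :=
      tsum_nonneg fun n => by positivity
    linarith
  · have := h3.sum_le_tsum (range N) fun n _ => by positivity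
    linarith

private theorem log_small (J : ℕ) : ∃ m0 : ℕ, ∀ m ≥ m0,
    9 * (6 * Real.log m) ^ (J + 1) ≤ (m : ℝ) := by
  have h : Filter.Tendsto (fun x : ℝ => Real.log x ^ (J + 1) / x) Filter.atTop (nhds 0) := by
    have := (Real.isLittleO_pow_log_id_atTop (n := J + 1)).tendsto_div_nhds_zero
    simpa using this
  have h2 := (h.comp tendsto_natCast_atTop_atTop).const_mul (9 * 6 ^ (J + 1))
  simp only [mul_zero] at h2
  have h3 := h2.eventually (gt_mem_nhds (zero_lt_one))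
  obtain ⟨m0, hm0⟩ := Filter.eventually_atTop.1 h3
  refine ⟨max m0 1, fun m hm => ?_⟩
  have h4 := (hm0 m ((le_max_left _ _).trans hm)).le
  have hm1 : 1 ≤ m := (le_max_right _ _).trans hm
  have hm1' : (0 : ℝ) < m := by exact_mod_cast hm1
  simp only [Function.comp] at h4
  rw [mul_pow]
  rw [← mul_div_assoc, div_le_one hm1'] at h4
  linarith

private theorem exp_small (J : ℕ) : ∃ m0 : ℕ, ∀ m ≥ m0,
    2 * (((J : ℝ) + 1) * (4 * (m : ℝ) ^ 2)) ^ (J + 1) * m ≤ Real.exp (2 * m / 5) := by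
  obtain ⟨m1, h1⟩ := xn_poly (2 * (J + 1) + 1) (2 * (((J : ℝ) + 1) * 4) ^ (J + 1)) 1 one_pos
  obtain ⟨m2, h2⟩ := xn_exp 1 (Real.exp (2 / 5)) (by
    rw [Real.one_lt_exp_iff]; norm_num)
  refine ⟨max m1 m2, fun m hm => ?_⟩
  have h3 := (h1 m ((le_max_left _ _).trans hm)).trans (h2 m ((le_max_right _ _).trans hm))
  rw [← Real.exp_nat_mul] at h3
  have e1 : (m : ℝ) * (2 / 5) = 2 * m / 5 := by ring
  rw [e1] at h3
  refine le_trans (le_of_eq ?_) h3
  rw [show ((J : ℝ) + 1) * (4 * (m : ℝ) ^ 2) = (((J : ℝ) + 1) * 4) * (m : ℝ) ^ 2 by ring,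
    mul_pow, ← pow_mul, pow_succ (m : ℝ) (2 * (J + 1))]
  ring

theorem loc_off (J : ℕ) : ∃ (C : ℝ) (m0 : ℕ), 0 < C ∧ ∀ m ≥ m0, ∀ x y : Q m, x ≠ y →
    Loc m J x y ≤ C / m := by
  obtain ⟨S, hS, hsum⟩ := exp_series J
  obtain ⟨m1, hlog⟩ := log_small J
  obtain ⟨m2, hexp⟩ := exp_small J
  refine ⟨2 ^ J + 1 + 2 * S + 1, max (max m1 m2) 3, by positivity, fun m hm x y hxy => ?_⟩
  have hm1 : m1 ≤ m := ((le_max_left _ _).trans (le_max_left _ _)).trans hm
  have hm2 : m2 ≤ m := ((le_max_right _ _).trans (le_max_left _ _)).trans hm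
  have hm3 : 3 ≤ m := (le_max_right _ _).trans hm
  have hmR : (0 : ℝ) < m := by exact_mod_cast (by omega : 0 < m)
  have hL1 := xn_log m hm3
  have hlog' := hlog m hm1
  have hexp' := hexp m hm2
  set n1 := ⌈5 * Real.log m⌉₊ with hn1
  have hn1a : 5 * Real.log m ≤ n1 := Nat.le_ceil _
  have hn1b : (n1 : ℝ) ≤ 6 * Real.log m := by
    have := (Nat.ceil_lt_add_one (show 0 ≤ 5 * Real.log m by positivity)).le
    linarith
  have hn1c : 9 * (n1 : ℝ) ^ (J + 1) ≤ m := by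
    refine le_trans ?_ hlog'
    gcongr
  have hn1d : (1 : ℝ) ≤ n1 := by linarith
  have hn1m : n1 ≤ m := by
    have h1 : (n1 : ℝ) ≤ (n1 : ℝ) ^ (J + 1) := by
      calc (n1 : ℝ) = (n1 : ℝ) ^ 1 := (pow_one _).symm
        _ ≤ (n1 : ℝ) ^ (J + 1) := pow_le_pow_right₀ hn1d (by omega)
    have h2 : (n1 : ℝ) ≤ m := by linarith [pow_nonneg (Nat.cast_nonneg (α := ℝ) n1) (J + 1)]
    exact_mod_cast h2
  have hen : Real.exp (-((n1 : ℝ) / 5)) ≤ 1 / m := by
    have h1 : Real.exp (-((n1 : ℝ) / 5)) ≤ Real.exp (-Real.log m) :=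
      Real.exp_le_exp.2 (by linarith)
    rwa [Real.exp_neg (Real.log m), Real.exp_log hmR, ← one_div] at h1
  set a := (J + 1) * TN m with ha
  have haR : (a : ℝ) ≤ ((J : ℝ) + 1) * (4 * (m : ℝ) ^ 2) := by
    have h1 := (xn_TT m (by omega)).2.2
    have h2 : (a : ℝ) = ((J : ℝ) + 1) * (4 * TT m) := by
      rw [ha]
      unfold TN
      push_cast
      ring
    rw [h2]
    gcongr
  -- termwise bound
  have hterm : ∀ n ∈ range a, ((n : ℝ) + 1) ^ J * PP m n x y ≤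
      (if n = 1 then 2 ^ J / (m : ℝ) else 0) +
      (if n < n1 then ((n : ℝ) + 1) ^ J * (9 / (m : ℝ) ^ 2) else 0) +
      (2 / m) * (((n : ℝ) + 1) ^ J * Real.exp (-((n : ℝ) / 5))) +
      ((n : ℝ) + 1) ^ J * (2 * Real.exp (-(2 * (m : ℝ) / 5))) := by
    intro n _
    have hn0 : (0 : ℝ) ≤ n := Nat.cast_nonneg n
    have t1 : (0 : ℝ) ≤ if n = 1 then 2 ^ J / (m : ℝ) else 0 := by split_ifs <;> positivity
    have t2 : (0 : ℝ) ≤ if n < n1 then ((n : ℝ) + 1) ^ J * (9 / (m : ℝ) ^ 2) else 0 := by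
      split_ifs <;> positivity
    have t3 : (0 : ℝ) ≤ (2 / m) * (((n : ℝ) + 1) ^ J * Real.exp (-((n : ℝ) / 5))) := by positivity
    have t4 : (0 : ℝ) ≤ ((n : ℝ) + 1) ^ J * (2 * Real.exp (-(2 * (m : ℝ) / 5))) := by positivity
    by_cases h0 : n = 0
    · have h1 : PP m n x y = 0 := by rw [h0, pp_zero, if_neg hxy]
      rw [h1, mul_zero]
      linarith
    by_cases h1 : n = 1
    · have h2 : ((n : ℝ) + 1) ^ J * PP m n x y ≤ 2 ^ J / (m : ℝ) := by
        rw [h1]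
        have := pp_one m (by omega) x y
        calc (((1 : ℕ) : ℝ) + 1) ^ J * PP m 1 x y ≤ (((1 : ℕ) : ℝ) + 1) ^ J * (1 / m) := by gcongr
          _ = 2 ^ J / (m : ℝ) := by norm_num; ring
      rw [if_pos h1]
      linarith
    by_cases h2 : n < n1
    · have h3 : ((n : ℝ) + 1) ^ J * PP m n x y ≤ ((n : ℝ) + 1) ^ J * (9 / (m : ℝ) ^ 2) :=
        mul_le_mul_of_nonneg_left (pp_small m n (by omega) (by omega) (by omega) x y hxy)
          (by positivity)
      rw [if_pos h2]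
      linarith
    · have h3 := pp_upper m n (by omega) x y
      have h4 : Real.exp (-(2 * (n : ℝ) / 5)) ≤ 1 / m * Real.exp (-((n : ℝ) / 5)) := by
        have h5 : Real.exp (-(2 * (n : ℝ) / 5)) =
            Real.exp (-((n : ℝ) / 5)) * Real.exp (-((n : ℝ) / 5)) := by
          rw [← Real.exp_add]
          congr 1
          ring
        rw [h5]
        refine mul_le_mul_of_nonneg_right (le_trans (Real.exp_le_exp.2 ?_) hen)
          (Real.exp_pos _).le
        have : (n1 : ℝ) ≤ n := by exact_mod_cast not_lt.1 h2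
        linarith
      have h6 : ((n : ℝ) + 1) ^ J * PP m n x y ≤ ((n : ℝ) + 1) ^ J *
          (2 * (1 / m * Real.exp (-((n : ℝ) / 5)) + Real.exp (-(2 * (m : ℝ) / 5)))) :=
        mul_le_mul_of_nonneg_left (by linarith) (by positivity)
      have h7 : ((n : ℝ) + 1) ^ J *
          (2 * (1 / m * Real.exp (-((n : ℝ) / 5)) + Real.exp (-(2 * (m : ℝ) / 5)))) =
          (2 / m) * (((n : ℝ) + 1) ^ J * Real.exp (-((n : ℝ) / 5))) +
          ((n : ℝ) + 1) ^ J * (2 * Real.exp (-(2 * (m : ℝ) / 5))) := by ring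
      linarith
  rw [loc_eq, ← ha]
  refine (Finset.sum_le_sum hterm).trans ?_
  rw [Finset.sum_add_distrib, Finset.sum_add_distrib, Finset.sum_add_distrib]
  have s1 : ∑ n ∈ range a, (if n = 1 then 2 ^ J / (m : ℝ) else 0) ≤ 2 ^ J / m := by
    rw [Finset.sum_ite_eq']
    split_ifs
    · exact le_rfl
    · positivity
  have s2 : ∑ n ∈ range a, (if n < n1 then ((n : ℝ) + 1) ^ J * (9 / (m : ℝ) ^ 2) else (0 : ℝ)) ≤
      1 / (m : ℝ) := by
    rw [← Finset.sum_filter]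
    have h1 : ∀ n ∈ (range a).filter (fun n => n < n1), ((n : ℝ) + 1) ^ J * (9 / (m : ℝ) ^ 2) ≤
        (n1 : ℝ) ^ J * (9 / (m : ℝ) ^ 2) := by
      intro n hn
      rw [Finset.mem_filter] at hn
      have h2 : (n : ℝ) + 1 ≤ n1 := by exact_mod_cast hn.2
      gcongr
    refine (Finset.sum_le_sum h1).trans ?_
    rw [Finset.sum_const, nsmul_eq_mul]
    have h3 : (((range a).filter (fun n => n < n1)).card : ℝ) ≤ n1 := by
      have : ((range a).filter (fun n => n < n1)) ⊆ range n1 := by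
        intro n hn
        rw [Finset.mem_filter] at hn
        exact Finset.mem_range.2 hn.2
      have h4 := Finset.card_le_card this
      rw [Finset.card_range] at h4
      exact_mod_cast h4
    have h5 : (((range a).filter (fun n => n < n1)).card : ℝ) * ((n1 : ℝ) ^ J * (9 / (m : ℝ) ^ 2)) ≤
        n1 * ((n1 : ℝ) ^ J * (9 / (m : ℝ) ^ 2)) := mul_le_mul_of_nonneg_right h3 (by positivity)
    refine h5.trans ?_
    have h6 : (n1 : ℝ) * ((n1 : ℝ) ^ J * (9 / (m : ℝ) ^ 2)) = 9 * (n1 : ℝ) ^ (J + 1) / (m : ℝ) ^ 2 := by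
      rw [pow_succ]
      ring
    rw [h6, div_le_div_iff₀ (by positivity) hmR]
    nlinarith
  have s3 : ∑ n ∈ range a, (2 / m) * (((n : ℝ) + 1) ^ J * Real.exp (-((n : ℝ) / 5))) ≤
      2 * S / m := by
    rw [← Finset.mul_sum]
    have := mul_le_mul_of_nonneg_left (hsum a) (show (0 : ℝ) ≤ 2 / m by positivity)
    refine this.trans (le_of_eq (by ring))
  have s4 : ∑ n ∈ range a, ((n : ℝ) + 1) ^ J * (2 * Real.exp (-(2 * (m : ℝ) / 5))) ≤
      1 / (m : ℝ) := by
    have h1 : ∀ n ∈ range a, ((n : ℝ) + 1) ^ J * (2 * Real.exp (-(2 * (m : ℝ) / 5))) ≤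
        (a : ℝ) ^ J * (2 * Real.exp (-(2 * (m : ℝ) / 5))) := by
      intro n hn
      rw [Finset.mem_range] at hn
      have h2 : (n : ℝ) + 1 ≤ a := by exact_mod_cast hn
      gcongr
    refine (Finset.sum_le_sum h1).trans ?_
    rw [Finset.sum_const, Finset.card_range, nsmul_eq_mul]
    have h3 : (a : ℝ) * ((a : ℝ) ^ J * (2 * Real.exp (-(2 * (m : ℝ) / 5)))) =
        2 * (a : ℝ) ^ (J + 1) * Real.exp (-(2 * (m : ℝ) / 5)) := by
      rw [pow_succ]
      ring
    rw [h3, le_div_iff₀ hmR]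
    have h4 : 2 * (a : ℝ) ^ (J + 1) * m ≤ Real.exp (2 * m / 5) := by
      refine le_trans ?_ hexp'
      gcongr
    have h5 : Real.exp (-(2 * (m : ℝ) / 5)) * Real.exp (2 * m / 5) = 1 := by
      rw [← Real.exp_add]
      simp
    have h6 := mul_le_mul_of_nonneg_left h4 (Real.exp_pos (-(2 * (m : ℝ) / 5))).le
    rw [h5] at h6
    linarith
  have e : (2 ^ J + 1 + 2 * S + 1) / (m : ℝ) = 2 ^ J / m + 1 / m + 2 * S / m + 1 / m := by ring
  rw [e]
  linarith

private theorem not_loop (m : ℕ) (x : Q m) : s(x, x) ∉ cubeE m := by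
  unfold cubeE
  rw [SimpleGraph.mem_edgeFinset, SimpleGraph.mem_edgeSet]
  exact (cube m).irrefl

theorem loc_diag1 (J : ℕ) : ∃ (C : ℝ) (m0 : ℕ), 0 < C ∧ ∀ m ≥ m0, ∀ x : Q m,
    Loc m J x x ≤ 1 + C / m := by
  obtain ⟨C, m0, hC, h⟩ := loc_off J
  refine ⟨2 ^ J * C, max m0 2, by positivity, fun m hm x => ?_⟩
  have hm0 : m0 ≤ m := (le_max_left _ _).trans hm
  have hm2 : 2 ≤ m := (le_max_right _ _).trans hm
  have hmR : (0 : ℝ) < m := by exact_mod_cast (by omega : 0 < m)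
  set a := (J + 1) * TN m with ha
  have ha1 : 1 ≤ a := by
    have := one_le_TN m hm2
    exact Nat.one_le_iff_ne_zero.2 (by positivity)
  obtain ⟨b, hb⟩ : ∃ b, a = b + 1 := ⟨a - 1, by omega⟩
  rw [loc_eq, ← ha, hb, Finset.sum_range_succ' (fun n : ℕ => ((n : ℝ) + 1) ^ J * PP m n x x)]
  have e0 : (((0 : ℕ) : ℝ) + 1) ^ J * PP m 0 x x = 1 := by simp [pp_zero]
  rw [e0]
  have h1 : ∑ n ∈ range b, (((n + 1 : ℕ) : ℝ) + 1) ^ J * PP m (n + 1) x x =
      nb (cubeE m) (fun z => ∑ n ∈ range b, (((n + 1 : ℕ) : ℝ) + 1) ^ J * PP m n z x) x / m := by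
    rw [nb_sum_coef, Finset.sum_div]
    refine Finset.sum_congr rfl fun n _ => ?_
    rw [mul_div_assoc, pp_succ]
  have h2 : nb (cubeE m) (fun z => ∑ n ∈ range b, (((n + 1 : ℕ) : ℝ) + 1) ^ J * PP m n z x) x ≤
      nb (cubeE m) (fun _ => 1) x * (2 ^ J * (C / m)) := by
    refine nb_le_const _ _ _ _ fun z hz => ?_
    have hzx : z ≠ x := by
      rintro rfl
      exact not_loop m z hz
    have h3 : ∑ n ∈ range b, (((n + 1 : ℕ) : ℝ) + 1) ^ J * PP m n z x ≤
        ∑ n ∈ range b, 2 ^ J * (((n : ℝ) + 1) ^ J * PP m n z x) := by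
      refine Finset.sum_le_sum fun n _ => ?_
      rw [← mul_assoc, ← mul_pow]
      refine mul_le_mul_of_nonneg_right ?_ (pp_nonneg _ _ _ _)
      have hn : (0 : ℝ) ≤ n := Nat.cast_nonneg n
      push_cast
      gcongr
      linarith
    have h4 : ∑ n ∈ range b, ((n : ℝ) + 1) ^ J * PP m n z x ≤ Loc m J z x := by
      rw [loc_eq]
      refine Finset.sum_le_sum_of_subset_of_nonneg (Finset.range_subset_range.2 (by omega))
        fun n _ _ => mul_nonneg (by positivity) (pp_nonneg _ _ _ _)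
    rw [← Finset.mul_sum] at h3
    refine h3.trans ?_
    gcongr
    exact h4.trans (h m hm0 z x hzx)
  rw [nb_cube_one] at h2
  have h5 : nb (cubeE m) (fun z => ∑ n ∈ range b, (((n + 1 : ℕ) : ℝ) + 1) ^ J * PP m n z x) x / m ≤
      2 ^ J * (C / m) := by
    rw [div_le_iff₀ hmR]
    linarith
  rw [h1]
  have h6 : 2 ^ J * C / m = 2 ^ J * (C / m) := by ring
  rw [h6]
  linarith

end Pool.Agent.Work.MP_b7dc8a_pr
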