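import Pool.Agent.Work.MP_b7dc8a_pr.F.Nbw

/-! Module NBFOUR (M): Fourier bound for non backtracking walks on the cube. `TN m = 4 TT m`,
`TT m = ⌈m log m⌉`.

`2^m na n x y = ∑_A a_n(m - 2|A|) chr A x chr A y` where for a real `μ`
`a_0 = 1, a_1 = μ, a_2 = μ^2 - m, a_{n+1} = μ a_n - (m-1) a_{n-1}` (`n >= 2`); roots of
`X^2 - μ X + (m-1)` have modulus at most `(m-1) exp (-k/m)`, `k = min |A| (m-|A|)`. -/

namespace Pool.Agent.Work.MP_b7dc8a_pr

open Finset

private def nfl {m : ℕ} (i : Fin m) (x : Q m) : Q m := Function.update x i (!x i)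

private theorem nfl_same {m : ℕ} (i : Fin m) (x : Q m) : nfl i x i = !x i := by
  simp [nfl]

private theorem nfl_ne {m : ℕ} (i j : Fin m) (x : Q m) (h : j ≠ i) : nfl i x j = x j := by
  simp [nfl, h]

private theorem nfl_inj {m : ℕ} (i j : Fin m) (x : Q m) (h : nfl i x = nfl j x) : i = j := by
  by_contra hne
  have h1 := congrFun h i
  rw [nfl_same, nfl_ne j i x hne] at h1
  cases hx : x i <;> simp [hx] at h1

private theorem nmem_cube {m : ℕ} (x z : Q m) : s(x, z) ∈ cubeE m ↔ ∃ i, z = nfl i x := by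
  have h0 : s(x, z) ∈ cubeE m ↔ hammingDist x z = 1 := by
    unfold cubeE
    rw [SimpleGraph.mem_edgeFinset, SimpleGraph.mem_edgeSet]
    rfl
  rw [h0]
  constructor
  · intro h
    unfold hammingDist at h
    rw [Finset.card_eq_one] at h
    obtain ⟨i, hi⟩ := h
    refine ⟨i, ?_⟩
    funext j
    by_cases hj : j = i
    · subst hj
      have h1 : j ∈ univ.filter (fun i => x i ≠ z i) := by
        rw [hi]; exact Finset.mem_singleton_self _
      rw [Finset.mem_filter] at h1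
      rw [nfl_same]
      have h2 := h1.2
      cases hx : x j <;> cases hz : z j <;> simp_all
    · have h1 : j ∉ univ.filter (fun i => x i ≠ z i) := by
        rw [hi, Finset.mem_singleton]; exact hj
      rw [Finset.mem_filter] at h1
      rw [nfl_ne i j x hj]
      by_contra h2
      exact h1 ⟨Finset.mem_univ _, fun h3 => h2 h3.symm⟩
  · rintro ⟨i, rfl⟩
    unfold hammingDist
    have : (univ.filter fun j => x j ≠ nfl i x j) = {i} := by
      ext j
      simp only [Finset.mem_filter, Finset.mem_univ, true_and, Finset.mem_singleton]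
      constructor
      · intro h
        by_contra hne
        exact h (nfl_ne i j x hne).symm
      · intro h
        subst h
        rw [nfl_same]
        cases x j <;> simp
    rw [this, Finset.card_singleton]

private theorem nnb_cube {m : ℕ} (f : Q m → ℝ) (x : Q m) :
    nb (cubeE m) f x = ∑ i : Fin m, f (nfl i x) := by
  classical
  unfold nb
  refine (Finset.sum_congr (s₂ := univ.image (fun i => nfl i x)) ?_ fun _ _ => rfl).trans
    (Finset.sum_image ?_)
  · ext z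
    simp only [Finset.mem_filter, Finset.mem_univ, true_and, Finset.mem_image]
    rw [nmem_cube]
    constructor
    · rintro ⟨i, hi⟩
      exact ⟨i, hi.symm⟩
    · rintro ⟨i, hi⟩
      exact ⟨i, hi.symm⟩
  · exact fun i _ j _ hij => nfl_inj i j x hij

private theorem chr_abs {m : ℕ} (A : Finset (Fin m)) (x : Q m) : |chr A x| = 1 := by
  unfold chr
  rw [Finset.abs_prod]
  exact Finset.prod_eq_one fun i _ => by cases x i <;> simp

private theorem chr_fl {m : ℕ} (A : Finset (Fin m)) (i : Fin m) (x : Q m) :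
    chr A (nfl i x) = (if i ∈ A then -1 else 1) * chr A x := by
  unfold chr
  by_cases hi : i ∈ A
  · rw [if_pos hi, ← Finset.mul_prod_erase A _ hi, ← Finset.mul_prod_erase A _ hi, nfl_same]
    have : ∏ j ∈ A.erase i, (if nfl i x j then (-1 : ℝ) else 1) =
        ∏ j ∈ A.erase i, (if x j then (-1 : ℝ) else 1) :=
      Finset.prod_congr rfl fun j hj => by rw [nfl_ne i j x (Finset.ne_of_mem_erase hj)]
    rw [this]
    cases x i <;> simp
  · rw [if_neg hi, one_mul]
    exact Finset.prod_congr rfl fun j hj => by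
      rw [nfl_ne i j x (fun h => hi (h ▸ hj))]

private theorem nb_chr {m : ℕ} (A : Finset (Fin m)) (x : Q m) :
    nb (cubeE m) (chr A) x = ((m : ℝ) - 2 * A.card) * chr A x := by
  rw [nnb_cube]
  simp_rw [chr_fl]
  rw [← Finset.sum_mul]
  congr 1
  have h1 : ∀ i : Fin m, (if i ∈ A then (-1 : ℝ) else 1) = 1 - 2 * (if i ∈ A then 1 else 0) := by
    intro i
    split_ifs <;> norm_num
  simp_rw [h1]
  rw [Finset.sum_sub_distrib, ← Finset.mul_sum, Finset.sum_ite_mem]
  simp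

private theorem chr_delta {m : ℕ} (x y : Q m) :
    ∑ A : Finset (Fin m), chr A x * chr A y = if x = y then (2 : ℝ) ^ m else 0 := by
  have h1 : ∀ A : Finset (Fin m), chr A x * chr A y =
      ∏ i ∈ A, ((if x i then (-1 : ℝ) else 1) * (if y i then (-1 : ℝ) else 1)) := by
    intro A
    unfold chr
    rw [Finset.prod_mul_distrib]
  simp_rw [h1]
  have h2 := Finset.prod_one_add (f := fun i : Fin m =>
    (if x i then (-1 : ℝ) else 1) * (if y i then (-1 : ℝ) else 1)) (univ : Finset (Fin m))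
  rw [Finset.powerset_univ] at h2
  rw [← h2]
  by_cases hxy : x = y
  · subst hxy
    rw [if_pos rfl]
    have h3 : ∀ i : Fin m, 1 + (if x i then (-1 : ℝ) else 1) * (if x i then (-1 : ℝ) else 1) = 2 := by
      intro i
      cases x i <;> norm_num
    simp_rw [h3]
    simp
  · rw [if_neg hxy]
    have h3 : ∃ i, x i ≠ y i := by
      by_contra hcon
      push Not at hcon
      exact hxy (funext hcon)
    obtain ⟨i, hi⟩ := h3
    refine Finset.prod_eq_zero (Finset.mem_univ i) ?_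
    revert hi
    cases x i <;> cases y i <;> norm_num

/-- the sequence `a_n` -/
private noncomputable def aa (m μ : ℝ) : ℕ → ℝ
  | 0 => 1
  | 1 => μ
  | 2 => μ ^ 2 - m
  | (n + 3) => μ * aa m μ (n + 2) - (m - 1) * aa m μ (n + 1)

private theorem nb_four_sum {m : ℕ} (c : Finset (Fin m) → ℝ) (x y : Q m) :
    nb (cubeE m) (fun z => ∑ A : Finset (Fin m), c A * (chr A z * chr A y)) x =
      ∑ A : Finset (Fin m), (((m : ℝ) - 2 * A.card) * c A) * (chr A x * chr A y) := by
  rw [nnb_cube, Finset.sum_comm]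
  refine Finset.sum_congr rfl fun A _ => ?_
  have h3 := nb_chr A x
  rw [nnb_cube] at h3
  rw [← Finset.mul_sum, ← Finset.sum_mul, h3]
  ring

private theorem nb_smul {m : ℕ} (c : ℝ) (f : Q m → ℝ) (x : Q m) :
    c * nb (cubeE m) f x = nb (cubeE m) (fun z => c * f z) x := by
  rw [nnb_cube, nnb_cube, Finset.mul_sum]

/-- the Fourier formula for non backtracking walks -/
private theorem na_fourier (m n : ℕ) (y : Q m) : ∀ x : Q m,
    2 ^ m * na (cubeE m) n x y =
      ∑ A : Finset (Fin m), aa m ((m : ℝ) - 2 * A.card) n * (chr A x * chr A y) := by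
  classical
  have h0 : ∀ x : Q m, 2 ^ m * na (cubeE m) 0 x y =
      ∑ A : Finset (Fin m), aa m ((m : ℝ) - 2 * A.card) 0 * (chr A x * chr A y) := by
    intro x
    simp only [aa, one_mul]
    rw [chr_delta, na_zero]
    split_ifs <;> simp
  have h1 : ∀ x : Q m, 2 ^ m * na (cubeE m) 1 x y =
      ∑ A : Finset (Fin m), aa m ((m : ℝ) - 2 * A.card) 1 * (chr A x * chr A y) := by
    intro x
    rw [na_one, nb_smul]
    have e : (fun z : Q m => (2 : ℝ) ^ m * if z = y then 1 else 0) =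
        fun z => ∑ A : Finset (Fin m), (1 : ℝ) * (chr A z * chr A y) := by
      funext z
      simp only [one_mul]
      rw [chr_delta]
      split_ifs <;> simp
    rw [e, nb_four_sum]
    simp only [aa, mul_one]
  induction n using Nat.strong_induction_on with
  | _ n ih =>
    intro x
    match n, ih with
    | 0, _ => exact h0 x
    | 1, _ => exact h1 x
    | 2, ih =>
      rw [na_two, mul_sub, nb_smul]
      have e : (fun z : Q m => (2 : ℝ) ^ m * na (cubeE m) 1 z y) = fun z =>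
          ∑ A : Finset (Fin m), aa m ((m : ℝ) - 2 * A.card) 1 * (chr A z * chr A y) := funext h1
      rw [e, nb_four_sum, nb_cube_one]
      have e2 : (2 : ℝ) ^ m * (if x = y then (m : ℝ) else 0) =
          ∑ A : Finset (Fin m), (m : ℝ) * (chr A x * chr A y) := by
        rw [← Finset.mul_sum, chr_delta]
        split_ifs <;> ring
      rw [e2, ← Finset.sum_sub_distrib]
      refine Finset.sum_congr rfl fun A _ => ?_
      simp only [aa]
      ring
    | (t + 3), ih =>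
      rw [na_rec, mul_sub, nb_smul]
      have e : (fun z : Q m => (2 : ℝ) ^ m * na (cubeE m) (t + 2) z y) = fun z =>
          ∑ A : Finset (Fin m), aa m ((m : ℝ) - 2 * A.card) (t + 2) * (chr A z * chr A y) :=
        funext (ih (t + 2) (by omega))
      rw [e, nb_four_sum, nb_cube_one]
      have e2 : (2 : ℝ) ^ m * (((m : ℝ) - 1) * na (cubeE m) (t + 1) x y) =
          ∑ A : Finset (Fin m), (((m : ℝ) - 1) * aa m ((m : ℝ) - 2 * A.card) (t + 1)) *
            (chr A x * chr A y) := by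
        rw [mul_left_comm, ih (t + 1) (by omega), Finset.mul_sum]
        exact Finset.sum_congr rfl fun A _ => by ring
      rw [e2, ← Finset.sum_sub_distrib]
      refine Finset.sum_congr rfl fun A _ => ?_
      simp only [aa]
      ring

private theorem aa_extreme (m ε : ℝ) (hε : ε ^ 2 = 1) (n : ℕ) :
    aa m (ε * m) (n + 1) = ε ^ (n + 1) * (m * (m - 1) ^ n) := by
  induction n using Nat.strong_induction_on with
  | _ n ih =>
    match n, ih with
    | 0, _ => simp [aa]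
    | 1, _ =>
      simp only [aa]
      rw [mul_pow, hε]
      ring
    | (t + 2), ih =>
      have h1 := ih (t + 1) (by omega)
      have h2 := ih t (by omega)
      show aa m (ε * m) (t + 3) = _
      simp only [aa]
      rw [show t + 2 = t + 1 + 1 from rfl, h1, h2]
      have e1 : ε ^ (t + 1 + 1) = ε ^ (t + 1) * ε := pow_succ _ _
      have e2 : ε ^ (t + 2 + 1) = ε ^ (t + 1) := by
        rw [show t + 2 + 1 = (t + 1) + 2 from rfl, pow_add, hε, mul_one]
      rw [e2, e1]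
      have e3 : ε * m * (ε ^ (t + 1) * ε * (m * (m - 1) ^ (t + 1))) =
          ε ^ 2 * (m * (ε ^ (t + 1) * (m * (m - 1) ^ (t + 1)))) := by ring
      rw [e3, hε]
      ring

/-- the sequence `u_n` -/
private noncomputable def uu (q μ : ℝ) : ℕ → ℝ
  | 0 => 1
  | 1 => μ
  | (n + 2) => μ * uu q μ (n + 1) - q * uu q μ n

private noncomputable def SS (r s : ℂ) : ℕ → ℂ
  | 0 => 1
  | (n + 1) => r ^ (n + 1) + s * SS r s n

private theorem SS_rec (r s : ℂ) (n : ℕ) :
    SS r s (n + 2) = (r + s) * SS r s (n + 1) - r * s * SS r s n := by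
  have h1 : SS r s (n + 2) = r ^ (n + 2) + s * SS r s (n + 1) := rfl
  have h2 : SS r s (n + 1) = r ^ (n + 1) + s * SS r s n := rfl
  rw [h1, h2]
  ring

private theorem uu_eq (q μ : ℝ) (r s : ℂ) (h1 : r + s = μ) (h2 : r * s = q) (n : ℕ) :
    (uu q μ n : ℂ) = SS r s n := by
  induction n using Nat.strong_induction_on with
  | _ n ih =>
    match n, ih with
    | 0, _ => simp [uu, SS]
    | 1, _ => simp [uu, SS, h1]
    | (t + 2), ih =>
      rw [SS_rec, h1, h2, ← ih (t + 1) (by omega), ← ih t (by omega)]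
      simp [uu]

private theorem SS_bound (r s : ℂ) (ρ : ℝ) (hρ : 0 ≤ ρ) (hr : ‖r‖ ≤ ρ) (hs : ‖s‖ ≤ ρ) (n : ℕ) :
    ‖SS r s n‖ ≤ ((n : ℝ) + 1) * ρ ^ n := by
  induction n with
  | zero => simp [SS]
  | succ n ih =>
    have h1 : SS r s (n + 1) = r ^ (n + 1) + s * SS r s n := rfl
    rw [h1]
    refine (norm_add_le _ _).trans ?_
    rw [norm_pow, norm_mul]
    have h2 : ‖r‖ ^ (n + 1) ≤ ρ ^ (n + 1) := pow_le_pow_left₀ (norm_nonneg _) hr _
    have h3 : ‖s‖ * ‖SS r s n‖ ≤ ρ * (((n : ℝ) + 1) * ρ ^ n) :=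
      mul_le_mul hs ih (norm_nonneg _) hρ
    push_cast
    have h4 : ρ * (((n : ℝ) + 1) * ρ ^ n) = ((n : ℝ) + 1) * ρ ^ (n + 1) := by ring
    have h5 : ((n : ℝ) + 1 + 1) * ρ ^ (n + 1) = ρ ^ (n + 1) + ((n : ℝ) + 1) * ρ ^ (n + 1) := by ring
    rw [h5]
    linarith

private theorem uu_bound (q μ : ℝ) (r s : ℂ) (h1 : r + s = μ) (h2 : r * s = q) (ρ : ℝ)
    (hρ : 0 ≤ ρ) (hr : ‖r‖ ≤ ρ) (hs : ‖s‖ ≤ ρ) (n : ℕ) :
    |uu q μ n| ≤ ((n : ℝ) + 1) * ρ ^ n := by
  have h3 := SS_bound r s ρ hρ hr hs n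
  rw [← uu_eq q μ r s h1 h2 n] at h3
  simpa using h3

private theorem aa_eq (m μ : ℝ) (n : ℕ) :
    aa m μ (n + 2) = uu (m - 1) μ (n + 2) - uu (m - 1) μ n := by
  induction n using Nat.strong_induction_on with
  | _ n ih =>
    match n, ih with
    | 0, _ =>
      simp only [aa, uu]
      ring
    | 1, _ =>
      simp only [aa, uu]
      ring
    | (t + 2), ih =>
      have h1 := ih (t + 1) (by omega)
      have h2 := ih t (by omega)
      have e1 : aa m μ (t + 2 + 2) = μ * aa m μ (t + 1 + 2) - (m - 1) * aa m μ (t + 2) := rfl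
      have e2 : uu (m - 1) μ (t + 2 + 2) = μ * uu (m - 1) μ (t + 1 + 2) -
          (m - 1) * uu (m - 1) μ (t + 2) := rfl
      have e3 : uu (m - 1) μ (t + 2) = μ * uu (m - 1) μ (t + 1) -
          (m - 1) * uu (m - 1) μ t := rfl
      rw [e1, h1, h2, e2, e3]
      ring

private theorem aa_bound' (m μ : ℝ) (r s : ℂ) (h1 : r + s = μ) (h2 : r * s = ((m - 1 : ℝ) : ℂ))
    (ρ : ℝ) (hρ : 1 ≤ ρ) (hr : ‖r‖ ≤ ρ) (hs : ‖s‖ ≤ ρ) (n : ℕ) :
    |aa m μ n| ≤ 2 * ((n : ℝ) + 1) * ρ ^ n := by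
  have hb := uu_bound (m - 1) μ r s h1 h2 ρ (by linarith) hr hs
  match n with
  | 0 => simp [aa]
  | 1 =>
    have h3 := hb 1
    have e : uu (m - 1) μ 1 = aa m μ 1 := rfl
    rw [e] at h3
    have h4 : 0 ≤ (((1 : ℕ) : ℝ) + 1) * ρ ^ 1 := by positivity
    linarith
  | (t + 2) =>
    rw [aa_eq]
    refine (abs_sub _ _).trans ?_
    have h3 := hb (t + 2)
    have h4 := hb t
    have h5 : ρ ^ t ≤ ρ ^ (t + 2) := pow_le_pow_right₀ hρ (by omega)
    have h6 : ((t : ℝ) + 1) * ρ ^ t ≤ (((t + 2 : ℕ) : ℝ) + 1) * ρ ^ (t + 2) := by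
      have h7 : ((t : ℝ) + 1) ≤ ((t + 2 : ℕ) : ℝ) + 1 := by
        push_cast
        linarith
      exact mul_le_mul h7 h5 (by positivity) (by positivity)
    linarith

/-- the roots -/
private theorem roots_exist (m : ℕ) (hm : 5 ≤ m) (k : ℕ) (hk1 : 1 ≤ k) (hk2 : 2 * k ≤ m) (μ : ℝ)
    (hμ : |μ| = (m : ℝ) - 2 * k) :
    ∃ r s : ℂ, r + s = μ ∧ r * s = (((m : ℝ) - 1 : ℝ) : ℂ) ∧
      ‖r‖ ≤ ((m : ℝ) - 1) * Real.exp (-((k : ℝ) / m)) ∧
      ‖s‖ ≤ ((m : ℝ) - 1) * Real.exp (-((k : ℝ) / m)) := by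
  have hm5 : (5 : ℝ) ≤ m := by exact_mod_cast hm
  have hk1' : (1 : ℝ) ≤ k := by exact_mod_cast hk1
  have hk2' : 2 * (k : ℝ) ≤ m := by exact_mod_cast hk2
  have hm0 : (0 : ℝ) < m := by linarith
  have hexp : 1 - (k : ℝ) / m ≤ Real.exp (-((k : ℝ) / m)) := by
    have := Real.add_one_le_exp (-((k : ℝ) / m))
    linarith
  have hμ2 : μ ^ 2 = ((m : ℝ) - 2 * k) ^ 2 := by rw [← hμ, sq_abs]
  rcases le_total (4 * ((m : ℝ) - 1)) (μ ^ 2) with h | h
  · set w := Real.sqrt (μ ^ 2 - 4 * ((m : ℝ) - 1)) with hw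
    have hw2 : w ^ 2 = μ ^ 2 - 4 * ((m : ℝ) - 1) := Real.sq_sqrt (by linarith)
    have hw0 : 0 ≤ w := Real.sqrt_nonneg _
    have hwle : w ≤ m - 2 := by
      rw [hw]
      apply Real.sqrt_le_iff.2
      refine ⟨by linarith, ?_⟩
      rw [hμ2]
      nlinarith
    have hρ : ((m : ℝ) - 1 - k) ≤ ((m : ℝ) - 1) * Real.exp (-((k : ℝ) / m)) := by
      have h1 : ((m : ℝ) - 1) * (1 - (k : ℝ) / m) ≤ ((m : ℝ) - 1) * Real.exp (-((k : ℝ) / m)) :=
        mul_le_mul_of_nonneg_left hexp (by linarith)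
      have h2 : ((m : ℝ) - 1) * (1 - (k : ℝ) / m) = (m : ℝ) - 1 - k + k / m := by
        field_simp
        ring
      have h3 : 0 ≤ (k : ℝ) / m := by positivity
      linarith
    have hb : ∀ t : ℝ, |t| ≤ w → ‖(((μ + t) / 2 : ℝ) : ℂ)‖ ≤
        ((m : ℝ) - 1) * Real.exp (-((k : ℝ) / m)) := by
      intro t ht
      rw [Complex.norm_real, Real.norm_eq_abs, abs_div, abs_two]
      have h1 := abs_add_le μ t
      rw [hμ] at h1
      linarith
    refine ⟨(((μ + w) / 2 : ℝ) : ℂ), (((μ + -w) / 2 : ℝ) : ℂ), ?_, ?_, hb w ?_, hb (-w) ?_⟩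
    · rw [← Complex.ofReal_add]
      congr 1
      ring
    · rw [← Complex.ofReal_mul]
      congr 1
      have : (μ + w) / 2 * ((μ + -w) / 2) = (μ ^ 2 - w ^ 2) / 4 := by ring
      rw [this, hw2]
      ring
    · rw [abs_of_nonneg hw0]
    · rw [abs_neg, abs_of_nonneg hw0]
  · set w := Real.sqrt (4 * ((m : ℝ) - 1) - μ ^ 2) with hw
    have hw2 : w ^ 2 = 4 * ((m : ℝ) - 1) - μ ^ 2 := Real.sq_sqrt (by linarith)
    have hb : ∀ t : ℝ, t ^ 2 = w ^ 2 → ‖(⟨μ / 2, t / 2⟩ : ℂ)‖ ≤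
        ((m : ℝ) - 1) * Real.exp (-((k : ℝ) / m)) := by
      intro t ht
      have h1 : ‖(⟨μ / 2, t / 2⟩ : ℂ)‖ ^ 2 = (m : ℝ) - 1 := by
        rw [← Complex.normSq_eq_norm_sq, Complex.normSq_mk]
        have : μ / 2 * (μ / 2) + t / 2 * (t / 2) = (μ ^ 2 + t ^ 2) / 4 := by ring
        rw [this, ht, hw2]
        ring
      have h2 : (1 : ℝ) / 2 ≤ Real.exp (-((k : ℝ) / m)) := by
        refine le_trans ?_ hexp
        have : (k : ℝ) / m ≤ 1 / 2 := by
          rw [div_le_iff₀ hm0]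
          linarith
        linarith
      have h3 : 0 ≤ ((m : ℝ) - 1) * Real.exp (-((k : ℝ) / m)) := by
        have := Real.exp_pos (-((k : ℝ) / m))
        have h4 : (0 : ℝ) ≤ (m : ℝ) - 1 := by linarith
        positivity
      refine le_of_sq_le_sq ?_ h3
      rw [h1]
      have h5 : ((m : ℝ) - 1) / 2 ≤ ((m : ℝ) - 1) * Real.exp (-((k : ℝ) / m)) := by
        have := mul_le_mul_of_nonneg_left h2 (show (0 : ℝ) ≤ (m : ℝ) - 1 by linarith)
        linarith
      have h6 : (((m : ℝ) - 1) / 2) ^ 2 ≤ (((m : ℝ) - 1) * Real.exp (-((k : ℝ) / m))) ^ 2 :=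
        pow_le_pow_left₀ (by linarith) h5 2
      nlinarith
    refine ⟨⟨μ / 2, w / 2⟩, ⟨μ / 2, -w / 2⟩, ?_, ?_, hb w rfl, ?_⟩
    · apply Complex.ext
      · simp
      · simp
        ring
    · apply Complex.ext
      · simp only [Complex.mul_re, Complex.ofReal_re]
        have : μ / 2 * (μ / 2) - w / 2 * (-w / 2) = (μ ^ 2 + w ^ 2) / 4 := by ring
        rw [this, hw2]
        ring
      · simp only [Complex.mul_im, Complex.ofReal_im]
        ring
    · exact hb (-w) (by ring)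

private theorem aa_bound (m : ℕ) (hm : 5 ≤ m) (j : ℕ) (hj1 : 1 ≤ j) (hj2 : j + 1 ≤ m) (n : ℕ) :
    |aa m ((m : ℝ) - 2 * j) n| ≤ 2 * ((n : ℝ) + 1) * ((m : ℝ) - 1) ^ n *
      (Real.exp (-((n : ℝ) / m)) ^ j + Real.exp (-((n : ℝ) / m)) ^ (m - j)) := by
  have hm5 : (5 : ℝ) ≤ m := by exact_mod_cast hm
  have hm0 : (0 : ℝ) < m := by linarith
  have key : ∀ k : ℕ, 1 ≤ k → 2 * k ≤ m → |(m : ℝ) - 2 * j| = (m : ℝ) - 2 * k →
      |aa m ((m : ℝ) - 2 * j) n| ≤ 2 * ((n : ℝ) + 1) * ((m : ℝ) - 1) ^ n *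
        Real.exp (-((n : ℝ) / m)) ^ k := by
    intro k hk1 hk2 hk3
    obtain ⟨r, s, h1, h2, h3, h4⟩ := roots_exist m hm k hk1 hk2 _ hk3
    have hexp : (1 : ℝ) / 2 ≤ Real.exp (-((k : ℝ) / m)) := by
      have h5 := Real.add_one_le_exp (-((k : ℝ) / m))
      have h6 : (k : ℝ) / m ≤ 1 / 2 := by
        rw [div_le_iff₀ hm0]
        have : 2 * (k : ℝ) ≤ m := by exact_mod_cast hk2
        linarith
      linarith
    have hρ : 1 ≤ ((m : ℝ) - 1) * Real.exp (-((k : ℝ) / m)) := by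
      have := mul_le_mul_of_nonneg_left hexp (show (0 : ℝ) ≤ (m : ℝ) - 1 by linarith)
      linarith
    refine (aa_bound' m _ r s h1 h2 _ hρ h3 h4 n).trans (le_of_eq ?_)
    rw [mul_pow, ← Real.exp_nat_mul, ← Real.exp_nat_mul, mul_assoc (2 * ((n : ℝ) + 1))]
    congr 3
    ring
  have he := Real.exp_pos (-((n : ℝ) / m))
  have hc : 0 ≤ 2 * ((n : ℝ) + 1) * ((m : ℝ) - 1) ^ n := by
    have : (0 : ℝ) ≤ (m : ℝ) - 1 := by linarith
    positivity
  rcases le_total (2 * j) m with h | h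
  · have h1 : |(m : ℝ) - 2 * j| = (m : ℝ) - 2 * j := by
      apply abs_of_nonneg
      have : 2 * (j : ℝ) ≤ m := by exact_mod_cast h
      linarith
    refine (key j hj1 h h1).trans ?_
    refine mul_le_mul_of_nonneg_left ?_ hc
    linarith [pow_pos he (m - j)]
  · have hcast : ((m - j : ℕ) : ℝ) = (m : ℝ) - j := by
      rw [Nat.cast_sub (by omega)]
    have h1 : |(m : ℝ) - 2 * j| = (m : ℝ) - 2 * ((m - j : ℕ) : ℝ) := by
      rw [hcast, abs_of_nonpos]
      · ring
      · have : (m : ℝ) ≤ 2 * j := by exact_mod_cast h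
        linarith
    refine (key (m - j) (by omega) (by omega) h1).trans ?_
    refine mul_le_mul_of_nonneg_left ?_ hc
    linarith [pow_pos he j]

private theorem sum_pow_card (m : ℕ) (e : ℝ) :
    ∑ A : Finset (Fin m), e ^ A.card = (1 + e) ^ m := by
  have h := Finset.sum_pow_mul_eq_add_pow e 1 (univ : Finset (Fin m))
  rw [Finset.powerset_univ] at h
  simp only [one_pow, mul_one, Finset.card_univ, Fintype.card_fin] at h
  rw [h, add_comm]

private theorem sum_pow_card' (m : ℕ) (e : ℝ) :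
    ∑ A : Finset (Fin m), e ^ (m - A.card) = (1 + e) ^ m := by
  have h := Finset.sum_pow_mul_eq_add_pow 1 e (univ : Finset (Fin m))
  rw [Finset.powerset_univ] at h
  simpa using h

private theorem num_bound (m n : ℕ) (hm : 100 ≤ m) (hn : 4 * ((m : ℝ) * Real.log m) ≤ n + 2) :
    4 * ((n : ℝ) + 1) * ((1 + Real.exp (-((n : ℝ) / m))) ^ m - 1) ≤ 1 := by
  have hm100 : (100 : ℝ) ≤ m := by exact_mod_cast hm
  have hm0 : (0 : ℝ) < m := by linarith
  have hn0 : (0 : ℝ) ≤ n := Nat.cast_nonneg n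
  have h1 : ((n : ℝ) + 1) * Real.exp (-((n : ℝ) / (4 * m))) ≤ 4 * m := by
    have h2 := Real.add_one_le_exp ((n : ℝ) / (4 * m))
    have h3 : (n : ℝ) + 1 ≤ 4 * m * Real.exp ((n : ℝ) / (4 * m)) := by
      have h4 := mul_le_mul_of_nonneg_left h2 (show (0 : ℝ) ≤ 4 * m by positivity)
      have h5 : 4 * (m : ℝ) * ((n : ℝ) / (4 * m) + 1) = n + 4 * m := by
        field_simp
      linarith
    rw [Real.exp_neg, ← div_eq_mul_inv, div_le_iff₀ (Real.exp_pos _)]
    exact h3
  have h2 : Real.exp (-(3 * (n : ℝ) / (4 * m))) ≤ 3 / (m : ℝ) ^ 3 := by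
    have h3 : 3 * Real.log m - 1 ≤ 3 * (n : ℝ) / (4 * m) := by
      rw [le_div_iff₀ (by positivity)]
      nlinarith
    have h4 : Real.exp (-(3 * (n : ℝ) / (4 * m))) ≤ Real.exp (1 - 3 * Real.log m) :=
      Real.exp_le_exp.2 (by linarith)
    have h5 : Real.exp (1 - 3 * Real.log m) = Real.exp 1 / (m : ℝ) ^ 3 := by
      rw [Real.exp_sub]
      congr 1
      rw [show 3 * Real.log (m : ℝ) = ((3 : ℕ) : ℝ) * Real.log m by norm_num, Real.exp_nat_mul,
        Real.exp_log hm0]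
    rw [h5] at h4
    refine h4.trans ?_
    have := Real.exp_one_lt_d9
    gcongr
    linarith
  set e := Real.exp (-((n : ℝ) / m)) with he
  have he0 : 0 < e := Real.exp_pos _
  have h3 : e = Real.exp (-((n : ℝ) / (4 * m))) * Real.exp (-(3 * (n : ℝ) / (4 * m))) := by
    rw [he, ← Real.exp_add]
    congr 1
    field_simp
    ring
  have h4 : ((n : ℝ) + 1) * e ≤ 12 / (m : ℝ) ^ 2 := by
    rw [h3, ← mul_assoc]
    calc ((n : ℝ) + 1) * Real.exp (-((n : ℝ) / (4 * m))) * Real.exp (-(3 * (n : ℝ) / (4 * m)))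
        ≤ (4 * m) * (3 / (m : ℝ) ^ 3) := mul_le_mul h1 h2 (Real.exp_pos _).le (by positivity)
      _ = 12 / (m : ℝ) ^ 2 := by
          field_simp
          ring
  have h5 : e ≤ 12 / (m : ℝ) ^ 2 := by
    refine le_trans ?_ h4
    nlinarith
  have h6 : (m : ℝ) * e ≤ 1 / 2 := by
    have h7 := mul_le_mul_of_nonneg_left h5 hm0.le
    have h8 : (m : ℝ) * (12 / (m : ℝ) ^ 2) = 12 / m := by
      field_simp
    rw [h8] at h7
    refine h7.trans ?_
    rw [div_le_iff₀ hm0]
    linarith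
  have h7 : (1 + e) ^ m ≤ 1 + 2 * (m * e) := by
    have h8 : (1 + e) ^ m ≤ Real.exp (m * e) := by
      have h9 := pow_le_pow_left₀ (by positivity) (show 1 + e ≤ Real.exp e by
        have := Real.add_one_le_exp e
        linarith) m
      rwa [← Real.exp_nat_mul] at h9
    refine h8.trans ?_
    have h9 := Real.add_one_le_exp (-(m * e))
    have h10 : 0 ≤ (m : ℝ) * e := by positivity
    have h11 : Real.exp (m * e) * Real.exp (-(m * e)) = 1 := by
      rw [← Real.exp_add]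
      simp
    have h12 : Real.exp (m * e) * (1 - m * e) ≤ 1 := by
      rw [← h11]
      exact mul_le_mul_of_nonneg_left (by linarith) (Real.exp_pos _).le
    by_contra hcon
    push Not at hcon
    have h13 : (1 + 2 * (m * e)) * (1 - m * e) < Real.exp (m * e) * (1 - m * e) :=
      mul_lt_mul_of_pos_right hcon (by linarith)
    nlinarith
  have h8 : 4 * ((n : ℝ) + 1) * ((1 + e) ^ m - 1) ≤ 4 * ((n : ℝ) + 1) * (2 * (m * e)) :=
    mul_le_mul_of_nonneg_left (by linarith) (by positivity)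
  have h9 : 4 * ((n : ℝ) + 1) * (2 * (m * e)) = 8 * m * (((n : ℝ) + 1) * e) := by ring
  have h10 : 8 * m * (((n : ℝ) + 1) * e) ≤ 8 * m * (12 / (m : ℝ) ^ 2) :=
    mul_le_mul_of_nonneg_left h4 (by positivity)
  have h11 : 8 * m * (12 / (m : ℝ) ^ 2) = 96 / m := by
    field_simp
    ring
  have h12 : 96 / (m : ℝ) ≤ 1 := by
    rw [div_le_one hm0]
    linarith
  linarith

theorem nb_four : ∃ m0 : ℕ, ∀ m ≥ m0, ∀ n : ℕ, TN m ≤ n + 2 → ∀ x y : Q m,
    na (cubeE m) n x y ≤ 4 * ((m : ℝ) - 1) ^ n / 2 ^ m := by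
  classical
  refine ⟨100, fun m hm n hn x y => ?_⟩
  have hm100 : (100 : ℝ) ≤ m := by exact_mod_cast hm
  have hm0 : (0 : ℝ) < m := by linarith
  have hlog : 1 ≤ Real.log m := xn_log m (by omega)
  have hTT := (xn_TT m (by omega)).1
  have hnR : 4 * ((m : ℝ) * Real.log m) ≤ n + 2 := by
    have h1 : (TN m : ℝ) ≤ n + 2 := by exact_mod_cast hn
    unfold TN at h1
    push_cast at h1
    linarith
  have hn1 : 1 ≤ n := by
    have h2 : (3 : ℝ) ≤ n + 2 := by nlinarith
    have h3 : (3 : ℕ) ≤ n + 2 := by exact_mod_cast h2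
    omega
  obtain ⟨n', rfl⟩ : ∃ n', n = n' + 1 := ⟨n - 1, by omega⟩
  have hnum := num_bound m (n' + 1) hm hnR
  set e := Real.exp (-(((n' + 1 : ℕ) : ℝ) / m)) with he
  have he0 : 0 < e := Real.exp_pos _
  set c : ℝ := 2 * (((n' + 1 : ℕ) : ℝ) + 1) * ((m : ℝ) - 1) ^ (n' + 1) with hc
  have hq : (0 : ℝ) < (m : ℝ) - 1 := by linarith
  have hc0 : 0 ≤ c := by rw [hc]; positivity
  set M : ℝ := (m : ℝ) * ((m : ℝ) - 1) ^ n' with hM
  have hM0 : 0 ≤ M := by rw [hM]; positivity
  have hterm : ∀ A : Finset (Fin m), aa m ((m : ℝ) - 2 * A.card) (n' + 1) * (chr A x * chr A y) ≤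
      c * (e ^ A.card + e ^ (m - A.card)) + (if A = ∅ then M - c else 0) +
        (if A = univ then M - c else 0) := by
    intro A
    have h1 : aa m ((m : ℝ) - 2 * A.card) (n' + 1) * (chr A x * chr A y) ≤
        |aa m ((m : ℝ) - 2 * A.card) (n' + 1)| := by
      refine (le_abs_self _).trans (le_of_eq ?_)
      rw [abs_mul, abs_mul, chr_abs, chr_abs, one_mul, mul_one]
    refine h1.trans ?_
    have hne : (∅ : Finset (Fin m)) ≠ univ := by
      intro h
      have h1 := congrArg Finset.card h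
      rw [Finset.card_empty, Finset.card_univ, Fintype.card_fin] at h1
      omega
    by_cases hA0 : A = ∅
    · subst hA0
      rw [if_pos rfl, if_neg hne, Finset.card_empty]
      have h2 := aa_extreme (m : ℝ) 1 (by norm_num) n'
      rw [one_mul, one_pow, one_mul] at h2
      have h3 : (m : ℝ) - 2 * ((0 : ℕ) : ℝ) = m := by simp
      rw [h3, h2, ← hM, abs_of_nonneg hM0, pow_zero]
      have h4 : 0 ≤ c * e ^ (m - 0) := by positivity
      linarith
    by_cases hA1 : A = univ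
    · subst hA1
      rw [if_neg hA0, if_pos rfl, Finset.card_univ, Fintype.card_fin]
      have h2 := aa_extreme (m : ℝ) (-1) (by norm_num) n'
      have h3 : (m : ℝ) - 2 * (m : ℝ) = -1 * m := by ring
      rw [h3, h2, ← hM, abs_mul, abs_pow, abs_neg, abs_one, one_pow, one_mul, abs_of_nonneg hM0,
        Nat.sub_self, pow_zero]
      have h4 : 0 ≤ c * e ^ m := by positivity
      linarith
    · rw [if_neg hA0, if_neg hA1, add_zero, add_zero]
      have h2 : 1 ≤ A.card := Finset.card_pos.2 (Finset.nonempty_iff_ne_empty.2 hA0)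
      have h3 : A.card + 1 ≤ m := by
        have h4 : A.card < (univ : Finset (Fin m)).card :=
          Finset.card_lt_card (Finset.ssubset_univ_iff.2 hA1)
        rw [Finset.card_univ, Fintype.card_fin] at h4
        omega
      exact aa_bound m (by omega) A.card h2 h3 (n' + 1)
  have hsum : 2 ^ m * na (cubeE m) (n' + 1) x y ≤ c * ((1 + e) ^ m + (1 + e) ^ m) + (M - c) +
      (M - c) := by
    rw [na_fourier]
    refine (Finset.sum_le_sum fun A _ => hterm A).trans (le_of_eq ?_)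
    rw [Finset.sum_add_distrib, Finset.sum_add_distrib, ← Finset.mul_sum, Finset.sum_add_distrib,
      sum_pow_card, sum_pow_card', Finset.sum_ite_eq' univ ∅ (fun _ => M - c),
      Finset.sum_ite_eq' univ univ (fun _ => M - c), if_pos (Finset.mem_univ _),
      if_pos (Finset.mem_univ _)]
  have h2m : (0 : ℝ) < 2 ^ m := by positivity
  rw [le_div_iff₀ h2m]
  have hpow : (0 : ℝ) < ((m : ℝ) - 1) ^ n' := by positivity
  have h5 : c * ((1 + e) ^ m + (1 + e) ^ m) + (M - c) + (M - c) =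
      2 * M + ((m : ℝ) - 1) ^ (n' + 1) * (4 * (((n' + 1 : ℕ) : ℝ) + 1) * ((1 + e) ^ m - 1)) := by
    rw [hc]
    ring
  have h6 : ((m : ℝ) - 1) ^ (n' + 1) * (4 * (((n' + 1 : ℕ) : ℝ) + 1) * ((1 + e) ^ m - 1)) ≤
      ((m : ℝ) - 1) ^ (n' + 1) * 1 := mul_le_mul_of_nonneg_left hnum (by positivity)
  have h7 : 2 * M ≤ 3 * ((m : ℝ) - 1) ^ (n' + 1) := by
    rw [hM, pow_succ]
    nlinarith
  linarith

end Pool.Agent.Work.MP_b7dc8a_pr
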