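import Pool.Agent.Work.MP_b7dc8a_pr.F.Nbtwo
import Pool.Agent.Work.MP_b7dc8a_pr.F.Nbfour
import Pool.Agent.Work.MP_b7dc8a_pr.B.Four

/-! Module TAUN (M): the two point function is at most `3 Loc + 60 (TN + chi)/2^m`.

`nb_green`: let `T = TN m`, `N_n = na (cubeE m) n x y/(m-1)^n`, `S = ∑_{n<T} N_n` as a function of `x`
(`y` fixed), `A f = nb (cubeE m) f`, `m` large. `na_one, na_two, na_rec` (degree `m`, `nb_cube_one`) say
`A N_0 = (m-1) N_1`, `A N_1 = (m-1) N_2 + (m/(m-1)) N_0`, `A N_n = (m-1) N_{n+1} + N_{n-1}` (`n >= 2`).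
Summing over `n < T`: `A S/(m-1) = (S + N_T - N_0) + m/(m-1)^2 N_0 + (S - N_0 - N_{T-1})/(m-1)`, so
`S (1 + 1/(m-1)) <= A S/(m-1) + N_0 + N_{T-1}/(m-1)` if `m >= 3` (the coefficient of `N_0` is
`1 - m/(m-1)^2 + 1/(m-1) <= 1`, and `N_T >= 0`). Multiply by `(m-1)/m`:
`S <= A S/m + N_0 + N_{T-1}/m`. Iterate `T` times (`(nb)^[k]`, monotone):
`S x <= ∑_{k<T} (A^k (N_0 + N_{T-1}/m)) x/m^k + (A^T S) x/m^T`.
The first part with `N_0` is `Loc m 0 x y` (`nb_iter_eq`, `wk_zero`). `N_{T-1} <= 4/2^m` (`nb_four`), so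
its part is at most `T * 4/2^m` (`nb_iter_le`). The last term: `A^T S x = ∑_z wk T x z S z` with
`wk T x z <= 4 m^T/2^m` (`four_mix`, `TT m <= TN m`) and `∑_z S z <= 1 + T m/(m-1) <= 2 T + 1` by `na_sum`
(use `na E n z y` summed over `z`: `na (cubeE m) n z y = na (cubeE m) n y z`, which follows for
instance from the recursion, or from the Fourier formula in NBFOUR, or prove
`∑_z na (cubeE m) (n+1) z y <= m (m-1)^n` directly from the recursion by summing over `z`:
`∑_z A f z = m ∑_z f z`, which gives exactly `m (m-1)^n`). Total `<= Loc + 20 T/2^m`.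

`taun`: `nb_two` with `T = TN m` for `E`; `p^i <= (1+1/T)^i/(m-1)^i <= 3/(m-1)^i` for `i <= T`
(`(1+1/T)^T <= e <= 3`); `na E <= na (cubeE m)` (`na_mono_E`); so the first sum is at most `3 S` and
`p^T na T x z <= 3 * 4/2^m`, `∑_z tau E p z y = chi E p y`. Total: `3 Loc + (60 T + 12 chi)/2^m`.
(`p <= 1` for large `m` follows from the hypothesis.) -/

namespace Pool.Agent.Work.MP_b7dc8a_pr

open Finset

private theorem tau_nb_sum (m : ℕ) (f : Q m → ℝ) : ∑ x, nb (cubeE m) f x = m * ∑ x, f x := by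
  simp only [walk_nb_ind]
  rw [Finset.sum_comm, Finset.mul_sum]
  refine Finset.sum_congr rfl fun z _ => ?_
  rw [← Finset.sum_mul]
  congr 1
  rw [← nb_cube_one m z, walk_nb_ind]
  refine Finset.sum_congr rfl fun x _ => ?_
  rw [mul_one, Sym2.eq_swap]

/-- sum over the first argument -/
private theorem tau_na_sum (m : ℕ) (y : Q m) (n : ℕ) :
    (∑ x, na (cubeE m) (n + 1) x y = m * ((m : ℝ) - 1) ^ n) ∧
    (∑ x, na (cubeE m) (n + 2) x y = m * ((m : ℝ) - 1) ^ (n + 1)) := by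
  have h1 : ∑ x, na (cubeE m) 1 x y = m := by
    simp only [na_one]
    rw [tau_nb_sum]
    simp
  induction n with
  | zero =>
    refine ⟨by rw [h1]; simp, ?_⟩
    rw [zero_add]
    simp only [na_two, nb_cube_one]
    rw [Finset.sum_sub_distrib, tau_nb_sum, h1]
    simp
    ring
  | succ n ih =>
    refine ⟨ih.2, ?_⟩
    have h2 : ∑ x, na (cubeE m) (n + 1 + 2) x y =
        ∑ x, (nb (cubeE m) (fun z => na (cubeE m) (n + 2) z y) x -
          ((m : ℝ) - 1) * na (cubeE m) (n + 1) x y) := by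
      refine Finset.sum_congr rfl fun x _ => ?_
      have := na_rec (cubeE m) n x y
      rw [nb_cube_one] at this
      exact this
    rw [h2, Finset.sum_sub_distrib, tau_nb_sum, ← Finset.mul_sum, ih.1, ih.2]
    ring

/-- normalised number of non backtracking walks -/
private noncomputable def nN (m n : ℕ) (y x : Q m) : ℝ := na (cubeE m) n x y / ((m : ℝ) - 1) ^ n

private theorem nN_nonneg (m n : ℕ) (hm : 2 ≤ m) (x y : Q m) : 0 ≤ nN m n y x := by
  have : (2 : ℝ) ≤ m := by exact_mod_cast hm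
  exact div_nonneg (na_nonneg _ _ _ _) (pow_nonneg (by linarith) _)

private theorem nN_nb (m n : ℕ) (y x : Q m) :
    nb (cubeE m) (nN m n y) x = nb (cubeE m) (fun z => na (cubeE m) n z y) x / ((m : ℝ) - 1) ^ n := by
  unfold nb nN
  rw [Finset.sum_div]

private theorem nN_zero (m : ℕ) (hm : 2 ≤ m) (y x : Q m) :
    nb (cubeE m) (nN m 0 y) x = ((m : ℝ) - 1) * nN m 1 y x := by
  have : (2 : ℝ) ≤ m := by exact_mod_cast hm
  have h0 : ((m : ℝ) - 1) ≠ 0 := by linarith
  have h1 : (fun z => na (cubeE m) 0 z y) = fun z => if z = y then 1 else 0 := by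
    funext z
    rw [na_zero]
  rw [nN_nb, h1, ← na_one]
  unfold nN
  rw [pow_zero, pow_one, div_one]
  field_simp

private theorem nN_one (m : ℕ) (hm : 2 ≤ m) (y x : Q m) :
    nb (cubeE m) (nN m 1 y) x = ((m : ℝ) - 1) * nN m 2 y x + (m / ((m : ℝ) - 1)) * nN m 0 y x := by
  have : (2 : ℝ) ≤ m := by exact_mod_cast hm
  have h0 : ((m : ℝ) - 1) ≠ 0 := by linarith
  have h1 : nb (cubeE m) (fun z => na (cubeE m) 1 z y) x = na (cubeE m) 2 x y +
      m * na (cubeE m) 0 x y := by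
    rw [na_two, nb_cube_one, na_zero]
    split_ifs <;> ring
  rw [nN_nb, h1]
  unfold nN
  field_simp

private theorem nN_rec (m n : ℕ) (hm : 2 ≤ m) (y x : Q m) :
    nb (cubeE m) (nN m (n + 2) y) x = ((m : ℝ) - 1) * nN m (n + 3) y x + nN m (n + 1) y x := by
  have : (2 : ℝ) ≤ m := by exact_mod_cast hm
  have h0 : ((m : ℝ) - 1) ≠ 0 := by linarith
  have h1 : nb (cubeE m) (fun z => na (cubeE m) (n + 2) z y) x = na (cubeE m) (n + 3) x y +
      ((m : ℝ) - 1) * na (cubeE m) (n + 1) x y := by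
    rw [na_rec, nb_cube_one]
    ring
  rw [nN_nb, h1]
  unfold nN
  rw [pow_succ _ (n + 2), pow_succ _ (n + 1)]
  field_simp

private theorem tau_nb_sumr (m T : ℕ) (F : ℕ → Q m → ℝ) (x : Q m) :
    nb (cubeE m) (fun z => ∑ n ∈ range T, F n z) x = ∑ n ∈ range T, nb (cubeE m) (F n) x :=
  nb_iter_sum (cubeE m) 1 (range T) F x

/-- the finite Green function identity -/
private theorem tau_green (m : ℕ) (hm : 2 ≤ m) (y x : Q m) (T : ℕ) :
    nb (cubeE m) (fun z => ∑ n ∈ range (T + 2), nN m n y z) x =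
      m * (∑ n ∈ range (T + 2), nN m n y x) + ((m : ℝ) - 1) * nN m (T + 2) y x -
        m * nN m 0 y x + (m / ((m : ℝ) - 1)) * nN m 0 y x - nN m (T + 1) y x := by
  have h2 : (2 : ℝ) ≤ m := by exact_mod_cast hm
  rw [tau_nb_sumr]
  induction T with
  | zero =>
    rw [Finset.sum_range_succ, Finset.sum_range_succ, Finset.sum_range_zero,
      Finset.sum_range_succ, Finset.sum_range_succ, Finset.sum_range_zero, nN_zero m hm,
      zero_add, nN_one m hm]
    ring
  | succ T ih =>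
    rw [Finset.sum_range_succ, ih, Finset.sum_range_succ _ (T + 2), nN_rec m T hm]
    ring

private theorem tau_step (m : ℕ) (hm : 2 ≤ m) (y x : Q m) (T : ℕ) (hT : 2 ≤ T)
    (hN : ∀ z, nN m (T - 1) y z ≤ 4 / 2 ^ m) :
    ∑ n ∈ range T, nN m n y x ≤ nb (cubeE m) (fun z => ∑ n ∈ range T, nN m n y z) x / m +
      ((if x = y then 1 else 0) + 4 / 2 ^ m / m) := by
  have h2 : (2 : ℝ) ≤ m := by exact_mod_cast hm
  obtain ⟨T', rfl⟩ : ∃ T', T = T' + 2 := ⟨T - 2, by omega⟩
  have h3 := tau_green m hm y x T'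
  have h4 := nN_nonneg m (T' + 2) hm x y
  have h5 := nN_nonneg m 0 hm x y
  have h6 := hN x
  have h7 : nN m 0 y x = if x = y then 1 else 0 := by
    unfold nN
    rw [na_zero, pow_zero, div_one]
  have h8 : T' + 2 - 1 = T' + 1 := by omega
  rw [h8] at h6
  have h9 : 0 ≤ (m / ((m : ℝ) - 1)) * nN m 0 y x :=
    mul_nonneg (div_nonneg (by linarith) (by linarith)) h5
  have h10 : 0 ≤ ((m : ℝ) - 1) * nN m (T' + 2) y x := mul_nonneg (by linarith) h4
  have hm0 : (0 : ℝ) < m := by linarith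
  rw [← h7]
  have h11 : m * (∑ n ∈ range (T' + 2), nN m n y x) ≤
      nb (cubeE m) (fun z => ∑ n ∈ range (T' + 2), nN m n y z) x + m * nN m 0 y x + 4 / 2 ^ m := by
    linarith
  have h12 : ∑ n ∈ range (T' + 2), nN m n y x ≤
      (nb (cubeE m) (fun z => ∑ n ∈ range (T' + 2), nN m n y z) x + m * nN m 0 y x + 4 / 2 ^ m) / m := by
    rw [le_div_iff₀ hm0, mul_comm]
    exact h11
  refine h12.trans (le_of_eq ?_)
  field_simp
  ring

/-- iterate an inequality `S <= A S/m + f + c` -/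
private theorem tau_iter (m : ℕ) (hm : 2 ≤ m) (S f : Q m → ℝ) (c : ℝ)
    (h : ∀ x, S x ≤ nb (cubeE m) S x / m + (f x + c)) (k : ℕ) (x : Q m) :
    S x ≤ (nb (cubeE m))^[k] S x / (m : ℝ) ^ k +
      ∑ j ∈ range k, ((nb (cubeE m))^[j] f x / (m : ℝ) ^ j + c) := by
  have h2 : (2 : ℝ) ≤ m := by exact_mod_cast hm
  have hm0 : (0 : ℝ) < m := by linarith
  induction k with
  | zero => simp
  | succ k ih =>
    refine ih.trans ?_
    rw [Finset.sum_range_succ]
    have h3 : (nb (cubeE m))^[k] S x ≤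
        (nb (cubeE m))^[k + 1] S x / m + ((nb (cubeE m))^[k] f x + (m : ℝ) ^ k * c) := by
      refine (nb_iter_mono (cubeE m) k _ _ h x).trans (le_of_eq ?_)
      have e1 : (fun z => nb (cubeE m) S z / m + (f z + c)) =
          fun z => ((m : ℝ)⁻¹ * nb (cubeE m) S z) + (f z + c * 1) := by
        funext z
        rw [mul_one, div_eq_inv_mul]
      rw [e1, nb_iter_add, nb_iter_smul, nb_iter_add, nb_iter_smul]
      have e2 : (nb (cubeE m))^[k] (nb (cubeE m) S) x = (nb (cubeE m))^[k + 1] S x := by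
        rw [Function.iterate_succ_apply]
      have e3 : (nb (cubeE m))^[k] (fun _ => (1 : ℝ)) x = (m : ℝ) ^ k := by
        rw [nb_iter_eq]
        simp only [mul_one]
        exact wk_cube_sum m k x
      have e4 : (nb (cubeE m))^[k] (fun z => nb (cubeE m) S z) x = (nb (cubeE m))^[k + 1] S x := e2
      rw [e4, e3]
      ring
    have h4 : (nb (cubeE m))^[k] S x / (m : ℝ) ^ k ≤
        (nb (cubeE m))^[k + 1] S x / (m : ℝ) ^ (k + 1) + ((nb (cubeE m))^[k] f x / (m : ℝ) ^ k + c) := by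
      rw [div_le_iff₀ (by positivity)]
      refine h3.trans (le_of_eq ?_)
      rw [pow_succ]
      field_simp
    linarith

theorem nb_green : ∃ m0 : ℕ, ∀ m ≥ m0, ∀ x y : Q m,
    ∑ n ∈ range (TN m), na (cubeE m) n x y / ((m : ℝ) - 1) ^ n ≤
      Loc m 0 x y + 20 * TN m / 2 ^ m := by
  classical
  obtain ⟨m1, h1⟩ := nb_four
  refine ⟨max m1 3, fun m hm x y => ?_⟩
  have hm3 : 3 ≤ m := (le_max_right _ _).trans hm
  have h4 := h1 m ((le_max_left _ _).trans hm)
  have hm3' : (3 : ℝ) ≤ m := by exact_mod_cast hm3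
  have hlog := xn_log m hm3
  have hTT := (xn_TT m (by omega)).1
  have hTT3 : (3 : ℝ) ≤ TT m := by nlinarith
  have hTT3' : 3 ≤ TT m := by exact_mod_cast hTT3
  have hT2 : 2 ≤ TN m := by unfold TN; omega
  have hN : ∀ z, nN m (TN m - 1) y z ≤ 4 / 2 ^ m := by
    intro z
    unfold nN
    have h5 := h4 (TN m - 1) (by omega) z y
    have hp : (0 : ℝ) < ((m : ℝ) - 1) ^ (TN m - 1) := pow_pos (by linarith) _
    rw [div_le_iff₀ hp]
    refine h5.trans (le_of_eq ?_)
    ring
  set S : Q m → ℝ := fun z => ∑ n ∈ range (TN m), nN m n y z with hS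
  have hstep : ∀ x, S x ≤ nb (cubeE m) S x / m + ((if x = y then 1 else 0) + 4 / 2 ^ m / m) :=
    fun x => tau_step m (by omega) y x (TN m) hT2 hN
  have hit := tau_iter m (by omega) S (fun x => if x = y then 1 else 0) (4 / 2 ^ m / m) hstep (TN m) x
  have hlhs : ∑ n ∈ range (TN m), na (cubeE m) n x y / ((m : ℝ) - 1) ^ n = S x := rfl
  rw [hlhs]
  refine hit.trans ?_
  rw [Finset.sum_add_distrib, Finset.sum_const, Finset.card_range, nsmul_eq_mul]
  have hloc : ∑ j ∈ range (TN m), (nb (cubeE m))^[j] (fun x => if x = y then 1 else 0) x / (m : ℝ) ^ j =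
      Loc m 0 x y := by
    unfold Loc
    rw [zero_add, one_mul]
    refine Finset.sum_congr rfl fun j _ => ?_
    rw [pow_zero, one_mul]
    have e : (fun x : Q m => if x = y then (1 : ℝ) else 0) =
        fun z => @ite ℝ (z = y) (Classical.propDecidable _) 1 0 := by
      funext z
      congr
    unfold wk
    rw [e]
  rw [hloc]
  -- the sum of S
  have hsum : ∑ z, S z ≤ 2 * TN m := by
    rw [hS]
    simp only
    rw [Finset.sum_comm]
    have h6 : ∀ n ∈ range (TN m), ∑ z, nN m n y z ≤ 2 := by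
      intro n _
      unfold nN
      rw [← Finset.sum_div]
      rcases n with _ | n
      · simp only [na_zero]
        simp
      · rw [(tau_na_sum m y n).1]
        have hp : (0 : ℝ) < ((m : ℝ) - 1) ^ n := pow_pos (by linarith) _
        have hp1 : (0 : ℝ) < (m : ℝ) - 1 := by linarith
        rw [div_le_iff₀ (by positivity), pow_succ]
        nlinarith
    refine (Finset.sum_le_sum h6).trans (le_of_eq ?_)
    rw [Finset.sum_const, Finset.card_range, nsmul_eq_mul]
    ring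
  have hlast : (nb (cubeE m))^[TN m] S x / (m : ℝ) ^ TN m ≤ 8 * TN m / 2 ^ m := by
    rw [nb_iter_eq]
    have h7 : ∑ z, wk (cubeE m) (TN m) x z * S z ≤ ∑ z, 4 * (m : ℝ) ^ TN m / 2 ^ m * S z := by
      refine Finset.sum_le_sum fun z _ => ?_
      refine mul_le_mul_of_nonneg_right (four_mix m (by omega) (TN m) (by unfold TN; omega) x z) ?_
      exact Finset.sum_nonneg fun n _ => nN_nonneg m n (by omega) z y
    rw [← Finset.mul_sum] at h7
    have hp : (0 : ℝ) < (m : ℝ) ^ TN m := by positivity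
    rw [div_le_iff₀ hp]
    refine h7.trans ?_
    have h8 := mul_le_mul_of_nonneg_left hsum (show (0 : ℝ) ≤ 4 * (m : ℝ) ^ TN m / 2 ^ m by positivity)
    refine h8.trans (le_of_eq ?_)
    ring
  have hc : (TN m : ℝ) * (4 / 2 ^ m / m) ≤ 4 * TN m / 2 ^ m := by
    have h9 : (4 : ℝ) / 2 ^ m / m ≤ 4 / 2 ^ m := by
      refine div_le_self (by positivity) (by linarith)
    have h10 := mul_le_mul_of_nonneg_left h9 (Nat.cast_nonneg (TN m))
    refine h10.trans (le_of_eq ?_)
    ring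
  have h11 : (20 : ℝ) * TN m / 2 ^ m = 8 * TN m / 2 ^ m + 4 * TN m / 2 ^ m + 8 * TN m / 2 ^ m := by ring
  have h12 : (0 : ℝ) ≤ 8 * TN m / 2 ^ m := by positivity
  rw [h11]
  linarith

theorem taun : ∃ m0 : ℕ, ∀ m ≥ m0, ∀ (E : Finset (Sym2 (Q m))) (p : ℝ), E ⊆ cubeE m → 0 ≤ p →
    p * ((m : ℝ) - 1) ≤ 1 + 1 / TN m → ∀ x y,
    tau E p x y ≤ 3 * Loc m 0 x y + 60 * (TN m + chi E p y) / 2 ^ m := by
  obtain ⟨m1, h1⟩ := nb_green
  obtain ⟨m2, h2⟩ := nb_four
  refine ⟨max 3 (max m1 m2), fun m hm E p hE h0 hp x y => ?_⟩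
  have hm3 : 3 ≤ m := (le_max_left _ _).trans hm
  have hg := h1 m (((le_max_left _ _).trans (le_max_right _ _)).trans hm) x y
  have h4 := h2 m (((le_max_right _ _).trans (le_max_right _ _)).trans hm)
  have hm3' : (3 : ℝ) ≤ m := by exact_mod_cast hm3
  have hlog := xn_log m hm3
  have hTT := (xn_TT m (by omega)).1
  have hTT3 : (3 : ℝ) ≤ TT m := by nlinarith
  have hTT3' : 3 ≤ TT m := by exact_mod_cast hTT3
  have hT1 : 1 ≤ TN m := by unfold TN; omega
  have hT1' : (1 : ℝ) ≤ TN m := by exact_mod_cast hT1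
  have hT0 : (0 : ℝ) < TN m := by linarith
  have hinv : 1 / (TN m : ℝ) ≤ 1 := (div_le_one hT0).mpr hT1'
  have hM : (0 : ℝ) < (m : ℝ) - 1 := by linarith
  have hp1 : p ≤ 1 := by
    by_contra h
    push Not at h
    nlinarith
  have hdiag : ∀ e ∈ E, ¬ e.IsDiag := by
    intro e he
    exact SimpleGraph.not_isDiag_of_mem_edgeFinset (hE he)
  have hpow : ∀ i ≤ TN m, p ^ i ≤ 3 / ((m : ℝ) - 1) ^ i := by
    intro i hi
    rw [le_div_iff₀ (pow_pos hM i), ← mul_pow]
    have h5 : (p * ((m : ℝ) - 1)) ^ i ≤ (1 + 1 / (TN m : ℝ)) ^ i :=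
      pow_le_pow_left₀ (mul_nonneg h0 hM.le) hp i
    have h6 : (1 + 1 / (TN m : ℝ)) ^ i ≤ (1 + 1 / (TN m : ℝ)) ^ TN m :=
      pow_le_pow_right₀ (by have : 0 ≤ 1 / (TN m : ℝ) := by positivity
                            linarith) hi
    have h7 : (1 + 1 / (TN m : ℝ)) ^ TN m ≤ Real.exp 1 := by
      have h8 : 1 + 1 / (TN m : ℝ) ≤ Real.exp (1 / TN m) := by
        have := Real.add_one_le_exp (1 / (TN m : ℝ))
        linarith
      refine (pow_le_pow_left₀ (by positivity) h8 _).trans (le_of_eq ?_)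
      rw [← Real.exp_nat_mul]
      congr 1
      field_simp
    have h9 := Real.exp_one_lt_d9
    linarith
  have h5 := nb_two E hdiag p h0 hp1 (TN m) x y
  refine h5.trans ?_
  have hA : ∑ i ∈ range (TN m), p ^ i * na E i x y ≤
      3 * ∑ n ∈ range (TN m), na (cubeE m) n x y / ((m : ℝ) - 1) ^ n := by
    rw [Finset.mul_sum]
    refine Finset.sum_le_sum fun i hi => ?_
    have h6 := hpow i (Finset.mem_range.mp hi).le
    have h7 := na_mono_E (cubeE m) E hE i x y
    have h8 := na_nonneg E i x y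
    calc p ^ i * na E i x y ≤ 3 / ((m : ℝ) - 1) ^ i * na (cubeE m) i x y :=
          mul_le_mul h6 h7 h8 (by have := pow_pos hM i; positivity)
      _ = _ := by ring
  have hB : p ^ TN m * ∑ z, na E (TN m) x z * tau E p z y ≤ 12 * chi E p y / 2 ^ m := by
    have h6 : ∀ z, p ^ TN m * (na E (TN m) x z * tau E p z y) ≤ 12 / 2 ^ m * tau E p y z := by
      intro z
      rw [xb_tau_comm E p z y, ← mul_assoc]
      refine mul_le_mul_of_nonneg_right ?_ (xb_tau_nonneg E p h0 hp1 y z)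
      have h7 := h4 (TN m) (by omega) x z
      have h8 := na_mono_E (cubeE m) E hE (TN m) x z
      have h9 := na_nonneg E (TN m) x z
      have h10 := hpow (TN m) le_rfl
      have hpp := pow_pos hM (TN m)
      calc p ^ TN m * na E (TN m) x z ≤ 3 / ((m : ℝ) - 1) ^ TN m * (4 * ((m : ℝ) - 1) ^ TN m / 2 ^ m) :=
            mul_le_mul h10 (h8.trans h7) h9 (by positivity)
        _ = 12 / 2 ^ m := by
            field_simp
            norm_num
    rw [Finset.mul_sum]
    refine (Finset.sum_le_sum fun z _ => h6 z).trans (le_of_eq ?_)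
    rw [← Finset.mul_sum, ← xb_chi_sum]
    ring
  have hchi : 0 ≤ chi E p y := zero_le_one.trans (xb_chi_ge_one E p h0 hp1 y)
  have h12 : (60 : ℝ) * (TN m + chi E p y) / 2 ^ m =
      3 * (20 * TN m / 2 ^ m) + 12 * chi E p y / 2 ^ m + 48 * chi E p y / 2 ^ m := by ring
  have h13 : (0 : ℝ) ≤ 48 * chi E p y / 2 ^ m := by positivity
  rw [h12]
  linarith

end Pool.Agent.Work.MP_b7dc8a_pr
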