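import Pool.Agent.Work.MP_b7dc8a_pr.F.DefG
import Pool.Agent.Work.MP_b7dc8a_pr.F.Taun
import Pool.Agent.Work.MP_b7dc8a_pr.F.Locb

/-! Module TRI (S-M): bound for the triangle diagram. Let `X` bound `chi`, `TN m <= X`; `taun` gives
`tau x y <= 3 Loc_0(x,y) + 120 X/2^m`. In `tri x y = ∑ tau x u tau u w tau w y` replace successively
(all terms are nonnegative; `∑_y tau x y = chi x <= X`, `∑_x tau x y <= X`, `∑_y Loc_0 <= TN`,
`∑_y Loc_1 <= (2 TN)^2`, `loc_sum`; `loc_conv`):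
`tri <= 3 ∑ Loc_0(x,u) tau u w tau w y + 120 X^3/2^m`,
`∑ Loc_0(x,u) tau u w tau w y <= 3 ∑ Loc_1(x,w) tau w y + 120 TN X^2/2^m`,
`∑ Loc_1(x,w) tau w y <= 3 Loc_2(x,y) + 120 (2 TN)^2 X/2^m`.
Total `<= 27 Loc_2(x,y) + 120 X^3/2^m + 360 TN X^2/2^m + 1080 (2 TN)^2 X/2^m`. `Loc_2(x,y) <= C/m`
(`loc_off`), and the last two terms are at most a constant times `X^3/2^m` since `TN m <= X`. -/

namespace Pool.Agent.Work.MP_b7dc8a_pr

open Finset

/-- one replacement step: `∑_u K u * t u w <= 3 ∑_u K u * L u w + ε ∑_u K u` -/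
private theorem rep_step {V : Type} [Fintype V] (K t L : V → ℝ) (ε : ℝ) (hK : ∀ u, 0 ≤ K u)
    (h : ∀ u, t u ≤ 3 * L u + ε) :
    ∑ u, K u * t u ≤ 3 * ∑ u, K u * L u + ε * ∑ u, K u := by
  rw [Finset.mul_sum, Finset.mul_sum, ← Finset.sum_add_distrib]
  refine Finset.sum_le_sum fun u _ => ?_
  have := mul_le_mul_of_nonneg_left (h u) (hK u)
  linarith

theorem tri_bound : ∃ (C : ℝ) (m0 : ℕ), 0 < C ∧ ∀ m ≥ m0, ∀ p X : ℝ, 0 ≤ p →
    p * ((m : ℝ) - 1) ≤ 1 + 1 / TN m → (∀ x, chi (cubeE m) p x ≤ X) → (TN m : ℝ) ≤ X →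
    X ≤ (2 : ℝ) ^ (2 * (m : ℝ) / 5) → ∀ x y : Q m, x ≠ y →
    tri (cubeE m) p x y ≤ C / m + C * X ^ 3 / 2 ^ m := by
  obtain ⟨C2, m2, hC2, hoff⟩ := loc_off 2
  obtain ⟨m1, htaun⟩ := taun
  refine ⟨27 * C2 + 4800, max (max m1 m2) 3, by positivity, fun m hm p X h0 hp hX hTX _ x y hxy => ?_⟩
  have hm1 : m1 ≤ m := ((le_max_left _ _).trans (le_max_left _ _)).trans hm
  have hm2 : m2 ≤ m := ((le_max_right _ _).trans (le_max_left _ _)).trans hm
  have hm3 : 3 ≤ m := (le_max_right _ _).trans hm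
  have hmR : (3 : ℝ) ≤ m := by exact_mod_cast hm3
  have hm0 : (0 : ℝ) < m := by linarith
  have hTN0 : (0 : ℝ) ≤ TN m := Nat.cast_nonneg _
  have hTN1 : (1 : ℝ) / TN m ≤ 1 := by
    rcases Nat.eq_zero_or_pos (TN m) with h | h
    · rw [h]; norm_num
    · have : (1 : ℝ) ≤ TN m := by exact_mod_cast h
      rw [div_le_one (by linarith)]
      exact this
  have hp1 : p ≤ 1 := by nlinarith
  have hX0 : 0 ≤ X := hTN0.trans hTX
  set ε : ℝ := 120 * X / 2 ^ m with hε
  have hε0 : 0 ≤ ε := by positivity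
  have h1 : ∀ a b : Q m, tau (cubeE m) p a b ≤ 3 * Loc m 0 a b + ε := by
    intro a b
    refine (htaun m hm1 (cubeE m) p (Finset.Subset.refl _) h0 hp a b).trans ?_
    have h2 : 60 * ((TN m : ℝ) + chi (cubeE m) p b) / 2 ^ m ≤ ε := by
      rw [hε]
      refine div_le_div_of_nonneg_right ?_ (by positivity)
      linarith [hX b]
    linarith
  have htau0 : ∀ a b : Q m, 0 ≤ tau (cubeE m) p a b := fun a b => xb_tau_nonneg _ p h0 hp1 a b
  have hsum : ∀ a : Q m, ∑ b, tau (cubeE m) p a b ≤ X := by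
    intro a
    rw [← xb_chi_sum]
    exact hX a
  have hsum' : ∀ b : Q m, ∑ a, tau (cubeE m) p a b ≤ X := by
    intro b
    refine le_trans (le_of_eq ?_) (hsum b)
    exact Finset.sum_congr rfl fun a _ => xb_tau_comm _ _ _ _
  -- sums of Loc
  have hL0 : ∑ u, Loc m 0 x u ≤ TN m := by
    have := loc_sum m 0 (by omega) x
    simpa using this
  have hL1 : ∑ u, Loc m 1 x u ≤ (2 * (TN m : ℝ)) ^ 2 := by
    have := loc_sum m 1 (by omega) x
    norm_num at this ⊢
    exact this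
  -- step 3
  have s3 : ∑ w, Loc m 1 x w * tau (cubeE m) p w y ≤
      3 * Loc m 2 x y + ε * (2 * (TN m : ℝ)) ^ 2 := by
    refine (rep_step (fun w => Loc m 1 x w) (fun w => tau (cubeE m) p w y)
      (fun w => Loc m 0 w y) ε (fun w => loc_nonneg _ _ _ _) (fun w => h1 w y)).trans ?_
    have h2 := loc_conv m 1 0 (by omega) x y
    have h3 := mul_le_mul_of_nonneg_left hL1 hε0
    linarith
  -- step 2
  have s2 : ∑ w, (∑ u, Loc m 0 x u * tau (cubeE m) p u w) * tau (cubeE m) p w y ≤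
      3 * ∑ w, Loc m 1 x w * tau (cubeE m) p w y + ε * (TN m * X) := by
    have h2 : ∀ w, (∑ u, Loc m 0 x u * tau (cubeE m) p u w) * tau (cubeE m) p w y ≤
        3 * (Loc m 1 x w * tau (cubeE m) p w y) + ε * (TN m * tau (cubeE m) p w y) := by
      intro w
      have h3 := rep_step (fun u => Loc m 0 x u) (fun u => tau (cubeE m) p u w)
        (fun u => Loc m 0 u w) ε (fun w => loc_nonneg _ _ _ _) (fun u => h1 u w)
      have h4 := loc_conv m 0 0 (by omega) x w
      have h5 := mul_le_mul_of_nonneg_left hL0 hε0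
      have h6 : ∑ u, Loc m 0 x u * tau (cubeE m) p u w ≤ 3 * Loc m 1 x w + ε * TN m := by
        simp only [zero_add] at h4
        linarith
      have h7 := mul_le_mul_of_nonneg_right h6 (htau0 w y)
      linarith
    refine (Finset.sum_le_sum fun w _ => h2 w).trans ?_
    rw [Finset.sum_add_distrib, ← Finset.mul_sum, ← Finset.mul_sum, ← Finset.mul_sum]
    have h8 := mul_le_mul_of_nonneg_left (mul_le_mul_of_nonneg_left (hsum' y) hTN0) hε0
    linarith
  -- step 1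
  have s1 : tri (cubeE m) p x y ≤
      3 * ∑ w, (∑ u, Loc m 0 x u * tau (cubeE m) p u w) * tau (cubeE m) p w y + ε * (X * X) := by
    unfold tri
    rw [Finset.sum_comm]
    have h2 : ∀ w, ∑ u, tau (cubeE m) p x u * tau (cubeE m) p u w * tau (cubeE m) p w y ≤
        3 * ((∑ u, Loc m 0 x u * tau (cubeE m) p u w) * tau (cubeE m) p w y) +
          ε * (X * tau (cubeE m) p w y) := by
      intro w
      rw [← Finset.sum_mul]
      have h3 := rep_step (fun u => tau (cubeE m) p u w) (fun u => tau (cubeE m) p x u)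
        (fun u => Loc m 0 x u) ε (fun u => htau0 _ _) (fun u => h1 x u)
      have h4 : ∑ u, tau (cubeE m) p x u * tau (cubeE m) p u w =
          ∑ u, tau (cubeE m) p u w * tau (cubeE m) p x u :=
        Finset.sum_congr rfl fun u _ => mul_comm _ _
      have h5 : ∑ u, tau (cubeE m) p u w * Loc m 0 x u =
          ∑ u, Loc m 0 x u * tau (cubeE m) p u w :=
        Finset.sum_congr rfl fun u _ => mul_comm _ _
      have h6 := mul_le_mul_of_nonneg_left (hsum' w) hε0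
      have h7 : ∑ u, tau (cubeE m) p x u * tau (cubeE m) p u w ≤
          3 * (∑ u, Loc m 0 x u * tau (cubeE m) p u w) + ε * X := by
        rw [h4]
        rw [h5] at h3
        linarith
      have h8 := mul_le_mul_of_nonneg_right h7 (htau0 w y)
      linarith
    refine (Finset.sum_le_sum fun w _ => h2 w).trans ?_
    rw [Finset.sum_add_distrib, ← Finset.mul_sum, ← Finset.mul_sum, ← Finset.mul_sum]
    have h8 := mul_le_mul_of_nonneg_left (mul_le_mul_of_nonneg_left (hsum' y) hX0) hε0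
    linarith
  -- conclusion
  have e1 : (TN m : ℝ) * X ≤ X ^ 2 := by nlinarith
  have e2 : (2 * (TN m : ℝ)) ^ 2 ≤ 4 * X ^ 2 := by nlinarith
  have e3 := mul_le_mul_of_nonneg_left e1 hε0
  have e4 := mul_le_mul_of_nonneg_left e2 hε0
  have e5 := hoff m hm2 x y hxy
  have e6 : tri (cubeE m) p x y ≤ 27 * Loc m 2 x y + 40 * (ε * X ^ 2) := by
    nlinarith
  have e7 : ε * X ^ 2 = 120 * X ^ 3 / 2 ^ m := by
    rw [hε]; ring
  rw [e7] at e6
  have e8 : 0 ≤ C2 * X ^ 3 / 2 ^ m := by positivity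
  have e9 : 0 ≤ 4800 / (m : ℝ) := by positivity
  have e10 : (27 * C2 + 4800) / (m : ℝ) + (27 * C2 + 4800) * X ^ 3 / 2 ^ m =
      27 * (C2 / m) + 4800 / m + (27 * (C2 * X ^ 3 / 2 ^ m) + 40 * (120 * X ^ 3 / 2 ^ m)) := by
    ring
  rw [e10]
  linarith

end Pool.Agent.Work.MP_b7dc8a_pr
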