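import Pool.Agent.Work.MP_b7dc8a_pr.F.DefZ
import Pool.Agent.Work.MP_b7dc8a_pr.F.Bpm
import Pool.Agent.Work.MP_b7dc8a_pr.F.Tri
import Pool.Agent.Work.MP_b7dc8a_pr.F.Ba
import Pool.Agent.Work.MP_b7dc8a_pr.F.Mhd
import Pool.Agent.Work.MP_b7dc8a_pr.B.Choff

/-! Module BAS (S-M): existence of the base point.

`X = δ V^(1/3)`, `V = 2^m`; `X >= 2`, `X >= TN m`, `X <= 2^(2m/5)` for large `m` (`TN m = 4 TT m <= 4 m^2`, `xn_TT`).
`b_chip` with `pc`, `X`: `pa <= pc`, `chi pa = X` everywhere, `1 - 1/X <= pa m` (so `1/2 <= pa m`), and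
`pa m <= pc m <= 1 + 5000 dl m <= 11/10`. `bpm_up`: `hup2`, and `log^5 m/m^2 <= 1/TN m` for large `m`.
`tri_bound`: for `x ≠ y`: `tri <= C/m + C δ^3 <= 1/100` if `δ <= δ*`, `C δ*^3 <= 1/200`, `m` large. `ba`:
`mo * Mh <= 2000` for `0 <= h <= 1/2`, and `mh_sq` with `B = 2000`. -/

namespace Pool.Agent.Work.MP_b7dc8a_pr

open Finset

private theorem bas_log : ∃ m0 : ℕ, ∀ m ≥ m0, 8 * Real.log m ^ 6 ≤ (m : ℝ) := by
  have h : Filter.Tendsto (fun x : ℝ => Real.log x ^ 6 / x) Filter.atTop (nhds 0) := by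
    have := (Real.isLittleO_pow_log_id_atTop (n := 6)).tendsto_div_nhds_zero
    simpa using this
  have h2 := (h.comp tendsto_natCast_atTop_atTop)
  have h3 := h2.eventually (gt_mem_nhds (show (0 : ℝ) < 1 / 8 by norm_num))
  obtain ⟨m0, hm0⟩ := Filter.eventually_atTop.1 h3
  refine ⟨max m0 1, fun m hm => ?_⟩
  have h4 := hm0 m ((le_max_left _ _).trans hm)
  have h5 : 1 ≤ m := (le_max_right _ _).trans hm
  have h6 : (0 : ℝ) < m := by exact_mod_cast h5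
  simp only [Function.comp_apply] at h4
  rw [div_lt_iff₀ h6] at h4
  linarith

theorem bas : ∃ δ1 : ℝ, 0 < δ1 ∧ ∀ δ : ℝ, 0 < δ → δ ≤ δ1 → ∃ m0 : ℕ, ∀ m ≥ m0, ∀ pc : ℝ,
    0 ≤ pc → pc ≤ 1 → pc * m ≤ 1 + 5000 * dl m →
    δ * ((2 : ℝ) ^ m) ^ (1 / 3 : ℝ) ≤ chi (cubeE m) pc (fun _ => false) →
    ∃ pa : ℝ, 0 < pa ∧ pa ≤ pc ∧ Bas δ m pa := by
  obtain ⟨C, mT, hC, htri⟩ := tri_bound
  obtain ⟨mB, hba⟩ := ba
  obtain ⟨mU, hup⟩ := bpm_up
  obtain ⟨mD, hD⟩ := xn_dl 5000 (1 / 10) (by norm_num)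
  obtain ⟨mL, hL⟩ := bas_log
  refine ⟨min 1 (1 / (200 * C)), by positivity, ?_⟩
  intro δ hδ hδ1
  have hδle1 : δ ≤ 1 := hδ1.trans (min_le_left _ _)
  have hδC : C * δ ≤ 1 / 200 := by
    have h1 : δ ≤ 1 / (200 * C) := hδ1.trans (min_le_right _ _)
    have h2 := mul_le_mul_of_nonneg_left h1 hC.le
    have h3 : C * (1 / (200 * C)) = 1 / 200 := by field_simp
    linarith
  have hr3 : (1 : ℝ) < (2 : ℝ) ^ ((1 : ℝ) / 3) := Real.one_lt_rpow (by norm_num) (by norm_num)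
  obtain ⟨mP, hPoly⟩ := xn_poly 2 (4 / δ) 1 one_pos
  obtain ⟨mE, hExp⟩ := xn_exp 1 ((2 : ℝ) ^ ((1 : ℝ) / 3)) hr3
  refine ⟨max (max (max mT mB) (max mU mD)) (max (max mL mP) (max mE (max 3 ⌈200 * C⌉₊))), ?_⟩
  intro m hm pc hpc0 hpc1 hpcm hchi
  simp only [ge_iff_le, max_le_iff] at hm
  obtain ⟨⟨⟨hmT, hmB⟩, hmU, hmD⟩, ⟨hmL, hmP⟩, hmE, hm3, hmC⟩ := hm
  have hm3' : (3 : ℝ) ≤ m := by exact_mod_cast hm3
  have hm0 : (0 : ℝ) < m := by linarith
  have hmC' : 200 * C ≤ (m : ℝ) := le_trans (Nat.le_ceil _) (by exact_mod_cast hmC)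
  set V : ℝ := 2 ^ m with hV
  have hVpos : 0 < V := by positivity
  set t : ℝ := V ^ (1 / 3 : ℝ) with ht
  have htpos : 0 < t := Real.rpow_pos_of_pos hVpos _
  have ht3 : t ^ 3 = V := by
    rw [ht, ← Real.rpow_natCast, ← Real.rpow_mul hVpos.le]; norm_num
  have htm : ((2 : ℝ) ^ ((1 : ℝ) / 3)) ^ m = t := by
    rw [ht, hV, ← Real.rpow_natCast, ← Real.rpow_mul (by norm_num), ← Real.rpow_natCast,
      ← Real.rpow_mul (by norm_num)]
    congr 1; ring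
  set X : ℝ := δ * t with hX
  have h4m : 4 * (m : ℝ) ^ 2 ≤ X := by
    have h1 := (hPoly m hmP).trans (hExp m hmE)
    rw [htm, div_mul_eq_mul_div, div_le_iff₀ hδ] at h1
    rw [hX]; linarith
  have hX2 : 2 ≤ X := by nlinarith
  have hX1 : 1 ≤ X := by linarith
  have hTT := xn_TT m (by omega)
  have hTN : (TN m : ℝ) ≤ X := by
    have : (TN m : ℝ) = 4 * (TT m : ℝ) := by unfold TN; push_cast; ring
    rw [this]; linarith [hTT.2.2]
  have hXup : X ≤ (2 : ℝ) ^ (2 * (m : ℝ) / 5) := by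
    have h1 : X ≤ t := by rw [hX]; nlinarith
    have h2 : t = (2 : ℝ) ^ ((m : ℝ) / 3) := by
      rw [ht, hV, ← Real.rpow_natCast, ← Real.rpow_mul (by norm_num)]
      congr 1; ring
    have h3 : (2 : ℝ) ^ ((m : ℝ) / 3) ≤ (2 : ℝ) ^ (2 * (m : ℝ) / 5) := by
      apply Real.rpow_le_rpow_of_exponent_le (by norm_num)
      linarith
    linarith
  obtain ⟨pa, hpa0, hpapc, hpachi, hpam⟩ := b_chip m (by omega) pc X hpc0 hpc1 hX1
    (fun _ => false) hchi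
  have hpal : 1 / 2 ≤ pa * m := by
    have : 1 / X ≤ 1 / 2 := by
      rw [div_le_div_iff₀ (by linarith) (by norm_num)]; linarith
    linarith
  have hpapos : 0 < pa := by
    by_contra h
    push Not at h
    nlinarith
  have hpau : pa * m ≤ 1 + 5000 * dl m :=
    (mul_le_mul_of_nonneg_right hpapc hm0.le).trans hpcm
  have hd := hD m hmD
  have hpa1 : pa ≤ 1 := hpapc.trans hpc1
  have hup2 := hup m hmU pa (fun _ => false) hpa0 hpau (by rw [hpachi]; exact hXup)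
  have hTNpos : (0 : ℝ) < TN m := by
    have h1 : (TN m : ℝ) = 4 * (TT m : ℝ) := by unfold TN; push_cast; ring
    have h2 := xn_log m hm3
    have h3 : (1 : ℝ) ≤ m * Real.log m := by nlinarith
    rw [h1]; linarith [hTT.1]
  have hlogT : Real.log m ^ 5 / (m : ℝ) ^ 2 ≤ 1 / TN m := by
    have h1 : (TN m : ℝ) = 4 * (TT m : ℝ) := by unfold TN; push_cast; ring
    have h2 := xn_log m hm3
    have h3 : (1 : ℝ) ≤ m * Real.log m := by nlinarith
    have h4 : (TN m : ℝ) ≤ 8 * (m * Real.log m) := by rw [h1]; linarith [hTT.2.1]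
    rw [div_le_div_iff₀ (by positivity) hTNpos]
    have h5 := hL m hmL
    have h6 : (0 : ℝ) ≤ Real.log m ^ 5 := by positivity
    calc Real.log m ^ 5 * (TN m : ℝ) ≤ Real.log m ^ 5 * (8 * (m * Real.log m)) :=
          mul_le_mul_of_nonneg_left h4 h6
      _ = (8 * Real.log m ^ 6) * m := by ring
      _ ≤ (m : ℝ) * m := mul_le_mul_of_nonneg_right h5 hm0.le
      _ = 1 * (m : ℝ) ^ 2 := by ring
  have htr : ∀ x y : Q m, x ≠ y → tri (cubeE m) pa x y ≤ 1 / 100 := by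
    intro x y hxy
    have h1 := htri m hmT pa X hpa0 (hup2.trans (by linarith)) (fun x => (hpachi x).le) hTN hXup
      x y hxy
    have h2 : C / m ≤ 1 / 200 := by
      rw [div_le_div_iff₀ hm0 (by norm_num)]; linarith
    have h3 : C * X ^ 3 / 2 ^ m = C * δ ^ 3 := by
      have : X ^ 3 = δ ^ 3 * V := by rw [hX, mul_pow, ht3]
      rw [this, ← hV]; field_simp
    have h4 : δ ^ 3 ≤ δ := by
      calc δ ^ 3 ≤ δ ^ 1 := pow_le_pow_of_le_one hδ.le hδle1 (by norm_num)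
        _ = δ := pow_one δ
    have h5 : C * δ ^ 3 ≤ C * δ := mul_le_mul_of_nonneg_left h4 hC.le
    rw [h3] at h1
    linarith
  refine ⟨pa, hpapos, hpapc, hpal, hpau, hup2, hpachi, ?_⟩
  intro h x hh0 hh2
  have h1 := mh_sq (cubeE m) pa 2000 hpa0 hpa1 x
    (fun h' h0' h2' => hba m hmB pa h' hpal (by linarith) h0' h2' htr x) h hh0 hh2
  linarith

end Pool.Agent.Work.MP_b7dc8a_pr
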