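import Pool.Agent.Work.MP_b7dc8a_pr.F.Extr

/-! Module UB (S-M): upper bounds for the magnetization above the base point `pa`, `p = pa (1+e)`.

`ub`: `M2 = Mh p h x`, `2 m (p - pa) = 2 (pa m) e <= 4 e`. `extr` (`h + 4 e M2 <= 1/4 + 1/4`), `mh_mono_h`:
`M2 <= Mh pa (h + 4 e M2)`, `M2^2 <= 4 B (h + 4 e M2)`, so `M2 <= 2 sqrt (B h) + 16 B e`
(`x^2 <= a + b x` implies `x <= sqrt a + b`, `a, b, x >= 0`).
`ub_tail`: with `h = 1/(4k) <= 1/4`: `Mh p h x >= (1 - (1-h)^k) P(|C| >= k)` and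
`(1 - 1/(4k))^k <= exp (-1/4) <= 4/5`. So `P(|C| >= k) <= 5 (2 sqrt (B/(4k)) + 16 B e)`. -/

namespace Pool.Agent.Work.MP_b7dc8a_pr

open Finset

theorem ub (m : ℕ) (pa e B : ℝ) (h0 : 0 ≤ pa) (ham : pa * m ≤ 2) (he0 : 0 ≤ e)
    (he1 : e ≤ 1 / 16) (hp : pa * (1 + e) ≤ 1 / 2) (hB0 : 0 ≤ B) (x : Q m)
    (hB : ∀ h, 0 ≤ h → h ≤ 1 / 2 → Mh (cubeE m) pa h x ^ 2 ≤ 4 * B * h) (h : ℝ) (hh0 : 0 ≤ h)
    (hh1 : h ≤ 1 / 4) :
    Mh (cubeE m) (pa * (1 + e)) h x ≤ 2 * Real.sqrt (B * h) + 16 * B * e := by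
  set p := pa * (1 + e) with hp_def
  have hpe : 0 ≤ pa * e := mul_nonneg h0 he0
  have hpa : pa ≤ p := by rw [hp_def]; nlinarith
  have hp0 : 0 ≤ p := h0.trans hpa
  set M2 := Mh (cubeE m) p h x with hM2
  obtain ⟨hM0, hM1⟩ := mh_nonneg (cubeE m) p h hp0 (by linarith) hh0 (by linarith) x
  rw [← hM2] at hM0 hM1
  have hc : 2 * m * (p - pa) * M2 ≤ 4 * e * M2 := by
    apply mul_le_mul_of_nonneg_right _ hM0
    have : 2 * m * (p - pa) = 2 * (pa * m) * e := by rw [hp_def]; ring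
    rw [this]
    nlinarith
  have hc0 : 0 ≤ 2 * m * (p - pa) * M2 := by
    apply mul_nonneg _ hM0
    apply mul_nonneg (by positivity)
    linarith
  have hc1 : 4 * e * M2 ≤ 1 / 4 := by nlinarith
  have h1 := extr m pa p h h0 hpa hp hh0 x (by rw [← hM2]; linarith) (by linarith)
  rw [← hM2] at h1
  have h2 := hB (h + 2 * m * (p - pa) * M2) (by linarith) (by linarith)
  have h3 : M2 ^ 2 ≤ 4 * B * (h + 4 * e * M2) := by
    have h4 : M2 ^ 2 ≤ Mh (cubeE m) pa (h + 2 * m * (p - pa) * M2) x ^ 2 :=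
      pow_le_pow_left₀ hM0 h1 2
    have h5 : 4 * B * (h + 2 * m * (p - pa) * M2) ≤ 4 * B * (h + 4 * e * M2) :=
      mul_le_mul_of_nonneg_left (by linarith) (by positivity)
    linarith
  set s := Real.sqrt (B * h) with hs
  have hs0 : 0 ≤ s := Real.sqrt_nonneg _
  have hss : s * s = B * h := Real.mul_self_sqrt (mul_nonneg hB0 hh0)
  have hBe : 0 ≤ 16 * B * e := by positivity
  by_contra hcon
  push Not at hcon
  -- M2 > 2 s + 16 B e
  have h6 : M2 * (M2 - 16 * B * e) ≤ 4 * (s * s) := by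
    rw [hss]
    nlinarith
  have h7 : 2 * s < M2 - 16 * B * e := by linarith
  have h8 : 2 * s < M2 := by linarith
  have h9 : 2 * s * (2 * s) < M2 * (M2 - 16 * B * e) :=
    mul_lt_mul'' h8 h7 (by positivity) (by positivity)
  linarith

theorem ub_tail (m : ℕ) (pa e B : ℝ) (h0 : 0 ≤ pa) (ham : pa * m ≤ 2) (he0 : 0 ≤ e)
    (he1 : e ≤ 1 / 16) (hp : pa * (1 + e) ≤ 1 / 2) (hB0 : 0 ≤ B) (x : Q m)
    (hB : ∀ h, 0 ≤ h → h ≤ 1 / 2 → Mh (cubeE m) pa h x ^ 2 ≤ 4 * B * h) (k : ℕ) (hk : 1 ≤ k) :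
    Ex (cubeE m) (pa * (1 + e)) (fun ω => ind (k ≤ (cl ω x).card)) ≤
      5 * Real.sqrt (B / k) + 80 * B * e := by
  have hk0 : (1 : ℝ) ≤ k := by exact_mod_cast hk
  set h : ℝ := 1 / (4 * k) with hh
  have hh0 : 0 ≤ h := by positivity
  have hh1 : h ≤ 1 / 4 := by
    rw [hh]
    exact one_div_le_one_div_of_le (by norm_num) (by linarith)
  have h1 := ub m pa e B h0 ham he0 he1 hp hB0 x hB h hh0 hh1
  set p := pa * (1 + e) with hp_def
  have hp0 : 0 ≤ p := by positivity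
  have hp1 : p ≤ 1 := by linarith
  have h2 : Real.sqrt (B * h) = Real.sqrt (B / k) / 2 := by
    have h3 : B * h = (B / k) / 2 ^ 2 := by
      rw [hh]
      field_simp
      norm_num
    rw [h3, Real.sqrt_div (by positivity), Real.sqrt_sq (by norm_num)]
  rw [h2] at h1
  have h4 : (1 - h) ^ k ≤ 4 / 5 := by
    have h5 : 1 - h ≤ Real.exp (-h) := by
      have := Real.add_one_le_exp (-h)
      linarith
    have h6 : (1 - h) ^ k ≤ Real.exp (-h) ^ k := pow_le_pow_left₀ (by linarith) h5 k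
    have h7 : Real.exp (-h) ^ k = (Real.exp (1 / 4))⁻¹ := by
      rw [← Real.exp_nat_mul, ← Real.exp_neg]
      congr 1
      rw [hh]
      field_simp
    rw [h7] at h6
    have h8 : (5 : ℝ) / 4 ≤ Real.exp (1 / 4) := by
      have := Real.add_one_le_exp (1 / 4 : ℝ)
      linarith
    have h9 : (Real.exp (1 / 4))⁻¹ ≤ (5 / 4 : ℝ)⁻¹ := inv_anti₀ (by norm_num) h8
    have h10 : ((5 : ℝ) / 4)⁻¹ = 4 / 5 := by norm_num
    linarith
  have h5 : 1 / 5 * Ex (cubeE m) p (fun ω => ind (k ≤ (cl ω x).card)) ≤ Mh (cubeE m) p h x := by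
    have e1 : Mh (cubeE m) p h x = Ex (cubeE m) p (fun ω => 1 - (1 - h) ^ (cl ω x).card) := by
      unfold Mh
      rw [Ex_sub (cubeE m) p (fun _ => 1), Ex_const]
    rw [← Ex_mul_left, e1]
    refine Ex_mono (cubeE m) p hp0 hp1 _ _ fun ω _ => ?_
    unfold ind
    have h6 : (1 - h) ^ (cl ω x).card ≤ 1 := pow_le_one₀ (by linarith) (by linarith)
    split_ifs with hc
    · have h7 : (1 - h) ^ (cl ω x).card ≤ (1 - h) ^ k :=
        pow_le_pow_of_le_one (by linarith) (by linarith) hc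
      linarith
    · linarith
  linarith

end Pool.Agent.Work.MP_b7dc8a_pr
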