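import Pool.Agent.Work.MP_b7dc8a_pr.F.DefZ
import Pool.Agent.Work.MP_b7dc8a_pr.F.Ub
import Pool.Agent.Work.MP_b7dc8a_pr.B.Xn

/-! Module BFT (S-M): simple facts for `pa <= p <= pa (1 + 2e)`.

`Mh` and the tail are monotone in `p` (`Ex_mono_p`, Joint.lean): compare with `pa (1 + 2e)`; `ub`, `ub_tail` with
`e := 2e <= 1/16`, `B = 2000` (`Bas.hM`: `Mh^2 <= 8000 h = 4 B h`): `Mh <= 2 sqrt (2000 h) + 64000 e`, tail
`<= 5 sqrt (2000/j) + 320000 e`; `sqrt 2000 <= 45`.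
`p m <= (1 + 5000 dl m)(1 + 2e) <= 3/2`, `p <= 1/2`; `p (m-1) <= (1 + log^5 m/m^2)(1 + 2 e) <= 1 + 1/TN m` for large `m`
(`e <= 2^(-m/36)`, `TN m <= 4 (m log m + 1)`); `(1-p)^m >= 1/4`: `p m <= 11/10`, `(1 - p)^m >= exp (- p m/(1-p))`,
or `(1 - 11/(10 m))^m >= 1/4` for large `m` (the limit is `exp (-11/10) = 0.33`). -/

namespace Pool.Agent.Work.MP_b7dc8a_pr

open Finset

/-- `(m log m + 1) log^5 m / m^2` is small -/
private theorem bft_a : ∃ m0 : ℕ, ∀ m ≥ m0,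
    Real.log m ^ 5 / (m : ℝ) ^ 2 * (8 * (m * Real.log m + 1)) ≤ 1 := by
  have h : Filter.Tendsto (fun x : ℝ => Real.log x ^ 6 / x) Filter.atTop (nhds 0) := by
    have := (Real.isLittleO_pow_log_id_atTop (n := 6)).tendsto_div_nhds_zero
    simpa using this
  have h2 := (h.comp tendsto_natCast_atTop_atTop).eventually (gt_mem_nhds (show (0 : ℝ) < 1 / 16
    by norm_num))
  obtain ⟨m0, hm0⟩ := Filter.eventually_atTop.1 h2
  refine ⟨max m0 3, fun m hm => ?_⟩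
  have h3 := (hm0 m ((le_max_left _ _).trans hm)).le
  have hm3 : 3 ≤ m := (le_max_right _ _).trans hm
  have hm3' : (3 : ℝ) ≤ m := by exact_mod_cast hm3
  have hlog := xn_log m hm3
  simp only [Function.comp] at h3
  rw [div_le_iff₀ (by positivity)] at h3
  rw [div_mul_eq_mul_div, div_le_iff₀ (by positivity)]
  have h4 : (m : ℝ) * Real.log m + 1 ≤ 2 * (m * Real.log m) := by nlinarith
  have h5 : 0 ≤ Real.log m ^ 5 := by positivity
  calc Real.log m ^ 5 * (8 * (m * Real.log m + 1))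
      ≤ Real.log m ^ 5 * (8 * (2 * (m * Real.log m))) := by gcongr
    _ = 16 * m * Real.log m ^ 6 := by ring
    _ ≤ 16 * m * (1 / 16 * m) := by gcongr
    _ = 1 * (m : ℝ) ^ 2 := by ring

/-- `m^2 2^(-m/36)` is small -/
private theorem bft_b (c : ℝ) (hc : 0 < c) : ∃ m0 : ℕ, ∀ m ≥ m0,
    (2 : ℝ) ^ (-(m : ℝ) / 36) * (m : ℝ) ^ 2 ≤ c := by
  have h : Filter.Tendsto (fun x : ℝ => x ^ (2 : ℝ) * Real.exp (-(Real.log 2 / 36) * x))
      Filter.atTop (nhds 0) :=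
    tendsto_rpow_mul_exp_neg_mul_atTop_nhds_zero 2 _ (by positivity)
  have h2 := (h.comp tendsto_natCast_atTop_atTop).eventually (gt_mem_nhds hc)
  obtain ⟨m0, hm0⟩ := Filter.eventually_atTop.1 h2
  refine ⟨m0, fun m hm => ?_⟩
  have h3 := (hm0 m hm).le
  simp only [Function.comp] at h3
  have h4 : (2 : ℝ) ^ (-(m : ℝ) / 36) = Real.exp (-(Real.log 2 / 36) * m) := by
    rw [Real.rpow_def_of_pos (by norm_num)]
    congr 1
    ring
  rw [h4, mul_comm]
  have h5 : (m : ℝ) ^ (2 : ℝ) = (m : ℝ) ^ 2 := by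
    rw [← Real.rpow_natCast]
    norm_num
  rw [← h5]
  exact h3

private theorem bft_Mh_mono {m : ℕ} (p p' h : ℝ) (h0 : 0 ≤ p) (hp : p ≤ p') (h1 : p' ≤ 1)
    (hh0 : 0 ≤ h) (hh1 : h ≤ 1) (x : Q m) : Mh (cubeE m) p h x ≤ Mh (cubeE m) p' h x := by
  have e1 : ∀ q : ℝ, Mh (cubeE m) q h x = Ex (cubeE m) q (fun ω => 1 - (1 - h) ^ (cl ω x).card) := by
    intro q
    unfold Mh
    rw [Ex_sub (cubeE m) q (fun _ => 1), Ex_const]
  rw [e1, e1]
  refine Ex_mono_p _ p p' h0 hp h1 _ fun ω ω' hω _ => ?_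
  have h2 : (1 - h) ^ (cl ω' x).card ≤ (1 - h) ^ (cl ω x).card :=
    pow_le_pow_of_le_one (by linarith) (by linarith) (card_le_card (cl_mono _ _ hω x))
  linarith

private theorem bft_pow (m : ℕ) (p : ℝ) (_h0 : 0 ≤ p) (h1 : p ≤ 1 / 50) (hm : p * m ≤ 11 / 10) :
    1 / 4 ≤ (1 - p) ^ m := by
  have h2 : 0 < 1 - p := by linarith
  have h3 : Real.exp (-(p / (1 - p))) ≤ 1 - p := by
    have h4 := Real.add_one_le_exp (p / (1 - p))
    have h5 : p / (1 - p) + 1 = (1 - p)⁻¹ := by field_simp; ring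
    rw [h5] at h4
    rw [Real.exp_neg]
    exact inv_le_of_inv_le₀ h2 h4
  have h6 : Real.exp (-(p / (1 - p))) ^ m ≤ (1 - p) ^ m :=
    pow_le_pow_left₀ (Real.exp_pos _).le h3 m
  refine le_trans ?_ h6
  rw [← Real.exp_nat_mul]
  have h7 : -(9 / 8 : ℝ) ≤ (m : ℝ) * -(p / (1 - p)) := by
    have h8 : (m : ℝ) * (p / (1 - p)) ≤ 9 / 8 := by
      rw [← mul_div_assoc, div_le_iff₀ h2]
      nlinarith
    linarith
  refine le_trans ?_ (Real.exp_le_exp.2 h7)
  have h9 : Real.exp (9 / 8) ≤ 4 := by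
    have e1 : (9 / 8 : ℝ) = 1 + 1 / 8 := by norm_num
    rw [e1, Real.exp_add]
    have e2 := Real.exp_one_lt_d9
    have e3 : Real.exp (1 / 8) ≤ 8 / 7 := by
      have e4 := Real.add_one_le_exp (-(1 / 8) : ℝ)
      rw [Real.exp_neg] at e4
      have e5 : (7 / 8 : ℝ) ≤ (Real.exp (1 / 8))⁻¹ := by linarith
      have e6 := inv_anti₀ (by norm_num) e5
      rw [inv_inv] at e6
      linarith
    have e7 : 0 < Real.exp (1 / 8) := Real.exp_pos _
    nlinarith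
  rw [Real.exp_neg, one_div]
  exact inv_anti₀ (Real.exp_pos _) h9

theorem bft : ∃ m0 : ℕ, ∀ m ≥ m0, ∀ δ pa e p : ℝ, Bas δ m pa → 0 < e →
    e ≤ (2 : ℝ) ^ (-(m : ℝ) / 36) → pa ≤ p → p ≤ pa * (1 + 2 * e) →
    0 < p ∧ p ≤ 1 / 2 ∧ 1 / 2 ≤ p * m ∧ p * m ≤ 11 / 10 ∧ p * ((m : ℝ) - 1) ≤ 1 + 1 / TN m ∧
    1 / 4 ≤ (1 - p) ^ m ∧
    (∀ (j : ℕ) (x : Q m), 1 ≤ j →
      Ex (cubeE m) p (fun ω => ind (j ≤ (cl ω x).card)) ≤ 320000 * (Real.sqrt (1 / j) + e)) ∧
    (∀ (h : ℝ) (x : Q m), 0 ≤ h → h ≤ 1 / 4 →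
      Mh (cubeE m) p h x ≤ 320000 * (Real.sqrt h + e)) := by
  obtain ⟨m1, hm1⟩ := xn_dl 5000 (1 / 50) (by norm_num)
  obtain ⟨m2, hm2⟩ := bft_a
  obtain ⟨m3, hm3⟩ := bft_b (1 / 100) (by norm_num)
  refine ⟨max (max m1 m2) (max m3 60), fun m hm δ pa e p hB he0 he hp1 hp2 => ?_⟩
  have hmm1 : m1 ≤ m := ((le_max_left _ _).trans (le_max_left _ _)).trans hm
  have hmm2 : m2 ≤ m := ((le_max_right _ _).trans (le_max_left _ _)).trans hm
  have hmm3 : m3 ≤ m := ((le_max_left _ _).trans (le_max_right _ _)).trans hm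
  have hmm4 : 60 ≤ m := ((le_max_right _ _).trans (le_max_right _ _)).trans hm
  have hm60 : (60 : ℝ) ≤ m := by exact_mod_cast hmm4
  have k1 := hm1 m hmm1
  have k2 := hm2 m hmm2
  have k3 := hm3 m hmm3
  obtain ⟨hlow, hup, hup2, -, hM⟩ := hB
  have hpa0 : 0 < pa := by
    by_contra hcon
    push Not at hcon
    nlinarith
  have hp0 : 0 < p := lt_of_lt_of_le hpa0 hp1
  have hem : e * (m : ℝ) ^ 2 ≤ 1 / 100 :=
    (mul_le_mul_of_nonneg_right he (by positivity)).trans k3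
  have he1 : e ≤ 1 / 100 := by nlinarith
  have hpam : pa * m ≤ 51 / 50 := by linarith
  have hpm : p * m ≤ 11 / 10 := by
    have h1 : p * m ≤ pa * (1 + 2 * e) * m := mul_le_mul_of_nonneg_right hp2 (by positivity)
    nlinarith
  have hpm2 : pa * (1 + 2 * e) * m ≤ 11 / 10 := by nlinarith
  have hp50 : p ≤ 1 / 50 := by nlinarith
  have hpp50 : pa * (1 + 2 * e) ≤ 1 / 50 := by nlinarith
  have hB2 : ∀ (x : Q m) (h : ℝ), 0 ≤ h → h ≤ 1 / 2 →
      Mh (cubeE m) pa h x ^ 2 ≤ 4 * 2000 * h := by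
    intro x h h0 h1
    have := hM h x h0 h1
    linarith
  have hs : Real.sqrt 2000 ≤ 45 := by
    rw [Real.sqrt_le_left (by norm_num)]
    norm_num
  refine ⟨hp0, by linarith, ?_, hpm, ?_, bft_pow m p hp0.le hp50 hpm, ?_, ?_⟩
  · exact hlow.trans (mul_le_mul_of_nonneg_right hp1 (by positivity))
  · have h1 : p * ((m : ℝ) - 1) ≤ pa * (1 + 2 * e) * ((m : ℝ) - 1) :=
      mul_le_mul_of_nonneg_right hp2 (by linarith)
    have hlog := xn_log m (by omega)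
    set a : ℝ := Real.log m ^ 5 / (m : ℝ) ^ 2 with ha
    have ha0 : 0 ≤ a := by positivity
    have hT := xn_TT m (by omega)
    set T : ℝ := m * Real.log m + 1 with hTdef
    have hT0 : 1 ≤ T := by
      have : 0 ≤ (m : ℝ) * Real.log m := by positivity
      rw [hTdef]; linarith
    have hTm : T ≤ (m : ℝ) ^ 2 := by
      have := Real.log_le_sub_one_of_pos (show (0 : ℝ) < m by linarith)
      rw [hTdef]
      nlinarith
    have ha1 : a * (8 * T) ≤ 1 := k2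
    have heT : e * T ≤ 1 / 100 := (mul_le_mul_of_nonneg_left hTm he0.le).trans hem
    have hTN : (TN m : ℝ) ≤ 4 * T := by
      have : (TN m : ℝ) = 4 * (TT m : ℝ) := by unfold TN; push_cast; ring
      rw [this]
      linarith [hT.2.1]
    have hTN0 : (0 : ℝ) < TN m := by
      have h2 : (TN m : ℝ) = 4 * (TT m : ℝ) := by unfold TN; push_cast; ring
      have h3 : (1 : ℝ) ≤ m * Real.log m := by nlinarith
      rw [h2]
      linarith [hT.1]
    have h2 : 1 / (4 * T) ≤ 1 / (TN m : ℝ) := one_div_le_one_div_of_le hTN0 hTN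
    have h3 : a ≤ 1 := by nlinarith
    have h4 : pa * (1 + 2 * e) * ((m : ℝ) - 1) ≤ (1 + a) * (1 + 2 * e) := by
      have : pa * (1 + 2 * e) * ((m : ℝ) - 1) = pa * ((m : ℝ) - 1) * (1 + 2 * e) := by ring
      rw [this]
      exact mul_le_mul_of_nonneg_right hup2 (by linarith)
    have h5 : (1 + a) * (1 + 2 * e) ≤ 1 + 1 / (4 * T) := by
      have h6 : (1 + a) * (1 + 2 * e) ≤ 1 + (a + 4 * e) := by nlinarith
      have h7 : a + 4 * e ≤ 1 / (4 * T) := by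
        rw [le_div_iff₀ (by positivity)]
        nlinarith
      linarith
    linarith
  · intro j x hj
    have h1 : Ex (cubeE m) p (fun ω => ind (j ≤ (cl ω x).card)) ≤
        Ex (cubeE m) (pa * (1 + 2 * e)) (fun ω => ind (j ≤ (cl ω x).card)) := by
      refine Ex_mono_p _ _ _ hp0.le hp2 (by linarith) _ fun ω ω' hω _ => ?_
      exact xb_ind_mono fun h => h.trans (card_le_card (cl_mono _ _ hω x))
    have h2 := ub_tail m pa (2 * e) 2000 hpa0.le (by linarith) (by linarith) (by linarith)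
      (by linarith) (by norm_num) x (hB2 x) j hj
    have h3 : Real.sqrt (2000 / j) = Real.sqrt 2000 * Real.sqrt (1 / j) := by
      rw [← Real.sqrt_mul (by norm_num)]
      congr 1
      ring
    rw [h3] at h2
    have h4 : 0 ≤ Real.sqrt (1 / (j : ℝ)) := Real.sqrt_nonneg _
    nlinarith
  · intro h x hh0 hh1
    have h1 := bft_Mh_mono p (pa * (1 + 2 * e)) h hp0.le hp2 (by linarith) hh0 (by linarith) x
    have h2 := ub m pa (2 * e) 2000 hpa0.le (by linarith) (by linarith) (by linarith)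
      (by linarith) (by norm_num) x (hB2 x) h hh0 hh1
    have h3 : Real.sqrt (2000 * h) = Real.sqrt 2000 * Real.sqrt h := by
      rw [Real.sqrt_mul (by norm_num)]
    rw [h3] at h2
    have h4 : 0 ≤ Real.sqrt h := Real.sqrt_nonneg _
    nlinarith

end Pool.Agent.Work.MP_b7dc8a_pr
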