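import Pool.Agent.Work.MP_b7dc8a_pr.F.Hyp

/-! Module CAPL (M-L): the random walk escapes from a small set with positive probability.

Let `T = TN m`, `P f = nb (cubeE m) f/m`, `P^n(x,y) = wk (cubeE m) n x y/m^n`. For `j >= 0` let
`h_j z = P_z(X_0, ..., X_j ∉ S)`: `h_0 = 1_{z ∉ S}`, `h_{j+1} = 1_{z ∉ S} P h_j`; and `ρ_0 = 1`,
`ρ_{j+1} = P h_j` (probability of no visit to `S` at the times `1..j+1`). `h_j`, `ρ_j` decrease in `j`;
for `y ∉ S`: `h_T y = esc m S y` (`(nb (offE (cubeE m) S))^[j] 1 y/m^j = h_j y` for `y ∉ S`), and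
`ρ_{T+1} s = P (1_{∉ S} esc m S) s`, the summand of the claim.
(1) Last exit decomposition (compare B/Capa): for all `x` and `N >= 1`
  `∑_{i<N} ∑_{s∈S} P^i(x,s) ρ_{N-1-i}(s) = 1 - h_{N-1}(x)` by induction on `N`:
  the term `i = 0` is `1_S(x) ρ_{N-1}(x)`, the others are `P` applied to the identity for `N-1`, i.e.
  `1 - P h_{N-2}(x)`; the sum is `1_S P h_{N-2} + 1 - P h_{N-2} = 1 - 1_{∉S} P h_{N-2} = 1 - h_{N-1}`.
(2) Let `r = ρ_{T+1}` on `S`, and `N` even with `T + 1 + m <= N <= 2 (T+1)` (possible for large `m`). For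
  `x ∈ S`: `1 <= ∑_{i < N-T-1} ∑_s P^i(x,s) r(s) + ∑_{N-T-1 <= i < N} ∑_s P^i(x,s)` (`ρ_j <= r` for
  `j >= T+1`, `ρ_j <= 1`). Sum over `x ∈ S` and use `hyp_walk` for the last part (`i >= m`):
  it is at most `(T+1) 2 |S| 2^(-m/100) <= |S|/2` for large `m`. So `|S|/2 <= B(1_S, r 1_S)` where
  `B(f,g) = ∑_{i<N} ∑_{x,y} f(x) P^i(x,y) g(y)`.
(3) `B` is positive semidefinite: `N` even, `B(f,f) = ∑_{k < N/2} ⟨P^k f, (1+P) P^k f⟩` and
  `⟨g,(1+P)g⟩ = (1/2m) ∑_{x ~ y} (g x + g y)^2 >= 0`. By Cauchy-Schwarz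
  `B(1_S, r)^2 <= B(1_S,1_S) B(r,r)`. (Use `P^(2k)`, `P^(2k+1)` and symmetry of `P`; `wk_comm`,
  semigroup property from `nb_iter_eq`.)
(4) `B(r,r) <= 2 ∑_{s∈S} r(s)`: by (1) with `N = T+1` and `r <= ρ_{T-i}`:
  `∑_{i<T+1} ∑_s P^i(x,s) r(s) <= 1` for every `x`, hence `<= 2` for the sum over `i < N <= 2(T+1)`
  (semigroup: the second block is `P^(T+1)` applied to a function `<= 1`).
(5) `B(1_S,1_S) <= C |S|` by `hyp_walk` (`∑_n 2 * 2^(-n/100) + N 2 * 2^(-m/100)`).
So `|S|^2/4 <= C |S| * 2 ∑ r`, i.e. `∑_{s∈S} r(s) >= |S|/(8C)`: this is `capl`. `capl_good`: with `c = c1/2`,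
`∑_s P(1_{∉S} esc)(s) <= ∑_s (1/m) #{y ~ s : y ∉ S, esc y >= c} + c |S|` (`esc <= 1`). (`S = ∅` trivial.) -/

namespace Pool.Agent.Work.MP_b7dc8a_pr

open Finset

private theorem capl_off_mem {V : Type} (E : Finset (Sym2 V)) (S : Finset V) (e : Sym2 V) :
    e ∈ offE E S ↔ e ∈ E ∧ ∀ x ∈ e, x ∉ S := by
  classical
  unfold offE
  simp

open Classical in
private theorem capl_nb_ite {V : Type} [Fintype V] (E : Finset (Sym2 V)) (f : V → ℝ) (x : V) :
    nb E f x = ∑ z, if s(x, z) ∈ E then f z else 0 := by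
  unfold nb
  rw [Finset.sum_filter]

/-- the probability that the walk from `x` avoids `S` at the times `1, ..., n` -/
private noncomputable def caplEsc (m : ℕ) (S : Finset (Q m)) : ℕ → Q m → ℝ
  | 0 => fun _ => 1
  | n + 1 => fun x => nb (cubeE m) (fun z => if z ∈ S then 0 else caplEsc m S n z) x / m

private theorem capl_nb_add (m : ℕ) (f g : Q m → ℝ) (x : Q m) :
    nb (cubeE m) (fun z => f z + g z) x = nb (cubeE m) f x + nb (cubeE m) g x := by
  unfold nb
  exact Finset.sum_add_distrib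

private theorem capl_nb_div (m : ℕ) (f : Q m → ℝ) (c : ℝ) (x : Q m) :
    nb (cubeE m) (fun z => f z / c) x = nb (cubeE m) f x / c := by
  unfold nb
  rw [Finset.sum_div]

private theorem capl_nb_sum {ι : Type} (m : ℕ) (I : Finset ι) (f : ι → Q m → ℝ) (x : Q m) :
    nb (cubeE m) (fun z => ∑ i ∈ I, f i z) x = ∑ i ∈ I, nb (cubeE m) (f i) x := by
  unfold nb
  exact Finset.sum_comm

private theorem capl_esc_nonneg (m : ℕ) (S : Finset (Q m)) :
    ∀ n x, 0 ≤ caplEsc m S n x := by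
  intro n
  induction n with
  | zero => intro x; exact zero_le_one
  | succ n ih =>
    intro x
    refine div_nonneg ?_ (Nat.cast_nonneg m)
    unfold nb
    refine Finset.sum_nonneg (fun z _ => ?_)
    split_ifs
    · exact le_rfl
    · exact ih z

private theorem capl_esc_succ_le (m : ℕ) (hm : 2 ≤ m) (S : Finset (Q m)) :
    ∀ n x, caplEsc m S (n + 1) x ≤ caplEsc m S n x := by
  have hm0 : (0 : ℝ) < m := by
    have : 0 < m := by omega
    exact_mod_cast this
  intro n
  induction n with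
  | zero =>
    intro x
    show nb (cubeE m) (fun z => if z ∈ S then 0 else caplEsc m S 0 z) x / m ≤ 1
    rw [div_le_one hm0]
    have h1 : nb (cubeE m) (fun z => if z ∈ S then 0 else caplEsc m S 0 z) x ≤
        nb (cubeE m) (fun _ => 1) x := by
      refine nb_mono _ _ _ (fun z => ?_) x
      split_ifs
      · exact zero_le_one
      · exact le_rfl
    rwa [nb_cube_one] at h1
  | succ n ih =>
    intro x
    show nb (cubeE m) (fun z => if z ∈ S then 0 else caplEsc m S (n + 1) z) x / m ≤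
      nb (cubeE m) (fun z => if z ∈ S then 0 else caplEsc m S n z) x / m
    refine div_le_div_of_nonneg_right ?_ hm0.le
    refine nb_mono _ _ _ (fun z => ?_) x
    split_ifs
    · exact le_rfl
    · exact ih z

private theorem capl_esc_anti (m : ℕ) (hm : 2 ≤ m) (S : Finset (Q m)) {a b : ℕ} (hab : a ≤ b)
    (x : Q m) : caplEsc m S b x ≤ caplEsc m S a x :=
  antitone_nat_of_succ_le (f := fun n => caplEsc m S n x)
    (fun n => capl_esc_succ_le m hm S n x) hab

/-- last exit decomposition -/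
private theorem capl_last (m : ℕ) (hm : 2 ≤ m) (S : Finset (Q m)) :
    ∀ n x, (1 : ℝ) = caplEsc m S n x + ∑ k ∈ range n, (nb (cubeE m))^[k + 1]
      (fun z => if z ∈ S then caplEsc m S (n - 1 - k) z else 0) x / (m : ℝ) ^ (k + 1) := by
  have hm0 : (0 : ℝ) < m := by
    have : 0 < m := by omega
    exact_mod_cast this
  intro n
  induction n with
  | zero => intro x; simp [caplEsc]
  | succ n ih =>
    intro x
    have h1 : (1 : ℝ) = nb (cubeE m) (fun _ => 1) x / m := by
      rw [nb_cube_one, div_self hm0.ne']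
    have h2 : (fun _ : Q m => (1 : ℝ)) = fun z => ((if z ∈ S then 0 else caplEsc m S n z) +
        (if z ∈ S then caplEsc m S n z else 0)) + ∑ k ∈ range n, (nb (cubeE m))^[k + 1]
      (fun z => if z ∈ S then caplEsc m S (n - 1 - k) z else 0) z / (m : ℝ) ^ (k + 1) := by
      funext z
      rw [ih z]
      congr 1
      split_ifs <;> simp
    have h3 : nb (cubeE m) (fun _ => 1) x = (nb (cubeE m)
        (fun z => if z ∈ S then 0 else caplEsc m S n z) x +
        nb (cubeE m) (fun z => if z ∈ S then caplEsc m S n z else 0) x) +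
        ∑ k ∈ range n, (nb (cubeE m))^[k + 2]
      (fun z => if z ∈ S then caplEsc m S (n - 1 - k) z else 0) x / (m : ℝ) ^ (k + 1) := by
      conv_lhs => rw [h2]
      rw [capl_nb_add, capl_nb_add, capl_nb_sum]
      congr 1
      refine Finset.sum_congr rfl (fun k _ => ?_)
      rw [capl_nb_div, ← Function.iterate_succ_apply' (nb (cubeE m)) (k + 1)]
    rw [h1, h3, Finset.sum_range_succ']
    have h4 : caplEsc m S (n + 1) x =
      nb (cubeE m) (fun z => if z ∈ S then 0 else caplEsc m S n z) x / m := rfl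
    rw [h4, add_div, add_div, Finset.sum_div]
    have h5 : ∀ k, n + 1 - 1 - (k + 1) = n - 1 - k := fun k => by omega
    have h6 : ∀ k ∈ range n, (nb (cubeE m))^[k + 2]
        (fun z => if z ∈ S then caplEsc m S (n - 1 - k) z else 0) x / (m : ℝ) ^ (k + 1) / m =
        (nb (cubeE m))^[k + 1 + 1]
        (fun z => if z ∈ S then caplEsc m S (n + 1 - 1 - (k + 1)) z else 0) x /
          (m : ℝ) ^ (k + 1 + 1) := by
      intro k _
      rw [h5, div_div, ← pow_succ]
    rw [Finset.sum_congr rfl h6]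
    have h7 : (nb (cubeE m))^[0 + 1] (fun z => if z ∈ S then caplEsc m S (n + 1 - 1 - 0) z else 0) x
        / (m : ℝ) ^ (0 + 1) =
        nb (cubeE m) (fun z => if z ∈ S then caplEsc m S n z else 0) x / m := by
      simp
    rw [h7]
    ring

private theorem capl_walk (m : ℕ) (S : Finset (Q m)) :
    ∀ n, ∀ y ∉ S, caplEsc m S n y =
      (nb (offE (cubeE m) S))^[n] (fun _ => 1) y / (m : ℝ) ^ n := by
  classical
  intro n
  induction n with
  | zero => intro y _; simp [caplEsc]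
  | succ n ih =>
    intro y hy
    have hmem : ∀ z, s(y, z) ∈ offE (cubeE m) S ↔ s(y, z) ∈ cubeE m ∧ z ∉ S := by
      intro z
      rw [capl_off_mem]
      simp only [Sym2.mem_iff, forall_eq_or_imp, forall_eq]
      exact ⟨fun h => ⟨h.1, h.2.2⟩, fun h => ⟨h.1, hy, h.2⟩⟩
    have h1 : nb (cubeE m) (fun z => if z ∈ S then 0 else caplEsc m S n z) y =
        nb (offE (cubeE m) S) ((nb (offE (cubeE m) S))^[n] (fun _ => 1)) y / (m : ℝ) ^ n := by
      rw [capl_nb_ite, capl_nb_ite, Finset.sum_div]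
      refine Finset.sum_congr rfl (fun z _ => ?_)
      by_cases hz1 : s(y, z) ∈ cubeE m
      · by_cases hz2 : z ∈ S
        · have hno : ¬ s(y, z) ∈ offE (cubeE m) S := fun h => ((hmem z).mp h).2 hz2
          rw [if_pos hz1, if_pos hz2, if_neg hno, zero_div]
        · have hyes : s(y, z) ∈ offE (cubeE m) S := (hmem z).mpr ⟨hz1, hz2⟩
          rw [if_pos hz1, if_neg hz2, if_pos hyes, ih z hz2]
      · have hno : ¬ s(y, z) ∈ offE (cubeE m) S := fun h => hz1 ((hmem z).mp h).1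
        rw [if_neg hz1, if_neg hno, zero_div]
    have h3 : caplEsc m S (n + 1) y =
      nb (cubeE m) (fun z => if z ∈ S then 0 else caplEsc m S n z) y / m := rfl
    rw [h3, h1, Function.iterate_succ_apply', pow_succ, div_div]


/-- the `n`-step transition operator of the random walk -/
private noncomputable def caplP (m n : ℕ) (f : Q m → ℝ) (x : Q m) : ℝ :=
  (nb (cubeE m))^[n] f x / (m : ℝ) ^ n

private theorem capl_P_zero (m : ℕ) (f : Q m → ℝ) (x : Q m) : caplP m 0 f x = f x := by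
  simp [caplP]

private theorem capl_P_mono (m n : ℕ) (f g : Q m → ℝ) (h : ∀ z, f z ≤ g z) (x : Q m) :
    caplP m n f x ≤ caplP m n g x :=
  div_le_div_of_nonneg_right (nb_iter_mono _ _ _ _ h x) (pow_nonneg (Nat.cast_nonneg m) n)

private theorem capl_P_nonneg (m n : ℕ) (f : Q m → ℝ) (h : ∀ z, 0 ≤ f z) (x : Q m) :
    0 ≤ caplP m n f x :=
  div_nonneg (nb_iter_nonneg _ _ _ h x) (pow_nonneg (Nat.cast_nonneg m) n)

private theorem capl_P_le (m n : ℕ) (hm : 2 ≤ m) (f : Q m → ℝ) (c : ℝ) (hc : 0 ≤ c)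
    (h : ∀ z, f z ≤ c) (x : Q m) : caplP m n f x ≤ c := by
  have hm0 : (0 : ℝ) < m := by
    have : 0 < m := by omega
    exact_mod_cast this
  unfold caplP
  rw [div_le_iff₀ (pow_pos hm0 n), mul_comm]
  exact nb_iter_le m n (cubeE m) (Finset.Subset.refl _) f c hc h x

private theorem capl_P_add (m n k : ℕ) (f : Q m → ℝ) (x : Q m) :
    caplP m (n + k) f x = caplP m n (caplP m k f) x := by
  have h : caplP m k f = fun z => ((m : ℝ) ^ k)⁻¹ * (nb (cubeE m))^[k] f z := by
    funext z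
    unfold caplP
    rw [div_eq_inv_mul]
  rw [h]
  unfold caplP
  rw [nb_iter_smul, Function.iterate_add_apply, pow_add]
  rw [div_eq_mul_inv, div_eq_mul_inv, mul_inv]
  ring

private theorem capl_P_lin (m n : ℕ) (f g : Q m → ℝ) (c : ℝ) (x : Q m) :
    caplP m n (fun z => f z + c * g z) x = caplP m n f x + c * caplP m n g x := by
  unfold caplP
  rw [nb_iter_add (cubeE m) n f (fun z => c * g z), nb_iter_smul]
  ring

private theorem capl_P_sum {ι : Type} (m n : ℕ) (I : Finset ι) (f : ι → Q m → ℝ) (x : Q m) :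
    caplP m n (fun z => ∑ i ∈ I, f i z) x = ∑ i ∈ I, caplP m n (f i) x := by
  unfold caplP
  rw [nb_iter_sum, Finset.sum_div]

private theorem capl_P_eq (m n : ℕ) (f : Q m → ℝ) (x : Q m) :
    caplP m n f x = ∑ y, wk (cubeE m) n x y / (m : ℝ) ^ n * f y := by
  unfold caplP
  rw [nb_iter_eq, Finset.sum_div]
  refine Finset.sum_congr rfl (fun y _ => ?_)
  ring

private theorem capl_P_symm (m n : ℕ) (f g : Q m → ℝ) :
    ∑ x, f x * caplP m n g x = ∑ x, g x * caplP m n f x := by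
  simp only [capl_P_eq, Finset.mul_sum]
  rw [Finset.sum_comm]
  refine Finset.sum_congr rfl (fun y _ => Finset.sum_congr rfl (fun x _ => ?_))
  rw [wk_comm]
  ring

private theorem capl_pos_one (m : ℕ) (hm : 2 ≤ m) (g : Q m → ℝ) :
    0 ≤ ∑ x, (g x * g x + g x * (nb (cubeE m) g x / m)) := by
  have hm0 : (0 : ℝ) < m := by
    have : 0 < m := by omega
    exact_mod_cast this
  have hdeg : ∀ x : Q m, ∑ z, ind (s(x, z) ∈ cubeE m) = (m : ℝ) := by
    intro x
    have h2 := nb_cube_one m x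
    rw [walk_nb_ind] at h2
    simpa using h2
  have h1 : 0 ≤ ∑ x, ∑ z, ind (s(x, z) ∈ cubeE m) * (g x * g x + g z * g z + 2 * (g x * g z)) := by
    refine Finset.sum_nonneg (fun x _ => Finset.sum_nonneg (fun z _ => ?_))
    refine mul_nonneg (walk_ind_nonneg _) ?_
    nlinarith [sq_nonneg (g x + g z)]
  have h2 : ∑ x, ∑ z, ind (s(x, z) ∈ cubeE m) * (g x * g x + g z * g z + 2 * (g x * g z)) =
      ∑ x, ∑ z, ind (s(x, z) ∈ cubeE m) * (g x * g x) +
      ∑ x, ∑ z, ind (s(x, z) ∈ cubeE m) * (g z * g z) +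
      2 * ∑ x, g x * nb (cubeE m) g x := by
    rw [Finset.mul_sum, ← Finset.sum_add_distrib, ← Finset.sum_add_distrib]
    refine Finset.sum_congr rfl (fun x _ => ?_)
    rw [walk_nb_ind, Finset.mul_sum, Finset.mul_sum, ← Finset.sum_add_distrib,
      ← Finset.sum_add_distrib]
    refine Finset.sum_congr rfl (fun z _ => ?_)
    ring
  have h3 : ∑ x, ∑ z, ind (s(x, z) ∈ cubeE m) * (g x * g x) = m * ∑ x, g x * g x := by
    rw [Finset.mul_sum]
    refine Finset.sum_congr rfl (fun x _ => ?_)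
    rw [← Finset.sum_mul, hdeg]
  have h4 : ∑ x, ∑ z, ind (s(x, z) ∈ cubeE m) * (g z * g z) = m * ∑ x, g x * g x := by
    rw [Finset.sum_comm, ← h3]
    refine Finset.sum_congr rfl (fun x _ => Finset.sum_congr rfl (fun z _ => ?_))
    rw [Sym2.eq_swap]
  have h5 : ∑ x, (g x * g x + g x * (nb (cubeE m) g x / m)) =
      ∑ x, g x * g x + (∑ x, g x * nb (cubeE m) g x) / m := by
    rw [Finset.sum_add_distrib, Finset.sum_div]
    congr 1
    refine Finset.sum_congr rfl (fun x _ => ?_)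
    ring
  rw [h5]
  rw [h2, h3, h4] at h1
  have h6 : 0 ≤ m * ∑ x, g x * g x + ∑ x, g x * nb (cubeE m) g x := by linarith
  have h7 : ∑ x, g x * g x + (∑ x, g x * nb (cubeE m) g x) / m =
      (m * ∑ x, g x * g x + ∑ x, g x * nb (cubeE m) g x) / m := by
    field_simp
  rw [h7]
  exact div_nonneg h6 hm0.le

private theorem capl_pos (m : ℕ) (hm : 2 ≤ m) (f : Q m → ℝ) (M : ℕ) :
    0 ≤ ∑ k ∈ range (2 * M), ∑ x, f x * caplP m k f x := by
  induction M with
  | zero => simp
  | succ M ih =>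
    have e : 2 * (M + 1) = 2 * M + 1 + 1 := by ring
    rw [e, Finset.sum_range_succ, Finset.sum_range_succ, add_assoc]
    refine add_nonneg ih ?_
    set g := caplP m M f with hg
    have h1 : ∑ x, f x * caplP m (2 * M) f x = ∑ x, g x * g x := by
      have e1 : 2 * M = M + M := by ring
      rw [e1]
      simp only [capl_P_add m M M]
      rw [capl_P_symm]
    have h2 : ∑ x, f x * caplP m (2 * M + 1) f x = ∑ x, g x * (nb (cubeE m) g x / m) := by
      have e1 : 2 * M + 1 = M + (1 + M) := by ring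
      rw [e1]
      simp only [capl_P_add m M (1 + M)]
      rw [capl_P_symm]
      refine Finset.sum_congr rfl (fun x _ => ?_)
      rw [capl_P_add m 1 M, mul_comm, ← hg]
      congr 1
      simp [caplP]
    rw [h1, h2, ← Finset.sum_add_distrib]
    exact capl_pos_one m hm g

/-- escape function restricted to `S` -/
private noncomputable def caplA (m : ℕ) (S : Finset (Q m)) (j : ℕ) (z : Q m) : ℝ :=
  if z ∈ S then caplEsc m S j z else 0

private theorem capl_A_nonneg (m : ℕ) (S : Finset (Q m)) (j : ℕ) (z : Q m) :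
    0 ≤ caplA m S j z := by
  unfold caplA
  split_ifs
  · exact capl_esc_nonneg m S j z
  · exact le_rfl

private theorem capl_A_anti (m : ℕ) (hm : 2 ≤ m) (S : Finset (Q m)) {a b : ℕ} (hab : a ≤ b)
    (z : Q m) : caplA m S b z ≤ caplA m S a z := by
  unfold caplA
  split_ifs
  · exact capl_esc_anti m hm S hab z
  · exact le_rfl

private theorem capl_dec (m : ℕ) (hm : 2 ≤ m) (S : Finset (Q m)) (n : ℕ) (x : Q m) :
    ∑ k ∈ range (n + 1), caplP m k (caplA m S (n - k)) x =
      1 - (if x ∈ S then 0 else caplEsc m S n x) := by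
  have h := capl_last m hm S n x
  rw [Finset.sum_range_succ']
  have h1 : ∀ k ∈ range n, caplP m (k + 1) (caplA m S (n - (k + 1))) x =
      (nb (cubeE m))^[k + 1]
      (fun z => if z ∈ S then caplEsc m S (n - 1 - k) z else 0) x / (m : ℝ) ^ (k + 1) := by
    intro k _
    have e : n - (k + 1) = n - 1 - k := by omega
    rw [e]
    rfl
  rw [Finset.sum_congr rfl h1, capl_P_zero]
  unfold caplA
  simp only [Nat.sub_zero]
  split_ifs <;> linarith

private theorem capl_U_le (m : ℕ) (hm : 2 ≤ m) (S : Finset (Q m)) (T : ℕ) (x : Q m) :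
    ∑ k ∈ range (T + 1), caplP m k (caplA m S (T + 1)) x ≤ 1 := by
  calc ∑ k ∈ range (T + 1), caplP m k (caplA m S (T + 1)) x
      ≤ ∑ k ∈ range (T + 1), caplP m k (caplA m S (T - k)) x := by
        refine Finset.sum_le_sum (fun k _ => capl_P_mono _ _ _ _ (fun z => ?_) x)
        exact capl_A_anti m hm S (by omega) z
    _ = 1 - (if x ∈ S then 0 else caplEsc m S T x) := capl_dec m hm S T x
    _ ≤ 1 := by
        have := capl_esc_nonneg m S T x
        split_ifs <;> linarith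

private theorem capl_U2_le (m : ℕ) (hm : 2 ≤ m) (S : Finset (Q m)) (T : ℕ) (x : Q m) :
    ∑ k ∈ range (2 * (T + 1)), caplP m k (caplA m S (T + 1)) x ≤ 2 := by
  have e : 2 * (T + 1) = (T + 1) + (T + 1) := by ring
  rw [e, Finset.sum_range_add]
  have h1 : ∑ k ∈ range (T + 1), caplP m (T + 1 + k) (caplA m S (T + 1)) x =
      caplP m (T + 1) (fun z => ∑ k ∈ range (T + 1), caplP m k (caplA m S (T + 1)) z) x := by
    rw [capl_P_sum]
    refine Finset.sum_congr rfl (fun k _ => ?_)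
    rw [capl_P_add]
  have h2 := capl_P_le m (T + 1) hm
    (fun z => ∑ k ∈ range (T + 1), caplP m k (caplA m S (T + 1)) z) 1 zero_le_one
    (fun z => capl_U_le m hm S T z) x
  rw [h1]
  linarith [capl_U_le m hm S T x]

/-- indicator of `S` -/
private noncomputable def caplO (m : ℕ) (S : Finset (Q m)) (z : Q m) : ℝ :=
  if z ∈ S then 1 else 0

private theorem capl_sum_O (m : ℕ) (S : Finset (Q m)) (f : Q m → ℝ) :
    ∑ x, caplO m S x * f x = ∑ x ∈ S, f x := by
  classical
  unfold caplO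
  simp only [ite_mul, one_mul, zero_mul]
  rw [Finset.sum_ite_mem, Finset.univ_inter]

private theorem capl_OO (m : ℕ) (S : Finset (Q m)) (n : ℕ) :
    ∑ x, caplO m S x * caplP m n (caplO m S) x =
      ∑ x ∈ S, ∑ y ∈ S, wk (cubeE m) n x y / (m : ℝ) ^ n := by
  rw [capl_sum_O]
  refine Finset.sum_congr rfl (fun x _ => ?_)
  rw [capl_P_eq, ← capl_sum_O m S]
  refine Finset.sum_congr rfl (fun y _ => ?_)
  rw [mul_comm]

/-- the main inequality, `N = 2 (T + 1)` -/
private theorem capl_main (m : ℕ) (hm : 2 ≤ m) (S : Finset (Q m)) (T : ℕ) (C : ℝ) (hC : 0 < C)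
    (hoo : ∑ k ∈ range (2 * (T + 1)), ∑ x ∈ S, ∑ y ∈ S, wk (cubeE m) k x y / (m : ℝ) ^ k ≤
      C * S.card)
    (htail : ∑ k ∈ range (T + 1), ∑ x ∈ S, ∑ y ∈ S,
      wk (cubeE m) (T + 1 + k) x y / (m : ℝ) ^ (T + 1 + k) ≤ S.card / 2) :
    (S.card : ℝ) / (8 * C) ≤ ∑ s ∈ S, caplEsc m S (T + 1) s := by
  set r := caplA m S (T + 1) with hr
  set o := caplO m S with ho
  have hrn : ∀ z, 0 ≤ r z := capl_A_nonneg m S (T + 1)
  have hon : ∀ z, 0 ≤ o z := by
    intro z
    rw [ho]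
    unfold caplO
    split_ifs
    · exact zero_le_one
    · exact le_rfl
  have hR : ∑ x, r x = ∑ s ∈ S, caplEsc m S (T + 1) s := by
    classical
    rw [hr]
    unfold caplA
    rw [Finset.sum_ite_mem, Finset.univ_inter]
  rw [← hR]
  -- (2)
  have h2 : (S.card : ℝ) / 2 ≤ ∑ k ∈ range (2 * (T + 1)), ∑ x, o x * caplP m k r x := by
    have h21 : ∀ x ∈ S, (1 : ℝ) ≤ ∑ k ∈ range (T + 1), caplP m k r x +
        ∑ k ∈ range (T + 1), caplP m (T + 1 + k) o x := by
      intro x hx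
      have h := capl_dec m hm S (2 * T + 1) x
      rw [if_pos hx, sub_zero] at h
      have e : 2 * T + 1 + 1 = (T + 1) + (T + 1) := by ring
      rw [← h, e, Finset.sum_range_add]
      refine add_le_add (Finset.sum_le_sum (fun k hk => ?_)) (Finset.sum_le_sum (fun k _ => ?_))
      · refine capl_P_mono _ _ _ _ (fun z => ?_) x
        have hk' := Finset.mem_range.mp hk
        exact capl_A_anti m hm S (by omega) z
      · refine capl_P_mono _ _ _ _ (fun z => ?_) x
        have h3 := capl_A_anti m hm S (Nat.zero_le (2 * T + 1 - (T + 1 + k))) z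
        refine h3.trans (le_of_eq ?_)
        rw [ho]
        rfl
    have h22 : (S.card : ℝ) ≤ ∑ x ∈ S, (∑ k ∈ range (T + 1), caplP m k r x +
        ∑ k ∈ range (T + 1), caplP m (T + 1 + k) o x) := by
      calc (S.card : ℝ) = ∑ x ∈ S, (1 : ℝ) := by simp
        _ ≤ _ := Finset.sum_le_sum h21
    rw [Finset.sum_add_distrib] at h22
    have h23 : ∑ x ∈ S, ∑ k ∈ range (T + 1), caplP m (T + 1 + k) o x ≤ S.card / 2 := by
      refine le_trans (le_of_eq ?_) htail
      rw [Finset.sum_comm]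
      refine Finset.sum_congr rfl (fun k _ => ?_)
      rw [← capl_OO, capl_sum_O]
    have h24 : ∑ x ∈ S, ∑ k ∈ range (T + 1), caplP m k r x ≤
        ∑ k ∈ range (2 * (T + 1)), ∑ x, o x * caplP m k r x := by
      rw [Finset.sum_comm]
      have h25 : ∀ k, ∑ x ∈ S, caplP m k r x = ∑ x, o x * caplP m k r x := fun k =>
        (capl_sum_O m S _).symm
      rw [Finset.sum_congr rfl (fun k _ => h25 k)]
      refine Finset.sum_le_sum_of_subset_of_nonneg ?_ (fun k _ _ => ?_)
      · intro k hk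
        rw [Finset.mem_range] at hk ⊢
        omega
      · exact Finset.sum_nonneg (fun x _ => mul_nonneg (hon x) (capl_P_nonneg _ _ _ hrn x))
    linarith
  -- (4)
  have h4 : ∑ k ∈ range (2 * (T + 1)), ∑ x, r x * caplP m k r x ≤ 2 * ∑ x, r x := by
    rw [Finset.sum_comm, Finset.mul_sum]
    refine Finset.sum_le_sum (fun x _ => ?_)
    have h41 := mul_le_mul_of_nonneg_left (capl_U2_le m hm S T x) (hrn x)
    rw [← Finset.mul_sum, hr]
    rw [hr] at h41
    linarith
  -- (5)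
  have h5 : ∑ k ∈ range (2 * (T + 1)), ∑ x, o x * caplP m k o x ≤ C * S.card := by
    refine le_trans (le_of_eq ?_) hoo
    exact Finset.sum_congr rfl (fun k _ => capl_OO m S k)
  -- positivity
  have h3 := capl_pos m hm (fun z => o z + (-(2 * C)) * r z) (T + 1)
  have h31 : ∑ k ∈ range (2 * (T + 1)), ∑ x, (o x + (-(2 * C)) * r x) *
      caplP m k (fun z => o z + (-(2 * C)) * r z) x =
      ∑ k ∈ range (2 * (T + 1)), ∑ x, o x * caplP m k o x +
      (-(2 * C)) * 2 * ∑ k ∈ range (2 * (T + 1)), ∑ x, o x * caplP m k r x +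
      (2 * C) ^ 2 * ∑ k ∈ range (2 * (T + 1)), ∑ x, r x * caplP m k r x := by
    rw [Finset.mul_sum, Finset.mul_sum, ← Finset.sum_add_distrib, ← Finset.sum_add_distrib]
    refine Finset.sum_congr rfl (fun k _ => ?_)
    have e1 : ∑ x, (o x + (-(2 * C)) * r x) * caplP m k (fun z => o z + (-(2 * C)) * r z) x =
        ∑ x, o x * caplP m k o x + (-(2 * C)) * ∑ x, o x * caplP m k r x +
        (-(2 * C)) * ∑ x, r x * caplP m k o x + (2 * C) ^ 2 * ∑ x, r x * caplP m k r x := by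
      rw [Finset.mul_sum, Finset.mul_sum, Finset.mul_sum, ← Finset.sum_add_distrib,
        ← Finset.sum_add_distrib, ← Finset.sum_add_distrib]
      refine Finset.sum_congr rfl (fun x _ => ?_)
      rw [capl_P_lin]
      ring
    rw [e1, capl_P_symm m k r o]
    ring
  rw [h31] at h3
  set BB := ∑ k ∈ range (2 * (T + 1)), ∑ x, o x * caplP m k r x with hBB
  set RR := ∑ x, r x with hRR
  have h6 : C * S.card ≤ 8 * C ^ 2 * RR := by nlinarith
  rw [div_le_iff₀ (by positivity)]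
  have h7 : (S.card : ℝ) ≤ 8 * C * RR := by
    by_contra hcon
    push Not at hcon
    have := mul_lt_mul_of_pos_left hcon hC
    nlinarith
  linarith

private theorem capl_small : ∃ m0 : ℕ, ∀ m ≥ m0, 2 ≤ m ∧ m ≤ TN m + 1 ∧
    ((TN m : ℝ) + 1) * (2 * (2 : ℝ) ^ (-(m : ℝ) / 100)) ≤ 1 / 2 := by
  have hr0 : (0 : ℝ) ≤ (2 : ℝ) ^ (-(1 : ℝ) / 100) := by positivity
  have hr1 : (2 : ℝ) ^ (-(1 : ℝ) / 100) < 1 :=
    Real.rpow_lt_one_of_one_lt_of_neg (by norm_num) (by norm_num)
  have ht := tendsto_pow_const_mul_const_pow_of_lt_one 2 hr0 hr1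
  have hev := (ht.eventually (gt_mem_nhds (show (0 : ℝ) < 1 / 40 by norm_num)))
  obtain ⟨m1, hm1⟩ := Filter.eventually_atTop.mp hev
  refine ⟨max m1 3, fun m hm => ?_⟩
  have hm3 : 3 ≤ m := le_trans (le_max_right _ _) hm
  have hmm1 : m1 ≤ m := le_trans (le_max_left _ _) hm
  have h3 : (3 : ℝ) ≤ m := by exact_mod_cast hm3
  obtain ⟨a1, a2, a3⟩ := xn_TT m (by omega)
  refine ⟨by omega, ?_, ?_⟩
  · have hlog : (1 : ℝ) ≤ Real.log m := by
      rw [Real.le_log_iff_exp_le (by linarith)]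
      have := Real.exp_one_lt_d9
      linarith
    have h4 : (m : ℝ) ≤ TT m := by nlinarith
    have h5 : m ≤ TT m := by exact_mod_cast h4
    unfold TN
    omega
  · have h6 := hm1 m hmm1
    have h7 : ((2 : ℝ) ^ (-(1 : ℝ) / 100)) ^ m = (2 : ℝ) ^ (-(m : ℝ) / 100) := by
      rw [← Real.rpow_natCast, ← Real.rpow_mul (by norm_num)]
      congr 1
      ring
    rw [h7] at h6
    have h8 : (TN m : ℝ) + 1 ≤ 5 * (m : ℝ) ^ 2 := by
      unfold TN
      push_cast
      nlinarith
    have h9 : (0 : ℝ) ≤ 2 * (2 : ℝ) ^ (-(m : ℝ) / 100) := by positivity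
    calc ((TN m : ℝ) + 1) * (2 * (2 : ℝ) ^ (-(m : ℝ) / 100))
        ≤ 5 * (m : ℝ) ^ 2 * (2 * (2 : ℝ) ^ (-(m : ℝ) / 100)) :=
          mul_le_mul_of_nonneg_right h8 h9
      _ = 10 * ((m : ℝ) ^ 2 * (2 : ℝ) ^ (-(m : ℝ) / 100)) := by ring
      _ ≤ 1 / 2 := by linarith

private theorem capl_walk_bd (m : ℕ) (hm : 2 ≤ m) (S : Finset (Q m))
    (hS : (S.card : ℝ) ≤ (2 : ℝ) ^ ((m : ℝ) - m / 40)) (n : ℕ) (hn : m ≤ n) :
    ∑ x ∈ S, ∑ y ∈ S, wk (cubeE m) n x y / (m : ℝ) ^ n ≤
      S.card * (2 * (2 : ℝ) ^ (-(m : ℝ) / 100)) := by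
  have h := hyp_walk m (by omega) S hS n
  have h1 : min (n : ℝ) m = m := min_eq_right (by exact_mod_cast hn)
  rw [h1] at h
  linarith

private theorem capl_walk_bd' (m : ℕ) (hm : 2 ≤ m) (S : Finset (Q m))
    (hS : (S.card : ℝ) ≤ (2 : ℝ) ^ ((m : ℝ) - m / 40)) (n : ℕ) :
    ∑ x ∈ S, ∑ y ∈ S, wk (cubeE m) n x y / (m : ℝ) ^ n ≤
      S.card * (2 * ((2 : ℝ) ^ (-(1 : ℝ) / 100)) ^ n + 2 * (2 : ℝ) ^ (-(m : ℝ) / 100)) := by
  have hc : (0 : ℝ) ≤ S.card := Nat.cast_nonneg _
  have hp : (0 : ℝ) ≤ ((2 : ℝ) ^ (-(1 : ℝ) / 100)) ^ n := by positivity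
  have hq : (0 : ℝ) ≤ (2 : ℝ) ^ (-(m : ℝ) / 100) := by positivity
  by_cases hn : m ≤ n
  · refine (capl_walk_bd m hm S hS n hn).trans ?_
    refine mul_le_mul_of_nonneg_left ?_ hc
    linarith
  · have h := hyp_walk m (by omega) S hS n
    have h1 : min (n : ℝ) m = n := min_eq_left (by exact_mod_cast (not_le.mp hn).le)
    rw [h1] at h
    have h7 : ((2 : ℝ) ^ (-(1 : ℝ) / 100)) ^ n = (2 : ℝ) ^ (-(n : ℝ) / 100) := by
      rw [← Real.rpow_natCast, ← Real.rpow_mul (by norm_num)]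
      congr 1
      ring
    rw [h7]
    have : 0 ≤ (S.card : ℝ) * (2 * (2 : ℝ) ^ (-(m : ℝ) / 100)) := by positivity
    linarith

open Classical in
theorem capl : ∃ (c : ℝ) (m0 : ℕ), 0 < c ∧ ∀ m ≥ m0, ∀ S : Finset (Q m),
    (S.card : ℝ) ≤ (2 : ℝ) ^ ((m : ℝ) - m / 40) →
    c * m * S.card ≤ ∑ s ∈ S, nb (cubeE m) (fun y => if y ∈ S then 0 else esc m S y) s := by
  obtain ⟨m0, hm0⟩ := capl_small
  set q : ℝ := (2 : ℝ) ^ (-(1 : ℝ) / 100) with hq
  have hr0 : (0 : ℝ) ≤ q := by positivity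
  have hr1 : q < 1 := Real.rpow_lt_one_of_one_lt_of_neg (by norm_num) (by norm_num)
  set C : ℝ := 2 / (1 - q) + 1 with hC
  have hCpos : 0 < C := by
    have : 0 < 2 / (1 - q) := div_pos (by norm_num) (by linarith)
    linarith
  refine ⟨1 / (8 * C), m0, by positivity, fun m hm S hS => ?_⟩
  obtain ⟨hm2, hmT, hsm⟩ := hm0 m hm
  have hmpos : (0 : ℝ) < m := by
    have : 0 < m := by omega
    exact_mod_cast this
  have hc : (0 : ℝ) ≤ S.card := Nat.cast_nonneg _
  have hq2 : (0 : ℝ) ≤ (2 : ℝ) ^ (-(m : ℝ) / 100) := by positivity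
  have hmain := capl_main m hm2 S (TN m) C hCpos ?_ ?_
  · have hR : ∑ s ∈ S, nb (cubeE m) (fun y => if y ∈ S then 0 else esc m S y) s =
        m * ∑ s ∈ S, caplEsc m S (TN m + 1) s := by
      rw [Finset.mul_sum]
      refine Finset.sum_congr rfl (fun s _ => ?_)
      have h3 : caplEsc m S (TN m + 1) s =
        nb (cubeE m) (fun z => if z ∈ S then 0 else caplEsc m S (TN m) z) s / m := rfl
      rw [h3, mul_div_cancel₀ _ hmpos.ne']
      congr 1
      funext y
      split_ifs with hy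
      · rfl
      · rw [capl_walk m S (TN m) y hy]
        rfl
    rw [hR]
    have := mul_le_mul_of_nonneg_left hmain hmpos.le
    calc 1 / (8 * C) * m * S.card = m * (S.card / (8 * C)) := by ring
      _ ≤ _ := this
  · calc ∑ k ∈ range (2 * (TN m + 1)), ∑ x ∈ S, ∑ y ∈ S, wk (cubeE m) k x y / (m : ℝ) ^ k
        ≤ ∑ k ∈ range (2 * (TN m + 1)), S.card * (2 * q ^ k + 2 * (2 : ℝ) ^ (-(m : ℝ) / 100)) :=
          Finset.sum_le_sum (fun k _ => capl_walk_bd' m hm2 S hS k)
      _ = S.card * (2 * ∑ k ∈ range (2 * (TN m + 1)), q ^ k +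
            2 * (((TN m : ℝ) + 1) * (2 * (2 : ℝ) ^ (-(m : ℝ) / 100)))) := by
          rw [← Finset.mul_sum, Finset.sum_add_distrib, ← Finset.mul_sum, Finset.sum_const,
            Finset.card_range, nsmul_eq_mul]
          push_cast
          ring
      _ ≤ S.card * (2 * (1 / (1 - q)) + 2 * (1 / 2)) := by
          refine mul_le_mul_of_nonneg_left ?_ hc
          have hg : ∑ k ∈ range (2 * (TN m + 1)), q ^ k ≤ 1 / (1 - q) := by
            rw [one_div]
            have h1 := tsum_geometric_of_lt_one hr0 hr1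
            rw [← h1]
            exact (summable_geometric_of_lt_one hr0 hr1).sum_le_tsum _
              (fun k _ => pow_nonneg hr0 k)
          linarith
      _ = C * S.card := by rw [hC]; ring
  · calc ∑ k ∈ range (TN m + 1), ∑ x ∈ S, ∑ y ∈ S,
          wk (cubeE m) (TN m + 1 + k) x y / (m : ℝ) ^ (TN m + 1 + k)
        ≤ ∑ k ∈ range (TN m + 1), S.card * (2 * (2 : ℝ) ^ (-(m : ℝ) / 100)) :=
          Finset.sum_le_sum (fun k _ => capl_walk_bd m hm2 S hS _ (by omega))
      _ = S.card * (((TN m : ℝ) + 1) * (2 * (2 : ℝ) ^ (-(m : ℝ) / 100))) := by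
          rw [Finset.sum_const, Finset.card_range, nsmul_eq_mul]
          push_cast
          ring
      _ ≤ S.card * (1 / 2) := mul_le_mul_of_nonneg_left hsm hc
      _ = S.card / 2 := by ring

open Classical in
theorem capl_good : ∃ (c : ℝ) (m0 : ℕ), 0 < c ∧ c ≤ 1 ∧ ∀ m ≥ m0, ∀ S : Finset (Q m),
    (S.card : ℝ) ≤ (2 : ℝ) ^ ((m : ℝ) - m / 40) →
    c * m * S.card ≤
      ∑ s ∈ S, ((univ.filter fun y => s(s, y) ∈ cubeE m ∧ y ∉ S ∧ c ≤ esc m S y).card : ℝ) := by
  obtain ⟨c1, m1, hc1, h1⟩ := capl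
  refine ⟨min (c1 / 2) 1, max m1 2, lt_min (by linarith) one_pos, min_le_right _ _,
    fun m hm S hS => ?_⟩
  set c : ℝ := min (c1 / 2) 1 with hc
  have hcle : c ≤ c1 / 2 := min_le_left _ _
  have hc0 : 0 < c := lt_min (by linarith) one_pos
  have hm2 : 2 ≤ m := le_trans (le_max_right _ _) hm
  have hm0 : (0 : ℝ) < m := by
    have : 0 < m := by omega
    exact_mod_cast this
  have h := h1 m (le_trans (le_max_left _ _) hm) S hS
  have hsub : offE (cubeE m) S ⊆ cubeE m := fun e he => ((capl_off_mem _ _ _).mp he).1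
  have hle : ∀ s, nb (cubeE m) (fun y => if y ∈ S then 0 else esc m S y) s ≤
      ((univ.filter fun y => s(s, y) ∈ cubeE m ∧ y ∉ S ∧ c ≤ esc m S y).card : ℝ) + m * c := by
    intro s
    have h1 : nb (cubeE m) (fun y => if y ∈ S then 0 else esc m S y) s ≤
        nb (cubeE m) (fun y => (if y ∉ S ∧ c ≤ esc m S y then 1 else 0) + c) s := by
      refine nb_mono _ _ _ (fun y => ?_) s
      by_cases hy : y ∈ S
      · rw [if_pos hy]
        split_ifs <;> linarith
      · rw [if_neg hy]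
        by_cases hg : c ≤ esc m S y
        · rw [if_pos ⟨hy, hg⟩]
          have h2 := nb_iter_le m (TN m) (offE (cubeE m) S) hsub (fun _ => 1) 1 zero_le_one
            (fun _ => le_rfl) y
          have h3 : esc m S y ≤ 1 := by
            unfold esc
            rw [div_le_one (pow_pos hm0 _)]
            linarith
          linarith
        · rw [if_neg (fun h => hg h.2), zero_add]
          exact (not_le.mp hg).le
    refine h1.trans (le_of_eq ?_)
    rw [capl_nb_add]
    have h4 : nb (cubeE m) (fun _ => c) s = m * c := by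
      have h5 := nb_cube_one m s
      unfold nb at h5 ⊢
      rw [Finset.sum_const, nsmul_eq_mul] at h5 ⊢
      rw [mul_one] at h5
      rw [h5]
    rw [h4]
    congr 1
    rw [capl_nb_ite, Finset.natCast_card_filter]
    refine Finset.sum_congr rfl (fun z _ => ?_)
    by_cases hz1 : s(s, z) ∈ cubeE m
    · by_cases hz2 : z ∉ S ∧ c ≤ esc m S z
      · rw [if_pos hz1, if_pos hz2, if_pos ⟨hz1, hz2⟩]
      · rw [if_pos hz1, if_neg hz2, if_neg (fun h => hz2 h.2)]
    · rw [if_neg hz1, if_neg (fun h => hz1 h.1)]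
  have h2 : ∑ s ∈ S, nb (cubeE m) (fun y => if y ∈ S then 0 else esc m S y) s ≤
      ∑ s ∈ S, ((univ.filter fun y => s(s, y) ∈ cubeE m ∧ y ∉ S ∧ c ≤ esc m S y).card : ℝ) +
        S.card * (m * c) := by
    refine (Finset.sum_le_sum (fun s _ => hle s)).trans (le_of_eq ?_)
    rw [Finset.sum_add_distrib, Finset.sum_const, nsmul_eq_mul]
  have h3 : (S.card : ℝ) * (m * c) ≤ c1 / 2 * m * S.card := by
    have h4 : (0 : ℝ) ≤ m * S.card := by positivity
    nlinarith [mul_le_mul_of_nonneg_right hcle h4]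
  have h5 : c * m * S.card ≤ c1 / 2 * m * S.card := by
    have h4 : (0 : ℝ) ≤ m * S.card := by positivity
    nlinarith [mul_le_mul_of_nonneg_right hcle h4]
  linarith

end Pool.Agent.Work.MP_b7dc8a_pr
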