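import Pool.Agent.Work.MP_b7dc8a_pr.F.DefG
import Pool.Agent.Work.MP_b7dc8a_pr.B.Gatom

/-! Module GAPL (M-L): exponential moments of clusters outside `D` (compare B/Gapx.lean, which is the
case `D = ∅` with a cruder bound; copy from there).

`E = offE (cubeE m) D`, `p = p1 + q - p1 q`, `C = cl ω x`. Apply `b_gatom` with this `E`, `p := p1`, `q`,
`ρ = 1 - h'` constant, `σ S y = c4 e` if `|S ∪ D| <= R`, `y ∉ S ∪ D` and `c1 <= esc m (S ∪ D) y`, else `0`.
It is antitone in `S` (`esc` is antitone: `nb_iter_mono_E`). `offE E S = offE (cubeE m) (D ∪ S)`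
(`xb_offE_offE`), and `Ex (offE E S) p1 ((1-h')^|cl ζ y|) = 1 - Mh _ p1 h' y <= 1 - σ S y` by `hgood`.
Write `ω = ζ ∪ η` (`xb_Ex_two`), explore `S0 = cl ζ x` (`b_mark_cl`, `xb_cls_absorb` as in B/Gapx) and use
`b_gatom` for each `S0` (`ρ <= 1`, so `∏ over C \ S0 >= ∏ over C`):
`Ex E p (∏_{x'∈C} ∏_{y ∉ C, s(x',y) ∈ E} (1 + q σ C y) * (1-h')^|C|) <= 1`.
On `|C| <= R'` (so `|C ∪ D| <= R`): the number of factors `1 + q c4 e` is at least
`∑_{s ∈ C ∪ D} #{good y ~ s} - m |D| >= c1 m |C| - m |D|` (`hcap` for `C ∪ D`; every good `y` is outside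
`C ∪ D`; at most `m |D|` pairs with `s ∈ D`). So with `s1 = c1 c4/64`:
* if `n <= |C|`: `m |D| <= c1 m |C|/2`, and `1 + u >= exp (u/2)` for `0 <= u <= 1`, `1 - h' >= exp (-2h')`:
  the integrand is at least `exp (q c4 e c1 m |C|/4 - 2 h' |C|) >= exp ((c1 c4/32) e^2 |C| - (c1 c4/64) e^2 |C|)
  = exp (s1 e^2 |C|)`;
* if `|C| < n`: it is at least `(1-h')^|C| >= 1 - h' |C| >= 1 - s1 e^2 |C|`.
Hence `1 >= Ex (exp (s1 e^2 |C|) ind (n <= |C| <= R')) + Ex ((1 - s1 e^2 |C|) ind (|C| < n, |C| <= R'))`, and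
`1 = Ex (ind (n <= |C| <= R')) + Ex (ind (|C| < n, |C| <= R')) + Ex (ind (R' < |C|))`. Subtract. -/

namespace Pool.Agent.Work.MP_b7dc8a_pr

open Finset

private theorem gapl_exp_half (u : ℝ) (h0 : 0 ≤ u) (h1 : u ≤ 1) :
    Real.exp (u / 2) ≤ 1 + u := by
  have h2 : 1 - u / 2 ≤ Real.exp (-(u / 2)) := by
    have := Real.add_one_le_exp (-(u / 2))
    linarith
  have h3 : Real.exp (u / 2) * Real.exp (-(u / 2)) = 1 := by
    rw [← Real.exp_add, add_neg_cancel, Real.exp_zero]
  have h4 : 0 < Real.exp (u / 2) := Real.exp_pos _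
  have h5 : Real.exp (u / 2) * (1 - u / 2) ≤ 1 :=
    (mul_le_mul_of_nonneg_left h2 h4.le).trans h3.le
  have h6 : 1 ≤ (1 + u) * (1 - u / 2) := by nlinarith
  have h7 : 0 < 1 - u / 2 := by linarith
  exact le_of_mul_le_mul_right (h5.trans h6) h7

private theorem gapl_exp_two (h : ℝ) (h0 : 0 ≤ h) (h1 : h ≤ 1 / 2) :
    Real.exp (-(2 * h)) ≤ 1 - h := by
  have h2 : 1 + 2 * h ≤ Real.exp (2 * h) := by
    have := Real.add_one_le_exp (2 * h)
    linarith
  have h3 : Real.exp (2 * h) * Real.exp (-(2 * h)) = 1 := by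
    rw [← Real.exp_add, add_neg_cancel, Real.exp_zero]
  have h4 : 0 < Real.exp (-(2 * h)) := Real.exp_pos _
  have h5 : (1 + 2 * h) * Real.exp (-(2 * h)) ≤ 1 :=
    (mul_le_mul_of_nonneg_right h2 h4.le).trans h3.le
  have h6 : 1 ≤ (1 + 2 * h) * (1 - h) := by nlinarith
  have h7 : 0 < 1 + 2 * h := by linarith
  exact le_of_mul_le_mul_left (h5.trans h6) h7

open Classical in
private noncomputable def gaplS (m R : ℕ) (c1 t : ℝ) (D S : Finset (Q m)) (y : Q m) : ℝ :=
  if (D ∪ S).card ≤ R ∧ y ∉ D ∪ S ∧ c1 ≤ esc m (D ∪ S) y then t else 0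

private noncomputable def gaplG (κ : ℝ) (n R' k : ℕ) : ℝ :=
  (Real.exp (κ * k) - 1) * ind (n ≤ k ∧ k ≤ R') - ind (R' < k) - κ * (k * ind (k < n))

private theorem gapl_esc_anti (m : ℕ) (S S' : Finset (Q m)) (y : Q m) (h : S ⊆ S') :
    esc m S' y ≤ esc m S y := by
  unfold esc
  refine div_le_div_of_nonneg_right ?_ (by positivity)
  exact nb_iter_mono_E _ _ (xb_offE_anti _ _ _ h) _ _ (fun _ => zero_le_one) y

private theorem gapl_deg (m : ℕ) (x : Q m) (F : Finset (Q m)) (hF : ∀ y ∈ F, s(x, y) ∈ cubeE m) :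
    (F.card : ℝ) ≤ m := by
  have h1 := nb_cube_one m x
  rw [walk_nb_ind] at h1
  rw [← h1]
  calc (F.card : ℝ) = ∑ y ∈ F, ind (s(x, y) ∈ cubeE m) * 1 := by
        rw [Finset.sum_congr rfl (fun y hy => by rw [walk_ind_pos _ (hF y hy)])]
        simp
    _ ≤ ∑ y, ind (s(x, y) ∈ cubeE m) * 1 :=
        Finset.sum_le_sum_of_subset_of_nonneg (subset_univ F) fun y _ _ => by
          have := walk_ind_nonneg (s(x, y) ∈ cubeE m)
          linarith

private theorem gapl_split {V : Type} [DecidableEq V] (D C : Finset V) (f : V → ℝ) :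
    ∑ s ∈ D ∪ C, f s = ∑ s ∈ D, f s + ∑ s ∈ C \ D, f s := by
  rw [← sum_union disjoint_sdiff, union_sdiff_self_eq_union]

open Classical in
/-- the number of good boundary pairs -/
private theorem gapl_count (m : ℕ) (c1 : ℝ) (hc1 : 0 < c1) (R : ℕ)
    (hcap : ∀ S : Finset (Q m), S.card ≤ R → c1 * m * S.card ≤
      ∑ s ∈ S, ((univ.filter fun y => s(s, y) ∈ cubeE m ∧ y ∉ S ∧ c1 ≤ esc m S y).card : ℝ))
    (D C : Finset (Q m)) (n : ℕ) (hn : 2 * (D.card : ℝ) ≤ c1 * n) (hnC : n ≤ C.card)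
    (hR : (D ∪ C).card ≤ R) :
    c1 * m * C.card / 2 ≤ ∑ s ∈ C \ D,
      ((univ.filter fun y => s(s, y) ∈ cubeE m ∧ y ∉ D ∪ C ∧ c1 ≤ esc m (D ∪ C) y).card : ℝ) := by
  have h1 := hcap (D ∪ C) hR
  rw [gapl_split] at h1
  have h4 : ∑ s ∈ D, ((univ.filter fun y => s(s, y) ∈ cubeE m ∧ y ∉ D ∪ C ∧
      c1 ≤ esc m (D ∪ C) y).card : ℝ) ≤ D.card * m := by
    refine (Finset.sum_le_card_nsmul D _ (m : ℝ) fun s _ => gapl_deg m s _ fun y hy => ?_).trans ?_
    · rw [mem_filter] at hy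
      exact hy.2.1
    rw [nsmul_eq_mul]
  have h5 : (C.card : ℝ) ≤ (D ∪ C).card := by
    exact_mod_cast card_le_card subset_union_right
  have h6 : (n : ℝ) ≤ C.card := by exact_mod_cast hnC
  have hm0 : (0 : ℝ) ≤ m := Nat.cast_nonneg m
  have h7 : c1 * m * C.card ≤ c1 * m * (D ∪ C).card :=
    mul_le_mul_of_nonneg_left h5 (by positivity)
  have h8 : (D.card : ℝ) * m ≤ c1 * m * C.card / 2 := by
    have h9 : 2 * (D.card : ℝ) ≤ c1 * C.card :=
      hn.trans (mul_le_mul_of_nonneg_left h6 hc1.le)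
    have h10 := mul_le_mul_of_nonneg_right h9 hm0
    linarith
  linarith

private theorem gapl_off (m : ℕ) (c1 c4 p1 q e h' : ℝ) (R : ℕ) (hc1 : 0 < c1)
    (hc1' : c1 ≤ 1)
    (hc4 : 0 < c4) (hc4' : c4 ≤ 1) (hp0 : 0 ≤ p1) (hp1 : p1 ≤ 1) (hq0 : 0 ≤ q) (hq1 : q ≤ 1)
    (he0 : 0 < e) (he1 : e ≤ 1) (hqm : e / 8 ≤ q * m) (hh0 : 0 ≤ h')
    (hh : h' ≤ c1 * c4 / 128 * e ^ 2)
    (hcount : ∀ (D C : Finset (Q m)) (n : ℕ), 2 * (D.card : ℝ) ≤ c1 * n → n ≤ C.card →
      (D ∪ C).card ≤ R → c1 * m * C.card / 2 ≤ ∑ s ∈ C \ D,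
      ((univ.filter fun y => s(s, y) ∈ cubeE m ∧ y ∉ D ∪ C ∧ c1 ≤ esc m (D ∪ C) y).card : ℝ))
    (hgood : ∀ (S : Finset (Q m)) (y : Q m), S.card ≤ R → c1 ≤ esc m S y → y ∉ S →
      c4 * e ≤ Mh (offE (cubeE m) S) p1 h' y)
    (D : Finset (Q m)) (n R' : ℕ) (hn : 2 * (D.card : ℝ) ≤ c1 * n)
    (hR : D.card + R' ≤ R) (A : Finset (Q m)) :
    Ex (offE (offE (cubeE m) D) A) p1 (fun ζ => Ex (offE (cubeE m) D) q (fun η =>
      gaplG (c1 * c4 / 64 * e ^ 2) n R' (cls (ζ ∪ η) A).card)) ≤ 0 := by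
  classical
  set κ : ℝ := c1 * c4 / 64 * e ^ 2 with hκ
  set t : ℝ := c4 * e with ht
  have hκ0 : 0 ≤ κ := by positivity
  have ht0 : 0 ≤ t := by positivity
  have ht1 : t ≤ 1 := by nlinarith
  have hc14 : c1 * c4 ≤ 1 := by nlinarith
  have he2 : e ^ 2 ≤ 1 := by nlinarith
  have hce : c1 * c4 * e ^ 2 ≤ 1 := by
    have : 0 ≤ c1 * c4 := by positivity
    nlinarith [sq_nonneg e]
  have hh1 : h' ≤ 1 / 2 := by linarith
  have h1h : 0 ≤ 1 - h' := by linarith
  have h1h' : 1 - h' ≤ 1 := by linarith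
  have hnn : ∀ (S : Finset (Q m)) (y : Q m), 0 ≤ gaplS m R c1 t D S y := by
    intro S y
    unfold gaplS
    split_ifs
    · exact ht0
    · exact le_rfl
  have key := b_gatom (offE (cubeE m) D) p1 q hp0 hp1 hq0 hq1 (fun _ => 1 - h') (fun _ => h1h)
    (fun _ => h1h') (gaplS m R c1 t D) hnn
    (by
      intro S y
      unfold gaplS
      split_ifs
      · exact ht1
      · exact zero_le_one)
    (by
      intro S S' y hSS _
      unfold gaplS
      by_cases hc : (D ∪ S').card ≤ R ∧ y ∉ D ∪ S' ∧ c1 ≤ esc m (D ∪ S') y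
      · have hsub : D ∪ S ⊆ D ∪ S' := union_subset_union_right hSS
        rw [if_pos hc, if_pos ⟨(card_le_card hsub).trans hc.1, fun h => hc.2.1 (hsub h),
          hc.2.2.trans (gapl_esc_anti m _ _ y hsub)⟩]
      · rw [if_neg hc]
        split_ifs
        · exact ht0
        · exact le_rfl)
    (by
      intro S y _
      simp only [prod_const]
      unfold gaplS
      by_cases hc : (D ∪ S).card ≤ R ∧ y ∉ D ∪ S ∧ c1 ≤ esc m (D ∪ S) y
      · rw [if_pos hc, xb_offE_offE]
        have h1 := hgood (D ∪ S) y hc.1 hc.2.2 hc.2.1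
        unfold Mh at h1
        linarith
      · rw [if_neg hc, sub_zero]
        exact xb_Ex_le _ _ hp0 hp1 _ _ fun ω _ => pow_le_one₀ h1h h1h')
    A
  have hfin : Ex (offE (offE (cubeE m) D) A) p1 (fun ζ => Ex (offE (cubeE m) D) q (fun η =>
      gaplG κ n R' (cls (ζ ∪ η) A).card)) ≤
      Ex (offE (offE (cubeE m) D) A) p1 (fun ζ => Ex (offE (cubeE m) D) q (fun η =>
      (∏ x ∈ cls (ζ ∪ η) A, ∏ y ∈ univ.filter (fun y => y ∉ cls (ζ ∪ η) A ∧
        s(x, y) ∈ offE (cubeE m) D), (1 + q * gaplS m R c1 t D (cls (ζ ∪ η) A) y)) *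
          (∏ z ∈ cls (ζ ∪ η) A \ A, (1 - h')) - 1)) := by
    refine Ex_mono _ _ hp0 hp1 _ _ fun ζ _ => ?_
    refine Ex_mono _ _ hq0 hq1 _ _ fun η _ => ?_
    set C := cls (ζ ∪ η) A with hC
    have hpr1 : ∀ x ∈ C, (1 : ℝ) ≤ ∏ y ∈ univ.filter (fun y => y ∉ C ∧
        s(x, y) ∈ offE (cubeE m) D), (1 + q * gaplS m R c1 t D C y) := by
      intro x _
      calc (1 : ℝ) = ∏ y ∈ univ.filter (fun y => y ∉ C ∧ s(x, y) ∈ offE (cubeE m) D), (1 : ℝ) := by
            rw [prod_const_one]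
        _ ≤ _ := prod_le_prod (fun _ _ => zero_le_one) fun y _ => by
            have := mul_nonneg hq0 (hnn C y)
            linarith
    have hprod1 : (1 : ℝ) ≤ ∏ x ∈ C, ∏ y ∈ univ.filter (fun y => y ∉ C ∧
        s(x, y) ∈ offE (cubeE m) D), (1 + q * gaplS m R c1 t D C y) := by
      calc (1 : ℝ) = ∏ x ∈ C, (1 : ℝ) := by rw [prod_const_one]
        _ ≤ _ := prod_le_prod (fun _ _ => zero_le_one) hpr1
    have hρ0 : 0 ≤ ∏ z ∈ C \ A, (1 - h') := prod_nonneg fun _ _ => h1h
    have hρ1 : (1 - h') ^ C.card ≤ ∏ z ∈ C \ A, (1 - h') := by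
      rw [prod_const]
      exact pow_le_pow_of_le_one h1h h1h' (card_le_card sdiff_subset)
    set W := (∏ x ∈ C, ∏ y ∈ univ.filter (fun y => y ∉ C ∧ s(x, y) ∈ offE (cubeE m) D),
      (1 + q * gaplS m R c1 t D C y)) * ∏ z ∈ C \ A, (1 - h') with hW
    have hW0 : 0 ≤ W := mul_nonneg (by linarith) hρ0
    have hk0 : (0 : ℝ) ≤ C.card := Nat.cast_nonneg _
    have hgoal : gaplG κ n R' C.card ≤ W - 1 := ?_
    · exact hgoal
    unfold gaplG
    by_cases hk : R' < C.card
    · have e1 : ind (n ≤ C.card ∧ C.card ≤ R') = 0 := by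
        unfold ind
        rw [if_neg (fun h => absurd h.2 (not_le.2 hk))]
      have e2 : ind (R' < C.card) = 1 := by
        unfold ind
        rw [if_pos hk]
      have e3 := xb_ind_nonneg (C.card < n)
      rw [e1, e2]
      have e4 : 0 ≤ κ * ((C.card : ℝ) * ind (C.card < n)) := by positivity
      linarith
    · have hk' : C.card ≤ R' := not_lt.1 hk
      have e2 : ind (R' < C.card) = 0 := by
        unfold ind
        rw [if_neg hk]
      by_cases hn2 : n ≤ C.card
      · have e1 : ind (n ≤ C.card ∧ C.card ≤ R') = 1 := by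
          unfold ind
          rw [if_pos ⟨hn2, hk'⟩]
        have e3 : ind (C.card < n) = 0 := by
          unfold ind
          rw [if_neg (not_lt.2 hn2)]
        rw [e1, e2, e3]
        have hDC : (D ∪ C).card ≤ R := (card_union_le _ _).trans (by omega)
        have hcnt := hcount D C n hn hn2 hDC
        have hu1 : q * t ≤ 1 := by nlinarith
        have hu0 : 0 ≤ q * t := mul_nonneg hq0 ht0
        have hinner : ∀ x ∈ C \ D,
            (1 + q * t) ^ (univ.filter fun y => s(x, y) ∈ cubeE m ∧ y ∉ D ∪ C ∧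
              c1 ≤ esc m (D ∪ C) y).card ≤
            ∏ y ∈ univ.filter (fun y => y ∉ C ∧ s(x, y) ∈ offE (cubeE m) D),
              (1 + q * gaplS m R c1 t D C y) := by
          intro x hx
          rw [mem_sdiff] at hx
          rw [← prod_const]
          have hsub : (univ.filter fun y => s(x, y) ∈ cubeE m ∧ y ∉ D ∪ C ∧
              c1 ≤ esc m (D ∪ C) y) ⊆
              univ.filter (fun y => y ∉ C ∧ s(x, y) ∈ offE (cubeE m) D) := by
            intro y hy
            rw [mem_filter, mem_union, not_or] at hy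
            rw [mem_filter, xb_mem_offE]
            exact ⟨hy.1, hy.2.2.1.2, hy.2.1, hx.2, hy.2.2.1.1⟩
          calc ∏ y ∈ univ.filter (fun y => s(x, y) ∈ cubeE m ∧ y ∉ D ∪ C ∧
                c1 ≤ esc m (D ∪ C) y), (1 + q * t)
              = ∏ y ∈ univ.filter (fun y => s(x, y) ∈ cubeE m ∧ y ∉ D ∪ C ∧
                c1 ≤ esc m (D ∪ C) y), (1 + q * gaplS m R c1 t D C y) := by
                refine prod_congr rfl fun y hy => ?_
                rw [mem_filter] at hy
                unfold gaplS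
                rw [if_pos ⟨hDC, hy.2.2⟩]
            _ ≤ ∏ y ∈ univ.filter (fun y => y ∉ C ∧ s(x, y) ∈ offE (cubeE m) D),
                (1 + q * gaplS m R c1 t D C y) := by
                refine prod_le_prod_of_subset_of_one_le hsub (fun y _ => ?_) (fun y _ _ => ?_)
                · have := mul_nonneg hq0 (hnn C y)
                  linarith
                · have := mul_nonneg hq0 (hnn C y)
                  linarith
        set M : ℕ := ∑ x ∈ C \ D, (univ.filter fun y => s(x, y) ∈ cubeE m ∧ y ∉ D ∪ C ∧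
          c1 ≤ esc m (D ∪ C) y).card with hM
        have hMR : (M : ℝ) = ∑ x ∈ C \ D, ((univ.filter fun y => s(x, y) ∈ cubeE m ∧
            y ∉ D ∪ C ∧ c1 ≤ esc m (D ∪ C) y).card : ℝ) := by
          rw [hM]; push_cast; rfl
        have hprod : (1 + q * t) ^ M ≤ ∏ x ∈ C, ∏ y ∈ univ.filter (fun y => y ∉ C ∧
            s(x, y) ∈ offE (cubeE m) D), (1 + q * gaplS m R c1 t D C y) := by
          refine le_trans (b := ∏ x ∈ C \ D, ∏ y ∈ univ.filter (fun y => y ∉ C ∧
            s(x, y) ∈ offE (cubeE m) D), (1 + q * gaplS m R c1 t D C y)) ?_ ?_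
          · rw [hM, ← prod_pow_eq_pow_sum]
            exact prod_le_prod (fun x _ => by positivity) hinner
          · exact prod_le_prod_of_subset_of_one_le sdiff_subset
              (fun x hx => zero_le_one.trans (hpr1 x (sdiff_subset hx))) (fun x hx _ => hpr1 x hx)
        have hexpN : Real.exp (q * t / 2 * M) ≤ (1 + q * t) ^ M := by
          rw [mul_comm, Real.exp_nat_mul]
          exact pow_le_pow_left₀ (Real.exp_pos _).le (gapl_exp_half _ hu0 hu1) M
        have hρ : Real.exp (-(2 * h') * C.card) ≤ ∏ z ∈ C \ A, (1 - h') := by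
          refine le_trans ?_ hρ1
          rw [mul_comm, Real.exp_nat_mul]
          exact pow_le_pow_left₀ (Real.exp_pos _).le (gapl_exp_two h' hh0 hh1) _
        have hWk : Real.exp (κ * C.card) ≤ W := by
          have he : Real.exp (κ * C.card) ≤ Real.exp (q * t / 2 * M) *
              Real.exp (-(2 * h') * C.card) := by
            rw [← Real.exp_add]
            refine Real.exp_le_exp.2 ?_
            have h1 : q * t / 2 * (c1 * m * C.card / 2) ≤ q * t / 2 * M := by
              rw [hMR]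
              exact mul_le_mul_of_nonneg_left hcnt (by positivity)
            have h2 : q * t / 2 * (c1 * m * C.card / 2) = (q * m) * (t * c1 * C.card / 4) := by
              ring
            have h3 : e / 8 * (t * c1 * C.card / 4) ≤ (q * m) * (t * c1 * C.card / 4) :=
              mul_le_mul_of_nonneg_right hqm (by positivity)
            have h4 : e / 8 * (t * c1 * C.card / 4) = 2 * κ * C.card := by
              rw [ht, hκ]
              ring
            have h5 : 2 * h' * C.card ≤ κ * C.card := by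
              refine mul_le_mul_of_nonneg_right ?_ hk0
              rw [hκ]
              linarith
            linarith
          refine he.trans ?_
          exact mul_le_mul (hexpN.trans hprod) hρ (Real.exp_pos _).le (by linarith)
        linarith
      · have e1 : ind (n ≤ C.card ∧ C.card ≤ R') = 0 := by
          unfold ind
          rw [if_neg (fun h => hn2 h.1)]
        have e3 : ind (C.card < n) = 1 := by
          unfold ind
          rw [if_pos (not_le.1 hn2)]
        rw [e1, e2, e3]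
        have hWl : 1 - κ * C.card ≤ W := by
          have h1 : 1 + (C.card : ℝ) * (-h') ≤ (1 + (-h')) ^ C.card :=
            one_add_mul_le_pow (by linarith) _
          have h2 : (1 + (-h')) ^ C.card = (1 - h') ^ C.card := by
            rw [← sub_eq_add_neg]
          have h3 : h' * C.card ≤ κ * C.card := by
            refine mul_le_mul_of_nonneg_right ?_ hk0
            rw [hκ]
            have : 0 ≤ c1 * c4 * e ^ 2 := by positivity
            linarith
          have h4 : ∏ z ∈ C \ A, (1 - h') ≤ W := by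
            have := mul_le_mul_of_nonneg_right hprod1 hρ0
            rw [one_mul] at this
            exact this
          rw [h2] at h1
          linarith
        linarith
  simp only [Ex_sub, Ex_const] at hfin
  linarith

open Classical in
theorem gapl (m : ℕ) (hm : 2 ≤ m) (c1 c4 p1 q e h' : ℝ) (R : ℕ) (hc1 : 0 < c1) (hc1' : c1 ≤ 1)
    (hc4 : 0 < c4) (hc4' : c4 ≤ 1) (hp0 : 0 ≤ p1) (hp1 : p1 ≤ 1) (hq0 : 0 ≤ q) (hq1 : q ≤ 1)
    (he0 : 0 < e) (he1 : e ≤ 1) (hqm : e / 8 ≤ q * m) (hh0 : 0 ≤ h')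
    (hh : h' ≤ c1 * c4 / 128 * e ^ 2)
    (hcap : ∀ S : Finset (Q m), S.card ≤ R → c1 * m * S.card ≤
      ∑ s ∈ S, ((univ.filter fun y => s(s, y) ∈ cubeE m ∧ y ∉ S ∧ c1 ≤ esc m S y).card : ℝ))
    (hgood : ∀ (S : Finset (Q m)) (y : Q m), S.card ≤ R → c1 ≤ esc m S y → y ∉ S →
      c4 * e ≤ Mh (offE (cubeE m) S) p1 h' y)
    (D : Finset (Q m)) (x : Q m) (n R' : ℕ) (hn : 2 * (D.card : ℝ) ≤ c1 * n)
    (hR : D.card + R' ≤ R) :
    Ex (offE (cubeE m) D) (p1 + q - p1 * q) (fun ω =>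
      (Real.exp (c1 * c4 / 64 * e ^ 2 * (cl ω x).card) - 1) *
        ind (n ≤ (cl ω x).card ∧ (cl ω x).card ≤ R')) ≤
    Ex (offE (cubeE m) D) (p1 + q - p1 * q) (fun ω => ind (R' < (cl ω x).card)) +
      c1 * c4 / 64 * e ^ 2 * Ex (offE (cubeE m) D) (p1 + q - p1 * q) (fun ω =>
        ((cl ω x).card : ℝ) * ind ((cl ω x).card < n)) := by
  classical
  have hmain : Ex (offE (cubeE m) D) (p1 + q - p1 * q) (fun ω =>
      gaplG (c1 * c4 / 64 * e ^ 2) n R' (cl ω x).card) ≤ 0 := by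
    rw [xb_Ex_two]
    have h1 : Ex (offE (cubeE m) D) p1 (fun ζ => Ex (offE (cubeE m) D) q (fun η =>
        gaplG (c1 * c4 / 64 * e ^ 2) n R' (cl (ζ ∪ η) x).card)) =
        Ex (offE (cubeE m) D) p1 (fun ζ => (fun (A : Finset (Q m)) (_ ζ2 : Finset (Sym2 (Q m))) =>
          Ex (offE (cubeE m) D) q (fun η =>
            gaplG (c1 * c4 / 64 * e ^ 2) n R' (cls (ζ2 ∪ η) A).card)) (cl ζ x)
            (ζ \ offE (offE (cubeE m) D) (cl ζ x))
            (ζ ∩ offE (offE (cubeE m) D) (cl ζ x))) := by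
      refine Ex_congr _ _ _ _ fun ζ hζ => ?_
      refine Ex_congr _ _ _ _ fun η _ => ?_
      have hcl : cl (ζ ∪ η) x = cls (ζ ∩ offE (offE (cubeE m) D) (cl ζ x) ∪ η) (cl ζ x) := by
        rw [← cls_singleton (ζ ∪ η) x]
        rw [xb_cls_absorb (ζ ∪ η) (ζ ∩ offE (offE (cubeE m) D) (cl ζ x) ∪ η) {x} (cl ζ x)
          (union_subset_union_left inter_subset_left)
          (by rw [cls_singleton]; exact cl_mono _ _ subset_union_left x)]
        · congr 1
          rw [union_eq_right, singleton_subset_iff]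
          exact mem_cl_self ζ x
        · intro a b hab hab'
          rw [mem_union] at hab
          rw [mem_union, not_or, mem_inter, not_and] at hab'
          rcases hab with hab | hab
          · have h3 := hab'.1 hab
            rw [xb_mem_offE] at h3
            have h4 : a ∈ cl ζ x ∨ b ∈ cl ζ x := by
              by_contra hcon
              rw [not_or] at hcon
              exact h3 ⟨hζ hab, hcon.1, hcon.2⟩
            rcases h4 with h4 | h4
            · exact ⟨h4, cl_closed ζ x a b h4 hab⟩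
            · refine ⟨cl_closed ζ x b a h4 ?_, h4⟩
              rw [Sym2.eq_swap]
              exact hab
          · exact absurd hab hab'.2
      rw [hcl]
    rw [h1, b_mark_cl (offE (cubeE m) D) x p1
      (fun (A : Finset (Q m)) (_ ζ2 : Finset (Sym2 (Q m))) =>
          Ex (offE (cubeE m) D) q (fun η =>
            gaplG (c1 * c4 / 64 * e ^ 2) n R' (cls (ζ2 ∪ η) A).card))]
    refine xb_Ex_le _ _ hp0 hp1 _ _ fun ζ _ => ?_
    exact gapl_off m c1 c4 p1 q e h' R hc1 hc1' hc4 hc4' hp0 hp1 hq0 hq1 he0 he1 hqm hh0 hh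
      (fun D C n hn hnC hR => gapl_count m c1 hc1 R hcap D C n hn hnC hR)
      hgood D n R' hn hR (cl ζ x)
  unfold gaplG at hmain
  rw [Ex_sub, Ex_sub, Ex_mul_left] at hmain
  linarith

end Pool.Agent.Work.MP_b7dc8a_pr
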