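import Pool.Agent.Work.MP_b7dc8a_pr.F.Def
import Pool.Agent.Work.MP_b7dc8a_pr.B.Mark
import Pool.Agent.Work.MP_b7dc8a_pr.B.Obst

/-! Definitions for the module family F, groups B, G, I, U (do not change) -/

namespace Pool.Agent.Work.MP_b7dc8a_pr

open Finset

/-- `E [|C(x)|^k (1-h)^|C(x)|]` -/
noncomputable def mo {V : Type} [Fintype V] (E : Finset (Sym2 V)) (p h : ℝ) (k : ℕ) (x : V) : ℝ :=
  Ex E p (fun ω => ((cl ω x).card : ℝ) ^ k * (1 - h) ^ (cl ω x).card)

/-- `P(x <-> y, the cluster of x contains no ghost)` -/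
noncomputable def tf {V : Type} [Fintype V] (E : Finset (Sym2 V)) (p h : ℝ) (x y : V) : ℝ :=
  Ex E p (fun ω => ind (y ∈ cl ω x) * (1 - h) ^ (cl ω x).card)

/-- triangle diagram -/
noncomputable def tri {V : Type} [Fintype V] (E : Finset (Sym2 V)) (p : ℝ) (x y : V) : ℝ :=
  ∑ u, ∑ w, tau E p x u * tau E p u w * tau E p w y

/-- `E [|C(u)| (1-h)^|C(u)| ; a, b ∉ C(u), b ∉ C(a), C(a) and C(b) are hit by ghosts]` -/
noncomputable def Jf {V : Type} [Fintype V] (E : Finset (Sym2 V)) (p h : ℝ) (u a b : V) : ℝ :=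
  Ex E p (fun ω => ((cl ω u).card : ℝ) * (1 - h) ^ (cl ω u).card *
    (ind (a ∉ cl ω u) * ind (b ∉ cl ω u) * ind (b ∉ cl ω a)) *
    ((1 - (1 - h) ^ (cl ω a).card) * (1 - (1 - h) ^ (cl ω b).card)))

/-- expectation over the percolation configuration `ω` on `E` (parameter `p`) and an independent
random set `G` of vertices (`ghosts`, density `h`) -/
noncomputable def EG {V : Type} [Fintype V] (E : Finset (Sym2 V)) (p h : ℝ)
    (F : Finset (Sym2 V) → Finset V → ℝ) : ℝ :=
  Ex E p (fun ω => Ex (univ : Finset V) h (fun G => F ω G))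

/-- complex valued version of `EG` -/
noncomputable def EGC {V : Type} [Fintype V] (E : Finset (Sym2 V)) (p h : ℝ)
    (F : Finset (Sym2 V) → Finset V → ℂ) : ℂ :=
  ExC E p (fun ω => ExC (univ : Finset V) h (fun G => F ω G))

open Classical in
/-- the vertices outside `D` which are connected to `G` by edges which do not touch `D` -/
noncomputable def WW {V : Type} [Fintype V] [DecidableEq V] (E : Finset (Sym2 V)) (D : Finset V)
    (ω : Finset (Sym2 V)) (G : Finset V) : Finset V :=
  univ.filter fun z => z ∉ D ∧ z ∈ cls (ω ∩ offE E D) G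

open Classical in
/-- the number of vertices outside `D` which are not connected to `G` by edges which do not touch
`D` -/
noncomputable def NN {V : Type} [Fintype V] [DecidableEq V] (E : Finset (Sym2 V)) (D : Finset V)
    (ω : Finset (Sym2 V)) (G : Finset V) : ℝ :=
  ((univ.filter fun z => z ∉ D ∧ z ∉ cls (ω ∩ offE E D) G).card : ℝ)

/-- the number of vertices which lose the connection to `G` when `A` is removed -/
noncomputable def DL {V : Type} [Fintype V] [DecidableEq V] (E : Finset (Sym2 V)) (D A : Finset V)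
    (ω : Finset (Sym2 V)) (G : Finset V) : ℝ :=
  (A.card : ℝ) + NN E (D ∪ A) ω G - NN E D ω G

/-- `1 + e^2 |D|` -/
noncomputable def bb {V : Type} (e : ℝ) (D : Finset V) : ℝ := 1 + e ^ 2 * (D.card : ℝ)

end Pool.Agent.Work.MP_b7dc8a_pr
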