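import Pool.Agent.Work.MP_b7dc8a_pr.F.Choffl
import Pool.Agent.Work.MP_b7dc8a_pr.F.DefG
import Pool.Agent.Work.MP_b7dc8a_pr.B.Dct

/-! Module HGL (S): magnetization outside `S` at a vertex which escapes from `S`.

`X = A/e >= 1`. `choffl` (with `c = c1`, `p = ps`): `chi (offE _ S) ps y >= c1 X/8`. `b_dctb` with
`E = offE (cubeE m) S`, `pa = ps`, `p2 = p1`, `h = e^2/A` (`chi E ps b <= chi (cubeE m) ps b = X`):
`Mh E p1 h y >= min (1/4) (min (h chi/4) (chi/(2X) (1 - ps/p1)))`, and `h chi/4 >= (e^2/A) (c1 A/(8e))/4 =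
c1 e/32`, `1 - ps/p1 >= 1 - 1/(1+e/4) >= e/5`, so the last is `>= (c1/16) (e/5) = c1 e/80`. -/

namespace Pool.Agent.Work.MP_b7dc8a_pr

open Finset

theorem hgl (c1 A : ℝ) (hc : 0 < c1) (hc1 : c1 ≤ 1) (hA : 1 ≤ A) : ∃ m0 : ℕ, ∀ m ≥ m0,
    ∀ ps p1 e : ℝ, 0 < e → e ≤ 1 → A / e ≤ (2 : ℝ) ^ (2 * (m : ℝ) / 5) → 0 ≤ ps →
    ps * m ≤ 1 + 5000 * dl m → 1 - 1 / (m : ℝ) ^ 2 ≤ ps * ((m : ℝ) - 1) →
    (∀ x, chi (cubeE m) ps x = A / e) → ps * (1 + e / 4) ≤ p1 → p1 < 1 →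
    ∀ (S : Finset (Q m)) (y : Q m), (S.card : ℝ) * (A / e) ≤ c1 / 8 * 2 ^ m → c1 ≤ esc m S y →
    y ∉ S → c1 / 100 * e ≤ Mh (offE (cubeE m) S) p1 (e ^ 2 / A) y := by
  obtain ⟨m1, hm1⟩ := choffl c1 hc hc1
  refine ⟨max m1 2, fun m hm ps p1 e he0 he1 hX2 hps0 hpsm hpsm1 hchi hp1 hp1' S y hS hesc hy => ?_⟩
  have hm1' : m1 ≤ m := (le_max_left _ _).trans hm
  have hm2 : (2 : ℝ) ≤ m := by exact_mod_cast (le_max_right m1 2).trans hm
  have hA0 : 0 < A := by linarith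
  have hX1 : 1 ≤ A / e := by
    rw [le_div_iff₀ he0]
    linarith
  have hX0 : 0 < A / e := by linarith
  have hps : 0 < ps := by
    have h1 : 0 < 1 - 1 / (m : ℝ) ^ 2 := by
      rw [sub_pos, div_lt_one (by positivity)]
      nlinarith
    rcases hps0.lt_or_eq with h | h
    · exact h
    · rw [← h] at hpsm1
      simp only [zero_mul] at hpsm1
      linarith
  have hpp : ps ≤ p1 := by nlinarith
  have hps1 : ps ≤ 1 := by linarith
  have hp10 : 0 < p1 := lt_of_lt_of_le hps hpp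
  have hch := hm1 m hm1' (A / e) ps hX1 hX2 hps0 hpsm hpsm1 hchi S y hS hesc hy
  have hh0 : 0 < e ^ 2 / A := by positivity
  have hh1 : e ^ 2 / A ≤ 1 := by
    rw [div_le_one hA0]
    nlinarith
  have hd := b_dctb (offE (cubeE m) S) ps p1 (e ^ 2 / A) (A / e) hps hpp hp1' hh0 hh1 hX0
    (fun b => by
      rw [← hchi b]
      exact xb_chi_mono_E (cubeE m) _ (xb_offE_subset _ _) ps hps0 hps1 b) y
  refine le_trans ?_ hd
  have hce : c1 * e ≤ 1 := by nlinarith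
  refine le_min (by linarith) (le_min ?_ ?_)
  · have h1 : e ^ 2 / A * (c1 * (A / e) / 8) ≤ e ^ 2 / A * chi (offE (cubeE m) S) ps y :=
      mul_le_mul_of_nonneg_left hch hh0.le
    have h2 : e ^ 2 / A * (c1 * (A / e) / 8) = c1 * e / 8 := by
      field_simp
    rw [h2] at h1
    have h3 : 0 < c1 * e := by positivity
    linarith
  · have h1 : c1 / 16 ≤ chi (offE (cubeE m) S) ps y / (2 * (A / e)) := by
      rw [le_div_iff₀ (by positivity)]
      linarith
    have h2 : e / 5 ≤ 1 - ps / p1 := by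
      have h3 : ps / p1 ≤ 1 - e / 5 := by
        rw [div_le_iff₀ hp10]
        have h4 : (1 - e / 5) * (ps * (1 + e / 4)) ≤ (1 - e / 5) * p1 :=
          mul_le_mul_of_nonneg_left hp1 (by linarith)
        have h5 : ps ≤ (1 - e / 5) * (ps * (1 + e / 4)) := by
          have h6 : 0 ≤ ps * (e * (1 - e)) :=
            mul_nonneg hps0 (mul_nonneg he0.le (by linarith))
          nlinarith
        linarith
      linarith
    have h3 := mul_le_mul h1 h2 (by positivity) (by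
      have := (by positivity : 0 < c1 / 16)
      linarith)
    have h4 : c1 / 16 * (e / 5) = c1 * e / 80 := by ring
    rw [h4] at h3
    have h5 : 0 < c1 * e := by positivity
    linarith

end Pool.Agent.Work.MP_b7dc8a_pr
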