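import Pool.Agent.Work.MP_b7dc8a_pr.F.DefZ
import Pool.Agent.Work.MP_b7dc8a_pr.F.Bft
import Pool.Agent.Work.MP_b7dc8a_pr.F.Bpm
import Pool.Agent.Work.MP_b7dc8a_pr.F.Hgl
import Pool.Agent.Work.MP_b7dc8a_pr.F.Gapl
import Pool.Agent.Work.MP_b7dc8a_pr.F.Capl
import Pool.Agent.Work.MP_b7dc8a_pr.B.Choff

/-! Module BFG (M): the gap inequality at `p ∈ [pa (1+e/2), pa (1+2e)]`.

Given `c1 ∈ (0,1]` (the constant of `capl_good`, hypothesis `hcap`), `c4 = c1/100`, `A >= 1`, `A >= 128/(c1 c4)`;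
`c8 = c1/(8A)`, `R = RG c8 m e <= c8 e 2^m`, `w = e^3 2^m >= w0 = (A/δ)^3` (and `>= 1`).
`ps`: `A/e <= δ V^(1/3) = chi pa`, so `b_chip` (with `pc := pa`, `X = A/e`) gives `ps <= pa` with `chi ps = A/e`
everywhere. `A/e <= 2^(2m/5)` for large `m`; `ps m <= pa m <= 1 + 5000 dl m`; `bpm_low`: `(A/e - 1)(1 - ps (m-1)) <= ps m
<= 2`, `A/e - 1 >= 2 m^2`: `1 - 1/m^2 <= ps (m-1)`. `p1 = pa (1 + e/4) >= ps (1 + e/4)`.
`hgood`: for `|S| <= R`: `|S| A/e <= c8 A 2^m = (c1/8) 2^m`; `hgl` for `p1`; for `p' >= p1` by monotonicity in `p`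
(`Ex_mono_p`).
`gap`: `q = (p - p1)/(1 - p1)`, `p = p1 + q - p1 q`, `q >= p - p1 >= pa e/4`, `q m >= e/8`, `q <= 1`; `gapl` with `h' = e^2/A
<= c1 c4/128 e^2`, `hcap` for `|S| <= R <= 2^(m - m/40)` (`c8 e <= 2^(-m/36)`). -/

namespace Pool.Agent.Work.MP_b7dc8a_pr

open Finset

/-- the numerical facts for large `m` -/
private theorem bfg_num (δ : ℝ) : ∃ m0 : ℕ, ∀ m ≥ m0,
    δ * ((2 : ℝ) ^ m) ^ (1 / 3 : ℝ) ≤ (2 : ℝ) ^ (2 * (m : ℝ) / 5) ∧
    2 * (m : ℝ) ^ 2 + 1 ≤ (2 : ℝ) ^ ((m : ℝ) / 36) := by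
  have h1 : Filter.Tendsto (fun m : ℕ => ((2 : ℝ) ^ (1 / 15 : ℝ)) ^ m) Filter.atTop Filter.atTop :=
    tendsto_pow_atTop_atTop_of_one_lt (Real.one_lt_rpow (by norm_num) (by norm_num))
  obtain ⟨m1, hm1⟩ := Filter.eventually_atTop.1 (h1.eventually (Filter.eventually_ge_atTop δ))
  have h : Filter.Tendsto (fun x : ℝ => x ^ (2 : ℝ) * Real.exp (-(Real.log 2 / 36) * x))
      Filter.atTop (nhds 0) :=
    tendsto_rpow_mul_exp_neg_mul_atTop_nhds_zero 2 _ (by positivity)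
  have h2 := (h.comp tendsto_natCast_atTop_atTop).eventually (gt_mem_nhds (show (0 : ℝ) < 1 / 3 by
    norm_num))
  obtain ⟨m2, hm2⟩ := Filter.eventually_atTop.1 h2
  refine ⟨max (max m1 m2) 1, fun m hm => ⟨?_, ?_⟩⟩
  · have h3 := hm1 m (((le_max_left _ _).trans (le_max_left _ _)).trans hm)
    have e1 : ((2 : ℝ) ^ m) ^ (1 / 3 : ℝ) = (2 : ℝ) ^ ((m : ℝ) / 3) := by
      rw [← Real.rpow_natCast, ← Real.rpow_mul (by norm_num)]
      congr 1
      ring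
    have e2 : ((2 : ℝ) ^ (1 / 15 : ℝ)) ^ m = (2 : ℝ) ^ ((m : ℝ) / 15) := by
      rw [← Real.rpow_natCast, ← Real.rpow_mul (by norm_num)]
      congr 1
      ring
    rw [e2] at h3
    rw [e1]
    calc δ * (2 : ℝ) ^ ((m : ℝ) / 3) ≤ (2 : ℝ) ^ ((m : ℝ) / 15) * (2 : ℝ) ^ ((m : ℝ) / 3) :=
          mul_le_mul_of_nonneg_right h3 (by positivity)
      _ = (2 : ℝ) ^ (2 * (m : ℝ) / 5) := by
          rw [← Real.rpow_add (by norm_num)]
          congr 1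
          ring
  · have h3 := (hm2 m (((le_max_right _ _).trans (le_max_left _ _)).trans hm)).le
    simp only [Function.comp] at h3
    have hm1 : (1 : ℝ) ≤ m := by exact_mod_cast (le_max_right _ _).trans hm
    have h4 : (2 : ℝ) ^ ((m : ℝ) / 36) = (Real.exp (-(Real.log 2 / 36) * m))⁻¹ := by
      rw [Real.rpow_def_of_pos (by norm_num), ← Real.exp_neg]
      congr 1
      ring
    have h5 : (m : ℝ) ^ (2 : ℝ) = (m : ℝ) ^ 2 := by
      rw [← Real.rpow_natCast]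
      norm_num
    rw [h5] at h3
    rw [h4]
    have h6 : 0 < Real.exp (-(Real.log 2 / 36) * m) := Real.exp_pos _
    rw [← one_div, le_div_iff₀ h6]
    have h7 : 2 * (m : ℝ) ^ 2 + 1 ≤ 3 * (m : ℝ) ^ 2 := by nlinarith
    have h8 := mul_le_mul_of_nonneg_right h7 h6.le
    linarith

open Classical in
theorem bfg (c1 A δ : ℝ) (hc1 : 0 < c1) (hc1' : c1 ≤ 1) (hA : 1 ≤ A)
    (hA2 : 128 / (c1 * (c1 / 100)) ≤ A) (hδ : 0 < δ) : ∃ (w0 : ℝ) (m0 : ℕ), 1 ≤ w0 ∧ ∀ m ≥ m0,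
    (∀ S : Finset (Q m), (S.card : ℝ) ≤ (2 : ℝ) ^ ((m : ℝ) - m / 40) → c1 * m * S.card ≤
      ∑ s ∈ S, ((univ.filter fun y => s(s, y) ∈ cubeE m ∧ y ∉ S ∧ c1 ≤ esc m S y).card : ℝ)) →
    ∀ pa e : ℝ, 0 < pa → Bas δ m pa → 0 < e → e ≤ (2 : ℝ) ^ (-(m : ℝ) / 36) →
    w0 ≤ e ^ 3 * 2 ^ m →
    (∀ (p' : ℝ) (S : Finset (Q m)) (y : Q m), pa * (1 + e / 4) ≤ p' → p' < 1 →
      S.card ≤ RG (c1 / (8 * A)) m e → c1 ≤ esc m S y → y ∉ S →
      c1 / 100 * e ≤ Mh (offE (cubeE m) S) p' (e ^ 2 / A) y) ∧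
    ∀ p : ℝ, pa * (1 + e / 2) ≤ p → p ≤ pa * (1 + 2 * e) →
    ∀ (D : Finset (Q m)) (x : Q m) (n R' : ℕ), 2 * (D.card : ℝ) ≤ c1 * n →
      D.card + R' ≤ RG (c1 / (8 * A)) m e →
      Ex (offE (cubeE m) D) p (fun ω =>
        (Real.exp (c1 * (c1 / 100) / 64 * e ^ 2 * (cl ω x).card) - 1) *
          ind (n ≤ (cl ω x).card ∧ (cl ω x).card ≤ R')) ≤
      Ex (offE (cubeE m) D) p (fun ω => ind (R' < (cl ω x).card)) +
        c1 * (c1 / 100) / 64 * e ^ 2 * Ex (offE (cubeE m) D) p (fun ω =>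
          ((cl ω x).card : ℝ) * ind ((cl ω x).card < n)) := by
  obtain ⟨m1, hm1⟩ := hgl c1 A hc1 hc1' hA
  obtain ⟨m2, hm2⟩ := bfg_num δ
  obtain ⟨m3, hm3⟩ := xn_dl 5000 1 one_pos
  have hA0 : 0 < A := by linarith
  refine ⟨max 1 ((A / δ) ^ 3), max (max m1 m2) (max m3 8), le_max_left _ _, ?_⟩
  intro m hm hcap pa e hpa0 hB he0 he hw
  have k1 := hm1 m (((le_max_left _ _).trans (le_max_left _ _)).trans hm)
  obtain ⟨k2, k2'⟩ := hm2 m (((le_max_right _ _).trans (le_max_left _ _)).trans hm)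
  have k3 := hm3 m (((le_max_left _ _).trans (le_max_right _ _)).trans hm)
  have hm8 : 8 ≤ m := ((le_max_right _ _).trans (le_max_right _ _)).trans hm
  have hm8' : (8 : ℝ) ≤ m := by exact_mod_cast hm8
  obtain ⟨hlow, hup, hup2, hchi, hM⟩ := hB
  have hw3 : (A / δ) ^ 3 ≤ e ^ 3 * 2 ^ m := (le_max_right _ _).trans hw
  -- `e ≤ 1`
  have hepow : (2 : ℝ) ^ (-(m : ℝ) / 36) = ((2 : ℝ) ^ ((m : ℝ) / 36))⁻¹ := by
    rw [← Real.rpow_neg (by norm_num)]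
    congr 1
    ring
  have h36 : 0 < (2 : ℝ) ^ ((m : ℝ) / 36) := by positivity
  have he36 : e * (2 : ℝ) ^ ((m : ℝ) / 36) ≤ 1 := by
    rw [hepow] at he
    calc e * (2 : ℝ) ^ ((m : ℝ) / 36) ≤ ((2 : ℝ) ^ ((m : ℝ) / 36))⁻¹ * (2 : ℝ) ^ ((m : ℝ) / 36) :=
          mul_le_mul_of_nonneg_right he h36.le
      _ = 1 := inv_mul_cancel₀ h36.ne'
  have hem : e * (2 * (m : ℝ) ^ 2 + 1) ≤ 1 := (mul_le_mul_of_nonneg_left k2' he0.le).trans he36
  have he1 : e ≤ 1 := by nlinarith [mul_nonneg he0.le (sq_nonneg (m : ℝ))]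
  -- `A / e ≤ chi pa`
  set Y : ℝ := ((2 : ℝ) ^ m) ^ (1 / 3 : ℝ) with hY
  have hY0 : 0 < Y := by positivity
  have hY3 : Y ^ 3 = 2 ^ m := by
    rw [hY, ← Real.rpow_natCast, ← Real.rpow_mul (by positivity)]
    norm_num
  have h1 : A / δ ≤ e * Y := by
    have : (A / δ) ^ 3 ≤ (e * Y) ^ 3 := by rw [mul_pow, hY3]; exact hw3
    exact le_of_pow_le_pow_left₀ (by norm_num) (by positivity) this
  have hX : A / e ≤ δ * Y := by
    rw [div_le_iff₀ he0]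
    rw [div_le_iff₀ hδ] at h1
    linarith
  have hX1 : 1 ≤ A / e := by
    rw [le_div_iff₀ he0]
    linarith
  have hpam2 : pa * m ≤ 2 := by linarith
  have hpa1 : pa ≤ 1 / 4 := by nlinarith
  obtain ⟨ps, hps0, hpspa, hpschi, -⟩ := b_chip m (by omega) pa (A / e) hpa0.le (by linarith) hX1
    (fun _ => false) (by rw [hchi]; exact hX)
  have hpsm : ps * m ≤ pa * m := mul_le_mul_of_nonneg_right hpspa (by positivity)
  have hlow2 : 1 - 1 / (m : ℝ) ^ 2 ≤ ps * ((m : ℝ) - 1) := by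
    have h2 := bpm_low m (by omega) ps hps0 (by linarith) (fun _ => false)
    rw [hpschi] at h2
    by_contra hcon
    push Not at hcon
    have h3 : 1 / (m : ℝ) ^ 2 < 1 - ps * ((m : ℝ) - 1) := by linarith
    have h4 : 2 * (m : ℝ) ^ 2 ≤ A / e - 1 := by
      have h5 : 2 * (m : ℝ) ^ 2 + 1 ≤ A / e := by
        rw [le_div_iff₀ he0]
        linarith
      linarith
    have h6 : 2 < (A / e - 1) * (1 - ps * ((m : ℝ) - 1)) := by
      calc (2 : ℝ) = 2 * (m : ℝ) ^ 2 * (1 / (m : ℝ) ^ 2) := by field_simp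
        _ < 2 * (m : ℝ) ^ 2 * (1 - ps * ((m : ℝ) - 1)) :=
            mul_lt_mul_of_pos_left h3 (by positivity)
        _ ≤ (A / e - 1) * (1 - ps * ((m : ℝ) - 1)) := by
            refine mul_le_mul_of_nonneg_right h4 ?_
            have : 0 < 1 / (m : ℝ) ^ 2 := by positivity
            linarith
    linarith
  have hgood : ∀ (p' : ℝ) (S : Finset (Q m)) (y : Q m), pa * (1 + e / 4) ≤ p' → p' < 1 →
      S.card ≤ RG (c1 / (8 * A)) m e → c1 ≤ esc m S y → y ∉ S →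
      c1 / 100 * e ≤ Mh (offE (cubeE m) S) p' (e ^ 2 / A) y := by
    intro p' S y hp' hp'1 hS hesc hy
    refine k1 ps p' e he0 he1 (hX.trans k2) hps0 (hpsm.trans hup) hlow2 hpschi ?_ hp'1 S y ?_
      hesc hy
    · exact (mul_le_mul_of_nonneg_right hpspa (by linarith)).trans hp'
    · have h2 : (S.card : ℝ) ≤ c1 / (8 * A) * e * 2 ^ m := by
        have h3 : (S.card : ℝ) ≤ (RG (c1 / (8 * A)) m e : ℝ) := by exact_mod_cast hS
        exact h3.trans (Nat.floor_le (by positivity))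
      calc (S.card : ℝ) * (A / e) ≤ c1 / (8 * A) * e * 2 ^ m * (A / e) :=
            mul_le_mul_of_nonneg_right h2 (by positivity)
        _ = c1 / 8 * 2 ^ m := by field_simp
  refine ⟨hgood, fun p hp1 hp2 D x n R' hn hR => ?_⟩
  set p1 : ℝ := pa * (1 + e / 4) with hp1def
  have hp10 : 0 ≤ p1 := by positivity
  have hp11 : p1 < 1 := by
    have : pa * (1 + e / 4) ≤ 1 / 4 * (1 + 1 / 4) := by
      apply mul_le_mul hpa1 (by linarith) (by positivity) (by norm_num)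
    linarith
  have hple : p ≤ 3 / 4 := by
    have : pa * (1 + 2 * e) ≤ 1 / 4 * (1 + 2 * 1) := by
      apply mul_le_mul hpa1 (by linarith) (by positivity) (by norm_num)
    linarith
  have hpp1 : pa * (e / 4) ≤ p - p1 := by
    rw [hp1def]
    nlinarith
  have hpae : 0 ≤ pa * (e / 4) := by positivity
  set q : ℝ := (p - p1) / (1 - p1) with hq
  have hq0 : 0 ≤ q := div_nonneg (by linarith) (by linarith)
  have hq1 : q ≤ 1 := by
    rw [hq, div_le_one (by linarith)]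
    linarith
  have hqp : p - p1 ≤ q := by
    rw [hq, le_div_iff₀ (by linarith)]
    nlinarith
  have hpq : p1 + q - p1 * q = p := by
    have : q * (1 - p1) = p - p1 := by
      rw [hq]
      exact div_mul_cancel₀ _ (by linarith)
    linarith
  have hqm : e / 8 ≤ q * m := by
    have h2 : pa * (e / 4) * m ≤ q * m :=
      mul_le_mul_of_nonneg_right (hpp1.trans hqp) (by positivity)
    have h3 : pa * (e / 4) * m = pa * m * (e / 4) := by ring
    have h4 : 1 / 2 * (e / 4) ≤ pa * m * (e / 4) := mul_le_mul_of_nonneg_right hlow (by linarith)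
    linarith
  have hhA : e ^ 2 / A ≤ c1 * (c1 / 100) / 128 * e ^ 2 := by
    have hcc : 0 < c1 * (c1 / 100) := by positivity
    rw [div_le_iff₀ hcc] at hA2
    rw [div_le_iff₀ hA0]
    have : 0 ≤ e ^ 2 := by positivity
    nlinarith
  have hcap2 : ∀ S : Finset (Q m), S.card ≤ RG (c1 / (8 * A)) m e → c1 * m * S.card ≤
      ∑ s ∈ S, ((univ.filter fun y => s(s, y) ∈ cubeE m ∧ y ∉ S ∧ c1 ≤ esc m S y).card : ℝ) := by
    intro S hS
    refine hcap S ?_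
    have h2 : (S.card : ℝ) ≤ c1 / (8 * A) * e * 2 ^ m := by
      have h3 : (S.card : ℝ) ≤ (RG (c1 / (8 * A)) m e : ℝ) := by exact_mod_cast hS
      exact h3.trans (Nat.floor_le (by positivity))
    have h4 : c1 / (8 * A) ≤ 1 := by
      rw [div_le_one (by positivity)]
      linarith
    calc (S.card : ℝ) ≤ c1 / (8 * A) * e * 2 ^ m := h2
      _ ≤ 1 * e * 2 ^ m := by gcongr
      _ ≤ 1 * (2 : ℝ) ^ (-(m : ℝ) / 36) * 2 ^ m := by gcongr
      _ = (2 : ℝ) ^ (-(m : ℝ) / 36 + m) := by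
          rw [one_mul, Real.rpow_add (by norm_num), Real.rpow_natCast]
      _ ≤ (2 : ℝ) ^ ((m : ℝ) - m / 40) := by
          apply Real.rpow_le_rpow_of_exponent_le (by norm_num)
          linarith
  have hfin := gapl m (by omega) c1 (c1 / 100) p1 q e (e ^ 2 / A) (RG (c1 / (8 * A)) m e) hc1 hc1'
    (by positivity) (by linarith) hp10 hp11.le hq0 hq1 he0 he1 hqm (by positivity) hhA hcap2
    (fun S y hS hesc hy => hgood p1 S y le_rfl hp11 hS hesc hy) D x n R' hn hR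
  rw [hpq] at hfin
  exact hfin

end Pool.Agent.Work.MP_b7dc8a_pr
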