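import Pool.Agent.Work.MP_b7dc8a_pr.F.DefG

/-! Module MOM (M): moments `mo (offE _ D) p h k x <= C e^(1-2k) bb e D^k` from a tail bound (T), an
exponential moment bound (G) for medium clusters, and (H) for the large ones.

Fix `D, x`; `C = cl ω x` under `Ex (offE (cubeE m) D) p`; `b = bb e D >= 1`. `n = ⌈2 b/(c1 e^2)⌉`, so
`2 |D| <= c1 n` (`b/e^2 >= |D|`), `n >= e^(-2)`, `n <= 3 b/(c1 e^2)`. `R' = R/2` (integer division).
By (T) and monotonicity in the graph (`xb_wt_mono_E`, `Θ A = ind (j <= |A|)`):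
`P(|C| >= j) <= Cu (sqrt (1/j) + e)`.
(1) `Ex (|C|^k ind (|C| < n)) <= ∑_{1 <= j < n} k j^(k-1) P(|C| >= j) <= k Cu (2 n^k/sqrt n + e n^k) <=
 3 k Cu e n^k <= C e (b/e^2)^k` (`e sqrt n >= 1`; `a^k = ∑_{j<=a} (j^k - (j-1)^k) <= ∑_{j<=a} k j^(k-1)`).
 `mom_first` is this bound, in the form used by other modules.
(2) `Ex (|C|^k ind (n <= |C| <= R'))`: if `2 |D| > R` then `n >= 2|D| > R >= R'`: the sum is `0`.
 Otherwise `|D| + R' <= R`, and `y^k <= k! (exp y - 1)` (`k >= 1`, `y >= 0`) with `y = s1 e^2 |C|` and (G):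
 `<= k! (s1 e^2)^(-k) (P(R' < |C|) + s1 e^2 Ex (|C| ind (|C| < n)))`, and `P(R' < |C|) <= 2 Cu e`
 since `R' + 1 >= R/2 >= e^(-2)`, and (1) with `k = 1`: `s1 e^2 * C e b/e^2 = C s1 e b`. Total
 `<= C e^(-2k) e b <= C e (b/e^2)^k`.
(3) `Ex (|C|^k (1-h)^|C| ind (R' < |C|)) <= Ck e^(-2k) P(R' < |C|) <= 2 Cu Ck e e^(-2k)` by (H)
 (`R' < |C|` implies `R <= 2 |C|`).
`mob`: expand `bb e (D ∪ C)^j <= (bb e D + e^2 |C|)^j = ∑_i (j choose i) bb e D^(j-i) e^(2i) |C|^i` and
 use the bounds for `mo (k+i)`: `bb^(j-i) e^(2i) * C0 e^(1-2(k+i)) bb^(k+i) = C0 e^(1-2k) bb^(k+j)`;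
 for `k = 0` the term `i = 0` is at most `1`. -/

namespace Pool.Agent.Work.MP_b7dc8a_pr

open Finset

private theorem mom_step (k : ℕ) (a : ℝ) (ha : 0 ≤ a) :
    (a + 1) ^ (k + 1) - a ^ (k + 1) ≤ (k + 1) * (a + 1) ^ k := by
  induction k with
  | zero => norm_num
  | succ k ih =>
    have h1 : (a + 1) ^ (k + 1 + 1) - a ^ (k + 1 + 1) =
        (a + 1) * ((a + 1) ^ (k + 1) - a ^ (k + 1)) + a ^ (k + 1) := by ring
    have h2 : a ^ (k + 1) ≤ (a + 1) ^ (k + 1) := pow_le_pow_left₀ ha (by linarith) _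
    have h3 : (a + 1) * ((a + 1) ^ (k + 1) - a ^ (k + 1)) ≤ (a + 1) * ((k + 1) * (a + 1) ^ k) :=
      mul_le_mul_of_nonneg_left ih (by linarith)
    rw [h1]
    push_cast
    calc _ ≤ (a + 1) * ((k + 1) * (a + 1) ^ k) + (a + 1) ^ (k + 1) := add_le_add h3 h2
      _ = _ := by ring

private theorem mom_pow_sum (k a : ℕ) :
    (a : ℝ) ^ (k + 1) ≤ ∑ j ∈ Finset.range a, ((k : ℝ) + 1) * ((j : ℝ) + 1) ^ k := by
  induction a with
  | zero => simp
  | succ a ih =>
    rw [Finset.sum_range_succ]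
    have h := mom_step k (a : ℝ) (Nat.cast_nonneg a)
    push_cast
    linarith

private theorem mom_sqrt_sum (n : ℕ) :
    ∑ j ∈ Finset.range n, Real.sqrt (1 / ((j : ℝ) + 1)) ≤ 2 * Real.sqrt n := by
  induction n with
  | zero => simp
  | succ n ih =>
    rw [Finset.sum_range_succ]
    have hn : (0 : ℝ) ≤ n := Nat.cast_nonneg n
    have h1 : 0 < Real.sqrt ((n : ℝ) + 1) := Real.sqrt_pos.2 (by linarith)
    have h2 : Real.sqrt (1 / ((n : ℝ) + 1)) = 1 / Real.sqrt ((n : ℝ) + 1) := by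
      rw [Real.sqrt_div zero_le_one, Real.sqrt_one]
    have h3 : Real.sqrt n ≤ Real.sqrt ((n : ℝ) + 1) := Real.sqrt_le_sqrt (by linarith)
    have h4 := Real.sq_sqrt hn
    have h5 := Real.sq_sqrt (show (0 : ℝ) ≤ (n : ℝ) + 1 by linarith)
    have h6 : 1 / Real.sqrt ((n : ℝ) + 1) ≤ 2 * (Real.sqrt ((n : ℝ) + 1) - Real.sqrt n) := by
      rw [div_le_iff₀ h1]
      nlinarith [Real.sqrt_nonneg (n : ℝ), Real.sqrt_nonneg ((n : ℝ) + 1)]
    rw [h2]
    push_cast
    linarith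

/-- the tail bound outside a set -/
private theorem mom_tail (m : ℕ) (e p Cu : ℝ) (hp0 : 0 ≤ p) (hp1 : p ≤ 1)
    (hT : ∀ (j : ℕ) (x : Q m), 1 ≤ j →
      Ex (cubeE m) p (fun ω => ind (j ≤ (cl ω x).card)) ≤ Cu * (Real.sqrt (1 / j) + e))
    (D : Finset (Q m)) (x : Q m) (j : ℕ) (hj : 1 ≤ j) :
    Ex (offE (cubeE m) D) p (fun ω => ind (j ≤ (cl ω x).card)) ≤
      Cu * (Real.sqrt (1 / j) + e) := by
  refine le_trans ?_ (hT j x hj)
  exact xb_wt_mono_E (cubeE m) (offE (cubeE m) D) (xb_offE_subset _ _) p hp0 hp1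
    (fun A => ind (j ≤ A.card))
    (fun A B hAB => xb_ind_mono fun h => h.trans (Finset.card_le_card hAB)) x

theorem mom_first (k : ℕ) (hk : 1 ≤ k) (m : ℕ) (e p Cu : ℝ) (n : ℕ) (he0 : 0 < e)
    (hn : 1 / e ^ 2 ≤ n) (hp0 : 0 ≤ p) (hp1 : p ≤ 1) (hCu : 0 ≤ Cu)
    (hT : ∀ (j : ℕ) (x : Q m), 1 ≤ j →
      Ex (cubeE m) p (fun ω => ind (j ≤ (cl ω x).card)) ≤ Cu * (Real.sqrt (1 / j) + e))
    (D : Finset (Q m)) (x : Q m) :
    Ex (offE (cubeE m) D) p (fun ω => ((cl ω x).card : ℝ) ^ k * ind ((cl ω x).card < n)) ≤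
      3 * k * Cu * e * (n : ℝ) ^ k := by
  obtain ⟨k, rfl⟩ : ∃ k', k = k' + 1 := ⟨k - 1, by omega⟩
  have hn0 : (0 : ℝ) ≤ n := Nat.cast_nonneg n
  have h1 : Ex (offE (cubeE m) D) p
      (fun ω => ((cl ω x).card : ℝ) ^ (k + 1) * ind ((cl ω x).card < n)) ≤
      Ex (offE (cubeE m) D) p (fun ω => ∑ j ∈ Finset.range n,
        (((k : ℝ) + 1) * ((j : ℝ) + 1) ^ k) * ind (j + 1 ≤ (cl ω x).card)) := by
    refine Ex_mono _ p hp0 hp1 _ _ fun ω _ => ?_
    by_cases hlt : (cl ω x).card < n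
    · have e1 : ind ((cl ω x).card < n) = 1 := by simp [ind, hlt]
      rw [e1, mul_one]
      refine (mom_pow_sum k _).trans ?_
      rw [← Finset.sum_subset (s₁ := Finset.range (cl ω x).card) (s₂ := Finset.range n)]
      · refine Finset.sum_le_sum fun j hj => ?_
        have hj' := Finset.mem_range.1 hj
        have e2 : ind (j + 1 ≤ (cl ω x).card) = 1 := by
          have : j + 1 ≤ (cl ω x).card := hj'
          simp [ind, this]
        rw [e2, mul_one]
      · exact Finset.range_subset_range.2 hlt.le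
      · intro j _ hj
        have hj' : ¬ j + 1 ≤ (cl ω x).card := fun h => hj (Finset.mem_range.2 h)
        simp [ind, hj']
    · have e1 : ind ((cl ω x).card < n) = 0 := by simp [ind, hlt]
      rw [e1, mul_zero]
      exact Finset.sum_nonneg fun j _ => mul_nonneg (by positivity) (xb_ind_nonneg _)
  refine h1.trans ?_
  rw [Ex_sum]
  have h2 : ∀ j ∈ Finset.range n, Ex (offE (cubeE m) D) p
      (fun ω => (((k : ℝ) + 1) * ((j : ℝ) + 1) ^ k) * ind (j + 1 ≤ (cl ω x).card)) ≤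
      (((k : ℝ) + 1) * (n : ℝ) ^ k) * (Cu * (Real.sqrt (1 / ((j : ℝ) + 1)) + e)) := by
    intro j hj
    have hj' := Finset.mem_range.1 hj
    rw [Ex_mul_left]
    have h3 := mom_tail m e p Cu hp0 hp1 hT D x (j + 1) (by omega)
    push_cast at h3
    have h4 : ((j : ℝ) + 1) ^ k ≤ (n : ℝ) ^ k := by
      apply pow_le_pow_left₀ (by positivity)
      exact_mod_cast hj'
    refine mul_le_mul ?_ h3 ?_ (by positivity)
    · exact mul_le_mul_of_nonneg_left h4 (by positivity)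
    · exact xb_Ex_nonneg _ p hp0 hp1 _ fun ω _ => xb_ind_nonneg _
  refine (Finset.sum_le_sum h2).trans ?_
  rw [← Finset.mul_sum, ← Finset.mul_sum, Finset.sum_add_distrib, Finset.sum_const,
    Finset.card_range, nsmul_eq_mul]
  have h5 := mom_sqrt_sum n
  have h6 : Real.sqrt n ≤ e * n := by
    have h7 : 1 / e ≤ Real.sqrt n := by
      apply Real.le_sqrt_of_sq_le
      rw [div_pow, one_pow]
      exact hn
    have h8 : 1 ≤ e * Real.sqrt n := by
      rw [div_le_iff₀ he0] at h7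
      linarith
    have h9 := Real.sq_sqrt hn0
    nlinarith [Real.sqrt_nonneg (n : ℝ)]
  have h10 : ∑ j ∈ Finset.range n, Real.sqrt (1 / ((j : ℝ) + 1)) + (n : ℝ) * e ≤ 3 * (e * n) := by
    linarith
  push_cast
  calc ((k : ℝ) + 1) * (n : ℝ) ^ k * (Cu * (∑ j ∈ Finset.range n,
        Real.sqrt (1 / ((j : ℝ) + 1)) + (n : ℝ) * e))
      ≤ ((k : ℝ) + 1) * (n : ℝ) ^ k * (Cu * (3 * (e * n))) := by gcongr
    _ = _ := by ring

theorem mom (k : ℕ) (hk : 1 ≤ k) (Cu c1 s1 Ck : ℝ) (hCu : 0 ≤ Cu) (hc1 : 0 < c1) (hc1' : c1 ≤ 1)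
    (hs1 : 0 < s1) (hCk : 0 ≤ Ck) : ∃ C : ℝ, 0 < C ∧ ∀ (m : ℕ) (e p h : ℝ) (R : ℕ), 0 < e → e ≤ 1 →
    2 / e ^ 2 ≤ R → 0 ≤ p → p ≤ 1 → 0 ≤ h → h ≤ 1 →
    (∀ (j : ℕ) (x : Q m), 1 ≤ j →
      Ex (cubeE m) p (fun ω => ind (j ≤ (cl ω x).card)) ≤ Cu * (Real.sqrt (1 / j) + e)) →
    (∀ (D : Finset (Q m)) (x : Q m) (n R' : ℕ), 2 * (D.card : ℝ) ≤ c1 * n → D.card + R' ≤ R →
      Ex (offE (cubeE m) D) p (fun ω => (Real.exp (s1 * e ^ 2 * (cl ω x).card) - 1) *
        ind (n ≤ (cl ω x).card ∧ (cl ω x).card ≤ R')) ≤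
      Ex (offE (cubeE m) D) p (fun ω => ind (R' < (cl ω x).card)) +
        s1 * e ^ 2 * Ex (offE (cubeE m) D) p (fun ω =>
          ((cl ω x).card : ℝ) * ind ((cl ω x).card < n))) →
    (∀ n : ℕ, R ≤ 2 * n → (n : ℝ) ^ k * (1 - h) ^ n ≤ Ck / e ^ (2 * k)) →
    ∀ (D : Finset (Q m)) (x : Q m),
      mo (offE (cubeE m) D) p h k x ≤ C * e / e ^ (2 * k) * bb e D ^ k := by
  refine ⟨3 * k * Cu * (3 / c1) ^ k + (k.factorial : ℝ) / s1 ^ k *
    (2 * Cu + 9 * s1 * Cu / c1) + 2 * Cu * Ck + 1, by positivity, ?_⟩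
  intro m e p h R he0 he1 hR hp0 hp1 hh0 hh1 hT hG hH D x
  set E := offE (cubeE m) D with hE
  set b := bb e D with hb
  have hb1 : 1 ≤ b := by
    rw [hb]; unfold bb
    have : 0 ≤ e ^ 2 * (D.card : ℝ) := by positivity
    linarith
  have hbD : e ^ 2 * (D.card : ℝ) ≤ b := by
    rw [hb]; unfold bb; linarith
  set n : ℕ := ⌈2 * b / (c1 * e ^ 2)⌉₊ with hn
  have hce : 0 < c1 * e ^ 2 := by positivity
  have hn1 : 2 * b / (c1 * e ^ 2) ≤ n := Nat.le_ceil _
  have hn2 : (n : ℝ) ≤ 3 * b / (c1 * e ^ 2) := by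
    have h1 : (n : ℝ) ≤ 2 * b / (c1 * e ^ 2) + 1 := (Nat.ceil_lt_add_one (by positivity)).le
    have h2 : 1 ≤ b / (c1 * e ^ 2) := by
      rw [le_div_iff₀ hce, one_mul]
      have : c1 * e ^ 2 ≤ 1 * 1 := mul_le_mul hc1' (pow_le_one₀ he0.le he1) (by positivity) zero_le_one
      linarith
    have h3 : 3 * b / (c1 * e ^ 2) = 2 * b / (c1 * e ^ 2) + b / (c1 * e ^ 2) := by ring
    rw [h3]
    linarith
  have hDn : 2 * (D.card : ℝ) ≤ c1 * n := by
    rw [div_le_iff₀ hce] at hn1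
    have h1 : 2 * (e ^ 2 * (D.card : ℝ)) ≤ n * (c1 * e ^ 2) := by linarith
    have h2 : 0 < e ^ 2 := by positivity
    have h3 : e ^ 2 * (2 * (D.card : ℝ)) ≤ e ^ 2 * (c1 * n) := by linarith
    exact le_of_mul_le_mul_left h3 h2
  have hne : 1 / e ^ 2 ≤ n := by
    refine le_trans ?_ hn1
    rw [div_le_div_iff₀ (by positivity) hce]
    have h2 : 0 < e ^ 2 := by positivity
    nlinarith
  have hpow : ∀ (a : ℝ), 0 ≤ a → a ≤ a * b ^ k := fun a ha =>
    le_mul_of_one_le_right ha (one_le_pow₀ hb1)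
  have hbk : b ≤ b ^ k := le_self_pow₀ hb1 (by omega)
  -- (1)
  have P1 : Ex E p (fun ω => ((cl ω x).card : ℝ) ^ k * ind ((cl ω x).card < n)) ≤
      3 * k * Cu * (3 / c1) ^ k * (e / e ^ (2 * k) * b ^ k) := by
    refine (mom_first k hk m e p Cu n he0 hne hp0 hp1 hCu hT D x).trans ?_
    have h1 : (n : ℝ) ^ k ≤ (3 * b / (c1 * e ^ 2)) ^ k := pow_le_pow_left₀ (Nat.cast_nonneg n) hn2 k
    have h2 : (3 * b / (c1 * e ^ 2)) ^ k = (3 / c1) ^ k * (1 / e ^ (2 * k)) * b ^ k := by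
      rw [div_pow, mul_pow, mul_pow, div_pow, ← pow_mul]
      field_simp
    calc 3 * (k : ℝ) * Cu * e * (n : ℝ) ^ k ≤ 3 * (k : ℝ) * Cu * e * (3 * b / (c1 * e ^ 2)) ^ k := by
          gcongr
      _ = _ := by rw [h2]; ring
  -- probability of a large cluster
  have hbig : Ex E p (fun ω => ind (R / 2 < (cl ω x).card)) ≤ 2 * Cu * e := by
    have h1 := mom_tail m e p Cu hp0 hp1 hT D x (R / 2 + 1) (by omega)
    have h2 : Real.sqrt (1 / ((R / 2 + 1 : ℕ) : ℝ)) ≤ e := by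
      apply Real.sqrt_le_iff.2
      refine ⟨he0.le, ?_⟩
      have h3 : (1 : ℝ) / e ^ 2 ≤ ((R / 2 + 1 : ℕ) : ℝ) := by
        have h4 : R ≤ 2 * (R / 2 + 1) := by omega
        have h5 : (R : ℝ) ≤ 2 * ((R / 2 + 1 : ℕ) : ℝ) := by exact_mod_cast h4
        have h6 : 2 / e ^ 2 = 2 * (1 / e ^ 2) := by ring
        rw [h6] at hR
        linarith
      have h7 : 0 < e ^ 2 := by positivity
      rw [div_le_iff₀ h7] at h3
      rw [div_le_iff₀ (by positivity)]
      linarith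
    have h8 : Ex E p (fun ω => ind (R / 2 < (cl ω x).card)) =
        Ex E p (fun ω => ind (R / 2 + 1 ≤ (cl ω x).card)) := rfl
    rw [h8]
    refine h1.trans ?_
    nlinarith
  -- (2)
  have P2 : Ex E p (fun ω => ((cl ω x).card : ℝ) ^ k *
      ind (n ≤ (cl ω x).card ∧ (cl ω x).card ≤ R / 2)) ≤
      (k.factorial : ℝ) / s1 ^ k * (2 * Cu + 9 * s1 * Cu / c1) * (e / e ^ (2 * k) * b ^ k) := by
    by_cases hDR : R < 2 * D.card
    · have h1 : ∀ ω, ¬ (n ≤ (cl ω x).card ∧ (cl ω x).card ≤ R / 2) := by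
        rintro ω ⟨h2, h3⟩
        have h4 : 2 * D.card ≤ n := by
          have h5 : 2 * (D.card : ℝ) ≤ n := by
            refine hDn.trans ?_
            have : (0 : ℝ) ≤ n := Nat.cast_nonneg n
            nlinarith
          exact_mod_cast h5
        omega
      have h2 : Ex E p (fun ω => ((cl ω x).card : ℝ) ^ k *
          ind (n ≤ (cl ω x).card ∧ (cl ω x).card ≤ R / 2)) = Ex E p (fun _ => 0) :=
        Ex_congr _ _ _ _ fun ω _ => by simp [ind, h1 ω]
      rw [h2, Ex_const]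
      positivity
    · have hDR' : D.card + R / 2 ≤ R := by omega
      have hG' := hG D x n (R / 2) hDn hDR'
      have hs : 0 < (s1 * e ^ 2) ^ k := by positivity
      have hpt : ∀ a : ℝ, 0 ≤ a → a ^ k ≤ (k.factorial : ℝ) / (s1 * e ^ 2) ^ k *
          (Real.exp (s1 * e ^ 2 * a) - 1) := by
        intro a ha
        have h1 := Real.sum_le_exp_of_nonneg (x := s1 * e ^ 2 * a) (by positivity) (k + 1)
        have h2 : (1 : ℝ) + (s1 * e ^ 2 * a) ^ k / k.factorial ≤
            ∑ i ∈ Finset.range (k + 1), (s1 * e ^ 2 * a) ^ i / i.factorial := by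
          rw [Finset.sum_range_succ]
          have h3 : (1 : ℝ) ≤ ∑ i ∈ Finset.range k, (s1 * e ^ 2 * a) ^ i / i.factorial := by
            have h4 : (s1 * e ^ 2 * a) ^ 0 / ((0 : ℕ).factorial : ℝ) ≤
                ∑ i ∈ Finset.range k, (s1 * e ^ 2 * a) ^ i / i.factorial :=
              Finset.single_le_sum (f := fun i : ℕ => (s1 * e ^ 2 * a) ^ i / (i.factorial : ℝ))
                (fun i _ => by positivity) (Finset.mem_range.2 (by omega))
            simpa using h4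
          linarith
        have h5 : (s1 * e ^ 2 * a) ^ k / k.factorial ≤ Real.exp (s1 * e ^ 2 * a) - 1 := by linarith
        rw [div_mul_eq_mul_div, le_div_iff₀ hs]
        rw [div_le_iff₀ (by positivity)] at h5
        calc a ^ k * (s1 * e ^ 2) ^ k = (s1 * e ^ 2 * a) ^ k := by ring
          _ ≤ (Real.exp (s1 * e ^ 2 * a) - 1) * k.factorial := h5
          _ = _ := by ring
      have h1 : Ex E p (fun ω => ((cl ω x).card : ℝ) ^ k *
          ind (n ≤ (cl ω x).card ∧ (cl ω x).card ≤ R / 2)) ≤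
          Ex E p (fun ω => (k.factorial : ℝ) / (s1 * e ^ 2) ^ k *
            ((Real.exp (s1 * e ^ 2 * (cl ω x).card) - 1) *
            ind (n ≤ (cl ω x).card ∧ (cl ω x).card ≤ R / 2))) := by
        refine Ex_mono _ p hp0 hp1 _ _ fun ω _ => ?_
        rw [← mul_assoc]
        exact mul_le_mul_of_nonneg_right (hpt _ (Nat.cast_nonneg _)) (xb_ind_nonneg _)
      refine h1.trans ?_
      rw [Ex_mul_left]
      have h2 := mom_first 1 le_rfl m e p Cu n he0 hne hp0 hp1 hCu hT D x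
      simp only [pow_one, Nat.cast_one, mul_one] at h2
      have h3 : Ex E p (fun ω => (Real.exp (s1 * e ^ 2 * (cl ω x).card) - 1) *
          ind (n ≤ (cl ω x).card ∧ (cl ω x).card ≤ R / 2)) ≤
          (2 * Cu + 9 * s1 * Cu / c1) * e * b := by
        refine hG'.trans ?_
        have h4 : s1 * e ^ 2 * Ex E p (fun ω => ((cl ω x).card : ℝ) * ind ((cl ω x).card < n)) ≤
            9 * s1 * Cu / c1 * e * b := by
          calc s1 * e ^ 2 * Ex E p (fun ω => ((cl ω x).card : ℝ) * ind ((cl ω x).card < n))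
              ≤ s1 * e ^ 2 * (3 * Cu * e * (3 * b / (c1 * e ^ 2))) := by
                apply mul_le_mul_of_nonneg_left _ (by positivity)
                refine h2.trans ?_
                gcongr
            _ = 9 * s1 * Cu / c1 * e * b := by field_simp; ring
        have h5 : 2 * Cu * e ≤ 2 * Cu * e * b := le_mul_of_one_le_right (by positivity) hb1
        calc _ ≤ 2 * Cu * e * b + 9 * s1 * Cu / c1 * e * b := add_le_add (hbig.trans h5) h4
          _ = _ := by ring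
      calc (k.factorial : ℝ) / (s1 * e ^ 2) ^ k * Ex E p (fun ω =>
            (Real.exp (s1 * e ^ 2 * (cl ω x).card) - 1) *
            ind (n ≤ (cl ω x).card ∧ (cl ω x).card ≤ R / 2))
          ≤ (k.factorial : ℝ) / (s1 * e ^ 2) ^ k * ((2 * Cu + 9 * s1 * Cu / c1) * e * b ^ k) := by
            apply mul_le_mul_of_nonneg_left _ (by positivity)
            refine h3.trans ?_
            gcongr
        _ = _ := by
            rw [mul_pow, ← pow_mul]
            field_simp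
  -- (3)
  have P3 : Ex E p (fun ω => ((cl ω x).card : ℝ) ^ k * (1 - h) ^ (cl ω x).card *
      ind (R / 2 < (cl ω x).card)) ≤ 2 * Cu * Ck * (e / e ^ (2 * k) * b ^ k) := by
    have h1 : Ex E p (fun ω => ((cl ω x).card : ℝ) ^ k * (1 - h) ^ (cl ω x).card *
        ind (R / 2 < (cl ω x).card)) ≤
        Ex E p (fun ω => Ck / e ^ (2 * k) * ind (R / 2 < (cl ω x).card)) := by
      refine Ex_mono _ p hp0 hp1 _ _ fun ω _ => ?_
      by_cases hlt : R / 2 < (cl ω x).card
      · exact mul_le_mul_of_nonneg_right (hH _ (by omega)) (xb_ind_nonneg _)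
      · simp [ind, hlt]
    refine h1.trans ?_
    rw [Ex_mul_left]
    calc Ck / e ^ (2 * k) * Ex E p (fun ω => ind (R / 2 < (cl ω x).card))
        ≤ Ck / e ^ (2 * k) * (2 * Cu * e) := by
          apply mul_le_mul_of_nonneg_left hbig (by positivity)
      _ ≤ Ck / e ^ (2 * k) * (2 * Cu * e) * b ^ k := hpow _ (by positivity)
      _ = _ := by ring
  -- total
  have htot : mo E p h k x ≤
      Ex E p (fun ω => ((cl ω x).card : ℝ) ^ k * ind ((cl ω x).card < n)) +
      Ex E p (fun ω => ((cl ω x).card : ℝ) ^ k *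
        ind (n ≤ (cl ω x).card ∧ (cl ω x).card ≤ R / 2)) +
      Ex E p (fun ω => ((cl ω x).card : ℝ) ^ k * (1 - h) ^ (cl ω x).card *
        ind (R / 2 < (cl ω x).card)) := by
    unfold mo
    rw [← Ex_add, ← Ex_add]
    refine Ex_mono _ p hp0 hp1 _ _ fun ω _ => ?_
    set a := (cl ω x).card with ha
    have ha0 : (0 : ℝ) ≤ (a : ℝ) ^ k := by positivity
    have hq : (1 - h) ^ a ≤ 1 := pow_le_one₀ (by linarith) (by linarith)
    have hq0 : 0 ≤ (1 - h) ^ a := pow_nonneg (by linarith) _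
    have hle : (a : ℝ) ^ k * (1 - h) ^ a ≤ (a : ℝ) ^ k := mul_le_of_le_one_right ha0 hq
    have i0 := xb_ind_nonneg (a < n)
    have i1 := xb_ind_nonneg (n ≤ a ∧ a ≤ R / 2)
    have i2 := xb_ind_nonneg (R / 2 < a)
    by_cases h1 : a < n
    · have e1 : ind (a < n) = 1 := by simp [ind, h1]
      rw [e1, mul_one]
      have := mul_nonneg ha0 i1
      have := mul_nonneg (mul_nonneg ha0 hq0) i2
      linarith
    · by_cases h2 : a ≤ R / 2
      · have e1 : ind (n ≤ a ∧ a ≤ R / 2) = 1 := by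
          have : n ≤ a ∧ a ≤ R / 2 := ⟨by omega, h2⟩
          simp only [ind, if_pos this]
        rw [e1, mul_one]
        have := mul_nonneg ha0 i0
        have := mul_nonneg (mul_nonneg ha0 hq0) i2
        linarith
      · have e1 : ind (R / 2 < a) = 1 := by
          have : R / 2 < a := by omega
          simp only [ind, if_pos this]
        rw [e1, mul_one]
        have := mul_nonneg ha0 i0
        have := mul_nonneg ha0 i1
        linarith
  refine htot.trans ((add_le_add (add_le_add P1 P2) P3).trans ?_)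
  have hlast : 0 ≤ e / e ^ (2 * k) * b ^ k := by positivity
  have hfin : ∀ u v w z : ℝ, 0 ≤ z → u * z + v * z + w * z ≤ (u + v + w + 1) * z := by
    intro u v w z hz
    nlinarith
  have hre : ∀ u v w z : ℝ, u * (v / w * z) = u * v / w * z := by
    intro u v w z
    ring
  exact (hfin _ _ _ _ hlast).trans (le_of_eq (hre _ _ _ _))

/-- the same with an additional power of `bb` -/
theorem mob (m : ℕ) (K : ℕ) (C0 e p h : ℝ) (hC0 : 1 ≤ C0) (he0 : 0 < e) (he1 : e ≤ 1)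
    (hp0 : 0 ≤ p) (hp1 : p ≤ 1) (hh0 : 0 ≤ h) (hh1 : h ≤ 1)
    (hmo : ∀ (k : ℕ) (D : Finset (Q m)) (x : Q m), 1 ≤ k → k ≤ K →
      mo (offE (cubeE m) D) p h k x ≤ C0 * e / e ^ (2 * k) * bb e D ^ k)
    (k j : ℕ) (hkj : k + j ≤ K) (D : Finset (Q m)) (x : Q m) :
    Ex (offE (cubeE m) D) p (fun ω => ((cl ω x).card : ℝ) ^ k * (1 - h) ^ (cl ω x).card *
      bb e (D ∪ cl ω x) ^ j) ≤ 2 ^ j * C0 * (if k = 0 then 1 else e / e ^ (2 * k)) *
        bb e D ^ (k + j) := by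
  set E := offE (cubeE m) D with hE
  set b := bb e D with hb
  have hb1 : 1 ≤ b := by
    rw [hb]; unfold bb
    have : 0 ≤ e ^ 2 * (D.card : ℝ) := by positivity
    linarith
  have hb0 : 0 ≤ b := by linarith
  set W : ℝ := if k = 0 then 1 else e / e ^ (2 * k) with hW
  have h1 : Ex E p (fun ω => ((cl ω x).card : ℝ) ^ k * (1 - h) ^ (cl ω x).card *
      bb e (D ∪ cl ω x) ^ j) ≤ Ex E p (fun ω => ∑ i ∈ Finset.range (j + 1),
        ((j.choose i : ℝ) * e ^ (2 * i) * b ^ (j - i)) *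
          (((cl ω x).card : ℝ) ^ (k + i) * (1 - h) ^ (cl ω x).card)) := by
    refine Ex_mono _ p hp0 hp1 _ _ fun ω _ => ?_
    set a : ℝ := ((cl ω x).card : ℝ) with ha
    have ha0 : 0 ≤ a := Nat.cast_nonneg _
    have hq0 : 0 ≤ (1 - h) ^ (cl ω x).card := pow_nonneg (by linarith) _
    have h2 : bb e (D ∪ cl ω x) ≤ e ^ 2 * a + b := by
      rw [hb]
      unfold bb
      have h3 : ((D ∪ cl ω x).card : ℝ) ≤ (D.card : ℝ) + a := by
        rw [ha]
        exact_mod_cast Finset.card_union_le _ _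
      have h4 : 0 ≤ e ^ 2 := by positivity
      nlinarith
    have h5 : 0 ≤ bb e (D ∪ cl ω x) := by unfold bb; positivity
    have h6 : bb e (D ∪ cl ω x) ^ j ≤ (e ^ 2 * a + b) ^ j := pow_le_pow_left₀ h5 h2 j
    calc a ^ k * (1 - h) ^ (cl ω x).card * bb e (D ∪ cl ω x) ^ j
        ≤ a ^ k * (1 - h) ^ (cl ω x).card * (e ^ 2 * a + b) ^ j :=
          mul_le_mul_of_nonneg_left h6 (mul_nonneg (by positivity) hq0)
      _ = _ := by
          rw [add_pow, Finset.mul_sum]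
          refine Finset.sum_congr rfl fun i _ => ?_
          rw [mul_pow, ← pow_mul, pow_add]
          ring
  refine h1.trans ?_
  rw [Ex_sum]
  have h2 : ∀ i ∈ Finset.range (j + 1), Ex E p (fun ω =>
      ((j.choose i : ℝ) * e ^ (2 * i) * b ^ (j - i)) *
        (((cl ω x).card : ℝ) ^ (k + i) * (1 - h) ^ (cl ω x).card)) ≤
      (j.choose i : ℝ) * (C0 * W * b ^ (k + j)) := by
    intro i hi
    have hi' : i ≤ j := by have := Finset.mem_range.1 hi; omega
    rw [Ex_mul_left]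
    have hmo' : Ex E p (fun ω => ((cl ω x).card : ℝ) ^ (k + i) * (1 - h) ^ (cl ω x).card) =
        mo E p h (k + i) x := rfl
    rw [hmo', mul_assoc, mul_assoc]
    apply mul_le_mul_of_nonneg_left _ (Nat.cast_nonneg _)
    have hbpow : b ^ (j - i) * b ^ (k + i) = b ^ (k + j) := by
      rw [← pow_add]; congr 1; omega
    by_cases hki : k + i = 0
    · have hk0 : k = 0 := by omega
      have hi0 : i = 0 := by omega
      subst hk0
      subst hi0
      have h3 : mo E p h (0 + 0) x ≤ 1 := by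
        unfold mo
        refine xb_Ex_le _ p hp0 hp1 _ _ fun ω _ => ?_
        simp only [add_zero, pow_zero, one_mul]
        exact pow_le_one₀ (by linarith) (by linarith)
      have hW1 : W = 1 := by simp [hW]
      rw [hW1]
      simp only [mul_zero, pow_zero, one_mul, Nat.sub_zero, zero_add, mul_one]
      have h4 : 0 ≤ b ^ j := by positivity
      have h3' : mo E p h 0 x ≤ 1 := by simpa using h3
      calc b ^ j * mo E p h 0 x ≤ b ^ j * 1 := mul_le_mul_of_nonneg_left h3' h4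
        _ ≤ C0 * b ^ j := by nlinarith
    · have h3 := hmo (k + i) D x (by omega) (by omega)
      have h4 : e ^ (2 * i) * (b ^ (j - i) * mo E p h (k + i) x) ≤
          e ^ (2 * i) * (b ^ (j - i) * (C0 * e / e ^ (2 * (k + i)) * b ^ (k + i))) := by
        gcongr
      refine h4.trans ?_
      have h5 : e ^ (2 * i) * (b ^ (j - i) * (C0 * e / e ^ (2 * (k + i)) * b ^ (k + i))) =
          C0 * (e / e ^ (2 * k)) * (b ^ (j - i) * b ^ (k + i)) := by
        have h6 : e ^ (2 * (k + i)) = e ^ (2 * k) * e ^ (2 * i) := by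
          rw [← pow_add]; congr 1; ring
        rw [h6]
        field_simp
      rw [h5, hbpow]
      have h7 : e / e ^ (2 * k) ≤ W := by
        rw [hW]
        split_ifs with hk0
        · subst hk0
          simp only [mul_zero, pow_zero, div_one]
          exact he1
        · exact le_rfl
      gcongr
  refine (Finset.sum_le_sum h2).trans ?_
  rw [← Finset.sum_mul]
  have h3 : ∑ i ∈ Finset.range (j + 1), (j.choose i : ℝ) = 2 ^ j := by
    have := Nat.sum_range_choose j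
    exact_mod_cast this
  rw [h3]
  apply le_of_eq
  ring

end Pool.Agent.Work.MP_b7dc8a_pr
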