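import Pool.Agent.Work.MP_b7dc8a_pr.F.DefZ

/-! Module NUMF (S-M): elementary facts about `hF m e` and `RG c m e`, `RF c m e = RG c m e/2`.

Write `V = 2^m`, `w = e^3 V >= w0`, `u = w^(1/4) >= 1`, `hF = u/(e V)`, `e V = w/e^2 >= w`.
* `hF <= e^2`: `u/(e V) = u e^2/w <= e^2`. `hF/e^2 = u/w`.
* `c e V - 1 <= RG <= c e V`; `RF >= (c e V - 1)/2 - 1/2 >= (c/3) e V` if `c w/6 >= 1`; `RF <= c e V/2`;
 `2 B/e^2 <= RG` if `c w >= 2 B + 1` (multiply by `e^2 <= 1`), `2/e^2 <= RG` if `c w >= 3`.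
* `(1 - hF)^n <= exp (- hF n)` and `hF n >= (c/3) u` for `n >= RF`.
* `npow`: for `RG <= 2 n`, i.e. `n >= RG/2`, `y = hF n >= (c/3) u` (for large `w`):
 `n^k (1-hF)^n <= n^k exp (-y) = hF^(-k) y^k exp (-y/2) exp (-y/2)`, `y^k exp (-y/2) <= 2^k k!`,
 `exp (-y/2) <= exp (-(c/6) u)`, `hF^(-k) = (e V)^k/u^k <= (w/e^2)^k = u^(4k)/e^(2k)`, and
 `u^(4k) exp (-(c/6) u) <= (4k)! (6/c)^(4k)` (`Real.pow_div_factorial_le_exp`). -/

namespace Pool.Agent.Work.MP_b7dc8a_pr

open Finset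

theorem numf (c B : ℝ) (hc : 0 < c) (hB : 0 ≤ B) : ∃ w0 : ℝ, 1 ≤ w0 ∧ ∀ (m : ℕ) (e : ℝ), 0 < e →
    e ≤ 1 / 2 → w0 ≤ e ^ 3 * 2 ^ m →
    0 < hF m e ∧ hF m e ≤ e ^ 2 ∧ hF m e / e ^ 2 = (e ^ 3 * 2 ^ m) ^ (1 / 4 : ℝ) / (e ^ 3 * 2 ^ m) ∧
    1 ≤ RF c m e ∧ c / 3 * e * 2 ^ m ≤ RF c m e ∧ (RG c m e : ℝ) ≤ c * e * 2 ^ m ∧
    2 * B / e ^ 2 ≤ RG c m e ∧ 2 / e ^ 2 ≤ RG c m e ∧
    (∀ n : ℕ, RF c m e ≤ n → (1 - hF m e) ^ n ≤
      Real.exp (-(c / 3 * (e ^ 3 * 2 ^ m) ^ (1 / 4 : ℝ)))) ∧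
    (1 - hF m e) ^ RF c m e ≤ 1 / 2 := by
  refine ⟨1 + 6 / c + 2 * B / c + (3 / c) ^ 4, ?_, ?_⟩
  · have h1 : 0 < 6 / c := by positivity
    have h2 : 0 ≤ 2 * B / c := by positivity
    have h3 : 0 < (3 / c) ^ 4 := by positivity
    linarith
  intro m e he he2 hw
  have hc6 : 0 < 6 / c := by positivity
  have hc2 : 0 ≤ 2 * B / c := by positivity
  have hc4 : 0 < (3 / c) ^ 4 := by positivity
  set V : ℝ := 2 ^ m with hV
  have hVpos : 0 < V := by positivity
  set w : ℝ := e ^ 3 * V with hwdef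
  have hw1 : 1 ≤ w := by linarith
  have hwpos : 0 < w := by linarith
  have hcw6 : 6 ≤ c * w := by
    have : 6 / c ≤ w := by linarith
    have h := mul_le_mul_of_nonneg_left this hc.le
    rwa [mul_div_cancel₀ _ hc.ne'] at h
  have hcwB : 2 * B + 6 ≤ c * w := by
    have : (2 * B + 6) / c ≤ w := by
      rw [add_div]; linarith
    have h := mul_le_mul_of_nonneg_left this hc.le
    rwa [mul_div_cancel₀ _ hc.ne'] at h
  have heV : 0 < e * V := by positivity
  have he22 : e ^ 2 ≤ 1 / 4 := by nlinarith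
  have he2pos : 0 < e ^ 2 := by positivity
  have hweq : w = e ^ 2 * (e * V) := by rw [hwdef]; ring
  set u : ℝ := w ^ (1 / 4 : ℝ) with hu
  have hupos : 0 < u := Real.rpow_pos_of_pos hwpos _
  have hu1 : 1 ≤ u := Real.one_le_rpow hw1 (by norm_num)
  have huw : u ≤ w := by
    calc u ≤ w ^ (1 : ℝ) := Real.rpow_le_rpow_of_exponent_le hw1 (by norm_num)
      _ = w := Real.rpow_one w
  have hu4 : u ^ 4 = w := by
    rw [hu, ← Real.rpow_natCast, ← Real.rpow_mul hwpos.le]; norm_num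
  have hu3 : 3 / c ≤ u := by
    have h1 : (3 / c) ^ 4 ≤ u ^ 4 := by rw [hu4]; linarith
    exact le_of_pow_le_pow_left₀ (by norm_num) hupos.le h1
  have hhF : hF m e = u / (e * V) := rfl
  have hFpos : 0 < hF m e := by rw [hhF]; positivity
  have hFle : hF m e ≤ e ^ 2 := by
    rw [hhF, div_le_iff₀ heV]
    calc u ≤ w := huw
      _ = e ^ 2 * (e * V) := hweq
  have hFeq : hF m e / e ^ 2 = u / w := by
    rw [hhF, hweq]; field_simp
  have hX : c * w / e ^ 2 = c * e * V := by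
    rw [hweq]; field_simp
  have hX4 : 4 * (c * w) ≤ c * e * V := by
    rw [← hX, le_div_iff₀ he2pos]
    nlinarith
  have hRG1 : c * e * V - 1 < (RG c m e : ℝ) := by
    have := Nat.sub_one_lt_floor (c * e * V)
    exact this
  have hRG2 : (RG c m e : ℝ) ≤ c * e * V := Nat.floor_le (by positivity)
  have hRF0 : RG c m e ≤ 2 * RF c m e + 1 := by
    unfold RF; omega
  have hRF1 : (RG c m e : ℝ) ≤ 2 * (RF c m e : ℝ) + 1 := by exact_mod_cast hRF0
  have hRF2 : c / 3 * e * V ≤ (RF c m e : ℝ) := by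
    have : c / 3 * e * V = c * e * V / 3 := by ring
    rw [this]; linarith
  have hRF3 : 1 ≤ RF c m e := by
    have h1 : (1 : ℝ) ≤ (RF c m e : ℝ) := by
      have : c / 3 * e * V = c * e * V / 3 := by ring
      linarith
    exact_mod_cast h1
  have hinv : 4 ≤ 1 / e ^ 2 := by
    rw [le_div_iff₀ he2pos]; linarith
  have hRG3 : 2 * B / e ^ 2 ≤ (RG c m e : ℝ) := by
    have h1 : 2 * B / e ^ 2 ≤ c * w / e ^ 2 - 6 / e ^ 2 := by
      rw [← sub_div]
      exact div_le_div_of_nonneg_right (by linarith) he2pos.le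
    have h2 : (6 : ℝ) / e ^ 2 = 6 * (1 / e ^ 2) := by ring
    rw [hX] at h1
    linarith
  have hRG4 : 2 / e ^ 2 ≤ (RG c m e : ℝ) := by
    have h1 : 2 / e ^ 2 ≤ c * w / e ^ 2 - 4 / e ^ 2 := by
      rw [← sub_div]
      exact div_le_div_of_nonneg_right (by linarith) he2pos.le
    have h2 : (4 : ℝ) / e ^ 2 = 4 * (1 / e ^ 2) := by ring
    rw [hX] at h1
    linarith
  have hpow : ∀ n : ℕ, RF c m e ≤ n → (1 - hF m e) ^ n ≤ Real.exp (-(c / 3 * u)) := by
    intro n hn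
    have hn' : (RF c m e : ℝ) ≤ n := by exact_mod_cast hn
    have h0 : 0 ≤ 1 - hF m e := by linarith
    have h1 : 1 - hF m e ≤ Real.exp (-hF m e) := by
      have := Real.add_one_le_exp (-hF m e)
      linarith
    calc (1 - hF m e) ^ n ≤ (Real.exp (-hF m e)) ^ n := pow_le_pow_left₀ h0 h1 n
      _ = Real.exp (-(hF m e * n)) := by
          rw [← Real.exp_nat_mul]; ring_nf
      _ ≤ Real.exp (-(c / 3 * u)) := by
          apply Real.exp_le_exp.mpr
          have h2 : hF m e * (c / 3 * e * V) ≤ hF m e * n :=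
            mul_le_mul_of_nonneg_left (le_trans hRF2 hn') hFpos.le
          have h3 : hF m e * (c / 3 * e * V) = c / 3 * u := by
            rw [hhF]; field_simp
          linarith
  refine ⟨hFpos, hFle, hFeq, hRF3, hRF2, hRG2, hRG3, hRG4, hpow, ?_⟩
  refine le_trans (hpow _ le_rfl) ?_
  have h1 : 1 ≤ c / 3 * u := by
    have := mul_le_mul_of_nonneg_left hu3 (show 0 ≤ c / 3 by positivity)
    have h2 : c / 3 * (3 / c) = 1 := by field_simp
    linarith
  calc Real.exp (-(c / 3 * u)) ≤ Real.exp (-1) := Real.exp_le_exp.mpr (by linarith)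
    _ ≤ 1 / 2 := by
      rw [Real.exp_neg]
      have := Real.add_one_le_exp (1 : ℝ)
      rw [inv_le_comm₀ (Real.exp_pos _) (by norm_num)]
      linarith

theorem npow (c : ℝ) (hc : 0 < c) (k : ℕ) : ∃ Ck w0 : ℝ, 0 < Ck ∧ ∀ (m : ℕ) (e : ℝ), 0 < e →
    e ≤ 1 / 2 → w0 ≤ e ^ 3 * 2 ^ m → ∀ n : ℕ, RG c m e ≤ 2 * n →
    (n : ℝ) ^ k * (1 - hF m e) ^ n ≤ Ck / e ^ (2 * k) := by
  refine ⟨2 ^ k * (k.factorial : ℝ) * ((4 * k).factorial : ℝ) * (6 / c) ^ (4 * k), 1 + 6 / c,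
    by positivity, ?_⟩
  intro m e he he2 hw n hn
  have hc6 : 0 < 6 / c := by positivity
  set V : ℝ := 2 ^ m with hV
  have hVpos : 0 < V := by positivity
  set w : ℝ := e ^ 3 * V with hwdef
  have hw1 : 1 ≤ w := by linarith
  have hwpos : 0 < w := by linarith
  have hcw6 : 6 ≤ c * w := by
    have : 6 / c ≤ w := by linarith
    have h := mul_le_mul_of_nonneg_left this hc.le
    rwa [mul_div_cancel₀ _ hc.ne'] at h
  have heV : 0 < e * V := by positivity
  have he22 : e ^ 2 ≤ 1 / 4 := by nlinarith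
  have he2pos : 0 < e ^ 2 := by positivity
  have hweq : w = e ^ 2 * (e * V) := by rw [hwdef]; ring
  set u : ℝ := w ^ (1 / 4 : ℝ) with hu
  have hupos : 0 < u := Real.rpow_pos_of_pos hwpos _
  have hu1 : 1 ≤ u := Real.one_le_rpow hw1 (by norm_num)
  have huw : u ≤ w := by
    calc u ≤ w ^ (1 : ℝ) := Real.rpow_le_rpow_of_exponent_le hw1 (by norm_num)
      _ = w := Real.rpow_one w
  have hu4 : u ^ 4 = w := by
    rw [hu, ← Real.rpow_natCast, ← Real.rpow_mul hwpos.le]; norm_num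
  have hhF : hF m e = u / (e * V) := rfl
  have hFpos : 0 < hF m e := by rw [hhF]; positivity
  have hFle : hF m e ≤ e ^ 2 := by
    rw [hhF, div_le_iff₀ heV]
    calc u ≤ w := huw
      _ = e ^ 2 * (e * V) := hweq
  have hX : c * w / e ^ 2 = c * e * V := by
    rw [hweq]; field_simp
  have hX4 : 4 * (c * w) ≤ c * e * V := by
    rw [← hX, le_div_iff₀ he2pos]
    nlinarith
  have hRG1 : c * e * V - 1 < (RG c m e : ℝ) := Nat.sub_one_lt_floor (c * e * V)
  have hn' : (RG c m e : ℝ) ≤ 2 * n := by exact_mod_cast hn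
  have hn3 : c / 3 * e * V ≤ (n : ℝ) := by
    have : c / 3 * e * V = c * e * V / 3 := by ring
    rw [this]; linarith
  set y : ℝ := hF m e * n with hy
  have hycu : c / 3 * u ≤ y := by
    have h2 : hF m e * (c / 3 * e * V) ≤ hF m e * n :=
      mul_le_mul_of_nonneg_left hn3 hFpos.le
    have h3 : hF m e * (c / 3 * e * V) = c / 3 * u := by
      rw [hhF]; field_simp
    linarith
  have hy0 : 0 ≤ y := by positivity
  have h0 : 0 ≤ 1 - hF m e := by linarith
  have h1 : 1 - hF m e ≤ Real.exp (-hF m e) := by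
    have := Real.add_one_le_exp (-hF m e)
    linarith
  have hA : (1 - hF m e) ^ n ≤ Real.exp (-y) := by
    calc (1 - hF m e) ^ n ≤ (Real.exp (-hF m e)) ^ n := pow_le_pow_left₀ h0 h1 n
      _ = Real.exp (-y) := by
          rw [← Real.exp_nat_mul, hy]; ring_nf
  have hB : (n : ℝ) = y * (e * V / u) := by
    rw [hy, hhF]; field_simp
  have hC : e * V / u ≤ w / e ^ 2 := by
    rw [hweq]
    have : e ^ 2 * (e * V) / e ^ 2 = e * V := by field_simp
    rw [this]
    exact div_le_self heV.le hu1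
  have hD : y ^ k ≤ 2 ^ k * (k.factorial : ℝ) * Real.exp (y / 2) := by
    have h := Real.pow_div_factorial_le_exp (y / 2) (by positivity) k
    rw [div_le_iff₀ (by positivity)] at h
    calc y ^ k = 2 ^ k * (y / 2) ^ k := by rw [← mul_pow]; congr 1; ring
      _ ≤ 2 ^ k * (Real.exp (y / 2) * (k.factorial : ℝ)) :=
          mul_le_mul_of_nonneg_left h (by positivity)
      _ = _ := by ring
  have hE : w ^ k ≤ ((4 * k).factorial : ℝ) * (6 / c) ^ (4 * k) * Real.exp (y / 2) := by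
    have h := Real.pow_div_factorial_le_exp (c / 6 * u) (by positivity) (4 * k)
    rw [div_le_iff₀ (by positivity)] at h
    have h5 : Real.exp (c / 6 * u) ≤ Real.exp (y / 2) := Real.exp_le_exp.mpr (by linarith)
    have h6 : (c / 6 * u) ^ (4 * k) ≤ Real.exp (y / 2) * ((4 * k).factorial : ℝ) :=
      le_trans h (mul_le_mul_of_nonneg_right h5 (by positivity))
    calc w ^ k = (6 / c) ^ (4 * k) * (c / 6 * u) ^ (4 * k) := by
            rw [← mul_pow, ← hu4, ← pow_mul]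
            congr 1
            field_simp
      _ ≤ (6 / c) ^ (4 * k) * (Real.exp (y / 2) * ((4 * k).factorial : ℝ)) :=
          mul_le_mul_of_nonneg_left h6 (by positivity)
      _ = _ := by ring
  have hF1 : Real.exp (y / 2) * Real.exp (y / 2) * Real.exp (-y) = 1 := by
    rw [← Real.exp_add, ← Real.exp_add]; ring_nf; exact Real.exp_zero
  calc (n : ℝ) ^ k * (1 - hF m e) ^ n ≤ (n : ℝ) ^ k * Real.exp (-y) :=
        mul_le_mul_of_nonneg_left hA (by positivity)
    _ = y ^ k * (e * V / u) ^ k * Real.exp (-y) := by rw [hB, mul_pow]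
    _ ≤ y ^ k * (w / e ^ 2) ^ k * Real.exp (-y) := by
        apply mul_le_mul_of_nonneg_right _ (Real.exp_pos _).le
        exact mul_le_mul_of_nonneg_left (pow_le_pow_left₀ (by positivity) hC k) (by positivity)
    _ = y ^ k * w ^ k * Real.exp (-y) / e ^ (2 * k) := by
        rw [div_pow, ← pow_mul]; ring
    _ ≤ (2 ^ k * (k.factorial : ℝ) * Real.exp (y / 2)) *
          (((4 * k).factorial : ℝ) * (6 / c) ^ (4 * k) * Real.exp (y / 2)) * Real.exp (-y) /
          e ^ (2 * k) := by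
        apply div_le_div_of_nonneg_right _ (by positivity)
        apply mul_le_mul_of_nonneg_right _ (Real.exp_pos _).le
        exact mul_le_mul hD hE (by positivity) (by positivity)
    _ = _ := by
        congr 1
        calc _ = 2 ^ k * (k.factorial : ℝ) * ((4 * k).factorial : ℝ) * (6 / c) ^ (4 * k) *
              (Real.exp (y / 2) * Real.exp (y / 2) * Real.exp (-y)) := by ring
          _ = _ := by rw [hF1, mul_one]

end Pool.Agent.Work.MP_b7dc8a_pr
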