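import Pool.Agent.Work.MP_b7dc8a_pr.F.Ab
import Pool.Agent.Work.MP_b7dc8a_pr.B.Dct
import Pool.Agent.Work.MP_b7dc8a_pr.B.Choff

/-! Module T1L (M): lower bounds for the first and second moments of the small clusters.

Write `M h = Mh (cubeE m) p h x`, `mo_k h = mo (cubeE m) p h k x`. `Cu` is the constant of the upper bound
`M h <= Cu (sqrt h + e)` for `0 <= h <= 1/4`. `ps <= p` with `chi (cubeE m) ps x = 1/e` for all `x`.
(1) `b_dcta` (`E = cubeE m`, `pa = ps`, `X = 1/e`) and `ab_ineq` (the sum there is `D`):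
 `(1 - M h) - e mo_1 h <= p D <= (p m/(1-p)) M h mo_1 h <= 4 M h mo_1 h` (`p m <= 3/2`, `p <= 1/2`). So
 `mo_1 h >= (1 - M h)/(e + 4 M h)`. For `h = e^2` (`M h <= 2 Cu e <= 1/2` for small `e`):
 `mo_1 (e^2) >= c1/e` with `c1 = 1/(2 + 16 Cu)`.
(2) `h mo_1 h <= M h` (`mh_low`): `mo_1 h <= Cu/sqrt h + Cu e/h`; for `h = K e^2`, `K >= 1` constant:
 `<= (Cu/sqrt K + Cu/K)/e <= c1/(2e)` for a suitable `K = K(Cu)` (need `K e^2 <= 1/4`).
(3) For `0 <= h <= h' < 1`: `n (1-h)^n - n (1-h')^n <= n^2 (h'-h) (1-h)^(n-1)` so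
 `mo_1 h - mo_1 h' <= (h'-h)/(1-h) * mo_2 h`. With `h = e^2`, `h' = K e^2`: `mo_2 (e^2) >=
 (c1/(2e)) (1/2)/(K e^2) = c2/e^3`, `c2 = c1/(4K)`.
(4) Tail: `(1-h)^n <= exp (-h n)`, `n^2 exp (-e^2 n) <= (B^2 exp (-B)) e^(-4)` for `n >= B e^(-2)`, `B >= 2`, and
 `P(|C| >= B e^(-2)) <= 5 M (e^2/4) <= 10 Cu e` (as in UB: `(1-h)^n <= exp (-1/4)` for `h = e^2/4`,
 `n >= e^(-2)`). So the part of `mo_2 (e^2)` with `|C| > B e^(-2)` is at most
 `10 Cu B^2 exp (-B) e^(-3) <= (c2/2) e^(-3)` for `B = B(Cu)` large; the claim with `c = c2/2`. -/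

namespace Pool.Agent.Work.MP_b7dc8a_pr

open Finset

/-- difference of first moments -/
private theorem t1_pow (n : ℕ) (a b : ℝ) (hb : 0 ≤ b) (hab : b ≤ a) (ha : 0 < a) :
    (n : ℝ) * a ^ n - n * b ^ n ≤ (a - b) / a * ((n : ℝ) ^ 2 * a ^ n) := by
  have h1 : 1 + (n : ℝ) * (b / a - 1) ≤ (1 + (b / a - 1)) ^ n :=
    one_add_mul_le_pow (by
      have : 0 ≤ b / a := div_nonneg hb ha.le
      linarith) n
  have h2 : (1 + (b / a - 1)) ^ n * a ^ n = b ^ n := by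
    rw [← mul_pow]
    congr 1
    field_simp
    ring
  have h3 : (1 + (n : ℝ) * (b / a - 1)) * a ^ n ≤ b ^ n := by
    rw [← h2]
    exact mul_le_mul_of_nonneg_right h1 (pow_nonneg ha.le n)
  have h4 : (n : ℝ) * ((1 + (n : ℝ) * (b / a - 1)) * a ^ n) ≤ n * b ^ n :=
    mul_le_mul_of_nonneg_left h3 (Nat.cast_nonneg n)
  have h5 : (a - b) / a = 1 - b / a := by field_simp
  rw [h5]
  nlinarith

private theorem t1_Mh {V : Type} [Fintype V] (E : Finset (Sym2 V)) (p h : ℝ) (x : V) :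
    Mh E p h x = Ex E p (fun ω => 1 - (1 - h) ^ (cl ω x).card) := by
  rw [Ex_sub, Ex_const]
  rfl

private theorem t1_tail (e B : ℝ) (he : 0 < e) (he1 : e ≤ 1 / 2) (hB : 1 ≤ B) (n : ℕ)
    (hn : B / e ^ 2 < n) :
    (n : ℝ) ^ 2 * (1 - e ^ 2) ^ n ≤ 40 * Real.exp (-(B / 2)) / e ^ 4 * (1 - (1 - e ^ 2 / 4) ^ n) := by
  have he2 : 0 < e ^ 2 := by positivity
  have he4 : e ^ 2 ≤ 1 / 4 := by nlinarith
  set t : ℝ := e ^ 2 * n with ht
  have htB : B ≤ t := by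
    rw [div_lt_iff₀ he2] at hn
    rw [ht]
    linarith
  have h1 : (1 - e ^ 2) ^ n ≤ Real.exp (-t) := by
    have h2 : 1 - e ^ 2 ≤ Real.exp (-(e ^ 2)) := by
      have := Real.add_one_le_exp (-(e ^ 2))
      linarith
    refine (pow_le_pow_left₀ (by linarith) h2 n).trans (le_of_eq ?_)
    rw [← Real.exp_nat_mul]
    congr 1
    rw [ht]; ring
  have h3 : t ^ 2 * Real.exp (-t) ≤ 8 * Real.exp (-(B / 2)) := by
    have h4 : (t / 2) ^ 2 / 2 ≤ Real.exp (t / 2) := by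
      have := Real.quadratic_le_exp_of_nonneg (show 0 ≤ t / 2 by linarith)
      nlinarith
    have h5 : t ^ 2 ≤ 8 * Real.exp (t / 2) := by nlinarith
    have h6 : Real.exp (t / 2) * Real.exp (-t) = Real.exp (-(t / 2)) := by
      rw [← Real.exp_add]
      congr 1
      ring
    have h7 : Real.exp (-(t / 2)) ≤ Real.exp (-(B / 2)) := Real.exp_le_exp.2 (by linarith)
    calc t ^ 2 * Real.exp (-t) ≤ 8 * Real.exp (t / 2) * Real.exp (-t) :=
          mul_le_mul_of_nonneg_right h5 (Real.exp_pos _).le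
      _ = 8 * (Real.exp (t / 2) * Real.exp (-t)) := by ring
      _ = 8 * Real.exp (-(t / 2)) := by rw [h6]
      _ ≤ 8 * Real.exp (-(B / 2)) := by linarith
  have h8 : (n : ℝ) ^ 2 * (1 - e ^ 2) ^ n ≤ 8 * Real.exp (-(B / 2)) / e ^ 4 := by
    rw [le_div_iff₀ (by positivity)]
    calc (n : ℝ) ^ 2 * (1 - e ^ 2) ^ n * e ^ 4 = t ^ 2 * (1 - e ^ 2) ^ n := by rw [ht]; ring
      _ ≤ t ^ 2 * Real.exp (-t) := mul_le_mul_of_nonneg_left h1 (by positivity)
      _ ≤ 8 * Real.exp (-(B / 2)) := h3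
  have h9 : (1 - e ^ 2 / 4) ^ n ≤ 4 / 5 := by
    have h2 : 1 - e ^ 2 / 4 ≤ Real.exp (-(e ^ 2 / 4)) := by
      have := Real.add_one_le_exp (-(e ^ 2 / 4))
      linarith
    have h10 : (1 - e ^ 2 / 4) ^ n ≤ Real.exp (-(t / 4)) := by
      refine (pow_le_pow_left₀ (by linarith) h2 n).trans (le_of_eq ?_)
      rw [← Real.exp_nat_mul]
      congr 1
      rw [ht]; ring
    have h11 : Real.exp (-(t / 4)) ≤ Real.exp (-(1 / 4)) := Real.exp_le_exp.2 (by linarith)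
    have h12 : Real.exp (-(1 / 4)) ≤ 4 / 5 := by
      have h13 := Real.add_one_le_exp ((1 : ℝ) / 4)
      have h14 : Real.exp (-(1 / 4)) * Real.exp (1 / 4) = 1 := by
        rw [← Real.exp_add]; simp
      have h15 := Real.exp_pos (-(1 / 4 : ℝ))
      nlinarith
    exact h10.trans (h11.trans h12)
  have h16 : (0 : ℝ) < Real.exp (-(B / 2)) / e ^ 4 := by positivity
  calc (n : ℝ) ^ 2 * (1 - e ^ 2) ^ n ≤ 8 * Real.exp (-(B / 2)) / e ^ 4 := h8
    _ = 40 * Real.exp (-(B / 2)) / e ^ 4 * (1 / 5) := by ring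
    _ ≤ 40 * Real.exp (-(B / 2)) / e ^ 4 * (1 - (1 - e ^ 2 / 4) ^ n) :=
        mul_le_mul_of_nonneg_left (by linarith) (by positivity)

theorem t1l (Cu : ℝ) (hCu : 1 ≤ Cu) : ∃ c B e0 : ℝ, 0 < c ∧ 1 ≤ B ∧ 0 < e0 ∧
    ∀ (m : ℕ) (ps p e : ℝ), 0 < e → e ≤ e0 → 0 ≤ ps → ps ≤ p → p ≤ 1 / 2 → p * m ≤ 3 / 2 →
    (∀ x : Q m, chi (cubeE m) ps x = 1 / e) →
    (∀ (h : ℝ) (x : Q m), 0 ≤ h → h ≤ 1 / 4 → Mh (cubeE m) p h x ≤ Cu * (Real.sqrt h + e)) →
    ∀ x : Q m, c / e ≤ mo (cubeE m) p (e ^ 2) 1 x ∧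
      c / e ^ 3 ≤ Ex (cubeE m) p (fun ω => ind (((cl ω x).card : ℝ) ≤ B / e ^ 2) *
        ((cl ω x).card : ℝ) ^ 2) := by
  have hCu0 : 0 < Cu := by linarith
  obtain ⟨c1, hc1⟩ : ∃ c1 : ℝ, c1 = 1 / (2 + 16 * Cu) := ⟨_, rfl⟩
  have hc1p : 0 < c1 := by rw [hc1]; positivity
  have hc1e : c1 * (2 + 16 * Cu) = 1 := by rw [hc1]; field_simp
  have hc1s : c1 ≤ 1 / 18 := by
    rw [hc1]
    exact one_div_le_one_div_of_le (by norm_num) (by linarith)
  obtain ⟨s, hs⟩ : ∃ s : ℝ, s = 4 * Cu / c1 := ⟨_, rfl⟩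
  have hsp : 0 < s := by rw [hs]; positivity
  have hsc : s * c1 = 4 * Cu := by rw [hs]; field_simp
  have hs1 : 1 ≤ s := by nlinarith
  obtain ⟨c2, hc2⟩ : ∃ c2 : ℝ, c2 = c1 / (4 * s ^ 2) := ⟨_, rfl⟩
  have hc2p : 0 < c2 := by rw [hc2]; positivity
  have hc2e : c2 * (4 * s ^ 2) = c1 := by rw [hc2]; field_simp
  have hc2c1 : c2 ≤ c1 := by
    rw [hc2]
    exact div_le_self hc1p.le (by nlinarith)
  obtain ⟨B, hB⟩ : ∃ B : ℝ, B = 240 * Cu / c2 := ⟨_, rfl⟩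
  have hBc : B * c2 = 240 * Cu := by rw [hB]; field_simp
  have hB1 : 1 ≤ B := by nlinarith
  refine ⟨c2 / 2, B, c1 / (8 * Cu), by positivity, hB1, by positivity, ?_⟩
  intro m ps p e he he0 hps hpp hp2 hpm hchi hM x
  have hp0 : 0 ≤ p := hps.trans hpp
  have hp1 : p ≤ 1 := by linarith
  -- consequences of the smallness of e
  have hCe : 8 * Cu * e ≤ c1 := by
    rw [le_div_iff₀ (by positivity)] at he0
    linarith
  have hse : s * e ≤ 1 / 2 := by
    have h1 : s * (8 * Cu * e) ≤ s * c1 := mul_le_mul_of_nonneg_left hCe hsp.le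
    rw [hsc] at h1
    nlinarith
  have he12 : e ≤ 1 / 2 := by nlinarith
  have he2 : 0 < e ^ 2 := by positivity
  have he4 : e ^ 2 ≤ 1 / 4 := by nlinarith
  -- step 1
  have key1 : ∀ h, 0 ≤ h → h ≤ 1 / 4 → 1 - Mh (cubeE m) p h x ≤
      (e + 4 * Mh (cubeE m) p h x) * mo (cubeE m) p h 1 x := by
    intro h hh0 hh1
    obtain ⟨D, -, hD0, hDeq, hDle⟩ := ab_ineq m p h hp0 hp1 hh0 (by linarith) x
    have h2 := b_dcta (cubeE m) ps p h (1 / e) hps hpp (by linarith) hh0 (by linarith)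
      (by positivity) (fun b => (hchi b).le) x
    rw [hchi x, ← hDeq] at h2
    have hmo : Ex (cubeE m) p (fun ω => ((cl ω x).card : ℝ) * (1 - h) ^ (cl ω x).card) =
        mo (cubeE m) p h 1 x := by
      unfold mo
      simp only [pow_one]
    rw [hmo] at h2
    have h3 : (1 / e * (1 - Mh (cubeE m) p h x) - mo (cubeE m) p h 1 x) / (1 / e) =
        (1 - Mh (cubeE m) p h x) - e * mo (cubeE m) p h 1 x := by
      field_simp
    rw [h3] at h2
    have hM0 := (mh_nonneg (cubeE m) p h hp0 hp1 hh0 (by linarith) x).1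
    have hmo0 : 0 ≤ mo (cubeE m) p h 1 x := by
      unfold mo
      exact xb_Ex_nonneg _ p hp0 hp1 _ fun ω _ =>
        mul_nonneg (by positivity) (pow_nonneg (by linarith) _)
    have hMm := mul_nonneg hM0 hmo0
    have h4 : p * D ≤ 2 * p * ((1 - p) * D) := by
      have h5 : 0 ≤ p * D := mul_nonneg hp0 hD0
      nlinarith
    have h6 : 2 * p * ((1 - p) * D) ≤ 2 * p * (m * Mh (cubeE m) p h x * mo (cubeE m) p h 1 x) :=
      mul_le_mul_of_nonneg_left hDle (by linarith)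
    have h7 : 2 * p * (m * Mh (cubeE m) p h x * mo (cubeE m) p h 1 x) =
        2 * (p * m) * (Mh (cubeE m) p h x * mo (cubeE m) p h 1 x) := by ring
    have h8 : 2 * (p * m) * (Mh (cubeE m) p h x * mo (cubeE m) p h 1 x) ≤
        3 * (Mh (cubeE m) p h x * mo (cubeE m) p h 1 x) :=
      mul_le_mul_of_nonneg_right (by linarith) hMm
    nlinarith
  -- lower bound for the first moment at e^2
  have hsq : Real.sqrt (e ^ 2) = e := Real.sqrt_sq he.le
  have hmo1 : c1 / e ≤ mo (cubeE m) p (e ^ 2) 1 x := by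
    have h1 := key1 (e ^ 2) he2.le he4
    have h2 := hM (e ^ 2) x he2.le he4
    rw [hsq] at h2
    have hmo0 : 0 ≤ mo (cubeE m) p (e ^ 2) 1 x := by
      unfold mo
      exact xb_Ex_nonneg _ p hp0 hp1 _ fun ω _ =>
        mul_nonneg (by positivity) (pow_nonneg (by linarith) _)
    have h3 : Mh (cubeE m) p (e ^ 2) x ≤ 1 / 2 := by nlinarith
    have h4 : (1 : ℝ) / 2 ≤ (e + 8 * Cu * e) * mo (cubeE m) p (e ^ 2) 1 x := by
      have h5 : (e + 4 * Mh (cubeE m) p (e ^ 2) x) * mo (cubeE m) p (e ^ 2) 1 x ≤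
          (e + 8 * Cu * e) * mo (cubeE m) p (e ^ 2) 1 x :=
        mul_le_mul_of_nonneg_right (by nlinarith) hmo0
      linarith
    rw [div_le_iff₀ he]
    have h6 : c1 * (1 / 2) ≤ c1 * ((e + 8 * Cu * e) * mo (cubeE m) p (e ^ 2) 1 x) :=
      mul_le_mul_of_nonneg_left h4 hc1p.le
    have h7 : c1 * ((e + 8 * Cu * e) * mo (cubeE m) p (e ^ 2) 1 x) =
        (c1 * (2 + 16 * Cu)) * (mo (cubeE m) p (e ^ 2) 1 x * e) / 2 := by ring
    rw [h7, hc1e] at h6
    linarith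
  refine ⟨?_, ?_⟩
  · refine le_trans ?_ hmo1
    exact div_le_div_of_nonneg_right (by linarith) he.le
  -- upper bound for the first moment at K e^2
  set h' : ℝ := (s * e) ^ 2 with hh'
  have hh'4 : h' ≤ 1 / 4 := by
    rw [hh']
    have : 0 ≤ s * e := by positivity
    nlinarith
  have hh'0 : 0 < h' := by rw [hh']; positivity
  have hmo2 : mo (cubeE m) p h' 1 x ≤ c1 / (2 * e) := by
    have h1 := mh_low (cubeE m) p h' hp0 hp1 hh'0.le (by linarith) x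
    have h2 := hM h' x hh'0.le hh'4
    have h3 : Real.sqrt h' = s * e := Real.sqrt_sq (by positivity)
    rw [h3] at h2
    have h4 : (s * e) ^ 2 * mo (cubeE m) p h' 1 x ≤ Cu * (s * e + s * e) := by
      refine h1.trans (h2.trans ?_)
      refine mul_le_mul_of_nonneg_left ?_ hCu0.le
      nlinarith
    rw [le_div_iff₀ (by positivity)]
    have h5 : (s * e) * (s * e * mo (cubeE m) p h' 1 x) ≤ (s * e) * (2 * Cu) := by nlinarith
    have h6 : s * e * mo (cubeE m) p h' 1 x ≤ 2 * Cu := le_of_mul_le_mul_left h5 (by positivity)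
    have h7 : s * (e * mo (cubeE m) p h' 1 x * 2) ≤ s * c1 := by rw [hsc]; linarith
    have h8 := le_of_mul_le_mul_left h7 hsp
    linarith
  -- second moment
  have hdiff : mo (cubeE m) p (e ^ 2) 1 x - mo (cubeE m) p h' 1 x ≤
      ((1 - e ^ 2) - (1 - h')) / (1 - e ^ 2) * mo (cubeE m) p (e ^ 2) 2 x := by
    unfold mo
    rw [← Ex_sub, ← Ex_mul_left]
    refine Ex_mono _ p hp0 hp1 _ _ fun ω _ => ?_
    have hle : e ^ 2 ≤ h' := by
      rw [hh', mul_pow]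
      nlinarith [mul_pos he2 he2, sq_nonneg (s - 1)]
    have := t1_pow (cl ω x).card (1 - e ^ 2) (1 - h') (by linarith) (by linarith) (by linarith)
    simpa only [pow_one] using this
  have hmo2nn : 0 ≤ mo (cubeE m) p (e ^ 2) 2 x := by
    unfold mo
    exact xb_Ex_nonneg _ p hp0 hp1 _ fun ω _ =>
      mul_nonneg (by positivity) (pow_nonneg (by linarith) _)
  have hsecond : c2 / e ^ 3 ≤ mo (cubeE m) p (e ^ 2) 2 x := by
    have h1 : ((1 - e ^ 2) - (1 - h')) / (1 - e ^ 2) ≤ 2 * (s ^ 2 * e ^ 2) := by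
      rw [div_le_iff₀ (by linarith), hh', mul_pow]
      have : 0 ≤ s ^ 2 * e ^ 2 := by positivity
      nlinarith
    have h2 := mul_le_mul_of_nonneg_right h1 hmo2nn
    have h3 : c1 / e - c1 / (2 * e) = c1 / (2 * e) := by field_simp; ring
    have h4 : c1 / (2 * e) ≤ 2 * (s ^ 2 * e ^ 2) * mo (cubeE m) p (e ^ 2) 2 x := by linarith
    rw [div_le_iff₀ (by positivity)] at h4
    rw [div_le_iff₀ (by positivity)]
    have h5 : c2 * (4 * s ^ 2) ≤ (mo (cubeE m) p (e ^ 2) 2 x * e ^ 3) * (4 * s ^ 2) := by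
      rw [hc2e]
      refine h4.trans (le_of_eq ?_)
      ring
    exact le_of_mul_le_mul_right h5 (by positivity)
  -- the tail
  have hsplit : mo (cubeE m) p (e ^ 2) 2 x ≤
      Ex (cubeE m) p (fun ω => ind (((cl ω x).card : ℝ) ≤ B / e ^ 2) * ((cl ω x).card : ℝ) ^ 2) +
      40 * Real.exp (-(B / 2)) / e ^ 4 * Mh (cubeE m) p (e ^ 2 / 4) x := by
    rw [t1_Mh, ← Ex_mul_left, ← Ex_add]
    unfold mo
    refine Ex_mono _ p hp0 hp1 _ _ fun ω _ => ?_
    have hpw : (1 - e ^ 2) ^ (cl ω x).card ≤ 1 := pow_le_one₀ (by linarith) (by linarith)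
    have hpw4 : (1 - e ^ 2 / 4) ^ (cl ω x).card ≤ 1 := pow_le_one₀ (by linarith) (by linarith)
    have hE : (0 : ℝ) < 40 * Real.exp (-(B / 2)) / e ^ 4 := by positivity
    by_cases hc : ((cl ω x).card : ℝ) ≤ B / e ^ 2
    · rw [ind, if_pos hc, one_mul]
      have h1 : ((cl ω x).card : ℝ) ^ 2 * (1 - e ^ 2) ^ (cl ω x).card ≤ ((cl ω x).card : ℝ) ^ 2 :=
        mul_le_of_le_one_right (by positivity) hpw
      have h2 : 0 ≤ 40 * Real.exp (-(B / 2)) / e ^ 4 * (1 - (1 - e ^ 2 / 4) ^ (cl ω x).card) :=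
        mul_nonneg hE.le (by linarith)
      linarith
    · rw [ind, if_neg hc, zero_mul, zero_add]
      push Not at hc
      exact t1_tail e B he he12 hB1 _ hc
  have htail : 40 * Real.exp (-(B / 2)) / e ^ 4 * Mh (cubeE m) p (e ^ 2 / 4) x ≤ c2 / 2 / e ^ 3 := by
    have h1 := hM (e ^ 2 / 4) x (by positivity) (by linarith)
    have h2 : Real.sqrt (e ^ 2 / 4) = e / 2 := by
      have : e ^ 2 / 4 = (e / 2) ^ 2 := by ring
      rw [this, Real.sqrt_sq (by linarith)]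
    rw [h2] at h1
    have h3 : Real.exp (-(B / 2)) ≤ c2 / (120 * Cu) := by
      have h4 := Real.add_one_le_exp (B / 2)
      have h5 : Real.exp (-(B / 2)) * Real.exp (B / 2) = 1 := by
        rw [← Real.exp_add]; simp
      have h6 := Real.exp_pos (-(B / 2))
      rw [le_div_iff₀ (by positivity)]
      have h7 : Real.exp (-(B / 2)) * (B / 2) ≤ 1 := by
        rw [← h5]
        exact mul_le_mul_of_nonneg_left (by linarith) h6.le
      have h8 : Real.exp (-(B / 2)) * (B / 2) * c2 ≤ 1 * c2 :=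
        mul_le_mul_of_nonneg_right h7 hc2p.le
      have h9 : Real.exp (-(B / 2)) * (B / 2) * c2 = Real.exp (-(B / 2)) * ((B * c2) / 2) := by ring
      rw [h9, hBc] at h8
      linarith
    have h10 : 40 * Real.exp (-(B / 2)) / e ^ 4 * Mh (cubeE m) p (e ^ 2 / 4) x ≤
        40 * (c2 / (120 * Cu)) / e ^ 4 * (Cu * (e / 2 + e)) := by
      have h11 : 40 * Real.exp (-(B / 2)) / e ^ 4 ≤ 40 * (c2 / (120 * Cu)) / e ^ 4 :=
        div_le_div_of_nonneg_right (by linarith) (by positivity)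
      exact mul_le_mul h11 h1 (mh_nonneg (cubeE m) p (e ^ 2 / 4) hp0 hp1 (by positivity)
        (by linarith) x).1 (by positivity)
    refine h10.trans (le_of_eq ?_)
    field_simp
    ring
  have hfin : c2 / 2 / e ^ 3 + c2 / 2 / e ^ 3 = c2 / e ^ 3 := by ring
  linarith

end Pool.Agent.Work.MP_b7dc8a_pr
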