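import Pool.Agent.Work.MP_b7dc8a_pr.F.Mom

/-! Module THL (M): lower bound for the density of large clusters outside a set `K` of size
`<= B/e^2`, at a vertex `y` with large magnetization.

`E = offE (cubeE m) K`, `C = cl ω y`, `n = ⌈N0/e^2⌉`, `N0 >= 2B/c1`, `N0 >= 1` (so `2|K| <= c1 n`,
`n <= 2 N0/e^2`), `R' = R/2`. `1 - (1-hT)^|C| <= hT |C|`, so
`Mh E p hT y <= hT Ex (|C| ind (|C| < n)) + P(n <= |C| <= R') + P(R' < |C|)`.
`mom_first` (`k = 1`): `Ex (|C| ind (|C| < n)) <= 3 Cu e n <= 6 Cu N0/e`; so the first term is at most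
`cT 6 Cu N0 e <= c4 e/8` for `cT = c4/(48 Cu N0)`. (G) (if `|K| + R' <= R`, which holds if `R >= 2B/e^2`) and
`P(R' < |C|) <= 2 Cu e` (`R' + 1 >= e^(-2)`): `P(n <= |C| <= R') <= (exp (s1 N0) - 1)^(-1) (2 Cu e +
s1 e^2 6 Cu N0/e) <= c4 e/8` for `N0 = N0(Cu, c1, s1, c4, B)` large. So `P(R' < |C|) >= c4 e/2`. -/

namespace Pool.Agent.Work.MP_b7dc8a_pr

open Finset

private theorem thl_tail (m : ℕ) (e p Cu : ℝ) (hp0 : 0 ≤ p) (hp1 : p ≤ 1)
    (hT : ∀ (j : ℕ) (x : Q m), 1 ≤ j →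
      Ex (cubeE m) p (fun ω => ind (j ≤ (cl ω x).card)) ≤ Cu * (Real.sqrt (1 / j) + e))
    (D : Finset (Q m)) (x : Q m) (j : ℕ) (hj : 1 ≤ j) :
    Ex (offE (cubeE m) D) p (fun ω => ind (j ≤ (cl ω x).card)) ≤
      Cu * (Real.sqrt (1 / j) + e) := by
  refine le_trans ?_ (hT j x hj)
  exact xb_wt_mono_E (cubeE m) (offE (cubeE m) D) (xb_offE_subset _ _) p hp0 hp1
    (fun A => ind (j ≤ A.card))
    (fun A B hAB => xb_ind_mono fun h => h.trans (Finset.card_le_card hAB)) x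

theorem thl (Cu c1 s1 c4 B : ℝ) (hCu : 0 < Cu) (hc1 : 0 < c1) (hc1' : c1 ≤ 1) (hs1 : 0 < s1)
    (hc4 : 0 < c4) (hB : 0 ≤ B) : ∃ cT : ℝ, 0 < cT ∧ ∀ (m : ℕ) (e p hT : ℝ) (R : ℕ), 0 < e →
    e ≤ 1 → 2 / e ^ 2 ≤ R → 2 * B / e ^ 2 ≤ R → 0 ≤ p → p ≤ 1 → 0 ≤ hT → hT ≤ cT * e ^ 2 →
    (∀ (j : ℕ) (x : Q m), 1 ≤ j →
      Ex (cubeE m) p (fun ω => ind (j ≤ (cl ω x).card)) ≤ Cu * (Real.sqrt (1 / j) + e)) →
    (∀ (D : Finset (Q m)) (x : Q m) (n R' : ℕ), 2 * (D.card : ℝ) ≤ c1 * n → D.card + R' ≤ R →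
      Ex (offE (cubeE m) D) p (fun ω => (Real.exp (s1 * e ^ 2 * (cl ω x).card) - 1) *
        ind (n ≤ (cl ω x).card ∧ (cl ω x).card ≤ R')) ≤
      Ex (offE (cubeE m) D) p (fun ω => ind (R' < (cl ω x).card)) +
        s1 * e ^ 2 * Ex (offE (cubeE m) D) p (fun ω =>
          ((cl ω x).card : ℝ) * ind ((cl ω x).card < n))) →
    ∀ (K : Finset (Q m)) (y : Q m), (K.card : ℝ) ≤ B / e ^ 2 →
      c4 * e ≤ Mh (offE (cubeE m) K) p hT y →
      c4 / 2 * e ≤ Ex (offE (cubeE m) K) p (fun ω => ind (R / 2 < (cl ω y).card)) := by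
  set N0 : ℝ := 1 + 2 * B / c1 + 16 * (2 * Cu + 6 * s1 * Cu) / (c4 * s1 ^ 2) with hN0
  have hN1 : 1 ≤ N0 := by
    have h1 : 0 ≤ 2 * B / c1 := by positivity
    have h2 : 0 ≤ 16 * (2 * Cu + 6 * s1 * Cu) / (c4 * s1 ^ 2) := by positivity
    linarith
  have hNB : 2 * B ≤ c1 * N0 := by
    have h1 : 2 * B / c1 ≤ N0 := by
      have h2 : 0 ≤ 16 * (2 * Cu + 6 * s1 * Cu) / (c4 * s1 ^ 2) := by positivity
      linarith
    rw [div_le_iff₀ hc1] at h1
    linarith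
  have hNX : 16 * (2 * Cu + 6 * s1 * Cu) ≤ c4 * s1 ^ 2 * N0 := by
    have h1 : 16 * (2 * Cu + 6 * s1 * Cu) / (c4 * s1 ^ 2) ≤ N0 := by
      have h2 : 0 ≤ 2 * B / c1 := by positivity
      linarith
    rw [div_le_iff₀ (by positivity)] at h1
    linarith
  have hN0' : 0 < N0 := by linarith
  have hexp : (2 * Cu + 6 * s1 * Cu * N0) ≤ c4 / 8 * (Real.exp (s1 * N0) - 1) := by
    have h1 : (s1 * N0) ^ 2 / 2 ≤ Real.exp (s1 * N0) - 1 := by
      have h2 := Real.quadratic_le_exp_of_nonneg (x := s1 * N0) (by positivity)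
      have h3 : 0 ≤ s1 * N0 := by positivity
      linarith
    have h4 : (2 * Cu + 6 * s1 * Cu * N0) ≤ (2 * Cu + 6 * s1 * Cu) * N0 := by nlinarith
    have h5 : (2 * Cu + 6 * s1 * Cu) * N0 ≤ c4 / 8 * ((s1 * N0) ^ 2 / 2) := by
      have h6 : 16 * (2 * Cu + 6 * s1 * Cu) * N0 ≤ c4 * s1 ^ 2 * N0 * N0 :=
        mul_le_mul_of_nonneg_right hNX hN0'.le
      nlinarith
    have h7 : c4 / 8 * ((s1 * N0) ^ 2 / 2) ≤ c4 / 8 * (Real.exp (s1 * N0) - 1) :=
      mul_le_mul_of_nonneg_left h1 (by positivity)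
    linarith
  have hE1 : 0 < Real.exp (s1 * N0) - 1 := by
    have : 1 < Real.exp (s1 * N0) := Real.one_lt_exp_iff.2 (by positivity)
    linarith
  refine ⟨min 1 (c4 / (48 * Cu * N0)), by positivity, ?_⟩
  intro m e p hT R he0 he1 hR hRB hp0 hp1 hhT0 hhT hTail hG K y hK hMh
  have he2 : 0 < e ^ 2 := by positivity
  have hh1 : hT ≤ 1 := by
    refine hhT.trans ?_
    have h1 : min 1 (c4 / (48 * Cu * N0)) ≤ 1 := min_le_left _ _
    have h2 : e ^ 2 ≤ 1 := pow_le_one₀ he0.le he1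
    have h3 : 0 ≤ min 1 (c4 / (48 * Cu * N0)) := by positivity
    nlinarith
  have hh2 : hT ≤ c4 / (48 * Cu * N0) * e ^ 2 :=
    hhT.trans (mul_le_mul_of_nonneg_right (min_le_right _ _) he2.le)
  set E := offE (cubeE m) K with hE
  set n : ℕ := ⌈N0 / e ^ 2⌉₊ with hn
  have hn1 : N0 / e ^ 2 ≤ n := Nat.le_ceil _
  have hn2 : (n : ℝ) ≤ 2 * N0 / e ^ 2 := by
    have h1 : (n : ℝ) ≤ N0 / e ^ 2 + 1 := (Nat.ceil_lt_add_one (by positivity)).le
    have h2 : 1 ≤ N0 / e ^ 2 := by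
      rw [le_div_iff₀ he2, one_mul]
      exact (pow_le_one₀ he0.le he1).trans hN1
    have h3 : 2 * N0 / e ^ 2 = N0 / e ^ 2 + N0 / e ^ 2 := by ring
    rw [h3]
    linarith
  have hne : 1 / e ^ 2 ≤ n := (div_le_div_of_nonneg_right hN1 he2.le).trans hn1
  have hKn : 2 * (K.card : ℝ) ≤ c1 * n := by
    have h1 : 2 * (K.card : ℝ) ≤ 2 * B / e ^ 2 := by
      calc 2 * (K.card : ℝ) ≤ 2 * (B / e ^ 2) := by linarith
        _ = _ := by ring
    have h2 : 2 * B / e ^ 2 ≤ c1 * N0 / e ^ 2 := div_le_div_of_nonneg_right hNB he2.le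
    have h3 : c1 * N0 / e ^ 2 = c1 * (N0 / e ^ 2) := by ring
    have h4 : c1 * (N0 / e ^ 2) ≤ c1 * n := mul_le_mul_of_nonneg_left hn1 hc1.le
    linarith
  have hKR : K.card + R / 2 ≤ R := by
    have h1 : 2 * (K.card : ℝ) ≤ R := by
      calc 2 * (K.card : ℝ) ≤ 2 * (B / e ^ 2) := by linarith
        _ = 2 * B / e ^ 2 := by ring
        _ ≤ R := hRB
    have h2 : 2 * K.card ≤ R := by exact_mod_cast h1
    omega
  have hfirst := mom_first 1 le_rfl m e p Cu n he0 hne hp0 hp1 hCu.le hTail K y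
  simp only [pow_one, Nat.cast_one, mul_one] at hfirst
  have hfirst' : Ex E p (fun ω => ((cl ω y).card : ℝ) * ind ((cl ω y).card < n)) ≤
      6 * Cu * N0 / e := by
    refine hfirst.trans ?_
    calc 3 * Cu * e * (n : ℝ) ≤ 3 * Cu * e * (2 * N0 / e ^ 2) := by gcongr
      _ = _ := by field_simp; ring
  have hbig : Ex E p (fun ω => ind (R / 2 < (cl ω y).card)) ≤ 2 * Cu * e := by
    have h1 := thl_tail m e p Cu hp0 hp1 hTail K y (R / 2 + 1) (by omega)
    have h2 : Real.sqrt (1 / ((R / 2 + 1 : ℕ) : ℝ)) ≤ e := by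
      apply Real.sqrt_le_iff.2
      refine ⟨he0.le, ?_⟩
      have h3 : (1 : ℝ) / e ^ 2 ≤ ((R / 2 + 1 : ℕ) : ℝ) := by
        have h4 : R ≤ 2 * (R / 2 + 1) := by omega
        have h5 : (R : ℝ) ≤ 2 * ((R / 2 + 1 : ℕ) : ℝ) := by exact_mod_cast h4
        have h6 : 2 / e ^ 2 = 2 * (1 / e ^ 2) := by ring
        rw [h6] at hR
        linarith
      rw [div_le_iff₀ he2] at h3
      rw [div_le_iff₀ (by positivity)]
      linarith
    have h8 : Ex E p (fun ω => ind (R / 2 < (cl ω y).card)) =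
        Ex E p (fun ω => ind (R / 2 + 1 ≤ (cl ω y).card)) := rfl
    rw [h8]
    refine h1.trans ?_
    nlinarith
  -- the medium clusters
  have hmed : Ex E p (fun ω => ind (n ≤ (cl ω y).card ∧ (cl ω y).card ≤ R / 2)) ≤
      c4 / 8 * e := by
    have hG' := hG K y n (R / 2) hKn hKR
    have h1 : (Real.exp (s1 * N0) - 1) *
        Ex E p (fun ω => ind (n ≤ (cl ω y).card ∧ (cl ω y).card ≤ R / 2)) ≤
        Ex E p (fun ω => (Real.exp (s1 * e ^ 2 * (cl ω y).card) - 1) *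
          ind (n ≤ (cl ω y).card ∧ (cl ω y).card ≤ R / 2)) := by
      rw [← Ex_mul_left]
      refine Ex_mono _ p hp0 hp1 _ _ fun ω _ => ?_
      by_cases hc : n ≤ (cl ω y).card ∧ (cl ω y).card ≤ R / 2
      · apply mul_le_mul_of_nonneg_right _ (xb_ind_nonneg _)
        have h2 : s1 * N0 ≤ s1 * e ^ 2 * (cl ω y).card := by
          have h3 : N0 ≤ e ^ 2 * n := by
            rw [div_le_iff₀ he2] at hn1
            linarith
          have h4 : (n : ℝ) ≤ (cl ω y).card := by exact_mod_cast hc.1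
          have h5 : N0 ≤ e ^ 2 * (cl ω y).card := h3.trans (mul_le_mul_of_nonneg_left h4 he2.le)
          calc s1 * N0 ≤ s1 * (e ^ 2 * (cl ω y).card) := mul_le_mul_of_nonneg_left h5 hs1.le
            _ = _ := by ring
        have := Real.exp_le_exp.2 h2
        linarith
      · simp only [ind, if_neg hc, mul_zero, le_refl]
    have h2 : s1 * e ^ 2 * Ex E p (fun ω => ((cl ω y).card : ℝ) * ind ((cl ω y).card < n)) ≤
        6 * s1 * Cu * N0 * e := by
      calc _ ≤ s1 * e ^ 2 * (6 * Cu * N0 / e) := mul_le_mul_of_nonneg_left hfirst' (by positivity)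
        _ = _ := by field_simp
    have h3 : (Real.exp (s1 * N0) - 1) *
        Ex E p (fun ω => ind (n ≤ (cl ω y).card ∧ (cl ω y).card ≤ R / 2)) ≤
        (Real.exp (s1 * N0) - 1) * (c4 / 8 * e) := by
      refine (h1.trans hG').trans ((add_le_add hbig h2).trans ?_)
      calc 2 * Cu * e + 6 * s1 * Cu * N0 * e = (2 * Cu + 6 * s1 * Cu * N0) * e := by ring
        _ ≤ c4 / 8 * (Real.exp (s1 * N0) - 1) * e := mul_le_mul_of_nonneg_right hexp he0.le
        _ = _ := by ring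
    exact le_of_mul_le_mul_left h3 hE1
  -- the small clusters
  have hsmall : Ex E p (fun ω => hT * (((cl ω y).card : ℝ) * ind ((cl ω y).card < n))) ≤
      c4 / 8 * e := by
    rw [Ex_mul_left]
    calc _ ≤ c4 / (48 * Cu * N0) * e ^ 2 * (6 * Cu * N0 / e) := by
          apply mul_le_mul hh2 hfirst' _ (by positivity)
          exact xb_Ex_nonneg _ p hp0 hp1 _ fun ω _ =>
            mul_nonneg (Nat.cast_nonneg _) (xb_ind_nonneg _)
      _ = c4 / 8 * e := by field_simp; ring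
  have htot : Mh E p hT y ≤
      Ex E p (fun ω => hT * (((cl ω y).card : ℝ) * ind ((cl ω y).card < n))) +
      Ex E p (fun ω => ind (n ≤ (cl ω y).card ∧ (cl ω y).card ≤ R / 2)) +
      Ex E p (fun ω => ind (R / 2 < (cl ω y).card)) := by
    unfold Mh
    have h1 : (1 : ℝ) = Ex E p (fun _ => (1 : ℝ)) := (Ex_const _ _ _).symm
    rw [← Ex_add, ← Ex_add]
    nth_rewrite 1 [h1]
    rw [← Ex_sub]
    refine Ex_mono _ p hp0 hp1 _ _ fun ω _ => ?_
    set a := (cl ω y).card with ha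
    have hq0 : 0 ≤ (1 - hT) ^ a := pow_nonneg (by linarith) _
    have hq1 : 1 - hT * a ≤ (1 - hT) ^ a := by
      have := one_add_mul_le_pow (a := -hT) (by linarith) a
      calc 1 - hT * a = 1 + (a : ℝ) * (-hT) := by ring
        _ ≤ (1 + -hT) ^ a := this
        _ = _ := by ring
    have i0 := xb_ind_nonneg (a < n)
    have i1 := xb_ind_nonneg (n ≤ a ∧ a ≤ R / 2)
    have i2 := xb_ind_nonneg (R / 2 < a)
    have ha0 : (0 : ℝ) ≤ hT * ((a : ℝ) * ind (a < n)) :=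
      mul_nonneg hhT0 (mul_nonneg (Nat.cast_nonneg a) i0)
    by_cases h1 : a < n
    · have e1 : ind (a < n) = 1 := by simp only [ind, if_pos h1]
      rw [e1, mul_one]
      linarith
    · by_cases h2 : a ≤ R / 2
      · have e1 : ind (n ≤ a ∧ a ≤ R / 2) = 1 := by
          have : n ≤ a ∧ a ≤ R / 2 := ⟨by omega, h2⟩
          simp only [ind, if_pos this]
        rw [e1]
        linarith
      · have e1 : ind (R / 2 < a) = 1 := by
          have : R / 2 < a := by omega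
          simp only [ind, if_pos this]
        rw [e1]
        linarith
  nlinarith

end Pool.Agent.Work.MP_b7dc8a_pr
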