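import Pool.Agent.Work.MP_b7dc8a_pr.F.Bfg
import Pool.Agent.Work.MP_b7dc8a_pr.F.Numf
import Pool.Agent.Work.MP_b7dc8a_pr.F.Mom
import Pool.Agent.Work.MP_b7dc8a_pr.F.Thl
import Pool.Agent.Work.MP_b7dc8a_pr.F.T1l

/-! Module BFR (M-L): the package `PF` for `p ∈ [pa (1+e/2), pa (1+2e)]`.

Constants, in this order: `Cu = 320000`; `c1` (`capl_good`); `c4 = c1/100`; `s1 = c1 c4/64`; `c2, B, e0` (`t1l Cu`; `c`
there is `c2`); `cT` (`thl Cu c1 s1 c4 B`); `A = max 1 (max (128/(c1 c4)) (1/cT))`; `c8 = c1/(8A)`; `Ck`, `k = 1..20` (`npow c8 k`);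
`C_k`, `k = 1..20` (`mom k Cu c1 s1 Ck`); `C0` = maximum of all the constants needed below (a finite maximum over `k ≤ 20`, e.g. by
`Finset.exists_le` or `∑`); `c9 = c4/4`. Let `R = RG c8 m e`, `h = hF m e`, `w = e^3 2^m >= w0`.
* (T), `hM`, and `p`-facts: `bft`. (G): `bfg`. `numf c8 B`: `2/e^2 <= R`, `2B/e^2 <= R`, `h <= e^2`.
* `Reg C0 20 m e p h`: `hM`: `Mh <= 320000 (sqrt h + e) <= 640000 e`; `hmo`: `mom k`, with (H) from `npow c8 k`; the other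
 fields from `bft`; `e <= 1/2`, `1 <= e^3 2^m`.
* `small` (`RF = R/2`): `n = ⌈1/e^2⌉ <= 2/e^2`: `Ex (|C| ind (|C| < n)) <= 3 Cu e n <= 6 Cu/e` (`mom_first`, `k = 1`, `D = ∅`);
 for `n <= |C| <= R' := R/2`: `|C| <= (exp (s1 e^2 |C|) - 1)/(s1 e^2)` and (G) with `D = ∅`:
 `<= (s1 e^2)^(-1) (P(R' < |C|) + s1 e^2 6 Cu/e) <= C/e` as `P(R' < |C|) <= 2 Cu e` (`R' + 1 >= R/2 >= 1/e^2`). (`offE E ∅ = E`.)
* `cap`: `|S| <= B/e^2 <= 2^(m - m/40)` for large `m` (`e^3 2^m >= 1`).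
* `good`: `|S| <= B/e^2 <= R`: `bfg` gives `c4 e <= Mh (offE _ S) p (e^2/A) b`; `e^2/A <= cT e^2`, `thl`:
 `c4/2 e <= P(R/2 < |C(b)|)` outside `S`; `1 - (1-h)^n >= 1/2` for `n > R/2 = RF` (`numf`): `Mh (offE _ S) p h b >= c4 e/4`.
* `sec`: `t1l` with `ps` such that `chi ps = 1/e` (`b_chip` with `pc := pa`, `1/e <= δ V^(1/3)` for `w >= δ^(-3)`). -/

namespace Pool.Agent.Work.MP_b7dc8a_pr

open Finset

/-- numerical facts for large `m` -/
private theorem bfr_num (B e0 : ℝ) (he0 : 0 < e0) : ∃ m0 : ℕ, ∀ m ≥ m0,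
    B ≤ (2 : ℝ) ^ (37 * (m : ℝ) / 120) ∧ (2 : ℝ) ^ (-(m : ℝ) / 36) ≤ e0 := by
  have h1 : Filter.Tendsto (fun m : ℕ => ((2 : ℝ) ^ (37 / 120 : ℝ)) ^ m) Filter.atTop Filter.atTop :=
    tendsto_pow_atTop_atTop_of_one_lt (Real.one_lt_rpow (by norm_num) (by norm_num))
  obtain ⟨m1, hm1⟩ := Filter.eventually_atTop.1 (h1.eventually (Filter.eventually_ge_atTop B))
  have h2 : Filter.Tendsto (fun m : ℕ => ((2 : ℝ) ^ (-(1 / 36) : ℝ)) ^ m) Filter.atTop (nhds 0) :=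
    tendsto_pow_atTop_nhds_zero_of_lt_one (by positivity)
      (Real.rpow_lt_one_of_one_lt_of_neg (by norm_num) (by norm_num))
  obtain ⟨m2, hm2⟩ := Filter.eventually_atTop.1 (h2.eventually (gt_mem_nhds he0))
  refine ⟨max m1 m2, fun m hm => ⟨?_, ?_⟩⟩
  · have h3 := hm1 m ((le_max_left _ _).trans hm)
    have e2 : ((2 : ℝ) ^ (37 / 120 : ℝ)) ^ m = (2 : ℝ) ^ (37 * (m : ℝ) / 120) := by
      rw [← Real.rpow_natCast, ← Real.rpow_mul (by norm_num)]
      congr 1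
      ring
    rw [e2] at h3
    exact h3
  · have h3 := (hm2 m ((le_max_right _ _).trans hm)).le
    have e2 : ((2 : ℝ) ^ (-(1 / 36) : ℝ)) ^ m = (2 : ℝ) ^ (-(m : ℝ) / 36) := by
      rw [← Real.rpow_natCast, ← Real.rpow_mul (by norm_num)]
      congr 1
      ring
    rw [e2] at h3
    exact h3

/-- tail at `R / 2` -/
private theorem bfr_tail (m : ℕ) (e p Cu : ℝ) (he0 : 0 < e) (hCu : 0 ≤ Cu)
    (hT : ∀ (j : ℕ) (x : Q m), 1 ≤ j →
      Ex (cubeE m) p (fun ω => ind (j ≤ (cl ω x).card)) ≤ Cu * (Real.sqrt (1 / j) + e))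
    (R : ℕ) (hR : 2 / e ^ 2 ≤ R) (x : Q m) :
    Ex (cubeE m) p (fun ω => ind (R / 2 < (cl ω x).card)) ≤ 2 * Cu * e := by
  have h1 := hT (R / 2 + 1) x (by omega)
  have h2 : Real.sqrt (1 / ((R / 2 + 1 : ℕ) : ℝ)) ≤ e := by
    rw [Real.sqrt_le_left he0.le]
    have h3 : (R : ℝ) ≤ 2 * ((R / 2 + 1 : ℕ) : ℝ) := by
      have : R ≤ 2 * (R / 2 + 1) := by omega
      exact_mod_cast this
    have h4 : 1 / e ^ 2 ≤ ((R / 2 + 1 : ℕ) : ℝ) := by
      have h5 : 2 / e ^ 2 = 2 * (1 / e ^ 2) := by ring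
      rw [h5] at hR
      linarith
    have h6 : (0 : ℝ) < ((R / 2 + 1 : ℕ) : ℝ) := by positivity
    rw [div_le_iff₀ h6]
    rw [div_le_iff₀ (by positivity)] at h4
    linarith
  have h3 : (fun ω => ind (R / 2 < (cl ω x).card)) = fun ω => ind (R / 2 + 1 ≤ (cl ω x).card) := by
    funext ω
    rfl
  rw [h3]
  refine h1.trans ?_
  have : Cu * (Real.sqrt (1 / ((R / 2 + 1 : ℕ) : ℝ)) + e) ≤ Cu * (e + e) :=
    mul_le_mul_of_nonneg_left (by linarith) hCu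
  linarith

/-- expected size of the small and medium clusters -/
private theorem bfr_small (m : ℕ) (e p Cu c1 s1 : ℝ) (R : ℕ) (he0 : 0 < e) (he1 : e ≤ 1)
    (hp0 : 0 ≤ p) (hp1 : p ≤ 1) (hCu : 0 ≤ Cu) (hc1 : 0 < c1) (hs1 : 0 < s1)
    (hT : ∀ (j : ℕ) (x : Q m), 1 ≤ j →
      Ex (cubeE m) p (fun ω => ind (j ≤ (cl ω x).card)) ≤ Cu * (Real.sqrt (1 / j) + e))
    (hG : ∀ (D : Finset (Q m)) (x : Q m) (n R' : ℕ), 2 * (D.card : ℝ) ≤ c1 * n → D.card + R' ≤ R →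
      Ex (offE (cubeE m) D) p (fun ω => (Real.exp (s1 * e ^ 2 * (cl ω x).card) - 1) *
        ind (n ≤ (cl ω x).card ∧ (cl ω x).card ≤ R')) ≤
      Ex (offE (cubeE m) D) p (fun ω => ind (R' < (cl ω x).card)) +
        s1 * e ^ 2 * Ex (offE (cubeE m) D) p (fun ω =>
          ((cl ω x).card : ℝ) * ind ((cl ω x).card < n)))
    (hR : 2 / e ^ 2 ≤ R) (x : Q m) :
    Ex (cubeE m) p (fun ω => ((cl ω x).card : ℝ) * ind ((cl ω x).card ≤ R / 2)) ≤
      (12 * Cu + 2 * Cu / s1) / e := by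
  have he2 : 0 < e ^ 2 := by positivity
  set n : ℕ := ⌈1 / e ^ 2⌉₊ with hn
  have hn1 : 1 / e ^ 2 ≤ n := Nat.le_ceil _
  have hn2 : (n : ℝ) ≤ 2 / e ^ 2 := by
    have h1 : (n : ℝ) ≤ 1 / e ^ 2 + 1 := (Nat.ceil_lt_add_one (by positivity)).le
    have h2 : 1 ≤ 1 / e ^ 2 := by
      rw [le_div_iff₀ he2]
      nlinarith
    have h3 : 2 / e ^ 2 = 1 / e ^ 2 + 1 / e ^ 2 := by ring
    linarith
  have hfirst := mom_first 1 le_rfl m e p Cu n he0 hn1 hp0 hp1 hCu hT ∅ x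
  rw [xb_offE_empty] at hfirst
  simp only [pow_one, Nat.cast_one, mul_one] at hfirst
  have hfirst2 : Ex (cubeE m) p (fun ω => ((cl ω x).card : ℝ) * ind ((cl ω x).card < n)) ≤
      6 * Cu / e := by
    refine hfirst.trans ?_
    calc 3 * Cu * e * (n : ℝ) ≤ 3 * Cu * e * (2 / e ^ 2) :=
          mul_le_mul_of_nonneg_left hn2 (by positivity)
      _ = 6 * Cu / e := by field_simp; ring
  have hg := hG ∅ x n (R / 2) (by simp; positivity) (by simp; omega)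
  rw [xb_offE_empty] at hg
  have htail := bfr_tail m e p Cu he0 hCu hT R hR x
  have hsecond : Ex (cubeE m) p (fun ω => ((cl ω x).card : ℝ) *
      ind (n ≤ (cl ω x).card ∧ (cl ω x).card ≤ R / 2)) ≤ (2 * Cu / s1 + 6 * Cu) / e := by
    have h1 : s1 * e ^ 2 * Ex (cubeE m) p (fun ω => ((cl ω x).card : ℝ) *
        ind (n ≤ (cl ω x).card ∧ (cl ω x).card ≤ R / 2)) ≤
        Ex (cubeE m) p (fun ω => (Real.exp (s1 * e ^ 2 * (cl ω x).card) - 1) *
          ind (n ≤ (cl ω x).card ∧ (cl ω x).card ≤ R / 2)) := by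
      rw [← Ex_mul_left]
      refine Ex_mono _ p hp0 hp1 _ _ fun ω _ => ?_
      rw [← mul_assoc]
      refine mul_le_mul_of_nonneg_right ?_ (xb_ind_nonneg _)
      have := Real.add_one_le_exp (s1 * e ^ 2 * ((cl ω x).card : ℝ))
      linarith
    have h2 : s1 * e ^ 2 * Ex (cubeE m) p (fun ω => ((cl ω x).card : ℝ) *
        ind (n ≤ (cl ω x).card ∧ (cl ω x).card ≤ R / 2)) ≤
        2 * Cu * e + s1 * e ^ 2 * (6 * Cu / e) := by
      have h3 := mul_le_mul_of_nonneg_left hfirst2 (show 0 ≤ s1 * e ^ 2 by positivity)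
      linarith
    have h4 : 2 * Cu * e + s1 * e ^ 2 * (6 * Cu / e) =
        s1 * e ^ 2 * ((2 * Cu / s1 + 6 * Cu) / e) := by
      field_simp
    rw [h4] at h2
    exact le_of_mul_le_mul_left h2 (by positivity)
  have hsum : Ex (cubeE m) p (fun ω => ((cl ω x).card : ℝ) * ind ((cl ω x).card ≤ R / 2)) ≤
      Ex (cubeE m) p (fun ω => ((cl ω x).card : ℝ) * ind ((cl ω x).card < n) +
        ((cl ω x).card : ℝ) * ind (n ≤ (cl ω x).card ∧ (cl ω x).card ≤ R / 2)) := by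
    refine Ex_mono _ p hp0 hp1 _ _ fun ω _ => ?_
    have hc : (0 : ℝ) ≤ ((cl ω x).card : ℝ) := Nat.cast_nonneg _
    by_cases h1 : (cl ω x).card < n
    · have e1 : ind ((cl ω x).card < n) = 1 := by simp [ind, h1]
      rw [e1]
      have h2 := mul_le_mul_of_nonneg_left (xb_ind_le_one ((cl ω x).card ≤ R / 2)) hc
      have h3 := mul_nonneg hc (xb_ind_nonneg (n ≤ (cl ω x).card ∧ (cl ω x).card ≤ R / 2))
      linarith
    · have h2 : ind ((cl ω x).card ≤ R / 2) ≤ ind (n ≤ (cl ω x).card ∧ (cl ω x).card ≤ R / 2) :=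
        xb_ind_mono fun h => ⟨not_lt.1 h1, h⟩
      have h3 := mul_le_mul_of_nonneg_left h2 hc
      have h4 := mul_nonneg hc (xb_ind_nonneg ((cl ω x).card < n))
      linarith
  rw [Ex_add] at hsum
  have hfin : 6 * Cu / e + (2 * Cu / s1 + 6 * Cu) / e = (12 * Cu + 2 * Cu / s1) / e := by ring
  linarith

theorem bfr : ∃ C0 c1 c2 c8 c9 B : ℝ, 1 ≤ C0 ∧ 0 < c1 ∧ c1 ≤ 1 ∧ 0 < c2 ∧ 0 < c8 ∧ c8 ≤ 1 ∧
    0 < c9 ∧ 1 ≤ B ∧ ∀ δ : ℝ, 0 < δ → ∃ (w0 : ℝ) (m0 : ℕ), 1 ≤ w0 ∧ ∀ m ≥ m0, ∀ pa e p : ℝ,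
    Bas δ m pa → 0 < e → e ≤ (2 : ℝ) ^ (-(m : ℝ) / 36) → w0 ≤ e ^ 3 * 2 ^ m →
    pa * (1 + e / 2) ≤ p → p ≤ pa * (1 + 2 * e) →
    PF C0 c1 c2 c9 B m e p (hF m e) (RF c8 m e) := by
  obtain ⟨c1, mc, hc1, hc1', hcap⟩ := capl_good
  obtain ⟨c2, B, e0, hc2, hB, he0', ht1⟩ := t1l 320000 (by norm_num)
  set s1 : ℝ := c1 * (c1 / 100) / 64 with hs1def
  have hs1 : 0 < s1 := by positivity
  obtain ⟨cT, hcT, hthl⟩ := thl 320000 c1 s1 (c1 / 100) B (by norm_num) hc1 hc1' hs1 (by positivity)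
    (by linarith)
  obtain ⟨A, hA, hA2, hA3⟩ : ∃ A : ℝ, 1 ≤ A ∧ 128 / (c1 * (c1 / 100)) ≤ A ∧ 1 / cT ≤ A :=
    ⟨max 1 (max (128 / (c1 * (c1 / 100))) (1 / cT)), le_max_left _ _,
      (le_max_left _ _).trans (le_max_right _ _), (le_max_right _ _).trans (le_max_right _ _)⟩
  have hA0 : 0 < A := by linarith
  have hc8 : 0 < c1 / (8 * A) := by positivity
  have hc8' : c1 / (8 * A) ≤ 1 := by
    rw [div_le_one (by positivity)]
    linarith
  choose Ck wk hCk hnp using fun k : ℕ => npow (c1 / (8 * A)) hc8 k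
  choose Cm hCm hmom using fun k : ℕ => mom (k + 1) (by omega) 320000 c1 s1 (Ck (k + 1))
    (by norm_num) hc1 hc1' hs1 (hCk (k + 1)).le
  obtain ⟨wn, hwn1, hnumf⟩ := numf (c1 / (8 * A)) B hc8 (by linarith)
  obtain ⟨mn, hmn⟩ := bfr_num B (min e0 (1 / 2)) (lt_min he0' (by norm_num))
  obtain ⟨mt, hmt⟩ := bft
  set S20 : ℝ := ∑ k ∈ range 20, Cm k with hS20
  have hS20' : ∀ k < 20, Cm k ≤ S20 := fun k hk =>
    single_le_sum (f := Cm) (fun k _ => (hCm k).le) (mem_range.2 hk)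
  have hS0 : 0 ≤ S20 := sum_nonneg fun k _ => (hCm k).le
  have hsm0 : (0 : ℝ) ≤ 12 * 320000 + 2 * 320000 / s1 := by positivity
  set C0 : ℝ := 640000 + (12 * 320000 + 2 * 320000 / s1) + S20 with hC0
  refine ⟨C0, c1, c2, c1 / (8 * A), c1 / 100 / 4, B, by rw [hC0]; linarith, hc1, hc1', hc2, hc8,
    hc8', by positivity, hB, fun δ hδ => ?_⟩
  obtain ⟨wb, mb, hwb1, hbfg⟩ := bfg c1 A δ hc1 hc1' hA hA2 hδ
  refine ⟨max (max wb wn) (max ((1 / δ) ^ 3) (∑ k ∈ range 21, |wk k|)),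
    max (max mc mn) (max (max mt mb) 8), hwb1.trans ((le_max_left _ _).trans (le_max_left _ _)), ?_⟩
  intro m hm pa e p hBas hepos hele hw hp1 hp2
  have hm1 : mc ≤ m := ((le_max_left _ _).trans (le_max_left _ _)).trans hm
  have hm2 : mn ≤ m := ((le_max_right _ _).trans (le_max_left _ _)).trans hm
  have hm3 : mt ≤ m := (((le_max_left _ _).trans (le_max_left _ _)).trans (le_max_right _ _)).trans hm
  have hm4 : mb ≤ m := (((le_max_right _ _).trans (le_max_left _ _)).trans (le_max_right _ _)).trans hm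
  have hm8 : 8 ≤ m := ((le_max_right _ _).trans (le_max_right _ _)).trans hm
  have hm8' : (8 : ℝ) ≤ m := by exact_mod_cast hm8
  have hwb : wb ≤ e ^ 3 * 2 ^ m := ((le_max_left _ _).trans (le_max_left _ _)).trans hw
  have hwn : wn ≤ e ^ 3 * 2 ^ m := ((le_max_right _ _).trans (le_max_left _ _)).trans hw
  have hwd : (1 / δ) ^ 3 ≤ e ^ 3 * 2 ^ m := ((le_max_left _ _).trans (le_max_right _ _)).trans hw
  have hwk : ∑ k ∈ range 21, |wk k| ≤ e ^ 3 * 2 ^ m :=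
    ((le_max_right _ _).trans (le_max_right _ _)).trans hw
  have hwk' : ∀ k < 21, wk k ≤ e ^ 3 * 2 ^ m := fun k hk =>
    (le_abs_self _).trans ((single_le_sum (f := fun k => |wk k|) (fun k _ => abs_nonneg _)
      (mem_range.2 hk)).trans hwk)
  obtain ⟨kB, ke⟩ := hmn m hm2
  have hee0 : e ≤ e0 := hele.trans (ke.trans (min_le_left _ _))
  have he12 : e ≤ 1 / 2 := hele.trans (ke.trans (min_le_right _ _))
  have he1 : e ≤ 1 := by linarith
  have he2 : 0 < e ^ 2 := by positivity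
  have hlow := hBas.hlow
  have hchi := hBas.hchi
  have hpa0 : 0 < pa := by
    by_contra hcon
    push Not at hcon
    nlinarith
  have hpap : pa ≤ p := by nlinarith [mul_pos hpa0 hepos]
  obtain ⟨hppos, hp12, hpm1, hpm2, hpn, hq, hT, hMt⟩ := hmt m hm3 δ pa e p hBas hepos hele hpap hp2
  have hp0 : 0 ≤ p := hppos.le
  have hp1' : p ≤ 1 := by linarith
  obtain ⟨hh0, hhe, -, hRF1, hRF2, hRG, hRB, hR2, -, hhalf⟩ := hnumf m e hepos he12 hwn
  set h : ℝ := hF m e with hh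
  set R : ℕ := RG (c1 / (8 * A)) m e with hR
  have hRFdef : RF (c1 / (8 * A)) m e = R / 2 := rfl
  have hcapm := hcap m hm1
  obtain ⟨hgood, hgap⟩ := hbfg m hm4 (fun S hS => by convert hcapm S hS) pa e hpa0 hBas hepos hele
    hwb
  have hgapp := hgap p hp1 hp2
  have hh14 : h ≤ 1 / 4 := by nlinarith
  have hh1 : h ≤ 1 := by linarith
  have hw1 : 1 ≤ e ^ 3 * 2 ^ m := hwb1.trans hwb
  refine ⟨?_, ?_, ?_, ?_, ?_⟩
  · -- reg
    refine ⟨by rw [hC0]; linarith, hepos, he12, hp0, hp12, by linarith, hpn, hq, hh0.le, hhe, hw1,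
      ?_, ?_⟩
    · intro x
      have h1 := hMt h x hh0.le hh14
      have h2 : Real.sqrt h ≤ e := by
        rw [Real.sqrt_le_left hepos.le]
        exact hhe
      have h3 : 640000 * e ≤ C0 * e :=
        mul_le_mul_of_nonneg_right (by rw [hC0]; linarith) hepos.le
      linarith
    · intro k D x hk1 hk2
      obtain ⟨j, rfl⟩ : ∃ j, k = j + 1 := ⟨k - 1, by omega⟩
      have h1 := hmom j m e p h R hepos he1 hR2 hp0 hp1' hh0.le hh1 hT hgapp
        (fun n hn => hnp (j + 1) m e hepos he12 (hwk' (j + 1) (by omega)) n hn) D x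
      refine h1.trans ?_
      have h2 : Cm j ≤ C0 := (hS20' j (by omega)).trans (by rw [hC0]; linarith)
      have h3 : 0 ≤ bb e D := by unfold bb; positivity
      have h4 : 0 ≤ e / e ^ (2 * (j + 1)) * bb e D ^ (j + 1) := by positivity
      calc Cm j * e / e ^ (2 * (j + 1)) * bb e D ^ (j + 1)
          = Cm j * (e / e ^ (2 * (j + 1)) * bb e D ^ (j + 1)) := by ring
        _ ≤ C0 * (e / e ^ (2 * (j + 1)) * bb e D ^ (j + 1)) := mul_le_mul_of_nonneg_right h2 h4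
        _ = C0 * e / e ^ (2 * (j + 1)) * bb e D ^ (j + 1) := by ring
  · -- small
    intro x
    rw [hRFdef]
    have h1 := bfr_small m e p 320000 c1 s1 R hepos he1 hp0 hp1' (by norm_num) hc1 hs1 hT hgapp hR2 x
    refine h1.trans ?_
    exact div_le_div_of_nonneg_right (by rw [hC0]; linarith) hepos.le
  · -- cap
    intro S hS
    convert hcapm S ?_
    refine hS.trans ?_
    have h1 : (B / e ^ 2) ^ 3 ≤ ((2 : ℝ) ^ ((m : ℝ) - m / 40)) ^ 3 := by
      have h2 : ((2 : ℝ) ^ ((m : ℝ) - m / 40)) ^ 3 =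
          ((2 : ℝ) ^ (37 * (m : ℝ) / 120)) ^ 3 * (2 ^ m) ^ 2 := by
        have e1 : ((2 : ℝ) ^ m) ^ 2 = (2 : ℝ) ^ (2 * (m : ℝ)) := by
          rw [← Real.rpow_natCast, ← Real.rpow_natCast, ← Real.rpow_mul (by norm_num)]
          congr 1
          push_cast
          ring
        rw [e1, ← Real.rpow_natCast, ← Real.rpow_natCast, ← Real.rpow_mul (by norm_num),
          ← Real.rpow_mul (by norm_num), ← Real.rpow_add (by norm_num)]
        congr 1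
        push_cast
        ring
      rw [h2, div_pow]
      have h3 : B ^ 3 ≤ ((2 : ℝ) ^ (37 * (m : ℝ) / 120)) ^ 3 := pow_le_pow_left₀ (by linarith) kB 3
      have h4 : 1 ≤ (2 ^ m) ^ 2 * (e ^ 2) ^ 3 := by
        have h5 : ((2 : ℝ) ^ m) ^ 2 * (e ^ 2) ^ 3 = (e ^ 3 * 2 ^ m) ^ 2 := by ring
        rw [h5]
        exact one_le_pow₀ hw1
      rw [div_le_iff₀ (by positivity)]
      calc B ^ 3 ≤ ((2 : ℝ) ^ (37 * (m : ℝ) / 120)) ^ 3 * 1 := by rw [mul_one]; exact h3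
        _ ≤ ((2 : ℝ) ^ (37 * (m : ℝ) / 120)) ^ 3 * ((2 ^ m) ^ 2 * (e ^ 2) ^ 3) :=
            mul_le_mul_of_nonneg_left h4 (by positivity)
        _ = ((2 : ℝ) ^ (37 * (m : ℝ) / 120)) ^ 3 * (2 ^ m) ^ 2 * (e ^ 2) ^ 3 := by ring
    exact le_of_pow_le_pow_left₀ (by norm_num) (by positivity) h1
  · -- good
    intro S b hS hesc hb
    have hSR : S.card ≤ R := by
      have h1 : (S.card : ℝ) ≤ R := by
        have h2 : 2 * B / e ^ 2 = B / e ^ 2 + B / e ^ 2 := by ring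
        have h3 : 0 ≤ B / e ^ 2 := by positivity
        linarith
      exact_mod_cast h1
    have h1 := hgood p S b (by nlinarith [mul_pos hpa0 hepos]) (by linarith) hSR hesc hb
    have h2 : e ^ 2 / A ≤ cT * e ^ 2 := by
      rw [div_le_iff₀ hA0]
      rw [div_le_iff₀ hcT] at hA3
      nlinarith
    have h3 := hthl m e p (e ^ 2 / A) R hepos he1 hR2 hRB hp0 hp1' (by positivity) h2 hT hgapp S b
      hS h1
    have h4 : 1 / 2 * Ex (offE (cubeE m) S) p (fun ω => ind (R / 2 < (cl ω b).card)) ≤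
        Mh (offE (cubeE m) S) p h b := by
      have e1 : Mh (offE (cubeE m) S) p h b =
          Ex (offE (cubeE m) S) p (fun ω => 1 - (1 - h) ^ (cl ω b).card) := by
        unfold Mh
        rw [Ex_sub (offE (cubeE m) S) p (fun _ => 1), Ex_const]
      rw [← Ex_mul_left, e1]
      refine Ex_mono _ p hp0 hp1' _ _ fun ω _ => ?_
      have h5 : (1 - h) ^ (cl ω b).card ≤ 1 := pow_le_one₀ (by linarith) (by linarith)
      unfold ind
      split_ifs with hc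
      · have h6 : (1 - h) ^ (cl ω b).card ≤ (1 - h) ^ (R / 2) :=
          pow_le_pow_of_le_one (by linarith) (by linarith) hc.le
        rw [hRFdef] at hhalf
        linarith
      · linarith
    linarith
  · -- sec
    intro x
    set Y : ℝ := ((2 : ℝ) ^ m) ^ (1 / 3 : ℝ) with hY
    have hY0 : 0 < Y := by positivity
    have hY3 : Y ^ 3 = 2 ^ m := by
      rw [hY, ← Real.rpow_natCast, ← Real.rpow_mul (by positivity)]
      norm_num
    have h1 : 1 / δ ≤ e * Y := by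
      have : (1 / δ) ^ 3 ≤ (e * Y) ^ 3 := by rw [mul_pow, hY3]; exact hwd
      exact le_of_pow_le_pow_left₀ (by norm_num) (by positivity) this
    have hX : 1 / e ≤ δ * Y := by
      rw [div_le_iff₀ hepos]
      rw [div_le_iff₀ hδ] at h1
      linarith
    have hX1 : 1 ≤ 1 / e := by
      rw [le_div_iff₀ hepos]
      linarith
    obtain ⟨ps, hps0, hpspa, hpschi, -⟩ := b_chip m (by omega) pa (1 / e) hpa0.le (by linarith) hX1
      (fun _ => false) (by rw [hchi]; exact hX)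
    exact (ht1 m ps p e hepos hee0 hps0 (hpspa.trans hpap) hp12 (by linarith) hpschi hMt x).2

end Pool.Agent.Work.MP_b7dc8a_pr
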