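import Pool.Agent.Work.MP_b7dc8a_pr.F.Def

/-! Module BON (M): hypercontractivity on the cube (Bonami), exponents (2,4).

Write `E_x f = (1/2^m) ∑_x f x`.
`bon_four`: for `ρ = 1/√3`, any coefficients `c : Finset (Fin m) → ℝ` and
`F x = ∑_A ρ^|A| c A chr A x`: `E_x (F x)^4 <= (∑_A (c A)^2)^2`. Induction: prove for all `B : Finset
(Fin m)` that the claim holds for `c` supported on subsets of `B` (sum over `A ∈ B.powerset`). For
`insert i B`: `F = G + s_i ρ H` with `s_i x = (if x i then -1 else 1)`, `G, H` the functions for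
`c A`, `c (insert i A)`, `A ⊆ B`, which do not depend on the coordinate `i`. Averaging over `x i`:
`E F^4 = E G^4 + 6 ρ^2 E G^2 H^2 + ρ^4 E H^4 <= a^2 + 2 a b + b^2/9 <= (a+b)^2` where `a = ∑ (c A)^2`,
`b = ∑ (c (insert i A))^2` (Cauchy-Schwarz for `E G^2 H^2 <= sqrt (E G^4) sqrt (E H^4) <= a b`).
`bon_level`: `H = ∑_A (1/3)^|A| (fh S A)^2`; take `c A = ρ^|A| fh S A`, so `∑ (c A)^2 = H` and
`H = E_x [1_S(x) F x]` (`F x = ∑ (1/3)^|A| fh S A chr A x`, `E_x [1_S chr A] = fh S A`). By Hölder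
`E [1_S F] <= s^(3/4) (E F^4)^(1/4) <= s^(3/4) H^(1/2)`, `s = |S|/2^m`; equivalently (two
Cauchy-Schwarz) `(E 1_S F)^4 <= s^3 E F^4 <= s^3 H^2`. So `H^4 <= s^3 H^2`, `H^2 <= s^3`.
`bon_parseval`: `∑_A (fh S A)^2 = |S|/2^m` (`∑_A chr A x chr A y = 2^m [x = y]`).
`bon_twist`: the same as `bon_level` with `|A|` replaced by `m - |A|`: apply the argument to
`f x = 1_S(x) chr univ x` instead of `1_S` (`chr univ x chr A x = chr Aᶜ x`, so its Fourier
coefficient at `A` is `fh S Aᶜ`, and `|f| = 1_S`; in Hölder only `|f|` is used). -/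

namespace Pool.Agent.Work.MP_b7dc8a_pr

open Finset

private noncomputable def bs {m : ℕ} (i : Fin m) (x : Q m) : ℝ := if x i then (-1 : ℝ) else 1

private theorem bs_sq {m : ℕ} (i : Fin m) (x : Q m) : bs i x * bs i x = 1 := by
  unfold bs
  split_ifs <;> norm_num

private def bfl {m : ℕ} (i : Fin m) (x : Q m) : Q m := Function.update x i (!x i)

private theorem bfl_bfl {m : ℕ} (i : Fin m) (x : Q m) : bfl i (bfl i x) = x := by
  funext j
  unfold bfl
  by_cases h : j = i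
  · subst h; simp
  · simp [h]

private theorem bs_fl {m : ℕ} (i : Fin m) (x : Q m) : bs i (bfl i x) = - bs i x := by
  unfold bs bfl
  cases h : x i <;> simp

private theorem chr_fl {m : ℕ} (A : Finset (Fin m)) (i : Fin m) (hi : i ∉ A) (x : Q m) :
    chr A (bfl i x) = chr A x := by
  unfold chr
  refine Finset.prod_congr rfl fun j hj => ?_
  have hne : j ≠ i := fun h => hi (h ▸ hj)
  unfold bfl
  simp [hne]

private theorem chr_insert {m : ℕ} (A : Finset (Fin m)) (i : Fin m) (hi : i ∉ A) (x : Q m) :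
    chr (insert i A) x = bs i x * chr A x := by
  unfold chr bs
  rw [Finset.prod_insert hi]

private theorem sum_fl {m : ℕ} (i : Fin m) (f : Q m → ℝ) :
    ∑ x : Q m, f (bfl i x) = ∑ x : Q m, f x :=
  Finset.sum_nbij' (bfl i) (bfl i) (fun _ _ => Finset.mem_univ _) (fun _ _ => Finset.mem_univ _)
    (fun x _ => bfl_bfl i x) (fun x _ => bfl_bfl i x) (fun _ _ => rfl)

private theorem four_ind (m : ℕ) (ρ : ℝ) (hρ : ρ ^ 2 = 1 / 3) (B : Finset (Fin m)) :
    ∀ c : Finset (Fin m) → ℝ,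
    ∑ x : Q m, (∑ A ∈ B.powerset, ρ ^ A.card * c A * chr A x) ^ 4 ≤
      2 ^ m * (∑ A ∈ B.powerset, c A ^ 2) ^ 2 := by
  classical
  induction B using Finset.induction_on with
  | empty =>
    intro c
    simp only [Finset.powerset_empty, Finset.sum_singleton, Finset.card_empty, pow_zero, one_mul]
    have h1 : ∀ x : Q m, chr (∅ : Finset (Fin m)) x = 1 := fun x => by simp [chr]
    simp_rw [h1, mul_one]
    rw [Finset.sum_const, Finset.card_univ, nsmul_eq_mul]
    have h2 : (Fintype.card (Q m) : ℝ) = 2 ^ m := by simp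
    rw [h2]
    apply le_of_eq
    ring
  | insert i B hi ih =>
    intro c
    have hsub : ∀ A ∈ B.powerset, i ∉ A := fun A hA h => hi (Finset.mem_powerset.1 hA h)
    set G : Q m → ℝ := fun x => ∑ A ∈ B.powerset, ρ ^ A.card * c A * chr A x with hG
    set H : Q m → ℝ := fun x => ∑ A ∈ B.powerset, ρ ^ A.card * c (insert i A) * chr A x with hH
    set a : ℝ := ∑ A ∈ B.powerset, c A ^ 2 with ha
    set b : ℝ := ∑ A ∈ B.powerset, c (insert i A) ^ 2 with hb
    have ha0 : 0 ≤ a := Finset.sum_nonneg fun _ _ => sq_nonneg _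
    have hb0 : 0 ≤ b := Finset.sum_nonneg fun _ _ => sq_nonneg _
    have hGi := ih c
    have hHi := ih (fun A => c (insert i A))
    have hF : ∀ x : Q m, (∑ A ∈ (insert i B).powerset, ρ ^ A.card * c A * chr A x) =
        G x + ρ * bs i x * H x := by
      intro x
      rw [Finset.sum_powerset_insert hi, hG, hH]
      simp only
      congr 1
      rw [Finset.mul_sum]
      refine Finset.sum_congr rfl fun A hA => ?_
      rw [chr_insert A i (hsub A hA), Finset.card_insert_of_notMem (hsub A hA)]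
      ring
    have hc : (∑ A ∈ (insert i B).powerset, c A ^ 2) = a + b := by
      rw [Finset.sum_powerset_insert hi]
    have hGf : ∀ x, G (bfl i x) = G x := by
      intro x
      rw [hG]
      simp only
      exact Finset.sum_congr rfl fun A hA => by rw [chr_fl A i (hsub A hA)]
    have hHf : ∀ x, H (bfl i x) = H x := by
      intro x
      rw [hH]
      simp only
      exact Finset.sum_congr rfl fun A hA => by rw [chr_fl A i (hsub A hA)]
    simp_rw [hF]
    rw [hc]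
    have h1 : ∑ x : Q m, (G x + ρ * bs i x * H x) ^ 4 =
        ∑ x : Q m, (G x - ρ * bs i x * H x) ^ 4 := by
      rw [← sum_fl i]
      refine Finset.sum_congr rfl fun x _ => ?_
      rw [hGf, hHf, bs_fl]
      ring
    have h2 : 2 * ∑ x : Q m, (G x + ρ * bs i x * H x) ^ 4 =
        2 * (∑ x : Q m, G x ^ 4 + 2 * ∑ x : Q m, (G x ^ 2 * H x ^ 2) +
          1 / 9 * ∑ x : Q m, H x ^ 4) := by
      have h3 : 2 * ∑ x : Q m, (G x + ρ * bs i x * H x) ^ 4 =
          ∑ x : Q m, ((G x + ρ * bs i x * H x) ^ 4 + (G x - ρ * bs i x * H x) ^ 4) := by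
        rw [Finset.sum_add_distrib, ← h1]
        ring
      rw [h3, Finset.mul_sum, Finset.mul_sum, ← Finset.sum_add_distrib, ← Finset.sum_add_distrib,
        Finset.mul_sum]
      refine Finset.sum_congr rfl fun x _ => ?_
      have h4 := bs_sq i x
      have h5 : (G x + ρ * bs i x * H x) ^ 4 + (G x - ρ * bs i x * H x) ^ 4 =
          2 * G x ^ 4 + 12 * (ρ ^ 2 * (bs i x * bs i x)) * (G x ^ 2 * H x ^ 2) +
            2 * ((ρ ^ 2) ^ 2 * (bs i x * bs i x) ^ 2) * H x ^ 4 := by ring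
      rw [h5, h4, hρ]
      ring
    have h2' := mul_left_cancel₀ (two_ne_zero) h2
    rw [h2']
    have hN : (0 : ℝ) < 2 ^ m := by positivity
    have hCS : (∑ x : Q m, (G x ^ 2 * H x ^ 2)) ^ 2 ≤ (∑ x : Q m, G x ^ 4) * ∑ x : Q m, H x ^ 4 := by
      have h3 := Finset.sum_mul_sq_le_sq_mul_sq (Finset.univ : Finset (Q m)) (fun x => G x ^ 2)
        (fun x => H x ^ 2)
      refine h3.trans (le_of_eq ?_)
      congr 1 <;> exact Finset.sum_congr rfl fun x _ => by ring
    have hG4 : 0 ≤ ∑ x : Q m, G x ^ 4 := Finset.sum_nonneg fun _ _ => by positivity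
    have hH4 : 0 ≤ ∑ x : Q m, H x ^ 4 := Finset.sum_nonneg fun _ _ => by positivity
    have hmid : ∑ x : Q m, (G x ^ 2 * H x ^ 2) ≤ 2 ^ m * (a * b) := by
      apply abs_le_of_sq_le_sq' _ (by positivity) |>.2
      calc (∑ x : Q m, (G x ^ 2 * H x ^ 2)) ^ 2 ≤ (∑ x : Q m, G x ^ 4) * ∑ x : Q m, H x ^ 4 := hCS
        _ ≤ (2 ^ m * a ^ 2) * (2 ^ m * b ^ 2) := mul_le_mul hGi hHi hH4 (by positivity)
        _ = _ := by ring
    have hGi' : ∑ x : Q m, G x ^ 4 ≤ 2 ^ m * a ^ 2 := hGi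
    have hHi' : ∑ x : Q m, H x ^ 4 ≤ 2 ^ m * b ^ 2 := hHi
    have hfin : 2 ^ m * a ^ 2 + 2 * (2 ^ m * (a * b)) + 1 / 9 * (2 ^ m * b ^ 2) ≤
        2 ^ m * (a + b) ^ 2 := by
      have : 0 ≤ 2 ^ m * b ^ 2 := by positivity
      nlinarith
    linarith

theorem bon_four (m : ℕ) (ρ : ℝ) (hρ : ρ ^ 2 = 1 / 3) (c : Finset (Fin m) → ℝ) :
    (∑ x : Q m, (∑ A : Finset (Fin m), ρ ^ A.card * c A * chr A x) ^ 4) / 2 ^ m ≤
      (∑ A : Finset (Fin m), c A ^ 2) ^ 2 := by
  have h := four_ind m ρ hρ Finset.univ c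
  rw [Finset.powerset_univ] at h
  rw [div_le_iff₀ (by positivity)]
  linarith

/-- level inequality for `1_S e`, `|e| = 1` -/
private theorem level_gen (m : ℕ) (S : Finset (Q m)) (e : Q m → ℝ) (he : ∀ x, e x ^ 2 = 1) :
    (∑ A : Finset (Fin m), (1 / 3 : ℝ) ^ A.card * ((∑ x ∈ S, e x * chr A x) / 2 ^ m) ^ 2) ^ 2 ≤
      ((S.card : ℝ) / 2 ^ m) ^ 3 := by
  set f : Finset (Fin m) → ℝ := fun A => (∑ x ∈ S, e x * chr A x) / 2 ^ m with hf
  set H : ℝ := ∑ A : Finset (Fin m), (1 / 3 : ℝ) ^ A.card * f A ^ 2 with hH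
  set ρ : ℝ := Real.sqrt (1 / 3) with hρd
  have hρ : ρ ^ 2 = 1 / 3 := Real.sq_sqrt (by norm_num)
  have hN : (0 : ℝ) < 2 ^ m := by positivity
  set F : Q m → ℝ := fun x => ∑ A : Finset (Fin m), (1 / 3 : ℝ) ^ A.card * f A * chr A x with hF
  have hpow : ∀ n : ℕ, ρ ^ n * ρ ^ n = (1 / 3 : ℝ) ^ n := by
    intro n
    rw [← mul_pow, ← sq, hρ]
  have h4 : ∑ x : Q m, F x ^ 4 ≤ 2 ^ m * H ^ 2 := by
    have h := bon_four m ρ hρ (fun A => ρ ^ A.card * f A)
    rw [div_le_iff₀ hN] at h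
    have h1 : ∀ x : Q m, (∑ A : Finset (Fin m), ρ ^ A.card * (ρ ^ A.card * f A) * chr A x) = F x := by
      intro x
      rw [hF]
      refine Finset.sum_congr rfl fun A _ => ?_
      rw [← mul_assoc, hpow]
    have h2 : (∑ A : Finset (Fin m), (ρ ^ A.card * f A) ^ 2) = H := by
      rw [hH]
      refine Finset.sum_congr rfl fun A _ => ?_
      rw [mul_pow, sq (ρ ^ A.card), hpow]
    simp_rw [h1] at h
    rw [h2] at h
    linarith
  have hsum : 2 ^ m * H = ∑ x ∈ S, e x * F x := by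
    rw [hF]
    simp_rw [Finset.mul_sum]
    rw [Finset.sum_comm, hH, Finset.mul_sum]
    refine Finset.sum_congr rfl fun A _ => ?_
    have h1 : ∑ x ∈ S, e x * ((1 / 3 : ℝ) ^ A.card * f A * chr A x) =
        (1 / 3 : ℝ) ^ A.card * f A * ∑ x ∈ S, e x * chr A x := by
      rw [Finset.mul_sum]
      exact Finset.sum_congr rfl fun x _ => by ring
    have h2 : ∑ x ∈ S, e x * chr A x = 2 ^ m * f A := by
      rw [hf]
      field_simp
    rw [h1, h2]
    ring
  have hs0 : (0 : ℝ) ≤ S.card := Nat.cast_nonneg _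
  have hA : (2 ^ m * H) ^ 2 ≤ S.card * ∑ x ∈ S, F x ^ 2 := by
    rw [hsum]
    have h := Finset.sum_mul_sq_le_sq_mul_sq S e F
    have h1 : ∑ x ∈ S, e x ^ 2 = S.card := by
      simp_rw [he]
      simp
    rw [h1] at h
    exact h
  have hB : (∑ x ∈ S, F x ^ 2) ^ 2 ≤ S.card * (2 ^ m * H ^ 2) := by
    have h := Finset.sum_mul_sq_le_sq_mul_sq S (fun _ => (1 : ℝ)) (fun x => F x ^ 2)
    simp only [one_mul, one_pow, Finset.sum_const, nsmul_eq_mul, mul_one] at h
    refine h.trans (mul_le_mul_of_nonneg_left ?_ hs0)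
    refine le_trans ?_ h4
    calc ∑ x ∈ S, (F x ^ 2) ^ 2 ≤ ∑ x : Q m, (F x ^ 2) ^ 2 :=
          Finset.sum_le_sum_of_subset_of_nonneg (Finset.subset_univ _) fun _ _ _ => by positivity
      _ = _ := Finset.sum_congr rfl fun x _ => by ring
  have hH0 : 0 ≤ H := Finset.sum_nonneg fun A _ => by positivity
  have hC : (2 ^ m * H) ^ 4 ≤ (S.card : ℝ) ^ 3 * (2 ^ m * H ^ 2) := by
    calc (2 ^ m * H) ^ 4 = ((2 ^ m * H) ^ 2) ^ 2 := by ring
      _ ≤ (S.card * ∑ x ∈ S, F x ^ 2) ^ 2 := pow_le_pow_left₀ (by positivity) hA 2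
      _ = (S.card : ℝ) ^ 2 * (∑ x ∈ S, F x ^ 2) ^ 2 := by ring
      _ ≤ (S.card : ℝ) ^ 2 * (S.card * (2 ^ m * H ^ 2)) :=
        mul_le_mul_of_nonneg_left hB (by positivity)
      _ = _ := by ring
  rcases hH0.eq_or_lt with h0 | hpos
  · rw [← h0]
    have : (0 : ℝ) ≤ ((S.card : ℝ) / 2 ^ m) ^ 3 := by positivity
    simpa using this
  · have h5 : ((2 : ℝ) ^ m) ^ 3 * H ^ 2 ≤ (S.card : ℝ) ^ 3 := by
      have hq : (0 : ℝ) < 2 ^ m * H ^ 2 := by positivity
      refine le_of_mul_le_mul_right ?_ hq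
      calc ((2 : ℝ) ^ m) ^ 3 * H ^ 2 * (2 ^ m * H ^ 2) = (2 ^ m * H) ^ 4 := by ring
        _ ≤ _ := hC
    rw [div_pow, le_div_iff₀ (by positivity)]
    linarith

theorem bon_level (m : ℕ) (S : Finset (Q m)) :
    (∑ A : Finset (Fin m), (1 / 3 : ℝ) ^ A.card * fh S A ^ 2) ^ 2 ≤ ((S.card : ℝ) / 2 ^ m) ^ 3 := by
  have h := level_gen m S (fun _ => 1) (fun _ => one_pow 2)
  simp only [one_mul] at h
  exact h

private theorem chr_univ_mul {m : ℕ} (A : Finset (Fin m)) (x : Q m) :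
    chr univ x * chr A x = chr Aᶜ x := by
  have h1 : chr (univ : Finset (Fin m)) x = chr A x * chr Aᶜ x := by
    unfold chr
    rw [Finset.prod_mul_prod_compl]
  have h2 : chr A x * chr A x = 1 := by
    unfold chr
    rw [← Finset.prod_mul_distrib]
    exact Finset.prod_eq_one fun i _ => by split_ifs <;> norm_num
  rw [h1]
  calc chr A x * chr Aᶜ x * chr A x = (chr A x * chr A x) * chr Aᶜ x := by ring
    _ = _ := by rw [h2, one_mul]

theorem bon_twist (m : ℕ) (S : Finset (Q m)) :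
    (∑ A : Finset (Fin m), (1 / 3 : ℝ) ^ (m - A.card) * fh S A ^ 2) ^ 2 ≤
      ((S.card : ℝ) / 2 ^ m) ^ 3 := by
  have h := level_gen m S (fun x => chr univ x) (fun x => by
    unfold chr
    rw [← Finset.prod_pow]
    exact Finset.prod_eq_one fun i _ => by split_ifs <;> norm_num)
  simp_rw [chr_univ_mul] at h
  refine le_trans (le_of_eq ?_) h
  congr 1
  refine Finset.sum_nbij' (fun A => Aᶜ) (fun A => Aᶜ) (fun _ _ => Finset.mem_univ _)
    (fun _ _ => Finset.mem_univ _) (fun A _ => compl_compl A) (fun A _ => compl_compl A)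
    (fun A _ => ?_)
  rw [compl_compl, Finset.card_compl, Fintype.card_fin]
  rfl

private theorem chr_delta {m : ℕ} (x y : Q m) :
    ∑ A : Finset (Fin m), chr A x * chr A y = if x = y then (2 : ℝ) ^ m else 0 := by
  have h1 : ∀ A : Finset (Fin m), chr A x * chr A y = ∏ i ∈ A, (bs i x * bs i y) := by
    intro A
    unfold chr
    rw [Finset.prod_mul_distrib]
    rfl
  simp_rw [h1]
  have h2 := Finset.prod_one_add (f := fun i : Fin m => bs i x * bs i y) (univ : Finset (Fin m))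
  rw [Finset.powerset_univ] at h2
  rw [← h2]
  by_cases hxy : x = y
  · subst hxy
    rw [if_pos rfl]
    simp_rw [bs_sq]
    norm_num
  · rw [if_neg hxy]
    have h3 : ∃ i, x i ≠ y i := by
      by_contra hcon
      push Not at hcon
      exact hxy (funext hcon)
    obtain ⟨i, hi⟩ := h3
    refine Finset.prod_eq_zero (Finset.mem_univ i) ?_
    unfold bs
    revert hi
    cases x i <;> cases y i <;> norm_num

theorem bon_parseval (m : ℕ) (S : Finset (Q m)) :
    ∑ A : Finset (Fin m), fh S A ^ 2 = (S.card : ℝ) / 2 ^ m := by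
  have hN : (2 : ℝ) ^ m ≠ 0 := by positivity
  have h1 : ∑ A : Finset (Fin m), (∑ x ∈ S, chr A x) ^ 2 = 2 ^ m * S.card := by
    have h2 : ∀ A : Finset (Fin m), (∑ x ∈ S, chr A x) ^ 2 =
        ∑ x ∈ S, ∑ y ∈ S, chr A x * chr A y := by
      intro A
      rw [sq, Finset.sum_mul_sum]
    simp_rw [h2]
    rw [Finset.sum_comm]
    have h3 : ∀ x ∈ S, ∑ A : Finset (Fin m), ∑ y ∈ S, chr A x * chr A y = 2 ^ m := by
      intro x hx
      rw [Finset.sum_comm]
      simp_rw [chr_delta]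
      rw [Finset.sum_ite_eq, if_pos hx]
    rw [Finset.sum_congr rfl h3, Finset.sum_const, nsmul_eq_mul]
    ring
  unfold fh
  simp_rw [div_pow]
  rw [← Finset.sum_div, h1]
  field_simp

end Pool.Agent.Work.MP_b7dc8a_pr
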