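import Pool.Agent.Work.MP_b7dc8a_pr.F.Rectl
import Pool.Agent.Work.MP_b7dc8a_pr.B.Four

/-! Module CHOFFL (S-M): susceptibility outside a set `S`, seen from a vertex which escapes from `S`.

`v y = chi (offE (cubeE m) S) p y` (`= wt _ p (sm 1)`, `xb_chi_wt`), `T = TN m`, `vmax = X`. `rectl` with
`L = T`, `g = 1`: `v y >= P_S^T v (y)/2 - LL 30000 m X^3/2^m`, `P_S^T v (y) = ∑_z wk (offE _ S) T y z v z/m^T`
(`nb_iter_eq`), and for `y ∉ S` only `z ∉ S` occur (`wk_off_zero`). Since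
`wk (offE _ S) <= wk (cubeE m)`, `wk (cubeE m) T y z/m^T <= 4/2^m` (`four_mix`, `T >= TT m`) and
`∑_z wk (offE _ S) T y z/m^T = esc m S y >= c`:
`P_S^T v (y) = X esc m S y - ∑_z (wk/m^T) (X - v z) >= c X - (4/2^m) ∑_{z ∉ S} (X - v z)` (`v <= X`).
`b_obst` (`Θ = card = sm 1`, `D = S`): for `z ∉ S`: `X = chi (cubeE m) p z <= v z + ∑_{s∈S} tau z s X`, so
`∑_{z ∉ S} (X - v z) <= X ∑_{s∈S} chi s = |S| X^2`. So `P_S^T v (y) >= c X - 4 |S| X^2/2^m >= c X/2` if
`|S| X <= (c/8) 2^m`, and `v y >= c X/4 - LL 30000 m X^3/2^m >= c X/8`, if `LL 30000 m X^2/2^m <= c/8`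
(true for large `m` as `X <= 2^(2m/5)`). -/

namespace Pool.Agent.Work.MP_b7dc8a_pr

open Finset

/-- numerical facts -/
private theorem choffl_num (c : ℝ) (hc : 0 < c) : ∃ m0 : ℕ, ∀ m ≥ m0, ∀ X : ℝ, 1 ≤ X →
    X ≤ (2 : ℝ) ^ (2 * (m : ℝ) / 5) → LL 30000 m * X ^ 2 ≤ c / 8 * 2 ^ m := by
  obtain ⟨m1, hm1⟩ := xn_exp 30001 ((2 : ℝ) ^ ((1 : ℝ) / 5)) (by
    exact Real.one_lt_rpow (by norm_num) (by norm_num))
  obtain ⟨m2, hm2⟩ := xn_poly 0 (8 / c) 1 (by norm_num)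
  refine ⟨max m1 m2, fun m hm X hX1 hX => ?_⟩
  have h1 := hm1 m ((le_max_left _ _).trans hm)
  have h2 := hm2 m ((le_max_right _ _).trans hm)
  rw [pow_zero, mul_one] at h2
  have h3 : ((2 : ℝ) ^ ((1 : ℝ) / 5)) ^ m = (2 : ℝ) ^ ((m : ℝ) / 5) := by
    rw [← Real.rpow_natCast, ← Real.rpow_mul (by norm_num)]
    congr 1
    ring
  have h4 : X ^ 2 ≤ (2 : ℝ) ^ (4 * (m : ℝ) / 5) := by
    have h5 : ((2 : ℝ) ^ (2 * (m : ℝ) / 5)) ^ 2 = (2 : ℝ) ^ (4 * (m : ℝ) / 5) := by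
      rw [← Real.rpow_natCast, ← Real.rpow_mul (by norm_num)]
      congr 1
      push_cast
      ring
    rw [← h5]
    exact pow_le_pow_left₀ (by linarith) hX 2
  have h6 : (2 : ℝ) ^ ((m : ℝ) / 5) * (2 : ℝ) ^ (4 * (m : ℝ) / 5) = 2 ^ m := by
    rw [← Real.rpow_add (by norm_num), ← Real.rpow_natCast]
    congr 1
    ring
  have h7 : LL 30000 m * (8 / c) ≤ (2 : ℝ) ^ ((m : ℝ) / 5) := by
    rw [← h3]
    refine le_trans ?_ h1
    have e : LL 30001 m = LL 30000 m * LL 1 m := by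
      rw [xn_LL_add]
      norm_num
    rw [e]
    exact mul_le_mul_of_nonneg_left h2 (xn_LL_pos _ _).le
  have h8 : LL 30000 m = c / 8 * (LL 30000 m * (8 / c)) := by
    field_simp
  calc LL 30000 m * X ^ 2 = c / 8 * ((LL 30000 m * (8 / c)) * X ^ 2) := by
        rw [show c / 8 * ((LL 30000 m * (8 / c)) * X ^ 2) =
          (c / 8 * (LL 30000 m * (8 / c))) * X ^ 2 by ring, ← h8]
    _ ≤ c / 8 * ((2 : ℝ) ^ ((m : ℝ) / 5) * (2 : ℝ) ^ (4 * (m : ℝ) / 5)) := by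
        apply mul_le_mul_of_nonneg_left _ (by positivity)
        exact mul_le_mul h7 h4 (by positivity) (by positivity)
    _ = _ := by rw [h6]

theorem choffl (c : ℝ) (hc : 0 < c) (hc1 : c ≤ 1) : ∃ m0 : ℕ, ∀ m ≥ m0, ∀ X p : ℝ, 1 ≤ X →
    X ≤ (2 : ℝ) ^ (2 * (m : ℝ) / 5) → 0 ≤ p → p * m ≤ 1 + 5000 * dl m →
    1 - 1 / (m : ℝ) ^ 2 ≤ p * ((m : ℝ) - 1) → (∀ x, chi (cubeE m) p x = X) →
    ∀ (S : Finset (Q m)) (y : Q m), (S.card : ℝ) * X ≤ c / 8 * 2 ^ m → c ≤ esc m S y → y ∉ S →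
    c * X / 8 ≤ chi (offE (cubeE m) S) p y := by
  obtain ⟨m1, hm1⟩ := rectl
  obtain ⟨m2, hm2⟩ := choffl_num c hc
  obtain ⟨m3, hm3⟩ := xn_dl 5000 1 (by norm_num)
  refine ⟨max (max m1 m2) (max m3 3), fun m hm X p hX hX2 hp hpm hpm1 hchi S y hS hesc hy => ?_⟩
  have hA : m1 ≤ m := ((le_max_left _ _).trans (le_max_left _ _)).trans hm
  have hB : m2 ≤ m := ((le_max_right _ _).trans (le_max_left _ _)).trans hm
  have hC : m3 ≤ m := ((le_max_left _ _).trans (le_max_right _ _)).trans hm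
  have hD : 3 ≤ m := ((le_max_right _ _).trans (le_max_right _ _)).trans hm
  have hnum := hm2 m hB X hX hX2
  have hdl := hm3 m hC
  have h3 : (3 : ℝ) ≤ m := by exact_mod_cast hD
  have hm0 : (0 : ℝ) < m := by linarith
  have hp1 : p ≤ 1 := by
    by_contra hcon
    push Not at hcon
    nlinarith
  have hX0 : 0 ≤ X := by linarith
  have h2m : (0 : ℝ) < 2 ^ m := by positivity
  set E := offE (cubeE m) S with hE
  have hEsub : E ⊆ cubeE m := xb_offE_subset _ _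
  set v : Q m → ℝ := fun z => chi E p z with hv_def
  have hv1 : ∀ z, v z ≤ X := by
    intro z
    rw [← hchi z]
    exact xb_chi_mono_E (cubeE m) E hEsub p hp hp1 z
  have hv0 : ∀ z, 0 ≤ v z := fun z => le_trans zero_le_one (xb_chi_ge_one E p hp hp1 z)
  have hw : (fun z => wt E p (sm fun _ => 1) z) = v := by
    funext z
    exact (xb_chi_wt E p z).symm
  have hr := hm1 m hA X X p hX hX0 (by
      refine hnum.trans ?_
      have : c / 8 * 2 ^ m ≤ 1 * 2 ^ m := mul_le_mul_of_nonneg_right (by linarith) h2m.le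
      linarith) hp hpm hpm1 (fun x => (hchi x).le) S (fun _ => 1) (fun _ => zero_le_one)
    (fun z => by rw [← hE, ← xb_chi_wt]; exact hv1 z) (TN m) (by omega) y
  rw [← hE, hw, ← xb_chi_wt] at hr
  change _ ≤ v y at hr
  set T := TN m with hT
  have hTT : TT m ≤ T := by
    rw [hT]
    unfold TN
    omega
  have hmT : (0 : ℝ) < (m : ℝ) ^ T := by positivity
  have hsum : 0 ≤ (∑ i ∈ range T, (nb E)^[i] (fun _ => (1 : ℝ)) y / (m : ℝ) ^ i) / 4 := by
    apply div_nonneg _ (by norm_num)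
    exact Finset.sum_nonneg fun i _ =>
      div_nonneg (nb_iter_nonneg E i _ (fun _ => zero_le_one) y) (by positivity)
  -- lower bound for the iterate
  have hobst : ∀ z, z ∉ S → X ≤ v z + (∑ s ∈ S, tau (cubeE m) p z s) * X := by
    intro z hz
    have h2 := b_obst (cubeE m) p hp hp1 (fun A => (A.card : ℝ))
      (fun A B h => by exact_mod_cast Finset.card_le_card h)
      (fun A B => by exact_mod_cast Finset.card_union_le A B)
      (fun A => Nat.cast_nonneg _) S z hz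
    have h3 : wt (cubeE m) p (fun A => (A.card : ℝ)) z = X := hchi z
    have h4 : ∀ d, wt (cubeE m) p (fun A => (A.card : ℝ)) d = X := fun d => hchi d
    rw [h3, Finset.sum_congr rfl (fun d _ => by rw [h4 d]), ← Finset.sum_mul] at h2
    exact h2
  have hs : ∑ z, ∑ s ∈ S, tau (cubeE m) p z s = S.card * X := by
    rw [Finset.sum_comm]
    have : ∀ s ∈ S, ∑ z, tau (cubeE m) p z s = X := by
      intro s _
      rw [← hchi s, xb_chi_sum]
      exact Finset.sum_congr rfl fun z _ => xb_tau_comm _ _ _ _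
    rw [Finset.sum_congr rfl this, Finset.sum_const, nsmul_eq_mul]
  have hlow : X * (nb E)^[T] (fun _ => 1) y - 4 * (m : ℝ) ^ T / 2 ^ m * (S.card * X) * X ≤
      (nb E)^[T] v y := by
    rw [nb_iter_eq, nb_iter_eq, Finset.mul_sum]
    have h5 : 4 * (m : ℝ) ^ T / 2 ^ m * (S.card * X) * X =
        ∑ z, 4 * (m : ℝ) ^ T / 2 ^ m * (∑ s ∈ S, tau (cubeE m) p z s) * X := by
      rw [← Finset.sum_mul, ← Finset.mul_sum, hs]
    rw [h5, ← Finset.sum_sub_distrib]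
    refine Finset.sum_le_sum fun z _ => ?_
    have hnn : 0 ≤ ∑ s ∈ S, tau (cubeE m) p z s :=
      Finset.sum_nonneg fun s _ => xb_tau_nonneg _ _ hp hp1 _ _
    by_cases hz : z ∈ S
    · have h6 : wk E T y z = 0 := wk_off_zero (cubeE m) S T y z hy hz
      rw [h6]
      have : 0 ≤ 4 * (m : ℝ) ^ T / 2 ^ m * (∑ s ∈ S, tau (cubeE m) p z s) * X := by positivity
      linarith
    · have h6 := hobst z hz
      have h7 : wk E T y z ≤ 4 * (m : ℝ) ^ T / 2 ^ m :=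
        (wk_mono_E (cubeE m) E hEsub T y z).trans (four_mix m (by omega) T hTT y z)
      have h8 := wk_nonneg E T y z
      have h9 := mul_le_mul_of_nonneg_left h6 h8
      have h10 : wk E T y z * ((∑ s ∈ S, tau (cubeE m) p z s) * X) ≤
          4 * (m : ℝ) ^ T / 2 ^ m * ((∑ s ∈ S, tau (cubeE m) p z s) * X) :=
        mul_le_mul_of_nonneg_right h7 (by positivity)
      nlinarith
  have hlow2 : c * X / 2 ≤ (nb E)^[T] v y / (m : ℝ) ^ T := by
    have h5 := div_le_div_of_nonneg_right hlow hmT.le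
    have e : (X * (nb E)^[T] (fun _ => 1) y - 4 * (m : ℝ) ^ T / 2 ^ m * (S.card * X) * X) /
        (m : ℝ) ^ T = X * esc m S y - 4 * (S.card * X) / 2 ^ m * X := by
      unfold esc
      rw [← hE, ← hT]
      field_simp
    rw [e] at h5
    refine le_trans ?_ h5
    have h6 : X * c ≤ X * esc m S y := mul_le_mul_of_nonneg_left hesc hX0
    have h7 : 4 * (S.card * X) / 2 ^ m ≤ c / 2 := by
      rw [div_le_iff₀ h2m]
      linarith
    have h8 : 4 * (S.card * X) / 2 ^ m * X ≤ c / 2 * X := mul_le_mul_of_nonneg_right h7 hX0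
    linarith
  have herr : LL 30000 m * X ^ 2 * X / 2 ^ m ≤ c / 8 * X := by
    rw [div_le_iff₀ h2m]
    have := mul_le_mul_of_nonneg_right hnum hX0
    linarith
  have e2 : (nb E)^[T] v y / (2 * (m : ℝ) ^ T) = (nb E)^[T] v y / (m : ℝ) ^ T / 2 := by
    rw [div_div]
    congr 1
    ring
  rw [e2] at hr
  show c * X / 8 ≤ v y
  linarith

end Pool.Agent.Work.MP_b7dc8a_pr
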