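import Pool.Agent.Work.MP_b7dc8a_pr.F.D3s

/-! Module D3 (M): covariance of `DL E ∅ A` with `exp (i s N)`, `N = NN E ∅`, `E = cubeE m`.

Enumerate `A = {a_1, ..., a_n}`, `D_i = {a_1, ..., a_{i-1}}`, `δ_i = DL E D_i {a_i} >= 0`, `Δ = DL E ∅ A =
∑ δ_i` (`dl_add`), `N_i = NN E (D_i ∪ {a_i})`, `c_i = |D_i| + 1`. `N = c_i + N_i - Δ_i` with
`Δ_i = DL E ∅ (D_i ∪ {a_i})`, `0 <= Δ_i <= Δ`. Let `M = min (|s| Δ) 2`; `|exp (-i s Δ_i) - 1| <=
min (|s| Δ_i) 2 <= M`. So
`|EGC [δ_i exp (i s N)] - exp (i s c_i) EGC [δ_i exp (i s N_i)]| <= EG [δ_i M]`,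
`|EG δ_i EGC [exp (i s N)] - exp (i s c_i) EG δ_i EGC [exp (i s N_i)]| <= EG δ_i EG M <= EG δ_i |s| EG Δ`,
and the covariance of `δ_i` and `exp (i s N_i)` is bounded by `d3s`, `bb e D_i <= bb e A`. Sum over `i`:
`|Cov| <= 6000 C0^4 |s| |A|/e^2 bb^3 + EG [Δ M] + |s| (EG Δ)^2`, and `EG Δ <= 18 C0^2 |A| bb e A`.
(Induction: prove for all `B ⊆ A` the bound for `DL E ∅ B` with `M` fixed, or use `Finset.induction_on`
for a statement with `D`.) -/

namespace Pool.Agent.Work.MP_b7dc8a_pr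

open Finset

section D3A
variable {V : Type} [Fintype V]

private theorem tEG_add (E : Finset (Sym2 V)) (p h : ℝ) (F H : Finset (Sym2 V) → Finset V → ℝ) :
    EG E p h (fun ω G => F ω G + H ω G) = EG E p h F + EG E p h H := by
  unfold EG
  simp only [Ex_add]

private theorem tEG_sub (E : Finset (Sym2 V)) (p h : ℝ) (F H : Finset (Sym2 V) → Finset V → ℝ) :
    EG E p h (fun ω G => F ω G - H ω G) = EG E p h F - EG E p h H := by
  unfold EG
  simp only [Ex_sub]

private theorem tEG_mul (E : Finset (Sym2 V)) (p h c : ℝ) (F : Finset (Sym2 V) → Finset V → ℝ) :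
    EG E p h (fun ω G => c * F ω G) = c * EG E p h F := by
  unfold EG
  simp only [Ex_mul_left]

private theorem tEG_const (E : Finset (Sym2 V)) (p h c : ℝ) :
    EG E p h (fun _ _ => c) = c := by
  unfold EG
  simp only [Ex_const]

private theorem tEG_sum {ι : Type} (I : Finset ι) (E : Finset (Sym2 V)) (p h : ℝ)
    (F : ι → Finset (Sym2 V) → Finset V → ℝ) :
    EG E p h (fun ω G => ∑ i ∈ I, F i ω G) = ∑ i ∈ I, EG E p h (F i) := by
  unfold EG
  simp only [Ex_sum]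

private theorem tEG_mono (E : Finset (Sym2 V)) (p h : ℝ) (h0 : 0 ≤ p)
    (h1 : p ≤ 1) (hh0 : 0 ≤ h) (hh1 : h ≤ 1) (F H : Finset (Sym2 V) → Finset V → ℝ)
    (hFH : ∀ ω ⊆ E, ∀ G, F ω G ≤ H ω G) : EG E p h F ≤ EG E p h H := by
  unfold EG
  exact Ex_mono E p h0 h1 _ _ fun ω hω => Ex_mono _ h hh0 hh1 _ _ fun G _ => hFH ω hω G

private theorem tEG_congr (E : Finset (Sym2 V)) (p h : ℝ) (F H : Finset (Sym2 V) → Finset V → ℝ)
    (hFH : ∀ ω ⊆ E, ∀ G, F ω G = H ω G) : EG E p h F = EG E p h H := by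
  unfold EG
  exact Ex_congr E p _ _ fun ω hω => Ex_congr _ h _ _ fun G _ => hFH ω hω G

private theorem tExC_congr {α : Type} (E : Finset α) (p : ℝ) (F G : Finset α → ℂ)
    (h : ∀ ω ⊆ E, F ω = G ω) : ExC E p F = ExC E p G := by
  unfold ExC
  exact Finset.sum_congr rfl fun ω hω => by rw [h ω (Finset.mem_powerset.1 hω)]

private theorem tEGC_mul (E : Finset (Sym2 V)) (p h : ℝ) (c : ℂ)
    (F : Finset (Sym2 V) → Finset V → ℂ) :
    EGC E p h (fun ω G => c * F ω G) = c * EGC E p h F := by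
  unfold EGC
  simp only [ExC_mul_left]

private theorem tEGC_add (E : Finset (Sym2 V)) (p h : ℝ) (F H : Finset (Sym2 V) → Finset V → ℂ) :
    EGC E p h (fun ω G => F ω G + H ω G) = EGC E p h F + EGC E p h H := by
  unfold EGC
  simp only [ExC_add]

private theorem tEGC_sub (E : Finset (Sym2 V)) (p h : ℝ) (F H : Finset (Sym2 V) → Finset V → ℂ) :
    EGC E p h (fun ω G => F ω G - H ω G) = EGC E p h F - EGC E p h H := by
  unfold EGC
  simp only [ExC_sub]

private theorem tEGC_congr (E : Finset (Sym2 V)) (p h : ℝ) (F H : Finset (Sym2 V) → Finset V → ℂ)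
    (hFH : ∀ ω ⊆ E, ∀ G, F ω G = H ω G) : EGC E p h F = EGC E p h H := by
  unfold EGC
  exact tExC_congr E p _ _ fun ω hω => tExC_congr _ h _ _ fun G _ => hFH ω hω G

private theorem tEGC_norm (E : Finset (Sym2 V)) (p h : ℝ) (h0 : 0 ≤ p)
    (h1 : p ≤ 1) (hh0 : 0 ≤ h) (hh1 : h ≤ 1) (F : Finset (Sym2 V) → Finset V → ℂ) :
    ‖EGC E p h F‖ ≤ EG E p h (fun ω G => ‖F ω G‖) := by
  unfold EGC EG
  refine (ExC_norm_le E p h0 h1 _).trans ?_
  exact Ex_mono E p h0 h1 _ _ fun ω _ => ExC_norm_le _ h hh0 hh1 _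

end D3A

private noncomputable def tff (s n : ℝ) : ℂ := Complex.exp (Complex.I * ((s * n : ℝ) : ℂ))

private theorem tf_add (s x y : ℝ) : tff s (x + y) = tff s x * tff s y := by
  unfold tff
  rw [← Complex.exp_add]
  congr 1
  push_cast
  ring

private theorem tf_norm (s x : ℝ) : ‖tff s x‖ = 1 := Complex.norm_exp_I_mul_ofReal _

private theorem tf_sub (s x y : ℝ) : ‖tff s x - tff s y‖ ≤ |s| * |x - y| := by
  have h1 : tff s x - tff s y = tff s y * (tff s (x - y) - 1) := by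
    have h2 : tff s x = tff s y * tff s (x - y) := by
      rw [← tf_add]
      congr 1
      ring
    rw [h2]
    ring
  rw [h1, norm_mul, tf_norm, one_mul]
  unfold tff
  refine Real.norm_exp_I_mul_ofReal_sub_one_le.trans ?_
  rw [Real.norm_eq_abs, abs_mul]


private theorem t_bb1 {V : Type} (e : ℝ) (D : Finset V) : 1 ≤ bb e D := by
  unfold bb
  have : 0 ≤ e ^ 2 * (D.card : ℝ) := by positivity
  linarith

private theorem t_bb_mono {V : Type} (e : ℝ) (D D' : Finset V) (h : D ⊆ D') : bb e D ≤ bb e D' := by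
  unfold bb
  have h2 : (D.card : ℝ) ≤ D'.card := by exact_mod_cast Finset.card_le_card h
  have h3 : 0 ≤ e ^ 2 := by positivity
  nlinarith


private theorem t_min (s x y : ℝ) (hxy : x ≤ y) (hx : 0 ≤ x) : ‖tff s (-x) - 1‖ ≤ min (|s| * y) 2 := by
  have h1 : tff s 0 = 1 := by unfold tff; simp
  apply le_min
  · have h2 := tf_sub s (-x) 0
    rw [h1, sub_zero, abs_neg, abs_of_nonneg hx] at h2
    exact h2.trans (mul_le_mul_of_nonneg_left hxy (abs_nonneg s))
  · refine (norm_sub_le _ _).trans ?_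
    rw [tf_norm, norm_one]
    norm_num

private theorem t_step (C0 e p h : ℝ) (K m : ℕ) (R : Reg C0 K m e p h) (hK : 4 ≤ K)
    (A B : Finset (Q m)) (a : Q m) (ha : a ∉ B) (hB : insert a B ⊆ A) (s : ℝ) :
    ‖EGC (cubeE m) p h (fun ω G => (DL (cubeE m) B {a} ω G : ℂ) * tff s (NN (cubeE m) ∅ ω G)) -
      (EG (cubeE m) p h (DL (cubeE m) B {a}) : ℂ) *
        EGC (cubeE m) p h (fun ω G => tff s (NN (cubeE m) ∅ ω G))‖ ≤
    6000 * C0 ^ 4 * |s| / e ^ 2 * bb e A ^ 3 +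
      EG (cubeE m) p h (fun ω G => DL (cubeE m) B {a} ω G *
        min (|s| * DL (cubeE m) ∅ A ω G) 2) +
      EG (cubeE m) p h (DL (cubeE m) B {a}) * (|s| * EG (cubeE m) p h (DL (cubeE m) ∅ A)) := by
  have h0 := R.hp0
  have h1 : p ≤ 1 := by have := R.hp1; linarith
  have hh0 := R.hh0
  have hh1 : h ≤ 1 := by
    have h2 := R.hh
    have h3 := R.he1
    have h4 := R.he0
    nlinarith
  have he0 := R.he0
  have hC0 := R.hC0
  set c : ℝ := ((B ∪ {a}).card : ℝ) with hc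
  have hins : B ∪ {a} = insert a B := by
    ext z
    simp only [Finset.mem_union, Finset.mem_singleton, Finset.mem_insert]
    tauto
  have hΔ : ∀ ω G, NN (cubeE m) ∅ ω G = c + (NN (cubeE m) (B ∪ {a}) ω G +
      -(DL (cubeE m) ∅ (B ∪ {a}) ω G)) := by
    intro ω G
    unfold DL
    rw [Finset.empty_union]
    ring
  have hle : ∀ ω G, DL (cubeE m) ∅ (B ∪ {a}) ω G ≤ DL (cubeE m) ∅ A ω G := by
    intro ω G
    have h2 := dl_add (cubeE m) ∅ (B ∪ {a}) (A \ (B ∪ {a})) Finset.disjoint_sdiff ω G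
    rw [Finset.union_sdiff_of_subset (by rw [hins]; exact hB)] at h2
    have h3 := dl_nonneg (cubeE m) (∅ ∪ (B ∪ {a})) (A \ (B ∪ {a})) ω G
    linarith
  have hdiff : ∀ ω G, ‖tff s (NN (cubeE m) ∅ ω G) -
      tff s c * tff s (NN (cubeE m) (B ∪ {a}) ω G)‖ ≤ min (|s| * DL (cubeE m) ∅ A ω G) 2 := by
    intro ω G
    have h2 : tff s (NN (cubeE m) ∅ ω G) - tff s c * tff s (NN (cubeE m) (B ∪ {a}) ω G) =
        tff s c * tff s (NN (cubeE m) (B ∪ {a}) ω G) *
          (tff s (-(DL (cubeE m) ∅ (B ∪ {a}) ω G)) - 1) := by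
      rw [hΔ, tf_add, tf_add]
      ring
    rw [h2, norm_mul, norm_mul, tf_norm, tf_norm, one_mul, one_mul]
    exact t_min s _ _ (hle ω G) (dl_nonneg _ _ _ _ _)
  have hδ : ∀ ω G, 0 ≤ DL (cubeE m) B {a} ω G := fun ω G => dl_nonneg _ _ _ _ _
  -- first replacement
  have e1 : ‖EGC (cubeE m) p h (fun ω G => (DL (cubeE m) B {a} ω G : ℂ) *
        tff s (NN (cubeE m) ∅ ω G)) -
      tff s c * EGC (cubeE m) p h (fun ω G => (DL (cubeE m) B {a} ω G : ℂ) *
        tff s (NN (cubeE m) (B ∪ {a}) ω G))‖ ≤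
      EG (cubeE m) p h (fun ω G => DL (cubeE m) B {a} ω G *
        min (|s| * DL (cubeE m) ∅ A ω G) 2) := by
    rw [← tEGC_mul, ← tEGC_sub]
    refine (tEGC_norm _ p h h0 h1 hh0 hh1 _).trans ?_
    refine tEG_mono _ p h h0 h1 hh0 hh1 _ _ fun ω _ G => ?_
    have h2 : (DL (cubeE m) B {a} ω G : ℂ) * tff s (NN (cubeE m) ∅ ω G) -
        tff s c * ((DL (cubeE m) B {a} ω G : ℂ) * tff s (NN (cubeE m) (B ∪ {a}) ω G)) =
        (DL (cubeE m) B {a} ω G : ℂ) * (tff s (NN (cubeE m) ∅ ω G) -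
          tff s c * tff s (NN (cubeE m) (B ∪ {a}) ω G)) := by ring
    rw [h2, norm_mul, Complex.norm_real, Real.norm_eq_abs, abs_of_nonneg (hδ ω G)]
    exact mul_le_mul_of_nonneg_left (hdiff ω G) (hδ ω G)
  -- second replacement
  have e2 : ‖EGC (cubeE m) p h (fun ω G => tff s (NN (cubeE m) ∅ ω G)) -
      tff s c * EGC (cubeE m) p h (fun ω G => tff s (NN (cubeE m) (B ∪ {a}) ω G))‖ ≤
      |s| * EG (cubeE m) p h (DL (cubeE m) ∅ A) := by
    rw [← tEGC_mul, ← tEGC_sub, ← tEG_mul]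
    refine (tEGC_norm _ p h h0 h1 hh0 hh1 _).trans ?_
    refine tEG_mono _ p h h0 h1 hh0 hh1 _ _ fun ω _ G => ?_
    exact (hdiff ω G).trans (min_le_left _ _)
  have e3 := d3s C0 e p h K m R hK B a ha s
  have hf : ∀ n : ℝ, Complex.exp (Complex.I * ((s * n : ℝ) : ℂ)) = tff s n := fun n => rfl
  simp only [hf] at e3
  have hEδ : 0 ≤ EG (cubeE m) p h (DL (cubeE m) B {a}) := by
    have := tEG_mono (cubeE m) p h h0 h1 hh0 hh1 (fun _ _ => 0) (DL (cubeE m) B {a})
      (fun ω _ G => hδ ω G)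
    rwa [tEG_const] at this
  set X1 := EGC (cubeE m) p h (fun ω G => (DL (cubeE m) B {a} ω G : ℂ) *
    tff s (NN (cubeE m) ∅ ω G)) with hX1
  set X2 := EGC (cubeE m) p h (fun ω G => (DL (cubeE m) B {a} ω G : ℂ) *
    tff s (NN (cubeE m) (B ∪ {a}) ω G)) with hX2
  set Y1 := EGC (cubeE m) p h (fun ω G => tff s (NN (cubeE m) ∅ ω G)) with hY1
  set Y2 := EGC (cubeE m) p h (fun ω G => tff s (NN (cubeE m) (B ∪ {a}) ω G)) with hY2
  set g := EG (cubeE m) p h (DL (cubeE m) B {a}) with hg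
  have e4 : X1 - (g : ℂ) * Y1 = (X1 - tff s c * X2) + tff s c * (X2 - (g : ℂ) * Y2) -
      (g : ℂ) * (Y1 - tff s c * Y2) := by ring
  have e5 : ‖X1 - (g : ℂ) * Y1‖ ≤ ‖X1 - tff s c * X2‖ + ‖tff s c * (X2 - (g : ℂ) * Y2)‖ +
      ‖(g : ℂ) * (Y1 - tff s c * Y2)‖ := by
    rw [e4]
    exact (norm_sub_le _ _).trans (add_le_add (norm_add_le _ _) le_rfl)
  rw [norm_mul, norm_mul, tf_norm, one_mul, Complex.norm_real, Real.norm_eq_abs,
    abs_of_nonneg hEδ] at e5
  have e6 : 6000 * C0 ^ 4 * |s| / e ^ 2 * bb e B ^ 3 ≤ 6000 * C0 ^ 4 * |s| / e ^ 2 * bb e A ^ 3 := by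
    have h2 := t_bb_mono e B A ((Finset.subset_insert a B).trans hB)
    have h3 := t_bb1 e B
    have h4 := abs_nonneg s
    gcongr
  have e7 := mul_le_mul_of_nonneg_left e2 hEδ
  linarith

theorem d3 (C0 e p h : ℝ) (K m : ℕ) (R : Reg C0 K m e p h) (hK : 4 ≤ K) (A : Finset (Q m))
    (s : ℝ) :
    ‖EGC (cubeE m) p h (fun ω G => (DL (cubeE m) ∅ A ω G : ℂ) *
        Complex.exp (Complex.I * ((s * NN (cubeE m) ∅ ω G : ℝ) : ℂ))) -
      (EG (cubeE m) p h (DL (cubeE m) ∅ A) : ℂ) * EGC (cubeE m) p h (fun ω G =>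
        Complex.exp (Complex.I * ((s * NN (cubeE m) ∅ ω G : ℝ) : ℂ)))‖ ≤
    6000 * C0 ^ 4 * |s| * A.card / e ^ 2 * bb e A ^ 3 +
      EG (cubeE m) p h (fun ω G => DL (cubeE m) ∅ A ω G * min (|s| * DL (cubeE m) ∅ A ω G) 2) +
      |s| * (18 * C0 ^ 2 * A.card * bb e A) ^ 2 := by
  have h0 := R.hp0
  have h1 : p ≤ 1 := by have := R.hp1; linarith
  have hh0 := R.hh0
  have hh1 : h ≤ 1 := by
    have h2 := R.hh
    have h3 := R.he1
    have h4 := R.he0
    nlinarith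
  have hf : ∀ n : ℝ, Complex.exp (Complex.I * ((s * n : ℝ) : ℂ)) = tff s n := fun n => rfl
  simp only [hf]
  have key : ∀ B : Finset (Q m), B ⊆ A →
      ‖EGC (cubeE m) p h (fun ω G => (DL (cubeE m) ∅ B ω G : ℂ) * tff s (NN (cubeE m) ∅ ω G)) -
        (EG (cubeE m) p h (DL (cubeE m) ∅ B) : ℂ) *
          EGC (cubeE m) p h (fun ω G => tff s (NN (cubeE m) ∅ ω G))‖ ≤
      B.card * (6000 * C0 ^ 4 * |s| / e ^ 2 * bb e A ^ 3) +
        EG (cubeE m) p h (fun ω G => DL (cubeE m) ∅ B ω G *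
          min (|s| * DL (cubeE m) ∅ A ω G) 2) +
        EG (cubeE m) p h (DL (cubeE m) ∅ B) * (|s| * EG (cubeE m) p h (DL (cubeE m) ∅ A)) := by
    intro B
    induction B using Finset.induction_on with
    | empty =>
      intro _
      have h2 : ∀ ω G, DL (cubeE m) ∅ ∅ ω G = 0 := by
        intro ω G
        unfold DL
        simp
      have h3 : EG (cubeE m) p h (DL (cubeE m) ∅ ∅) = 0 := by
        have : EG (cubeE m) p h (DL (cubeE m) ∅ ∅) = EG (cubeE m) p h (fun _ _ => 0) :=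
          tEG_congr _ _ _ _ _ fun ω _ G => h2 ω G
        rw [this, tEG_const]
      have h4 : EGC (cubeE m) p h (fun ω G => (DL (cubeE m) ∅ ∅ ω G : ℂ) *
          tff s (NN (cubeE m) ∅ ω G)) = 0 := by
        have : EGC (cubeE m) p h (fun ω G => (DL (cubeE m) ∅ ∅ ω G : ℂ) *
          tff s (NN (cubeE m) ∅ ω G)) = EGC (cubeE m) p h (fun ω G => (0 : ℂ) *
            tff s (NN (cubeE m) ∅ ω G)) := by
          refine tEGC_congr _ _ _ _ _ fun ω _ G => ?_
          rw [h2]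
          norm_num
        rw [this, tEGC_mul, zero_mul]
      have h5 : EG (cubeE m) p h (fun ω G => DL (cubeE m) ∅ ∅ ω G *
          min (|s| * DL (cubeE m) ∅ A ω G) 2) = 0 := by
        have : EG (cubeE m) p h (fun ω G => DL (cubeE m) ∅ ∅ ω G *
          min (|s| * DL (cubeE m) ∅ A ω G) 2) = EG (cubeE m) p h (fun _ _ => 0) := by
          refine tEG_congr _ _ _ _ _ fun ω _ G => ?_
          rw [h2, zero_mul]
        rw [this, tEG_const]
      rw [h3, h4, h5]
      simp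
    | insert a B ha ih =>
      intro hB
      have ih' := ih ((Finset.subset_insert a B).trans hB)
      have hs := t_step C0 e p h K m R hK A B a ha hB s
      have hins : insert a B = B ∪ {a} := by
        ext z
        simp only [Finset.mem_union, Finset.mem_singleton, Finset.mem_insert]
        tauto
      have hadd : ∀ ω G, DL (cubeE m) ∅ (insert a B) ω G =
          DL (cubeE m) ∅ B ω G + DL (cubeE m) B {a} ω G := by
        intro ω G
        rw [hins, dl_add (cubeE m) ∅ B {a} (Finset.disjoint_singleton_right.2 ha) ω G,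
          Finset.empty_union]
      have k1 : EG (cubeE m) p h (DL (cubeE m) ∅ (insert a B)) =
          EG (cubeE m) p h (DL (cubeE m) ∅ B) + EG (cubeE m) p h (DL (cubeE m) B {a}) := by
        rw [← tEG_add]
        exact tEG_congr _ _ _ _ _ fun ω _ G => hadd ω G
      have k2 : EGC (cubeE m) p h (fun ω G => (DL (cubeE m) ∅ (insert a B) ω G : ℂ) *
          tff s (NN (cubeE m) ∅ ω G)) = EGC (cubeE m) p h (fun ω G =>
          (DL (cubeE m) ∅ B ω G : ℂ) * tff s (NN (cubeE m) ∅ ω G)) +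
          EGC (cubeE m) p h (fun ω G => (DL (cubeE m) B {a} ω G : ℂ) *
            tff s (NN (cubeE m) ∅ ω G)) := by
        rw [← tEGC_add]
        refine tEGC_congr _ _ _ _ _ fun ω _ G => ?_
        rw [hadd]
        push_cast
        ring
      have k3 : EG (cubeE m) p h (fun ω G => DL (cubeE m) ∅ (insert a B) ω G *
          min (|s| * DL (cubeE m) ∅ A ω G) 2) = EG (cubeE m) p h (fun ω G =>
          DL (cubeE m) ∅ B ω G * min (|s| * DL (cubeE m) ∅ A ω G) 2) +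
          EG (cubeE m) p h (fun ω G => DL (cubeE m) B {a} ω G *
            min (|s| * DL (cubeE m) ∅ A ω G) 2) := by
        rw [← tEG_add]
        refine tEG_congr _ _ _ _ _ fun ω _ G => ?_
        rw [hadd]
        ring
      have k4 : ((insert a B).card : ℝ) = B.card + 1 := by
        rw [Finset.card_insert_of_notMem ha]
        push_cast
        ring
      rw [k1, k2, k3, k4]
      set X1 := EGC (cubeE m) p h (fun ω G => (DL (cubeE m) ∅ B ω G : ℂ) *
        tff s (NN (cubeE m) ∅ ω G))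
      set X2 := EGC (cubeE m) p h (fun ω G => (DL (cubeE m) B {a} ω G : ℂ) *
        tff s (NN (cubeE m) ∅ ω G))
      set Y := EGC (cubeE m) p h (fun ω G => tff s (NN (cubeE m) ∅ ω G))
      set g1 := EG (cubeE m) p h (DL (cubeE m) ∅ B)
      set g2 := EG (cubeE m) p h (DL (cubeE m) B {a})
      have k5 : X1 + X2 - ((g1 + g2 : ℝ) : ℂ) * Y = (X1 - (g1 : ℂ) * Y) + (X2 - (g2 : ℂ) * Y) := by
        push_cast
        ring
      rw [k5]
      refine (norm_add_le _ _).trans ((add_le_add ih' hs).trans (le_of_eq ?_))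
      ring
  have hfin := key A (Finset.Subset.refl A)
  have hmean : EG (cubeE m) p h (DL (cubeE m) ∅ A) ≤ 18 * C0 ^ 2 * A.card * bb e A := by
    have h2 := del_set C0 e p h K m R (by omega) ∅ A (Finset.disjoint_empty_right A)
    rw [Finset.empty_union] at h2
    exact h2
  have hpos : 0 ≤ EG (cubeE m) p h (DL (cubeE m) ∅ A) := by
    have := tEG_mono (cubeE m) p h h0 h1 hh0 hh1 (fun _ _ => 0) (DL (cubeE m) ∅ A)
      (fun ω _ G => dl_nonneg _ _ _ _ _)
    rwa [tEG_const] at this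
  have hsq : EG (cubeE m) p h (DL (cubeE m) ∅ A) * (|s| * EG (cubeE m) p h (DL (cubeE m) ∅ A)) ≤
      |s| * (18 * C0 ^ 2 * A.card * bb e A) ^ 2 := by
    have h2 := mul_le_mul hmean hmean hpos (hpos.trans hmean)
    have h3 := mul_le_mul_of_nonneg_left h2 (abs_nonneg s)
    calc _ = |s| * (EG (cubeE m) p h (DL (cubeE m) ∅ A) * EG (cubeE m) p h (DL (cubeE m) ∅ A)) := by
          ring
      _ ≤ _ := h3
      _ = _ := by ring
  have hT : (A.card : ℝ) * (6000 * C0 ^ 4 * |s| / e ^ 2 * bb e A ^ 3) =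
      6000 * C0 ^ 4 * |s| * A.card / e ^ 2 * bb e A ^ 3 := by ring
  rw [hT] at hfin
  linarith

end Pool.Agent.Work.MP_b7dc8a_pr
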