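import Pool.Agent.Work.MP_b7dc8a_pr.F.D2t
import Pool.Agent.Work.MP_b7dc8a_pr.F.D3
import Pool.Agent.Work.MP_b7dc8a_pr.Lclt
import Pool.Agent.Work.MP_b7dc8a_pr.F.Mom

/-! Module CLTN (M): central limit theorem for `N = NN E ∅`, `E = cubeE m`, `V = 2^m`, `w = e^3 V`,
`μ = EG N`, `σ^2 = Var N`.

`nid_err`. By `nid` with `f n = exp (i s n)`, `A = cl ω' x`, `Δ = DL E ∅ A`:
`EGC [N exp (isN)] = ∑_x ExC [(1-h)^|A| EGC [exp (i s (N + Δ))]]` and
`exp (i s (N + Δ)) = exp (isN) (1 + i s Δ + r)`, `|r| <= |s| Δ min (|s| Δ) 2` (`|exp (iy) - 1 - iy| <=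
y^2/2` (`lclt_exp_bound`) and `<= 2 |y|`). `∑_x Ex (1-h)^|A| = μ` (`nid_mean`), `∑_x Ex [(1-h)^|A| EG Δ] =
σ^2` (`nid_var`). So
`EGC [(N - μ) exp (isN)] - i s σ^2 φ = i s ∑_x ExC [(1-h)^|A| (EGC [Δ exp (isN)] - EG Δ φ)] +
∑_x ExC [(1-h)^|A| EGC [r exp (isN)]]`, `φ = EGC [exp (isN)]`. Bound with `d3` and `d2t` (`a = |A|`):
the norm is at most `|s| ∑_x Ex [(1-h)^a (6000 C0^4 |s| a/e^2 bb^3 + |s| (18 C0^2 a bb)^2 +
2 (C |s| Kh^3 (a^2 + a/e^2) bb^2 + C (1/Kh + 1/w) a bb^11))]`, and by `mob` with `D = ∅` (`bb e ∅ = 1`):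
`Ex [(1-h)^a a bb^j] <= 2^j C0/e`, `Ex [(1-h)^a a^2 bb^j] <= 2^j C0/e^3` (`k + j <= 12 <= K`).

`cltn`: `φ t = EGC [exp (i t (N - μ)/σ)]`; its derivative is `EGC [i (N-μ)/σ exp (i t (N-μ)/σ)]` (as in
`lclt_deriv`), and with `s = t/σ` (multiply `nid_err` by `(i/σ) exp (-i s μ)`):
`‖φ' t + t φ t‖ <= (1/σ) (C s^2 Kh^3 V/e^3 + C |s| (1/Kh + 1/w) V/e)
 = C t^2 Kh^3 V/(σ^3 e^3) + C |t| (1/Kh + 1/w) V/(σ^2 e)`, and `σ^2 >= c V/e` gives `V/(σ^2 e) <= 1/c`,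
`V/(σ^3 e^3) <= 1/(c^(3/2) sqrt w)`. Use `lclt_ode`. -/

namespace Pool.Agent.Work.MP_b7dc8a_pr

open Finset

section CLTN
variable {V : Type} [Fintype V]

private theorem cltn_EGC_add (E : Finset (Sym2 V)) (p h : ℝ)
    (F H : Finset (Sym2 V) → Finset V → ℂ) :
    EGC E p h (fun ω G => F ω G + H ω G) = EGC E p h F + EGC E p h H := by
  unfold EGC
  rw [← ExC_add]
  congr 1
  funext ω
  rw [ExC_add]

private theorem cltn_EGC_mul (E : Finset (Sym2 V)) (p h : ℝ) (c : ℂ)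
    (F : Finset (Sym2 V) → Finset V → ℂ) :
    EGC E p h (fun ω G => c * F ω G) = c * EGC E p h F := by
  unfold EGC
  rw [← ExC_mul_left]
  congr 1
  funext ω
  rw [ExC_mul_left]

private theorem cltn_EGC_norm (E : Finset (Sym2 V)) (p h : ℝ) (h0 : 0 ≤ p) (h1 : p ≤ 1)
    (hh0 : 0 ≤ h) (hh1 : h ≤ 1) (F : Finset (Sym2 V) → Finset V → ℂ)
    (B : Finset (Sym2 V) → Finset V → ℝ) (hB : ∀ ω G, ‖F ω G‖ ≤ B ω G) :
    ‖EGC E p h F‖ ≤ EG E p h B := by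
  unfold EGC EG
  refine (ExC_norm_le _ _ h0 h1 _).trans (Ex_mono _ _ h0 h1 _ _ fun ω _ => ?_)
  exact (ExC_norm_le _ _ hh0 hh1 _).trans (Ex_mono _ _ hh0 hh1 _ _ fun G _ => hB ω G)

private theorem cltn_r (y : ℝ) :
    ‖Complex.exp (Complex.I * (y : ℂ)) - 1 - Complex.I * (y : ℂ)‖ ≤ |y| * min |y| 2 := by
  have h1 := lclt_exp_bound y
  have h2 : ‖Complex.exp (Complex.I * (y : ℂ)) - 1 - Complex.I * (y : ℂ)‖ ≤ 2 * |y| := by
    have h3 : ‖Complex.exp (Complex.I * (y : ℂ)) - 1‖ ≤ |y| := by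
      have := Real.norm_exp_I_mul_ofReal_sub_one_le (x := y)
      simpa using this
    have h4 : ‖Complex.I * (y : ℂ)‖ = |y| := by
      rw [norm_mul, Complex.norm_I, one_mul, Complex.norm_real, Real.norm_eq_abs]
    calc _ ≤ ‖Complex.exp (Complex.I * (y : ℂ)) - 1‖ + ‖Complex.I * (y : ℂ)‖ := norm_sub_le _ _
      _ ≤ 2 * |y| := by rw [h4]; linarith
  rcases le_total |y| 2 with h | h
  · rw [min_eq_left h]
    have : y ^ 2 = |y| * |y| := by rw [← sq_abs]; ring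
    rw [this] at h1
    have h5 : 0 ≤ |y| * |y| := by positivity
    linarith
  · rw [min_eq_right h]
    linarith

private theorem cltn_split (E : Finset (Sym2 V)) (p h : ℝ) (h0 : 0 ≤ p) (h1 : p ≤ 1)
    (hh0 : 0 ≤ h) (hh1 : h ≤ 1) (N Δ : Finset (Sym2 V) → Finset V → ℝ)
    (hΔ : ∀ ω G, 0 ≤ Δ ω G) (s : ℝ) :
    ‖EGC E p h (fun ω G => Complex.exp (Complex.I * ((s * (N ω G + Δ ω G) : ℝ) : ℂ))) -
      EGC E p h (fun ω G => Complex.exp (Complex.I * ((s * N ω G : ℝ) : ℂ))) -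
      Complex.I * (s : ℂ) * (EG E p h Δ : ℂ) *
        EGC E p h (fun ω G => Complex.exp (Complex.I * ((s * N ω G : ℝ) : ℂ)))‖ ≤
    |s| * ‖EGC E p h (fun ω G => (Δ ω G : ℂ) *
        Complex.exp (Complex.I * ((s * N ω G : ℝ) : ℂ))) -
      (EG E p h Δ : ℂ) * EGC E p h (fun ω G => Complex.exp (Complex.I * ((s * N ω G : ℝ) : ℂ)))‖ +
    |s| * EG E p h (fun ω G => Δ ω G * min (|s| * Δ ω G) 2) := by
  set φ := EGC E p h (fun ω G => Complex.exp (Complex.I * ((s * N ω G : ℝ) : ℂ))) with hφ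
  set r : Finset (Sym2 V) → Finset V → ℂ := fun ω G =>
    Complex.exp (Complex.I * ((s * N ω G : ℝ) : ℂ)) *
      (Complex.exp (Complex.I * ((s * Δ ω G : ℝ) : ℂ)) - 1 -
        Complex.I * ((s * Δ ω G : ℝ) : ℂ)) with hr
  have e1 : EGC E p h (fun ω G => Complex.exp (Complex.I * ((s * (N ω G + Δ ω G) : ℝ) : ℂ))) =
      φ + (Complex.I * (s : ℂ) * EGC E p h (fun ω G => (Δ ω G : ℂ) *
        Complex.exp (Complex.I * ((s * N ω G : ℝ) : ℂ))) + EGC E p h r) := by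
    rw [hφ, ← cltn_EGC_mul, ← cltn_EGC_add, ← cltn_EGC_add]
    refine congrArg (EGC E p h) (funext fun ω => funext fun G => ?_)
    have h2 : Complex.exp (Complex.I * ((s * (N ω G + Δ ω G) : ℝ) : ℂ)) =
        Complex.exp (Complex.I * ((s * N ω G : ℝ) : ℂ)) *
          Complex.exp (Complex.I * ((s * Δ ω G : ℝ) : ℂ)) := by
      rw [← Complex.exp_add]
      congr 1
      push_cast
      ring
    rw [h2, hr]
    push_cast
    ring
  have e2 : ‖EGC E p h r‖ ≤ |s| * EG E p h (fun ω G => Δ ω G * min (|s| * Δ ω G) 2) := by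
    have h3 : |s| * EG E p h (fun ω G => Δ ω G * min (|s| * Δ ω G) 2) =
        EG E p h (fun ω G => |s| * (Δ ω G * min (|s| * Δ ω G) 2)) := by
      unfold EG
      rw [← Ex_mul_left]
      congr 1
      funext ω
      rw [Ex_mul_left]
    rw [h3]
    refine cltn_EGC_norm E p h h0 h1 hh0 hh1 _ _ fun ω G => ?_
    rw [hr]
    simp only
    rw [norm_mul]
    have h4 : ‖Complex.exp (Complex.I * ((s * N ω G : ℝ) : ℂ))‖ = 1 := by
      rw [mul_comm]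
      exact Complex.norm_exp_ofReal_mul_I _
    rw [h4, one_mul]
    have h5 := cltn_r (s * Δ ω G)
    rw [abs_mul, abs_of_nonneg (hΔ ω G)] at h5
    linarith
  have e3 : EGC E p h (fun ω G => Complex.exp (Complex.I * ((s * (N ω G + Δ ω G) : ℝ) : ℂ))) -
      φ - Complex.I * (s : ℂ) * (EG E p h Δ : ℂ) * φ =
      Complex.I * (s : ℂ) * (EGC E p h (fun ω G => (Δ ω G : ℂ) *
        Complex.exp (Complex.I * ((s * N ω G : ℝ) : ℂ))) - (EG E p h Δ : ℂ) * φ) +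
      EGC E p h r := by
    rw [e1]
    ring
  rw [e3]
  refine (norm_add_le _ _).trans (add_le_add (le_of_eq ?_) e2)
  rw [norm_mul, norm_mul, Complex.norm_I, one_mul, Complex.norm_real, Real.norm_eq_abs]

end CLTN

/-- moments of `bb` -/
private theorem cltn_mob (C0 e p h : ℝ) (K m : ℕ) (R : Reg C0 K m e p h) (k j : ℕ)
    (hk : k ≠ 0) (hkj : k + j ≤ K) (x : Q m) :
    Ex (cubeE m) p (fun ω => ((cl ω x).card : ℝ) ^ k * (1 - h) ^ (cl ω x).card *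
      bb e (cl ω x) ^ j) ≤ 2 ^ j * C0 * (e / e ^ (2 * k)) := by
  have hh1 : h ≤ 1 := by
    have := R.hh
    have h2 := R.he1
    have h3 := R.he0
    nlinarith
  have h1 := mob m K C0 e p h R.hC0 R.he0 (by linarith [R.he1]) R.hp0 (by linarith [R.hp1]) R.hh0
    hh1 R.hmo k j hkj ∅ x
  rw [if_neg hk, xb_offE_empty] at h1
  have h2 : bb e (∅ : Finset (Q m)) = 1 := by
    simp [bb]
  rw [h2, one_pow, mul_one] at h1
  refine le_trans (le_of_eq ?_) h1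
  congr 1
  funext ω
  rw [Finset.empty_union]

/-- the bound for a given set -/
private theorem cltn_point (C0 e p h : ℝ) (K m : ℕ) (R : Reg C0 K m e p h) (hK : 4 ≤ K)
    (A : Finset (Q m)) (s T : ℝ)
    (hT : EG (cubeE m) p h (fun ω G => DL (cubeE m) ∅ A ω G *
      min (|s| * DL (cubeE m) ∅ A ω G) 2) ≤ T) :
    ‖EGC (cubeE m) p h (fun ω G => Complex.exp (Complex.I *
        ((s * (NN (cubeE m) ∅ ω G + DL (cubeE m) ∅ A ω G) : ℝ) : ℂ))) -
      EGC (cubeE m) p h (fun ω G => Complex.exp (Complex.I *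
        ((s * NN (cubeE m) ∅ ω G : ℝ) : ℂ))) -
      Complex.I * (s : ℂ) * (EG (cubeE m) p h (DL (cubeE m) ∅ A) : ℂ) *
        EGC (cubeE m) p h (fun ω G => Complex.exp (Complex.I *
          ((s * NN (cubeE m) ∅ ω G : ℝ) : ℂ)))‖ ≤
    |s| * (6000 * C0 ^ 4 * |s| * A.card / e ^ 2 * bb e A ^ 3 +
      |s| * (18 * C0 ^ 2 * A.card * bb e A) ^ 2 + 2 * T) := by
  have hh1 : h ≤ 1 := by
    have := R.hh
    have h2 := R.he1
    have h3 := R.he0
    nlinarith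
  have h1 := cltn_split (cubeE m) p h R.hp0 (by linarith [R.hp1]) R.hh0 hh1 (NN (cubeE m) ∅)
    (DL (cubeE m) ∅ A) (fun ω G => dl_nonneg _ _ _ _ _) s
  have h2 := d3 C0 e p h K m R hK A s
  refine h1.trans ?_
  have h3 : |s| * _ ≤ |s| * _ := mul_le_mul_of_nonneg_left h2 (abs_nonneg s)
  have h4 := mul_le_mul_of_nonneg_left hT (abs_nonneg s)
  nlinarith

private theorem cltn_num (a b C0 C e Kh s w : ℝ) (hb : 0 ≤ b) (he : 0 < e) :
    |s| * (6000 * C0 ^ 4 * |s| * a / e ^ 2 * b ^ 3 + |s| * (18 * C0 ^ 2 * a * b) ^ 2 +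
      2 * (C * |s| * Kh ^ 3 * (a ^ 2 + a / e ^ 2) * b ^ 2 + C * (1 / Kh + 1 / w) * a * b ^ 11)) =
    6000 * C0 ^ 4 * s ^ 2 / e ^ 2 * (a ^ 1 * b ^ 3) +
    ((324 * C0 ^ 4 * s ^ 2 + 2 * C * s ^ 2 * Kh ^ 3) * (a ^ 2 * b ^ 2) +
    (2 * C * s ^ 2 * Kh ^ 3 / e ^ 2 * (a ^ 1 * b ^ 2) +
    2 * C * |s| * (1 / Kh + 1 / w) * (a ^ 1 * b ^ 11))) := by
  have h1 : s ^ 2 = |s| * |s| := by rw [← sq_abs]; ring
  rw [h1]
  ring

theorem nid_err (C0 : ℝ) : ∃ (C : ℝ) (m0 : ℕ), 1 ≤ C ∧ ∀ m ≥ m0, ∀ (K : ℕ) (e p h : ℝ),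
    Reg C0 K m e p h → 14 ≤ K → TN m * e ≤ 1 → ∀ Kh s μ v : ℝ, 1 ≤ Kh →
    μ = EG (cubeE m) p h (NN (cubeE m) ∅) →
    v = EG (cubeE m) p h (fun ω G => NN (cubeE m) ∅ ω G ^ 2) - μ ^ 2 →
    ‖EGC (cubeE m) p h (fun ω G => ((NN (cubeE m) ∅ ω G - μ : ℝ) : ℂ) *
        Complex.exp (Complex.I * ((s * NN (cubeE m) ∅ ω G : ℝ) : ℂ))) -
      Complex.I * ((s * v : ℝ) : ℂ) * EGC (cubeE m) p h (fun ω G =>
        Complex.exp (Complex.I * ((s * NN (cubeE m) ∅ ω G : ℝ) : ℂ)))‖ ≤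
      C * s ^ 2 * Kh ^ 3 * 2 ^ m / e ^ 3 + C * |s| * (1 / Kh + 1 / (e ^ 3 * 2 ^ m)) * 2 ^ m / e := by
  by_cases hC00 : 1 ≤ C0
  swap
  · exact ⟨1, 0, le_rfl, fun m _ K e p h R => absurd R.hC0 hC00⟩
  obtain ⟨C, m0, hC, H⟩ := d2t C0
  refine ⟨49296 * C0 ^ 5 + 4112 * C * C0, m0, ?_, ?_⟩
  · have : 1 ≤ C0 ^ 5 := one_le_pow₀ hC00
    have h2 : 0 ≤ C * C0 := by positivity
    nlinarith
  intro m hm K e p h R hK hTN Kh s μ v hKh hμ hv
  have H1 := H m hm K e p h R (by omega) hTN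
  have he := R.he0
  have hp0 := R.hp0
  have hp1 : p ≤ 1 := by linarith [R.hp1]
  have hh0 := R.hh0
  have hh1 : h ≤ 1 := by
    have := R.hh
    have h2 := R.he1
    nlinarith
  set w : ℝ := e ^ 3 * 2 ^ m with hw
  have hw0 : 0 < w := by positivity
  set φ := EGC (cubeE m) p h (fun ω G => Complex.exp (Complex.I *
    ((s * NN (cubeE m) ∅ ω G : ℝ) : ℂ))) with hφ
  set B : Finset (Q m) → ℝ := fun A =>
    |s| * (6000 * C0 ^ 4 * |s| * A.card / e ^ 2 * bb e A ^ 3 +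
      |s| * (18 * C0 ^ 2 * A.card * bb e A) ^ 2 +
      2 * (C * |s| * Kh ^ 3 * ((A.card : ℝ) ^ 2 + A.card / e ^ 2) * bb e A ^ 2 +
        C * (1 / Kh + 1 / w) * A.card * bb e A ^ 11)) with hB
  have hpt : ∀ A : Finset (Q m), ‖EGC (cubeE m) p h (fun ω G => Complex.exp (Complex.I *
        ((s * (NN (cubeE m) ∅ ω G + DL (cubeE m) ∅ A ω G) : ℝ) : ℂ))) - φ -
      Complex.I * (s : ℂ) * (EG (cubeE m) p h (DL (cubeE m) ∅ A) : ℂ) * φ‖ ≤ B A := fun A =>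
    cltn_point C0 e p h K m R (by omega) A s _ (H1 A Kh s hKh)
  -- the identity
  have hid : EGC (cubeE m) p h (fun ω G => ((NN (cubeE m) ∅ ω G - μ : ℝ) : ℂ) *
        Complex.exp (Complex.I * ((s * NN (cubeE m) ∅ ω G : ℝ) : ℂ))) -
      Complex.I * ((s * v : ℝ) : ℂ) * φ =
      ∑ x : Q m, ExC (cubeE m) p (fun ω' => (((1 - h) ^ (cl ω' x).card : ℝ) : ℂ) *
        (EGC (cubeE m) p h (fun ω G => Complex.exp (Complex.I *
          ((s * (NN (cubeE m) ∅ ω G + DL (cubeE m) ∅ (cl ω' x) ω G) : ℝ) : ℂ))) - φ -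
          Complex.I * (s : ℂ) * (EG (cubeE m) p h (DL (cubeE m) ∅ (cl ω' x)) : ℂ) * φ)) := by
    have h1 := nid (cubeE m) p h (fun n => Complex.exp (Complex.I * ((s * n : ℝ) : ℂ)))
    have h2 := nid_mean (cubeE m) p h
    have h3 := nid_var (cubeE m) p h
    rw [← hμ, ← hv] at h3
    rw [← hμ] at h2
    have h4 : EGC (cubeE m) p h (fun ω G => ((NN (cubeE m) ∅ ω G - μ : ℝ) : ℂ) *
        Complex.exp (Complex.I * ((s * NN (cubeE m) ∅ ω G : ℝ) : ℂ))) =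
        EGC (cubeE m) p h (fun ω G => ((NN (cubeE m) ∅ ω G : ℝ) : ℂ) *
        Complex.exp (Complex.I * ((s * NN (cubeE m) ∅ ω G : ℝ) : ℂ))) + (-(μ : ℂ)) * φ := by
      rw [hφ, ← cltn_EGC_mul, ← cltn_EGC_add]
      refine congrArg (EGC (cubeE m) p h) (funext fun ω => funext fun G => ?_)
      push_cast
      ring
    have h5 : ∀ x : Q m, ExC (cubeE m) p (fun ω' => (((1 - h) ^ (cl ω' x).card : ℝ) : ℂ) *
        (EGC (cubeE m) p h (fun ω G => Complex.exp (Complex.I *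
          ((s * (NN (cubeE m) ∅ ω G + DL (cubeE m) ∅ (cl ω' x) ω G) : ℝ) : ℂ))) - φ -
          Complex.I * (s : ℂ) * (EG (cubeE m) p h (DL (cubeE m) ∅ (cl ω' x)) : ℂ) * φ)) =
        ExC (cubeE m) p (fun ω' => (((1 - h) ^ (cl ω' x).card : ℝ) : ℂ) *
          EGC (cubeE m) p h (fun ω G => Complex.exp (Complex.I *
          ((s * (NN (cubeE m) ∅ ω G + DL (cubeE m) ∅ (cl ω' x) ω G) : ℝ) : ℂ)))) +
        ((-φ) * (Ex (cubeE m) p (fun ω' => (1 - h) ^ (cl ω' x).card) : ℂ) +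
        (-(Complex.I * (s : ℂ) * φ)) * (Ex (cubeE m) p (fun ω' => (1 - h) ^ (cl ω' x).card *
          EG (cubeE m) p h (DL (cubeE m) ∅ (cl ω' x))) : ℂ)) := by
      intro x
      rw [← ExC_ofReal, ← ExC_ofReal, ← ExC_mul_left, ← ExC_mul_left, ← ExC_add, ← ExC_add]
      congr 1
      funext ω'
      push_cast
      ring
    rw [Finset.sum_congr rfl fun x _ => h5 x, Finset.sum_add_distrib, ← h1,
      Finset.sum_add_distrib, ← Finset.mul_sum, ← Finset.mul_sum, ← Complex.ofReal_sum,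
      ← Complex.ofReal_sum, ← h2, ← h3, h4]
    push_cast
    ring
  rw [hid]
  have hbd : ∀ x : Q m, ‖ExC (cubeE m) p (fun ω' => (((1 - h) ^ (cl ω' x).card : ℝ) : ℂ) *
        (EGC (cubeE m) p h (fun ω G => Complex.exp (Complex.I *
          ((s * (NN (cubeE m) ∅ ω G + DL (cubeE m) ∅ (cl ω' x) ω G) : ℝ) : ℂ))) - φ -
          Complex.I * (s : ℂ) * (EG (cubeE m) p h (DL (cubeE m) ∅ (cl ω' x)) : ℂ) * φ))‖ ≤
      (49296 * C0 ^ 5 + 4112 * C * C0) * s ^ 2 * Kh ^ 3 / e ^ 3 +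
        (49296 * C0 ^ 5 + 4112 * C * C0) * |s| * (1 / Kh + 1 / w) / e := by
    intro x
    refine (ExC_norm_le _ _ hp0 hp1 _).trans ?_
    have h1 : Ex (cubeE m) p (fun ω' => ‖(((1 - h) ^ (cl ω' x).card : ℝ) : ℂ) *
        (EGC (cubeE m) p h (fun ω G => Complex.exp (Complex.I *
          ((s * (NN (cubeE m) ∅ ω G + DL (cubeE m) ∅ (cl ω' x) ω G) : ℝ) : ℂ))) - φ -
          Complex.I * (s : ℂ) * (EG (cubeE m) p h (DL (cubeE m) ∅ (cl ω' x)) : ℂ) * φ)‖) ≤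
        Ex (cubeE m) p (fun ω' => (1 - h) ^ (cl ω' x).card * B (cl ω' x)) := by
      refine Ex_mono _ _ hp0 hp1 _ _ fun ω' _ => ?_
      rw [norm_mul, Complex.norm_real, Real.norm_of_nonneg (pow_nonneg (by linarith) _)]
      exact mul_le_mul_of_nonneg_left (hpt _) (pow_nonneg (by linarith) _)
    refine h1.trans ?_
    have h2 : (fun ω' : Finset (Sym2 (Q m)) => (1 - h) ^ (cl ω' x).card * B (cl ω' x)) =
        fun ω' => 6000 * C0 ^ 4 * s ^ 2 / e ^ 2 * (((cl ω' x).card : ℝ) ^ 1 *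
            (1 - h) ^ (cl ω' x).card * bb e (cl ω' x) ^ 3) +
          ((324 * C0 ^ 4 * s ^ 2 + 2 * C * s ^ 2 * Kh ^ 3) * (((cl ω' x).card : ℝ) ^ 2 *
            (1 - h) ^ (cl ω' x).card * bb e (cl ω' x) ^ 2) +
          (2 * C * s ^ 2 * Kh ^ 3 / e ^ 2 * (((cl ω' x).card : ℝ) ^ 1 *
            (1 - h) ^ (cl ω' x).card * bb e (cl ω' x) ^ 2) +
          2 * C * |s| * (1 / Kh + 1 / w) * (((cl ω' x).card : ℝ) ^ 1 *
            (1 - h) ^ (cl ω' x).card * bb e (cl ω' x) ^ 11))) := by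
      funext ω'
      simp only [hB]
      rw [cltn_num _ _ C0 C e Kh s w (by unfold bb; positivity) he]
      ring
    rw [h2, Ex_add, Ex_add, Ex_add, Ex_mul_left, Ex_mul_left, Ex_mul_left, Ex_mul_left]
    have m1 := cltn_mob C0 e p h K m R 1 3 (by norm_num) (by omega) x
    have m2 := cltn_mob C0 e p h K m R 2 2 (by norm_num) (by omega) x
    have m3 := cltn_mob C0 e p h K m R 1 2 (by norm_num) (by omega) x
    have m4 := cltn_mob C0 e p h K m R 1 11 (by norm_num) (by omega) x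
    have hKh0 : 0 < Kh := by linarith
    have hC0' : 0 < C := by linarith
    have hs : 0 ≤ |s| := abs_nonneg s
    have hC000 : 0 < C0 := by linarith
    have n1 := mul_le_mul_of_nonneg_left m1
      (show 0 ≤ 6000 * C0 ^ 4 * s ^ 2 / e ^ 2 by positivity)
    have n2 := mul_le_mul_of_nonneg_left m2
      (show 0 ≤ 324 * C0 ^ 4 * s ^ 2 + 2 * C * s ^ 2 * Kh ^ 3 by positivity)
    have n3 := mul_le_mul_of_nonneg_left m3
      (show 0 ≤ 2 * C * s ^ 2 * Kh ^ 3 / e ^ 2 by positivity)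
    have n4 := mul_le_mul_of_nonneg_left m4
      (show 0 ≤ 2 * C * |s| * (1 / Kh + 1 / w) by positivity)
    have q1 : 6000 * C0 ^ 4 * s ^ 2 / e ^ 2 * (2 ^ 3 * C0 * (e / e ^ (2 * 1))) =
        48000 * C0 ^ 5 * s ^ 2 / e ^ 3 := by
      field_simp
      ring
    have q2 : (324 * C0 ^ 4 * s ^ 2 + 2 * C * s ^ 2 * Kh ^ 3) * (2 ^ 2 * C0 * (e / e ^ (2 * 2))) =
        1296 * C0 ^ 5 * s ^ 2 / e ^ 3 + 8 * C * C0 * (s ^ 2 * Kh ^ 3 / e ^ 3) := by
      field_simp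
      ring
    have q3 : 2 * C * s ^ 2 * Kh ^ 3 / e ^ 2 * (2 ^ 2 * C0 * (e / e ^ (2 * 1))) =
        8 * C * C0 * (s ^ 2 * Kh ^ 3 / e ^ 3) := by
      field_simp
      ring
    have q4 : 2 * C * |s| * (1 / Kh + 1 / w) * (2 ^ 11 * C0 * (e / e ^ (2 * 1))) =
        4096 * C * C0 * (|s| * (1 / Kh + 1 / w) / e) := by
      field_simp
      ring
    rw [q1] at n1
    rw [q2] at n2
    rw [q3] at n3
    rw [q4] at n4
    have hK3 : 1 ≤ Kh ^ 3 := one_le_pow₀ hKh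
    have z1 : s ^ 2 / e ^ 3 ≤ s ^ 2 * Kh ^ 3 / e ^ 3 := by
      apply div_le_div_of_nonneg_right _ (by positivity)
      nlinarith [sq_nonneg s]
    have z2 : 0 ≤ |s| * (1 / Kh + 1 / w) / e := by positivity
    have z3 : 0 ≤ s ^ 2 * Kh ^ 3 / e ^ 3 := by positivity
    have z4 : 49296 * C0 ^ 5 * s ^ 2 / e ^ 3 ≤ 49296 * C0 ^ 5 * (s ^ 2 * Kh ^ 3 / e ^ 3) := by
      have : 49296 * C0 ^ 5 * s ^ 2 / e ^ 3 = 49296 * C0 ^ 5 * (s ^ 2 / e ^ 3) := by ring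
      rw [this]
      exact mul_le_mul_of_nonneg_left z1 (by positivity)
    have z5 : (49296 * C0 ^ 5 + 4112 * C * C0) * s ^ 2 * Kh ^ 3 / e ^ 3 +
        (49296 * C0 ^ 5 + 4112 * C * C0) * |s| * (1 / Kh + 1 / w) / e =
        49296 * C0 ^ 5 * (s ^ 2 * Kh ^ 3 / e ^ 3) + 4112 * (C * C0 * (s ^ 2 * Kh ^ 3 / e ^ 3)) +
        49296 * (C0 ^ 5 * (|s| * (1 / Kh + 1 / w) / e)) +
        4112 * (C * C0 * (|s| * (1 / Kh + 1 / w) / e)) := by ring
    have z6 : 0 ≤ C * C0 * (s ^ 2 * Kh ^ 3 / e ^ 3) := by positivity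
    have z7 : 0 ≤ C0 ^ 5 * (|s| * (1 / Kh + 1 / w) / e) := by positivity
    have z8 : 0 ≤ C * C0 * (|s| * (1 / Kh + 1 / w) / e) := by positivity
    rw [z5]
    have z9 : 48000 * C0 ^ 5 * s ^ 2 / e ^ 3 + 1296 * C0 ^ 5 * s ^ 2 / e ^ 3 =
        49296 * C0 ^ 5 * s ^ 2 / e ^ 3 := by ring
    linarith
  refine (norm_sum_le _ _).trans ((Finset.sum_le_sum fun x _ => hbd x).trans (le_of_eq ?_))
  rw [Finset.sum_const, Finset.card_univ, nsmul_eq_mul]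
  have : Fintype.card (Q m) = 2 ^ m := by simp [Q]
  rw [this]
  push_cast
  ring

private theorem cltn_deriv {V : Type} [Fintype V] (E : Finset (Sym2 V)) (p h : ℝ)
    (X : Finset (Sym2 V) → Finset V → ℝ) (t : ℝ) :
    HasDerivAt (fun t : ℝ => EGC E p h (fun ω G => Complex.exp (Complex.I *
      ((t * X ω G : ℝ) : ℂ))))
      (EGC E p h (fun ω G => Complex.I * (X ω G : ℂ) *
        Complex.exp (Complex.I * ((t * X ω G : ℝ) : ℂ)))) t := by
  unfold EGC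
  unfold ExC
  refine HasDerivAt.fun_sum fun ω _ => ?_
  refine HasDerivAt.const_mul _ ?_
  exact lclt_deriv (univ : Finset V) h (X ω) t

theorem cltn (C0 c : ℝ) (hc : 0 < c) : ∃ (C : ℝ) (m0 : ℕ), 1 ≤ C ∧ ∀ m ≥ m0,
    ∀ (K : ℕ) (e p h : ℝ), Reg C0 K m e p h → 14 ≤ K → TN m * e ≤ 1 → ∀ Kh μ σ : ℝ, 1 ≤ Kh →
    μ = EG (cubeE m) p h (NN (cubeE m) ∅) → 0 < σ →
    σ ^ 2 = EG (cubeE m) p h (fun ω G => NN (cubeE m) ∅ ω G ^ 2) - μ ^ 2 →
    c * 2 ^ m / e ≤ σ ^ 2 → ∀ t : ℝ,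
    ‖EGC (cubeE m) p h (fun ω G =>
        Complex.exp (Complex.I * ((t * ((NN (cubeE m) ∅ ω G - μ) / σ) : ℝ) : ℂ))) -
      Complex.exp ((-(t ^ 2 / 2) : ℝ) : ℂ)‖ ≤
      t ^ 2 * (C * (1 / Kh + 1 / (e ^ 3 * 2 ^ m))) +
        |t| ^ 3 * (C * Kh ^ 3 / Real.sqrt (e ^ 3 * 2 ^ m)) := by
  obtain ⟨C, m0, hC, H⟩ := nid_err C0
  refine ⟨C / c + C / (c * Real.sqrt c) + 1, m0, ?_, ?_⟩
  · have : 0 ≤ C / c + C / (c * Real.sqrt c) := by positivity
    linarith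
  intro m hm K e p h R hK hTN Kh μ σ hKh hμ hσ hv hcσ t
  have he := R.he0
  set w : ℝ := e ^ 3 * 2 ^ m with hw
  have hw0 : 0 < w := by positivity
  have hsw : 0 < Real.sqrt w := Real.sqrt_pos.2 hw0
  have hsc : 0 < Real.sqrt c := Real.sqrt_pos.2 hc
  have hC0 : 0 < C := by linarith
  have hKh0 : 0 < Kh := by linarith
  -- numerical facts
  have b1 : (2 : ℝ) ^ m / (σ ^ 2 * e) ≤ 1 / c := by
    rw [div_le_div_iff₀ (by positivity) hc]
    rw [div_le_iff₀ he] at hcσ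
    linarith
  have b2 : (2 : ℝ) ^ m / (σ ^ 3 * e ^ 3) ≤ 1 / (c * Real.sqrt c * Real.sqrt w) := by
    have h1 : Real.sqrt c * Real.sqrt w ≤ σ * e ^ 2 := by
      rw [← Real.sqrt_mul hc.le]
      apply Real.sqrt_le_iff.2
      refine ⟨by positivity, ?_⟩
      rw [div_le_iff₀ he] at hcσ
      have : c * w = e ^ 3 * (c * 2 ^ m) := by rw [hw]; ring
      rw [this]
      calc e ^ 3 * (c * 2 ^ m) ≤ e ^ 3 * (σ ^ 2 * e) :=
            mul_le_mul_of_nonneg_left hcσ (by positivity)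
        _ = (σ * e ^ 2) ^ 2 := by ring
    calc (2 : ℝ) ^ m / (σ ^ 3 * e ^ 3) = 2 ^ m / (σ ^ 2 * e) * (1 / (σ * e ^ 2)) := by
          field_simp
      _ ≤ 1 / c * (1 / (Real.sqrt c * Real.sqrt w)) := by
          apply mul_le_mul b1 _ (by positivity) (by positivity)
          exact one_div_le_one_div_of_le (by positivity) h1
      _ = 1 / (c * Real.sqrt c * Real.sqrt w) := by
          field_simp
  have hode := lclt_ode
    (fun t : ℝ => EGC (cubeE m) p h (fun ω G => Complex.exp (Complex.I *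
      ((t * ((NN (cubeE m) ∅ ω G - μ) / σ) : ℝ) : ℂ))))
    (fun t : ℝ => EGC (cubeE m) p h (fun ω G => Complex.I *
      ((((NN (cubeE m) ∅ ω G - μ) / σ : ℝ)) : ℂ) *
        Complex.exp (Complex.I * ((t * ((NN (cubeE m) ∅ ω G - μ) / σ) : ℝ) : ℂ))))
    (fun t => cltn_deriv (cubeE m) p h (fun ω G => (NN (cubeE m) ∅ ω G - μ) / σ) t)
    (by
      simp only [zero_mul, Complex.ofReal_zero, mul_zero, Complex.exp_zero]
      have h1 : EGC (cubeE m) p h (fun _ _ => (1 : ℂ)) = ((EG (cubeE m) p h (fun _ _ => 1) : ℝ) : ℂ) := by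
        unfold EGC EG
        rw [← ExC_ofReal]
        congr 1
        funext ω
        rw [← ExC_ofReal]
        simp
      rw [h1]
      unfold EG
      simp only [Ex_const, Complex.ofReal_one])
    (C / c * (1 / Kh + 1 / w)) (C / (c * Real.sqrt c) * (Kh ^ 3 / Real.sqrt w))
    (by positivity) (by positivity)
    (by
      intro t
      have h1 := H m hm K e p h R hK hTN Kh (t / σ) μ (σ ^ 2) hKh hμ hv
      set φ1 := EGC (cubeE m) p h (fun ω G => ((NN (cubeE m) ∅ ω G - μ : ℝ) : ℂ) *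
        Complex.exp (Complex.I * ((t / σ * NN (cubeE m) ∅ ω G : ℝ) : ℂ))) with hφ1
      set φ0 := EGC (cubeE m) p h (fun ω G =>
        Complex.exp (Complex.I * ((t / σ * NN (cubeE m) ∅ ω G : ℝ) : ℂ))) with hφ0
      have hσc : (σ : ℂ) ≠ 0 := by exact_mod_cast hσ.ne'
      have h2 : EGC (cubeE m) p h (fun ω G => Complex.I *
          ((((NN (cubeE m) ∅ ω G - μ) / σ : ℝ)) : ℂ) *
          Complex.exp (Complex.I * ((t * ((NN (cubeE m) ∅ ω G - μ) / σ) : ℝ) : ℂ))) =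
          Complex.I / σ * Complex.exp (Complex.I * ((-(t / σ * μ) : ℝ) : ℂ)) * φ1 := by
        rw [hφ1, ← cltn_EGC_mul]
        refine congrArg (EGC (cubeE m) p h) (funext fun ω => funext fun G => ?_)
        have h3 : Complex.exp (Complex.I * ((t * ((NN (cubeE m) ∅ ω G - μ) / σ) : ℝ) : ℂ)) =
            Complex.exp (Complex.I * ((-(t / σ * μ) : ℝ) : ℂ)) *
              Complex.exp (Complex.I * ((t / σ * NN (cubeE m) ∅ ω G : ℝ) : ℂ)) := by
          rw [← Complex.exp_add]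
          congr 1
          push_cast
          field_simp
          ring
        rw [h3]
        push_cast
        ring
      have h4 : EGC (cubeE m) p h (fun ω G =>
          Complex.exp (Complex.I * ((t * ((NN (cubeE m) ∅ ω G - μ) / σ) : ℝ) : ℂ))) =
          Complex.exp (Complex.I * ((-(t / σ * μ) : ℝ) : ℂ)) * φ0 := by
        rw [hφ0, ← cltn_EGC_mul]
        refine congrArg (EGC (cubeE m) p h) (funext fun ω => funext fun G => ?_)
        rw [← Complex.exp_add]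
        congr 1
        push_cast
        field_simp
        ring
      have h5 : Complex.I / σ * Complex.exp (Complex.I * ((-(t / σ * μ) : ℝ) : ℂ)) * φ1 +
          (t : ℂ) * (Complex.exp (Complex.I * ((-(t / σ * μ) : ℝ) : ℂ)) * φ0) =
          Complex.I / σ * Complex.exp (Complex.I * ((-(t / σ * μ) : ℝ) : ℂ)) *
            (φ1 - Complex.I * ((t / σ * σ ^ 2 : ℝ) : ℂ) * φ0) := by
        have h6 : ((t / σ * σ ^ 2 : ℝ) : ℂ) = (t : ℂ) * σ := by
          have : t / σ * σ ^ 2 = t * σ := by field_simp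
          rw [this]
          push_cast
          ring
        rw [h6]
        have h7 : Complex.I / (σ : ℂ) * Complex.exp (Complex.I * ((-(t / σ * μ) : ℝ) : ℂ)) *
            (φ1 - Complex.I * ((t : ℂ) * σ) * φ0) =
            Complex.I / (σ : ℂ) * Complex.exp (Complex.I * ((-(t / σ * μ) : ℝ) : ℂ)) * φ1 -
            (Complex.I * Complex.I) * ((σ : ℂ) / (σ : ℂ)) * ((t : ℂ) *
              (Complex.exp (Complex.I * ((-(t / σ * μ) : ℝ) : ℂ)) * φ0)) := by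
          ring
        rw [h7, Complex.I_mul_I, div_self hσc]
        ring
      rw [h2, h4, h5, norm_mul, norm_mul, norm_div, Complex.norm_I, Complex.norm_real,
        Real.norm_of_nonneg hσ.le]
      have h8 : ‖Complex.exp (Complex.I * ((-(t / σ * μ) : ℝ) : ℂ))‖ = 1 := by
        rw [mul_comm]
        exact Complex.norm_exp_ofReal_mul_I _
      rw [h8, mul_one]
      have h9 : 1 / σ * ‖φ1 - Complex.I * ((t / σ * σ ^ 2 : ℝ) : ℂ) * φ0‖ ≤ 1 / σ *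
          (C * (t / σ) ^ 2 * Kh ^ 3 * 2 ^ m / e ^ 3 +
            C * |t / σ| * (1 / Kh + 1 / w) * 2 ^ m / e) :=
        mul_le_mul_of_nonneg_left h1 (by positivity)
      refine h9.trans ?_
      rw [abs_div, abs_of_pos hσ]
      have g1 : 1 / σ * (C * (t / σ) ^ 2 * Kh ^ 3 * 2 ^ m / e ^ 3 +
            C * (|t| / σ) * (1 / Kh + 1 / w) * 2 ^ m / e) =
          C * t ^ 2 * Kh ^ 3 * (2 ^ m / (σ ^ 3 * e ^ 3)) +
            C * |t| * (1 / Kh + 1 / w) * (2 ^ m / (σ ^ 2 * e)) := by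
        field_simp
      rw [g1]
      have g2 : C * t ^ 2 * Kh ^ 3 * (2 ^ m / (σ ^ 3 * e ^ 3)) ≤
          C * t ^ 2 * Kh ^ 3 * (1 / (c * Real.sqrt c * Real.sqrt w)) :=
        mul_le_mul_of_nonneg_left b2 (by positivity)
      have g3 : C * |t| * (1 / Kh + 1 / w) * (2 ^ m / (σ ^ 2 * e)) ≤
          C * |t| * (1 / Kh + 1 / w) * (1 / c) :=
        mul_le_mul_of_nonneg_left b1 (by positivity)
      have g4 : |t| * (C / c * (1 / Kh + 1 / w)) + t ^ 2 * (C / (c * Real.sqrt c) *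
          (Kh ^ 3 / Real.sqrt w)) = C * t ^ 2 * Kh ^ 3 * (1 / (c * Real.sqrt c * Real.sqrt w)) +
          C * |t| * (1 / Kh + 1 / w) * (1 / c) := by
        field_simp
        ring
      rw [g4]
      linarith) t
  refine hode.trans ?_
  set α := 1 / Kh + 1 / w with hα
  have hα0 : 0 ≤ α := by positivity
  set β := Kh ^ 3 / Real.sqrt w with hβ
  have hβ0 : 0 ≤ β := by positivity
  have i1 : (C / c + C / (c * Real.sqrt c) + 1) * Kh ^ 3 / Real.sqrt w =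
      (C / c + C / (c * Real.sqrt c) + 1) * β := by rw [hβ]; ring
  rw [i1]
  have i2 : 0 ≤ C / c := by positivity
  have i3 : 0 ≤ C / (c * Real.sqrt c) := by positivity
  have i4 : C / c * α ≤ (C / c + C / (c * Real.sqrt c) + 1) * α :=
    mul_le_mul_of_nonneg_right (by linarith) hα0
  have i5 : C / (c * Real.sqrt c) * β ≤ (C / c + C / (c * Real.sqrt c) + 1) * β :=
    mul_le_mul_of_nonneg_right (by linarith) hβ0
  exact add_le_add (mul_le_mul_of_nonneg_left i4 (by positivity))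
    (mul_le_mul_of_nonneg_left i5 (by positivity))

end Pool.Agent.Work.MP_b7dc8a_pr
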