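import Pool.Agent.Work.MP_b7dc8a_pr.F.DefU
import Pool.Agent.Work.MP_b7dc8a_pr.B.Obst

/-! Module ZONE (M): first and second moment of `Z = sm g (cls ζ B)`, `B = BBS S W η`, where `ζ` is a percolation
on `E1' = offE E1 W` (parameter `p`) and `η` an independent percolation on `E2` (parameter `r`).

`f = fS E2 S W`, `S ⊆ W`, `g >= 0`, `g = 0` on `W`.
`second_wt`: `(sm g (cl ω y))^2 = ∑_z g z sm g (cl ω y) ind (z ∈ cl ω y)`; `b_pair` with `Θ = sm g`, `z := y`, `z' := z`: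
 expectation `<= ∑_z g z ∑_d tau y d tau z d wt (sm g) d = ∑_d tau y d (wt (sm g) d)^2` (`xb_wt_sm`, `xb_tau_comm`).
`bbs_disj`: for `K` disjoint from `W`: `Disjoint K B` iff no edge `s(x,y)`, `x ∈ S`, `y ∈ K`, is in `η`; these are
 `∑_{y∈K} dgr E2 y S` different edges of `E2` (`S ∩ K = ∅`). `bbs_indep`: for disjoint `K`, `K'` the sets `B ∩ K`, `B ∩ K'`
 depend on disjoint sets of edges (`Ex_mul_indep`).
`z1_mean`: `sm g (cls ζ B) = ∑_z g z ind (cl ζ z` meets `B)`; for `z ∉ W` (so `cl ζ z` is disjoint from `W`, `xb_cl_off'`)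
 its `η`-expectation is `1 - (1-r)^n`, `n = sm f (cl ζ z)` a natural number, and `1 - (1-r)^n >= r n - r^2 n^2/2`.
 `E ∑_z g z sm f (cl ζ z) = ∑_z g z ∑_y tau z y f y = ∑_y f y wt (sm g) y`.
`z1_var`: `E Z^2 = ∑_{z,z'} g z g z' P(z, z' ∈ cls ζ B)`. For `z, z' ∉ W`:
 `P(z, z' ∈ cls ζ B, z' ∉ cl ζ z) <= P(z ∈ cls ζ B) P(z' ∈ cls ζ B)`: exploring `A = cl ζ z` (`b_mark_cl`), for `z' ∉ A`
 `cl ζ z' = cl (ζ ∩ offE A) z'` is disjoint from `A`, so by `bbs_indep`, `bbs_disj` the probability is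
 `Ex [ind (z' ∉ A) P_η(A` meets `B) Ex (offE _ A) P_η(cl ζ' z'` meets `B)]` and the inner expectation increases if `offE _ A`
 is replaced by the whole graph (`Ex_restrict`, monotone). And
 `∑_{z,z'} g z g z' P(z' ∈ cl ζ z, z ∈ cls ζ B) <= E ∑_z g z sm g (cl ζ z) r sm f (cl ζ z)
 = r E ∑_y f y (sm g (cl ζ y))^2` (`1 - (1-r)^n <= r n`; exchange `y ∈ cl ζ z` and `z ∈ cl ζ y`, `cl_eq`). -/

namespace Pool.Agent.Work.MP_b7dc8a_pr

open Finset

section ZONE
variable {V : Type} [Fintype V] [DecidableEq V]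

private theorem ind_one {P : Prop} (h : P) : ind P = 1 := by rw [ind, if_pos h]

private theorem ind_zero {P : Prop} (h : ¬ P) : ind P = 0 := by rw [ind, if_neg h]

private theorem ind_not (P : Prop) : ind (¬ P) = 1 - ind P := by
  by_cases h : P
  · rw [ind_one h, ind_zero (not_not.2 h)]; ring
  · rw [ind_zero h, ind_one h]; ring

omit [DecidableEq V] in
private theorem sm_ind (g : V → ℝ) (A : Finset V) : sm g A = ∑ z, g z * ind (z ∈ A) := by
  unfold sm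
  rw [← Finset.sum_subset (Finset.subset_univ A) (fun x _ hx => by rw [ind_zero hx, mul_zero])]
  exact Finset.sum_congr rfl fun x hx => by rw [ind_one hx, mul_one]

theorem second_wt (E : Finset (Sym2 V)) (p : ℝ) (h0 : 0 ≤ p) (h1 : p ≤ 1) (g : V → ℝ)
    (hg : ∀ z, 0 ≤ g z) (y : V) :
    Ex E p (fun ω => sm g (cl ω y) ^ 2) ≤ ∑ d, tau E p y d * wt E p (sm g) d ^ 2 := by
  have e1 : Ex E p (fun ω => sm g (cl ω y) ^ 2) =
      ∑ z, g z * Ex E p (fun ω => sm g (cl ω y) * ind (z ∈ cl ω y)) := by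
    rw [show (∑ z, g z * Ex E p (fun ω => sm g (cl ω y) * ind (z ∈ cl ω y))) =
      ∑ z, Ex E p (fun ω => g z * (sm g (cl ω y) * ind (z ∈ cl ω y))) from
      Finset.sum_congr rfl fun z _ => by rw [Ex_mul_left]]
    rw [← Ex_sum]
    refine Ex_congr _ _ _ _ fun ω _ => ?_
    beta_reduce
    rw [sq]
    nth_rewrite 1 [sm_ind]
    rw [Finset.sum_mul]
    exact Finset.sum_congr rfl fun z _ => by ring
  rw [e1]
  have e2 : ∀ z, g z * Ex E p (fun ω => sm g (cl ω y) * ind (z ∈ cl ω y)) ≤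
      g z * ∑ d, tau E p y d * tau E p z d * wt E p (sm g) d := fun z =>
    mul_le_mul_of_nonneg_left (b_pair E p h0 h1 (sm g) (fun A B h => xb_sm_mono g hg A B h)
      (fun A B => xb_sm_subadd g hg A B) (fun A => Finset.sum_nonneg fun z _ => hg z) y z) (hg z)
  refine (Finset.sum_le_sum fun z _ => e2 z).trans (le_of_eq ?_)
  simp only [Finset.mul_sum]
  rw [Finset.sum_comm]
  refine Finset.sum_congr rfl fun d _ => ?_
  have e3 : wt E p (sm g) d = ∑ z, g z * tau E p z d := by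
    rw [xb_wt_sm]
    exact Finset.sum_congr rfl fun z _ => by rw [xb_tau_comm]
  rw [sq, ← mul_assoc]
  nth_rewrite 3 [e3]
  rw [Finset.mul_sum]
  exact Finset.sum_congr rfl fun z _ => by ring

omit [Fintype V] [DecidableEq V] in
private theorem Ex_point {α : Type} [DecidableEq α] (R S : Finset α) (hS : S ⊆ R) (p : ℝ) :
    Ex R p (fun ω => ind (Disjoint ω S)) = (1 - p) ^ S.card := by
  have h1 := Ex_restrict R S hS p (fun ω => ind (Disjoint ω S))
  have h2 : ∀ ω : Finset α, Disjoint (ω ∩ S) S ↔ Disjoint ω S := by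
    intro ω
    rw [Finset.disjoint_left, Finset.disjoint_left]
    exact ⟨fun h x hx hx' => h (mem_inter.2 ⟨hx, hx'⟩) hx', fun h x hx hx' =>
      h (mem_inter.1 hx).1 hx'⟩
  simp only [h2] at h1
  rw [h1]
  unfold Ex
  rw [Finset.sum_eq_single ∅]
  · simp [ind]
  · intro ω hω hne
    have h3 : ¬ Disjoint ω S := by
      intro h
      apply hne
      rw [← Finset.disjoint_self_iff_empty]
      exact h.mono_right (mem_powerset.1 hω)
    beta_reduce
    rw [show ind (Disjoint ω S) = 0 from ind_zero h3, mul_zero]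
  · intro h
    exact absurd (empty_mem_powerset S) h

omit [DecidableEq V] in
private theorem mem_BBS (S W : Finset V) (η : Finset (Sym2 V)) (y : V) :
    y ∈ BBS S W η ↔ y ∉ W ∧ ∃ x ∈ S, s(x, y) ∈ η := by
  unfold BBS
  simp only [mem_filter, mem_univ, true_and]

/-- the edges of `E` between `S` and `K` -/
private def RR (E : Finset (Sym2 V)) (S K : Finset V) : Finset (Sym2 V) :=
  K.biUnion fun y => S.biUnion fun x => E ∩ {s(y, x)}

omit [Fintype V] in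
private theorem mem_RR (E : Finset (Sym2 V)) (S K : Finset V) (e : Sym2 V) :
    e ∈ RR E S K ↔ e ∈ E ∧ ∃ y ∈ K, ∃ x ∈ S, e = s(y, x) := by
  unfold RR
  simp only [mem_biUnion, mem_inter, mem_singleton]
  constructor
  · rintro ⟨y, hy, x, hx, h1, h2⟩
    exact ⟨h1, y, hy, x, hx, h2⟩
  · rintro ⟨h1, y, hy, x, hx, h2⟩
    exact ⟨y, hy, x, hx, h1, h2⟩

omit [Fintype V] in
private theorem card_RR (E : Finset (Sym2 V)) (S K : Finset V) (hSK : Disjoint K S) :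
    (RR E S K).card = ∑ y ∈ K, dgr E y S := by
  classical
  unfold RR
  rw [Finset.card_biUnion]
  · refine Finset.sum_congr rfl fun y _ => ?_
    have h1 : (S.biUnion fun x => E ∩ {s(y, x)}) =
        (S.filter fun x => s(y, x) ∈ E).image (fun x => s(y, x)) := by
      ext e
      simp only [mem_biUnion, mem_inter, mem_singleton, mem_image, mem_filter]
      constructor
      · rintro ⟨x, hx, h1, h2⟩
        exact ⟨x, ⟨hx, h2 ▸ h1⟩, h2.symm⟩
      · rintro ⟨x, ⟨hx, h1⟩, h2⟩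
        exact ⟨x, hx, h2 ▸ h1, h2.symm⟩
    rw [h1, Finset.card_image_of_injective _ fun z z' h => Sym2.congr_right.1 h]
    unfold dgr
    congr
  · intro y hy y' hy' hne
    rw [Function.onFun, Finset.disjoint_left]
    intro e he he'
    simp only [mem_biUnion, mem_inter, mem_singleton] at he he'
    obtain ⟨x, hx, _, h1⟩ := he
    obtain ⟨x', hx', _, h2⟩ := he'
    rw [h1, Sym2.eq_iff] at h2
    rcases h2 with ⟨h, _⟩ | ⟨h, _⟩
    · exact hne h
    · exact Finset.disjoint_left.1 hSK hy (h ▸ hx')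

theorem bbs_disj (E : Finset (Sym2 V)) (r : ℝ) (S W K : Finset V) (hS : S ⊆ W)
    (hK : Disjoint K W) :
    Ex E r (fun η => ind (Disjoint K (BBS S W η))) = (1 - r) ^ (∑ y ∈ K, dgr E y S) := by
  have hSK : Disjoint K S := hK.mono_right hS
  have hsub : RR E S K ⊆ E := fun e he => ((mem_RR E S K e).1 he).1
  rw [← card_RR E S K hSK, ← Ex_point E (RR E S K) hsub r]
  refine Ex_congr _ _ _ _ fun η hη => ?_
  beta_reduce
  congr 1
  rw [Finset.disjoint_left, Finset.disjoint_left]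
  refine propext ⟨fun h e he he' => ?_, fun h y hy hy' => ?_⟩
  · rw [mem_RR] at he'
    obtain ⟨_, y, hy, x, hx, h2⟩ := he'
    refine h hy ?_
    rw [mem_BBS]
    refine ⟨Finset.disjoint_left.1 hK hy, x, hx, ?_⟩
    rw [Sym2.eq_swap, ← h2]
    exact he
  · rw [mem_BBS] at hy'
    obtain ⟨_, x, hx, h2⟩ := hy'
    refine h h2 ?_
    rw [mem_RR]
    exact ⟨hη h2, y, hy, x, hx, Sym2.eq_swap⟩

theorem bbs_indep (E : Finset (Sym2 V)) (r : ℝ) (S W K K' : Finset V) (hS : S ⊆ W)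
    (hKK : Disjoint K K') (F H : Finset V → ℝ) :
    Ex E r (fun η => F (BBS S W η ∩ K) * H (BBS S W η ∩ K')) =
      Ex E r (fun η => F (BBS S W η ∩ K)) * Ex E r (fun η => H (BBS S W η ∩ K')) := by
  have key : ∀ L : Finset V, ∀ η ⊆ E, BBS S W η ∩ L = BBS S W (η ∩ RR E S (L \ W)) ∩ L := by
    intro L η hη
    ext y
    rw [mem_inter, mem_inter, mem_BBS, mem_BBS]
    constructor
    · rintro ⟨⟨h1, x, hx, h2⟩, h3⟩
      refine ⟨⟨h1, x, hx, mem_inter.2 ⟨h2, ?_⟩⟩, h3⟩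
      rw [mem_RR]
      exact ⟨hη h2, y, mem_sdiff.2 ⟨h3, h1⟩, x, hx, Sym2.eq_swap⟩
    · rintro ⟨⟨h1, x, hx, h2⟩, h3⟩
      exact ⟨⟨h1, x, hx, (mem_inter.1 h2).1⟩, h3⟩
  refine Ex_mul_indep E (RR E S (K \ W)) (RR E S (K' \ W)) ?_ r _ _
    (fun η hη => by rw [← key K η hη]) (fun η hη => by rw [← key K' η hη])
  rw [Finset.disjoint_left]
  intro e he he'
  rw [mem_RR] at he he'
  obtain ⟨_, y, hy, x, hx, h1⟩ := he
  obtain ⟨_, y', hy', x', hx', h2⟩ := he'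
  rw [mem_sdiff] at hy hy'
  rw [h1, Sym2.eq_iff] at h2
  rcases h2 with ⟨h, _⟩ | ⟨h, _⟩
  · rw [h] at hy
    exact Finset.disjoint_left.1 hKK hy.1 hy'.1
  · rw [h] at hy
    exact hy.2 (hS hx')

private theorem mem_cls_iff (ζ : Finset (Sym2 V)) (B : Finset V) (z : V) :
    z ∈ cls ζ B ↔ ¬ Disjoint (cl ζ z) B := by
  rw [xb_mem_cls, Finset.not_disjoint_iff]
  exact ⟨fun ⟨x, hx, h⟩ => ⟨x, (cl_symm _ _ _).1 h, hx⟩, fun ⟨x, h, hx⟩ =>
    ⟨x, hx, (cl_symm _ _ _).1 h⟩⟩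

/-- probability that `A` meets `B` -/
private noncomputable def tt (E2 : Finset (Sym2 V)) (r : ℝ) (S A : Finset V) : ℝ :=
  1 - (1 - r) ^ (∑ y ∈ A, dgr E2 y S)

omit [Fintype V] [DecidableEq V] in
private theorem tt_nn (E2 : Finset (Sym2 V)) (r : ℝ) (hr0 : 0 ≤ r) (hr1 : r ≤ 1) (S A : Finset V) :
    0 ≤ tt E2 r S A := by
  unfold tt
  have := pow_le_one₀ (n := ∑ y ∈ A, dgr E2 y S) (by linarith : (0 : ℝ) ≤ 1 - r) (by linarith)
  linarith

omit [Fintype V] [DecidableEq V] in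
private theorem tt_mono (E2 : Finset (Sym2 V)) (r : ℝ) (hr0 : 0 ≤ r) (hr1 : r ≤ 1)
    (S A B : Finset V) (h : A ⊆ B) : tt E2 r S A ≤ tt E2 r S B := by
  unfold tt
  have := pow_le_pow_of_le_one (by linarith : (0 : ℝ) ≤ 1 - r) (by linarith)
    (Finset.sum_le_sum_of_subset (f := fun y => dgr E2 y S) h)
  linarith

private theorem pow_up (r : ℝ) (hr0 : 0 ≤ r) (hr1 : r ≤ 1) (n : ℕ) :
    (1 - r) ^ n ≤ 1 - r * n + r ^ 2 / 2 * (n : ℝ) ^ 2 := by
  induction n with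
  | zero => simp
  | succ n ih =>
    have h1 : (0 : ℝ) ≤ 1 - r := by linarith
    have h2 := mul_le_mul_of_nonneg_right ih h1
    rw [pow_succ]
    push_cast
    refine h2.trans ?_
    have h3 : (0 : ℝ) ≤ n := Nat.cast_nonneg _
    have h4 : 0 ≤ r ^ 3 * (n : ℝ) ^ 2 := by positivity
    have h5 : 0 ≤ r ^ 2 := by positivity
    nlinarith

private theorem pow_low (r : ℝ) (_hr0 : 0 ≤ r) (hr1 : r ≤ 1) (n : ℕ) :
    1 - r * n ≤ (1 - r) ^ n := by
  have := one_add_mul_le_pow (a := -r) (by linarith) n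
  have e : (1 + -r) ^ n = (1 - r) ^ n := by rw [← sub_eq_add_neg]
  rw [e] at this
  linarith

omit [Fintype V] [DecidableEq V] in
private theorem cast_sm (E2 : Finset (Sym2 V)) (S W A : Finset V) (hA : Disjoint A W) :
    ((∑ y ∈ A, dgr E2 y S : ℕ) : ℝ) = sm (fS E2 S W) A := by
  unfold sm fS
  push_cast
  refine Finset.sum_congr rfl fun y hy => ?_
  rw [if_neg (Finset.disjoint_left.1 hA hy)]

private theorem hit_one (E1 E2 : Finset (Sym2 V)) (r : ℝ) (S W : Finset V) (hS : S ⊆ W)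
    (ζ : Finset (Sym2 V)) (hζ : ζ ⊆ offE E1 W) (z : V) (hz : z ∉ W) :
    Ex E2 r (fun η => ind (z ∈ cls ζ (BBS S W η))) = tt E2 r S (cl ζ z) := by
  have hd := xb_cl_off' E1 ζ W hζ z hz
  have h1 := bbs_disj E2 r S W (cl ζ z) hS hd
  unfold tt
  rw [← h1, ← Ex_const E2 r 1, ← Ex_sub]
  refine Ex_congr _ _ _ _ fun η _ => ?_
  beta_reduce
  rw [← ind_not]
  congr 1
  exact propext (mem_cls_iff _ _ _)

omit [DecidableEq V] in
private theorem z_eq (ζ : Finset (Sym2 V)) (B : Finset V) (g : V → ℝ) :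
    sm g (cls ζ B) = ∑ z, g z * ind (z ∈ cls ζ B) := sm_ind g _

private theorem ee_z (E1 E2 : Finset (Sym2 V)) (p r : ℝ) (S W : Finset V) (hS : S ⊆ W)
    (g : V → ℝ) (hgW : ∀ z ∈ W, g z = 0) :
    Ex (offE E1 W) p (fun ζ => Ex E2 r (fun η => sm g (cls ζ (BBS S W η)))) =
      ∑ z, g z * Ex (offE E1 W) p (fun ζ => tt E2 r S (cl ζ z)) := by
  rw [show (∑ z, g z * Ex (offE E1 W) p (fun ζ => tt E2 r S (cl ζ z))) =
    ∑ z, Ex (offE E1 W) p (fun ζ => g z * tt E2 r S (cl ζ z)) from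
    Finset.sum_congr rfl fun z _ => by rw [Ex_mul_left]]
  rw [← Ex_sum]
  refine Ex_congr _ _ _ _ fun ζ hζ => ?_
  simp only [z_eq]
  rw [Ex_sum]
  refine Finset.sum_congr rfl fun z _ => ?_
  rw [Ex_mul_left]
  by_cases hz : z ∈ W
  · rw [hgW z hz, zero_mul, zero_mul]
  · rw [hit_one E1 E2 r S W hS ζ hζ z hz]

omit [DecidableEq V] in
private theorem pair_sym' (E : Finset (Sym2 V)) (p : ℝ)
    (a b : V → ℝ) : ∑ y, a y * wt E p (sm b) y = ∑ y, b y * wt E p (sm a) y := by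
  classical
  simp only [xb_wt_sm, Finset.mul_sum]
  rw [Finset.sum_comm]
  refine Finset.sum_congr rfl fun z _ => Finset.sum_congr rfl fun w _ => ?_
  rw [xb_tau_comm]
  ring

theorem z1_mean (E1 E2 : Finset (Sym2 V)) (p r : ℝ) (h0 : 0 ≤ p) (h1 : p ≤ 1) (hr0 : 0 ≤ r)
    (hr1 : r ≤ 1) (S W : Finset V) (hS : S ⊆ W) (g : V → ℝ) (hg : ∀ z, 0 ≤ g z)
    (hgW : ∀ z ∈ W, g z = 0) :
    r * (∑ y, fS E2 S W y * wt (offE E1 W) p (sm g) y) -
      r ^ 2 / 2 * (∑ z, g z * Ex (offE E1 W) p (fun ζ => sm (fS E2 S W) (cl ζ z) ^ 2)) ≤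
    Ex (offE E1 W) p (fun ζ => Ex E2 r (fun η => sm g (cls ζ (BBS S W η)))) := by
  rw [ee_z E1 E2 p r S W hS g hgW, pair_sym', Finset.mul_sum, Finset.mul_sum,
    ← Finset.sum_sub_distrib]
  refine Finset.sum_le_sum fun z _ => ?_
  by_cases hz : z ∈ W
  · rw [hgW z hz]
    simp
  have h2 : r * Ex (offE E1 W) p (fun ζ => sm (fS E2 S W) (cl ζ z)) -
      r ^ 2 / 2 * Ex (offE E1 W) p (fun ζ => sm (fS E2 S W) (cl ζ z) ^ 2) ≤
      Ex (offE E1 W) p (fun ζ => tt E2 r S (cl ζ z)) := by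
    rw [← Ex_mul_left, ← Ex_mul_left, ← Ex_sub]
    refine Ex_mono _ _ h0 h1 _ _ fun ζ hζ => ?_
    have hd := xb_cl_off' E1 ζ W hζ z hz
    have h3 := pow_up r hr0 hr1 (∑ y ∈ cl ζ z, dgr E2 y S)
    rw [cast_sm E2 S W _ hd] at h3
    unfold tt
    linarith
  have h3 := mul_le_mul_of_nonneg_left h2 (hg z)
  refine le_trans (le_of_eq ?_) h3
  unfold wt
  ring

/-- both `z` and `z'` are reached -/
private theorem hit_two (E1 E2 : Finset (Sym2 V)) (r : ℝ) (S W : Finset V) (hS : S ⊆ W)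
    (ζ : Finset (Sym2 V)) (hζ : ζ ⊆ offE E1 W) (z z' : V) (hz : z ∉ W) (hz' : z' ∉ W) :
    Ex E2 r (fun η => ind (z ∈ cls ζ (BBS S W η)) * ind (z' ∈ cls ζ (BBS S W η))) =
      ind (z' ∈ cl ζ z) * tt E2 r S (cl ζ z) +
        ind (z' ∉ cl ζ z) * (tt E2 r S (cl ζ z) * tt E2 r S (cl ζ z')) := by
  by_cases hc : z' ∈ cl ζ z
  · rw [ind_one hc, ind_zero (not_not.2 hc), one_mul, zero_mul, add_zero,
      ← hit_one E1 E2 r S W hS ζ hζ z hz]
    refine Ex_congr _ _ _ _ fun η _ => ?_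
    have h1 : z' ∈ cls ζ (BBS S W η) ↔ z ∈ cls ζ (BBS S W η) := by
      rw [mem_cls_iff, mem_cls_iff, cl_eq_of_mem ζ z z' hc]
    beta_reduce
    by_cases h2 : z ∈ cls ζ (BBS S W η)
    · rw [ind_one h2, ind_one (h1.2 h2)]; ring
    · rw [ind_zero h2]; ring
  · rw [ind_zero hc, ind_one hc, one_mul, zero_mul, zero_add,
      ← hit_one E1 E2 r S W hS ζ hζ z hz, ← hit_one E1 E2 r S W hS ζ hζ z' hz']
    have hd : Disjoint (cl ζ z) (cl ζ z') := by
      rw [Finset.disjoint_left]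
      intro w h1 h2
      apply hc
      rw [cl_symm] at h1
      rw [cl_symm] at h2
      rw [cl_eq_of_mem ζ w z h1]
      exact h2
    have r1 : ∀ K B : Finset V, (¬ Disjoint K (B ∩ K)) ↔ ¬ Disjoint K B := by
      intro K B
      rw [Finset.disjoint_left, Finset.disjoint_left]
      exact not_congr ⟨fun h w hw hw' => h hw (mem_inter.2 ⟨hw', hw⟩), fun h w hw hw' =>
        h hw (mem_inter.1 hw').1⟩
    have h1 := bbs_indep E2 r S W (cl ζ z) (cl ζ z') hS hd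
      (fun X => ind (¬ Disjoint (cl ζ z) X)) (fun X => ind (¬ Disjoint (cl ζ z') X))
    simp only [r1, ← mem_cls_iff] at h1
    exact h1

theorem z1_var (E1 E2 : Finset (Sym2 V)) (p r : ℝ) (h0 : 0 ≤ p) (h1 : p ≤ 1) (hr0 : 0 ≤ r)
    (hr1 : r ≤ 1) (S W : Finset V) (hS : S ⊆ W) (g : V → ℝ) (hg : ∀ z, 0 ≤ g z)
    (hgW : ∀ z ∈ W, g z = 0) :
    Ex (offE E1 W) p (fun ζ => Ex E2 r (fun η => sm g (cls ζ (BBS S W η)) ^ 2)) -
      Ex (offE E1 W) p (fun ζ => Ex E2 r (fun η => sm g (cls ζ (BBS S W η)))) ^ 2 ≤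
    r * ∑ y, fS E2 S W y * Ex (offE E1 W) p (fun ζ => sm g (cl ζ y) ^ 2) := by
  set EW := offE E1 W with hEW
  set θ := tt E2 r S with hθ
  have hθ0 : ∀ A, 0 ≤ θ A := tt_nn E2 r hr0 hr1 S
  -- the second moment
  have e1 : Ex EW p (fun ζ => Ex E2 r (fun η => sm g (cls ζ (BBS S W η)) ^ 2)) =
      ∑ z, ∑ z', g z * g z' * Ex EW p (fun ζ => ind (z' ∈ cl ζ z) * θ (cl ζ z) +
        ind (z' ∉ cl ζ z) * (θ (cl ζ z) * θ (cl ζ z'))) := by
    rw [show (∑ z, ∑ z', g z * g z' * Ex EW p (fun ζ => ind (z' ∈ cl ζ z) * θ (cl ζ z) +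
        ind (z' ∉ cl ζ z) * (θ (cl ζ z) * θ (cl ζ z')))) =
        Ex EW p (fun ζ => ∑ z, ∑ z', g z * g z' * (ind (z' ∈ cl ζ z) * θ (cl ζ z) +
        ind (z' ∉ cl ζ z) * (θ (cl ζ z) * θ (cl ζ z')))) from by
      rw [Ex_sum]
      refine Finset.sum_congr rfl fun z _ => ?_
      rw [Ex_sum]
      refine Finset.sum_congr rfl fun z' _ => ?_
      rw [Ex_mul_left]]
    refine Ex_congr _ _ _ _ fun ζ hζ => ?_
    have e2 : ∀ η, sm g (cls ζ (BBS S W η)) ^ 2 = ∑ z, ∑ z', g z * g z' *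
        (ind (z ∈ cls ζ (BBS S W η)) * ind (z' ∈ cls ζ (BBS S W η))) := by
      intro η
      rw [sq, z_eq, Finset.sum_mul]
      refine Finset.sum_congr rfl fun z _ => ?_
      rw [Finset.mul_sum]
      exact Finset.sum_congr rfl fun z' _ => by ring
    simp only [e2]
    rw [Ex_sum]
    refine Finset.sum_congr rfl fun z _ => ?_
    rw [Ex_sum]
    refine Finset.sum_congr rfl fun z' _ => ?_
    rw [Ex_mul_left]
    by_cases hz : z ∈ W
    · rw [hgW z hz]; ring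
    by_cases hz' : z' ∈ W
    · rw [hgW z' hz']; ring
    rw [hit_two E1 E2 r S W hS ζ hζ z z' hz hz']
  -- independence
  have e3 : ∀ z z', Ex EW p (fun ζ => ind (z' ∉ cl ζ z) * (θ (cl ζ z) * θ (cl ζ z'))) ≤
      Ex EW p (fun ζ => θ (cl ζ z)) * Ex EW p (fun ζ => θ (cl ζ z')) := by
    intro z z'
    have hmark := b_mark_cl EW z p (fun A _ η => ind (z' ∉ A) * (θ A * θ (cl η z')))
    have e4 : Ex EW p (fun ζ => ind (z' ∉ cl ζ z) * (θ (cl ζ z) * θ (cl ζ z'))) =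
        Ex EW p (fun ω => ind (z' ∉ cl ω z) * (θ (cl ω z) *
          θ (cl (ω ∩ offE EW (cl ω z)) z'))) := by
      refine Ex_congr _ _ _ _ fun ω hω => ?_
      by_cases hb : z' ∈ cl ω z
      · beta_reduce
        rw [ind_zero (not_not.2 hb), zero_mul, zero_mul]
      · have h2 := (xb_cl_outside EW ω hω {z} z' (by rwa [cls_singleton])).1
        rw [cls_singleton] at h2
        beta_reduce
        rw [h2]
    rw [e4, hmark]
    have e5 : Ex EW p (fun ζ => θ (cl ζ z)) * Ex EW p (fun ζ => θ (cl ζ z')) =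
        Ex EW p (fun ω => θ (cl ω z) * Ex EW p (fun ζ => θ (cl ζ z'))) := by
      rw [mul_comm, ← Ex_mul_left]
      exact Ex_congr _ _ _ _ fun ω _ => mul_comm _ _
    rw [e5]
    refine Ex_mono _ _ h0 h1 _ _ fun ω _ => ?_
    rw [Ex_mul_left, Ex_mul_left]
    have e6 : Ex (offE EW (cl ω z)) p (fun η => θ (cl η z')) ≤ Ex EW p (fun ζ => θ (cl ζ z')) :=
      xb_wt_mono_E EW (offE EW (cl ω z)) (xb_offE_subset _ _) p h0 h1 θ
        (tt_mono E2 r hr0 hr1 S) z'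
    have e7 : 0 ≤ Ex EW p (fun ζ => θ (cl ζ z')) := xb_Ex_nonneg _ _ h0 h1 _ fun ω _ => hθ0 _
    by_cases hb : z' ∈ cl ω z
    · rw [ind_zero (not_not.2 hb), zero_mul]
      exact mul_nonneg (hθ0 _) e7
    · rw [ind_one hb, one_mul]
      exact mul_le_mul_of_nonneg_left e6 (hθ0 _)
  -- the diagonal part
  have e8 : ∑ z, ∑ z', g z * g z' * Ex EW p (fun ζ => ind (z' ∈ cl ζ z) * θ (cl ζ z)) ≤
      r * ∑ y, fS E2 S W y * Ex EW p (fun ζ => sm g (cl ζ y) ^ 2) := by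
    have f1 : ∑ z, ∑ z', g z * g z' * Ex EW p (fun ζ => ind (z' ∈ cl ζ z) * θ (cl ζ z)) =
        Ex EW p (fun ζ => ∑ z, g z * (sm g (cl ζ z) * θ (cl ζ z))) := by
      rw [Ex_sum]
      refine Finset.sum_congr rfl fun z _ => ?_
      rw [show (∑ z', g z * g z' * Ex EW p (fun ζ => ind (z' ∈ cl ζ z) * θ (cl ζ z))) =
        Ex EW p (fun ζ => ∑ z', g z * g z' * (ind (z' ∈ cl ζ z) * θ (cl ζ z))) from by
        rw [Ex_sum]
        exact Finset.sum_congr rfl fun z' _ => by rw [Ex_mul_left]]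
      refine Ex_congr _ _ _ _ fun ζ _ => ?_
      beta_reduce
      rw [sm_ind, Finset.sum_mul, Finset.mul_sum]
      exact Finset.sum_congr rfl fun z' _ => by ring
    have f2 : r * ∑ y, fS E2 S W y * Ex EW p (fun ζ => sm g (cl ζ y) ^ 2) =
        Ex EW p (fun ζ => r * ∑ y, fS E2 S W y * sm g (cl ζ y) ^ 2) := by
      rw [Ex_mul_left, Ex_sum]
      congr 1
      exact Finset.sum_congr rfl fun y _ => by rw [Ex_mul_left]
    rw [f1, f2]
    refine Ex_mono _ _ h0 h1 _ _ fun ζ hζ => ?_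
    have f3 : ∑ y, fS E2 S W y * sm g (cl ζ y) ^ 2 =
        ∑ z, g z * (sm g (cl ζ z) * sm (fS E2 S W) (cl ζ z)) := by
      have f4 : ∀ y, fS E2 S W y * sm g (cl ζ y) ^ 2 =
          ∑ z, fS E2 S W y * g z * (ind (z ∈ cl ζ y) * sm g (cl ζ y)) := by
        intro y
        rw [sq]
        nth_rewrite 1 [sm_ind]
        rw [Finset.sum_mul, Finset.mul_sum]
        exact Finset.sum_congr rfl fun z _ => by ring
      have f5 : ∀ z, g z * (sm g (cl ζ z) * sm (fS E2 S W) (cl ζ z)) =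
          ∑ y, fS E2 S W y * g z * (ind (y ∈ cl ζ z) * sm g (cl ζ z)) := by
        intro z
        rw [sm_ind (fS E2 S W), Finset.mul_sum, Finset.mul_sum]
        exact Finset.sum_congr rfl fun y _ => by ring
      rw [Finset.sum_congr rfl fun y _ => f4 y, Finset.sum_congr rfl fun z _ => f5 z,
        Finset.sum_comm]
      refine Finset.sum_congr rfl fun z _ => Finset.sum_congr rfl fun y _ => ?_
      by_cases hzy : z ∈ cl ζ y
      · rw [ind_one hzy, ind_one ((cl_symm _ _ _).1 hzy), cl_eq_of_mem ζ y z hzy]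
      · rw [ind_zero hzy, ind_zero fun h => hzy ((cl_symm _ _ _).1 h)]
        ring
    rw [f3, Finset.mul_sum]
    refine Finset.sum_le_sum fun z _ => ?_
    by_cases hz : z ∈ W
    · rw [hgW z hz]
      simp
    have hd := xb_cl_off' E1 ζ W hζ z hz
    have f6 : θ (cl ζ z) ≤ r * sm (fS E2 S W) (cl ζ z) := by
      have h3 := pow_low r hr0 hr1 (∑ y ∈ cl ζ z, dgr E2 y S)
      rw [cast_sm E2 S W _ hd] at h3
      rw [hθ]
      unfold tt
      linarith
    have f7 : 0 ≤ sm g (cl ζ z) := Finset.sum_nonneg fun z _ => hg z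
    have f8 := mul_le_mul_of_nonneg_left f6 f7
    have f9 := mul_le_mul_of_nonneg_left f8 (hg z)
    refine f9.trans (le_of_eq ?_)
    ring
  rw [e1, ee_z E1 E2 p r S W hS g hgW, ← hEW]
  have e9 : ∑ z, ∑ z', g z * g z' * Ex EW p (fun ζ => ind (z' ∈ cl ζ z) * θ (cl ζ z) +
        ind (z' ∉ cl ζ z) * (θ (cl ζ z) * θ (cl ζ z'))) =
      ∑ z, ∑ z', g z * g z' * Ex EW p (fun ζ => ind (z' ∈ cl ζ z) * θ (cl ζ z)) +
      ∑ z, ∑ z', g z * g z' * Ex EW p (fun ζ => ind (z' ∉ cl ζ z) *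
        (θ (cl ζ z) * θ (cl ζ z'))) := by
    rw [← Finset.sum_add_distrib]
    refine Finset.sum_congr rfl fun z _ => ?_
    rw [← Finset.sum_add_distrib]
    refine Finset.sum_congr rfl fun z' _ => ?_
    rw [Ex_add]
    ring
  have e10 : ∑ z, ∑ z', g z * g z' * Ex EW p (fun ζ => ind (z' ∉ cl ζ z) *
        (θ (cl ζ z) * θ (cl ζ z'))) ≤ (∑ z, g z * Ex EW p (fun ζ => θ (cl ζ z))) ^ 2 := by
    rw [sq, Finset.sum_mul]
    refine Finset.sum_le_sum fun z _ => ?_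
    rw [Finset.mul_sum]
    refine Finset.sum_le_sum fun z' _ => ?_
    have := mul_le_mul_of_nonneg_left (e3 z z') (mul_nonneg (hg z) (hg z'))
    refine this.trans (le_of_eq ?_)
    ring
  rw [e9]
  linarith

end ZONE

end Pool.Agent.Work.MP_b7dc8a_pr
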