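import Pool.Agent.Work.MP_b7dc8a_pr.F.Flow
import Pool.Agent.Work.MP_b7dc8a_pr.F.Zone
import Pool.Agent.Work.MP_b7dc8a_pr.B.Ucon

/-! Module CONN (M): two disjoint sets `S`, `T` with about `e V` vertices are connected by sprinkling.

`a`, `c0` from `flow`; `C' = 48 + 200 Cz`, `X = a/e`, `V = 2^m`, `w = e^3 V`, `W = S ∪ T`, `g = fS (cubeE m) T W`,
`f = fS (cubeE m) S W`. `r = 1 - sqrt (1-q)`, so `q = r + r - r r`, `q/2 <= r <= q`, `q = κ e/m`.
`ucon_reduce`: the left side is at most `Ex (offE E W) ps Ex (offE E T) r ∏_{x ∈ cls (ζ ∪ η) S} (1-r)^(gN T x)`.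
Case 1 of `flow`: `S ⊆ cls (ζ ∪ η) S`: the product is `<= (1-r)^(∑_{s∈S} gT T s) <= exp (- r c0 m |S|) <=
 exp (- (κ e/2) c0 c8 e V) <= exp (- (c0 c8/2) κ^2 w)` (`κ <= 1`, `e <= 1`).
Case 2: `B = BBS S W η ⊆ cls (ζ ∪ η) S`, so `cls ζ B ⊆ cls (ζ ∪ η) S` and the product is `<= (1-r)^Z`, more precisely
 `<= exp (- r Z)`, `Z = sm g (cls ζ B)` (`cls ζ B` is disjoint from `W`, so `g = gT T` on it). ZONE with `E1 = cubeE m`,
 `E2 = offE (cubeE m) T` (`fS E2 S W = f` as `S ∩ T = ∅`). With `v_f, v_g <= C' m`, `second_wt`: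
 `Ex (sm f (cl ζ z))^2 <= X (C' m)^2` (`∑_d tau z d <= X`), the same for `g`; `∑ g <= m |T|`, `∑ f <= m |S|`. So
 `μ := E Z >= r c0 m^2 |S| |T| X/V - (r^2/2) m |T| X (C' m)^2 >= (r/2) c0 m^2 |S| |T| X/V =: μ0` if
 `r m C'^2 V <= c0 |S|`, true for `κ <= c0 c8/C'^2`; and `Var Z <= r m |S| X (C' m)^2`. Chebyshev:
 `E exp (-r Z) <= P(Z <= μ/2) + exp (-r μ/2) <= 4 Var Z/μ0^2 + exp (-r μ0/2)`;
 `4 Var Z/μ0^2 <= 16 C'^2 V^2/(r m c0^2 |S| |T|^2 X) <= 32 C'^2/(c0^2 c8^3 a κ w)`,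
 `r μ0/2 >= (κ e)^2 c0 c8^2 e^2 V^2 (a/e)/(16 V) = (c0 c8^2 a/16) κ^2 w`. -/

namespace Pool.Agent.Work.MP_b7dc8a_pr

open Finset

private theorem conn_exp (r z μ : ℝ) (hr : 0 ≤ r) (hz : 0 ≤ z) (hμ : 0 < μ) :
    Real.exp (-(r * z)) ≤ 4 / μ ^ 2 * (z - μ) ^ 2 + Real.exp (-(r * μ / 2)) := by
  rcases le_total z (μ / 2) with h | h
  · have h1 : Real.exp (-(r * z)) ≤ 1 :=
      Real.exp_le_one_iff.2 (neg_nonpos.2 (mul_nonneg hr hz))
    have h2 : 1 ≤ 4 / μ ^ 2 * (z - μ) ^ 2 := by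
      rw [div_mul_eq_mul_div, le_div_iff₀ (by positivity)]
      nlinarith
    have h3 := (Real.exp_pos (-(r * μ / 2))).le
    linarith
  · have h1 : Real.exp (-(r * z)) ≤ Real.exp (-(r * μ / 2)) := by
      refine Real.exp_le_exp.2 ?_
      have := mul_le_mul_of_nonneg_left h hr
      linarith
    have h2 : 0 ≤ 4 / μ ^ 2 * (z - μ) ^ 2 := by positivity
    linarith

private theorem conn_cheb {α β : Type} (E : Finset α) (E' : Finset β) (p r : ℝ) (hp0 : 0 ≤ p)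
    (hp1 : p ≤ 1) (hr0 : 0 ≤ r) (hr1 : r ≤ 1) (F : Finset α → Finset β → ℝ)
    (hF : ∀ ζ η, 0 ≤ F ζ η) (μ0 v : ℝ) (hμ0 : 0 < μ0)
    (h1 : μ0 ≤ Ex E p (fun ζ => Ex E' r (fun η => F ζ η)))
    (hv : Ex E p (fun ζ => Ex E' r (fun η => F ζ η ^ 2)) -
      Ex E p (fun ζ => Ex E' r (fun η => F ζ η)) ^ 2 ≤ v) :
    Ex E p (fun ζ => Ex E' r (fun η => Real.exp (-(r * F ζ η)))) ≤
      4 * v / μ0 ^ 2 + Real.exp (-(r * μ0 / 2)) := by
  set μ := Ex E p (fun ζ => Ex E' r (fun η => F ζ η)) with hμ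
  have hμp : 0 < μ := hμ0.trans_le h1
  have h2 : Ex E p (fun ζ => Ex E' r (fun η => Real.exp (-(r * F ζ η)))) ≤
      Ex E p (fun ζ => Ex E' r (fun η =>
        4 / μ ^ 2 * (F ζ η - μ) ^ 2 + Real.exp (-(r * μ / 2)))) :=
    Ex_mono _ _ hp0 hp1 _ _ fun ζ _ => Ex_mono _ _ hr0 hr1 _ _ fun η _ =>
      conn_exp r _ μ hr0 (hF ζ η) hμp
  have h3 : Ex E p (fun ζ => Ex E' r (fun η =>
        4 / μ ^ 2 * (F ζ η - μ) ^ 2 + Real.exp (-(r * μ / 2)))) =
      4 / μ ^ 2 * (Ex E p (fun ζ => Ex E' r (fun η => F ζ η ^ 2)) - μ ^ 2) +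
        Real.exp (-(r * μ / 2)) := by
    have e1 : Ex E p (fun ζ => Ex E' r (fun η =>
        4 / μ ^ 2 * (F ζ η - μ) ^ 2 + Real.exp (-(r * μ / 2)))) =
        Ex E p (fun ζ => (4 / μ ^ 2 * Ex E' r (fun η => F ζ η ^ 2) +
          (-(8 / μ)) * Ex E' r (fun η => F ζ η)) + (4 + Real.exp (-(r * μ / 2)))) := by
      refine Ex_congr _ _ _ _ fun ζ _ => ?_
      have e2 : Ex E' r (fun η => 4 / μ ^ 2 * (F ζ η - μ) ^ 2 + Real.exp (-(r * μ / 2))) =
          Ex E' r (fun η => (4 / μ ^ 2 * F ζ η ^ 2 + (-(8 / μ)) * F ζ η) +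
            (4 + Real.exp (-(r * μ / 2)))) := by
        refine Ex_congr _ _ _ _ fun η _ => ?_
        field_simp
        ring
      rw [e2, Ex_add, Ex_add, Ex_mul_left, Ex_mul_left, Ex_const]
    rw [e1, Ex_add, Ex_add, Ex_mul_left, Ex_mul_left, Ex_const, ← hμ]
    field_simp
    ring
  have h4 : Real.exp (-(r * μ / 2)) ≤ Ex E p (fun ζ => Ex E' r (fun η =>
        4 / μ ^ 2 * (F ζ η - μ) ^ 2 + Real.exp (-(r * μ / 2)))) := by
    refine xb_Ex_ge _ _ hp0 hp1 _ _ fun ζ _ => xb_Ex_ge _ _ hr0 hr1 _ _ fun η _ => ?_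
    have : 0 ≤ 4 / μ ^ 2 * (F ζ η - μ) ^ 2 := by positivity
    linarith
  rw [h3] at h4 h2
  set D := Ex E p (fun ζ => Ex E' r (fun η => F ζ η ^ 2)) - μ ^ 2 with hD
  have hD0 : 0 ≤ D := by
    have h5 : 0 ≤ 4 / μ ^ 2 * D := by linarith
    by_contra hneg
    push Not at hneg
    have h6 : 0 < 4 / μ ^ 2 := by positivity
    have := mul_neg_of_pos_of_neg h6 hneg
    linarith
  have h5 : 4 / μ ^ 2 * D ≤ 4 * v / μ0 ^ 2 := by
    have h6 : 4 / μ ^ 2 ≤ 4 / μ0 ^ 2 := by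
      apply div_le_div_of_nonneg_left (by norm_num) (by positivity)
      exact pow_le_pow_left₀ hμ0.le h1 2
    calc 4 / μ ^ 2 * D ≤ 4 / μ0 ^ 2 * D := mul_le_mul_of_nonneg_right h6 hD0
      _ ≤ 4 / μ0 ^ 2 * v := mul_le_mul_of_nonneg_left hv (by positivity)
      _ = 4 * v / μ0 ^ 2 := by ring
  have h6 : Real.exp (-(r * μ / 2)) ≤ Real.exp (-(r * μ0 / 2)) := by
    refine Real.exp_le_exp.2 ?_
    have := mul_le_mul_of_nonneg_left h1 hr0
    linarith
  linarith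

private theorem conn_prod {m : ℕ} (T C : Finset (Q m)) (r : ℝ) (hr1 : r ≤ 1) :
    ∏ x ∈ C, (1 - r) ^ gN T x ≤ Real.exp (-(r * ∑ x ∈ C, gT T x)) := by
  rw [Finset.prod_pow_eq_pow_sum]
  have e1 : 1 - r ≤ Real.exp (-r) := by
    have := Real.add_one_le_exp (-r)
    linarith
  have e2 := pow_le_pow_left₀ (by linarith : 0 ≤ 1 - r) e1 (∑ x ∈ C, gN T x)
  refine e2.trans (le_of_eq ?_)
  rw [← Real.exp_nat_mul]
  push_cast
  rw [Finset.sum_congr rfl fun x _ => gN_gT T x]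
  ring_nf

private theorem conn_dgr {m : ℕ} (T : Finset (Q m)) (z : Q m) :
    (dgr (cubeE m) z T : ℝ) = gT T z := by
  unfold dgr gT
  congr!

private theorem conn_fS_nonneg {V : Type} [DecidableEq V] (E : Finset (Sym2 V)) (S W : Finset V)
    (y : V) : 0 ≤ fS E S W y := by
  unfold fS
  split_ifs
  · exact le_rfl
  · exact Nat.cast_nonneg _

private theorem conn_fS_W {V : Type} [DecidableEq V] (E : Finset (Sym2 V)) (S W : Finset V)
    (y : V) (hy : y ∈ W) : fS E S W y = 0 := by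
  unfold fS
  rw [if_pos hy]

private theorem conn_fS_not {m : ℕ} (S W : Finset (Q m)) (y : Q m) (hy : y ∉ W) :
    fS (cubeE m) S W y = gT S y := by
  unfold fS
  rw [if_neg hy, conn_dgr]

private theorem conn_fS_off {V : Type} [DecidableEq V] (E : Finset (Sym2 V)) (S T W : Finset V)
    (hST : Disjoint S T) (hTW : T ⊆ W) : fS (offE E T) S W = fS E S W := by
  funext y
  unfold fS
  by_cases hy : y ∈ W
  · rw [if_pos hy, if_pos hy]
  · rw [if_neg hy, if_neg hy]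
    unfold dgr
    congr 2
    ext z
    simp only [Finset.mem_filter, xb_mem_offE]
    constructor
    · exact fun h => ⟨h.1, h.2.1⟩
    · exact fun h => ⟨h.1, h.2, fun h' => hy (hTW h'),
        fun h' => Finset.disjoint_left.1 hST h.1 h'⟩

private theorem conn_mem_BBS {V : Type} [Fintype V] (S W : Finset V) (η : Finset (Sym2 V))
    (b : V) : b ∈ BBS S W η ↔ b ∉ W ∧ ∃ x ∈ S, s(x, b) ∈ η := by
  unfold BBS
  simp

open Classical in
private theorem conn_hand (m : ℕ) (T W : Finset (Q m)) :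
    ∑ z, fS (cubeE m) T W z ≤ m * T.card := by
  have h1 : ∀ z, fS (cubeE m) T W z ≤ gT T z := by
    intro z
    by_cases hz : z ∈ W
    · rw [conn_fS_W _ _ _ _ hz]; exact gT_nonneg T z
    · rw [conn_fS_not _ _ _ hz]
  refine (Finset.sum_le_sum fun z _ => h1 z).trans (le_of_eq ?_)
  have h2 : ∀ z : Q m, gT T z = ∑ t ∈ T, if s(z, t) ∈ cubeE m then (1 : ℝ) else 0 := by
    intro z
    unfold gT
    rw [Finset.card_filter]
    push_cast
    rfl
  simp only [h2]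
  rw [Finset.sum_comm]
  have h3 : ∀ t ∈ T, ∑ z : Q m, (if s(z, t) ∈ cubeE m then (1 : ℝ) else 0) = m := by
    intro t _
    rw [← ucon_deg m t, Finset.card_filter]
    push_cast
    refine Finset.sum_congr rfl fun z _ => ?_
    rw [Sym2.eq_swap]
  rw [Finset.sum_congr rfl h3, Finset.sum_const, nsmul_eq_mul, mul_comm]

private theorem conn_two {V : Type} [Fintype V] [DecidableEq V] (E : Finset (Sym2 V)) (p : ℝ)
    (h0 : 0 ≤ p) (h1 : p ≤ 1) (f : V → ℝ) (hf : ∀ z, 0 ≤ f z) (X M : ℝ)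
    (hX : ∀ z, chi E p z ≤ X) (hM : ∀ z, wt E p (sm f) z ≤ M) (y : V) :
    Ex E p (fun ω => sm f (cl ω y) ^ 2) ≤ X * M ^ 2 := by
  refine (second_wt E p h0 h1 f hf y).trans ?_
  have h2 : ∀ d, 0 ≤ wt E p (sm f) d := fun d => xb_Ex_nonneg E p h0 h1 _ fun ω _ =>
    Finset.sum_nonneg fun z _ => hf z
  have h3 : ∑ d, tau E p y d * wt E p (sm f) d ^ 2 ≤ ∑ d, tau E p y d * M ^ 2 :=
    Finset.sum_le_sum fun d _ => mul_le_mul_of_nonneg_left
      (pow_le_pow_left₀ (h2 d) (hM d) 2) (xb_tau_nonneg E p h0 h1 y d)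
  refine h3.trans ?_
  rw [← Finset.sum_mul, ← xb_chi_sum]
  exact mul_le_mul_of_nonneg_right (hX y) (sq_nonneg M)

/-- the purely numerical part of the second case -/
private theorem conn_num (a c0 c8 C1 e κ r m s t V : ℝ) (ha : 0 < a) (hc0 : 0 < c0)
    (hc8 : 0 < c8) (hC1 : 0 < C1) (he : 0 < e) (hκ : 0 < κ) (hr : 0 < r) (hm : 0 < m)
    (hs : c8 * e * V ≤ s) (ht : c8 * e * V ≤ t) (hV : 0 < V) (hrm : κ * e / 2 ≤ r * m) :
    4 * (r * (m * s * (a / e * (C1 * m) ^ 2))) /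
        (r / 2 * (c0 * m ^ 2 * s * t * (a / e) / V)) ^ 2 ≤
      32 * C1 ^ 2 / (c0 ^ 2 * c8 ^ 3 * a) / (κ * (e ^ 3 * V)) ∧
    c0 * c8 ^ 2 * a / 16 * κ ^ 2 * (e ^ 3 * V) ≤
      r * (r / 2 * (c0 * m ^ 2 * s * t * (a / e) / V)) / 2 := by
  have hs0 : 0 < s := lt_of_lt_of_le (by positivity) hs
  have ht0 : 0 < t := lt_of_lt_of_le (by positivity) ht
  have hst : (c8 * e * V) ^ 2 ≤ s * t := by
    rw [sq]
    exact mul_le_mul hs ht (by positivity) hs0.le
  have hst2 : (c8 * e * V) ^ 3 ≤ s * t ^ 2 := by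
    calc (c8 * e * V) ^ 3 = (c8 * e * V) * (c8 * e * V) ^ 2 := by ring
      _ ≤ s * t ^ 2 := mul_le_mul hs (pow_le_pow_left₀ (by positivity) ht 2) (by positivity) hs0.le
  constructor
  · rw [div_le_div_iff₀ (by positivity) (by positivity)]
    have key : κ * e / 2 * (c8 * e * V) ^ 3 ≤ r * m * (s * t ^ 2) :=
      mul_le_mul hrm hst2 (by positivity) (by positivity)
    have hG : 0 < 8 * r * m ^ 3 * s * a * C1 ^ 2 / (c8 ^ 3 * e ^ 2 * V ^ 2) := by positivity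
    have e1 : 4 * (r * (m * s * (a / e * (C1 * m) ^ 2))) * (κ * (e ^ 3 * V)) =
        8 * r * m ^ 3 * s * a * C1 ^ 2 / (c8 ^ 3 * e ^ 2 * V ^ 2) *
          (κ * e / 2 * (c8 * e * V) ^ 3) := by
      field_simp
      ring
    have e2 : 32 * C1 ^ 2 / (c0 ^ 2 * c8 ^ 3 * a) *
        (r / 2 * (c0 * m ^ 2 * s * t * (a / e) / V)) ^ 2 =
        8 * r * m ^ 3 * s * a * C1 ^ 2 / (c8 ^ 3 * e ^ 2 * V ^ 2) * (r * m * (s * t ^ 2)) := by
      field_simp
      ring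
    rw [e1, e2]
    exact mul_le_mul_of_nonneg_left key hG.le
  · have key : (κ * e / 2) ^ 2 * (c8 * e * V) ^ 2 ≤ (r * m) ^ 2 * (s * t) :=
      mul_le_mul (pow_le_pow_left₀ (by positivity) hrm 2) hst (by positivity) (by positivity)
    have hG : 0 < c0 * a / (4 * e * V) := by positivity
    have e1 : c0 * c8 ^ 2 * a / 16 * κ ^ 2 * (e ^ 3 * V) =
        c0 * a / (4 * e * V) * ((κ * e / 2) ^ 2 * (c8 * e * V) ^ 2) := by
      field_simp
      ring
    have e2 : r * (r / 2 * (c0 * m ^ 2 * s * t * (a / e) / V)) / 2 =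
        c0 * a / (4 * e * V) * ((r * m) ^ 2 * (s * t)) := by
      field_simp
      ring
    rw [e1, e2]
    exact mul_le_mul_of_nonneg_left key hG.le

private theorem conn_sqrt (q : ℝ) (hq0 : 0 < q) (hq1 : q ≤ 1) :
    ∃ r : ℝ, 0 < r ∧ r ≤ 1 ∧ q = r + r - r * r ∧ q / 2 ≤ r ∧ r ≤ q := by
  refine ⟨1 - Real.sqrt (1 - q), ?_⟩
  have hsq : Real.sqrt (1 - q) ^ 2 = 1 - q := Real.sq_sqrt (by linarith)
  have hs0 : 0 ≤ Real.sqrt (1 - q) := Real.sqrt_nonneg _
  have hs1 : Real.sqrt (1 - q) ≤ 1 := Real.sqrt_le_one.mpr (by linarith)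
  have hs2 : Real.sqrt (1 - q) < 1 := by
    rcases hs1.eq_or_lt with h | h
    · rw [h] at hsq; norm_num at hsq; linarith
    · exact h
  refine ⟨by linarith, by linarith, by nlinarith, by nlinarith, by nlinarith⟩

theorem conn (Cz c8 : ℝ) (hCz : 1 ≤ Cz) (hc8 : 0 < c8) : ∃ (a c C : ℝ) (m0 : ℕ), 0 < a ∧
    a ≤ 1 ∧ 0 < c ∧ c ≤ 1 ∧ 0 < C ∧ ∀ m ≥ m0, ∀ e ps κ q : ℝ, 0 < e →
    e ≤ (2 : ℝ) ^ (-(m : ℝ) / 36) → 1 ≤ e ^ 3 * 2 ^ m →
    0 ≤ ps → ps * m ≤ 1 + 5000 * dl m → (∀ x, chi (cubeE m) ps x = a / e) →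
    0 < κ → κ ≤ c → q * m = κ * e →
    ∀ S T : Finset (Q m), Disjoint S T → c8 * e * 2 ^ m ≤ S.card →
    c8 * e * 2 ^ m ≤ T.card → (S.card : ℝ) ≤ Cz * e * 2 ^ m → (T.card : ℝ) ≤ Cz * e * 2 ^ m →
    Ex (offE (cubeE m) (S ∪ T)) ps (fun ζ => Ex (cubeE m) q (fun η =>
      ind (∀ x ∈ S, ∀ y ∈ T, y ∉ cl (ζ ∪ η) x))) ≤
      C / (κ * (e ^ 3 * 2 ^ m)) + Real.exp (-(c * κ ^ 2 * (e ^ 3 * 2 ^ m))) := by
  classical
  obtain ⟨a, c0, m1, ha, ha1, hc0, hflow⟩ := flow Cz c8 hCz hc8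
  obtain ⟨m2, hm2⟩ := xn_dl 5000 1 one_pos
  set C1 : ℝ := 48 + 200 * Cz with hC1
  have hC1p : 0 < C1 := by rw [hC1]; linarith
  set c : ℝ := min (min 1 (c0 * c8 / 2)) (min (c0 * c8 ^ 2 * a / 16) (c0 * c8 / C1 ^ 2)) with hc
  have hcp : 0 < c := by
    rw [hc]
    exact lt_min (lt_min one_pos (by positivity)) (lt_min (by positivity) (by positivity))
  have hcA : c ≤ 1 := (min_le_left _ _).trans (min_le_left _ _)
  have hcB : c ≤ c0 * c8 / 2 := (min_le_left _ _).trans (min_le_right _ _)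
  have hcC : c ≤ c0 * c8 ^ 2 * a / 16 := (min_le_right _ _).trans (min_le_left _ _)
  have hcD : c ≤ c0 * c8 / C1 ^ 2 := (min_le_right _ _).trans (min_le_right _ _)
  refine ⟨a, c, 32 * C1 ^ 2 / (c0 ^ 2 * c8 ^ 3 * a), max (max m1 m2) 2, ha, ha1, hcp, hcA,
    by positivity, ?_⟩
  intro m hm e ps κ q he hexp hw hps0 hpsm hchi hκ hκc hqm S T hST hS8 hT8 hSz hTz
  have hm1 : m1 ≤ m := le_trans (le_trans (le_max_left _ _) (le_max_left _ _)) hm
  have hmm2 : m2 ≤ m := le_trans (le_trans (le_max_right _ _) (le_max_left _ _)) hm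
  have hmge : 2 ≤ m := le_trans (le_max_right _ _) hm
  have hmr : (2 : ℝ) ≤ (m : ℝ) := by exact_mod_cast hmge
  have hmp : (0 : ℝ) < (m : ℝ) := by linarith
  have he1 : e ≤ 1 := by
    refine hexp.trans ?_
    refine Real.rpow_le_one_of_one_le_of_nonpos (by norm_num) ?_
    apply div_nonpos_of_nonpos_of_nonneg _ (by norm_num)
    linarith
  have hps1 : ps ≤ 1 := by
    have h1 := hm2 m hmm2
    have h2 : ps * m ≤ 2 := by linarith
    have h3 := mul_le_mul_of_nonneg_left hmr hps0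
    linarith
  have hκ1 : κ ≤ 1 := hκc.trans hcA
  have hq : q = κ * e / m := by
    rw [eq_div_iff hmp.ne']; exact hqm
  have hq0 : 0 < q := by rw [hq]; positivity
  have hq1 : q ≤ 1 := by
    rw [hq, div_le_one hmp]
    have h3 := mul_le_one₀ hκ1 he.le he1
    linarith
  obtain ⟨r, hr0, hr1, hqr, hr2, hrq⟩ := conn_sqrt q hq0 hq1
  have hrm : κ * e / 2 ≤ r * m := by
    rw [← hqm]
    have h3 := mul_le_mul_of_nonneg_right hr2 hmp.le
    linarith
  have hrm2 : r * m ≤ κ * e := by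
    rw [← hqm]
    exact mul_le_mul_of_nonneg_right hrq hmp.le
  have hV : (0 : ℝ) < 2 ^ m := by positivity
  set W := S ∪ T with hW
  obtain ⟨hvg, hvf, halt⟩ := hflow m hm1 e ps he hexp hw hps0 hpsm hchi S T W hST hW hS8 hT8
    hSz hTz
  have hRHS0 : 0 ≤ 32 * C1 ^ 2 / (c0 ^ 2 * c8 ^ 3 * a) / (κ * (e ^ 3 * 2 ^ m)) := by positivity
  have hred := ucon_reduce (cubeE m) ps q r hps0 hps1 hr0.le hr1 hqr S T hST
  refine hred.trans ?_
  rcases halt with hD | hA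
  · -- first alternative
    have h1 : Ex (offE (cubeE m) (S ∪ T)) ps (fun ζ => Ex (offE (cubeE m) T) r (fun η =>
        ∏ x ∈ cls (ζ ∪ η) S, (1 - r) ^ ((T.filter fun t => s(x, t) ∈ cubeE m).card))) ≤
        Real.exp (-(r * ∑ s ∈ S, gT T s)) := by
      refine xb_Ex_le _ _ hps0 hps1 _ _ fun ζ _ => xb_Ex_le _ _ hr0.le hr1 _ _ fun η _ => ?_
      have h2 := conn_prod T (cls (ζ ∪ η) S) r hr1
      have h3 : Real.exp (-(r * ∑ x ∈ cls (ζ ∪ η) S, gT T x)) ≤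
          Real.exp (-(r * ∑ s ∈ S, gT T s)) := by
        refine Real.exp_le_exp.2 (neg_le_neg (mul_le_mul_of_nonneg_left ?_ hr0.le))
        exact Finset.sum_le_sum_of_subset_of_nonneg (subset_cls _ S) fun z _ _ => gT_nonneg T z
      refine le_trans (le_of_eq ?_) (h2.trans h3)
      refine Finset.prod_congr rfl fun x _ => ?_
      unfold gN
      congr!
    refine h1.trans ?_
    have h4 : Real.exp (-(r * ∑ s ∈ S, gT T s)) ≤
        Real.exp (-(c * κ ^ 2 * (e ^ 3 * 2 ^ m))) := by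
      refine Real.exp_le_exp.2 (neg_le_neg ?_)
      have h5 := mul_le_mul_of_nonneg_left hD hr0.le
      refine le_trans ?_ h5
      have h6 : κ * e / 2 * (c0 * (c8 * e * 2 ^ m)) ≤ r * m * (c0 * S.card) := by
        refine mul_le_mul hrm (mul_le_mul_of_nonneg_left hS8 hc0.le) (by positivity)
          (by positivity)
      have h7 : c * κ ^ 2 * (e ^ 3 * 2 ^ m) ≤ κ * e / 2 * (c0 * (c8 * e * 2 ^ m)) := by
        have e1 : c * κ ^ 2 * (e ^ 3 * 2 ^ m) = c * (κ * e) * (κ * e ^ 2 * 2 ^ m) := by ring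
        have e2 : κ * e / 2 * (c0 * (c8 * e * 2 ^ m)) =
            c0 * c8 / 2 * 1 * (κ * e ^ 2 * 2 ^ m) := by ring
        rw [e1, e2]
        refine mul_le_mul_of_nonneg_right ?_ (by positivity)
        refine mul_le_mul hcB ?_ (by positivity) (by positivity)
        exact mul_le_one₀ hκ1 he.le he1
      calc c * κ ^ 2 * (e ^ 3 * 2 ^ m) ≤ κ * e / 2 * (c0 * (c8 * e * 2 ^ m)) := h7
        _ ≤ r * m * (c0 * S.card) := h6
        _ = r * (c0 * m * S.card) := by ring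
    linarith
  · -- second alternative
    set f : Q m → ℝ := fS (cubeE m) S W with hf
    set g : Q m → ℝ := fS (cubeE m) T W with hg
    have hf0 : ∀ z, 0 ≤ f z := fun z => conn_fS_nonneg _ _ _ _
    have hg0 : ∀ z, 0 ≤ g z := fun z => conn_fS_nonneg _ _ _ _
    have hgW : ∀ z ∈ W, g z = 0 := fun z hz => conn_fS_W _ _ _ _ hz
    have hSW : S ⊆ W := subset_union_left
    have hTW : T ⊆ W := subset_union_right
    have hff : fS (offE (cubeE m) T) S W = f := conn_fS_off _ _ _ _ hST hTW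
    set F : Finset (Sym2 (Q m)) → Finset (Sym2 (Q m)) → ℝ := fun ζ η =>
      sm g (cls ζ (BBS S W η)) with hF
    have h1 : Ex (offE (cubeE m) (S ∪ T)) ps (fun ζ => Ex (offE (cubeE m) T) r (fun η =>
        ∏ x ∈ cls (ζ ∪ η) S, (1 - r) ^ ((T.filter fun t => s(x, t) ∈ cubeE m).card))) ≤
        Ex (offE (cubeE m) W) ps (fun ζ => Ex (offE (cubeE m) T) r (fun η =>
          Real.exp (-(r * F ζ η)))) := by
      refine Ex_mono _ _ hps0 hps1 _ _ fun ζ hζ => Ex_mono _ _ hr0.le hr1 _ _ fun η hη => ?_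
      have h2 := conn_prod T (cls (ζ ∪ η) S) r hr1
      have hsub : cls ζ (BBS S W η) ⊆ cls (ζ ∪ η) S := by
        intro y hy
        rw [xb_mem_cls] at hy
        obtain ⟨b, hb, hby⟩ := hy
        obtain ⟨_, x, hx, hxb⟩ := (conn_mem_BBS S W η b).1 hb
        rw [xb_mem_cls]
        refine ⟨x, hx, ?_⟩
        have hbx : b ∈ cl (ζ ∪ η) x :=
          cl_closed _ x x b (mem_cl_self _ x) (mem_union_right _ hxb)
        rw [← cl_eq_of_mem _ x b hbx]
        exact cl_mono ζ _ subset_union_left b hby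
      have hdis : ∀ y ∈ cls ζ (BBS S W η), y ∉ W := by
        intro y hy hyW
        rw [xb_mem_cls] at hy
        obtain ⟨b, hb, hby⟩ := hy
        have hbW : b ∉ W := ((conn_mem_BBS S W η b).1 hb).1
        exact Finset.disjoint_left.1 (xb_cl_off' (cubeE m) ζ W hζ b hbW) hby hyW
      have h3 : Real.exp (-(r * ∑ x ∈ cls (ζ ∪ η) S, gT T x)) ≤ Real.exp (-(r * F ζ η)) := by
        refine Real.exp_le_exp.2 (neg_le_neg (mul_le_mul_of_nonneg_left ?_ hr0.le))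
        have h4 : F ζ η = ∑ x ∈ cls ζ (BBS S W η), gT T x :=
          Finset.sum_congr rfl fun x hx => conn_fS_not T W x (hdis x hx)
        rw [h4]
        exact Finset.sum_le_sum_of_subset_of_nonneg hsub fun z _ _ => gT_nonneg T z
      refine le_trans (le_of_eq ?_) (h2.trans h3)
      refine Finset.prod_congr rfl fun x _ => ?_
      unfold gN
      congr!
    refine h1.trans ?_
    -- moments
    have hX : ∀ z, chi (offE (cubeE m) W) ps z ≤ a / e := fun z =>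
      (xb_chi_mono_E _ _ (xb_offE_subset _ _) _ hps0 hps1 z).trans (hchi z).le
    have hXp : 0 < a / e := by positivity
    have hsf : ∀ z, Ex (offE (cubeE m) W) ps (fun ω => sm f (cl ω z) ^ 2) ≤
        a / e * (C1 * m) ^ 2 := fun z => conn_two _ _ hps0 hps1 f hf0 _ _ hX hvf z
    have hsg : ∀ z, Ex (offE (cubeE m) W) ps (fun ω => sm g (cl ω z) ^ 2) ≤
        a / e * (C1 * m) ^ 2 := fun z => conn_two _ _ hps0 hps1 g hg0 _ _ hX hvg z
    have hs0 : (0 : ℝ) < S.card := lt_of_lt_of_le (by positivity) hS8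
    have ht0 : (0 : ℝ) < T.card := lt_of_lt_of_le (by positivity) hT8
    have hmean := z1_mean (cubeE m) (offE (cubeE m) T) ps r hps0 hps1 hr0.le hr1 S W hSW g hg0
      hgW
    have hvar := z1_var (cubeE m) (offE (cubeE m) T) ps r hps0 hps1 hr0.le hr1 S W hSW g hg0
      hgW
    rw [hff] at hmean hvar
    have hB : ∑ z, g z * Ex (offE (cubeE m) W) ps (fun ζ => sm f (cl ζ z) ^ 2) ≤
        m * T.card * (a / e * (C1 * m) ^ 2) := by
      have h2 : ∑ z, g z * Ex (offE (cubeE m) W) ps (fun ζ => sm f (cl ζ z) ^ 2) ≤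
          ∑ z, g z * (a / e * (C1 * m) ^ 2) :=
        Finset.sum_le_sum fun z _ => mul_le_mul_of_nonneg_left (hsf z) (hg0 z)
      refine h2.trans ?_
      rw [← Finset.sum_mul]
      exact mul_le_mul_of_nonneg_right (conn_hand m T W) (by positivity)
    have hB' : ∑ y, f y * Ex (offE (cubeE m) W) ps (fun ζ => sm g (cl ζ y) ^ 2) ≤
        m * S.card * (a / e * (C1 * m) ^ 2) := by
      have h2 : ∑ z, f z * Ex (offE (cubeE m) W) ps (fun ζ => sm g (cl ζ z) ^ 2) ≤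
          ∑ z, f z * (a / e * (C1 * m) ^ 2) :=
        Finset.sum_le_sum fun z _ => mul_le_mul_of_nonneg_left (hsg z) (hf0 z)
      refine h2.trans ?_
      rw [← Finset.sum_mul]
      exact mul_le_mul_of_nonneg_right (conn_hand m S W) (by positivity)
    set μ0 : ℝ := r / 2 * (c0 * (m : ℝ) ^ 2 * S.card * T.card * (a / e) / 2 ^ m) with hμ0
    have hμ0p : 0 < μ0 := by rw [hμ0]; positivity
    have hμ : μ0 ≤ Ex (offE (cubeE m) W) ps (fun ζ => Ex (offE (cubeE m) T) r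
        (fun η => F ζ η)) := by
      refine le_trans ?_ hmean
      have h2 := mul_le_mul_of_nonneg_left hA hr0.le
      have h3 : r ^ 2 / 2 * (∑ z, g z * Ex (offE (cubeE m) W) ps
          (fun ζ => sm f (cl ζ z) ^ 2)) ≤ μ0 := by
        have h4 := mul_le_mul_of_nonneg_left hB (by positivity : 0 ≤ r ^ 2 / 2)
        refine h4.trans ?_
        have h5 : r * m * C1 ^ 2 ≤ c0 * S.card / 2 ^ m := by
          have h6 : κ * e * C1 ^ 2 ≤ c0 * c8 * e := by
            have h7 : κ * C1 ^ 2 ≤ c0 * c8 := by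
              have h8 := hκc.trans hcD
              rwa [le_div_iff₀ (by positivity)] at h8
            have h9 := mul_le_mul_of_nonneg_right h7 he.le
            linarith
          have h7 : c0 * c8 * e ≤ c0 * S.card / 2 ^ m := by
            rw [le_div_iff₀ hV]
            have := mul_le_mul_of_nonneg_left hS8 hc0.le
            linarith
          have h8 := mul_le_mul_of_nonneg_right hrm2 (sq_nonneg C1)
          linarith
        have e1 : r ^ 2 / 2 * (m * T.card * (a / e * (C1 * m) ^ 2)) =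
            (r * m * C1 ^ 2) * (r / 2 * (m : ℝ) ^ 2 * T.card * (a / e)) := by ring
        have e2 : μ0 = (c0 * S.card / 2 ^ m) * (r / 2 * (m : ℝ) ^ 2 * T.card * (a / e)) := by
          rw [hμ0]; ring
        rw [e1, e2]
        exact mul_le_mul_of_nonneg_right h5 (by positivity)
      have e3 : r * (c0 * (m : ℝ) ^ 2 * S.card * T.card * (a / e) / 2 ^ m) = 2 * μ0 := by
        rw [hμ0]; ring
      rw [e3] at h2
      linarith
    have hcheb := conn_cheb (offE (cubeE m) W) (offE (cubeE m) T) ps r hps0 hps1 hr0.le hr1 F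
      (fun ζ η => Finset.sum_nonneg fun z _ => hg0 z) μ0
      (r * (m * S.card * (a / e * (C1 * m) ^ 2))) hμ0p hμ
      (hvar.trans (mul_le_mul_of_nonneg_left hB' hr0.le))
    obtain ⟨hn1, hn2⟩ := conn_num a c0 c8 C1 e κ r m S.card T.card (2 ^ m) ha hc0 hc8 hC1p he hκ
      hr0 hmp hS8 hT8 hV hrm
    refine hcheb.trans (add_le_add hn1 (Real.exp_le_exp.2 (neg_le_neg ?_)))
    refine le_trans ?_ hn2
    refine mul_le_mul_of_nonneg_right ?_ (by positivity)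
    exact mul_le_mul_of_nonneg_right hcC (by positivity)

end Pool.Agent.Work.MP_b7dc8a_pr
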