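import Pool.Agent.Work.MP_b7dc8a_pr.F.Sngl
import Pool.Agent.Work.MP_b7dc8a_pr.F.Mom

/-! Module DEL (M): first and second moments of `DL`. `E = cubeE m`, regime `Reg`.

`psi_bd`: `d = dgr E a (WW E D ω G) <= m`, `(1-p)^(-d) <= (1-p)^(-m) <= 4`, `1 - (1-p)^d <= p d` (Bernoulli), so
 `0 <= psi <= h + 4 p d`.
`psi_mean`: `EG d = ∑_{z ~ a} EG (ind (z ∈ WW)) <= m C0 e` (`ww_prob`, `hM`), so `EG psi <= h + 4 p m C0 e <=
 e^2 + 8 C0 e <= 9 C0 e`.
`del_single`: `dl_single`, `sngl` with `g C = |C|^j` (`j = 1, 2`) and `f = 1`, `psi_mean`,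
 `(1-h)^(n-1) <= 2 (1-h)^n` (`h <= 1/4`): `EG DL^j <= 18 C0 e mo (offE E D) p h j a <= 18 C0^2 e^2/e^(2j) bb^j`.
`del_hit`: the same with `g C = ind (y ∈ C)`: `EG (ind (a ∈ ..) ind (y ∈ KK)) <= 18 C0 e tf (offE E D) p h a y`.
`del_set`: write `A = {a_1, ..., a_n}` (induction on `A`, `dl_add`): each step removes one vertex from
 `D' ⊆ D ∪ A`, `bb e D' <= bb e (D ∪ A)`: `EG (DL E D A) <= 18 C0^2 |A| bb e (D ∪ A)`. (`A` disjoint
 from `D`.)
`del_hitset`: for `y ∉ D ∪ A`: `ind (y ∈ WW E D) - ind (y ∈ WW E (D ∪ A)) = ∑_i (..)` by `ww_single`, so its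
 expectation is at most `∑_{a∈A} 18 C0 e sup_{D ⊆ D' ⊆ D ∪ A} tf (offE E D') p h a y`; the theorem is
 stated with a bound `t a` for these `tf`. -/

namespace Pool.Agent.Work.MP_b7dc8a_pr

open Finset

section
variable {V : Type} [Fintype V] [DecidableEq V]

omit [DecidableEq V] in
private theorem del_mono (E : Finset (Sym2 V)) (p h : ℝ) (h0 : 0 ≤ p) (h1 : p ≤ 1) (hh0 : 0 ≤ h)
    (hh1 : h ≤ 1) (F H : Finset (Sym2 V) → Finset V → ℝ) (hFH : ∀ ω G, F ω G ≤ H ω G) :
    EG E p h F ≤ EG E p h H :=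
  Ex_mono _ _ h0 h1 _ _ fun _ _ => Ex_mono _ _ hh0 hh1 _ _ fun _ _ => hFH _ _

omit [DecidableEq V] in
private theorem del_add (E : Finset (Sym2 V)) (p h : ℝ) (F H : Finset (Sym2 V) → Finset V → ℝ) :
    EG E p h (fun ω G => F ω G + H ω G) = EG E p h F + EG E p h H := by
  unfold EG
  rw [← Ex_add]
  exact Ex_congr _ _ _ _ fun ω _ => Ex_add _ _ _ _

omit [DecidableEq V] in
private theorem del_mul (E : Finset (Sym2 V)) (p h c : ℝ) (F : Finset (Sym2 V) → Finset V → ℝ) :
    EG E p h (fun ω G => c * F ω G) = c * EG E p h F := by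
  unfold EG
  rw [← Ex_mul_left]
  exact Ex_congr _ _ _ _ fun ω _ => Ex_mul_left _ _ _ _

omit [DecidableEq V] in
private theorem del_const (E : Finset (Sym2 V)) (p h c : ℝ) :
    EG E p h (fun _ _ => c) = c := by
  unfold EG
  rw [Ex_const, Ex_const]

omit [DecidableEq V] in
private theorem del_sum {ι : Type*} (I : Finset ι) (E : Finset (Sym2 V)) (p h : ℝ)
    (F : ι → Finset (Sym2 V) → Finset V → ℝ) :
    EG E p h (fun ω G => ∑ i ∈ I, F i ω G) = ∑ i ∈ I, EG E p h (F i) := by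
  unfold EG
  rw [← Ex_sum]
  exact Ex_congr _ _ _ _ fun ω _ => Ex_sum _ _ _ _

private theorem del_dgr (E : Finset (Sym2 V)) (a : V) (U : Finset V) :
    (dgr E a U : ℝ) = ∑ z, ind (s(a, z) ∈ E) * ind (z ∈ U) := by
  classical
  unfold dgr
  rw [Finset.card_filter, Nat.cast_sum, ← Finset.sum_filter_add_sum_filter_not univ (fun z => z ∈ U)]
  rw [Finset.sum_eq_zero (s := univ.filter fun z => ¬ z ∈ U) (fun z hz => by
    rw [walk_ind_neg _ (mem_filter.1 hz).2, mul_zero]), add_zero]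
  rw [Finset.filter_mem_eq_inter, Finset.univ_inter]
  refine Finset.sum_congr rfl fun z hz => ?_
  rw [walk_ind_pos _ hz, mul_one]
  unfold ind
  split_ifs <;> simp

end

private theorem del_dgr_le (m : ℕ) (a : Q m) (U : Finset (Q m)) : dgr (cubeE m) a U ≤ m := by
  have h1 : (dgr (cubeE m) a U : ℝ) ≤ m := by
    rw [del_dgr, ← nb_cube_one m a, walk_nb_ind]
    refine Finset.sum_le_sum fun z _ => ?_
    exact mul_le_mul_of_nonneg_left (xb_ind_le_one _) (xb_ind_nonneg _)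
  exact_mod_cast h1

private theorem del_diag (m : ℕ) : ∀ e ∈ cubeE m, ¬ e.IsDiag := by
  intro e he
  exact SimpleGraph.not_isDiag_of_mem_edgeFinset he

theorem psi_bd (C0 e p h : ℝ) (K m : ℕ) (R : Reg C0 K m e p h) (D : Finset (Q m)) (a : Q m)
    (ω : Finset (Sym2 (Q m))) (G : Finset (Q m)) :
    0 ≤ psi (cubeE m) p h D a ω G ∧
      psi (cubeE m) p h D a ω G ≤ h + 4 * p * dgr (cubeE m) a (WW (cubeE m) D ω G) := by
  unfold psi
  have hd := del_dgr_le m a (WW (cubeE m) D ω G)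
  generalize dgr (cubeE m) a (WW (cubeE m) D ω G) = d at hd ⊢
  have hp0 := R.hp0
  have hp1 := R.hp1
  have hq0 : (0 : ℝ) ≤ 1 - p := by linarith
  have hq1 : 1 - p ≤ 1 := by linarith
  have h1 : (1 / 4 : ℝ) ≤ (1 - p) ^ d := R.hq.trans (pow_le_pow_of_le_one hq0 hq1 hd)
  have h2 : (1 - p) ^ d ≤ 1 := pow_le_one₀ hq0 hq1
  have h3 : 1 + (d : ℝ) * (-p) ≤ (1 - p) ^ d := by
    have := one_add_mul_le_pow (a := -p) (by linarith) d
    simpa [sub_eq_add_neg] using this
  have h4 : 1 ≤ ((1 - p) ^ d)⁻¹ := (one_le_inv₀ (by linarith)).2 h2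
  have h5 : ((1 - p) ^ d)⁻¹ ≤ 4 := by
    rw [inv_le_comm₀ (by linarith) (by norm_num)]
    linarith
  have h6 : ((1 - p) ^ d)⁻¹ * (1 - p) ^ d = 1 := inv_mul_cancel₀ (by linarith)
  have hh := R.hh0
  have hdp : 0 ≤ (d : ℝ) * p := by positivity
  constructor
  · linarith
  · nlinarith

theorem psi_mean (C0 e p h : ℝ) (K m : ℕ) (R : Reg C0 K m e p h) (D : Finset (Q m)) (a : Q m) :
    EG (cubeE m) p h (psi (cubeE m) p h D a) ≤ 9 * C0 * e := by
  have hp0 := R.hp0
  have hp1 : p ≤ 1 := by linarith [R.hp1]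
  have he0 := R.he0
  have he1 := R.he1
  have hh0 := R.hh0
  have hh1 : h ≤ 1 := by nlinarith [R.hh]
  have hC0 := R.hC0
  have h1 : EG (cubeE m) p h (psi (cubeE m) p h D a) ≤
      EG (cubeE m) p h (fun ω G => h + 4 * p * ∑ z, ind (s(a, z) ∈ cubeE m) *
        ind (z ∈ WW (cubeE m) D ω G)) := by
    refine del_mono _ _ _ hp0 hp1 hh0 hh1 _ _ fun ω G => ?_
    rw [← del_dgr]
    exact (psi_bd C0 e p h K m R D a ω G).2
  have h2 : EG (cubeE m) p h (fun ω G => ∑ z, ind (s(a, z) ∈ cubeE m) *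
        ind (z ∈ WW (cubeE m) D ω G)) ≤ m * (C0 * e) := by
    rw [del_sum]
    calc ∑ z, EG (cubeE m) p h (fun ω G => ind (s(a, z) ∈ cubeE m) * ind (z ∈ WW (cubeE m) D ω G))
        ≤ ∑ z, ind (s(a, z) ∈ cubeE m) * (C0 * e) := by
          refine Finset.sum_le_sum fun z _ => ?_
          rw [del_mul]
          exact mul_le_mul_of_nonneg_left ((ww_prob _ _ _ hp0 hp1 hh0 hh1 D z).trans (R.hM z))
            (xb_ind_nonneg _)
      _ = m * (C0 * e) := by
          rw [← walk_nb_ind (cubeE m) (fun _ => C0 * e) a, ← nb_cube_one m a]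
          have := nb_iter_smul (cubeE m) 1 (C0 * e) (fun _ => 1) a
          simp only [Function.iterate_one, mul_one] at this
          rw [this, mul_comm]
  rw [del_add (cubeE m) p h (fun _ _ => h) (fun ω G => 4 * p * ∑ z, ind (s(a, z) ∈ cubeE m) *
        ind (z ∈ WW (cubeE m) D ω G)), del_const, del_mul] at h1
  have h3 := mul_le_mul_of_nonneg_left h2 (by linarith : 0 ≤ 4 * p)
  have h4 : 4 * p * (m * (C0 * e)) ≤ 8 * (C0 * e) := by
    have := mul_le_mul_of_nonneg_right R.hpm (by positivity : 0 ≤ 4 * (C0 * e))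
    linarith
  have h5 : h ≤ C0 * e := by
    have hh := R.hh
    nlinarith [mul_le_mul_of_nonneg_right hC0 he0.le]
  linarith

/-- the common step of `del_single` and `del_hit` -/
private theorem del_core (C0 e p h : ℝ) (K m : ℕ) (R : Reg C0 K m e p h) (D : Finset (Q m))
    (a : Q m) (ha : a ∉ D) (g : Finset (Q m) → ℝ) (hg : ∀ C, 0 ≤ g C) :
    EG (cubeE m) p h (fun ω G => ind (a ∈ cls (ω ∩ offE (cubeE m) D) G) *
      g (KK (cubeE m) D a ω G)) ≤
      18 * C0 * e * Ex (offE (cubeE m) D) p (fun ω' => g (cl ω' a) * (1 - h) ^ (cl ω' a).card) := by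
  have hp0 := R.hp0
  have hp1 : p < 1 := by linarith [R.hp1]
  have he0 := R.he0
  have he1 := R.he1
  have hh0 := R.hh0
  have hh1 : h ≤ 1 / 4 := by nlinarith [R.hh]
  have hC0 := R.hC0
  have h1 := sngl (cubeE m) (del_diag m) p h hp1 D a ha g (fun _ => 1)
  simp only [mul_one] at h1
  rw [h1, ← Ex_mul_left]
  refine Ex_mono _ _ hp0 hp1.le _ _ fun ω' _ => ?_
  have h2 := psi_mean C0 e p h K m R (D ∪ cl ω' a) a
  have hn : 1 ≤ (cl ω' a).card := card_pos.2 ⟨a, mem_cl_self ω' a⟩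
  obtain ⟨n, hn'⟩ : ∃ n, (cl ω' a).card = n + 1 := ⟨(cl ω' a).card - 1, by omega⟩
  rw [hn', Nat.add_sub_cancel, pow_succ]
  have h3 : 0 ≤ (1 - h) ^ n * g (cl ω' a) :=
    mul_nonneg (pow_nonneg (by linarith) _) (hg _)
  have h4 := mul_le_mul_of_nonneg_left h2 h3
  have h5 : (1 - h) ^ n * g (cl ω' a) * (9 * C0 * e) ≤
      18 * C0 * e * (g (cl ω' a) * ((1 - h) ^ n * (1 - h))) := by
    have h6 : 0 ≤ (1 - h) ^ n * g (cl ω' a) * (C0 * e) := mul_nonneg h3 (by positivity)
    nlinarith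
  exact h4.trans h5

theorem del_single (C0 e p h : ℝ) (K m : ℕ) (R : Reg C0 K m e p h) (j : ℕ) (hj : 1 ≤ j)
    (hjK : j ≤ K) (D : Finset (Q m)) (a : Q m) (ha : a ∉ D) :
    EG (cubeE m) p h (fun ω G => DL (cubeE m) D {a} ω G ^ j) ≤
      18 * C0 ^ 2 * (e ^ 2 / e ^ (2 * j)) * bb e D ^ j := by
  have h1 : (fun ω G => DL (cubeE m) D {a} ω G ^ j) = fun ω G =>
      ind (a ∈ cls (ω ∩ offE (cubeE m) D) G) * ((KK (cubeE m) D a ω G).card : ℝ) ^ j := by
    funext ω G
    rw [dl_single _ (del_diag m) D a ha, mul_pow]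
    congr 1
    unfold ind
    split_ifs
    · exact one_pow _
    · exact zero_pow (by omega)
  rw [h1]
  refine (del_core C0 e p h K m R D a ha (fun C => (C.card : ℝ) ^ j)
    (fun C => by positivity)).trans ?_
  have h2 := R.hmo j D a hj hjK
  have he0 := R.he0
  have hC0 := R.hC0
  have h3 := mul_le_mul_of_nonneg_left h2 (by positivity : 0 ≤ 18 * C0 * e)
  refine h3.trans_eq ?_
  ring

theorem del_hit (C0 e p h : ℝ) (K m : ℕ) (R : Reg C0 K m e p h) (D : Finset (Q m)) (a y : Q m)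
    (ha : a ∉ D) :
    EG (cubeE m) p h (fun ω G => ind (a ∈ cls (ω ∩ offE (cubeE m) D) G) *
      ind (y ∈ KK (cubeE m) D a ω G)) ≤ 18 * C0 * e * tf (offE (cubeE m) D) p h a y :=
  del_core C0 e p h K m R D a ha (fun C => ind (y ∈ C)) (fun _ => xb_ind_nonneg _)

theorem del_set (C0 e p h : ℝ) (K m : ℕ) (R : Reg C0 K m e p h) (hK : 1 ≤ K)
    (D A : Finset (Q m)) (hA : Disjoint A D) :
    EG (cubeE m) p h (DL (cubeE m) D A) ≤ 18 * C0 ^ 2 * A.card * bb e (D ∪ A) := by
  have he0 := R.he0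
  have hC0 := R.hC0
  have hbb : ∀ S T : Finset (Q m), S ⊆ T → bb e S ≤ bb e T := by
    intro S T hST
    unfold bb
    have : (S.card : ℝ) ≤ T.card := by exact_mod_cast card_le_card hST
    have := mul_le_mul_of_nonneg_left this (sq_nonneg e)
    linarith
  have hb0 : ∀ S : Finset (Q m), 0 ≤ bb e S := by
    intro S
    unfold bb
    positivity
  induction A using Finset.induction_on with
  | empty =>
    have : EG (cubeE m) p h (DL (cubeE m) D ∅) = EG (cubeE m) p h (fun _ _ => 0) := by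
      congr 1
      funext ω G
      unfold DL
      simp
    rw [this, del_const]
    simp
  | insert a A ha ih =>
    rw [disjoint_insert_left] at hA
    have i1 := ih hA.2
    have e1 : EG (cubeE m) p h (DL (cubeE m) D (insert a A)) =
        EG (cubeE m) p h (DL (cubeE m) D A) + EG (cubeE m) p h (DL (cubeE m) (D ∪ A) {a}) := by
      rw [← del_add]
      congr 1
      funext ω G
      rw [← dl_add _ _ _ _ (disjoint_singleton_right.2 ha)]
      congr 1
      ext z
      simp only [mem_insert, mem_union, mem_singleton]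
      exact or_comm
    have h2 := del_single C0 e p h K m R 1 le_rfl hK (D ∪ A) a (by
      rw [mem_union]
      exact fun hc => hc.elim hA.1 ha)
    simp only [pow_one, mul_one] at h2
    rw [div_self (by positivity), mul_one] at h2
    have h3 := hbb (D ∪ A) (D ∪ insert a A) (union_subset_union_right (subset_insert a A))
    rw [e1, card_insert_of_notMem ha]
    have h4 : 18 * C0 ^ 2 * A.card * bb e (D ∪ A) ≤
        18 * C0 ^ 2 * A.card * bb e (D ∪ insert a A) :=
      mul_le_mul_of_nonneg_left h3 (by positivity)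
    have h5 : 18 * C0 ^ 2 * bb e (D ∪ A) ≤ 18 * C0 ^ 2 * bb e (D ∪ insert a A) :=
      mul_le_mul_of_nonneg_left h3 (by positivity)
    push_cast
    linarith

theorem del_hitset (C0 e p h : ℝ) (K m : ℕ) (R : Reg C0 K m e p h) (D A : Finset (Q m))
    (hA : Disjoint A D) (y : Q m) (t : Q m → ℝ)
    (ht : ∀ (D' : Finset (Q m)) (a : Q m), D ⊆ D' → D' ⊆ D ∪ A → a ∈ A → a ∉ D' →
      tf (offE (cubeE m) D') p h a y ≤ t a) :
    EG (cubeE m) p h (fun ω G => ind (y ∈ WW (cubeE m) D ω G) -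
      ind (y ∈ WW (cubeE m) (D ∪ A) ω G)) ≤ 18 * C0 * e * ∑ a ∈ A, t a := by
  have he0 := R.he0
  have hC0 := R.hC0
  induction A using Finset.induction_on with
  | empty =>
    have : EG (cubeE m) p h (fun ω G => ind (y ∈ WW (cubeE m) D ω G) -
      ind (y ∈ WW (cubeE m) (D ∪ ∅) ω G)) = EG (cubeE m) p h (fun _ _ => 0) := by
      congr 1
      funext ω G
      rw [union_empty, sub_self]
    rw [this, del_const]
    simp
  | insert a A ha ih =>
    rw [disjoint_insert_left] at hA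
    have i1 := ih hA.2 (fun D' b h1 h2 h3 h4 => ht D' b h1
      (h2.trans (union_subset_union_right (subset_insert a A))) (mem_insert_of_mem h3) h4)
    have hna : a ∉ D ∪ A := by
      rw [mem_union]
      exact fun hc => hc.elim hA.1 ha
    have e1 : EG (cubeE m) p h (fun ω G => ind (y ∈ WW (cubeE m) D ω G) -
        ind (y ∈ WW (cubeE m) (D ∪ insert a A) ω G)) =
        EG (cubeE m) p h (fun ω G => ind (y ∈ WW (cubeE m) D ω G) -
        ind (y ∈ WW (cubeE m) (D ∪ A) ω G)) +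
        EG (cubeE m) p h (fun ω G => ind (a ∈ cls (ω ∩ offE (cubeE m) (D ∪ A)) G) *
          ind (y ∈ KK (cubeE m) (D ∪ A) a ω G)) := by
      rw [← del_add]
      congr 1
      funext ω G
      have h5 := ww_single (cubeE m) (del_diag m) (D ∪ A) a hna ω G y
      have h6 : D ∪ A ∪ {a} = D ∪ insert a A := by
        ext z
        simp only [mem_insert, mem_union, mem_singleton]
        tauto
      rw [h6] at h5
      linarith
    have h2 := del_hit C0 e p h K m R (D ∪ A) a y hna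
    have h3 := ht (D ∪ A) a subset_union_left (union_subset_union_right (subset_insert a A))
      (mem_insert_self a A) hna
    have h4 : 18 * C0 * e * tf (offE (cubeE m) (D ∪ A)) p h a y ≤ 18 * C0 * e * t a :=
      mul_le_mul_of_nonneg_left h3 (by positivity)
    rw [e1, sum_insert ha]
    linarith

end Pool.Agent.Work.MP_b7dc8a_pr
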