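import Pool.Agent.Work.MP_b7dc8a_pr.F.Gex

/-! Module NID (S-M): the basic identities for `N = NN E ∅` and `N_D = NN E D`.

`gid` (`x ∉ D`): `gex` with `H C ω G = f (|C| + NN E (D ∪ C) ω G)`; on `x ∉ cls (ω ∩ E_D) G` the argument is
`NN E D ω G` by `nn_step`, `nn_off`, `nn_diff`. `gidC` the same.
`nid`: `N = ∑_x ind (x ∉ cls ω G)` for `ω ⊆ E` (`D = ∅`, `offE E ∅ = E`), sum `gidC` over `x`.
`nid_mean`: `f = 1`. `nid_var`: `f n = n` : `EG N^2 = ∑_x Ex [(1-h)^|A| EG (|A| + NN A)]`,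
`A = cl ω' x`, and `(EG N)^2 = ∑_x Ex [(1-h)^|A|] EG N`; `|A| + NN A - N = DL E ∅ A`. -/

namespace Pool.Agent.Work.MP_b7dc8a_pr

open Finset

section NID
variable {V : Type} [Fintype V] [DecidableEq V]

/-- on the event, the argument is `NN E D ω G` -/
private theorem nid_arg (E : Finset (Sym2 V)) (D : Finset V) (x : V) (hx : x ∉ D)
    (ω : Finset (Sym2 V)) (G : Finset V) (h : x ∉ cls (ω ∩ offE E D) G) :
    ((cl (ω ∩ offE E D) x).card : ℝ) + NN E (D ∪ cl (ω ∩ offE E D) x)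
      (ω ∩ offE E (D ∪ cl (ω ∩ offE E D) x)) (G \ cl (ω ∩ offE E D) x) = NN E D ω G := by
  rw [nn_off, nn_diff E _ _ subset_union_right, (nn_step E D ω G x hx h).1]

theorem gid (E : Finset (Sym2 V)) (p h : ℝ) (D : Finset V) (x : V) (hx : x ∉ D) (f : ℝ → ℝ) :
    EG E p h (fun ω G => ind (x ∉ cls (ω ∩ offE E D) G) * f (NN E D ω G)) =
    Ex (offE E D) p (fun ω' => (1 - h) ^ (cl ω' x).card *
      EG E p h (fun ω G => f (((cl ω' x).card : ℝ) + NN E (D ∪ cl ω' x) ω G))) := by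
  have h1 := gex E p h D x (fun C ω G => f ((C.card : ℝ) + NN E (D ∪ C) ω G))
  have h2 : EG E p h (fun ω G => ind (x ∉ cls (ω ∩ offE E D) G) * f (NN E D ω G)) =
      EG E p h (fun ω G => ind (x ∉ cls (ω ∩ offE E D) G) *
        f (((cl (ω ∩ offE E D) x).card : ℝ) + NN E (D ∪ cl (ω ∩ offE E D) x)
      (ω ∩ offE E (D ∪ cl (ω ∩ offE E D) x)) (G \ cl (ω ∩ offE E D) x))) := by
    congr 1
    funext ω G
    by_cases hc : x ∉ cls (ω ∩ offE E D) G
    · rw [nid_arg E D x hx ω G hc]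
    · rw [ind, if_neg hc, zero_mul, zero_mul]
  have h3 : ∀ C : Finset V, EG E p h (fun ω G => f ((C.card : ℝ) + NN E (D ∪ C)
      (ω ∩ offE E (D ∪ C)) (G \ C))) =
      EG E p h (fun ω G => f ((C.card : ℝ) + NN E (D ∪ C) ω G)) := by
    intro C
    refine congrArg (EG E p h) (funext fun ω => funext fun G => ?_)
    rw [nn_off, nn_diff E _ _ subset_union_right]
  rw [h2, h1]
  refine congrArg (Ex (offE E D) p) (funext fun ω' => ?_)
  rw [h3]

theorem gidC (E : Finset (Sym2 V)) (p h : ℝ) (D : Finset V) (x : V) (hx : x ∉ D) (f : ℝ → ℂ) :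
    EGC E p h (fun ω G => (ind (x ∉ cls (ω ∩ offE E D) G) : ℂ) * f (NN E D ω G)) =
    ExC (offE E D) p (fun ω' => (((1 - h) ^ (cl ω' x).card : ℝ) : ℂ) *
      EGC E p h (fun ω G => f (((cl ω' x).card : ℝ) + NN E (D ∪ cl ω' x) ω G))) := by
  have h1 := gexC E p h D x (fun C ω G => f ((C.card : ℝ) + NN E (D ∪ C) ω G))
  have h2 : EGC E p h (fun ω G => (ind (x ∉ cls (ω ∩ offE E D) G) : ℂ) * f (NN E D ω G)) =
      EGC E p h (fun ω G => (ind (x ∉ cls (ω ∩ offE E D) G) : ℂ) *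
        f (((cl (ω ∩ offE E D) x).card : ℝ) + NN E (D ∪ cl (ω ∩ offE E D) x)
      (ω ∩ offE E (D ∪ cl (ω ∩ offE E D) x)) (G \ cl (ω ∩ offE E D) x))) := by
    refine congrArg (EGC E p h) (funext fun ω => funext fun G => ?_)
    by_cases hc : x ∉ cls (ω ∩ offE E D) G
    · rw [nid_arg E D x hx ω G hc]
    · rw [ind, if_neg hc, Complex.ofReal_zero, zero_mul, zero_mul]
  have h3 : ∀ C : Finset V, EGC E p h (fun ω G => f ((C.card : ℝ) + NN E (D ∪ C)
      (ω ∩ offE E (D ∪ C)) (G \ C))) =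
      EGC E p h (fun ω G => f ((C.card : ℝ) + NN E (D ∪ C) ω G)) := by
    intro C
    refine congrArg (EGC E p h) (funext fun ω => funext fun G => ?_)
    rw [nn_off, nn_diff E _ _ subset_union_right]
  rw [h2, h1]
  refine congrArg (ExC (offE E D) p) (funext fun ω' => ?_)
  rw [h3]

omit [DecidableEq V] in
private theorem EGC_sum {ι : Type} (I : Finset ι) (E : Finset (Sym2 V)) (p h : ℝ)
    (F : ι → Finset (Sym2 V) → Finset V → ℂ) :
    EGC E p h (fun ω G => ∑ i ∈ I, F i ω G) = ∑ i ∈ I, EGC E p h (F i) := by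
  unfold EGC
  rw [← ExC_sum]
  refine congrArg (ExC E p) (funext fun ω => ?_)
  rw [ExC_sum]

omit [DecidableEq V] in
private theorem EG_sum {ι : Type} (I : Finset ι) (E : Finset (Sym2 V)) (p h : ℝ)
    (F : ι → Finset (Sym2 V) → Finset V → ℝ) :
    EG E p h (fun ω G => ∑ i ∈ I, F i ω G) = ∑ i ∈ I, EG E p h (F i) := by
  unfold EG
  rw [← Ex_sum]
  congr 1
  funext ω
  rw [Ex_sum]

omit [DecidableEq V] in
private theorem EG_sub (E : Finset (Sym2 V)) (p h : ℝ)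
    (F F' : Finset (Sym2 V) → Finset V → ℝ) :
    EG E p h (fun ω G => F ω G - F' ω G) = EG E p h F - EG E p h F' := by
  unfold EG
  rw [← Ex_sub]
  congr 1
  funext ω
  rw [Ex_sub]

omit [DecidableEq V] in
private theorem EG_const (E : Finset (Sym2 V)) (p h c : ℝ) :
    EG E p h (fun _ _ => c) = c := by
  unfold EG
  rw [Ex_const, Ex_const]

private theorem nn_ind (E : Finset (Sym2 V)) (ω : Finset (Sym2 V)) (G : Finset V) :
    NN E ∅ ω G = ∑ x, ind (x ∉ cls (ω ∩ offE E ∅) G) := by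
  classical
  unfold NN
  rw [← nsmul_one, ← Finset.sum_const]
  rw [Finset.sum_filter]
  refine Finset.sum_congr rfl fun x _ => ?_
  by_cases hx : x ∉ cls (ω ∩ offE E ∅) G
  · rw [if_pos ⟨notMem_empty x, hx⟩, ind, if_pos hx]
  · rw [if_neg fun h => hx h.2, ind, if_neg hx]

theorem nid (E : Finset (Sym2 V)) (p h : ℝ) (f : ℝ → ℂ) :
    EGC E p h (fun ω G => ((NN E ∅ ω G : ℝ) : ℂ) * f (NN E ∅ ω G)) =
    ∑ x, ExC E p (fun ω' => (((1 - h) ^ (cl ω' x).card : ℝ) : ℂ) *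
      EGC E p h (fun ω G => f (NN E ∅ ω G + DL E ∅ (cl ω' x) ω G))) := by
  have h1 : EGC E p h (fun ω G => ((NN E ∅ ω G : ℝ) : ℂ) * f (NN E ∅ ω G)) =
      EGC E p h (fun ω G => ∑ x, (ind (x ∉ cls (ω ∩ offE E ∅) G) : ℂ) * f (NN E ∅ ω G)) := by
    refine congrArg (EGC E p h) (funext fun ω => funext fun G => ?_)
    rw [← Finset.sum_mul, ← Complex.ofReal_sum, ← nn_ind]
  rw [h1, EGC_sum]
  refine Finset.sum_congr rfl fun x _ => ?_
  have h3 : ∀ C : Finset V, EGC E p h (fun ω G => f ((C.card : ℝ) + NN E (∅ ∪ C) ω G)) =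
      EGC E p h (fun ω G => f (NN E ∅ ω G + DL E ∅ C ω G)) := by
    intro C
    refine congrArg (EGC E p h) (funext fun ω => funext fun G => ?_)
    have h4 : (C.card : ℝ) + NN E (∅ ∪ C) ω G = NN E ∅ ω G + DL E ∅ C ω G := by
      unfold DL
      ring
    rw [h4]
  rw [gidC E p h ∅ x (notMem_empty x) f, xb_offE_empty]
  refine congrArg (ExC E p) (funext fun ω' => ?_)
  rw [h3]

theorem nid_mean (E : Finset (Sym2 V)) (p h : ℝ) :
    EG E p h (NN E ∅) = ∑ x, Ex E p (fun ω' => (1 - h) ^ (cl ω' x).card) := by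
  have h1 : EG E p h (NN E ∅) = EG E p h (fun ω G => ∑ x, ind (x ∉ cls (ω ∩ offE E ∅) G) * 1) := by
    congr 1
    funext ω G
    rw [← Finset.sum_mul, mul_one, ← nn_ind]
  rw [h1, EG_sum]
  refine Finset.sum_congr rfl fun x _ => ?_
  have h2 := gid E p h ∅ x (notMem_empty x) (fun _ => 1)
  rw [xb_offE_empty] at h2 ⊢
  rw [h2]
  congr 1
  funext ω'
  rw [EG_const, mul_one]

theorem nid_var (E : Finset (Sym2 V)) (p h : ℝ) :
    EG E p h (fun ω G => NN E ∅ ω G ^ 2) - EG E p h (NN E ∅) ^ 2 =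
      ∑ x, Ex E p (fun ω' => (1 - h) ^ (cl ω' x).card * EG E p h (DL E ∅ (cl ω' x))) := by
  have h1 : EG E p h (fun ω G => NN E ∅ ω G ^ 2) =
      EG E p h (fun ω G => ∑ x, ind (x ∉ cls (ω ∩ offE E ∅) G) * NN E ∅ ω G) := by
    congr 1
    funext ω G
    rw [← Finset.sum_mul, sq, ← nn_ind]
  have h2 : EG E p h (NN E ∅) ^ 2 = ∑ x, Ex E p (fun ω' => (1 - h) ^ (cl ω' x).card *
      EG E p h (NN E ∅)) := by
    rw [sq]
    nth_rewrite 1 [nid_mean]
    rw [Finset.sum_mul]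
    refine Finset.sum_congr rfl fun x _ => ?_
    rw [mul_comm, ← Ex_mul_left]
    congr 1
    funext ω'
    ring
  rw [h1, h2, EG_sum, ← Finset.sum_sub_distrib]
  refine Finset.sum_congr rfl fun x _ => ?_
  have h3 := gid E p h ∅ x (notMem_empty x) (fun n => n)
  rw [xb_offE_empty] at h3 ⊢
  have h5 : ∀ C : Finset V, EG E p h (DL E ∅ C) =
      EG E p h (fun ω G => (C.card : ℝ) + NN E (∅ ∪ C) ω G) - EG E p h (NN E ∅) := by
    intro C
    rw [← EG_sub]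
    rfl
  rw [h3, ← Ex_sub]
  congr 1
  funext ω'
  rw [← mul_sub, h5]

end NID

end Pool.Agent.Work.MP_b7dc8a_pr
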