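import Pool.Agent.Work.MP_b7dc8a_pr.F.Seq
import Pool.Agent.Work.MP_b7dc8a_pr.F.Del
import Pool.Agent.Work.MP_b7dc8a_pr.F.Nid

/-! Module D2B (M): variance of `N = NN E ∅`, and `Δ = DL E ∅ A` on the bad event. `E = cubeE m`, `V = 2^m`,
`b = bb e A`, `w = e^3 V >= 1`.

`varn_up`: `nid_var`, `del_set` with `D = ∅`, `mob` with `D = ∅`, `k = j = 1` (`bb e ∅ = 1`):
 `V * 18 C0^2 * 2 C0/e`.
`d2_bad` (`A` nonempty; for `A = ∅` both sides are `0`): let `Q = 123 TN + 60 RU E p A (WW E A)/V`, `F` the event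
 `1 <= 4 Q (120 |A|/V)`. `Δ = |WW ∅| - |WW A| <= |WW ∅|` (`dl_eq`), and `|WW ∅| = V - N` (`nn_total`), so with
 `μ = EG |WW ∅| <= V C0 e` (`ww_prob`): `EG [Δ; F] <= μ P(F) + EG [| |WW ∅| - μ |; F] <=
 V C0 e P(F) + sqrt (Var N * P(F))`. Markov: `P(F) <= EG (480 |A| Q/V)^4 <=
 (480 |A|/V)^4 * 8 ((123 TN)^4 + 60^4 EG [RU^4]/V^4)`, `EG [RU^4] <= EG [SD^4]` (`seq_jens`, `Ψ = 1`, `k = 4`)
 `<= C (V/e)^4 b^8` (`seq_one`), `TN <= 1/e`: `P(F) <= C y^4 b^8` with `y = |A|/(V e) = |A| e^2/w <= b/w`.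
 `V e y^4 b^8 <= V e y^2 (b/w)^2 b^8`, `V e y^2 = |A| (|A| e^2) w/w^2 <= |A| b/w`;
 `sqrt (V/e * y^4 b^8) = sqrt (V/e) y^2 b^4`, `sqrt (V/e) y^2 = |A| (|A| e^2) sqrt (V e^3)/w^2 <=
 |A| b/w^(3/2)`. So `EG [Δ; F] <= C |A| b^11/w`. -/

namespace Pool.Agent.Work.MP_b7dc8a_pr

open Finset

section
variable {V : Type} [Fintype V] [DecidableEq V]

omit [DecidableEq V] in
private theorem d2b_mono (E : Finset (Sym2 V)) (p h : ℝ) (h0 : 0 ≤ p) (h1 : p ≤ 1) (hh0 : 0 ≤ h)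
    (hh1 : h ≤ 1) (F H : Finset (Sym2 V) → Finset V → ℝ) (hFH : ∀ ω G, F ω G ≤ H ω G) :
    EG E p h F ≤ EG E p h H :=
  Ex_mono _ _ h0 h1 _ _ fun _ _ => Ex_mono _ _ hh0 hh1 _ _ fun _ _ => hFH _ _

omit [DecidableEq V] in
private theorem d2b_add (E : Finset (Sym2 V)) (p h : ℝ) (F H : Finset (Sym2 V) → Finset V → ℝ) :
    EG E p h (fun ω G => F ω G + H ω G) = EG E p h F + EG E p h H := by
  unfold EG
  rw [← Ex_add]
  exact Ex_congr _ _ _ _ fun ω _ => Ex_add _ _ _ _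

omit [DecidableEq V] in
private theorem d2b_mul (E : Finset (Sym2 V)) (p h c : ℝ) (F : Finset (Sym2 V) → Finset V → ℝ) :
    EG E p h (fun ω G => c * F ω G) = c * EG E p h F := by
  unfold EG
  rw [← Ex_mul_left]
  exact Ex_congr _ _ _ _ fun ω _ => Ex_mul_left _ _ _ _

omit [DecidableEq V] in
private theorem d2b_const (E : Finset (Sym2 V)) (p h c : ℝ) :
    EG E p h (fun _ _ => c) = c := by
  unfold EG
  rw [Ex_const, Ex_const]

omit [DecidableEq V] in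
private theorem d2b_sum {ι : Type*} (I : Finset ι) (E : Finset (Sym2 V)) (p h : ℝ)
    (F : ι → Finset (Sym2 V) → Finset V → ℝ) :
    EG E p h (fun ω G => ∑ i ∈ I, F i ω G) = ∑ i ∈ I, EG E p h (F i) := by
  unfold EG
  rw [← Ex_sum]
  exact Ex_congr _ _ _ _ fun ω _ => Ex_sum _ _ _ _

end

private theorem d2b_bb0 (m : ℕ) (e : ℝ) : bb e (∅ : Finset (Q m)) = 1 := by
  unfold bb
  simp

theorem varn_up (C0 e p h : ℝ) (K m : ℕ) (R : Reg C0 K m e p h) (hK : 2 ≤ K) :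
    EG (cubeE m) p h (fun ω G => NN (cubeE m) ∅ ω G ^ 2) - EG (cubeE m) p h (NN (cubeE m) ∅) ^ 2 ≤
      36 * C0 ^ 3 * 2 ^ m / e := by
  have hp0 := R.hp0
  have hp1 : p ≤ 1 := by linarith [R.hp1]
  have he0 := R.he0
  have he1 := R.he1
  have hh0 := R.hh0
  have hh1 : h ≤ 1 := by nlinarith [R.hh]
  have hC0 := R.hC0
  rw [nid_var]
  have hx : ∀ x : Q m, Ex (cubeE m) p (fun ω' => (1 - h) ^ (cl ω' x).card *
      EG (cubeE m) p h (DL (cubeE m) ∅ (cl ω' x))) ≤ 18 * C0 ^ 2 * (2 * C0 * (1 / e)) := by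
    intro x
    have q2 := mob m K C0 e p h hC0 he0 (by linarith) hp0 hp1 hh0 hh1 R.hmo 1 1 (by omega) ∅ x
    rw [if_neg one_ne_zero, d2b_bb0, xb_offE_empty, one_pow, mul_one] at q2
    have q4 : (2 : ℝ) ^ 1 * C0 * (e / e ^ (2 * 1)) = 2 * C0 * (1 / e) := by
      field_simp
    rw [q4] at q2
    refine le_trans ?_ (mul_le_mul_of_nonneg_left q2 (by positivity : 0 ≤ 18 * C0 ^ 2))
    rw [← Ex_mul_left]
    refine Ex_mono _ _ hp0 hp1 _ _ fun ω' _ => ?_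
    have h1 := del_set C0 e p h K m R (by omega) ∅ (cl ω' x) (disjoint_empty_right _)
    have h2 : 0 ≤ (1 - h) ^ (cl ω' x).card := pow_nonneg (by linarith) _
    refine (mul_le_mul_of_nonneg_left h1 h2).trans_eq ?_
    ring
  refine (Finset.sum_le_sum fun x _ => hx x).trans_eq ?_
  rw [Finset.sum_const, nsmul_eq_mul, Finset.card_univ]
  have : ((Fintype.card (Q m) : ℕ) : ℝ) = 2 ^ m := by
    simp [Q]
  rw [this]
  ring

private theorem d2b_prob (C0 : ℝ) : ∃ C : ℝ, 1 ≤ C ∧ ∀ (m K : ℕ) (e p h : ℝ),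
    Reg C0 K m e p h → 9 ≤ K → TN m * e ≤ 1 → ∀ A : Finset (Q m),
    EG (cubeE m) p h (fun ω G =>
      ind (1 ≤ 4 * (123 * TN m + 60 * RU (cubeE m) p A (WW (cubeE m) A ω G) / 2 ^ m) *
        (120 * A.card / 2 ^ m))) ≤ C * (A.card / (2 ^ m * e)) ^ 4 * bb e A ^ 8 := by
  obtain ⟨C4, hC4, hs⟩ := seq_one 4 C0
  refine ⟨480 ^ 4 * (8 * (123 ^ 4 + 60 ^ 4 * C4)), by nlinarith, ?_⟩
  intro m K e p h R hK hT A
  have hp0 := R.hp0
  have hp1 : p ≤ 1 := by linarith [R.hp1]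
  have he0 := R.he0
  have he1 := R.he1
  have hh0 := R.hh0
  have hh1 : h ≤ 1 := by nlinarith [R.hh]
  have hb1 : 1 ≤ bb e A := by
    unfold bb
    have : 0 ≤ e ^ 2 * (A.card : ℝ) := by positivity
    linarith
  have hV0 : (0 : ℝ) < 2 ^ m := by positivity
  have hRU : ∀ ω G, 0 ≤ RU (cubeE m) p A (WW (cubeE m) A ω G) := by
    intro ω G
    unfold RU
    exact Finset.sum_nonneg fun z _ => zero_le_one.trans (xb_chi_ge_one _ _ hp0 hp1 z)
  have h1 := hs m K e p h R (by omega) A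
  have h2 := seq_jens m (cubeE m) p h hp0 hp1 hh0 hh1 4 A (fun _ => 1) (fun _ => zero_le_one)
  simp only [mul_one] at h2
  have h3 := h2.trans h1
  have h4 : EG (cubeE m) p h (fun ω G =>
      ind (1 ≤ 4 * (123 * TN m + 60 * RU (cubeE m) p A (WW (cubeE m) A ω G) / 2 ^ m) *
        (120 * A.card / 2 ^ m))) ≤ EG (cubeE m) p h (fun ω G =>
      (480 * A.card / 2 ^ m) ^ 4 * (8 * (123 * TN m) ^ 4) +
      (480 * A.card / 2 ^ m) ^ 4 * (8 * (60 / 2 ^ m) ^ 4) *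
        RU (cubeE m) p A (WW (cubeE m) A ω G) ^ 4) := by
    refine d2b_mono _ _ _ hp0 hp1 hh0 hh1 _ _ fun ω G => ?_
    have hR := hRU ω G
    generalize RU (cubeE m) p A (WW (cubeE m) A ω G) = r at hR ⊢
    have k1 : (123 * (TN m : ℝ) + 60 * r / 2 ^ m) ^ 4 ≤
        8 * ((123 * (TN m : ℝ)) ^ 4 + (60 * r / 2 ^ m) ^ 4) := by
      have := add_pow_le (a := 123 * (TN m : ℝ)) (b := 60 * r / 2 ^ m) (by positivity)
        (by positivity) 4
      norm_num at this ⊢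
      exact this
    have k2 := mul_le_mul_of_nonneg_left k1
      (by positivity : (0 : ℝ) ≤ (480 * A.card / 2 ^ m) ^ 4)
    have k3 : ind (1 ≤ 4 * (123 * TN m + 60 * r / 2 ^ m) * (120 * A.card / 2 ^ m)) ≤
        (480 * A.card / 2 ^ m) ^ 4 * (123 * (TN m : ℝ) + 60 * r / 2 ^ m) ^ 4 := by
      have e1 : (480 * A.card / 2 ^ m) ^ 4 * (123 * (TN m : ℝ) + 60 * r / 2 ^ m) ^ 4 =
          (4 * (123 * TN m + 60 * r / 2 ^ m) * (120 * A.card / 2 ^ m)) ^ 4 := by ring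
      rw [e1]
      by_cases hz : 1 ≤ 4 * (123 * (TN m : ℝ) + 60 * r / 2 ^ m) * (120 * A.card / 2 ^ m)
      · rw [walk_ind_pos _ hz]
        exact one_le_pow₀ hz
      · rw [walk_ind_neg _ hz]
        positivity
    refine k3.trans (k2.trans_eq ?_)
    ring
  refine h4.trans ?_
  rw [d2b_add, d2b_const, d2b_mul]
  have k4 : (TN m : ℝ) ^ 4 ≤ (1 / e) ^ 4 := by
    refine pow_le_pow_left₀ (Nat.cast_nonneg _) ?_ 4
    rw [le_div_iff₀ he0]
    exact hT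
  have k5 := mul_le_mul_of_nonneg_left h3
    (by positivity : (0 : ℝ) ≤ (480 * A.card / 2 ^ m) ^ 4 * (8 * (60 / 2 ^ m) ^ 4))
  have k6 : (480 * (A.card : ℝ) / 2 ^ m) ^ 4 * (8 * (123 * TN m) ^ 4) ≤
      480 ^ 4 * (8 * 123 ^ 4) * (A.card / (2 ^ m * e)) ^ 4 * bb e A ^ 8 := by
    have q1 : (480 * (A.card : ℝ) / 2 ^ m) ^ 4 * (8 * (123 * TN m) ^ 4) =
        480 ^ 4 * (8 * 123 ^ 4) * (A.card / 2 ^ m) ^ 4 * (TN m : ℝ) ^ 4 := by ring
    rw [q1]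
    have q2 := mul_le_mul_of_nonneg_left k4
      (by positivity : (0 : ℝ) ≤ 480 ^ 4 * (8 * 123 ^ 4) * (A.card / 2 ^ m) ^ 4)
    refine q2.trans ?_
    have q3 : 480 ^ 4 * (8 * 123 ^ 4) * ((A.card : ℝ) / 2 ^ m) ^ 4 * (1 / e) ^ 4 =
        480 ^ 4 * (8 * 123 ^ 4) * (A.card / (2 ^ m * e)) ^ 4 * 1 := by
      field_simp
    rw [q3]
    exact mul_le_mul_of_nonneg_left (one_le_pow₀ hb1) (by positivity)
  have k7 : (480 * (A.card : ℝ) / 2 ^ m) ^ 4 * (8 * (60 / 2 ^ m) ^ 4) *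
      (C4 * (2 ^ m / e) ^ 4 * bb e A ^ (2 * 4)) =
      480 ^ 4 * (8 * (60 ^ 4 * C4)) * (A.card / (2 ^ m * e)) ^ 4 * bb e A ^ 8 := by
    field_simp
  rw [k7] at k5
  refine (add_le_add k6 k5).trans_eq ?_
  ring

private theorem d2b_num (C0 Cp a e V b w : ℝ) (hC0 : 1 ≤ C0) (hCp : 0 ≤ Cp) (ha : 0 < a)
    (he0 : 0 < e) (hV : 0 < V) (hb1 : 1 ≤ b) (hab : e ^ 2 * a ≤ b)
    (hw : w = e ^ 3 * V) (hw1 : 1 ≤ w) :
    V * (C0 * e) * (Cp * (a / (V * e)) ^ 4 * b ^ 8) +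
      ((a * b ^ 11 / w * (e / V)) / 2 * (36 * C0 ^ 3 * V / e) +
        (Cp * (a / (V * e)) ^ 4 * b ^ 8) / (2 * (a * b ^ 11 / w * (e / V)))) ≤
      (C0 * Cp + 18 * C0 ^ 3 + Cp) * (a * b ^ 11 / w) := by
  have hw0 : 0 < w := by linarith
  have hb0 : 0 < b := by linarith
  -- first
  have f1 : V * (C0 * e) * (Cp * (a / (V * e)) ^ 4 * b ^ 8) ≤ C0 * Cp * (a * b ^ 11 / w) := by
    have e1 : V * (C0 * e) * (Cp * (a / (V * e)) ^ 4 * b ^ 8) =
        C0 * Cp * (a * b ^ 8 * (e ^ 2 * a) ^ 3 / w ^ 3) := by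
      rw [hw]
      field_simp
    rw [e1]
    refine mul_le_mul_of_nonneg_left ?_ (by positivity)
    have g1 : (e ^ 2 * a) ^ 3 ≤ b ^ 3 := pow_le_pow_left₀ (by positivity) hab 3
    calc a * b ^ 8 * (e ^ 2 * a) ^ 3 / w ^ 3 ≤ a * b ^ 8 * b ^ 3 / w := by
          refine div_le_div₀ (by positivity) (mul_le_mul_of_nonneg_left g1 (by positivity)) hw0 ?_
          exact le_self_pow₀ hw1 (by norm_num)
      _ = a * b ^ 11 / w := by ring
  have f2 : (a * b ^ 11 / w * (e / V)) / 2 * (36 * C0 ^ 3 * V / e) =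
      18 * C0 ^ 3 * (a * b ^ 11 / w) := by
    field_simp
    ring
  have f3 : (Cp * (a / (V * e)) ^ 4 * b ^ 8) / (2 * (a * b ^ 11 / w * (e / V))) ≤
      Cp * (a * b ^ 11 / w) := by
    rw [div_le_iff₀ (by positivity)]
    have e1 : Cp * (a * b ^ 11 / w) * (2 * (a * b ^ 11 / w * (e / V))) =
        Cp * (2 * a ^ 2 * b ^ 22 * e / (V * w ^ 2)) := by
      field_simp
    have e2 : Cp * (a / (V * e)) ^ 4 * b ^ 8 =
        Cp * (a ^ 2 * b ^ 8 * (e ^ 2 * a) ^ 2 * e / (V * w ^ 2)) * (1 / (w)) := by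
      rw [hw]
      field_simp
    rw [e1, e2]
    have g1 : (e ^ 2 * a) ^ 2 ≤ b ^ 2 := pow_le_pow_left₀ (by positivity) hab 2
    have g2 : 1 / w ≤ 1 := by
      rw [div_le_iff₀ hw0]
      linarith
    have g3 : a ^ 2 * b ^ 8 * (e ^ 2 * a) ^ 2 * e / (V * w ^ 2) ≤
        2 * a ^ 2 * b ^ 22 * e / (V * w ^ 2) := by
      refine div_le_div_of_nonneg_right ?_ (by positivity)
      have g4 : b ^ 8 * b ^ 2 ≤ b ^ 22 := by
        rw [← pow_add]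
        exact pow_le_pow_right₀ hb1 (by norm_num)
      calc a ^ 2 * b ^ 8 * (e ^ 2 * a) ^ 2 * e ≤ a ^ 2 * b ^ 8 * b ^ 2 * e := by gcongr
        _ = a ^ 2 * (b ^ 8 * b ^ 2) * e := by ring
        _ ≤ a ^ 2 * b ^ 22 * e := by gcongr
        _ ≤ 2 * a ^ 2 * b ^ 22 * e := by
          have : 0 ≤ a ^ 2 * b ^ 22 * e := by positivity
          linarith
    calc Cp * (a ^ 2 * b ^ 8 * (e ^ 2 * a) ^ 2 * e / (V * w ^ 2)) * (1 / w)
        ≤ Cp * (a ^ 2 * b ^ 8 * (e ^ 2 * a) ^ 2 * e / (V * w ^ 2)) * 1 :=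
          mul_le_mul_of_nonneg_left g2 (by positivity)
      _ ≤ Cp * (2 * a ^ 2 * b ^ 22 * e / (V * w ^ 2)) * 1 := by
          rw [mul_one, mul_one]
          exact mul_le_mul_of_nonneg_left g3 hCp
      _ = _ := mul_one _
  rw [f2]
  linarith

theorem d2_bad (C0 : ℝ) : ∃ C : ℝ, 1 ≤ C ∧ ∀ (m K : ℕ) (e p h : ℝ),
    Reg C0 K m e p h → 9 ≤ K → TN m * e ≤ 1 → ∀ A : Finset (Q m),
    EG (cubeE m) p h (fun ω G => DL (cubeE m) ∅ A ω G *
      ind (1 ≤ 4 * (123 * TN m + 60 * RU (cubeE m) p A (WW (cubeE m) A ω G) / 2 ^ m) *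
        (120 * A.card / 2 ^ m))) ≤ C * A.card * bb e A ^ 11 / (e ^ 3 * 2 ^ m) := by
  by_cases hC : 1 ≤ C0
  swap
  · exact ⟨1, le_rfl, fun m K e p h R => absurd R.hC0 hC⟩
  obtain ⟨Cp, hCp, hP⟩ := d2b_prob C0
  refine ⟨C0 * Cp + 18 * C0 ^ 3 + Cp, ?_, ?_⟩
  · have : 0 ≤ C0 * Cp := by positivity
    have : 0 ≤ C0 ^ 3 := by positivity
    linarith
  intro m K e p h R hK hT A
  have hp0 := R.hp0
  have hp1 : p ≤ 1 := by linarith [R.hp1]
  have he0 := R.he0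
  have he1 := R.he1
  have hh0 := R.hh0
  have hh1 : h ≤ 1 := by nlinarith [R.hh]
  have hC0 := R.hC0
  have hb1 : 1 ≤ bb e A := by
    unfold bb
    have : 0 ≤ e ^ 2 * (A.card : ℝ) := by positivity
    linarith
  have hV0 : (0 : ℝ) < 2 ^ m := by positivity
  rcases A.eq_empty_or_nonempty with hA | hA
  · have : (fun (ω : Finset (Sym2 (Q m))) (G : Finset (Q m)) => DL (cubeE m) ∅ A ω G *
      ind (1 ≤ 4 * (123 * TN m + 60 * RU (cubeE m) p A (WW (cubeE m) A ω G) / 2 ^ m) *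
        (120 * A.card / 2 ^ m))) = fun _ _ => 0 := by
      funext ω G
      rw [hA]
      unfold DL
      simp
    rw [this, d2b_const, hA]
    simp
  have hA0 : (0 : ℝ) < A.card := by exact_mod_cast card_pos.2 hA
  have hPF := hP m K e p h R hK hT A
  set F : Finset (Sym2 (Q m)) → Finset (Q m) → ℝ := fun ω G =>
    ind (1 ≤ 4 * (123 * TN m + 60 * RU (cubeE m) p A (WW (cubeE m) A ω G) / 2 ^ m) *
        (120 * A.card / 2 ^ m)) with hF
  have hF0 : ∀ ω G, 0 ≤ F ω G := fun ω G => xb_ind_nonneg _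
  have hF1 : ∀ ω G, F ω G ≤ 1 := fun ω G => xb_ind_le_one _
  set μN := EG (cubeE m) p h (NN (cubeE m) ∅) with hμN
  -- mean of `2^m - N`
  have hcardV : ((Fintype.card (Q m) : ℕ) : ℝ) = 2 ^ m := by
    simp [Q]
  have hμ : 2 ^ m - μN ≤ 2 ^ m * (C0 * e) := by
    have e1 : 2 ^ m - μN = EG (cubeE m) p h (fun ω G => ∑ z, ind (z ∈ WW (cubeE m) ∅ ω G)) := by
      have e2 : (fun (ω : Finset (Sym2 (Q m))) (G : Finset (Q m)) =>
          ∑ z, ind (z ∈ WW (cubeE m) ∅ ω G)) = fun ω G => 2 ^ m + -1 * NN (cubeE m) ∅ ω G := by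
        funext ω G
        have h1 := nn_total (cubeE m) ∅ ω G
        have h2 : ∑ z, ind (z ∈ WW (cubeE m) ∅ ω G) = ((WW (cubeE m) ∅ ω G).card : ℝ) := by
          calc ∑ z, ind (z ∈ WW (cubeE m) ∅ ω G) =
              ∑ z ∈ WW (cubeE m) ∅ ω G, ind (z ∈ WW (cubeE m) ∅ ω G) :=
                (Finset.sum_subset (subset_univ _) fun z _ hz => walk_ind_neg _ hz).symm
            _ = ∑ _z ∈ WW (cubeE m) ∅ ω G, (1 : ℝ) :=
                Finset.sum_congr rfl fun z hz => walk_ind_pos _ hz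
            _ = _ := by simp
        rw [h2]
        rw [hcardV, card_empty, Nat.cast_zero] at h1
        linarith
      rw [e2, d2b_add, d2b_const, d2b_mul]
      ring
    rw [e1, d2b_sum]
    calc ∑ z, EG (cubeE m) p h (fun ω G => ind (z ∈ WW (cubeE m) ∅ ω G))
        ≤ ∑ _z : Q m, C0 * e :=
          Finset.sum_le_sum fun z _ => (ww_prob _ _ _ hp0 hp1 hh0 hh1 ∅ z).trans (R.hM z)
      _ = 2 ^ m * (C0 * e) := by
          rw [Finset.sum_const, nsmul_eq_mul, Finset.card_univ, hcardV]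
  set Z := (A.card : ℝ) * bb e A ^ 11 / (e ^ 3 * 2 ^ m) with hZ
  have hZ0 : 0 < Z := by positivity
  set lam := Z * (e / 2 ^ m) with hlam
  have hlam0 : 0 < lam := by positivity
  -- pointwise bound
  have h1 : EG (cubeE m) p h (fun ω G => DL (cubeE m) ∅ A ω G * F ω G) ≤
      EG (cubeE m) p h (fun ω G => ((2 ^ m - μN) * F ω G + 1 / (2 * lam) * F ω G) +
        lam / 2 * (NN (cubeE m) ∅ ω G - μN) ^ 2) := by
    refine d2b_mono _ _ _ hp0 hp1 hh0 hh1 _ _ fun ω G => ?_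
    have g1 := dl_eq (cubeE m) ∅ A (disjoint_empty_right _) ω G
    have g2 := nn_total (cubeE m) ∅ ω G
    rw [hcardV, card_empty, Nat.cast_zero] at g2
    have g3 : (0 : ℝ) ≤ (WW (cubeE m) (∅ ∪ A) ω G).card := Nat.cast_nonneg _
    have g4 : DL (cubeE m) ∅ A ω G ≤ (2 ^ m - μN) + (μN - NN (cubeE m) ∅ ω G) := by linarith
    have g5 := mul_le_mul_of_nonneg_right g4 (hF0 ω G)
    have g6 : (μN - NN (cubeE m) ∅ ω G) * F ω G ≤ 1 / (2 * lam) * F ω G +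
        lam / 2 * (NN (cubeE m) ∅ ω G - μN) ^ 2 := by
      set X := NN (cubeE m) ∅ ω G - μN with hX
      have e1 : μN - NN (cubeE m) ∅ ω G = -X := by rw [hX]; ring
      rw [e1]
      have q1 : F ω G ^ 2 ≤ F ω G := by nlinarith [hF0 ω G, hF1 ω G]
      have q2 : 0 ≤ (lam * X + F ω G) ^ 2 := sq_nonneg _
      have q3 : 1 / (2 * lam) * F ω G + lam / 2 * X ^ 2 - -X * F ω G =
          1 / (2 * lam) * ((lam * X + F ω G) ^ 2 + (F ω G - F ω G ^ 2)) := by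
        field_simp
        ring
      have q4 : 0 ≤ 1 / (2 * lam) * ((lam * X + F ω G) ^ 2 + (F ω G - F ω G ^ 2)) := by
        have : 0 ≤ (lam * X + F ω G) ^ 2 + (F ω G - F ω G ^ 2) := by linarith
        positivity
      linarith
    linarith
  have hvar : EG (cubeE m) p h (fun ω G => (NN (cubeE m) ∅ ω G - μN) ^ 2) ≤
      36 * C0 ^ 3 * 2 ^ m / e := by
    refine le_trans (le_of_eq ?_) (varn_up C0 e p h K m R (by omega))
    have e1 : (fun (ω : Finset (Sym2 (Q m))) (G : Finset (Q m)) =>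
        (NN (cubeE m) ∅ ω G - μN) ^ 2) = fun ω G =>
        (NN (cubeE m) ∅ ω G ^ 2 + -2 * μN * NN (cubeE m) ∅ ω G) + μN ^ 2 := by
      funext ω G
      ring
    rw [e1, d2b_add, d2b_add, d2b_const, d2b_mul]
    ring
  rw [d2b_add, d2b_add, d2b_mul, d2b_mul, d2b_mul] at h1
  have hEF0 : 0 ≤ EG (cubeE m) p h F := by
    have := d2b_mono (cubeE m) p h hp0 hp1 hh0 hh1 (fun _ _ => 0) F hF0
    rwa [d2b_const] at this
  have h2 := mul_le_mul_of_nonneg_right hμ hEF0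
  have h3 := mul_le_mul_of_nonneg_left hPF (by positivity : 0 ≤ 2 ^ m * (C0 * e))
  have h4 := mul_le_mul_of_nonneg_left hvar (by positivity : 0 ≤ lam / 2)
  have h5 := mul_le_mul_of_nonneg_left hPF (by positivity : 0 ≤ 1 / (2 * lam))
  have hab : e ^ 2 * (A.card : ℝ) ≤ bb e A := by
    unfold bb
    linarith
  have h6 := d2b_num C0 Cp A.card e (2 ^ m) (bb e A) (e ^ 3 * 2 ^ m) hC0 (by linarith) hA0 he0
    hV0 hb1 hab rfl R.hV
  have e2 : (C0 * Cp + 18 * C0 ^ 3 + Cp) * A.card * bb e A ^ 11 / (e ^ 3 * 2 ^ m) =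
      (C0 * Cp + 18 * C0 ^ 3 + Cp) * Z := by
    rw [hZ]
    ring
  rw [e2]
  rw [← hZ, ← hlam] at h6
  have e3 : (Cp * (A.card / (2 ^ m * e)) ^ 4 * bb e A ^ 8) / (2 * lam) =
      1 / (2 * lam) * (Cp * (A.card / (2 ^ m * e)) ^ 4 * bb e A ^ 8) := by ring
  rw [e3] at h6
  linarith

end Pool.Agent.Work.MP_b7dc8a_pr
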