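import Pool.Agent.Work.MP_b7dc8a_pr.F.Gex

/-! Module GA (M-L): second moment of `DL E ∅ A` given `WW E A`.

`cls2`: `|cls ω B|^2 = ∑_{z,z'} ind (z ∈ cls ω B) ind (z' ∈ cls ω B)`. Pairs with `z' ∈ cl ω z`: the sum is
 `∑_{clusters K meeting B} |K|^2 <= ∑_{b∈B} |cl ω b|^2`, expectation `<= |B| X^3` (`b_second`). Pairs with
 `z' ∉ cl ω z`: exploring `cl ω z` (`b_mark_cl`) the expectation is at most
 `∑_{z,z'} P(z ∈ cls ω B) P(z' ∈ cls ω B)` (the event `z' ∈ cls ω B`, `z' ∉ cl ω z` only depends on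
 `ω ∩ offE E (cl ω z)`, where the probability is smaller) `= (Ex |cls ω B|)^2 <= (|B| X)^2`.
`cls1`: `Ex |cls ω B| <= |B| X`.
`ga`: `U = WW E A ω G`, `S = cls (ω ∩ offE E A) G`, `Ag = {a ∈ A : a ∈ G or s(a,z) ∈ ω for some z ∈ U}`.
 For `ω ⊆ E`: `DL E ∅ A ω G = |cls (ω ∩ offE E U) Ag|` (`dl_eq`: it is the number of vertices of
 `WW E ∅ \ WW E A`; a vertex `z ∉ U` is connected to `G` iff it is connected in `ω ∩ offE E U` to a vertex
 of `A` which is a ghost or adjacent to `U` by an open edge: take the last vertex of the path outside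
 `U ∪ ...`; ghosts outside `A` all lie in `U`).
 Split `ω` into: `ω ∩ offE E A`; the edges touching `A`. By `b_mark` (`E' = offE E A`, `S = G`; `H` may depend
 on `ω \ offE E (cls (ω ∩ E') G)`) the edges of `offE E (cls (ω ∩ E') G)` are fresh given `U`, `G` and the
 edges between `A` and `U`. (Careful: `cls (ω ∩ E') G = U ∪ (G ∩ A)`; to have the edges at the ghosts in `A`
 fresh as well, apply `b_mark` with `S = G \ A`, `cls (ω ∩ E') (G \ A) = U`.) The sets `G ∩ A`, the edges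
 `A`-`U`, and `ω ∩ offE E U` are independent given `U`. So with `X = X U`:
 `E[DL^2 | U] <= E[|Ag|^2 | U] X^2 + E[|Ag| | U] X^3`, the events `a ∈ Ag` are independent given `U` with
 probability `1 - (1-h)(1-p)^(dgr E a U) <= h + p dgr E a U`, so `E[|Ag| | U] <= SA E p h A U` and
 `E[|Ag|^2 | U] <= SA^2 + SA`. -/

namespace Pool.Agent.Work.MP_b7dc8a_pr

open Finset

section GA
variable {V : Type} [Fintype V] [DecidableEq V]

theorem cls1 (E : Finset (Sym2 V)) (p : ℝ) (h0 : 0 ≤ p) (h1 : p ≤ 1) (X : ℝ)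
    (hX : ∀ x, chi E p x ≤ X) (B : Finset V) :
    Ex E p (fun ω => ((cls ω B).card : ℝ)) ≤ B.card * X := by
  have hsub : ∀ ω : Finset (Sym2 V), ((cls ω B).card : ℝ) ≤ ∑ b ∈ B, ((cl ω b).card : ℝ) := by
    intro ω
    have h2 : cls ω B ⊆ B.biUnion (fun b => cl ω b) := by
      intro y hy
      rw [xb_mem_cls] at hy
      obtain ⟨x, hx, hxy⟩ := hy
      exact Finset.mem_biUnion.2 ⟨x, hx, hxy⟩
    have h3 := (Finset.card_le_card h2).trans Finset.card_biUnion_le
    exact_mod_cast h3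
  refine (Ex_mono E p h0 h1 _ _ fun ω _ => hsub ω).trans ?_
  rw [Ex_sum, ← nsmul_eq_mul, ← Finset.sum_const]
  exact Finset.sum_le_sum fun b _ => hX b

theorem cls2 (E : Finset (Sym2 V)) (p : ℝ) (h0 : 0 ≤ p) (h1 : p ≤ 1) (X : ℝ)
    (hX : ∀ x, chi E p x ≤ X) (B : Finset V) :
    Ex E p (fun ω => ((cls ω B).card : ℝ) ^ 2) ≤ (B.card * X) ^ 2 + B.card * X ^ 3 := by
  induction B using Finset.induction_on generalizing E with
  | empty =>
    have h2 : ∀ ω : Finset (Sym2 V), cls ω ∅ = ∅ := by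
      intro ω
      rw [Finset.eq_empty_iff_forall_notMem]
      intro y hy
      rw [xb_mem_cls] at hy
      obtain ⟨x, hx, -⟩ := hy
      exact absurd hx (Finset.notMem_empty x)
    simp only [h2, Finset.card_empty, Nat.cast_zero, zero_mul]
    rw [Ex_const]
    norm_num
  | insert b B hb ih =>
    have hX1 : 1 ≤ X := (xb_chi_ge_one E p h0 h1 b).trans (hX b)
    have key : ∀ ω ⊆ E, ((cls ω (insert b B)).card : ℝ) ≤
        (cl ω b).card + (cls (ω ∩ offE E (cl ω b)) B).card := by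
      intro ω hω
      have h2 : cls ω (insert b B) ⊆ cl ω b ∪ cls (ω ∩ offE E (cl ω b)) B := by
        intro y hy
        rw [xb_mem_cls] at hy
        obtain ⟨x, hx, hxy⟩ := hy
        rw [Finset.mem_union]
        by_cases hxb : x ∈ cl ω b
        · left
          rwa [cl_eq_of_mem ω b x hxb] at hxy
        · right
          have hxB : x ∈ B := by
            rcases Finset.mem_insert.1 hx with h | h
            · exact absurd (h ▸ mem_cl_self ω b) hxb
            · exact h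
          rw [xb_mem_cls]
          refine ⟨x, hxB, ?_⟩
          have h3 := (xb_cl_outside E ω hω {b} x (by rwa [cls_singleton])).1
          rw [cls_singleton] at h3
          rwa [h3]
      have h4 := (Finset.card_le_card h2).trans (Finset.card_union_le _ _)
      exact_mod_cast h4
    have e1 : Ex E p (fun ω => ((cls ω (insert b B)).card : ℝ) ^ 2) ≤
        Ex E p (fun ω => (((cl ω b).card : ℝ) + (cls (ω ∩ offE E (cl ω b)) B).card) ^ 2) :=
      Ex_mono E p h0 h1 _ _ fun ω hω => pow_le_pow_left₀ (Nat.cast_nonneg _) (key ω hω) 2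
    have e2 := b_mark_cl E b p (fun K _ η => ((K.card : ℝ) + (cls η B).card) ^ 2)
    beta_reduce at e2
    rw [e2] at e1
    have e3 : ∀ ω ⊆ E, Ex (offE E (cl ω b)) p (fun η =>
        (((cl ω b).card : ℝ) + (cls η B).card) ^ 2) ≤
        ((cl ω b).card : ℝ) ^ 2 + 2 * (B.card * X) * (cl ω b).card +
          ((B.card * X) ^ 2 + B.card * X ^ 3) := by
      intro ω _
      have hX' : ∀ x, chi (offE E (cl ω b)) p x ≤ X := fun x =>
        (xb_chi_mono_E E _ (xb_offE_subset _ _) p h0 h1 x).trans (hX x)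
      have f1 := cls1 (offE E (cl ω b)) p h0 h1 X hX' B
      have f2 := ih (offE E (cl ω b)) hX'
      have f3 : ∀ η : Finset (Sym2 V), (((cl ω b).card : ℝ) + (cls η B).card) ^ 2 =
          ((cl ω b).card : ℝ) ^ 2 + (2 * ((cl ω b).card : ℝ) * (cls η B).card +
            ((cls η B).card : ℝ) ^ 2) := fun η => by ring
      simp only [f3]
      rw [Ex_add, Ex_const, Ex_add, Ex_mul_left]
      have f4 : 0 ≤ 2 * ((cl ω b).card : ℝ) := by positivity
      have f5 := mul_le_mul_of_nonneg_left f1 f4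
      linarith
    have e4 := e1.trans (Ex_mono E p h0 h1 _ _ e3)
    rw [Ex_add, Ex_const, Ex_add, Ex_mul_left] at e4
    have e5 := b_second E p h0 h1 X hX b
    have e6 : Ex E p (fun ω => ((cl ω b).card : ℝ)) ≤ X := hX b
    have e7 : 0 ≤ 2 * ((B.card : ℝ) * X) := by positivity
    have e8 := mul_le_mul_of_nonneg_left e6 e7
    rw [Finset.card_insert_of_notMem hb]
    push_cast
    nlinarith

private theorem ga_split {α : Type} [DecidableEq α] (E F : Finset α) (hF : F ⊆ E) (p : ℝ)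
    (G : Finset α → Finset α → ℝ) :
    Ex E p (fun ω => G (ω ∩ F) (ω \ F)) = Ex F p (fun ω₁ => Ex (E \ F) p (fun ω₂ => G ω₁ ω₂)) := by
  have h1 : E = F ∪ (E \ F) := (Finset.union_sdiff_of_subset hF).symm
  conv_lhs => rw [h1]
  rw [Ex_union _ _ Finset.disjoint_sdiff]
  refine Ex_congr _ _ _ _ fun ω₁ hω₁ => Ex_congr _ _ _ _ fun ω₂ hω₂ => ?_
  have hd : ∀ x ∈ ω₂, x ∉ F := fun x hx => (Finset.mem_sdiff.1 (hω₂ hx)).2
  have e1 : (ω₁ ∪ ω₂) ∩ F = ω₁ := by
    ext x
    rw [Finset.mem_inter, Finset.mem_union]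
    constructor
    · rintro ⟨h | h, h'⟩
      · exact h
      · exact absurd h' (hd x h)
    · exact fun h => ⟨Or.inl h, hω₁ h⟩
  have e2 : (ω₁ ∪ ω₂) \ F = ω₂ := by
    ext x
    rw [Finset.mem_sdiff, Finset.mem_union]
    constructor
    · rintro ⟨h | h, h'⟩
      · exact absurd (hω₁ h) h'
      · exact h
    · exact fun h => ⟨Or.inr h, hd x h⟩
  rw [e1, e2]

private theorem ga_m1 {α : Type} [DecidableEq α] (B : Finset α) (p : ℝ) :
    Ex B p (fun ω => (ω.card : ℝ)) = p * B.card := by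
  induction B using Finset.induction_on with
  | empty => rw [Ex_empty]; simp
  | insert e B he ih =>
    rw [Ex_insert e B he, ih]
    have h2 : Ex B p (fun ω => ((insert e ω).card : ℝ)) = Ex B p (fun ω => (ω.card : ℝ) + 1) := by
      refine Ex_congr _ _ _ _ fun ω hω => ?_
      rw [Finset.card_insert_of_notMem fun h => he (hω h)]
      push_cast
      ring
    rw [h2, Ex_add, Ex_const, ih, Finset.card_insert_of_notMem he]
    push_cast
    ring

private theorem ga_m2 {α : Type} [DecidableEq α] (B : Finset α) (p : ℝ) :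
    Ex B p (fun ω => (ω.card : ℝ) ^ 2) ≤ (p * B.card) ^ 2 + p * B.card := by
  induction B using Finset.induction_on with
  | empty => rw [Ex_empty]; simp
  | insert e B he ih =>
    rw [Ex_insert e B he]
    have h2 : Ex B p (fun ω => ((insert e ω).card : ℝ) ^ 2) =
        Ex B p (fun ω => (ω.card : ℝ) ^ 2 + (2 * (ω.card : ℝ) + 1)) := by
      refine Ex_congr _ _ _ _ fun ω hω => ?_
      rw [Finset.card_insert_of_notMem fun h => he (hω h)]
      push_cast
      ring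
    rw [h2, Ex_add, Ex_add, Ex_const, Ex_mul_left, ga_m1, Finset.card_insert_of_notMem he]
    push_cast
    nlinarith [sq_nonneg p]

private theorem ga_pair {α β : Type} [DecidableEq α] [DecidableEq β] (B : Finset α) (A : Finset β)
    (p h : ℝ) :
    Ex B p (fun ω => Ex A h (fun G => ((G.card : ℝ) + ω.card))) = h * A.card + p * B.card ∧
    Ex B p (fun ω => Ex A h (fun G => ((G.card : ℝ) + ω.card) ^ 2)) ≤
      (h * A.card + p * B.card) ^ 2 + (h * A.card + p * B.card) := by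
  constructor
  · have e1 : ∀ ω : Finset α, Ex A h (fun G => ((G.card : ℝ) + ω.card)) = h * A.card + ω.card := by
      intro ω
      rw [Ex_add, Ex_const, ga_m1]
    simp only [e1]
    rw [Ex_add, Ex_const, ga_m1]
  · have e1 : ∀ ω : Finset α, Ex A h (fun G => ((G.card : ℝ) + ω.card) ^ 2) =
        Ex A h (fun G => (G.card : ℝ) ^ 2) + (2 * (h * A.card) * ω.card + (ω.card : ℝ) ^ 2) := by
      intro ω
      have e2 : ∀ G : Finset β, ((G.card : ℝ) + ω.card) ^ 2 = (G.card : ℝ) ^ 2 +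
          (2 * (ω.card : ℝ) * G.card + (ω.card : ℝ) ^ 2) := fun G => by ring
      simp only [e2]
      rw [Ex_add, Ex_add, Ex_mul_left, Ex_const, ga_m1]
      ring
    simp only [e1]
    rw [Ex_add, Ex_const, Ex_add, Ex_mul_left, ga_m1]
    have h3 := ga_m2 A h
    have h4 := ga_m2 B p
    nlinarith

open Classical in
private noncomputable def gaE (E : Finset (Sym2 V)) (A U : Finset V) : Finset (Sym2 V) :=
  A.biUnion fun a => (U.filter fun z => s(a, z) ∈ E).image fun z => s(a, z)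

open Classical in
private noncomputable def gaT (A U : Finset V) (ω : Finset (Sym2 V)) (G : Finset V) : Finset V :=
  A.filter fun a => a ∈ G ∨ ∃ z ∈ U, s(a, z) ∈ ω

private theorem gaE_mem (E : Finset (Sym2 V)) (A U : Finset V) (e : Sym2 V) :
    e ∈ gaE E A U ↔ ∃ a ∈ A, ∃ z ∈ U, s(a, z) ∈ E ∧ s(a, z) = e := by
  unfold gaE
  simp only [Finset.mem_biUnion, Finset.mem_image, Finset.mem_filter]
  constructor
  · rintro ⟨a, ha, z, ⟨hz, hz'⟩, h⟩
    exact ⟨a, ha, z, hz, hz', h⟩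
  · rintro ⟨a, ha, z, hz, hz', h⟩
    exact ⟨a, ha, z, ⟨hz, hz'⟩, h⟩

private theorem gaE_card (E : Finset (Sym2 V)) (A U : Finset V) :
    ((gaE E A U).card : ℝ) ≤ ∑ a ∈ A, (dgr E a U : ℝ) := by
  classical
  have h1 : (gaE E A U).card ≤ ∑ a ∈ A, dgr E a U := by
    unfold gaE
    refine Finset.card_biUnion_le.trans (Finset.sum_le_sum fun a _ => ?_)
    refine Finset.card_image_le.trans (le_of_eq ?_)
    unfold dgr
    congr
  exact_mod_cast h1

private theorem gaE_sub (E : Finset (Sym2 V)) (A U : Finset V) : gaE E A U ⊆ E \ offE E A := by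
  intro e he
  rw [gaE_mem] at he
  obtain ⟨a, ha, z, hz, h1, rfl⟩ := he
  rw [Finset.mem_sdiff]
  exact ⟨h1, fun h2 => ((xb_mem_offE E A a z).1 h2).2.1 ha⟩

omit [Fintype V] in
private theorem gaT_mem (A U : Finset V) (ω : Finset (Sym2 V)) (G : Finset V) (a : V) :
    a ∈ gaT A U ω G ↔ a ∈ A ∧ (a ∈ G ∨ ∃ z ∈ U, s(a, z) ∈ ω) := by
  unfold gaT
  rw [Finset.mem_filter]

private theorem gaT_card (E : Finset (Sym2 V)) (A U : Finset V) (hAU : Disjoint A U)
    (ω : Finset (Sym2 V)) (hω : ω ⊆ E) (G : Finset V) :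
    ((gaT A U ω G).card : ℝ) ≤ ((G ∩ A).card : ℝ) + ((ω \ offE E A) ∩ gaE E A U).card := by
  classical
  set T2 : Finset V := A.filter fun a => ∃ z ∈ U, s(a, z) ∈ ω with hT2
  have h1 : gaT A U ω G ⊆ (G ∩ A) ∪ T2 := by
    intro a ha
    rw [gaT_mem] at ha
    rw [Finset.mem_union, Finset.mem_inter, hT2, Finset.mem_filter]
    rcases ha with ⟨h, h' | h'⟩
    · exact Or.inl ⟨h', h⟩
    · exact Or.inr ⟨h, h'⟩
  have h2 : T2.card ≤ ((ω \ offE E A) ∩ gaE E A U).card := by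
    have hch : ∀ a ∈ T2, ∃ z ∈ U, s(a, z) ∈ ω := fun a ha => (Finset.mem_filter.1 ha).2
    let f : V → Sym2 V := fun a => if h : ∃ z ∈ U, s(a, z) ∈ ω then s(a, h.choose) else s(a, a)
    have hf : ∀ a ∈ T2, ∃ z ∈ U, s(a, z) ∈ ω ∧ f a = s(a, z) := by
      intro a ha
      have h3 := hch a ha
      refine ⟨h3.choose, h3.choose_spec.1, h3.choose_spec.2, ?_⟩
      show (if h : ∃ z ∈ U, s(a, z) ∈ ω then s(a, h.choose) else s(a, a)) = _
      rw [dif_pos h3]
    refine Finset.card_le_card_of_injOn f ?_ ?_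
    · intro a ha
      obtain ⟨z, hz, hzω, hfa⟩ := hf a ha
      have haA := (Finset.mem_filter.1 ha).1
      have h5 : s(a, z) ∈ (ω \ offE E A) ∩ gaE E A U := by
        rw [Finset.mem_inter, Finset.mem_sdiff, gaE_mem]
        exact ⟨⟨hzω, fun h4 => ((xb_mem_offE E A a z).1 h4).2.1 haA⟩, a, haA, z, hz, hω hzω, rfl⟩
      rw [← hfa] at h5
      exact h5
    · intro a ha a' ha' haa'
      obtain ⟨z, hz, hzω, hfa⟩ := hf a ha
      obtain ⟨z', hz', hzω', hfa'⟩ := hf a' ha'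
      have haA := (Finset.mem_filter.1 ha).1
      have haA' := (Finset.mem_filter.1 ha').1
      rw [hfa, hfa', Sym2.eq_iff] at haa'
      rcases haa' with ⟨h, -⟩ | ⟨h, -⟩
      · exact h
      · exact absurd hz' (Finset.disjoint_left.1 hAU (h ▸ haA))
  have h3 := (Finset.card_le_card h1).trans (Finset.card_union_le _ _)
  have h4 : (gaT A U ω G).card ≤ (G ∩ A).card + ((ω \ offE E A) ∩ gaE E A U).card := by omega
  exact_mod_cast h4

private theorem gaT_off (E : Finset (Sym2 V)) (A U : Finset V) (ω : Finset (Sym2 V)) (G : Finset V) :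
    gaT A U (ω \ offE E U) G = gaT A U ω G := by
  ext a
  rw [gaT_mem, gaT_mem]
  refine and_congr_right fun _ => or_congr_right ?_
  constructor
  · rintro ⟨z, hz, h⟩
    exact ⟨z, hz, (Finset.mem_sdiff.1 h).1⟩
  · rintro ⟨z, hz, h⟩
    exact ⟨z, hz, Finset.mem_sdiff.2 ⟨h, fun h' => ((xb_mem_offE E U a z).1 h').2.2 hz⟩⟩

private theorem ga_U (E : Finset (Sym2 V)) (A : Finset V) (ω : Finset (Sym2 V)) (G : Finset V) :
    WW E A ω G = cls (ω ∩ offE E A) (G \ A) := by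
  ext z
  rw [ww_mem, xb_mem_cls, xb_mem_cls]
  constructor
  · rintro ⟨hzA, x, hx, hxz⟩
    refine ⟨x, Finset.mem_sdiff.2 ⟨hx, fun hxA => ?_⟩, hxz⟩
    rw [xb_cl_off E (ω ∩ offE E A) A Finset.inter_subset_right x hxA, Finset.mem_singleton] at hxz
    exact hzA (hxz ▸ hxA)
  · rintro ⟨x, hx, hxz⟩
    rw [Finset.mem_sdiff] at hx
    exact ⟨Finset.disjoint_left.1 (xb_cl_off' E (ω ∩ offE E A) A Finset.inter_subset_right x hx.2) hxz,
      x, hx.1, hxz⟩

private theorem ga_disj (E : Finset (Sym2 V)) (A : Finset V) (ω : Finset (Sym2 V))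
    (hω : ω ⊆ offE E A) (G : Finset V) (hG : Disjoint G A) : Disjoint A (cls ω G) := by
  rw [Finset.disjoint_right]
  intro z hz
  rw [xb_mem_cls] at hz
  obtain ⟨x, hx, hxz⟩ := hz
  exact Finset.disjoint_left.1 (xb_cl_off' E ω A hω x (Finset.disjoint_left.1 hG hx)) hxz

private theorem ga_dl (E : Finset (Sym2 V)) (A : Finset V) (ω : Finset (Sym2 V)) (hω : ω ⊆ E)
    (G : Finset V) : DL E ∅ A ω G ≤
      ((cls (ω ∩ offE E (WW E A ω G)) (gaT A (WW E A ω G) ω G)).card : ℝ) := by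
  set U := WW E A ω G with hU
  rw [dl_eq E ∅ A (Finset.disjoint_empty_right A), Finset.empty_union, ← hU]
  set R := cls (ω ∩ offE E U) (gaT A U ω G) with hR
  have hmemU : ∀ z, z ∈ U ↔ z ∉ A ∧ z ∈ cls (ω ∩ offE E A) G := fun z => ww_mem E A ω G z
  have hTR : gaT A U ω G ⊆ R := subset_cls _ _
  have hstep : ∀ x ∈ U, ∀ y, s(x, y) ∈ ω → y ∈ U ∪ R := by
    intro x hx y hxy
    rw [Finset.mem_union]
    by_cases hyA : y ∈ A
    · right
      refine hTR ?_
      rw [gaT_mem]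
      exact ⟨hyA, Or.inr ⟨x, hx, by rw [Sym2.eq_swap]; exact hxy⟩⟩
    · left
      rw [hmemU] at hx ⊢
      refine ⟨hyA, xb_cls_closed _ _ x y hx.2 ?_⟩
      rw [Finset.mem_inter, xb_mem_offE]
      exact ⟨hxy, hω hxy, hx.1, hyA⟩
  have h1 : WW E ∅ ω G ⊆ U ∪ R := by
    intro z hz
    rw [ww_mem, xb_mem_cls] at hz
    obtain ⟨-, g, hg, hgz⟩ := hz
    rw [xb_offE_empty, Finset.inter_eq_left.2 hω, clb_mem_cl] at hgz
    refine clb_closed ω {v | v ∈ U ∪ R} ?_ g z ?_ hgz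
    · intro x hx y hxy
      rw [Set.mem_setOf_eq] at hx ⊢
      by_cases hxU : x ∈ U
      · exact hstep x hxU y hxy
      · have hxR : x ∈ R := by
          rcases Finset.mem_union.1 hx with h | h
          · exact absurd h hxU
          · exact h
        rw [Finset.mem_union]
        by_cases hyU : y ∈ U
        · exact Or.inl hyU
        · right
          refine xb_cls_closed _ _ x y hxR ?_
          rw [Finset.mem_inter, xb_mem_offE]
          exact ⟨hxy, hω hxy, hxU, hyU⟩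
    · rw [Set.mem_setOf_eq, Finset.mem_union]
      by_cases hgA : g ∈ A
      · right
        refine hTR ?_
        rw [gaT_mem]
        exact ⟨hgA, Or.inl hg⟩
      · left
        rw [hmemU]
        exact ⟨hgA, subset_cls _ _ hg⟩
  have h2 : ((WW E ∅ ω G).card : ℝ) ≤ U.card + R.card := by
    exact_mod_cast (Finset.card_le_card h1).trans (Finset.card_union_le _ _)
  linarith

private theorem ga_reorder (E : Finset (Sym2 V)) (p h : ℝ) (A : Finset V)
    (K : Finset (Sym2 V) → Finset (Sym2 V) → Finset V → Finset V → ℝ) :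
    EG E p h (fun ω G => K (ω ∩ offE E A) (ω \ offE E A) (G ∩ A) (G \ A)) =
      Ex (offE E A) p (fun ω1 => Ex (univ \ A) h (fun G2 => Ex (E \ offE E A) p (fun ω2 =>
        Ex A h (fun G1 => K ω1 ω2 G1 G2)))) := by
  unfold EG
  have e1 : ∀ ω : Finset (Sym2 V), Ex (univ : Finset V) h (fun G =>
      K (ω ∩ offE E A) (ω \ offE E A) (G ∩ A) (G \ A)) =
      Ex A h (fun G1 => Ex (univ \ A) h (fun G2 => K (ω ∩ offE E A) (ω \ offE E A) G1 G2)) :=
    fun ω => ga_split univ A (Finset.subset_univ A) h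
      (fun G1 G2 => K (ω ∩ offE E A) (ω \ offE E A) G1 G2)
  simp only [e1]
  rw [ga_split E (offE E A) (xb_offE_subset E A) p (fun ω1 ω2 => Ex A h (fun G1 =>
    Ex (univ \ A) h (fun G2 => K ω1 ω2 G1 G2)))]
  refine Ex_congr _ _ _ _ fun ω1 _ => ?_
  have e2 : ∀ ω2 : Finset (Sym2 V), Ex A h (fun G1 => Ex (univ \ A) h (fun G2 => K ω1 ω2 G1 G2)) =
      Ex (univ \ A) h (fun G2 => Ex A h (fun G1 => K ω1 ω2 G1 G2)) := fun ω2 =>
    xb_Ex_swap A (univ \ A) h h (fun G1 G2 => K ω1 ω2 G1 G2)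
  simp only [e2]
  exact xb_Ex_swap (E \ offE E A) (univ \ A) p h (fun ω2 G2 => Ex A h (fun G1 => K ω1 ω2 G1 G2))

private theorem ga_step (E : Finset (Sym2 V)) (p h : ℝ) (h0 : 0 ≤ p) (h1 : p ≤ 1)
    (hh0 : 0 ≤ h) (hh1 : h ≤ 1) (A : Finset V) (Ψ c1 c2 : Finset V → ℝ) (hΨ : ∀ W, 0 ≤ Ψ W) (j : ℕ)
    (hc : ∀ W, Disjoint A W → Ψ W ≠ 0 → 0 ≤ c1 W ∧ 0 ≤ c2 W ∧ ∀ B : Finset V,
      Ex (offE E W) p (fun η => ((cls η B).card : ℝ) ^ j) ≤ c1 W * B.card + c2 W * (B.card : ℝ) ^ 2) :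
    EG E p h (fun ω G => DL E ∅ A ω G ^ j * Ψ (WW E A ω G)) ≤
      EG E p h (fun ω G => Ψ (WW E A ω G) * (c1 (WW E A ω G) * SA E p h A (WW E A ω G) +
        c2 (WW E A ω G) * (SA E p h A (WW E A ω G) ^ 2 + SA E p h A (WW E A ω G)))) := by
  -- the function after the first step
  set K : Finset (Sym2 V) → Finset (Sym2 V) → Finset V → Finset V → ℝ := fun ω1 ω2 G1 G2 =>
    Ψ (cls ω1 G2) * (c1 (cls ω1 G2) * ((G1.card : ℝ) + (ω2 ∩ gaE E A (cls ω1 G2)).card) +
      c2 (cls ω1 G2) * ((G1.card : ℝ) + (ω2 ∩ gaE E A (cls ω1 G2)).card) ^ 2) with hK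
  have s1 : EG E p h (fun ω G => DL E ∅ A ω G ^ j * Ψ (WW E A ω G)) ≤
      EG E p h (fun ω G => K (ω ∩ offE E A) (ω \ offE E A) (G ∩ A) (G \ A)) := by
    unfold EG
    rw [xb_Ex_swap E univ p h (fun ω G => DL E ∅ A ω G ^ j * Ψ (WW E A ω G)),
      xb_Ex_swap E univ p h (fun ω G => K (ω ∩ offE E A) (ω \ offE E A) (G ∩ A) (G \ A))]
    refine Ex_mono _ _ hh0 hh1 _ _ fun G _ => ?_
    set H : Finset V → Finset (Sym2 V) → Finset (Sym2 V) → ℝ := fun W ω1 η =>
      Ψ W * ((cls η (gaT A W ω1 G)).card : ℝ) ^ j with hH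
    have t1 : Ex E p (fun ω => DL E ∅ A ω G ^ j * Ψ (WW E A ω G)) ≤
        Ex E p (fun ω => H (cls (ω ∩ offE E A) (G \ A))
          (ω \ offE E (cls (ω ∩ offE E A) (G \ A))) (ω ∩ offE E (cls (ω ∩ offE E A) (G \ A)))) := by
      refine Ex_mono _ _ h0 h1 _ _ fun ω hω => ?_
      rw [hH]
      beta_reduce
      rw [← ga_U, gaT_off, mul_comm]
      refine mul_le_mul_of_nonneg_left ?_ (hΨ _)
      exact pow_le_pow_left₀ (dl_nonneg E ∅ A ω G) (ga_dl E A ω hω G) j
    refine t1.trans ?_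
    rw [b_mark E (offE E A) (xb_offE_subset E A) (G \ A) p H]
    refine Ex_mono _ _ h0 h1 _ _ fun ω hω => ?_
    rw [hH]
    beta_reduce
    rw [Ex_mul_left]
    show _ ≤ Ψ (cls (ω ∩ offE E A) (G \ A)) * _
    set W := cls (ω ∩ offE E A) (G \ A) with hW
    by_cases hΨW : Ψ W = 0
    · rw [hΨW, zero_mul, zero_mul]
    refine mul_le_mul_of_nonneg_left ?_ (hΨ W)
    have hAW : Disjoint A W := ga_disj E A _ Finset.inter_subset_right (G \ A) Finset.sdiff_disjoint
    obtain ⟨k1, k2, k3⟩ := hc W hAW hΨW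
    refine (k3 _).trans ?_
    rw [gaT_off]
    have t2 := gaT_card E A W hAW ω hω G
    have t3 : (0 : ℝ) ≤ (gaT A W ω G).card := Nat.cast_nonneg _
    exact add_le_add (mul_le_mul_of_nonneg_left t2 k1)
      (mul_le_mul_of_nonneg_left (pow_le_pow_left₀ t3 t2 2) k2)
  refine s1.trans ?_
  rw [ga_reorder]
  set K2 : Finset (Sym2 V) → Finset (Sym2 V) → Finset V → Finset V → ℝ := fun ω1 _ω2 _G1 G2 =>
    Ψ (cls ω1 G2) * (c1 (cls ω1 G2) * SA E p h A (cls ω1 G2) +
      c2 (cls ω1 G2) * (SA E p h A (cls ω1 G2) ^ 2 + SA E p h A (cls ω1 G2))) with hK2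
  have s2 : EG E p h (fun ω G => Ψ (WW E A ω G) * (c1 (WW E A ω G) * SA E p h A (WW E A ω G) +
        c2 (WW E A ω G) * (SA E p h A (WW E A ω G) ^ 2 + SA E p h A (WW E A ω G)))) =
      EG E p h (fun ω G => K2 (ω ∩ offE E A) (ω \ offE E A) (G ∩ A) (G \ A)) := by
    unfold EG
    refine Ex_congr _ _ _ _ fun ω _ => Ex_congr _ _ _ _ fun G _ => ?_
    rw [hK2]
    beta_reduce
    rw [ga_U]
  rw [s2, ga_reorder E p h A K2]
  refine Ex_mono _ _ h0 h1 _ _ fun ω1 hω1 => Ex_mono _ _ hh0 hh1 _ _ fun G2 hG2 => ?_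
  set W := cls ω1 G2 with hW
  have hAW : Disjoint A W := ga_disj E A ω1 hω1 G2
    (Finset.disjoint_left.2 fun x hx => (Finset.mem_sdiff.1 (hG2 hx)).2)
  have r1 : Ex (E \ offE E A) p (fun ω2 => Ex A h (fun G1 => K2 ω1 ω2 G1 G2)) =
      Ψ W * (c1 W * SA E p h A W + c2 W * (SA E p h A W ^ 2 + SA E p h A W)) := by
    rw [hK2]
    simp only [Ex_const]
    rfl
  rw [r1]
  have r2 : Ex (E \ offE E A) p (fun ω2 => Ex A h (fun G1 => K ω1 ω2 G1 G2)) =
      Ψ W * (c1 W * Ex (E \ offE E A) p (fun ω2 => Ex A h (fun G1 =>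
        (G1.card : ℝ) + (ω2 ∩ gaE E A W).card)) +
      c2 W * Ex (E \ offE E A) p (fun ω2 => Ex A h (fun G1 =>
        ((G1.card : ℝ) + (ω2 ∩ gaE E A W).card) ^ 2))) := by
    rw [← Ex_mul_left, ← Ex_mul_left, ← Ex_add, ← Ex_mul_left]
    refine Ex_congr _ _ _ _ fun ω2 _ => ?_
    rw [← Ex_mul_left, ← Ex_mul_left, ← Ex_add, ← Ex_mul_left]
  rw [r2]
  by_cases hΨW : Ψ W = 0
  · rw [hΨW, zero_mul, zero_mul]
  refine mul_le_mul_of_nonneg_left ?_ (hΨ W)
  obtain ⟨k1, k2, -⟩ := hc W hAW hΨW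
  rw [Ex_restrict (E \ offE E A) (gaE E A W) (gaE_sub E A W) p
    (fun ω2 => Ex A h (fun G1 => (G1.card : ℝ) + ω2.card)),
    Ex_restrict (E \ offE E A) (gaE E A W) (gaE_sub E A W) p
    (fun ω2 => Ex A h (fun G1 => ((G1.card : ℝ) + ω2.card) ^ 2))]
  obtain ⟨q1, q2⟩ := ga_pair (gaE E A W) A p h
  have q3 : h * A.card + p * (gaE E A W).card ≤ SA E p h A W := by
    unfold SA
    rw [Finset.sum_add_distrib, Finset.sum_const, nsmul_eq_mul, ← Finset.mul_sum, mul_comm h]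
    exact add_le_add le_rfl (mul_le_mul_of_nonneg_left (gaE_card E A W) h0)
  have q4 : 0 ≤ h * A.card + p * (gaE E A W).card := by positivity
  rw [q1]
  refine add_le_add (mul_le_mul_of_nonneg_left q3 k1) (mul_le_mul_of_nonneg_left ?_ k2)
  exact q2.trans (add_le_add (pow_le_pow_left₀ q4 q3 2) q3)

theorem ga1 (E : Finset (Sym2 V)) (hE : ∀ e ∈ E, ¬ e.IsDiag) (p h : ℝ) (h0 : 0 ≤ p) (h1 : p ≤ 1)
    (hh0 : 0 ≤ h) (hh1 : h ≤ 1) (A : Finset V) (Ψ X : Finset V → ℝ) (hΨ : ∀ W, 0 ≤ Ψ W)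
    (hX : ∀ W, Disjoint A W → Ψ W ≠ 0 → ∀ x, chi (offE E W) p x ≤ X W) :
    EG E p h (fun ω G => DL E ∅ A ω G * Ψ (WW E A ω G)) ≤
      EG E p h (fun ω G => Ψ (WW E A ω G) * (SA E p h A (WW E A ω G) * X (WW E A ω G))) := by
  rcases A.eq_empty_or_nonempty with hA | ⟨a, ha⟩
  · subst hA
    refine le_of_eq ?_
    unfold EG
    refine Ex_congr _ _ _ _ fun ω _ => Ex_congr _ _ _ _ fun G _ => ?_
    simp [DL, SA]
  · have h2 := ga_step E p h h0 h1 hh0 hh1 A Ψ X (fun _ => 0) hΨ 1 (fun W hW hΨW => by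
      have hX' := hX W hW hΨW
      refine ⟨(zero_le_one.trans (xb_chi_ge_one _ p h0 h1 a)).trans (hX' a), le_rfl, fun B => ?_⟩
      have h3 := cls1 (offE E W) p h0 h1 (X W) hX' B
      simp only [pow_one]
      rw [zero_mul, add_zero, mul_comm]
      exact h3)
    simp only [pow_one] at h2
    refine h2.trans (le_of_eq ?_)
    unfold EG
    refine Ex_congr _ _ _ _ fun ω _ => Ex_congr _ _ _ _ fun G _ => ?_
    ring

theorem ga2 (E : Finset (Sym2 V)) (hE : ∀ e ∈ E, ¬ e.IsDiag) (p h : ℝ) (h0 : 0 ≤ p) (h1 : p ≤ 1)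
    (hh0 : 0 ≤ h) (hh1 : h ≤ 1) (A : Finset V) (Ψ X : Finset V → ℝ) (hΨ : ∀ W, 0 ≤ Ψ W)
    (hX : ∀ W, Disjoint A W → Ψ W ≠ 0 → ∀ x, chi (offE E W) p x ≤ X W) :
    EG E p h (fun ω G => DL E ∅ A ω G ^ 2 * Ψ (WW E A ω G)) ≤
      EG E p h (fun ω G => Ψ (WW E A ω G) *
        ((SA E p h A (WW E A ω G) ^ 2 + SA E p h A (WW E A ω G)) * X (WW E A ω G) ^ 2 +
          SA E p h A (WW E A ω G) * X (WW E A ω G) ^ 3)) := by
  rcases A.eq_empty_or_nonempty with hA | ⟨a, ha⟩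
  · subst hA
    refine le_of_eq ?_
    unfold EG
    refine Ex_congr _ _ _ _ fun ω _ => Ex_congr _ _ _ _ fun G _ => ?_
    simp [DL, SA]
  · have h2 := ga_step E p h h0 h1 hh0 hh1 A Ψ (fun W => X W ^ 3) (fun W => X W ^ 2) hΨ 2
      (fun W hW hΨW => by
        have hX' := hX W hW hΨW
        have hX0 : 0 ≤ X W := (zero_le_one.trans (xb_chi_ge_one _ p h0 h1 a)).trans (hX' a)
        refine ⟨pow_nonneg hX0 3, pow_nonneg hX0 2, fun B => ?_⟩
        have h3 := cls2 (offE E W) p h0 h1 (X W) hX' B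
        refine h3.trans (le_of_eq ?_)
        ring)
    refine h2.trans (le_of_eq ?_)
    unfold EG
    refine Ex_congr _ _ _ _ fun ω _ => Ex_congr _ _ _ _ fun G _ => ?_
    ring

end GA

end Pool.Agent.Work.MP_b7dc8a_pr
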