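import Pool.Agent.Work.MP_b7dc8a_pr.F.Hyp

/-! Module LOCSET (S): `∑_{x,y ∈ D} Loc_J(x,y) <= C |D|` for `|D| <= 2^(m - m/40)`.

By `hyp_walk`: the sum is at most `∑_{n < (J+1) TN} (n+1)^J 2 |D| 2^(-min(n,m)/100)
<= 2 |D| (∑_n (n+1)^J 2^(-n/100) + ((J+1) TN)^(J+1) 2^(-m/100))`. The series converges and the last
term tends to `0` (`TN m = 4 TT m <= 4 m^2`, `xn_TT`). -/

namespace Pool.Agent.Work.MP_b7dc8a_pr

open Finset

theorem loc_set (J : ℕ) : ∃ (C : ℝ) (m0 : ℕ), 0 < C ∧ ∀ m ≥ m0, ∀ D : Finset (Q m),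
    (D.card : ℝ) ≤ (2 : ℝ) ^ ((m : ℝ) - m / 40) →
    ∑ x ∈ D, ∑ y ∈ D, Loc m J x y ≤ C * D.card := by
  set r : ℝ := (2 : ℝ) ^ (-(1 : ℝ) / 100) with hr
  have hr0 : 0 < r := by positivity
  have hr1 : r < 1 := by
    rw [hr]
    exact Real.rpow_lt_one_of_one_lt_of_neg (by norm_num) (by norm_num)
  have hrn : ∀ n : ℕ, (2 : ℝ) ^ (-(n : ℝ) / 100) = r ^ n := by
    intro n
    rw [hr, ← Real.rpow_natCast, ← Real.rpow_mul (by norm_num)]
    congr 1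
    ring
  have hsum : Summable (fun n : ℕ => ((n : ℝ) + 1) ^ J * r ^ n) := by
    have h1 : Summable (fun n : ℕ => ((n : ℝ)) ^ J * r ^ n) :=
      summable_pow_mul_geometric_of_norm_lt_one J (by rw [Real.norm_eq_abs, abs_of_pos hr0]; exact hr1)
    have h2 := ((summable_nat_add_iff 1).mpr h1).mul_left r⁻¹
    refine h2.congr fun n => ?_
    rw [pow_succ]
    push_cast
    field_simp
  set S : ℝ := ∑' n : ℕ, ((n : ℝ) + 1) ^ J * r ^ n with hS
  have hS0 : 0 ≤ S := tsum_nonneg fun n => by positivity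
  -- polynomial against exponential
  obtain ⟨m1, hm1⟩ := xn_poly (2 * (J + 1)) ((((J : ℝ) + 1) * 4) ^ (J + 1)) 1 one_pos
  obtain ⟨m2, hm2⟩ := xn_exp 1 r⁻¹ ((one_lt_inv₀ hr0).mpr hr1)
  refine ⟨2 * (S + 1), max 1 (max m1 m2), by positivity, fun m hm D hD => ?_⟩
  have hm1' : 1 ≤ m := (le_max_left _ _).trans hm
  have h1 := hm1 m (((le_max_left _ _).trans (le_max_right _ _)).trans hm)
  have h2 := hm2 m (((le_max_right _ _).trans (le_max_right _ _)).trans hm)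
  set N : ℕ := (J + 1) * TN m with hN
  have hNle : (N : ℝ) ≤ ((J : ℝ) + 1) * 4 * (m : ℝ) ^ 2 := by
    have h3 := (xn_TT m hm1').2.2
    rw [hN, TN]
    push_cast
    have : 0 ≤ ((J : ℝ) + 1) * 4 := by positivity
    nlinarith
  have h3 : (N : ℝ) ^ (J + 1) * r ^ m ≤ 1 := by
    have h4 : (N : ℝ) ^ (J + 1) ≤ (((J : ℝ) + 1) * 4) ^ (J + 1) * (m : ℝ) ^ (2 * (J + 1)) := by
      calc (N : ℝ) ^ (J + 1) ≤ (((J : ℝ) + 1) * 4 * (m : ℝ) ^ 2) ^ (J + 1) :=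
            pow_le_pow_left₀ (Nat.cast_nonneg _) hNle _
        _ = _ := by rw [mul_pow, ← pow_mul]
    have h5 : (N : ℝ) ^ (J + 1) ≤ r⁻¹ ^ m := h4.trans (h1.trans h2)
    calc (N : ℝ) ^ (J + 1) * r ^ m ≤ r⁻¹ ^ m * r ^ m := by
          exact mul_le_mul_of_nonneg_right h5 (by positivity)
      _ = 1 := by rw [← mul_pow, inv_mul_cancel₀ hr0.ne', one_pow]
  -- swap the sums
  have h4 : ∑ x ∈ D, ∑ y ∈ D, Loc m J x y =
      ∑ n ∈ range N, ((n : ℝ) + 1) ^ J * ∑ x ∈ D, ∑ y ∈ D, wk (cubeE m) n x y / (m : ℝ) ^ n := by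
    unfold Loc
    rw [← hN]
    calc ∑ x ∈ D, ∑ y ∈ D, ∑ n ∈ range N, ((n : ℝ) + 1) ^ J * (wk (cubeE m) n x y / (m : ℝ) ^ n)
        = ∑ x ∈ D, ∑ n ∈ range N, ∑ y ∈ D, ((n : ℝ) + 1) ^ J * (wk (cubeE m) n x y / (m : ℝ) ^ n) :=
          Finset.sum_congr rfl fun x _ => Finset.sum_comm
      _ = ∑ n ∈ range N, ∑ x ∈ D, ∑ y ∈ D, ((n : ℝ) + 1) ^ J * (wk (cubeE m) n x y / (m : ℝ) ^ n) :=
          Finset.sum_comm
      _ = _ := by
          refine Finset.sum_congr rfl fun n _ => ?_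
          rw [Finset.mul_sum]
          refine Finset.sum_congr rfl fun x _ => ?_
          rw [Finset.mul_sum]
  rw [h4]
  have h5 : ∀ n ∈ range N, ((n : ℝ) + 1) ^ J * ∑ x ∈ D, ∑ y ∈ D, wk (cubeE m) n x y / (m : ℝ) ^ n ≤
      2 * D.card * (((n : ℝ) + 1) ^ J * r ^ n) + 2 * D.card * ((N : ℝ) ^ J * r ^ m) := by
    intro n hn
    have hnN : n + 1 ≤ N := by
      have := Finset.mem_range.mp hn
      omega
    have hnN' : (n : ℝ) + 1 ≤ N := by exact_mod_cast hnN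
    have h6 := hyp_walk m hm1' D hD n
    have h7 : (2 : ℝ) ^ (-(min (n : ℝ) m) / 100) ≤ r ^ n + r ^ m := by
      rcases min_choice (n : ℝ) (m : ℝ) with h | h
      · rw [h, hrn]
        have : 0 ≤ r ^ m := by positivity
        linarith
      · rw [h, hrn]
        have : 0 ≤ r ^ n := by positivity
        linarith
    have hp : ((n : ℝ) + 1) ^ J ≤ (N : ℝ) ^ J := pow_le_pow_left₀ (by positivity) hnN' _
    have hpos : (0 : ℝ) ≤ ((n : ℝ) + 1) ^ J := by positivity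
    have hc : (0 : ℝ) ≤ 2 * D.card := by positivity
    calc ((n : ℝ) + 1) ^ J * ∑ x ∈ D, ∑ y ∈ D, wk (cubeE m) n x y / (m : ℝ) ^ n
        ≤ ((n : ℝ) + 1) ^ J * (2 * D.card * (r ^ n + r ^ m)) := by
          refine mul_le_mul_of_nonneg_left (h6.trans ?_) hpos
          exact mul_le_mul_of_nonneg_left h7 hc
      _ = 2 * D.card * (((n : ℝ) + 1) ^ J * r ^ n) + 2 * D.card * (((n : ℝ) + 1) ^ J * r ^ m) := by ring
      _ ≤ _ := by
          refine add_le_add le_rfl (mul_le_mul_of_nonneg_left ?_ hc)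
          exact mul_le_mul_of_nonneg_right hp (by positivity)
  refine (Finset.sum_le_sum h5).trans ?_
  rw [Finset.sum_add_distrib, ← Finset.mul_sum, Finset.sum_const, Finset.card_range, nsmul_eq_mul]
  have h8 : ∑ n ∈ range N, ((n : ℝ) + 1) ^ J * r ^ n ≤ S :=
    hsum.sum_le_tsum _ fun n _ => by positivity
  have h9 : (N : ℝ) * (2 * D.card * ((N : ℝ) ^ J * r ^ m)) = 2 * D.card * ((N : ℝ) ^ (J + 1) * r ^ m) := by
    ring
  rw [h9]
  have hc : (0 : ℝ) ≤ 2 * D.card := by positivity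
  have h10 := mul_le_mul_of_nonneg_left h8 hc
  have h11 := mul_le_mul_of_nonneg_left h3 hc
  linarith

end Pool.Agent.Work.MP_b7dc8a_pr
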