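import Pool.Agent.Work.MP_b7dc8a_pr.F.Pair
import Pool.Agent.Work.MP_b7dc8a_pr.F.Locset

/-! Module SA2 (S-M): moments of `SA E p h A (WW E A ω G) = h |A| + p ∑_{a∈A} d_a`,
`d_a = ∑_{z ~ a} ind (z ∈ WW)`, `E = cubeE m`.

`sa1`: `EG <= h |A| + p m |A| C0 e <= 3 C0 e |A|` (`ww_prob`, `hM`, `h <= e^2`).
`sa1q`: with a weight: `seq_y` with `k`: `EG [SD^k SA] = h |A| EG [SD^k] + p ∑_a ∑_{z~a} EG [SD^k ind (z ∈ WW)]
 <= C (V/e)^k e |A| bb e A^(2k)` (`seq_one`, `seq_y`, `h <= e^2 <= e`, `p m <= 2`).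
`sa2`: `SA^2 <= 2 h^2 |A|^2 + 2 p^2 (∑_a d_a)^2`; by `pair`
 `EG (∑_a d_a)^2 <= ∑_{a,a'} ∑_{z~a, z'~a'} C (e^2 bb^2 + e Loc_1(z,z')) <= C m^2 |A|^2 e^2 bb^2 +
 C e m^2 ∑_{a,a'∈A} Loc_3(a,a')` since `∑_{z~a} ∑_{z'~a'} Loc_1(z,z') <= m ∑_{z~a} Loc_2(z,a') <=
 m^2 Loc_3(a,a')` (`loc_shift`, `loc_comm`), and `loc_set` for `J = 3`. With `p m <= 2`, `h <= e^2`:
 `EG SA^2 <= C (e^2 |A|^2 bb e A^2 + e |A|)`. -/

namespace Pool.Agent.Work.MP_b7dc8a_pr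

open Finset

section SAAUX
variable {V : Type} [Fintype V]

private theorem sa_eg_mono (E : Finset (Sym2 V)) (p h : ℝ) (h0 : 0 ≤ p) (h1 : p ≤ 1) (hh0 : 0 ≤ h)
    (hh1 : h ≤ 1) (F F' : Finset (Sym2 V) → Finset V → ℝ)
    (hF : ∀ ω G, F ω G ≤ F' ω G) : EG E p h F ≤ EG E p h F' := by
  unfold EG
  exact Ex_mono _ _ h0 h1 _ _ fun ω _ => Ex_mono _ _ hh0 hh1 _ _ fun G _ => hF ω G

private theorem sa_eg_sum {ι : Type} (I : Finset ι) (E : Finset (Sym2 V)) (p h : ℝ)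
    (F : ι → Finset (Sym2 V) → Finset V → ℝ) :
    EG E p h (fun ω G => ∑ i ∈ I, F i ω G) = ∑ i ∈ I, EG E p h (F i) := by
  unfold EG
  simp only [Ex_sum]

private theorem sa_eg_mul (E : Finset (Sym2 V)) (p h c : ℝ) (F : Finset (Sym2 V) → Finset V → ℝ) :
    EG E p h (fun ω G => c * F ω G) = c * EG E p h F := by
  unfold EG
  simp only [Ex_mul_left]

private theorem sa_eg_add (E : Finset (Sym2 V)) (p h : ℝ) (F F' : Finset (Sym2 V) → Finset V → ℝ) :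
    EG E p h (fun ω G => F ω G + F' ω G) = EG E p h F + EG E p h F' := by
  unfold EG
  simp only [Ex_add]

private theorem sa_eg_const (E : Finset (Sym2 V)) (p h c : ℝ) :
    EG E p h (fun _ _ => c) = c := by
  unfold EG
  simp only [Ex_const]

private theorem sa_eg_nb (E E' : Finset (Sym2 V)) (p h : ℝ) (a : V)
    (F : V → Finset (Sym2 V) → Finset V → ℝ) :
    EG E p h (fun ω G => nb E' (fun z => F z ω G) a) = nb E' (fun z => EG E p h (F z)) a := by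
  unfold nb
  exact sa_eg_sum _ E p h F

private theorem sa_nb_le (E : Finset (Sym2 V)) (f g : V → ℝ) (hfg : ∀ z, f z ≤ g z) (a : V) :
    nb E f a ≤ nb E g a := Finset.sum_le_sum fun z _ => hfg z

private theorem sa_nb_mul (E : Finset (Sym2 V)) (c : ℝ) (f : V → ℝ) (a : V) :
    nb E (fun z => c * f z) a = c * nb E f a := by
  unfold nb
  rw [Finset.mul_sum]

private theorem sa_nb_add (E : Finset (Sym2 V)) (f g : V → ℝ) (a : V) :
    nb E (fun z => f z + g z) a = nb E f a + nb E g a := by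
  unfold nb
  rw [Finset.sum_add_distrib]

private theorem sa_dgr (E : Finset (Sym2 V)) (a : V) (U : Finset V) :
    (dgr E a U : ℝ) = nb E (fun z => ind (z ∈ U)) a := by
  classical
  unfold dgr nb ind
  rw [Finset.card_filter, Finset.sum_filter, Nat.cast_sum]
  rw [← Finset.sum_subset (Finset.subset_univ U)]
  · refine Finset.sum_congr rfl fun z hz => ?_
    rw [if_pos hz]
    split_ifs <;> simp
  · intro z _ hz
    rw [if_neg hz]
    split_ifs <;> rfl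

end SAAUX

private theorem sa_nb_const (m : ℕ) (c : ℝ) (a : Q m) : nb (cubeE m) (fun _ => c) a = m * c := by
  have h := sa_nb_mul (cubeE m) c (fun _ => 1) a
  rw [nb_cube_one] at h
  simp only [mul_one] at h
  rw [h, mul_comm]

theorem sa1 (C0 e p h : ℝ) (K m : ℕ) (R : Reg C0 K m e p h) (A : Finset (Q m)) :
    EG (cubeE m) p h (fun ω G => SA (cubeE m) p h A (WW (cubeE m) A ω G)) ≤
      3 * C0 * e * A.card := by
  have hp1 : p ≤ 1 := by linarith [R.hp1]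
  have he2 : e ^ 2 ≤ e := by nlinarith [R.he0, R.he1]
  have hhe : h ≤ e := R.hh.trans he2
  have hh1 : h ≤ 1 := by linarith [R.he1]
  have hCe : e ≤ C0 * e := by nlinarith [R.he0, R.hC0]
  unfold SA
  simp only [sa_dgr]
  rw [sa_eg_sum]
  have h1 : ∀ a ∈ A, EG (cubeE m) p h (fun ω G => h + p * nb (cubeE m)
      (fun z => ind (z ∈ WW (cubeE m) A ω G)) a) ≤ 3 * C0 * e := by
    intro a _
    rw [sa_eg_add, sa_eg_const, sa_eg_mul, sa_eg_nb]
    have h2 : nb (cubeE m) (fun z => EG (cubeE m) p h (fun ω G => ind (z ∈ WW (cubeE m) A ω G))) a ≤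
        m * (C0 * e) := by
      rw [← sa_nb_const m (C0 * e) a]
      exact sa_nb_le _ _ _ (fun z => (ww_prob (cubeE m) p h R.hp0 hp1 R.hh0 hh1 A z).trans (R.hM z)) a
    have h3 := mul_le_mul_of_nonneg_left h2 R.hp0
    have h4 : p * (m * (C0 * e)) ≤ 2 * (C0 * e) := by
      rw [← mul_assoc]
      refine mul_le_mul_of_nonneg_right R.hpm ?_
      have := R.he0
      linarith
    linarith
  refine (Finset.sum_le_sum h1).trans (le_of_eq ?_)
  rw [Finset.sum_const, nsmul_eq_mul]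
  ring

private theorem sa_loc (m : ℕ) (hm : 2 ≤ m) (a a' : Q m) :
    nb (cubeE m) (fun z => nb (cubeE m) (fun z' => Loc m 1 z z') a') a ≤
      (m : ℝ) ^ 2 * Loc m 3 a a' := by
  have hm0 : (0 : ℝ) < m := by exact_mod_cast (by omega : 0 < m)
  have h1 : ∀ z, nb (cubeE m) (fun z' => Loc m 1 z z') a' ≤ m * Loc m 2 z a' := by
    intro z
    have h2 := loc_shift m 1 hm a' z
    rw [div_le_iff₀ hm0] at h2
    have h3 : (fun z' => Loc m 1 z z') = fun z' => Loc m 1 z' z := by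
      funext z'
      exact loc_comm m 1 z z'
    rw [h3, loc_comm m 2 z a', mul_comm]
    exact h2
  refine (sa_nb_le _ _ _ h1 a).trans ?_
  rw [sa_nb_mul]
  have h4 := loc_shift m 2 hm a a'
  rw [div_le_iff₀ hm0] at h4
  calc (m : ℝ) * nb (cubeE m) (fun z => Loc m 2 z a') a ≤ m * (Loc m 3 a a' * m) :=
        mul_le_mul_of_nonneg_left h4 hm0.le
    _ = _ := by ring

theorem sa2 (C0 : ℝ) : ∃ (C : ℝ) (m0 : ℕ), 1 ≤ C ∧ ∀ m ≥ m0, ∀ (K : ℕ) (e p h : ℝ),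
    Reg C0 K m e p h → 4 ≤ K → ∀ A : Finset (Q m), (A.card : ℝ) ≤ (2 : ℝ) ^ ((m : ℝ) - m / 40) →
    EG (cubeE m) p h (fun ω G => SA (cubeE m) p h A (WW (cubeE m) A ω G) ^ 2) ≤
      C * (e ^ 2 * (A.card : ℝ) ^ 2 * bb e A ^ 2 + e * A.card) := by
  obtain ⟨C1, m1, hC1, h1⟩ := pair C0
  obtain ⟨C2, m2, hC2, h2⟩ := loc_set 3
  refine ⟨8 * C1 * (1 + C2) + 2, max 2 (max m1 m2), by nlinarith, fun m hm K e p h R hK A hA => ?_⟩
  have hm2 : 2 ≤ m := (le_max_left _ _).trans hm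
  have hp := h1 m (((le_max_left _ _).trans (le_max_right _ _)).trans hm) K e p h R hK A
  have hl := h2 m (((le_max_right _ _).trans (le_max_right _ _)).trans hm) A hA
  have hp1 : p ≤ 1 := by linarith [R.hp1]
  have he0 := R.he0
  have he1 := R.he1
  have he2 : e ^ 2 ≤ e := by nlinarith
  have hhe : h ≤ e := R.hh.trans he2
  have hh1 : h ≤ 1 := by linarith [R.he1]
  have hm0 : (0 : ℝ) < m := by exact_mod_cast (by omega : 0 < m)
  have hbb : 1 ≤ bb e A := by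
    unfold bb
    have : 0 ≤ e ^ 2 * (A.card : ℝ) := by positivity
    linarith
  have hbb2 : 1 ≤ bb e A ^ 2 := one_le_pow₀ hbb
  have hA0 : (0 : ℝ) ≤ A.card := Nat.cast_nonneg _
  set N : Finset (Sym2 (Q m)) → Finset (Q m) → ℝ := fun ω G =>
    ∑ a ∈ A, nb (cubeE m) (fun z => ind (z ∈ WW (cubeE m) A ω G)) a with hN
  have e1 : ∀ ω G, SA (cubeE m) p h A (WW (cubeE m) A ω G) = h * A.card + p * N ω G := by
    intro ω G
    unfold SA
    simp only [sa_dgr]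
    rw [Finset.sum_add_distrib, Finset.sum_const, nsmul_eq_mul, ← Finset.mul_sum, mul_comm (A.card : ℝ)]
  have e2 : ∀ ω G, N ω G ^ 2 = ∑ a ∈ A, ∑ a' ∈ A, nb (cubeE m) (fun z => nb (cubeE m) (fun z' =>
      ind (z ∈ WW (cubeE m) A ω G) * ind (z' ∈ WW (cubeE m) A ω G)) a') a := by
    intro ω G
    rw [pow_two, hN]
    beta_reduce
    rw [Finset.sum_mul_sum]
    refine Finset.sum_congr rfl fun a _ => Finset.sum_congr rfl fun a' _ => ?_
    have e3 : (fun z => nb (cubeE m) (fun z' =>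
      ind (z ∈ WW (cubeE m) A ω G) * ind (z' ∈ WW (cubeE m) A ω G)) a') = fun z =>
      nb (cubeE m) (fun z' => ind (z' ∈ WW (cubeE m) A ω G)) a' * ind (z ∈ WW (cubeE m) A ω G) := by
      funext z
      rw [sa_nb_mul, mul_comm]
    rw [e3, sa_nb_mul, mul_comm]
  have h3 : EG (cubeE m) p h (fun ω G => N ω G ^ 2) ≤
      C1 * e ^ 2 * bb e A ^ 2 * (m : ℝ) ^ 2 * (A.card : ℝ) ^ 2 + C1 * e * (m : ℝ) ^ 2 * (C2 * A.card) := by
    simp only [e2]
    rw [sa_eg_sum]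
    have h4 : ∀ a ∈ A, EG (cubeE m) p h (fun ω G => ∑ a' ∈ A, nb (cubeE m) (fun z => nb (cubeE m)
        (fun z' => ind (z ∈ WW (cubeE m) A ω G) * ind (z' ∈ WW (cubeE m) A ω G)) a') a) ≤
        ∑ a' ∈ A, (C1 * e ^ 2 * bb e A ^ 2 * (m : ℝ) ^ 2 + C1 * e * (m : ℝ) ^ 2 * Loc m 3 a a') := by
      intro a _
      rw [sa_eg_sum]
      refine Finset.sum_le_sum fun a' _ => ?_
      rw [sa_eg_nb]
      simp only [sa_eg_nb]
      have h5 : ∀ z, nb (cubeE m) (fun z' => EG (cubeE m) p h (fun ω G =>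
          ind (z ∈ WW (cubeE m) A ω G) * ind (z' ∈ WW (cubeE m) A ω G))) a' ≤
          C1 * e ^ 2 * bb e A ^ 2 * m + C1 * e * nb (cubeE m) (fun z' => Loc m 1 z z') a' := by
        intro z
        refine (sa_nb_le _ _ _ (fun z' => hp z z') a').trans (le_of_eq ?_)
        rw [sa_nb_mul, sa_nb_add, sa_nb_const, sa_nb_mul]
        ring
      refine (sa_nb_le _ _ _ h5 a).trans ?_
      rw [sa_nb_add, sa_nb_const, sa_nb_mul]
      have h6 := sa_loc m hm2 a a'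
      have h7 : 0 ≤ C1 * e := by positivity
      have h8 := mul_le_mul_of_nonneg_left h6 h7
      calc (m : ℝ) * (C1 * e ^ 2 * bb e A ^ 2 * m) + C1 * e * nb (cubeE m)
            (fun z => nb (cubeE m) (fun z' => Loc m 1 z z') a') a
          ≤ (m : ℝ) * (C1 * e ^ 2 * bb e A ^ 2 * m) + C1 * e * ((m : ℝ) ^ 2 * Loc m 3 a a') := by
            linarith
        _ = _ := by ring
    refine (Finset.sum_le_sum h4).trans ?_
    simp only [Finset.sum_add_distrib, Finset.sum_const, nsmul_eq_mul]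
    simp only [← Finset.mul_sum]
    have h9 : 0 ≤ C1 * e * (m : ℝ) ^ 2 := by positivity
    have h10 := mul_le_mul_of_nonneg_left hl h9
    have h11 : (A.card : ℝ) * (A.card * (C1 * e ^ 2 * bb e A ^ 2 * (m : ℝ) ^ 2)) =
      C1 * e ^ 2 * bb e A ^ 2 * (m : ℝ) ^ 2 * (A.card : ℝ) ^ 2 := by ring
    linarith
  have h12 : EG (cubeE m) p h (fun ω G => SA (cubeE m) p h A (WW (cubeE m) A ω G) ^ 2) ≤
      2 * (h * A.card) ^ 2 + 2 * p ^ 2 * EG (cubeE m) p h (fun ω G => N ω G ^ 2) := by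
    have h26 : EG (cubeE m) p h (fun ω G => 2 * (h * A.card) ^ 2 + 2 * p ^ 2 * N ω G ^ 2) =
        2 * (h * A.card) ^ 2 + 2 * p ^ 2 * EG (cubeE m) p h (fun ω G => N ω G ^ 2) := by
      rw [sa_eg_add, sa_eg_const, sa_eg_mul]
    rw [← h26]
    refine sa_eg_mono _ _ _ R.hp0 hp1 R.hh0 hh1 _ _ fun ω G => ?_
    rw [e1]
    nlinarith [sq_nonneg (h * A.card - p * N ω G)]
  refine h12.trans ?_
  have h13 : 2 * p ^ 2 * EG (cubeE m) p h (fun ω G => N ω G ^ 2) ≤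
      2 * p ^ 2 * (C1 * e ^ 2 * bb e A ^ 2 * (m : ℝ) ^ 2 * (A.card : ℝ) ^ 2 +
        C1 * e * (m : ℝ) ^ 2 * (C2 * A.card)) := mul_le_mul_of_nonneg_left h3 (by positivity)
  have h14 : (p * m) ^ 2 ≤ 4 := by
    have h15 : 0 ≤ p * m := mul_nonneg R.hp0 hm0.le
    nlinarith [R.hpm]
  have h16 : 2 * p ^ 2 * (C1 * e ^ 2 * bb e A ^ 2 * (m : ℝ) ^ 2 * (A.card : ℝ) ^ 2 +
        C1 * e * (m : ℝ) ^ 2 * (C2 * A.card)) =
        (p * m) ^ 2 * (2 * C1 * (e ^ 2 * (A.card : ℝ) ^ 2 * bb e A ^ 2) + 2 * C1 * C2 * (e * A.card)) := by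
    ring
  have h17 : 0 ≤ 2 * C1 * (e ^ 2 * (A.card : ℝ) ^ 2 * bb e A ^ 2) + 2 * C1 * C2 * (e * A.card) := by
    positivity
  have h18 := mul_le_mul_of_nonneg_right h14 h17
  have h19 : (h * A.card) ^ 2 ≤ e ^ 2 * (A.card : ℝ) ^ 2 * bb e A ^ 2 := by
    have h20 : h ^ 2 ≤ e ^ 2 := pow_le_pow_left₀ R.hh0 hhe 2
    have h21 : h ^ 2 * (A.card : ℝ) ^ 2 ≤ e ^ 2 * (A.card : ℝ) ^ 2 :=
      mul_le_mul_of_nonneg_right h20 (by positivity)
    have h22 : e ^ 2 * (A.card : ℝ) ^ 2 * 1 ≤ e ^ 2 * (A.card : ℝ) ^ 2 * bb e A ^ 2 :=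
      mul_le_mul_of_nonneg_left hbb2 (by positivity)
    nlinarith
  have hX : 0 ≤ e ^ 2 * (A.card : ℝ) ^ 2 * bb e A ^ 2 := by positivity
  have hY : 0 ≤ e * (A.card : ℝ) := by positivity
  have h23 : 0 ≤ C1 * C2 * (e ^ 2 * (A.card : ℝ) ^ 2 * bb e A ^ 2) := by positivity
  have h24 : 0 ≤ C1 * (e * (A.card : ℝ)) := by positivity
  have h25 : (8 * C1 * (1 + C2) + 2) * (e ^ 2 * (A.card : ℝ) ^ 2 * bb e A ^ 2 + e * A.card) =
      8 * C1 * (e ^ 2 * (A.card : ℝ) ^ 2 * bb e A ^ 2) + 8 * (C1 * C2 * (e ^ 2 * (A.card : ℝ) ^ 2 * bb e A ^ 2))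
      + 2 * (e ^ 2 * (A.card : ℝ) ^ 2 * bb e A ^ 2) + 8 * (C1 * (e * A.card)) +
      8 * (C1 * C2 * (e * A.card)) + 2 * (e * A.card) := by ring
  rw [h25]
  nlinarith

end Pool.Agent.Work.MP_b7dc8a_pr
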