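import Pool.Agent.Work.MP_b7dc8a_pr.F.Seq

/-! Module SAQ (S): `SA` with a power of `SD` as weight (see the header of SA2, `sa1q`):
`EG [SD^k SA] = h |A| EG [SD^k] + p ∑_{a∈A} ∑_{z~a} EG [SD^k ind (z ∈ WW)] <= C (V/e)^k e |A| bb e A^(2k)`
(`seq_one`, `seq_y`, `h <= e^2 <= e`, `p m <= 2`, each `a` has `m` neighbours). -/

namespace Pool.Agent.Work.MP_b7dc8a_pr

open Finset

section SAQAUX
variable {V : Type} [Fintype V]

private theorem saq_sum {ι : Type} (I : Finset ι) (E : Finset (Sym2 V)) (p h : ℝ)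
    (F : ι → Finset (Sym2 V) → Finset V → ℝ) :
    EG E p h (fun ω G => ∑ i ∈ I, F i ω G) = ∑ i ∈ I, EG E p h (F i) := by
  unfold EG
  simp only [Ex_sum]

private theorem saq_mul (E : Finset (Sym2 V)) (p h c : ℝ) (F : Finset (Sym2 V) → Finset V → ℝ) :
    EG E p h (fun ω G => c * F ω G) = c * EG E p h F := by
  unfold EG
  simp only [Ex_mul_left]

private theorem saq_add (E : Finset (Sym2 V)) (p h : ℝ) (F F' : Finset (Sym2 V) → Finset V → ℝ) :
    EG E p h (fun ω G => F ω G + F' ω G) = EG E p h F + EG E p h F' := by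
  unfold EG
  simp only [Ex_add]

private theorem saq_dgr (E : Finset (Sym2 V)) (a : V) (U : Finset V) :
    (dgr E a U : ℝ) = nb E (fun z => ind (z ∈ U)) a := by
  classical
  unfold dgr nb ind
  rw [Finset.card_filter, Finset.sum_filter, Nat.cast_sum]
  rw [← Finset.sum_subset (Finset.subset_univ U)]
  · refine Finset.sum_congr rfl fun z hz => ?_
    rw [if_pos hz]
    split_ifs <;> simp
  · intro z _ hz
    rw [if_neg hz]
    split_ifs <;> rfl

end SAQAUX

private theorem saq_nb_const (m : ℕ) (c : ℝ) (a : Q m) : nb (cubeE m) (fun _ => c) a = m * c := by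
  have h := nb_cube_one m a
  unfold nb at h ⊢
  rw [← h, Finset.sum_mul]
  simp

theorem saq (k : ℕ) (C0 : ℝ) : ∃ C : ℝ, 1 ≤ C ∧ ∀ (m K : ℕ) (e p h : ℝ), Reg C0 K m e p h →
    2 * k + 1 ≤ K → ∀ A : Finset (Q m),
    EG (cubeE m) p h (fun ω G => SD (cubeE m) A ω G ^ k *
      SA (cubeE m) p h A (WW (cubeE m) A ω G)) ≤
      C * (2 ^ m / e) ^ k * e * A.card * bb e A ^ (2 * k) := by
  obtain ⟨C1, hC1, h1⟩ := seq_one k C0
  obtain ⟨C2, hC2, h2⟩ := seq_y k C0
  refine ⟨C1 + 2 * C2, by linarith, fun m K e p h R hK A => ?_⟩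
  have hs1 := h1 m K e p h R hK A
  have hs2 := h2 m K e p h R hK A
  have he0 := R.he0
  have he1 := R.he1
  have he2 : e ^ 2 ≤ e := by nlinarith
  have hhe : h ≤ e := R.hh.trans he2
  have hA0 : (0 : ℝ) ≤ A.card := Nat.cast_nonneg _
  have hm0 : (0 : ℝ) ≤ m := Nat.cast_nonneg _
  have hbb : 0 ≤ bb e A ^ (2 * k) := by
    unfold bb
    positivity
  have hV : 0 ≤ (2 ^ m / e) ^ k := by positivity
  have e1 : ∀ ω G, SD (cubeE m) A ω G ^ k * SA (cubeE m) p h A (WW (cubeE m) A ω G) =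
      h * A.card * SD (cubeE m) A ω G ^ k + p * ∑ a ∈ A, nb (cubeE m)
        (fun z => SD (cubeE m) A ω G ^ k * ind (z ∈ WW (cubeE m) A ω G)) a := by
    intro ω G
    unfold SA
    simp only [saq_dgr]
    rw [Finset.sum_add_distrib, Finset.sum_const, nsmul_eq_mul, ← Finset.mul_sum]
    have e2 : ∀ a, nb (cubeE m) (fun z => SD (cubeE m) A ω G ^ k * ind (z ∈ WW (cubeE m) A ω G)) a =
        SD (cubeE m) A ω G ^ k * nb (cubeE m) (fun z => ind (z ∈ WW (cubeE m) A ω G)) a := by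
      intro a
      unfold nb
      rw [Finset.mul_sum]
    simp only [e2]
    rw [← Finset.mul_sum]
    ring
  simp only [e1]
  rw [saq_add, saq_mul, saq_mul, saq_sum]
  have h3 : ∑ a ∈ A, EG (cubeE m) p h (fun ω G => nb (cubeE m)
        (fun z => SD (cubeE m) A ω G ^ k * ind (z ∈ WW (cubeE m) A ω G)) a) ≤
      A.card * (m * (C2 * (2 ^ m / e) ^ k * e * bb e A ^ (2 * k))) := by
    rw [← nsmul_eq_mul, ← Finset.sum_const]
    refine Finset.sum_le_sum fun a _ => ?_
    rw [← saq_nb_const m _ a]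
    unfold nb
    rw [saq_sum]
    exact Finset.sum_le_sum fun z _ => hs2 z
  have h4 := mul_le_mul_of_nonneg_left h3 R.hp0
  have h5 : h * A.card * EG (cubeE m) p h (fun ω G => SD (cubeE m) A ω G ^ k) ≤
      e * A.card * (C1 * (2 ^ m / e) ^ k * bb e A ^ (2 * k)) := by
    have h6 : 0 ≤ h * A.card := mul_nonneg R.hh0 hA0
    refine (mul_le_mul_of_nonneg_left hs1 h6).trans ?_
    refine mul_le_mul_of_nonneg_right (mul_le_mul_of_nonneg_right hhe hA0) ?_
    positivity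
  have h7 : p * (A.card * (m * (C2 * (2 ^ m / e) ^ k * e * bb e A ^ (2 * k)))) ≤
      2 * (A.card * (C2 * (2 ^ m / e) ^ k * e * bb e A ^ (2 * k))) := by
    have h8 : p * (A.card * (m * (C2 * (2 ^ m / e) ^ k * e * bb e A ^ (2 * k)))) =
        p * m * (A.card * (C2 * (2 ^ m / e) ^ k * e * bb e A ^ (2 * k))) := by ring
    rw [h8]
    refine mul_le_mul_of_nonneg_right R.hpm ?_
    positivity
  have h9 : (C1 + 2 * C2) * (2 ^ m / e) ^ k * e * A.card * bb e A ^ (2 * k) =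
      e * A.card * (C1 * (2 ^ m / e) ^ k * bb e A ^ (2 * k)) +
      2 * (A.card * (C2 * (2 ^ m / e) ^ k * e * bb e A ^ (2 * k))) := by ring
  rw [h9]
  linarith

end Pool.Agent.Work.MP_b7dc8a_pr
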