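import Pool.Agent.Work.MP_b7dc8a_pr.F.Xu
import Pool.Agent.Work.MP_b7dc8a_pr.F.Ga
import Pool.Agent.Work.MP_b7dc8a_pr.F.Sa2
import Pool.Agent.Work.MP_b7dc8a_pr.F.Saq

/-! Module D2G (M): second moment of `Δ = DL E ∅ A` on the event that `Q U = 123 TN + 60 RU E p A U/V`,
`U = WW E A ω G` (disjoint from `A`), satisfies `4 Q (120 |A|/V) < 1`. `E = cubeE m`, `V = 2^m`, `b = bb e A`.
`X U = 2 Q U` is an upper bound for the susceptibilities outside `U` on this event (`xu`).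

Case `Q <= Kh/e`: `Δ min (|s| Δ) 2 <= |s| Δ^2`; `ga2` with `Ψ W = ind (4 Q W (120 |A|/V) < 1) ind (Q W <= Kh/e)`,
 `X W = 2 Q W <= 2 Kh/e` where `Ψ W ≠ 0`; `sa1`, `sa2`; `Kh >= 1`, `e <= 1`:
 `|s| (C (e^2 |A|^2 b^2 + e |A|) 4 Kh^2/e^2 + 3 C0 e |A| (4 Kh^2/e^2 + 8 Kh^3/e^3))
 <= C |s| Kh^3 (|A|^2 + |A|/e^2) b^2`.
Case `Q > Kh/e`: `Δ min (..) 2 <= 2 Δ`, `ga1` with `Ψ W = ind (4 Q W ..< 1) ind (Kh/e < Q W)` and
 `Ψ W <= Q W e/Kh`: `2 EG [Δ Ψ] <= (4 e/Kh) EG [SA Q^2]`, `Q^2 <= 2 (123 TN)^2 + 7200 RU^2/V^2`;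
 `EG [SA TN^2] <= 3 C0 e |A|/e^2` (`sa1`, `TN <= 1/e`), `EG [SA RU^2] <= EG [SA SD^2]` (`seq_jens`, `k = 2`,
 `Ψ W = SA E p h A W`) `<= C (V/e)^2 e |A| b^4` (`saq`, `k = 2`). So `<= (C/Kh) |A| b^4`. -/

namespace Pool.Agent.Work.MP_b7dc8a_pr

open Finset

section
variable {V : Type} [Fintype V] [DecidableEq V]

omit [DecidableEq V] in
private theorem d2g_mono (E : Finset (Sym2 V)) (p h : ℝ) (h0 : 0 ≤ p) (h1 : p ≤ 1) (hh0 : 0 ≤ h)
    (hh1 : h ≤ 1) (F H : Finset (Sym2 V) → Finset V → ℝ) (hFH : ∀ ω G, F ω G ≤ H ω G) :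
    EG E p h F ≤ EG E p h H :=
  Ex_mono _ _ h0 h1 _ _ fun _ _ => Ex_mono _ _ hh0 hh1 _ _ fun _ _ => hFH _ _

omit [DecidableEq V] in
private theorem d2g_add (E : Finset (Sym2 V)) (p h : ℝ) (F H : Finset (Sym2 V) → Finset V → ℝ) :
    EG E p h (fun ω G => F ω G + H ω G) = EG E p h F + EG E p h H := by
  unfold EG
  rw [← Ex_add]
  exact Ex_congr _ _ _ _ fun ω _ => Ex_add _ _ _ _

omit [DecidableEq V] in
private theorem d2g_mul (E : Finset (Sym2 V)) (p h c : ℝ) (F : Finset (Sym2 V) → Finset V → ℝ) :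
    EG E p h (fun ω G => c * F ω G) = c * EG E p h F := by
  unfold EG
  rw [← Ex_mul_left]
  exact Ex_congr _ _ _ _ fun ω _ => Ex_mul_left _ _ _ _

end

private theorem d2g_diag (m : ℕ) : ∀ e ∈ cubeE m, ¬ e.IsDiag := by
  intro e he
  exact SimpleGraph.not_isDiag_of_mem_edgeFinset he

/-- the quantity `Q` -/
private noncomputable def d2gQ (m : ℕ) (p : ℝ) (A W : Finset (Q m)) : ℝ :=
  123 * TN m + 60 * RU (cubeE m) p A W / 2 ^ m

private theorem d2gQ_nonneg (m : ℕ) (p : ℝ) (h0 : 0 ≤ p) (h1 : p ≤ 1) (A W : Finset (Q m)) :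
    0 ≤ d2gQ m p A W ∧ 0 ≤ RU (cubeE m) p A W := by
  have h2 : 0 ≤ RU (cubeE m) p A W := by
    unfold RU
    exact Finset.sum_nonneg fun z _ => zero_le_one.trans (xb_chi_ge_one _ _ h0 h1 z)
  refine ⟨?_, h2⟩
  unfold d2gQ
  positivity

private theorem d2g_SA (m : ℕ) (p h : ℝ) (h0 : 0 ≤ p) (hh0 : 0 ≤ h) (A W : Finset (Q m)) :
    0 ≤ SA (cubeE m) p h A W := by
  unfold SA
  exact Finset.sum_nonneg fun a _ => by positivity

theorem d2_good (C0 : ℝ) : ∃ (C : ℝ) (m0 : ℕ), 1 ≤ C ∧ ∀ m ≥ m0, ∀ (K : ℕ) (e p h : ℝ),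
    Reg C0 K m e p h → 6 ≤ K → TN m * e ≤ 1 → ∀ A : Finset (Q m),
    (A.card : ℝ) ≤ (2 : ℝ) ^ ((m : ℝ) - m / 40) → ∀ Kh s : ℝ, 1 ≤ Kh →
    EG (cubeE m) p h (fun ω G => DL (cubeE m) ∅ A ω G * min (|s| * DL (cubeE m) ∅ A ω G) 2 *
      ind (4 * (123 * TN m + 60 * RU (cubeE m) p A (WW (cubeE m) A ω G) / 2 ^ m) *
        (120 * A.card / 2 ^ m) < 1)) ≤
      C * |s| * Kh ^ 3 * ((A.card : ℝ) ^ 2 + A.card / e ^ 2) * bb e A ^ 2 +
        C / Kh * A.card * bb e A ^ 4 := by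
  by_cases hC : 1 ≤ C0
  swap
  · exact ⟨1, 0, le_rfl, fun m _ K e p h R => absurd R.hC0 hC⟩
  obtain ⟨m1, hxu⟩ := xu
  obtain ⟨C2, m2, hC2, hsa2⟩ := sa2 C0
  obtain ⟨C3, hC3, hsaq⟩ := saq 2 C0
  refine ⟨4 * C2 + 36 * C0 + 400000 * C0 + 100000 * C3, max m1 m2, by linarith, ?_⟩
  intro m hm K e p h R hK hT A hA Kh s hKh
  have hxu' := hxu m ((le_max_left _ _).trans hm)
  have hsa2' := hsa2 m ((le_max_right _ _).trans hm) K e p h R (by omega) A hA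
  have hsaq' := hsaq m K e p h R (by omega) A
  have hsa1 := sa1 C0 e p h K m R A
  have hp0 := R.hp0
  have hp1 : p ≤ 1 := by linarith [R.hp1]
  have he0 := R.he0
  have he1 := R.he1
  have hh0 := R.hh0
  have hh1 : h ≤ 1 := by nlinarith [R.hh]
  have hC0 := R.hC0
  have hb1 : 1 ≤ bb e A := by
    unfold bb
    have : 0 ≤ e ^ 2 * (A.card : ℝ) := by positivity
    linarith
  have hV0 : (0 : ℝ) < 2 ^ m := by positivity
  have hKh0 : 0 < Kh := by linarith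
  have hs := abs_nonneg s
  set a : ℝ := ((A.card : ℕ) : ℝ) with ha
  have ha0 : 0 ≤ a := Nat.cast_nonneg _
  set Ψ1 : Finset (Q m) → ℝ := fun W =>
    ind (4 * d2gQ m p A W * (120 * a / 2 ^ m) < 1) * ind (d2gQ m p A W ≤ Kh / e) with hΨ1
  set Ψ2 : Finset (Q m) → ℝ := fun W =>
    ind (4 * d2gQ m p A W * (120 * a / 2 ^ m) < 1) * ind (Kh / e < d2gQ m p A W) with hΨ2
  have hΨ1n : ∀ W, 0 ≤ Ψ1 W := fun W => mul_nonneg (xb_ind_nonneg _) (xb_ind_nonneg _)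
  have hΨ2n : ∀ W, 0 ≤ Ψ2 W := fun W => mul_nonneg (xb_ind_nonneg _) (xb_ind_nonneg _)
  have hX : ∀ W, Disjoint A W → 4 * d2gQ m p A W * (120 * a / 2 ^ m) < 1 →
      ∀ x, chi (offE (cubeE m) W) p x ≤ 2 * d2gQ m p A W := by
    intro W hW h4 x
    exact hxu' p hp0 R.hpn A W hW (d2gQ m p A W) rfl h4 x
  have hX1 : ∀ W, Disjoint A W → Ψ1 W ≠ 0 → ∀ x,
      chi (offE (cubeE m) W) p x ≤ 2 * d2gQ m p A W := by
    intro W hW h4
    refine hX W hW ?_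
    by_contra hcon
    apply h4
    rw [hΨ1]
    simp only
    rw [walk_ind_neg _ hcon, zero_mul]
  have hX2 : ∀ W, Disjoint A W → Ψ2 W ≠ 0 → ∀ x,
      chi (offE (cubeE m) W) p x ≤ 2 * d2gQ m p A W := by
    intro W hW h4
    refine hX W hW ?_
    by_contra hcon
    apply h4
    rw [hΨ2]
    simp only
    rw [walk_ind_neg _ hcon, zero_mul]
  -- splitting
  have hsplit : EG (cubeE m) p h (fun ω G => DL (cubeE m) ∅ A ω G *
      min (|s| * DL (cubeE m) ∅ A ω G) 2 *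
      ind (4 * (123 * TN m + 60 * RU (cubeE m) p A (WW (cubeE m) A ω G) / 2 ^ m) *
        (120 * a / 2 ^ m) < 1)) ≤
      EG (cubeE m) p h (fun ω G =>
        |s| * (DL (cubeE m) ∅ A ω G ^ 2 * Ψ1 (WW (cubeE m) A ω G)) +
        2 * (DL (cubeE m) ∅ A ω G * Ψ2 (WW (cubeE m) A ω G))) := by
    refine d2g_mono _ _ _ hp0 hp1 hh0 hh1 _ _ fun ω G => ?_
    have g0 := dl_nonneg (cubeE m) ∅ A ω G
    generalize WW (cubeE m) A ω G = W
    change DL (cubeE m) ∅ A ω G * min (|s| * DL (cubeE m) ∅ A ω G) 2 *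
      ind (4 * d2gQ m p A W * (120 * a / 2 ^ m) < 1) ≤ _
    generalize DL (cubeE m) ∅ A ω G = d at g0 ⊢
    have i0 := xb_ind_nonneg (4 * d2gQ m p A W * (120 * a / 2 ^ m) < 1)
    rw [hΨ1, hΨ2]
    simp only
    by_cases hz : d2gQ m p A W ≤ Kh / e
    · rw [walk_ind_pos _ hz, walk_ind_neg (Kh / e < d2gQ m p A W) (not_lt.2 hz)]
      have g1 : d * min (|s| * d) 2 ≤ d * (|s| * d) :=
        mul_le_mul_of_nonneg_left (min_le_left _ _) g0
      have g2 := mul_le_mul_of_nonneg_right g1 i0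
      refine g2.trans_eq ?_
      ring
    · rw [walk_ind_neg _ hz, walk_ind_pos (Kh / e < d2gQ m p A W) (not_le.1 hz)]
      have g1 : d * min (|s| * d) 2 ≤ d * 2 :=
        mul_le_mul_of_nonneg_left (min_le_right _ _) g0
      have g2 := mul_le_mul_of_nonneg_right g1 i0
      refine g2.trans_eq ?_
      ring
  rw [d2g_add, d2g_mul, d2g_mul] at hsplit
  -- first part
  have hP1 : EG (cubeE m) p h (fun ω G => DL (cubeE m) ∅ A ω G ^ 2 *
      Ψ1 (WW (cubeE m) A ω G)) ≤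
      (4 * C2 + 36 * C0) * Kh ^ 3 * (a ^ 2 + a / e ^ 2) * bb e A ^ 2 := by
    refine (ga2 (cubeE m) (d2g_diag m) p h hp0 hp1 hh0 hh1 A Ψ1
      (fun W => 2 * d2gQ m p A W) hΨ1n hX1).trans ?_
    have q1 : EG (cubeE m) p h (fun ω G => Ψ1 (WW (cubeE m) A ω G) *
        ((SA (cubeE m) p h A (WW (cubeE m) A ω G) ^ 2 + SA (cubeE m) p h A (WW (cubeE m) A ω G)) *
          (2 * d2gQ m p A (WW (cubeE m) A ω G)) ^ 2 +
          SA (cubeE m) p h A (WW (cubeE m) A ω G) *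
            (2 * d2gQ m p A (WW (cubeE m) A ω G)) ^ 3)) ≤
        EG (cubeE m) p h (fun ω G =>
          (2 * (Kh / e)) ^ 2 * SA (cubeE m) p h A (WW (cubeE m) A ω G) ^ 2 +
          ((2 * (Kh / e)) ^ 2 + (2 * (Kh / e)) ^ 3) *
            SA (cubeE m) p h A (WW (cubeE m) A ω G)) := by
      refine d2g_mono _ _ _ hp0 hp1 hh0 hh1 _ _ fun ω G => ?_
      generalize WW (cubeE m) A ω G = W
      have g0 := d2g_SA m p h hp0 hh0 A W
      have g1 := (d2gQ_nonneg m p hp0 hp1 A W).1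
      generalize SA (cubeE m) p h A W = S at g0 ⊢
      have hrhs : 0 ≤ (2 * (Kh / e)) ^ 2 * S ^ 2 + ((2 * (Kh / e)) ^ 2 + (2 * (Kh / e)) ^ 3) * S := by
        positivity
      rw [hΨ1]
      simp only
      by_cases hz : d2gQ m p A W ≤ Kh / e
      · have i0 := xb_ind_nonneg (4 * d2gQ m p A W * (120 * a / 2 ^ m) < 1)
        have i1 := xb_ind_le_one (4 * d2gQ m p A W * (120 * a / 2 ^ m) < 1)
        rw [walk_ind_pos _ hz, mul_one]
        generalize d2gQ m p A W = q at hz g1 i0 i1 ⊢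
        have j1 : (2 * q) ^ 2 ≤ (2 * (Kh / e)) ^ 2 :=
          pow_le_pow_left₀ (by positivity) (by linarith) 2
        have j2 : (2 * q) ^ 3 ≤ (2 * (Kh / e)) ^ 3 :=
          pow_le_pow_left₀ (by positivity) (by linarith) 3
        have j3 : (S ^ 2 + S) * (2 * q) ^ 2 + S * (2 * q) ^ 3 ≤
            (S ^ 2 + S) * (2 * (Kh / e)) ^ 2 + S * (2 * (Kh / e)) ^ 3 :=
          add_le_add (mul_le_mul_of_nonneg_left j1 (by positivity))
            (mul_le_mul_of_nonneg_left j2 g0)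
        have j4 : 0 ≤ (S ^ 2 + S) * (2 * q) ^ 2 + S * (2 * q) ^ 3 := by positivity
        calc _ ≤ 1 * ((S ^ 2 + S) * (2 * q) ^ 2 + S * (2 * q) ^ 3) :=
              mul_le_mul_of_nonneg_right i1 j4
          _ ≤ _ := by linarith
      · rw [walk_ind_neg _ hz, mul_zero, zero_mul]
        exact hrhs
    refine q1.trans ?_
    rw [d2g_add, d2g_mul, d2g_mul]
    have r1 := mul_le_mul_of_nonneg_left hsa2' (by positivity : 0 ≤ (2 * (Kh / e)) ^ 2)
    have r2 := mul_le_mul_of_nonneg_left hsa1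
      (by positivity : 0 ≤ (2 * (Kh / e)) ^ 2 + (2 * (Kh / e)) ^ 3)
    refine (add_le_add r1 r2).trans ?_
    have e1 : (2 * (Kh / e)) ^ 2 * (C2 * (e ^ 2 * a ^ 2 * bb e A ^ 2 + e * a)) +
        ((2 * (Kh / e)) ^ 2 + (2 * (Kh / e)) ^ 3) * (3 * C0 * e * a) =
        4 * C2 * Kh ^ 2 * (a ^ 2 * bb e A ^ 2) + (4 * C2 + 12 * C0) * Kh ^ 2 * (a / e) +
          24 * C0 * Kh ^ 3 * (a / e ^ 2) := by
      field_simp
      ring
    rw [e1]
    have s1 : Kh ^ 2 ≤ Kh ^ 3 := pow_le_pow_right₀ hKh (by norm_num)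
    have s2 : a / e ≤ a / e ^ 2 := by
      refine div_le_div_of_nonneg_left ha0 (by positivity) ?_
      nlinarith
    have s3 : 1 ≤ bb e A ^ 2 := one_le_pow₀ hb1
    have t1 : 4 * C2 * Kh ^ 2 * (a ^ 2 * bb e A ^ 2) ≤ 4 * C2 * Kh ^ 3 * (a ^ 2 * bb e A ^ 2) := by
      gcongr
    have t2 : (4 * C2 + 12 * C0) * Kh ^ 2 * (a / e) ≤
        (4 * C2 + 12 * C0) * Kh ^ 3 * (a / e ^ 2) := by
      gcongr
    have t3 : (4 * C2 + 36 * C0) * Kh ^ 3 * (a / e ^ 2) ≤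
        (4 * C2 + 36 * C0) * Kh ^ 3 * (a / e ^ 2) * bb e A ^ 2 :=
      le_mul_of_one_le_right (by positivity) s3
    have t4 : 0 ≤ 36 * C0 * Kh ^ 3 * a ^ 2 * bb e A ^ 2 := by positivity
    linarith
  -- second part
  have hP2 : EG (cubeE m) p h (fun ω G => DL (cubeE m) ∅ A ω G *
      Ψ2 (WW (cubeE m) A ω G)) ≤ (200000 * C0 + 50000 * C3) / Kh * a * bb e A ^ 4 := by
    refine (ga1 (cubeE m) (d2g_diag m) p h hp0 hp1 hh0 hh1 A Ψ2
      (fun W => 2 * d2gQ m p A W) hΨ2n hX2).trans ?_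
    have q1 : EG (cubeE m) p h (fun ω G => Ψ2 (WW (cubeE m) A ω G) *
        (SA (cubeE m) p h A (WW (cubeE m) A ω G) *
          (2 * d2gQ m p A (WW (cubeE m) A ω G)))) ≤
        EG (cubeE m) p h (fun ω G =>
          (2 * e / Kh * (2 * (123 * TN m) ^ 2)) * SA (cubeE m) p h A (WW (cubeE m) A ω G) +
          (2 * e / Kh * (7200 / (2 ^ m) ^ 2)) * (RU (cubeE m) p A (WW (cubeE m) A ω G) ^ 2 *
            SA (cubeE m) p h A (WW (cubeE m) A ω G))) := by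
      refine d2g_mono _ _ _ hp0 hp1 hh0 hh1 _ _ fun ω G => ?_
      generalize WW (cubeE m) A ω G = W
      have g0 := d2g_SA m p h hp0 hh0 A W
      obtain ⟨g1, g2⟩ := d2gQ_nonneg m p hp0 hp1 A W
      generalize SA (cubeE m) p h A W = S at g0 ⊢
      have j1 : d2gQ m p A W ^ 2 ≤ 2 * (123 * TN m) ^ 2 +
          7200 / (2 ^ m) ^ 2 * RU (cubeE m) p A W ^ 2 := by
        unfold d2gQ
        have := add_pow_le (a := 123 * (TN m : ℝ)) (b := 60 * RU (cubeE m) p A W / 2 ^ m)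
          (by positivity) (by positivity) 2
        refine this.trans_eq ?_
        field_simp
        ring
      have j2 : Ψ2 W * (S * (2 * d2gQ m p A W)) ≤ 2 * e / Kh * S * d2gQ m p A W ^ 2 := by
        rw [hΨ2]
        simp only
        by_cases hz : Kh / e < d2gQ m p A W
        · have i0 := xb_ind_nonneg (4 * d2gQ m p A W * (120 * a / 2 ^ m) < 1)
          have i1 := xb_ind_le_one (4 * d2gQ m p A W * (120 * a / 2 ^ m) < 1)
          rw [walk_ind_pos _ hz, mul_one]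
          generalize d2gQ m p A W = q at hz g1 i0 i1 ⊢
          have j3 : 1 ≤ q * (e / Kh) := by
            rw [div_lt_iff₀ he0] at hz
            rw [mul_div_assoc', le_div_iff₀ hKh0, one_mul]
            exact hz.le
          have j4 : 0 ≤ S * (2 * q) := by positivity
          calc _ ≤ 1 * (S * (2 * q)) := mul_le_mul_of_nonneg_right i1 j4
            _ ≤ q * (e / Kh) * (S * (2 * q)) := mul_le_mul_of_nonneg_right j3 j4
            _ = _ := by ring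
        · rw [walk_ind_neg _ hz, mul_zero, zero_mul]
          positivity
      have j5 := mul_le_mul_of_nonneg_left j1 (by positivity : 0 ≤ 2 * e / Kh * S)
      refine j2.trans (j5.trans_eq ?_)
      ring
    refine q1.trans ?_
    rw [d2g_add, d2g_mul, d2g_mul]
    have r0 := seq_jens m (cubeE m) p h hp0 hp1 hh0 hh1 2 A (fun W => SA (cubeE m) p h A W)
      (fun W => d2g_SA m p h hp0 hh0 A W)
    have r1 := mul_le_mul_of_nonneg_left (r0.trans hsaq')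
      (by positivity : 0 ≤ 2 * e / Kh * (7200 / (2 ^ m) ^ 2))
    have r2 := mul_le_mul_of_nonneg_left hsa1
      (by positivity : 0 ≤ 2 * e / Kh * (2 * (123 * (TN m : ℝ)) ^ 2))
    refine (add_le_add r2 r1).trans ?_
    have e1 : 2 * e / Kh * (7200 / (2 ^ m) ^ 2) * (C3 * (2 ^ m / e) ^ 2 * e * a *
        bb e A ^ (2 * 2)) = 14400 * C3 / Kh * a * bb e A ^ 4 := by
      field_simp
      ring
    have e2 : 2 * e / Kh * (2 * (123 * (TN m : ℝ)) ^ 2) * (3 * C0 * e * a) =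
        181548 * C0 / Kh * a * ((TN m * e) ^ 2) := by
      field_simp
      ring
    rw [e1, e2]
    have t1 : ((TN m : ℝ) * e) ^ 2 ≤ bb e A ^ 4 := by
      have := pow_le_pow_left₀ (by positivity) hT 2
      have h4 : (1 : ℝ) ≤ bb e A ^ 4 := one_le_pow₀ hb1
      linarith
    have t2 : 181548 * C0 / Kh * a * (((TN m : ℝ) * e) ^ 2) ≤
        181548 * C0 / Kh * a * bb e A ^ 4 := mul_le_mul_of_nonneg_left t1 (by positivity)
    have t3 : 0 ≤ C0 / Kh * a * bb e A ^ 4 := by positivity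
    have t4 : 0 ≤ C3 / Kh * a * bb e A ^ 4 := by positivity
    have e3 : 181548 * C0 / Kh * a * bb e A ^ 4 = 181548 * (C0 / Kh * a * bb e A ^ 4) := by ring
    have e4 : 14400 * C3 / Kh * a * bb e A ^ 4 = 14400 * (C3 / Kh * a * bb e A ^ 4) := by ring
    have e5 : (200000 * C0 + 50000 * C3) / Kh * a * bb e A ^ 4 =
        200000 * (C0 / Kh * a * bb e A ^ 4) + 50000 * (C3 / Kh * a * bb e A ^ 4) := by ring
    rw [e5]
    rw [e3] at t2
    rw [e4]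
    linarith
  have hf1 := mul_le_mul_of_nonneg_left hP1 hs
  refine hsplit.trans ?_
  have u1 : 0 ≤ (400000 * C0 + 100000 * C3) *
      (|s| * Kh ^ 3 * (a ^ 2 + a / e ^ 2) * bb e A ^ 2) := by positivity
  have u2 : 0 ≤ (4 * C2 + 36 * C0) * (a / Kh * bb e A ^ 4) := by positivity
  have e6 : (4 * C2 + 36 * C0 + 400000 * C0 + 100000 * C3) / Kh * a * bb e A ^ 4 =
      2 * ((200000 * C0 + 50000 * C3) / Kh * a * bb e A ^ 4) +
        (4 * C2 + 36 * C0) * (a / Kh * bb e A ^ 4) := by ring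
  rw [e6]
  linarith

end Pool.Agent.Work.MP_b7dc8a_pr
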