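import Pool.Agent.Work.MP_b7dc8a_pr.F.D2g
import Pool.Agent.Work.MP_b7dc8a_pr.F.D2b

/-! Module D2T (S): truncated second moment of `Δ = DL E ∅ A`. `V = 2^m`, `b = bb e A >= 1`, `w = e^3 V >= 1`.

If `|A| <= 2^(m - m/40)`: split according to the event of `d2_good`; on the complement
`Δ min (|s| Δ) 2 <= 2 Δ` and `d2_bad`.
If `|A| > 2^(m - m/40)`: `b >= e^2 |A| >= 2^(-2m/3) 2^(39 m/40)` (`e^3 2^m >= 1`), so `b^4 >= 2^m >= w` and
`EG [Δ min (..) 2] <= 2 EG Δ <= 36 C0^2 |A| b <= 36 C0^2 |A| b^5/w` (`del_set` with `D = ∅`). -/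

namespace Pool.Agent.Work.MP_b7dc8a_pr

open Finset

private theorem d2t_two (C0 e p h : ℝ) (K m : ℕ) (R : Reg C0 K m e p h) (A : Finset (Q m)) (s : ℝ)
    (P : Finset (Sym2 (Q m)) → Finset (Q m) → ℝ) (hP : ∀ ω G, 0 ≤ P ω G) :
    EG (cubeE m) p h (fun ω G => DL (cubeE m) ∅ A ω G * min (|s| * DL (cubeE m) ∅ A ω G) 2 *
      P ω G) ≤ 2 * EG (cubeE m) p h (fun ω G => DL (cubeE m) ∅ A ω G * P ω G) := by
  have hh1 : h ≤ 1 := by nlinarith [R.hh, R.he0, R.he1]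
  unfold EG
  rw [← Ex_mul_left]
  refine Ex_mono _ _ R.hp0 (by linarith [R.hp1]) _ _ fun ω _ => ?_
  rw [← Ex_mul_left]
  refine Ex_mono _ _ R.hh0 hh1 _ _ fun G _ => ?_
  have h1 := dl_nonneg (cubeE m) ∅ A ω G
  have h2 := hP ω G
  calc DL (cubeE m) ∅ A ω G * min (|s| * DL (cubeE m) ∅ A ω G) 2 * P ω G
      ≤ DL (cubeE m) ∅ A ω G * 2 * P ω G :=
        mul_le_mul_of_nonneg_right (mul_le_mul_of_nonneg_left (min_le_right _ _) h1) h2
    _ = 2 * (DL (cubeE m) ∅ A ω G * P ω G) := by ring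

theorem d2t (C0 : ℝ) : ∃ (C : ℝ) (m0 : ℕ), 1 ≤ C ∧ ∀ m ≥ m0, ∀ (K : ℕ) (e p h : ℝ),
    Reg C0 K m e p h → 9 ≤ K → TN m * e ≤ 1 → ∀ (A : Finset (Q m)) (Kh s : ℝ), 1 ≤ Kh →
    EG (cubeE m) p h (fun ω G => DL (cubeE m) ∅ A ω G * min (|s| * DL (cubeE m) ∅ A ω G) 2) ≤
      C * |s| * Kh ^ 3 * ((A.card : ℝ) ^ 2 + A.card / e ^ 2) * bb e A ^ 2 +
        C * (1 / Kh + 1 / (e ^ 3 * 2 ^ m)) * A.card * bb e A ^ 11 := by
  obtain ⟨C1, m0, hC1, hg⟩ := d2_good C0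
  obtain ⟨C2, hC2, hb⟩ := d2_bad C0
  refine ⟨C1 + 2 * C2 + 36 * C0 ^ 2, m0, ?_, ?_⟩
  · have := sq_nonneg C0
    linarith
  intro m hm K e p h R hK hT A Kh s hKh
  have he0 := R.he0
  have hw := R.hV
  have hb1 : 1 ≤ bb e A := by
    unfold bb
    have : 0 ≤ e ^ 2 * (A.card : ℝ) := by positivity
    linarith
  have hA0 : (0 : ℝ) ≤ A.card := Nat.cast_nonneg _
  have hKh0 : 0 < Kh := by linarith
  have hs := abs_nonneg s
  have hX0 : 0 ≤ |s| * Kh ^ 3 * ((A.card : ℝ) ^ 2 + A.card / e ^ 2) * bb e A ^ 2 := by positivity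
  have hC0 := R.hC0
  by_cases hA : (A.card : ℝ) ≤ (2 : ℝ) ^ ((m : ℝ) - m / 40)
  · have h1 := hg m hm K e p h R (by omega) hT A hA Kh s hKh
    have h2 := hb m K e p h R hK hT A
    set F : Finset (Sym2 (Q m)) → Finset (Q m) → ℝ := fun ω G =>
      4 * (123 * TN m + 60 * RU (cubeE m) p A (WW (cubeE m) A ω G) / 2 ^ m) *
        (120 * A.card / 2 ^ m) with hF
    have e1 : EG (cubeE m) p h (fun ω G => DL (cubeE m) ∅ A ω G *
        min (|s| * DL (cubeE m) ∅ A ω G) 2) =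
        EG (cubeE m) p h (fun ω G => DL (cubeE m) ∅ A ω G *
          min (|s| * DL (cubeE m) ∅ A ω G) 2 * ind (F ω G < 1)) +
        EG (cubeE m) p h (fun ω G => DL (cubeE m) ∅ A ω G *
          min (|s| * DL (cubeE m) ∅ A ω G) 2 * ind (1 ≤ F ω G)) := by
      unfold EG
      rw [← Ex_add]
      refine Ex_congr _ _ _ _ fun ω _ => ?_
      rw [← Ex_add]
      refine Ex_congr _ _ _ _ fun G _ => ?_
      beta_reduce
      by_cases hz : F ω G < 1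
      · rw [walk_ind_pos _ hz, walk_ind_neg (1 ≤ F ω G) (not_le.2 hz)]
        ring
      · rw [walk_ind_neg _ hz, walk_ind_pos (1 ≤ F ω G) (not_lt.1 hz)]
        ring
    have h3 := d2t_two C0 e p h K m R A s (fun ω G => ind (1 ≤ F ω G)) fun _ _ => xb_ind_nonneg _
    rw [e1]
    have h4 : C1 / Kh * A.card * bb e A ^ 4 ≤ C1 * (1 / Kh) * A.card * bb e A ^ 11 := by
      rw [mul_one_div]
      exact mul_le_mul_of_nonneg_left (pow_le_pow_right₀ hb1 (by norm_num)) (by positivity)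
    have h5 : C2 * A.card * bb e A ^ 11 / (e ^ 3 * 2 ^ m) =
        C2 * (1 / (e ^ 3 * 2 ^ m)) * A.card * bb e A ^ 11 := by
      ring
    rw [h5] at h2
    have k1 : 0 ≤ (1 / Kh) * A.card * bb e A ^ 11 := by positivity
    have k2 : 0 ≤ (1 / (e ^ 3 * 2 ^ m)) * A.card * bb e A ^ 11 := by positivity
    have k3 : 0 ≤ (2 * C2 + 36 * C0 ^ 2) * (|s| * Kh ^ 3 * ((A.card : ℝ) ^ 2 + A.card / e ^ 2) *
      bb e A ^ 2) := by positivity
    have k4 : 0 ≤ (2 * C2 + 36 * C0 ^ 2) * ((1 / Kh) * A.card * bb e A ^ 11) := by positivity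
    have k5 : 0 ≤ (C1 + 36 * C0 ^ 2) * ((1 / (e ^ 3 * 2 ^ m)) * A.card * bb e A ^ 11) := by
      positivity
    linarith
  · rw [not_le] at hA
    have h1 := d2t_two C0 e p h K m R A s (fun _ _ => 1) fun _ _ => zero_le_one
    simp only [mul_one] at h1
    have h2 := del_set C0 e p h K m R (by omega) ∅ A (disjoint_empty_right _)
    rw [empty_union] at h2
    have h3 : e ^ 3 * 2 ^ m ≤ bb e A ^ 10 := by
      have g1 : (2 : ℝ) ^ m ≤ bb e A ^ 6 := by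
        have q1 : e ^ 2 * (2 : ℝ) ^ ((m : ℝ) - m / 40) ≤ bb e A := by
          unfold bb
          have := mul_le_mul_of_nonneg_left hA.le (sq_nonneg e)
          linarith
        have q2 : ((2 : ℝ) ^ m) ^ 5 ≤ ((2 : ℝ) ^ ((m : ℝ) - m / 40)) ^ 6 := by
          rw [← pow_mul, ← Real.rpow_natCast, ← Real.rpow_natCast, ← Real.rpow_mul (by norm_num)]
          apply Real.rpow_le_rpow_of_exponent_le (by norm_num)
          push_cast
          have : (0 : ℝ) ≤ m := Nat.cast_nonneg m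
          linarith
        calc (2 : ℝ) ^ m = 1 ^ 4 * 2 ^ m := by ring
          _ ≤ (e ^ 3 * 2 ^ m) ^ 4 * 2 ^ m :=
            mul_le_mul_of_nonneg_right (pow_le_pow_left₀ zero_le_one hw 4) (by positivity)
          _ = e ^ 12 * ((2 : ℝ) ^ m) ^ 5 := by ring
          _ ≤ e ^ 12 * ((2 : ℝ) ^ ((m : ℝ) - m / 40)) ^ 6 :=
            mul_le_mul_of_nonneg_left q2 (by positivity)
          _ = (e ^ 2 * (2 : ℝ) ^ ((m : ℝ) - m / 40)) ^ 6 := by ring
          _ ≤ bb e A ^ 6 := pow_le_pow_left₀ (by positivity) q1 6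
      have g2 : e ^ 3 ≤ 1 := pow_le_one₀ he0.le (by linarith [R.he1])
      calc e ^ 3 * 2 ^ m ≤ 1 * 2 ^ m := mul_le_mul_of_nonneg_right g2 (by positivity)
        _ = 2 ^ m := one_mul _
        _ ≤ bb e A ^ 6 := g1
        _ ≤ bb e A ^ 10 := pow_le_pow_right₀ hb1 (by norm_num)
    have h4 : bb e A ≤ 1 / (e ^ 3 * 2 ^ m) * bb e A ^ 11 := by
      rw [one_div, inv_mul_eq_div, le_div_iff₀ (by positivity)]
      calc bb e A * (e ^ 3 * 2 ^ m) ≤ bb e A * bb e A ^ 10 :=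
            mul_le_mul_of_nonneg_left h3 (by linarith)
        _ = bb e A ^ 11 := by ring
    have h5 := mul_le_mul_of_nonneg_left h4 (by positivity : 0 ≤ 36 * C0 ^ 2 * A.card)
    have k1 : 0 ≤ (C1 + 2 * C2 + 36 * C0 ^ 2) * ((1 / Kh) * A.card * bb e A ^ 11) := by positivity
    have k2 : 0 ≤ (C1 + 2 * C2) * ((1 / (e ^ 3 * 2 ^ m)) * A.card * bb e A ^ 11) := by positivity
    have k3 : 0 ≤ (C1 + 2 * C2 + 36 * C0 ^ 2) * (|s| * Kh ^ 3 *
      ((A.card : ℝ) ^ 2 + A.card / e ^ 2) * bb e A ^ 2) := by positivity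
    linarith

end Pool.Agent.Work.MP_b7dc8a_pr
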