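import Pool.Agent.Work.MP_b7dc8a_pr.F.DefI

/-! Module NEWM (M): Harris inequality and Newman's inequality for functions of `(ω, G)`.

`harris2`: Harris' inequality by induction on the set (`Ex_insert`), used twice.
`newm`: `H` increasing, `F` decreasing. Put `c(F,H) = EG H * EG F - EG (H F) >= 0` and for a real function
 `T` with `|T x - T y| <= K |x - y|`: `K F ± T(F)` is decreasing, so by Harris
 `|EG (H T(F)) - EG H EG (T(F))| <= K c(F,H)`. Apply this to `T x = cos (s x)`, `T x = sin (s x)`, and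
 `exp (i s F) = cos (s F) + i sin (s F)`. -/

namespace Pool.Agent.Work.MP_b7dc8a_pr

open Finset

private theorem newm_harris1 {α : Type} [DecidableEq α] (E : Finset α) (p : ℝ) (h0 : 0 ≤ p)
    (h1 : p ≤ 1) (F H : Finset α → ℝ)
    (hF : ∀ ω ω', ω ⊆ ω' → ω' ⊆ E → F ω ≤ F ω')
    (hH : ∀ ω ω', ω ⊆ ω' → ω' ⊆ E → H ω ≤ H ω') :
    Ex E p F * Ex E p H ≤ Ex E p (fun ω => F ω * H ω) := by
  induction E using Finset.induction_on generalizing F H with
  | empty => simp only [Ex_empty, le_refl]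
  | insert e E he ih =>
    rw [Ex_insert e E he, Ex_insert e E he, Ex_insert e E he]
    have i1 := ih (fun ω => F (insert e ω)) (fun ω => H (insert e ω))
      (fun ω ω' h2 h3 => hF _ _ (insert_subset_insert e h2) (insert_subset_insert e h3))
      (fun ω ω' h2 h3 => hH _ _ (insert_subset_insert e h2) (insert_subset_insert e h3))
    have i0 := ih F H
      (fun ω ω' h2 h3 => hF _ _ h2 (h3.trans (subset_insert e E)))
      (fun ω ω' h2 h3 => hH _ _ h2 (h3.trans (subset_insert e E)))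
    have m1 : Ex E p F ≤ Ex E p (fun ω => F (insert e ω)) :=
      Ex_mono E p h0 h1 _ _ fun ω hω => hF _ _ (subset_insert e ω) (insert_subset_insert e hω)
    have m2 : Ex E p H ≤ Ex E p (fun ω => H (insert e ω)) :=
      Ex_mono E p h0 h1 _ _ fun ω hω => hH _ _ (subset_insert e ω) (insert_subset_insert e hω)
    have k1 := mul_le_mul_of_nonneg_left i1 h0
    have k0 := mul_le_mul_of_nonneg_left i0 (sub_nonneg.2 h1)
    have k2 := mul_nonneg (mul_nonneg h0 (sub_nonneg.2 h1))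
      (mul_nonneg (sub_nonneg.2 m1) (sub_nonneg.2 m2))
    refine le_trans ?_ (add_le_add k1 k0)
    linear_combination k2

section NEWM
variable {V : Type} [Fintype V] [DecidableEq V]

theorem harris2 (E : Finset (Sym2 V)) (p h : ℝ) (h0 : 0 ≤ p) (h1 : p ≤ 1) (hh0 : 0 ≤ h)
    (hh1 : h ≤ 1) (F H : Finset (Sym2 V) → Finset V → ℝ)
    (hF : ∀ ω ω' G G', ω ⊆ ω' → ω' ⊆ E → G ⊆ G' → F ω G ≤ F ω' G')
    (hH : ∀ ω ω' G G', ω ⊆ ω' → ω' ⊆ E → G ⊆ G' → H ω G ≤ H ω' G') :
    EG E p h F * EG E p h H ≤ EG E p h (fun ω G => F ω G * H ω G) := by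
  unfold EG
  refine (newm_harris1 E p h0 h1 _ _ ?_ ?_).trans ?_
  · exact fun ω ω' h2 h3 => Ex_mono _ _ hh0 hh1 _ _ fun G _ => hF _ _ _ _ h2 h3 subset_rfl
  · exact fun ω ω' h2 h3 => Ex_mono _ _ hh0 hh1 _ _ fun G _ => hH _ _ _ _ h2 h3 subset_rfl
  · refine Ex_mono _ _ h0 h1 _ _ fun ω hω => ?_
    exact newm_harris1 _ _ hh0 hh1 _ _ (fun G G' h2 _ => hF _ _ _ _ subset_rfl hω h2)
      (fun G G' h2 _ => hH _ _ _ _ subset_rfl hω h2)

omit [DecidableEq V] in
private theorem newm_add (E : Finset (Sym2 V)) (p h : ℝ) (F H : Finset (Sym2 V) → Finset V → ℝ) :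
    EG E p h (fun ω G => F ω G + H ω G) = EG E p h F + EG E p h H := by
  unfold EG
  rw [← Ex_add]
  exact Ex_congr _ _ _ _ fun ω _ => Ex_add _ _ _ _

omit [DecidableEq V] in
private theorem newm_mul (E : Finset (Sym2 V)) (p h c : ℝ) (F : Finset (Sym2 V) → Finset V → ℝ) :
    EG E p h (fun ω G => c * F ω G) = c * EG E p h F := by
  unfold EG
  rw [← Ex_mul_left]
  exact Ex_congr _ _ _ _ fun ω _ => Ex_mul_left _ _ _ _

omit [DecidableEq V] in
private theorem newm_complex (E : Finset (Sym2 V)) (p h : ℝ)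
    (X : Finset (Sym2 V) → Finset V → ℂ) :
    EGC E p h X = (EG E p h (fun ω G => (X ω G).re) : ℂ) +
      Complex.I * (EG E p h (fun ω G => (X ω G).im) : ℂ) := by
  unfold EGC EG
  have e : (fun ω => ExC (univ : Finset V) h (fun G => X ω G)) =
      fun ω => ((Ex (univ : Finset V) h (fun G => (X ω G).re) : ℝ) : ℂ) +
        Complex.I * ((Ex (univ : Finset V) h (fun G => (X ω G).im) : ℝ) : ℂ) := by
    funext ω
    exact bin_ExC_eq _ _ _
  rw [e, ExC_add, ExC_mul_left, ExC_ofReal, ExC_ofReal]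

private theorem newm_lip (E : Finset (Sym2 V)) (p h : ℝ) (h0 : 0 ≤ p) (h1 : p ≤ 1) (hh0 : 0 ≤ h)
    (hh1 : h ≤ 1) (H F : Finset (Sym2 V) → Finset V → ℝ)
    (hH : ∀ ω ω' G G', ω ⊆ ω' → ω' ⊆ E → G ⊆ G' → H ω G ≤ H ω' G')
    (hF : ∀ ω ω' G G', ω ⊆ ω' → ω' ⊆ E → G ⊆ G' → F ω' G' ≤ F ω G) (K : ℝ) (T : ℝ → ℝ)
    (hT : ∀ x y, |T x - T y| ≤ K * |x - y|) :
    |EG E p h (fun ω G => H ω G * T (F ω G)) - EG E p h H * EG E p h (fun ω G => T (F ω G))| ≤
      K * (EG E p h H * EG E p h F - EG E p h (fun ω G => H ω G * F ω G)) := by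
  have key : ∀ (T : ℝ → ℝ), (∀ x y, |T x - T y| ≤ K * |x - y|) →
      EG E p h (fun ω G => H ω G * T (F ω G)) - EG E p h H * EG E p h (fun ω G => T (F ω G)) ≤
        K * (EG E p h H * EG E p h F - EG E p h (fun ω G => H ω G * F ω G)) := by
    intro T hT
    have q := harris2 E p h h0 h1 hh0 hh1 H (fun ω G => -K * F ω G + -1 * T (F ω G)) hH ?_
    · have e : (fun ω G => H ω G * (-K * F ω G + -1 * T (F ω G))) =
          fun ω G => -K * (H ω G * F ω G) + -1 * (H ω G * T (F ω G)) := by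
        funext ω G
        ring
      rw [e, newm_add, newm_add, newm_mul, newm_mul, newm_mul, newm_mul] at q
      linarith
    · intro ω ω' G G' h2 h3 h4
      have h5 := hF ω ω' G G' h2 h3 h4
      have h6 := (abs_le.1 (hT (F ω' G') (F ω G))).2
      rw [abs_sub_comm, abs_of_nonneg (sub_nonneg.2 h5)] at h6
      show -K * F ω G + -1 * T (F ω G) ≤ -K * F ω' G' + -1 * T (F ω' G')
      linarith
  rw [abs_le]
  refine ⟨?_, key T hT⟩
  have q := key (fun x => -1 * T x) ?_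
  · have e : (fun ω G => H ω G * (-1 * T (F ω G))) = fun ω G => -1 * (H ω G * T (F ω G)) := by
      funext ω G
      ring
    rw [e, newm_mul, newm_mul] at q
    linarith
  · intro x y
    have : -1 * T x - -1 * T y = T y - T x := by ring
    rw [this, abs_sub_comm]
    exact hT x y

theorem newm (E : Finset (Sym2 V)) (p h : ℝ) (h0 : 0 ≤ p) (h1 : p ≤ 1) (hh0 : 0 ≤ h)
    (hh1 : h ≤ 1) (H F : Finset (Sym2 V) → Finset V → ℝ)
    (hH : ∀ ω ω' G G', ω ⊆ ω' → ω' ⊆ E → G ⊆ G' → H ω G ≤ H ω' G')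
    (hF : ∀ ω ω' G G', ω ⊆ ω' → ω' ⊆ E → G ⊆ G' → F ω' G' ≤ F ω G) (s : ℝ) :
    ‖EGC E p h (fun ω G => (H ω G : ℂ) * Complex.exp (Complex.I * ((s * F ω G : ℝ) : ℂ))) -
      (EG E p h H : ℂ) * EGC E p h (fun ω G => Complex.exp (Complex.I * ((s * F ω G : ℝ) : ℂ)))‖ ≤
    2 * |s| * (EG E p h H * EG E p h F - EG E p h (fun ω G => H ω G * F ω G)) := by
  have er : ∀ x : ℝ, (Complex.exp (Complex.I * (x : ℂ))).re = Real.cos x := fun x => by
    rw [mul_comm, Complex.exp_ofReal_mul_I_re]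
  have ei : ∀ x : ℝ, (Complex.exp (Complex.I * (x : ℂ))).im = Real.sin x := fun x => by
    rw [mul_comm, Complex.exp_ofReal_mul_I_im]
  rw [newm_complex, newm_complex E p h (fun ω G => Complex.exp (Complex.I * ((s * F ω G : ℝ) : ℂ)))]
  simp only [Complex.re_ofReal_mul, Complex.im_ofReal_mul, er, ei]
  have hc := newm_lip E p h h0 h1 hh0 hh1 H F hH hF |s| (fun x => Real.cos (s * x)) (fun x y => by
    rw [← abs_mul, mul_sub]
    exact Real.abs_cos_sub_cos_le _ _)
  have hs := newm_lip E p h h0 h1 hh0 hh1 H F hH hF |s| (fun x => Real.sin (s * x)) (fun x y => by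
    rw [← abs_mul, mul_sub]
    exact Real.abs_sin_sub_sin_le _ _)
  set a := EG E p h (fun ω G => H ω G * Real.cos (s * F ω G)) with ha
  set b := EG E p h (fun ω G => H ω G * Real.sin (s * F ω G)) with hb
  set a' := EG E p h (fun ω G => Real.cos (s * F ω G)) with ha'
  set b' := EG E p h (fun ω G => Real.sin (s * F ω G)) with hb'
  set x := EG E p h H with hx
  have e : (a : ℂ) + Complex.I * (b : ℂ) - (x : ℂ) * ((a' : ℂ) + Complex.I * (b' : ℂ)) =
      ((a - x * a' : ℝ) : ℂ) + Complex.I * ((b - x * b' : ℝ) : ℂ) := by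
    push_cast
    ring
  rw [e]
  refine (norm_add_le _ _).trans ?_
  rw [norm_mul, Complex.norm_I, one_mul, Complex.norm_real, Complex.norm_real, Real.norm_eq_abs,
    Real.norm_eq_abs]
  linarith

end NEWM

end Pool.Agent.Work.MP_b7dc8a_pr
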