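import Pool.Agent.Work.MP_b7dc8a_pr.F.Del
import Pool.Agent.Work.MP_b7dc8a_pr.F.Newm
import Pool.Agent.Work.MP_b7dc8a_pr.F.Nid

/-! Module D3S (M): covariance of `DL E D {a}` with `exp (i s NN E (D ∪ {a}))`. `E = cubeE m`,
`E_D = offE E D`, `K >= 4`.

`cov_w` (`z ∉ D'`): `EG (ind (z ∉ WW_{D'})) = EG (ind (z ∉ cls (ω ∩ E_{D'}) G))`; by `gid` with `f n = n` and
 `f = 1`: `Cov (ind (z ∉ ..), NN E D') = Ex E_{D'} [(1-h)^|A| EG (|A| + NN E (D' ∪ A) - NN E D')]
 = Ex E_{D'} [(1-h)^|A| EG (DL E D' A)]`, `A = cl ω' z` (disjoint from `D'`), `<= 18 C0^2 Ex [(1-h)^|A| |A|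
 bb e (D' ∪ A)]` (`del_set`) `<= 18 C0^2 * 2 C0 (e/e^2) bb e D'^2` (`mob`, `k = j = 1`) `= 36 C0^3/e bb^2`.
`cov_psi`: with `D' = D ∪ C ∋ a`: `H = psi E p h D' a` is increasing in `(ω, G)`, `4 p dgr - psi` as well:
 if `d` increases by one, `(1-p)^(-d-1) - (1-p)^(-d) = p (1-p)^(-d-1) <= 4 p` (`d + 1 <= m`). `NN E D'` is
 decreasing (`nn_anti`). By `harris2` applied to `4 p dgr - psi` and `-NN`:
 `Cov (psi, -NN) <= 4 p Cov (dgr, -NN) = 4 p ∑_{z ~ a, z ∉ D'} Cov (ind (z ∉ WW), NN) <= 4 p m 36 C0^3/e bb^2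
 <= 288 C0^3/e bb e D'^2`.
`d3s`. `snglC` (`g C = |C|`, `dl_single`) with `f n = exp (i s n)`, and `sngl` with `f = 1`: the difference is
 `ExC E_D [(1-h)^(|C|-1) |C| (EGC [psi exp (i s (|C| - 1 + NN'))] - EG psi * EGC [exp (i s NN_a)])]`,
 `C = cl ω' a`, `NN' = NN E (D ∪ C)`, `NN_a = NN E (D ∪ {a})`. The bracket is
 `(EGC [psi exp (i s (|C|-1+NN'))] - EG psi EGC [exp (i s (|C|-1+NN'))])
  + EG psi * (EGC [exp (i s (|C|-1+NN'))] - EGC [exp (i s NN_a)])`. The first part is at most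
 `2 |s| Cov (psi, -NN') <= 576 |s| C0^3/e bb e (D ∪ C)^2` (`newm`, `cov_psi`); the second at most
 `9 C0 e |s| EG (|C| - 1 + NN' - NN_a) = 9 C0 e |s| EG (DL E (D ∪ {a}) (C \ {a}))
 <= 9 C0 e |s| 18 C0^2 |C| bb e (D ∪ C)` (`psi_mean`, `|exp(ix) - exp(iy)| <= |x-y|`, `del_set`). With
 `(1-h)^(n-1) <= 2 (1-h)^n` and `mob` (`k=1, j=2`: `4 C0 /e bb^3`; `k=2, j=1`: `2 C0/e^3 bb^3`):
 total `<= 2|s| (576 C0^3/e * 4 C0/e + 162 C0^3 e * 2 C0/e^3) bb^3 <= 6000 C0^4 |s|/e^2 bb e D^3`. -/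

namespace Pool.Agent.Work.MP_b7dc8a_pr

open Finset

section D3SA
variable {V : Type} [Fintype V]

private theorem sEG_add (E : Finset (Sym2 V)) (p h : ℝ) (F H : Finset (Sym2 V) → Finset V → ℝ) :
    EG E p h (fun ω G => F ω G + H ω G) = EG E p h F + EG E p h H := by
  unfold EG
  simp only [Ex_add]

private theorem sEG_sub (E : Finset (Sym2 V)) (p h : ℝ) (F H : Finset (Sym2 V) → Finset V → ℝ) :
    EG E p h (fun ω G => F ω G - H ω G) = EG E p h F - EG E p h H := by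
  unfold EG
  simp only [Ex_sub]

private theorem sEG_mul (E : Finset (Sym2 V)) (p h c : ℝ) (F : Finset (Sym2 V) → Finset V → ℝ) :
    EG E p h (fun ω G => c * F ω G) = c * EG E p h F := by
  unfold EG
  simp only [Ex_mul_left]

private theorem sEG_const (E : Finset (Sym2 V)) (p h c : ℝ) :
    EG E p h (fun _ _ => c) = c := by
  unfold EG
  simp only [Ex_const]

private theorem sEG_sum {ι : Type} (I : Finset ι) (E : Finset (Sym2 V)) (p h : ℝ)
    (F : ι → Finset (Sym2 V) → Finset V → ℝ) :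
    EG E p h (fun ω G => ∑ i ∈ I, F i ω G) = ∑ i ∈ I, EG E p h (F i) := by
  unfold EG
  simp only [Ex_sum]

private theorem sEG_mono (E : Finset (Sym2 V)) (p h : ℝ) (h0 : 0 ≤ p)
    (h1 : p ≤ 1) (hh0 : 0 ≤ h) (hh1 : h ≤ 1) (F H : Finset (Sym2 V) → Finset V → ℝ)
    (hFH : ∀ ω ⊆ E, ∀ G, F ω G ≤ H ω G) : EG E p h F ≤ EG E p h H := by
  unfold EG
  exact Ex_mono E p h0 h1 _ _ fun ω hω => Ex_mono _ h hh0 hh1 _ _ fun G _ => hFH ω hω G

private theorem sEG_congr (E : Finset (Sym2 V)) (p h : ℝ) (F H : Finset (Sym2 V) → Finset V → ℝ)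
    (hFH : ∀ ω ⊆ E, ∀ G, F ω G = H ω G) : EG E p h F = EG E p h H := by
  unfold EG
  exact Ex_congr E p _ _ fun ω hω => Ex_congr _ h _ _ fun G _ => hFH ω hω G

private theorem sExC_congr {α : Type} (E : Finset α) (p : ℝ) (F G : Finset α → ℂ)
    (h : ∀ ω ⊆ E, F ω = G ω) : ExC E p F = ExC E p G := by
  unfold ExC
  exact Finset.sum_congr rfl fun ω hω => by rw [h ω (Finset.mem_powerset.1 hω)]

private theorem sEGC_mul (E : Finset (Sym2 V)) (p h : ℝ) (c : ℂ)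
    (F : Finset (Sym2 V) → Finset V → ℂ) :
    EGC E p h (fun ω G => c * F ω G) = c * EGC E p h F := by
  unfold EGC
  simp only [ExC_mul_left]

private theorem sEGC_sub (E : Finset (Sym2 V)) (p h : ℝ) (F H : Finset (Sym2 V) → Finset V → ℂ) :
    EGC E p h (fun ω G => F ω G - H ω G) = EGC E p h F - EGC E p h H := by
  unfold EGC
  simp only [ExC_sub]

private theorem sEGC_congr (E : Finset (Sym2 V)) (p h : ℝ) (F H : Finset (Sym2 V) → Finset V → ℂ)
    (hFH : ∀ ω ⊆ E, ∀ G, F ω G = H ω G) : EGC E p h F = EGC E p h H := by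
  unfold EGC
  exact sExC_congr E p _ _ fun ω hω => sExC_congr _ h _ _ fun G _ => hFH ω hω G

private theorem sEGC_norm (E : Finset (Sym2 V)) (p h : ℝ) (h0 : 0 ≤ p)
    (h1 : p ≤ 1) (hh0 : 0 ≤ h) (hh1 : h ≤ 1) (F : Finset (Sym2 V) → Finset V → ℂ) :
    ‖EGC E p h F‖ ≤ EG E p h (fun ω G => ‖F ω G‖) := by
  unfold EGC EG
  refine (ExC_norm_le E p h0 h1 _).trans ?_
  exact Ex_mono E p h0 h1 _ _ fun ω _ => ExC_norm_le _ h hh0 hh1 _

end D3SA

private theorem s_bb1 {V : Type} (e : ℝ) (D : Finset V) : 1 ≤ bb e D := by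
  unfold bb
  have : 0 ≤ e ^ 2 * (D.card : ℝ) := by positivity
  linarith

private theorem s_diag (m : ℕ) : ∀ e ∈ cubeE m, ¬ e.IsDiag := by
  intro e he
  unfold cubeE at he
  rw [SimpleGraph.mem_edgeFinset] at he
  exact (cube m).not_isDiag_of_mem_edgeSet he

private theorem s_hh1 {C0 e p h : ℝ} {K m : ℕ} (R : Reg C0 K m e p h) : h ≤ 1 / 4 := by
  have h1 := R.hh
  have h2 := R.he1
  have h3 := R.he0
  nlinarith

theorem cov_w (C0 e p h : ℝ) (K m : ℕ) (R : Reg C0 K m e p h) (hK : 4 ≤ K) (D : Finset (Q m))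
    (z : Q m) (hz : z ∉ D) :
    EG (cubeE m) p h (fun ω G => ind (z ∉ cls (ω ∩ offE (cubeE m) D) G) * NN (cubeE m) D ω G) -
      EG (cubeE m) p h (fun ω G => ind (z ∉ cls (ω ∩ offE (cubeE m) D) G)) *
        EG (cubeE m) p h (NN (cubeE m) D) ≤ 36 * C0 ^ 3 / e * bb e D ^ 2 := by
  have h0 := R.hp0
  have h1 : p ≤ 1 := by have := R.hp1; linarith
  have hh0 := R.hh0
  have hh1 : h ≤ 1 := by have := s_hh1 R; linarith
  have he0 := R.he0
  have he1 : e ≤ 1 := by have := R.he1; linarith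
  have hC0 := R.hC0
  have g1 := gid (cubeE m) p h D z hz (fun n => n)
  have g2 := gid (cubeE m) p h D z hz (fun _ => 1)
  simp only [mul_one, sEG_const] at g2
  rw [g1, g2, mul_comm (Ex (offE (cubeE m) D) p _), ← Ex_mul_left, ← Ex_sub]
  have e1 : Ex (offE (cubeE m) D) p (fun ω => (1 - h) ^ (cl ω z).card *
      EG (cubeE m) p h (fun ω_1 G => ((cl ω z).card : ℝ) + NN (cubeE m) (D ∪ cl ω z) ω_1 G) -
        EG (cubeE m) p h (NN (cubeE m) D) * (1 - h) ^ (cl ω z).card) =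
      Ex (offE (cubeE m) D) p (fun ω => (1 - h) ^ (cl ω z).card *
        EG (cubeE m) p h (DL (cubeE m) D (cl ω z))) := by
    refine Ex_congr _ _ _ _ fun ω _ => ?_
    have e2 : EG (cubeE m) p h (DL (cubeE m) D (cl ω z)) =
        EG (cubeE m) p h (fun ω_1 G => ((cl ω z).card : ℝ) + NN (cubeE m) (D ∪ cl ω z) ω_1 G) -
          EG (cubeE m) p h (NN (cubeE m) D) := by
      rw [← sEG_sub]
      rfl
    rw [e2]
    ring
  rw [e1]
  have e3 : Ex (offE (cubeE m) D) p (fun ω => (1 - h) ^ (cl ω z).card *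
        EG (cubeE m) p h (DL (cubeE m) D (cl ω z))) ≤
      Ex (offE (cubeE m) D) p (fun ω => (18 * C0 ^ 2) * (((cl ω z).card : ℝ) ^ 1 *
        (1 - h) ^ (cl ω z).card * bb e (D ∪ cl ω z) ^ 1)) := by
    refine Ex_mono _ p h0 h1 _ _ fun ω hω => ?_
    have hd : Disjoint (cl ω z) D := xb_cl_off' (cubeE m) ω D hω z hz
    have e4 := del_set C0 e p h K m R (by omega) D (cl ω z) hd
    have e5 : 0 ≤ (1 - h) ^ (cl ω z).card := pow_nonneg (by linarith) _
    calc (1 - h) ^ (cl ω z).card * EG (cubeE m) p h (DL (cubeE m) D (cl ω z))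
        ≤ (1 - h) ^ (cl ω z).card * (18 * C0 ^ 2 * (cl ω z).card * bb e (D ∪ cl ω z)) :=
          mul_le_mul_of_nonneg_left e4 e5
      _ = _ := by ring
  refine e3.trans ?_
  rw [Ex_mul_left]
  have e6 := mob m K C0 e p h hC0 he0 he1 h0 h1 hh0 hh1 R.hmo 1 1 (by omega) D z
  rw [if_neg (by norm_num)] at e6
  calc 18 * C0 ^ 2 * _ ≤ 18 * C0 ^ 2 * (2 ^ 1 * C0 * (e / e ^ (2 * 1)) * bb e D ^ (1 + 1)) :=
        mul_le_mul_of_nonneg_left e6 (by positivity)
    _ = 36 * C0 ^ 3 / e * bb e D ^ 2 := by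
        field_simp
        ring

private theorem s_dgr_eq {V : Type} (E : Finset (Sym2 V)) (a : V) (U : Finset V)
    [DecidablePred fun z => s(a, z) ∈ E] : dgr E a U = (U.filter fun z => s(a, z) ∈ E).card := by
  unfold dgr
  congr!

private theorem s_deg_le {m : ℕ} (a : Q m) (U : Finset (Q m)) : dgr (cubeE m) a U ≤ m := by
  classical
  have h := nb_cube_one m a
  unfold nb at h
  rw [Finset.sum_const, nsmul_eq_mul, mul_one] at h
  have h2 : (univ.filter (fun z => s(a, z) ∈ cubeE m)).card = m := by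
    have h3 : ((univ.filter (fun z => s(a, z) ∈ cubeE m)).card : ℝ) = m := by
      rw [← h]; congr!
    exact_mod_cast h3
  have h4 : dgr (cubeE m) a U ≤ (univ.filter (fun z => s(a, z) ∈ cubeE m)).card := by
    rw [s_dgr_eq]
    refine Finset.card_le_card ?_
    intro z hz
    rw [Finset.mem_filter] at hz ⊢
    exact ⟨Finset.mem_univ _, hz.2⟩
  omega

private theorem s_dgr_mono {V : Type} (E : Finset (Sym2 V)) (a : V) (U U' : Finset V)
    (h : U ⊆ U') : dgr E a U ≤ dgr E a U' := by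
  classical
  rw [s_dgr_eq, s_dgr_eq]
  exact Finset.card_le_card (Finset.filter_subset_filter _ h)

/-- `4 p d - (1-p)^(-d)` is increasing up to `m` -/
private theorem s_incr (p : ℝ) (m : ℕ) (h0 : 0 ≤ p) (h1 : p ≤ 1 / 2) (hq : 1 / 4 ≤ (1 - p) ^ m)
    (a b : ℕ) (hab : a ≤ b) (hb : b ≤ m) :
    4 * p * a - ((1 - p) ^ a)⁻¹ ≤ 4 * p * b - ((1 - p) ^ b)⁻¹ := by
  induction b, hab using Nat.le_induction with
  | base => exact le_rfl
  | succ b hab ih =>
    have ih' := ih (by omega)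
    refine ih'.trans ?_
    have hp : 0 < 1 - p := by linarith
    have h2 : 1 / 4 ≤ (1 - p) ^ (b + 1) :=
      hq.trans (pow_le_pow_of_le_one hp.le (by linarith) hb)
    have h3 : ((1 - p) ^ (b + 1))⁻¹ ≤ 4 := by
      rw [inv_le_comm₀ (by positivity) (by norm_num)]
      linarith
    have h4 : ((1 - p) ^ (b + 1))⁻¹ - ((1 - p) ^ b)⁻¹ = p * ((1 - p) ^ (b + 1))⁻¹ := by
      rw [pow_succ]
      field_simp
      ring
    push_cast
    nlinarith [mul_le_mul_of_nonneg_left h3 h0]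

theorem cov_psi (C0 e p h : ℝ) (K m : ℕ) (R : Reg C0 K m e p h) (hK : 4 ≤ K) (D : Finset (Q m))
    (a : Q m) (ha : a ∈ D) :
    EG (cubeE m) p h (psi (cubeE m) p h D a) * EG (cubeE m) p h (NN (cubeE m) D) -
      EG (cubeE m) p h (fun ω G => psi (cubeE m) p h D a ω G * NN (cubeE m) D ω G) ≤
      288 * C0 ^ 3 / e * bb e D ^ 2 := by
  classical
  have h0 := R.hp0
  have h1 : p ≤ 1 := by have := R.hp1; linarith
  have hh0 := R.hh0
  have hh1 : h ≤ 1 := by have := s_hh1 R; linarith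
  have he0 := R.he0
  have hC0 := R.hC0
  set d : Finset (Sym2 (Q m)) → Finset (Q m) → ℝ := fun ω G =>
    (dgr (cubeE m) a (WW (cubeE m) D ω G) : ℝ) with hd
  have hH := harris2 (cubeE m) p h h0 h1 hh0 hh1
    (fun ω G => 4 * p * d ω G - psi (cubeE m) p h D a ω G) (fun ω G => (-1) * NN (cubeE m) D ω G)
    (by
      intro ω ω' G G' hω _ hG
      have h2 := s_dgr_mono (cubeE m) a _ _ (ww_mono (cubeE m) D ω ω' G G' hω hG)
      have h3 := s_incr p m h0 R.hp1 R.hq _ _ h2 (s_deg_le a _)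
      simp only [hd, psi]
      linarith)
    (by
      intro ω ω' G G' hω _ hG
      have h2 := nn_anti (cubeE m) D ω ω' G G' hω hG
      linarith)
  rw [sEG_sub, sEG_mul, sEG_mul] at hH
  have e1 : EG (cubeE m) p h (fun ω G => (4 * p * d ω G - psi (cubeE m) p h D a ω G) *
      ((-1) * NN (cubeE m) D ω G)) = EG (cubeE m) p h (fun ω G => psi (cubeE m) p h D a ω G *
        NN (cubeE m) D ω G) - 4 * p * EG (cubeE m) p h (fun ω G => d ω G * NN (cubeE m) D ω G) := by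
    rw [← sEG_mul, ← sEG_sub]
    refine sEG_congr _ _ _ _ _ fun ω _ G => ?_
    ring
  rw [e1] at hH
  -- covariance of `d`
  set N : Finset (Q m) := univ.filter (fun z => z ∉ D ∧ s(a, z) ∈ cubeE m) with hN
  have hNc : (N.card : ℝ) ≤ m := by
    have h2 : N.card ≤ dgr (cubeE m) a univ := by
      rw [s_dgr_eq]
      refine Finset.card_le_card ?_
      intro z hz
      rw [hN, Finset.mem_filter] at hz
      rw [Finset.mem_filter]
      exact ⟨Finset.mem_univ _, hz.2.2⟩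
    exact_mod_cast h2.trans (s_deg_le a univ)
  have e2 : ∀ ω G, d ω G = ∑ z ∈ N, (1 - ind (z ∉ cls (ω ∩ offE (cubeE m) D) G)) := by
    intro ω G
    simp only [hd]
    have h2 : (univ.filter (fun z => z ∉ D ∧ s(a, z) ∈ cubeE m)).filter
        (fun z => z ∈ cls (ω ∩ offE (cubeE m) D) G) =
        (WW (cubeE m) D ω G).filter fun z => s(a, z) ∈ cubeE m := by
      ext z
      rw [Finset.mem_filter, Finset.mem_filter, Finset.mem_filter, ww_mem]
      simp only [Finset.mem_univ, true_and]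
      tauto
    have h3 : (dgr (cubeE m) a (WW (cubeE m) D ω G) : ℝ) =
        ((N.filter (fun z => z ∈ cls (ω ∩ offE (cubeE m) D) G)).card : ℝ) := by
      rw [hN, h2, s_dgr_eq]
    rw [h3, Finset.card_filter]
    push_cast
    refine Finset.sum_congr rfl fun z _ => ?_
    unfold ind
    by_cases hz : z ∈ cls (ω ∩ offE (cubeE m) D) G
    · rw [if_pos hz, if_neg (not_not.2 hz)]; ring
    · rw [if_neg hz, if_pos hz]; ring
  have e3 : EG (cubeE m) p h d = ∑ z ∈ N, (1 - EG (cubeE m) p h (fun ω G =>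
      ind (z ∉ cls (ω ∩ offE (cubeE m) D) G))) := by
    have h2 : EG (cubeE m) p h d = EG (cubeE m) p h (fun ω G =>
        ∑ z ∈ N, (1 - ind (z ∉ cls (ω ∩ offE (cubeE m) D) G))) :=
      sEG_congr _ _ _ _ _ fun ω _ G => e2 ω G
    rw [h2, sEG_sum]
    refine Finset.sum_congr rfl fun z _ => ?_
    rw [sEG_sub, sEG_const]
  have e4 : EG (cubeE m) p h (fun ω G => d ω G * NN (cubeE m) D ω G) =
      ∑ z ∈ N, (EG (cubeE m) p h (NN (cubeE m) D) - EG (cubeE m) p h (fun ω G =>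
        ind (z ∉ cls (ω ∩ offE (cubeE m) D) G) * NN (cubeE m) D ω G)) := by
    have h2 : EG (cubeE m) p h (fun ω G => d ω G * NN (cubeE m) D ω G) =
        EG (cubeE m) p h (fun ω G => ∑ z ∈ N, (NN (cubeE m) D ω G -
          ind (z ∉ cls (ω ∩ offE (cubeE m) D) G) * NN (cubeE m) D ω G)) := by
      refine sEG_congr _ _ _ _ _ fun ω _ G => ?_
      rw [e2, Finset.sum_mul]
      exact Finset.sum_congr rfl fun z _ => by ring
    rw [h2, sEG_sum]
    refine Finset.sum_congr rfl fun z _ => ?_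
    rw [sEG_sub]
  have e5 : EG (cubeE m) p h d * EG (cubeE m) p h (NN (cubeE m) D) -
      EG (cubeE m) p h (fun ω G => d ω G * NN (cubeE m) D ω G) ≤
      m * (36 * C0 ^ 3 / e * bb e D ^ 2) := by
    rw [e3, e4, Finset.sum_mul, ← Finset.sum_sub_distrib]
    have h2 : ∀ z ∈ N, (1 - EG (cubeE m) p h (fun ω G =>
        ind (z ∉ cls (ω ∩ offE (cubeE m) D) G))) * EG (cubeE m) p h (NN (cubeE m) D) -
        (EG (cubeE m) p h (NN (cubeE m) D) - EG (cubeE m) p h (fun ω G =>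
          ind (z ∉ cls (ω ∩ offE (cubeE m) D) G) * NN (cubeE m) D ω G)) ≤
        36 * C0 ^ 3 / e * bb e D ^ 2 := by
      intro z hz
      rw [hN, Finset.mem_filter] at hz
      have h3 := cov_w C0 e p h K m R hK D z hz.2.1
      linarith
    refine (Finset.sum_le_sum h2).trans ?_
    rw [Finset.sum_const, nsmul_eq_mul]
    exact mul_le_mul_of_nonneg_right hNc (by positivity)
  have hpm := R.hpm
  have hB : 0 ≤ 36 * C0 ^ 3 / e * bb e D ^ 2 := by positivity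
  have e6 : 4 * p * (EG (cubeE m) p h d * EG (cubeE m) p h (NN (cubeE m) D) -
      EG (cubeE m) p h (fun ω G => d ω G * NN (cubeE m) D ω G)) ≤
      8 * (36 * C0 ^ 3 / e * bb e D ^ 2) := by
    calc _ ≤ 4 * p * (m * (36 * C0 ^ 3 / e * bb e D ^ 2)) :=
          mul_le_mul_of_nonneg_left e5 (by linarith)
      _ = 4 * (p * m) * (36 * C0 ^ 3 / e * bb e D ^ 2) := by ring
      _ ≤ 4 * 2 * (36 * C0 ^ 3 / e * bb e D ^ 2) := by
          apply mul_le_mul_of_nonneg_right _ hB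
          linarith
      _ = _ := by ring
  have e7 : 8 * (36 * C0 ^ 3 / e * bb e D ^ 2) = 288 * C0 ^ 3 / e * bb e D ^ 2 := by ring
  rw [e7] at e6
  linarith

private noncomputable def sf (s n : ℝ) : ℂ := Complex.exp (Complex.I * ((s * n : ℝ) : ℂ))

private theorem sf_add (s x y : ℝ) : sf s (x + y) = sf s x * sf s y := by
  unfold sf
  rw [← Complex.exp_add]
  congr 1
  push_cast
  ring

private theorem sf_norm (s x : ℝ) : ‖sf s x‖ = 1 := Complex.norm_exp_I_mul_ofReal _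

private theorem sf_sub (s x y : ℝ) : ‖sf s x - sf s y‖ ≤ |s| * |x - y| := by
  have h1 : sf s x - sf s y = sf s y * (sf s (x - y) - 1) := by
    have h2 : sf s x = sf s y * sf s (x - y) := by
      rw [← sf_add]
      congr 1
      ring
    rw [h2]
    ring
  rw [h1, norm_mul, sf_norm, one_mul]
  unfold sf
  refine Real.norm_exp_I_mul_ofReal_sub_one_le.trans ?_
  rw [Real.norm_eq_abs, abs_mul]

private theorem s_psi_mono {C0 e p h : ℝ} {K m : ℕ} (R : Reg C0 K m e p h) (D : Finset (Q m))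
    (a : Q m) (ω ω' : Finset (Sym2 (Q m))) (G G' : Finset (Q m)) (hω : ω ⊆ ω') (hG : G ⊆ G') :
    psi (cubeE m) p h D a ω G ≤ psi (cubeE m) p h D a ω' G' := by
  have h0 := R.hp0
  have h1 := R.hp1
  have h2 := s_dgr_mono (cubeE m) a _ _ (ww_mono (cubeE m) D ω ω' G G' hω hG)
  unfold psi
  have h3 : (1 - p) ^ dgr (cubeE m) a (WW (cubeE m) D ω' G') ≤
      (1 - p) ^ dgr (cubeE m) a (WW (cubeE m) D ω G) :=
    pow_le_pow_of_le_one (by linarith) (by linarith) h2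
  have h4 : 0 < (1 - p) ^ dgr (cubeE m) a (WW (cubeE m) D ω' G') := pow_pos (by linarith) _
  have h5 := inv_anti₀ h4 h3
  linarith

private theorem s_bracket (C0 e p h : ℝ) (K m : ℕ) (R : Reg C0 K m e p h) (hK : 4 ≤ K)
    (D C : Finset (Q m)) (a : Q m) (ha : a ∉ D) (hC : Disjoint C D) (haC : a ∈ C) (s : ℝ) :
    ‖EGC (cubeE m) p h (fun ω G => (psi (cubeE m) p h (D ∪ C) a ω G : ℂ) *
        sf s ((C.card : ℝ) - 1 + NN (cubeE m) (D ∪ C) ω G)) -
      (EG (cubeE m) p h (psi (cubeE m) p h (D ∪ C) a) : ℂ) *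
        EGC (cubeE m) p h (fun ω G => sf s (NN (cubeE m) (D ∪ {a}) ω G))‖ ≤
      576 * |s| * C0 ^ 3 / e * bb e (D ∪ C) ^ 2 +
        162 * C0 ^ 3 * e * |s| * C.card * bb e (D ∪ C) := by
  classical
  have h0 := R.hp0
  have h1 : p ≤ 1 := by have := R.hp1; linarith
  have hh0 := R.hh0
  have hh1 : h ≤ 1 := by have := s_hh1 R; linarith
  have he0 := R.he0
  have hC0 := R.hC0
  set c : ℝ := (C.card : ℝ) - 1 with hc
  -- first part
  have e1 : EGC (cubeE m) p h (fun ω G => (psi (cubeE m) p h (D ∪ C) a ω G : ℂ) *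
      sf s (c + NN (cubeE m) (D ∪ C) ω G)) = sf s c * EGC (cubeE m) p h (fun ω G =>
        (psi (cubeE m) p h (D ∪ C) a ω G : ℂ) * sf s (NN (cubeE m) (D ∪ C) ω G)) := by
    rw [← sEGC_mul]
    refine sEGC_congr _ _ _ _ _ fun ω _ G => ?_
    rw [sf_add]
    ring
  have e2 : EGC (cubeE m) p h (fun ω G => sf s (c + NN (cubeE m) (D ∪ C) ω G)) =
      sf s c * EGC (cubeE m) p h (fun ω G => sf s (NN (cubeE m) (D ∪ C) ω G)) := by
    rw [← sEGC_mul]
    refine sEGC_congr _ _ _ _ _ fun ω _ G => ?_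
    rw [sf_add]
  have e3 : ‖EGC (cubeE m) p h (fun ω G => (psi (cubeE m) p h (D ∪ C) a ω G : ℂ) *
        sf s (c + NN (cubeE m) (D ∪ C) ω G)) -
      (EG (cubeE m) p h (psi (cubeE m) p h (D ∪ C) a) : ℂ) *
        EGC (cubeE m) p h (fun ω G => sf s (c + NN (cubeE m) (D ∪ C) ω G))‖ ≤
      576 * |s| * C0 ^ 3 / e * bb e (D ∪ C) ^ 2 := by
    rw [e1, e2]
    have e4 : sf s c * EGC (cubeE m) p h (fun ω G =>
          (psi (cubeE m) p h (D ∪ C) a ω G : ℂ) * sf s (NN (cubeE m) (D ∪ C) ω G)) -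
        (EG (cubeE m) p h (psi (cubeE m) p h (D ∪ C) a) : ℂ) *
          (sf s c * EGC (cubeE m) p h (fun ω G => sf s (NN (cubeE m) (D ∪ C) ω G))) =
        sf s c * (EGC (cubeE m) p h (fun ω G =>
          (psi (cubeE m) p h (D ∪ C) a ω G : ℂ) * sf s (NN (cubeE m) (D ∪ C) ω G)) -
        (EG (cubeE m) p h (psi (cubeE m) p h (D ∪ C) a) : ℂ) *
          EGC (cubeE m) p h (fun ω G => sf s (NN (cubeE m) (D ∪ C) ω G))) := by ring
    rw [e4, norm_mul, sf_norm, one_mul]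
    have e5 := newm (cubeE m) p h h0 h1 hh0 hh1 (psi (cubeE m) p h (D ∪ C) a)
      (NN (cubeE m) (D ∪ C))
      (fun ω ω' G G' hω _ hG => s_psi_mono R (D ∪ C) a ω ω' G G' hω hG)
      (fun ω ω' G G' hω _ hG => nn_anti (cubeE m) (D ∪ C) ω ω' G G' hω hG) s
    have e6 := cov_psi C0 e p h K m R hK (D ∪ C) a (Finset.mem_union_right _ haC)
    refine (e5.trans (mul_le_mul_of_nonneg_left e6 (by positivity))).trans (le_of_eq ?_)
    ring
  -- second part
  have e7 : ‖EGC (cubeE m) p h (fun ω G => sf s (c + NN (cubeE m) (D ∪ C) ω G)) -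
      EGC (cubeE m) p h (fun ω G => sf s (NN (cubeE m) (D ∪ {a}) ω G))‖ ≤
      |s| * (18 * C0 ^ 2 * C.card * bb e (D ∪ C)) := by
    rw [← sEGC_sub]
    refine (sEGC_norm _ p h h0 h1 hh0 hh1 _).trans ?_
    have hU : D ∪ {a} ∪ (C \ {a}) = D ∪ C := by
      ext z
      simp only [Finset.mem_union, Finset.mem_singleton, Finset.mem_sdiff]
      constructor
      · rintro ((h2 | rfl) | h2)
        · exact Or.inl h2
        · exact Or.inr haC
        · exact Or.inr h2.1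
      · rintro (h2 | h2)
        · exact Or.inl (Or.inl h2)
        · by_cases hz : z = a
          · exact Or.inl (Or.inr hz)
          · exact Or.inr ⟨h2, hz⟩
    have hcard : ((C \ {a}).card : ℝ) = c := by
      rw [Finset.card_sdiff_of_subset (Finset.singleton_subset_iff.2 haC), Finset.card_singleton,
        Nat.cast_sub (Finset.card_pos.2 ⟨a, haC⟩), hc]
      norm_num
    have e8 : ∀ ω G, c + NN (cubeE m) (D ∪ C) ω G - NN (cubeE m) (D ∪ {a}) ω G =
        DL (cubeE m) (D ∪ {a}) (C \ {a}) ω G := by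
      intro ω G
      unfold DL
      rw [hU, hcard]
    have e9 : EG (cubeE m) p h (fun ω G => ‖sf s (c + NN (cubeE m) (D ∪ C) ω G) -
        sf s (NN (cubeE m) (D ∪ {a}) ω G)‖) ≤
        EG (cubeE m) p h (fun ω G => |s| * DL (cubeE m) (D ∪ {a}) (C \ {a}) ω G) := by
      refine sEG_mono _ p h h0 h1 hh0 hh1 _ _ fun ω _ G => ?_
      refine (sf_sub s _ _).trans (le_of_eq ?_)
      rw [e8, abs_of_nonneg (dl_nonneg _ _ _ _ _)]
    refine e9.trans ?_
    rw [sEG_mul]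
    refine mul_le_mul_of_nonneg_left ?_ (abs_nonneg s)
    have e10 := del_set C0 e p h K m R (by omega) (D ∪ {a}) (C \ {a}) (by
      rw [Finset.disjoint_left]
      intro z hz hz'
      rw [Finset.mem_sdiff, Finset.mem_singleton] at hz
      rw [Finset.mem_union, Finset.mem_singleton] at hz'
      rcases hz' with h2 | h2
      · exact Finset.disjoint_left.1 hC hz.1 h2
      · exact hz.2 h2)
    rw [hU] at e10
    refine e10.trans ?_
    have e11 : ((C \ {a}).card : ℝ) ≤ C.card := by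
      exact_mod_cast Finset.card_le_card Finset.sdiff_subset
    have e12 := s_bb1 e (D ∪ C)
    exact mul_le_mul_of_nonneg_right (mul_le_mul_of_nonneg_left e11 (by positivity)) (by linarith)
  have e13 := psi_mean C0 e p h K m R (D ∪ C) a
  have e14 : 0 ≤ EG (cubeE m) p h (psi (cubeE m) p h (D ∪ C) a) := by
    have := sEG_mono (cubeE m) p h h0 h1 hh0 hh1 (fun _ _ => 0) (psi (cubeE m) p h (D ∪ C) a)
      (fun ω _ G => (psi_bd C0 e p h K m R (D ∪ C) a ω G).1)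
    rwa [sEG_const] at this
  have e15 : EGC (cubeE m) p h (fun ω G => (psi (cubeE m) p h (D ∪ C) a ω G : ℂ) *
        sf s (c + NN (cubeE m) (D ∪ C) ω G)) -
      (EG (cubeE m) p h (psi (cubeE m) p h (D ∪ C) a) : ℂ) *
        EGC (cubeE m) p h (fun ω G => sf s (NN (cubeE m) (D ∪ {a}) ω G)) =
      (EGC (cubeE m) p h (fun ω G => (psi (cubeE m) p h (D ∪ C) a ω G : ℂ) *
        sf s (c + NN (cubeE m) (D ∪ C) ω G)) -
      (EG (cubeE m) p h (psi (cubeE m) p h (D ∪ C) a) : ℂ) *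
        EGC (cubeE m) p h (fun ω G => sf s (c + NN (cubeE m) (D ∪ C) ω G))) +
      (EG (cubeE m) p h (psi (cubeE m) p h (D ∪ C) a) : ℂ) *
        (EGC (cubeE m) p h (fun ω G => sf s (c + NN (cubeE m) (D ∪ C) ω G)) -
          EGC (cubeE m) p h (fun ω G => sf s (NN (cubeE m) (D ∪ {a}) ω G))) := by ring
  rw [e15]
  refine (norm_add_le _ _).trans (add_le_add e3 ?_)
  rw [norm_mul, Complex.norm_real, Real.norm_eq_abs, abs_of_nonneg e14]
  calc _ ≤ (9 * C0 * e) * (|s| * (18 * C0 ^ 2 * C.card * bb e (D ∪ C))) :=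
        mul_le_mul e13 e7 (norm_nonneg _) (by positivity)
    _ = _ := by ring

theorem d3s (C0 e p h : ℝ) (K m : ℕ) (R : Reg C0 K m e p h) (hK : 4 ≤ K) (D : Finset (Q m))
    (a : Q m) (ha : a ∉ D) (s : ℝ) :
    ‖EGC (cubeE m) p h (fun ω G => (DL (cubeE m) D {a} ω G : ℂ) *
        Complex.exp (Complex.I * ((s * NN (cubeE m) (D ∪ {a}) ω G : ℝ) : ℂ))) -
      (EG (cubeE m) p h (DL (cubeE m) D {a}) : ℂ) * EGC (cubeE m) p h (fun ω G =>
        Complex.exp (Complex.I * ((s * NN (cubeE m) (D ∪ {a}) ω G : ℝ) : ℂ)))‖ ≤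
    6000 * C0 ^ 4 * |s| / e ^ 2 * bb e D ^ 3 := by
  classical
  have h0 := R.hp0
  have hp1 := R.hp1
  have h1 : p ≤ 1 := by linarith
  have hh0 := R.hh0
  have hh4 := s_hh1 R
  have hh1 : h ≤ 1 := by linarith
  have he0 := R.he0
  have he1 : e ≤ 1 := by have := R.he1; linarith
  have hC0 := R.hC0
  have hdiag := s_diag m
  have hf : ∀ n : ℝ, Complex.exp (Complex.I * ((s * n : ℝ) : ℂ)) = sf s n := fun n => rfl
  simp only [hf]
  have g1 := snglC (cubeE m) hdiag p h (by linarith) D a ha (fun C => (C.card : ℝ)) (sf s)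
  have g2 := sngl (cubeE m) hdiag p h (by linarith) D a ha (fun C => (C.card : ℝ)) (fun _ => 1)
  simp only [mul_one] at g2
  have hdl : ∀ ω G, DL (cubeE m) D {a} ω G = ind (a ∈ cls (ω ∩ offE (cubeE m) D) G) *
      ((KK (cubeE m) D a ω G).card : ℝ) := fun ω G => dl_single (cubeE m) hdiag D a ha ω G
  have e1 : EGC (cubeE m) p h (fun ω G => (DL (cubeE m) D {a} ω G : ℂ) *
      sf s (NN (cubeE m) (D ∪ {a}) ω G)) = ExC (offE (cubeE m) D) p (fun ω' =>
        (((1 - h) ^ ((cl ω' a).card - 1) * ((cl ω' a).card : ℝ) : ℝ) : ℂ) *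
        EGC (cubeE m) p h (fun ω G => (psi (cubeE m) p h (D ∪ cl ω' a) a ω G : ℂ) *
          sf s (((cl ω' a).card : ℝ) - 1 + NN (cubeE m) (D ∪ cl ω' a) ω G))) := by
    rw [← g1]
    refine sEGC_congr _ _ _ _ _ fun ω _ G => ?_
    rw [hdl]
  have e2 : EG (cubeE m) p h (DL (cubeE m) D {a}) = Ex (offE (cubeE m) D) p (fun ω' =>
      (1 - h) ^ ((cl ω' a).card - 1) * ((cl ω' a).card : ℝ) *
        EG (cubeE m) p h (psi (cubeE m) p h (D ∪ cl ω' a) a)) := by
    rw [← g2]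
    exact sEG_congr _ _ _ _ _ fun ω _ G => hdl ω G
  set Z : ℂ := EGC (cubeE m) p h (fun ω G => sf s (NN (cubeE m) (D ∪ {a}) ω G)) with hZ
  have e3 : (EG (cubeE m) p h (DL (cubeE m) D {a}) : ℂ) * Z =
      ExC (offE (cubeE m) D) p (fun ω' =>
        (((1 - h) ^ ((cl ω' a).card - 1) * ((cl ω' a).card : ℝ) : ℝ) : ℂ) *
        ((EG (cubeE m) p h (psi (cubeE m) p h (D ∪ cl ω' a) a) : ℂ) * Z)) := by
    rw [e2, ← ExC_ofReal, mul_comm, ← ExC_mul_left]
    refine sExC_congr _ _ _ _ fun ω' _ => ?_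
    push_cast
    ring
  rw [e1, e3, ← ExC_sub]
  refine (ExC_norm_le _ p h0 h1 _).trans ?_
  have hpt : ∀ ω' ⊆ offE (cubeE m) D,
      ‖(((1 - h) ^ ((cl ω' a).card - 1) * ((cl ω' a).card : ℝ) : ℝ) : ℂ) *
        EGC (cubeE m) p h (fun ω G => (psi (cubeE m) p h (D ∪ cl ω' a) a ω G : ℂ) *
          sf s (((cl ω' a).card : ℝ) - 1 + NN (cubeE m) (D ∪ cl ω' a) ω G)) -
        (((1 - h) ^ ((cl ω' a).card - 1) * ((cl ω' a).card : ℝ) : ℝ) : ℂ) *
        ((EG (cubeE m) p h (psi (cubeE m) p h (D ∪ cl ω' a) a) : ℂ) * Z)‖ ≤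
      (1152 * |s| * C0 ^ 3 / e) * (((cl ω' a).card : ℝ) ^ 1 * (1 - h) ^ (cl ω' a).card *
        bb e (D ∪ cl ω' a) ^ 2) + (324 * C0 ^ 3 * e * |s|) * (((cl ω' a).card : ℝ) ^ 2 *
        (1 - h) ^ (cl ω' a).card * bb e (D ∪ cl ω' a) ^ 1) := by
    intro ω' hω'
    have hC : Disjoint (cl ω' a) D := xb_cl_off' (cubeE m) ω' D hω' a ha
    have haC : a ∈ cl ω' a := mem_cl_self ω' a
    have hb := s_bracket C0 e p h K m R hK D (cl ω' a) a ha hC haC s
    rw [← mul_sub, norm_mul, Complex.norm_real, Real.norm_eq_abs]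
    set n := (cl ω' a).card with hn
    have hn1 : 1 ≤ n := Finset.card_pos.2 ⟨a, haC⟩
    have hq0 : 0 ≤ (1 - h) ^ (n - 1) := pow_nonneg (by linarith) _
    have hnn : (0 : ℝ) ≤ n := Nat.cast_nonneg _
    rw [abs_of_nonneg (mul_nonneg hq0 hnn)]
    have hq2 : (1 - h) ^ (n - 1) ≤ 2 * (1 - h) ^ n := by
      have h2 : (1 - h) ^ n = (1 - h) ^ (n - 1) * (1 - h) := by
        rw [← pow_succ]
        congr 1
        omega
      rw [h2]
      nlinarith
    have hb1 := s_bb1 e (D ∪ cl ω' a)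
    have hbn : 0 ≤ 576 * |s| * C0 ^ 3 / e * bb e (D ∪ cl ω' a) ^ 2 +
        162 * C0 ^ 3 * e * |s| * n * bb e (D ∪ cl ω' a) := by
      have := abs_nonneg s
      positivity
    calc _ ≤ (2 * (1 - h) ^ n * n) * (576 * |s| * C0 ^ 3 / e * bb e (D ∪ cl ω' a) ^ 2 +
        162 * C0 ^ 3 * e * |s| * n * bb e (D ∪ cl ω' a)) :=
          mul_le_mul (mul_le_mul_of_nonneg_right hq2 hnn) hb (norm_nonneg _)
            (mul_nonneg (mul_nonneg (by norm_num) (pow_nonneg (by linarith) _)) hnn)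
      _ = _ := by ring
  refine (Ex_mono _ p h0 h1 _ _ hpt).trans ?_
  rw [Ex_add, Ex_mul_left, Ex_mul_left]
  have m1 := mob m K C0 e p h hC0 he0 he1 h0 h1 hh0 hh1 R.hmo 1 2 (by omega) D a
  have m2 := mob m K C0 e p h hC0 he0 he1 h0 h1 hh0 hh1 R.hmo 2 1 (by omega) D a
  rw [if_neg (by norm_num)] at m1 m2
  have hs0 := abs_nonneg s
  have n1 := mul_le_mul_of_nonneg_left m1 (show 0 ≤ 1152 * |s| * C0 ^ 3 / e by positivity)
  have n2 := mul_le_mul_of_nonneg_left m2 (show 0 ≤ 324 * C0 ^ 3 * e * |s| by positivity)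
  refine (add_le_add n1 n2).trans ?_
  have k1 : 1152 * |s| * C0 ^ 3 / e * (2 ^ 2 * C0 * (e / e ^ (2 * 1)) * bb e D ^ (1 + 2)) =
      4608 * (C0 ^ 4 * |s| / e ^ 2 * bb e D ^ 3) := by
    field_simp
    ring
  have k2 : 324 * C0 ^ 3 * e * |s| * (2 ^ 1 * C0 * (e / e ^ (2 * 2)) * bb e D ^ (2 + 1)) =
      648 * (C0 ^ 4 * |s| / e ^ 2 * bb e D ^ 3) := by
    field_simp
    ring
  have k3 : 6000 * C0 ^ 4 * |s| / e ^ 2 * bb e D ^ 3 =
      6000 * (C0 ^ 4 * |s| / e ^ 2 * bb e D ^ 3) := by ring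
  have hb1 := s_bb1 e D
  have k4 : 0 ≤ C0 ^ 4 * |s| / e ^ 2 * bb e D ^ 3 := by positivity
  rw [k1, k2, k3]
  linarith

end Pool.Agent.Work.MP_b7dc8a_pr
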