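import Pool.Agent.Work.MP_b7dc8a_pr.B.Xb
import Pool.Agent.Work.MP_b7dc8a_pr.B.Xn
import Pool.Agent.Work.MP_b7dc8a_pr.B.Walk
import Pool.Agent.Work.MP_b7dc8a_pr.B.Four

/-! Definitions for the module family F, groups N (walks) and R (do not change) -/

namespace Pool.Agent.Work.MP_b7dc8a_pr

open Finset

/-- number of steps: about `4 m log m` -/
noncomputable def TN (m : ℕ) : ℕ := 4 * TT m

/-- `log^4 m / m^2` -/
noncomputable def l4 (m : ℕ) : ℝ := Real.log m ^ 4 / (m : ℝ) ^ 2

open Classical in
/-- number of non backtracking walks of length `t` from `x` to `y` whose first step is not to `w` -/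
noncomputable def nbt {V : Type} [Fintype V] (E : Finset (Sym2 V)) : ℕ → V → V → V → ℝ
  | 0, _, x, y => if x = y then 1 else 0
  | (t + 1), w, x, y => nb E (fun z => if z = w then 0 else nbt E t x z y) x

open Classical in
/-- number of non backtracking walks of length `t` from `x` to `y` -/
noncomputable def na {V : Type} [Fintype V] (E : Finset (Sym2 V)) : ℕ → V → V → ℝ
  | 0, x, y => if x = y then 1 else 0
  | (t + 1), x, y => nb E (fun z => nbt E t x z y) x

/-- `∑_{n < (J+1) TN} (n+1)^J P^n(x,y)`, `P` the transition matrix of the random walk on the cube -/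
noncomputable def Loc (m J : ℕ) (x y : Q m) : ℝ :=
  ∑ n ∈ range ((J + 1) * TN m), ((n : ℝ) + 1) ^ J * (wk (cubeE m) n x y / (m : ℝ) ^ n)

/-- probability that the random walk on the cube started at `y` stays outside `S` for `TN m`
steps -/
noncomputable def esc (m : ℕ) (S : Finset (Q m)) (y : Q m) : ℝ :=
  (nb (offE (cubeE m) S))^[TN m] (fun _ => 1) y / (m : ℝ) ^ TN m

/-- characters of the cube -/
noncomputable def chr {m : ℕ} (A : Finset (Fin m)) (x : Q m) : ℝ :=
  ∏ i ∈ A, (if x i then (-1 : ℝ) else 1)

/-- Fourier coefficient of the indicator of `S` -/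
noncomputable def fh {m : ℕ} (S : Finset (Q m)) (A : Finset (Fin m)) : ℝ :=
  (∑ x ∈ S, chr A x) / 2 ^ m

end Pool.Agent.Work.MP_b7dc8a_pr
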