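import Pool.Agent.Work.MP_b7dc8a_pr.F.DefG

/-! Definitions for the module family F, groups I and U (do not change) -/

namespace Pool.Agent.Work.MP_b7dc8a_pr

open Finset

open Classical in
/-- number of neighbours of `a` in `U` -/
noncomputable def dgr {V : Type} (E : Finset (Sym2 V)) (a : V) (U : Finset V) : ℕ :=
  (U.filter fun z => s(a, z) ∈ E).card

/-- `(1-p)^(-d) - (1-h)`, `d` the number of neighbours of `a` in `WW E D ω G` -/
noncomputable def psi {V : Type} [Fintype V] [DecidableEq V] (E : Finset (Sym2 V)) (p h : ℝ)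
    (D : Finset V) (a : V) (ω : Finset (Sym2 V)) (G : Finset V) : ℝ :=
  ((1 - p) ^ dgr E a (WW E D ω G))⁻¹ - (1 - h)

/-- cluster of `a` in the graph without `D` and without the vertices which are connected to `G`
without using `D` and `a` -/
noncomputable def KK {V : Type} [Fintype V] [DecidableEq V] (E : Finset (Sym2 V)) (D : Finset V)
    (a : V) (ω : Finset (Sym2 V)) (G : Finset V) : Finset V :=
  cl (ω ∩ offE E (D ∪ WW E (D ∪ {a}) ω G)) a

open Classical in
/-- sum of the sizes of the ghost free clusters outside `D` over their vertices -/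
noncomputable def SD {V : Type} [Fintype V] [DecidableEq V] (E : Finset (Sym2 V)) (D : Finset V)
    (ω : Finset (Sym2 V)) (G : Finset V) : ℝ :=
  ∑ z ∈ univ.filter (fun z => z ∉ D ∧ z ∉ cls (ω ∩ offE E D) G), ((cl (ω ∩ offE E D) z).card : ℝ)

/-- `∑_{a ∈ A} (h + p * number of neighbours of a in U)` -/
noncomputable def SA {V : Type} (E : Finset (Sym2 V)) (p h : ℝ) (A U : Finset V) : ℝ :=
  ∑ a ∈ A, (h + p * dgr E a U)

open Classical in
/-- sum of the susceptibilities outside `A ∪ U` -/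
noncomputable def RU {V : Type} [Fintype V] [DecidableEq V] (E : Finset (Sym2 V)) (p : ℝ)
    (A U : Finset V) : ℝ :=
  ∑ z ∈ univ.filter (fun z => z ∉ A ∪ U), chi (offE E (A ∪ U)) p z

/-- the regime: `C0` is the constant of the upper bounds for magnetization and moments -/
structure Reg (C0 : ℝ) (K m : ℕ) (e p h : ℝ) : Prop where
  hC0 : 1 ≤ C0
  he0 : 0 < e
  he1 : e ≤ 1 / 2
  hp0 : 0 ≤ p
  hp1 : p ≤ 1 / 2
  hpm : p * m ≤ 2
  hpn : p * ((m : ℝ) - 1) ≤ 1 + 1 / TN m
  hq : 1 / 4 ≤ (1 - p) ^ m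
  hh0 : 0 ≤ h
  hh : h ≤ e ^ 2
  hV : 1 ≤ e ^ 3 * 2 ^ m
  hM : ∀ x : Q m, Mh (cubeE m) p h x ≤ C0 * e
  hmo : ∀ (k : ℕ) (D : Finset (Q m)) (x : Q m), 1 ≤ k → k ≤ K →
    mo (offE (cubeE m) D) p h k x ≤ C0 * e / e ^ (2 * k) * bb e D ^ k

end Pool.Agent.Work.MP_b7dc8a_pr
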