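import Pool.Agent.Work.MP_b7dc8a_pr.F.DefU

/-! Definitions for the module family F, group Z (do not change) -/

namespace Pool.Agent.Work.MP_b7dc8a_pr

open Finset

/-- density of the ghosts: `w^(1/4)/(e V)`, `w = e^3 V`, `V = 2^m` -/
noncomputable def hF (m : ℕ) (e : ℝ) : ℝ := (e ^ 3 * 2 ^ m) ^ (1 / 4 : ℝ) / (e * 2 ^ m)

/-- `c e V` -/
noncomputable def RG (c : ℝ) (m : ℕ) (e : ℝ) : ℕ := ⌊c * e * 2 ^ m⌋₊

/-- threshold for large clusters -/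
noncomputable def RF (c : ℝ) (m : ℕ) (e : ℝ) : ℕ := RG c m e / 2

/-- base point `pa` below the critical point -/
structure Bas (δ : ℝ) (m : ℕ) (pa : ℝ) : Prop where
  hlow : 1 / 2 ≤ pa * m
  hup : pa * m ≤ 1 + 5000 * dl m
  hup2 : pa * ((m : ℝ) - 1) ≤ 1 + Real.log m ^ 5 / (m : ℝ) ^ 2
  hchi : ∀ x, chi (cubeE m) pa x = δ * ((2 : ℝ) ^ m) ^ (1 / 3 : ℝ)
  hM : ∀ (h : ℝ) (x : Q m), 0 ≤ h → h ≤ 1 / 2 → Mh (cubeE m) pa h x ^ 2 ≤ 8000 * h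

open Classical in
/-- the facts about the percolation with parameter `p` which are used in the proof -/
structure PF (C0 c1 c2 c9 B : ℝ) (m : ℕ) (e p h : ℝ) (R : ℕ) : Prop where
  reg : Reg C0 20 m e p h
  small : ∀ x : Q m, Ex (cubeE m) p (fun ω => ((cl ω x).card : ℝ) * ind ((cl ω x).card ≤ R)) ≤
    C0 / e
  cap : ∀ S : Finset (Q m), (S.card : ℝ) ≤ B / e ^ 2 → c1 * m * S.card ≤
    ∑ s ∈ S, ((univ.filter fun y => s(s, y) ∈ cubeE m ∧ y ∉ S ∧ c1 ≤ esc m S y).card : ℝ)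
  good : ∀ (S : Finset (Q m)) (b : Q m), (S.card : ℝ) ≤ B / e ^ 2 → c1 ≤ esc m S b → b ∉ S →
    c9 * e ≤ Mh (offE (cubeE m) S) p h b
  sec : ∀ x : Q m, c2 / e ^ 3 ≤ Ex (cubeE m) p (fun ω =>
    ind (((cl ω x).card : ℝ) ≤ B / e ^ 2) * ((cl ω x).card : ℝ) ^ 2)

end Pool.Agent.Work.MP_b7dc8a_pr
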