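import Pool.Agent.Work.MP_b7dc8a_pr.F.Ab

/-! Module EXTR (M): extrapolation principle.

Let `M2 = Mh (cubeE m) p2 h x`, `H p = h + 2 m (p2 - p) M2`, `g p = Mh (cubeE m) p (H p) x` for
`p ∈ [p1, p2]`, so `g p2 = M2`; `0 <= H p <= h + 2 m (p2 - p1) M2 < 1`. `g` is a polynomial in `p`:
`g p = 1 - ∑_ω p^|ω| (1-p)^(|E|-|ω|) (1 - H p)^|cl ω x|`; by the product rule
`g' p = D(p, H p) - 2 m M2 * (mo_1/(1-H p))` where `D` is the partial derivative in `p`
(`ab_ineq`) and `mo_1/(1-H)` the one in `h` (`mh_deriv`). With `p <= 1/2`: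
`D <= m Mh mo_1/(1-p) <= 2 m g mo_1 <= 2 m g (mo_1/(1-H))`, so `g' <= K (g - M2)` with
`K = 2 m mo_1/(1-H) >= 0`. Suppose `g p0 < M2` for some `p0 ∈ [p1,p2]`. Let `q` be the infimum of the
`p ∈ [p0,p2]` with `g p >= M2` (`p2` is one). On `[p0,q)`: `g < M2`, `g' <= 0`, so `g q <= g p0 < M2` by
the mean value theorem, contradiction with continuity (`g q >= M2`). So `g p1 >= M2`.

The hypothesis `h <= 1` (last argument) is needed (for `h > 1` the statement is false). -/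

namespace Pool.Agent.Work.MP_b7dc8a_pr

open Finset

section EXTR
variable {V : Type} [Fintype V]

/-- `Mh` is differentiable in both variables -/
private theorem extr_diff (E : Finset (Sym2 V)) (x : V) :
    Differentiable ℝ (fun q : ℝ × ℝ => Mh E q.1 q.2 x) := by
  unfold Mh Ex
  fun_prop

private theorem extr_chain (E : Finset (Sym2 V)) (x : V) (p D c h0 : ℝ) (H : ℝ → ℝ)
    (hH : ∀ p, H p = h0 + c * p)
    (hD : HasDerivAt (fun p' => Mh E p' (H p) x) D p) (hh : H p ≠ 1) :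
    HasDerivAt (fun p => Mh E p (H p) x) (D + c * (mo E p (H p) 1 x / (1 - H p))) p := by
  set f : ℝ × ℝ → ℝ := fun q => Mh E q.1 q.2 x with hf
  have hfd : HasFDerivAt f (fderiv ℝ f (p, H p)) (p, H p) :=
    (extr_diff E x (p, H p)).hasFDerivAt
  set L := fderiv ℝ f (p, H p) with hL
  have h1 : HasDerivAt (fun p' : ℝ => ((p' : ℝ), H p)) ((1 : ℝ), (0 : ℝ)) p :=
    (hasDerivAt_id p).prodMk (hasDerivAt_const p (H p))
  have h2 : HasDerivAt (fun s : ℝ => ((p : ℝ), s)) ((0 : ℝ), (1 : ℝ)) (H p) :=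
    (hasDerivAt_const (H p) p).prodMk (hasDerivAt_id (H p))
  have h3 : HasDerivAt (fun p' : ℝ => ((p' : ℝ), H p')) ((1 : ℝ), c) p := by
    have h4 : HasDerivAt H c p := by
      have h5 : H = fun p => h0 + c * p := funext hH
      rw [h5]
      simpa using ((hasDerivAt_id p).const_mul c).const_add h0
    exact (hasDerivAt_id p).prodMk h4
  have e1 : HasDerivAt (fun p' => Mh E p' (H p) x) (L (1, 0)) p :=
    HasFDerivAt.comp_hasDerivAt (f := fun p' : ℝ => ((p' : ℝ), H p)) p hfd h1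
  have e2 : HasDerivAt (fun s => Mh E p s x) (L (0, 1)) (H p) :=
    HasFDerivAt.comp_hasDerivAt (f := fun s : ℝ => ((p : ℝ), s)) (H p) hfd h2
  have e3 : HasDerivAt (fun p' => Mh E p' (H p') x) (L (1, c)) p :=
    HasFDerivAt.comp_hasDerivAt (f := fun p' : ℝ => ((p' : ℝ), H p')) p hfd h3
  have e4 : L (1, 0) = D := e1.unique hD
  have e5 : L (0, 1) = mo E p (H p) 1 x / (1 - H p) := e2.unique (mh_deriv E p (H p) hh x)
  have e6 : L (1, c) = D + c * (mo E p (H p) 1 x / (1 - H p)) := by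
    have h7 : ((1 : ℝ), c) = (1, 0) + c • ((0 : ℝ), (1 : ℝ)) := by
      ext <;> simp
    rw [h7, map_add, map_smul, e4, e5, smul_eq_mul]
  rw [← e6]
  exact e3

private theorem extr_mo_nonneg (E : Finset (Sym2 V)) (p h : ℝ) (h0 : 0 ≤ p) (h1 : p ≤ 1)
    (hh1 : h ≤ 1) (x : V) : 0 ≤ mo E p h 1 x := by
  have h2 := Ex_mono E p h0 h1 (fun _ => 0)
    (fun ω => ((cl ω x).card : ℝ) ^ 1 * (1 - h) ^ (cl ω x).card) (fun ω _ => by
      have : 0 ≤ 1 - h := by linarith
      positivity)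
  rwa [Ex_const] at h2

end EXTR

theorem extr (m : ℕ) (p1 p2 h : ℝ) (h0 : 0 ≤ p1) (h12 : p1 ≤ p2) (h2 : p2 ≤ 1 / 2) (hh0 : 0 ≤ h)
    (x : Q m) (hh1 : h + 2 * m * (p2 - p1) * Mh (cubeE m) p2 h x < 1) (hh2 : h ≤ 1) :
    Mh (cubeE m) p2 h x ≤ Mh (cubeE m) p1 (h + 2 * m * (p2 - p1) * Mh (cubeE m) p2 h x) x := by
  set E := cubeE m with hE
  set M2 := Mh E p2 h x with hM2
  have hM20 : 0 ≤ M2 := (mh_nonneg E p2 h (by linarith) (by linarith) hh0 hh2 x).1
  have hm : (0 : ℝ) ≤ m := Nat.cast_nonneg m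
  set H : ℝ → ℝ := fun p => h + 2 * m * (p2 - p) * M2 with hH
  have hH' : ∀ p, H p = (h + 2 * m * p2 * M2) + (-(2 * m * M2)) * p := by
    intro p
    show h + 2 * m * (p2 - p) * M2 = _
    ring
  set g : ℝ → ℝ := fun p => Mh E p (H p) x with hg
  have hHb : ∀ p, p1 ≤ p → p ≤ p2 → 0 ≤ H p ∧ H p < 1 := by
    intro p hp1 hp2
    constructor
    · have : 0 ≤ 2 * m * (p2 - p) * M2 :=
        mul_nonneg (mul_nonneg (by positivity) (by linarith)) hM20
      show 0 ≤ h + 2 * m * (p2 - p) * M2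
      linarith
    · have h3 : 2 * m * (p2 - p) * M2 ≤ 2 * m * (p2 - p1) * M2 := by
        apply mul_le_mul_of_nonneg_right _ hM20
        apply mul_le_mul_of_nonneg_left _ (by positivity)
        linarith
      show h + 2 * m * (p2 - p) * M2 < 1
      linarith
  have hg2 : g p2 = M2 := by
    show Mh E p2 (h + 2 * m * (p2 - p2) * M2) x = M2
    rw [sub_self, mul_zero, zero_mul, add_zero]
  -- derivative inequality
  have hder : ∀ p, p1 ≤ p → p ≤ p2 → ∃ g' K : ℝ, HasDerivAt g g' p ∧ 0 ≤ K ∧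
      g' ≤ K * (g p - M2) := by
    intro p hp1 hp2
    obtain ⟨hH0, hH1⟩ := hHb p hp1 hp2
    have hp0 : 0 ≤ p := by linarith
    have hpl : p ≤ 1 := by linarith
    obtain ⟨D, hD, hD0, _, hD2⟩ := ab_ineq m p (H p) hp0 hpl hH0 hH1.le x
    have hc := extr_chain E x p D (-(2 * m * M2)) (h + 2 * m * p2 * M2) H hH' hD (by linarith)
    set mo1 := mo E p (H p) 1 x with hmo1
    have hmo0 : 0 ≤ mo1 := extr_mo_nonneg E p (H p) hp0 hpl hH1.le x
    have h1H : 0 < 1 - H p := by linarith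
    have hg0 : 0 ≤ g p := (mh_nonneg E p (H p) hp0 hpl hH0 hH1.le x).1
    refine ⟨_, 2 * m * (mo1 / (1 - H p)), hc, by positivity, ?_⟩
    have h3 : mo1 ≤ mo1 / (1 - H p) := by
      rw [le_div_iff₀ h1H]
      nlinarith
    have h4 : D ≤ 2 * (m * g p * mo1) := by
      have h5 : (1 - p) * D ≤ m * g p * mo1 := hD2
      nlinarith
    have h6 : m * g p * mo1 ≤ m * g p * (mo1 / (1 - H p)) :=
      mul_le_mul_of_nonneg_left h3 (by positivity)
    nlinarith
  by_contra hcon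
  push Not at hcon
  have hcon' : g p1 < M2 := hcon
  -- continuity
  have hcont : ContinuousOn g (Set.Icc p1 p2) := by
    intro p hp
    obtain ⟨g', K, hg', _⟩ := hder p hp.1 hp.2
    exact hg'.continuousAt.continuousWithinAt
  set S : Set ℝ := {p | p ∈ Set.Icc p1 p2 ∧ M2 ≤ g p} with hS
  have hSne : S.Nonempty := ⟨p2, ⟨h12, le_rfl⟩, hg2.ge⟩
  have hSbd : BddBelow S := ⟨p1, fun p hp => hp.1.1⟩
  have hScl : IsClosed S := by
    have : S = Set.Icc p1 p2 ∩ g ⁻¹' Set.Ici M2 := rfl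
    rw [this]
    exact hcont.preimage_isClosed_of_isClosed isClosed_Icc isClosed_Ici
  have hq := hScl.csInf_mem hSne hSbd
  set q := sInf S with hq_def
  obtain ⟨⟨hq1, hq2⟩, hq3⟩ := hq
  have hlt : ∀ p, p1 ≤ p → p < q → g p < M2 := by
    intro p hp1 hpq
    by_contra hc
    push Not at hc
    have : p ∈ S := ⟨⟨hp1, by linarith⟩, hc⟩
    have := csInf_le hSbd this
    linarith
  have hanti : AntitoneOn g (Set.Icc p1 q) := by
    refine antitoneOn_of_deriv_nonpos (convex_Icc p1 q) (hcont.mono fun p hp => ⟨hp.1, hp.2.trans hq2⟩)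
      ?_ ?_
    · intro p hp
      rw [interior_Icc] at hp
      obtain ⟨g', K, hg', _⟩ := hder p hp.1.le (hp.2.le.trans hq2)
      exact hg'.differentiableAt.differentiableWithinAt
    · intro p hp
      rw [interior_Icc] at hp
      obtain ⟨g', K, hg', hK, hle⟩ := hder p hp.1.le (hp.2.le.trans hq2)
      rw [hg'.deriv]
      have h3 := hlt p hp.1.le hp.2
      have h4 : K * (g p - M2) ≤ 0 := mul_nonpos_of_nonneg_of_nonpos hK (by linarith)
      linarith
  have h5 := hanti ⟨le_rfl, hq1⟩ ⟨hq1, le_rfl⟩ hq1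
  linarith

end Pool.Agent.Work.MP_b7dc8a_pr
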