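import Pool.Agent.Work.MP_b7dc8a_pr.F.DefZ
import Pool.Agent.Work.MP_b7dc8a_pr.F.Trans
import Pool.Agent.Work.MP_b7dc8a_pr.Joint
import Pool.Agent.Work.MP_b7dc8a_pr.B.Walk

/-! Module PCA (S-M): the critical point is at distance `O(V^(-1/3))` from the base point. `V = 2^m`.

Choose `K >= 1` with `K^3 >= w0`, `c9 K^(5/4) > lam`, and put `e = K V^(-1/3)` (so `e^3 V = K^3`, `e <= 2^(-m/36)` for large `m`).
Suppose `pc > pa (1 + e)`. `hPF` at `p = pa (1+e)`: `good` with `S = ∅` (`esc m ∅ y = 1 >= c1`: `nb_cube_one` iterated;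
`offE E ∅ = E`): `c9 e <= Mh (cubeE m) p h y <= h chi p y` (`1 - (1-h)^n <= h n`), `h = hF m e = K^(3/4)/(e V)`:
`chi p y >= c9 e^2 V/K^(3/4) = c9 K^(5/4) V^(1/3) > lam V^(1/3)`; but `chi p <= chi pc` (`Ex_mono_p`), contradiction. So
`Kl = K`. -/

namespace Pool.Agent.Work.MP_b7dc8a_pr

open Finset

private theorem pca_offE {V : Type} (E : Finset (Sym2 V)) : offE E ∅ = E := by
  classical
  unfold offE
  simp

private theorem pca_iter (m t : ℕ) (x : Q m) :
    (nb (cubeE m))^[t] (fun _ => 1) x = (m : ℝ) ^ t := by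
  induction t generalizing x with
  | zero => simp
  | succ t ih =>
    rw [Function.iterate_succ_apply']
    have h1 : (nb (cubeE m))^[t] (fun _ => 1) = fun _ => (m : ℝ) ^ t * 1 := by
      funext z; rw [ih z, mul_one]
    rw [h1]
    have h2 : nb (cubeE m) (fun _ => (m : ℝ) ^ t * 1) x =
        (m : ℝ) ^ t * nb (cubeE m) (fun _ => 1) x := by
      unfold nb
      rw [Finset.mul_sum]
    rw [h2, nb_cube_one, pow_succ]

private theorem pca_esc (m : ℕ) (hm : 0 < m) (x : Q m) : esc m ∅ x = 1 := by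
  unfold esc
  rw [pca_offE, pca_iter]
  have : (m : ℝ) ^ TN m ≠ 0 := pow_ne_zero _ (by exact_mod_cast hm.ne')
  exact div_self this

private theorem pca_Mh {m : ℕ} (p h : ℝ) (hp0 : 0 ≤ p) (hp1 : p ≤ 1) (h1 : h ≤ 2)
    (x : Q m) : Mh (cubeE m) p h x ≤ h * chi (cubeE m) p x := by
  unfold Mh chi
  have e1 : Ex (cubeE m) p (fun ω => 1 - h * ((cl ω x).card : ℝ)) ≤
      Ex (cubeE m) p (fun ω => (1 - h) ^ (cl ω x).card) := by
    refine Ex_mono _ _ hp0 hp1 _ _ fun ω _ => ?_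
    have h2 := one_add_mul_le_pow (show (-2 : ℝ) ≤ -h by linarith) (cl ω x).card
    have h3 : (1 + -h) ^ (cl ω x).card = (1 - h) ^ (cl ω x).card := by ring_nf
    rw [h3] at h2
    linarith
  have e2 : Ex (cubeE m) p (fun ω => 1 - h * ((cl ω x).card : ℝ)) =
      1 - h * Ex (cubeE m) p (fun ω => ((cl ω x).card : ℝ)) := by
    have : (fun ω : Finset (Sym2 (Q m)) => 1 - h * ((cl ω x).card : ℝ)) =
        fun ω => 1 + (-h) * ((cl ω x).card : ℝ) := by
      funext ω; ring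
    rw [this, Ex_add, Ex_mul_left, Ex_const]
    ring
  rw [e2] at e1
  linarith

theorem pca (lam w0 C0 c1 c2 c8 c9 B : ℝ) (hlam : 0 < lam) (hc1 : c1 ≤ 1) (hc9 : 0 < c9)
    (hB : 0 ≤ B) : ∃ (Kl : ℝ) (m0 : ℕ), 0 < Kl ∧ ∀ m ≥ m0, ∀ pa pc : ℝ, 0 < pa → pa ≤ pc → pc ≤ 1 →
    (∀ e p : ℝ, 0 < e → e ≤ (2 : ℝ) ^ (-(m : ℝ) / 36) → w0 ≤ e ^ 3 * 2 ^ m →
      pa * (1 + e / 2) ≤ p → p ≤ pa * (1 + 2 * e) →
      PF C0 c1 c2 c9 B m e p (hF m e) (RF c8 m e)) →
    chi (cubeE m) pc (fun _ => false) = lam * ((2 : ℝ) ^ m) ^ (1 / 3 : ℝ) →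
    pc ≤ pa * (1 + Kl / ((2 : ℝ) ^ m) ^ (1 / 3 : ℝ)) := by
  set K : ℝ := 1 + |w0| + lam / c9 with hK
  have hlc : 0 < lam / c9 := div_pos hlam hc9
  have hK1 : 1 ≤ K := by have := abs_nonneg w0; linarith
  have hKpos : 0 < K := by linarith
  have hKw : w0 ≤ K := by have := le_abs_self w0; linarith
  have hKl : lam < c9 * K := by
    have h1 : lam / c9 < K := by have := abs_nonneg w0; linarith
    rw [div_lt_iff₀ hc9] at h1
    linarith
  refine ⟨K, ⌈8 * K⌉₊, hKpos, ?_⟩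
  intro m hm pa pc hpa hpapc hpc1 hPF hchi
  have hmK : 8 * K ≤ (m : ℝ) := le_trans (Nat.le_ceil _) (by exact_mod_cast hm)
  have hm0 : 0 < m := by
    have : (0 : ℝ) < m := by linarith
    exact_mod_cast this
  set V : ℝ := 2 ^ m with hV
  have hVpos : 0 < V := by positivity
  have hV1 : 1 ≤ V := one_le_pow₀ (by norm_num)
  set t : ℝ := V ^ (1 / 3 : ℝ) with ht
  have htpos : 0 < t := Real.rpow_pos_of_pos hVpos _
  have ht1 : 1 ≤ t := Real.one_le_rpow hV1 (by norm_num)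
  have ht3 : t ^ 3 = V := by
    rw [ht, ← Real.rpow_natCast, ← Real.rpow_mul hVpos.le]; norm_num
  by_contra hcon
  push Not at hcon
  set e : ℝ := K / t with he
  have hepos : 0 < e := by positivity
  have he3 : e ^ 3 * V = K ^ 3 := by
    rw [he, ← ht3]; field_simp
  have heV : e * V = K * t ^ 2 := by
    rw [he, ← ht3]; field_simp
  have heVpos : 0 < e * V := by positivity
  -- e is small
  have hesm : e ≤ (2 : ℝ) ^ (-(m : ℝ) / 36) := by
    have h1 : t = (2 : ℝ) ^ ((m : ℝ) / 3) := by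
      rw [ht, hV, ← Real.rpow_natCast, ← Real.rpow_mul (by norm_num)]
      congr 1; ring
    rw [he, div_le_iff₀ htpos, h1, ← Real.rpow_add (by norm_num)]
    have h2 : -(m : ℝ) / 36 + (m : ℝ) / 3 = 11 * m / 36 := by ring
    rw [h2]
    have h3 : (2 : ℝ) ^ (11 * (m : ℝ) / 36) = Real.exp (Real.log 2 * (11 * (m : ℝ) / 36)) := by
      rw [Real.rpow_def_of_pos (by norm_num)]
    rw [h3]
    have h4 := Real.add_one_le_exp (Real.log 2 * (11 * (m : ℝ) / 36))
    have h5 : (1 / 2 : ℝ) ≤ Real.log 2 := by have := Real.log_two_gt_d9; linarith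
    have h6 : (1 / 2 : ℝ) * (11 * (m : ℝ) / 36) ≤ Real.log 2 * (11 * (m : ℝ) / 36) :=
      mul_le_mul_of_nonneg_right h5 (by positivity)
    have h7 : K ≤ (1 / 2 : ℝ) * (11 * (m : ℝ) / 36) := by linarith
    linarith
  have hw : w0 ≤ e ^ 3 * V := by
    rw [he3]
    have : K ≤ K ^ 3 := by
      calc K = K ^ 1 := (pow_one K).symm
        _ ≤ K ^ 3 := pow_le_pow_right₀ hK1 (by norm_num)
    linarith
  set p : ℝ := pa * (1 + e) with hp
  have hP := hPF e p hepos hesm hw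
    (by rw [hp]; exact mul_le_mul_of_nonneg_left (by linarith) hpa.le)
    (by rw [hp]; exact mul_le_mul_of_nonneg_left (by linarith) hpa.le)
  have hp0 : 0 ≤ p := by positivity
  have hppc : p ≤ pc := hcon.le
  have hp1 : p ≤ 1 := le_trans hppc hpc1
  set b : Q m := fun _ => false with hb
  have hgood := hP.good ∅ b (by simp; positivity) (by rw [pca_esc m hm0]; exact hc1)
    (Finset.notMem_empty b)
  rw [pca_offE] at hgood
  have hhF : hF m e = (e ^ 3 * V) ^ (1 / 4 : ℝ) / (e * V) := rfl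
  have hk : (e ^ 3 * V) ^ (1 / 4 : ℝ) ≤ K := by
    rw [he3]
    have h1 : K ^ 3 ≤ K ^ 4 := pow_le_pow_right₀ hK1 (by norm_num)
    calc (K ^ 3) ^ (1 / 4 : ℝ) ≤ (K ^ 4) ^ (1 / 4 : ℝ) :=
          Real.rpow_le_rpow (by positivity) h1 (by norm_num)
      _ = K := by
          rw [← Real.rpow_natCast, ← Real.rpow_mul hKpos.le]; norm_num
  have hhle : hF m e ≤ 1 / t ^ 2 := by
    rw [hhF, heV]
    calc (e ^ 3 * V) ^ (1 / 4 : ℝ) / (K * t ^ 2) ≤ K / (K * t ^ 2) :=
          div_le_div_of_nonneg_right hk (by positivity)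
      _ = 1 / t ^ 2 := by field_simp
  have hh2 : hF m e ≤ 2 := by
    have : 1 / t ^ 2 ≤ 1 := by
      rw [div_le_one (by positivity)]
      exact one_le_pow₀ ht1
    linarith
  have hM := pca_Mh p (hF m e) hp0 hp1 hh2 b
  have hchi0 : 0 ≤ chi (cubeE m) p b := by
    unfold chi
    have := Ex_mono (cubeE m) p hp0 hp1 (fun _ => (0 : ℝ)) (fun ω => ((cl ω b).card : ℝ))
      (fun ω _ => by positivity)
    rwa [Ex_const] at this
  have hmono : chi (cubeE m) p b ≤ chi (cubeE m) pc b := by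
    unfold chi
    refine Ex_mono_p _ _ _ hp0 hppc hpc1 _ fun ω ω' h1 _ => ?_
    exact_mod_cast Finset.card_le_card (cl_mono ω ω' h1 b)
  have h1 : c9 * e ≤ 1 / t ^ 2 * chi (cubeE m) p b :=
    le_trans hgood (le_trans hM (mul_le_mul_of_nonneg_right hhle hchi0))
  have h2 : c9 * e * t ^ 2 ≤ chi (cubeE m) p b := by
    have h3 := mul_le_mul_of_nonneg_right h1 (show 0 ≤ t ^ 2 by positivity)
    have h4 : 1 / t ^ 2 * chi (cubeE m) p b * t ^ 2 = chi (cubeE m) p b := by field_simp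
    linarith
  have h5 : c9 * e * t ^ 2 = c9 * K * t := by
    rw [he]; field_simp
  have h6 : c9 * K * t ≤ lam * t := by
    rw [← h5, ← hchi]
    exact le_trans h2 hmono
  have h7 : c9 * K ≤ lam := le_of_mul_le_mul_right h6 htpos
  linarith

end Pool.Agent.Work.MP_b7dc8a_pr
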