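import Pool.Agent.Work.MP_b7dc8a_pr.F.D2b
import Pool.Agent.Work.MP_b7dc8a_pr.F.DefU
import Pool.Agent.Work.MP_b7dc8a_pr.F.Mhd

/-! Module LRG (S-M): number of vertices in large clusters. `E = cubeE m`, `V = 2^m`.

`Y = |cls ω G| = V - NN E ∅ ω G` for `ω ⊆ E` (`nn_total`, `offE E ∅ = E`), `EG Y <= C0 e V` (`ww_prob`, `hM`),
`Var Y = Var NN <= 36 C0^3 V/e` (`varn_up`), so `EG Y^2 <= 36 C0^3 V/e + (C0 e V)^2`.
`zr_sq`: for fixed `ω`: if `|cl ω x| > R` then `P_G(x ∈ cls ω G) = 1 - (1-h)^|cl ω x| >= 1 - (1-h)^R >= 1/2`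
 (`gh_not`, `gh_hit`), so `ZR R ω <= 2 Ex univ h (|cls ω G|)` and `(ZR R ω)^2 <= 4 Ex univ h (|cls ω G|^2)`.
`no_big`: if `|cl ω x| > L` for some `x`, then with `G`-probability at least `1/2` `G` meets `cl ω x` and
 `|cls ω G| >= L + 1 >= 2 C0 e V >= EG Y + C0 e V`. Chebyshev: `P(Y >= EG Y + C0 e V) <= 36 C0^3 (V/e)/(C0 e V)^2 =
 36 C0/(e^3 V)`. -/

namespace Pool.Agent.Work.MP_b7dc8a_pr

open Finset

section LRG
variable {V : Type} [Fintype V] [DecidableEq V]

private theorem lrg_EG_add (E : Finset (Sym2 V)) (p h : ℝ) (F H : Finset (Sym2 V) → Finset V → ℝ) :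
    EG E p h (fun ω G => F ω G + H ω G) = EG E p h F + EG E p h H := by
  unfold EG
  rw [← Ex_add]
  congr 1
  funext ω
  rw [Ex_add]

private theorem lrg_EG_mul (E : Finset (Sym2 V)) (p h c : ℝ) (F : Finset (Sym2 V) → Finset V → ℝ) :
    EG E p h (fun ω G => c * F ω G) = c * EG E p h F := by
  unfold EG
  rw [← Ex_mul_left]
  congr 1
  funext ω
  rw [Ex_mul_left]

private theorem lrg_EG_const (E : Finset (Sym2 V)) (p h c : ℝ) :
    EG E p h (fun _ _ => c) = c := by
  unfold EG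
  simp only [Ex_const]

private theorem lrg_EG_congr (E : Finset (Sym2 V)) (p h : ℝ)
    (F F' : Finset (Sym2 V) → Finset V → ℝ) (H : ∀ ω ⊆ E, ∀ G, F ω G = F' ω G) :
    EG E p h F = EG E p h F' := by
  unfold EG
  exact Ex_congr _ _ _ _ fun ω hω => Ex_congr _ _ _ _ fun G _ => H ω hω G

private theorem lrg_card (ω : Finset (Sym2 V)) (G : Finset V) :
    ((cls ω G).card : ℝ) = ∑ x, ind (¬ Disjoint (cl ω x) G) := by
  classical
  have h1 : ∀ x, ind (¬ Disjoint (cl ω x) G) = if x ∈ cls ω G then (1 : ℝ) else 0 := by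
    intro x
    by_cases hx : x ∈ cls ω G
    · rw [if_pos hx, ind, if_pos]
      intro hd
      exact (gh_not ω G x).2 hd hx
    · rw [if_neg hx, ind, if_neg]
      rw [not_not]
      exact (gh_not ω G x).1 hx
  rw [Finset.sum_congr rfl fun x _ => h1 x, Finset.sum_ite_mem, Finset.univ_inter,
    Finset.sum_const, nsmul_eq_mul, mul_one]

private theorem lrg_card_ex (h : ℝ) (ω : Finset (Sym2 V)) :
    Ex (univ : Finset V) h (fun G => ((cls ω G).card : ℝ)) =
      ∑ x, (1 - (1 - h) ^ (cl ω x).card) := by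
  have h1 : (fun G : Finset V => ((cls ω G).card : ℝ)) =
      fun G => ∑ x, ind (¬ Disjoint (cl ω x) G) := by
    funext G
    exact lrg_card ω G
  rw [h1, Ex_sum]
  exact Finset.sum_congr rfl fun x _ => gh_hit h (cl ω x)

private theorem lrg_mean (E : Finset (Sym2 V)) (p h : ℝ) :
    EG E p h (fun ω G => ((cls ω G).card : ℝ)) = ∑ x, Mh E p h x := by
  unfold EG
  have h1 : (fun ω : Finset (Sym2 V) => Ex (univ : Finset V) h (fun G => ((cls ω G).card : ℝ))) =
      fun ω => ∑ x, (1 - (1 - h) ^ (cl ω x).card) := by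
    funext ω
    exact lrg_card_ex h ω
  rw [h1, Ex_sum]
  refine Finset.sum_congr rfl fun x _ => ?_
  rw [Ex_sub, Ex_const]
  rfl

private theorem lrg_total (E : Finset (Sym2 V)) (ω : Finset (Sym2 V)) (hω : ω ⊆ E) (G : Finset V) :
    ((cls ω G).card : ℝ) = (Fintype.card V : ℝ) - NN E ∅ ω G := by
  have h1 := nn_total E ∅ ω G
  have h2 : WW E ∅ ω G = cls ω G := by
    ext z
    rw [ww_mem, xb_offE_empty, Finset.inter_eq_left.2 hω]
    simp
  rw [h2, Finset.card_empty, Nat.cast_zero] at h1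
  linarith

/-- the variance of `|cls|` is the variance of `NN` -/
private theorem lrg_var (E : Finset (Sym2 V)) (p h : ℝ) (μ : ℝ)
    (hμ : μ = EG E p h (fun ω G => ((cls ω G).card : ℝ))) :
    EG E p h (fun ω G => (((cls ω G).card : ℝ) - μ) ^ 2) =
      EG E p h (fun ω G => NN E ∅ ω G ^ 2) - EG E p h (NN E ∅) ^ 2 := by
  set v : ℝ := (Fintype.card V : ℝ) with hv
  set n : ℝ := EG E p h (NN E ∅) with hn
  have h1 : μ = v - n := by
    rw [hμ, lrg_EG_congr E p h _ (fun ω G => v + (-1) * NN E ∅ ω G)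
      (fun ω hω G => by rw [lrg_total E ω hω G]; ring), lrg_EG_add, lrg_EG_const, lrg_EG_mul]
    ring
  rw [lrg_EG_congr E p h _ (fun ω G => NN E ∅ ω G ^ 2 + ((-2 * n) * NN E ∅ ω G + n ^ 2))
      (fun ω hω G => by rw [lrg_total E ω hω G, h1]; ring), lrg_EG_add, lrg_EG_add, lrg_EG_const,
      lrg_EG_mul]
  rw [← hn]
  ring

private theorem lrg_sq (E : Finset (Sym2 V)) (p h : ℝ) (μ : ℝ)
    (hμ : μ = EG E p h (fun ω G => ((cls ω G).card : ℝ))) :
    EG E p h (fun ω G => ((cls ω G).card : ℝ) ^ 2) =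
      EG E p h (fun ω G => NN E ∅ ω G ^ 2) - EG E p h (NN E ∅) ^ 2 + μ ^ 2 := by
  rw [← lrg_var E p h μ hμ]
  have h1 : (fun (ω : Finset (Sym2 V)) (G : Finset V) => (((cls ω G).card : ℝ) - μ) ^ 2) =
      fun ω G => ((cls ω G).card : ℝ) ^ 2 + ((-2 * μ) * ((cls ω G).card : ℝ) + μ ^ 2) := by
    funext ω G
    ring
  rw [h1, lrg_EG_add, lrg_EG_add, lrg_EG_const, lrg_EG_mul, ← hμ]
  ring

end LRG

private theorem lrg_mu (C0 e p h : ℝ) (K m : ℕ) (R : Reg C0 K m e p h) :
    0 ≤ EG (cubeE m) p h (fun ω G => ((cls ω G).card : ℝ)) ∧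
    EG (cubeE m) p h (fun ω G => ((cls ω G).card : ℝ)) ≤ C0 * e * 2 ^ m := by
  have hh1 : h ≤ 1 := by
    have := R.hh
    have h2 := R.he1
    have h3 := R.he0
    nlinarith
  rw [lrg_mean]
  constructor
  · exact Finset.sum_nonneg fun x _ =>
      (mh_nonneg (cubeE m) p h R.hp0 (by linarith [R.hp1]) R.hh0 hh1 x).1
  · calc ∑ x : Q m, Mh (cubeE m) p h x ≤ ∑ x : Q m, C0 * e := Finset.sum_le_sum fun x _ => R.hM x
      _ = C0 * e * 2 ^ m := by
        rw [Finset.sum_const, Finset.card_univ, nsmul_eq_mul]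
        have : Fintype.card (Q m) = 2 ^ m := by simp [Q]
        rw [this]
        push_cast
        ring

theorem zr_sq (C0 e p h : ℝ) (K m : ℕ) (R : Reg C0 K m e p h) (hK : 2 ≤ K) (n : ℕ)
    (hn : (1 - h) ^ n ≤ 1 / 2) :
    Ex (cubeE m) p (fun ω => ZR n ω ^ 2) ≤
      4 * (36 * C0 ^ 3 * 2 ^ m / e + (C0 * e * 2 ^ m) ^ 2) := by
  classical
  have hp0 := R.hp0
  have hp1 : p ≤ 1 := by linarith [R.hp1]
  have hh0 := R.hh0
  have hh1 : h ≤ 1 := by
    have := R.hh
    have h2 := R.he1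
    have h3 := R.he0
    nlinarith
  have key : ∀ ω : Finset (Sym2 (Q m)), ZR n ω ≤
      2 * Ex (univ : Finset (Q m)) h (fun G => ((cls ω G).card : ℝ)) := by
    intro ω
    rw [lrg_card_ex]
    have h1 : ZR n ω = ∑ x : Q m, if n < (cl ω x).card then (1 : ℝ) else 0 := by
      unfold ZR
      rw [Finset.sum_ite, Finset.sum_const_zero, add_zero, Finset.sum_const, nsmul_eq_mul, mul_one]
    rw [h1, Finset.mul_sum]
    refine Finset.sum_le_sum fun x _ => ?_
    have h2 : (1 - h) ^ (cl ω x).card ≤ 1 := pow_le_one₀ (by linarith) (by linarith)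
    split_ifs with hx
    · have h3 : (1 - h) ^ (cl ω x).card ≤ (1 - h) ^ n :=
        pow_le_pow_of_le_one (by linarith) (by linarith) hx.le
      linarith
    · linarith
  have h1 : Ex (cubeE m) p (fun ω => ZR n ω ^ 2) ≤
      4 * EG (cubeE m) p h (fun ω G => ((cls ω G).card : ℝ) ^ 2) := by
    unfold EG
    rw [← Ex_mul_left]
    refine Ex_mono _ _ hp0 hp1 _ _ fun ω _ => ?_
    have h2 := key ω
    have h3 : 0 ≤ ZR n ω := by
      unfold ZR
      positivity
    have h4 := Ex_sq_le (univ : Finset (Q m)) h hh0 hh1 (fun G => ((cls ω G).card : ℝ))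
    have h5 : (fun G : Finset (Q m) => |((cls ω G).card : ℝ)|) =
        fun G => ((cls ω G).card : ℝ) := by
      funext G
      exact abs_of_nonneg (by positivity)
    rw [h5] at h4
    nlinarith
  refine h1.trans ?_
  have h2 := lrg_sq (cubeE m) p h _ rfl
  obtain ⟨h3, h4⟩ := lrg_mu C0 e p h K m R
  have h5 := varn_up C0 e p h K m R hK
  have h6 := pow_le_pow_left₀ h3 h4 2
  rw [h2]
  linarith

theorem no_big (C0 e p h : ℝ) (K m : ℕ) (R : Reg C0 K m e p h) (hK : 2 ≤ K) (L : ℕ)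
    (hL : 2 * C0 * e * 2 ^ m ≤ (L : ℝ) + 1) (hL2 : (1 - h) ^ (L + 1) ≤ 1 / 2) :
    Ex (cubeE m) p (fun ω => ind (∃ x, L < (cl ω x).card)) ≤ 72 * C0 / (e ^ 3 * 2 ^ m) := by
  classical
  have hp0 := R.hp0
  have hp1 : p ≤ 1 := by linarith [R.hp1]
  have hh0 := R.hh0
  have hh1 : h ≤ 1 := by
    have := R.hh
    have h2 := R.he1
    have h3 := R.he0
    nlinarith
  have he0 := R.he0
  have hC0 := R.hC0
  have hV : (0 : ℝ) < 2 ^ m := by positivity
  set μ := EG (cubeE m) p h (fun ω G => ((cls ω G).card : ℝ)) with hμ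
  obtain ⟨h3, h4⟩ := lrg_mu C0 e p h K m R
  rw [← hμ] at h3 h4
  set a : ℝ := (C0 * e * 2 ^ m) ^ 2 with ha
  have ha0 : 0 < a := by positivity
  have key : ∀ ω : Finset (Sym2 (Q m)), ind (∃ x, L < (cl ω x).card) ≤
      2 * Ex (univ : Finset (Q m)) h (fun G => (((cls ω G).card : ℝ) - μ) ^ 2 / a) := by
    intro ω
    by_cases hx : ∃ x, L < (cl ω x).card
    · obtain ⟨x, hx'⟩ := hx
      have h5 : Ex (univ : Finset (Q m)) h (fun G => ind (¬ Disjoint (cl ω x) G)) ≤
          Ex (univ : Finset (Q m)) h (fun G => (((cls ω G).card : ℝ) - μ) ^ 2 / a) := by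
        refine Ex_mono _ _ hh0 hh1 _ _ fun G _ => ?_
        by_cases hd : Disjoint (cl ω x) G
        · rw [ind, if_neg (not_not.2 hd)]
          positivity
        · rw [ind, if_pos hd, one_le_div ha0, ha]
          have h6 : x ∈ cls ω G := by
            by_contra hc
            exact hd ((gh_not ω G x).1 hc)
          have h7 : cl ω x ⊆ cls ω G := by
            obtain ⟨g, hg, hg'⟩ := (xb_mem_cls ω G x).1 h6
            intro y hy
            rw [xb_mem_cls]
            refine ⟨g, hg, ?_⟩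
            rw [cl_eq_of_mem ω g x hg'] at hy
            exact hy
          have h8 : ((L : ℝ) + 1) ≤ ((cls ω G).card : ℝ) := by
            have := Finset.card_le_card h7
            exact_mod_cast (Nat.succ_le_of_lt hx').trans this
          refine pow_le_pow_left₀ (by positivity) ?_ 2
          linarith
      rw [gh_hit] at h5
      have h6 : (1 - h) ^ (cl ω x).card ≤ (1 - h) ^ (L + 1) :=
        pow_le_pow_of_le_one (by linarith) (by linarith) hx'
      rw [ind, if_pos ⟨x, hx'⟩]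
      linarith
    · rw [ind, if_neg hx]
      have := xb_Ex_nonneg (univ : Finset (Q m)) h hh0 hh1
        (fun G => (((cls ω G).card : ℝ) - μ) ^ 2 / a) (fun G _ => by positivity)
      linarith
  have h5 : Ex (cubeE m) p (fun ω => ind (∃ x, L < (cl ω x).card)) ≤
      2 / a * EG (cubeE m) p h (fun ω G => (((cls ω G).card : ℝ) - μ) ^ 2) := by
    unfold EG
    rw [← Ex_mul_left]
    refine Ex_mono _ _ hp0 hp1 _ _ fun ω _ => (key ω).trans (le_of_eq ?_)
    rw [← Ex_mul_left, ← Ex_mul_left]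
    congr 1
    funext G
    ring
  refine h5.trans ?_
  rw [lrg_var (cubeE m) p h μ hμ]
  have h6 := varn_up C0 e p h K m R hK
  calc 2 / a * _ ≤ 2 / a * (36 * C0 ^ 3 * 2 ^ m / e) :=
        mul_le_mul_of_nonneg_left h6 (by positivity)
    _ = 72 * C0 / (e ^ 3 * 2 ^ m) := by
        rw [ha]
        field_simp
        ring

end Pool.Agent.Work.MP_b7dc8a_pr
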