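import Pool.Agent.Work.MP_b7dc8a_pr.F.DefU
import Pool.Agent.Work.MP_b7dc8a_pr.F.Ab

/-! Module ORP (S-M): the density of large clusters increases slowly. `E = cubeE m`, `M(p) = Mh E p h x`,
`θ(p) = Ex E p (ind (R < |cl ω x|))`, `t = (1-h)^R <= 1/2`.

(1) `M(p) >= (1 - t) θ(p)` (`1 - (1-h)^n >= 1 - t` for `n > R`), so `θ(p) <= M(p)/(1-t) <= M(p) (1 + 2t) <= M(p) + 2 t C0 e`.
(2) `ab_ineq` on `[p1, p]`: `M' = D <= m M mo_1/(1-p') <= 2 m (C0 e) (C0/e)`; mean value inequality: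
 `M(p) <= M(p1) + 2 m C0^2 (p - p1)`.
(3) `M(p1) <= θ(p1) + h Ex E p1 (|cl ω x| ind (|cl ω x| <= R)) <= θ(p1) + h C0/e` (`1 - (1-h)^n <= min 1 (h n)`).
`orp_mark`: `|cl (ζ ∪ η) x| > R` and `|cl ζ x| <= R`: its probability is `θ(p) - θ(p1)` (`xb_Ex_two`, `cl_mono`). If
`TwoBig R (ζ ∪ η)` holds, then either there are more than `R` such vertices `x`, or every cluster of `ζ ∪ η` with more
than `R` vertices contains a vertex `x` with `|cl ζ x| > R`, so there are `x, y` with `|cl ζ x|, |cl ζ y| > R` and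
`y ∉ cl (ζ ∪ η) x`. Markov's inequality: `P(more than R) <= 2^m (θ(p) - θ(p1))/R`. -/

namespace Pool.Agent.Work.MP_b7dc8a_pr

open Finset

private theorem orp_ind1 {P : Prop} (h : P) : ind P = 1 := by rw [ind, if_pos h]

private theorem orp_ind0 {P : Prop} (h : ¬ P) : ind P = 0 := by rw [ind, if_neg h]

private theorem orp_M (m : ℕ) (p h : ℝ) (x : Q m) :
    Mh (cubeE m) p h x = Ex (cubeE m) p (fun ω => 1 - (1 - h) ^ (cl ω x).card) := by
  unfold Mh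
  rw [Ex_sub, Ex_const]

private theorem orp_num (k C0 e M o D p' : ℝ) (hk : 0 ≤ k) (hC0 : 0 ≤ C0) (he : 0 < e)
    (hp' : p' ≤ 1 / 2) (hD : 0 ≤ D) (hM0 : 0 ≤ M) (ho : 0 ≤ o) (hM : M ≤ C0 * e)
    (ho2 : o ≤ C0 / e) (h : (1 - p') * D ≤ k * M * o) : D ≤ 2 * k * C0 ^ 2 := by
  have b5 : k * M * o ≤ k * C0 ^ 2 := by
    have h1 : M * o ≤ C0 * e * (C0 / e) := mul_le_mul hM ho2 ho (by positivity)
    have h2 : C0 * e * (C0 / e) = C0 ^ 2 := by field_simp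
    rw [h2] at h1
    calc k * M * o = k * (M * o) := by ring
      _ ≤ _ := mul_le_mul_of_nonneg_left h1 hk
  nlinarith

private theorem orp_slope (m : ℕ) (p1 p h e C0 : ℝ) (h0 : 0 ≤ p1) (h01 : p1 ≤ p)
    (h1 : p ≤ 1 / 2) (hh0 : 0 ≤ h) (hh1 : h ≤ 1) (he : 0 < e) (hC0 : 0 ≤ C0)
    (hM : ∀ p', p1 ≤ p' → p' ≤ p → ∀ x : Q m, Mh (cubeE m) p' h x ≤ C0 * e)
    (hmo : ∀ p', p1 ≤ p' → p' ≤ p → ∀ x : Q m, mo (cubeE m) p' h 1 x ≤ C0 / e) (x : Q m) :
    Mh (cubeE m) p h x - Mh (cubeE m) p1 h x ≤ 2 * m * C0 ^ 2 * (p - p1) := by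
  have hd : ∀ p' ∈ Set.Icc p1 p, ∃ D : ℝ, HasDerivAt (fun p => Mh (cubeE m) p h x) D p' ∧
      D ≤ 2 * m * C0 ^ 2 := by
    rintro p' ⟨hp1', hp2'⟩
    obtain ⟨D, hD, hD0, -, hD1⟩ := ab_ineq m p' h (h0.trans hp1') (by linarith) hh0 hh1 x
    refine ⟨D, hD, orp_num m C0 e _ _ D p' (Nat.cast_nonneg m) hC0 he (by linarith) hD0 ?_ ?_
      (hM p' hp1' hp2' x) (hmo p' hp1' hp2' x) hD1⟩
    · rw [orp_M]
      refine xb_Ex_nonneg _ _ (h0.trans hp1') (by linarith) _ fun ω _ => ?_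
      have : (1 - h) ^ (cl ω x).card ≤ 1 := pow_le_one₀ (by linarith) (by linarith)
      linarith
    · unfold mo
      refine xb_Ex_nonneg _ _ (h0.trans hp1') (by linarith) _ fun ω _ => ?_
      have : 0 ≤ (1 - h) ^ (cl ω x).card := pow_nonneg (by linarith) _
      positivity
  have h5 := (convex_Icc p1 p).image_sub_le_mul_sub_of_deriv_le
    (f := fun p => Mh (cubeE m) p h x) (C := 2 * m * C0 ^ 2)
    (fun y hy => by
      obtain ⟨D, hD, -⟩ := hd y hy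
      exact hD.continuousAt.continuousWithinAt)
    (fun y hy => by
      obtain ⟨D, hD, -⟩ := hd y (interior_subset hy)
      exact hD.differentiableAt.differentiableWithinAt)
    (fun y hy => by
      obtain ⟨D, hD, hD1⟩ := hd y (interior_subset hy)
      rw [hD.deriv]
      exact hD1)
  exact h5 p1 (Set.left_mem_Icc.2 h01) p (Set.right_mem_Icc.2 h01) h01

theorem orp (m : ℕ) (p1 p h e C0 : ℝ) (R : ℕ) (h0 : 0 ≤ p1) (h01 : p1 ≤ p) (h1 : p ≤ 1 / 2)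
    (hh0 : 0 ≤ h) (hh1 : h ≤ 1) (he : 0 < e) (hC0 : 0 ≤ C0) (ht : (1 - h) ^ R ≤ 1 / 2)
    (hM : ∀ p', p1 ≤ p' → p' ≤ p → ∀ x : Q m, Mh (cubeE m) p' h x ≤ C0 * e)
    (hmo : ∀ p', p1 ≤ p' → p' ≤ p → ∀ x : Q m, mo (cubeE m) p' h 1 x ≤ C0 / e)
    (hs : ∀ x : Q m, Ex (cubeE m) p1 (fun ω => ((cl ω x).card : ℝ) *
      ind ((cl ω x).card ≤ R)) ≤ C0 / e) (x : Q m) :
    Ex (cubeE m) p (fun ω => ind (R < (cl ω x).card)) -
      Ex (cubeE m) p1 (fun ω => ind (R < (cl ω x).card)) ≤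
    2 * m * C0 ^ 2 * (p - p1) + 2 * (1 - h) ^ R * C0 * e + h * C0 / e := by
  have hp0 : 0 ≤ p := h0.trans h01
  have hp1 : p ≤ 1 := by linarith
  set t := (1 - h) ^ R with htdef
  have ht0 : 0 ≤ t := pow_nonneg (by linarith) _
  set θ := Ex (cubeE m) p (fun ω => ind (R < (cl ω x).card)) with hθ
  set θ1 := Ex (cubeE m) p1 (fun ω => ind (R < (cl ω x).card)) with hθ1
  -- (1)
  have s1 : (1 - t) * θ ≤ Mh (cubeE m) p h x := by
    rw [orp_M, hθ, ← Ex_mul_left]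
    refine Ex_mono _ _ hp0 hp1 _ _ fun ω _ => ?_
    by_cases hc : R < (cl ω x).card
    · rw [orp_ind1 hc, mul_one]
      have : (1 - h) ^ (cl ω x).card ≤ t :=
        pow_le_pow_of_le_one (by linarith) (by linarith) hc.le
      linarith
    · rw [orp_ind0 hc, mul_zero]
      have : (1 - h) ^ (cl ω x).card ≤ 1 := pow_le_one₀ (by linarith) (by linarith)
      linarith
  have s1' : θ ≤ Mh (cubeE m) p h x + 2 * t * C0 * e := by
    have hMp := hM p h01 le_rfl x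
    have hθ0 : 0 ≤ θ := xb_Ex_nonneg _ _ hp0 hp1 _ fun ω _ => xb_ind_nonneg _
    have a1 : θ ≤ 2 * Mh (cubeE m) p h x := by nlinarith
    have a2 : t * θ ≤ t * (2 * (C0 * e)) := mul_le_mul_of_nonneg_left (by linarith) ht0
    linarith
  -- (2)
  have s2 : Mh (cubeE m) p h x - Mh (cubeE m) p1 h x ≤ 2 * m * C0 ^ 2 * (p - p1) :=
    orp_slope m p1 p h e C0 h0 h01 h1 hh0 hh1 he hC0 hM hmo x
  -- (3)
  have s3 : Mh (cubeE m) p1 h x ≤ θ1 + h * (C0 / e) := by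
    have c1 : Mh (cubeE m) p1 h x ≤ θ1 + h * Ex (cubeE m) p1 (fun ω => ((cl ω x).card : ℝ) *
        ind ((cl ω x).card ≤ R)) := by
      rw [orp_M, hθ1, ← Ex_mul_left, ← Ex_add]
      refine Ex_mono _ _ h0 (by linarith) _ _ fun ω _ => ?_
      by_cases hc : R < (cl ω x).card
      · rw [orp_ind1 hc, orp_ind0 (not_le.2 hc)]
        have : 0 ≤ (1 - h) ^ (cl ω x).card := pow_nonneg (by linarith) _
        linarith
      · rw [orp_ind0 hc, orp_ind1 (not_lt.1 hc)]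
        have h6 := one_add_mul_le_pow (show (-2 : ℝ) ≤ -h by linarith) (cl ω x).card
        have h7 : (1 + -h) = 1 - h := by ring
        rw [h7] at h6
        linarith
    have c2 := mul_le_mul_of_nonneg_left (hs x) hh0
    linarith
  have h8 : h * (C0 / e) = h * C0 / e := by ring
  linarith

theorem orp_mark (m : ℕ) (p1 q d : ℝ) (R : ℕ) (hR : 1 ≤ R) (h0 : 0 ≤ p1) (h1 : p1 ≤ 1)
    (hq0 : 0 ≤ q) (hq1 : q ≤ 1)
    (hd : ∀ x : Q m, Ex (cubeE m) (p1 + q - p1 * q) (fun ω => ind (R < (cl ω x).card)) -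
      Ex (cubeE m) p1 (fun ω => ind (R < (cl ω x).card)) ≤ d) :
    Ex (cubeE m) (p1 + q - p1 * q) (fun ω => ind (TwoBig R ω)) ≤
      Ex (cubeE m) p1 (fun ζ => Ex (cubeE m) q (fun η =>
        ind (∃ x y, R < (cl ζ x).card ∧ R < (cl ζ y).card ∧ y ∉ cl (ζ ∪ η) x))) +
      2 ^ m * d / R := by
  have hRR : (0 : ℝ) < R := by exact_mod_cast hR
  have key : ∀ ζ η : Finset (Sym2 (Q m)), ind (TwoBig R (ζ ∪ η)) ≤
      ind (∃ x y, R < (cl ζ x).card ∧ R < (cl ζ y).card ∧ y ∉ cl (ζ ∪ η) x) +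
      (1 / (R : ℝ)) * ∑ x : Q m, (ind (R < (cl (ζ ∪ η) x).card) -
        ind (R < (cl ζ x).card)) := by
    intro ζ η
    have hmono : ∀ x, (cl ζ x).card ≤ (cl (ζ ∪ η) x).card := fun x =>
      card_le_card (cl_mono _ _ subset_union_left x)
    have hnn : ∀ x, 0 ≤ ind (R < (cl (ζ ∪ η) x).card) - ind (R < (cl ζ x).card) := by
      intro x
      have := xb_ind_mono (P := R < (cl ζ x).card) (R := R < (cl (ζ ∪ η) x).card)
        (fun h => h.trans_le (hmono x))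
      linarith
    have hbig : ∀ z, R < (cl (ζ ∪ η) z).card → (∀ z' ∈ cl (ζ ∪ η) z, ¬ R < (cl ζ z').card) →
        1 ≤ (1 / (R : ℝ)) * ∑ x : Q m, (ind (R < (cl (ζ ∪ η) x).card) -
          ind (R < (cl ζ x).card)) := by
      intro z hz hz'
      have h3 : (R : ℝ) ≤ ∑ x : Q m, (ind (R < (cl (ζ ∪ η) x).card) -
          ind (R < (cl ζ x).card)) := by
        calc (R : ℝ) ≤ ((cl (ζ ∪ η) z).card : ℝ) := by exact_mod_cast hz.le
          _ = ∑ x ∈ cl (ζ ∪ η) z, (1 : ℝ) := by simp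
          _ ≤ ∑ x ∈ cl (ζ ∪ η) z, (ind (R < (cl (ζ ∪ η) x).card) -
              ind (R < (cl ζ x).card)) := by
            refine sum_le_sum fun x hx => ?_
            have h4 : R < (cl (ζ ∪ η) x).card := by
              rw [cl_eq_of_mem _ _ _ hx]
              exact hz
            rw [orp_ind1 h4, orp_ind0 (hz' x hx)]
            norm_num
          _ ≤ _ := sum_le_sum_of_subset_of_nonneg (subset_univ _) fun x _ _ => hnn x
      rw [one_div, ← div_eq_inv_mul, one_le_div hRR]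
      exact h3
    have hnn2 : 0 ≤ (1 / (R : ℝ)) * ∑ x : Q m, (ind (R < (cl (ζ ∪ η) x).card) -
          ind (R < (cl ζ x).card)) :=
      mul_nonneg (by positivity) (sum_nonneg fun x _ => hnn x)
    by_cases htb : TwoBig R (ζ ∪ η)
    · rw [orp_ind1 htb]
      obtain ⟨x, y, hx, hy, hxy⟩ := htb
      by_cases ha : ∀ z' ∈ cl (ζ ∪ η) x, ¬ R < (cl ζ z').card
      · have h5 := hbig x hx ha
        have h6 := xb_ind_nonneg (∃ x y, R < (cl ζ x).card ∧ R < (cl ζ y).card ∧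
          y ∉ cl (ζ ∪ η) x)
        linarith
      · by_cases hb : ∀ z' ∈ cl (ζ ∪ η) y, ¬ R < (cl ζ z').card
        · have h5 := hbig y hy hb
          have h6 := xb_ind_nonneg (∃ x y, R < (cl ζ x).card ∧ R < (cl ζ y).card ∧
            y ∉ cl (ζ ∪ η) x)
          linarith
        · push Not at ha hb
          obtain ⟨x', hx', hx2⟩ := ha
          obtain ⟨y', hy', hy2⟩ := hb
          have hE : ∃ x y, R < (cl ζ x).card ∧ R < (cl ζ y).card ∧ y ∉ cl (ζ ∪ η) x := by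
            refine ⟨x', y', hx2, hy2, fun hc => hxy ?_⟩
            rw [cl_eq_of_mem _ _ _ hx'] at hc
            rw [← cl_eq_of_mem _ _ _ hc, cl_eq_of_mem _ _ _ hy']
            exact mem_cl_self _ _
          rw [orp_ind1 hE]
          linarith
    · rw [orp_ind0 htb]
      have h6 := xb_ind_nonneg (∃ x y, R < (cl ζ x).card ∧ R < (cl ζ y).card ∧
        y ∉ cl (ζ ∪ η) x)
      linarith
  rw [xb_Ex_two]
  have h2 : Ex (cubeE m) p1 (fun ζ => Ex (cubeE m) q (fun η => ind (TwoBig R (ζ ∪ η)))) ≤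
      Ex (cubeE m) p1 (fun ζ => Ex (cubeE m) q (fun η =>
        ind (∃ x y, R < (cl ζ x).card ∧ R < (cl ζ y).card ∧ y ∉ cl (ζ ∪ η) x) +
        (1 / (R : ℝ)) * ∑ x : Q m, (ind (R < (cl (ζ ∪ η) x).card) -
          ind (R < (cl ζ x).card)))) :=
    Ex_mono _ _ h0 h1 _ _ fun ζ _ => Ex_mono _ _ hq0 hq1 _ _ fun η _ => key ζ η
  refine h2.trans ?_
  have h3 : (fun ζ => Ex (cubeE m) q (fun η =>
        ind (∃ x y, R < (cl ζ x).card ∧ R < (cl ζ y).card ∧ y ∉ cl (ζ ∪ η) x) +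
        (1 / (R : ℝ)) * ∑ x : Q m, (ind (R < (cl (ζ ∪ η) x).card) -
          ind (R < (cl ζ x).card)))) = fun ζ => Ex (cubeE m) q (fun η =>
        ind (∃ x y, R < (cl ζ x).card ∧ R < (cl ζ y).card ∧ y ∉ cl (ζ ∪ η) x)) +
        (1 / (R : ℝ)) * ∑ x : Q m, (Ex (cubeE m) q (fun η => ind (R < (cl (ζ ∪ η) x).card)) -
          ind (R < (cl ζ x).card)) := by
    funext ζ
    rw [Ex_add, Ex_mul_left, Ex_sum]
    congr 2
    refine sum_congr rfl fun x _ => ?_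
    rw [Ex_sub, Ex_const]
  rw [h3, Ex_add, Ex_mul_left, Ex_sum]
  have h4 : ∀ x : Q m, Ex (cubeE m) p1 (fun ζ => Ex (cubeE m) q (fun η =>
      ind (R < (cl (ζ ∪ η) x).card)) - ind (R < (cl ζ x).card)) ≤ d := by
    intro x
    rw [Ex_sub, ← xb_Ex_two (cubeE m) p1 q (fun ω => ind (R < (cl ω x).card))]
    exact hd x
  have h5 : ∑ x : Q m, Ex (cubeE m) p1 (fun ζ => Ex (cubeE m) q (fun η =>
      ind (R < (cl (ζ ∪ η) x).card)) - ind (R < (cl ζ x).card)) ≤ 2 ^ m * d := by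
    refine (sum_le_sum fun x _ => h4 x).trans (le_of_eq ?_)
    rw [sum_const, card_univ, nsmul_eq_mul]
    have : Fintype.card (Q m) = 2 ^ m := by simp [Q]
    rw [this]
    push_cast
    ring
  have h6 : (1 / (R : ℝ)) * ∑ x : Q m, Ex (cubeE m) p1 (fun ζ => Ex (cubeE m) q (fun η =>
      ind (R < (cl (ζ ∪ η) x).card)) - ind (R < (cl ζ x).card)) ≤ 1 / R * (2 ^ m * d) :=
    mul_le_mul_of_nonneg_left h5 (by positivity)
  have h7 : 1 / (R : ℝ) * (2 ^ m * d) = 2 ^ m * d / R := by ring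
  linarith

end Pool.Agent.Work.MP_b7dc8a_pr
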