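import Pool.Agent.Work.MP_b7dc8a_pr.F.DefU
import Pool.Agent.Work.MP_b7dc8a_pr.B.Mark
import Pool.Agent.Work.MP_b7dc8a_pr.Joint

/-! Module UALLF (M): union bound over pairs of clusters (compare `b_uall` in B/Uall.lean).

For `ζ, η`: if there are `x, y` with `|cl ζ x| > R`, `|cl ζ y| > R`, `y ∉ cl (ζ ∪ η) x`, then all pairs `(x',y')` with
`x' ∈ cl ζ x`, `y' ∈ cl ζ y` have the same property (more than `R^2` pairs). So the indicator is at most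
`R^(-2) ∑_{x,y} ind (|cl ζ x| > R, |cl ζ y| > R, y ∉ cl (ζ ∪ η) x)`. On the event that all clusters of `ζ` have at most
`L` vertices: for given `x, y` let `A = cl ζ x`, `B = cl ζ y` (disjoint, as `y ∉ cl ζ x`), `A ∪ B = cls ζ {x,y}`;
`b_mark_cls` (`S = {x,y}`; `A` and `B` are determined by `A ∪ B` and `ζ \ offE E (A ∪ B)`): the rest of `ζ` is a fresh
percolation `ζ'` on `offE E (A ∪ B)`, and `y ∉ cl (ζ ∪ η) x` implies `∀ x' ∈ A, ∀ y' ∈ B, y' ∉ cl (ζ' ∪ η) x'`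
(`ζ' ⊆ ζ`). So the expectation is at most `u P(|cl ζ x| > R, |cl ζ y| > R)` (sizes `<= L`), and
`∑_{x,y} P(|cl ζ x| > R, |cl ζ y| > R) = Ex ZR^2`.
`ex_anti_p`: the function is decreasing in `ζ`; `Ex_mono_p` (Joint.lean) for `1 - F`; for the graph
`offE (cubeE m) (S ∪ T)` and `ps <= p1`. -/

namespace Pool.Agent.Work.MP_b7dc8a_pr

open Finset

theorem ex_anti_p {α : Type} [DecidableEq α] (E : Finset α) (p q : ℝ) (h0 : 0 ≤ p) (hpq : p ≤ q)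
    (h1 : q ≤ 1) (F : Finset α → ℝ) (hF : ∀ ω ω', ω ⊆ ω' → ω' ⊆ E → F ω' ≤ F ω) :
    Ex E q F ≤ Ex E p F := by
  have h5 := Ex_mono_p E p q h0 hpq h1 (fun ω => (-1) * F ω) (fun ω ω' h h' => by
    have := hF ω ω' h h'
    linarith)
  rw [Ex_mul_left, Ex_mul_left] at h5
  linarith

private theorem uallf_pair (m : ℕ) (p1 q u : ℝ) (R L : ℕ) (hp0 : 0 ≤ p1) (hp1 : p1 ≤ 1)
    (hq0 : 0 ≤ q) (hq1 : q ≤ 1) (hu0 : 0 ≤ u)
    (hu : ∀ S T : Finset (Q m), Disjoint S T → R < S.card → S.card ≤ L → R < T.card →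
      T.card ≤ L → Ex (offE (cubeE m) (S ∪ T)) p1 (fun ζ => Ex (cubeE m) q (fun η =>
        ind (∀ x ∈ S, ∀ y ∈ T, y ∉ cl (ζ ∪ η) x))) ≤ u) (x y : Q m) :
    Ex (cubeE m) p1 (fun ζ => Ex (cubeE m) q (fun η =>
      ind ((R < (cl ζ x).card ∧ (cl ζ x).card ≤ L) ∧ (R < (cl ζ y).card ∧ (cl ζ y).card ≤ L) ∧
        y ∉ cl (ζ ∪ η) x))) ≤
      u * Ex (cubeE m) p1 (fun ζ => ind (R < (cl ζ x).card) * ind (R < (cl ζ y).card)) := by
  classical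
  set H : Finset (Q m) → Finset (Sym2 (Q m)) → Finset (Sym2 (Q m)) → ℝ := fun D ω1 ω2 =>
    Ex (cubeE m) q (fun η => ind (((R < (cl ω1 x).card ∧ (cl ω1 x).card ≤ L) ∧
      (R < (cl ω1 y).card ∧ (cl ω1 y).card ≤ L) ∧
      Disjoint (cl ω1 x) (cl ω1 y) ∧ D = cl ω1 x ∪ cl ω1 y) ∧
      ∀ a ∈ cl ω1 x, ∀ b ∈ cl ω1 y, b ∉ cl (ω2 ∪ η) a)) with hH
  have e : ∀ ζ : Finset (Sym2 (Q m)), ∀ o, cl ζ o ⊆ cls ζ {x, y} →
      cl (ζ \ offE (cubeE m) (cls ζ {x, y})) o = cl ζ o := by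
    intro ζ o ho
    refine cl_eq_of ζ _ o fun a ha b => ?_
    rw [mem_sdiff, xb_mem_offE]
    constructor
    · intro h
      exact ⟨h, fun h' => h'.2.1 (ho ha)⟩
    · exact fun h => h.1
  have hxD : ∀ ζ : Finset (Sym2 (Q m)), cl ζ x ⊆ cls ζ {x, y} := by
    intro ζ z hz
    rw [xb_mem_cls]
    exact ⟨x, by simp, hz⟩
  have hyD : ∀ ζ : Finset (Sym2 (Q m)), cl ζ y ⊆ cls ζ {x, y} := by
    intro ζ z hz
    rw [xb_mem_cls]
    exact ⟨y, by simp, hz⟩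
  have step1 : Ex (cubeE m) p1 (fun ζ => Ex (cubeE m) q (fun η =>
      ind ((R < (cl ζ x).card ∧ (cl ζ x).card ≤ L) ∧ (R < (cl ζ y).card ∧ (cl ζ y).card ≤ L) ∧
        y ∉ cl (ζ ∪ η) x))) ≤
      Ex (cubeE m) p1 (fun ζ => H (cls ζ {x, y}) (ζ \ offE (cubeE m) (cls ζ {x, y}))
        (ζ ∩ offE (cubeE m) (cls ζ {x, y}))) := by
    refine Ex_mono _ _ hp0 hp1 _ _ fun ζ hζ => ?_
    rw [hH]
    refine Ex_mono _ _ hq0 hq1 _ _ fun η _ => ?_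
    refine xb_ind_mono ?_
    rintro ⟨h1, h2, h3⟩
    rw [e ζ x (hxD ζ), e ζ y (hyD ζ)]
    have hdis : Disjoint (cl ζ x) (cl ζ y) := by
      rw [Finset.disjoint_left]
      intro z hz hz'
      refine h3 (cl_mono ζ _ subset_union_left x ?_)
      rw [← cl_eq_of_mem ζ x z hz, cl_symm]
      exact hz'
    refine ⟨⟨h1, h2, hdis, ?_⟩, ?_⟩
    · ext z
      rw [xb_mem_cls, mem_union]
      simp
    · intro a ha b hb hab
      refine h3 ?_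
      have ha' : a ∈ cl (ζ ∪ η) x := cl_mono ζ _ subset_union_left x ha
      have hb' : b ∈ cl (ζ ∪ η) y := cl_mono ζ _ subset_union_left y hb
      have hab' : b ∈ cl (ζ ∪ η) a := by
        refine cl_mono _ _ ?_ a hab
        exact union_subset_union_left inter_subset_left
      rw [cl_eq_of_mem _ x a ha'] at hab'
      rw [← cl_eq_of_mem _ x b hab', cl_symm]
      exact hb'
  refine step1.trans ?_
  rw [b_mark_cls (cubeE m) {x, y} p1 H, ← Ex_mul_left]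
  refine Ex_mono _ _ hp0 hp1 _ _ fun ζ _ => ?_
  set D := cls ζ {x, y} with hD
  set ω1 := ζ \ offE (cubeE m) D with hω1
  have ex1 : cl ω1 x = cl ζ x := e ζ x (hxD ζ)
  have ey1 : cl ω1 y = cl ζ y := e ζ y (hyD ζ)
  have hr0 : 0 ≤ u * (ind (R < (cl ζ x).card) * ind (R < (cl ζ y).card)) :=
    mul_nonneg hu0 (mul_nonneg (xb_ind_nonneg _) (xb_ind_nonneg _))
  by_cases hc : (R < (cl ω1 x).card ∧ (cl ω1 x).card ≤ L) ∧
      (R < (cl ω1 y).card ∧ (cl ω1 y).card ≤ L) ∧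
      Disjoint (cl ω1 x) (cl ω1 y) ∧ D = cl ω1 x ∪ cl ω1 y
  · obtain ⟨h1, h2, h3, h4⟩ := hc
    have e1 : Ex (offE (cubeE m) D) p1 (fun η => H D ω1 η) ≤
        Ex (offE (cubeE m) D) p1 (fun ω2 => Ex (cubeE m) q (fun η =>
          ind (∀ a ∈ cl ω1 x, ∀ b ∈ cl ω1 y, b ∉ cl (ω2 ∪ η) a))) := by
      refine Ex_mono _ _ hp0 hp1 _ _ fun ω2 _ => ?_
      rw [hH]
      refine Ex_mono _ _ hq0 hq1 _ _ fun η _ => ?_
      exact xb_ind_mono fun h => h.2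
    refine e1.trans ?_
    have e3 := hu (cl ω1 x) (cl ω1 y) h3 h1.1 h1.2 h2.1 h2.2
    rw [← h4] at e3
    refine e3.trans (le_of_eq ?_)
    rw [← ex1, ← ey1]
    unfold ind
    rw [if_pos h1.1, if_pos h2.1]
    ring
  · refine xb_Ex_le _ _ hp0 hp1 _ _ fun ω2 _ => ?_
    refine le_trans ?_ hr0
    rw [hH]
    refine xb_Ex_le _ _ hq0 hq1 _ _ fun η _ => ?_
    rw [ind, if_neg fun h => hc h.1]

private theorem uallf_zr (m : ℕ) (R : ℕ) (ζ : Finset (Sym2 (Q m))) :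
    ∑ x : Q m, ∑ y : Q m, ind (R < (cl ζ x).card) * ind (R < (cl ζ y).card) = ZR R ζ ^ 2 := by
  classical
  have h1 : ∑ x : Q m, ind (R < (cl ζ x).card) = ZR R ζ := by
    unfold ZR ind
    rw [Finset.card_filter]
    push_cast
    refine Finset.sum_congr rfl fun x _ => ?_
    by_cases h : R < (cl ζ x).card
    · rw [if_pos h, if_pos h]
    · rw [if_neg h, if_neg h]
  rw [← Finset.sum_mul_sum, h1, sq]

/-- the pointwise bound -/
private theorem uallf_pt (m : ℕ) (R L : ℕ) (hR : 1 ≤ R) (ζ η : Finset (Sym2 (Q m))) :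
    ind (∃ x y, R < (cl ζ x).card ∧ R < (cl ζ y).card ∧ y ∉ cl (ζ ∪ η) x) ≤
      1 / (R : ℝ) ^ 2 * ∑ x : Q m, ∑ y : Q m, ind ((R < (cl ζ x).card ∧ (cl ζ x).card ≤ L) ∧
        (R < (cl ζ y).card ∧ (cl ζ y).card ≤ L) ∧ y ∉ cl (ζ ∪ η) x) +
      ind (∃ x, L < (cl ζ x).card) := by
  classical
  have hR0 : (0 : ℝ) < (R : ℝ) := by exact_mod_cast hR
  have hS0 : 0 ≤ 1 / (R : ℝ) ^ 2 * ∑ x : Q m, ∑ y : Q m,
      ind ((R < (cl ζ x).card ∧ (cl ζ x).card ≤ L) ∧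
        (R < (cl ζ y).card ∧ (cl ζ y).card ≤ L) ∧ y ∉ cl (ζ ∪ η) x) :=
    mul_nonneg (by positivity)
      (Finset.sum_nonneg fun _ _ => Finset.sum_nonneg fun _ _ => xb_ind_nonneg _)
  by_cases hL : ∃ x, L < (cl ζ x).card
  · have h1 : ind (∃ x, L < (cl ζ x).card) = 1 := by
      unfold ind; rw [if_pos hL]
    rw [h1]
    have := xb_ind_le_one (∃ x y, R < (cl ζ x).card ∧ R < (cl ζ y).card ∧ y ∉ cl (ζ ∪ η) x)
    linarith
  · have hL' : ∀ x, (cl ζ x).card ≤ L := fun x => not_lt.1 fun h => hL ⟨x, h⟩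
    by_cases hc : ∃ x y, R < (cl ζ x).card ∧ R < (cl ζ y).card ∧ y ∉ cl (ζ ∪ η) x
    · obtain ⟨x, y, hx, hy, hxy⟩ := hc
      refine le_trans (xb_ind_le_one _) ?_
      have h0 : 0 ≤ ind (∃ x, L < (cl ζ x).card) := xb_ind_nonneg _
      set f : Q m × Q m → ℝ := fun i => ind ((R < (cl ζ i.1).card ∧ (cl ζ i.1).card ≤ L) ∧
        (R < (cl ζ i.2).card ∧ (cl ζ i.2).card ≤ L) ∧ i.2 ∉ cl (ζ ∪ η) i.1) with hf
      have h2 : ∑ x : Q m, ∑ y : Q m, ind ((R < (cl ζ x).card ∧ (cl ζ x).card ≤ L) ∧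
        (R < (cl ζ y).card ∧ (cl ζ y).card ≤ L) ∧ y ∉ cl (ζ ∪ η) x) =
          ∑ i ∈ (univ : Finset (Q m)) ×ˢ (univ : Finset (Q m)), f i := by
        rw [Finset.sum_product]
      have h3 : ∑ i ∈ cl ζ x ×ˢ cl ζ y, f i ≤
          ∑ i ∈ (univ : Finset (Q m)) ×ˢ (univ : Finset (Q m)), f i :=
        Finset.sum_le_sum_of_subset_of_nonneg
          (Finset.product_subset_product (subset_univ _) (subset_univ _))
          (fun i _ _ => xb_ind_nonneg _)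
      have h4 : ∑ i ∈ cl ζ x ×ˢ cl ζ y, f i = ((cl ζ x).card : ℝ) * (cl ζ y).card := by
        rw [Finset.sum_congr rfl (g := fun _ => (1 : ℝ))]
        · rw [Finset.sum_const, Finset.card_product, nsmul_eq_mul, mul_one]
          push_cast
          ring
        · intro i hi
          rw [mem_product] at hi
          have ei1 : cl ζ i.1 = cl ζ x := cl_eq_of_mem ζ x i.1 hi.1
          have ei2 : cl ζ i.2 = cl ζ y := cl_eq_of_mem ζ y i.2 hi.2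
          have h5 : i.1 ∈ cl (ζ ∪ η) x := cl_mono ζ _ subset_union_left x hi.1
          have h6 : i.2 ∈ cl (ζ ∪ η) y := cl_mono ζ _ subset_union_left y hi.2
          rw [hf]
          unfold ind
          refine if_pos ⟨⟨by rw [ei1]; exact hx, hL' _⟩, ⟨by rw [ei2]; exact hy, hL' _⟩, ?_⟩
          intro h7
          rw [cl_eq_of_mem _ x i.1 h5] at h7
          apply hxy
          rw [← cl_eq_of_mem _ x i.2 h7, cl_eq_of_mem _ y i.2 h6]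
          exact mem_cl_self _ y
      have h5 : (R : ℝ) ^ 2 ≤ ((cl ζ x).card : ℝ) * (cl ζ y).card := by
        have hx' : (R : ℝ) ≤ (cl ζ x).card := by exact_mod_cast hx.le
        have hy' : (R : ℝ) ≤ (cl ζ y).card := by exact_mod_cast hy.le
        rw [sq]
        exact mul_le_mul hx' hy' hR0.le (hR0.le.trans hx')
      rw [h2]
      have h6 : (R : ℝ) ^ 2 ≤ ∑ i ∈ (univ : Finset (Q m)) ×ˢ (univ : Finset (Q m)), f i := by
        linarith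
      have h7 : (1 : ℝ) ≤ 1 / (R : ℝ) ^ 2 *
          ∑ i ∈ (univ : Finset (Q m)) ×ˢ (univ : Finset (Q m)), f i := by
        rw [one_div, ← div_eq_inv_mul, le_div_iff₀ (by positivity)]
        linarith
      linarith
    · have h1 : ind (∃ x y, R < (cl ζ x).card ∧ R < (cl ζ y).card ∧ y ∉ cl (ζ ∪ η) x) = 0 := by
        unfold ind; rw [if_neg hc]
      rw [h1]
      have h0 : 0 ≤ ind (∃ x, L < (cl ζ x).card) := xb_ind_nonneg _
      linarith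

theorem uallf (m : ℕ) (p1 q u : ℝ) (R L : ℕ) (hp0 : 0 ≤ p1) (hp1 : p1 ≤ 1) (hq0 : 0 ≤ q)
    (hq1 : q ≤ 1) (hu0 : 0 ≤ u) (hR : 1 ≤ R)
    (hu : ∀ S T : Finset (Q m), Disjoint S T → R < S.card → S.card ≤ L → R < T.card →
      T.card ≤ L → Ex (offE (cubeE m) (S ∪ T)) p1 (fun ζ => Ex (cubeE m) q (fun η =>
        ind (∀ x ∈ S, ∀ y ∈ T, y ∉ cl (ζ ∪ η) x))) ≤ u) :
    Ex (cubeE m) p1 (fun ζ => Ex (cubeE m) q (fun η =>
      ind (∃ x y, R < (cl ζ x).card ∧ R < (cl ζ y).card ∧ y ∉ cl (ζ ∪ η) x))) ≤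
    u / (R : ℝ) ^ 2 * Ex (cubeE m) p1 (fun ζ => ZR R ζ ^ 2) +
      Ex (cubeE m) p1 (fun ζ => ind (∃ x, L < (cl ζ x).card)) := by
  classical
  set P : Q m → Q m → Finset (Sym2 (Q m)) → Finset (Sym2 (Q m)) → ℝ := fun x y ζ η =>
    ind ((R < (cl ζ x).card ∧ (cl ζ x).card ≤ L) ∧
        (R < (cl ζ y).card ∧ (cl ζ y).card ≤ L) ∧ y ∉ cl (ζ ∪ η) x) with hP
  have h1 : Ex (cubeE m) p1 (fun ζ => Ex (cubeE m) q (fun η =>
      ind (∃ x y, R < (cl ζ x).card ∧ R < (cl ζ y).card ∧ y ∉ cl (ζ ∪ η) x))) ≤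
      Ex (cubeE m) p1 (fun ζ => Ex (cubeE m) q (fun η =>
        1 / (R : ℝ) ^ 2 * ∑ x : Q m, ∑ y : Q m, P x y ζ η + ind (∃ x, L < (cl ζ x).card))) := by
    refine Ex_mono _ _ hp0 hp1 _ _ fun ζ _ => ?_
    refine Ex_mono _ _ hq0 hq1 _ _ fun η _ => ?_
    exact uallf_pt m R L hR ζ η
  refine h1.trans ?_
  have h2 : Ex (cubeE m) p1 (fun ζ => Ex (cubeE m) q (fun η =>
        1 / (R : ℝ) ^ 2 * ∑ x : Q m, ∑ y : Q m, P x y ζ η + ind (∃ x, L < (cl ζ x).card))) =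
      1 / (R : ℝ) ^ 2 * ∑ x : Q m, ∑ y : Q m,
        Ex (cubeE m) p1 (fun ζ => Ex (cubeE m) q (fun η => P x y ζ η)) +
      Ex (cubeE m) p1 (fun ζ => ind (∃ x, L < (cl ζ x).card)) := by
    rw [show (∑ x : Q m, ∑ y : Q m,
        Ex (cubeE m) p1 (fun ζ => Ex (cubeE m) q (fun η => P x y ζ η))) =
        Ex (cubeE m) p1 (fun ζ => ∑ x : Q m, ∑ y : Q m, Ex (cubeE m) q (fun η => P x y ζ η)) by
      rw [Ex_sum]
      refine Finset.sum_congr rfl fun x _ => ?_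
      rw [Ex_sum]]
    rw [← Ex_mul_left, ← Ex_add]
    refine Ex_congr _ _ _ _ fun ζ _ => ?_
    rw [Ex_add, Ex_const, Ex_mul_left, Ex_sum]
    congr 2
    refine Finset.sum_congr rfl fun x _ => ?_
    rw [Ex_sum]
  rw [h2]
  have h3 : ∑ x : Q m, ∑ y : Q m,
      Ex (cubeE m) p1 (fun ζ => Ex (cubeE m) q (fun η => P x y ζ η)) ≤
      u * Ex (cubeE m) p1 (fun ζ => ZR R ζ ^ 2) := by
    have h4 : Ex (cubeE m) p1 (fun ζ => ZR R ζ ^ 2) = ∑ x : Q m, ∑ y : Q m,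
        Ex (cubeE m) p1 (fun ζ => ind (R < (cl ζ x).card) * ind (R < (cl ζ y).card)) := by
      rw [Ex_congr _ _ _ _ fun ζ _ => (uallf_zr m R ζ).symm, Ex_sum]
      refine Finset.sum_congr rfl fun x _ => ?_
      rw [Ex_sum]
    rw [h4, Finset.mul_sum]
    refine Finset.sum_le_sum fun x _ => ?_
    rw [Finset.mul_sum]
    refine Finset.sum_le_sum fun y _ => ?_
    exact uallf_pair m p1 q u R L hp0 hp1 hq0 hq1 hu0 hu x y
  have h5 : 1 / (R : ℝ) ^ 2 * ∑ x : Q m, ∑ y : Q m,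
      Ex (cubeE m) p1 (fun ζ => Ex (cubeE m) q (fun η => P x y ζ η)) ≤
      1 / (R : ℝ) ^ 2 * (u * Ex (cubeE m) p1 (fun ζ => ZR R ζ ^ 2)) :=
    mul_le_mul_of_nonneg_left h3 (by positivity)
  have h6 : 1 / (R : ℝ) ^ 2 * (u * Ex (cubeE m) p1 (fun ζ => ZR R ζ ^ 2)) =
      u / (R : ℝ) ^ 2 * Ex (cubeE m) p1 (fun ζ => ZR R ζ ^ 2) := by ring
  linarith

end Pool.Agent.Work.MP_b7dc8a_pr
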