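import Pool.Agent.Work.MP_b7dc8a_pr.F.Numf
import Pool.Agent.Work.MP_b7dc8a_pr.F.Conn
import Pool.Agent.Work.MP_b7dc8a_pr.F.Uallf
import Pool.Agent.Work.MP_b7dc8a_pr.F.Lrg
import Pool.Agent.Work.MP_b7dc8a_pr.F.Orp
import Pool.Agent.Work.MP_b7dc8a_pr.B.Choff

/-! Module UNIF (M): uniqueness of the large cluster. `V = 2^m`, `w = e^3 V`, `u = w^(1/4)`, `h = hF m e`, `R = RF c8 m e`.

Let `κ = 1/u` (small for large `w`), `q = κ e/m`, `p1 = (p - q)/(1 - q)`, so `p = p1 + q - p1 q` and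
`p1 >= p - q >= pa (1 + 3e/4) - κ e/m >= pa (1 + e/2)` (`pa m >= 1/2`, `κ <= 1/8`), `p1 <= p`, `p - p1 <= q`. `PF` holds at `p1` and on
`[p1, p]`. `numf c8 B`: `(c8/3) e V <= R`, `t := (1-h)^R <= exp (-(c8/3) u) <= 1/2`, `h/e^2 = u/w`.
(1) `conn` with `Cz = 2 C0`, `c8 := c8/3` (constants `a, c, C`); `ps`: `b_chip` with `pc := pa`, `X = a/e <= 1/e <= chi pa`
 (`X >= 1` as `e <= a` for large `m`), `ps <= pa <= p1`, `ps m <= pa m`. For disjoint `S, T` with more than `R` and at most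
 `L = ⌊2 C0 e V⌋` vertices the probability in `uallf` is at most `u1 = C/(κ w) + exp (- c κ^2 w)` at `ps`, hence at `p1`
 (`ex_anti_p`). `u1 = C u/w + exp (-c sqrt w) -> 0`.
(2) `uallf`, `zr_sq` (`p1`): first term `<= u1/R^2 * 4 (36 C0^3 V/e + (C0 e V)^2) <= u1 * 36 (36 C0^3 + C0^2)/c8^2` as `V/e <=
 (e V)^2` (`w >= 1`); `no_big` (`p1`, `L + 1 >= 2 C0 e V`; `(1-h)^(L+1) <= (1-h)^R` as `R <= L + 1`): `<= 72 C0/w`. (`R <= c8 e V/2 <= L + 1`.)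
(3) `orp` (`hM`: `reg.hM`; `hmo`: `reg.hmo` with `k = 1`, `D = ∅`, `bb = 1`; `hs`: `small` at `p1`): `d = 2 m C0^2 q + 2 t C0 e +
 h C0/e`, `orp_mark`: `V d/R <= (3/c8) (2 C0^2 κ + 2 t C0 + C0 h/e^2) -> 0`. -/

namespace Pool.Agent.Work.MP_b7dc8a_pr

open Finset

private theorem unif_offE {V : Type} (E : Finset (Sym2 V)) : offE E ∅ = E := by
  classical
  unfold offE
  simp

private theorem unif_small (a : ℝ) (ha : 0 < a) : ∃ m0 : ℕ, ∀ m ≥ m0,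
    (2 : ℝ) ^ (-(m : ℝ) / 36) ≤ a := by
  refine ⟨⌈72 / a⌉₊ + 1, fun m hm => ?_⟩
  have h1 : 72 / a ≤ (m : ℝ) := by
    have h2 : (⌈72 / a⌉₊ : ℝ) ≤ m := by exact_mod_cast (Nat.le_succ _).trans hm
    exact (Nat.le_ceil _).trans h2
  have hm0 : (0 : ℝ) < m := lt_of_lt_of_le (by positivity) h1
  have h3 : (2 : ℝ) ^ (-(m : ℝ) / 36) = Real.exp (-(Real.log 2 * ((m : ℝ) / 36))) := by
    rw [Real.rpow_def_of_pos (by norm_num)]
    congr 1; ring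
  rw [h3, Real.exp_neg]
  have h4 := Real.add_one_le_exp (Real.log 2 * ((m : ℝ) / 36))
  have h5 : (1 / 2 : ℝ) ≤ Real.log 2 := by have := Real.log_two_gt_d9; linarith
  have h6 : (1 / 2 : ℝ) * ((m : ℝ) / 36) ≤ Real.log 2 * ((m : ℝ) / 36) :=
    mul_le_mul_of_nonneg_right h5 (by positivity)
  have h7 : (m : ℝ) / 72 ≤ Real.exp (Real.log 2 * ((m : ℝ) / 36)) := by linarith
  have h8 : a⁻¹ ≤ (m : ℝ) / 72 := by
    rw [le_div_iff₀ (by norm_num)]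
    calc a⁻¹ * 72 = 72 / a := by field_simp
      _ ≤ m := h1
  exact inv_le_of_inv_le₀ ha (h8.trans h7)

private theorem unif_anti (m : ℕ) (q : ℝ) (hq0 : 0 ≤ q) (hq1 : q ≤ 1) (S T : Finset (Q m))
    (p p' : ℝ) (h0 : 0 ≤ p) (hpp : p ≤ p') (h1 : p' ≤ 1) (E : Finset (Sym2 (Q m))) :
    Ex E p' (fun ζ => Ex (cubeE m) q (fun η => ind (∀ x ∈ S, ∀ y ∈ T, y ∉ cl (ζ ∪ η) x))) ≤
    Ex E p (fun ζ => Ex (cubeE m) q (fun η => ind (∀ x ∈ S, ∀ y ∈ T, y ∉ cl (ζ ∪ η) x))) := by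
  classical
  refine ex_anti_p E p p' h0 hpp h1 _ fun ω ω' hω _ => ?_
  refine Ex_mono _ _ hq0 hq1 _ _ fun η _ => ?_
  refine xb_ind_mono fun h x hx y hy hc => ?_
  exact h x hx y hy (cl_mono (ω ∪ η) (ω' ∪ η) (Finset.union_subset_union hω le_rfl) x hc)

private theorem unif_u1 (cc C u κ w : ℝ) (hcc0 : 0 < cc) (hC : 0 < C) (hu1 : 1 ≤ u)
    (hu4 : u ^ 4 = w) (hκ : κ = 1 / u) :
    C / (κ * w) + Real.exp (-(cc * κ ^ 2 * w)) ≤ (C + 1 / cc) / u := by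
  have hupos : 0 < u := by linarith
  have h1 : C / (κ * w) ≤ C / u := by
    apply div_le_div_of_nonneg_left hC.le hupos
    have : κ * w = u ^ 3 := by rw [hκ, ← hu4]; field_simp
    rw [this]
    calc u = u ^ 1 := (pow_one u).symm
      _ ≤ u ^ 3 := pow_le_pow_right₀ hu1 (by norm_num)
  have h2 : Real.exp (-(cc * κ ^ 2 * w)) ≤ 1 / cc / u := by
    have h3 : cc * κ ^ 2 * w = cc * u ^ 2 := by rw [hκ, ← hu4]; field_simp
    rw [h3, Real.exp_neg]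
    have h4 := Real.add_one_le_exp (cc * u ^ 2)
    have h6 : u ≤ u ^ 2 := by
      calc u = u ^ 1 := (pow_one u).symm
        _ ≤ u ^ 2 := pow_le_pow_right₀ hu1 (by norm_num)
    have h7 : cc * u ≤ cc * u ^ 2 := mul_le_mul_of_nonneg_left h6 hcc0.le
    have h5 : cc * u ≤ Real.exp (cc * u ^ 2) := by linarith
    calc (Real.exp (cc * u ^ 2))⁻¹ ≤ (cc * u)⁻¹ := inv_anti₀ (by positivity) h5
      _ = 1 / cc / u := by field_simp
  rw [add_div]; linarith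

private theorem unif_T1 (C0 c8 e V w R u1 Z : ℝ) (hC0 : 0 < C0) (hc8 : 0 < c8) (he0 : 0 < e)
    (hV : 0 < V) (hw1 : 1 ≤ w) (hwdef : w = e ^ 3 * V) (hu1 : 0 ≤ u1) (hRlow : c8 / 3 * e * V ≤ R)
    (hZ0 : 0 ≤ Z) (hZ : Z ≤ 4 * (36 * C0 ^ 3 * V / e + (C0 * e * V) ^ 2)) :
    u1 / R ^ 2 * Z ≤ 36 * (36 * C0 ^ 3 + C0 ^ 2) / c8 ^ 2 * u1 := by
  have heV : 0 < e * V := by positivity
  have hRsq : c8 ^ 2 / 9 * (e * V) ^ 2 ≤ R ^ 2 := by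
    have h1 : c8 / 3 * (e * V) ≤ R := by linarith
    have h2 := pow_le_pow_left₀ (by positivity) h1 2
    calc c8 ^ 2 / 9 * (e * V) ^ 2 = (c8 / 3 * (e * V)) ^ 2 := by ring
      _ ≤ _ := h2
  have hVe : V / e ≤ (e * V) ^ 2 := by
    rw [div_le_iff₀ he0]
    have h1 : (e * V) ^ 2 * e = V * w := by rw [hwdef]; ring
    rw [h1]
    have := mul_le_mul_of_nonneg_left hw1 hV.le
    linarith
  have h2 : 36 * C0 ^ 3 * V / e ≤ 36 * C0 ^ 3 * (e * V) ^ 2 := by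
    calc 36 * C0 ^ 3 * V / e = 36 * C0 ^ 3 * (V / e) := by ring
      _ ≤ _ := mul_le_mul_of_nonneg_left hVe (by positivity)
  have h1 : Z ≤ 4 * (36 * C0 ^ 3 + C0 ^ 2) * (e * V) ^ 2 := by
    have h4 : (C0 * e * V) ^ 2 = C0 ^ 2 * (e * V) ^ 2 := by ring
    rw [h4] at hZ
    have h5 : 4 * (36 * C0 ^ 3 + C0 ^ 2) * (e * V) ^ 2 =
        4 * (36 * C0 ^ 3 * (e * V) ^ 2 + C0 ^ 2 * (e * V) ^ 2) := by ring
    rw [h5]; linarith
  have h3 : u1 / R ^ 2 ≤ u1 / (c8 ^ 2 / 9 * (e * V) ^ 2) :=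
    div_le_div_of_nonneg_left hu1 (by positivity) hRsq
  calc u1 / R ^ 2 * Z
      ≤ u1 / (c8 ^ 2 / 9 * (e * V) ^ 2) * (4 * (36 * C0 ^ 3 + C0 ^ 2) * (e * V) ^ 2) :=
        mul_le_mul h3 h1 hZ0 (by positivity)
    _ = 36 * (36 * C0 ^ 3 + C0 ^ 2) / c8 ^ 2 * u1 := by
        have hne : e * V ≠ 0 := heV.ne'
        generalize e * V = y at hne
        field_simp
        ring

private theorem unif_T3 (C0 c8 e V m q κ t h u R : ℝ) (hC0 : 0 < C0) (hc8 : 0 < c8) (he0 : 0 < e)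
    (hV : 0 < V) (hu : 0 < u) (hh0 : 0 ≤ h) (ht0 : 0 ≤ t) (hκ : κ = 1 / u) (hqm : q * m = κ * e)
    (hRlow : c8 / 3 * e * V ≤ R) (htle : t ≤ 3 / (c8 * u)) (hhe2 : h / e ^ 2 ≤ 1 / u) :
    V * (2 * m * C0 ^ 2 * q + 2 * t * C0 * e + h * C0 / e) / R ≤
      3 / c8 * (2 * C0 ^ 2 + 6 * C0 / c8 + C0) / u := by
  have heV : 0 < e * V := by positivity
  have hκ0 : 0 < κ := by rw [hκ]; positivity
  have h1 : 2 * m * C0 ^ 2 * q = 2 * C0 ^ 2 * (κ * e) := by rw [← hqm]; ring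
  have h2 : V * (2 * m * C0 ^ 2 * q + 2 * t * C0 * e + h * C0 / e) =
      (e * V) * (2 * C0 ^ 2 * κ + 2 * t * C0 + C0 * (h / e ^ 2)) := by
    rw [h1]; field_simp
  have h3 : 2 * C0 ^ 2 * κ + 2 * t * C0 + C0 * (h / e ^ 2) ≤
      (2 * C0 ^ 2 + 6 * C0 / c8 + C0) / u := by
    have h4 : t * (2 * C0) ≤ 3 / (c8 * u) * (2 * C0) :=
      mul_le_mul_of_nonneg_right htle (by positivity)
    have h5 : C0 * (h / e ^ 2) ≤ C0 * (1 / u) := mul_le_mul_of_nonneg_left hhe2 hC0.le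
    have h6 : (2 * C0 ^ 2 + 6 * C0 / c8 + C0) / u =
        2 * C0 ^ 2 * κ + 3 / (c8 * u) * (2 * C0) + C0 * (1 / u) := by
      rw [hκ]; field_simp; ring
    rw [h6]; linarith
  have h7 : 0 ≤ 2 * C0 ^ 2 * κ + 2 * t * C0 + C0 * (h / e ^ 2) := by positivity
  have h8 : c8 / 3 * (e * V) ≤ R := by linarith
  rw [h2]
  calc (e * V) * (2 * C0 ^ 2 * κ + 2 * t * C0 + C0 * (h / e ^ 2)) / R
      ≤ (e * V) * (2 * C0 ^ 2 * κ + 2 * t * C0 + C0 * (h / e ^ 2)) / (c8 / 3 * (e * V)) :=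
        div_le_div_of_nonneg_left (mul_nonneg heV.le h7) (by positivity) h8
    _ = 3 / c8 * (2 * C0 ^ 2 * κ + 2 * t * C0 + C0 * (h / e ^ 2)) := by
        generalize 2 * C0 ^ 2 * κ + 2 * t * C0 + C0 * (h / e ^ 2) = z
        field_simp
    _ ≤ 3 / c8 * ((2 * C0 ^ 2 + 6 * C0 / c8 + C0) / u) :=
        mul_le_mul_of_nonneg_left h3 (by positivity)
    _ = _ := by ring

/-- the interpolation parameters -/
private theorem unif_par (pa e p q m κ cc u : ℝ) (hcc0 : 0 < cc) (hupos : 0 < u)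
    (hucc : 1 / cc ≤ u) (hu8 : 8 ≤ u) (hκ : κ = 1 / u) (hm1 : 1 ≤ m) (hpal : 1 / 2 ≤ pa * m)
    (hpa2 : pa ≤ 1 / 2) (hpapos : 0 < pa) (he0 : 0 < e) (he2 : e ≤ 1 / 2)
    (hp : pa * (1 + 3 / 4 * e) ≤ p) (hphalf : p ≤ 1 / 2) (hq : q = κ * e / m) :
    0 < κ ∧ κ ≤ cc ∧ q * m = κ * e ∧ 0 < q ∧ q ≤ 1 / 2 ∧ 0 < (p - q) / (1 - q) ∧
    pa * (1 + e / 2) ≤ (p - q) / (1 - q) ∧ (p - q) / (1 - q) ≤ p ∧
    (p - q) / (1 - q) + q - (p - q) / (1 - q) * q = p ∧ p - (p - q) / (1 - q) ≤ q := by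
  have hm0 : 0 < m := by linarith
  have hκ0 : 0 < κ := by rw [hκ]; positivity
  have hκcc : κ ≤ cc := by
    rw [hκ, div_le_iff₀ hupos]
    have := mul_le_mul_of_nonneg_left hucc hcc0.le
    have h2 : cc * (1 / cc) = 1 := by field_simp
    linarith
  have hκ8 : κ ≤ 1 / 8 := by
    rw [hκ]
    exact one_div_le_one_div_of_le (by norm_num) hu8
  have hqm : q * m = κ * e := by rw [hq]; field_simp
  have hq0 : 0 < q := by rw [hq]; positivity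
  have hqle : q ≤ pa * (e / 4) := by
    rw [hq, div_le_iff₀ hm0]
    have h1 : κ * e ≤ 1 / 8 * e := mul_le_mul_of_nonneg_right hκ8 he0.le
    have h2 : 1 / 2 * (e / 4) ≤ pa * m * (e / 4) := mul_le_mul_of_nonneg_right hpal (by positivity)
    linarith
  have hpae : pa * (e / 4) ≤ 1 / 2 * (1 / 2 / 4) :=
    mul_le_mul hpa2 (by linarith) (by positivity) (by norm_num)
  have hq1 : q ≤ 1 / 2 := by linarith
  have h1q : 0 < 1 - q := by linarith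
  have hpq : pa * (1 + e / 2) ≤ p - q := by
    have h1 : pa * (1 + e / 2) = pa * (1 + 3 / 4 * e) - pa * (e / 4) := by ring
    rw [h1]; linarith
  have hp1m : (p - q) / (1 - q) * (1 - q) = p - q := by field_simp
  have hpqpos : 0 < p - q := lt_of_lt_of_le (by positivity) hpq
  have hp1pos : 0 < (p - q) / (1 - q) := div_pos hpqpos h1q
  obtain ⟨p1, hp1⟩ : ∃ p1 : ℝ, p1 = (p - q) / (1 - q) := ⟨_, rfl⟩
  rw [← hp1] at hp1m hp1pos ⊢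
  have hp1low : pa * (1 + e / 2) ≤ p1 := by
    have h1 := mul_nonneg hp1pos.le hq0.le
    have h2 : p1 * (1 - q) = p1 - p1 * q := by ring
    linarith
  have hp1le : p1 ≤ p := by
    rw [hp1, div_le_iff₀ h1q]
    have h1 : p * q ≤ 1 * q := mul_le_mul_of_nonneg_right (by linarith) hq0.le
    have h2 : p * (1 - q) = p - p * q := by ring
    rw [h2]; linarith
  have hpeq : p1 + q - p1 * q = p := by
    have h2 : p1 * (1 - q) = p1 - p1 * q := by ring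
    linarith
  have hdiff : p - p1 ≤ q := by
    have h1 := mul_nonneg hp1pos.le hq0.le
    linarith
  exact ⟨hκ0, hκcc, hqm, hq0, hq1, hp1pos, hp1low, hp1le, hpeq, hdiff⟩

/-- the numerical conclusion -/
private theorem unif_fin (C0 c8 cc C e V w m q κ t h u R u1 Z X Y δ' : ℝ) (hC0 : 0 < C0)
    (hc8 : 0 < c8) (hcc0 : 0 < cc) (hC : 0 < C) (he0 : 0 < e) (hV : 0 < V) (hw1 : 1 ≤ w)
    (hwdef : w = e ^ 3 * V) (hu1 : 1 ≤ u) (hu4 : u ^ 4 = w) (hh0 : 0 ≤ h) (ht0 : 0 ≤ t)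
    (hκ : κ = 1 / u) (hqm : q * m = κ * e) (hR : 0 < R) (hRlow : c8 / 3 * e * V ≤ R)
    (ht : t ≤ Real.exp (-(c8 / 3 * u))) (hhw : h / e ^ 2 = u / w)
    (hu1def : u1 = C / (κ * w) + Real.exp (-(cc * κ ^ 2 * w)))
    (hZ0 : 0 ≤ Z) (hZ : Z ≤ 4 * (36 * C0 ^ 3 * V / e + (C0 * e * V) ^ 2))
    (hY : Y ≤ 72 * C0 / w)
    (hX : X ≤ u1 / R ^ 2 * Z + Y + V * (2 * m * C0 ^ 2 * q + 2 * t * C0 * e + h * C0 / e) / R)
    (hδ' : 0 < δ')
    (hfin : (36 * (36 * C0 ^ 3 + C0 ^ 2) / c8 ^ 2 * (C + 1 / cc) + 72 * C0 +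
      3 / c8 * (2 * C0 ^ 2 + 6 * C0 / c8 + C0)) / δ' ≤ u) : X ≤ δ' := by
  have hupos : 0 < u := by linarith
  have hwpos : 0 < w := by linarith
  have hκ0 : 0 < κ := by rw [hκ]; positivity
  have hu1nn : 0 ≤ u1 := by rw [hu1def]; positivity
  have hu1le : u1 ≤ (C + 1 / cc) / u := by
    rw [hu1def]
    exact unif_u1 cc C u κ w hcc0 hC hu1 hu4 hκ
  have hT1 : u1 / R ^ 2 * Z ≤
      36 * (36 * C0 ^ 3 + C0 ^ 2) / c8 ^ 2 * (C + 1 / cc) / u := by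
    have h1 := unif_T1 C0 c8 e V w R u1 Z hC0 hc8 he0 hV hw1 hwdef hu1nn hRlow hZ0 hZ
    have h2 : 36 * (36 * C0 ^ 3 + C0 ^ 2) / c8 ^ 2 * u1 ≤
        36 * (36 * C0 ^ 3 + C0 ^ 2) / c8 ^ 2 * ((C + 1 / cc) / u) :=
      mul_le_mul_of_nonneg_left hu1le (by positivity)
    have h3 : 36 * (36 * C0 ^ 3 + C0 ^ 2) / c8 ^ 2 * ((C + 1 / cc) / u) =
      36 * (36 * C0 ^ 3 + C0 ^ 2) / c8 ^ 2 * (C + 1 / cc) / u := by ring
    rw [← h3]; exact h1.trans h2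
  have hT2 : 72 * C0 / w ≤ 72 * C0 / u := by
    apply div_le_div_of_nonneg_left (by positivity) hupos
    rw [← hu4]
    calc u = u ^ 1 := (pow_one u).symm
      _ ≤ u ^ 4 := pow_le_pow_right₀ hu1 (by norm_num)
  have htle : t ≤ 3 / (c8 * u) := by
    have h2 := Real.add_one_le_exp (c8 / 3 * u)
    have h3 : c8 / 3 * u ≤ Real.exp (c8 / 3 * u) := by linarith
    calc t ≤ Real.exp (-(c8 / 3 * u)) := ht
      _ = (Real.exp (c8 / 3 * u))⁻¹ := Real.exp_neg _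
      _ ≤ (c8 / 3 * u)⁻¹ := inv_anti₀ (by positivity) h3
      _ = 3 / (c8 * u) := by field_simp
  have hhe2 : h / e ^ 2 ≤ 1 / u := by
    rw [hhw, div_le_div_iff₀ hwpos hupos, one_mul, ← hu4]
    calc u * u = u ^ 2 := by ring
      _ ≤ u ^ 4 := pow_le_pow_right₀ hu1 (by norm_num)
  have hT3 : V * (2 * m * C0 ^ 2 * q + 2 * t * C0 * e + h * C0 / e) / R ≤
      3 / c8 * (2 * C0 ^ 2 + 6 * C0 / c8 + C0) / u :=
    unif_T3 C0 c8 e V m q κ t h u R hC0 hc8 he0 hV hupos hh0 ht0 hκ hqm hRlow htle hhe2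
  have hfin2 : (36 * (36 * C0 ^ 3 + C0 ^ 2) / c8 ^ 2 * (C + 1 / cc) + 72 * C0 +
      3 / c8 * (2 * C0 ^ 2 + 6 * C0 / c8 + C0)) / u ≤ δ' := by
    rw [div_le_iff₀ hδ'] at hfin
    rw [div_le_iff₀ hupos]
    linarith
  rw [add_div, add_div] at hfin2
  linarith

private theorem unif_core (C0 c1 c2 c8 c9 B δ' a cc C : ℝ) (hC0 : 1 ≤ C0) (hc8 : 0 < c8)
    (hc8' : c8 ≤ 1) (hδ' : 0 < δ') (ha0 : 0 < a) (ha1 : a ≤ 1) (hcc0 : 0 < cc) (hC : 0 < C)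
    (m : ℕ) (hm1 : 1 ≤ m) (pa e p V w u h : ℝ) (R RGv : ℕ) (hV : V = 2 ^ m) (hwdef : w = e ^ 3 * V)
    (hw1 : 1 ≤ w)
    (hconn : ∀ ps κ q : ℝ, 0 ≤ ps → ps * m ≤ 1 + 5000 * dl m → (∀ x, chi (cubeE m) ps x = a / e) →
      0 < κ → κ ≤ cc → q * m = κ * e →
      ∀ S T : Finset (Q m), Disjoint S T → c8 / 3 * e * V ≤ S.card →
      c8 / 3 * e * V ≤ T.card → (S.card : ℝ) ≤ 2 * C0 * e * V → (T.card : ℝ) ≤ 2 * C0 * e * V →
      Ex (offE (cubeE m) (S ∪ T)) ps (fun ζ => Ex (cubeE m) q (fun η =>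
        ind (∀ x ∈ S, ∀ y ∈ T, y ∉ cl (ζ ∪ η) x))) ≤
        C / (κ * w) + Real.exp (-(cc * κ ^ 2 * w)))
    (hpal : 1 / 2 ≤ pa * m) (hpau : pa * m ≤ 1 + 5000 * dl m) (hpa2 : pa ≤ 1 / 2) (he0 : 0 < e)
    (hea : e ≤ a) (hchi : 1 / e ≤ chi (cubeE m) pa (fun _ => false))
    (hp : pa * (1 + 3 / 4 * e) ≤ p)
    (hPF : ∀ p' : ℝ, pa * (1 + e / 2) ≤ p' → p' ≤ p → PF C0 c1 c2 c9 B m e p' h R)
    (hh0 : 0 < h) (hhe : h ≤ e ^ 2) (hhw : h / e ^ 2 = u / w) (hR1 : 1 ≤ R)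
    (hRlow : c8 / 3 * e * V ≤ R) (hRG : R ≤ RGv) (hRGup : (RGv : ℝ) ≤ c8 * e * V)
    (hpow : (1 - h) ^ R ≤ Real.exp (-(c8 / 3 * u))) (hRhalf : (1 - h) ^ R ≤ 1 / 2)
    (hupos : 0 < u) (hu4 : u ^ 4 = w) (hucc : 1 / cc ≤ u) (hu8 : 8 ≤ u)
    (huC : (36 * (36 * C0 ^ 3 + C0 ^ 2) / c8 ^ 2 * (C + 1 / cc) + 72 * C0 +
      3 / c8 * (2 * C0 ^ 2 + 6 * C0 / c8 + C0)) / δ' ≤ u) :
    Ex (cubeE m) p (fun ω => ind (TwoBig R ω)) ≤ δ' := by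
  have hm1' : (1 : ℝ) ≤ m := by exact_mod_cast hm1
  have hm0 : (0 : ℝ) < m := by linarith
  have hC0pos : 0 < C0 := by linarith
  have hVpos : 0 < V := by rw [hV]; positivity
  have hwpos : 0 < w := by linarith
  have hpapos : 0 < pa := by
    by_contra hcon
    push Not at hcon
    have := mul_nonpos_of_nonpos_of_nonneg hcon hm0.le
    linarith
  have hpp0 : pa * (1 + e / 2) ≤ p := by
    have := mul_le_mul_of_nonneg_left (show 1 + e / 2 ≤ 1 + 3 / 4 * e by linarith) hpapos.le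
    linarith
  have hPp := hPF p hpp0 le_rfl
  have he2 : e ≤ 1 / 2 := hPp.reg.he1
  have hu1 : 1 ≤ u := by linarith
  have hRpos : (0 : ℝ) < R := by exact_mod_cast hR1
  have heV : 0 < e * V := by positivity
  have hee : e ^ 2 ≤ 1 := pow_le_one₀ he0.le (by linarith)
  have hh1 : h ≤ 1 := by linarith
  obtain ⟨κ, hκ⟩ : ∃ κ : ℝ, κ = 1 / u := ⟨_, rfl⟩
  obtain ⟨q, hq⟩ : ∃ q : ℝ, q = κ * e / m := ⟨_, rfl⟩
  have hp0 := hPp.reg.hp0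
  have hphalf := hPp.reg.hp1
  have hpar := unif_par pa e p q m κ cc u hcc0 hupos hucc hu8 hκ hm1' hpal hpa2 hpapos he0 he2 hp
    hphalf hq
  obtain ⟨p1, hp1⟩ : ∃ p1 : ℝ, p1 = (p - q) / (1 - q) := ⟨_, rfl⟩
  rw [← hp1] at hpar
  obtain ⟨hκ0, hκcc, hqm, hq0, hq1, hp1pos, hp1low, hp1le, hpeq, hdiff⟩ := hpar
  have hPp1 := hPF p1 hp1low hp1le
  have hp1one : p1 ≤ 1 := by linarith
  -- ps
  have hX1 : 1 ≤ a / e := by rw [le_div_iff₀ he0]; linarith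
  have hX2 : a / e ≤ chi (cubeE m) pa (fun _ => false) :=
    (div_le_div_of_nonneg_right ha1 he0.le).trans hchi
  obtain ⟨ps, hps0, hpspa, hpschi, _⟩ := b_chip m hm1 pa (a / e) hpapos.le (by linarith) hX1
    (fun _ => false) hX2
  have hpsp1 : ps ≤ p1 := by
    have h1 : 0 ≤ pa * (e / 2) := by positivity
    have h2 : pa * (1 + e / 2) = pa + pa * (e / 2) := by ring
    linarith
  obtain ⟨L, hL⟩ : ∃ L : ℕ, L = ⌊2 * C0 * e * V⌋₊ := ⟨_, rfl⟩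
  have hLup : (L : ℝ) ≤ 2 * C0 * e * V := by
    rw [hL]
    exact Nat.floor_le (by positivity)
  have hLlow : 2 * C0 * e * V ≤ (L : ℝ) + 1 := by
    rw [hL]
    exact (Nat.lt_floor_add_one _).le
  obtain ⟨u1, hu1def⟩ : ∃ u1 : ℝ, u1 = C / (κ * w) + Real.exp (-(cc * κ ^ 2 * w)) := ⟨_, rfl⟩
  have hu1nn : 0 ≤ u1 := by rw [hu1def]; positivity
  have hST : ∀ S T : Finset (Q m), Disjoint S T → R < S.card → S.card ≤ L → R < T.card →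
      T.card ≤ L → Ex (offE (cubeE m) (S ∪ T)) p1 (fun ζ => Ex (cubeE m) q (fun η =>
        ind (∀ x ∈ S, ∀ y ∈ T, y ∉ cl (ζ ∪ η) x))) ≤ u1 := by
    intro S T hd hS1 hS2 hT1 hT2
    refine (unif_anti m q hq0.le (by linarith) S T ps p1 hps0 hpsp1 hp1one _).trans ?_
    have hS1' : (R : ℝ) ≤ S.card := by exact_mod_cast hS1.le
    have hT1' : (R : ℝ) ≤ T.card := by exact_mod_cast hT1.le
    have hS2' : (S.card : ℝ) ≤ L := by exact_mod_cast hS2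
    have hT2' : (T.card : ℝ) ≤ L := by exact_mod_cast hT2
    rw [hu1def]
    exact hconn ps κ q hps0
      ((mul_le_mul_of_nonneg_right hpspa hm0.le).trans hpau) hpschi hκ0 hκcc hqm S T hd
      (hRlow.trans hS1') (hRlow.trans hT1') (hS2'.trans hLup) (hT2'.trans hLup)
  have hA := uallf m p1 q u1 R L hp1pos.le hp1one hq0.le (by linarith) hu1nn hR1 hST
  have hZ := zr_sq C0 e p1 h 20 m hPp1.reg (by norm_num) R hRhalf
  rw [← hV] at hZ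
  have hRL : R ≤ L + 1 := by
    have h1 : (R : ℝ) ≤ (RGv : ℝ) := by exact_mod_cast hRG
    have h2 : c8 * e * V ≤ 2 * C0 * e * V := by
      have : c8 ≤ 2 * C0 := by linarith
      have h3 := mul_le_mul_of_nonneg_right this heV.le
      linarith
    have h4 : (R : ℝ) ≤ (L : ℝ) + 1 := by linarith
    exact_mod_cast h4
  have hNB := no_big C0 e p1 h 20 m hPp1.reg (by norm_num) L (by rw [← hV]; exact hLlow)
    ((pow_le_pow_of_le_one (by linarith) (by linarith) hRL).trans hRhalf)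
  rw [← hV, ← hwdef] at hNB
  -- orphans
  obtain ⟨t, ht⟩ : ∃ t : ℝ, t = (1 - h) ^ R := ⟨_, rfl⟩
  have ht0 : 0 ≤ t := by rw [ht]; exact pow_nonneg (by linarith) _
  have hO : ∀ x : Q m, Ex (cubeE m) (p1 + q - p1 * q) (fun ω => ind (R < (cl ω x).card)) -
      Ex (cubeE m) p1 (fun ω => ind (R < (cl ω x).card)) ≤
      2 * m * C0 ^ 2 * q + 2 * t * C0 * e + h * C0 / e := by
    intro x
    rw [hpeq]
    have h1 := orp m p1 p h e C0 R hp1pos.le hp1le hphalf hh0.le hh1 he0 hC0pos.le hRhalf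
      (fun p' h1 h2 x => (hPF p' (hp1low.trans h1) h2).reg.hM x)
      (fun p' h1 h2 x => by
        have h3 := (hPF p' (hp1low.trans h1) h2).reg.hmo 1 ∅ x le_rfl (by norm_num)
        rw [unif_offE] at h3
        refine h3.trans (le_of_eq ?_)
        unfold bb
        simp only [Finset.card_empty, Nat.cast_zero, mul_zero, add_zero, one_pow, mul_one]
        field_simp)
      hPp1.small x
    rw [← ht] at h1
    have h2 : 2 * (m : ℝ) * C0 ^ 2 * (p - p1) ≤ 2 * m * C0 ^ 2 * q :=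
      mul_le_mul_of_nonneg_left hdiff (by positivity)
    linarith
  have hOM := orp_mark m p1 q _ R hR1 hp1pos.le hp1one hq0.le (by linarith) hO
  rw [hpeq, ← hV] at hOM
  have hX := hOM.trans (add_le_add_left hA _)
  exact unif_fin C0 c8 cc C e V w m q κ t h u R u1 _ _ _ δ' hC0pos hc8 hcc0 hC he0 hVpos hw1 hwdef
    hu1 hu4 hh0.le ht0 hκ hqm hRpos hRlow (ht ▸ hpow) hhw hu1def
    (xb_Ex_nonneg _ _ hp1pos.le hp1one _ fun ω _ => sq_nonneg _) hZ hNB hX hδ' huC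

theorem unif (C0 c1 c2 c8 c9 B : ℝ) (hC0 : 1 ≤ C0) (hc8 : 0 < c8) (hc8' : c8 ≤ 1) (hB : 1 ≤ B)
    (δ' : ℝ) (hδ' : 0 < δ') : ∃ (w0 : ℝ) (m0 : ℕ), ∀ m ≥ m0, ∀ pa e p : ℝ, 1 / 2 ≤ pa * m →
    pa * m ≤ 1 + 5000 * dl m → pa ≤ 1 / 2 → 0 < e → e ≤ (2 : ℝ) ^ (-(m : ℝ) / 36) →
    w0 ≤ e ^ 3 * 2 ^ m → 1 / e ≤ chi (cubeE m) pa (fun _ => false) →
    pa * (1 + 3 / 4 * e) ≤ p →
    (∀ p' : ℝ, pa * (1 + e / 2) ≤ p' → p' ≤ p → PF C0 c1 c2 c9 B m e p' (hF m e) (RF c8 m e)) →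
    Ex (cubeE m) p (fun ω => ind (TwoBig (RF c8 m e) ω)) ≤ δ' := by
  obtain ⟨a, cc, C, mc, ha0, ha1, hcc0, hcc1, hC, hconn⟩ := conn (2 * C0) (c8 / 3) (by linarith)
    (by linarith)
  obtain ⟨wN, hwN1, hN⟩ := numf c8 B hc8 (by linarith)
  obtain ⟨ms, hms⟩ := unif_small a ha0
  obtain ⟨Ctot, hCtot⟩ : ∃ Ctot : ℝ, Ctot = 36 * (36 * C0 ^ 3 + C0 ^ 2) / c8 ^ 2 * (C + 1 / cc) +
    72 * C0 + 3 / c8 * (2 * C0 ^ 2 + 6 * C0 / c8 + C0) := ⟨_, rfl⟩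
  have hC0pos : 0 < C0 := by linarith
  have hCtot0 : 0 < Ctot := by rw [hCtot]; positivity
  refine ⟨wN + (1 / cc) ^ 4 + 8 ^ 4 + (Ctot / δ') ^ 4 + 1, max (max mc ms) 1, ?_⟩
  intro m hm pa e p hpal hpau hpa2 he0 hesm hw hchi hp hPF
  simp only [ge_iff_le, max_le_iff] at hm
  obtain ⟨⟨hmc, hmms⟩, hm1⟩ := hm
  have hm1' : (1 : ℝ) ≤ m := by exact_mod_cast hm1
  have hm0 : (0 : ℝ) < m := by linarith
  have hp1i : (0 : ℝ) < (1 / cc) ^ 4 := by positivity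
  have hp2i : (0 : ℝ) ≤ (Ctot / δ') ^ 4 := by positivity
  have h84 : (8 : ℝ) ^ 4 = 4096 := by norm_num
  rw [h84] at hw
  have hpapos : 0 < pa := by
    by_contra hcon
    push Not at hcon
    have := mul_nonpos_of_nonpos_of_nonneg hcon hm0.le
    linarith
  have hpp0 : pa * (1 + e / 2) ≤ p := by
    have := mul_le_mul_of_nonneg_left (show 1 + e / 2 ≤ 1 + 3 / 4 * e by linarith) hpapos.le
    linarith
  have he2 : e ≤ 1 / 2 := (hPF p hpp0 le_rfl).reg.he1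
  obtain ⟨hh0, hhe, hhw, hR1, hRlow, hRGup, _, _, hpow, hRhalf⟩ := hN m e he0 he2 (by linarith)
  have hw1 : 1 ≤ e ^ 3 * (2 : ℝ) ^ m := by linarith
  have hconn' := hconn m hmc e
  obtain ⟨V, hV⟩ : ∃ V : ℝ, V = 2 ^ m := ⟨_, rfl⟩
  rw [← hV] at hw hhw hRlow hRGup hpow hw1
  obtain ⟨w, hwdef⟩ : ∃ w : ℝ, w = e ^ 3 * V := ⟨_, rfl⟩
  rw [← hwdef] at hw hhw hpow hw1
  have hwpos : 0 < w := by linarith
  obtain ⟨u, hu⟩ : ∃ u : ℝ, u = w ^ (1 / 4 : ℝ) := ⟨_, rfl⟩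
  rw [← hu] at hhw hpow
  have hupos : 0 < u := by rw [hu]; exact Real.rpow_pos_of_pos hwpos _
  have hu4 : u ^ 4 = w := by
    rw [hu, ← Real.rpow_natCast, ← Real.rpow_mul hwpos.le]; norm_num
  have hule : ∀ A : ℝ, A ^ 4 ≤ w → A ≤ u := fun A h => by
    rw [← hu4] at h
    exact le_of_pow_le_pow_left₀ (by norm_num) hupos.le h
  have hucc : 1 / cc ≤ u := hule _ (by linarith)
  have hu8 : 8 ≤ u := hule _ (by rw [h84]; linarith)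
  have huC : Ctot / δ' ≤ u := hule _ (by linarith)
  rw [hCtot] at huC
  have hRG : RF c8 m e ≤ RG c8 m e := by
    unfold RF
    exact Nat.div_le_self _ _
  refine unif_core C0 c1 c2 c8 c9 B δ' a cc C hC0 hc8 hc8' hδ' ha0 ha1 hcc0 hC m hm1 pa e p V w u
    (hF m e) (RF c8 m e) (RG c8 m e) hV hwdef hw1 ?_ hpal hpau hpa2 he0 (hesm.trans (hms m hmms))
    hchi hp hPF hh0 hhe hhw hR1 hRlow hRG hRGup (hpow _ le_rfl) hRhalf hupos hu4 hucc hu8 huC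
  intro ps κ q h1 h2 h3 h4 h5 h6 S T h7 h8 h9 h10 h11
  rw [hwdef, hV]
  rw [hwdef, hV] at hw1
  rw [hV] at h8 h9 h10 h11
  exact hconn' ps κ q he0 hesm hw1 h1 h2 h3 h4 h5 h6 S T h7 h8 h9 h10 h11

end Pool.Agent.Work.MP_b7dc8a_pr
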