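import Pool.Agent.Work.MP_b7dc8a_pr.F.Tfb
import Pool.Agent.Work.MP_b7dc8a_pr.F.Del
import Pool.Agent.Work.MP_b7dc8a_pr.F.Nid
import Pool.Agent.Work.MP_b7dc8a_pr.F.Locb

/-! Module PAIR (M): probability that two vertices are connected to ghosts. `E = cubeE m`, `K >= 4`,
`V = 2^m`, `b = bb e D`, `W_D = WW E D`. `C` denotes constants depending only on `C0`.

For `y, y' ∉ D`: `P(y, y' ∈ W_D) = P(y ∈ W_D) P(y' ∈ W_D) + Cov`, the product is at most `C0^2 e^2`, and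
`Cov = P(y, y' ∉ W_D) - P(y ∉ W_D) P(y' ∉ W_D)`. Exploring `A = cl ω' y` (`gex` with `H C ω G =
ind (y' ∉ C) ind (y' ∉ WW E (D ∪ C) ω G) + ind (y' ∈ C)`; note `y' ∈ C` implies `y' ∉ W_D` on `y ∉ W_D`, `nn_step`):
`Cov = Ex (offE E D) [(1-h)^|A| (ind (y' ∈ A) P(y' ∈ W_D) + ind (y' ∉ A) (P(y' ∈ W_D) - P(y' ∈ W_{D ∪ A})))]`.
If `y' ∈ A`: `P(y' ∈ W_D) <= C0 e <= C0 e ∑_{a∈A} Loc_0(a,y')` (`loc_one_le`). If `y' ∉ A`: `del_hitset` with
`t a = 3 Loc_0(a,y') + 60 (TN + C0 bb e (D ∪ A)/e)/V` (`tfb`, `hmo` with `k = 1`, `bb e D' <= bb e (D ∪ A)`). So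
`Cov <= 18 C0 e Ex [(1-h)^|A| ∑_{a∈A} (3 Loc_0(a,y') + 60 (TN + C0 bb e (D ∪ A)/e)/V)]`. Now
`Ex [(1-h)^|A| ∑_{a∈A} Loc_0(a,y')] = ∑_a tf (offE E D) y a Loc_0(a,y') <= ∑_a (3 Loc_0(y,a) +
60 (TN + C0 b/e)/V) Loc_0(a,y') <= 3 Loc_1(y,y') + 60 (TN + C0 b/e) TN/V` (`loc_conv`, `loc_sum`, `loc_comm`) and
`Ex [(1-h)^|A| |A| (TN + C0 bb e (D ∪ A)/e)] <= TN C0 b/e + 2 C0^2 b^2/e^2` (`mob`). Altogether
`Cov <= C e Loc_1(y,y') + C (e TN^2 + TN b + b^2/e)/V`. Since `e^3 V >= 1`: `1/(e V) <= e^2`, and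
`TN/V <= e^2`, `e TN^2/V <= e^2` for large `m` (`e >= 2^(-m/3)`, so `e^2 V >= 2^(m/3) >= TN`,
`e V >= 2^(2m/3) >= TN^2`). So `Cov <= C e Loc_1(y,y') + C e^2 b^2`. -/

namespace Pool.Agent.Work.MP_b7dc8a_pr

open Finset

section
variable {V : Type} [Fintype V] [DecidableEq V]

omit [DecidableEq V] in
private theorem pair_sub (E : Finset (Sym2 V)) (p h : ℝ) (F H : Finset (Sym2 V) → Finset V → ℝ) :
    EG E p h (fun ω G => F ω G - H ω G) = EG E p h F - EG E p h H := by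
  unfold EG
  rw [← Ex_sub]
  exact Ex_congr _ _ _ _ fun ω _ => Ex_sub _ _ _ _

private theorem pair_id (E : Finset (Sym2 V)) (p h : ℝ) (D : Finset V) (y y' : V) (hy : y ∉ D) :
    EG E p h (fun ω G => ind (y ∈ WW E D ω G) * ind (y' ∈ WW E D ω G)) =
      EG E p h (fun ω G => ind (y' ∈ WW E D ω G)) -
        Ex (offE E D) p (fun ω' => (1 - h) ^ (cl ω' y).card *
          EG E p h (fun ω G => ind (y' ∈ WW E (D ∪ cl ω' y) ω G))) := by
  have g := gex E p h D y (fun C ω G => ind (y' ∈ WW E (D ∪ C) ω G))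
  simp only [ww_off, ww_diff E _ _ subset_union_right] at g
  rw [← g, ← pair_sub]
  congr 1
  funext ω G
  by_cases hz : y ∈ cls (ω ∩ offE E D) G
  · rw [walk_ind_pos _ ((ww_mem E D ω G y).2 ⟨hy, hz⟩),
      walk_ind_neg (y ∉ cls (ω ∩ offE E D) G) (fun hc => hc hz)]
    ring
  · rw [walk_ind_neg _ (fun hc => hz ((ww_mem E D ω G y).1 hc).2), walk_ind_pos _ hz,
      ← (nn_step E D ω G y hy hz).2]
    ring

end

private theorem pair_cov (C0 e p h : ℝ) (K m : ℕ) (R : Reg C0 K m e p h) (hK : 4 ≤ K)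
    (htf : ∀ (E : Finset (Sym2 (Q m))) (p h : ℝ), E ⊆ cubeE m → 0 ≤ p →
      p * ((m : ℝ) - 1) ≤ 1 + 1 / TN m → 0 ≤ h → h ≤ 1 → ∀ x y,
      tf E p h x y ≤ 3 * Loc m 0 x y + 60 * (TN m + mo E p h 1 y) / 2 ^ m)
    (D : Finset (Q m)) (y y' : Q m) (hy : y ∉ D) :
    EG (cubeE m) p h (fun ω G => ind (y ∈ WW (cubeE m) D ω G) * ind (y' ∈ WW (cubeE m) D ω G)) ≤
      C0 ^ 2 * e ^ 2 + 18 * C0 * e * Ex (offE (cubeE m) D) p (fun ω' =>
        (1 - h) ^ (cl ω' y).card * ∑ a ∈ cl ω' y, (3 * Loc m 0 a y' +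
          60 * (TN m + C0 / e * bb e (D ∪ cl ω' y)) / 2 ^ m)) := by
  have hp0 := R.hp0
  have hp1 : p ≤ 1 := by linarith [R.hp1]
  have he0 := R.he0
  have he1 := R.he1
  have hh0 := R.hh0
  have hh1 : h ≤ 1 := by nlinarith [R.hh]
  have hC0 := R.hC0
  rw [pair_id (cubeE m) p h D y y' hy]
  set P := EG (cubeE m) p h (fun ω G => ind (y' ∈ WW (cubeE m) D ω G)) with hP
  have hP0 : 0 ≤ P := xb_Ex_nonneg _ _ hp0 hp1 _ fun _ _ =>
    xb_Ex_nonneg _ _ hh0 hh1 _ fun _ _ => xb_ind_nonneg _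
  have hP1 : P ≤ C0 * e := (ww_prob _ _ _ hp0 hp1 hh0 hh1 D y').trans (R.hM y')
  have hy1 : 1 - Ex (offE (cubeE m) D) p (fun ω' => (1 - h) ^ (cl ω' y).card) ≤ C0 * e := by
    have := ww_prob_eq (cubeE m) p h D y hy
    unfold Mh at this
    rw [← this]
    exact (ww_prob _ _ _ hp0 hp1 hh0 hh1 D y).trans (R.hM y)
  have e1 : P - Ex (offE (cubeE m) D) p (fun ω' => (1 - h) ^ (cl ω' y).card *
      EG (cubeE m) p h (fun ω G => ind (y' ∈ WW (cubeE m) (D ∪ cl ω' y) ω G))) =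
      P * (1 - Ex (offE (cubeE m) D) p (fun ω' => (1 - h) ^ (cl ω' y).card)) +
      Ex (offE (cubeE m) D) p (fun ω' => (1 - h) ^ (cl ω' y).card * (P -
        EG (cubeE m) p h (fun ω G => ind (y' ∈ WW (cubeE m) (D ∪ cl ω' y) ω G)))) := by
    have e2 : (fun ω' : Finset (Sym2 (Q m)) => (1 - h) ^ (cl ω' y).card * (P -
        EG (cubeE m) p h (fun ω G => ind (y' ∈ WW (cubeE m) (D ∪ cl ω' y) ω G)))) =
        fun ω' => P * (1 - h) ^ (cl ω' y).card - (1 - h) ^ (cl ω' y).card *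
        EG (cubeE m) p h (fun ω G => ind (y' ∈ WW (cubeE m) (D ∪ cl ω' y) ω G)) := by
      funext ω'
      ring
    rw [e2, Ex_sub, Ex_mul_left]
    ring
  rw [e1]
  have h1 : P * (1 - Ex (offE (cubeE m) D) p (fun ω' => (1 - h) ^ (cl ω' y).card)) ≤
      C0 ^ 2 * e ^ 2 := by
    have q1 := mul_le_mul_of_nonneg_left hy1 hP0
    have q2 := mul_le_mul_of_nonneg_right hP1 (by positivity : 0 ≤ C0 * e)
    calc _ ≤ P * (C0 * e) := q1
      _ ≤ C0 * e * (C0 * e) := q2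
      _ = _ := by ring
  refine add_le_add h1 ?_
  rw [← Ex_mul_left]
  refine Ex_mono _ _ hp0 hp1 _ _ fun ω' hω' => ?_
  have hdis : Disjoint (cl ω' y) D := xb_cl_off' (cubeE m) ω' D hω' y hy
  have h2 := del_hitset C0 e p h K m R D (cl ω' y) hdis y' (fun a => 3 * Loc m 0 a y' +
          60 * (TN m + C0 / e * bb e (D ∪ cl ω' y)) / 2 ^ m) (fun D' a _ hD' _ _ => by
    refine (htf (offE (cubeE m) D') p h (xb_offE_subset _ _) hp0 R.hpn hh0 hh1 a y').trans ?_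
    have q1 := R.hmo 1 D' y' le_rfl (by omega)
    have q2 : bb e D' ≤ bb e (D ∪ cl ω' y) := by
      unfold bb
      have : (D'.card : ℝ) ≤ (D ∪ cl ω' y).card := by exact_mod_cast card_le_card hD'
      have := mul_le_mul_of_nonneg_left this (sq_nonneg e)
      linarith
    have q3 : C0 * e / e ^ (2 * 1) * bb e D' ^ 1 = C0 / e * bb e D' := by
      field_simp
    rw [q3] at q1
    have q4 := q1.trans (mul_le_mul_of_nonneg_left q2 (by positivity : 0 ≤ C0 / e))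
    gcongr)
  rw [pair_sub] at h2
  have h3 : 0 ≤ (1 - h) ^ (cl ω' y).card := pow_nonneg (by linarith) _
  have h4 := mul_le_mul_of_nonneg_left h2 h3
  refine h4.trans_eq ?_
  ring

private theorem pair_num : ∃ m0 : ℕ, ∀ m ≥ m0, (TN m : ℝ) ^ 3 ≤ 2 ^ m := by
  have h1 := tendsto_pow_const_div_const_pow_of_one_lt 6 (one_lt_two : (1 : ℝ) < 2)
  obtain ⟨m0, hm0⟩ := Filter.eventually_atTop.1
    ((tendsto_order.1 h1).2 (1 / 64) (by norm_num))
  refine ⟨max m0 1, fun m hm => ?_⟩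
  have h2 := hm0 m ((le_max_left _ _).trans hm)
  have h3 := (xn_TT m ((le_max_right _ _).trans hm)).2.2
  rw [div_lt_iff₀ (by positivity)] at h2
  have h4 : (TN m : ℝ) ≤ 4 * (m : ℝ) ^ 2 := by
    unfold TN
    push_cast
    linarith
  calc (TN m : ℝ) ^ 3 ≤ (4 * (m : ℝ) ^ 2) ^ 3 := pow_le_pow_left₀ (Nat.cast_nonneg _) h4 3
    _ = 64 * (m : ℝ) ^ 6 := by ring
    _ ≤ 2 ^ m := by linarith

private theorem pair_small (e V T : ℝ) (he0 : 0 < e) (hV0 : 0 < V) (hT : 0 ≤ T)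
    (hV : 1 ≤ e ^ 3 * V) (hTV : T ^ 3 ≤ V) : T / V ≤ e ^ 2 ∧ e * T ^ 2 / V ≤ e ^ 2 ∧
      1 / (e * V) ≤ e ^ 2 := by
  have h1 : T ≤ e ^ 2 * V := by
    refine le_of_pow_le_pow_left₀ (n := 3) (by norm_num) (by positivity) ?_
    have : (e ^ 2 * V) ^ 3 = (e ^ 3 * V) ^ 2 * V := by ring
    rw [this]
    have h2 : 1 ≤ (e ^ 3 * V) ^ 2 := one_le_pow₀ hV
    nlinarith
  have h2 : T ^ 2 ≤ e * V := by
    refine le_of_pow_le_pow_left₀ (n := 3) (by norm_num) (by positivity) ?_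
    have e1 : (e * V) ^ 3 = (e ^ 3 * V) * V ^ 2 := by ring
    have e2 : (T ^ 2) ^ 3 = (T ^ 3) ^ 2 := by ring
    rw [e1, e2]
    have h3 : (T ^ 3) ^ 2 ≤ V ^ 2 := pow_le_pow_left₀ (by positivity) hTV 2
    have h4 : 0 ≤ V ^ 2 := by positivity
    nlinarith
  refine ⟨?_, ?_, ?_⟩
  · rw [div_le_iff₀ hV0]
    exact h1
  · rw [div_le_iff₀ hV0]
    nlinarith
  · rw [div_le_iff₀ (by positivity)]
    linarith

theorem pair (C0 : ℝ) : ∃ (C : ℝ) (m0 : ℕ), 1 ≤ C ∧ ∀ m ≥ m0, ∀ (K : ℕ) (e p h : ℝ),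
    Reg C0 K m e p h → 4 ≤ K → ∀ (D : Finset (Q m)) (y y' : Q m),
    EG (cubeE m) p h (fun ω G => ind (y ∈ WW (cubeE m) D ω G) * ind (y' ∈ WW (cubeE m) D ω G)) ≤
      C * (e ^ 2 * bb e D ^ 2 + e * Loc m 1 y y') := by
  by_cases hC : 1 ≤ C0
  swap
  · exact ⟨1, 0, le_rfl, fun m _ K e p h R => absurd R.hC0 hC⟩
  obtain ⟨m1, hm1⟩ := tfb
  obtain ⟨m2, hm2⟩ := pair_num
  refine ⟨10000 * C0 ^ 3, max m1 (max m2 2), ?_, ?_⟩
  · have : 1 ≤ C0 ^ 3 := one_le_pow₀ hC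
    linarith
  intro m hm K e p h R hK D y y'
  have htf := hm1 m ((le_max_left _ _).trans hm)
  have hTN := hm2 m (((le_max_left _ _).trans (le_max_right _ _)).trans hm)
  have hm1' : 1 ≤ m := by
    have := ((le_max_right m2 2).trans (le_max_right m1 _)).trans hm
    omega
  have hp0 := R.hp0
  have hp1 : p ≤ 1 := by linarith [R.hp1]
  have he0 := R.he0
  have he1 := R.he1
  have hh0 := R.hh0
  have hh1 : h ≤ 1 := by nlinarith [R.hh]
  have hC0 := R.hC0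
  have hL1 : 0 ≤ Loc m 1 y y' := loc_nonneg _ _ _ _
  have hb1 : 1 ≤ bb e D := by
    unfold bb
    have : 0 ≤ e ^ 2 * (D.card : ℝ) := by positivity
    linarith
  have hrhs : 0 ≤ 10000 * C0 ^ 3 * (e ^ 2 * bb e D ^ 2 + e * Loc m 1 y y') := by positivity
  by_cases hy : y ∈ D
  · refine le_trans (le_of_eq ?_) hrhs
    have : (fun (ω : Finset (Sym2 (Q m))) (G : Finset (Q m)) =>
        ind (y ∈ WW (cubeE m) D ω G) * ind (y' ∈ WW (cubeE m) D ω G)) = fun _ _ => 0 := by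
      funext ω G
      rw [walk_ind_neg _ (fun hc => ((ww_mem _ _ _ _ _).1 hc).1 hy), zero_mul]
    rw [this]
    unfold EG
    rw [Ex_const, Ex_const]
  refine (pair_cov C0 e p h K m R hK htf D y y' hy).trans ?_
  obtain ⟨s1, s2, s3⟩ := pair_small e (2 ^ m) (TN m) he0 (by positivity) (Nat.cast_nonneg _)
    R.hV hTN
  have htfD : ∀ a, tf (offE (cubeE m) D) p h y a ≤ 3 * Loc m 0 y a +
      60 * (TN m + C0 / e * bb e D) / 2 ^ m := by
    intro a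
    refine (htf (offE (cubeE m) D) p h (xb_offE_subset _ _) hp0 R.hpn hh0 hh1 y a).trans ?_
    have q1 := R.hmo 1 D a le_rfl (by omega)
    have q3 : C0 * e / e ^ (2 * 1) * bb e D ^ 1 = C0 / e * bb e D := by
      field_simp
    rw [q3] at q1
    gcongr
  have hls : ∑ a, Loc m 0 a y' ≤ TN m := by
    have := loc_sum m 0 hm1' y'
    simp only [loc_comm m 0 y'] at this
    simpa using this
  -- first term
  have hT1 : Ex (offE (cubeE m) D) p (fun ω' => (1 - h) ^ (cl ω' y).card *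
      ∑ a ∈ cl ω' y, Loc m 0 a y') ≤ 3 * Loc m 1 y y' +
        60 * (TN m + C0 / e * bb e D) / 2 ^ m * TN m := by
    have e1 : (fun ω' : Finset (Sym2 (Q m)) => (1 - h) ^ (cl ω' y).card *
        ∑ a ∈ cl ω' y, Loc m 0 a y') = fun ω' => ∑ a, Loc m 0 a y' *
          (ind (a ∈ cl ω' y) * (1 - h) ^ (cl ω' y).card) := by
      funext ω'
      rw [Finset.mul_sum, ← Finset.sum_subset (subset_univ (cl ω' y))]
      · refine Finset.sum_congr rfl fun a ha => ?_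
        rw [walk_ind_pos _ ha]
        ring
      · intro a _ ha
        rw [walk_ind_neg _ ha]
        ring
    rw [e1, Ex_sum]
    calc ∑ a, Ex (offE (cubeE m) D) p (fun ω' => Loc m 0 a y' *
          (ind (a ∈ cl ω' y) * (1 - h) ^ (cl ω' y).card))
        ≤ ∑ a, Loc m 0 a y' * (3 * Loc m 0 y a + 60 * (TN m + C0 / e * bb e D) / 2 ^ m) := by
          refine Finset.sum_le_sum fun a _ => ?_
          rw [Ex_mul_left]
          exact mul_le_mul_of_nonneg_left (htfD a) (loc_nonneg _ _ _ _)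
      _ = 3 * ∑ a, Loc m 0 y a * Loc m 0 a y' +
          60 * (TN m + C0 / e * bb e D) / 2 ^ m * ∑ a, Loc m 0 a y' := by
          rw [Finset.mul_sum, Finset.mul_sum, ← Finset.sum_add_distrib]
          exact Finset.sum_congr rfl fun a _ => by ring
      _ ≤ _ := by
          have q1 := loc_conv m 0 0 hm1' y y'
          have q2 : (0 : ℝ) ≤ 60 * (TN m + C0 / e * bb e D) / 2 ^ m := by positivity
          have q3 := mul_le_mul_of_nonneg_left hls q2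
          linarith
  -- second term
  have hT2 : Ex (offE (cubeE m) D) p (fun ω' => (1 - h) ^ (cl ω' y).card *
      (((cl ω' y).card : ℝ) * (TN m + C0 / e * bb e (D ∪ cl ω' y)))) ≤
        TN m * (C0 / e * bb e D) + C0 / e * (2 * C0 * (1 / e) * bb e D ^ 2) := by
    have e1 : (fun ω' : Finset (Sym2 (Q m)) => (1 - h) ^ (cl ω' y).card *
        (((cl ω' y).card : ℝ) * (TN m + C0 / e * bb e (D ∪ cl ω' y)))) = fun ω' =>
        (TN m : ℝ) * (((cl ω' y).card : ℝ) ^ 1 * (1 - h) ^ (cl ω' y).card) +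
          C0 / e * (((cl ω' y).card : ℝ) ^ 1 * (1 - h) ^ (cl ω' y).card *
            bb e (D ∪ cl ω' y) ^ 1) := by
      funext ω'
      ring
    rw [e1, Ex_add, Ex_mul_left, Ex_mul_left]
    have q1 := R.hmo 1 D y le_rfl (by omega)
    have q3 : C0 * e / e ^ (2 * 1) * bb e D ^ 1 = C0 / e * bb e D := by
      field_simp
    rw [q3] at q1
    have q2 := mob m K C0 e p h hC0 he0 (by linarith) hp0 hp1 hh0 hh1 R.hmo 1 1 (by omega) D y
    rw [if_neg one_ne_zero] at q2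
    have q4 : (2 : ℝ) ^ 1 * C0 * (e / e ^ (2 * 1)) * bb e D ^ (1 + 1) =
        2 * C0 * (1 / e) * bb e D ^ 2 := by
      field_simp
    rw [q4] at q2
    have q5 : Ex (offE (cubeE m) D) p (fun ω' => ((cl ω' y).card : ℝ) ^ 1 *
      (1 - h) ^ (cl ω' y).card) ≤ C0 / e * bb e D := q1
    exact add_le_add (mul_le_mul_of_nonneg_left q5 (Nat.cast_nonneg _))
      (mul_le_mul_of_nonneg_left q2 (by positivity))
  have hT : Ex (offE (cubeE m) D) p (fun ω' =>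
        (1 - h) ^ (cl ω' y).card * ∑ a ∈ cl ω' y, (3 * Loc m 0 a y' +
          60 * (TN m + C0 / e * bb e (D ∪ cl ω' y)) / 2 ^ m)) ≤
      3 * (3 * Loc m 1 y y' + 60 * (TN m + C0 / e * bb e D) / 2 ^ m * TN m) +
        60 / 2 ^ m * (TN m * (C0 / e * bb e D) + C0 / e * (2 * C0 * (1 / e) * bb e D ^ 2)) := by
    have e1 : (fun ω' : Finset (Sym2 (Q m)) =>
        (1 - h) ^ (cl ω' y).card * ∑ a ∈ cl ω' y, (3 * Loc m 0 a y' +
          60 * (TN m + C0 / e * bb e (D ∪ cl ω' y)) / 2 ^ m)) = fun ω' =>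
        3 * ((1 - h) ^ (cl ω' y).card * ∑ a ∈ cl ω' y, Loc m 0 a y') +
        60 / 2 ^ m * ((1 - h) ^ (cl ω' y).card *
          (((cl ω' y).card : ℝ) * (TN m + C0 / e * bb e (D ∪ cl ω' y)))) := by
      funext ω'
      rw [Finset.sum_add_distrib, ← Finset.mul_sum, Finset.sum_const, nsmul_eq_mul]
      ring
    rw [e1, Ex_add, Ex_mul_left, Ex_mul_left]
    exact add_le_add (mul_le_mul_of_nonneg_left hT1 (by norm_num))
      (mul_le_mul_of_nonneg_left hT2 (by positivity))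
  have hT' := mul_le_mul_of_nonneg_left hT (by positivity : 0 ≤ 18 * C0 * e)
  refine (add_le_add_right hT' _).trans ?_
  -- numbers
  set b := bb e D with hb
  set V : ℝ := 2 ^ m with hV
  set T : ℝ := ((TN m : ℕ) : ℝ) with hTdef
  set L := Loc m 1 y y' with hLdef
  have hV0 : 0 < V := by positivity
  have hT0 : 0 ≤ T := Nat.cast_nonneg _
  have hbb : b ≤ b ^ 2 := by nlinarith
  have hC1 : C0 ≤ C0 ^ 3 := by nlinarith [sq_nonneg (C0 - 1), mul_nonneg (sub_nonneg.2 hC0) (sub_nonneg.2 hC0)]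
  have hC2 : C0 ^ 2 ≤ C0 ^ 3 := by nlinarith [sq_nonneg C0]
  have e1 : 18 * C0 * e * (3 * (3 * L + 60 * (T + C0 / e * b) / V * T) +
      60 / V * (T * (C0 / e * b) + C0 / e * (2 * C0 * (1 / e) * b ^ 2))) =
      162 * C0 * (e * L) + 3240 * C0 * (e * T ^ 2 / V) + 4320 * C0 ^ 2 * b * (T / V) +
        2160 * C0 ^ 3 * b ^ 2 * (1 / (e * V)) := by
    field_simp
    ring
  rw [e1]
  have f1 : 3240 * C0 * (e * T ^ 2 / V) ≤ 3240 * C0 ^ 3 * (e ^ 2 * b ^ 2) := by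
    have g1 : 3240 * C0 * (e * T ^ 2 / V) ≤ 3240 * C0 * e ^ 2 :=
      mul_le_mul_of_nonneg_left s2 (by positivity)
    have g2 : 3240 * C0 * e ^ 2 ≤ 3240 * C0 ^ 3 * (e ^ 2 * b ^ 2) := by
      have g3 : e ^ 2 ≤ e ^ 2 * b ^ 2 := by
        have : 1 ≤ b ^ 2 := one_le_pow₀ hb1
        nlinarith [sq_nonneg e]
      exact mul_le_mul (by linarith) g3 (sq_nonneg e) (by positivity)
    exact g1.trans g2
  have f2 : 4320 * C0 ^ 2 * b * (T / V) ≤ 4320 * C0 ^ 3 * (e ^ 2 * b ^ 2) := by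
    have g1 : 4320 * C0 ^ 2 * b * (T / V) ≤ 4320 * C0 ^ 2 * b * e ^ 2 :=
      mul_le_mul_of_nonneg_left s1 (by positivity)
    have g2 : 4320 * C0 ^ 2 * b * e ^ 2 = 4320 * C0 ^ 2 * (e ^ 2 * b) := by ring
    have g3 : 4320 * C0 ^ 2 * (e ^ 2 * b) ≤ 4320 * C0 ^ 3 * (e ^ 2 * b ^ 2) :=
      mul_le_mul (by linarith) (mul_le_mul_of_nonneg_left hbb (sq_nonneg e)) (by positivity)
        (by positivity)
    linarith
  have f3 : 2160 * C0 ^ 3 * b ^ 2 * (1 / (e * V)) ≤ 2160 * C0 ^ 3 * (e ^ 2 * b ^ 2) := by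
    have g1 : 2160 * C0 ^ 3 * b ^ 2 * (1 / (e * V)) ≤ 2160 * C0 ^ 3 * b ^ 2 * e ^ 2 :=
      mul_le_mul_of_nonneg_left s3 (by positivity)
    linarith
  have f4 : C0 ^ 2 * e ^ 2 ≤ C0 ^ 3 * (e ^ 2 * b ^ 2) := by
    have g3 : e ^ 2 ≤ e ^ 2 * b ^ 2 := by
      have : 1 ≤ b ^ 2 := one_le_pow₀ hb1
      nlinarith [sq_nonneg e]
    exact mul_le_mul hC2 g3 (sq_nonneg e) (by positivity)
  have f5 : 162 * C0 * (e * L) ≤ 162 * C0 ^ 3 * (e * L) :=
    mul_le_mul_of_nonneg_right (by linarith) (by positivity)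
  have f6 : 0 ≤ C0 ^ 3 * (e * L) := by positivity
  have f7 : 0 ≤ C0 ^ 3 * (e ^ 2 * b ^ 2) := by positivity
  linarith

end Pool.Agent.Work.MP_b7dc8a_pr
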