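import Pool.Agent.Work.MP_b7dc8a_pr.F.Vl1
import Pool.Agent.Work.MP_b7dc8a_pr.F.Pair
import Pool.Agent.Work.MP_b7dc8a_pr.F.Capl
import Pool.Agent.Work.MP_b7dc8a_pr.F.Locset

/-! Module VL2 (M): the variance of `N = NN E ∅` is at least `c' V/e`. `E = cubeE m`, `V = 2^m`.

`c1` is the constant of `capl_good` (a hypothesis here), `C` the constant of `pair` (depending on `C0`), `C3` the one of
`loc_set 3`. Start from `vl1` with `T = B/e^2`. `w(K) = |K|^2 ind (|K| <= B/e^2) (1-h)^|K|`.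
Mass transport: for fixed `ζ` and any `F`: `∑_a F (cl ζ a) a = ∑_a (1/|cl ζ a|) ∑_{a'∈cl ζ a} F (cl ζ a) a'`
(`cl ζ a' = cl ζ a` for `a' ∈ cl ζ a`). So in the bound of `vl1` we may replace the `nb`-sum at `a` by
`(1/|K|) ∑_{k'∈K} (nb-sum at k')`, `K = cl ζ a`. Let `|K| <= B/e^2` (`<= 2^(m - m/40)` for large `m` since `e^3 V >= 1`):
* `ww_prob_eq`: `EG p1 (ind (b ∈ WW E K)) = Mh (offE E K) p1 h b >= c9 e` for the good `b` (`hgood`), and there are
 at least `c1 m |K|` pairs `(k',b)`, `b` good (`hcap`): the positive part is `>= c1 m |K| c9 e`.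
* `pair` with `bb e K <= 1 + B`: the negative part is at most
 `2 q ∑_{k,k'∈K} ∑_{b ~ k', y ~ k} C (e^2 (1+B)^2 + e Loc_1(b,y)) <= 2 q C m^2 (|K|^2 e^2 (1+B)^2 +
 e ∑_{k,k'} Loc_3(k,k'))` (`loc_shift` twice, `loc_comm`) `<= 2 q C m^2 |K| (e^2 |K| (1+B)^2 + e C3)
 <= 2 κ e C m |K| (B (1+B)^2 + C3) <= c1 c9 m e |K|/2` for `κ = c1 c9/(4 C (B (1+B)^2 + C3))` (`q m <= κ e`).
So `Var >= q (1-q) ∑_a Ex p1 [w(K) c1 c9 m e/2] >= (κ e/(2m)) (1/2) V (c1 c9 m e/2) exp (-2B) c2/e^3`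
(`(1-h)^|K| >= exp (-2 h |K|) >= exp (-2B)`, `hsec`). Take `κ <= 1/8` as well. -/

namespace Pool.Agent.Work.MP_b7dc8a_pr

open Finset

private theorem vl2_size (B : ℝ) : ∃ m0 : ℕ, ∀ m ≥ m0, ∀ e : ℝ, 0 < e → 1 ≤ e ^ 3 * 2 ^ m →
    B / e ^ 2 ≤ (2 : ℝ) ^ ((m : ℝ) - m / 40) := by
  have hr : (1 : ℝ) < (2 : ℝ) ^ ((37 : ℝ) / 120) :=
    Real.one_lt_rpow (by norm_num) (by norm_num)
  obtain ⟨n, hn⟩ := pow_unbounded_of_one_lt B hr
  refine ⟨n, fun m hm e he h1 => ?_⟩
  set u : ℝ := (2 : ℝ) ^ ((m : ℝ) / 3) with hu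
  have hu0 : 0 < u := by positivity
  have hu3 : u ^ 3 = 2 ^ m := by
    rw [hu, ← Real.rpow_natCast, ← Real.rpow_mul (by norm_num), ← Real.rpow_natCast]
    congr 1
    push_cast
    ring
  have h2 : 1 ≤ e * u := by
    by_contra hc
    push Not at hc
    have h3 : (e * u) ^ 3 < 1 := pow_lt_one₀ (by positivity) hc (by norm_num)
    rw [mul_pow, hu3] at h3
    linarith
  have h4 : 1 / e ^ 2 ≤ u ^ 2 := by
    rw [div_le_iff₀ (by positivity)]
    have : (1 : ℝ) ^ 2 ≤ (e * u) ^ 2 := pow_le_pow_left₀ (by norm_num) h2 2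
    nlinarith
  have hB : B ≤ ((2 : ℝ) ^ ((37 : ℝ) / 120)) ^ m :=
    hn.le.trans (pow_le_pow_right₀ hr.le hm)
  rcases le_or_gt B 0 with hB0 | hB0
  · have h5 : B / e ^ 2 ≤ 0 := div_nonpos_of_nonpos_of_nonneg hB0 (by positivity)
    exact h5.trans (by positivity)
  calc B / e ^ 2 = B * (1 / e ^ 2) := by ring
    _ ≤ ((2 : ℝ) ^ ((37 : ℝ) / 120)) ^ m * u ^ 2 := mul_le_mul hB h4 (by positivity) (by positivity)
    _ = (2 : ℝ) ^ ((m : ℝ) - m / 40) := by
        rw [hu, ← Real.rpow_natCast, ← Real.rpow_natCast, ← Real.rpow_mul (by norm_num),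
          ← Real.rpow_mul (by norm_num), ← Real.rpow_add (by norm_num)]
        congr 1
        push_cast
        ring

private theorem vl2_mt {V : Type} [Fintype V] [DecidableEq V] (ζ : Finset (Sym2 V))
    (F : Finset V → V → ℝ) :
    ∑ a, F (cl ζ a) a = ∑ a, 1 / ((cl ζ a).card : ℝ) * ∑ a' ∈ cl ζ a, F (cl ζ a) a' := by
  have h1 : ∀ a : V, 1 / ((cl ζ a).card : ℝ) * ∑ a' ∈ cl ζ a, F (cl ζ a) a' =
      ∑ a' : V, if a ∈ cl ζ a' then 1 / ((cl ζ a').card : ℝ) * F (cl ζ a') a' else 0 := by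
    intro a
    rw [Finset.mul_sum, ← Finset.sum_filter]
    have h2 : (univ.filter fun a' => a ∈ cl ζ a') = cl ζ a := by
      ext z
      rw [Finset.mem_filter]
      constructor
      · rintro ⟨-, hz⟩
        exact (cl_symm ζ z a).1 hz
      · intro hz
        exact ⟨Finset.mem_univ _, (cl_symm ζ z a).2 hz⟩
    rw [h2]
    refine Finset.sum_congr rfl fun a' ha' => ?_
    rw [cl_eq_of_mem ζ a a' ha']
  rw [Finset.sum_congr rfl fun a _ => h1 a, Finset.sum_comm]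
  refine Finset.sum_congr rfl fun a' _ => ?_
  rw [Finset.sum_ite_mem, Finset.univ_inter, Finset.sum_const, nsmul_eq_mul]
  have h3 : ((cl ζ a').card : ℝ) ≠ 0 := by
    have : 0 < (cl ζ a').card := Finset.card_pos.2 ⟨a', mem_cl_self ζ a'⟩
    positivity
  field_simp

private theorem vl2_nb_add {V : Type} [Fintype V] [DecidableEq V] (E : Finset (Sym2 V))
    (f g : V → ℝ) (x : V) : nb E (fun z => f z + g z) x = nb E f x + nb E g x :=
  nb_iter_add E 1 f g x

private theorem vl2_nb_mul {V : Type} [Fintype V] [DecidableEq V] (E : Finset (Sym2 V)) (c : ℝ)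
    (f : V → ℝ) (x : V) : nb E (fun z => c * f z) x = c * nb E f x :=
  nb_iter_smul E 1 c f x

private theorem vl2_nb_sum {V : Type} [Fintype V] [DecidableEq V] {ι : Type*}
    (E : Finset (Sym2 V)) (I : Finset ι) (f : ι → V → ℝ) (x : V) :
    nb E (fun z => ∑ i ∈ I, f i z) x = ∑ i ∈ I, nb E (f i) x :=
  nb_iter_sum E 1 I f x

private theorem vl2_nb_const (m : ℕ) (c : ℝ) (x : Q m) : nb (cubeE m) (fun _ => c) x = m * c := by
  have h1 := vl2_nb_mul (cubeE m) c (fun _ => 1) x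
  rw [nb_cube_one] at h1
  simp only [mul_one] at h1
  rw [h1]
  ring

open Classical in
private theorem vl2_count (m : ℕ) (A : Finset (Q m)) (c1 : ℝ) (x : Q m) :
    nb (cubeE m) (fun b => ind (b ∉ A ∧ c1 ≤ esc m A b)) x =
      ((univ.filter fun y => s(x, y) ∈ cubeE m ∧ y ∉ A ∧ c1 ≤ esc m A y).card : ℝ) := by
  rw [walk_nb_ind, Finset.natCast_card_filter]
  refine Finset.sum_congr rfl fun z _ => ?_
  by_cases h1 : s(x, z) ∈ cubeE m
  · by_cases h2 : z ∉ A ∧ c1 ≤ esc m A z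
    · rw [walk_ind_pos _ h1, walk_ind_pos _ h2, if_pos ⟨h1, h2⟩, mul_one]
    · rw [walk_ind_pos _ h1, walk_ind_neg _ h2, if_neg (fun h => h2 h.2), mul_zero]
  · rw [walk_ind_neg _ h1, if_neg (fun h => h1 h.1), zero_mul]

/-- the double sum of the local Green function -/
private theorem vl2_loc (m : ℕ) (hm : 2 ≤ m) (J : ℕ) (x y : Q m) :
    nb (cubeE m) (fun z => Loc m J z y) x ≤ m * Loc m (J + 1) x y := by
  have h1 := loc_shift m J hm x y
  have hm0 : (0 : ℝ) < m := by exact_mod_cast (by omega : 0 < m)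
  rw [div_le_iff₀ hm0] at h1
  linarith

open Classical in
private theorem vl2_set (m : ℕ) (hm : 2 ≤ m) (A : Finset (Q m)) (X : Q m → ℝ)
    (Y : Q m → Q m → ℝ) (q P R c1 g C3 : ℝ) (hq : 0 ≤ q) (hP : 0 ≤ P) (hR : 0 ≤ R) (hg : 0 ≤ g)
    (hX0 : ∀ b, b ∉ A → 0 ≤ X b) (hX : ∀ b, b ∉ A → c1 ≤ esc m A b → g ≤ X b)
    (hcap : c1 * m * A.card ≤
      ∑ s ∈ A, ((univ.filter fun y => s(s, y) ∈ cubeE m ∧ y ∉ A ∧ c1 ≤ esc m A y).card : ℝ))
    (hY : ∀ b y, Y b y ≤ P + R * Loc m 1 b y)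
    (hloc : ∑ x ∈ A, ∑ y ∈ A, Loc m 3 x y ≤ C3 * A.card) :
    g * (c1 * m * A.card) - 2 * q * (m : ℝ) ^ 2 * (P * (A.card : ℝ) ^ 2 + R * (C3 * A.card)) ≤
      ∑ a' ∈ A, nb (cubeE m) (fun b => if b ∈ A then 0 else (X b - 2 * q * ∑ k ∈ A,
        nb (cubeE m) (fun y => if y ∈ A then 0 else Y b y) k)) a' := by
  have hm0 : (0 : ℝ) < m := by exact_mod_cast (by omega : 0 < m)
  -- inner sum
  have h1 : ∀ b k : Q m, nb (cubeE m) (fun y => if y ∈ A then 0 else Y b y) k ≤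
      m * P + R * (m * Loc m 2 k b) := by
    intro b k
    have h2 : nb (cubeE m) (fun y => if y ∈ A then 0 else Y b y) k ≤
        nb (cubeE m) (fun y => P + R * Loc m 1 y b) k := by
      refine nb_mono _ _ _ (fun y => ?_) k
      split_ifs with hy
      · have := loc_nonneg m 1 y b
        positivity
      · rw [loc_comm m 1 y b]
        exact hY b y
    refine h2.trans ?_
    rw [vl2_nb_add, vl2_nb_const, vl2_nb_mul]
    have := mul_le_mul_of_nonneg_left (vl2_loc m hm 1 k b) hR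
    linarith
  have h3 : ∀ b : Q m, ∑ k ∈ A, nb (cubeE m) (fun y => if y ∈ A then 0 else Y b y) k ≤
      A.card * (m * P) + R * m * ∑ k ∈ A, Loc m 2 k b := by
    intro b
    refine (Finset.sum_le_sum fun k _ => h1 b k).trans (le_of_eq ?_)
    rw [Finset.sum_add_distrib, Finset.sum_const, nsmul_eq_mul, Finset.mul_sum]
    congr 1
    exact Finset.sum_congr rfl fun k _ => by ring
  have h4 : ∀ b : Q m, g * ind (b ∉ A ∧ c1 ≤ esc m A b) +
      (-(2 * q * (A.card * (m * P))) + (-(2 * q * (R * m))) * ∑ k ∈ A, Loc m 2 k b) ≤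
      (if b ∈ A then 0 else (X b - 2 * q * ∑ k ∈ A,
        nb (cubeE m) (fun y => if y ∈ A then 0 else Y b y) k)) := by
    intro b
    have h5 := mul_le_mul_of_nonneg_left (h3 b) (show 0 ≤ 2 * q by linarith)
    have h6 : 0 ≤ ∑ k ∈ A, Loc m 2 k b := Finset.sum_nonneg fun k _ => loc_nonneg _ _ _ _
    split_ifs with hb
    · have h7 : ind (b ∉ A ∧ c1 ≤ esc m A b) = 0 := by
        rw [ind, if_neg]
        exact fun h => h.1 hb
      rw [h7]
      have h8 : 0 ≤ 2 * q * (A.card * (m * P)) := by positivity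
      have h9 : 0 ≤ 2 * q * (R * m) * ∑ k ∈ A, Loc m 2 k b := by positivity
      linarith
    · have h7 : g * ind (b ∉ A ∧ c1 ≤ esc m A b) ≤ X b := by
        by_cases hc : c1 ≤ esc m A b
        · rw [ind, if_pos ⟨hb, hc⟩, mul_one]
          exact hX b hb hc
        · rw [ind, if_neg (fun h => hc h.2), mul_zero]
          exact hX0 b hb
      linarith
  have h5 : ∀ a' : Q m, g * ((univ.filter fun y => s(a', y) ∈ cubeE m ∧ y ∉ A ∧
        c1 ≤ esc m A y).card : ℝ) + (-(2 * q * (A.card * (m * P))) * m +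
        (-(2 * q * (R * m))) * (m * ∑ k ∈ A, Loc m 3 a' k)) ≤
      nb (cubeE m) (fun b => if b ∈ A then 0 else (X b - 2 * q * ∑ k ∈ A,
        nb (cubeE m) (fun y => if y ∈ A then 0 else Y b y) k)) a' := by
    intro a'
    have h6 := nb_mono (cubeE m) _ _ h4 a'
    refine le_trans ?_ h6
    rw [vl2_nb_add, vl2_nb_add, vl2_nb_mul, vl2_nb_const, vl2_nb_mul, vl2_nb_sum, vl2_count]
    have h7 : ∑ k ∈ A, nb (cubeE m) (fun b => Loc m 2 k b) a' ≤
        m * ∑ k ∈ A, Loc m 3 a' k := by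
      rw [Finset.mul_sum]
      refine Finset.sum_le_sum fun k _ => ?_
      have h8 : (fun b => Loc m 2 k b) = fun b => Loc m 2 b k := by
        funext b
        exact loc_comm m 2 k b
      rw [h8]
      exact vl2_loc m hm 2 a' k
    have h8 := mul_le_mul_of_nonneg_left h7 (show 0 ≤ 2 * q * (R * m) by positivity)
    linarith
  refine le_trans ?_ (Finset.sum_le_sum fun a' _ => h5 a')
  rw [Finset.sum_add_distrib, Finset.sum_add_distrib, ← Finset.mul_sum, Finset.sum_const,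
    nsmul_eq_mul, ← Finset.mul_sum, ← Finset.mul_sum]
  have h6 := mul_le_mul_of_nonneg_left hcap hg
  have h7 := mul_le_mul_of_nonneg_left hloc (show 0 ≤ 2 * q * (R * m) * m by positivity)
  nlinarith

private theorem vl2_exp (h e B : ℝ) (a : ℝ) (n : ℕ) (he : 0 < e) (he1 : e ≤ 1 / 2) (hh0 : 0 ≤ h)
    (hh : h ≤ e ^ 2) (ha : a = n) (hn : a ≤ B / e ^ 2) :
    Real.exp (-(2 * B)) ≤ (1 - h) ^ n := by
  have h1 : h ≤ 1 / 4 := by nlinarith
  have h2 : Real.exp (-(2 * h)) ≤ 1 - h := by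
    have h3 : 1 + 2 * h ≤ Real.exp (2 * h) := by
      have := Real.add_one_le_exp (2 * h)
      linarith
    rw [Real.exp_neg]
    rw [inv_le_comm₀ (Real.exp_pos _) (by linarith)]
    refine le_trans ?_ h3
    rw [inv_le_comm₀ (by linarith) (by linarith)]
    rw [inv_le_iff_one_le_mul₀ (by linarith)]
    nlinarith
  calc Real.exp (-(2 * B)) ≤ Real.exp (n * (-(2 * h))) := by
        apply Real.exp_le_exp.2
        rw [le_div_iff₀ (by positivity)] at hn
        rw [ha] at hn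
        have h4 : (n : ℝ) * h ≤ n * e ^ 2 := mul_le_mul_of_nonneg_left hh (Nat.cast_nonneg n)
        linarith
    _ = Real.exp (-(2 * h)) ^ n := by rw [← Real.exp_nat_mul]
    _ ≤ (1 - h) ^ n := pow_le_pow_left₀ (Real.exp_pos _).le h2 n

open Classical in
theorem vl2 (C0 c1 c2 c9 B : ℝ) (hc1 : 0 < c1) (hc1' : c1 ≤ 1) (hc2 : 0 < c2) (hc9 : 0 < c9)
    (hB : 1 ≤ B) : ∃ (κ c' : ℝ) (m0 : ℕ), 0 < κ ∧ κ ≤ 1 / 8 ∧ 0 < c' ∧ ∀ m ≥ m0,
    ∀ (K : ℕ) (e p h p1 q : ℝ), Reg C0 K m e p h → 4 ≤ K → p = p1 + q - p1 * q → 0 ≤ p1 →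
    p1 ≤ 1 → κ / 2 * e ≤ q * m → q * m ≤ κ * e → 0 ≤ q → q ≤ 1 / 2 →
    (∀ S : Finset (Q m), (S.card : ℝ) ≤ B / e ^ 2 → c1 * m * S.card ≤
      ∑ s ∈ S, ((univ.filter fun y => s(s, y) ∈ cubeE m ∧ y ∉ S ∧ c1 ≤ esc m S y).card : ℝ)) →
    (∀ (S : Finset (Q m)) (b : Q m), (S.card : ℝ) ≤ B / e ^ 2 → c1 ≤ esc m S b → b ∉ S →
      c9 * e ≤ Mh (offE (cubeE m) S) p1 h b) →
    (∀ x : Q m, c2 / e ^ 3 ≤ Ex (cubeE m) p1 (fun ω => ind (((cl ω x).card : ℝ) ≤ B / e ^ 2) *
      ((cl ω x).card : ℝ) ^ 2)) →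
    c' * 2 ^ m / e ≤ EG (cubeE m) p h (fun ω G => NN (cubeE m) ∅ ω G ^ 2) -
      EG (cubeE m) p h (NN (cubeE m) ∅) ^ 2 := by
  obtain ⟨C, mC, hC, HC⟩ := pair C0
  obtain ⟨C3, m3, hC3, H3⟩ := loc_set 3
  obtain ⟨ms, Hs⟩ := vl2_size B
  set D : ℝ := 4 * C * (B * (1 + B) ^ 2 + C3) with hD
  have hD0 : 0 < D := by positivity
  set κ : ℝ := min (1 / 8) (c1 * c9 / D) with hκ
  have hκ0 : 0 < κ := lt_min (by norm_num) (by positivity)
  have hκD : κ * D ≤ c1 * c9 := by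
    have := min_le_right (1 / 8) (c1 * c9 / D)
    rw [← hκ, le_div_iff₀ hD0] at this
    exact this
  refine ⟨κ, κ * c1 * c9 * c2 * Real.exp (-(2 * B)) / 8, max 2 (max mC (max m3 ms)), hκ0,
    min_le_left _ _, by positivity, ?_⟩
  intro m hm K e p h p1 q R hK hp hp1 hp1' hq1 hq2 hq0 hqh hcap hgood hsec
  have hm2 : 2 ≤ m := (le_max_left _ _).trans hm
  have hmC : mC ≤ m := ((le_max_left _ _).trans (le_max_right _ _)).trans hm
  have hm3 : m3 ≤ m := (((le_max_left _ _).trans (le_max_right _ _)).trans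
    (le_max_right _ _)).trans hm
  have hms : ms ≤ m := (((le_max_right _ _).trans (le_max_right _ _)).trans
    (le_max_right _ _)).trans hm
  have hm0 : (0 : ℝ) < m := by exact_mod_cast (by omega : 0 < m)
  have he := R.he0
  have he1 := R.he1
  have hh0 := R.hh0
  have hh1 : h ≤ 1 := by
    have := R.hh
    nlinarith
  set T : ℝ := B / e ^ 2 with hT
  have hT0 : 0 < T := by positivity
  have key : ∀ A : Finset (Q m), (A.card : ℝ) ≤ T →
      c1 * c9 * m * e / 2 * A.card ≤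
      ∑ a' ∈ A, nb (cubeE m) (fun b => if b ∈ A then 0 else
        (EG (cubeE m) p1 h (fun ω G => ind (b ∈ WW (cubeE m) A ω G)) - 2 * q * ∑ k ∈ A,
        nb (cubeE m) (fun y => if y ∈ A then 0 else EG (cubeE m) p h (fun ω G =>
              ind (b ∈ WW (cubeE m) A ω G) * ind (y ∈ WW (cubeE m) A ω G))) k)) a' := by
    intro A hA
    have hbb : bb e A ≤ 1 + B := by
      unfold bb
      rw [hT, le_div_iff₀ (by positivity)] at hA
      linarith
    have hbb0 : 0 ≤ bb e A := by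
      unfold bb
      positivity
    have hA2 : (A.card : ℝ) ≤ (2 : ℝ) ^ ((m : ℝ) - m / 40) :=
      hA.trans (Hs m hms e he R.hV)
    have h1 := vl2_set m hm2 A
      (fun b => EG (cubeE m) p1 h (fun ω G => ind (b ∈ WW (cubeE m) A ω G)))
      (fun b y => EG (cubeE m) p h (fun ω G =>
              ind (b ∈ WW (cubeE m) A ω G) * ind (y ∈ WW (cubeE m) A ω G)))
      q (C * (e ^ 2 * (1 + B) ^ 2)) (C * e) c1 (c9 * e) C3 hq0 (by positivity) (by positivity)
      (by positivity)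
      (fun b _ => by
        unfold EG
        exact xb_Ex_nonneg _ _ hp1 hp1' _ fun ω _ => xb_Ex_nonneg _ _ hh0 hh1 _
          fun G _ => xb_ind_nonneg _)
      (fun b hb hesc => by
        rw [ww_prob_eq _ _ _ _ _ hb]
        exact hgood A b hA hesc hb)
      (hcap A hA)
      (fun b y => by
        refine (HC m hmC K e p h R hK A b y).trans ?_
        have h2 : bb e A ^ 2 ≤ (1 + B) ^ 2 := pow_le_pow_left₀ hbb0 hbb 2
        have h3 : e ^ 2 * bb e A ^ 2 ≤ e ^ 2 * (1 + B) ^ 2 :=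
          mul_le_mul_of_nonneg_left h2 (by positivity)
        have h4 : C * (e ^ 2 * bb e A ^ 2) ≤ C * (e ^ 2 * (1 + B) ^ 2) :=
          mul_le_mul_of_nonneg_left h3 (by linarith)
        linarith)
      (H3 m hm3 A hA2)
    refine le_trans ?_ h1
    -- arithmetic
    set a : ℝ := (A.card : ℝ) with ha
    have ha0 : 0 ≤ a := by positivity
    have hae : a * e ^ 2 ≤ B := by
      rw [hT, le_div_iff₀ (by positivity)] at hA
      exact hA
    have t1 : 2 * q * (m : ℝ) ^ 2 * (C * (e ^ 2 * (1 + B) ^ 2) * a ^ 2 + C * e * (C3 * a)) ≤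
        2 * (q * m) * m * C * a * (B * (1 + B) ^ 2 + C3) := by
      have t2 : C * (e ^ 2 * (1 + B) ^ 2) * a ^ 2 ≤ C * a * (B * (1 + B) ^ 2) := by
        have : C * (e ^ 2 * (1 + B) ^ 2) * a ^ 2 = C * a * (1 + B) ^ 2 * (a * e ^ 2) := by ring
        rw [this]
        calc C * a * (1 + B) ^ 2 * (a * e ^ 2) ≤ C * a * (1 + B) ^ 2 * B :=
              mul_le_mul_of_nonneg_left hae (by positivity)
          _ = _ := by ring
      have t3 : C * e * (C3 * a) ≤ C * a * C3 := by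
        have : C * e * (C3 * a) = C * a * C3 * e := by ring
        rw [this]
        have t4 : 0 ≤ C * a * C3 := by positivity
        nlinarith
      calc 2 * q * (m : ℝ) ^ 2 * (C * (e ^ 2 * (1 + B) ^ 2) * a ^ 2 + C * e * (C3 * a)) ≤
          2 * q * (m : ℝ) ^ 2 * (C * a * (B * (1 + B) ^ 2) + C * a * C3) :=
            mul_le_mul_of_nonneg_left (add_le_add t2 t3) (by positivity)
        _ = _ := by ring
    have t5 : 2 * (q * m) * m * C * a * (B * (1 + B) ^ 2 + C3) ≤ c1 * c9 * m * e / 2 * a := by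
      have t6 : 2 * (q * m) * m * C * a * (B * (1 + B) ^ 2 + C3) =
          (q * m) * (m * a * (D / 2)) := by rw [hD]; ring
      rw [t6]
      calc (q * m) * (m * a * (D / 2)) ≤ (κ * e) * (m * a * (D / 2)) :=
            mul_le_mul_of_nonneg_right hq2 (by positivity)
        _ = (κ * D) * (m * a * e / 2) := by ring
        _ ≤ (c1 * c9) * (m * a * e / 2) := mul_le_mul_of_nonneg_right hκD (by positivity)
        _ = _ := by ring
    have t7 : c9 * e * (c1 * m * a) = 2 * (c1 * c9 * m * e / 2 * a) := by ring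
    rw [t7]
    linarith
  -- assembly
  have h1 := vl1 m p1 q h T hp1 hp1' hq0 (by linarith) hh0 hh1
  rw [← hp] at h1
  refine le_trans ?_ h1
  have h2 : ∀ ζ : Finset (Sym2 (Q m)),
      ∑ a : Q m, c1 * c9 * m * e / 2 * Real.exp (-(2 * B)) *
        (ind (((cl ζ a).card : ℝ) ≤ T) * ((cl ζ a).card : ℝ) ^ 2) ≤
      ∑ a : Q m, (((cl ζ a).card : ℝ) ^ 2 * ind (((cl ζ a).card : ℝ) ≤ T) *
        (1 - h) ^ (cl ζ a).card *
      nb (cubeE m) (fun b => if b ∈ cl ζ a then 0 else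
        (EG (cubeE m) p1 h (fun ω G => ind (b ∈ WW (cubeE m) (cl ζ a) ω G)) -
          2 * q * ∑ k ∈ cl ζ a, nb (cubeE m) (fun y => if y ∈ cl ζ a then 0 else
            EG (cubeE m) p h (fun ω G =>
              ind (b ∈ WW (cubeE m) (cl ζ a) ω G) * ind (y ∈ WW (cubeE m) (cl ζ a) ω G))) k))
                a) := by
    intro ζ
    rw [vl2_mt ζ (fun A a => (A.card : ℝ) ^ 2 * ind ((A.card : ℝ) ≤ T) *
        (1 - h) ^ A.card *
      nb (cubeE m) (fun b => if b ∈ A then 0 else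
        (EG (cubeE m) p1 h (fun ω G => ind (b ∈ WW (cubeE m) A ω G)) -
          2 * q * ∑ k ∈ A, nb (cubeE m) (fun y => if y ∈ A then 0 else
            EG (cubeE m) p h (fun ω G =>
              ind (b ∈ WW (cubeE m) A ω G) * ind (y ∈ WW (cubeE m) A ω G))) k)) a)]
    refine Finset.sum_le_sum fun a _ => ?_
    set A := cl ζ a with hA
    have hA0 : 0 < (A.card : ℝ) := by
      have : 0 < A.card := Finset.card_pos.2 ⟨a, mem_cl_self ζ a⟩
      exact_mod_cast this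
    rw [← Finset.mul_sum]
    by_cases hAT : (A.card : ℝ) ≤ T
    · have i1 : ind ((A.card : ℝ) ≤ T) = 1 := by rw [ind, if_pos hAT]
      rw [i1]
      have i2 := key A hAT
      have i3 := vl2_exp h e B A.card A.card he he1 hh0 R.hh rfl hAT
      have i4 : 0 ≤ c1 * c9 * m * e / 2 * (A.card : ℝ) := by positivity
      calc c1 * c9 * m * e / 2 * Real.exp (-(2 * B)) * (1 * (A.card : ℝ) ^ 2) =
          1 / (A.card : ℝ) * ((A.card : ℝ) ^ 2 * 1 * Real.exp (-(2 * B)) *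
            (c1 * c9 * m * e / 2 * A.card)) := by
            field_simp
        _ ≤ 1 / (A.card : ℝ) * ((A.card : ℝ) ^ 2 * 1 * (1 - h) ^ A.card *
            (∑ a' ∈ A, nb (cubeE m) (fun b => if b ∈ A then 0 else
              (EG (cubeE m) p1 h (fun ω G => ind (b ∈ WW (cubeE m) A ω G)) - 2 * q * ∑ k ∈ A,
              nb (cubeE m) (fun y => if y ∈ A then 0 else EG (cubeE m) p h (fun ω G =>
              ind (b ∈ WW (cubeE m) A ω G) * ind (y ∈ WW (cubeE m) A ω G))) k)) a')) := by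
            refine mul_le_mul_of_nonneg_left ?_ (by positivity)
            refine mul_le_mul ?_ i2 i4 ?_
            · exact mul_le_mul_of_nonneg_left i3 (by positivity)
            · exact mul_nonneg (by positivity) (pow_nonneg (by linarith) _)
    · have i1 : ind ((A.card : ℝ) ≤ T) = 0 := by rw [ind, if_neg hAT]
      rw [i1]
      simp
  have h3 : 2 ^ m * (c1 * c9 * m * e / 2 * Real.exp (-(2 * B)) * (c2 / e ^ 3)) ≤
      ∑ a : Q m, Ex (cubeE m) p1 (fun ζ =>
      ((cl ζ a).card : ℝ) ^ 2 * ind (((cl ζ a).card : ℝ) ≤ T) * (1 - h) ^ (cl ζ a).card *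
      nb (cubeE m) (fun b => if b ∈ cl ζ a then 0 else
        (EG (cubeE m) p1 h (fun ω G => ind (b ∈ WW (cubeE m) (cl ζ a) ω G)) -
          2 * q * ∑ k ∈ cl ζ a, nb (cubeE m) (fun y => if y ∈ cl ζ a then 0 else
            EG (cubeE m) p h (fun ω G =>
              ind (b ∈ WW (cubeE m) (cl ζ a) ω G) * ind (y ∈ WW (cubeE m) (cl ζ a) ω G))) k))
                a) := by
    rw [← Ex_sum]
    refine le_trans ?_ (Ex_mono _ _ hp1 hp1' _ _ fun ζ _ => h2 ζ)
    rw [Ex_sum]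
    calc 2 ^ m * (c1 * c9 * m * e / 2 * Real.exp (-(2 * B)) * (c2 / e ^ 3)) =
        ∑ a : Q m, c1 * c9 * m * e / 2 * Real.exp (-(2 * B)) * (c2 / e ^ 3) := by
          rw [Finset.sum_const, Finset.card_univ, nsmul_eq_mul]
          have : Fintype.card (Q m) = 2 ^ m := by simp [Q]
          rw [this]
          push_cast
          ring
      _ ≤ _ := by
          refine Finset.sum_le_sum fun a _ => ?_
          rw [Ex_mul_left]
          exact mul_le_mul_of_nonneg_left (hsec a) (by positivity)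
  have h4 : 0 ≤ q * (1 - q) := mul_nonneg hq0 (by linarith)
  refine le_trans ?_ (mul_le_mul_of_nonneg_left h3 h4)
  have h5 : κ * e / (4 * m) ≤ q * (1 - q) := by
    have h6 : κ * e / (2 * m) ≤ q := by
      rw [div_le_iff₀ (by positivity)]
      linarith
    have h7 : κ * e / (4 * m) = κ * e / (2 * m) * (1 / 2) := by
      field_simp
      ring
    rw [h7]
    exact mul_le_mul h6 (by linarith) (by norm_num) hq0
  calc κ * c1 * c9 * c2 * Real.exp (-(2 * B)) / 8 * 2 ^ m / e =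
      κ * e / (4 * m) * (2 ^ m * (c1 * c9 * m * e / 2 * Real.exp (-(2 * B)) * (c2 / e ^ 3))) := by
        field_simp
        ring
    _ ≤ _ := mul_le_mul_of_nonneg_right h5 (by positivity)

end Pool.Agent.Work.MP_b7dc8a_pr
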