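import Pool.Agent.Work.MP_b7dc8a_pr.F.Bas
import Pool.Agent.Work.MP_b7dc8a_pr.F.Bfr
import Pool.Agent.Work.MP_b7dc8a_pr.F.Pca
import Pool.Agent.Work.MP_b7dc8a_pr.F.Unif
import Pool.Agent.Work.MP_b7dc8a_pr.F.Apx
import Pool.Agent.Work.MP_b7dc8a_pr.F.Cltn
import Pool.Agent.Work.MP_b7dc8a_pr.F.Vl2

/-! Module FCF (M, assembly): characteristic function of the normalized size of the largest cluster.

`V = 2^m`, `w = e^3 V`, `p = pc (1+e)`, `h = hF m e`, `R = RF c8 m e`. `δ = min δ1 lam` (`bas`), `pa`, `bfr` (for this `δ`),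
`pca`: `pa <= pc <= pa (1 + Kl/V^(1/3))`, so `pa (1+e) <= p <= pa (1+2e)` if `Kl/V^(1/3) <= e/2` (`w >= (2 Kl)^3`), `e <= 1/4`. So
`PF` holds on `[pa (1+e/2), p]`.
* `μ = EG N`, `σ^2 = Var N` at `p`. `vl2` (with `κ, c'`): `q = κ e/m`, `p1 = (p-q)/(1-q)` (`>= p - q >= pa (1+e/2)` as
 `pa m >= 1/2`, `κ <= 1/8`), `PF` at `p1` for the last three hypotheses, `Reg` at `p`: `σ^2 >= c' V/e`.
* `cltn` (`c = c'`, `K = 20`, `TN m e <= 1` for large `m`) at `-t` with `Kh = w^(1/12)`: error `<= t^2 C (w^(-1/12) + 1/w) +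
 |t|^3 C w^(-1/4)`.
* `apx` with `n = R`: `unif` (`1/e <= chi pa = δ V^(1/3)` for `w >= δ^(-3)`), `zr_zero` (`hlow`: `PF.good` with `S = ∅`, `esc m ∅ y = 1`,
 `offE E ∅ = E`), `zr_l1` (`PF.small`, `numf`): `V (2 (1-h)^R C0 e + h C0/e)/σ <= C sqrt (V e) (t' e + h/e) =
 C (sqrt w t' + sqrt w h/e^2)`, `t' = (1-h)^R <= exp (-(c8/3) w^(1/4))`, `h/e^2 = w^(-3/4)`: tends to `0`; `zr_zero <=
 C/w + C (t' + h/e^2)`. -/

namespace Pool.Agent.Work.MP_b7dc8a_pr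

open Finset

/-- centering -/
noncomputable def aF (m : ℕ) (e p : ℝ) : ℝ := 2 ^ m - EG (cubeE m) p (hF m e) (NN (cubeE m) ∅)

/-- norming -/
noncomputable def bF (m : ℕ) (e p : ℝ) : ℝ :=
  Real.sqrt (EG (cubeE m) p (hF m e) (fun ω G => NN (cubeE m) ∅ ω G ^ 2) -
    EG (cubeE m) p (hF m e) (NN (cubeE m) ∅) ^ 2)

/-- the twelfth root of `w` -/
private theorem fcf_root (w : ℝ) (hw : 1 ≤ w) : ∃ u : ℝ, 1 ≤ u ∧ u ^ 12 = w ∧
    w ^ (1 / 4 : ℝ) = u ^ 3 ∧ Real.sqrt w = u ^ 6 ∧ u = w ^ (1 / 12 : ℝ) := by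
  have hw0 : 0 ≤ w := by linarith
  refine ⟨w ^ (1 / 12 : ℝ), Real.one_le_rpow hw (by norm_num), ?_, ?_, ?_, rfl⟩
  · rw [← Real.rpow_natCast, ← Real.rpow_mul hw0]
    norm_num
  · rw [← Real.rpow_natCast (w ^ (1 / 12 : ℝ)) 3, ← Real.rpow_mul hw0]
    norm_num
  · rw [← Real.rpow_natCast (w ^ (1 / 12 : ℝ)) 6, ← Real.rpow_mul hw0, Real.sqrt_eq_rpow]
    norm_num

/-- `exp (-x) <= 6/x^3` -/
private theorem fcf_exp (x : ℝ) (hx : 0 < x) : Real.exp (-x) ≤ 6 / x ^ 3 := by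
  have h1 := Real.pow_div_factorial_le_exp x hx.le 3
  have h2 : ((3 : ℕ).factorial : ℝ) = 6 := by norm_num [Nat.factorial]
  rw [h2] at h1
  rw [Real.exp_neg, ← one_div, div_le_div_iff₀ (Real.exp_pos _) (by positivity)]
  have h3 : x ^ 3 ≤ 6 * Real.exp x := by
    rw [div_le_iff₀ (by norm_num)] at h1
    linarith
  linarith

/-- the final estimate -/
private theorem fcf_num (C0 c8 c9 c' C t δ' : ℝ) (hC0 : 1 ≤ C0) (hc8 : 0 < c8) (hc9 : 0 < c9)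
    (hc' : 0 < c') (hC : 1 ≤ C) (hδ' : 0 < δ') : ∃ u0 : ℝ, 1 ≤ u0 ∧ ∀ u : ℝ, u0 ≤ u →
    ∀ T D : ℝ, 0 ≤ T → T ≤ Real.exp (-(c8 / 3 * u ^ 3)) → D ≤ 2 * C0 * T + C0 * (u ^ 3 / u ^ 12) →
    0 ≤ D →
    t ^ 2 * (C * (1 / u + 1 / u ^ 12)) + |t| ^ 3 * (C * u ^ 3 / u ^ 6) +
      2 * (144 * C0 ^ 3 / (c9 ^ 2 * u ^ 12) + 2 * D / c9) +
      |t| * (u ^ 6 / Real.sqrt c') * D ≤ δ' / 2 := by
  set A : ℝ := 2 * C0 * (162 / c8 ^ 3) + C0 with hA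
  have hA0 : 0 < A := by positivity
  set Cs : ℝ := 2 * t ^ 2 * C + |t| ^ 3 * C + 2 * (144 * C0 ^ 3 / c9 ^ 2 + 2 * A / c9) +
    |t| / Real.sqrt c' * A with hCs
  have hsc : 0 < Real.sqrt c' := Real.sqrt_pos.2 hc'
  have hCs0 : 0 ≤ Cs := by positivity
  refine ⟨max 1 (2 * Cs / δ'), le_max_left _ _, fun u hu T D hT0 hT hD hD0 => ?_⟩
  have hu1 : 1 ≤ u := (le_max_left _ _).trans hu
  have hu0 : 0 < u := by linarith
  have hu2 : 2 * Cs / δ' ≤ u := (le_max_right _ _).trans hu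
  have hT2 : T ≤ 162 / c8 ^ 3 / u ^ 9 := by
    refine hT.trans ((fcf_exp _ (by positivity)).trans (le_of_eq ?_))
    field_simp
    ring
  have hp (a b : ℕ) (h : a ≤ b) : u ^ a ≤ u ^ b := pow_le_pow_right₀ hu1 h
  have hD2 : D ≤ A / u ^ 9 := by
    refine hD.trans ?_
    have h1 : u ^ 3 / u ^ 12 = 1 / u ^ 9 := by field_simp
    rw [h1]
    have h2 : 2 * C0 * T ≤ 2 * C0 * (162 / c8 ^ 3 / u ^ 9) :=
      mul_le_mul_of_nonneg_left hT2 (by positivity)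
    refine (add_le_add_left h2 _).trans (le_of_eq ?_)
    rw [hA]
    ring
  have hi (n : ℕ) (h : 1 ≤ n) : 1 / u ^ n ≤ 1 / u := by
    apply one_div_le_one_div_of_le hu0
    have := hp 1 n h
    simpa using this
  have hD3 : D ≤ A / u := by
    refine hD2.trans ?_
    rw [div_eq_mul_one_div, div_eq_mul_one_div A u]
    exact mul_le_mul_of_nonneg_left (hi 9 (by norm_num)) hA0.le
  have hD4 : u ^ 6 * D ≤ A / u := by
    have h1 : u ^ 6 * D ≤ u ^ 6 * (A / u ^ 9) := mul_le_mul_of_nonneg_left hD2 (by positivity)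
    refine h1.trans ?_
    have h2 : u ^ 6 * (A / u ^ 9) = A * (1 / u ^ 3) := by field_simp
    rw [h2, div_eq_mul_one_div A u]
    exact mul_le_mul_of_nonneg_left (hi 3 (by norm_num)) hA0.le
  have e1 : t ^ 2 * (C * (1 / u + 1 / u ^ 12)) ≤ 2 * t ^ 2 * C * (1 / u) := by
    have h1 := hi 12 (by norm_num)
    have h2 : C * (1 / u + 1 / u ^ 12) ≤ C * (1 / u + 1 / u) :=
      mul_le_mul_of_nonneg_left (by linarith) (by linarith)
    have h3 := mul_le_mul_of_nonneg_left h2 (sq_nonneg t)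
    linarith
  have e2 : |t| ^ 3 * (C * u ^ 3 / u ^ 6) ≤ |t| ^ 3 * C * (1 / u) := by
    have h1 : C * u ^ 3 / u ^ 6 = C * (1 / u ^ 3) := by field_simp
    rw [h1, mul_assoc]
    exact mul_le_mul_of_nonneg_left (mul_le_mul_of_nonneg_left (hi 3 (by norm_num)) (by linarith))
      (by positivity)
  have e3 : 144 * C0 ^ 3 / (c9 ^ 2 * u ^ 12) ≤ 144 * C0 ^ 3 / c9 ^ 2 * (1 / u) := by
    have h1 : 144 * C0 ^ 3 / (c9 ^ 2 * u ^ 12) = 144 * C0 ^ 3 / c9 ^ 2 * (1 / u ^ 12) := by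
      field_simp
    rw [h1]
    exact mul_le_mul_of_nonneg_left (hi 12 (by norm_num)) (by positivity)
  have e4 : 2 * D / c9 ≤ 2 * A / c9 * (1 / u) := by
    have h1 : 2 * A / c9 * (1 / u) = 2 * (A / u) / c9 := by ring
    rw [h1]
    exact div_le_div_of_nonneg_right (by linarith) hc9.le
  have e5 : |t| * (u ^ 6 / Real.sqrt c') * D ≤ |t| / Real.sqrt c' * A * (1 / u) := by
    have h1 : |t| * (u ^ 6 / Real.sqrt c') * D = |t| / Real.sqrt c' * (u ^ 6 * D) := by ring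
    have h2 : |t| / Real.sqrt c' * A * (1 / u) = |t| / Real.sqrt c' * (A / u) := by ring
    rw [h1, h2]
    exact mul_le_mul_of_nonneg_left hD4 (by positivity)
  have h10 : Cs * (1 / u) ≤ δ' / 2 := by
    rw [mul_one_div, div_le_iff₀ hu0]
    rw [div_le_iff₀ hδ'] at hu2
    linarith
  have h11 : 2 * t ^ 2 * C * (1 / u) + |t| ^ 3 * C * (1 / u) +
      2 * (144 * C0 ^ 3 / c9 ^ 2 * (1 / u) + 2 * A / c9 * (1 / u)) +
      |t| / Real.sqrt c' * A * (1 / u) = Cs * (1 / u) := by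
    rw [hCs]
    ring
  linarith

/-- the random walk never meets the empty set -/
private theorem fcf_esc (m : ℕ) (hm : 1 ≤ m) (y : Q m) : esc m ∅ y = 1 := by
  unfold esc
  rw [xb_offE_empty]
  have h : ∀ (n : ℕ) (x : Q m), (nb (cubeE m))^[n] (fun _ => 1) x = (m : ℝ) ^ n := by
    intro n
    induction n with
    | zero => intro x; simp
    | succ n ih =>
      intro x
      rw [Function.iterate_succ_apply', funext ih]
      have h1 : (fun _ : Q m => (m : ℝ) ^ n) = fun _ => (m : ℝ) ^ n * 1 := by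
        funext; ring
      have h2 := nb_iter_smul (cubeE m) 1 ((m : ℝ) ^ n) (fun _ => (1 : ℝ)) x
      simp only [Function.iterate_one] at h2
      rw [h1, h2, nb_cube_one, pow_succ]
  rw [h]
  have : (m : ℝ) ≠ 0 := by
    have : (0 : ℝ) < m := by exact_mod_cast hm
    exact this.ne'
  exact div_self (pow_ne_zero _ this)

/-- the cube root of `V` -/
private theorem fcf_v (m : ℕ) : ((2 : ℝ) ^ m) ^ (1 / 3 : ℝ) > 0 ∧
    (((2 : ℝ) ^ m) ^ (1 / 3 : ℝ)) ^ 3 = 2 ^ m := by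
  have h0 : (0 : ℝ) < 2 ^ m := by positivity
  refine ⟨Real.rpow_pos_of_pos h0 _, ?_⟩
  rw [← Real.rpow_natCast, ← Real.rpow_mul h0.le]
  norm_num

private theorem fcf_cube (e v a V : ℝ) (he : 0 < e) (hv : 0 < v) (hv3 : v ^ 3 = V) (ha : 0 ≤ a)
    (h : a ^ 3 ≤ e ^ 3 * V) : a ≤ e * v := by
  have h1 : a ^ 3 ≤ (e * v) ^ 3 := by
    rw [mul_pow, hv3]
    exact h
  exact le_of_pow_le_pow_left₀ (by norm_num) (by positivity) h1

/-- `TN m * e <= 1` for large `m` -/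
private theorem fcf_TN : ∃ m0 : ℕ, ∀ m ≥ m0, ∀ e : ℝ, e ≤ (2 : ℝ) ^ (-(m : ℝ) / 36) →
    1 ≤ m ∧ TN m * e ≤ 1 ∧ e ≤ 1 / 4 := by
  have hr : (1 : ℝ) < (2 : ℝ) ^ (1 / 36 : ℝ) := Real.one_lt_rpow (by norm_num) (by norm_num)
  obtain ⟨mA, hA⟩ := xn_poly 2 4 1 one_pos
  obtain ⟨mB, hB⟩ := xn_exp 1 _ hr
  refine ⟨max mA (max mB 72), fun m hm e he => ?_⟩
  simp only [ge_iff_le, max_le_iff] at hm
  obtain ⟨hmA, hmB, hm72⟩ := hm
  have hm1 : 1 ≤ m := by omega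
  have hpow : (2 : ℝ) ^ (-(m : ℝ) / 36) = (((2 : ℝ) ^ (1 / 36 : ℝ)) ^ m)⁻¹ := by
    rw [← Real.rpow_natCast, ← Real.rpow_mul (by norm_num), ← Real.rpow_neg (by norm_num)]
    congr 1
    ring
  have hrp : 0 < ((2 : ℝ) ^ (1 / 36 : ℝ)) ^ m := by positivity
  refine ⟨hm1, ?_, ?_⟩
  · have h1 : (TN m : ℝ) ≤ ((2 : ℝ) ^ (1 / 36 : ℝ)) ^ m := by
      unfold TN
      push_cast
      have h2 := (xn_TT m hm1).2.2
      have h3 := hA m hmA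
      have h4 := hB m hmB
      linarith
    have h0 : (0 : ℝ) ≤ TN m := Nat.cast_nonneg _
    calc (TN m : ℝ) * e ≤ TN m * (((2 : ℝ) ^ (1 / 36 : ℝ)) ^ m)⁻¹ := by
          rw [← hpow]
          exact mul_le_mul_of_nonneg_left he h0
      _ ≤ ((2 : ℝ) ^ (1 / 36 : ℝ)) ^ m * (((2 : ℝ) ^ (1 / 36 : ℝ)) ^ m)⁻¹ :=
          mul_le_mul_of_nonneg_right h1 (by positivity)
      _ = 1 := mul_inv_cancel₀ hrp.ne'
  · refine he.trans ?_
    have h1 : (2 : ℝ) ^ (-(m : ℝ) / 36) ≤ (2 : ℝ) ^ (-2 : ℝ) := by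
      apply Real.rpow_le_rpow_of_exponent_le (by norm_num)
      have : (72 : ℝ) ≤ m := by exact_mod_cast hm72
      rw [div_le_iff₀ (by norm_num)]
      linarith
    refine h1.trans (le_of_eq ?_)
    rw [Real.rpow_neg (by norm_num)]
    norm_num

private theorem fcf_w1 (e : ℝ) (h0 : 0 ≤ e) (h1 : e ≤ 1 / 4) :
    (1 + e / 2) * (1 + e) ≤ 1 + 2 * e := by nlinarith

private theorem fcf_half (κ e : ℝ) (hκ : 0 ≤ κ) (he : 0 ≤ e) : κ / 2 * e ≤ κ * e := by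
  have : 0 ≤ κ * e := mul_nonneg hκ he
  linarith

private theorem fcf_alg1 (V C0 e h T : ℝ) (he : e ≠ 0) :
    V * (2 * T * C0 * e + h * C0 / e) = (2 * C0 * T + C0 * (h / e ^ 2)) * (e * V) := by
  field_simp

private theorem fcf_alg2 (V C0 e c9 D' : ℝ) (he : e ≠ 0) (hV : V ≠ 0) (hc9 : c9 ≠ 0) :
    4 * (36 * C0 ^ 3 * V / e) / (c9 * e * V) ^ 2 + 2 * (D' * (e * V)) / (c9 * e * V) =
      144 * C0 ^ 3 / (c9 ^ 2 * (e ^ 3 * V)) + 2 * D' / c9 := by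
  field_simp
  ring

private theorem fcf_alg3 (e V σ u c' vr w : ℝ) (he : 0 < e) (hV : 0 < V) (hσ0 : 0 < σ) (hu : 0 < u)
    (hc' : 0 < c') (hσ2 : σ ^ 2 = vr) (hw : (u ^ 6) ^ 2 = w) (hwV : w = e ^ 3 * V)
    (hvr : c' * V / e ≤ vr) : e * V / σ ≤ u ^ 6 / Real.sqrt c' := by
  have hsc : 0 < Real.sqrt c' := Real.sqrt_pos.2 hc'
  rw [div_le_div_iff₀ hσ0 hsc]
  have h2 : (e * V * Real.sqrt c') ^ 2 ≤ (u ^ 6 * σ) ^ 2 := by
    rw [mul_pow (e * V), mul_pow (u ^ 6), Real.sq_sqrt hc'.le, hσ2, hw, hwV]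
    rw [div_le_iff₀ he] at hvr
    have h4 : e ^ 2 * V * (c' * V) ≤ e ^ 2 * V * (vr * e) :=
      mul_le_mul_of_nonneg_left hvr (by positivity)
    calc (e * V) ^ 2 * c' = e ^ 2 * V * (c' * V) := by ring
      _ ≤ e ^ 2 * V * (vr * e) := h4
      _ = e ^ 3 * V * vr := by ring
  exact (pow_le_pow_iff_left₀ (by positivity) (by positivity) (by norm_num)).1 h2

private theorem fcf_p1 (m : ℕ) (κ e pa p : ℝ) (hm : (1 : ℝ) ≤ m) (hκ : 0 < κ) (hκ' : κ ≤ 1 / 8)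
    (he : 0 < e) (he4 : e ≤ 1 / 4) (hlow : 1 / 2 ≤ pa * m) (hp : pa * (1 + e) ≤ p) (hp1 : p ≤ 1) :
    ∃ p1 q : ℝ, q * m = κ * e ∧ 0 ≤ q ∧ q ≤ 1 / 2 ∧ p = p1 + q - p1 * q ∧ 0 ≤ p1 ∧
      pa * (1 + e / 2) ≤ p1 ∧ p1 ≤ p := by
  have hm0 : (0 : ℝ) < m := by linarith
  have hpa : 0 < pa := by
    by_contra hcon
    push Not at hcon
    nlinarith
  obtain ⟨q, hq⟩ : ∃ q, q = κ * e / m := ⟨_, rfl⟩
  have hqm : q * m = κ * e := by rw [hq]; field_simp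
  have hκe : κ * e ≤ 1 / 32 := by nlinarith
  have hq0 : 0 < q := by rw [hq]; positivity
  have hq1 : q ≤ 1 / 32 := by nlinarith
  have h1q : 0 < 1 - q := by linarith
  have hqpa : q ≤ pa * e / 4 := by
    rw [hq, div_le_iff₀ hm0]
    have h1 : κ * e ≤ 1 / 8 * e := mul_le_mul_of_nonneg_right hκ' he.le
    have h2 : 1 / 2 * e ≤ pa * m * e := mul_le_mul_of_nonneg_right hlow he.le
    nlinarith
  have hpae : 0 < pa * e := by positivity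
  have hpq : pa * (1 + e / 2) ≤ p - q := by nlinarith
  have hpq0 : 0 ≤ p - q := le_trans (by positivity) hpq
  have hp1lo : p - q ≤ (p - q) / (1 - q) := by
    rw [le_div_iff₀ h1q]
    nlinarith
  refine ⟨(p - q) / (1 - q), q, hqm, hq0.le, by linarith, ?_, div_nonneg hpq0 h1q.le,
    hpq.trans hp1lo, ?_⟩
  · field_simp
    ring
  · rw [div_le_iff₀ h1q]
    nlinarith

theorem fcf (lam : ℝ) (hlam : 0 < lam) (t δ' : ℝ) (hδ' : 0 < δ') : ∃ (w0 : ℝ) (m0 : ℕ),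
    ∀ m ≥ m0, ∀ pc e : ℝ, 0 ≤ pc → pc ≤ 1 → pc * m ≤ 1 + 5000 * dl m →
    chi (cubeE m) pc (fun _ => false) = lam * ((2 : ℝ) ^ m) ^ (1 / 3 : ℝ) → 0 < e →
    e ≤ (2 : ℝ) ^ (-(m : ℝ) / 36) → w0 ≤ e ^ 3 * 2 ^ m →
    0 < bF m e (pc * (1 + e)) ∧
    ‖ExC (cubeE m) (pc * (1 + e)) (fun ω => Complex.exp (Complex.I *
        ((t * (((largest ω : ℝ) - aF m e (pc * (1 + e))) / bF m e (pc * (1 + e))) : ℝ) : ℂ))) -
      Complex.exp ((-(t ^ 2 / 2) : ℝ) : ℂ)‖ ≤ δ' := by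
  classical
  obtain ⟨δ1, hδ1, hbas⟩ := bas
  obtain ⟨δ, hδdef⟩ : ∃ δ, δ = min δ1 lam := ⟨_, rfl⟩
  have hδ : 0 < δ := by rw [hδdef]; exact lt_min hδ1 hlam
  obtain ⟨mA, hA⟩ := hbas δ hδ (by rw [hδdef]; exact min_le_left _ _)
  obtain ⟨C0, c1, c2, c8, c9, B, hC0, hc1, hc1', hc2, hc8, hc8', hc9, hB, hbfr⟩ := bfr
  obtain ⟨w1, mB, hw1, hB'⟩ := hbfr δ hδ
  obtain ⟨Kl, mC, hKl, hpca⟩ := pca lam w1 C0 c1 c2 c8 c9 B hlam hc1' hc9 (by linarith)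
  obtain ⟨w2, mD, hunif⟩ := unif C0 c1 c2 c8 c9 B hC0 hc8 hc8' hB (δ' / 4) (by linarith)
  obtain ⟨κ, c', mE, hκ, hκ', hc', hvl2⟩ := vl2 C0 c1 c2 c9 B hc1 hc1' hc2 hc9 hB
  obtain ⟨C, mF, hC, hcltn⟩ := cltn C0 c' hc'
  obtain ⟨w3, hw3, hnumf⟩ := numf c8 B hc8 (by linarith)
  obtain ⟨u0, hu0, hnum⟩ := fcf_num C0 c8 c9 c' C t δ' hC0 hc8 hc9 hc' hC hδ'
  obtain ⟨mG, hG⟩ := fcf_TN
  refine ⟨max w1 (max w2 (max w3 (max (u0 ^ 12) (max ((2 * Kl) ^ 3) ((1 / δ) ^ 3))))),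
    max mA (max mB (max mC (max mD (max mE (max mF mG))))),
    fun m hm pc e hpc0 hpc1 hpcm hchi he he2 hw => ?_⟩
  simp only [ge_iff_le, max_le_iff] at hm hw
  obtain ⟨hmA, hmB, hmC, hmD, hmE, hmF, hmG⟩ := hm
  obtain ⟨hw1', hw2', hw3', hw4', hw5', hw6'⟩ := hw
  obtain ⟨hm1, hTN, he4⟩ := hG m hmG e he2
  obtain ⟨V, hVdef⟩ : ∃ V : ℝ, V = 2 ^ m := ⟨_, rfl⟩
  have hV : 0 < V := by rw [hVdef]; positivity
  obtain ⟨w, hwdef⟩ : ∃ w : ℝ, w = e ^ 3 * 2 ^ m := ⟨_, rfl⟩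
  have hw1'' : 1 ≤ w := by rw [hwdef]; exact hw1.trans hw1'
  obtain ⟨v, hvdef⟩ : ∃ v : ℝ, v = ((2 : ℝ) ^ m) ^ (1 / 3 : ℝ) := ⟨_, rfl⟩
  have hv0 : 0 < v := by rw [hvdef]; exact (fcf_v m).1
  have hv3 : v ^ 3 = 2 ^ m := by rw [hvdef]; exact (fcf_v m).2
  have hmr : (1 : ℝ) ≤ m := by exact_mod_cast hm1
  -- the base point
  obtain ⟨pa, hpa0, hpapc, hBas⟩ := hA m hmA pc hpc0 hpc1 hpcm (by
    rw [hchi]
    apply mul_le_mul_of_nonneg_right _ (Real.rpow_nonneg (by positivity) _)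
    rw [hδdef]
    exact min_le_right _ _)
  have hwin := fun (e' p' : ℝ) (h1 : 0 < e') (h2 : e' ≤ (2 : ℝ) ^ (-(m : ℝ) / 36))
    (h3 : w1 ≤ e' ^ 3 * 2 ^ m) (h4 : pa * (1 + e' / 2) ≤ p') (h5 : p' ≤ pa * (1 + 2 * e')) =>
    hB' m hmB pa e' p' hBas h1 h2 h3 h4 h5
  have hpc2 := hpca m hmC pa pc hpa0 hpapc hpc1 hwin hchi
  rw [← hvdef] at hpc2
  have hKe : Kl / v ≤ e / 2 := by
    have h1 := fcf_cube e v (2 * Kl) (2 ^ m) he hv0 hv3 (by linarith) hw5'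
    rw [div_le_iff₀ hv0]
    linarith
  obtain ⟨p, hpdef⟩ : ∃ p, p = pc * (1 + e) := ⟨_, rfl⟩
  rw [← hpdef]
  have hp_lo : pa * (1 + e) ≤ p := by
    rw [hpdef]
    exact mul_le_mul_of_nonneg_right hpapc (by linarith)
  have hp_hi : p ≤ pa * (1 + 2 * e) := by
    rw [hpdef]
    have h1 : pc ≤ pa * (1 + e / 2) := by
      refine hpc2.trans ?_
      exact mul_le_mul_of_nonneg_left (by linarith) hpa0.le
    have h2 : pc * (1 + e) ≤ pa * (1 + e / 2) * (1 + e) :=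
      mul_le_mul_of_nonneg_right h1 (by linarith)
    refine h2.trans ?_
    rw [mul_assoc]
    apply mul_le_mul_of_nonneg_left _ hpa0.le
    exact fcf_w1 e he.le he4
  have hPF : ∀ p' : ℝ, pa * (1 + e / 2) ≤ p' → p' ≤ p →
      PF C0 c1 c2 c9 B m e p' (hF m e) (RF c8 m e) := fun p' h1 h2 =>
    hwin e p' he he2 hw1' h1 (h2.trans hp_hi)
  have hpae : 0 ≤ pa * e := by positivity
  have hPFp := hPF p ((mul_le_mul_of_nonneg_left (by linarith) hpa0.le).trans hp_lo) le_rfl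
  have hReg := hPFp.reg
  obtain ⟨hh0, hh1, hh2, hR1, hR2, hR3, hR4, hR5, hR6, hR7⟩ := hnumf m e he (by linarith) hw3'
  obtain ⟨h, hhdef⟩ : ∃ h, h = hF m e := ⟨_, rfl⟩
  obtain ⟨R, hRdef⟩ : ∃ R, R = RF c8 m e := ⟨_, rfl⟩
  rw [← hhdef] at hReg hPFp hh0 hh1 hh2 hR6 hR7
  rw [← hRdef] at hPFp hR1 hR2 hR6 hR7
  obtain ⟨μ, hμ⟩ : ∃ μ, μ = EG (cubeE m) p h (NN (cubeE m) ∅) := ⟨_, rfl⟩
  obtain ⟨vr, hvr⟩ : ∃ vr, vr = EG (cubeE m) p h (fun ω G => NN (cubeE m) ∅ ω G ^ 2) - μ ^ 2 :=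
    ⟨_, rfl⟩
  have hp0 : 0 ≤ p := hReg.hp0
  have hp1 : p ≤ 1 := by linarith [hReg.hp1]
  have hh1' : h ≤ 1 := by
    have h1 : e ^ 2 ≤ 1 := pow_le_one₀ he.le (by linarith)
    linarith [hReg.hh]
  -- variance
  have hvr_lo : c' * V / e ≤ vr := by
    obtain ⟨p1, q, hqm, hq0, hq1, hpp, hp10, hp1lo, hp1p⟩ :=
      fcf_p1 m κ e pa p hmr hκ hκ' he he4 hBas.hlow hp_lo hp1
    have hPF1 := hPF p1 hp1lo hp1p
    rw [← hhdef] at hPF1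
    have := hvl2 m hmE 20 e p h p1 q hReg (by norm_num) hpp hp10 (hp1p.trans hp1)
      (by rw [hqm]; exact fcf_half κ e hκ.le he.le) hqm.le hq0 hq1 hPF1.cap hPF1.good hPF1.sec
    rw [hVdef, hvr, hμ]
    exact this
  have hvr0 : 0 < vr := lt_of_lt_of_le (by positivity) hvr_lo
  obtain ⟨σ, hσdef⟩ : ∃ σ, σ = Real.sqrt vr := ⟨_, rfl⟩
  have hσ0 : 0 < σ := by rw [hσdef]; exact Real.sqrt_pos.2 hvr0
  have hσ2 : σ ^ 2 = vr := by rw [hσdef]; exact Real.sq_sqrt hvr0.le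
  have hbF : bF m e p = σ := by
    unfold bF
    rw [hσdef, hvr, ← hhdef, hμ]
  have haF : aF m e p = 2 ^ m - μ := by
    unfold aF
    rw [← hhdef, hμ]
  rw [hbF, haF]
  refine ⟨hσ0, ?_⟩
  -- the root
  obtain ⟨u, hu1, hu12, hu3, hu6, hu⟩ := fcf_root w hw1''
  have huu0 : u0 ≤ u := by
    rw [← hwdef] at hw4'
    have : u0 ^ 12 ≤ u ^ 12 := by rw [hu12]; exact hw4'
    exact le_of_pow_le_pow_left₀ (by norm_num) (by linarith) this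
  have hu0' : 0 < u := by linarith
  -- clt for N
  have hN := hcltn m hmF 20 e p h hReg (by norm_num) hTN u μ σ hu1 hμ hσ0 (by rw [hσ2, hvr])
    (by rw [hσ2, ← hVdef]; exact hvr_lo) (-t)
  rw [← hwdef, hu6, abs_neg, neg_sq, ← hu12] at hN
  -- approximation
  have hap := apx m R p h σ μ t hp0 hp1 hReg.hh0 hh1' hσ0
  have hU : Ex (cubeE m) p (fun ω => ind (TwoBig R ω)) ≤ δ' / 4 := by
    have h1 : 1 / e ≤ chi (cubeE m) pa (fun _ => false) := by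
      rw [hBas.hchi, ← hvdef]
      have h2 := fcf_cube e v (1 / δ) (2 ^ m) he hv0 hv3 (by positivity) hw6'
      rw [div_le_iff₀ he]
      rw [div_le_iff₀ hδ] at h2
      linarith
    have hpahalf : pa ≤ 1 / 2 := by
      have h2 : pa ≤ p := by
        have h3 : pa * (1 + e) = pa + pa * e := by ring
        linarith
      linarith [hReg.hp1]
    rw [hRdef]
    exact hunif m hmD pa e p hBas.hlow hBas.hup hpahalf he he2 hw2' h1
      ((mul_le_mul_of_nonneg_left (by linarith) hpa0.le).trans hp_lo) hPF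
  obtain ⟨D, hD⟩ : ∃ D, D = EG (cubeE m) p h (fun ω G => |ZR R ω - (2 ^ m - NN (cubeE m) ∅ ω G)|) :=
    ⟨_, rfl⟩
  have hD0 : 0 ≤ D := by
    rw [hD]
    unfold EG
    exact xb_Ex_nonneg _ _ hp0 hp1 _ fun ω _ => xb_Ex_nonneg _ _ hReg.hh0 hh1' _
      fun G _ => abs_nonneg _
  have hDl := zr_l1 C0 e p h 20 m hReg R hR7 hPFp.small
  rw [← hD, ← hVdef] at hDl
  have hZ := zr_zero C0 e p h c9 20 m hReg (by norm_num) R hc9 (by
    intro x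
    have h1 := hPFp.good ∅ x (by simp; positivity) (by rw [fcf_esc m hm1]; exact hc1')
      (Finset.notMem_empty x)
    rwa [xb_offE_empty] at h1)
  rw [← hD, ← hVdef] at hZ
  rw [← hD] at hap
  -- normalized quantities
  obtain ⟨D', hD'⟩ : ∃ D', D' = D / (e * V) := ⟨_, rfl⟩
  have heV : 0 < e * V := by positivity
  have hD'0 : 0 ≤ D' := by rw [hD']; positivity
  have hDD : D = D' * (e * V) := by rw [hD']; field_simp
  have hwV : w = e ^ 3 * V := by rw [hwdef, hVdef]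
  have hhe : h / e ^ 2 = u ^ 3 / u ^ 12 := by
    rw [hu12, ← hu3, hwdef]
    exact hh2
  have hD'1 : D' ≤ 2 * C0 * (1 - h) ^ R + C0 * (u ^ 3 / u ^ 12) := by
    rw [hD', div_le_iff₀ heV, ← hhe]
    exact hDl.trans (le_of_eq (fcf_alg1 V C0 e h _ he.ne'))
  have hT := hR6 R le_rfl
  rw [← hwdef, hu3] at hT
  have hT0 : 0 ≤ (1 - h) ^ R := pow_nonneg (by linarith) _
  have hfin := hnum u huu0 ((1 - h) ^ R) D' hT0 hT hD'1 hD'0
  -- the two terms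
  have hZ' : Ex (cubeE m) p (fun ω => ind (∀ x, (cl ω x).card ≤ R)) ≤
      144 * C0 ^ 3 / (c9 ^ 2 * u ^ 12) + 2 * D' / c9 := by
    refine hZ.trans (le_of_eq ?_)
    rw [hu12, hwV, hDD]
    exact fcf_alg2 V C0 e c9 D' he.ne' hV.ne' hc9.ne'
  have hS : |t| / σ * D ≤ |t| * (u ^ 6 / Real.sqrt c') * D' := by
    have h1 : e * V / σ ≤ u ^ 6 / Real.sqrt c' :=
      fcf_alg3 e V σ u c' vr w he hV hσ0 hu0' hc' hσ2 (by rw [← hu12]; ring) hwV hvr_lo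
    have h5 : |t| / σ * D = |t| * (e * V / σ) * D' := by
      rw [hDD]
      ring
    rw [h5]
    exact mul_le_mul_of_nonneg_right (mul_le_mul_of_nonneg_left h1 (abs_nonneg t)) hD'0
  -- conclusion
  set X1 := ExC (cubeE m) p (fun ω =>
        Complex.exp (Complex.I * ((t * (((largest ω : ℝ) - (2 ^ m - μ)) / σ) : ℝ) : ℂ))) with hX1
  set X2 := EGC (cubeE m) p h (fun ω G =>
        Complex.exp (Complex.I * ((-t * ((NN (cubeE m) ∅ ω G - μ) / σ) : ℝ) : ℂ))) with hX2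
  have hdec : X1 - Complex.exp ((-(t ^ 2 / 2) : ℝ) : ℂ) =
      (X1 - X2) + (X2 - Complex.exp ((-(t ^ 2 / 2) : ℝ) : ℂ)) := by ring
  rw [hdec]
  refine (norm_add_le _ _).trans ?_
  have h1 : 1 / u ^ 12 = 1 / u ^ 12 := rfl
  have hsum : ‖X1 - X2‖ ≤ 2 * (δ' / 4) + 2 * (144 * C0 ^ 3 / (c9 ^ 2 * u ^ 12) + 2 * D' / c9) +
      |t| * (u ^ 6 / Real.sqrt c') * D' := by
    refine hap.trans ?_
    linarith
  linarith

end Pool.Agent.Work.MP_b7dc8a_pr
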