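import Pool.Agent.Work.MP_b7dc8a_pr.F.Rectl
import Pool.Agent.Work.MP_b7dc8a_pr.F.DefU

/-! Part of FLOW. -/

namespace Pool.Agent.Work.MP_b7dc8a_pr

open Finset

/-- the third term of `trich` is large -/
theorem fl_direct : ∃ m0 : ℕ, ∀ m ≥ m0, ∀ X vmax p c0 : ℝ, 1 ≤ X → 0 ≤ vmax →
    LL 30000 m * X ^ 2 ≤ 2 ^ m → 0 ≤ p → p ≤ 1 → p * m ≤ 1 + 5000 * dl m →
    1 - 1 / (m : ℝ) ^ 2 ≤ p * ((m : ℝ) - 1) → (∀ x, chi (cubeE m) p x ≤ X) →
    ∀ (W S : Finset (Q m)) (f g : Q m → ℝ), (∀ z, 0 ≤ f z) → (∀ z, 0 ≤ g z) →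
    (∀ y, wt (offE (cubeE m) W) p (sm g) y ≤ vmax) → ∑ z, f z ≤ m * S.card →
    LL 30000 m * X ^ 2 * vmax / 2 ^ m ≤ c0 / 24 * m → 0 < c0 →
    c0 / 3 * m * S.card ≤ (∑ y, f y * ∑ i ∈ range (TN m),
        (nb (offE (cubeE m) W))^[i] g y / (m : ℝ) ^ i) / m →
    c0 / 24 * (m : ℝ) ^ 2 * S.card ≤ ∑ y, f y * wt (offE (cubeE m) W) p (sm g) y := by
  obtain ⟨m1, h1⟩ := rectl
  refine ⟨max m1 1, fun m hm X vmax p c0 hX hv hLX hp hp1 hpm hpm1 hchi W S f g hf hg hvm hF herr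
    hc0 hbig => ?_⟩
  have hm0 : (0 : ℝ) < m := by exact_mod_cast (le_max_right _ _).trans hm
  set err := LL 30000 m * X ^ 2 * vmax / 2 ^ m with herrdef
  have herr0 : 0 ≤ err := by
    have := (xn_LL_pos 30000 m).le
    positivity
  have h2 : ∀ y, (∑ i ∈ range (TN m), (nb (offE (cubeE m) W))^[i] g y / (m : ℝ) ^ i) / 4 -
      err ≤ wt (offE (cubeE m) W) p (sm g) y := by
    intro y
    have h3 := h1 m ((le_max_left _ _).trans hm) X vmax p hX hv hLX hp hpm hpm1 hchi W g hg hvm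
      (TN m) (by omega) y
    have h4 : 0 ≤ (nb (offE (cubeE m) W))^[TN m]
        (fun z => wt (offE (cubeE m) W) p (sm g) z) y / (2 * (m : ℝ) ^ TN m) := by
      refine div_nonneg (nb_iter_nonneg _ _ _ (fun z => ?_) y) (by positivity)
      exact xb_Ex_nonneg _ _ hp hp1 _ fun ω _ => Finset.sum_nonneg fun z _ => hg z
    linarith
  have h3 := Finset.sum_le_sum fun y (_ : y ∈ univ) => mul_le_mul_of_nonneg_left (h2 y) (hf y)
  refine le_trans ?_ h3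
  have h4 : ∑ y, f y * ((∑ i ∈ range (TN m), (nb (offE (cubeE m) W))^[i] g y / (m : ℝ) ^ i) / 4 -
      err) = (∑ y, f y * ∑ i ∈ range (TN m),
        (nb (offE (cubeE m) W))^[i] g y / (m : ℝ) ^ i) / 4 - err * ∑ y, f y := by
    rw [Finset.sum_div, Finset.mul_sum, ← Finset.sum_sub_distrib]
    exact Finset.sum_congr rfl fun y _ => by ring
  rw [h4]
  rw [le_div_iff₀ hm0] at hbig
  have hS : (0 : ℝ) ≤ m * S.card := by positivity
  have h5 : err * ∑ y, f y ≤ c0 / 24 * m * (m * S.card) :=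
    mul_le_mul herr hF (Finset.sum_nonneg fun y _ => hf y) (by positivity)
  nlinarith

end Pool.Agent.Work.MP_b7dc8a_pr
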