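import Pool.Agent.Work.MP_b7dc8a_pr.F.Rect2

/-! Module RECTL (M): lossless lower bound for `v = wt (offE (cubeE m) W) p (sm g)` by random walks.

`E = offE (cubeE m) W`, `P_W f = nb E f/m`, `a = LL 30000 m * X^2 * vmax/2^m`. `rect_core`:
`g + p m P_W v <= v (1 + m p^2 + 5 l4) + 2 l4 a`. Now (large `m`) `m p^2 = (p m)^2/m <=
(1 + 5000 dl)^2/m <= 1/m + l4`, and `p m = p (m-1) m/(m-1) >= (1 - 1/m^2) m/(m-1) = (m+1)/m = 1 + 1/m`.
With `K = 1 + 1/m + 6 l4 <= 2`: `v + 2 l4 a >= (g + (1 + 1/m) P_W v)/K >= g/2 + (1 - 6 l4) P_W v`. So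
`v >= g/2 + (1 - 6 l4) P_W v - 2 l4 a`; iterate `L` times (`nb` is linear and monotone, `P_W 1 <= 1`):
`v >= ∑_{i<L} (1 - 6 l4)^i P_W^i g/2 + (1 - 6 l4)^L P_W^L v - 2 l4 a L`. For `L <= 3 TN m = 12 TT m <=
12 (m log m + 1)`: `(1 - 6 l4)^L >= 1 - 6 l4 L >= 1/2` and `2 l4 L <= 1` for large `m`
(`l4 m * m log m = log^5 m/m → 0`). -/

namespace Pool.Agent.Work.MP_b7dc8a_pr

open Finset

/-- `log^5 m / m` tends to zero -/
private theorem rectl_log5 (η : ℝ) (hη : 0 < η) : ∃ m0 : ℕ, ∀ m ≥ m0,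
    Real.log m ^ 5 ≤ η * m := by
  have h : Filter.Tendsto (fun x : ℝ => Real.log x ^ 5 / x) Filter.atTop (nhds 0) := by
    have := (Real.isLittleO_pow_log_id_atTop (n := 5)).tendsto_div_nhds_zero
    simpa using this
  have h2 := (h.comp tendsto_natCast_atTop_atTop).eventually (gt_mem_nhds hη)
  obtain ⟨m0, hm0⟩ := Filter.eventually_atTop.1 h2
  refine ⟨max m0 1, fun m hm => ?_⟩
  have h4 := (hm0 m ((le_max_left _ _).trans hm)).le
  have hm1 : 1 ≤ m := (le_max_right _ _).trans hm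
  have hm1' : (0 : ℝ) < m := by exact_mod_cast hm1
  simp only [Function.comp] at h4
  rwa [div_le_iff₀ hm1'] at h4

private theorem rectl_logbig (C : ℝ) : ∃ m0 : ℕ, ∀ m ≥ m0, C ≤ Real.log m := by
  have h := (Real.tendsto_log_atTop.comp tendsto_natCast_atTop_atTop).eventually
    (Filter.eventually_ge_atTop C)
  obtain ⟨m0, hm0⟩ := Filter.eventually_atTop.1 h
  exact ⟨m0, fun m hm => by simpa using hm0 m hm⟩

/-- numerical facts -/
private theorem rectl_num : ∃ m0 : ℕ, ∀ m ≥ m0, 3 ≤ m ∧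
    (1 + 5000 * dl m) ^ 2 / m ≤ 1 / (m : ℝ) + l4 m ∧ 0 ≤ l4 m ∧ 1 / (m : ℝ) + 6 * l4 m ≤ 1 ∧
    (∀ L : ℕ, L ≤ 3 * TN m → 6 * l4 m * L ≤ 1 / 2) ∧ 1 + 5000 * dl m ≤ 2 := by
  obtain ⟨m1, hm1⟩ := rectl_log5 (1 / 1000) (by norm_num)
  obtain ⟨m2, hm2⟩ := rectl_logbig 40
  obtain ⟨m3, hm3⟩ := xn_dl 5000 1 (by norm_num)
  refine ⟨max (max m1 m2) (max m3 (5 * 10 ^ 7)), fun m hm => ?_⟩
  have hA : m1 ≤ m := ((le_max_left _ _).trans (le_max_left _ _)).trans hm
  have hB : m2 ≤ m := ((le_max_right _ _).trans (le_max_left _ _)).trans hm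
  have hC : m3 ≤ m := ((le_max_left _ _).trans (le_max_right _ _)).trans hm
  have hD : 5 * 10 ^ 7 ≤ m := ((le_max_right _ _).trans (le_max_right _ _)).trans hm
  have hD' : (5 * 10 ^ 7 : ℝ) ≤ m := by exact_mod_cast hD
  have h5 := hm1 m hA
  have hl := hm2 m hB
  have hdl := hm3 m hC
  set l := Real.log m with hl_def
  have hm0 : (0 : ℝ) < m := by linarith
  have hm3' : 3 ≤ m := by omega
  have hl4 : 0 ≤ l4 m := by unfold l4; positivity
  have hl4' : l4 m = l ^ 4 / (m : ℝ) ^ 2 := rfl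
  have hl4s : l4 m ≤ 1 / (1000 * m) := by
    rw [hl4', div_le_div_iff₀ (by positivity) (by positivity)]
    have h6 : l ^ 4 ≤ l ^ 5 := by
      have : l ^ 4 * 1 ≤ l ^ 4 * l := mul_le_mul_of_nonneg_left (by linarith) (by positivity)
      calc l ^ 4 = l ^ 4 * 1 := by ring
        _ ≤ l ^ 4 * l := this
        _ = l ^ 5 := by ring
    have h7 : l ^ 4 ≤ 1 / 1000 * m := h6.trans h5
    nlinarith
  refine ⟨hm3', ?_, hl4, ?_, ?_, by linarith⟩
  · have e : (1 + 5000 * dl m) ^ 2 / m = 1 / (m : ℝ) + (10000 * l + 25000000 * l ^ 2 / m) / (m : ℝ) ^ 2 := by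
      unfold dl
      rw [← hl_def]
      field_simp
      ring
    rw [e, hl4']
    have h8 : 10000 * l + 25000000 * l ^ 2 / m ≤ l ^ 4 := by
      have h9 : 25000000 * l ^ 2 / m ≤ l ^ 2 / 2 := by
        rw [div_le_iff₀ hm0]
        nlinarith [sq_nonneg l]
      have h10 : (40 : ℝ) ^ 3 ≤ l ^ 3 := pow_le_pow_left₀ (by norm_num) hl 3
      have h11 : (40 : ℝ) ^ 2 ≤ l ^ 2 := pow_le_pow_left₀ (by norm_num) hl 2
      have h12 : 20000 * l ≤ l ^ 4 := by
        have : l * 20000 ≤ l * l ^ 3 := mul_le_mul_of_nonneg_left (by linarith) (by linarith)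
        nlinarith
      have h13 : l ^ 2 ≤ l ^ 4 := by
        have : l ^ 2 * 1 ≤ l ^ 2 * l ^ 2 := mul_le_mul_of_nonneg_left (by linarith) (by positivity)
        nlinarith
      linarith
    have h14 : (10000 * l + 25000000 * l ^ 2 / m) / (m : ℝ) ^ 2 ≤ l ^ 4 / (m : ℝ) ^ 2 :=
      div_le_div_of_nonneg_right h8 (by positivity)
    linarith
  · have h1 : 1 / (m : ℝ) ≤ 1 / 2 := one_div_le_one_div_of_le (by norm_num) (by linarith)
    have h2 : 1 / (1000 * (m : ℝ)) ≤ 1 / 1000 := one_div_le_one_div_of_le (by norm_num) (by linarith)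
    linarith
  · intro L hL
    have hT := (xn_TT m (by omega)).2.1
    have hL' : (L : ℝ) ≤ 12 * TT m := by
      have : L ≤ 12 * TT m := by
        unfold TN at hL
        omega
      exact_mod_cast this
    rw [← hl_def] at hT
    have hml : 1 ≤ (m : ℝ) * l := by nlinarith
    have hL2 : (L : ℝ) ≤ 24 * (m * l) := by linarith
    have h1 : 6 * l4 m * L ≤ 6 * l4 m * (24 * (m * l)) :=
      mul_le_mul_of_nonneg_left hL2 (by positivity)
    refine h1.trans ?_
    have e : 6 * l4 m * (24 * (m * l)) = 144 * l ^ 5 / m := by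
      rw [hl4']
      field_simp
      ring
    rw [e, div_le_iff₀ hm0]
    nlinarith

theorem rectl : ∃ m0 : ℕ, ∀ m ≥ m0, ∀ X vmax p : ℝ, 1 ≤ X → 0 ≤ vmax →
    LL 30000 m * X ^ 2 ≤ 2 ^ m → 0 ≤ p → p * m ≤ 1 + 5000 * dl m →
    1 - 1 / (m : ℝ) ^ 2 ≤ p * ((m : ℝ) - 1) → (∀ x, chi (cubeE m) p x ≤ X) →
    ∀ (W : Finset (Q m)) (g : Q m → ℝ), (∀ z, 0 ≤ g z) →
    (∀ y, wt (offE (cubeE m) W) p (sm g) y ≤ vmax) → ∀ (L : ℕ), L ≤ 3 * TN m → ∀ y,
    (∑ i ∈ range L, (nb (offE (cubeE m) W))^[i] g y / (m : ℝ) ^ i) / 4 +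
      (nb (offE (cubeE m) W))^[L] (fun z => wt (offE (cubeE m) W) p (sm g) z) y /
        (2 * (m : ℝ) ^ L) - LL 30000 m * X ^ 2 * vmax / 2 ^ m ≤
      wt (offE (cubeE m) W) p (sm g) y := by
  obtain ⟨m1, hm1⟩ := rect_core
  obtain ⟨m2, hm2⟩ := rectl_num
  refine ⟨max m1 m2, fun m hm X vmax p hX hv hLX hp hpm hpm1 hchi W g hg hvm L hL y => ?_⟩
  have hcore := hm1 m ((le_max_left _ _).trans hm) X vmax _ p hX hv hLX le_rfl hp hpm hchi W g hg hvm
  obtain ⟨h3, hn1, hn2, hn3, hn4, hn5⟩ := hm2 m ((le_max_right _ _).trans hm)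
  set a := LL 30000 m * X ^ 2 * vmax / 2 ^ m with ha_def
  have ha : 0 ≤ a := by
    rw [ha_def]
    have := xn_LL_pos 30000 m
    positivity
  set E := offE (cubeE m) W with hE
  set v : Q m → ℝ := fun z => wt E p (sm g) z with hv_def
  have hEsub : E ⊆ cubeE m := xb_offE_subset _ _
  have hm3 : (3 : ℝ) ≤ m := by exact_mod_cast h3
  have hm0 : (0 : ℝ) < m := by linarith
  have hp1 : p ≤ 1 := by
    by_contra hcon
    push Not at hcon
    nlinarith
  have hv0 : ∀ z, 0 ≤ v z := by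
    intro z
    refine xb_Ex_nonneg E p hp hp1 _ fun ω _ => ?_
    unfold sm
    exact Finset.sum_nonneg fun z _ => hg z
  -- lower bound for p
  have hplow : 1 + 1 / (m : ℝ) ≤ p * m := by
    have h1 : (1 - 1 / (m : ℝ) ^ 2) / ((m : ℝ) - 1) ≤ p := by
      rw [div_le_iff₀ (by linarith)]
      exact hpm1
    have h2 : (1 - 1 / (m : ℝ) ^ 2) / ((m : ℝ) - 1) = (m + 1) / (m : ℝ) ^ 2 := by
      have : (m : ℝ) - 1 ≠ 0 := by linarith
      field_simp
      ring
    rw [h2] at h1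
    have h4 := mul_le_mul_of_nonneg_right h1 hm0.le
    have h5 : (m + 1) / (m : ℝ) ^ 2 * m = 1 + 1 / m := by
      field_simp
    linarith
  have hmp2 : (m : ℝ) * p ^ 2 ≤ 1 / m + l4 m := by
    refine le_trans ?_ hn1
    rw [le_div_iff₀ hm0]
    have h1 : (m : ℝ) * p ^ 2 * m = (p * m) ^ 2 := by ring
    rw [h1]
    exact pow_le_pow_left₀ (by positivity) hpm 2
  set c : ℝ := 1 - 6 * l4 m with hc_def
  have hc1 : c ≤ 1 := by linarith
  have hc0 : 0 ≤ c := by
    have : 0 < 1 / (m : ℝ) := by positivity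
    linarith
  -- one step
  have hstep : ∀ z, g z / 2 + c * (nb E v z / m) ≤ v z + 2 * l4 m * a := by
    intro z
    have h1 := hcore z
    change g z + p * nb E v z ≤ v z * (1 + m * p ^ 2 + 5 * l4 m) + 2 * l4 m * a at h1
    have hnb : 0 ≤ nb E v z := by
      unfold nb
      exact Finset.sum_nonneg fun w _ => hv0 w
    set K : ℝ := 1 + 1 / m + 6 * l4 m with hK
    have hK1 : 1 ≤ K := by
      have : 0 < 1 / (m : ℝ) := by positivity
      linarith
    have hK2 : K ≤ 2 := by linarith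
    have h2 : v z * (1 + m * p ^ 2 + 5 * l4 m) ≤ v z * K :=
      mul_le_mul_of_nonneg_left (by linarith) (hv0 z)
    have h3' : (1 + 1 / (m : ℝ)) * (nb E v z / m) ≤ p * nb E v z := by
      have h4 := mul_le_mul_of_nonneg_right hplow (div_nonneg hnb hm0.le)
      have h5 : p * m * (nb E v z / m) = p * nb E v z := by field_simp
      linarith
    have h6 : g z + (1 + 1 / (m : ℝ)) * (nb E v z / m) ≤ (v z + 2 * l4 m * a) * K := by
      have h7 : 2 * l4 m * a ≤ 2 * l4 m * a * K := by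
        have h8 : 0 ≤ 2 * l4 m * a := by positivity
        nlinarith
      linarith
    have h9 : (g z / 2 + c * (nb E v z / m)) * K ≤ g z + (1 + 1 / (m : ℝ)) * (nb E v z / m) := by
      have h10 : g z / 2 * K ≤ g z := by nlinarith [hg z]
      have h11 : c * K ≤ 1 + 1 / (m : ℝ) := by
        rw [hc_def, hK]
        have : 0 < 1 / (m : ℝ) := by positivity
        nlinarith [mul_nonneg hn2 this.le, mul_nonneg hn2 hn2]
      have h12 : 0 ≤ nb E v z / m := div_nonneg hnb hm0.le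
      have h13 := mul_le_mul_of_nonneg_right h11 h12
      nlinarith
    have hKpos : 0 < K := by linarith
    exact le_of_mul_le_mul_right (h9.trans h6) hKpos
  -- iteration
  have hiter : ∀ n : ℕ, ∀ y, (∑ i ∈ range n, c ^ i * ((nb E)^[i] g y / (m : ℝ) ^ i)) / 2 +
      c ^ n * ((nb E)^[n] v y / (m : ℝ) ^ n) ≤ v y + 2 * l4 m * a * n := by
    intro n
    induction n with
    | zero =>
      intro y
      simp
    | succ n ih =>
      intro y
      have h1 := ih y
      -- P^n applied to the step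
      have h2 : (nb E)^[n] (fun z => g z / 2 + c * (nb E v z / m)) y ≤
          (nb E)^[n] (fun z => v z + 2 * l4 m * a) y := nb_iter_mono E n _ _ hstep y
      have e1 : (nb E)^[n] (fun z => g z / 2 + c * (nb E v z / m)) y =
          (nb E)^[n] g y / 2 + c * ((nb E)^[n + 1] v y / m) := by
        rw [nb_iter_add E n (fun z => g z / 2) (fun z => c * (nb E v z / m)) y,
          nb_iter_smul E n c (fun z => nb E v z / m) y]
        have e2 : (fun z => g z / 2) = fun z => (1 / 2) * g z := by funext z; ring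
        have e3 : (fun z => nb E v z / m) = fun z => (1 / (m : ℝ)) * nb E v z := by funext z; ring
        rw [e2, e3, nb_iter_smul E n (1 / 2) g y, nb_iter_smul E n (1 / (m : ℝ)) (fun z => nb E v z) y,
          Function.iterate_succ_apply]
        ring
      have e4 : (nb E)^[n] (fun z => v z + 2 * l4 m * a) y ≤
          (nb E)^[n] v y + (m : ℝ) ^ n * (2 * l4 m * a) := by
        rw [nb_iter_add E n v (fun _ => 2 * l4 m * a) y]
        have := nb_iter_le m n E hEsub (fun _ => 2 * l4 m * a) (2 * l4 m * a) (by positivity)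
          (fun _ => le_rfl) y
        linarith
      have h5 : (nb E)^[n] g y / 2 + c * ((nb E)^[n + 1] v y / m) ≤
          (nb E)^[n] v y + (m : ℝ) ^ n * (2 * l4 m * a) := by
        rw [← e1]
        exact h2.trans e4
      have hmn : (0 : ℝ) < (m : ℝ) ^ n := by positivity
      have h6 : ((nb E)^[n] g y / (m : ℝ) ^ n) / 2 + c * ((nb E)^[n + 1] v y / (m : ℝ) ^ (n + 1)) ≤
          (nb E)^[n] v y / (m : ℝ) ^ n + 2 * l4 m * a := by
        have h7 := div_le_div_of_nonneg_right h5 hmn.le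
        have e5 : ((nb E)^[n] g y / 2 + c * ((nb E)^[n + 1] v y / m)) / (m : ℝ) ^ n =
            ((nb E)^[n] g y / (m : ℝ) ^ n) / 2 + c * ((nb E)^[n + 1] v y / (m : ℝ) ^ (n + 1)) := by
          field_simp
          ring
        have e6 : ((nb E)^[n] v y + (m : ℝ) ^ n * (2 * l4 m * a)) / (m : ℝ) ^ n =
            (nb E)^[n] v y / (m : ℝ) ^ n + 2 * l4 m * a := by
          field_simp
        rw [e5, e6] at h7
        exact h7
      have h8 := mul_le_mul_of_nonneg_left h6 (pow_nonneg hc0 n)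
      have h9 : c ^ n * (2 * l4 m * a) ≤ 2 * l4 m * a := by
        have : c ^ n ≤ 1 := pow_le_one₀ hc0 hc1
        have h10 : 0 ≤ 2 * l4 m * a := by positivity
        nlinarith
      rw [Finset.sum_range_succ]
      push_cast
      have e7 : c ^ (n + 1) = c ^ n * c := pow_succ _ _
      rw [e7]
      nlinarith
  have hfin := hiter L y
  have hL1 := hn4 L hL
  have hcL : 1 / 2 ≤ c ^ L := by
    have h1 := one_add_mul_le_pow (a := -(6 * l4 m)) (by
      have : 6 * l4 m ≤ 1 := by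
        have : 0 < 1 / (m : ℝ) := by positivity
        linarith
      linarith) L
    have e : (1 + -(6 * l4 m)) = c := by rw [hc_def]; ring
    rw [e] at h1
    linarith
  have h1 : (∑ i ∈ range L, (nb E)^[i] g y / (m : ℝ) ^ i) / 2 ≤
      ∑ i ∈ range L, c ^ i * ((nb E)^[i] g y / (m : ℝ) ^ i) := by
    rw [Finset.sum_div]
    refine Finset.sum_le_sum fun i hi => ?_
    rw [Finset.mem_range] at hi
    have h2 : 1 / 2 ≤ c ^ i := hcL.trans (pow_le_pow_of_le_one hc0 hc1 hi.le)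
    have h3 : 0 ≤ (nb E)^[i] g y / (m : ℝ) ^ i :=
      div_nonneg (nb_iter_nonneg E i g hg y) (by positivity)
    nlinarith
  have h2 : (nb E)^[L] v y / (2 * (m : ℝ) ^ L) ≤ c ^ L * ((nb E)^[L] v y / (m : ℝ) ^ L) := by
    have h3 : 0 ≤ (nb E)^[L] v y / (m : ℝ) ^ L :=
      div_nonneg (nb_iter_nonneg E L v hv0 y) (by positivity)
    have e : (nb E)^[L] v y / (2 * (m : ℝ) ^ L) = 1 / 2 * ((nb E)^[L] v y / (m : ℝ) ^ L) := by
      field_simp
    rw [e]
    exact mul_le_mul_of_nonneg_right hcL h3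
  have h3' : 2 * l4 m * a * L ≤ a := by
    have h4 : 2 * l4 m * L ≤ 1 := by
      have : 0 ≤ l4 m * L := by positivity
      linarith
    nlinarith
  show (∑ i ∈ range L, (nb E)^[i] g y / (m : ℝ) ^ i) / 4 + (nb E)^[L] v y / (2 * (m : ℝ) ^ L) - a ≤ v y
  linarith

end Pool.Agent.Work.MP_b7dc8a_pr
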