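import Pool.Agent.Work.MP_b7dc8a_pr.F.Mxw
import Pool.Agent.Work.MP_b7dc8a_pr.F.Rectl

/-! Module FLOWA (M): lower bound for `⟨f, v_g⟩ = ∑_y f y E_y[g(C)]` by two applications of `rectl`.

`E_W = offE (cubeE m) W`, `P f = nb E_W f/m`, `v_g y = wt E_W p (sm g) y = ∑_z τ y z g z` (`τ = tau E_W p`, symmetric;
`xb_wt_sm`), `⟨a, b⟩ = ∑ a b`. `nb E_W` is symmetric: `⟨a, nb E_W b⟩ = ⟨nb E_W a, b⟩`. `f, g >= 0` vanish on `W`;
`n ∈ {2 TN, 2 TN + 1}` (`<= 3 TN`), `f~ = P^(2TN) f + P^(2TN+1) f`, `g~` the same, `V = 2^m`, `err = LL X^2 vmax/2^m`.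
(1) `rectl` with `L = n` (drop the first sum): `v_g >= P^n v_g/2 - err`; average over the two `n`, pair with `f`:
 `⟨f, v_g⟩ >= (1/4) ⟨f~, v_g⟩ - err ∑ f`.
(2) `⟨f~, v_g⟩ = ⟨v_{f~}, g⟩`; `v_{f~} <= X * 8 (∑ f)/2^m <= vmax` (`mxw`, `∑_z τ y z = chi E_W p y <= chi (cubeE m) p y
 <= X`); `rectl` for `f~`: `⟨v_{f~}, g⟩ >= (1/4) ⟨v_{f~}, g~⟩ - err ∑ g`.
(3) with `A_f = (∑ f esc)/V`, `A_g` and `ℓ_f`, `ℓ_g` of `mxw`: on the complement of `W` `f~ >= max (A_f - ℓ_f) 0`, the same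
 for `g~`, so `⟨v_{f~}, g~⟩ >= ∑_{z,w∉W} τ z w (A_f A_g - A_f ℓ_g w - A_g ℓ_f z)` (`max (a-x) 0 * max (b-y) 0 >= ab - ay - bx`
 for `a, b, x, y >= 0`; terms with `z ∈ W` or `w ∈ W` are nonnegative, drop them; for `z ∉ W`, `w ∈ W`: `τ z w = 0`)
 `>= A_f A_g ∑_{z∉W} chi E_W p z - X (A_f ∑ ℓ_g + A_g ∑ ℓ_f)`. -/

namespace Pool.Agent.Work.MP_b7dc8a_pr

open Finset

private theorem nb_sym {V : Type} [Fintype V] (E : Finset (Sym2 V)) (a b : V → ℝ) :
    ∑ z, a z * nb E b z = ∑ z, nb E a z * b z := by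
  simp only [walk_nb_ind, Finset.mul_sum, Finset.sum_mul]
  rw [Finset.sum_comm]
  refine Finset.sum_congr rfl fun z _ => Finset.sum_congr rfl fun w _ => ?_
  rw [Sym2.eq_swap]
  ring

private theorem nb_sym_iter {V : Type} [Fintype V] (E : Finset (Sym2 V)) (n : ℕ) (a b : V → ℝ) :
    ∑ z, a z * (nb E)^[n] b z = ∑ z, (nb E)^[n] a z * b z := by
  induction n generalizing a b with
  | zero => rfl
  | succ n ih =>
    rw [Function.iterate_succ_apply, Function.iterate_succ_apply', ih, nb_sym]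

private theorem pair_sym {V : Type} [Fintype V] [DecidableEq V] (E : Finset (Sym2 V)) (p : ℝ)
    (a b : V → ℝ) : ∑ y, a y * wt E p (sm b) y = ∑ y, b y * wt E p (sm a) y := by
  simp only [xb_wt_sm, Finset.mul_sum]
  rw [Finset.sum_comm]
  refine Finset.sum_congr rfl fun z _ => Finset.sum_congr rfl fun w _ => ?_
  rw [xb_tau_comm]
  ring

/-- averaging `rectl` over two lengths -/
private theorem flowa_step : ∃ m0 : ℕ, ∀ m ≥ m0, ∀ X vmax p : ℝ, 1 ≤ X → 0 ≤ vmax →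
    LL 30000 m * X ^ 2 ≤ 2 ^ m → 0 ≤ p → p * m ≤ 1 + 5000 * dl m →
    1 - 1 / (m : ℝ) ^ 2 ≤ p * ((m : ℝ) - 1) → (∀ x, chi (cubeE m) p x ≤ X) →
    ∀ (W : Finset (Q m)) (f g : Q m → ℝ), (∀ z, 0 ≤ f z) → (∀ z, 0 ≤ g z) →
    (∀ y, wt (offE (cubeE m) W) p (sm g) y ≤ vmax) →
    (∑ y, ((nb (offE (cubeE m) W))^[2 * TN m] f y / (m : ℝ) ^ (2 * TN m) +
      (nb (offE (cubeE m) W))^[2 * TN m + 1] f y / (m : ℝ) ^ (2 * TN m + 1)) *
        wt (offE (cubeE m) W) p (sm g) y) / 4 -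
      LL 30000 m * X ^ 2 * vmax / 2 ^ m * ∑ z, f z ≤
    ∑ y, f y * wt (offE (cubeE m) W) p (sm g) y := by
  obtain ⟨m1, h1⟩ := rectl
  refine ⟨max m1 8, fun m hm X vmax p hX hv hLX hp hpm hpm1 hchi W f g hf hg hvm => ?_⟩
  have hm8 : 8 ≤ m := (le_max_right _ _).trans hm
  have hm0 : (0 : ℝ) < m := by exact_mod_cast (by omega : 0 < m)
  have hTN : 1 ≤ TN m := by
    have h1 := (xn_TT m (by omega)).1
    have h2 : (0 : ℝ) < Real.log m := Real.log_pos (by exact_mod_cast (by omega : 1 < m))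
    have h4 : (0 : ℝ) < TT m := lt_of_lt_of_le (mul_pos hm0 h2) h1
    have h5 : 0 < TT m := by exact_mod_cast h4
    unfold TN
    omega
  set EW := offE (cubeE m) W with hEW
  set v : Q m → ℝ := fun y => wt EW p (sm g) y with hvdef
  set err := LL 30000 m * X ^ 2 * vmax / 2 ^ m with herr
  have hr : ∀ n, n ≤ 3 * TN m → ∀ y, (nb EW)^[n] v y / (2 * (m : ℝ) ^ n) - err ≤ v y := by
    intro n hn y
    have h2 := h1 m ((le_max_left _ _).trans hm) X vmax p hX hv hLX hp hpm hpm1 hchi W g hg hvm n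
      hn y
    have h3 : 0 ≤ ∑ i ∈ range n, (nb EW)^[i] g y / (m : ℝ) ^ i :=
      Finset.sum_nonneg fun i _ => div_nonneg (nb_iter_nonneg _ _ _ hg y) (by positivity)
    have h4 : v y = wt EW p (sm g) y := rfl
    rw [h4]
    linarith
  have h2 : ∀ y, ((nb EW)^[2 * TN m] v y / (m : ℝ) ^ (2 * TN m) +
      (nb EW)^[2 * TN m + 1] v y / (m : ℝ) ^ (2 * TN m + 1)) / 4 - err ≤ v y := by
    intro y
    have h3 := hr (2 * TN m) (by omega) y
    have h4 := hr (2 * TN m + 1) (by omega) y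
    have e1 : ∀ a b : ℝ, a / (2 * b) = a / b / 2 := fun a b => by
      rw [mul_comm, div_div]
    rw [e1] at h3 h4
    linarith
  have h3 : ∑ y, f y * (((nb EW)^[2 * TN m] v y / (m : ℝ) ^ (2 * TN m) +
      (nb EW)^[2 * TN m + 1] v y / (m : ℝ) ^ (2 * TN m + 1)) / 4 - err) ≤ ∑ y, f y * v y :=
    Finset.sum_le_sum fun y _ => mul_le_mul_of_nonneg_left (h2 y) (hf y)
  refine le_trans (le_of_eq ?_) h3
  have h4 : ∀ n, ∑ y, (nb EW)^[n] f y / (m : ℝ) ^ n * v y =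
      ∑ y, f y * ((nb EW)^[n] v y / (m : ℝ) ^ n) := by
    intro n
    have h5 := nb_sym_iter EW n f v
    have h6 : ∑ y, (nb EW)^[n] f y / (m : ℝ) ^ n * v y =
        (∑ y, (nb EW)^[n] f y * v y) / (m : ℝ) ^ n := by
      rw [Finset.sum_div]
      exact Finset.sum_congr rfl fun y _ => by ring
    rw [h6, ← h5, Finset.sum_div]
    exact Finset.sum_congr rfl fun y _ => by ring
  have h5 : ∑ y, ((nb EW)^[2 * TN m] f y / (m : ℝ) ^ (2 * TN m) +
      (nb EW)^[2 * TN m + 1] f y / (m : ℝ) ^ (2 * TN m + 1)) * v y =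
      ∑ y, f y * ((nb EW)^[2 * TN m] v y / (m : ℝ) ^ (2 * TN m)) +
      ∑ y, f y * ((nb EW)^[2 * TN m + 1] v y / (m : ℝ) ^ (2 * TN m + 1)) := by
    rw [← h4, ← h4, ← Finset.sum_add_distrib]
    exact Finset.sum_congr rfl fun y _ => by ring
  have h6 : ∑ y, f y * (((nb EW)^[2 * TN m] v y / (m : ℝ) ^ (2 * TN m) +
      (nb EW)^[2 * TN m + 1] v y / (m : ℝ) ^ (2 * TN m + 1)) / 4 - err) =
      (∑ y, f y * ((nb EW)^[2 * TN m] v y / (m : ℝ) ^ (2 * TN m)) +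
      ∑ y, f y * ((nb EW)^[2 * TN m + 1] v y / (m : ℝ) ^ (2 * TN m + 1))) / 4 -
      err * ∑ y, f y := by
    rw [← Finset.sum_add_distrib, Finset.sum_div, Finset.mul_sum, ← Finset.sum_sub_distrib]
    exact Finset.sum_congr rfl fun y _ => by ring
  rw [h6, ← h5]

private theorem num_step (x0 y0 α β x y : ℝ) (hx0 : 0 ≤ x0) (hy0 : 0 ≤ y0) (hα : 0 ≤ α)
    (hβ : 0 ≤ β) (hx : 0 ≤ x) (hy : 0 ≤ y) (hxα : x0 - α ≤ x) (hyβ : y0 - β ≤ y) :
    x0 * y0 - α * y0 - β * x0 ≤ x * y := by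
  by_cases h1 : x0 ≤ α
  · have h2 : x0 * y0 ≤ α * y0 := mul_le_mul_of_nonneg_right h1 hy0
    have h3 := mul_nonneg hβ hx0
    have h4 := mul_nonneg hx hy
    linarith
  by_cases h5 : y0 ≤ β
  · have h2 : y0 * x0 ≤ β * x0 := mul_le_mul_of_nonneg_right h5 hx0
    have h3 := mul_nonneg hα hy0
    have h4 := mul_nonneg hx hy
    linarith
  · have h6 : (x0 - α) * (y0 - β) ≤ x * y :=
      mul_le_mul hxα hyβ (by linarith) hx
    have h7 := mul_nonneg hα hβ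
    nlinarith

/-- the lower bound for `⟨v_f, g⟩` when `f`, `g` are nearly constant outside `W` -/
private theorem flat_low {V : Type} [Fintype V] [DecidableEq V] (E : Finset (Sym2 V)) (W : Finset V)
    (p X : ℝ) (h0 : 0 ≤ p) (h1 : p ≤ 1) (hX : ∀ x, chi (offE E W) p x ≤ X)
    (f g lf lg : V → ℝ) (hf : ∀ z, 0 ≤ f z) (hg : ∀ z, 0 ≤ g z) (hlf : ∀ z, 0 ≤ lf z)
    (hlg : ∀ z, 0 ≤ lg z) (Af Ag : ℝ) (hAf : 0 ≤ Af) (hAg : 0 ≤ Ag)
    (hf' : ∀ z, z ∉ W → Af - lf z ≤ f z) (hg' : ∀ z, z ∉ W → Ag - lg z ≤ g z) :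
    Af * Ag * (∑ z, ind (z ∉ W) * chi (offE E W) p z) - X * (Af * (∑ z, lg z) + Ag * (∑ z, lf z)) ≤
      ∑ y, g y * wt (offE E W) p (sm f) y := by
  have ht : ∀ z w, 0 ≤ tau (offE E W) p z w := fun z w => xb_tau_nonneg _ p h0 h1 z w
  have e1 : ∑ y, g y * wt (offE E W) p (sm f) y =
      ∑ z, ∑ w, tau (offE E W) p z w * (f w * g z) := by
    refine Finset.sum_congr rfl fun z _ => ?_
    rw [xb_wt_sm, Finset.mul_sum]
    exact Finset.sum_congr rfl fun w _ => by ring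
  have e2 : ∀ z, ind (z ∉ W) * chi (offE E W) p z =
      ∑ w, tau (offE E W) p z w * (ind (z ∉ W) * ind (w ∉ W)) := by
    intro z
    rw [xb_chi_sum, Finset.mul_sum]
    refine Finset.sum_congr rfl fun w _ => ?_
    by_cases hz : z ∈ W
    · rw [walk_ind_neg _ (not_not.2 hz)]
      ring
    · by_cases hw : w ∈ W
      · rw [xb_tau_off E W p z w hz hw]
        ring
      · rw [walk_ind_pos _ hw]
        ring
  have e3 : ∀ z w, tau (offE E W) p z w * (Af * Ag * (ind (z ∉ W) * ind (w ∉ W))) -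
      tau (offE E W) p z w * (Af * lg z) - tau (offE E W) p z w * (Ag * lf w) ≤
      tau (offE E W) p z w * (f w * g z) := by
    intro z w
    have key : Af * Ag * (ind (z ∉ W) * ind (w ∉ W)) - Af * lg z - Ag * lf w ≤ f w * g z := by
      have n1 := mul_nonneg hAf (hlg z)
      have n2 := mul_nonneg hAg (hlf w)
      have n3 := mul_nonneg (hf w) (hg z)
      by_cases hz : z ∈ W
      · rw [walk_ind_neg _ (not_not.2 hz)]
        linarith
      by_cases hw : w ∈ W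
      · rw [walk_ind_neg (w ∉ W) (not_not.2 hw)]
        linarith
      rw [walk_ind_pos _ hz, walk_ind_pos _ hw]
      have h2 := num_step Af Ag (lf w) (lg z) (f w) (g z) hAf hAg (hlf w) (hlg z) (hf w) (hg z)
        (hf' w hw) (hg' z hz)
      linarith
    have h2 := mul_le_mul_of_nonneg_left key (ht z w)
    linarith
  rw [e1]
  refine le_trans ?_ (Finset.sum_le_sum fun z _ => Finset.sum_le_sum fun w _ => e3 z w)
  have e4 : ∑ z, ∑ w, (tau (offE E W) p z w * (Af * Ag * (ind (z ∉ W) * ind (w ∉ W))) -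
      tau (offE E W) p z w * (Af * lg z) - tau (offE E W) p z w * (Ag * lf w)) =
      Af * Ag * (∑ z, ind (z ∉ W) * chi (offE E W) p z) -
      Af * (∑ z, lg z * chi (offE E W) p z) - Ag * ∑ w, lf w * chi (offE E W) p w := by
    have a1 : Af * Ag * (∑ z, ind (z ∉ W) * chi (offE E W) p z) =
        ∑ z, ∑ w, tau (offE E W) p z w * (Af * Ag * (ind (z ∉ W) * ind (w ∉ W))) := by
      rw [Finset.mul_sum]
      refine Finset.sum_congr rfl fun z _ => ?_
      rw [e2, Finset.mul_sum]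
      exact Finset.sum_congr rfl fun w _ => by ring
    have a2 : Af * (∑ z, lg z * chi (offE E W) p z) =
        ∑ z, ∑ w, tau (offE E W) p z w * (Af * lg z) := by
      rw [Finset.mul_sum]
      refine Finset.sum_congr rfl fun z _ => ?_
      rw [xb_chi_sum, Finset.mul_sum, Finset.mul_sum]
      exact Finset.sum_congr rfl fun w _ => by ring
    have a3 : Ag * (∑ w, lf w * chi (offE E W) p w) =
        ∑ z, ∑ w, tau (offE E W) p z w * (Ag * lf w) := by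
      rw [Finset.sum_comm, Finset.mul_sum]
      refine Finset.sum_congr rfl fun w _ => ?_
      rw [xb_chi_sum, Finset.mul_sum, Finset.mul_sum]
      refine Finset.sum_congr rfl fun z _ => ?_
      rw [xb_tau_comm]
      ring
    rw [a1, a2, a3]
    simp only [Finset.sum_sub_distrib]
  rw [e4]
  have b1 : ∑ z, lg z * chi (offE E W) p z ≤ X * ∑ z, lg z := by
    rw [Finset.mul_sum]
    refine Finset.sum_le_sum fun z _ => ?_
    rw [mul_comm]
    exact mul_le_mul_of_nonneg_right (hX z) (hlg z)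
  have b2 : ∑ z, lf z * chi (offE E W) p z ≤ X * ∑ z, lf z := by
    rw [Finset.mul_sum]
    refine Finset.sum_le_sum fun z _ => ?_
    rw [mul_comm]
    exact mul_le_mul_of_nonneg_right (hX z) (hlf z)
  have b3 := mul_le_mul_of_nonneg_left b1 hAf
  have b4 := mul_le_mul_of_nonneg_left b2 hAg
  linarith

open Classical in
theorem flowa : ∃ m0 : ℕ, ∀ m ≥ m0, ∀ X vmax p : ℝ, 1 ≤ X → 0 ≤ vmax →
    LL 30000 m * X ^ 2 ≤ 2 ^ m → 0 ≤ p → p * m ≤ 1 + 5000 * dl m →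
    1 - 1 / (m : ℝ) ^ 2 ≤ p * ((m : ℝ) - 1) → (∀ x, chi (cubeE m) p x ≤ X) →
    ∀ (W : Finset (Q m)) (f g : Q m → ℝ), (∀ z, 0 ≤ f z) → (∀ z, 0 ≤ g z) →
    (∀ z ∈ W, f z = 0) → (∀ z ∈ W, g z = 0) →
    (∀ y, wt (offE (cubeE m) W) p (sm g) y ≤ vmax) → X * (8 * (∑ z, f z) / 2 ^ m) ≤ vmax →
    ∀ Af Ag : ℝ, Af = (∑ y, f y * esc m W y) / 2 ^ m → Ag = (∑ y, g y * esc m W y) / 2 ^ m →
    (Af * Ag * (∑ z ∈ univ.filter (fun z => z ∉ W), chi (offE (cubeE m) W) p z) -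
      12 * TN m * W.card * X * (Af * (∑ z, g z) + Ag * (∑ z, f z)) / 2 ^ m) / 16 -
      LL 30000 m * X ^ 2 * vmax * ((∑ z, f z) + (∑ z, g z)) / 2 ^ m ≤
    ∑ y, f y * wt (offE (cubeE m) W) p (sm g) y := by
  obtain ⟨m1, h1⟩ := flowa_step
  obtain ⟨m2, h2⟩ := mxw
  obtain ⟨m3, h3⟩ := xn_dl 5000 1 one_pos
  refine ⟨max (max m1 m2) (max m3 8), fun m hm X vmax p hX hv hLX hp hpm hpm1 hchi W f g hf hg hfW
    hgW hvm hvm2 Af Ag hAf hAg => ?_⟩
  have hm1 : m1 ≤ m := ((le_max_left _ _).trans (le_max_left _ _)).trans hm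
  have hm2 : m2 ≤ m := ((le_max_right _ _).trans (le_max_left _ _)).trans hm
  have hm3 : m3 ≤ m := ((le_max_left _ _).trans (le_max_right _ _)).trans hm
  have hm8 : 8 ≤ m := ((le_max_right _ _).trans (le_max_right _ _)).trans hm
  have hmR : (8 : ℝ) ≤ m := by exact_mod_cast hm8
  have hm0 : (0 : ℝ) < m := by linarith
  have hp1 : p ≤ 1 := by
    have h4 := h3 m hm3
    nlinarith
  set EW := offE (cubeE m) W with hEW
  have hsub : EW ⊆ cubeE m := xb_offE_subset _ _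
  have hchiW : ∀ x, chi EW p x ≤ X := fun x => (xb_chi_mono_E _ _ hsub p hp hp1 x).trans (hchi x)
  set F := ∑ z, f z with hF
  set G := ∑ z, g z with hG
  have hF0 : 0 ≤ F := Finset.sum_nonneg fun z _ => hf z
  have hG0 : 0 ≤ G := Finset.sum_nonneg fun z _ => hg z
  have hesc : ∀ y, 0 ≤ esc m W y := fun y => by
    unfold esc
    exact div_nonneg (nb_iter_nonneg _ _ _ (fun _ => zero_le_one) y) (by positivity)
  have hAf0 : 0 ≤ Af := by
    rw [hAf]
    exact div_nonneg (Finset.sum_nonneg fun y _ => mul_nonneg (hf y) (hesc y)) (by positivity)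
  have hAg0 : 0 ≤ Ag := by
    rw [hAg]
    exact div_nonneg (Finset.sum_nonneg fun y _ => mul_nonneg (hg y) (hesc y)) (by positivity)
  set err := LL 30000 m * X ^ 2 * vmax / 2 ^ m with herr
  have herr0 : 0 ≤ err := by
    have := (xn_LL_pos 30000 m).le
    positivity
  set ft : Q m → ℝ := fun y => (nb EW)^[2 * TN m] f y / (m : ℝ) ^ (2 * TN m) +
      (nb EW)^[2 * TN m + 1] f y / (m : ℝ) ^ (2 * TN m + 1) with hft
  set gt : Q m → ℝ := fun y => (nb EW)^[2 * TN m] g y / (m : ℝ) ^ (2 * TN m) +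
      (nb EW)^[2 * TN m + 1] g y / (m : ℝ) ^ (2 * TN m + 1) with hgt
  have hft0 : ∀ z, 0 ≤ ft z := fun z => add_nonneg
    (div_nonneg (nb_iter_nonneg _ _ _ hf z) (by positivity))
    (div_nonneg (nb_iter_nonneg _ _ _ hf z) (by positivity))
  have hgt0 : ∀ z, 0 ≤ gt z := fun z => add_nonneg
    (div_nonneg (nb_iter_nonneg _ _ _ hg z) (by positivity))
    (div_nonneg (nb_iter_nonneg _ _ _ hg z) (by positivity))
  obtain ⟨lf, hlf0, hlfs, hlf8, hlf⟩ := h2 m hm2 W f hf hfW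
  obtain ⟨lg, hlg0, hlgs, hlg8, hlg⟩ := h2 m hm2 W g hg hgW
  -- step 1
  have s1 := h1 m hm1 X vmax p hX hv hLX hp hpm hpm1 hchi W f g hf hg hvm
  -- step 2
  have hvf : ∀ y, wt EW p (sm ft) y ≤ vmax := by
    intro y
    rw [xb_wt_sm]
    have h4 : ∀ z, ft z * tau EW p y z ≤ 8 * F / 2 ^ m * tau EW p y z := fun z =>
      mul_le_mul_of_nonneg_right (hlf8 z) (xb_tau_nonneg _ p hp hp1 y z)
    refine (Finset.sum_le_sum fun z _ => h4 z).trans ?_
    rw [← Finset.mul_sum, ← xb_chi_sum]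
    refine le_trans ?_ hvm2
    rw [mul_comm]
    exact mul_le_mul_of_nonneg_right (hchiW y) (by positivity)
  have s2 := h1 m hm1 X vmax p hX hv hLX hp hpm hpm1 hchi W g ft hg hft0 hvf
  -- step 3
  have s3 := flat_low (cubeE m) W p X hp hp1 hchiW ft gt lf lg hft0 hgt0 hlf0 hlg0 Af Ag hAf0 hAg0
    (fun z hz => by rw [hAf]; exact hlf z hz) (fun z hz => by rw [hAg]; exact hlg z hz)
  rw [← hEW] at s1 s2 s3
  have s1' : (∑ y, ft y * wt EW p (sm g) y) / 4 - err * F ≤ ∑ y, f y * wt EW p (sm g) y := s1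
  have s2' : (∑ y, gt y * wt EW p (sm ft) y) / 4 - err * G ≤ ∑ y, g y * wt EW p (sm ft) y := s2
  have s4 : ∑ y, ft y * wt EW p (sm g) y = ∑ y, g y * wt EW p (sm ft) y := pair_sym EW p ft g
  have s5 : ∑ z ∈ univ.filter (fun z => z ∉ W), chi EW p z = ∑ z, ind (z ∉ W) * chi EW p z := by
    rw [Finset.sum_filter]
    refine Finset.sum_congr rfl fun z _ => ?_
    by_cases hz : z ∉ W
    · rw [if_pos hz, walk_ind_pos _ hz, one_mul]
    · rw [if_neg hz, walk_ind_neg _ hz, zero_mul]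
  rw [s5]
  have s6 : X * (Af * (∑ z, lg z) + Ag * (∑ z, lf z)) ≤
      12 * TN m * W.card * X * (Af * G + Ag * F) / 2 ^ m := by
    have t1 := mul_le_mul_of_nonneg_left hlgs hAf0
    have t2 := mul_le_mul_of_nonneg_left hlfs hAg0
    have t3 := mul_le_mul_of_nonneg_left (add_le_add t1 t2) (by linarith : (0 : ℝ) ≤ X)
    refine t3.trans (le_of_eq ?_)
    ring
  have s7 : LL 30000 m * X ^ 2 * vmax * (F + G) / 2 ^ m = err * (F + G) := by
    rw [herr]; ring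
  rw [s7]
  have s8 := mul_nonneg herr0 hG0
  nlinarith

end Pool.Agent.Work.MP_b7dc8a_pr
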