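import Pool.Agent.Work.MP_b7dc8a_pr.F.FlowH
import Pool.Agent.Work.MP_b7dc8a_pr.F.Flowa

/-! Part of FLOW. -/

namespace Pool.Agent.Work.MP_b7dc8a_pr

open Finset

/-- both escape terms are large -/
theorem fl_esc : ∃ m0 : ℕ, ∀ m ≥ m0, ∀ X p c0 c8 Cz e a: ℝ, 1 ≤ X → 1 ≤ Cz → 0 < c8 →
    0 < c0 → 0 < e → X * e = a → Cz * a = 1 / 16 → 1 ≤ e ^ 3 * 2 ^ m → a ≤ 1 →
    LL 30000 m * X ^ 2 ≤ 2 ^ m → 0 ≤ p → p ≤ 1 → p * m ≤ 1 + 5000 * dl m →
    1 - 1 / (m : ℝ) ^ 2 ≤ p * ((m : ℝ) - 1) → (∀ x, chi (cubeE m) p x = X) →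
    3 * TN m * Cz * e + 2 * (LL 30000 m * (48 + 200 * Cz) * e) / c8 ≤ c0 ^ 2 / 600 →
    ∀ (W S T : Finset (Q m)) (f g : Q m → ℝ), (∀ z, 0 ≤ f z) → (∀ z, 0 ≤ g z) →
    (∀ z ∈ W, f z = 0) → (∀ z ∈ W, g z = 0) →
    (∀ y, wt (offE (cubeE m) W) p (sm g) y ≤ (48 + 200 * Cz) * m) →
    ∑ z, f z ≤ m * S.card → ∑ z, g z ≤ m * T.card →
    c8 * e * 2 ^ m ≤ S.card →
    c8 * e * 2 ^ m ≤ T.card → (S.card : ℝ) ≤ Cz * e * 2 ^ m → (T.card : ℝ) ≤ Cz * e * 2 ^ m →
    (W.card : ℝ) ≤ 2 * Cz * e * 2 ^ m →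
    c0 / 3 * m * S.card ≤ ∑ y, f y * esc m W y → c0 / 3 * m * T.card ≤ ∑ y, g y * esc m W y →
    c0 ^ 2 / 600 * (m : ℝ) ^ 2 * S.card * T.card * X / 2 ^ m ≤
      ∑ y, f y * wt (offE (cubeE m) W) p (sm g) y := by
  classical
  obtain ⟨m1, h1⟩ := flowa
  refine ⟨max m1 1, fun m hm X p c0 c8 Cz e a hX hCz hc8 hc0 he hXe hCza hew ha1 hLX hp hp1 hpm hpm1
    hchi hnum W S T f g hf hg hfW hgW hvm hF hG hS8 hT8 hSz hTz hWz hef heg => ?_⟩
  have hm1 : 1 ≤ m := (le_max_right _ _).trans hm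
  have hm0 : (0 : ℝ) < m := by exact_mod_cast hm1
  have hV : (0 : ℝ) < 2 ^ m := by positivity
  set V : ℝ := 2 ^ m with hVdef
  have ha0 : 0 < a := by rw [← hXe]; positivity
  have hS0 : (0 : ℝ) ≤ S.card := Nat.cast_nonneg _
  have hT0 : (0 : ℝ) ≤ T.card := Nat.cast_nonneg _
  have hW0 : (0 : ℝ) ≤ W.card := Nat.cast_nonneg _
  have hF0 : 0 ≤ ∑ z, f z := Finset.sum_nonneg fun z _ => hf z
  have hG0 : 0 ≤ ∑ z, g z := Finset.sum_nonneg fun z _ => hg z
  have hX0 : 0 < X := by linarith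
  have hvm2 : X * (8 * (∑ z, f z) / V) ≤ (48 + 200 * Cz) * m := by
    have h2 : (∑ z, f z) / V ≤ m * (Cz * e) := by
      rw [div_le_iff₀ hV]
      have := mul_le_mul_of_nonneg_left hSz hm0.le
      linarith
    have h3 : X * (8 * (∑ z, f z) / V) = 8 * X * ((∑ z, f z) / V) := by ring
    rw [h3]
    have h4 := mul_le_mul_of_nonneg_left h2 (by positivity : (0 : ℝ) ≤ 8 * X)
    have h5 : 8 * X * (m * (Cz * e)) = 8 * m * (Cz * (X * e)) := by ring
    rw [h5, hXe, hCza] at h4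
    have h6 := mul_le_mul_of_nonneg_right hCz hm0.le
    linarith
  have h2 := h1 m ((le_max_left _ _).trans hm) X ((48 + 200 * Cz) * m) p hX (by positivity) hLX hp
    hpm hpm1 (fun x => (hchi x).le) W f g hf hg hfW hgW hvm hvm2 _ _ rfl rfl
  refine le_trans ?_ h2
  have hchiW : V * X / 2 ≤ ∑ z ∈ univ.filter (fun z => z ∉ W), chi (offE (cubeE m) W) p z := by
    have hcard : (Fintype.card (Q m) : ℝ) = V := by
      simp [hVdef]
    have h3 := chi_low (cubeE m) p X hp hp1 hX hchi W (by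
      rw [hcard]
      have h4 := mul_le_mul_of_nonneg_right hWz hX0.le
      have h5 : 2 * Cz * e * V * X = 2 * V * (Cz * (X * e)) := by ring
      rw [h5, hXe, hCza] at h4
      linarith)
    rw [hcard] at h3
    refine h3.trans (le_of_eq ?_)
    rw [Finset.sum_filter]
    refine Finset.sum_congr rfl fun z _ => ?_
    by_cases hz : z ∉ W
    · rw [if_pos hz, walk_ind_pos _ hz, one_mul]
    · rw [if_neg hz, walk_ind_neg _ hz, zero_mul]
  set Af := (∑ y, f y * esc m W y) / V with hAf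
  set Ag := (∑ y, g y * esc m W y) / V with hAg
  have a1 : c0 / 3 * m * S.card / V ≤ Af := div_le_div_of_nonneg_right hef hV.le
  have a2 : c0 / 3 * m * T.card / V ≤ Ag := div_le_div_of_nonneg_right heg hV.le
  have a3 : Af ≤ m * S.card / V := by
    refine div_le_div_of_nonneg_right (le_trans (Finset.sum_le_sum fun y _ => ?_) hF) hV.le
    exact mul_le_of_le_one_right (hf y) (esc_le m hm1 W y)
  have a4 : Ag ≤ m * T.card / V := by
    refine div_le_div_of_nonneg_right (le_trans (Finset.sum_le_sum fun y _ => ?_) hG) hV.le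
    exact mul_le_of_le_one_right (hg y) (esc_le m hm1 W y)
  have p1 : 0 ≤ c0 / 3 * m * S.card / V := by positivity
  have p2 : 0 ≤ c0 / 3 * m * T.card / V := by positivity
  have hAf0 : 0 ≤ Af := p1.trans a1
  have hAg0 : 0 ≤ Ag := p2.trans a2
  -- main term
  have b1 : c0 / 3 * m * S.card / V * (c0 / 3 * m * T.card / V) * (V * X / 2) ≤
      Af * Ag * ∑ z ∈ univ.filter (fun z => z ∉ W), chi (offE (cubeE m) W) p z :=
    mul_le_mul (mul_le_mul a1 a2 p2 hAf0) hchiW (by positivity) (mul_nonneg hAf0 hAg0)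
  -- common unit
  set Z : ℝ := (m : ℝ) ^ 2 * S.card * T.card * X / V with hZ
  have hZ0 : 0 ≤ Z := by positivity
  have b2 : c0 / 3 * m * S.card / V * (c0 / 3 * m * T.card / V) * (V * X / 2) = c0 ^ 2 / 18 * Z := by
    rw [hZ]
    field_simp
    ring
  have b3 : 12 * TN m * W.card * X * (Af * (∑ z, g z) + Ag * (∑ z, f z)) / V ≤
      48 * TN m * Cz * e * Z := by
    have c1 : Af * (∑ z, g z) ≤ m * S.card / V * (m * T.card) :=
      mul_le_mul a3 hG hG0 (by positivity)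
    have c2 : Ag * (∑ z, f z) ≤ m * T.card / V * (m * S.card) :=
      mul_le_mul a4 hF hF0 (by positivity)
    have c3 : Af * (∑ z, g z) + Ag * (∑ z, f z) ≤ 2 * ((m : ℝ) ^ 2 * S.card * T.card / V) := by
      have : m * S.card / V * (m * T.card) + m * T.card / V * (m * S.card) =
        2 * ((m : ℝ) ^ 2 * S.card * T.card / V) := by ring
      linarith
    rw [div_le_iff₀ hV]
    have c4 : 12 * (TN m : ℝ) * W.card * X ≤ 12 * TN m * (2 * Cz * e * V) * X :=
      mul_le_mul_of_nonneg_right (mul_le_mul_of_nonneg_left hWz (by positivity)) hX0.le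
    have c5 := mul_le_mul c4 c3 (add_nonneg (mul_nonneg hAf0 hG0) (mul_nonneg hAg0 hF0))
      (by positivity)
    refine c5.trans (le_of_eq ?_)
    rw [hZ]
    field_simp
    ring
  have b4 : LL 30000 m * X ^ 2 * ((48 + 200 * Cz) * m) * ((∑ z, f z) + (∑ z, g z)) / V ≤
      2 * (LL 30000 m * (48 + 200 * Cz) * e) / c8 * Z := by
    have hL0 := xn_LL_pos 30000 m
    have c1 : (∑ z, f z) + (∑ z, g z) ≤ m * (S.card + T.card) := by linarith
    have c2 : (S.card : ℝ) + T.card ≤ 2 * (S.card * T.card) / (c8 * e * V) := by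
      rw [le_div_iff₀ (by positivity)]
      have d1 := mul_le_mul_of_nonneg_right hS8 hT0
      have d2 := mul_le_mul_of_nonneg_right hT8 hS0
      linarith
    have c3 : m * ((S.card : ℝ) + T.card) ≤ m * (2 * (S.card * T.card) / (c8 * e * V)) :=
      mul_le_mul_of_nonneg_left c2 hm0.le
    have c4 := mul_le_mul_of_nonneg_left (c1.trans c3)
      (by positivity : (0 : ℝ) ≤ LL 30000 m * X ^ 2 * ((48 + 200 * Cz) * m) / V)
    have c5 : LL 30000 m * X ^ 2 * ((48 + 200 * Cz) * m) * ((∑ z, f z) + (∑ z, g z)) / V =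
        LL 30000 m * X ^ 2 * ((48 + 200 * Cz) * m) / V * ((∑ z, f z) + (∑ z, g z)) := by ring
    rw [c5]
    refine c4.trans ?_
    have c6 : LL 30000 m * X ^ 2 * ((48 + 200 * Cz) * m) / V *
        (m * (2 * (S.card * T.card) / (c8 * e * V))) =
        2 * (LL 30000 m * (48 + 200 * Cz)) / c8 * Z * (X / (e * V)) := by
      rw [hZ]
      field_simp
    have c7 : X / (e * V) ≤ e := by
      rw [div_le_iff₀ (by positivity)]
      have : X * e ^ 1 ≤ (e * (e * V)) * e := by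
        rw [pow_one, hXe]
        linarith
      exact le_of_mul_le_mul_right (by rwa [pow_one] at this) he
    rw [c6]
    have c8' := mul_le_mul_of_nonneg_left c7
      (by positivity : (0 : ℝ) ≤ 2 * (LL 30000 m * (48 + 200 * Cz)) / c8 * Z)
    refine c8'.trans (le_of_eq ?_)
    ring
  have b5 : c0 ^ 2 / 600 * (m : ℝ) ^ 2 * S.card * T.card * X / V = c0 ^ 2 / 600 * Z := by
    rw [hZ]; ring
  rw [b5]
  have b6 := mul_le_mul_of_nonneg_right hnum hZ0
  have b7 : c0 ^ 2 / 600 * Z + c0 ^ 2 / 600 * Z ≤ c0 ^ 2 / 18 * Z / 16 := by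
    have : 0 ≤ c0 ^ 2 * Z := by positivity
    linarith
  linarith

end Pool.Agent.Work.MP_b7dc8a_pr
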