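import Pool.Agent.Work.MP_b7dc8a_pr.F.Nbtwo
import Pool.Agent.Work.MP_b7dc8a_pr.F.Nbfour

/-! Module NBSUP (M): bound for `v = wt E p (sm g)`, `E = offE (cubeE m) W`, when `g z` is at most the
number of neighbours of `z` in `W` (`gT W z`).

Let `T = TN m`, `u = (1 - 1/T)/(m-1)`, `D x = nb E (fun _ => 1) x`; for `x ∉ W`: `D x = m - a x` with
`a x = gT W x`. `Γ_n x = ∑_y na E n x y g y`, `S x = ∑_{n<T} u^n Γ_n x` for `x ∉ W`. By `na_one, na_two,
na_rec`: `nb E Γ_0 = Γ_1`, `nb E Γ_1 = Γ_2 + D Γ_0`, `nb E Γ_n = Γ_{n+1} + (D-1) Γ_{n-1}` (`n >= 2`). Hence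
`u nb E S = (S - g + u^T Γ_T) + u^2 D g + (D-1) u^2 (S - g - u^(T-1) Γ_{T-1})`, i.e.
`S (1 + (D-1) u^2) <= u nb E S + g + (D-1) u^(T+1) Γ_{T-1}`
(the coefficient of `g` is `1 - u^2 D + (D-1) u^2 <= 1`; if `D x = 0` then `Γ_n x = 0` for `n >= 1` and
`S x = g x <= m` directly). Let `M = max_{x ∉ W} S x`, attained at `x`, `D x >= 1`; `nb E S x <= D x M`, so
`M (1 + (D-1) u^2 - u D) <= g x + u τ`, `τ = max_x u^(T-1) Γ_{T-1} x <= (4/2^m) ∑ g` (`nb_four`,
`na_mono_E`, `u (m-1) <= 1`). Since `D = m - a`: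
`1 + (D-1) u^2 - u D = (1-u)(1 - (m-1) u) + a u (1-u) >= (1/2) (1/T + a/(2m))` for large `m`.
As `g x <= a x`: if `a x >= 1`, `M <= 4m + 2 T u τ`; if `a x = 0`, `M <= 2 T u τ`. So
`M <= 4 m + 2 T u τ <= 4 m + (8 T/2^m) ∑ g`.
Now `nb_two` with `T` (multiply by `g y` and sum over `y`; `xb_wt_sm`): for `x ∉ W`
`v x <= ∑_{i<T} p^i Γ_i x + p^T ∑_z na E T x z v z`. `p^i <= (1+1/T)^i (m-1)^(-i) <= 12 u^i` for
`i <= T` (`((1+1/T)/(1-1/T))^T <= 12` for large `T`), `p^T na E T x z <= 3 * 4/2^m`,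
`∑_z v z = ∑_y g y chi E p y <= X ∑ g`. So `v x <= 12 M + 12 X (∑ g)/2^m
<= 48 m + 100 (TN m + X) (∑ g)/2^m`. -/

namespace Pool.Agent.Work.MP_b7dc8a_pr

open Finset

section
variable {V : Type} [Fintype V] [DecidableEq V]

private noncomputable def gam (E : Finset (Sym2 V)) (g : V → ℝ) (n : ℕ) (x : V) : ℝ :=
  ∑ y, na E n x y * g y

omit [DecidableEq V] in
private theorem ns_swap (E : Finset (Sym2 V)) (F : V → V → ℝ) (g : V → ℝ) (x : V) :
    nb E (fun z => ∑ y, F z y * g y) x = ∑ y, nb E (fun z => F z y) x * g y := by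
  simp only [walk_nb_ind, Finset.mul_sum, Finset.sum_mul]
  rw [Finset.sum_comm]
  refine Finset.sum_congr rfl fun y _ => Finset.sum_congr rfl fun z _ => ?_
  ring

private theorem gam0 (E : Finset (Sym2 V)) (g : V → ℝ) (x : V) :
    nb E (gam E g 0) x = gam E g 1 x := by
  unfold gam
  rw [ns_swap]
  refine Finset.sum_congr rfl fun y _ => ?_
  rw [na_one]
  simp only [na_zero]

private theorem gam1 (E : Finset (Sym2 V)) (g : V → ℝ) (x : V) :
    nb E (gam E g 1) x = gam E g 2 x + nb E (fun _ => 1) x * gam E g 0 x := by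
  unfold gam
  rw [ns_swap, Finset.mul_sum, ← Finset.sum_add_distrib]
  refine Finset.sum_congr rfl fun y _ => ?_
  rw [na_two, na_zero]
  split_ifs <;> ring

private theorem gamr (E : Finset (Sym2 V)) (g : V → ℝ) (n : ℕ) (x : V) :
    nb E (gam E g (n + 2)) x = gam E g (n + 3) x +
      (nb E (fun _ => 1) x - 1) * gam E g (n + 1) x := by
  unfold gam
  rw [ns_swap, Finset.mul_sum, ← Finset.sum_add_distrib]
  refine Finset.sum_congr rfl fun y _ => ?_
  rw [na_rec]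
  ring

private theorem gam_nonneg (E : Finset (Sym2 V)) (g : V → ℝ) (hg : ∀ z, 0 ≤ g z) (n : ℕ) (x : V) :
    0 ≤ gam E g n x :=
  Finset.sum_nonneg fun y _ => mul_nonneg (na_nonneg _ _ _ _) (hg y)

private theorem gam_zero (E : Finset (Sym2 V)) (g : V → ℝ) (x : V) : gam E g 0 x = g x := by
  unfold gam
  simp only [na_zero]
  simp

/-- the Green function identity -/
private theorem gam_green (E : Finset (Sym2 V)) (g : V → ℝ) (u : ℝ) (x : V) (T : ℕ) :
    u * nb E (fun z => ∑ n ∈ range (T + 2), u ^ n * gam E g n z) x =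
      (∑ n ∈ range (T + 2), u ^ n * gam E g n x + u ^ (T + 2) * gam E g (T + 2) x - gam E g 0 x) +
      u ^ 2 * nb E (fun _ => 1) x * gam E g 0 x +
      (nb E (fun _ => 1) x - 1) * u ^ 2 * (∑ n ∈ range (T + 2), u ^ n * gam E g n x - gam E g 0 x -
        u ^ (T + 1) * gam E g (T + 1) x) := by
  have h1 : ∀ n, nb E (fun z => u ^ n * gam E g n z) x = u ^ n * nb E (gam E g n) x :=
    fun n => nb_iter_smul E 1 (u ^ n) (gam E g n) x
  have h2 : ∀ T, nb E (fun z => ∑ n ∈ range T, u ^ n * gam E g n z) x =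
      ∑ n ∈ range T, u ^ n * nb E (gam E g n) x := by
    intro T
    have h3 := nb_iter_sum E 1 (range T) (fun n z => u ^ n * gam E g n z) x
    refine h3.trans (Finset.sum_congr rfl fun n _ => h1 n)
  rw [h2]
  induction T with
  | zero =>
    rw [Finset.sum_range_succ, Finset.sum_range_succ, Finset.sum_range_zero,
      Finset.sum_range_succ, Finset.sum_range_succ, Finset.sum_range_zero, gam0, zero_add, gam1]
    ring
  | succ T ih =>
    rw [Finset.sum_range_succ, mul_add, ih, Finset.sum_range_succ _ (T + 2), gamr]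
    ring

end

private theorem ns_gT (m : ℕ) (W : Finset (Q m)) (y : Q m) :
    gT W y = ∑ z, ind (s(y, z) ∈ cubeE m ∧ z ∈ W) := by
  classical
  have h : ∀ z, ind (s(y, z) ∈ cubeE m ∧ z ∈ W) =
      if s(y, z) ∈ cubeE m ∧ z ∈ W then (1 : ℝ) else 0 := by
    intro z
    unfold ind
    congr
  simp only [h]
  rw [Finset.sum_boole]
  unfold gT
  congr 2
  ext z
  simp only [Finset.mem_filter, Finset.mem_univ, true_and]
  tauto

/-- the maximum principle -/
private theorem ns_max (m : ℕ) (hm : 3 ≤ m) (W : Finset (Q m)) (g : Q m → ℝ) (T : ℕ) (hT : 2 ≤ T)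
    (u τ : ℝ) (hu : u * ((m : ℝ) - 1) = 1 - 1 / T) (hτ0 : 0 ≤ τ)
    (hτ : ∀ x, u ^ (T - 1) * gam (offE (cubeE m) W) g (T - 1) x ≤ τ)
    (hg : ∀ z, 0 ≤ g z ∧ g z ≤ gT W z) (x : Q m) (hx : x ∉ W) :
    ∑ n ∈ range T, u ^ n * gam (offE (cubeE m) W) g n x ≤ 4 * m + 2 * T * τ := by
  classical
  set E := offE (cubeE m) W with hE
  set S : Q m → ℝ := fun z => ∑ n ∈ range T, u ^ n * gam E g n z with hS
  have hm3 : (3 : ℝ) ≤ m := by exact_mod_cast hm
  have hT2 : (2 : ℝ) ≤ T := by exact_mod_cast hT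
  have hT0 : (0 : ℝ) < T := by linarith
  have hM : (0 : ℝ) < (m : ℝ) - 1 := by linarith
  have hTi : 1 / (T : ℝ) ≤ 1 / 2 := one_div_le_one_div_of_le (by norm_num) hT2
  have hTi0 : 0 < 1 / (T : ℝ) := by positivity
  have hu' : u = (1 - 1 / T) / ((m : ℝ) - 1) := by
    rw [eq_div_iff hM.ne']; exact hu
  have hu0 : 0 ≤ u := by
    rw [hu']
    exact div_nonneg (by linarith) hM.le
  have hu2 : u ≤ 1 / 2 := by
    rw [hu', div_le_iff₀ hM]
    linarith
  have hum : 1 / (2 * (m : ℝ)) ≤ u := by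
    rw [hu', div_le_div_iff₀ (by positivity) hM]
    nlinarith
  -- the point where the maximum is attained
  obtain ⟨y, hy, hmax⟩ := Finset.exists_max_image (univ.filter fun z => z ∉ W) S
    ⟨x, by simpa using hx⟩
  have hyW : y ∉ W := by simpa using hy
  have hxy : S x ≤ S y := hmax x (by simpa using hx)
  refine hxy.trans ?_
  obtain ⟨T', rfl⟩ : ∃ T', T = T' + 2 := ⟨T - 2, by omega⟩
  have hid := gam_green E g u y T'
  have hS' : ∀ z, (∑ n ∈ range (T' + 2), u ^ n * gam E g n z) = S z := fun z => rfl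
  have hS'' : nb E (fun z => ∑ n ∈ range (T' + 2), u ^ n * gam E g n z) y = nb E S y := rfl
  rw [hS'', hS'] at hid
  set D : ℝ := nb E (fun _ => 1) y with hD
  -- degree
  have hDa : D + gT W y = m := by
    rw [hD, ← nb_cube_one m y, walk_nb_ind, walk_nb_ind]
    have h1 : gT W y = ∑ z, ind (s(y, z) ∈ cubeE m ∧ z ∈ W) := ns_gT m W y
    rw [h1, ← Finset.sum_add_distrib]
    refine Finset.sum_congr rfl fun z _ => ?_
    have h3 : s(y, z) ∈ E ↔ s(y, z) ∈ cubeE m ∧ y ∉ W ∧ z ∉ W := xb_mem_offE _ _ _ _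
    by_cases hc : s(y, z) ∈ cubeE m
    · by_cases hz : z ∈ W
      · rw [walk_ind_neg (s(y, z) ∈ E) (by rw [h3]; tauto), walk_ind_pos _ ⟨hc, hz⟩, walk_ind_pos _ hc]
        ring
      · rw [walk_ind_pos (s(y, z) ∈ E) (by rw [h3]; tauto), walk_ind_neg (_ ∧ _) (by tauto),
          walk_ind_pos _ hc]
        ring
    · rw [walk_ind_neg (s(y, z) ∈ E) (by rw [h3]; tauto), walk_ind_neg (_ ∧ _) (by tauto),
        walk_ind_neg _ hc]
      ring
  have ha0 : 0 ≤ gT W y := by unfold gT; positivity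
  have hD0 : 0 ≤ D := by
    rw [hD, walk_nb_ind]
    exact Finset.sum_nonneg fun z _ => mul_nonneg (walk_ind_nonneg _) zero_le_one
  have hSy0 : 0 ≤ S y := Finset.sum_nonneg fun n _ =>
    mul_nonneg (pow_nonneg hu0 n) (gam_nonneg E g (fun z => (hg z).1) n y)
  -- neighbours
  have hnb : nb E S y ≤ D * S y := by
    rw [hD, walk_nb_ind, walk_nb_ind, Finset.sum_mul]
    refine Finset.sum_le_sum fun z _ => ?_
    rw [mul_one]
    by_cases hz : s(y, z) ∈ E
    · have h3 := ((xb_mem_offE _ _ _ _).1 hz).2.2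
      exact mul_le_mul_of_nonneg_left (hmax z (by simpa using h3)) (walk_ind_nonneg _)
    · rw [walk_ind_neg _ hz, zero_mul, zero_mul]
  have hΓ := gam_nonneg E g (fun z => (hg z).1) (T' + 1) y
  have hΓ2 := gam_nonneg E g (fun z => (hg z).1) (T' + 2) y
  have hτy := hτ y
  rw [show T' + 2 - 1 = T' + 1 from rfl] at hτy
  rw [gam_zero] at hid
  have hgy := hg y
  -- last term
  have hlast : (D - 1) * u ^ 2 * (u ^ (T' + 1) * gam E g (T' + 1) y) ≤ u * τ := by
    have h5 : 0 ≤ u ^ (T' + 1) * gam E g (T' + 1) y := mul_nonneg (pow_nonneg hu0 _) hΓ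
    have h6 : (D - 1) * u ^ 2 ≤ u := by
      have h7 : D - 1 ≤ (m : ℝ) - 1 := by linarith
      have h8 : (D - 1) * u ≤ 1 := by
        calc (D - 1) * u ≤ ((m : ℝ) - 1) * u := mul_le_mul_of_nonneg_right h7 hu0
          _ = 1 - 1 / ((T' + 2 : ℕ) : ℝ) := by rw [mul_comm]; exact hu
          _ ≤ 1 := by linarith
      calc (D - 1) * u ^ 2 = (D - 1) * u * u := by ring
        _ ≤ 1 * u := mul_le_mul_of_nonneg_right h8 hu0
        _ = u := one_mul u
    calc (D - 1) * u ^ 2 * (u ^ (T' + 1) * gam E g (T' + 1) y)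
        ≤ u * (u ^ (T' + 1) * gam E g (T' + 1) y) := mul_le_mul_of_nonneg_right h6 h5
      _ ≤ u * τ := mul_le_mul_of_nonneg_left hτy hu0
  have hT'' : 0 ≤ u ^ (T' + 2) * gam E g (T' + 2) y := mul_nonneg (pow_nonneg hu0 _) hΓ2
  have hineq : S y * (1 + (D - 1) * u ^ 2) ≤ u * (D * S y) + g y + u * τ := by
    have h9 := mul_le_mul_of_nonneg_left hnb hu0
    have h10 : S y * (1 + (D - 1) * u ^ 2) = u * nb E S y + g y * (1 - u ^ 2) -
        u ^ (T' + 2) * gam E g (T' + 2) y + (D - 1) * u ^ 2 * (u ^ (T' + 1) * gam E g (T' + 1) y) := by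
      rw [hid]; ring
    rw [h10]
    have h11 : g y * (1 - u ^ 2) ≤ g y := by nlinarith [sq_nonneg u, hgy.1]
    linarith
  have hkey : S y * ((1 - u) * (1 / ((T' + 2 : ℕ) : ℝ) + gT W y * u)) ≤ g y + u * τ := by
    have h12 : (1 - u) * (1 / ((T' + 2 : ℕ) : ℝ) + gT W y * u) = 1 + (D - 1) * u ^ 2 - u * D := by
      have h13 : 1 / ((T' + 2 : ℕ) : ℝ) = 1 - u * ((m : ℝ) - 1) := by rw [hu]; ring
      rw [h13, ← hDa]
      ring
    rw [h12]
    nlinarith
  by_contra hcon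
  push Not at hcon
  set t : ℝ := 1 / ((T' + 2 : ℕ) : ℝ) with ht
  have htT : ((T' + 2 : ℕ) : ℝ) * t = 1 := by rw [ht]; field_simp
  have h14 : (1 / 2) * (t + gT W y * (1 / (2 * m))) ≤ (1 - u) * (t + gT W y * u) := by
    have h15 : t + gT W y * (1 / (2 * m)) ≤ t + gT W y * u := by
      have := mul_le_mul_of_nonneg_left hum ha0
      linarith
    have h16 : 0 ≤ t + gT W y * (1 / (2 * m)) := by
      have : 0 ≤ gT W y * (1 / (2 * (m : ℝ))) := mul_nonneg ha0 (by positivity)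
      linarith
    exact mul_le_mul (by linarith) h15 h16 (by linarith)
  have h17 : S y * ((1 / 2) * (t + gT W y * (1 / (2 * m)))) ≤ g y + u * τ :=
    (mul_le_mul_of_nonneg_left h14 hSy0).trans hkey
  have h19 : (4 * (m : ℝ) + 2 * ((T' + 2 : ℕ) : ℝ) * τ) * ((1 / 2) * (t + gT W y * (1 / (2 * m)))) ≤
      S y * ((1 / 2) * (t + gT W y * (1 / (2 * m)))) :=
    mul_le_mul_of_nonneg_right hcon.le (by
      have : 0 ≤ gT W y * (1 / (2 * (m : ℝ))) := mul_nonneg ha0 (by positivity)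
      linarith)
  have hmm : (m : ℝ) * (1 / (2 * m)) = 1 / 2 := by field_simp
  have h20 : (4 * (m : ℝ) + 2 * ((T' + 2 : ℕ) : ℝ) * τ) * ((1 / 2) * (t + gT W y * (1 / (2 * m)))) =
      2 * m * t + gT W y * 2 * ((m : ℝ) * (1 / (2 * m))) + (((T' + 2 : ℕ) : ℝ) * t) * τ +
      ((T' + 2 : ℕ) : ℝ) * τ * (gT W y * (1 / (2 * m))) := by ring
  rw [h20, hmm, htT] at h19
  have h21 : 0 ≤ ((T' + 2 : ℕ) : ℝ) * τ * (gT W y * (1 / (2 * m))) :=
    mul_nonneg (mul_nonneg hT0.le hτ0) (mul_nonneg ha0 (by positivity))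
  have h22 : 0 < 2 * (m : ℝ) * t := by positivity
  have h23 : u * τ ≤ τ := by nlinarith
  linarith [hgy.2]

theorem nb_sup : ∃ m0 : ℕ, ∀ m ≥ m0, ∀ (W : Finset (Q m)) (p X : ℝ) (g : Q m → ℝ), 0 ≤ p →
    p * ((m : ℝ) - 1) ≤ 1 + 1 / TN m → (∀ x, chi (offE (cubeE m) W) p x ≤ X) →
    (∀ z, 0 ≤ g z ∧ g z ≤ gT W z) → ∀ y, y ∉ W →
    wt (offE (cubeE m) W) p (sm g) y ≤ 48 * m + 100 * (TN m + X) * (∑ z, g z) / 2 ^ m := by
  obtain ⟨m2, h2⟩ := nb_four
  refine ⟨max 3 m2, fun m hm W p X g h0 hp hX hg x hxW => ?_⟩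
  have hm3 : 3 ≤ m := (le_max_left _ _).trans hm
  have h4 := h2 m ((le_max_right _ _).trans hm)
  have hm3' : (3 : ℝ) ≤ m := by exact_mod_cast hm3
  have hlog := xn_log m hm3
  have hTT := (xn_TT m (by omega)).1
  have hTT3 : (3 : ℝ) ≤ TT m := by nlinarith
  have hTT3' : 3 ≤ TT m := by exact_mod_cast hTT3
  have hT12 : 12 ≤ TN m := by unfold TN; omega
  have hT12' : (12 : ℝ) ≤ TN m := by exact_mod_cast hT12
  have hT0 : (0 : ℝ) < TN m := by linarith
  have hinv : 1 / (TN m : ℝ) ≤ 1 / 12 := one_div_le_one_div_of_le (by norm_num) hT12'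
  have hinv0 : 0 < 1 / (TN m : ℝ) := by positivity
  have hM : (0 : ℝ) < (m : ℝ) - 1 := by linarith
  have hp1 : p ≤ 1 := by
    by_contra h
    push Not at h
    nlinarith
  set E := offE (cubeE m) W with hE
  have hEs : E ⊆ cubeE m := xb_offE_subset _ _
  have hdiag : ∀ e ∈ E, ¬ e.IsDiag := by
    intro e he
    exact SimpleGraph.not_isDiag_of_mem_edgeFinset (hEs he)
  set u : ℝ := (1 - 1 / TN m) / ((m : ℝ) - 1) with hu
  have hu0 : 0 < u := div_pos (by linarith) hM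
  have huM : u * ((m : ℝ) - 1) = 1 - 1 / TN m := by
    rw [hu]; field_simp
  have hpu : p ≤ (1 + 1 / TN m) / (1 - 1 / TN m) * u := by
    rw [hu, div_mul_div_cancel₀ (by linarith), le_div_iff₀ hM]
    exact hp
  -- powers
  have hq : ((1 + 1 / (TN m : ℝ)) / (1 - 1 / TN m)) ^ TN m ≤ 12 := by
    have h5 : (1 + 1 / (TN m : ℝ)) / (1 - 1 / TN m) ≤ Real.exp (2.2 / TN m) := by
      have h6 : (1 + 1 / (TN m : ℝ)) / (1 - 1 / TN m) ≤ 1 + 2.2 / TN m := by
        rw [div_le_iff₀ (by linarith)]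
        have h7 : (2.2 : ℝ) / TN m = 2.2 * (1 / TN m) := by ring
        rw [h7]
        nlinarith
      have := Real.add_one_le_exp (2.2 / (TN m : ℝ))
      linarith
    have h8 : ((1 + 1 / (TN m : ℝ)) / (1 - 1 / TN m)) ^ TN m ≤ Real.exp 2.2 := by
      refine (pow_le_pow_left₀ (div_nonneg (by linarith) (by linarith)) h5 _).trans (le_of_eq ?_)
      rw [← Real.exp_nat_mul]
      congr 1
      field_simp
    refine h8.trans ?_
    have h9 : (2.2 : ℝ) = 1 + 1 + 0.2 := by norm_num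
    rw [h9, Real.exp_add, Real.exp_add]
    have h10 := Real.exp_one_lt_d9
    have h11 : Real.exp 0.2 ≤ 1.25 := by
      have h12 := Real.add_one_le_exp (-(0.2 : ℝ))
      have h13 : Real.exp (-(0.2 : ℝ)) * Real.exp 0.2 = 1 := by
        rw [← Real.exp_add]; simp
      have h14 := Real.exp_pos (0.2 : ℝ)
      nlinarith
    have h15 := Real.exp_pos (1 : ℝ)
    have h16 := Real.exp_pos (0.2 : ℝ)
    have h17 : Real.exp 1 * Real.exp 1 ≤ 2.7182818286 * 2.7182818286 :=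
      mul_le_mul h10.le h10.le h15.le (by norm_num)
    calc Real.exp 1 * Real.exp 1 * Real.exp 0.2 ≤ 2.7182818286 * 2.7182818286 * 1.25 :=
          mul_le_mul h17 h11 h16.le (by norm_num)
      _ ≤ 12 := by norm_num
  have hq1 : 1 ≤ (1 + 1 / (TN m : ℝ)) / (1 - 1 / TN m) := by
    rw [le_div_iff₀ (by linarith)]
    linarith
  have hpow : ∀ i ≤ TN m, p ^ i ≤ 12 * u ^ i := by
    intro i hi
    have h5 := pow_le_pow_left₀ h0 hpu i
    rw [mul_pow] at h5
    have h6 := pow_le_pow_right₀ hq1 hi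
    exact h5.trans (mul_le_mul_of_nonneg_right (h6.trans hq) (pow_nonneg hu0.le i))
  have hpowT : p ^ TN m * ((m : ℝ) - 1) ^ TN m ≤ 3 := by
    rw [← mul_pow]
    refine (pow_le_pow_left₀ (mul_nonneg h0 hM.le) hp _).trans ?_
    have h7 : (1 + 1 / (TN m : ℝ)) ^ TN m ≤ Real.exp 1 := by
      have h8 : 1 + 1 / (TN m : ℝ) ≤ Real.exp (1 / TN m) := by
        have := Real.add_one_le_exp (1 / (TN m : ℝ))
        linarith
      refine (pow_le_pow_left₀ (by positivity) h8 _).trans (le_of_eq ?_)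
      rw [← Real.exp_nat_mul]
      congr 1
      field_simp
    have h9 := Real.exp_one_lt_d9
    linarith
  have hG0 : 0 ≤ ∑ z, g z := Finset.sum_nonneg fun z _ => (hg z).1
  -- maximum principle
  have hS := ns_max m hm3 W g (TN m) (by omega) u (4 / 2 ^ m * ∑ z, g z) huM (by positivity) ?_ hg x hxW
  swap
  · intro z
    unfold gam
    rw [Finset.mul_sum, Finset.mul_sum]
    refine Finset.sum_le_sum fun y _ => ?_
    rw [← mul_assoc]
    refine mul_le_mul_of_nonneg_right ?_ (hg y).1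
    have h5 := (na_mono_E (cubeE m) E hEs (TN m - 1) z y).trans (h4 (TN m - 1) (by omega) z y)
    have h6 : u ^ (TN m - 1) * ((m : ℝ) - 1) ^ (TN m - 1) ≤ 1 := by
      rw [← mul_pow, huM]
      exact pow_le_one₀ (by linarith) (by linarith)
    calc u ^ (TN m - 1) * na (offE (cubeE m) W) (TN m - 1) z y
        ≤ u ^ (TN m - 1) * (4 * ((m : ℝ) - 1) ^ (TN m - 1) / 2 ^ m) :=
          mul_le_mul_of_nonneg_left h5 (pow_nonneg hu0.le _)
      _ = 4 / 2 ^ m * (u ^ (TN m - 1) * ((m : ℝ) - 1) ^ (TN m - 1)) := by ring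
      _ ≤ 4 / 2 ^ m * 1 := mul_le_mul_of_nonneg_left h6 (by positivity)
      _ = 4 / 2 ^ m := mul_one _
  rw [xb_wt_sm]
  have hstep : ∑ z, g z * tau E p x z ≤
      ∑ i ∈ range (TN m), p ^ i * gam E g i x +
        ∑ z, (p ^ TN m * na E (TN m) x z) * ∑ y, g y * tau E p z y := by
    have h5 : ∑ z, g z * tau E p x z ≤ ∑ y, g y * (∑ i ∈ range (TN m), p ^ i * na E i x y +
        p ^ TN m * ∑ z, na E (TN m) x z * tau E p z y) :=
      Finset.sum_le_sum fun y _ =>
        mul_le_mul_of_nonneg_left (nb_two E hdiag p h0 hp1 (TN m) x y) (hg y).1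
    refine h5.trans (le_of_eq ?_)
    simp only [mul_add, Finset.sum_add_distrib]
    congr 1
    · unfold gam
      simp only [Finset.mul_sum]
      rw [Finset.sum_comm]
      refine Finset.sum_congr rfl fun i _ => Finset.sum_congr rfl fun y _ => ?_
      ring
    · simp only [Finset.mul_sum]
      rw [Finset.sum_comm]
      refine Finset.sum_congr rfl fun z _ => Finset.sum_congr rfl fun y _ => ?_
      ring
  refine hstep.trans ?_
  have hA : ∑ i ∈ range (TN m), p ^ i * gam E g i x ≤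
      12 * ∑ n ∈ range (TN m), u ^ n * gam E g n x := by
    rw [Finset.mul_sum]
    refine Finset.sum_le_sum fun i hi => ?_
    rw [← mul_assoc]
    exact mul_le_mul_of_nonneg_right (hpow i (Finset.mem_range.mp hi).le)
      (gam_nonneg E g (fun z => (hg z).1) i x)
  have hB : ∑ z, (p ^ TN m * na E (TN m) x z) * ∑ y, g y * tau E p z y ≤
      12 * X * (∑ z, g z) / 2 ^ m := by
    have h5 : ∀ z, (p ^ TN m * na E (TN m) x z) * ∑ y, g y * tau E p z y ≤
        12 / 2 ^ m * ∑ y, g y * tau E p z y := by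
      intro z
      refine mul_le_mul_of_nonneg_right ?_ (Finset.sum_nonneg fun y _ =>
        mul_nonneg (hg y).1 (xb_tau_nonneg E p h0 hp1 z y))
      have h6 := (na_mono_E (cubeE m) E hEs (TN m) x z).trans (h4 (TN m) (by omega) x z)
      calc p ^ TN m * na E (TN m) x z ≤ p ^ TN m * (4 * ((m : ℝ) - 1) ^ TN m / 2 ^ m) :=
            mul_le_mul_of_nonneg_left h6 (pow_nonneg h0 _)
        _ = 4 / 2 ^ m * (p ^ TN m * ((m : ℝ) - 1) ^ TN m) := by ring
        _ ≤ 4 / 2 ^ m * 3 := mul_le_mul_of_nonneg_left hpowT (by positivity)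
        _ = 12 / 2 ^ m := by ring
    refine (Finset.sum_le_sum fun z _ => h5 z).trans ?_
    rw [← Finset.mul_sum, Finset.sum_comm]
    have h6 : ∑ y, ∑ z, g y * tau E p z y ≤ ∑ y, g y * X := by
      refine Finset.sum_le_sum fun y _ => ?_
      rw [← Finset.mul_sum]
      refine mul_le_mul_of_nonneg_left ?_ (hg y).1
      have h7 := hX y
      rw [xb_chi_sum] at h7
      refine (le_of_eq ?_).trans h7
      exact Finset.sum_congr rfl fun z _ => xb_tau_comm E p z y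
    rw [← Finset.sum_mul] at h6
    have h8 := mul_le_mul_of_nonneg_left h6 (show (0 : ℝ) ≤ 12 / 2 ^ m by positivity)
    refine h8.trans (le_of_eq ?_)
    ring
  have hX0 : 0 ≤ X := zero_le_one.trans ((xb_chi_ge_one E p h0 hp1 x).trans (hX x))
  have h12 : (100 : ℝ) * (TN m + X) * (∑ z, g z) / 2 ^ m =
      12 * (2 * TN m * (4 / 2 ^ m * ∑ z, g z)) + 12 * X * (∑ z, g z) / 2 ^ m +
      (4 * TN m + 88 * X) * (∑ z, g z) / 2 ^ m := by ring
  have h13 : (0 : ℝ) ≤ (4 * TN m + 88 * X) * (∑ z, g z) / 2 ^ m := by positivity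
  rw [h12]
  have h14 := mul_le_mul_of_nonneg_left hS (show (0 : ℝ) ≤ 12 by norm_num)
  linarith

end Pool.Agent.Work.MP_b7dc8a_pr
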