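import Pool.Agent.Work.MP_b7dc8a_pr.F.FlowN
import Pool.Agent.Work.MP_b7dc8a_pr.F.Nbsup
import Pool.Agent.Work.MP_b7dc8a_pr.F.Bpm
import Pool.Agent.Work.MP_b7dc8a_pr.F.FlowD
import Pool.Agent.Work.MP_b7dc8a_pr.F.FlowE

/-! Module FLOW (M-L): connection between two large sets `S`, `T`, `W = S ∪ T`.

`V = 2^m`, `X = a/e`, `E_W = offE (cubeE m) W`, `f y = fS (cubeE m) S W y`, `g y = fS (cubeE m) T W y` (so `f = gT S` and
`g = gT T` outside `W`, `0` on `W`), `v_g y = wt E_W ps (sm g) y`, `⟨f, v_g⟩ = ∑ f v_g`.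
Preparation (`m` large): `X >= 1`; `X <= 1/e <= 2^(m/3)`, so `LL 30000 m X^2 <= 2^m`; `bpm_low`: `(X-1) (1 - ps (m-1)) <=
ps m <= 2` and `X - 1 >= 2 m^2` (`e <= 2^(-m/36)`), so `1 - 1/m^2 <= ps (m-1)`; `bpm_up`: `ps (m-1) <= 1 + log^5 m/m^2 <=
1 + 1/TN m`; `|S|, |T| <= Cz e V <= 2^(m - m/40)`; `TN m <= X`; `∑ g <= m |T| <= Cz m e V` (`gT` summed over all vertices is
`m |T|`), `∑ f <= m |S|`; `nb_sup`: for `y ∉ W`: `v_g y <= 48 m + 100 (TN + X) (∑ g)/V <= 48 m + 200 a Cz m`, for `y ∈ W`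
`v_g y = g y = 0`; the same for `v_f`. Put `vmax = (48 + 200 Cz) m` (also `8 X (∑ f)/V <= 8 a Cz m <= vmax`).
`err = LL 30000 m X^2 vmax/2^m`.
`trich` (constant `c0`) for `(S,T)`: since `∑_{s∈S} nb (cubeE m) (1_{∉W} φ) s = ∑_{y∉W} gT S y φ y = ⟨f, φ⟩`:
`c0 m |S| <= D + ⟨f, esc m W⟩ + (1/m) ⟨f, ∑_{i<TN} P^i g⟩`, `D = ∑_{s∈S} gT T s`, `P = nb E_W/m` (for `y ∉ W`
`(nb E_W)^[i] (gT T) y = (nb E_W)^[i] g y`). The same for `(T,S)` with `D = ∑_{t∈T} gT S t` (double counting).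
* If `D >= (c0/3) m |S|`: first alternative. If `D >= (c0/3) m |T|`: then `D >= (c0/3) (c8/Cz) m |S|`.
* If `(1/m) ⟨f, ∑ P^i g⟩ >= (c0/3) m |S|`: `rectl` (`L = TN`, drop the second term): `⟨f, v_g⟩ >= (1/4) ⟨f, ∑ P^i g⟩ -
 err ∑ f >= (c0/12) m^2 |S| - err m |S| >= (c0/24) m^2 |S|` (`err <= c0 m/24` for large `m`), and `|T| X/V <= Cz a`:
 `>= (c0/(24 Cz a)) m^2 |S| |T| X/V`. If `(1/m) ⟨g, ∑ P^i f⟩ >= (c0/3) m |T|`: the same, `⟨g, v_f⟩ = ⟨f, v_g⟩`.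
* Otherwise `⟨f, esc⟩ >= (c0/3) m |S|` and `⟨g, esc⟩ >= (c0/3) m |T|`; `flowa`: `A_f >= (c0/3) m |S|/V`, `A_f <= m |S|/V`, ...;
 `∑_{z∉W} chi E_W ps z >= V X/2`: by `b_obst` (`Θ = card`, `D = W`) `X <= chi E_W z + ∑_{w∈W} tau z w X` for `z ∉ W`, sum:
 `>= (V - |W|) X - |W| X^2`, and `|W| X <= 2 Cz a V <= V/8` for `a = 1/(16 Cz)`, `|W| <= V/8`. So
 `⟨f, v_g⟩ >= (1/16) ((c0^2/9) m^2 |S| |T| X/(2V) - 12 TN 2 Cz e V X 2 m^2 |S| |T|/V^2) - err m (|S| + |T|)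
 >= m^2 |S| |T| (X/V) (c0^2/288 - 3 TN Cz e - 2 LL 30000 m X (48 + 200 Cz)/(c8 e V)) >= (c0^2/600) m^2 |S| |T| X/V`
 for large `m` (`X/(e V) <= 1/(e^2 V) <= 2^(-m/3)`). -/

namespace Pool.Agent.Work.MP_b7dc8a_pr

open Finset

theorem flow (Cz c8 : ℝ) (hCz : 1 ≤ Cz) (hc8 : 0 < c8) : ∃ (a c : ℝ) (m0 : ℕ), 0 < a ∧ a ≤ 1 ∧
    0 < c ∧ ∀ m ≥ m0, ∀ e ps : ℝ, 0 < e → e ≤ (2 : ℝ) ^ (-(m : ℝ) / 36) → 1 ≤ e ^ 3 * 2 ^ m →
    0 ≤ ps → ps * m ≤ 1 + 5000 * dl m → (∀ x, chi (cubeE m) ps x = a / e) →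
    ∀ S T W : Finset (Q m), Disjoint S T → W = S ∪ T → c8 * e * 2 ^ m ≤ S.card →
    c8 * e * 2 ^ m ≤ T.card → (S.card : ℝ) ≤ Cz * e * 2 ^ m → (T.card : ℝ) ≤ Cz * e * 2 ^ m →
    (∀ y, wt (offE (cubeE m) W) ps (sm (fS (cubeE m) T W)) y ≤ (48 + 200 * Cz) * m) ∧
    (∀ y, wt (offE (cubeE m) W) ps (sm (fS (cubeE m) S W)) y ≤ (48 + 200 * Cz) * m) ∧
    (c * m * S.card ≤ ∑ s ∈ S, gT T s ∨
      c * (m : ℝ) ^ 2 * S.card * T.card * (a / e) / 2 ^ m ≤
        ∑ y, fS (cubeE m) S W y * wt (offE (cubeE m) W) ps (sm (fS (cubeE m) T W)) y) := by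
  obtain ⟨c0, m1, hc0, h1⟩ := fl_trich
  obtain ⟨m2, h2⟩ := fl_nums Cz c8 c0 hCz hc8 hc0
  obtain ⟨m3, h3⟩ := fl_direct
  obtain ⟨m4, h4⟩ := fl_esc
  obtain ⟨m5, h5⟩ := nb_sup
  obtain ⟨m6, h6⟩ := bpm_up
  have hCz0 : 0 < Cz := by linarith
  set a : ℝ := 1 / (16 * Cz) with ha
  have ha0 : 0 < a := by positivity
  have ha1 : a ≤ 1 := by
    rw [ha, div_le_one (by positivity)]
    linarith
  have hCza : Cz * a = 1 / 16 := by
    rw [ha]
    field_simp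
  refine ⟨a, min (min (c0 / 3) (c0 / 3 * (c8 / Cz))) (min (c0 / 24) (c0 ^ 2 / 600)),
    max (max (max m1 m2) (max m3 m4)) (max m5 m6), ha0, ha1, by positivity,
    fun m hm e ps he hem hew hp0 hpm hchi S T W hST hW hS8 hT8 hSz hTz => ?_⟩
  simp only [ge_iff_le, max_le_iff] at hm
  obtain ⟨⟨⟨hm1, hm2⟩, hm3, hm4⟩, hm5, hm6⟩ := hm
  set c : ℝ := min (min (c0 / 3) (c0 / 3 * (c8 / Cz))) (min (c0 / 24) (c0 ^ 2 / 600)) with hc
  have hc1 : c ≤ c0 / 3 := (min_le_left _ _).trans (min_le_left _ _)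
  have hc2 : c ≤ c0 / 3 * (c8 / Cz) := (min_le_left _ _).trans (min_le_right _ _)
  have hc3 : c ≤ c0 / 24 := (min_le_right _ _).trans (min_le_left _ _)
  have hc4 : c ≤ c0 ^ 2 / 600 := (min_le_right _ _).trans (min_le_right _ _)
  set X : ℝ := a / e with hX
  obtain ⟨hm8, n1, n2, n3, n4, n5, n6, n7, n8, n9⟩ := h2 m hm2 e a X he hem hew ha hX
  have hmR : (8 : ℝ) ≤ m := by exact_mod_cast hm8
  have hm0 : (0 : ℝ) < m := by linarith
  have hp1 : ps ≤ 1 := by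
    have := mul_le_mul_of_nonneg_left hmR hp0
    linarith
  have hX0 : 0 < X := by rw [hX]; positivity
  have hX1 : 1 ≤ X := by
    have := sq_nonneg (m : ℝ)
    linarith
  have hXe : X * e = a := by rw [hX, div_mul_cancel₀ _ he.ne']
  have hV : (0 : ℝ) < 2 ^ m := by positivity
  set V : ℝ := 2 ^ m with hVd
  -- the parameter
  have q1 : 1 - 1 / (m : ℝ) ^ 2 ≤ ps * ((m : ℝ) - 1) := by
    have h7 := bpm_low m (by omega) ps hp0 hp1 (fun _ => false)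
    rw [hchi] at h7
    by_contra hcon
    push Not at hcon
    have h8 : 1 / (m : ℝ) ^ 2 < 1 - ps * ((m : ℝ) - 1) := by linarith
    have h9 : 2 * (m : ℝ) ^ 2 * (1 / (m : ℝ) ^ 2) < (X - 1) * (1 - ps * ((m : ℝ) - 1)) := by
      have h10 : 0 < 1 / (m : ℝ) ^ 2 := by positivity
      have h11 : 2 * (m : ℝ) ^ 2 * (1 / (m : ℝ) ^ 2) < 2 * (m : ℝ) ^ 2 *
          (1 - ps * ((m : ℝ) - 1)) := mul_lt_mul_of_pos_left h8 (by positivity)
      exact lt_of_lt_of_le h11 (mul_le_mul_of_nonneg_right n2 (by linarith))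
    have h10 : 2 * (m : ℝ) ^ 2 * (1 / (m : ℝ) ^ 2) = 2 := by field_simp
    rw [h10] at h9
    linarith
  have q2 : ps * ((m : ℝ) - 1) ≤ 1 + 1 / TN m := by
    have h7 := h6 m hm6 ps (fun _ => false) hp0 hpm (by rw [hchi]; exact n3)
    linarith
  have hchi' : ∀ x, chi (cubeE m) ps x ≤ X := fun x => (hchi x).le
  -- the sup bounds
  have hSW : S ⊆ W := by rw [hW]; exact subset_union_left
  have hTW : T ⊆ W := by rw [hW]; exact subset_union_right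
  have sup : ∀ T' : Finset (Q m), T' ⊆ W → (T'.card : ℝ) ≤ Cz * e * V →
      ∀ y, wt (offE (cubeE m) W) ps (sm (fS (cubeE m) T' W)) y ≤ (48 + 200 * Cz) * m := by
    intro T' hT' hTz' y
    by_cases hy : y ∈ W
    · have h7 : wt (offE (cubeE m) W) ps (sm (fS (cubeE m) T' W)) y = 0 := by
        unfold wt
        rw [← Ex_const (offE (cubeE m) W) ps 0]
        refine Ex_congr _ _ _ _ fun ω hω => ?_
        rw [xb_cl_off _ ω W hω y hy]
        unfold sm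
        rw [Finset.sum_singleton, fS_on T' W y hy]
      rw [h7]
      positivity
    · have h7 := h5 m hm5 W ps X (fS (cubeE m) T' W) hp0 q2
        (fun x => (xb_chi_mono_E _ _ (xb_offE_subset _ _) ps hp0 hp1 x).trans (hchi' x))
        (fun z => ⟨fS_nn T' W z, (fS_le T' W z).trans (gT_mono T' W hT' z)⟩) y hy
      refine h7.trans ?_
      have h8 := fS_sum T' W
      have h9 : 100 * (TN m + X) * (∑ z, fS (cubeE m) T' W z) / V ≤ 200 * Cz * m := by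
        rw [div_le_iff₀ hV]
        have g1 : (∑ z, fS (cubeE m) T' W z) ≤ m * (Cz * e * V) :=
          h8.trans (mul_le_mul_of_nonneg_left hTz' hm0.le)
        have g2 : 100 * ((TN m : ℝ) + X) ≤ 200 * X := by linarith
        have g3 := mul_le_mul g2 g1 (Finset.sum_nonneg fun z _ => fS_nn T' W z) (by positivity)
        refine g3.trans ?_
        have g4 : 200 * X * (m * (Cz * e * V)) = 200 * m * V * (Cz * (X * e)) := by ring
        rw [g4, hXe, hCza]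
        have g5 : 0 < (m : ℝ) * V := mul_pos hm0 hV
        have g6 := mul_le_mul_of_nonneg_right hCz g5.le
        linarith
      linarith
  have sT := sup T hTW hTz
  have sS := sup S hSW hSz
  refine ⟨sT, sS, ?_⟩
  set f := fS (cubeE m) S W with hf
  set g := fS (cubeE m) T W with hg
  have hf0 : ∀ z, 0 ≤ f z := fS_nn S W
  have hg0 : ∀ z, 0 ≤ g z := fS_nn T W
  have hfW : ∀ z ∈ W, f z = 0 := fS_on S W
  have hgW : ∀ z ∈ W, g z = 0 := fS_on T W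
  have hfs : ∑ z, f z ≤ m * S.card := fS_sum S W
  have hgs : ∑ z, g z ≤ m * T.card := fS_sum T W
  have hS0 : (0 : ℝ) ≤ S.card := Nat.cast_nonneg _
  have hT0 : (0 : ℝ) ≤ T.card := Nat.cast_nonneg _
  have herr : LL 30000 m * X ^ 2 * ((48 + 200 * Cz) * m) / V ≤ c0 / 24 * m := by
    have := mul_le_mul_of_nonneg_right n8 hm0.le
    refine le_trans (le_of_eq ?_) this
    ring
  have hsym : ∑ y, g y * wt (offE (cubeE m) W) ps (sm f) y =
      ∑ y, f y * wt (offE (cubeE m) W) ps (sm g) y := by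
    simp only [xb_wt_sm, Finset.mul_sum]
    rw [Finset.sum_comm]
    refine Finset.sum_congr rfl fun z _ => Finset.sum_congr rfl fun w _ => ?_
    rw [xb_tau_comm]
    ring
  -- `|T| X / V <= 1`, `|S| X/V <= 1`
  have hone : ∀ T' : Finset (Q m), (T'.card : ℝ) ≤ Cz * e * V → T'.card * X / V ≤ 1 := by
    intro T' hT'
    rw [div_le_one hV]
    have g1 := mul_le_mul_of_nonneg_right hT' hX0.le
    have g2 : Cz * e * V * X = V * (Cz * (X * e)) := by ring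
    rw [g2, hXe, hCza] at g1
    linarith
  have hSWc : (W.card : ℝ) ≤ 2 * Cz * e * V := by
    have : (W.card : ℝ) ≤ S.card + T.card := by
      rw [hW]
      exact_mod_cast card_union_le S T
    linarith
  have tS := h1 m hm1 S T W (hSz.trans n5) hST hW
  have tT := h1 m hm1 T S W (hTz.trans n5) hST.symm (by rw [hW, union_comm])
  rw [← hf, ← hg] at tS tT
  -- double counting
  have hdc : ∑ t ∈ T, gT S t = ∑ s ∈ S, gT T s := by
    simp only [gT_eq]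
    rw [Finset.sum_comm]
    refine Finset.sum_congr rfl fun z _ => Finset.sum_congr rfl fun w _ => ?_
    rw [Sym2.eq_swap]
  by_cases D1 : c0 / 3 * m * S.card ≤ ∑ s ∈ S, gT T s
  · left
    refine le_trans ?_ D1
    have := mul_le_mul_of_nonneg_right hc1 (by positivity : (0 : ℝ) ≤ m * S.card)
    linarith
  by_cases D2 : c0 / 3 * m * T.card ≤ ∑ t ∈ T, gT S t
  · left
    rw [hdc] at D2
    refine le_trans ?_ D2
    have g1 : c8 / Cz * (S.card : ℝ) ≤ T.card := by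
      rw [div_mul_eq_mul_div, div_le_iff₀ hCz0]
      have := mul_le_mul_of_nonneg_left hSz hc8.le
      have g0 := mul_le_mul_of_nonneg_right hT8 hCz0.le
      linarith
    have g2 := mul_le_mul_of_nonneg_right hc2 (by positivity : (0 : ℝ) ≤ m * S.card)
    have g3 := mul_le_mul_of_nonneg_left g1 (by positivity : (0 : ℝ) ≤ c0 / 3 * m)
    linarith
  right
  by_cases D3 : c0 / 3 * m * S.card ≤ (∑ y, f y * ∑ i ∈ range (TN m),
        (nb (offE (cubeE m) W))^[i] g y / (m : ℝ) ^ i) / m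
  · have g1 := h3 m hm3 X ((48 + 200 * Cz) * m) ps c0 hX1 (by positivity) n1 hp0 hp1 hpm q1 hchi'
      W S f g hf0 hg0 sT hfs herr hc0 D3
    refine le_trans ?_ g1
    have g2 := hone T hTz
    have g3 : c * (m : ℝ) ^ 2 * S.card * T.card * X / V =
        c * ((m : ℝ) ^ 2 * S.card) * (T.card * X / V) := by ring
    rw [g3]
    have hcp : 0 ≤ c := by rw [hc]; positivity
    have g4 : c * ((m : ℝ) ^ 2 * S.card) * (T.card * X / V) ≤ c * ((m : ℝ) ^ 2 * S.card) :=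
      mul_le_of_le_one_right (by positivity) g2
    have g5 := mul_le_mul_of_nonneg_right hc3 (by positivity : (0 : ℝ) ≤ (m : ℝ) ^ 2 * S.card)
    linarith
  by_cases D4 : c0 / 3 * m * T.card ≤ (∑ y, g y * ∑ i ∈ range (TN m),
        (nb (offE (cubeE m) W))^[i] f y / (m : ℝ) ^ i) / m
  · have g1 := h3 m hm3 X ((48 + 200 * Cz) * m) ps c0 hX1 (by positivity) n1 hp0 hp1 hpm q1 hchi'
      W T g f hg0 hf0 sS hgs herr hc0 D4
    rw [hsym] at g1
    refine le_trans ?_ g1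
    have g2 := hone S hSz
    have g3 : c * (m : ℝ) ^ 2 * S.card * T.card * X / V =
        c * ((m : ℝ) ^ 2 * T.card) * (S.card * X / V) := by ring
    rw [g3]
    have hcp : 0 ≤ c := by rw [hc]; positivity
    have g4 : c * ((m : ℝ) ^ 2 * T.card) * (S.card * X / V) ≤ c * ((m : ℝ) ^ 2 * T.card) :=
      mul_le_of_le_one_right (by positivity) g2
    have g5 := mul_le_mul_of_nonneg_right hc3 (by positivity : (0 : ℝ) ≤ (m : ℝ) ^ 2 * T.card)
    linarith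
  -- both escape terms
  push Not at D1 D2 D3 D4
  have E1 : c0 / 3 * m * S.card ≤ ∑ y, f y * esc m W y := by linarith
  have E2 : c0 / 3 * m * T.card ≤ ∑ y, g y * esc m W y := by linarith
  have g1 := h4 m hm4 X ps c0 c8 Cz e a hX1 hCz hc8 hc0 he hXe hCza hew ha1 n1 hp0 hp1 hpm q1 hchi
    n9 W S T f g hf0 hg0 hfW hgW sT hfs hgs hS8 hT8 hSz hTz hSWc E1 E2
  refine le_trans ?_ g1
  have g2 := mul_le_mul_of_nonneg_right hc4
    (by positivity : (0 : ℝ) ≤ (m : ℝ) ^ 2 * S.card * T.card * X / V)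
  refine le_trans (le_of_eq ?_) (g2.trans (le_of_eq ?_)) <;> ring

end Pool.Agent.Work.MP_b7dc8a_pr
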