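import Pool.Agent.Work.MP_b7dc8a_pr.F.Trich
import Pool.Agent.Work.MP_b7dc8a_pr.F.DefU

/-! Part of FLOW: elementary facts. -/

namespace Pool.Agent.Work.MP_b7dc8a_pr

open Finset

theorem gT_eq {m : ℕ} (T : Finset (Q m)) (y : Q m) :
    gT T y = ∑ t ∈ T, ind (s(y, t) ∈ cubeE m) := by
  classical
  unfold gT ind
  rw [Finset.card_filter]
  push_cast
  refine Finset.sum_congr rfl fun t _ => ?_
  split_ifs <;> rfl

theorem fS_off {m : ℕ} (S W : Finset (Q m)) (y : Q m) (hy : y ∉ W) :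
    fS (cubeE m) S W y = gT S y := by
  unfold fS dgr gT
  rw [if_neg hy]
  congr

theorem fS_on {m : ℕ} (S W : Finset (Q m)) (y : Q m) (hy : y ∈ W) :
    fS (cubeE m) S W y = 0 := by
  unfold fS
  rw [if_pos hy]

theorem gT_nn {m : ℕ} (S : Finset (Q m)) (y : Q m) : 0 ≤ gT S y := by
  unfold gT
  positivity

theorem gT_mono {m : ℕ} (S W : Finset (Q m)) (h : S ⊆ W) (y : Q m) : gT S y ≤ gT W y := by
  rw [gT_eq, gT_eq]
  exact Finset.sum_le_sum_of_subset_of_nonneg h fun _ _ _ => walk_ind_nonneg _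

theorem fS_nn {m : ℕ} (S W : Finset (Q m)) (y : Q m) : 0 ≤ fS (cubeE m) S W y := by
  by_cases hy : y ∈ W
  · rw [fS_on S W y hy]
  · rw [fS_off S W y hy]; exact gT_nn S y

theorem fS_le {m : ℕ} (S W : Finset (Q m)) (y : Q m) :
    fS (cubeE m) S W y ≤ gT S y := by
  by_cases hy : y ∈ W
  · rw [fS_on S W y hy]; exact gT_nn S y
  · rw [fS_off S W y hy]

theorem gT_sum {m : ℕ} (S : Finset (Q m)) : ∑ y, gT S y = m * S.card := by
  simp only [gT_eq]
  rw [Finset.sum_comm]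
  have h1 : ∀ t : Q m, ∑ y, ind (s(y, t) ∈ cubeE m) = m := by
    intro t
    have h2 := nb_cube_one m t
    rw [walk_nb_ind] at h2
    rw [← h2]
    refine Finset.sum_congr rfl fun y _ => ?_
    rw [mul_one, Sym2.eq_swap]
  rw [Finset.sum_congr rfl fun t _ => h1 t, Finset.sum_const, nsmul_eq_mul, mul_comm]

theorem fS_sum {m : ℕ} (S W : Finset (Q m)) : ∑ y, fS (cubeE m) S W y ≤ m * S.card := by
  rw [← gT_sum]
  exact Finset.sum_le_sum fun y _ => fS_le S W y

open Classical in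
theorem fl_pair {m : ℕ} (S W : Finset (Q m)) (φ : Q m → ℝ) :
    ∑ s ∈ S, nb (cubeE m) (fun y => if y ∈ W then 0 else φ y) s =
      ∑ y, fS (cubeE m) S W y * φ y := by
  simp only [walk_nb_ind]
  rw [Finset.sum_comm]
  refine Finset.sum_congr rfl fun y _ => ?_
  by_cases hy : y ∈ W
  · rw [fS_on S W y hy]
    simp only [if_pos hy, mul_zero, Finset.sum_const_zero, zero_mul]
  · rw [fS_off S W y hy, gT_eq, Finset.sum_mul]
    refine Finset.sum_congr rfl fun s _ => ?_
    rw [if_neg hy, Sym2.eq_swap]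

theorem fl_iter {m : ℕ} (T W : Finset (Q m)) (i : ℕ) (y : Q m) (hy : y ∉ W) :
    (nb (offE (cubeE m) W))^[i] (gT T) y =
      (nb (offE (cubeE m) W))^[i] (fS (cubeE m) T W) y := by
  rw [nb_iter_eq, nb_iter_eq]
  refine Finset.sum_congr rfl fun z _ => ?_
  by_cases hz : z ∈ W
  · rw [wk_off_zero _ _ _ _ _ hy hz, zero_mul, zero_mul]
  · rw [fS_off T W z hz]

theorem esc_nn (m : ℕ) (W : Finset (Q m)) (y : Q m) : 0 ≤ esc m W y := by
  unfold esc
  exact div_nonneg (nb_iter_nonneg _ _ _ (fun _ => zero_le_one) y) (by positivity)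

theorem esc_le (m : ℕ) (hm : 1 ≤ m) (W : Finset (Q m)) (y : Q m) : esc m W y ≤ 1 := by
  have hm0 : (0 : ℝ) < m := by exact_mod_cast hm
  unfold esc
  rw [div_le_one (by positivity)]
  have := nb_iter_le m (TN m) (offE (cubeE m) W) (xb_offE_subset _ _) (fun _ => 1) 1 zero_le_one
    (fun _ => le_rfl) y
  linarith

/-- the pairing of `trich` -/
theorem fl_trich : ∃ (c : ℝ) (m0 : ℕ), 0 < c ∧ ∀ m ≥ m0, ∀ S T W : Finset (Q m),
    (S.card : ℝ) ≤ (2 : ℝ) ^ ((m : ℝ) - m / 40) → Disjoint S T → W = S ∪ T →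
    c * m * S.card ≤ ∑ s ∈ S, gT T s + ∑ y, fS (cubeE m) S W y * esc m W y +
      (∑ y, fS (cubeE m) S W y * ∑ i ∈ range (TN m),
        (nb (offE (cubeE m) W))^[i] (fS (cubeE m) T W) y / (m : ℝ) ^ i) / m := by
  classical
  obtain ⟨c, m1, hc, h⟩ := trich
  refine ⟨c, max m1 1, hc, fun m hm S T W hS hST hW => ?_⟩
  have hm1 : 1 ≤ m := (le_max_right _ _).trans hm
  have hm0 : (0 : ℝ) < m := by exact_mod_cast hm1
  refine (h m ((le_max_left _ _).trans hm) S T W hS hST hW).trans (le_of_eq ?_)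
  rw [Finset.sum_add_distrib, Finset.sum_add_distrib]
  have e1 := fl_pair S W (esc m W)
  have e2 := fl_pair S W (fun y => ∑ i ∈ range (TN m),
    (nb (offE (cubeE m) W))^[i] (gT T) y / (m : ℝ) ^ (i + 1))
  have e3 : (∑ y, fS (cubeE m) S W y * ∑ i ∈ range (TN m),
        (nb (offE (cubeE m) W))^[i] (fS (cubeE m) T W) y / (m : ℝ) ^ i) / m =
      ∑ y, fS (cubeE m) S W y * ∑ i ∈ range (TN m),
        (nb (offE (cubeE m) W))^[i] (gT T) y / (m : ℝ) ^ (i + 1) := by
    rw [Finset.sum_div]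
    refine Finset.sum_congr rfl fun y _ => ?_
    by_cases hy : y ∈ W
    · rw [fS_on S W y hy]
      ring
    · rw [mul_div_assoc, Finset.sum_div]
      congr 1
      refine Finset.sum_congr rfl fun i _ => ?_
      rw [fl_iter T W i y hy, div_div, pow_succ]
  rw [e3, ← e1, ← e2]

/-- `∑_{z∉W} chi >= V X/2` -/
theorem chi_low {V : Type} [Fintype V] [DecidableEq V] (E : Finset (Sym2 V)) (p X : ℝ)
    (h0 : 0 ≤ p) (h1 : p ≤ 1) (hX1 : 1 ≤ X) (hchi : ∀ x, chi E p x = X) (W : Finset V)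
    (hW : (W.card : ℝ) * X ≤ Fintype.card V / 8) :
    (Fintype.card V : ℝ) * X / 2 ≤ ∑ z, ind (z ∉ W) * chi (offE E W) p z := by
  have h2 : ∀ z, ind (z ∉ W) * X ≤ ind (z ∉ W) * chi (offE E W) p z +
      ∑ w ∈ W, tau E p z w * X := by
    intro z
    have hnn : 0 ≤ ∑ w ∈ W, tau E p z w * X :=
      Finset.sum_nonneg fun w _ => mul_nonneg (xb_tau_nonneg _ p h0 h1 _ _) (by linarith)
    by_cases hz : z ∈ W
    · rw [walk_ind_neg _ (not_not.2 hz)]
      linarith
    · rw [walk_ind_pos _ hz, one_mul, one_mul]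
      have h3 := b_obst E p h0 h1 (fun A => (A.card : ℝ))
        (fun A B hAB => by exact_mod_cast card_le_card hAB)
        (fun A B => by exact_mod_cast card_union_le A B) (fun A => Nat.cast_nonneg _) W z hz
      have h4 : wt E p (fun A => (A.card : ℝ)) z = X := hchi z
      have h5 : wt (offE E W) p (fun A => (A.card : ℝ)) z = chi (offE E W) p z := rfl
      have h6 : ∀ d, wt E p (fun A => (A.card : ℝ)) d = X := fun d => hchi d
      rw [h4, h5] at h3
      simp only [h6] at h3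
      exact h3
  have h3 := Finset.sum_le_sum fun z (_ : z ∈ univ) => h2 z
  rw [Finset.sum_add_distrib, ← Finset.sum_mul] at h3
  have h4 : ∑ z : V, ind (z ∉ W) = (Fintype.card V : ℝ) - W.card := by
    have h5 : ∑ z : V, ind (z ∉ W) = ∑ z : V, (1 - ind (z ∈ W)) := by
      refine Finset.sum_congr rfl fun z _ => ?_
      by_cases hz : z ∈ W
      · rw [walk_ind_neg _ (not_not.2 hz), walk_ind_pos _ hz]; ring
      · rw [walk_ind_pos _ hz, walk_ind_neg _ hz]; ring
    rw [h5, Finset.sum_sub_distrib, Finset.sum_const, nsmul_eq_mul, mul_one, card_univ]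
    congr 1
    rw [← Finset.sum_subset (Finset.subset_univ W) (fun x _ hx => walk_ind_neg _ hx),
      Finset.sum_congr rfl fun x hx => walk_ind_pos _ hx, Finset.sum_const, nsmul_eq_mul, mul_one]
  have h5 : ∑ z, ∑ w ∈ W, tau E p z w * X = W.card * X * X := by
    rw [Finset.sum_comm]
    have h6 : ∀ w, ∑ z, tau E p z w * X = X * X := by
      intro w
      rw [← Finset.sum_mul]
      congr 1
      rw [← hchi w, xb_chi_sum]
      exact Finset.sum_congr rfl fun z _ => xb_tau_comm _ _ _ _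
    rw [Finset.sum_congr rfl fun w _ => h6 w, Finset.sum_const, nsmul_eq_mul]
    ring
  rw [h4, h5] at h3
  have hW0 : (0 : ℝ) ≤ W.card := Nat.cast_nonneg _
  have hWX : (W.card : ℝ) ≤ W.card * X := le_mul_of_one_le_right hW0 hX1
  have hX0 : 0 ≤ X := by linarith
  have g1 := mul_le_mul_of_nonneg_right hW hX0
  have g2 := mul_le_mul_of_nonneg_right (hWX.trans hW) hX0
  have hV : (0 : ℝ) ≤ Fintype.card V := Nat.cast_nonneg _
  nlinarith [mul_nonneg hV hX0]

end Pool.Agent.Work.MP_b7dc8a_pr
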