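import Pool.Agent.Work.MP_b7dc8a_pr.F.DefU

/-! Part of FLOW: numerical choices. -/

namespace Pool.Agent.Work.MP_b7dc8a_pr

open Finset

theorem fl_num (δ : ℝ) (hδ : 0 < δ) : ∃ m0 : ℕ, ∀ m ≥ m0, ∀ e : ℝ, 0 < e →
    e ≤ (2 : ℝ) ^ (-(m : ℝ) / 36) → LL 30000 m * e ≤ δ := by
  have hr : (1 : ℝ) < (2 : ℝ) ^ ((1 : ℝ) / 36) := Real.one_lt_rpow (by norm_num) (by norm_num)
  obtain ⟨m1, h1⟩ := xn_exp 30001 ((2 : ℝ) ^ ((1 : ℝ) / 36)) hr
  obtain ⟨m2, h2⟩ := xn_poly 0 (1 / δ) 1 one_pos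
  refine ⟨max m1 m2, fun m hm e he hem => ?_⟩
  have h3 := h1 m ((le_max_left _ _).trans hm)
  have h4 := h2 m ((le_max_right _ _).trans hm)
  rw [pow_zero, mul_one] at h4
  have e1 : LL 30001 m = LL 30000 m * LL 1 m := by
    rw [xn_LL_add]; norm_num
  rw [e1] at h3
  have hL0 := xn_LL_pos 30000 m
  have hL1 := xn_LL_pos 1 m
  have e2 : ((2 : ℝ) ^ ((1 : ℝ) / 36)) ^ m * (2 : ℝ) ^ (-(m : ℝ) / 36) = 1 := by
    rw [← Real.rpow_natCast, ← Real.rpow_mul (by norm_num), ← Real.rpow_add (by norm_num)]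
    rw [show (1 : ℝ) / 36 * m + -(m : ℝ) / 36 = 0 by ring, Real.rpow_zero]
  have e3 : LL 30000 m * LL 1 m * e ≤ 1 :=
    le_trans (mul_le_mul h3 hem he.le (by positivity)) e2.le
  have e4 : LL 30000 m * e * (1 / δ) ≤ 1 := by
    have := mul_le_mul_of_nonneg_left h4 (mul_pos hL0 he).le
    nlinarith
  rw [mul_one_div, div_le_one hδ] at e4
  exact e4

theorem fl_nums (Cz c8 c0 : ℝ) (hCz : 1 ≤ Cz) (hc8 : 0 < c8) (hc0 : 0 < c0) :
    ∃ m0 : ℕ, ∀ m ≥ m0, ∀ e a X : ℝ, 0 < e → e ≤ (2 : ℝ) ^ (-(m : ℝ) / 36) → 1 ≤ e ^ 3 * 2 ^ m →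
    a = 1 / (16 * Cz) → X = a / e → 8 ≤ m ∧
    LL 30000 m * X ^ 2 ≤ 2 ^ m ∧ 2 * (m : ℝ) ^ 2 ≤ X - 1 ∧ X ≤ (2 : ℝ) ^ (2 * (m : ℝ) / 5) ∧
    Real.log m ^ 5 / (m : ℝ) ^ 2 ≤ 1 / TN m ∧ Cz * e * 2 ^ m ≤ (2 : ℝ) ^ ((m : ℝ) - m / 40) ∧
    (TN m : ℝ) ≤ X ∧ 5000 * dl m ≤ 1 ∧
    LL 30000 m * X ^ 2 * (48 + 200 * Cz) / 2 ^ m ≤ c0 / 24 ∧
    3 * TN m * Cz * e + 2 * (LL 30000 m * (48 + 200 * Cz) * e) / c8 ≤ c0 ^ 2 / 600 := by
  have ha : 0 < 1 / (16 * Cz) := by positivity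
  have hδ1 : 0 < c0 / (24 * (48 + 200 * Cz)) := by positivity
  have hδ2 : 0 < c0 ^ 2 / 600 / (3 * Cz + 2 * (48 + 200 * Cz) / c8) := by positivity
  obtain ⟨m1, h1⟩ := fl_num (min (min 1 (1 / (16 * Cz))) (min (c0 / (24 * (48 + 200 * Cz)))
    (c0 ^ 2 / 600 / (3 * Cz + 2 * (48 + 200 * Cz) / c8))))
    (lt_min (lt_min one_pos ha) (lt_min hδ1 hδ2))
  obtain ⟨m2, h2⟩ := xn_poly 2 5 30000 (by norm_num)
  obtain ⟨m3, h3⟩ := xn_dl 5000 1 one_pos
  obtain ⟨m4, h4⟩ : ∃ m4 : ℕ, ∀ m ≥ m4, 8 * Real.log m ^ 6 ≤ m := by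
    have h : Filter.Tendsto (fun x : ℝ => Real.log x ^ 6 / x) Filter.atTop (nhds 0) := by
      have := (Real.isLittleO_pow_log_id_atTop (n := 6)).tendsto_div_nhds_zero
      simpa using this
    have h2 := (h.comp tendsto_natCast_atTop_atTop).const_mul 8
    simp only [mul_zero] at h2
    have h3 := h2.eventually (gt_mem_nhds (zero_lt_one))
    obtain ⟨m0, hm0⟩ := Filter.eventually_atTop.1 h3
    refine ⟨max m0 1, fun m hm => ?_⟩
    have h5 := hm0 m ((le_max_left _ _).trans hm)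
    have h6 : (0 : ℝ) < m := by exact_mod_cast (le_max_right _ _).trans hm
    simp only [Function.comp_apply] at h5
    have h7 : 8 * Real.log m ^ 6 / m < 1 := by
      rw [mul_div_assoc]; exact h5
    rw [div_lt_one h6] at h7
    exact h7.le
  obtain ⟨m5, h5⟩ := xn_poly 0 Cz 1 one_pos
  have hr : (1 : ℝ) < (2 : ℝ) ^ ((1 : ℝ) / 360) := Real.one_lt_rpow (by norm_num) (by norm_num)
  obtain ⟨m6, h6⟩ := xn_exp 1 ((2 : ℝ) ^ ((1 : ℝ) / 360)) hr
  refine ⟨max (max (max m1 m2) (max m3 m4)) (max (max m5 m6) 8),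
    fun m hm e a X he hem hew haC hX => ?_⟩
  simp only [ge_iff_le, max_le_iff] at hm
  obtain ⟨⟨⟨hm1, hm2⟩, hm3, hm4⟩, ⟨hm5, hm6⟩, hm8⟩ := hm
  have hmR : (8 : ℝ) ≤ m := by exact_mod_cast hm8
  have hm0 : (0 : ℝ) < m := by linarith
  have hδ := h1 m hm1 e he hem
  simp only [le_min_iff] at hδ
  obtain ⟨⟨d1, d2⟩, d3, d4⟩ := hδ
  have hL0 := xn_LL_pos 30000 m
  have hLp := h2 m hm2
  have hTN : (TN m : ℝ) ≤ 4 * (m : ℝ) ^ 2 := by
    have := (xn_TT m (by omega)).2.2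
    unfold TN
    push_cast
    linarith
  have hTN0 : (0 : ℝ) ≤ TN m := Nat.cast_nonneg _
  have hm1' : (1 : ℝ) ≤ (m : ℝ) ^ 2 := by nlinarith
  have hTL : (TN m : ℝ) ≤ LL 30000 m := by linarith
  have haa : a ≤ 1 := by
    rw [haC, div_le_one (by positivity)]
    linarith
  have ha0 : 0 < a := by rw [haC]; exact ha
  have hV : (0 : ℝ) < 2 ^ m := by positivity
  have hX0 : 0 < X := by rw [hX]; positivity
  have hXe : X * e = a := by rw [hX, div_mul_cancel₀ _ he.ne']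
  -- X^2/V <= e
  have hX2 : X ^ 2 ≤ e * 2 ^ m := by
    have : X ^ 2 * e ^ 2 ≤ (e * 2 ^ m) * e ^ 2 := by
      have h9 : X ^ 2 * e ^ 2 = a ^ 2 := by rw [← mul_pow, hXe]
      have h10 : (e * 2 ^ m) * e ^ 2 = e ^ 3 * 2 ^ m := by ring
      rw [h9, h10]
      nlinarith
    exact le_of_mul_le_mul_right this (by positivity)
  have hLX : LL 30000 m * X ^ 2 ≤ (LL 30000 m * e) * 2 ^ m := by
    have := mul_le_mul_of_nonneg_left hX2 hL0.le
    linarith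
  have hLXe : LL 30000 m ≤ X := by
    have h9 : LL 30000 m * e ≤ X * e := by rw [hXe, haC]; exact d2
    exact le_of_mul_le_mul_right h9 he
  refine ⟨hm8, ?_, ?_, ?_, ?_, ?_, hTL.trans hLXe, h3 m hm3, ?_, ?_⟩
  · refine hLX.trans ?_
    nlinarith
  · linarith
  · -- X <= 2^(2m/5)
    have h9 : X ≤ 1 / e := by
      rw [hX]
      exact div_le_div_of_nonneg_right haa he.le
    have h10 : (1 / e) ^ 3 ≤ (2 : ℝ) ^ m := by
      rw [div_pow, one_pow, div_le_iff₀ (by positivity)]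
      linarith
    have h11 : (1 / e) ^ 3 ≤ ((2 : ℝ) ^ (2 * (m : ℝ) / 5)) ^ 3 := by
      refine h10.trans ?_
      rw [← Real.rpow_natCast 2 m, ← Real.rpow_natCast, ← Real.rpow_mul (by norm_num)]
      refine Real.rpow_le_rpow_of_exponent_le (by norm_num) ?_
      push_cast
      linarith
    have h12 : 1 / e ≤ (2 : ℝ) ^ (2 * (m : ℝ) / 5) :=
      le_of_pow_le_pow_left₀ (by norm_num) (by positivity) h11
    exact h9.trans h12
  · -- log^5/m^2 <= 1/TN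
    have hlog := xn_log m (by omega)
    have hTT := (xn_TT m (by omega)).2.1
    have hTTl := (xn_TT m (by omega)).1
    have hTNp : (0 : ℝ) < TN m := by
      unfold TN
      push_cast
      have : 0 < (m : ℝ) * Real.log m := by positivity
      linarith
    have hTN8 : (TN m : ℝ) ≤ 8 * (m * Real.log m) := by
      unfold TN
      push_cast
      nlinarith
    rw [div_le_div_iff₀ (by positivity) hTNp, one_mul]
    have h9 := h4 m hm4
    have h10 : Real.log m ^ 5 * (TN m : ℝ) ≤ Real.log m ^ 5 * (8 * (m * Real.log m)) :=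
      mul_le_mul_of_nonneg_left hTN8 (by positivity)
    refine h10.trans ?_
    have h11 : Real.log m ^ 5 * (8 * (m * Real.log m)) = (8 * Real.log m ^ 6) * m := by ring
    rw [h11, sq]
    exact mul_le_mul_of_nonneg_right h9 hm0.le
  · -- Cz e V <= 2^(m-m/40)
    have h9 := h5 m hm5
    rw [pow_zero, mul_one] at h9
    have h10 := h9.trans (h6 m hm6)
    have h11 : Cz * e ≤ ((2 : ℝ) ^ ((1 : ℝ) / 360)) ^ m * (2 : ℝ) ^ (-(m : ℝ) / 36) :=
      mul_le_mul h10 hem he.le (by positivity)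
    have h12 : ((2 : ℝ) ^ ((1 : ℝ) / 360)) ^ m * (2 : ℝ) ^ (-(m : ℝ) / 36) * 2 ^ m =
        (2 : ℝ) ^ ((m : ℝ) - m / 40) := by
      rw [← Real.rpow_natCast, ← Real.rpow_natCast 2 m, ← Real.rpow_mul (by norm_num),
        ← Real.rpow_add (by norm_num), ← Real.rpow_add (by norm_num)]
      congr 1
      ring
    rw [← h12]
    exact mul_le_mul_of_nonneg_right h11 hV.le
  · -- err
    rw [div_le_iff₀ hV]
    have h9 : LL 30000 m * X ^ 2 * (48 + 200 * Cz) ≤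
        (LL 30000 m * e) * 2 ^ m * (48 + 200 * Cz) :=
      mul_le_mul_of_nonneg_right hLX (by positivity)
    refine h9.trans ?_
    have h10 : LL 30000 m * e * (48 + 200 * Cz) ≤ c0 / 24 := by
      have := mul_le_mul_of_nonneg_right d3 (by positivity : (0 : ℝ) ≤ 48 + 200 * Cz)
      refine this.trans (le_of_eq ?_)
      field_simp
    have := mul_le_mul_of_nonneg_right h10 hV.le
    linarith
  · have h9 : 3 * (TN m : ℝ) * Cz * e ≤ 3 * Cz * (LL 30000 m * e) := by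
      have h10 := mul_le_mul_of_nonneg_right hTL he.le
      have h11 := mul_le_mul_of_nonneg_left h10 (by positivity : (0 : ℝ) ≤ 3 * Cz)
      linarith
    have h10 : 3 * Cz * (LL 30000 m * e) + 2 * (LL 30000 m * (48 + 200 * Cz) * e) / c8 =
        (3 * Cz + 2 * (48 + 200 * Cz) / c8) * (LL 30000 m * e) := by ring
    have h11 := mul_le_mul_of_nonneg_left d4
      (by positivity : (0 : ℝ) ≤ 3 * Cz + 2 * (48 + 200 * Cz) / c8)
    have h12 : (3 * Cz + 2 * (48 + 200 * Cz) / c8) *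
        (c0 ^ 2 / 600 / (3 * Cz + 2 * (48 + 200 * Cz) / c8)) = c0 ^ 2 / 600 := by
      field_simp
    linarith

end Pool.Agent.Work.MP_b7dc8a_pr
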