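import Pool.Agent.Work.MP_b7dc8a_pr.F.DefG
import Pool.Agent.Work.MP_b7dc8a_pr.B.Mark

/-! Module GHOST (M): basic facts on ghosts.

`gh_disj`: `Ex univ h (ind (Disjoint A G)) = (1-h)^|A|`: `univ = A ∪ (univ \ A)` and `Ex_union`, or
induction on `A` with `Ex_insert`, or `Ex_prod_indep`.
`gh_prod`: independence of `G ∩ A` and `G ∩ B` for disjoint `A`, `B` (`Ex_mul_indep`).
`gh_not`: `x ∉ cls ω G ↔ Disjoint (cl ω x) G` (`xb_mem_cls`, `cl_symm`).
`gh_mark`: for each fixed `G` this is `b_mark_cls` (with `S = G`), after exchanging the two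
expectations (`xb_Ex_swap`).
`gh_clus`: `ind (x ∉ cls ω G) Φ(cl ω x) = ind (x ∉ W) Φ(cl (ω ∩ offE E W) x)`, `W = cls ω G`
(`xb_cl_outside`), then `gh_mark`.
`gh_mo`: `gh_disj`, `gh_not`. `gh_tf` the same.
`gh_tree` (ghost free tree graph inequality): by `gh_clus` with `Φ A = |A| ind (z' ∈ A)` and `b_pair`
(B/Obst, `Θ = card`) for the graph `offE E W`:
`Ex (offE E W) p (|cl η z| ind (z' ∈ cl η z)) <= ∑_d tau_W z d tau_W z' d chi_W d` where `tau_W, chi_W`
belong to `offE E W`. For `z ∉ W` and `d ∈ W`: `tau_W z d = 0` (`xb_tau_off`). So the right side is at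
most `∑_d tau E z d tau E z' d ind (d ∉ W) chi_W d` and `EG [ind (d ∉ W) chi_W d] = mo E p h 1 d`
by `gh_clus` (with `Φ = card`) and `gh_mo`. -/

namespace Pool.Agent.Work.MP_b7dc8a_pr

open Finset

section GHOST
variable {V : Type} [Fintype V] [DecidableEq V]

theorem gh_disj (h : ℝ) (A : Finset V) :
    Ex (univ : Finset V) h (fun G => ind (Disjoint A G)) = (1 - h) ^ A.card := by
  have h1 : Ex (univ : Finset V) h (fun G => ind (Disjoint A G)) =
      Ex (univ : Finset V) h (fun G => (fun G' : Finset V => ind (G' = ∅)) (G ∩ A)) := by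
    refine Ex_congr _ _ _ _ fun G _ => ?_
    have e : Disjoint A G ↔ G ∩ A = ∅ := by
      rw [disjoint_comm, Finset.disjoint_iff_inter_eq_empty]
    exact congrArg ind (propext e)
  rw [h1]
  refine (Ex_restrict univ A (Finset.subset_univ A) h (fun G' : Finset V => ind (G' = ∅))).trans ?_
  unfold Ex
  rw [Finset.sum_eq_single ∅]
  · simp [ind]
  · intro G _ hG
    simp [ind, hG]
  · intro hn
    exact absurd (Finset.empty_mem_powerset A) hn

theorem gh_hit (h : ℝ) (A : Finset V) :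
    Ex (univ : Finset V) h (fun G => ind (¬ Disjoint A G)) = 1 - (1 - h) ^ A.card := by
  have h1 : Ex (univ : Finset V) h (fun G => ind (¬ Disjoint A G)) =
      Ex (univ : Finset V) h (fun G => 1 - ind (Disjoint A G)) := by
    refine Ex_congr _ _ _ _ fun G _ => ?_
    unfold ind
    by_cases hd : Disjoint A G
    · rw [if_neg (not_not.mpr hd), if_pos hd]; norm_num
    · rw [if_pos hd, if_neg hd]; norm_num
  rw [h1, Ex_sub, Ex_const, gh_disj]

theorem gh_prod (h : ℝ) (A B : Finset V) (hAB : Disjoint A B) (F H : Finset V → ℝ) :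
    Ex (univ : Finset V) h (fun G => F (G ∩ A) * H (G ∩ B)) =
      Ex (univ : Finset V) h (fun G => F (G ∩ A)) * Ex (univ : Finset V) h (fun G => H (G ∩ B)) := by
  refine Ex_mul_indep univ A B hAB h (fun G => F (G ∩ A)) (fun G => H (G ∩ B))
    (fun G _ => ?_) (fun G _ => ?_)
  · simp only [Finset.inter_assoc, Finset.inter_self]
  · simp only [Finset.inter_assoc, Finset.inter_self]

theorem gh_not (ω : Finset (Sym2 V)) (G : Finset V) (x : V) :
    x ∉ cls ω G ↔ Disjoint (cl ω x) G := by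
  rw [xb_mem_cls, Finset.disjoint_left]
  constructor
  · intro h a ha haG
    exact h ⟨a, haG, (cl_symm ω x a).1 ha⟩
  · rintro h ⟨a, haG, ha⟩
    exact h ((cl_symm ω x a).2 ha) haG

theorem gh_mark (E : Finset (Sym2 V)) (p h : ℝ) (H : Finset V → Finset (Sym2 V) → ℝ) :
    EG E p h (fun ω G => H (cls ω G) (ω ∩ offE E (cls ω G))) =
      EG E p h (fun ω G => Ex (offE E (cls ω G)) p (fun η => H (cls ω G) η)) := by
  unfold EG
  rw [xb_Ex_swap E univ p h (fun ω G => H (cls ω G) (ω ∩ offE E (cls ω G))),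
    xb_Ex_swap E univ p h (fun ω G => Ex (offE E (cls ω G)) p (fun η => H (cls ω G) η))]
  refine Ex_congr _ _ _ _ fun G _ => ?_
  exact b_mark_cls E G p (fun A _ η => H A η)

omit [DecidableEq V] in
private theorem gh_EG_congr (E : Finset (Sym2 V)) (p h : ℝ) (F F' : Finset (Sym2 V) → Finset V → ℝ)
    (hF : ∀ ω ⊆ E, ∀ G, F ω G = F' ω G) : EG E p h F = EG E p h F' := by
  unfold EG
  exact Ex_congr _ _ _ _ fun ω hω => Ex_congr _ _ _ _ fun G _ => hF ω hω G

omit [DecidableEq V] in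
private theorem gh_EG_mono (E : Finset (Sym2 V)) (p h : ℝ) (h0 : 0 ≤ p) (h1 : p ≤ 1) (hh0 : 0 ≤ h)
    (hh1 : h ≤ 1) (F F' : Finset (Sym2 V) → Finset V → ℝ)
    (hF : ∀ ω ⊆ E, ∀ G, F ω G ≤ F' ω G) : EG E p h F ≤ EG E p h F' := by
  unfold EG
  exact Ex_mono _ _ h0 h1 _ _ fun ω hω => Ex_mono _ _ hh0 hh1 _ _ fun G _ => hF ω hω G

omit [DecidableEq V] in
private theorem gh_EG_sum {ι : Type} (I : Finset ι) (E : Finset (Sym2 V)) (p h : ℝ) (c : ι → ℝ)
    (F : ι → Finset (Sym2 V) → Finset V → ℝ) :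
    EG E p h (fun ω G => ∑ i ∈ I, c i * F i ω G) = ∑ i ∈ I, c i * EG E p h (F i) := by
  unfold EG
  simp only [Ex_sum, Ex_mul_left]

theorem gh_clus (E : Finset (Sym2 V)) (p h : ℝ) (x : V) (Φ : Finset V → ℝ) :
    EG E p h (fun ω G => ind (x ∉ cls ω G) * Φ (cl ω x)) =
      EG E p h (fun ω G => ind (x ∉ cls ω G) *
        Ex (offE E (cls ω G)) p (fun η => Φ (cl η x))) := by
  have h1 : EG E p h (fun ω G => ind (x ∉ cls ω G) * Φ (cl ω x)) =
      EG E p h (fun ω G => (fun (W : Finset V) (η : Finset (Sym2 V)) => ind (x ∉ W) * Φ (cl η x))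
        (cls ω G) (ω ∩ offE E (cls ω G))) := by
    refine gh_EG_congr E p h _ _ fun ω hω G => ?_
    by_cases hx : x ∉ cls ω G
    · show ind (x ∉ cls ω G) * Φ (cl ω x) =
        ind (x ∉ cls ω G) * Φ (cl (ω ∩ offE E (cls ω G)) x)
      rw [(xb_cl_outside E ω hω G x hx).1]
    · show ind (x ∉ cls ω G) * Φ (cl ω x) =
        ind (x ∉ cls ω G) * Φ (cl (ω ∩ offE E (cls ω G)) x)
      rw [ind, if_neg hx, zero_mul, zero_mul]
  rw [h1]
  refine (gh_mark E p h (fun (W : Finset V) (η : Finset (Sym2 V)) =>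
    ind (x ∉ W) * Φ (cl η x))).trans ?_
  refine gh_EG_congr E p h _ _ fun ω hω G => ?_
  rw [Ex_mul_left]

private theorem gh_int (h : ℝ) (ω : Finset (Sym2 V)) (x : V) (c : ℝ) :
    Ex (univ : Finset V) h (fun G => ind (x ∉ cls ω G) * c) = (1 - h) ^ (cl ω x).card * c := by
  rw [← gh_disj h (cl ω x)]
  have e : (fun G : Finset V => ind (x ∉ cls ω G) * c) = fun G => c * ind (Disjoint (cl ω x) G) := by
    funext G
    rw [mul_comm]
    exact congrArg (fun t => c * t) (congrArg ind (propext (gh_not ω G x)))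
  rw [e, Ex_mul_left, mul_comm]

theorem gh_mo (E : Finset (Sym2 V)) (p h : ℝ) (k : ℕ) (x : V) :
    mo E p h k x = EG E p h (fun ω G => ind (x ∉ cls ω G) * ((cl ω x).card : ℝ) ^ k) := by
  unfold mo EG
  refine Ex_congr _ _ _ _ fun ω _ => ?_
  rw [gh_int, mul_comm]

theorem gh_tf (E : Finset (Sym2 V)) (p h : ℝ) (x y : V) :
    tf E p h x y = EG E p h (fun ω G => ind (x ∉ cls ω G) * ind (y ∈ cl ω x)) := by
  unfold tf EG
  refine Ex_congr _ _ _ _ fun ω _ => ?_
  rw [gh_int, mul_comm]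

theorem gh_chi (E : Finset (Sym2 V)) (p h : ℝ) (x : V) :
    EG E p h (fun ω G => ind (x ∉ cls ω G) * chi (offE E (cls ω G)) p x) = mo E p h 1 x := by
  rw [gh_mo]
  simp only [pow_one]
  exact (gh_clus E p h x (fun A => (A.card : ℝ))).symm

theorem gh_tree (E : Finset (Sym2 V)) (p h : ℝ) (h0 : 0 ≤ p) (h1 : p ≤ 1) (hh0 : 0 ≤ h)
    (hh1 : h ≤ 1) (z z' : V) :
    Ex E p (fun ω => ((cl ω z).card : ℝ) * (1 - h) ^ (cl ω z).card * ind (z' ∈ cl ω z)) ≤
      ∑ d, tau E p z d * tau E p z' d * mo E p h 1 d := by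
  have e1 : Ex E p (fun ω => ((cl ω z).card : ℝ) * (1 - h) ^ (cl ω z).card * ind (z' ∈ cl ω z)) =
      EG E p h (fun ω G => ind (z ∉ cls ω G) *
        (fun A : Finset V => (A.card : ℝ) * ind (z' ∈ A)) (cl ω z)) := by
    unfold EG
    refine Ex_congr _ _ _ _ fun ω _ => ?_
    rw [gh_int]
    ring
  rw [e1, gh_clus E p h z (fun A : Finset V => (A.card : ℝ) * ind (z' ∈ A))]
  have e2 : ∑ d, tau E p z d * tau E p z' d * mo E p h 1 d =
      EG E p h (fun ω G => ∑ d, (tau E p z d * tau E p z' d) *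
        (ind (d ∉ cls ω G) * chi (offE E (cls ω G)) p d)) := by
    rw [gh_EG_sum univ E p h (fun d => tau E p z d * tau E p z' d)
      (fun d ω G => ind (d ∉ cls ω G) * chi (offE E (cls ω G)) p d)]
    refine Finset.sum_congr rfl fun d _ => ?_
    rw [gh_chi]
  rw [e2]
  refine gh_EG_mono E p h h0 h1 hh0 hh1 _ _ fun ω _ G => ?_
  have hnn : ∀ d, 0 ≤ (tau E p z d * tau E p z' d) *
      (ind (d ∉ cls ω G) * chi (offE E (cls ω G)) p d) := fun d =>
    mul_nonneg (mul_nonneg (xb_tau_nonneg E p h0 h1 z d) (xb_tau_nonneg E p h0 h1 z' d))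
      (mul_nonneg (xb_ind_nonneg _) (xb_Ex_nonneg _ p h0 h1 _ fun _ _ => Nat.cast_nonneg _))
  by_cases hz : z ∉ cls ω G
  · rw [ind, if_pos hz, one_mul]
    have hb := b_pair (offE E (cls ω G)) p h0 h1 (fun A => (A.card : ℝ))
      (fun A B hAB => by exact_mod_cast card_le_card hAB)
      (fun A B => by exact_mod_cast card_union_le A B) (fun A => Nat.cast_nonneg _) z z'
    refine hb.trans (Finset.sum_le_sum fun d _ => ?_)
    by_cases hd : d ∈ cls ω G
    · rw [xb_tau_off E (cls ω G) p z d hz hd, zero_mul, zero_mul]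
      exact hnn d
    · have hw : wt (offE E (cls ω G)) p (fun A => (A.card : ℝ)) d = chi (offE E (cls ω G)) p d := rfl
      rw [hw]
      have hi : ind (d ∉ cls ω G) = 1 := by rw [ind, if_pos hd]
      rw [hi, one_mul]
      have hsub := xb_offE_subset E (cls ω G)
      exact mul_le_mul_of_nonneg_right
        (mul_le_mul (xb_tau_mono_E E _ hsub p h0 h1 z d) (xb_tau_mono_E E _ hsub p h0 h1 z' d)
          (xb_tau_nonneg _ p h0 h1 z' d) (xb_tau_nonneg E p h0 h1 z d))
        (xb_Ex_nonneg _ p h0 h1 _ fun _ _ => Nat.cast_nonneg _)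
  · rw [ind, if_neg hz, zero_mul]
    exact Finset.sum_nonneg fun d _ => hnn d

end GHOST

end Pool.Agent.Work.MP_b7dc8a_pr
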