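import Pool.Agent.Work.MP_b7dc8a_pr.F.DefI
import Pool.Agent.Work.MP_b7dc8a_pr.F.Ghost

/-! Module GEX (M): exploration of a ghost free cluster outside `D`, and elementary facts on `NN`, `WW`,
`DL`. Write `E_D = offE E D`, `W_D = WW E D ω G`.

`ex_re`, `exc_split`: complex expectations are determined by the real ones.
`gex`: the left side depends on `ω` only through `ω ∩ E_D` (`offE E (D ∪ C) ⊆ E_D`, `xb_offE_offE`), so by
 `Ex_restrict` it is an expectation over `E_D`; `z ∉ cls ω' G ↔ Disjoint (cl ω' z) G` (`gh_not`);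
 `b_mark_cl` for `E_D` (`offE E_D C = offE E (D ∪ C)`); and `G ∩ C`, `G \ C` are independent (`gh_prod`,
 `gh_disj`; use `xb_Ex_swap` to exchange the expectations). Back to `Ex E` by `Ex_restrict`.
`gexC`: complex version (real and imaginary part).
`nn_off`, `nn_diff`, `ww_off`, `ww_diff`: only `ω ∩ E_D` and `G \ D` matter for vertices outside `D` (a
 vertex of `D` has no edge in `E_D`).
`nn_step`: if `z ∉ D` and `z ∉ cls (ω ∩ E_D) G`, `C = cl (ω ∩ E_D) z`: `C` is disjoint from `D`, `W_D` and `G`, and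
 for `y ∉ D ∪ C`: `cl (ω ∩ E_D) y = cl (ω ∩ offE E (D ∪ C)) y` (`xb_cl_outside`), so `y ∈ W_D ↔ y ∈ W_{D∪C}`.
`nn_total`: `univ` is the disjoint union of `D`, `W_D` and the set counted by `NN`.
`nn_anti`: more edges, more ghosts: fewer vertices. `ww_mono`. `ww_anti_D`: `W_{D'} ⊆ W_D` for `D ⊆ D'`.
`dl_eq` (`A ∩ D = ∅`): `DL = |W_D| - |W_{D ∪ A}|`, by `nn_total`. -/

namespace Pool.Agent.Work.MP_b7dc8a_pr

open Finset

section GEX
variable {V : Type} [Fintype V] [DecidableEq V]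

private theorem mem_cls' (η : Finset (Sym2 V)) (G : Finset V) (y : V) :
    y ∈ cls η G ↔ ∃ g ∈ G, g ∈ cl η y := by
  rw [xb_mem_cls]
  exact ⟨fun ⟨g, hg, h⟩ => ⟨g, hg, (cl_symm _ _ _).1 h⟩, fun ⟨g, hg, h⟩ => ⟨g, hg, (cl_symm _ _ _).1 h⟩⟩

omit [Fintype V] in
private theorem off_union (E : Finset (Sym2 V)) (D C : Finset V) (ω : Finset (Sym2 V)) :
    ω ∩ offE E (D ∪ C) = (ω ∩ offE E D) ∩ offE (offE E D) C := by
  rw [xb_offE_offE, inter_assoc, inter_eq_right.2 (xb_offE_anti E D (D ∪ C) subset_union_left)]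

private theorem ind_one {P : Prop} (h : P) : ind P = 1 := by rw [ind, if_pos h]

private theorem ind_zero {P : Prop} (h : ¬ P) : ind P = 0 := by rw [ind, if_neg h]

theorem gex (E : Finset (Sym2 V)) (p h : ℝ) (D : Finset V) (z : V)
    (H : Finset V → Finset (Sym2 V) → Finset V → ℝ) :
    EG E p h (fun ω G => ind (z ∉ cls (ω ∩ offE E D) G) * H (cl (ω ∩ offE E D) z)
      (ω ∩ offE E (D ∪ cl (ω ∩ offE E D) z)) (G \ cl (ω ∩ offE E D) z)) =
    Ex (offE E D) p (fun ω' => (1 - h) ^ (cl ω' z).card *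
      EG E p h (fun ω G => H (cl ω' z) (ω ∩ offE E (D ∪ cl ω' z)) (G \ cl ω' z))) := by
  have hD : offE E D ⊆ E := xb_offE_subset E D
  set F0 : Finset (Sym2 V) → ℝ := fun η => Ex (univ : Finset V) h (fun G => ind (z ∉ cls η G) *
    H (cl η z) (η ∩ offE (offE E D) (cl η z)) (G \ cl η z)) with hF0
  have e1 : EG E p h (fun ω G => ind (z ∉ cls (ω ∩ offE E D) G) * H (cl (ω ∩ offE E D) z)
      (ω ∩ offE E (D ∪ cl (ω ∩ offE E D) z)) (G \ cl (ω ∩ offE E D) z)) =
      Ex E p (fun ω => F0 (ω ∩ offE E D)) := by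
    unfold EG
    refine Ex_congr _ _ _ _ fun ω _ => Ex_congr _ _ _ _ fun G _ => ?_
    beta_reduce
    rw [off_union]
  rw [e1, Ex_restrict E (offE E D) hD p F0]
  have e2 : ∀ η, Ex (univ : Finset V) h (fun G => ind (z ∉ cls η G) * H (cl η z)
        (η ∩ offE (offE E D) (cl η z)) (G \ cl η z)) =
      (1 - h) ^ (cl η z).card * Ex (univ : Finset V) h (fun G => H (cl η z)
        (η ∩ offE (offE E D) (cl η z)) (G \ cl η z)) := by
    intro η
    have h1 := gh_prod h (cl η z) (univ \ cl η z) disjoint_sdiff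
      (fun G => ind (Disjoint (cl η z) G))
      (fun G => H (cl η z) (η ∩ offE (offE E D) (cl η z)) G)
    have h2 : ∀ G : Finset V, G ∩ (univ \ cl η z) = G \ cl η z := by
      intro G
      ext w
      simp
    have h3 : ∀ G : Finset V, (Disjoint (cl η z) (G ∩ cl η z) ↔ Disjoint (cl η z) G) := by
      intro G
      rw [Finset.disjoint_left, Finset.disjoint_left]
      exact ⟨fun h w hw hw' => h hw (mem_inter.2 ⟨hw', hw⟩), fun h w hw hw' =>
        h hw (mem_inter.1 hw').1⟩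
    simp only [h2, h3, gh_disj] at h1
    rw [← h1]
    refine Ex_congr _ _ _ _ fun G _ => ?_
    rw [gh_not]
  rw [Ex_congr _ _ _ _ fun η _ => e2 η]
  have h1 := b_mark_cl (offE E D) z p (fun C _ η => (1 - h) ^ C.card *
    Ex (univ : Finset V) h (fun G => H C η (G \ C)))
  rw [h1]
  refine Ex_congr _ _ _ _ fun ω' _ => ?_
  rw [Ex_mul_left, xb_offE_offE]
  congr 1
  unfold EG
  rw [← Ex_restrict E (offE E (D ∪ cl ω' z)) (xb_offE_subset E _) p]

omit [DecidableEq V] in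
private theorem egc_eq (E : Finset (Sym2 V)) (p h : ℝ) (F : Finset (Sym2 V) → Finset V → ℂ) :
    EGC E p h F = (EG E p h (fun ω G => (F ω G).re) : ℂ) +
      Complex.I * (EG E p h (fun ω G => (F ω G).im) : ℂ) := by
  unfold EGC EG
  rw [← ExC_ofReal, ← ExC_ofReal, ← ExC_mul_left, ← ExC_add]
  congr 1
  funext ω
  exact bin_ExC_eq _ _ _

theorem gexC (E : Finset (Sym2 V)) (p h : ℝ) (D : Finset V) (z : V)
    (H : Finset V → Finset (Sym2 V) → Finset V → ℂ) :
    EGC E p h (fun ω G => (ind (z ∉ cls (ω ∩ offE E D) G) : ℂ) * H (cl (ω ∩ offE E D) z)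
      (ω ∩ offE E (D ∪ cl (ω ∩ offE E D) z)) (G \ cl (ω ∩ offE E D) z)) =
    ExC (offE E D) p (fun ω' => (((1 - h) ^ (cl ω' z).card : ℝ) : ℂ) *
      EGC E p h (fun ω G => H (cl ω' z) (ω ∩ offE E (D ∪ cl ω' z)) (G \ cl ω' z))) := by
  rw [egc_eq]
  simp only [Complex.re_ofReal_mul, Complex.im_ofReal_mul]
  rw [gex E p h D z (fun C ω G => (H C ω G).re), gex E p h D z (fun C ω G => (H C ω G).im)]
  rw [← ExC_ofReal, ← ExC_ofReal, ← ExC_mul_left, ← ExC_add]
  congr 1
  funext ω'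
  rw [egc_eq]
  push_cast
  ring

omit [Fintype V] in
private theorem inter_idem (E : Finset (Sym2 V)) (D : Finset V) (ω : Finset (Sym2 V)) :
    (ω ∩ offE E D) ∩ offE E D = ω ∩ offE E D := by
  rw [inter_assoc, inter_self]

theorem nn_off (E : Finset (Sym2 V)) (D : Finset V) (ω : Finset (Sym2 V)) (G : Finset V) :
    NN E D (ω ∩ offE E D) G = NN E D ω G := by
  unfold NN
  rw [inter_idem]

private theorem cls_diff (E : Finset (Sym2 V)) (D C : Finset V) (hC : C ⊆ D) (ω : Finset (Sym2 V))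
    (G : Finset V) (y : V) (hy : y ∉ D) :
    y ∈ cls (ω ∩ offE E D) (G \ C) ↔ y ∈ cls (ω ∩ offE E D) G := by
  rw [mem_cls', mem_cls']
  constructor
  · rintro ⟨g, hg, h⟩
    exact ⟨g, (mem_sdiff.1 hg).1, h⟩
  · rintro ⟨g, hg, h⟩
    refine ⟨g, mem_sdiff.2 ⟨hg, fun hgC => ?_⟩, h⟩
    exact Finset.disjoint_left.1 (xb_cl_off' E _ D inter_subset_right y hy) h (hC hgC)

theorem nn_diff (E : Finset (Sym2 V)) (D C : Finset V) (hC : C ⊆ D) (ω : Finset (Sym2 V))
    (G : Finset V) : NN E D ω (G \ C) = NN E D ω G := by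
  unfold NN
  rw [Nat.cast_inj]
  congr 1
  ext y
  rw [mem_filter, mem_filter]
  refine and_congr_right fun _ => and_congr_right fun hy => ?_
  rw [cls_diff E D C hC ω G y hy]

theorem ww_off (E : Finset (Sym2 V)) (D : Finset V) (ω : Finset (Sym2 V)) (G : Finset V) :
    WW E D (ω ∩ offE E D) G = WW E D ω G := by
  unfold WW
  rw [inter_idem]

theorem ww_mem (E : Finset (Sym2 V)) (D : Finset V) (ω : Finset (Sym2 V)) (G : Finset V) (z : V) :
    z ∈ WW E D ω G ↔ z ∉ D ∧ z ∈ cls (ω ∩ offE E D) G := by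
  unfold WW
  rw [mem_filter]
  exact ⟨fun h => h.2, fun h => ⟨mem_univ _, h⟩⟩

theorem ww_diff (E : Finset (Sym2 V)) (D C : Finset V) (hC : C ⊆ D) (ω : Finset (Sym2 V))
    (G : Finset V) : WW E D ω (G \ C) = WW E D ω G := by
  ext y
  rw [ww_mem, ww_mem]
  refine and_congr_right fun hy => ?_
  rw [cls_diff E D C hC ω G y hy]

private theorem cls_step (E : Finset (Sym2 V)) (D : Finset V) (ω : Finset (Sym2 V)) (G : Finset V)
    (z : V) (y : V) (hy : y ∉ cl (ω ∩ offE E D) z) :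
    y ∈ cls (ω ∩ offE E (D ∪ cl (ω ∩ offE E D) z)) G ↔ y ∈ cls (ω ∩ offE E D) G := by
  rw [mem_cls', mem_cls', off_union]
  have h1 := (xb_cl_outside (offE E D) (ω ∩ offE E D) inter_subset_right {z} y
    (by rwa [cls_singleton])).1
  rw [cls_singleton] at h1
  rw [h1]

private theorem cl_not_cls (η : Finset (Sym2 V)) (G : Finset V) (z y : V) (hz : z ∉ cls η G)
    (hy : y ∈ cl η z) : y ∉ cls η G := by
  rw [mem_cls'] at hz ⊢
  rwa [cl_eq_of_mem η z y hy]

theorem nn_step (E : Finset (Sym2 V)) (D : Finset V) (ω : Finset (Sym2 V)) (G : Finset V) (z : V)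
    (hz : z ∉ D) (hz' : z ∉ cls (ω ∩ offE E D) G) :
    NN E D ω G = ((cl (ω ∩ offE E D) z).card : ℝ) + NN E (D ∪ cl (ω ∩ offE E D) z) ω G ∧
      WW E D ω G = WW E (D ∪ cl (ω ∩ offE E D) z) ω G := by
  classical
  set C := cl (ω ∩ offE E D) z with hC
  have hCD : ∀ y ∈ C, y ∉ D := fun y hy => Finset.disjoint_left.1
    (xb_cl_off' E _ D inter_subset_right z hz) hy
  have hCG : ∀ y ∈ C, y ∉ cls (ω ∩ offE E D) G := fun y hy => cl_not_cls _ G z y hz' hy
  constructor
  · unfold NN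
    rw [← Nat.cast_add, Nat.cast_inj, ← Finset.card_union_of_disjoint]
    · congr 1
      ext y
      rw [mem_union, mem_filter, mem_filter, mem_union, not_or]
      constructor
      · rintro ⟨_, h1, h2⟩
        by_cases hy : y ∈ C
        · exact Or.inl hy
        · exact Or.inr ⟨mem_univ _, ⟨h1, hy⟩, fun h => h2 ((cls_step E D ω G z y hy).1 h)⟩
      · rintro (h | ⟨_, ⟨h1, h2⟩, h3⟩)
        · exact ⟨mem_univ _, hCD y h, hCG y h⟩
        · exact ⟨mem_univ _, h1, fun h => h3 ((cls_step E D ω G z y h2).2 h)⟩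
    · rw [Finset.disjoint_left]
      intro y hy hy'
      rw [mem_filter, mem_union, not_or] at hy'
      exact hy'.2.1.2 hy
  · ext y
    rw [ww_mem, ww_mem, mem_union, not_or]
    constructor
    · rintro ⟨h1, h2⟩
      have hy : y ∉ C := fun h => hCG y h h2
      exact ⟨⟨h1, hy⟩, (cls_step E D ω G z y hy).2 h2⟩
    · rintro ⟨⟨h1, h2⟩, h3⟩
      exact ⟨h1, (cls_step E D ω G z y h2).1 h3⟩

theorem nn_total (E : Finset (Sym2 V)) (D : Finset V) (ω : Finset (Sym2 V)) (G : Finset V) :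
    NN E D ω G + ((WW E D ω G).card : ℝ) + (D.card : ℝ) = Fintype.card V := by
  classical
  unfold NN
  rw [← Nat.cast_add, ← Nat.cast_add, Nat.cast_inj, ← Finset.card_univ (α := V)]
  rw [← Finset.card_union_of_disjoint, ← Finset.card_union_of_disjoint]
  · congr 1
    ext y
    rw [mem_union, mem_union, mem_filter, ww_mem]
    refine ⟨fun _ => mem_univ _, fun _ => ?_⟩
    by_cases h1 : y ∈ D
    · exact Or.inr h1
    by_cases h2 : y ∈ cls (ω ∩ offE E D) G
    · exact Or.inl (Or.inr ⟨h1, h2⟩)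
    · exact Or.inl (Or.inl ⟨mem_univ _, h1, h2⟩)
  · rw [Finset.disjoint_left]
    intro y hy hy'
    rw [mem_union, mem_filter, ww_mem] at hy
    rcases hy with h | h
    · exact h.2.1 hy'
    · exact h.1 hy'
  · rw [Finset.disjoint_left]
    intro y hy hy'
    rw [mem_filter] at hy
    rw [ww_mem] at hy'
    exact hy.2.2 hy'.2

theorem nn_anti (E : Finset (Sym2 V)) (D : Finset V) (ω ω' : Finset (Sym2 V)) (G G' : Finset V)
    (h : ω ⊆ ω') (hG : G ⊆ G') : NN E D ω' G' ≤ NN E D ω G := by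
  unfold NN
  rw [Nat.cast_le]
  refine Finset.card_le_card fun y hy => ?_
  rw [mem_filter] at hy ⊢
  refine ⟨hy.1, hy.2.1, fun hy' => hy.2.2 ?_⟩
  exact xb_cls_mono _ _ _ _ (inter_subset_inter_right h) hG hy'

theorem ww_mono (E : Finset (Sym2 V)) (D : Finset V) (ω ω' : Finset (Sym2 V)) (G G' : Finset V)
    (h : ω ⊆ ω') (hG : G ⊆ G') : WW E D ω G ⊆ WW E D ω' G' := by
  intro y hy
  rw [ww_mem] at hy ⊢
  exact ⟨hy.1, xb_cls_mono _ _ _ _ (inter_subset_inter_right h) hG hy.2⟩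

theorem ww_anti_D (E : Finset (Sym2 V)) (D D' : Finset V) (hD : D ⊆ D') (ω : Finset (Sym2 V))
    (G : Finset V) : WW E D' ω G ⊆ WW E D ω G := by
  intro y hy
  rw [ww_mem] at hy ⊢
  exact ⟨fun h => hy.1 (hD h), xb_cls_mono _ _ _ _
    (inter_subset_inter_left (xb_offE_anti E D D' hD)) (Subset.refl G) hy.2⟩

theorem dl_eq (E : Finset (Sym2 V)) (D A : Finset V) (hA : Disjoint A D) (ω : Finset (Sym2 V))
    (G : Finset V) :
    DL E D A ω G = ((WW E D ω G).card : ℝ) - ((WW E (D ∪ A) ω G).card : ℝ) := by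
  have h1 := nn_total E D ω G
  have h2 := nn_total E (D ∪ A) ω G
  rw [Finset.card_union_of_disjoint hA.symm, Nat.cast_add] at h2
  unfold DL
  linarith

theorem dl_nonneg (E : Finset (Sym2 V)) (D A : Finset V) (ω : Finset (Sym2 V)) (G : Finset V) :
    0 ≤ DL E D A ω G := by
  have h1 := nn_total E D ω G
  have h2 := nn_total E (D ∪ A) ω G
  have h3 : ((D ∪ A).card : ℝ) ≤ D.card + A.card := by exact_mod_cast card_union_le D A
  have h4 : ((WW E (D ∪ A) ω G).card : ℝ) ≤ (WW E D ω G).card := by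
    exact_mod_cast card_le_card (ww_anti_D E D (D ∪ A) subset_union_left ω G)
  unfold DL
  linarith

theorem dl_add (E : Finset (Sym2 V)) (D A B : Finset V) (hAB : Disjoint A B)
    (ω : Finset (Sym2 V)) (G : Finset V) :
    DL E D (A ∪ B) ω G = DL E D A ω G + DL E (D ∪ A) B ω G := by
  unfold DL
  rw [Finset.card_union_of_disjoint hAB, union_assoc]
  push_cast
  ring

theorem ww_prob_eq (E : Finset (Sym2 V)) (p h : ℝ) (D : Finset V) (z : V) (hz : z ∉ D) :
    EG E p h (fun ω G => ind (z ∈ WW E D ω G)) = Mh (offE E D) p h z := by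
  have h1 : Mh (offE E D) p h z = Ex (offE E D) p (fun ω => 1 - (1 - h) ^ (cl ω z).card) := by
    rw [Ex_sub, Ex_const]
    rfl
  rw [h1, ← Ex_restrict E (offE E D) (xb_offE_subset E D) p]
  unfold EG
  refine Ex_congr _ _ _ _ fun ω _ => ?_
  rw [← gh_hit]
  refine Ex_congr _ _ _ _ fun G _ => ?_
  beta_reduce
  rw [← gh_not, not_not]
  congr 1
  rw [ww_mem]
  exact propext ⟨fun h => h.2, fun h => ⟨hz, h⟩⟩

/-- probability to be connected to a ghost -/
theorem ww_prob (E : Finset (Sym2 V)) (p h : ℝ) (h0 : 0 ≤ p) (h1 : p ≤ 1) (hh0 : 0 ≤ h)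
    (hh1 : h ≤ 1) (D : Finset V) (z : V) :
    EG E p h (fun ω G => ind (z ∈ WW E D ω G)) ≤ Mh E p h z := by
  have q0 : (0 : ℝ) ≤ 1 - h := by linarith
  have q1 : 1 - h ≤ 1 := by linarith
  have hMh : ∀ E' : Finset (Sym2 V), Mh E' p h z =
      wt E' p (fun A => 1 - (1 - h) ^ A.card) z := by
    intro E'
    unfold wt
    rw [Ex_sub, Ex_const]
    rfl
  by_cases hz : z ∈ D
  · have h2 : EG E p h (fun ω G => ind (z ∈ WW E D ω G)) = 0 := by
      unfold EG
      rw [← Ex_const E p 0]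
      refine Ex_congr _ _ _ _ fun ω _ => ?_
      rw [← Ex_const (univ : Finset V) h 0]
      simp only [Ex_const]
      rw [← Ex_const (univ : Finset V) h 0]
      refine Ex_congr _ _ _ _ fun G _ => ?_
      exact ind_zero fun h' => ((ww_mem E D ω G z).1 h').1 hz
    rw [h2, hMh]
    unfold wt
    exact xb_Ex_nonneg _ _ h0 h1 _ fun ω _ => by
      have := pow_le_one₀ (n := (cl ω z).card) q0 q1
      linarith
  · rw [ww_prob_eq E p h D z hz, hMh, hMh]
    refine xb_wt_mono_E E (offE E D) (xb_offE_subset E D) p h0 h1 _ (fun A B hAB => ?_) z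
    have := pow_le_pow_of_le_one q0 q1 (card_le_card hAB)
    linarith

end GEX

end Pool.Agent.Work.MP_b7dc8a_pr
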