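import Pool.Agent.Work.MP_b7dc8a_pr.F.Bon

/-! Module HYP (M): the random walk started from a small set rarely returns to it.

`s = |S|/2^m <= 2^(-m/40)`. Fourier formula (B/Four, private lemmas there, copy):
`2^m wk (cubeE m) n x y = ∑_A (m - 2|A|)^n chr A x chr A y`. So
`∑_{x,y ∈ S} wk n x y / m^n = 2^m ∑_A (1 - 2|A|/m)^n (fh S A)^2
  <= 2^m ∑_A exp (-2 |A| n/m) (fh S A)^2 + 2^m ∑_A exp (-2 (m-|A|) n/m) (fh S A)^2`
(`|1 - 2k/m| <= exp (-2k/m)` if `2k <= m`, `<= exp (-2(m-k)/m)` otherwise).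
Let `θ = min 1 (2 n/(m log 3))`; `exp (-2 |A| n/m) <= ((1/3)^|A|)^θ`. By Hölder (weights `(fh S A)^2`,
`Real.inner_le_Lp_mul_Lq` or concavity of `x^θ`):
`∑ ((1/3)^|A|)^θ (fh)^2 <= (∑ (1/3)^|A| (fh)^2)^θ (∑ (fh)^2)^(1-θ) <= s^(3θ/2) s^(1-θ) = s^(1+θ/2)`
by `bon_level`, `bon_parseval`; the same for the second sum by `bon_twist`. So the sum is at most
`2 * 2^m s^(1+θ/2) = 2 |S| s^(θ/2) <= 2 |S| 2^(-(m/80) θ)`, and `(m/80) θ >= min (m/80) (n/44) >=
min n m/100` as `log 3 <= 11/10`. -/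

namespace Pool.Agent.Work.MP_b7dc8a_pr

open Finset

private def fl {m : ℕ} (i : Fin m) (x : Q m) : Q m := Function.update x i (!x i)

private theorem fl_same {m : ℕ} (i : Fin m) (x : Q m) : fl i x i = !x i := by
  simp [fl]

private theorem fl_ne {m : ℕ} (i j : Fin m) (x : Q m) (h : j ≠ i) : fl i x j = x j := by
  simp [fl, h]

private theorem fl_inj {m : ℕ} (i j : Fin m) (x : Q m) (h : fl i x = fl j x) : i = j := by
  by_contra hne
  have h1 := congrFun h i
  rw [fl_same, fl_ne j i x hne] at h1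
  cases hx : x i <;> simp [hx] at h1

private theorem mem_cube {m : ℕ} (x z : Q m) : s(x, z) ∈ cubeE m ↔ ∃ i, z = fl i x := by
  have h0 : s(x, z) ∈ cubeE m ↔ hammingDist x z = 1 := by
    unfold cubeE
    rw [SimpleGraph.mem_edgeFinset, SimpleGraph.mem_edgeSet]
    rfl
  rw [h0]
  constructor
  · intro h
    unfold hammingDist at h
    rw [Finset.card_eq_one] at h
    obtain ⟨i, hi⟩ := h
    refine ⟨i, ?_⟩
    funext j
    by_cases hj : j = i
    · subst hj
      have h1 : j ∈ univ.filter (fun i => x i ≠ z i) := by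
        rw [hi]; exact Finset.mem_singleton_self _
      rw [Finset.mem_filter] at h1
      rw [fl_same]
      have h2 := h1.2
      cases hx : x j <;> cases hz : z j <;> simp_all
    · have h1 : j ∉ univ.filter (fun i => x i ≠ z i) := by
        rw [hi, Finset.mem_singleton]; exact hj
      rw [Finset.mem_filter] at h1
      rw [fl_ne i j x hj]
      by_contra h2
      exact h1 ⟨Finset.mem_univ _, fun h3 => h2 h3.symm⟩
  · rintro ⟨i, rfl⟩
    unfold hammingDist
    have : (univ.filter fun j => x j ≠ fl i x j) = {i} := by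
      ext j
      simp only [Finset.mem_filter, Finset.mem_univ, true_and, Finset.mem_singleton]
      constructor
      · intro h
        by_contra hne
        exact h (fl_ne i j x hne).symm
      · intro h
        subst h
        rw [fl_same]
        cases x j <;> simp
    rw [this, Finset.card_singleton]

private theorem nb_cube {m : ℕ} (f : Q m → ℝ) (x : Q m) :
    nb (cubeE m) f x = ∑ i : Fin m, f (fl i x) := by
  classical
  unfold nb
  refine (Finset.sum_congr (s₂ := univ.image (fun i => fl i x)) ?_ fun _ _ => rfl).trans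
    (Finset.sum_image ?_)
  · ext z
    simp only [Finset.mem_filter, Finset.mem_univ, true_and, Finset.mem_image]
    rw [mem_cube]
    constructor
    · rintro ⟨i, hi⟩
      exact ⟨i, hi.symm⟩
    · rintro ⟨i, hi⟩
      exact ⟨i, hi.symm⟩
  · exact fun i _ j _ hij => fl_inj i j x hij

private noncomputable def sg (b : Bool) : ℝ := if b then -1 else 1

private theorem sg_not (b : Bool) : sg (!b) = - sg b := by
  cases b <;> simp [sg]

private theorem sg_abs (b : Bool) : |sg b| = 1 := by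
  cases b <;> simp [sg]

private noncomputable def ch {m : ℕ} (A : Finset (Fin m)) (x : Q m) : ℝ := ∏ i ∈ A, sg (x i)

private theorem ch_abs {m : ℕ} (A : Finset (Fin m)) (x : Q m) : |ch A x| = 1 := by
  unfold ch
  rw [Finset.abs_prod]
  exact Finset.prod_eq_one fun i _ => sg_abs _

private theorem ch_fl {m : ℕ} (A : Finset (Fin m)) (i : Fin m) (x : Q m) :
    ch A (fl i x) = (if i ∈ A then -1 else 1) * ch A x := by
  unfold ch
  by_cases hi : i ∈ A
  · rw [if_pos hi, ← Finset.mul_prod_erase A _ hi, ← Finset.mul_prod_erase A _ hi, fl_same, sg_not]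
    have : ∏ j ∈ A.erase i, sg (fl i x j) = ∏ j ∈ A.erase i, sg (x j) :=
      Finset.prod_congr rfl fun j hj => by rw [fl_ne i j x (Finset.ne_of_mem_erase hj)]
    rw [this]
    ring
  · rw [if_neg hi, one_mul]
    exact Finset.prod_congr rfl fun j hj => by
      rw [fl_ne i j x (fun h => hi (h ▸ hj))]

private theorem nb_ch {m : ℕ} (A : Finset (Fin m)) (x : Q m) :
    nb (cubeE m) (ch A) x = ((m : ℝ) - 2 * A.card) * ch A x := by
  rw [nb_cube]
  simp_rw [ch_fl]
  rw [← Finset.sum_mul]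
  congr 1
  have h1 : ∀ i : Fin m, (if i ∈ A then (-1 : ℝ) else 1) = 1 - 2 * (if i ∈ A then 1 else 0) := by
    intro i
    split_ifs <;> norm_num
  simp_rw [h1]
  rw [Finset.sum_sub_distrib, ← Finset.mul_sum, Finset.sum_ite_mem]
  simp

private theorem ch_delta {m : ℕ} (x y : Q m) :
    ∑ A : Finset (Fin m), ch A x * ch A y = if x = y then (2 : ℝ) ^ m else 0 := by
  have h1 : ∀ A : Finset (Fin m), ch A x * ch A y = ∏ i ∈ A, (sg (x i) * sg (y i)) := by
    intro A
    unfold ch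
    rw [Finset.prod_mul_distrib]
  simp_rw [h1]
  have h2 := Finset.prod_one_add (f := fun i : Fin m => sg (x i) * sg (y i)) (univ : Finset (Fin m))
  rw [Finset.powerset_univ] at h2
  rw [← h2]
  by_cases hxy : x = y
  · subst hxy
    rw [if_pos rfl]
    have h3 : ∀ i : Fin m, 1 + sg (x i) * sg (x i) = 2 := by
      intro i
      cases x i <;> norm_num [sg]
    simp_rw [h3]
    simp
  · rw [if_neg hxy]
    have h3 : ∃ i, x i ≠ y i := by
      by_contra hcon
      push Not at hcon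
      exact hxy (funext hcon)
    obtain ⟨i, hi⟩ := h3
    refine Finset.prod_eq_zero (Finset.mem_univ i) ?_
    revert hi
    cases x i <;> cases y i <;> norm_num [sg]

/-- the Fourier formula for the number of walks -/
private theorem wk_fourier (m t : ℕ) (x y : Q m) :
    2 ^ m * wk (cubeE m) t x y =
      ∑ A : Finset (Fin m), ((m : ℝ) - 2 * A.card) ^ t * (ch A x * ch A y) := by
  induction t generalizing x with
  | zero =>
    simp only [pow_zero, one_mul]
    rw [ch_delta]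
    unfold wk
    simp
  | succ t ih =>
    have h1 : wk (cubeE m) (t + 1) x y = nb (cubeE m) (fun z => wk (cubeE m) t z y) x := by
      unfold wk
      rw [Function.iterate_succ_apply']
    have h2 : 2 ^ m * nb (cubeE m) (fun z => wk (cubeE m) t z y) x =
        nb (cubeE m) (fun z => 2 ^ m * wk (cubeE m) t z y) x := by
      rw [nb_cube, nb_cube, Finset.mul_sum]
    rw [h1, h2]
    simp_rw [ih]
    rw [nb_cube, Finset.sum_comm]
    refine Finset.sum_congr rfl fun A _ => ?_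
    have h3 := nb_ch A x
    rw [nb_cube] at h3
    rw [pow_succ, ← Finset.mul_sum, ← Finset.sum_mul, h3]
    ring

private theorem eig_le (m t k : ℕ) (hm : 1 ≤ m) (hk : k ≤ m) :
    |(m : ℝ) - 2 * k| ^ t ≤ (m : ℝ) ^ t * (Real.exp (-(2 * t / m)) ^ k +
      Real.exp (-(2 * t / m)) ^ (m - k)) := by
  have hm0 : (0 : ℝ) < m := by exact_mod_cast hm
  have key : ∀ j : ℕ, 0 ≤ (m : ℝ) - 2 * j →
      ((m : ℝ) - 2 * j) ^ t ≤ (m : ℝ) ^ t * Real.exp (-(2 * t / m)) ^ j := by
    intro j hj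
    have h1 : (m : ℝ) - 2 * j ≤ m * Real.exp (-(2 * j / m)) := by
      have h2 := Real.add_one_le_exp (-(2 * (j : ℝ) / m))
      have h3 := mul_le_mul_of_nonneg_left h2 hm0.le
      have h4 : (m : ℝ) * (-(2 * (j : ℝ) / m) + 1) = m - 2 * j := by field_simp; ring
      linarith
    refine (pow_le_pow_left₀ hj h1 t).trans (le_of_eq ?_)
    rw [mul_pow, ← Real.exp_nat_mul, ← Real.exp_nat_mul]
    congr 2
    ring
  rcases le_total 0 ((m : ℝ) - 2 * k) with h | h
  · rw [abs_of_nonneg h]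
    refine (key k h).trans ?_
    gcongr
    have := Real.exp_pos (-(2 * (t : ℝ) / m))
    linarith [pow_pos this (m - k)]
  · have hcast : ((m - k : ℕ) : ℝ) = (m : ℝ) - k := by
      rw [Nat.cast_sub hk]
    have h5 : |(m : ℝ) - 2 * k| = (m : ℝ) - 2 * ((m - k : ℕ) : ℝ) := by
      rw [abs_of_nonpos h, hcast]; ring
    rw [h5]
    refine (key (m - k) ?_).trans ?_
    · rw [hcast]; linarith
    · gcongr
      have := Real.exp_pos (-(2 * (t : ℝ) / m))
      linarith [pow_pos this k]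

private theorem card_le_m {m : ℕ} (A : Finset (Fin m)) : A.card ≤ m := by
  have := Finset.card_le_univ A
  simpa using this


private theorem chr_eq_ch {m : ℕ} (A : Finset (Fin m)) (x : Q m) : chr A x = ch A x := rfl

private theorem wk_double (m n : ℕ) (S : Finset (Q m)) :
    ∑ x ∈ S, ∑ y ∈ S, wk (cubeE m) n x y =
      2 ^ m * ∑ A : Finset (Fin m), ((m : ℝ) - 2 * A.card) ^ n * fh S A ^ 2 := by
  have hN : (2 : ℝ) ^ m ≠ 0 := by positivity
  apply mul_left_cancel₀ hN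
  have h1 : (2 : ℝ) ^ m * ∑ x ∈ S, ∑ y ∈ S, wk (cubeE m) n x y =
      ∑ x ∈ S, ∑ y ∈ S, ∑ A : Finset (Fin m), ((m : ℝ) - 2 * A.card) ^ n * (ch A x * ch A y) := by
    rw [Finset.mul_sum]
    refine Finset.sum_congr rfl fun x _ => ?_
    rw [Finset.mul_sum]
    exact Finset.sum_congr rfl fun y _ => wk_fourier m n x y
  rw [h1]
  have h2 : ∀ x ∈ S, ∑ y ∈ S, ∑ A : Finset (Fin m), ((m : ℝ) - 2 * A.card) ^ n *
      (ch A x * ch A y) = ∑ A : Finset (Fin m), ((m : ℝ) - 2 * A.card) ^ n *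
        (ch A x * ∑ y ∈ S, ch A y) := by
    intro x _
    rw [Finset.sum_comm]
    refine Finset.sum_congr rfl fun A _ => ?_
    rw [← Finset.mul_sum, ← Finset.mul_sum]
  rw [Finset.sum_congr rfl h2, Finset.sum_comm, Finset.mul_sum, Finset.mul_sum]
  refine Finset.sum_congr rfl fun A _ => ?_
  rw [← Finset.mul_sum, ← Finset.sum_mul]
  have h3 : ∑ x ∈ S, ch A x = 2 ^ m * fh S A := by
    unfold fh
    simp_rw [chr_eq_ch]
    field_simp
  rw [h3]
  ring

/-- concavity of the power `θ` -/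
private theorem hol_pow {ι : Type} (s : Finset ι) (w u : ι → ℝ) (hw : ∀ i ∈ s, 0 ≤ w i)
    (hu : ∀ i ∈ s, 0 ≤ u i) (θ v : ℝ) (h0 : 0 ≤ θ) (h1 : θ ≤ 1) (hv : 0 < v)
    (hW : ∑ i ∈ s, w i ≤ v ^ 2) (hU : ∑ i ∈ s, u i * w i ≤ v ^ 3) :
    ∑ i ∈ s, u i ^ θ * w i ≤ v ^ 2 * v ^ θ := by
  have hvp : v ^ (θ - 1) * v ^ (1 - θ) = 1 := by
    rw [← Real.rpow_add hv]
    simp
  have hvq : v ^ (θ - 1) * v = v ^ θ := by
    nth_rewrite 2 [← Real.rpow_one v]
    rw [← Real.rpow_add hv]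
    congr 1
    ring
  have hterm : ∀ i ∈ s, u i ^ θ * w i ≤ v ^ (θ - 1) * (θ * (u i * w i) + (1 - θ) * v * w i) := by
    intro i hi
    have h2 := Real.geom_mean_le_arith_mean2_weighted h0 (by linarith : 0 ≤ 1 - θ) (hu i hi) hv.le
      (by ring)
    have h3 : u i ^ θ = v ^ (θ - 1) * (u i ^ θ * v ^ (1 - θ)) := by
      calc u i ^ θ = (v ^ (θ - 1) * v ^ (1 - θ)) * u i ^ θ := by rw [hvp, one_mul]
        _ = _ := by ring
    have h4 : 0 ≤ v ^ (θ - 1) := (Real.rpow_pos_of_pos hv _).le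
    calc u i ^ θ * w i = v ^ (θ - 1) * (u i ^ θ * v ^ (1 - θ)) * w i := by rw [← h3]
      _ ≤ v ^ (θ - 1) * (θ * u i + (1 - θ) * v) * w i := by
        exact mul_le_mul_of_nonneg_right (mul_le_mul_of_nonneg_left h2 h4) (hw i hi)
      _ = _ := by ring
  refine (Finset.sum_le_sum hterm).trans ?_
  rw [← Finset.mul_sum, Finset.sum_add_distrib, ← Finset.mul_sum, ← Finset.mul_sum]
  have h4 : 0 ≤ v ^ (θ - 1) := (Real.rpow_pos_of_pos hv _).le
  have h5 : θ * ∑ i ∈ s, u i * w i + (1 - θ) * v * ∑ i ∈ s, w i ≤ v ^ 3 := by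
    have h6 : θ * ∑ i ∈ s, u i * w i ≤ θ * v ^ 3 := mul_le_mul_of_nonneg_left hU h0
    have h7 : (1 - θ) * v * ∑ i ∈ s, w i ≤ (1 - θ) * v * v ^ 2 :=
      mul_le_mul_of_nonneg_left hW (mul_nonneg (by linarith) hv.le)
    nlinarith
  calc _ ≤ v ^ (θ - 1) * v ^ 3 := mul_le_mul_of_nonneg_left h5 h4
    _ = v ^ 2 * (v ^ (θ - 1) * v) := by ring
    _ = _ := by rw [hvq]

theorem hyp_walk (m : ℕ) (hm : 1 ≤ m) (S : Finset (Q m))
    (hS : (S.card : ℝ) ≤ (2 : ℝ) ^ ((m : ℝ) - m / 40)) (n : ℕ) :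
    ∑ x ∈ S, ∑ y ∈ S, wk (cubeE m) n x y / (m : ℝ) ^ n ≤
      2 * S.card * (2 : ℝ) ^ (-(min (n : ℝ) m) / 100) := by
  rcases Finset.eq_empty_or_nonempty S with hSe | hSn
  · subst hSe
    simp
  have hm0 : (0 : ℝ) < m := by exact_mod_cast hm
  have hN : (0 : ℝ) < 2 ^ m := by positivity
  have hc0 : (0 : ℝ) < S.card := by exact_mod_cast hSn.card_pos
  set s : ℝ := (S.card : ℝ) / 2 ^ m with hs
  have hs0 : 0 < s := by positivity
  set v : ℝ := Real.sqrt s with hv
  have hv0 : 0 < v := Real.sqrt_pos.2 hs0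
  have hv2 : v ^ 2 = s := Real.sq_sqrt hs0.le
  have hlog3 : 0 < Real.log 3 := Real.log_pos (by norm_num)
  have hlog3' : Real.log 3 ≤ 2 := by
    have := Real.log_le_sub_one_of_pos (show (0 : ℝ) < 3 by norm_num)
    linarith
  set θ : ℝ := min 1 (2 * n / (m * Real.log 3)) with hθ
  have hθ0 : 0 ≤ θ := le_min zero_le_one (by positivity)
  have hθ1 : θ ≤ 1 := min_le_left _ _
  set E : ℝ := Real.exp (-(2 * n / m)) with hE
  have hE0 : 0 ≤ E := (Real.exp_pos _).le
  have hEθ : ∀ k : ℕ, E ^ k ≤ ((1 / 3 : ℝ) ^ k) ^ θ := by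
    intro k
    have h1 : E ≤ (1 / 3 : ℝ) ^ θ := by
      rw [Real.rpow_def_of_pos (by norm_num), hE]
      apply Real.exp_le_exp.2
      have h2 : Real.log (1 / 3) = - Real.log 3 := by
        rw [one_div, Real.log_inv]
      rw [h2]
      have h3 : θ ≤ 2 * n / (m * Real.log 3) := min_le_right _ _
      have h4 : θ * Real.log 3 ≤ 2 * n / m := by
        calc θ * Real.log 3 ≤ 2 * n / (m * Real.log 3) * Real.log 3 :=
              mul_le_mul_of_nonneg_right h3 hlog3.le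
          _ = _ := by field_simp
      linarith
    refine (pow_le_pow_left₀ hE0 h1 k).trans (le_of_eq ?_)
    rw [← Real.rpow_natCast, ← Real.rpow_natCast, ← Real.rpow_mul (by norm_num),
      ← Real.rpow_mul (by norm_num), mul_comm]
  have hpars := bon_parseval m S
  have hlev : ∑ A : Finset (Fin m), (1 / 3 : ℝ) ^ A.card * fh S A ^ 2 ≤ v ^ 3 := by
    have h := bon_level m S
    rw [← hs, ← hv2] at h
    apply abs_le_of_sq_le_sq' _ (by positivity) |>.2
    calc _ ≤ (v ^ 2) ^ 3 := h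
      _ = _ := by ring
  have htw : ∑ A : Finset (Fin m), (1 / 3 : ℝ) ^ (m - A.card) * fh S A ^ 2 ≤ v ^ 3 := by
    have h := bon_twist m S
    rw [← hs, ← hv2] at h
    apply abs_le_of_sq_le_sq' _ (by positivity) |>.2
    calc _ ≤ (v ^ 2) ^ 3 := h
      _ = _ := by ring
  have hP : ∑ A : Finset (Fin m), fh S A ^ 2 ≤ v ^ 2 := by
    rw [hpars, hv2]
  have hX : ∑ A : Finset (Fin m), ((1 / 3 : ℝ) ^ A.card) ^ θ * fh S A ^ 2 ≤ v ^ 2 * v ^ θ :=
    hol_pow univ (fun A => fh S A ^ 2) (fun A => (1 / 3 : ℝ) ^ A.card) (fun _ _ => sq_nonneg _)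
      (fun _ _ => by positivity) θ v hθ0 hθ1 hv0 hP hlev
  have hY : ∑ A : Finset (Fin m), ((1 / 3 : ℝ) ^ (m - A.card)) ^ θ * fh S A ^ 2 ≤ v ^ 2 * v ^ θ :=
    hol_pow univ (fun A => fh S A ^ 2) (fun A => (1 / 3 : ℝ) ^ (m - A.card))
      (fun _ _ => sq_nonneg _) (fun _ _ => by positivity) θ v hθ0 hθ1 hv0 hP htw
  have hmain : ∑ x ∈ S, ∑ y ∈ S, wk (cubeE m) n x y ≤
      (m : ℝ) ^ n * (2 * S.card * v ^ θ) := by
    rw [wk_double]
    have h1 : ∀ A : Finset (Fin m), ((m : ℝ) - 2 * A.card) ^ n * fh S A ^ 2 ≤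
        (m : ℝ) ^ n * (((1 / 3 : ℝ) ^ A.card) ^ θ * fh S A ^ 2) +
          (m : ℝ) ^ n * (((1 / 3 : ℝ) ^ (m - A.card)) ^ θ * fh S A ^ 2) := by
      intro A
      have h2 : ((m : ℝ) - 2 * A.card) ^ n ≤ |(m : ℝ) - 2 * A.card| ^ n := by
        rw [← abs_pow]
        exact le_abs_self _
      have h3 := eig_le m n A.card hm (card_le_m A)
      have h4 : |(m : ℝ) - 2 * A.card| ^ n ≤ (m : ℝ) ^ n * (((1 / 3 : ℝ) ^ A.card) ^ θ +
          ((1 / 3 : ℝ) ^ (m - A.card)) ^ θ) := by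
        refine h3.trans (mul_le_mul_of_nonneg_left ?_ (by positivity))
        exact add_le_add (hEθ _) (hEθ _)
      calc ((m : ℝ) - 2 * A.card) ^ n * fh S A ^ 2 ≤ ((m : ℝ) ^ n * (((1 / 3 : ℝ) ^ A.card) ^ θ +
          ((1 / 3 : ℝ) ^ (m - A.card)) ^ θ)) * fh S A ^ 2 :=
            mul_le_mul_of_nonneg_right (h2.trans h4) (sq_nonneg _)
        _ = _ := by ring
    have h5 : ∑ A : Finset (Fin m), ((m : ℝ) - 2 * A.card) ^ n * fh S A ^ 2 ≤
        (m : ℝ) ^ n * (2 * (v ^ 2 * v ^ θ)) := by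
      refine (Finset.sum_le_sum fun A _ => h1 A).trans ?_
      rw [Finset.sum_add_distrib, ← Finset.mul_sum, ← Finset.mul_sum, ← mul_add]
      refine mul_le_mul_of_nonneg_left ?_ (by positivity)
      linarith
    calc 2 ^ m * ∑ A : Finset (Fin m), ((m : ℝ) - 2 * A.card) ^ n * fh S A ^ 2
        ≤ 2 ^ m * ((m : ℝ) ^ n * (2 * (v ^ 2 * v ^ θ))) := mul_le_mul_of_nonneg_left h5 hN.le
      _ = (m : ℝ) ^ n * (2 * (2 ^ m * s) * v ^ θ) := by rw [hv2]; ring
      _ = _ := by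
        congr 2
        rw [hs]
        field_simp
  have hvθ : v ^ θ ≤ (2 : ℝ) ^ (-(min (n : ℝ) m) / 100) := by
    have h1 : v ≤ (2 : ℝ) ^ (-(m : ℝ) / 80) := by
      have h2 : s ≤ ((2 : ℝ) ^ (-(m : ℝ) / 80)) ^ 2 := by
        rw [← Real.rpow_natCast ((2 : ℝ) ^ (-(m : ℝ) / 80)) 2, ← Real.rpow_mul (by norm_num), hs,
          div_le_iff₀ hN, ← Real.rpow_natCast 2 m, ← Real.rpow_add (by norm_num)]
        refine hS.trans (le_of_eq ?_)
        congr 1
        push_cast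
        ring
      rw [hv]
      exact Real.sqrt_le_iff.2 ⟨by positivity, h2⟩
    refine (Real.rpow_le_rpow hv0.le h1 hθ0).trans ?_
    rw [← Real.rpow_mul (by norm_num)]
    apply Real.rpow_le_rpow_of_exponent_le (by norm_num)
    rcases le_total 1 (2 * (n : ℝ) / (m * Real.log 3)) with h3 | h3
    · have h4 : θ = 1 := min_eq_left h3
      rw [h4]
      have h5 : min (n : ℝ) m ≤ m := min_le_right _ _
      linarith
    · have h4 : θ = 2 * (n : ℝ) / (m * Real.log 3) := min_eq_right h3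
      rw [h4]
      have h5 : min (n : ℝ) m ≤ n := min_le_left _ _
      have h6 : -(m : ℝ) / 80 * (2 * n / (m * Real.log 3)) = -(n / (40 * Real.log 3)) := by
        field_simp
        ring
      rw [h6]
      have h7 : (n : ℝ) / 100 ≤ n / (40 * Real.log 3) := by
        apply div_le_div_of_nonneg_left (Nat.cast_nonneg n) (by positivity)
        linarith
      linarith
  have hdiv : ∑ x ∈ S, ∑ y ∈ S, wk (cubeE m) n x y / (m : ℝ) ^ n =
      (∑ x ∈ S, ∑ y ∈ S, wk (cubeE m) n x y) / (m : ℝ) ^ n := by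
    simp_rw [Finset.sum_div]
  rw [hdiv, div_le_iff₀ (by positivity)]
  refine hmain.trans ?_
  rw [mul_comm ((m : ℝ) ^ n)]
  refine mul_le_mul_of_nonneg_right ?_ (by positivity)
  exact mul_le_mul_of_nonneg_left hvθ (by positivity)

end Pool.Agent.Work.MP_b7dc8a_pr
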