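import Pool.Agent.Work.MP_b7dc8a_pr.F.Ghost

/-! Module JLOW (M-L): lower bound for `Jf`. `E' ⊆ E`. `θ A = 1 - (1-h)^|A|` is monotone, subadditive and
nonnegative; `wt E p θ x = Mh E p h x`. `M` bounds `Mh E p h`, `c1` bounds `mo E' p h 1`.
All two point functions of subgraphs are bounded by those of `E` (`xb_tau_mono_E`), the same for `Mh`
(`xb_wt_mono_E`).

Step 1 (`b_mark_cl` for `E'`, vertex `u`, `xb_cl_outside`): with `C = cl ω u`
 `Jf = Ex E' p (|C| (1-h)^|C| ind (a ∉ C) ind (b ∉ C) K_C)`,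
 `K_C = Ex (offE E' C) p (ind (b ∉ cl η a) θ(cl η a) θ(cl η b))`.
Step 2: write `M_C = Mh (offE E' C) p h`, `τ_C` its two point function. Exploring `A = cl η a` (`b_mark_cl`):
 `K_C = Ex (offE E' C) p (θ(A) ind (b ∉ A) Mh (offE (offE E' C) A) p h b)`, and
 `ind (b ∉ A) Mh (offE (offE E' C) A) b >= M_C b - ∑_{d∈A} τ_C b d M_C d`: for `b ∉ A` this is `b_obst`
 (`D = A`); for `b ∈ A` the right side is `<= M_C b - τ_C b b M_C b = 0`. With `b_pair`
 (`Ex (θ(cl η a) ind (d ∈ cl η a)) <= ∑_w τ_C a w τ_C d w M_C w`):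
 `K_C >= M_C a * M_C b - M^2 ∑_{d,w} tau b d tau d w tau w a = M_C a M_C b - M^2 tri E p a b`
 (symmetry of `tau`).
Step 3: let `α = M ∑_{d∈C} tau E p a d`, `β = M ∑_{d∈C} tau E p b d`, `x0 = Mh E' a`, `y0 = Mh E' b`
 (`0 <= x0, y0 <= M`). Then `ind (a ∉ C) ind (b ∉ C) M_C a M_C b >= x0 y0 - α y0 - β x0`: if `a ∈ C` then
 `α >= M tau a a = M >= x0` and the right side is `<= 0` (same for `b`); if `a, b ∉ C`, `b_obst` gives
 `M_C a >= x0 - α`, `M_C b >= y0 - β`, and `x y >= x0 y0 - α y0 - β x0` for `x >= max (x0-α) 0`,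
 `y >= max (y0-β) 0`, `α, β >= 0`.
Step 4: so `Jf >= mo E' u * x0 y0 - M^2 ∑_d (tau a d + tau b d) Ex E' (|C| (1-h)^|C| ind (d ∈ C))
 - M^2 tri E p a b * mo E' u`; by `gh_tree` (for `E'`) and `mo E' p h 1 <= c1` the middle sum is at most
 `c1 ∑_{d,w} (tau a d + tau b d) tau d w tau w u = c1 (tri a u + tri b u)`. -/

namespace Pool.Agent.Work.MP_b7dc8a_pr

open Finset

section JLOW
variable {V : Type} [Fintype V] [DecidableEq V]

private noncomputable def th (h : ℝ) (A : Finset V) : ℝ := 1 - (1 - h) ^ A.card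

omit [Fintype V] [DecidableEq V] in
private theorem th_nn (h : ℝ) (hh0 : 0 ≤ h) (hh1 : h ≤ 1) (A : Finset V) : 0 ≤ th h A := by
  unfold th
  have := pow_le_one₀ (n := A.card) (by linarith : (0 : ℝ) ≤ 1 - h) (by linarith)
  linarith

omit [Fintype V] [DecidableEq V] in
private theorem th_mono (h : ℝ) (hh0 : 0 ≤ h) (hh1 : h ≤ 1) (A B : Finset V) (hAB : A ⊆ B) :
    th h A ≤ th h B := by
  unfold th
  have := pow_le_pow_of_le_one (by linarith : (0 : ℝ) ≤ 1 - h) (by linarith) (card_le_card hAB)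
  linarith

omit [Fintype V] in
private theorem th_sub (h : ℝ) (hh0 : 0 ≤ h) (hh1 : h ≤ 1) (A B : Finset V) :
    th h (A ∪ B) ≤ th h A + th h B := by
  have h1 := pow_le_pow_of_le_one (by linarith : (0 : ℝ) ≤ 1 - h) (by linarith)
    (card_union_le A B)
  rw [pow_add] at h1
  have h2 := mul_nonneg (th_nn h hh0 hh1 A) (th_nn h hh0 hh1 B)
  unfold th at h2 ⊢
  nlinarith

omit [DecidableEq V] in
private theorem wt_th (E : Finset (Sym2 V)) (p h : ℝ) (x : V) : wt E p (th h) x = Mh E p h x := by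
  unfold wt th Mh
  rw [Ex_sub, Ex_const]

omit [DecidableEq V] in
private theorem Mh_nn (E : Finset (Sym2 V)) (p h : ℝ) (h0 : 0 ≤ p) (h1 : p ≤ 1) (hh0 : 0 ≤ h)
    (hh1 : h ≤ 1) (x : V) : 0 ≤ Mh E p h x := by
  rw [← wt_th]
  unfold wt
  exact xb_Ex_nonneg _ _ h0 h1 _ fun ω _ => th_nn h hh0 hh1 _

private theorem Mh_mono (E E' : Finset (Sym2 V)) (hE : E' ⊆ E) (p h : ℝ) (h0 : 0 ≤ p) (h1 : p ≤ 1)
    (hh0 : 0 ≤ h) (hh1 : h ≤ 1) (x : V) : Mh E' p h x ≤ Mh E p h x := by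
  rw [← wt_th, ← wt_th]
  exact xb_wt_mono_E E E' hE p h0 h1 _ (th_mono h hh0 hh1) x

/-- the pair bound: `Ex F (ind (b ∉ cl η a) θ(cl η a) θ(cl η b)) >= Mh a Mh b - M^2 tri` -/
private theorem kpair (E F : Finset (Sym2 V)) (hE : F ⊆ E) (p h M : ℝ) (h0 : 0 ≤ p) (h1 : p ≤ 1)
    (hh0 : 0 ≤ h) (hh1 : h ≤ 1) (hM : ∀ x, Mh E p h x ≤ M) (a b : V) :
    Mh F p h a * Mh F p h b - M ^ 2 * tri E p a b ≤
      Ex F p (fun η => ind (b ∉ cl η a) * (th h (cl η a) * th h (cl η b))) := by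
  have hMF0 : ∀ x, 0 ≤ Mh F p h x := Mh_nn F p h h0 h1 hh0 hh1
  have hMF : ∀ x, Mh F p h x ≤ M := fun x => (Mh_mono E F hE p h h0 h1 hh0 hh1 x).trans (hM x)
  have hM0 : 0 ≤ M := (hMF0 a).trans (hMF a)
  have hmark := b_mark_cl F a p (fun A _ η => ind (b ∉ A) * (th h A * th h (cl η b)))
  have e1 : Ex F p (fun η => ind (b ∉ cl η a) * (th h (cl η a) * th h (cl η b))) =
      Ex F p (fun ω => ind (b ∉ cl ω a) * (th h (cl ω a) *
        th h (cl (ω ∩ offE F (cl ω a)) b))) := by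
    refine Ex_congr _ _ _ _ fun ω hω => ?_
    by_cases hb : b ∈ cl ω a
    · have : ind (b ∉ cl ω a) = 0 := by
        rw [ind, if_neg (not_not.2 hb)]
      rw [this, zero_mul, zero_mul]
    · have h2 := (xb_cl_outside F ω hω {a} b (by rwa [cls_singleton])).1
      rw [cls_singleton] at h2
      rw [h2]
  rw [e1]
  rw [hmark]
  have e2 : ∀ ω ⊆ F, th h (cl ω a) * Mh F p h b -
      ∑ d, tau F p b d * Mh F p h d * (th h (cl ω a) * ind (d ∈ cl ω a)) ≤
      Ex (offE F (cl ω a)) p (fun η => ind (b ∉ cl ω a) * (th h (cl ω a) * th h (cl η b))) := by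
    intro ω hω
    rw [Ex_mul_left, Ex_mul_left]
    have e3 : Ex (offE F (cl ω a)) p (fun η => th h (cl η b)) = wt (offE F (cl ω a)) p (th h) b :=
      rfl
    rw [e3]
    have e4 : ∑ d, tau F p b d * Mh F p h d * (th h (cl ω a) * ind (d ∈ cl ω a)) =
        th h (cl ω a) * ∑ d ∈ cl ω a, tau F p b d * Mh F p h d := by
      rw [Finset.mul_sum, ← Finset.sum_subset (Finset.subset_univ (cl ω a))]
      · refine Finset.sum_congr rfl fun d hd => ?_
        rw [ind, if_pos hd]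
        ring
      · intro d _ hd
        rw [ind, if_neg hd]
        ring
    rw [e4]
    have hthA := th_nn h hh0 hh1 (cl ω a)
    by_cases hb : b ∈ cl ω a
    · have : ind (b ∉ cl ω a) = 0 := by
        rw [ind, if_neg (not_not.2 hb)]
      rw [this, zero_mul]
      have h2 : Mh F p h b ≤ ∑ d ∈ cl ω a, tau F p b d * Mh F p h d := by
        have h3 := Finset.single_le_sum (f := fun d => tau F p b d * Mh F p h d)
          (fun d _ => mul_nonneg (xb_tau_nonneg F p h0 h1 b d) (hMF0 d)) hb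
        simp only [xb_tau_self, one_mul] at h3
        exact h3
      have h4 := mul_le_mul_of_nonneg_left h2 hthA
      linarith
    · have : ind (b ∉ cl ω a) = 1 := by
        rw [ind, if_pos hb]
      rw [this, one_mul]
      have h2 := b_obst F p h0 h1 (th h) (th_mono h hh0 hh1) (th_sub h hh0 hh1) (th_nn h hh0 hh1)
        (cl ω a) b hb
      simp only [wt_th] at h2 ⊢
      have h4 := mul_le_mul_of_nonneg_left h2 hthA
      linarith
  refine le_trans ?_ (Ex_mono F p h0 h1 _ _ e2)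
  rw [Ex_sub, Ex_sum]
  have e5 : Ex F p (fun ω => th h (cl ω a) * Mh F p h b) = Mh F p h a * Mh F p h b := by
    rw [← wt_th F p h a]
    unfold wt
    rw [mul_comm, ← Ex_mul_left]
    exact Ex_congr _ _ _ _ fun ω _ => mul_comm _ _
  rw [e5]
  have e6 : ∑ d, Ex F p (fun ω => tau F p b d * Mh F p h d * (th h (cl ω a) * ind (d ∈ cl ω a))) ≤
      M ^ 2 * tri E p a b := by
    have e7 : ∀ d, Ex F p (fun ω => tau F p b d * Mh F p h d *
        (th h (cl ω a) * ind (d ∈ cl ω a))) ≤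
        ∑ w, M ^ 2 * (tau E p a w * tau E p w d * tau E p d b) := by
      intro d
      rw [Ex_mul_left]
      have h2 := b_pair F p h0 h1 (th h) (th_mono h hh0 hh1) (th_sub h hh0 hh1) (th_nn h hh0 hh1) a d
      have h3 : ∑ w, tau F p a w * tau F p d w * wt F p (th h) w ≤
          ∑ w, M * (tau E p a w * tau E p w d) := by
        refine Finset.sum_le_sum fun w _ => ?_
        rw [wt_th, mul_comm M]
        refine mul_le_mul ?_ (hMF w) (hMF0 w)
          (mul_nonneg (xb_tau_nonneg E p h0 h1 _ _) (xb_tau_nonneg E p h0 h1 _ _))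
        rw [xb_tau_comm F p d w]
        exact mul_le_mul (xb_tau_mono_E E F hE p h0 h1 _ _) (xb_tau_mono_E E F hE p h0 h1 _ _)
          (xb_tau_nonneg F p h0 h1 _ _) (xb_tau_nonneg E p h0 h1 _ _)
      have h4 : tau F p b d * Mh F p h d ≤ tau E p d b * M := by
        rw [xb_tau_comm F p b d]
        exact mul_le_mul (xb_tau_mono_E E F hE p h0 h1 _ _) (hMF d) (hMF0 d)
          (xb_tau_nonneg E p h0 h1 _ _)
      have h5 : 0 ≤ Ex F p (fun ω => th h (cl ω a) * ind (d ∈ cl ω a)) :=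
        xb_Ex_nonneg _ _ h0 h1 _ fun ω _ => mul_nonneg (th_nn h hh0 hh1 _) (xb_ind_nonneg _)
      refine (mul_le_mul h4 (h2.trans h3) h5
        (mul_nonneg (xb_tau_nonneg E p h0 h1 _ _) hM0)).trans (le_of_eq ?_)
      rw [Finset.mul_sum]
      refine Finset.sum_congr rfl fun w _ => ?_
      ring
    refine (Finset.sum_le_sum fun d _ => e7 d).trans (le_of_eq ?_)
    unfold tri
    rw [Finset.sum_comm, Finset.mul_sum]
    exact Finset.sum_congr rfl fun w _ => by rw [Finset.mul_sum]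
  linarith

omit [DecidableEq V] in
private theorem mo_nn (E : Finset (Sym2 V)) (p h : ℝ) (h0 : 0 ≤ p) (h1 : p ≤ 1)
    (hh1 : h ≤ 1) (k : ℕ) (x : V) : 0 ≤ mo E p h k x := by
  unfold mo
  exact xb_Ex_nonneg _ _ h0 h1 _ fun ω _ =>
    mul_nonneg (by positivity) (pow_nonneg (by linarith) _)

/-- `Ex E' (|C| (1-h)^|C| ∑_{d ∈ C} tau a d) <= c1 tri a u` -/
private theorem jtree (E E' : Finset (Sym2 V)) (hE : E' ⊆ E) (p h c1 : ℝ) (h0 : 0 ≤ p) (h1 : p ≤ 1)
    (hh0 : 0 ≤ h) (hh1 : h ≤ 1) (hc : ∀ x, mo E' p h 1 x ≤ c1) (u a : V) :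
    Ex E' p (fun ω => ((cl ω u).card : ℝ) * (1 - h) ^ (cl ω u).card *
      ∑ d ∈ cl ω u, tau E p a d) ≤ c1 * tri E p a u := by
  have e1 : Ex E' p (fun ω => ((cl ω u).card : ℝ) * (1 - h) ^ (cl ω u).card *
      ∑ d ∈ cl ω u, tau E p a d) = ∑ d, tau E p a d * Ex E' p (fun ω =>
        ((cl ω u).card : ℝ) * (1 - h) ^ (cl ω u).card * ind (d ∈ cl ω u)) := by
    rw [show (∑ d, tau E p a d * Ex E' p (fun ω =>
        ((cl ω u).card : ℝ) * (1 - h) ^ (cl ω u).card * ind (d ∈ cl ω u))) =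
        ∑ d, Ex E' p (fun ω => tau E p a d *
        (((cl ω u).card : ℝ) * (1 - h) ^ (cl ω u).card * ind (d ∈ cl ω u))) from
      Finset.sum_congr rfl fun d _ => by rw [Ex_mul_left]]
    rw [← Ex_sum]
    refine Ex_congr _ _ _ _ fun ω _ => ?_
    rw [Finset.mul_sum, ← Finset.sum_subset (Finset.subset_univ (cl ω u))]
    · refine Finset.sum_congr rfl fun d hd => ?_
      rw [ind, if_pos hd]
      ring
    · intro d _ hd
      rw [ind, if_neg hd]
      ring
  rw [e1]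
  have e2 : ∀ d, tau E p a d * Ex E' p (fun ω =>
        ((cl ω u).card : ℝ) * (1 - h) ^ (cl ω u).card * ind (d ∈ cl ω u)) ≤
      ∑ w, c1 * (tau E p a d * tau E p d w * tau E p w u) := by
    intro d
    have h2 := gh_tree E' p h h0 h1 hh0 hh1 u d
    have h3 : ∑ w, tau E' p u w * tau E' p d w * mo E' p h 1 w ≤
        ∑ w, c1 * (tau E p d w * tau E p w u) := by
      refine Finset.sum_le_sum fun w _ => ?_
      rw [mul_comm c1, xb_tau_comm E' p u w, mul_comm (tau E' p w u)]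
      refine mul_le_mul ?_ (hc w) (mo_nn E' p h h0 h1 hh1 1 w)
        (mul_nonneg (xb_tau_nonneg E p h0 h1 _ _) (xb_tau_nonneg E p h0 h1 _ _))
      exact mul_le_mul (xb_tau_mono_E E E' hE p h0 h1 _ _) (xb_tau_mono_E E E' hE p h0 h1 _ _)
        (xb_tau_nonneg E' p h0 h1 _ _) (xb_tau_nonneg E p h0 h1 _ _)
    refine (mul_le_mul_of_nonneg_left (h2.trans h3) (xb_tau_nonneg E p h0 h1 a d)).trans
      (le_of_eq ?_)
    rw [Finset.mul_sum]
    refine Finset.sum_congr rfl fun w _ => ?_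
    ring
  refine (Finset.sum_le_sum fun d _ => e2 d).trans (le_of_eq ?_)
  unfold tri
  rw [Finset.mul_sum]
  exact Finset.sum_congr rfl fun w _ => by rw [Finset.mul_sum]

private theorem num_step (x0 y0 α β x y : ℝ) (hx0 : 0 ≤ x0) (hy0 : 0 ≤ y0) (hα : 0 ≤ α)
    (hβ : 0 ≤ β) (hx : 0 ≤ x) (hy : 0 ≤ y) (hxα : x0 - α ≤ x) (hyβ : y0 - β ≤ y) :
    x0 * y0 - α * y0 - β * x0 ≤ x * y := by
  by_cases h1 : x0 ≤ α
  · have h2 : x0 * y0 ≤ α * y0 := mul_le_mul_of_nonneg_right h1 hy0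
    have h3 := mul_nonneg hβ hx0
    have h4 := mul_nonneg hx hy
    linarith
  by_cases h5 : y0 ≤ β
  · have h2 : y0 * x0 ≤ β * x0 := mul_le_mul_of_nonneg_right h5 hx0
    have h3 := mul_nonneg hα hy0
    have h4 := mul_nonneg hx hy
    linarith
  · have h6 : (x0 - α) * (y0 - β) ≤ x * y :=
      mul_le_mul hxα hyβ (by linarith) hx
    have h7 := mul_nonneg hα hβ
    nlinarith

theorem jlow (E E' : Finset (Sym2 V)) (hE : E' ⊆ E) (p h M c1 : ℝ) (h0 : 0 ≤ p) (h1 : p ≤ 1)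
    (hh0 : 0 ≤ h) (hh1 : h ≤ 1) (hM : ∀ x, Mh E p h x ≤ M) (hc : ∀ x, mo E' p h 1 x ≤ c1)
    (u a b : V) :
    mo E' p h 1 u * (Mh E' p h a * Mh E' p h b) - M ^ 2 * c1 * (tri E p a u + tri E p b u) -
      M ^ 2 * tri E p a b * mo E' p h 1 u ≤ Jf E' p h u a b := by
  have hM'0 : ∀ x, 0 ≤ Mh E' p h x := Mh_nn E' p h h0 h1 hh0 hh1
  have hM' : ∀ x, Mh E' p h x ≤ M := fun x => (Mh_mono E E' hE p h h0 h1 hh0 hh1 x).trans (hM x)
  have hM0 : 0 ≤ M := (hM'0 a).trans (hM' a)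
  have hc0 : 0 ≤ c1 := (mo_nn E' p h h0 h1 hh1 1 u).trans (hc u)
  have htri0 : ∀ x y, 0 ≤ tri E p x y := fun x y => Finset.sum_nonneg fun _ _ =>
    Finset.sum_nonneg fun _ _ => mul_nonneg (mul_nonneg (xb_tau_nonneg E p h0 h1 _ _)
      (xb_tau_nonneg E p h0 h1 _ _)) (xb_tau_nonneg E p h0 h1 _ _)
  -- step 1
  have hmark := b_mark_cl E' u p (fun C _ η => ((C.card : ℝ) * (1 - h) ^ C.card *
    (ind (a ∉ C) * ind (b ∉ C))) * (ind (b ∉ cl η a) * (th h (cl η a) * th h (cl η b))))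
  have e1 : Jf E' p h u a b = Ex E' p (fun ω => (((cl ω u).card : ℝ) * (1 - h) ^ (cl ω u).card *
      (ind (a ∉ cl ω u) * ind (b ∉ cl ω u))) * (ind (b ∉ cl (ω ∩ offE E' (cl ω u)) a) *
      (th h (cl (ω ∩ offE E' (cl ω u)) a) * th h (cl (ω ∩ offE E' (cl ω u)) b)))) := by
    unfold Jf
    refine Ex_congr _ _ _ _ fun ω hω => ?_
    by_cases ha : a ∈ cl ω u
    · have : ind (a ∉ cl ω u) = 0 := by
        rw [ind, if_neg (not_not.2 ha)]
      rw [this]
      ring
    by_cases hb : b ∈ cl ω u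
    · have : ind (b ∉ cl ω u) = 0 := by
        rw [ind, if_neg (not_not.2 hb)]
      rw [this]
      ring
    have h2 := (xb_cl_outside E' ω hω {u} a (by rwa [cls_singleton])).1
    have h3 := (xb_cl_outside E' ω hω {u} b (by rwa [cls_singleton])).1
    rw [cls_singleton] at h2 h3
    rw [h2, h3]
    unfold th
    ring
  rw [e1]
  rw [hmark]
  -- step 2 and 3
  set x0 := Mh E' p h a with hx0
  set y0 := Mh E' p h b with hy0
  have e2 : ∀ ω ⊆ E', (x0 * y0 - M ^ 2 * tri E p a b) *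
      (((cl ω u).card : ℝ) * (1 - h) ^ (cl ω u).card) -
      (y0 * M) * (((cl ω u).card : ℝ) * (1 - h) ^ (cl ω u).card * ∑ d ∈ cl ω u, tau E p a d) -
      (x0 * M) * (((cl ω u).card : ℝ) * (1 - h) ^ (cl ω u).card * ∑ d ∈ cl ω u, tau E p b d) ≤
      Ex (offE E' (cl ω u)) p (fun η => (((cl ω u).card : ℝ) * (1 - h) ^ (cl ω u).card *
      (ind (a ∉ cl ω u) * ind (b ∉ cl ω u))) * (ind (b ∉ cl η a) *
      (th h (cl η a) * th h (cl η b)))) := by
    intro ω hω
    rw [Ex_mul_left]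
    set C := cl ω u with hC
    set α := M * ∑ d ∈ C, tau E p a d with hα
    set β := M * ∑ d ∈ C, tau E p b d with hβ
    have hα0 : 0 ≤ α := mul_nonneg hM0 (Finset.sum_nonneg fun d _ => xb_tau_nonneg E p h0 h1 _ _)
    have hβ0 : 0 ≤ β := mul_nonneg hM0 (Finset.sum_nonneg fun d _ => xb_tau_nonneg E p h0 h1 _ _)
    have hoff : offE E' C ⊆ E := (xb_offE_subset E' C).trans hE
    have hk := kpair E (offE E' C) hoff p h M h0 h1 hh0 hh1 hM a b
    have hpos : 0 ≤ (C.card : ℝ) * (1 - h) ^ C.card :=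
      mul_nonneg (by positivity) (pow_nonneg (by linarith) _)
    have key : x0 * y0 - M ^ 2 * tri E p a b - y0 * α - x0 * β ≤
        (ind (a ∉ C) * ind (b ∉ C)) *
          Ex (offE E' C) p (fun η => ind (b ∉ cl η a) * (th h (cl η a) * th h (cl η b))) := by
      have hT : 0 ≤ M ^ 2 * tri E p a b := mul_nonneg (by positivity) (htri0 a b)
      have hMC0 := Mh_nn (offE E' C) p h h0 h1 hh0 hh1
      by_cases ha : a ∈ C
      · have : ind (a ∉ C) = 0 := by
          rw [ind, if_neg (not_not.2 ha)]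
        rw [this, zero_mul, zero_mul]
        have h2 : 1 ≤ ∑ d ∈ C, tau E p a d := by
          have h3 := Finset.single_le_sum (f := fun d => tau E p a d)
            (fun d _ => (xb_tau_nonneg E p h0 h1 a d)) ha
          simp only [xb_tau_self] at h3
          exact h3
        have h3 : M ≤ α := by
          rw [hα]
          exact le_mul_of_one_le_right hM0 h2
        have h4 : x0 * y0 ≤ α * y0 := mul_le_mul_of_nonneg_right ((hM' a).trans h3) (hM'0 b)
        have h5 := mul_nonneg (hM'0 a) hβ0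
        rw [← hx0] at h5
        linarith
      by_cases hb : b ∈ C
      · have : ind (b ∉ C) = 0 := by
          rw [ind, if_neg (not_not.2 hb)]
        rw [this, mul_zero, zero_mul]
        have h2 : 1 ≤ ∑ d ∈ C, tau E p b d := by
          have h3 := Finset.single_le_sum (f := fun d => tau E p b d)
            (fun d _ => (xb_tau_nonneg E p h0 h1 b d)) hb
          simp only [xb_tau_self] at h3
          exact h3
        have h3 : M ≤ β := by
          rw [hβ]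
          exact le_mul_of_one_le_right hM0 h2
        have h4 : y0 * x0 ≤ β * x0 := mul_le_mul_of_nonneg_right ((hM' b).trans h3) (hM'0 a)
        have h5 := mul_nonneg (hM'0 b) hα0
        rw [← hy0] at h5
        linarith
      have i1 : ind (a ∉ C) = 1 := by rw [ind, if_pos ha]
      have i2 : ind (b ∉ C) = 1 := by rw [ind, if_pos hb]
      rw [i1, i2, one_mul, one_mul]
      have ob : ∀ z, z ∉ C → Mh E' p h z - M * ∑ d ∈ C, tau E p z d ≤ Mh (offE E' C) p h z := by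
        intro z hz
        have h2 := b_obst E' p h0 h1 (th h) (th_mono h hh0 hh1) (th_sub h hh0 hh1)
          (th_nn h hh0 hh1) C z hz
        simp only [wt_th] at h2
        have h3 : ∑ d ∈ C, tau E' p z d * Mh E' p h d ≤ M * ∑ d ∈ C, tau E p z d := by
          rw [Finset.mul_sum]
          refine Finset.sum_le_sum fun d _ => ?_
          rw [mul_comm M]
          exact mul_le_mul (xb_tau_mono_E E E' hE p h0 h1 _ _) (hM' d) (hM'0 d)
            (xb_tau_nonneg E p h0 h1 _ _)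
        linarith
      have h6 := num_step x0 y0 α β (Mh (offE E' C) p h a) (Mh (offE E' C) p h b) (hM'0 a) (hM'0 b)
        hα0 hβ0 (hMC0 a) (hMC0 b) (ob a ha) (ob b hb)
      linarith
    have h7 := mul_le_mul_of_nonneg_left key hpos
    have h8 : (C.card : ℝ) * (1 - h) ^ C.card * (x0 * y0 - M ^ 2 * tri E p a b - y0 * α - x0 * β) =
        (x0 * y0 - M ^ 2 * tri E p a b) * ((C.card : ℝ) * (1 - h) ^ C.card) -
        (y0 * M) * ((C.card : ℝ) * (1 - h) ^ C.card * ∑ d ∈ C, tau E p a d) -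
        (x0 * M) * ((C.card : ℝ) * (1 - h) ^ C.card * ∑ d ∈ C, tau E p b d) := by
      rw [hα, hβ]
      ring
    rw [← h8]
    refine h7.trans (le_of_eq ?_)
    ring
  refine le_trans ?_ (Ex_mono E' p h0 h1 _ _ e2)
  rw [Ex_sub, Ex_sub, Ex_mul_left, Ex_mul_left, Ex_mul_left]
  have e3 : Ex E' p (fun ω => ((cl ω u).card : ℝ) * (1 - h) ^ (cl ω u).card) = mo E' p h 1 u := by
    unfold mo
    exact Ex_congr _ _ _ _ fun ω _ => by rw [pow_one]
  rw [e3]
  have e4 := jtree E E' hE p h c1 h0 h1 hh0 hh1 hc u a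
  have e5 := jtree E E' hE p h c1 h0 h1 hh0 hh1 hc u b
  have e6 : (y0 * M) * Ex E' p (fun ω => ((cl ω u).card : ℝ) * (1 - h) ^ (cl ω u).card *
      ∑ d ∈ cl ω u, tau E p a d) ≤ (M * M) * (c1 * tri E p a u) := by
    refine (mul_le_mul_of_nonneg_left e4 (mul_nonneg (hM'0 b) hM0)).trans ?_
    exact mul_le_mul_of_nonneg_right (mul_le_mul_of_nonneg_right (hM' b) hM0)
      (mul_nonneg hc0 (htri0 a u))
  have e7 : (x0 * M) * Ex E' p (fun ω => ((cl ω u).card : ℝ) * (1 - h) ^ (cl ω u).card *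
      ∑ d ∈ cl ω u, tau E p b d) ≤ (M * M) * (c1 * tri E p b u) := by
    refine (mul_le_mul_of_nonneg_left e5 (mul_nonneg (hM'0 a) hM0)).trans ?_
    exact mul_le_mul_of_nonneg_right (mul_le_mul_of_nonneg_right (hM' a) hM0)
      (mul_nonneg hc0 (htri0 b u))
  nlinarith

end JLOW

end Pool.Agent.Work.MP_b7dc8a_pr
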