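import Pool.Agent.Work.MP_b7dc8a_pr.F.Fcf
import Pool.Agent.Work.MP_b7dc8a_pr.B.Fin2

/-! Module MAIN3 (M, assembly): the theorem for the whole supercritical regime.

Let `ε1 m = max (ε m) (2^(-m/25))`, `ε2 m = min (ε m) (2^(-m/30))`. `main2` for `ε1` gives `a1, b1`. For `ε2`:
`ε2^3 2^m -> ∞` and `0 < ε2 m <= 2^(-m/36)` eventually; `pc m * m <= 1 + 5000 dl m` (`final_pc_upper`); `fcf` for every `t`
(with `δ' -> 0`) and `levy` (Levy.lean) with `a2 m = aF m (ε2 m) (pc m (1 + ε2 m))`, `b2 m = bF ..` (replace it by `1` if it is not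
positive). For every large `m`, `ε m = ε1 m` (if `ε m >= 2^(-m/25)`) or `ε m = ε2 m` (if `ε m < 2^(-m/25) <= 2^(-m/30)`): take
`a m, b m` accordingly; both sequences of probabilities converge to the same limit. -/

namespace Pool.Agent.Work.MP_b7dc8a_pr

open Finset Filter Topology

private theorem main3_pow (c : ℝ) (hc : 0 < c) :
    Tendsto (fun m : ℕ => (2 : ℝ) ^ (-(m : ℝ) / c)) atTop (𝓝 0) := by
  have h1 : (fun m : ℕ => (2 : ℝ) ^ (-(m : ℝ) / c)) = fun m : ℕ => ((2 : ℝ) ^ (-(1 / c))) ^ m := by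
    funext m
    rw [← Real.rpow_natCast, ← Real.rpow_mul (by norm_num)]
    congr 1
    ring
  rw [h1]
  apply tendsto_pow_atTop_nhds_zero_of_lt_one
  · positivity
  · apply Real.rpow_lt_one_of_one_lt_of_neg (by norm_num)
    have : 0 < 1 / c := by positivity
    linarith

private theorem main3_eps (ε : ℕ → ℝ) (hε : Tendsto (fun m : ℕ => ε m ^ 3 * 2 ^ m) atTop atTop) :
    Tendsto (fun m : ℕ => (min (ε m) ((2 : ℝ) ^ (-(m : ℝ) / 30))) ^ 3 * 2 ^ m) atTop atTop := by
  have h2 : Tendsto (fun m : ℕ => ((2 : ℝ) ^ (-(m : ℝ) / 30)) ^ 3 * 2 ^ m) atTop atTop := by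
    have h3 : (fun m : ℕ => ((2 : ℝ) ^ (-(m : ℝ) / 30)) ^ 3 * 2 ^ m) =
        fun m : ℕ => ((2 : ℝ) ^ (9 / 10 : ℝ)) ^ m := by
      funext m
      rw [← Real.rpow_natCast ((2 : ℝ) ^ (-(m : ℝ) / 30)) 3, ← Real.rpow_mul (by norm_num),
        ← Real.rpow_natCast 2 m, ← Real.rpow_add (by norm_num), ← Real.rpow_natCast,
        ← Real.rpow_mul (by norm_num)]
      congr 1
      push_cast
      ring
    rw [h3]
    exact tendsto_pow_atTop_atTop_of_one_lt (Real.one_lt_rpow (by norm_num) (by norm_num))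
  rw [tendsto_atTop]
  intro C
  filter_upwards [hε.eventually (eventually_ge_atTop C),
    h2.eventually (eventually_ge_atTop C)] with m h3 h4
  rcases le_total (ε m) ((2 : ℝ) ^ (-(m : ℝ) / 30)) with h | h
  · rw [min_eq_left h]; exact h3
  · rw [min_eq_right h]; exact h4

theorem main3 (lam : ℝ) (hlam : 0 < lam) (pc ε : ℕ → ℝ)
    (hpc : ∀ᶠ m in atTop, 0 ≤ pc m ∧ pc m ≤ 1 ∧
      Ex (cubeE m) (pc m) (fun ω => ((cl ω (fun _ => false)).card : ℝ)) =
        lam * ((2 : ℝ) ^ m) ^ (1 / 3 : ℝ))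
    (hε0 : Tendsto ε atTop (𝓝 0))
    (hε : Tendsto (fun m : ℕ => ε m ^ 3 * 2 ^ m) atTop atTop) :
    ∃ a b : ℕ → ℝ, (∀ m, 0 < b m) ∧ ∀ x : ℝ,
      Tendsto (fun m => Ex (cubeE m) (pc m * (1 + ε m))
        (fun ω => ind (((largest ω : ℝ) - a m) / b m ≤ x))) atTop
        (𝓝 ((ProbabilityTheory.gaussianReal 0 1).real (Set.Iic x))) := by
  classical
  have h25 := main3_pow 25 (by norm_num)
  have h30 := main3_pow 30 (by norm_num)
  -- first range
  set ε1 : ℕ → ℝ := fun m => max (ε m) ((2 : ℝ) ^ (-(m : ℝ) / 25)) with hε1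
  have hε1_0 : Tendsto ε1 atTop (𝓝 0) := by
    have := hε0.max h25
    simpa using this
  obtain ⟨a1, b1, hb1, hconv1⟩ := main2 lam hlam pc ε1 hpc hε1_0
    (Eventually.of_forall fun m => le_max_right _ _)
  -- second range
  set ε2 : ℕ → ℝ := fun m => min (ε m) ((2 : ℝ) ^ (-(m : ℝ) / 30)) with hε2
  have hε2_inf : Tendsto (fun m : ℕ => ε2 m ^ 3 * 2 ^ m) atTop atTop := main3_eps ε hε
  set p : ℕ → ℝ := fun m => pc m * (1 + ε2 m) with hp
  have hpos : ∀ᶠ m in atTop, 0 < ε2 m := by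
    filter_upwards [hε2_inf.eventually (eventually_gt_atTop 0)] with m hm
    by_contra hcon
    push Not at hcon
    have h1 : ε2 m ^ 3 ≤ 0 := by
      have : 0 ≤ (-ε2 m) ^ 3 := pow_nonneg (by linarith) 3
      nlinarith
    have h2 : (0 : ℝ) < 2 ^ m := by positivity
    nlinarith
  have h36 : ∀ m : ℕ, ε2 m ≤ (2 : ℝ) ^ (-(m : ℝ) / 36) := by
    intro m
    refine (min_le_right _ _).trans ?_
    apply Real.rpow_le_rpow_of_exponent_le (by norm_num)
    have : (0 : ℝ) ≤ m := Nat.cast_nonneg m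
    rw [div_le_div_iff₀ (by norm_num) (by norm_num)]
    nlinarith
  have hpcu := final_pc_upper lam hlam pc hpc
  have hup : ∀ᶠ m : ℕ in atTop, pc m * m ≤ 1 + 5000 * dl m := by
    filter_upwards [hpcu, eventually_ge_atTop 1] with m hm h1
    refine hm.trans ?_
    unfold dl
    have hlog : 0 ≤ Real.log m / m := by
      have h2 : (1 : ℝ) ≤ m := by exact_mod_cast h1
      exact div_nonneg (Real.log_nonneg h2) (by linarith)
    have h3 : 2000 * Real.log m / m = 2000 * (Real.log m / m) := by ring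
    rw [h3]
    linarith
  have hcf : ∀ (t δ' : ℝ), 0 < δ' → ∀ᶠ m : ℕ in atTop, 0 < bF m (ε2 m) (p m) ∧
      ‖ExC (cubeE m) (p m) (fun ω => Complex.exp (Complex.I *
        ((t * (((largest ω : ℝ) - aF m (ε2 m) (p m)) / bF m (ε2 m) (p m)) : ℝ) : ℂ))) -
      Complex.exp ((-(t ^ 2 / 2) : ℝ) : ℂ)‖ ≤ δ' := by
    intro t δ' hδ'
    obtain ⟨w0, m0, hm0⟩ := fcf lam hlam t δ' hδ'
    filter_upwards [eventually_ge_atTop m0, hpc, hup, hpos,
      hε2_inf.eventually (eventually_ge_atTop w0)] with m h1 h2 h3 h4 h5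
    exact hm0 m h1 (pc m) (ε2 m) h2.1 h2.2.1 h3 h2.2.2 h4 (h36 m) h5
  have hbpos : ∀ᶠ m : ℕ in atTop, 0 < bF m (ε2 m) (p m) :=
    (hcf 0 1 one_pos).mono fun m hm => hm.1
  set a2 : ℕ → ℝ := fun m => aF m (ε2 m) (p m) with ha2
  set b2 : ℕ → ℝ := fun m => if 0 < bF m (ε2 m) (p m) then bF m (ε2 m) (p m) else 1 with hb2
  have hb2pos : ∀ m, 0 < b2 m := by
    intro m
    simp only [hb2]
    split_ifs with h
    · exact h
    · norm_num
  have hprange : ∀ᶠ m : ℕ in atTop, 0 ≤ p m ∧ p m ≤ 1 := by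
    have h5 := final_log_tendsto.eventually (gt_mem_nhds (show (0 : ℝ) < 1 / 20 by norm_num))
    have h4 := h30.eventually (gt_mem_nhds (show (0 : ℝ) < 1 / 20 by norm_num))
    filter_upwards [hpc, hpcu, hpos, h5, h4, eventually_ge_atTop 3] with m h1 h2 h3 h5 h4 h6
    have hmr : (3 : ℝ) ≤ m := by exact_mod_cast h6
    have h7 : ε2 m ≤ 1 / 20 := (min_le_right _ _).trans h4.le
    have h8 : pc m * m ≤ 21 / 20 := by linarith
    have h9 : pc m ≤ 1 / 2 := by nlinarith [h1.1]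
    refine ⟨mul_nonneg h1.1 (by linarith), ?_⟩
    simp only [hp]
    nlinarith [h1.1]
  have hconv2 : ∀ x : ℝ, Tendsto (fun m => Ex (cubeE m) (p m)
      (fun ω => ind (((largest ω : ℝ) - a2 m) / b2 m ≤ x))) atTop
      (𝓝 ((ProbabilityTheory.gaussianReal 0 1).real (Set.Iic x))) := by
    intro x
    refine levy (fun m => Sym2 (Q m)) cubeE p hprange
      (fun m ω => ((largest ω : ℝ) - a2 m) / b2 m)
      (fun m ω => ((largest ω : ℝ) - a2 m) / b2 m) ?_ ?_ x
    · intro t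
      rw [Metric.tendsto_atTop]
      intro δ' hδ'
      obtain ⟨N, hN⟩ := eventually_atTop.1 (hcf t (δ' / 2) (by linarith))
      refine ⟨N, fun m hm => ?_⟩
      obtain ⟨h1, h2⟩ := hN m hm
      rw [dist_eq_norm]
      refine lt_of_le_of_lt ?_ (show δ' / 2 < δ' by linarith)
      simp only [hb2, if_pos h1]
      exact h2
    · have h0 : (fun n => Ex (cubeE n) (p n) (fun ω => ind
          (((largest ω : ℝ) - a2 n) / b2 n ≠ ((largest ω : ℝ) - a2 n) / b2 n))) = fun _ => 0 := by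
        funext n
        have h1 : (fun ω : Finset (Sym2 (Q n)) => ind
          (((largest ω : ℝ) - a2 n) / b2 n ≠ ((largest ω : ℝ) - a2 n) / b2 n)) = fun _ => 0 := by
          funext ω
          simp [ind]
        rw [h1, Ex_const]
      rw [h0]
      exact tendsto_const_nhds
  -- combine
  refine ⟨fun m => if (2 : ℝ) ^ (-(m : ℝ) / 25) ≤ ε m then a1 m else a2 m,
    fun m => if (2 : ℝ) ^ (-(m : ℝ) / 25) ≤ ε m then b1 m else b2 m, ?_, fun x => ?_⟩
  · intro m
    dsimp only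
    split_ifs
    · exact hb1 m
    · exact hb2pos m
  · have h := (hconv1 x).if' (hconv2 x) (p := fun m : ℕ => (2 : ℝ) ^ (-(m : ℝ) / 25) ≤ ε m)
    refine h.congr fun m => ?_
    split_ifs with h1
    · have h2 : ε1 m = ε m := by
        simp only [hε1]
        exact max_eq_left h1
      simp only [h2, if_pos h1]
    · have h2 : ε2 m = ε m := by
        simp only [hε2]
        apply min_eq_left
        push Not at h1
        refine h1.le.trans ?_
        apply Real.rpow_le_rpow_of_exponent_le (by norm_num)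
        have : (0 : ℝ) ≤ m := Nat.cast_nonneg m
        rw [div_le_div_iff₀ (by norm_num) (by norm_num)]
        nlinarith
      simp only [hp, h2, if_neg h1]

end Pool.Agent.Work.MP_b7dc8a_pr
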