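import Pool.Agent.Work.MP_b7dc8a_pr.F.Def
import Pool.Agent.Work.MP_b7dc8a_pr.B.Four

/-! Module MXW (M): mixing of the random walk killed at `W`, up to a small loss in `l^1`.

`P f = nb (cubeE m) f/m`, `P_W f = nb (offE (cubeE m) W) f/m`, `L = TN m >= TT m`, `V = 2^m`, `f >= 0`.
`u = P_W^L f`. For `z ∉ W`: `u z = ∑_{y∉W} (wk (offE _ W) L z y/m^L) f y` (`nb_iter_eq`, `wk_off_zero`)
`<= (4/V) F`, `F = ∑ f` (`wk_mono_E`, `four_mix`); for `z ∈ W`: `u z = 0` (`L >= 1`). For `n >= 0` and `z ∉ W` put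
`ℓ_n z = P^n u z - P_W^n u z >= 0` (`nb_iter_mono_E`). `∑_z ℓ_n z`: by symmetry of the kernels (`wk_comm`)
`∑_z P^n u z = ∑_y u y`, `∑_z P_W^n u z = ∑_y u y (P_W^n 1) y`, and for `y ∉ W`:
`1 - P_W^n 1 (y) <= ∑_{1 <= j <= n} ∑_{w∈W} wk (cubeE m) j y w/m^j` (induction on `n`: the walk hits `W` within `n`
steps; `wk_cube_sum`), and `∑_y wk j y w/m^j = 1`. So `∑_z ℓ_n z <= sup u * n |W| <= (4 F/V) n |W|`
(if `y ∈ W` then `u y = 0`).
`ℓ = ℓ_L + ℓ_{L+1}` on the complement of `W`, `0` on `W`: `∑ ℓ <= (4 F/V) (2L+1) |W| <= 12 L |W| F/V`.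
`four_lower` (`t = L`): `P^L u z + P^(L+1) u z >= (1/V) ∑_y u y`, and `∑_y u y = ∑_{y∉W} P_W^L f y =
∑_{y∉W} f y (P_W^L 1) y = ∑_{y∉W} f y esc m W y` (symmetry). Finally `P_W^L u = P_W^(2L) f`
(`Function.iterate_add_apply`, linearity). -/

namespace Pool.Agent.Work.MP_b7dc8a_pr

open Finset

private theorem nb_sym {V : Type} [Fintype V] (E : Finset (Sym2 V)) (a b : V → ℝ) :
    ∑ z, a z * nb E b z = ∑ z, nb E a z * b z := by
  simp only [walk_nb_ind, Finset.mul_sum, Finset.sum_mul]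
  rw [Finset.sum_comm]
  refine Finset.sum_congr rfl fun z _ => Finset.sum_congr rfl fun w _ => ?_
  rw [Sym2.eq_swap]
  ring

private theorem nb_sym_iter {V : Type} [Fintype V] (E : Finset (Sym2 V)) (n : ℕ) (a b : V → ℝ) :
    ∑ z, a z * (nb E)^[n] b z = ∑ z, (nb E)^[n] a z * b z := by
  induction n generalizing a b with
  | zero => rfl
  | succ n ih =>
    rw [Function.iterate_succ_apply, Function.iterate_succ_apply', ih, nb_sym]

private theorem nb_div {V : Type} [Fintype V] [DecidableEq V] (E : Finset (Sym2 V)) (n : ℕ) (f : V → ℝ) (c : ℝ)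
    (x : V) : (nb E)^[n] (fun z => f z / c) x = (nb E)^[n] f x / c := by
  have h := nb_iter_smul E n c⁻¹ f x
  simp only [div_eq_inv_mul]
  exact h

/-- a vertex of `W` has no edge in `offE E W` -/
private theorem nb_off_zero {V : Type} [Fintype V] [DecidableEq V] (E : Finset (Sym2 V)) (W : Finset V) (g : V → ℝ)
    (z : V) (hz : z ∈ W) : nb (offE E W) g z = 0 := by
  rw [walk_nb_ind]
  refine Finset.sum_eq_zero fun w _ => ?_
  rw [walk_ind_neg, zero_mul]
  rw [xb_mem_offE]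
  exact fun h => h.2.1 hz

private theorem nb_off_one {V : Type} [Fintype V] [DecidableEq V] (E : Finset (Sym2 V)) (W : Finset V) (z : V)
    (hz : z ∉ W) : nb (offE E W) (fun _ => 1) z =
      nb E (fun _ => 1) z - nb E (fun w => ind (w ∈ W)) z := by
  rw [walk_nb_ind, walk_nb_ind, walk_nb_ind, ← Finset.sum_sub_distrib]
  refine Finset.sum_congr rfl fun w _ => ?_
  by_cases h1 : s(z, w) ∈ E
  · by_cases h2 : w ∈ W
    · rw [walk_ind_neg _ (fun h => ((xb_mem_offE E W z w).1 h).2.2 h2), walk_ind_pos _ h1, walk_ind_pos _ h2]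
      ring
    · rw [walk_ind_pos _ ((xb_mem_offE E W z w).2 ⟨h1, hz, h2⟩), walk_ind_pos _ h1, walk_ind_neg _ h2]
      ring
  · rw [walk_ind_neg _ (fun h => h1 ((xb_mem_offE E W z w).1 h).1), walk_ind_neg _ h1]
    ring

/-- one step of the killed walk loses little mass -/
private theorem loss_step (m : ℕ) (hm : 1 ≤ m) (W : Finset (Q m)) (u : Q m → ℝ) (c : ℝ)
    (hc : 0 ≤ c) (_hu0 : ∀ z, 0 ≤ u z) (huW : ∀ z ∈ W, u z = 0) (huc : ∀ z, u z ≤ c) :
    ∑ z, u z - ∑ z, nb (offE (cubeE m) W) u z / m ≤ c * W.card := by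
  classical
  have hm0 : (0 : ℝ) < m := by exact_mod_cast hm
  have h1 : ∑ z, nb (offE (cubeE m) W) u z / m =
      ∑ z, u z * (nb (offE (cubeE m) W) (fun _ => 1) z / m) := by
    have h2 := nb_sym (offE (cubeE m) W) u (fun _ => 1)
    simp only [mul_one] at h2
    rw [← Finset.sum_div, ← h2, Finset.sum_div]
    exact Finset.sum_congr rfl fun z _ => by ring
  rw [h1, ← Finset.sum_sub_distrib]
  have h3 : ∀ z, u z - u z * (nb (offE (cubeE m) W) (fun _ => 1) z / m) ≤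
      c * (nb (cubeE m) (fun w => ind (w ∈ W)) z / m) := by
    intro z
    have h5 : 0 ≤ nb (cubeE m) (fun w => ind (w ∈ W)) z := by
      unfold nb
      exact Finset.sum_nonneg fun w _ => walk_ind_nonneg _
    by_cases hz : z ∈ W
    · rw [huW z hz, zero_mul, sub_zero]
      positivity
    · rw [nb_off_one _ _ _ hz, nb_cube_one]
      have h4 : u z - u z * (((m : ℝ) - nb (cubeE m) (fun w => ind (w ∈ W)) z) / m) =
          u z * (nb (cubeE m) (fun w => ind (w ∈ W)) z / m) := by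
        field_simp
        ring
      rw [h4]
      exact mul_le_mul_of_nonneg_right (huc z) (by positivity)
  refine (Finset.sum_le_sum fun z _ => h3 z).trans (le_of_eq ?_)
  rw [← Finset.mul_sum, ← Finset.sum_div]
  congr 1
  have h6 := nb_sym (cubeE m) (fun _ => (1 : ℝ)) (fun w => ind (w ∈ W))
  simp only [one_mul, nb_cube_one] at h6
  rw [h6, ← Finset.mul_sum]
  rw [mul_div_assoc, mul_comm, div_mul_cancel₀ _ hm0.ne']
  rw [← Finset.sum_subset (Finset.subset_univ W) (fun x _ hx => walk_ind_neg _ hx),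
    Finset.sum_congr rfl fun x hx => walk_ind_pos _ hx, Finset.sum_const, nsmul_eq_mul, mul_one]

private theorem loss (m : ℕ) (hm : 1 ≤ m) (W : Finset (Q m)) (u : Q m → ℝ) (c : ℝ)
    (hc : 0 ≤ c) (hu0 : ∀ z, 0 ≤ u z) (huW : ∀ z ∈ W, u z = 0) (huc : ∀ z, u z ≤ c) (n : ℕ) :
    ∑ z, u z - ∑ z, (nb (offE (cubeE m) W))^[n] u z / (m : ℝ) ^ n ≤ n * (c * W.card) := by
  have hm0 : (0 : ℝ) < m := by exact_mod_cast hm
  induction n with
  | zero => simp
  | succ n ih =>
    set v : Q m → ℝ := fun z => (nb (offE (cubeE m) W))^[n] u z / (m : ℝ) ^ n with hv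
    have h1 : ∀ z, (nb (offE (cubeE m) W))^[n + 1] u z / (m : ℝ) ^ (n + 1) =
        nb (offE (cubeE m) W) v z / m := by
      intro z
      have h2 := nb_div (offE (cubeE m) W) 1 ((nb (offE (cubeE m) W))^[n] u) ((m : ℝ) ^ n) z
      simp only [Function.iterate_one] at h2
      rw [hv, h2, Function.iterate_succ_apply', pow_succ, div_div]
    have h3 : ∀ z, 0 ≤ v z := fun z => div_nonneg (nb_iter_nonneg _ _ _ hu0 z) (by positivity)
    have h4 : ∀ z ∈ W, v z = 0 := by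
      intro z hz
      simp only [hv]
      rcases Nat.eq_zero_or_pos n with h | h
      · subst h
        simp [huW z hz]
      · obtain ⟨k, rfl⟩ : ∃ k, n = k + 1 := ⟨n - 1, by omega⟩
        rw [Function.iterate_succ_apply', nb_off_zero _ _ _ _ hz, zero_div]
    have h5 : ∀ z, v z ≤ c := by
      intro z
      simp only [hv]
      rw [div_le_iff₀ (by positivity), mul_comm]
      exact nb_iter_le m n _ (xb_offE_subset _ _) u c hc huc z
    have h6 := loss_step m hm W v c hc h3 h4 h5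
    rw [Finset.sum_congr rfl fun z _ => h1 z]
    push_cast
    linarith

private theorem sum_iter_cube (m : ℕ) (hm : 1 ≤ m) (u : Q m → ℝ) (n : ℕ) :
    ∑ z, (nb (cubeE m))^[n] u z / (m : ℝ) ^ n = ∑ z, u z := by
  have hm0 : (0 : ℝ) < m := by exact_mod_cast hm
  have h1 := nb_sym_iter (cubeE m) n (fun _ => (1 : ℝ)) u
  simp only [one_mul] at h1
  rw [← Finset.sum_div, h1, Finset.sum_div]
  refine Finset.sum_congr rfl fun z _ => ?_
  have h2 : (nb (cubeE m))^[n] (fun _ => 1) z = (m : ℝ) ^ n := by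
    rw [nb_iter_eq]
    simp only [mul_one]
    exact wk_cube_sum m n z
  rw [h2, mul_div_assoc, mul_comm, div_mul_cancel₀]
  positivity

theorem mxw : ∃ m0 : ℕ, ∀ m ≥ m0, ∀ (W : Finset (Q m)) (f : Q m → ℝ), (∀ z, 0 ≤ f z) →
    (∀ z ∈ W, f z = 0) → ∃ ℓ : Q m → ℝ, (∀ z, 0 ≤ ℓ z) ∧
    (∑ z, ℓ z) ≤ 12 * TN m * W.card * (∑ z, f z) / 2 ^ m ∧
    (∀ z, (nb (offE (cubeE m) W))^[2 * TN m] f z / (m : ℝ) ^ (2 * TN m) +
      (nb (offE (cubeE m) W))^[2 * TN m + 1] f z / (m : ℝ) ^ (2 * TN m + 1) ≤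
        8 * (∑ z, f z) / 2 ^ m) ∧
    ∀ z, z ∉ W → (∑ y, f y * esc m W y) / 2 ^ m - ℓ z ≤
      (nb (offE (cubeE m) W))^[2 * TN m] f z / (m : ℝ) ^ (2 * TN m) +
        (nb (offE (cubeE m) W))^[2 * TN m + 1] f z / (m : ℝ) ^ (2 * TN m + 1) := by
  classical
  refine ⟨8, fun m hm W f hf hfW => ?_⟩
  have hm0 : (0 : ℝ) < m := by exact_mod_cast (by omega : 0 < m)
  have hTT : TT m ≤ TN m := by unfold TN; omega
  have hTN : 1 ≤ TN m := by
    have h1 := (xn_TT m (by omega)).1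
    have h2 : (0 : ℝ) < Real.log m := Real.log_pos (by exact_mod_cast (by omega : 1 < m))
    have h4 : (0 : ℝ) < TT m := lt_of_lt_of_le (mul_pos hm0 h2) h1
    have h5 : 0 < TT m := by exact_mod_cast h4
    unfold TN
    omega
  set L := TN m with hL
  set F := ∑ z, f z with hF
  have hF0 : 0 ≤ F := Finset.sum_nonneg fun z _ => hf z
  set EW := offE (cubeE m) W with hEW
  have hsub : EW ⊆ cubeE m := xb_offE_subset _ _
  -- sup bound
  have hsup : ∀ n, TT m ≤ n → ∀ z, (nb EW)^[n] f z / (m : ℝ) ^ n ≤ 4 * F / 2 ^ m := by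
    intro n hn z
    rw [div_le_iff₀ (by positivity), nb_iter_eq]
    have h1 : ∀ y, wk EW n z y * f y ≤ 4 * (m : ℝ) ^ n / 2 ^ m * f y := fun y =>
      mul_le_mul_of_nonneg_right ((wk_mono_E _ _ hsub n z y).trans
        (four_mix m (by omega) n hn z y)) (hf y)
    refine (Finset.sum_le_sum fun y _ => h1 y).trans (le_of_eq ?_)
    rw [← Finset.mul_sum]
    ring
  set u : Q m → ℝ := fun z => (nb EW)^[L] f z / (m : ℝ) ^ L with hu
  have hu0 : ∀ z, 0 ≤ u z := fun z => div_nonneg (nb_iter_nonneg _ _ _ hf z) (by positivity)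
  have huW : ∀ z ∈ W, u z = 0 := by
    intro z hz
    simp only [hu]
    obtain ⟨k, hk⟩ : ∃ k, L = k + 1 := ⟨L - 1, by omega⟩
    rw [hk, Function.iterate_succ_apply', hEW, nb_off_zero _ _ _ _ hz, zero_div]
  have huc : ∀ z, u z ≤ 4 * F / 2 ^ m := hsup L hTT
  have hc0 : 0 ≤ 4 * F / 2 ^ m := by positivity
  -- the losses
  have hln0 : ∀ n z, 0 ≤ (nb (cubeE m))^[n] u z / (m : ℝ) ^ n - (nb EW)^[n] u z / (m : ℝ) ^ n := by
    intro n z
    rw [← sub_div]
    exact div_nonneg (sub_nonneg.2 (nb_iter_mono_E _ _ hsub n u hu0 z)) (by positivity)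
  have hlsum : ∀ n : ℕ, ∑ z, ((nb (cubeE m))^[n] u z / (m : ℝ) ^ n -
      (nb EW)^[n] u z / (m : ℝ) ^ n) ≤ n * (4 * F / 2 ^ m * W.card) := by
    intro n
    rw [Finset.sum_sub_distrib, sum_iter_cube m (by omega) u n]
    exact loss m (by omega) W u _ hc0 hu0 huW huc n
  have hcomp : ∀ n z, (nb EW)^[n] u z / (m : ℝ) ^ n = (nb EW)^[n + L] f z / (m : ℝ) ^ (n + L) := by
    intro n z
    rw [hu, nb_div, ← Function.iterate_add_apply, div_div, pow_add, mul_comm ((m : ℝ) ^ L)]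
  refine ⟨fun z => if z ∈ W then 0 else
    (((nb (cubeE m))^[L] u z / (m : ℝ) ^ L - (nb EW)^[L] u z / (m : ℝ) ^ L) +
      ((nb (cubeE m))^[L + 1] u z / (m : ℝ) ^ (L + 1) - (nb EW)^[L + 1] u z / (m : ℝ) ^ (L + 1))),
    ?_, ?_, ?_, ?_⟩
  · intro z
    beta_reduce
    split_ifs
    · exact le_rfl
    · exact add_nonneg (hln0 _ _) (hln0 _ _)
  · have h1 : ∑ z, (if z ∈ W then 0 else
      (((nb (cubeE m))^[L] u z / (m : ℝ) ^ L - (nb EW)^[L] u z / (m : ℝ) ^ L) +
      ((nb (cubeE m))^[L + 1] u z / (m : ℝ) ^ (L + 1) - (nb EW)^[L + 1] u z / (m : ℝ) ^ (L + 1))))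
        ≤ ∑ z, (((nb (cubeE m))^[L] u z / (m : ℝ) ^ L - (nb EW)^[L] u z / (m : ℝ) ^ L) +
      ((nb (cubeE m))^[L + 1] u z / (m : ℝ) ^ (L + 1) -
        (nb EW)^[L + 1] u z / (m : ℝ) ^ (L + 1))) := by
      refine Finset.sum_le_sum fun z _ => ?_
      split_ifs
      · exact add_nonneg (hln0 _ _) (hln0 _ _)
      · exact le_rfl
    refine h1.trans ?_
    rw [Finset.sum_add_distrib]
    have h2 := hlsum L
    have h3 := hlsum (L + 1)
    push_cast at h3
    have h4 : (1 : ℝ) ≤ L := by exact_mod_cast hTN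
    have h5 : 0 ≤ 4 * F / 2 ^ m * W.card := by positivity
    have h6 : 12 * (L : ℝ) * W.card * F / 2 ^ m = (3 * L) * (4 * F / 2 ^ m * W.card) := by ring
    rw [h6]
    nlinarith
  · intro z
    have h1 := hsup (2 * L) (by omega) z
    have h2 := hsup (2 * L + 1) (by omega) z
    have h3 : 8 * F / 2 ^ m = 4 * F / 2 ^ m + 4 * F / 2 ^ m := by ring
    rw [h3]
    exact add_le_add h1 h2
  · intro z hz
    beta_reduce
    rw [if_neg hz]
    have e1 : L + L = 2 * L := by ring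
    have e2 : L + 1 + L = 2 * L + 1 := by ring
    have h1 : (∑ y, f y * esc m W y) = ∑ y, u y := by
      have h2 := nb_sym_iter EW L f (fun _ => (1 : ℝ))
      simp only [mul_one] at h2
      have h3 : ∑ y, u y = (∑ y, (nb EW)^[L] f y) / (m : ℝ) ^ L := by
        rw [Finset.sum_div]
      rw [h3, ← h2, Finset.sum_div]
      refine Finset.sum_congr rfl fun y _ => ?_
      unfold esc
      rw [mul_div_assoc]
    have h2 : (∑ y, u y) / 2 ^ m ≤ (nb (cubeE m))^[L] u z / (m : ℝ) ^ L +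
        (nb (cubeE m))^[L + 1] u z / (m : ℝ) ^ (L + 1) := by
      rw [nb_iter_eq, nb_iter_eq, Finset.sum_div, Finset.sum_div, Finset.sum_div,
        ← Finset.sum_add_distrib]
      refine Finset.sum_le_sum fun y _ => ?_
      have h3 := four_lower m hm L hTT z y
      have h4 : (1 : ℝ) / 2 ^ m ≤ wk (cubeE m) L z y / (m : ℝ) ^ L +
          wk (cubeE m) (L + 1) z y / (m : ℝ) ^ (L + 1) := by
        rw [div_le_iff₀ (by positivity), mul_comm]
        exact h3
      have h5 := mul_le_mul_of_nonneg_right h4 (hu0 y)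
      have h6 : u y / 2 ^ m = 1 / 2 ^ m * u y := by ring
      rw [h6]
      refine h5.trans (le_of_eq ?_)
      ring
    have g1 := hcomp L z
    have g2 := hcomp (L + 1) z
    rw [e1] at g1
    rw [e2] at g2
    rw [h1]
    linarith

end Pool.Agent.Work.MP_b7dc8a_pr
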