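import Pool.Agent.Work.MP_b7dc8a_pr.F.Def

/-! Module NBW (M): non backtracking walks. `nbt E t w x y` = number of non backtracking walks of
length `t` from `x` to `y` whose first step is not to `w`; `na E t x y` = all of them. All proofs by
induction on `t` (for all `w, x`), unfolding `nb` as a sum over `z` with `s(x,z) ∈ E` (`walk_nb_ind`,
`nb_mono`, `nb_iter_*` in B/Walk). Let `D x = nb E (fun _ => 1) x` be the degree of `x`.

`na_le_wk`: first `nbt E t w x y <= wk E t x y` by induction, then `na`.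
`na_two`, `na_rec`: for `z` with `s(x,z) ∈ E` (equivalently `s(z,x) ∈ E`)
  `nbt E (t+1) x z y = na E (t+1) z y - nbt E t z x y`   (the term `u = x` of `nb E (nbt E t z . y) z`).
  Hence `na E (t+2) x y = nb E (fun z => nbt E (t+1) x z y) x
         = nb E (fun z => na E (t+1) z y) x - ∑_{z ~ x} nbt E t z x y`.
  For `t = 0` the last sum is `D x * [x = y]`. For `t = t'+1`:
  `nbt E (t'+1) z x y = ∑_{u ~ x, u ≠ z} nbt E t' x u y`, so the sum over `z ~ x` is
  `(D x - 1) * ∑_{u ~ x} nbt E t' x u y = (D x - 1) * na E (t'+1) x y`.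
`na_sum`: if `s(x,w) ∈ E ⊆ cubeE m` then `∑_y nbt E t w x y <= (m-1)^t` (induction: there are at most
  `m - 1` vertices `z ≠ w` with `s(x,z) ∈ E`, since `x` has at most `m` neighbours and `w` is one of
  them, and for each of them `s(z,x) ∈ E`); then `∑_y na E (t+1) x y <= m (m-1)^t`. -/

namespace Pool.Agent.Work.MP_b7dc8a_pr

open Finset

section NBW
variable {V : Type} [Fintype V] [DecidableEq V]

omit [DecidableEq V] in
private theorem nbw_nbt_succ (E : Finset (Sym2 V)) (t : ℕ) (w x y : V) :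
    nbt E (t + 1) w x y = na E (t + 1) x y - ind (s(x, w) ∈ E) * nbt E t x w y := by
  classical
  rw [nbt, na, walk_nb_ind, walk_nb_ind, eq_sub_iff_add_eq]
  rw [← Finset.add_sum_erase univ (fun z => ind (s(x, z) ∈ E) * nbt E t x z y) (mem_univ w)]
  rw [← Finset.add_sum_erase univ (fun z => ind (s(x, z) ∈ E) *
    (if z = w then 0 else nbt E t x z y)) (mem_univ w)]
  have h : ∑ z ∈ univ.erase w, ind (s(x, z) ∈ E) * (if z = w then 0 else nbt E t x z y)
      = ∑ z ∈ univ.erase w, ind (s(x, z) ∈ E) * nbt E t x z y := by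
    apply Finset.sum_congr rfl
    intro z hz
    rw [if_neg (Finset.ne_of_mem_erase hz)]
  rw [h]
  simp only [if_true, mul_zero, zero_add]
  ring

omit [DecidableEq V] in
private theorem nbw_na_succ (E : Finset (Sym2 V)) (t : ℕ) (x y : V) :
    na E (t + 1) x y = ∑ z, ind (s(x, z) ∈ E) * nbt E t x z y := by
  classical
  rw [na, walk_nb_ind]

omit [DecidableEq V] in
private theorem nbw_ind_sq (P : Prop) : ind P * ind P = ind P := by
  by_cases h : P
  · rw [walk_ind_pos P h]; ring
  · rw [walk_ind_neg P h]; ring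

theorem nbt_nonneg (E : Finset (Sym2 V)) (t : ℕ) (w x y : V) : 0 ≤ nbt E t w x y := by
  classical
  induction t generalizing w x with
  | zero => rw [nbt]; split_ifs <;> norm_num
  | succ t ih =>
    rw [nbt, walk_nb_ind]
    apply Finset.sum_nonneg
    intro z _
    apply mul_nonneg (walk_ind_nonneg _)
    split_ifs
    · exact le_refl _
    · exact ih x z

theorem na_nonneg (E : Finset (Sym2 V)) (t : ℕ) (x y : V) : 0 ≤ na E t x y := by
  classical
  cases t with
  | zero => rw [na]; split_ifs <;> norm_num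
  | succ t =>
    rw [nbw_na_succ]
    exact Finset.sum_nonneg fun z _ => mul_nonneg (walk_ind_nonneg _) (nbt_nonneg E t x z y)

private theorem nbw_ind_mono (P P' : Prop) (h : P' → P) : ind P' ≤ ind P := by
  by_cases h' : P'
  · rw [walk_ind_pos _ h', walk_ind_pos _ (h h')]
  · rw [walk_ind_neg _ h']; exact walk_ind_nonneg _

theorem nbt_mono_E (E E' : Finset (Sym2 V)) (hE : E' ⊆ E) (t : ℕ) (w x y : V) :
    nbt E' t w x y ≤ nbt E t w x y := by
  classical
  induction t generalizing w x with
  | zero => exact le_of_eq (by rw [nbt, nbt])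
  | succ t ih =>
    rw [nbt, nbt, walk_nb_ind, walk_nb_ind]
    apply Finset.sum_le_sum
    intro z _
    apply mul_le_mul (nbw_ind_mono _ _ (fun h => hE h)) _ _ (walk_ind_nonneg _)
    · split_ifs
      · exact le_refl _
      · exact ih x z
    · split_ifs
      · exact le_refl _
      · exact nbt_nonneg E' t x z y

theorem na_mono_E (E E' : Finset (Sym2 V)) (hE : E' ⊆ E) (t : ℕ) (x y : V) :
    na E' t x y ≤ na E t x y := by
  classical
  cases t with
  | zero => exact le_of_eq (by rw [na, na])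
  | succ t =>
    rw [nbw_na_succ, nbw_na_succ]
    apply Finset.sum_le_sum
    intro z _
    exact mul_le_mul (nbw_ind_mono _ _ (fun h => hE h)) (nbt_mono_E E E' hE t x z y)
      (nbt_nonneg E' t x z y) (walk_ind_nonneg _)

private theorem nbw_nbt_le_wk (E : Finset (Sym2 V)) (t : ℕ) (w x y : V) :
    nbt E t w x y ≤ wk E t x y := by
  classical
  induction t generalizing w x with
  | zero =>
    rw [nbt, wk_zero]
    by_cases h : x = y
    · rw [if_pos h, if_pos h]
    · rw [if_neg h, if_neg h]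
  | succ t ih =>
    rw [nbt, wk_succ]
    apply nb_mono
    intro z
    split_ifs
    · exact wk_nonneg E t z y
    · exact ih x z

theorem na_le_wk (E : Finset (Sym2 V)) (t : ℕ) (x y : V) : na E t x y ≤ wk E t x y := by
  classical
  cases t with
  | zero =>
    rw [na, wk_zero]
    by_cases h : x = y
    · rw [if_pos h, if_pos h]
    · rw [if_neg h, if_neg h]
  | succ t =>
    rw [na, wk_succ]
    apply nb_mono
    intro z
    exact nbw_nbt_le_wk E t x z y

theorem na_zero (E : Finset (Sym2 V)) (x y : V) : na E 0 x y = if x = y then 1 else 0 := by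
  rw [na]
  by_cases h : x = y
  · rw [if_pos h, if_pos h]
  · rw [if_neg h, if_neg h]

theorem na_one (E : Finset (Sym2 V)) (x y : V) :
    na E 1 x y = nb E (fun z => if z = y then 1 else 0) x := by
  rw [nbw_na_succ, walk_nb_ind]
  apply Finset.sum_congr rfl
  intro z _
  rw [nbt]
  by_cases h : z = y
  · rw [if_pos h, if_pos h]
  · rw [if_neg h, if_neg h]

theorem na_two (E : Finset (Sym2 V)) (x y : V) :
    na E 2 x y = nb E (fun z => na E 1 z y) x - (if x = y then nb E (fun _ => 1) x else 0) := by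
  have h1 : na E 2 x y = ∑ z, (ind (s(x, z) ∈ E) * na E 1 z y -
      ind (s(x, z) ∈ E) * nbt E 0 x x y) := by
    rw [nbw_na_succ]
    apply Finset.sum_congr rfl
    intro z _
    rw [nbw_nbt_succ, Sym2.eq_swap (a := z) (b := x), zero_add, mul_sub, ← mul_assoc, nbw_ind_sq]
    rw [nbt, nbt]
  rw [h1, Finset.sum_sub_distrib, walk_nb_ind, ← Finset.sum_mul]
  congr 1
  rw [nbt, walk_nb_ind]
  by_cases h : x = y
  · rw [if_pos h, if_pos h]; simp
  · rw [if_neg h, if_neg h]; simp

theorem na_rec (E : Finset (Sym2 V)) (t : ℕ) (x y : V) :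
    na E (t + 3) x y = nb E (fun z => na E (t + 2) z y) x -
      (nb E (fun _ => 1) x - 1) * na E (t + 1) x y := by
  have h1 : na E (t + 3) x y = ∑ z, (ind (s(x, z) ∈ E) * na E (t + 2) z y -
      (ind (s(x, z) ∈ E) * 1 * na E (t + 1) x y - ind (s(x, z) ∈ E) * nbt E t x z y)) := by
    rw [nbw_na_succ]
    apply Finset.sum_congr rfl
    intro z _
    have e1 : nbt E (t + 2) x z y = na E (t + 2) z y - ind (s(z, x) ∈ E) * nbt E (t + 1) z x y :=
      nbw_nbt_succ E (t + 1) x z y
    have e2 : nbt E (t + 1) z x y = na E (t + 1) x y - ind (s(x, z) ∈ E) * nbt E t x z y :=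
      nbw_nbt_succ E t z x y
    rw [e1, e2, Sym2.eq_swap (a := z) (b := x)]
    have e3 := nbw_ind_sq (s(x, z) ∈ E)
    generalize ind (s(x, z) ∈ E) = a at *
    calc a * (na E (t + 2) z y - a * (na E (t + 1) x y - a * nbt E t x z y))
        = a * na E (t + 2) z y - (a * a) * (na E (t + 1) x y) + (a * a) * a * nbt E t x z y := by
          ring
      _ = _ := by rw [e3, e3]; ring
  rw [h1, Finset.sum_sub_distrib, Finset.sum_sub_distrib, ← nbw_na_succ, walk_nb_ind, walk_nb_ind,
    ← Finset.sum_mul]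
  ring

end NBW

private theorem nbw_sum (m : ℕ) (hm : 1 ≤ m) (E : Finset (Sym2 (Q m))) (hE : E ⊆ cubeE m) (t : ℕ)
    (w x : Q m) (hw : s(x, w) ∈ E) : ∑ y, nbt E t w x y ≤ ((m : ℝ) - 1) ^ t := by
  classical
  have hm1 : (0 : ℝ) ≤ (m : ℝ) - 1 := by
    have : (1 : ℝ) ≤ m := by exact_mod_cast hm
    linarith
  induction t generalizing w x with
  | zero =>
    apply le_of_eq
    rw [pow_zero, Finset.sum_eq_single x]
    · rw [nbt]; exact if_pos rfl
    · intro b _ hb
      rw [nbt]; exact if_neg (Ne.symm hb)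
    · intro h
      exact absurd (mem_univ x) h
  | succ t ih =>
    have h1 : ∑ y, nbt E (t + 1) w x y
        = ∑ z, ind (s(x, z) ∈ E) * (if z = w then 0 else ∑ y, nbt E t x z y) := by
      simp only [nbt, walk_nb_ind]
      rw [Finset.sum_comm]
      apply Finset.sum_congr rfl
      intro z _
      rw [← Finset.mul_sum]
      by_cases h : z = w
      · simp [h]
      · simp [h]
    have hdeg : ∑ z, ind (s(x, z) ∈ E) ≤ (m : ℝ) := by
      have h2 := nb_cube_one m x
      rw [walk_nb_ind] at h2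
      have : ∑ z, ind (s(x, z) ∈ E) ≤ ∑ z, ind (s(x, z) ∈ cubeE m) * 1 := by
        apply Finset.sum_le_sum
        intro z _
        rw [mul_one]
        exact nbw_ind_mono _ _ (fun h => hE h)
      linarith
    rw [h1]
    calc ∑ z, ind (s(x, z) ∈ E) * (if z = w then 0 else ∑ y, nbt E t x z y)
        ≤ ∑ z, (ind (s(x, z) ∈ E) - (if z = w then 1 else 0)) * ((m : ℝ) - 1) ^ t := by
          apply Finset.sum_le_sum
          intro z _
          by_cases h : z = w
          · subst h
            rw [if_pos rfl, if_pos rfl, walk_ind_pos _ hw]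
            simp
          · rw [if_neg h, if_neg h, sub_zero]
            by_cases hz : s(x, z) ∈ E
            · rw [walk_ind_pos _ hz, one_mul, one_mul]
              exact ih x z (by rw [Sym2.eq_swap]; exact hz)
            · rw [walk_ind_neg _ hz]; simp
      _ = (∑ z, ind (s(x, z) ∈ E) - 1) * ((m : ℝ) - 1) ^ t := by
          rw [← Finset.sum_mul, Finset.sum_sub_distrib]
          simp
      _ ≤ ((m : ℝ) - 1) * ((m : ℝ) - 1) ^ t := by
          apply mul_le_mul_of_nonneg_right _ (pow_nonneg hm1 t)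
          linarith
      _ = ((m : ℝ) - 1) ^ (t + 1) := by ring

theorem na_sum (m : ℕ) (hm : 1 ≤ m) (E : Finset (Sym2 (Q m))) (hE : E ⊆ cubeE m) (t : ℕ)
    (x : Q m) : ∑ y, na E (t + 1) x y ≤ m * ((m : ℝ) - 1) ^ t := by
  classical
  have hm1 : (0 : ℝ) ≤ (m : ℝ) - 1 := by
    have : (1 : ℝ) ≤ m := by exact_mod_cast hm
    linarith
  have h1 : ∑ y, na E (t + 1) x y = ∑ z, ind (s(x, z) ∈ E) * ∑ y, nbt E t x z y := by
    simp only [nbw_na_succ]
    rw [Finset.sum_comm]
    apply Finset.sum_congr rfl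
    intro z _
    rw [← Finset.mul_sum]
  have hdeg : ∑ z, ind (s(x, z) ∈ E) ≤ (m : ℝ) := by
    have h2 := nb_cube_one m x
    rw [walk_nb_ind] at h2
    have : ∑ z, ind (s(x, z) ∈ E) ≤ ∑ z, ind (s(x, z) ∈ cubeE m) * 1 := by
      apply Finset.sum_le_sum
      intro z _
      rw [mul_one]
      exact nbw_ind_mono _ _ (fun h => hE h)
    linarith
  rw [h1]
  calc ∑ z, ind (s(x, z) ∈ E) * ∑ y, nbt E t x z y
      ≤ ∑ z, ind (s(x, z) ∈ E) * ((m : ℝ) - 1) ^ t := by
        apply Finset.sum_le_sum
        intro z _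
        by_cases hz : s(x, z) ∈ E
        · rw [walk_ind_pos _ hz, one_mul, one_mul]
          exact nbw_sum m hm E hE t x z (by rw [Sym2.eq_swap]; exact hz)
        · rw [walk_ind_neg _ hz]; simp
    _ = (∑ z, ind (s(x, z) ∈ E)) * ((m : ℝ) - 1) ^ t := by rw [← Finset.sum_mul]
    _ ≤ m * ((m : ℝ) - 1) ^ t := mul_le_mul_of_nonneg_right hdeg (pow_nonneg hm1 t)

end Pool.Agent.Work.MP_b7dc8a_pr
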