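import Pool.Agent.Work.MP_b7dc8a_pr.F.Def
import Pool.Agent.Work.MP_b7dc8a_pr.B.Rect
import Pool.Agent.Work.MP_b7dc8a_pr.F.Snum2

/-! Module RECT2 (M-L): `b_rect` (B/Rect.lean) with an explicit bound `vmax` for `v = wt E p0 (sm g)`.

This is the proof of `b_rect` in B/Rect.lean (copy it) with the following changes. The hypotheses
`LL 30000 m X^3/2^m <= a <= 1` and `g <= m` are replaced by `LL 30000 m * X^2 * vmax/2^m <= a`,
`LL 30000 m * X^2 <= 2^m` and `v <= vmax` (`v_p <= v_{p0} <= vmax` for `p <= p0`, monotonicity in `p`,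
`g >= 0`). Then `ϵ = 4 LL 10000 m X/2^m <= 1/m` (and `<= l4 m`) from `LL 30000 m X^2 <= 2^m`, and the error
term of `b_kern` is at most `4 * (12 m^2 LL 20000 m X^2/2^m) * vmax <= LL 30000 m X^2 vmax/(2^m m^2)
<= a/m^2` for large `m` (`48 m^4 <= LL 10000 m`).

`rect_core` is the inequality before the last estimates (with `snum2` instead of `b_snum`):
for `E = offE (cubeE m) W`, `N(y)` the neighbours of `y` in `E`: `b_reci` and `b_kern`, `hmain` and `herr` in
the notation of B/Rect (the crude iterated inequality `rect2` is used for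
`p^(i+1) (nb E)^[i+1] v y <= (1+12000 dl)^(i+1) (v y + a)`), give
`g y + p nb E v y <= v y * (1 + p nb E (fun z => tau E p z y) y) + l4 m * (v y + a) + a/m^2`, and for
neighbours `tau E p z y <= p + l4 m + ϵ <= p + 2 l4 m` (`b_twop`, `wk_one`, `wk_off`, `four_upper`,
`four_mix`, `snum2` with `i = 0`, `R = 1`), at most `m` neighbours, `p m <= 2`, so
`p nb E (tau E p . y) y <= m p^2 + 4 l4 m`. -/

namespace Pool.Agent.Work.MP_b7dc8a_pr

open Finset

private theorem rc_nb {V : Type} [Fintype V] (E : Finset (Sym2 V)) (y : V) :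
    ∃ N : Finset V, (∀ z, z ∈ N ↔ s(y, z) ∈ E) ∧ ∀ f : V → ℝ, nb E f y = ∑ z ∈ N, f z := by
  classical
  exact ⟨univ.filter (fun z => s(y, z) ∈ E), fun z => by simp, fun f => by
    unfold nb
    exact Finset.sum_congr (by ext z; simp) fun _ _ => rfl⟩

private theorem rc_iter {V : Type} [Fintype V] (E : Finset (Sym2 V)) (u : V → ℝ) (p B : ℝ)
    (hp : 0 ≤ p) (hB : 0 ≤ B) (h : ∀ y, p * nb E u y ≤ B * u y) (i : ℕ) (y : V) :
    p ^ i * (nb E)^[i] u y ≤ B ^ i * u y := by
  induction i generalizing y with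
  | zero => simp
  | succ i ih =>
    rw [Function.iterate_succ_apply']
    obtain ⟨N, -, hN⟩ := rc_nb E y
    have h2 := h y
    rw [hN] at h2 ⊢
    calc p ^ (i + 1) * ∑ z ∈ N, (nb E)^[i] u z = p * ∑ z ∈ N, p ^ i * (nb E)^[i] u z := by
          rw [← Finset.mul_sum]; ring
      _ ≤ p * ∑ z ∈ N, B ^ i * u z :=
          mul_le_mul_of_nonneg_left (Finset.sum_le_sum fun z _ => ih z) hp
      _ = B ^ i * (p * ∑ z ∈ N, u z) := by rw [← Finset.mul_sum]; ring
      _ ≤ B ^ i * (B * u y) := mul_le_mul_of_nonneg_left h2 (by positivity)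
      _ = _ := by ring

/-- the bound for the last part of the walk expansion -/
private theorem rc_eps (m : ℕ) (hm : 3 ≤ m) (F : Finset (Sym2 (Q m))) (hF : F ⊆ cubeE m)
    (p : ℝ) (h0 : 0 ≤ p) (h1 : p ≤ 1) (hp : p * m ≤ 1 + 5000 * dl m) (X : ℝ) (hX0 : 0 ≤ X)
    (hX : ∀ x, chi F p x ≤ X) (z d : Q m) :
    p ^ TT m * (nb F)^[TT m] (fun u => tau F p u d) z ≤ 4 * LL 10000 m * X / 2 ^ m := by
  have h2 : (nb F)^[TT m] (fun u => tau F p u d) z ≤ 4 * (m : ℝ) ^ TT m / 2 ^ m * X := by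
    rw [nb_iter_eq]
    calc ∑ u, wk F (TT m) z u * tau F p u d
        ≤ ∑ u, 4 * (m : ℝ) ^ TT m / 2 ^ m * tau F p u d := by
          refine Finset.sum_le_sum fun u _ => ?_
          refine mul_le_mul_of_nonneg_right ?_ (xb_tau_nonneg F p h0 h1 u d)
          exact (wk_mono_E (cubeE m) F hF (TT m) z u).trans (four_mix m (by omega) _ le_rfl z u)
      _ = 4 * (m : ℝ) ^ TT m / 2 ^ m * chi F p d := by
          rw [← Finset.mul_sum, xb_chi_sum]
          congr 1
          exact Finset.sum_congr rfl fun u _ => xb_tau_comm F p u d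
      _ ≤ _ := mul_le_mul_of_nonneg_left (hX d) (by positivity)
  have h3 : (p * m) ^ TT m ≤ LL 10000 m := by
    have h4 := xn_pow 5000 (by norm_num) m 1 (TT m) hm (by omega) (by omega)
    refine (pow_le_pow_left₀ (by positivity) hp _).trans (h4.trans (le_of_eq ?_))
    norm_num
  calc p ^ TT m * (nb F)^[TT m] (fun u => tau F p u d) z
      ≤ p ^ TT m * (4 * (m : ℝ) ^ TT m / 2 ^ m * X) := mul_le_mul_of_nonneg_left h2 (by positivity)
    _ = 4 * (p * m) ^ TT m * X / 2 ^ m := by rw [mul_pow]; ring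
    _ ≤ _ := by gcongr

private theorem rc_MM (m : ℕ) (hm : 1 ≤ m) (j : ℕ) (x x' : Q m) (hj : 2 ≤ j) (hx : x ≠ x') :
    wk (cubeE m) j x x' ≤ MM m j :=
  le_min (wk_off m hm j hj x x' hx) (four_upper m hm j x x')

private theorem rc_MM0 (m j : ℕ) : 0 ≤ MM m j := by
  unfold MM
  have := Real.exp_pos (-(2 * (j : ℝ) / m))
  exact le_min (by positivity) (by positivity)

/-- the two point function of neighbours -/
private theorem rc_tau (m : ℕ) (hm : 3 ≤ m) (E : Finset (Sym2 (Q m))) (hE : E ⊆ cubeE m)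
    (p : ℝ) (h0 : 0 ≤ p) (h1 : p ≤ 1) (hp : p * m ≤ 1 + 5000 * dl m) (hp2 : p * m ≤ 2)
    (hsn : ∑ i ∈ range (TT m), (∑ j ∈ Ico (max i 1) (TT m), p ^ (j + 1) * MM m (j + 1)) *
      (1 : ℝ) ^ (i + 1) ≤ 1 / m)
    (X : ℝ) (hX0 : 0 ≤ X) (hX : ∀ x, chi E p x ≤ X) (hϵ : 4 * LL 10000 m * X / 2 ^ m ≤ 1 / m)
    (z y : Q m) (hzy : z ≠ y) : tau E p z y ≤ 4 / m := by
  have hm0 : (0 : ℝ) < m := by positivity
  have h2 := b_twop E p h0 h1 (TT m) z y
  have h3 := rc_eps m hm E hE p h0 h1 hp X hX0 hX z y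
  have hp' : p ≤ 2 / m := by rwa [le_div_iff₀ hm0]
  have h4 : ∑ i ∈ range (TT m), p ^ i * wk E i z y ≤ 3 / m := by
    have h5 : ∀ i ∈ range (TT m), p ^ i * wk E i z y ≤
        (if i = 1 then p else 0) + (if 2 ≤ i then p ^ i * MM m i else 0) := by
      intro i _
      rcases Nat.lt_or_ge i 2 with h | h
      · rw [if_neg (not_le.2 h), add_zero]
        interval_cases i
        · rw [wk_zero, if_neg hzy]; simp
        · rw [if_pos rfl, pow_one]
          calc p * wk E 1 z y ≤ p * 1 := mul_le_mul_of_nonneg_left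
                ((wk_mono_E (cubeE m) E hE 1 z y).trans (wk_one m z y)) h0
            _ = p := mul_one p
      · rw [if_pos h, if_neg (show ¬ i = 1 by omega), zero_add]
        exact mul_le_mul_of_nonneg_left ((wk_mono_E (cubeE m) E hE i z y).trans
          (rc_MM m (by omega) i z y h hzy)) (by positivity)
    refine (Finset.sum_le_sum h5).trans ?_
    rw [Finset.sum_add_distrib]
    have h6 : ∑ i ∈ range (TT m), (if i = 1 then p else 0) ≤ p := by
      rw [Finset.sum_ite_eq']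
      split_ifs
      · exact le_rfl
      · exact h0
    have h7 : ∑ i ∈ range (TT m), (if 2 ≤ i then p ^ i * MM m i else 0) ≤ 1 / m := by
      refine le_trans ?_ hsn
      have hnn : ∀ i ∈ range (TT m), 0 ≤ (∑ j ∈ Ico (max i 1) (TT m), p ^ (j + 1) * MM m (j + 1)) *
          (1 : ℝ) ^ (i + 1) := by
        intro i _
        rw [one_pow, mul_one]
        exact Finset.sum_nonneg fun j _ => mul_nonneg (by positivity) (rc_MM0 m _)
      rcases Nat.eq_zero_or_pos (TT m) with hT | hT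
      · rw [hT]; simp
      · refine le_trans ?_ (Finset.single_le_sum hnn (Finset.mem_range.2 hT))
        rw [one_pow, mul_one, show max 0 1 = 1 from rfl, ← Finset.sum_filter]
        have h8 : (range (TT m)).filter (fun i => 2 ≤ i) = (Ico 1 (TT m - 1)).image (· + 1) := by
          ext i
          simp only [Finset.mem_filter, Finset.mem_range, Finset.mem_image, Finset.mem_Ico]
          constructor
          · rintro ⟨h9, h10⟩
            exact ⟨i - 1, by omega, by omega⟩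
          · rintro ⟨j, hj, rfl⟩
            omega
        rw [h8, Finset.sum_image (by intro a _ b _ h; simpa using h)]
        exact Finset.sum_le_sum_of_subset_of_nonneg
          (Finset.Ico_subset_Ico le_rfl (Nat.sub_le _ _))
          fun j _ _ => mul_nonneg (by positivity) (rc_MM0 m _)
    have h9 : (2 : ℝ) / m + 1 / m = 3 / m := by rw [← add_div]; norm_num
    linarith
  have h10 : (3 : ℝ) / m + 1 / m = 4 / m := by rw [← add_div]; norm_num
  linarith

private theorem rc_claim2 (m : ℕ) (hm : 3 ≤ m) (hA : 5000 * dl m ≤ 1)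
    (hB : 4 * (m : ℝ) ^ 1 ≤ LL 20000 m) (hC : 48 * (m : ℝ) ^ 4 ≤ LL 10000 m)
    (hsn : ∀ p R : ℝ, 0 ≤ p → p * m ≤ 1 + 5000 * dl m → 1 ≤ R → R ≤ 1 + 12000 * dl m →
      ∑ i ∈ range (TT m), (∑ j ∈ Ico (max i 1) (TT m), p ^ (j + 1) * MM m (j + 1)) * R ^ (i + 1) ≤
      1 / m) (X vmax a p : ℝ) (hX1 : 1 ≤ X) (hvmax0 : 0 ≤ vmax)
    (hLX : LL 30000 m * X ^ 2 ≤ 2 ^ m) (ha : LL 30000 m * X ^ 2 * vmax / 2 ^ m ≤ a)
    (hp0 : 0 ≤ p) (hpm : p * m ≤ 1 + 5000 * dl m) (E : Finset (Sym2 (Q m))) (hE : E ⊆ cubeE m)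
    (hX : ∀ x, chi (cubeE m) p x ≤ X) (g : Q m → ℝ) (hg : ∀ z, 0 ≤ g z)
    (hvm : ∀ y, wt E p (sm g) y ≤ vmax)
    (hb : ∀ y, p * nb E (fun z => wt E p (sm g) z + a) y ≤
      (1 + 12000 * dl m) * (wt E p (sm g) y + a)) (y : Q m) :
    p * nb E (fun z => wt E p (sm g) z + a) y ≤
      (1 + 6000 * dl m) * (wt E p (sm g) y + a) := by
  have hm3 : (3 : ℝ) ≤ m := by exact_mod_cast hm
  have hm0 : (0 : ℝ) < m := by linarith
  have hlog := xn_log m hm
  have hdl := xn_dl_nonneg m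
  have hpm2 : p * m ≤ 2 := by linarith
  have hp1 : p ≤ 1 := by
    have : p * 3 ≤ 2 := (mul_le_mul_of_nonneg_left hm3 hp0).trans hpm2
    linarith
  have h2m : (0 : ℝ) < 2 ^ m := by positivity
  have h12dl : 0 ≤ 12000 * dl m := by positivity
  have hX0 : 0 ≤ X := by linarith
  have ha0 : 0 ≤ a := le_trans (by have := xn_LL_pos 30000 m; positivity) ha
  set v : Q m → ℝ := fun z => wt E p (sm g) z with hv
  have hg0 : ∀ z, 0 ≤ g z := hg
  have hEX : ∀ x, chi E p x ≤ X := fun x =>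
    (xb_chi_mono_E (cubeE m) E hE p hp0 hp1 x).trans (hX x)
  have hv0 : ∀ d, 0 ≤ v d := by
    intro d
    show 0 ≤ wt E p (sm g) d
    rw [xb_wt_sm]
    exact Finset.sum_nonneg fun z _ => mul_nonneg (hg0 z) (xb_tau_nonneg E p hp0 hp1 d z)
  set ϵ := 4 * LL 10000 m * X / 2 ^ m with hϵ
  have hL0 := xn_LL_pos 10000 m
  have hϵ0 : 0 ≤ ϵ := by positivity
  have hLL3 : LL 30000 m = LL 20000 m * LL 10000 m := by rw [xn_LL_add]; norm_num
  have hϵm : ϵ ≤ 1 / m := by
    rw [le_div_iff₀ hm0]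
    rw [hϵ, div_mul_eq_mul_div, div_le_one h2m]
    refine le_trans ?_ hLX
    rw [hLL3]
    have h3 : X ≤ X ^ 2 := by nlinarith [sq_nonneg X, mul_nonneg hX0 (sub_nonneg.2 hX1)]
    calc 4 * LL 10000 m * X * m = (4 * (m : ℝ) ^ 1) * LL 10000 m * X := by ring
      _ ≤ LL 20000 m * LL 10000 m * X ^ 2 := by
          have := xn_LL_pos 20000 m
          gcongr
  -- the expansion
  have hreci := b_reci E (by
    intro e he hd
    have h3 := hE he
    unfold cubeE at h3
    rw [SimpleGraph.mem_edgeFinset] at h3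
    exact (cube m).not_isDiag_of_mem_edgeSet h3 hd) p hp0 hp1 g hg0 y
  have hkern := b_kern m E hE p hp0 hp1 y v vmax hv0 hvm (TT m) (MM m)
    (fun j x x' hj hx => rc_MM m (by omega) j x x' hj hx) ϵ hϵ0
    (fun z d => rc_eps m hm (offE E {y}) ((xb_offE_subset E {y}).trans hE) p hp0 hp1 hpm X hX0
      (fun x => (xb_chi_mono_E E (offE E {y}) (xb_offE_subset E {y}) p hp0 hp1 x).trans (hEX x))
      z d)
  set S := p ^ 2 / 2 * nb E (fun z => nb E (fun z' => if z' = z then 0 else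
        ∑ d, tau (offE E {y}) p z d * tau (offE E {y}) p z' d * v d) y) y with hS
  set u : Q m → ℝ := fun z => wt E p (sm g) z + a with hu
  have hu0 : ∀ z, 0 ≤ u z := fun z => add_nonneg (hv0 z) ha0
  have hB0 : (0 : ℝ) ≤ 1 + 12000 * dl m := by positivity
  have hiter := rc_iter E u p (1 + 12000 * dl m) hp0 hB0 hb
  have hmain : ∑ i ∈ range (TT m), (∑ j ∈ Ico (max i 1) (TT m), p ^ (j + 1) * MM m (j + 1)) *
      (p ^ (i + 1) * (nb E)^[i + 1] v y) ≤ 1 / m * u y := by
    calc _ ≤ ∑ i ∈ range (TT m), (∑ j ∈ Ico (max i 1) (TT m), p ^ (j + 1) * MM m (j + 1)) *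
          ((1 + 12000 * dl m) ^ (i + 1) * u y) := by
          refine Finset.sum_le_sum fun i _ => ?_
          refine mul_le_mul_of_nonneg_left ?_
            (Finset.sum_nonneg fun j _ => mul_nonneg (by positivity) (rc_MM0 m _))
          refine le_trans ?_ (hiter (i + 1) y)
          refine mul_le_mul_of_nonneg_left ?_ (by positivity)
          exact nb_iter_mono E (i + 1) v u (fun z => by show v z ≤ v z + a; linarith) y
      _ = (∑ i ∈ range (TT m), (∑ j ∈ Ico (max i 1) (TT m), p ^ (j + 1) * MM m (j + 1)) *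
          (1 + 12000 * dl m) ^ (i + 1)) * u y := by
          rw [Finset.sum_mul]
          exact Finset.sum_congr rfl fun i _ => by ring
      _ ≤ 1 / m * u y := mul_le_mul_of_nonneg_right
          (hsn p (1 + 12000 * dl m) hp0 hpm (by linarith) le_rfl) (hu0 y)
  have hTT := xn_TT m (by omega)
  have hsumpow : ∑ i ∈ range (TT m), (p * m) ^ i ≤ (m : ℝ) ^ 2 * LL 10000 m := by
    calc ∑ i ∈ range (TT m), (p * m) ^ i ≤ ∑ i ∈ range (TT m), LL 10000 m := by
          refine Finset.sum_le_sum fun i hi => ?_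
          have hi' := Finset.mem_range.1 hi
          have h4 := xn_pow 5000 (by norm_num) m 1 i hm (by omega) (by omega)
          refine (pow_le_pow_left₀ (by positivity) hpm _).trans (h4.trans (le_of_eq ?_))
          norm_num
      _ = (TT m : ℝ) * LL 10000 m := by
          rw [Finset.sum_const, Finset.card_range, nsmul_eq_mul]
      _ ≤ _ := mul_le_mul_of_nonneg_right hTT.2.2 hL0.le
  have herr : (p * m) ^ 2 * (ϵ * ∑ i ∈ range (TT m), (p * m) ^ i + ϵ ^ 2 * 2 ^ m / 2) * vmax ≤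
      a / m := by
    have hpm0 : 0 ≤ p * m := by positivity
    have h5 : (p * m) ^ 2 ≤ 4 := by nlinarith
    have h6 : ϵ * ∑ i ∈ range (TT m), (p * m) ^ i + ϵ ^ 2 * 2 ^ m / 2 ≤
        12 * (m : ℝ) ^ 2 * LL 20000 m * X ^ 2 / 2 ^ m := by
      have h7 : ϵ * ∑ i ∈ range (TT m), (p * m) ^ i ≤ ϵ * ((m : ℝ) ^ 2 * LL 10000 m) :=
        mul_le_mul_of_nonneg_left hsumpow hϵ0
      have hLL2 : LL 20000 m = LL 10000 m * LL 10000 m := by rw [xn_LL_add]; norm_num
      have h8 : ϵ * ((m : ℝ) ^ 2 * LL 10000 m) ≤ 4 * (m : ℝ) ^ 2 * LL 20000 m * X ^ 2 / 2 ^ m := by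
        rw [hϵ, hLL2, div_mul_eq_mul_div]
        apply div_le_div_of_nonneg_right _ h2m.le
        have h9 : X ≤ X ^ 2 := by nlinarith
        calc 4 * LL 10000 m * X * ((m : ℝ) ^ 2 * LL 10000 m) =
              4 * (m : ℝ) ^ 2 * (LL 10000 m * LL 10000 m) * X := by ring
          _ ≤ _ := by gcongr
      have h10 : ϵ ^ 2 * 2 ^ m / 2 ≤ 8 * (m : ℝ) ^ 2 * LL 20000 m * X ^ 2 / 2 ^ m := by
        rw [hϵ, hLL2]
        have h11 : (4 * LL 10000 m * X / 2 ^ m) ^ 2 * 2 ^ m / 2 =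
            8 * 1 * (LL 10000 m * LL 10000 m) * X ^ 2 / 2 ^ m := by
          field_simp
          ring
        rw [h11]
        have h12 : (1 : ℝ) ≤ (m : ℝ) ^ 2 := by nlinarith
        gcongr
      have h13 : 4 * (m : ℝ) ^ 2 * LL 20000 m * X ^ 2 / 2 ^ m +
          8 * (m : ℝ) ^ 2 * LL 20000 m * X ^ 2 / 2 ^ m =
          12 * (m : ℝ) ^ 2 * LL 20000 m * X ^ 2 / 2 ^ m := by ring
      linarith
    have h14 : 0 ≤ ϵ * ∑ i ∈ range (TT m), (p * m) ^ i + ϵ ^ 2 * 2 ^ m / 2 := by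
      have : 0 ≤ ∑ i ∈ range (TT m), (p * m) ^ i := Finset.sum_nonneg fun i _ => by positivity
      positivity
    calc (p * m) ^ 2 * (ϵ * ∑ i ∈ range (TT m), (p * m) ^ i + ϵ ^ 2 * 2 ^ m / 2) * vmax
        ≤ 4 * (12 * (m : ℝ) ^ 2 * LL 20000 m * X ^ 2 / 2 ^ m) * vmax := by
          refine mul_le_mul_of_nonneg_right ?_ hvmax0
          exact mul_le_mul h5 h6 h14 (by norm_num)
      _ = (48 * (m : ℝ) ^ 4) * LL 20000 m * X ^ 2 * vmax / 2 ^ m / m / m := by
          field_simp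
          ring
      _ ≤ LL 10000 m * LL 20000 m * X ^ 2 * vmax / 2 ^ m / m / m := by
          have := xn_LL_pos 20000 m
          gcongr
      _ = LL 30000 m * X ^ 2 * vmax / 2 ^ m / m / m := by rw [hLL3]; ring
      _ ≤ a / m / m := div_le_div_of_nonneg_right (div_le_div_of_nonneg_right ha hm0.le) hm0.le
      _ ≤ a / m := div_le_self (div_nonneg ha0 hm0.le) (by linarith)
  have hSle : S ≤ 1 / m * u y + a / m := hkern.trans (add_le_add hmain herr)
  -- neighbours of `y`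
  obtain ⟨N, hN, hnb⟩ := rc_nb E y
  have hcardN : (N.card : ℝ) ≤ m := by
    have h2 := nb_iter_le m 1 E hE (fun _ => 1) 1 (by norm_num) (fun _ => le_rfl) y
    rw [Function.iterate_one, hnb] at h2
    simpa using h2
  have htau : ∀ z ∈ N, tau E p z y ≤ 4 / m := by
    intro z hz
    refine rc_tau m hm E hE p hp0 hp1 hpm hpm2 (hsn p 1 hp0 hpm le_rfl (by linarith)) X hX0 hEX
      hϵm z y ?_
    intro hzy
    subst hzy
    have h3 := hE ((hN z).1 hz)
    unfold cubeE at h3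
    rw [SimpleGraph.mem_edgeFinset, SimpleGraph.mem_edgeSet] at h3
    exact (cube m).loopless.irrefl z h3
  have hv1 : p * ∑ z ∈ N, v z ≤ v y + 8 / m * v y + S := by
    have h3 := hreci
    rw [hnb (fun z => wt E p (sm g) z - tau E p z y * wt E p (sm g) y)] at h3
    have h4 : g y + p * ∑ z ∈ N, (v z - tau E p z y * v y) - S ≤ v y := h3
    rw [Finset.sum_sub_distrib, ← Finset.sum_mul] at h4
    have h5 : ∑ z ∈ N, tau E p z y ≤ 4 := by
      calc ∑ z ∈ N, tau E p z y ≤ ∑ z ∈ N, 4 / (m : ℝ) := Finset.sum_le_sum htau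
        _ = N.card * (4 / m) := by rw [Finset.sum_const, nsmul_eq_mul]
        _ ≤ m * (4 / m) := mul_le_mul_of_nonneg_right hcardN (by positivity)
        _ = 4 := by field_simp
    have h6 : p * ((∑ z ∈ N, tau E p z y) * v y) ≤ 8 / m * v y := by
      have hp' : p ≤ 2 / m := by rwa [le_div_iff₀ hm0]
      calc p * ((∑ z ∈ N, tau E p z y) * v y) ≤ 2 / m * (4 * v y) := by
            refine mul_le_mul hp' (mul_le_mul_of_nonneg_right h5 (hv0 y)) ?_ (by positivity)
            exact mul_nonneg (Finset.sum_nonneg fun z _ => xb_tau_nonneg E p hp0 hp1 z y) (hv0 y)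
        _ = 8 / m * v y := by ring
    have h7 := hg0 y
    have h8 : p * (∑ z ∈ N, v z - (∑ z ∈ N, tau E p z y) * v y) =
        p * ∑ z ∈ N, v z - p * ((∑ z ∈ N, tau E p z y) * v y) := by ring
    rw [h8] at h4
    linarith
  rw [hnb]
  have h9 : ∑ z ∈ N, u z = ∑ z ∈ N, v z + N.card * a := by
    show ∑ z ∈ N, (v z + a) = _
    rw [Finset.sum_add_distrib, Finset.sum_const, nsmul_eq_mul]
  have h10 : p * (N.card * a) ≤ (1 + 5000 * dl m) * a := by
    calc p * (N.card * a) ≤ p * (m * a) :=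
          mul_le_mul_of_nonneg_left (mul_le_mul_of_nonneg_right hcardN ha0) hp0
      _ = (p * m) * a := by ring
      _ ≤ _ := mul_le_mul_of_nonneg_right hpm ha0
  have h11 : (10 : ℝ) / m ≤ 1000 * dl m := by
    unfold dl
    rw [mul_div_assoc']
    apply div_le_div_of_nonneg_right _ hm0.le
    linarith
  have huy : u y = v y + a := rfl
  have h12 : (10 : ℝ) / m * u y ≤ 1000 * dl m * u y := mul_le_mul_of_nonneg_right h11 (hu0 y)
  have h13 : a / m ≤ 1 / m * u y := by
    rw [huy]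
    have : 1 / (m : ℝ) * (v y + a) = 1 / m * v y + a / m := by ring
    rw [this]
    have := mul_nonneg (show (0 : ℝ) ≤ 1 / m by positivity) (hv0 y)
    linarith
  have h14 : 8 / (m : ℝ) * v y ≤ 8 / m * u y := by
    apply mul_le_mul_of_nonneg_left _ (by positivity)
    rw [huy]; linarith
  have h15 : 8 / (m : ℝ) * u y + 1 / m * u y + 1 / m * u y = 10 / m * u y := by ring
  have h16 : 0 ≤ 5000 * dl m * v y := by
    have := hv0 y
    positivity
  show p * ∑ z ∈ N, u z ≤ (1 + 6000 * dl m) * u y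
  rw [h9, mul_add]
  have h17 : (1 + 6000 * dl m) * u y = v y + a + 5000 * dl m * v y + 5000 * dl m * a +
      1000 * dl m * u y := by
    rw [huy]; ring
  have h18 : (1 + 5000 * dl m) * a = a + 5000 * dl m * a := by ring
  rw [h17]
  rw [h18] at h10
  linarith

private theorem rc_cont {V : Type} [Fintype V] (E : Finset (Sym2 V)) (Θ : Finset V → ℝ) (x : V) :
    Continuous fun p => wt E p Θ x := by
  unfold wt Ex
  fun_prop

theorem rect2 : ∃ m0 : ℕ, ∀ m ≥ m0, ∀ X vmax a p0 : ℝ, 1 ≤ X → 0 ≤ vmax →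
    LL 30000 m * X ^ 2 ≤ 2 ^ m → LL 30000 m * X ^ 2 * vmax / 2 ^ m ≤ a →
    0 ≤ p0 → p0 * m ≤ 1 + 5000 * dl m → (∀ x, chi (cubeE m) p0 x ≤ X) →
    ∀ (W : Finset (Q m)) (g : Q m → ℝ), (∀ z, 0 ≤ g z) →
    (∀ y, wt (offE (cubeE m) W) p0 (sm g) y ≤ vmax) → ∀ y,
    p0 * nb (offE (cubeE m) W) (fun z => wt (offE (cubeE m) W) p0 (sm g) z + a) y ≤
      (1 + 6000 * dl m) * (wt (offE (cubeE m) W) p0 (sm g) y + a) := by
  obtain ⟨mA, hmA⟩ := xn_dl 5000 1 (by norm_num)
  obtain ⟨mB, hmB⟩ := xn_poly 1 4 20000 (by norm_num)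
  obtain ⟨mC, hmC⟩ := xn_poly 4 48 10000 (by norm_num)
  obtain ⟨mD, hmD⟩ := b_snum
  refine ⟨max 3 (max mA (max mB (max mC mD))), fun m hm => ?_⟩
  simp only [ge_iff_le, max_le_iff] at hm
  obtain ⟨hm3', hmA', hmB', hmC', hmD'⟩ := hm
  intro X vmax a p0 hX1 hvmax0 hLX ha hp0 hp0m hX W g hg hvmax y
  set E := offE (cubeE m) W with hEdef
  have hE : E ⊆ cubeE m := xb_offE_subset _ _
  have hm3 : (3 : ℝ) ≤ m := by exact_mod_cast hm3'
  have hm0 : (0 : ℝ) < m := by linarith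
  have hlog := xn_log m hm3'
  have hdl := xn_dl_nonneg m
  have hA := hmA m hmA'
  have hdlpos : 0 < dl m := by unfold dl; positivity
  have hX00 : (0 : ℝ) < X := by linarith
  have ha00 : 0 ≤ a := le_trans (by have := xn_LL_pos 30000 m; positivity) ha
  have hp01 : p0 ≤ 1 := by
    have : p0 * 3 ≤ 2 := (mul_le_mul_of_nonneg_left hm3 hp0).trans (by linarith)
    linarith
  rcases ha00.eq_or_lt with ha0e | ha0
  · -- the case `a = 0`
    have hL := xn_LL_pos 30000 m
    have hv0 : vmax = 0 := by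
      by_contra hne
      have hpos : 0 < vmax := lt_of_le_of_ne hvmax0 (Ne.symm hne)
      have : 0 < LL 30000 m * X ^ 2 * vmax / 2 ^ m := by positivity
      linarith
    have hwt : ∀ z, wt E p0 (sm g) z = 0 := by
      intro z
      refine le_antisymm ((hvmax z).trans hv0.le) ?_
      rw [xb_wt_sm]
      exact Finset.sum_nonneg fun z' _ => mul_nonneg (hg z') (xb_tau_nonneg E p0 hp0 hp01 z z')
    obtain ⟨N, -, hN⟩ := rc_nb E y
    rw [hN, hwt y]
    simp only [hwt, ← ha0e, add_zero, Finset.sum_const_zero, mul_zero, le_refl]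
  let u : ℝ → Q m → ℝ := fun p z => wt E p (sm g) z + a
  have hupos : ∀ p, 0 ≤ p → p ≤ 1 → ∀ z, 0 < u p z := by
    intro p h0 h1 z
    have : 0 ≤ wt E p (sm g) z := by
      rw [xb_wt_sm]
      exact Finset.sum_nonneg fun z' _ =>
        mul_nonneg (hg z') (xb_tau_nonneg E p h0 h1 z z')
    show 0 < wt E p (sm g) z + a
    linarith
  have hucont : ∀ z, Continuous fun p => u p z := fun z => (rc_cont E (sm g) z).add continuous_const
  have hne : (univ : Finset (Q m)).Nonempty := ⟨y, Finset.mem_univ y⟩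
  let f : ℝ → ℝ := fun p => (univ : Finset (Q m)).sup' hne fun y => p * nb E (u p) y / u p y
  have hfle : ∀ p, 0 ≤ p → p ≤ 1 → ∀ c, f p ≤ c ↔ ∀ y, p * nb E (u p) y ≤ c * u p y := by
    intro p h0 h1 c
    show (univ : Finset (Q m)).sup' hne (fun y => p * nb E (u p) y / u p y) ≤ c ↔ _
    rw [Finset.sup'_le_iff]
    constructor
    · intro h y
      have := h y (Finset.mem_univ y)
      rwa [div_le_iff₀ (hupos p h0 h1 y)] at this
    · intro h y _
      rw [div_le_iff₀ (hupos p h0 h1 y)]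
      exact h y
  have hfc : ContinuousOn f (Set.Icc 0 p0) := by
    refine ContinuousOn.finset_sup'_apply hne fun y _ => ?_
    refine ContinuousOn.div ?_ (hucont y).continuousOn ?_
    · refine (continuous_id.mul ?_).continuousOn
      obtain ⟨N, -, hnb⟩ := rc_nb E y
      have : (fun p => nb E (u p) y) = fun p => ∑ z ∈ N, u p z := by
        funext p
        exact hnb (u p)
      rw [this]
      exact continuous_finsetSum _ fun z _ => hucont z
    · intro p hp
      exact (hupos p hp.1 (hp.2.trans hp01) y).ne'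
  have hboot := b_boot p0 (1 + 6000 * dl m) (1 + 12000 * dl m) (by linarith) f hfc ?_ ?_ p0 hp0
    le_rfl
  · exact (hfle p0 hp0 hp01 _).1 hboot y
  · rw [hfle 0 le_rfl (by norm_num)]
    intro y
    rw [zero_mul]
    exact mul_nonneg (by positivity) (hupos 0 le_rfl (by norm_num) y).le
  · intro p h0 h1 hfB
    have hp1 : p ≤ 1 := h1.trans hp01
    rw [hfle p h0 hp1] at hfB ⊢
    intro y
    have hvp : ∀ z, wt E p (sm g) z ≤ vmax := by
      intro z
      refine le_trans ?_ (hvmax z)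
      rw [xb_wt_sm, xb_wt_sm]
      exact Finset.sum_le_sum fun z' _ =>
        mul_le_mul_of_nonneg_left (xb_tau_mono_p E p p0 h0 h1 hp01 z z') (hg z')
    exact rc_claim2 m hm3' hA (hmB m hmB') (hmC m hmC') (hmD m hmD') X vmax a p hX1 hvmax0 hLX ha h0
      ((mul_le_mul_of_nonneg_right h1 hm0.le).trans hp0m) E hE
      (fun x => (xb_chi_mono_p (cubeE m) p p0 h0 h1 hp01 x).trans (hX x)) g hg hvp hfB y

/-- the two point function of neighbours -/
private theorem rc_tau2 (m : ℕ) (hm : 3 ≤ m) (E : Finset (Sym2 (Q m))) (hE : E ⊆ cubeE m)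
    (p : ℝ) (h0 : 0 ≤ p) (h1 : p ≤ 1) (hp : p * m ≤ 1 + 5000 * dl m) (hp2 : p * m ≤ 2)
    (hsn : ∑ i ∈ range (TT m), (∑ j ∈ Ico (max i 1) (TT m), p ^ (j + 1) * MM m (j + 1)) *
      (1 : ℝ) ^ (i + 1) ≤ l4 m)
    (X : ℝ) (hX0 : 0 ≤ X) (hX : ∀ x, chi E p x ≤ X) (hϵ : 4 * LL 10000 m * X / 2 ^ m ≤ l4 m)
    (z y : Q m) (hzy : z ≠ y) : tau E p z y ≤ p + 2 * l4 m := by
  have hm0 : (0 : ℝ) < m := by positivity
  have h2 := b_twop E p h0 h1 (TT m) z y
  have h3 := rc_eps m hm E hE p h0 h1 hp X hX0 hX z y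
  have hp' : p ≤ 2 / m := by rwa [le_div_iff₀ hm0]
  have h4 : ∑ i ∈ range (TT m), p ^ i * wk E i z y ≤ p + l4 m := by
    have h5 : ∀ i ∈ range (TT m), p ^ i * wk E i z y ≤
        (if i = 1 then p else 0) + (if 2 ≤ i then p ^ i * MM m i else 0) := by
      intro i _
      rcases Nat.lt_or_ge i 2 with h | h
      · rw [if_neg (not_le.2 h), add_zero]
        interval_cases i
        · rw [wk_zero, if_neg hzy]; simp
        · rw [if_pos rfl, pow_one]
          calc p * wk E 1 z y ≤ p * 1 := mul_le_mul_of_nonneg_left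
                ((wk_mono_E (cubeE m) E hE 1 z y).trans (wk_one m z y)) h0
            _ = p := mul_one p
      · rw [if_pos h, if_neg (show ¬ i = 1 by omega), zero_add]
        exact mul_le_mul_of_nonneg_left ((wk_mono_E (cubeE m) E hE i z y).trans
          (rc_MM m (by omega) i z y h hzy)) (by positivity)
    refine (Finset.sum_le_sum h5).trans ?_
    rw [Finset.sum_add_distrib]
    have h6 : ∑ i ∈ range (TT m), (if i = 1 then p else 0) ≤ p := by
      rw [Finset.sum_ite_eq']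
      split_ifs
      · exact le_rfl
      · exact h0
    have h7 : ∑ i ∈ range (TT m), (if 2 ≤ i then p ^ i * MM m i else 0) ≤ l4 m := by
      refine le_trans ?_ hsn
      have hnn : ∀ i ∈ range (TT m), 0 ≤ (∑ j ∈ Ico (max i 1) (TT m), p ^ (j + 1) * MM m (j + 1)) *
          (1 : ℝ) ^ (i + 1) := by
        intro i _
        rw [one_pow, mul_one]
        exact Finset.sum_nonneg fun j _ => mul_nonneg (by positivity) (rc_MM0 m _)
      rcases Nat.eq_zero_or_pos (TT m) with hT | hT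
      · rw [hT]; simp
      · refine le_trans ?_ (Finset.single_le_sum hnn (Finset.mem_range.2 hT))
        rw [one_pow, mul_one, show max 0 1 = 1 from rfl, ← Finset.sum_filter]
        have h8 : (range (TT m)).filter (fun i => 2 ≤ i) = (Ico 1 (TT m - 1)).image (· + 1) := by
          ext i
          simp only [Finset.mem_filter, Finset.mem_range, Finset.mem_image, Finset.mem_Ico]
          constructor
          · rintro ⟨h9, h10⟩
            exact ⟨i - 1, by omega, by omega⟩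
          · rintro ⟨j, hj, rfl⟩
            omega
        rw [h8, Finset.sum_image (by intro a _ b _ h; simpa using h)]
        exact Finset.sum_le_sum_of_subset_of_nonneg
          (Finset.Ico_subset_Ico le_rfl (Nat.sub_le _ _))
          fun j _ _ => mul_nonneg (by positivity) (rc_MM0 m _)
    linarith
  linarith

theorem rect_core : ∃ m0 : ℕ, ∀ m ≥ m0, ∀ X vmax a p0 : ℝ, 1 ≤ X → 0 ≤ vmax →
    LL 30000 m * X ^ 2 ≤ 2 ^ m → LL 30000 m * X ^ 2 * vmax / 2 ^ m ≤ a →
    0 ≤ p0 → p0 * m ≤ 1 + 5000 * dl m → (∀ x, chi (cubeE m) p0 x ≤ X) →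
    ∀ (W : Finset (Q m)) (g : Q m → ℝ), (∀ z, 0 ≤ g z) →
    (∀ y, wt (offE (cubeE m) W) p0 (sm g) y ≤ vmax) → ∀ y,
    g y + p0 * nb (offE (cubeE m) W) (fun z => wt (offE (cubeE m) W) p0 (sm g) z) y ≤
      wt (offE (cubeE m) W) p0 (sm g) y * (1 + m * p0 ^ 2 + 5 * l4 m) + 2 * l4 m * a := by
  obtain ⟨mA, hmA⟩ := xn_dl 5000 1 (by norm_num)
  obtain ⟨mB, hmB⟩ := xn_poly 2 4 20000 (by norm_num)
  obtain ⟨mC, hmC⟩ := xn_poly 4 48 10000 (by norm_num)
  obtain ⟨mD, hmD⟩ := snum2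
  obtain ⟨mE, hmE⟩ := rect2
  refine ⟨max 3 (max mA (max mB (max mC (max mD mE)))), fun m hm => ?_⟩
  simp only [ge_iff_le, max_le_iff] at hm
  obtain ⟨hm3', hmA', hmB', hmC', hmD', hmE'⟩ := hm
  intro X vmax a p hX1 hvmax0 hLX ha hp0 hpm hX W g hg0 hvm y
  have hb := hmE m hmE' X vmax a p hX1 hvmax0 hLX ha hp0 hpm hX W g hg0 hvm
  have hsn := hmD m hmD'
  have hC := hmC m hmC'
  have hm3 : (3 : ℝ) ≤ m := by exact_mod_cast hm3'
  have hm0 : (0 : ℝ) < m := by linarith
  have hlog := xn_log m hm3'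
  have hdl := xn_dl_nonneg m
  have hA := hmA m hmA'
  have hpm2 : p * m ≤ 2 := by linarith
  have hp1 : p ≤ 1 := by
    have : p * 3 ≤ 2 := (mul_le_mul_of_nonneg_left hm3 hp0).trans hpm2
    linarith
  have h2m : (0 : ℝ) < 2 ^ m := by positivity
  have h12dl : 0 ≤ 12000 * dl m := by positivity
  have hX0 : 0 ≤ X := by linarith
  have ha0 : 0 ≤ a := le_trans (by have := xn_LL_pos 30000 m; positivity) ha
  have hm2l : 1 / (m : ℝ) / m ≤ l4 m := by
    unfold l4
    rw [div_div, ← pow_two]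
    apply div_le_div_of_nonneg_right _ (by positivity)
    exact one_le_pow₀ hlog
  have hl40 : 0 ≤ l4 m := le_trans (by positivity) hm2l
  set E := offE (cubeE m) W with hEdef
  have hE : E ⊆ cubeE m := xb_offE_subset _ _
  set v : Q m → ℝ := fun z => wt E p (sm g) z with hv
  have hEX : ∀ x, chi E p x ≤ X := fun x =>
    (xb_chi_mono_E (cubeE m) E hE p hp0 hp1 x).trans (hX x)
  have hv0 : ∀ d, 0 ≤ v d := by
    intro d
    show 0 ≤ wt E p (sm g) d
    rw [xb_wt_sm]
    exact Finset.sum_nonneg fun z _ => mul_nonneg (hg0 z) (xb_tau_nonneg E p hp0 hp1 d z)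
  set ϵ := 4 * LL 10000 m * X / 2 ^ m with hϵ
  have hL0 := xn_LL_pos 10000 m
  have hϵ0 : 0 ≤ ϵ := by positivity
  have hLL3 : LL 30000 m = LL 20000 m * LL 10000 m := by rw [xn_LL_add]; norm_num
  have hϵm : ϵ ≤ l4 m := by
    refine le_trans ?_ hm2l
    rw [div_div, le_div_iff₀ (by positivity), hϵ, div_mul_eq_mul_div, div_le_one h2m]
    refine le_trans ?_ hLX
    rw [hLL3]
    have h3 : X ≤ X ^ 2 := by nlinarith [sq_nonneg X, mul_nonneg hX0 (sub_nonneg.2 hX1)]
    have h4 := hmB m hmB'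
    calc 4 * LL 10000 m * X * (m * m) = (4 * (m : ℝ) ^ 2) * LL 10000 m * X := by ring
      _ ≤ LL 20000 m * LL 10000 m * X ^ 2 := by
          have := xn_LL_pos 20000 m
          gcongr
  -- the expansion
  have hreci := b_reci E (by
    intro e he hd
    have h3 := hE he
    unfold cubeE at h3
    rw [SimpleGraph.mem_edgeFinset] at h3
    exact (cube m).not_isDiag_of_mem_edgeSet h3 hd) p hp0 hp1 g hg0 y
  have hkern := b_kern m E hE p hp0 hp1 y v vmax hv0 hvm (TT m) (MM m)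
    (fun j x x' hj hx => rc_MM m (by omega) j x x' hj hx) ϵ hϵ0
    (fun z d => rc_eps m hm3' (offE E {y}) ((xb_offE_subset E {y}).trans hE) p hp0 hp1 hpm X hX0
      (fun x => (xb_chi_mono_E E (offE E {y}) (xb_offE_subset E {y}) p hp0 hp1 x).trans (hEX x))
      z d)
  set S := p ^ 2 / 2 * nb E (fun z => nb E (fun z' => if z' = z then 0 else
        ∑ d, tau (offE E {y}) p z d * tau (offE E {y}) p z' d * v d) y) y with hS
  set u : Q m → ℝ := fun z => wt E p (sm g) z + a with hu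
  have hu0 : ∀ z, 0 ≤ u z := fun z => add_nonneg (hv0 z) ha0
  have hB0 : (0 : ℝ) ≤ 1 + 12000 * dl m := by positivity
  have hb' : ∀ y, p * nb E u y ≤ (1 + 12000 * dl m) * u y := fun y =>
    (hb y).trans (mul_le_mul_of_nonneg_right (by linarith) (hu0 y))
  have hiter := rc_iter E u p (1 + 12000 * dl m) hp0 hB0 hb'
  have hmain : ∑ i ∈ range (TT m), (∑ j ∈ Ico (max i 1) (TT m), p ^ (j + 1) * MM m (j + 1)) *
      (p ^ (i + 1) * (nb E)^[i + 1] v y) ≤ l4 m * u y := by
    calc _ ≤ ∑ i ∈ range (TT m), (∑ j ∈ Ico (max i 1) (TT m), p ^ (j + 1) * MM m (j + 1)) *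
          ((1 + 12000 * dl m) ^ (i + 1) * u y) := by
          refine Finset.sum_le_sum fun i _ => ?_
          refine mul_le_mul_of_nonneg_left ?_
            (Finset.sum_nonneg fun j _ => mul_nonneg (by positivity) (rc_MM0 m _))
          refine le_trans ?_ (hiter (i + 1) y)
          refine mul_le_mul_of_nonneg_left ?_ (by positivity)
          exact nb_iter_mono E (i + 1) v u (fun z => by show v z ≤ v z + a; linarith) y
      _ = (∑ i ∈ range (TT m), (∑ j ∈ Ico (max i 1) (TT m), p ^ (j + 1) * MM m (j + 1)) *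
          (1 + 12000 * dl m) ^ (i + 1)) * u y := by
          rw [Finset.sum_mul]
          exact Finset.sum_congr rfl fun i _ => by ring
      _ ≤ l4 m * u y := mul_le_mul_of_nonneg_right
          (hsn p (1 + 12000 * dl m) hp0 hpm (by linarith) le_rfl) (hu0 y)
  have hTT := xn_TT m (by omega)
  have hsumpow : ∑ i ∈ range (TT m), (p * m) ^ i ≤ (m : ℝ) ^ 2 * LL 10000 m := by
    calc ∑ i ∈ range (TT m), (p * m) ^ i ≤ ∑ i ∈ range (TT m), LL 10000 m := by
          refine Finset.sum_le_sum fun i hi => ?_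
          have hi' := Finset.mem_range.1 hi
          have h4 := xn_pow 5000 (by norm_num) m 1 i hm3' (by omega) (by omega)
          refine (pow_le_pow_left₀ (by positivity) hpm _).trans (h4.trans (le_of_eq ?_))
          norm_num
      _ = (TT m : ℝ) * LL 10000 m := by
          rw [Finset.sum_const, Finset.card_range, nsmul_eq_mul]
      _ ≤ _ := mul_le_mul_of_nonneg_right hTT.2.2 hL0.le
  have herr : (p * m) ^ 2 * (ϵ * ∑ i ∈ range (TT m), (p * m) ^ i + ϵ ^ 2 * 2 ^ m / 2) * vmax ≤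
      a / m / m := by
    have hpm0 : 0 ≤ p * m := by positivity
    have h5 : (p * m) ^ 2 ≤ 4 := by nlinarith
    have h6 : ϵ * ∑ i ∈ range (TT m), (p * m) ^ i + ϵ ^ 2 * 2 ^ m / 2 ≤
        12 * (m : ℝ) ^ 2 * LL 20000 m * X ^ 2 / 2 ^ m := by
      have h7 : ϵ * ∑ i ∈ range (TT m), (p * m) ^ i ≤ ϵ * ((m : ℝ) ^ 2 * LL 10000 m) :=
        mul_le_mul_of_nonneg_left hsumpow hϵ0
      have hLL2 : LL 20000 m = LL 10000 m * LL 10000 m := by rw [xn_LL_add]; norm_num
      have h8 : ϵ * ((m : ℝ) ^ 2 * LL 10000 m) ≤ 4 * (m : ℝ) ^ 2 * LL 20000 m * X ^ 2 / 2 ^ m := by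
        rw [hϵ, hLL2, div_mul_eq_mul_div]
        apply div_le_div_of_nonneg_right _ h2m.le
        have h9 : X ≤ X ^ 2 := by nlinarith
        calc 4 * LL 10000 m * X * ((m : ℝ) ^ 2 * LL 10000 m) =
              4 * (m : ℝ) ^ 2 * (LL 10000 m * LL 10000 m) * X := by ring
          _ ≤ _ := by gcongr
      have h10 : ϵ ^ 2 * 2 ^ m / 2 ≤ 8 * (m : ℝ) ^ 2 * LL 20000 m * X ^ 2 / 2 ^ m := by
        rw [hϵ, hLL2]
        have h11 : (4 * LL 10000 m * X / 2 ^ m) ^ 2 * 2 ^ m / 2 =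
            8 * 1 * (LL 10000 m * LL 10000 m) * X ^ 2 / 2 ^ m := by
          field_simp
          ring
        rw [h11]
        have h12 : (1 : ℝ) ≤ (m : ℝ) ^ 2 := by nlinarith
        gcongr
      have h13 : 4 * (m : ℝ) ^ 2 * LL 20000 m * X ^ 2 / 2 ^ m +
          8 * (m : ℝ) ^ 2 * LL 20000 m * X ^ 2 / 2 ^ m =
          12 * (m : ℝ) ^ 2 * LL 20000 m * X ^ 2 / 2 ^ m := by ring
      linarith
    have h14 : 0 ≤ ϵ * ∑ i ∈ range (TT m), (p * m) ^ i + ϵ ^ 2 * 2 ^ m / 2 := by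
      have : 0 ≤ ∑ i ∈ range (TT m), (p * m) ^ i := Finset.sum_nonneg fun i _ => by positivity
      positivity
    calc (p * m) ^ 2 * (ϵ * ∑ i ∈ range (TT m), (p * m) ^ i + ϵ ^ 2 * 2 ^ m / 2) * vmax
        ≤ 4 * (12 * (m : ℝ) ^ 2 * LL 20000 m * X ^ 2 / 2 ^ m) * vmax := by
          refine mul_le_mul_of_nonneg_right ?_ hvmax0
          exact mul_le_mul h5 h6 h14 (by norm_num)
      _ = (48 * (m : ℝ) ^ 4) * LL 20000 m * X ^ 2 * vmax / 2 ^ m / m / m := by
          field_simp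
          ring
      _ ≤ LL 10000 m * LL 20000 m * X ^ 2 * vmax / 2 ^ m / m / m := by
          have := xn_LL_pos 20000 m
          gcongr
      _ = LL 30000 m * X ^ 2 * vmax / 2 ^ m / m / m := by rw [hLL3]; ring
      _ ≤ a / m / m := div_le_div_of_nonneg_right (div_le_div_of_nonneg_right ha hm0.le) hm0.le
  have hSle : S ≤ l4 m * u y + a / m / m := hkern.trans (add_le_add hmain herr)
  -- neighbours of `y`
  obtain ⟨N, hN, hnb⟩ := rc_nb E y
  have hcardN : (N.card : ℝ) ≤ m := by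
    have h2 := nb_iter_le m 1 E hE (fun _ => 1) 1 (by norm_num) (fun _ => le_rfl) y
    rw [Function.iterate_one, hnb] at h2
    simpa using h2
  have htau : ∀ z ∈ N, tau E p z y ≤ p + 2 * l4 m := by
    intro z hz
    refine rc_tau2 m hm3' E hE p hp0 hp1 hpm hpm2 (hsn p 1 hp0 hpm le_rfl (by linarith)) X hX0 hEX
      hϵm z y ?_
    intro hzy
    subst hzy
    have h3 := hE ((hN z).1 hz)
    unfold cubeE at h3
    rw [SimpleGraph.mem_edgeFinset, SimpleGraph.mem_edgeSet] at h3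
    exact (cube m).loopless.irrefl z h3
  have h3 := hreci
  rw [hnb (fun z => wt E p (sm g) z - tau E p z y * wt E p (sm g) y)] at h3
  have h4 : g y + p * ∑ z ∈ N, (v z - tau E p z y * v y) - S ≤ v y := h3
  rw [Finset.sum_sub_distrib, ← Finset.sum_mul] at h4
  have h5 : ∑ z ∈ N, tau E p z y ≤ m * (p + 2 * l4 m) := by
    calc ∑ z ∈ N, tau E p z y ≤ ∑ z ∈ N, (p + 2 * l4 m) := Finset.sum_le_sum htau
      _ = N.card * (p + 2 * l4 m) := by rw [Finset.sum_const, nsmul_eq_mul]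
      _ ≤ m * (p + 2 * l4 m) := mul_le_mul_of_nonneg_right hcardN (by positivity)
  have h6 : p * ((∑ z ∈ N, tau E p z y) * v y) ≤ (m * p ^ 2 + 4 * l4 m) * v y := by
    calc p * ((∑ z ∈ N, tau E p z y) * v y) = (p * ∑ z ∈ N, tau E p z y) * v y := by ring
      _ ≤ (p * (m * (p + 2 * l4 m))) * v y :=
          mul_le_mul_of_nonneg_right (mul_le_mul_of_nonneg_left h5 hp0) (hv0 y)
      _ ≤ (m * p ^ 2 + 4 * l4 m) * v y := by
          refine mul_le_mul_of_nonneg_right ?_ (hv0 y)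
          have h7 : (p * m) * l4 m ≤ 2 * l4 m := mul_le_mul_of_nonneg_right hpm2 hl40
          nlinarith
  have h8 : p * (∑ z ∈ N, v z - (∑ z ∈ N, tau E p z y) * v y) =
      p * ∑ z ∈ N, v z - p * ((∑ z ∈ N, tau E p z y) * v y) := by ring
  rw [h8] at h4
  have h9 : a / m / m ≤ l4 m * a := by
    have : a / m / m = 1 / (m : ℝ) / m * a := by ring
    rw [this]
    exact mul_le_mul_of_nonneg_right hm2l ha0
  have huy : u y = v y + a := rfl
  rw [huy] at hSle
  rw [hnb]
  show g y + p * ∑ z ∈ N, v z ≤ v y * (1 + m * p ^ 2 + 5 * l4 m) + 2 * l4 m * a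
  have h10 : v y * (1 + m * p ^ 2 + 5 * l4 m) + 2 * l4 m * a =
      v y + (m * p ^ 2 + 4 * l4 m) * v y + l4 m * (v y + a) + l4 m * a := by ring
  rw [h10]
  linarith

end Pool.Agent.Work.MP_b7dc8a_pr
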