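import Pool.Agent.Work.MP_b7dc8a_pr.F.Gex
import Pool.Agent.Work.MP_b7dc8a_pr.F.Mom

/-! Module SEQ (M): moments of `SD E D = ∑_{z ∉ D ∪ W_D} |cl (ω ∩ offE E D) z|`, `E = cubeE m`, `V = 2^m`,
`b = bb e D`, `W_D = WW E D ω G`. `C_k` depends only on `k` and `C0`; `K >= 2k + 1`.

Claim: `EG [SD^k] <= C_k (V/e)^k b^(2k)` and `EG [SD^k ind (y ∈ W_D)] <= C_k (V/e)^k e b^(2k)`.
`k = 0`: `ww_prob`, `hM` (`C_0 = C0`). `k >= 1`: for `z ∉ D`, `z ∉ W_D` and `C = cl (ω ∩ offE E D) z` we have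
`SD E D = |C|^2 + SD E (D ∪ C)` and `W_D = W_{D ∪ C}` (`nn_step`; clusters of other vertices do not
change, `xb_cl_outside`), so `SD^k = ∑_z |C| SD^(k-1)`, `SD^(k-1) <= 2^(k-1) (|C|^(2k-2) + SD E (D ∪ C)^(k-1))`
(`add_pow_le_pow_mul_pow_of_sq_le_sq` / `add_pow_le`). By `gex` (`H C ω G =
|C| (|C|^(2k-2) + SD E (D ∪ C) ω G^(k-1)) ind (y ∈ WW E (D ∪ C) ω G)`; `SD E D'` depends only on
`ω ∩ offE E D'` and `G \ D'`):
`EG [SD^k ind (y ∈ W_D)] <= 2^(k-1) ∑_z (Ex [|C|^(2k-1) (1-h)^|C|] C0 e + Ex [|C| (1-h)^|C| a_{k-1}(D ∪ C)])`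
with `a_{k-1}` the bound for `k-1`. First term: `V C0 e/e^(2(2k-1)) b^(2k-1) C0 e`; as `e^3 V >= 1` and `k >= 1`:
`V e^2 e^(-4k+2) = (V/e)^k e * (V e^3)^(1-k) <= (V/e)^k e`. Second: `V C_{k-1} (V/e)^(k-1) e *
Ex [|C| (1-h)^|C| bb e (D ∪ C)^(2k-2)] <= V C_{k-1} (V/e)^(k-1) e 2^(2k-2) C0 (1/e) b^(2k-1)` (`mob`). Without
the indicator the same with one factor `e` less. -/

namespace Pool.Agent.Work.MP_b7dc8a_pr

open Finset

section SQA
variable {V : Type} [Fintype V]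

private theorem qEG_add (E : Finset (Sym2 V)) (p h : ℝ) (F H : Finset (Sym2 V) → Finset V → ℝ) :
    EG E p h (fun ω G => F ω G + H ω G) = EG E p h F + EG E p h H := by
  unfold EG
  simp only [Ex_add]

private theorem qEG_sub (E : Finset (Sym2 V)) (p h : ℝ) (F H : Finset (Sym2 V) → Finset V → ℝ) :
    EG E p h (fun ω G => F ω G - H ω G) = EG E p h F - EG E p h H := by
  unfold EG
  simp only [Ex_sub]

private theorem qEG_mul (E : Finset (Sym2 V)) (p h c : ℝ) (F : Finset (Sym2 V) → Finset V → ℝ) :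
    EG E p h (fun ω G => c * F ω G) = c * EG E p h F := by
  unfold EG
  simp only [Ex_mul_left]

private theorem qEG_const (E : Finset (Sym2 V)) (p h c : ℝ) :
    EG E p h (fun _ _ => c) = c := by
  unfold EG
  simp only [Ex_const]

private theorem qEG_sum {ι : Type} (I : Finset ι) (E : Finset (Sym2 V)) (p h : ℝ)
    (F : ι → Finset (Sym2 V) → Finset V → ℝ) :
    EG E p h (fun ω G => ∑ i ∈ I, F i ω G) = ∑ i ∈ I, EG E p h (F i) := by
  unfold EG
  simp only [Ex_sum]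

private theorem qEG_mono (E : Finset (Sym2 V)) (p h : ℝ) (h0 : 0 ≤ p)
    (h1 : p ≤ 1) (hh0 : 0 ≤ h) (hh1 : h ≤ 1) (F H : Finset (Sym2 V) → Finset V → ℝ)
    (hFH : ∀ ω ⊆ E, ∀ G, F ω G ≤ H ω G) : EG E p h F ≤ EG E p h H := by
  unfold EG
  exact Ex_mono E p h0 h1 _ _ fun ω hω => Ex_mono _ h hh0 hh1 _ _ fun G _ => hFH ω hω G

private theorem qEG_congr (E : Finset (Sym2 V)) (p h : ℝ) (F H : Finset (Sym2 V) → Finset V → ℝ)
    (hFH : ∀ ω ⊆ E, ∀ G, F ω G = H ω G) : EG E p h F = EG E p h H := by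
  unfold EG
  exact Ex_congr E p _ _ fun ω hω => Ex_congr _ h _ _ fun G _ => hFH ω hω G

end SQA

section SQB
variable {V : Type} [Fintype V] [DecidableEq V]

private theorem sd_eq (E : Finset (Sym2 V)) (D : Finset V) (ω : Finset (Sym2 V)) (G : Finset V) :
    SD E D ω G = ∑ z ∈ univ.filter (fun z => z ∉ D ∧ z ∉ WW E D ω G),
      ((cl (ω ∩ offE E D) z).card : ℝ) := by
  unfold SD
  refine Finset.sum_congr ?_ fun _ _ => rfl
  ext z
  simp only [Finset.mem_filter, Finset.mem_univ, true_and, ww_mem]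
  tauto

private theorem sd_nonneg (E : Finset (Sym2 V)) (D : Finset V) (ω : Finset (Sym2 V))
    (G : Finset V) : 0 ≤ SD E D ω G := by
  rw [sd_eq]
  exact Finset.sum_nonneg fun _ _ => Nat.cast_nonneg _

private theorem sd_off (E : Finset (Sym2 V)) (D : Finset V) (ω : Finset (Sym2 V)) (G : Finset V) :
    SD E D (ω ∩ offE E D) G = SD E D ω G := by
  rw [sd_eq, sd_eq, ww_off, Finset.inter_assoc, Finset.inter_self]

private theorem sd_diff (E : Finset (Sym2 V)) (D C : Finset V) (hC : C ⊆ D)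
    (ω : Finset (Sym2 V)) (G : Finset V) : SD E D ω (G \ C) = SD E D ω G := by
  rw [sd_eq, sd_eq, ww_diff E D C hC]

private theorem sq_off_union (E : Finset (Sym2 V)) (D C : Finset V) (ω : Finset (Sym2 V)) :
    ω ∩ offE E (D ∪ C) = (ω ∩ offE E D) ∩ offE (offE E D) C := by
  rw [xb_offE_offE, Finset.inter_assoc,
    Finset.inter_eq_right.2 (xb_offE_anti E D (D ∪ C) Finset.subset_union_left)]

private theorem sd_step (E : Finset (Sym2 V)) (D : Finset V) (ω : Finset (Sym2 V)) (G : Finset V)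
    (z : V) (hz : z ∉ D) (hz' : z ∉ cls (ω ∩ offE E D) G) :
    SD E D ω G = ((cl (ω ∩ offE E D) z).card : ℝ) ^ 2 +
      SD E (D ∪ cl (ω ∩ offE E D) z) ω G := by
  set C := cl (ω ∩ offE E D) z with hC
  have hW := (nn_step E D ω G z hz hz').2
  rw [← hC] at hW
  rw [sd_eq E D, sd_eq E (D ∪ C), ← hW]
  have hCD : Disjoint C D := xb_cl_off' E _ D Finset.inter_subset_right z hz
  have hCW : ∀ y ∈ C, y ∉ WW E D ω G := by
    intro y hy hyW
    rw [hW, ww_mem] at hyW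
    exact hyW.1 (Finset.mem_union_right _ hy)
  have hsplit : univ.filter (fun z => z ∉ D ∧ z ∉ WW E D ω G) =
      C ∪ univ.filter (fun z => z ∉ D ∪ C ∧ z ∉ WW E D ω G) := by
    ext y
    simp only [Finset.mem_filter, Finset.mem_univ, true_and, Finset.mem_union]
    constructor
    · rintro ⟨h1, h2⟩
      by_cases hy : y ∈ C
      · exact Or.inl hy
      · exact Or.inr ⟨fun h => h.elim h1 hy, h2⟩
    · rintro (h1 | h1)
      · exact ⟨Finset.disjoint_left.1 hCD h1, hCW y h1⟩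
      · exact ⟨fun h => h1.1 (Or.inl h), h1.2⟩
  have hdisj : Disjoint C (univ.filter (fun z => z ∉ D ∪ C ∧ z ∉ WW E D ω G)) := by
    rw [Finset.disjoint_left]
    intro y hy hy'
    exact (Finset.mem_filter.1 hy').2.1 (Finset.mem_union_right _ hy)
  rw [hsplit, Finset.sum_union hdisj]
  congr 1
  · have h1 : ∀ y ∈ C, ((cl (ω ∩ offE E D) y).card : ℝ) = (C.card : ℝ) := by
      intro y hy
      rw [cl_eq_of_mem (ω ∩ offE E D) z y hy]
    rw [Finset.sum_congr rfl h1, Finset.sum_const, nsmul_eq_mul, sq]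
  · refine Finset.sum_congr rfl fun y hy => ?_
    have hyC : y ∉ C := fun h => (Finset.mem_filter.1 hy).2.1 (Finset.mem_union_right _ h)
    have h2 : y ∉ cls (ω ∩ offE E D) {z} := by
      rw [cls_singleton]
      exact hyC
    have h3 := (xb_cl_outside (offE E D) (ω ∩ offE E D) Finset.inter_subset_right {z} y h2).1
    rw [cls_singleton, ← hC] at h3
    rw [sq_off_union, h3]

private theorem sq_pow (a b : ℝ) (ha : 0 ≤ a) (hb : 0 ≤ b) (k : ℕ) :
    (a + b) ^ k ≤ 2 ^ k * (a ^ k + b ^ k) := by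
  rcases le_total a b with h | h
  · calc (a + b) ^ k ≤ (2 * b) ^ k := pow_le_pow_left₀ (by linarith) (by linarith) k
      _ = 2 ^ k * b ^ k := mul_pow _ _ _
      _ ≤ _ := by
        have : 0 ≤ a ^ k := pow_nonneg ha k
        have h2 : (0 : ℝ) < 2 ^ k := by positivity
        nlinarith
  · calc (a + b) ^ k ≤ (2 * a) ^ k := pow_le_pow_left₀ (by linarith) (by linarith) k
      _ = 2 ^ k * a ^ k := mul_pow _ _ _
      _ ≤ _ := by
        have : 0 ≤ b ^ k := pow_nonneg hb k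
        have h2 : (0 : ℝ) < 2 ^ k := by positivity
        nlinarith

/-- pointwise recursion -/
private theorem sq_point (E : Finset (Sym2 V)) (D : Finset V) (ω : Finset (Sym2 V)) (G : Finset V)
    (k : ℕ) (w : Finset V → Finset (Sym2 V) → Finset V → ℝ)
    (w0 : ∀ D ω G, 0 ≤ w D ω G)
    (w1 : ∀ D ω G z, z ∉ D → z ∉ cls (ω ∩ offE E D) G →
      w D ω G = w (D ∪ cl (ω ∩ offE E D) z) ω G)
    (w2 : ∀ D ω G, w D (ω ∩ offE E D) G = w D ω G)
    (w3 : ∀ D C ω G, C ⊆ D → w D ω (G \ C) = w D ω G) :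
    SD E D ω G ^ (k + 1) * w D ω G ≤ ∑ z ∈ univ.filter (fun z => z ∉ D),
      ind (z ∉ cls (ω ∩ offE E D) G) * ((fun (C : Finset V) (ω' : Finset (Sym2 V))
        (G' : Finset V) => (C.card : ℝ) * (2 ^ k * ((C.card : ℝ) ^ (2 * k) +
          SD E (D ∪ C) ω' G' ^ k)) * w (D ∪ C) ω' G') (cl (ω ∩ offE E D) z)
            (ω ∩ offE E (D ∪ cl (ω ∩ offE E D) z)) (G \ cl (ω ∩ offE E D) z)) := by
  classical
  have h1 : SD E D ω G ^ (k + 1) * w D ω G = ∑ z ∈ univ.filter (fun z => z ∉ D),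
      ind (z ∉ cls (ω ∩ offE E D) G) * (((cl (ω ∩ offE E D) z).card : ℝ) *
        (SD E D ω G ^ k * w D ω G)) := by
    have h2 : SD E D ω G = ∑ z ∈ univ.filter (fun z => z ∉ D),
        ind (z ∉ cls (ω ∩ offE E D) G) * ((cl (ω ∩ offE E D) z).card : ℝ) := by
      unfold SD
      rw [Finset.sum_filter, Finset.sum_filter]
      refine Finset.sum_congr rfl fun z _ => ?_
      unfold ind
      by_cases hz : z ∉ D
      · by_cases hz' : z ∉ cls (ω ∩ offE E D) G
        · rw [if_pos ⟨hz, hz'⟩, if_pos hz, if_pos hz', one_mul]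
        · rw [if_neg (fun h => hz' h.2), if_pos hz, if_neg hz', zero_mul]
      · rw [if_neg (fun h => hz h.1), if_neg hz]
    rw [pow_succ]
    nth_rewrite 2 [h2]
    rw [Finset.mul_sum, Finset.sum_mul]
    refine Finset.sum_congr rfl fun z _ => ?_
    ring
  rw [h1]
  refine Finset.sum_le_sum fun z hz => ?_
  have hzD : z ∉ D := (Finset.mem_filter.1 hz).2
  by_cases hz' : z ∉ cls (ω ∩ offE E D) G
  · refine mul_le_mul_of_nonneg_left ?_ (xb_ind_nonneg _)
    simp only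
    set C := cl (ω ∩ offE E D) z with hC
    rw [sd_off, sd_diff E (D ∪ C) C Finset.subset_union_right, w2,
      w3 (D ∪ C) C ω G Finset.subset_union_right]
    have h2 := sd_step E D ω G z hzD hz'
    rw [← hC] at h2
    have h3 := w1 D ω G z hzD hz'
    rw [← hC] at h3
    rw [h2, h3]
    have h4 := sq_pow ((C.card : ℝ) ^ 2) (SD E (D ∪ C) ω G) (by positivity)
      (sd_nonneg _ _ _ _) k
    rw [← pow_mul] at h4
    have h5 := w0 (D ∪ C) ω G
    have h6 : (0 : ℝ) ≤ C.card := Nat.cast_nonneg _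
    calc (C.card : ℝ) * (((C.card : ℝ) ^ 2 + SD E (D ∪ C) ω G) ^ k * w (D ∪ C) ω G)
        ≤ (C.card : ℝ) * ((2 ^ k * ((C.card : ℝ) ^ (2 * k) + SD E (D ∪ C) ω G ^ k)) *
          w (D ∪ C) ω G) :=
          mul_le_mul_of_nonneg_left (mul_le_mul_of_nonneg_right h4 h5) h6
      _ = _ := by ring
  · have i1 : ind (z ∉ cls (ω ∩ offE E D) G) = 0 := by unfold ind; rw [if_neg hz']
    rw [i1, zero_mul, zero_mul]

end SQB

private theorem sq_bb1 {V : Type} (e : ℝ) (D : Finset V) : 1 ≤ bb e D := by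
  unfold bb
  have : 0 ≤ e ^ 2 * (D.card : ℝ) := by positivity
  linarith

/-- the arithmetic of one step -/
private theorem sq_arith (k : ℕ) (C0 c0 Ck e V η b : ℝ) (hC0 : 1 ≤ C0) (hc0 : 1 ≤ c0)
    (hCk : 1 ≤ Ck) (he0 : 0 < e) (hV : 1 ≤ e ^ 3 * V) (hη : 0 ≤ η) (hb : 1 ≤ b) :
    V * (2 ^ k * (c0 * η * (C0 * e / e ^ (2 * (2 * k + 1)) * b ^ (2 * k + 1)) +
      Ck * (V / e) ^ k * η * (2 ^ (2 * k) * C0 * (e / e ^ (2 * 1)) * b ^ (1 + 2 * k)))) ≤
    (1 + 2 ^ k * (c0 * |C0| + 4 ^ k * |C0| * Ck)) * (V / e) ^ (k + 1) * η *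
      b ^ (2 * (k + 1)) := by
  have hVpos : 0 < V := by
    by_contra hneg
    push Not at hneg
    have : e ^ 3 * V ≤ 0 := mul_nonpos_of_nonneg_of_nonpos (by positivity) hneg
    linarith
  rw [abs_of_nonneg (by linarith : (0 : ℝ) ≤ C0)]
  have h1 : V * (e / e ^ (2 * (2 * k + 1))) ≤ (V / e) ^ (k + 1) := by
    have h2 : V * (e / e ^ (2 * (2 * k + 1))) = V / e ^ (4 * k + 1) := by
      have h3 : e ^ (2 * (2 * k + 1)) = e ^ (4 * k + 1) * e := by
        rw [← pow_succ]; congr 1; ring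
      rw [h3]
      field_simp
    rw [h2, div_pow, div_le_div_iff₀ (by positivity) (by positivity)]
    have h4 : 1 ≤ (e ^ 3 * V) ^ k := one_le_pow₀ hV
    have h5 : V ^ (k + 1) * e ^ (4 * k + 1) = (e ^ 3 * V) ^ k * (V * e ^ (k + 1)) := by
      rw [mul_pow, ← pow_mul]
      have h6 : e ^ (4 * k + 1) = e ^ (3 * k) * e ^ (k + 1) := by
        rw [← pow_add]; congr 1; ring
      rw [h6]
      ring
    rw [h5]
    have h7 : 0 ≤ V * e ^ (k + 1) := by positivity
    nlinarith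
  have h8 : V * ((V / e) ^ k * (e / e ^ (2 * 1))) = (V / e) ^ (k + 1) := by
    have h8' : e / e ^ (2 * 1) = 1 / e := by field_simp
    rw [h8', pow_succ]
    ring
  have h9 : b ^ (2 * k + 1) ≤ b ^ (2 * (k + 1)) := pow_le_pow_right₀ hb (by omega)
  have h10 : b ^ (1 + 2 * k) ≤ b ^ (2 * (k + 1)) := pow_le_pow_right₀ hb (by omega)
  have hb0 : 0 ≤ b := by linarith
  have hVe : 0 ≤ (V / e) ^ (k + 1) := by positivity
  have hc00 : 0 ≤ c0 := by linarith
  have hC00 : 0 ≤ C0 := by linarith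
  have hCk0 : 0 ≤ Ck := by linarith
  have e1 : V * (2 ^ k * (c0 * η * (C0 * e / e ^ (2 * (2 * k + 1)) * b ^ (2 * k + 1)))) ≤
      2 ^ k * (c0 * C0) * (V / e) ^ (k + 1) * η * b ^ (2 * (k + 1)) := by
    calc V * (2 ^ k * (c0 * η * (C0 * e / e ^ (2 * (2 * k + 1)) * b ^ (2 * k + 1))))
        = (2 ^ k * (c0 * C0) * η) * ((V * (e / e ^ (2 * (2 * k + 1)))) * b ^ (2 * k + 1)) := by ring
      _ ≤ (2 ^ k * (c0 * C0) * η) * ((V / e) ^ (k + 1) * b ^ (2 * (k + 1))) := by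
          apply mul_le_mul_of_nonneg_left _ (by positivity)
          exact mul_le_mul h1 h9 (by positivity) hVe
      _ = _ := by ring
  have e2 : V * (2 ^ k * (Ck * (V / e) ^ k * η * (2 ^ (2 * k) * C0 * (e / e ^ (2 * 1)) *
      b ^ (1 + 2 * k)))) ≤ 2 ^ k * (4 ^ k * C0 * Ck) * (V / e) ^ (k + 1) * η *
        b ^ (2 * (k + 1)) := by
    have h11 : (2 : ℝ) ^ (2 * k) = 4 ^ k := by rw [pow_mul]; norm_num
    calc V * (2 ^ k * (Ck * (V / e) ^ k * η * (2 ^ (2 * k) * C0 * (e / e ^ (2 * 1)) *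
        b ^ (1 + 2 * k))))
        = (2 ^ k * (4 ^ k * C0 * Ck) * η) * ((V * ((V / e) ^ k * (e / e ^ (2 * 1)))) *
          b ^ (1 + 2 * k)) := by rw [h11]; ring
      _ ≤ (2 ^ k * (4 ^ k * C0 * Ck) * η) * ((V / e) ^ (k + 1) * b ^ (2 * (k + 1))) := by
          rw [h8]
          apply mul_le_mul_of_nonneg_left _ (by positivity)
          exact mul_le_mul_of_nonneg_left h10 hVe
      _ = _ := by ring
  have e3 : 0 ≤ (V / e) ^ (k + 1) * η * b ^ (2 * (k + 1)) := by positivity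
  calc _ = V * (2 ^ k * (c0 * η * (C0 * e / e ^ (2 * (2 * k + 1)) * b ^ (2 * k + 1)))) +
        V * (2 ^ k * (Ck * (V / e) ^ k * η * (2 ^ (2 * k) * C0 * (e / e ^ (2 * 1)) *
          b ^ (1 + 2 * k)))) := by ring
    _ ≤ 2 ^ k * (c0 * C0) * (V / e) ^ (k + 1) * η * b ^ (2 * (k + 1)) +
        2 ^ k * (4 ^ k * C0 * Ck) * (V / e) ^ (k + 1) * η * b ^ (2 * (k + 1)) := add_le_add e1 e2
    _ ≤ _ := by
        have e4 : (1 + 2 ^ k * (c0 * C0 + 4 ^ k * C0 * Ck)) * (V / e) ^ (k + 1) * η *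
            b ^ (2 * (k + 1)) = (V / e) ^ (k + 1) * η * b ^ (2 * (k + 1)) +
            (2 ^ k * (c0 * C0) * (V / e) ^ (k + 1) * η * b ^ (2 * (k + 1)) +
            2 ^ k * (4 ^ k * C0 * Ck) * (V / e) ^ (k + 1) * η * b ^ (2 * (k + 1))) := by ring
        rw [e4]
        linarith

private theorem seq_gen (C0 c0 : ℝ) (hc0 : 1 ≤ c0) (k : ℕ) : ∃ C : ℝ, 1 ≤ C ∧
    ∀ (m K : ℕ) (e p h : ℝ), Reg C0 K m e p h → 2 * k + 1 ≤ K →
    ∀ (η : ℝ), 0 ≤ η → ∀ (w : Finset (Q m) → Finset (Sym2 (Q m)) → Finset (Q m) → ℝ),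
    (∀ D ω G, 0 ≤ w D ω G) →
    (∀ D ω G z, z ∉ D → z ∉ cls (ω ∩ offE (cubeE m) D) G →
      w D ω G = w (D ∪ cl (ω ∩ offE (cubeE m) D) z) ω G) →
    (∀ D ω G, w D (ω ∩ offE (cubeE m) D) G = w D ω G) →
    (∀ D C ω G, C ⊆ D → w D ω (G \ C) = w D ω G) →
    (∀ D, EG (cubeE m) p h (w D) ≤ c0 * η) → ∀ D : Finset (Q m),
    EG (cubeE m) p h (fun ω G => SD (cubeE m) D ω G ^ k * w D ω G) ≤
      C * (2 ^ m / e) ^ k * η * bb e D ^ (2 * k) := by
  induction k with
  | zero =>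
    refine ⟨c0, hc0, fun m K e p h R _ η hη w w0 w1 w2 w3 w4 D => ?_⟩
    simp only [pow_zero, one_mul, mul_zero, mul_one]
    exact w4 D
  | succ k ih =>
    obtain ⟨Ck, hCk, hk⟩ := ih
    refine ⟨1 + 2 ^ k * (c0 * |C0| + 4 ^ k * |C0| * Ck), ?_,
      fun m K e p h R hK η hη w w0 w1 w2 w3 w4 D => ?_⟩
    · have : 0 ≤ 2 ^ k * (c0 * |C0| + 4 ^ k * |C0| * Ck) := by
        have h1 := abs_nonneg C0
        have h2 : 0 ≤ c0 := by linarith
        have h3 : 0 ≤ Ck := by linarith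
        positivity
      linarith
    have h0 := R.hp0
    have h1 : p ≤ 1 := by have := R.hp1; linarith
    have hh0 := R.hh0
    have hh1 : h ≤ 1 := by
      have h2 := R.hh
      have h3 := R.he1
      have h4 := R.he0
      nlinarith
    have he0 := R.he0
    have he1 : e ≤ 1 := by have := R.he1; linarith
    have hC0 := R.hC0
    have hb1 := sq_bb1 e D
    set E := cubeE m with hE
    set H : Finset (Q m) → Finset (Sym2 (Q m)) → Finset (Q m) → ℝ := fun C ω' G' =>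
      (C.card : ℝ) * (2 ^ k * ((C.card : ℝ) ^ (2 * k) + SD E (D ∪ C) ω' G' ^ k)) *
        w (D ∪ C) ω' G' with hH
    have s1 : EG E p h (fun ω G => SD E D ω G ^ (k + 1) * w D ω G) ≤
        ∑ z ∈ univ.filter (fun z => z ∉ D), EG E p h (fun ω G =>
          ind (z ∉ cls (ω ∩ offE E D) G) * H (cl (ω ∩ offE E D) z)
            (ω ∩ offE E (D ∪ cl (ω ∩ offE E D) z)) (G \ cl (ω ∩ offE E D) z)) := by
      rw [← qEG_sum]
      exact qEG_mono E p h h0 h1 hh0 hh1 _ _ fun ω _ G => sq_point E D ω G k w w0 w1 w2 w3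
    refine s1.trans ?_
    have s2 : ∀ z ∈ univ.filter (fun z => z ∉ D), EG E p h (fun ω G =>
          ind (z ∉ cls (ω ∩ offE E D) G) * H (cl (ω ∩ offE E D) z)
            (ω ∩ offE E (D ∪ cl (ω ∩ offE E D) z)) (G \ cl (ω ∩ offE E D) z)) ≤
        2 ^ k * (c0 * η * (C0 * e / e ^ (2 * (2 * k + 1)) * bb e D ^ (2 * k + 1)) +
          Ck * (2 ^ m / e) ^ k * η * (2 ^ (2 * k) * C0 * (e / e ^ (2 * 1)) *
            bb e D ^ (1 + 2 * k))) := by
      intro z _
      rw [gex E p h D z H]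
      have s3 : ∀ ω' ⊆ offE E D, (1 - h) ^ (cl ω' z).card * EG E p h (fun ω G =>
          H (cl ω' z) (ω ∩ offE E (D ∪ cl ω' z)) (G \ cl ω' z)) ≤
          (2 ^ k * (c0 * η)) * (((cl ω' z).card : ℝ) ^ (2 * k + 1) * (1 - h) ^ (cl ω' z).card) +
          (2 ^ k * (Ck * (2 ^ m / e) ^ k * η)) * (((cl ω' z).card : ℝ) ^ 1 *
            (1 - h) ^ (cl ω' z).card * bb e (D ∪ cl ω' z) ^ (2 * k)) := by
        intro ω' _
        set C := cl ω' z with hC
        have s4 : EG E p h (fun ω G => H C (ω ∩ offE E (D ∪ C)) (G \ C)) =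
            (2 ^ k * (C.card : ℝ) ^ (2 * k + 1)) * EG E p h (w (D ∪ C)) +
            (2 ^ k * (C.card : ℝ)) * EG E p h (fun ω G =>
              SD E (D ∪ C) ω G ^ k * w (D ∪ C) ω G) := by
          rw [← qEG_mul, ← qEG_mul, ← qEG_add]
          refine qEG_congr _ _ _ _ _ fun ω _ G => ?_
          simp only [hH]
          rw [sd_off, sd_diff E (D ∪ C) C Finset.subset_union_right, w2,
            w3 (D ∪ C) C ω G Finset.subset_union_right, pow_succ]
          ring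
        rw [s4]
        have s5 := w4 (D ∪ C)
        have s6 := hk m K e p h R (by omega) η hη w w0 w1 w2 w3 w4 (D ∪ C)
        have s7 : 0 ≤ (1 - h) ^ C.card := pow_nonneg (by linarith) _
        have s8 : (0 : ℝ) ≤ C.card := Nat.cast_nonneg _
        calc (1 - h) ^ C.card * ((2 ^ k * (C.card : ℝ) ^ (2 * k + 1)) * EG E p h (w (D ∪ C)) +
            (2 ^ k * (C.card : ℝ)) * EG E p h (fun ω G =>
              SD E (D ∪ C) ω G ^ k * w (D ∪ C) ω G))
            ≤ (1 - h) ^ C.card * ((2 ^ k * (C.card : ℝ) ^ (2 * k + 1)) * (c0 * η) +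
              (2 ^ k * (C.card : ℝ)) * (Ck * (2 ^ m / e) ^ k * η * bb e (D ∪ C) ^ (2 * k))) := by
              refine mul_le_mul_of_nonneg_left (add_le_add ?_ ?_) s7
              · exact mul_le_mul_of_nonneg_left s5 (by positivity)
              · exact mul_le_mul_of_nonneg_left s6 (by positivity)
          _ = _ := by ring
      refine (Ex_mono _ p h0 h1 _ _ s3).trans ?_
      rw [Ex_add, Ex_mul_left, Ex_mul_left]
      have s9 := R.hmo (2 * k + 1) D z (by omega) (by omega)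
      have s10 := mob m K C0 e p h hC0 he0 he1 h0 h1 hh0 hh1 R.hmo 1 (2 * k) (by omega) D z
      rw [if_neg (by norm_num)] at s10
      have hc00 : 0 ≤ c0 := by linarith
      have hCk0 : 0 ≤ Ck := by linarith
      have s11 : 0 ≤ 2 ^ k * (c0 * η) := by positivity
      have s12 : 0 ≤ 2 ^ k * (Ck * (2 ^ m / e) ^ k * η) := by positivity
      have s13 := mul_le_mul_of_nonneg_left s9 s11
      have s14 := mul_le_mul_of_nonneg_left s10 s12
      unfold mo at s13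
      refine (add_le_add s13 s14).trans (le_of_eq ?_)
      ring
    refine (Finset.sum_le_sum s2).trans ?_
    rw [Finset.sum_const, nsmul_eq_mul]
    have s15 : ((univ.filter (fun z : Q m => z ∉ D)).card : ℝ) ≤ 2 ^ m := by
      have h2 : (univ.filter (fun z : Q m => z ∉ D)).card ≤ Fintype.card (Q m) :=
        Finset.card_le_univ _
      have h3 : Fintype.card (Q m) = 2 ^ m := by simp
      rw [h3] at h2
      exact_mod_cast h2
    refine le_trans ?_ (sq_arith k C0 c0 Ck e (2 ^ m) η (bb e D) hC0 hc0 hCk he0 R.hV hη hb1)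
    refine mul_le_mul_of_nonneg_right s15 ?_
    have hc00 : 0 ≤ c0 := by linarith
    have hCk0 : 0 ≤ Ck := by linarith
    positivity

theorem seq_y (k : ℕ) (C0 : ℝ) : ∃ C : ℝ, 1 ≤ C ∧ ∀ (m K : ℕ) (e p h : ℝ), Reg C0 K m e p h →
    2 * k + 1 ≤ K → ∀ (D : Finset (Q m)) (y : Q m),
    EG (cubeE m) p h (fun ω G => SD (cubeE m) D ω G ^ k * ind (y ∈ WW (cubeE m) D ω G)) ≤
      C * (2 ^ m / e) ^ k * e * bb e D ^ (2 * k) := by
  obtain ⟨C, hC, h⟩ := seq_gen C0 (max 1 C0) (le_max_left _ _) k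
  refine ⟨C, hC, fun m K e p h' R hK D y => ?_⟩
  have h0 := R.hp0
  have h1 : p ≤ 1 := by have := R.hp1; linarith
  have hh0 := R.hh0
  have he0 := R.he0
  have hh1 : h' ≤ 1 := by
    have h2 := R.hh
    have h3 := R.he1
    nlinarith
  refine h m K e p h' R hK e he0.le (fun D ω G => ind (y ∈ WW (cubeE m) D ω G))
    (fun _ _ _ => xb_ind_nonneg _) (fun D ω G z hz hz' => ?_) (fun D ω G => ?_)
    (fun D C ω G hC => ?_) (fun D => ?_) D
  · rw [← (nn_step (cubeE m) D ω G z hz hz').2]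
  · show ind (y ∈ WW (cubeE m) D (ω ∩ offE (cubeE m) D) G) = ind (y ∈ WW (cubeE m) D ω G)
    rw [ww_off]
  · show ind (y ∈ WW (cubeE m) D ω (G \ C)) = ind (y ∈ WW (cubeE m) D ω G)
    rw [ww_diff (cubeE m) D C hC]
  · refine (ww_prob (cubeE m) p h' h0 h1 hh0 hh1 D y).trans ((R.hM y).trans ?_)
    exact mul_le_mul_of_nonneg_right (le_max_right _ _) he0.le

theorem seq_one (k : ℕ) (C0 : ℝ) : ∃ C : ℝ, 1 ≤ C ∧ ∀ (m K : ℕ) (e p h : ℝ), Reg C0 K m e p h →
    2 * k + 1 ≤ K → ∀ D : Finset (Q m),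
    EG (cubeE m) p h (fun ω G => SD (cubeE m) D ω G ^ k) ≤
      C * (2 ^ m / e) ^ k * bb e D ^ (2 * k) := by
  obtain ⟨C, hC, h⟩ := seq_gen C0 1 le_rfl k
  refine ⟨C, hC, fun m K e p h' R hK D => ?_⟩
  have h2 := h m K e p h' R hK 1 zero_le_one (fun _ _ _ => 1) (fun _ _ _ => zero_le_one)
    (fun _ _ _ _ _ _ => rfl) (fun _ _ _ => rfl) (fun _ _ _ _ _ => rfl)
    (fun D => by rw [qEG_const]; norm_num) D
  simp only [mul_one] at h2
  exact h2

private theorem sq_jensen {α : Type} (E : Finset α) (p : ℝ) (h0 : 0 ≤ p) (h1 : p ≤ 1)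
    (F : Finset α → ℝ) (hF : ∀ ω, 0 ≤ F ω) (k : ℕ) : Ex E p F ^ k ≤ Ex E p (fun ω => F ω ^ k) := by
  have h2 := Ex_const E p 1
  unfold Ex at h2 ⊢
  simp only [mul_one] at h2
  exact Real.pow_arith_mean_le_arith_mean_pow E.powerset
    (fun ω => p ^ ω.card * (1 - p) ^ (E.card - ω.card)) F
    (fun ω _ => mul_nonneg (pow_nonneg h0 _) (pow_nonneg (by linarith) _)) h2
    (fun ω _ => hF ω) k

/-- conditional expectation given `WW`: `RU` is the conditional expectation of `SD` (use `b_mark` with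
`E' = offE E A`, `S = G`; on the set `W = cls (ω ∩ E') G` the percolation on `offE E W` is fresh, and
`SD` is the sum over `z ∉ A ∪ W` of `|cl η z|`, `η = ω ∩ offE E (A ∪ W)`), and Jensen's inequality
`(Ex F)^k <= Ex F^k` for `F >= 0` (`Real.pow_arith_mean_le_arith_mean_pow`). -/
theorem seq_jens (m' : ℕ) (E : Finset (Sym2 (Q m'))) (p h : ℝ) (h0 : 0 ≤ p) (h1 : p ≤ 1) (hh0 : 0 ≤ h)
    (hh1 : h ≤ 1) (k : ℕ) (A : Finset (Q m')) (Ψ : Finset (Q m') → ℝ) (hΨ : ∀ W, 0 ≤ Ψ W) :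
    EG E p h (fun ω G => RU E p A (WW E A ω G) ^ k * Ψ (WW E A ω G)) ≤
      EG E p h (fun ω G => SD E A ω G ^ k * Ψ (WW E A ω G)) := by
  classical
  unfold EG
  refine (le_of_eq (xb_Ex_swap _ _ _ _ _)).trans
    (le_trans ?_ (le_of_eq (xb_Ex_swap _ _ _ _ _).symm))
  refine Ex_mono _ h hh0 hh1 _ _ fun G _ => ?_
  -- description in terms of `W = cls (ω ∩ offE E A) G`
  have hWW : ∀ ω, WW E A ω G = (cls (ω ∩ offE E A) G).filter fun z => z ∉ A := by
    intro ω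
    ext z
    rw [ww_mem, Finset.mem_filter]
    tauto
  set Ψ' : Finset (Q m') → ℝ := fun W => Ψ (W.filter fun z => z ∉ A) with hΨ'
  set S : Finset (Q m') → Finset (Sym2 (Q m')) → ℝ := fun W η =>
    ∑ z ∈ univ.filter (fun z => z ∉ A ∪ W), ((cl (η ∩ offE E A) z).card : ℝ) with hS
  have hunion : ∀ ω, A ∪ WW E A ω G = A ∪ cls (ω ∩ offE E A) G := by
    intro ω
    ext z
    rw [Finset.mem_union, Finset.mem_union, ww_mem]
    tauto
  have hSD : ∀ ω, SD E A ω G = S (cls (ω ∩ offE E A) G) (ω ∩ offE E (cls (ω ∩ offE E A) G)) := by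
    intro ω
    rw [sd_eq]
    simp only [hS]
    have h2 : univ.filter (fun z => z ∉ A ∧ z ∉ WW E A ω G) =
        univ.filter (fun z => z ∉ A ∪ cls (ω ∩ offE E A) G) := by
      ext z
      simp only [Finset.mem_filter, Finset.mem_univ, true_and, ww_mem, Finset.mem_union]
      tauto
    rw [h2]
    refine Finset.sum_congr rfl fun z hz => ?_
    have hzW : z ∉ cls (ω ∩ offE E A) G := fun h =>
      (Finset.mem_filter.1 hz).2 (Finset.mem_union_right _ h)
    have h3 := (xb_cl_outside (offE E A) (ω ∩ offE E A) Finset.inter_subset_right G z hzW).1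
    have h4 : ω ∩ offE E (cls (ω ∩ offE E A) G) ∩ offE E A =
        (ω ∩ offE E A) ∩ offE (offE E A) (cls (ω ∩ offE E A) G) := by
      ext a
      induction a with
      | h x y =>
        simp only [Finset.mem_inter, xb_mem_offE]
        tauto
    rw [h4, h3]
  have hRU : ∀ ω, RU E p A (WW E A ω G) = Ex (offE E (cls (ω ∩ offE E A) G)) p (fun η =>
      S (cls (ω ∩ offE E A) G) η) := by
    intro ω
    unfold RU
    rw [hunion]
    simp only [hS]
    rw [Ex_sum]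
    refine (Finset.sum_congr (s₂ := univ.filter
      (fun z => z ∉ A ∪ cls (ω ∩ offE E A) G)) ?_ fun z _ => ?_)
    · ext z
      simp only [Finset.mem_filter]
    · set W := cls (ω ∩ offE E A) G
      unfold chi
      have h5 : offE E (A ∪ W) ⊆ offE E W := xb_offE_anti E W (A ∪ W) Finset.subset_union_right
      rw [← Ex_restrict (offE E W) (offE E (A ∪ W)) h5]
      refine Ex_congr _ _ _ _ fun η hη => ?_
      have h6 : η ∩ offE E (A ∪ W) = η ∩ offE E A := by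
        ext a
        induction a with
        | h x y =>
          simp only [Finset.mem_inter, xb_mem_offE, Finset.mem_union]
          constructor
          · rintro ⟨h7, h8, h9, h10⟩
            exact ⟨h7, h8, fun h => h9 (Or.inl h), fun h => h10 (Or.inl h)⟩
          · rintro ⟨h7, h8, h9, h10⟩
            have h11 := (xb_mem_offE E W x y).1 (hη h7)
            exact ⟨h7, h8, fun h => h.elim h9 h11.2.1, fun h => h.elim h10 h11.2.2⟩
      rw [h6]
  have e1 : Ex E p (fun ω => SD E A ω G ^ k * Ψ (WW E A ω G)) =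
      Ex E p (fun ω => Ex (offE E (cls (ω ∩ offE E A) G)) p (fun η =>
        S (cls (ω ∩ offE E A) G) η ^ k * Ψ' (cls (ω ∩ offE E A) G))) := by
    have h2 := b_mark E (offE E A) (xb_offE_subset E A) G p (fun W _ η => S W η ^ k * Ψ' W)
    rw [← h2]
    refine Ex_congr _ _ _ _ fun ω _ => ?_
    rw [hSD ω]
    simp only [hΨ']
    rw [hWW ω]
  rw [e1]
  refine Ex_mono _ p h0 h1 _ _ fun ω _ => ?_
  rw [hRU ω]
  have e2 : Ψ (WW E A ω G) = Ψ' (cls (ω ∩ offE E A) G) := by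
    simp only [hΨ']
    rw [hWW ω]
  rw [e2]
  set W := cls (ω ∩ offE E A) G
  have e3 : Ex (offE E W) p (fun η => S W η ^ k * Ψ' W) =
      Ex (offE E W) p (fun η => S W η ^ k) * Ψ' W := by
    rw [mul_comm, ← Ex_mul_left]
    exact Ex_congr _ _ _ _ fun η _ => mul_comm _ _
  rw [e3]
  refine mul_le_mul_of_nonneg_right ?_ (hΨ _)
  exact sq_jensen _ p h0 h1 _ (fun η => Finset.sum_nonneg fun _ _ => Nat.cast_nonneg _) k

end Pool.Agent.Work.MP_b7dc8a_pr
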