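import Pool.Agent.Work.MP_b7dc8a_pr.F.Gex

/-! Module SNGL (M-L): the effect of removing one vertex `a ∉ D`.

Notation: `E_D = offE E D`, `E_a = offE E (D ∪ {a})`, `U = WW E (D ∪ {a}) ω G`, `K = KK E D a ω G =
cl (ω ∩ offE E (D ∪ U)) a`, `N_a = NN E (D ∪ {a}) ω G`; the star `S = {s(a,z) ∈ E : z ∉ D}` (`z ≠ a`, no loops)
is split in `S_U` (`z ∈ U`) and `S_N` (`z ∉ U`); `|S_U| = d = dgr E a U`. `U` depends only on `ω ∩ E_a` and
`G \ {a}`. For `ω ⊆ E`:
(A) `a ∈ cls (ω ∩ E_D) G` iff `a ∈ G` or `ω` contains an edge of `S_U`.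
(B) `K` depends only on `ω ∩ E_a`, `ω ∩ S_N`, `U`; `K` is disjoint from `U` and `D`; `K \ {a}` is disjoint from `G`.
(C) if `ω ∩ S_U = ∅`: `cl (ω ∩ E_D) a = K`, `WW E (D ∪ K) ω G = U`, `N_a = |K| - 1 + NN E (D ∪ K) ω G`.
(D) if `ω ∩ S_U ≠ ∅` then `cl (ω ∩ E_D) a \ {a}` meets `G`.
`dl_single`: `DL E D {a} ω G = ind (a ∈ cls (ω ∩ E_D) G) |K|`, and `ww_single`: if `a` is connected to `G` in
`ω ∩ E_D` then `WW E D ω G = U ∪ K` (disjoint), otherwise `WW E D ω G = U`.
`sngl`. Left side: given `ω ∩ E_a`, `ω ∩ S_N`, `G \ {a}`, the event (A) has probability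
`1 - (1-h) (1-p)^d`, so LHS `= EG [(1 - (1-h)(1-p)^d) g(K) f(N_a)]`   (*).
Right side: exactly as in `gex` (`b_mark_cl` for `E_D` at `a`, independence of `G ∩ (C \ {a})` and `G \ C`)
RHS `= EG [ind (Disjoint (C \ {a}) G) g(C) psi E p h (D ∪ C) a ω G f(|C| - 1 + NN E (D ∪ C) ω G)]` with
`C = cl (ω ∩ E_D) a`; by (C), (D), (B) this is
`EG [ind (ω ∩ S_U = ∅) g(K) ((1-p)^(-d) - (1-h)) f(N_a)] = EG [(1-p)^d ((1-p)^(-d) - (1-h)) g(K) f(N_a)]`
(independence of `ω ∩ S_U`), which is (*). (`psi` depends only on `ω ∩ offE E (D ∪ C)` and `G \ (D ∪ C)`: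
`ww_off`, `ww_diff`.) Here `p < 1`.
`snglC`: real and imaginary part. -/

namespace Pool.Agent.Work.MP_b7dc8a_pr

open Finset

section SNGL
variable {V : Type} [Fintype V] [DecidableEq V]

private theorem ind_one {P : Prop} (h : P) : ind P = 1 := by rw [ind, if_pos h]

private theorem ind_zero {P : Prop} (h : ¬ P) : ind P = 0 := by rw [ind, if_neg h]

private theorem mem_cls' (η : Finset (Sym2 V)) (G : Finset V) (y : V) :
    y ∈ cls η G ↔ ∃ g ∈ G, g ∈ cl η y := by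
  rw [xb_mem_cls]
  exact ⟨fun ⟨g, hg, h⟩ => ⟨g, hg, (cl_symm _ _ _).1 h⟩, fun ⟨g, hg, h⟩ => ⟨g, hg, (cl_symm _ _ _).1 h⟩⟩

/-- membership in `U` is preserved along edges of `ω` which do not touch `D ∪ {a}` -/
private theorem u_closed (E : Finset (Sym2 V)) (D : Finset V) (a : V) (ω : Finset (Sym2 V))
    (G : Finset V) (x y : V) (hx : x ∈ WW E (D ∪ {a}) ω G) (h : s(x, y) ∈ ω ∩ offE E D)
    (hy : y ≠ a) : y ∈ WW E (D ∪ {a}) ω G := by
  rw [ww_mem] at hx ⊢
  rw [mem_inter, xb_mem_offE] at h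
  have hyD : y ∉ D ∪ {a} := by
    rw [mem_union, mem_singleton, not_or]
    exact ⟨h.2.2.2, hy⟩
  refine ⟨hyD, xb_cls_closed _ G x y hx.2 ?_⟩
  rw [mem_inter, xb_mem_offE]
  exact ⟨h.1, h.2.1, hx.1, hyD⟩

private theorem a_notMem_U (E : Finset (Sym2 V)) (D : Finset V) (a : V) (ω : Finset (Sym2 V))
    (G : Finset V) : a ∉ WW E (D ∪ {a}) ω G := by
  rw [ww_mem]
  intro h
  exact h.1 (mem_union_right _ (mem_singleton_self a))

private theorem K_disj (E : Finset (Sym2 V)) (D : Finset V) (a : V) (ha : a ∉ D)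
    (ω : Finset (Sym2 V)) (G : Finset V) :
    Disjoint (KK E D a ω G) (D ∪ WW E (D ∪ {a}) ω G) := by
  refine xb_cl_off' E _ _ inter_subset_right a ?_
  rw [mem_union, not_or]
  exact ⟨ha, a_notMem_U E D a ω G⟩

private theorem a_mem_K (E : Finset (Sym2 V)) (D : Finset V) (a : V)
    (ω : Finset (Sym2 V)) (G : Finset V) : a ∈ KK E D a ω G := mem_cl_self _ _

private theorem K_G (E : Finset (Sym2 V)) (D : Finset V) (a : V) (ha : a ∉ D)
    (ω : Finset (Sym2 V)) (G : Finset V) : Disjoint (KK E D a ω G \ {a}) G := by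
  rw [Finset.disjoint_left]
  intro g hg hgG
  rw [mem_sdiff, mem_singleton] at hg
  have h1 := Finset.disjoint_left.1 (K_disj E D a ha ω G) hg.1
  rw [mem_union, not_or] at h1
  refine h1.2 ?_
  rw [ww_mem, mem_union, mem_singleton, not_or]
  exact ⟨⟨h1.1, hg.2⟩, subset_cls _ _ hgG⟩

private theorem K_sub (E : Finset (Sym2 V)) (D : Finset V) (a : V)
    (ω : Finset (Sym2 V)) (G : Finset V) : KK E D a ω G ⊆ cl (ω ∩ offE E D) a :=
  cl_mono _ _ (inter_subset_inter_left (xb_offE_anti E _ _ subset_union_left)) a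

/-- (A), first direction -/
private theorem a_cls (E : Finset (Sym2 V)) (D : Finset V) (a : V) (ω : Finset (Sym2 V))
    (G : Finset V) (ha : a ∉ D) (h1 : a ∉ G)
    (h2 : ∀ z ∈ WW E (D ∪ {a}) ω G, s(a, z) ∉ ω ∩ offE E D) :
    a ∉ cls (ω ∩ offE E D) G := by
  intro hcls
  rw [xb_mem_cls] at hcls
  obtain ⟨g, hgG, hg⟩ := hcls
  rw [clb_mem_cl] at hg
  have key : a ∈ cls (ω ∩ offE E (D ∪ {a})) G := by
    refine clb_closed (ω ∩ offE E D) {z | z ∈ cls (ω ∩ offE E (D ∪ {a})) G}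
      (fun x hx y hxy => ?_) g a (subset_cls _ _ hgG) hg
    rw [Set.mem_ofPred_eq] at hx ⊢
    have hxy' := hxy
    rw [mem_inter, xb_mem_offE] at hxy'
    by_cases hxa : x = a
    · subst hxa
      rw [mem_cls'] at hx
      obtain ⟨g', hg', hx⟩ := hx
      rw [xb_cl_off E _ (D ∪ {x}) inter_subset_right x (mem_union_right _ (mem_singleton_self x)),
        mem_singleton] at hx
      rw [hx] at hg'
      exact absurd hg' h1
    have hxU : x ∈ WW E (D ∪ {a}) ω G := by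
      rw [ww_mem, mem_union, mem_singleton, not_or]
      exact ⟨⟨hxy'.2.2.1, hxa⟩, hx⟩
    by_cases hya : y = a
    · subst hya
      rw [Sym2.eq_swap] at hxy
      exact absurd hxy (h2 x hxU)
    · exact ((ww_mem _ _ _ _ _).1 (u_closed E D a ω G x y hxU hxy hya)).2
  rw [mem_cls'] at key
  obtain ⟨g', hg', hx⟩ := key
  rw [xb_cl_off E _ (D ∪ {a}) inter_subset_right a (mem_union_right _ (mem_singleton_self a)),
    mem_singleton] at hx
  rw [hx] at hg'
  exact h1 hg'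

private theorem U_sub_cls (E : Finset (Sym2 V)) (D : Finset V) (a : V) (ω : Finset (Sym2 V))
    (G : Finset V) (z : V) (hz : z ∈ WW E (D ∪ {a}) ω G) : z ∈ cls (ω ∩ offE E D) G :=
  ((ww_mem _ _ _ _ _).1 (ww_anti_D E D (D ∪ {a}) subset_union_left ω G hz)).2

private theorem a_cls_iff (E : Finset (Sym2 V)) (D : Finset V) (a : V) (ω : Finset (Sym2 V))
    (G : Finset V) (ha : a ∉ D) :
    a ∉ cls (ω ∩ offE E D) G ↔ (a ∉ G ∧ ∀ z ∈ WW E (D ∪ {a}) ω G, s(a, z) ∉ ω ∩ offE E D) := by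
  constructor
  · intro h
    refine ⟨fun h' => h (subset_cls _ _ h'), fun z hz hz' => h ?_⟩
    rw [Sym2.eq_swap] at hz'
    exact xb_cls_closed _ G z a (U_sub_cls E D a ω G z hz) hz'
  · rintro ⟨h1, h2⟩
    exact a_cls E D a ω G ha h1 h2

/-- a vertex outside `D ∪ U` which is connected to `a` belongs to `K` -/
private theorem mem_K (E : Finset (Sym2 V)) (D : Finset V) (a : V) (ω : Finset (Sym2 V))
    (G : Finset V) (y : V) (hyD : y ∉ D) (hyU : y ∉ WW E (D ∪ {a}) ω G)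
    (hy : y ∈ cl (ω ∩ offE E D) a) : y ∈ KK E D a ω G := by
  by_contra hK
  have hK' : a ∉ cl (ω ∩ offE E (D ∪ WW E (D ∪ {a}) ω G)) y := fun h => hK ((cl_symm _ _ _).1 h)
  have hoff := xb_cl_off' E (ω ∩ offE E (D ∪ WW E (D ∪ {a}) ω G)) (D ∪ WW E (D ∪ {a}) ω G)
    inter_subset_right y (by rw [mem_union, not_or]; exact ⟨hyD, hyU⟩)
  have h1 : cl (ω ∩ offE E D) y = cl (ω ∩ offE E (D ∪ WW E (D ∪ {a}) ω G)) y := by
    refine cl_eq_of _ _ y fun x hx w => ?_
    have hxD := Finset.disjoint_left.1 hoff hx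
    rw [mem_union, not_or] at hxD
    constructor
    · intro h
      rw [mem_inter, xb_mem_offE] at h ⊢
      exact ⟨h.1, h.2.1, fun h' => h.2.2.1 (mem_union_left _ h'), fun h' =>
        h.2.2.2 (mem_union_left _ h')⟩
    · intro h
      have h' := h
      rw [mem_inter, xb_mem_offE] at h'
      rw [mem_inter, xb_mem_offE, mem_union, mem_union, not_or, not_or]
      refine ⟨h'.1, h'.2.1, hxD, h'.2.2.2, fun hw => hxD.2 ?_⟩
      have hxa : x ≠ a := fun hxa => hK' (hxa ▸ hx)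
      rw [Sym2.eq_swap] at h
      exact u_closed E D a ω G w x hw h hxa
  rw [← h1] at hK'
  exact hK' ((cl_symm _ _ _).1 hy)

/-- (C) -/
private theorem C_eq_K (E : Finset (Sym2 V)) (D : Finset V) (a : V) (ha : a ∉ D)
    (ω : Finset (Sym2 V)) (G : Finset V)
    (h2 : ∀ z ∈ WW E (D ∪ {a}) ω G, s(a, z) ∉ ω ∩ offE E D) :
    cl (ω ∩ offE E D) a = KK E D a ω G := by
  have hd := K_disj E D a ha ω G
  refine Finset.Subset.antisymm ?_ (K_sub E D a ω G)
  intro y hy
  rw [clb_mem_cl] at hy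
  refine clb_closed (ω ∩ offE E D) {z | z ∈ KK E D a ω G} (fun x hx w hxw => ?_) a y
    (a_mem_K E D a ω G) hy
  rw [Set.mem_ofPred_eq] at hx ⊢
  have hxD := Finset.disjoint_left.1 hd hx
  rw [mem_union, not_or] at hxD
  refine cl_closed _ a x w hx ?_
  have h' := hxw
  rw [mem_inter, xb_mem_offE] at h'
  rw [mem_inter, xb_mem_offE, mem_union, mem_union, not_or, not_or]
  refine ⟨h'.1, h'.2.1, hxD, h'.2.2.2, fun hw => ?_⟩
  by_cases hxa : x = a
  · subst hxa
    exact h2 w hw hxw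
  · rw [Sym2.eq_swap] at hxw
    exact hxD.2 (u_closed E D a ω G w x hw hxw hxa)

/-- `WW E (D ∪ K) ω G = U` -/
private theorem W_K (E : Finset (Sym2 V)) (D : Finset V) (a : V) (ha : a ∉ D)
    (ω : Finset (Sym2 V)) (G : Finset V) :
    WW E (D ∪ KK E D a ω G) ω G = WW E (D ∪ {a}) ω G := by
  have hd := K_disj E D a ha ω G
  have hsub : D ∪ {a} ⊆ D ∪ KK E D a ω G :=
    union_subset_union_right (singleton_subset_iff.2 (a_mem_K E D a ω G))
  refine Finset.Subset.antisymm (ww_anti_D E _ _ hsub ω G) ?_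
  intro z hz
  have hz' := hz
  rw [ww_mem] at hz'
  have hz2 : z ∉ D ∪ KK E D a ω G := by
    rw [mem_union, not_or]
    refine ⟨fun h => hz'.1 (mem_union_left _ h), fun h => ?_⟩
    exact Finset.disjoint_left.1 hd h (mem_union_right _ hz)
  rw [ww_mem]
  refine ⟨hz2, ?_⟩
  have hoff := xb_cl_off' E (ω ∩ offE E (D ∪ {a})) (D ∪ {a}) inter_subset_right z hz'.1
  have hU : ∀ x ∈ cl (ω ∩ offE E (D ∪ {a})) z, x ∈ WW E (D ∪ {a}) ω G := by
    intro x hx
    rw [ww_mem]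
    refine ⟨Finset.disjoint_left.1 hoff hx, ?_⟩
    have h3 := hz'.2
    rw [mem_cls'] at h3 ⊢
    rwa [cl_eq_of_mem _ z x hx]
  have hKn : ∀ x ∈ cl (ω ∩ offE E (D ∪ {a})) z, x ∉ D ∪ KK E D a ω G := by
    intro x hx
    rw [mem_union, not_or]
    refine ⟨fun h => ((ww_mem _ _ _ _ _).1 (hU x hx)).1 (mem_union_left _ h), fun h => ?_⟩
    exact Finset.disjoint_left.1 hd h (mem_union_right _ (hU x hx))
  have h1 : cl (ω ∩ offE E (D ∪ KK E D a ω G)) z = cl (ω ∩ offE E (D ∪ {a})) z := by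
    refine cl_eq_of _ _ z fun x hx w => ?_
    constructor
    · intro h
      have hw := cl_closed _ z x w hx h
      rw [mem_inter, xb_mem_offE] at h ⊢
      exact ⟨h.1, h.2.1, hKn x hx, hKn w hw⟩
    · intro h
      rw [mem_inter, xb_mem_offE] at h ⊢
      exact ⟨h.1, h.2.1, fun h' => h.2.2.1 (hsub h'), fun h' => h.2.2.2 (hsub h')⟩
  rw [mem_cls', h1, ← mem_cls']
  exact hz'.2

private theorem N_K (E : Finset (Sym2 V)) (D : Finset V) (a : V) (ha : a ∉ D)
    (ω : Finset (Sym2 V)) (G : Finset V) :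
    NN E (D ∪ {a}) ω G = ((KK E D a ω G).card : ℝ) - 1 + NN E (D ∪ KK E D a ω G) ω G := by
  have h1 := nn_total E (D ∪ {a}) ω G
  have h2 := nn_total E (D ∪ KK E D a ω G) ω G
  have hd := K_disj E D a ha ω G
  rw [W_K E D a ha ω G] at h2
  rw [Finset.card_union_of_disjoint (Finset.disjoint_singleton_right.2 ha), card_singleton] at h1
  rw [Finset.card_union_of_disjoint (Finset.disjoint_union_right.1 hd).1.symm] at h2
  push_cast at h1 h2
  linarith

/-- (D) -/
private theorem C_meets (E : Finset (Sym2 V)) (D : Finset V) (a : V)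
    (ω : Finset (Sym2 V)) (G : Finset V) (z : V) (hz : z ∈ WW E (D ∪ {a}) ω G)
    (h : s(a, z) ∈ ω ∩ offE E D) : ¬ Disjoint (cl (ω ∩ offE E D) a \ {a}) G := by
  rw [ww_mem] at hz
  obtain ⟨hz1, hz2⟩ := hz
  rw [mem_cls'] at hz2
  obtain ⟨g, hgG, hg⟩ := hz2
  rw [Finset.not_disjoint_iff]
  refine ⟨g, ?_, hgG⟩
  rw [mem_sdiff, mem_singleton]
  constructor
  · have h1 : z ∈ cl (ω ∩ offE E D) a := cl_closed _ a a z (mem_cl_self _ _) h
    rw [← cl_eq_of_mem _ a z h1]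
    exact cl_mono _ _ (inter_subset_inter_left (xb_offE_anti E _ _ subset_union_left)) z hg
  · rintro rfl
    have hoff := xb_cl_off' E (ω ∩ offE E (D ∪ {g})) (D ∪ {g}) inter_subset_right z hz1
    exact Finset.disjoint_left.1 hoff hg (mem_union_right _ (mem_singleton_self g))

theorem ww_single (E : Finset (Sym2 V)) (hE : ∀ e ∈ E, ¬ e.IsDiag) (D : Finset V) (a : V)
    (ha : a ∉ D) (ω : Finset (Sym2 V)) (G : Finset V) (y : V) :
    ind (y ∈ WW E D ω G) = ind (y ∈ WW E (D ∪ {a}) ω G) +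
      ind (a ∈ cls (ω ∩ offE E D) G) * ind (y ∈ KK E D a ω G) := by
  have hd := K_disj E D a ha ω G
  by_cases hU : y ∈ WW E (D ∪ {a}) ω G
  · have hK : y ∉ KK E D a ω G := fun h => Finset.disjoint_left.1 hd h (mem_union_right _ hU)
    rw [ind_one hU, ind_one (ww_anti_D E D (D ∪ {a}) subset_union_left ω G hU), ind_zero hK]
    ring
  rw [ind_zero hU, zero_add]
  by_cases hW : y ∈ WW E D ω G
  · rw [ind_one hW]
    rw [ww_mem] at hW
    have hac : y ∈ cl (ω ∩ offE E D) a := by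
      by_contra hn
      have hn' : a ∉ cl (ω ∩ offE E D) y := fun h => hn ((cl_symm _ _ _).1 h)
      have hya : y ≠ a := by
        rintro rfl
        exact hn (mem_cl_self _ _)
      have h1 : cl (ω ∩ offE E (D ∪ {a})) y = cl (ω ∩ offE E D) y := by
        refine cl_eq_of _ _ y fun x hx w => ?_
        constructor
        · intro h
          have hw := cl_closed _ y x w hx h
          rw [mem_inter, xb_mem_offE] at h ⊢
          rw [mem_union, mem_union, mem_singleton, mem_singleton, not_or, not_or]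
          exact ⟨h.1, h.2.1, ⟨h.2.2.1, fun e => hn' (e ▸ hx)⟩, ⟨h.2.2.2, fun e => hn' (e ▸ hw)⟩⟩
        · intro h
          rw [mem_inter, xb_mem_offE] at h ⊢
          exact ⟨h.1, h.2.1, fun h' => h.2.2.1 (mem_union_left _ h'), fun h' =>
            h.2.2.2 (mem_union_left _ h')⟩
      refine hU ?_
      rw [ww_mem, mem_union, mem_singleton, not_or]
      refine ⟨⟨hW.1, hya⟩, ?_⟩
      rw [mem_cls', h1, ← mem_cls']
      exact hW.2
    have hK := mem_K E D a ω G y hW.1 hU hac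
    have hcls : a ∈ cls (ω ∩ offE E D) G := by
      have h3 := hW.2
      rw [mem_cls'] at h3 ⊢
      rwa [← cl_eq_of_mem _ a y hac]
    rw [ind_one hK, ind_one hcls, one_mul]
  · rw [ind_zero hW]
    by_cases hcls : a ∈ cls (ω ∩ offE E D) G
    · by_cases hK : y ∈ KK E D a ω G
      · exfalso
        apply hW
        rw [ww_mem]
        refine ⟨fun h => Finset.disjoint_left.1 hd hK (mem_union_left _ h), ?_⟩
        have hyC := K_sub E D a ω G hK
        rw [mem_cls'] at hcls ⊢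
        rwa [cl_eq_of_mem _ a y hyC]
      · rw [ind_zero hK, mul_zero]
    · rw [ind_zero hcls, zero_mul]

omit [DecidableEq V] in
private theorem sum_ind (A : Finset V) : ∑ x, ind (x ∈ A) = (A.card : ℝ) := by
  rw [← Finset.sum_subset (Finset.subset_univ A) (fun x _ hx => ind_zero hx),
    Finset.sum_congr rfl fun x hx => ind_one hx, Finset.sum_const, nsmul_eq_mul, mul_one]

theorem dl_single (E : Finset (Sym2 V)) (hE : ∀ e ∈ E, ¬ e.IsDiag) (D : Finset V) (a : V)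
    (ha : a ∉ D) (ω : Finset (Sym2 V)) (G : Finset V) :
    DL E D {a} ω G = ind (a ∈ cls (ω ∩ offE E D) G) * ((KK E D a ω G).card : ℝ) := by
  rw [dl_eq E D {a} (Finset.disjoint_singleton_left.2 ha) ω G, ← sum_ind (WW E D ω G),
    ← sum_ind (WW E (D ∪ {a}) ω G), ← sum_ind (KK E D a ω G), Finset.mul_sum,
    ← Finset.sum_sub_distrib]
  refine Finset.sum_congr rfl fun y _ => ?_
  rw [ww_single E hE D a ha ω G y]
  ring

/-! ### the star lemma -/

omit [Fintype V] [DecidableEq V] in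
private theorem Ex_point {α : Type} [DecidableEq α] (R S : Finset α) (hS : S ⊆ R) (p : ℝ) :
    Ex R p (fun ω => ind (Disjoint ω S)) = (1 - p) ^ S.card := by
  have h1 := Ex_restrict R S hS p (fun ω => ind (Disjoint ω S))
  have h2 : ∀ ω : Finset α, Disjoint (ω ∩ S) S ↔ Disjoint ω S := by
    intro ω
    rw [Finset.disjoint_left, Finset.disjoint_left]
    exact ⟨fun h x hx hx' => h (mem_inter.2 ⟨hx, hx'⟩) hx', fun h x hx hx' =>
      h (mem_inter.1 hx).1 hx'⟩
  simp only [h2] at h1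
  rw [h1]
  unfold Ex
  rw [Finset.sum_eq_single ∅]
  · simp [ind]
  · intro ω hω hne
    have h3 : ¬ Disjoint ω S := by
      intro h
      apply hne
      rw [← Finset.disjoint_self_iff_empty]
      exact h.mono_right (mem_powerset.1 hω)
    beta_reduce
    rw [show ind (Disjoint ω S) = 0 from ind_zero h3, mul_zero]
  · intro h
    exact absurd (empty_mem_powerset S) h

omit [Fintype V] in
private theorem star_lem (E Ea : Finset (Sym2 V)) (hEa : Ea ⊆ E) (p : ℝ)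
    (SS : Finset (Sym2 V) → Finset (Sym2 V)) (hS : ∀ η, SS η ⊆ E \ Ea)
    (Y : Finset (Sym2 V) → ℝ) (hY : ∀ ω ⊆ E, Y ω = Y (ω \ SS (ω ∩ Ea))) :
    Ex E p (fun ω => ind (Disjoint ω (SS (ω ∩ Ea))) * Y ω) =
      Ex E p (fun ω => (1 - p) ^ (SS (ω ∩ Ea)).card * Y ω) := by
  have hE : E = Ea ∪ (E \ Ea) := (union_sdiff_of_subset hEa).symm
  have key : ∀ F : Finset (Sym2 V) → ℝ, Ex E p F =
      Ex Ea p (fun η => Ex (E \ Ea) p (fun ξ => F (η ∪ ξ))) := by
    intro F
    conv_lhs => rw [hE]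
    exact Ex_union _ _ disjoint_sdiff p F
  rw [key, key]
  refine Ex_congr _ _ _ _ fun η hη => ?_
  have hint : ∀ ξ ⊆ E \ Ea, (η ∪ ξ) ∩ Ea = η := by
    intro ξ hξ
    ext x
    rw [mem_inter, mem_union]
    constructor
    · rintro ⟨h | h, h'⟩
      · exact h
      · exact absurd h' (mem_sdiff.1 (hξ h)).2
    · exact fun h => ⟨Or.inl h, hη h⟩
  set S := SS η with hSdef
  have hSR : S ⊆ E \ Ea := hS η
  have hηS : Disjoint η S := by
    rw [Finset.disjoint_left]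
    intro x hx hx'
    exact (mem_sdiff.1 (hSR hx')).2 (hη hx)
  have e1 : Ex (E \ Ea) p (fun ξ => ind (Disjoint (η ∪ ξ) (SS ((η ∪ ξ) ∩ Ea))) * Y (η ∪ ξ)) =
      Ex (E \ Ea) p (fun ξ => ind (Disjoint ξ S) * Y (η ∪ ξ)) := by
    refine Ex_congr _ _ _ _ fun ξ hξ => ?_
    rw [hint ξ hξ, ← hSdef, Finset.disjoint_union_left]
    congr 2
    exact propext ⟨fun h => h.2, fun h => ⟨hηS, h⟩⟩
  have e2 : Ex (E \ Ea) p (fun ξ => (1 - p) ^ (SS ((η ∪ ξ) ∩ Ea)).card * Y (η ∪ ξ)) =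
      Ex (E \ Ea) p (fun ξ => (1 - p) ^ S.card * Y (η ∪ ξ)) := by
    refine Ex_congr _ _ _ _ fun ξ hξ => ?_
    rw [hint ξ hξ, ← hSdef]
  rw [e1, e2]
  have e3 := Ex_mul_indep (E \ Ea) S ((E \ Ea) \ S) disjoint_sdiff p (fun ξ => ind (Disjoint ξ S))
    (fun ξ => Y (η ∪ ξ)) (fun ξ _ => by
      congr 1
      rw [Finset.disjoint_left, Finset.disjoint_left]
      exact propext ⟨fun h x hx hx' => h (mem_inter.1 hx).1 hx', fun h x hx hx' =>
        h (mem_inter.2 ⟨hx, hx'⟩) hx'⟩) (fun ξ hξ => by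
      have h1 : η ∪ ξ ⊆ E := union_subset (hη.trans hEa) (hξ.trans sdiff_subset)
      have h2 : ξ ∩ ((E \ Ea) \ S) ⊆ E \ Ea := inter_subset_left.trans hξ
      have h3 : η ∪ ξ ∩ ((E \ Ea) \ S) ⊆ E := union_subset (hη.trans hEa) (h2.trans sdiff_subset)
      rw [hY _ h1, hY _ h3, hint ξ hξ, hint _ h2, ← hSdef]
      congr 1
      ext x
      simp only [mem_sdiff, mem_union, mem_inter]
      constructor
      · rintro ⟨h | h, h'⟩
        · exact ⟨Or.inl h, h'⟩
        · exact ⟨Or.inr ⟨h, ⟨mem_sdiff.1 (hξ h), h'⟩⟩, h'⟩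
      · rintro ⟨h | h, h'⟩
        · exact ⟨Or.inl h, h'⟩
        · exact ⟨Or.inr h.1, h'⟩)
  rw [e3, Ex_point _ _ hSR, Ex_mul_left]

/-- the edges from `a` to `U` -/
private noncomputable def SS (E : Finset (Sym2 V)) (D : Finset V) (a : V) (G : Finset V)
    (η : Finset (Sym2 V)) : Finset (Sym2 V) :=
  (WW E (D ∪ {a}) η G).biUnion fun z => E ∩ {s(a, z)}

private theorem mem_SS (E : Finset (Sym2 V)) (D : Finset V) (a : V) (G : Finset V)
    (η : Finset (Sym2 V)) (e : Sym2 V) :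
    e ∈ SS E D a G η ↔ ∃ z ∈ WW E (D ∪ {a}) η G, e = s(a, z) ∧ e ∈ E := by
  unfold SS
  simp only [mem_biUnion, mem_inter, mem_singleton]
  constructor
  · rintro ⟨z, hz, h1, h2⟩
    exact ⟨z, hz, h2, h1⟩
  · rintro ⟨z, hz, h1, h2⟩
    exact ⟨z, hz, h2, h1⟩

private theorem card_SS (E : Finset (Sym2 V)) (D : Finset V) (a : V) (G : Finset V)
    (η : Finset (Sym2 V)) : (SS E D a G η).card = dgr E a (WW E (D ∪ {a}) η G) := by
  classical
  have h1 : SS E D a G η = ((WW E (D ∪ {a}) η G).filter fun z => s(a, z) ∈ E).image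
      (fun z => s(a, z)) := by
    ext e
    rw [mem_SS, mem_image]
    constructor
    · rintro ⟨z, hz, h1, h2⟩
      exact ⟨z, mem_filter.2 ⟨hz, h1 ▸ h2⟩, h1.symm⟩
    · rintro ⟨z, hz, h1⟩
      rw [mem_filter] at hz
      exact ⟨z, hz.1, h1.symm, h1 ▸ hz.2⟩
  rw [h1, Finset.card_image_of_injective _ fun z z' h => Sym2.congr_right.1 h]
  unfold dgr
  congr

private theorem SS_sub (E : Finset (Sym2 V)) (D : Finset V) (a : V) (G : Finset V)
    (η : Finset (Sym2 V)) : SS E D a G η ⊆ E \ offE E (D ∪ {a}) := by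
  intro e he
  rw [mem_SS] at he
  obtain ⟨z, _, h1, h2⟩ := he
  rw [mem_sdiff]
  refine ⟨h2, fun h => ?_⟩
  rw [h1, xb_mem_offE] at h
  exact h.2.1 (mem_union_right _ (mem_singleton_self a))

private theorem SS_off (E : Finset (Sym2 V)) (D : Finset V) (a : V) (G : Finset V)
    (ω : Finset (Sym2 V)) : SS E D a G (ω ∩ offE E (D ∪ {a})) = SS E D a G ω := by
  unfold SS
  rw [ww_off]

private theorem SS_disj (E : Finset (Sym2 V)) (D : Finset V) (a : V) (ha : a ∉ D) (G : Finset V)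
    (ω : Finset (Sym2 V)) :
    Disjoint ω (SS E D a G ω) ↔ ∀ z ∈ WW E (D ∪ {a}) ω G, s(a, z) ∉ ω ∩ offE E D := by
  rw [Finset.disjoint_left]
  constructor
  · intro h z hz hz'
    rw [mem_inter, xb_mem_offE] at hz'
    refine h hz'.1 ?_
    rw [mem_SS]
    exact ⟨z, hz, rfl, hz'.2.1⟩
  · intro h e he he'
    rw [mem_SS] at he'
    obtain ⟨z, hz, h1, h2⟩ := he'
    refine h z hz ?_
    rw [mem_inter, xb_mem_offE]
    rw [h1] at he h2
    refine ⟨he, h2, ha, fun hz' => ?_⟩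
    exact ((ww_mem _ _ _ _ _).1 hz).1 (mem_union_left _ hz')

private theorem W_inv (E : Finset (Sym2 V)) (D : Finset V) (a : V) (G : Finset V)
    (ω : Finset (Sym2 V)) :
    (ω \ SS E D a G ω) ∩ offE E (D ∪ {a}) = ω ∩ offE E (D ∪ {a}) := by
  ext e
  rw [mem_inter, mem_inter, mem_sdiff]
  refine ⟨fun h => ⟨h.1.1, h.2⟩, fun h => ⟨⟨h.1, fun h' => ?_⟩, h.2⟩⟩
  exact (mem_sdiff.1 (SS_sub E D a G ω h')).2 h.2

private theorem WW_inv (E : Finset (Sym2 V)) (D : Finset V) (a : V) (G : Finset V)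
    (ω : Finset (Sym2 V)) :
    WW E (D ∪ {a}) (ω \ SS E D a G ω) G = WW E (D ∪ {a}) ω G := by
  rw [← ww_off, W_inv, ww_off]

private theorem NN_inv (E : Finset (Sym2 V)) (D : Finset V) (a : V) (G : Finset V)
    (ω : Finset (Sym2 V)) :
    NN E (D ∪ {a}) (ω \ SS E D a G ω) G = NN E (D ∪ {a}) ω G := by
  rw [← nn_off, W_inv, nn_off]

private theorem KK_inv (E : Finset (Sym2 V)) (D : Finset V) (a : V) (G : Finset V)
    (ω : Finset (Sym2 V)) :
    KK E D a (ω \ SS E D a G ω) G = KK E D a ω G := by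
  unfold KK
  rw [WW_inv]
  congr 1
  ext e
  rw [mem_inter, mem_inter, mem_sdiff]
  refine ⟨fun h => ⟨h.1.1, h.2⟩, fun h => ⟨⟨h.1, fun h' => ?_⟩, h.2⟩⟩
  rw [mem_SS] at h'
  obtain ⟨z, hz, h1, h2⟩ := h'
  have h3 := h.2
  rw [h1, xb_mem_offE] at h3
  exact h3.2.2 (mem_union_right _ hz)

private theorem KK_diff (E : Finset (Sym2 V)) (D : Finset V) (a : V) (G : Finset V)
    (ω : Finset (Sym2 V)) :
    KK E D a ω (G \ {a}) = KK E D a ω G := by
  unfold KK
  rw [ww_diff E _ _ subset_union_right]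

private theorem SS_diff (E : Finset (Sym2 V)) (D : Finset V) (a : V) (G : Finset V)
    (ω : Finset (Sym2 V)) :
    SS E D a (G \ {a}) ω = SS E D a G ω := by
  unfold SS
  rw [ww_diff E _ _ subset_union_right]

omit [DecidableEq V] in
private theorem EG_mul (E : Finset (Sym2 V)) (p h c : ℝ)
    (F : Finset (Sym2 V) → Finset V → ℝ) :
    EG E p h (fun ω G => c * F ω G) = c * EG E p h F := by
  unfold EG
  rw [← Ex_mul_left]
  exact Ex_congr _ _ _ _ fun ω _ => by rw [Ex_mul_left]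

omit [DecidableEq V] in
private theorem EG_sub (E : Finset (Sym2 V)) (p h : ℝ)
    (F F' : Finset (Sym2 V) → Finset V → ℝ) :
    EG E p h (fun ω G => F ω G - F' ω G) = EG E p h F - EG E p h F' := by
  unfold EG
  rw [← Ex_sub]
  exact Ex_congr _ _ _ _ fun ω _ => by rw [Ex_sub]

omit [DecidableEq V] in
private theorem EG_congr (E : Finset (Sym2 V)) (p h : ℝ)
    (F F' : Finset (Sym2 V) → Finset V → ℝ) (hF : ∀ ω ⊆ E, ∀ G, F ω G = F' ω G) :
    EG E p h F = EG E p h F' := by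
  unfold EG
  exact Ex_congr _ _ _ _ fun ω hω => Ex_congr _ _ _ _ fun G _ => hF ω hω G

omit [DecidableEq V] in
private theorem EG_swap (E : Finset (Sym2 V)) (p h : ℝ)
    (F : Finset (Sym2 V) → Finset V → ℝ) :
    EG E p h F = Ex (univ : Finset V) h (fun G => Ex E p (fun ω => F ω G)) := by
  unfold EG
  exact xb_Ex_swap E (univ : Finset V) p h F

/-- the star is independent of the rest -/
private theorem EG_star (E : Finset (Sym2 V)) (p h : ℝ) (D : Finset V) (a : V)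
    (Y : Finset (Sym2 V) → Finset V → ℝ) (hY : ∀ ω ⊆ E, ∀ G, Y ω G = Y (ω \ SS E D a G ω) G) :
    EG E p h (fun ω G => ind (Disjoint ω (SS E D a G ω)) * Y ω G) =
      EG E p h (fun ω G => (1 - p) ^ dgr E a (WW E (D ∪ {a}) ω G) * Y ω G) := by
  rw [EG_swap, EG_swap]
  refine Ex_congr _ _ _ _ fun G _ => ?_
  have h1 := star_lem E (offE E (D ∪ {a})) (xb_offE_subset E _) p (SS E D a G) (SS_sub E D a G)
    (fun ω => Y ω G) (fun ω hω => by rw [SS_off]; exact hY ω hω G)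
  simp only [SS_off, card_SS] at h1
  exact h1

/-- `a ∈ G` is independent of the rest -/
private theorem EG_point (E : Finset (Sym2 V)) (p h : ℝ) (a : V)
    (Z : Finset (Sym2 V) → Finset V → ℝ) (hZ : ∀ ω G, Z ω G = Z ω (G \ {a})) :
    EG E p h (fun ω G => ind (a ∉ G) * Z ω G) = (1 - h) * EG E p h Z := by
  unfold EG
  rw [← Ex_mul_left]
  refine Ex_congr _ _ _ _ fun ω _ => ?_
  have h1 := gh_prod h {a} (univ \ {a}) disjoint_sdiff (fun G => ind (Disjoint {a} G))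
    (fun G => Z ω G)
  have h2 : ∀ G : Finset V, G ∩ (univ \ {a}) = G \ {a} := by
    intro G
    ext w
    simp
  have h3 : ∀ G : Finset V, (Disjoint {a} (G ∩ {a}) ↔ Disjoint {a} G) := by
    intro G
    rw [Finset.disjoint_singleton_left, Finset.disjoint_singleton_left, mem_inter, mem_singleton]
    tauto
  simp only [h2, h3, gh_disj, ← hZ, card_singleton, pow_one] at h1
  rw [← h1]
  refine Ex_congr _ _ _ _ fun G _ => ?_
  simp only [Finset.disjoint_singleton_left]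

/-- exploration of the cluster of `a`, ghosts at `a` are allowed -/
private theorem gex_a (E : Finset (Sym2 V)) (p h : ℝ) (D : Finset V) (a : V)
    (H : Finset V → Finset (Sym2 V) → Finset V → ℝ) :
    EG E p h (fun ω G => ind (Disjoint (cl (ω ∩ offE E D) a \ {a}) G) * H (cl (ω ∩ offE E D) a)
      (ω ∩ offE E (D ∪ cl (ω ∩ offE E D) a)) (G \ cl (ω ∩ offE E D) a)) =
    Ex (offE E D) p (fun ω' => (1 - h) ^ ((cl ω' a).card - 1) *
      EG E p h (fun ω G => H (cl ω' a) (ω ∩ offE E (D ∪ cl ω' a)) (G \ cl ω' a))) := by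
  have hD : offE E D ⊆ E := xb_offE_subset E D
  set F0 : Finset (Sym2 V) → ℝ := fun η => Ex (univ : Finset V) h (fun G =>
    ind (Disjoint (cl η a \ {a}) G) *
    H (cl η a) (η ∩ offE (offE E D) (cl η a)) (G \ cl η a)) with hF0
  have e1 : EG E p h (fun ω G => ind (Disjoint (cl (ω ∩ offE E D) a \ {a}) G) *
      H (cl (ω ∩ offE E D) a)
      (ω ∩ offE E (D ∪ cl (ω ∩ offE E D) a)) (G \ cl (ω ∩ offE E D) a)) =
      Ex E p (fun ω => F0 (ω ∩ offE E D)) := by
    unfold EG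
    refine Ex_congr _ _ _ _ fun ω _ => Ex_congr _ _ _ _ fun G _ => ?_
    beta_reduce
    rw [xb_offE_offE, inter_assoc, inter_eq_right.2 (xb_offE_anti E D _ subset_union_left)]
  rw [e1, Ex_restrict E (offE E D) hD p F0]
  have e2 : ∀ η, Ex (univ : Finset V) h (fun G => ind (Disjoint (cl η a \ {a}) G) * H (cl η a)
        (η ∩ offE (offE E D) (cl η a)) (G \ cl η a)) =
      (1 - h) ^ ((cl η a).card - 1) * Ex (univ : Finset V) h (fun G => H (cl η a)
        (η ∩ offE (offE E D) (cl η a)) (G \ cl η a)) := by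
    intro η
    have h1 := gh_prod h (cl η a \ {a}) (univ \ cl η a)
      (Disjoint.mono_left sdiff_subset disjoint_sdiff)
      (fun G => ind (Disjoint (cl η a \ {a}) G))
      (fun G => H (cl η a) (η ∩ offE (offE E D) (cl η a)) G)
    have h2 : ∀ G : Finset V, G ∩ (univ \ cl η a) = G \ cl η a := by
      intro G
      ext w
      simp
    have h3 : ∀ G : Finset V, (Disjoint (cl η a \ {a}) (G ∩ (cl η a \ {a})) ↔
        Disjoint (cl η a \ {a}) G) := by
      intro G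
      rw [Finset.disjoint_left, Finset.disjoint_left]
      exact ⟨fun h w hw hw' => h hw (mem_inter.2 ⟨hw', hw⟩), fun h w hw hw' =>
        h hw (mem_inter.1 hw').1⟩
    simp only [h2, h3, gh_disj] at h1
    rw [h1, card_sdiff_of_subset (singleton_subset_iff.2 (mem_cl_self η a)), card_singleton]
  rw [Ex_congr _ _ _ _ fun η _ => e2 η]
  have h1 := b_mark_cl (offE E D) a p (fun C _ η => (1 - h) ^ (C.card - 1) *
    Ex (univ : Finset V) h (fun G => H C η (G \ C)))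
  rw [h1]
  refine Ex_congr _ _ _ _ fun ω' _ => ?_
  rw [Ex_mul_left, xb_offE_offE]
  congr 1
  unfold EG
  rw [← Ex_restrict E (offE E (D ∪ cl ω' a)) (xb_offE_subset E _) p]

theorem sngl (E : Finset (Sym2 V)) (hE : ∀ e ∈ E, ¬ e.IsDiag) (p h : ℝ) (h1 : p < 1)
    (D : Finset V) (a : V) (ha : a ∉ D) (g : Finset V → ℝ) (f : ℝ → ℝ) :
    EG E p h (fun ω G => ind (a ∈ cls (ω ∩ offE E D) G) * g (KK E D a ω G) *
      f (NN E (D ∪ {a}) ω G)) =
    Ex (offE E D) p (fun ω' => (1 - h) ^ ((cl ω' a).card - 1) * g (cl ω' a) *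
      EG E p h (fun ω G => psi E p h (D ∪ cl ω' a) a ω G *
        f (((cl ω' a).card : ℝ) - 1 + NN E (D ∪ cl ω' a) ω G))) := by
  set Y : Finset (Sym2 V) → Finset V → ℝ := fun ω G =>
    g (KK E D a ω G) * f (NN E (D ∪ {a}) ω G) with hY
  have hYinv : ∀ ω G, Y ω G = Y (ω \ SS E D a G ω) G := by
    intro ω G
    simp only [hY]
    rw [KK_inv, NN_inv]
  have hYG : ∀ ω G, Y ω G = Y ω (G \ {a}) := by
    intro ω G
    simp only [hY]
    rw [KK_diff, nn_diff E _ _ subset_union_right]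
  -- left side
  have L1 : EG E p h (fun ω G => ind (a ∈ cls (ω ∩ offE E D) G) * g (KK E D a ω G) *
      f (NN E (D ∪ {a}) ω G)) =
      EG E p h (fun ω G => Y ω G - ind (a ∉ G) * (ind (Disjoint ω (SS E D a G ω)) * Y ω G)) := by
    refine EG_congr _ _ _ _ _ fun ω _ G => ?_
    simp only [hY]
    by_cases hc : a ∈ cls (ω ∩ offE E D) G
    · rw [ind_one hc]
      have hn : ¬ (a ∉ G ∧ ∀ z ∈ WW E (D ∪ {a}) ω G, s(a, z) ∉ ω ∩ offE E D) := fun h' =>
        ((a_cls_iff E D a ω G ha).2 h') hc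
      rw [← SS_disj E D a ha G ω] at hn
      by_cases h2 : a ∉ G
      · rw [ind_zero fun h3 => hn ⟨h2, h3⟩]
        ring
      · rw [ind_zero h2]
        ring
    · rw [ind_zero hc]
      have hn := (a_cls_iff E D a ω G ha).1 hc
      rw [← SS_disj E D a ha G ω] at hn
      rw [ind_one hn.1, ind_one hn.2]
      ring
  have L2 : EG E p h (fun ω G => ind (a ∉ G) * (ind (Disjoint ω (SS E D a G ω)) * Y ω G)) =
      (1 - h) * EG E p h (fun ω G => (1 - p) ^ dgr E a (WW E (D ∪ {a}) ω G) * Y ω G) := by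
    rw [EG_point E p h a (fun ω G => ind (Disjoint ω (SS E D a G ω)) * Y ω G)
      (fun ω G => by rw [SS_diff, ← hYG])]
    rw [EG_star E p h D a Y (fun ω _ G => hYinv ω G)]
  rw [L1, EG_sub, L2]
  -- right side
  set H : Finset V → Finset (Sym2 V) → Finset V → ℝ := fun C ω G =>
    g C * (psi E p h (D ∪ C) a ω G * f ((C.card : ℝ) - 1 + NN E (D ∪ C) ω G)) with hH
  have hHinv : ∀ C ω G, H C (ω ∩ offE E (D ∪ C)) (G \ C) = H C ω G := by
    intro C ω G
    simp only [hH, psi]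
    rw [ww_off, ww_diff E _ _ subset_union_right, nn_off, nn_diff E _ _ subset_union_right]
  have R1 := gex_a E p h D a H
  simp only [hHinv] at R1
  have R2 : Ex (offE E D) p (fun ω' => (1 - h) ^ ((cl ω' a).card - 1) * g (cl ω' a) *
      EG E p h (fun ω G => psi E p h (D ∪ cl ω' a) a ω G *
        f (((cl ω' a).card : ℝ) - 1 + NN E (D ∪ cl ω' a) ω G))) =
      Ex (offE E D) p (fun ω' => (1 - h) ^ ((cl ω' a).card - 1) *
        EG E p h (fun ω G => H (cl ω' a) ω G)) := by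
    refine Ex_congr _ _ _ _ fun ω' _ => ?_
    simp only [hH]
    rw [EG_mul]
    ring
  rw [R2, ← R1]
  set Y2 : Finset (Sym2 V) → Finset V → ℝ := fun ω G =>
    (((1 - p) ^ dgr E a (WW E (D ∪ {a}) ω G))⁻¹ - (1 - h)) * Y ω G with hY2
  have R3 : EG E p h (fun ω G => ind (Disjoint (cl (ω ∩ offE E D) a \ {a}) G) *
      H (cl (ω ∩ offE E D) a) ω G) =
      EG E p h (fun ω G => ind (Disjoint ω (SS E D a G ω)) * Y2 ω G) := by
    refine EG_congr _ _ _ _ _ fun ω _ G => ?_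
    by_cases hd : Disjoint ω (SS E D a G ω)
    · have hd' := (SS_disj E D a ha G ω).1 hd
      have hC := C_eq_K E D a ha ω G hd'
      rw [hC, ind_one (K_G E D a ha ω G), ind_one hd]
      simp only [hH, hY2, hY, psi]
      rw [W_K E D a ha ω G, ← N_K E D a ha ω G]
      ring
    · rw [ind_zero hd, zero_mul]
      rw [SS_disj E D a ha G ω] at hd
      push Not at hd
      obtain ⟨z, hz, hz'⟩ := hd
      rw [ind_zero (C_meets E D a ω G z hz hz'), zero_mul]
  rw [R3, EG_star E p h D a Y2 (fun ω _ G => by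
    simp only [hY2]
    rw [WW_inv, ← hYinv])]
  rw [← EG_mul, ← EG_sub]
  refine EG_congr _ _ _ _ _ fun ω _ G => ?_
  simp only [hY2]
  have hp : (1 - p) ^ dgr E a (WW E (D ∪ {a}) ω G) ≠ 0 := pow_ne_zero _ (by linarith)
  field_simp

omit [DecidableEq V] in
private theorem egc_eq (E : Finset (Sym2 V)) (p h : ℝ) (F : Finset (Sym2 V) → Finset V → ℂ) :
    EGC E p h F = (EG E p h (fun ω G => (F ω G).re) : ℂ) +
      Complex.I * (EG E p h (fun ω G => (F ω G).im) : ℂ) := by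
  unfold EGC EG
  rw [← ExC_ofReal, ← ExC_ofReal, ← ExC_mul_left, ← ExC_add]
  refine congrArg (ExC E p) (funext fun ω => ?_)
  exact bin_ExC_eq _ _ _

theorem snglC (E : Finset (Sym2 V)) (hE : ∀ e ∈ E, ¬ e.IsDiag) (p h : ℝ) (h1 : p < 1)
    (D : Finset V) (a : V) (ha : a ∉ D) (g : Finset V → ℝ) (f : ℝ → ℂ) :
    EGC E p h (fun ω G => ((ind (a ∈ cls (ω ∩ offE E D) G) * g (KK E D a ω G) : ℝ) : ℂ) *
      f (NN E (D ∪ {a}) ω G)) =
    ExC (offE E D) p (fun ω' => (((1 - h) ^ ((cl ω' a).card - 1) * g (cl ω' a) : ℝ) : ℂ) *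
      EGC E p h (fun ω G => (psi E p h (D ∪ cl ω' a) a ω G : ℂ) *
        f (((cl ω' a).card : ℝ) - 1 + NN E (D ∪ cl ω' a) ω G))) := by
  rw [egc_eq]
  simp only [Complex.re_ofReal_mul, Complex.im_ofReal_mul]
  rw [sngl E hE p h h1 D a ha g (fun t => (f t).re), sngl E hE p h h1 D a ha g (fun t => (f t).im)]
  rw [← ExC_ofReal, ← ExC_ofReal, ← ExC_mul_left, ← ExC_add]
  refine congrArg (ExC (offE E D) p) (funext fun ω' => ?_)
  rw [egc_eq]
  simp only [Complex.re_ofReal_mul, Complex.im_ofReal_mul]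
  push_cast
  ring

end SNGL

end Pool.Agent.Work.MP_b7dc8a_pr
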