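import Pool.Agent.Work.MP_b7dc8a_pr.F.Ghost
import Pool.Agent.Work.MP_b7dc8a_pr.F.Taun

/-! Module TFB (S): `tf <= 3 Loc_0 + 60 (TN + mo_1)/2^m`. `gh_tf` and `gh_clus` (`Φ A = ind (y ∈ A)`):
`tf E p h x y = EG [ind (x ∉ W) tau (offE E W) p x y]`, `W = cls ω G`. If `y ∈ W`, `x ∉ W` then
`tau (offE E W) p x y = 0` (`xb_tau_off`); otherwise `taun` for `offE E W ⊆ cubeE m`:
`<= 3 Loc + 60 (TN + ind (y ∉ W) chi (offE E W) p y)/2^m`, and `gh_chi`. -/

namespace Pool.Agent.Work.MP_b7dc8a_pr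

open Finset

private theorem tfb_EG_mono {V : Type} [Fintype V] (E : Finset (Sym2 V)) (p h : ℝ) (h0 : 0 ≤ p)
    (h1 : p ≤ 1) (hh0 : 0 ≤ h) (hh1 : h ≤ 1) (F H : Finset (Sym2 V) → Finset V → ℝ)
    (hFH : ∀ ω ⊆ E, ∀ G, F ω G ≤ H ω G) : EG E p h F ≤ EG E p h H := by
  unfold EG
  exact Ex_mono E p h0 h1 _ _ fun ω hω => Ex_mono _ h hh0 hh1 _ _ fun G _ => hFH ω hω G

private theorem tfb_EG_lin {V : Type} [Fintype V] (E : Finset (Sym2 V)) (p h a b : ℝ)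
    (F : Finset (Sym2 V) → Finset V → ℝ) :
    EG E p h (fun ω G => a + b * F ω G) = a + b * EG E p h F := by
  unfold EG
  simp only [Ex_add, Ex_mul_left, Ex_const]

theorem tfb : ∃ m0 : ℕ, ∀ m ≥ m0, ∀ (E : Finset (Sym2 (Q m))) (p h : ℝ), E ⊆ cubeE m → 0 ≤ p →
    p * ((m : ℝ) - 1) ≤ 1 + 1 / TN m → 0 ≤ h → h ≤ 1 → ∀ x y,
    tf E p h x y ≤ 3 * Loc m 0 x y + 60 * (TN m + mo E p h 1 y) / 2 ^ m := by
  obtain ⟨m0, hm0⟩ := taun
  refine ⟨max m0 3, fun m hm E p h hE h0 hp hh0 hh1 x y => ?_⟩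
  have hm0' : m ≥ m0 := (le_max_left _ _).trans hm
  have hm3 : (3 : ℝ) ≤ m := by exact_mod_cast (le_max_right _ _).trans hm
  have hT : (1 : ℝ) / TN m ≤ 1 := by
    rcases Nat.eq_zero_or_pos (TN m) with h2 | h2
    · rw [h2]; simp
    · rw [div_le_one (by exact_mod_cast h2)]
      exact_mod_cast h2
  have h1 : p ≤ 1 := by nlinarith
  have hN : (0 : ℝ) < 2 ^ m := by positivity
  have e1 : tf E p h x y = EG E p h (fun ω G => ind (x ∉ cls ω G) *
      tau (offE E (cls ω G)) p x y) := by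
    rw [gh_tf]
    exact gh_clus E p h x (fun A => ind (y ∈ A))
  have e2 : 3 * Loc m 0 x y + 60 * (TN m + mo E p h 1 y) / 2 ^ m =
      EG E p h (fun ω G => (3 * Loc m 0 x y + 60 * TN m / 2 ^ m) + (60 / 2 ^ m) *
        (ind (y ∉ cls ω G) * chi (offE E (cls ω G)) p y)) := by
    rw [tfb_EG_lin, gh_chi]
    ring
  rw [e1, e2]
  refine tfb_EG_mono E p h h0 h1 hh0 hh1 _ _ fun ω hω G => ?_
  set W := cls ω G with hW
  have hL : 0 ≤ Loc m 0 x y := by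
    unfold Loc
    refine Finset.sum_nonneg fun n _ => mul_nonneg (by positivity) ?_
    exact div_nonneg (wk_nonneg _ _ _ _) (by positivity)
  have hchi : 0 ≤ chi (offE E W) p y := le_trans zero_le_one (xb_chi_ge_one _ p h0 h1 y)
  have hR : 0 ≤ (3 * Loc m 0 x y + 60 * TN m / 2 ^ m) + (60 / 2 ^ m) *
        (ind (y ∉ W) * chi (offE E W) p y) := by
    have := xb_ind_nonneg (y ∉ W)
    positivity
  by_cases hx : x ∈ W
  · have i1 : ind (x ∉ W) = 0 := by unfold ind; rw [if_neg (not_not.2 hx)]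
    rw [i1, zero_mul]
    exact hR
  · have i1 : ind (x ∉ W) = 1 := by unfold ind; rw [if_pos hx]
    rw [i1, one_mul]
    by_cases hy : y ∈ W
    · rw [xb_tau_off E W p x y hx hy]
      exact hR
    · have i2 : ind (y ∉ W) = 1 := by unfold ind; rw [if_pos hy]
      rw [i2, one_mul]
      refine (hm0 m hm0' (offE E W) p ((xb_offE_subset E W).trans hE) h0 hp x y).trans
        (le_of_eq ?_)
      ring

end Pool.Agent.Work.MP_b7dc8a_pr
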