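import Pool.Agent.Work.MP_b7dc8a_pr.F.Capl

/-! Module TRICH (S-M): escape from `S` relative to `W = S ∪ T` (`S`, `T` disjoint).

Let `P_S f = nb (offE (cubeE m) S) f/m`, `P_W` the same for `W`, `a z = gT T z/m`. Claim: for `y ∉ W` and
`n >= 0`: `P_S^n 1 (y) <= P_W^n 1 (y) + ∑_{i<n} P_W^i a (y)`, and `P_S^n 1 <= 1`. Induction on `n`:
`P_S^(n+1) 1 (y) = (1/m) ∑_{z ~ y, z ∉ S} P_S^n 1 (z) <= (1/m) #{z ~ y, z ∈ T} + (1/m) ∑_{z ~ y, z ∉ W}
(P_W^n 1 (z) + ∑_{i<n} P_W^i a (z)) = a y + P_W^(n+1) 1 (y) + ∑_{1 <= i < n+1} P_W^i a (y)`.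
With `n = TN m`: `esc m S y <= esc m W y + ∑_{i < TN} P_W^i a (y)`; note
`P_W^i a = (nb (offE _ W))^[i] (gT T)/m^(i+1)`. For `y ∈ T`, `esc m S y <= 1`. Insert this into `capl`:
`c m |S| <= ∑_{s∈S} (gT T s + nb (cubeE m) (1_{∉W} (esc m W + ∑_i P_W^i a)) s)`. -/

namespace Pool.Agent.Work.MP_b7dc8a_pr

open Finset

private theorem tr_nb_add {V : Type} [Fintype V] [DecidableEq V] (E : Finset (Sym2 V)) (f g : V → ℝ) (x : V) :
    nb E (fun z => f z + g z) x = nb E f x + nb E g x := nb_iter_add E 1 f g x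

private theorem tr_nb_smul {V : Type} [Fintype V] [DecidableEq V] (E : Finset (Sym2 V)) (c : ℝ) (f : V → ℝ) (x : V) :
    nb E (fun z => c * f z) x = c * nb E f x := nb_iter_smul E 1 c f x

open Classical in
private theorem tr_nb_ind (m : ℕ) (T : Finset (Q m)) (x : Q m) :
    nb (cubeE m) (fun z => if z ∈ T then (1 : ℝ) else 0) x = gT T x := by
  unfold nb gT
  rw [Finset.sum_ite, Finset.sum_const_zero, add_zero, Finset.sum_const, nsmul_eq_mul, mul_one]
  congr 2
  ext z
  simp only [Finset.mem_filter, Finset.mem_univ, true_and]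
  tauto

open Classical in
private theorem tr_step (m : ℕ) (hm : 1 ≤ m) (S T W : Finset (Q m))
    (hW : W = S ∪ T) (n : ℕ) (y : Q m) (hy : y ∉ W) :
    (nb (offE (cubeE m) S))^[n] (fun _ => 1) y / (m : ℝ) ^ n ≤
      (nb (offE (cubeE m) W))^[n] (fun _ => 1) y / (m : ℝ) ^ n +
      ∑ i ∈ range n, (nb (offE (cubeE m) W))^[i] (gT T) y / (m : ℝ) ^ (i + 1) := by
  have hm0 : (0 : ℝ) < m := by exact_mod_cast hm
  induction n generalizing y with
  | zero => simp
  | succ n ih =>
    set F : Q m → ℝ := fun z => (nb (offE (cubeE m) S))^[n] (fun _ => 1) z / (m : ℝ) ^ n with hF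
    set B : Q m → ℝ := fun z => (nb (offE (cubeE m) W))^[n] (fun _ => 1) z / (m : ℝ) ^ n with hB
    set G : ℕ → Q m → ℝ := fun i z => (nb (offE (cubeE m) W))^[i] (gT T) z / (m : ℝ) ^ (i + 1) with hG
    have hF1 : ∀ z, F z ≤ 1 := by
      intro z
      have h := nb_iter_le m n (offE (cubeE m) S) (xb_offE_subset _ _) (fun _ => 1) 1 zero_le_one
        (fun _ => le_rfl) z
      rw [mul_one] at h
      exact (div_le_one (by positivity)).mpr h
    have e1 : (nb (offE (cubeE m) S))^[n + 1] (fun _ => 1) y / (m : ℝ) ^ (n + 1) =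
        nb (offE (cubeE m) S) F y / m := by
      have h1 : nb (offE (cubeE m) S) F y =
          ((m : ℝ) ^ n)⁻¹ * (nb (offE (cubeE m) S))^[n + 1] (fun _ => 1) y := by
        rw [Function.iterate_succ_apply', ← tr_nb_smul]
        congr 1
        funext z
        rw [hF]
        simp only
        rw [div_eq_inv_mul]
      rw [h1, pow_succ]
      field_simp
    have e2 : (nb (offE (cubeE m) W))^[n + 1] (fun _ => 1) y / (m : ℝ) ^ (n + 1) =
        nb (offE (cubeE m) W) B y / m := by
      have h1 : nb (offE (cubeE m) W) B y =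
          ((m : ℝ) ^ n)⁻¹ * (nb (offE (cubeE m) W))^[n + 1] (fun _ => 1) y := by
        rw [Function.iterate_succ_apply', ← tr_nb_smul]
        congr 1
        funext z
        rw [hB]
        simp only
        rw [div_eq_inv_mul]
      rw [h1, pow_succ]
      field_simp
    have e3 : ∀ i, (nb (offE (cubeE m) W))^[i + 1] (gT T) y / (m : ℝ) ^ (i + 1 + 1) =
        nb (offE (cubeE m) W) (G i) y / m := by
      intro i
      have h1 : nb (offE (cubeE m) W) (G i) y =
          ((m : ℝ) ^ (i + 1))⁻¹ * (nb (offE (cubeE m) W))^[i + 1] (gT T) y := by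
        rw [Function.iterate_succ_apply', ← tr_nb_smul]
        congr 1
        funext z
        rw [hG]
        simp only
        rw [div_eq_inv_mul]
      rw [h1, pow_succ (m : ℝ) (i + 1)]
      field_simp
    have hsub : nb (offE (cubeE m) S) F y ≤ gT T y +
        (nb (offE (cubeE m) W) B y + ∑ i ∈ range n, nb (offE (cubeE m) W) (G i) y) := by
      have h1 : (∑ i ∈ range n, nb (offE (cubeE m) W) (G i) y) =
          nb (offE (cubeE m) W) (fun z => ∑ i ∈ range n, G i z) y :=
        (nb_iter_sum (offE (cubeE m) W) 1 (range n) G y).symm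
      rw [h1, ← tr_nb_add, ← tr_nb_ind, walk_nb_ind, walk_nb_ind, walk_nb_ind, ← Finset.sum_add_distrib]
      refine Finset.sum_le_sum fun z _ => ?_
      by_cases hz : s(y, z) ∈ offE (cubeE m) S
      · rw [walk_ind_pos _ hz, one_mul]
        obtain ⟨h2, h3, h4⟩ := (xb_mem_offE _ _ _ _).1 hz
        rw [walk_ind_pos _ h2, one_mul]
        by_cases hzT : z ∈ T
        · rw [if_pos hzT]
          have h5 : s(y, z) ∉ offE (cubeE m) W := by
            intro h5
            have := ((xb_mem_offE _ _ _ _).1 h5).2.2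
            rw [hW] at this
            exact this (Finset.mem_union_right _ hzT)
          rw [walk_ind_neg _ h5, zero_mul, add_zero]
          exact hF1 z
        · rw [if_neg hzT, zero_add]
          have hzW : z ∉ W := by
            rw [hW, Finset.mem_union]
            tauto
          have h5 : s(y, z) ∈ offE (cubeE m) W := (xb_mem_offE _ _ _ _).2 ⟨h2, hy, hzW⟩
          rw [walk_ind_pos _ h5, one_mul]
          exact ih z hzW
      · rw [walk_ind_neg _ hz, zero_mul]
        have h5 : s(y, z) ∉ offE (cubeE m) W := by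
          intro h5
          apply hz
          refine xb_offE_anti (cubeE m) S W ?_ h5
          rw [hW]
          exact Finset.subset_union_left
        rw [walk_ind_neg _ h5, zero_mul, add_zero]
        refine mul_nonneg (walk_ind_nonneg _) ?_
        split_ifs <;> norm_num
    rw [e1, e2, Finset.sum_range_succ']
    simp only [e3]
    rw [Function.iterate_zero, id, zero_add, pow_one, ← Finset.sum_div, ← add_assoc, ← add_div,
      ← add_div]
    refine div_le_div_of_nonneg_right ?_ hm0.le
    linarith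

open Classical in
theorem trich : ∃ (c : ℝ) (m0 : ℕ), 0 < c ∧ ∀ m ≥ m0, ∀ S T W : Finset (Q m),
    (S.card : ℝ) ≤ (2 : ℝ) ^ ((m : ℝ) - m / 40) → Disjoint S T → W = S ∪ T →
    c * m * S.card ≤ ∑ s ∈ S, (gT T s +
      nb (cubeE m) (fun y => if y ∈ W then 0 else esc m W y) s +
      nb (cubeE m) (fun y => if y ∈ W then 0 else
        ∑ i ∈ range (TN m), (nb (offE (cubeE m) W))^[i] (gT T) y / (m : ℝ) ^ (i + 1)) s) := by
  obtain ⟨c, m1, hc, h⟩ := capl
  refine ⟨c, max m1 1, hc, fun m hm S T W hS hST hW => ?_⟩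
  have hm1 : 1 ≤ m := (le_max_right _ _).trans hm
  refine (h m ((le_max_left _ _).trans hm) S hS).trans ?_
  refine Finset.sum_le_sum fun s _ => ?_
  rw [← tr_nb_ind, ← tr_nb_add, ← tr_nb_add]
  refine nb_mono _ _ _ (fun y => ?_) s
  have hm0 : (0 : ℝ) < m := by exact_mod_cast hm1
  by_cases hyW : y ∈ W
  · rw [if_pos hyW, if_pos hyW, add_zero, add_zero]
    by_cases hyS : y ∈ S
    · rw [if_pos hyS]
      split_ifs <;> norm_num
    · have hyT : y ∈ T := by
        rw [hW, Finset.mem_union] at hyW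
        tauto
      rw [if_neg hyS, if_pos hyT]
      unfold esc
      have h2 := nb_iter_le m (TN m) (offE (cubeE m) S) (xb_offE_subset _ _) (fun _ => 1) 1 zero_le_one
        (fun _ => le_rfl) y
      rw [mul_one] at h2
      exact (div_le_one (by positivity)).mpr h2
  · have hyS : y ∉ S := fun h' => hyW (by rw [hW]; exact Finset.mem_union_left _ h')
    have hyT : y ∉ T := fun h' => hyW (by rw [hW]; exact Finset.mem_union_right _ h')
    rw [if_neg hyW, if_neg hyW, if_neg hyS, if_neg hyT, zero_add]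
    exact tr_step m hm1 S T W hW (TN m) y hyW

end Pool.Agent.Work.MP_b7dc8a_pr
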