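import Pool.Agent.Work.MP_b7dc8a_pr.F.Gex
import Pool.Agent.Work.MP_b7dc8a_pr.Var

/-! Module VL1 (M-L): lower bound for the variance of `N = NN E ∅` (`E = cubeE m`), `p = p1 + q - p1 q`.

Write `ω = ζ ∪ η` (`xb_Ex_two`, `ζ` with parameter `p1`, `η` with parameter `q`). For `ω ⊆ E`
`N(ω,G) = #{z : z ∉ cls ω G}`.
(1) `Var_p N >= E_{ζ,G} Var_η N(ζ ∪ η, G)`: `EG N^2 = E_{ζ,G} E_η N^2` and
 `(EG N)^2 = (E_{ζ,G} E_η N)^2 <= E_{ζ,G} (E_η N)^2` (Cauchy-Schwarz).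
(2) `first_chaos` for `η`: `Var_η N >= q (1-q) ∑_{f∈E} (E_η D_f)^2`, `D_f = N(ζ ∪ insert f η) - N(ζ ∪ η.erase f)`.
(3) Let `f = s(a,b) ∈ E`, `a ∉ W_ζ := cls ζ G`, `b ∈ W_ζ`, `K = cl ζ a`. Then `f ∉ ζ`, and if `a ∉ cls (ζ ∪ η) G`
 (so `f ∉ η`): `-D_f >= |cl (ζ ∪ η) a| >= |K|`; always `-D_f >= 0`. So with `P = P_η(a ∈ cls (ζ ∪ η) G)`:
 `(E_η D_f)^2 >= |K|^2 (1-P)^2 >= |K|^2 (1 - 2 P) ` and hence `(E_η D_f)^2 >= φ(K) (1 - 2 P)` with
 `φ K = |K|^2 ind (|K| <= T)`. For every edge at most one of the two orientations is of this kind, so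
 `∑_f (E_η D_f)^2 >= ∑_a ∑_{b ~ a} ind (a ∉ W_ζ) ind (b ∈ W_ζ) φ(K) (1 - 2P)`.
(4) On `a ∉ W_ζ`: `K ∩ W_ζ = ∅`, `K ∩ G = ∅`, and for `b ∉ K`: `b ∈ W_ζ` iff `b ∈ WW E K ζ G`
 (`nn_step`, `ww_mem`, `D = ∅`); `b ∈ K` implies `b ∉ W_ζ`. If `a ∈ cls (ζ ∪ η) G` then there are `k ∈ K`, `y ∉ K` with
 `s(k,y) ∈ η` and `y ∈ WW E K (ζ ∪ η) G` (last exit from `K` of a path from `a` to `G`; edges of `ζ` do not
 leave `K`). The edge `s(k,y)` is independent of `WW E K (ζ ∪ η) G`, which only depends on edges in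
 `offE E K`: `P <= q ∑_{k∈K} ∑_{y ~ k, y ∉ K} P_η(y ∈ WW E K (ζ ∪ η) G)`. So the summand in (3) is at least
 (note `ind (b ∈ W_ζ) <= 1` and the sign of `-2P`)
 `ind (a ∉ W_ζ) φ(K) ∑_{b ~ a, b ∉ K} (ind (b ∈ WW E K ζ G) - 2 q ∑_{k,y} ind (b ∈ WW E K ζ G) P_η(y ∈ WW E K (ζ ∪ η) G))`
 and `ind (b ∈ WW E K ζ G) <= ind (b ∈ WW E K (ζ ∪ η) G)` (`ww_mono`).
(5) Take the expectation over `ζ, G`: exploration of `K` (`gex` with `D = ∅`, `z = a`, applied for fixed `η`,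
 after exchanging `E_η` with `EG`; the function depends on `ζ ∩ offE E K` and `G \ K` only): the first term
 becomes `Ex p1 [φ(K) (1-h)^|K| ∑_b EG p1 (ind (b ∈ WW E K))]`, the second
 `Ex p1 [φ(K) (1-h)^|K| ∑_b 2 q ∑_{k,y} EG p (ind (b ∈ WW E K) ind (y ∈ WW E K))]` (`xb_Ex_two` again). -/

namespace Pool.Agent.Work.MP_b7dc8a_pr

open Finset

section VL1
variable {V : Type} [Fintype V] [DecidableEq V]

private theorem ind_one {P : Prop} (h : P) : ind P = 1 := by rw [ind, if_pos h]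

private theorem ind_zero {P : Prop} (h : ¬ P) : ind P = 0 := by rw [ind, if_neg h]

private theorem ind_not (P : Prop) : ind (¬ P) = 1 - ind P := by
  by_cases h : P
  · rw [ind_one h, ind_zero (not_not.2 h)]; ring
  · rw [ind_zero h, ind_one h]; ring

omit [DecidableEq V] in
private theorem nb_ind (E : Finset (Sym2 V)) (f : V → ℝ) (x : V) :
    nb E f x = ∑ z, ind (s(x, z) ∈ E) * f z := by
  classical
  unfold nb ind
  rw [Finset.sum_filter]
  refine Finset.sum_congr rfl fun z _ => ?_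
  split_ifs <;> ring

/-! ### expectations -/

private theorem EG_two (E : Finset (Sym2 V)) (p1 q h : ℝ) (F : Finset (Sym2 V) → Finset V → ℝ) :
    EG E (p1 + q - p1 * q) h F = EG E p1 h (fun ζ G => Ex E q (fun η => F (ζ ∪ η) G)) := by
  unfold EG
  rw [xb_Ex_two]
  refine Ex_congr _ _ _ _ fun ζ _ => ?_
  exact xb_Ex_swap E (univ : Finset V) q h (fun η G => F (ζ ∪ η) G)

omit [DecidableEq V] in
private theorem EG_sum {ι : Type} (I : Finset ι) (E : Finset (Sym2 V)) (p h : ℝ)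
    (F : ι → Finset (Sym2 V) → Finset V → ℝ) :
    EG E p h (fun ω G => ∑ i ∈ I, F i ω G) = ∑ i ∈ I, EG E p h (F i) := by
  unfold EG
  rw [← Ex_sum]
  exact Ex_congr _ _ _ _ fun ω _ => by rw [Ex_sum]

omit [DecidableEq V] in
private theorem EG_mono (E : Finset (Sym2 V)) (p h : ℝ) (h0 : 0 ≤ p) (h1 : p ≤ 1) (hh0 : 0 ≤ h)
    (hh1 : h ≤ 1) (F F' : Finset (Sym2 V) → Finset V → ℝ) (hF : ∀ ω ⊆ E, ∀ G, F ω G ≤ F' ω G) :
    EG E p h F ≤ EG E p h F' := by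
  unfold EG
  exact Ex_mono _ _ h0 h1 _ _ fun ω hω => Ex_mono _ _ hh0 hh1 _ _ fun G _ => hF ω hω G

omit [DecidableEq V] in
private theorem EG_mul (E : Finset (Sym2 V)) (p h c : ℝ)
    (F : Finset (Sym2 V) → Finset V → ℝ) :
    EG E p h (fun ω G => c * F ω G) = c * EG E p h F := by
  unfold EG
  rw [← Ex_mul_left]
  exact Ex_congr _ _ _ _ fun ω _ => by rw [Ex_mul_left]

omit [DecidableEq V] in
private theorem EG_sub (E : Finset (Sym2 V)) (p h : ℝ)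
    (F F' : Finset (Sym2 V) → Finset V → ℝ) :
    EG E p h (fun ω G => F ω G - F' ω G) = EG E p h F - EG E p h F' := by
  unfold EG
  rw [← Ex_sub]
  exact Ex_congr _ _ _ _ fun ω _ => by rw [Ex_sub]

omit [DecidableEq V] in
private theorem EG_const (E : Finset (Sym2 V)) (p h c : ℝ) :
    EG E p h (fun _ _ => c) = c := by
  unfold EG
  rw [Ex_const, Ex_const]

omit [DecidableEq V] in
private theorem EG_sq (E : Finset (Sym2 V)) (p h : ℝ) (h0 : 0 ≤ p) (h1 : p ≤ 1) (hh0 : 0 ≤ h)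
    (hh1 : h ≤ 1) (F : Finset (Sym2 V) → Finset V → ℝ) :
    (EG E p h F) ^ 2 ≤ EG E p h (fun ω G => F ω G ^ 2) := by
  set μ := EG E p h F with hμ
  have h2 : (0 : ℝ) ≤ EG E p h (fun ω G => (F ω G - μ) ^ 2) := by
    have := EG_mono E p h h0 h1 hh0 hh1 (fun _ _ => 0) (fun ω G => (F ω G - μ) ^ 2)
      (fun ω _ G => sq_nonneg _)
    rwa [EG_const] at this
  have h3 : EG E p h (fun ω G => (F ω G - μ) ^ 2) =
      EG E p h (fun ω G => F ω G ^ 2) - (2 * μ * EG E p h F - μ ^ 2) := by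
    rw [← EG_mul, ← EG_const E p h (μ ^ 2), ← EG_sub, ← EG_sub]
    unfold EG
    refine Ex_congr _ _ _ _ fun ω _ => Ex_congr _ _ _ _ fun G _ => ?_
    beta_reduce
    ring
  rw [h3, ← hμ] at h2
  nlinarith

/-! ### combinatorics -/

omit [Fintype V] in
private theorem ind_mem_q (E : Finset (Sym2 V)) (q : ℝ) (e : Sym2 V) (he : e ∈ E) :
    Ex E q (fun η => ind (e ∈ η)) = q := by
  have h1 := Ex_restrict E {e} (singleton_subset_iff.2 he) q (fun η => ind (e ∈ η))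
  have h2 : ∀ η : Finset (Sym2 V), (e ∈ η ∩ {e}) ↔ e ∈ η := by
    intro η
    rw [mem_inter, mem_singleton]
    exact ⟨fun h => h.1, fun h => ⟨h, rfl⟩⟩
  simp only [h2] at h1
  rw [h1]
  have h3 : ({e} : Finset (Sym2 V)) = insert e ∅ := rfl
  rw [h3, Ex_insert e ∅ (notMem_empty e), Ex_empty, Ex_empty]
  rw [ind_one (mem_insert_self e ∅), ind_zero (notMem_empty e)]
  ring

/-- the exit edge is independent of the outside -/
private theorem exit_indep (E : Finset (Sym2 V)) (q : ℝ) (ζ : Finset (Sym2 V)) (G K : Finset V)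
    (k y : V) (hk : k ∈ K) (he : s(k, y) ∈ E) :
    Ex E q (fun η => ind (s(k, y) ∈ η) * ind (y ∈ WW E K (ζ ∪ η) G)) =
      q * Ex E q (fun η => ind (y ∈ WW E K (ζ ∪ η) G)) := by
  have h1 := Ex_mul_indep E {s(k, y)} (offE E K) (by
    rw [Finset.disjoint_singleton_left, xb_mem_offE]
    exact fun h => h.2.1 hk) q (fun η => ind (s(k, y) ∈ η))
    (fun η => ind (y ∈ WW E K (ζ ∪ η) G)) (fun η _ => by
      beta_reduce
      congr 1
      rw [mem_inter, mem_singleton]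
      exact propext ⟨fun h => ⟨h, rfl⟩, fun h => h.1⟩) (fun η _ => by
      beta_reduce
      congr 2
      rw [← ww_off E K (ζ ∪ η), ← ww_off E K (ζ ∪ η ∩ offE E K)]
      congr 1
      ext e
      simp only [mem_inter, mem_union]
      tauto)
  rw [h1, ind_mem_q E q _ he]

/-- if `a` becomes connected to `G`, there is an exit edge -/
private theorem hit (E : Finset (Sym2 V)) (ζ η : Finset (Sym2 V)) (hζ : ζ ⊆ E) (hη : η ⊆ E)
    (G : Finset V) (a : V) (ha : a ∉ cls ζ G) :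
    ind (a ∈ cls (ζ ∪ η) G) ≤ ∑ k ∈ cl ζ a, ∑ y, ind (s(k, y) ∈ E) * (ind (y ∉ cl ζ a) *
      (ind (s(k, y) ∈ η) * ind (y ∈ WW E (cl ζ a) (ζ ∪ η) G))) := by
  set K := cl ζ a with hK
  have hnn : ∀ k y, 0 ≤ ind (s(k, y) ∈ E) * (ind (y ∉ K) *
      (ind (s(k, y) ∈ η) * ind (y ∈ WW E K (ζ ∪ η) G))) := fun k y =>
    mul_nonneg (xb_ind_nonneg _) (mul_nonneg (xb_ind_nonneg _) (mul_nonneg (xb_ind_nonneg _)
      (xb_ind_nonneg _)))
  by_cases hex : ∃ k ∈ K, ∃ y, y ∉ K ∧ s(k, y) ∈ η ∧ y ∈ WW E K (ζ ∪ η) G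
  · obtain ⟨k, hk, y, hy, h1, h2⟩ := hex
    have h3 : (1 : ℝ) ≤ ∑ y, ind (s(k, y) ∈ E) * (ind (y ∉ K) *
      (ind (s(k, y) ∈ η) * ind (y ∈ WW E K (ζ ∪ η) G))) := by
      have h4 := Finset.single_le_sum (f := fun y => ind (s(k, y) ∈ E) * (ind (y ∉ K) *
        (ind (s(k, y) ∈ η) * ind (y ∈ WW E K (ζ ∪ η) G)))) (fun y _ => hnn k y) (mem_univ y)
      simp only [ind_one (hη h1), ind_one hy, ind_one h1, ind_one h2, mul_one] at h4
      exact h4
    have h5 := Finset.single_le_sum (f := fun k => ∑ y, ind (s(k, y) ∈ E) * (ind (y ∉ K) *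
        (ind (s(k, y) ∈ η) * ind (y ∈ WW E K (ζ ∪ η) G))))
        (fun k _ => Finset.sum_nonneg fun y _ => hnn k y) hk
    exact (xb_ind_le_one _).trans (h3.trans h5)
  · push Not at hex
    have h1 : a ∉ cls (ζ ∪ η) G := by
      intro hcls
      rw [xb_mem_cls] at hcls
      obtain ⟨g, hg, hga⟩ := hcls
      rw [clb_mem_cl] at hga
      have hKG : ∀ x ∈ K, x ∉ G := by
        intro x hx hxG
        apply ha
        rw [xb_mem_cls]
        exact ⟨x, hxG, (cl_symm _ _ _).1 hx⟩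
      have h2 := clb_closed (ζ ∪ η) {z | z ∈ WW E K (ζ ∪ η) G} (fun x hx y hxy => by
        rw [Set.mem_ofPred_eq] at hx ⊢
        have hx' := hx
        rw [ww_mem] at hx'
        by_cases hy : y ∈ K
        · exfalso
          rcases mem_union.1 hxy with h | h
          · rw [Sym2.eq_swap] at h
            exact hx'.1 (cl_closed ζ a y x hy h)
          · rw [Sym2.eq_swap] at h
            exact hex y hy x hx'.1 h hx
        · rw [ww_mem]
          refine ⟨hy, xb_cls_closed _ G x y hx'.2 ?_⟩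
          rw [mem_inter, xb_mem_offE]
          exact ⟨hxy, union_subset hζ hη hxy, hx'.1, hy⟩) g a (by
        rw [Set.mem_ofPred_eq, ww_mem]
        exact ⟨fun h => hKG g h hg, subset_cls _ _ hg⟩) hga
      rw [Set.mem_ofPred_eq, ww_mem] at h2
      exact h2.1 (mem_cl_self ζ a)
    rw [ind_zero h1]
    exact Finset.sum_nonneg fun k _ => Finset.sum_nonneg fun y _ => hnn k y

/-- the probability that `a` becomes connected to `G` -/
private theorem hit_prob (E : Finset (Sym2 V)) (q : ℝ) (hq0 : 0 ≤ q) (hq1 : q ≤ 1)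
    (ζ : Finset (Sym2 V)) (hζ : ζ ⊆ E)
    (G : Finset V) (a : V) (ha : a ∉ cls ζ G) :
    Ex E q (fun η => ind (a ∈ cls (ζ ∪ η) G)) ≤
      q * ∑ k ∈ cl ζ a, ∑ y, ind (s(k, y) ∈ E) * (ind (y ∉ cl ζ a) *
        Ex E q (fun η => ind (y ∈ WW E (cl ζ a) (ζ ∪ η) G))) := by
  refine (Ex_mono E q hq0 hq1 _ _ fun η hη => hit E ζ η hζ hη G a ha).trans (le_of_eq ?_)
  rw [Ex_sum, Finset.mul_sum]
  refine Finset.sum_congr rfl fun k hk => ?_
  rw [Ex_sum, Finset.mul_sum]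
  refine Finset.sum_congr rfl fun y _ => ?_
  rw [Ex_mul_left, Ex_mul_left]
  by_cases he : s(k, y) ∈ E
  · rw [exit_indep E q ζ G (cl ζ a) k y hk he]
    ring
  · rw [ind_zero he]
    ring

private theorem nn_empty (E ω : Finset (Sym2 V)) (hω : ω ⊆ E) (G : Finset V) :
    NN E ∅ ω G = ∑ z, ind (z ∉ cls ω G) := by
  classical
  unfold NN
  rw [xb_offE_empty, inter_eq_left.2 hω, ← nsmul_one, ← Finset.sum_const, Finset.sum_filter]
  refine Finset.sum_congr rfl fun x _ => ?_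
  by_cases hx : x ∉ cls ω G
  · rw [if_pos ⟨notMem_empty x, hx⟩, ind_one hx]
  · rw [if_neg fun h => hx h.2, ind_zero hx]

/-- effect of one edge -/
private theorem one_edge (E : Finset (Sym2 V)) (ζ η : Finset (Sym2 V)) (hζ : ζ ⊆ E) (hη : η ⊆ E)
    (G : Finset V) (a b : V) (hb : b ∈ cls ζ G) (he : s(a, b) ∈ E) :
    ((cl ζ a).card : ℝ) * ind (a ∉ cls (ζ ∪ η) G) ≤
      NN E ∅ (ζ ∪ η.erase s(a, b)) G - NN E ∅ (ζ ∪ insert s(a, b) η) G := by
  have hsub1 : ζ ∪ η.erase s(a, b) ⊆ E := union_subset hζ ((erase_subset _ _).trans hη)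
  have hsub2 : ζ ∪ insert s(a, b) η ⊆ E := union_subset hζ (insert_subset he hη)
  have hsub3 : ζ ∪ η.erase s(a, b) ⊆ ζ ∪ insert s(a, b) η :=
    union_subset_union_right ((erase_subset _ _).trans (subset_insert _ _))
  by_cases hc : a ∈ cls (ζ ∪ η) G
  · rw [ind_zero (not_not.2 hc), mul_zero]
    have := nn_anti E ∅ (ζ ∪ η.erase s(a, b)) (ζ ∪ insert s(a, b) η) G G hsub3 (Subset.refl G)
    linarith
  · rw [ind_one hc, mul_one, nn_empty E _ hsub1, nn_empty E _ hsub2, ← Finset.sum_sub_distrib]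
    have h1 : ∀ z ∈ cl ζ a, ind (z ∉ cls (ζ ∪ η.erase s(a, b)) G) -
        ind (z ∉ cls (ζ ∪ insert s(a, b) η) G) = 1 := by
      intro z hz
      have h2 : z ∉ cls (ζ ∪ η.erase s(a, b)) G := by
        intro h
        apply hc
        have h3 : z ∈ cls (ζ ∪ η) G :=
          xb_cls_mono _ _ _ _ (union_subset_union_right (erase_subset _ _)) (Subset.refl G) h
        rw [xb_mem_cls] at h3 ⊢
        obtain ⟨g, hg, hgz⟩ := h3
        refine ⟨g, hg, ?_⟩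
        have h4 : z ∈ cl (ζ ∪ η) a := cl_mono _ _ subset_union_left a hz
        rw [← cl_eq_of_mem _ g z hgz, cl_eq_of_mem _ a z h4]
        exact mem_cl_self _ _
      have h3 : z ∈ cls (ζ ∪ insert s(a, b) η) G := by
        have h4 : b ∈ cls (ζ ∪ insert s(a, b) η) G :=
          xb_cls_mono _ _ _ _ subset_union_left (Subset.refl G) hb
        have h5 : a ∈ cls (ζ ∪ insert s(a, b) η) G := by
          refine xb_cls_closed _ G b a h4 ?_
          rw [Sym2.eq_swap]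
          exact mem_union_right _ (mem_insert_self _ _)
        rw [xb_mem_cls] at h5 ⊢
        obtain ⟨g, hg, hga⟩ := h5
        refine ⟨g, hg, ?_⟩
        rw [← cl_eq_of_mem _ g a hga]
        exact cl_mono _ _ subset_union_left a hz
      rw [ind_one h2, ind_zero (not_not.2 h3)]
      ring
    have h2 : ∀ z, 0 ≤ ind (z ∉ cls (ζ ∪ η.erase s(a, b)) G) -
        ind (z ∉ cls (ζ ∪ insert s(a, b) η) G) := by
      intro z
      rw [sub_nonneg]
      exact xb_ind_mono fun h h' => h (xb_cls_mono _ _ _ _ hsub3 (Subset.refl G) h')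
    refine le_trans (le_of_eq ?_) (Finset.sum_le_sum_of_subset_of_nonneg
      (Finset.subset_univ (cl ζ a)) fun z _ _ => h2 z)
    rw [Finset.sum_congr rfl h1, Finset.sum_const, nsmul_eq_mul, mul_one]

/-- `φ` -/
private noncomputable def phi (T : ℝ) (C : Finset V) : ℝ := (C.card : ℝ) ^ 2 * ind ((C.card : ℝ) ≤ T)

omit [Fintype V] [DecidableEq V] in
private theorem phi_nn (T : ℝ) (C : Finset V) : 0 ≤ phi T C :=
  mul_nonneg (by positivity) (xb_ind_nonneg _)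

/-- lower bound for the influence of one edge -/
private theorem infl (E : Finset (Sym2 V)) (q T : ℝ) (hq0 : 0 ≤ q) (hq1 : q ≤ 1)
    (ζ : Finset (Sym2 V)) (hζ : ζ ⊆ E)
    (G : Finset V) (a b : V) (hb : b ∈ cls ζ G) (he : s(a, b) ∈ E) :
    phi T (cl ζ a) * (1 - 2 * Ex E q (fun η => ind (a ∈ cls (ζ ∪ η) G))) ≤
      (Ex E q (fun η => NN E ∅ (ζ ∪ insert s(a, b) η) G - NN E ∅ (ζ ∪ η.erase s(a, b)) G)) ^ 2 := by
  set P := Ex E q (fun η => ind (a ∈ cls (ζ ∪ η) G)) with hP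
  set D := Ex E q (fun η => NN E ∅ (ζ ∪ insert s(a, b) η) G -
    NN E ∅ (ζ ∪ η.erase s(a, b)) G) with hD
  have hP0 : 0 ≤ P := xb_Ex_nonneg _ _ hq0 hq1 _ fun η _ => xb_ind_nonneg _
  have hP1 : P ≤ 1 := xb_Ex_le _ _ hq0 hq1 _ 1 fun η _ => xb_ind_le_one _
  set n : ℝ := ((cl ζ a).card : ℝ) with hn
  have hn0 : 0 ≤ n := Nat.cast_nonneg _
  have h1 : n * (1 - P) ≤ -D := by
    have h2 : n * (1 - P) = Ex E q (fun η => n * ind (a ∉ cls (ζ ∪ η) G)) := by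
      rw [Ex_mul_left]
      congr 1
      rw [hP, ← Ex_const E q 1, ← Ex_sub]
      exact Ex_congr _ _ _ _ fun η _ => by rw [ind_not]
    have h3 : -D = Ex E q (fun η => NN E ∅ (ζ ∪ η.erase s(a, b)) G -
        NN E ∅ (ζ ∪ insert s(a, b) η) G) := by
      rw [hD, ← neg_one_mul, ← Ex_mul_left]
      exact Ex_congr _ _ _ _ fun η _ => by ring
    rw [h2, h3]
    exact Ex_mono _ _ hq0 hq1 _ _ fun η hη => one_edge E ζ η hζ hη G a b hb he
  have h2 : 0 ≤ n * (1 - P) := mul_nonneg hn0 (by linarith)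
  have h3 : (n * (1 - P)) ^ 2 ≤ D ^ 2 := by
    have := pow_le_pow_left₀ h2 h1 2
    rwa [neg_sq] at this
  refine le_trans ?_ h3
  have h4 : phi T (cl ζ a) ≤ n ^ 2 := by
    unfold phi
    exact mul_le_of_le_one_right (by positivity) (xb_ind_le_one _)
  have h5 := phi_nn T (cl ζ a)
  have h6 : phi T (cl ζ a) * (1 - 2 * P) ≤ phi T (cl ζ a) * (1 - P) ^ 2 :=
    mul_le_mul_of_nonneg_left (by nlinarith) h5
  have h7 : phi T (cl ζ a) * (1 - P) ^ 2 ≤ n ^ 2 * (1 - P) ^ 2 :=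
    mul_le_mul_of_nonneg_right h4 (sq_nonneg _)
  rw [mul_pow]
  linarith

/-- sum over the edges is at least the sum over the oriented boundary edges -/
private theorem edge_sum (E : Finset (Sym2 V)) (W : Finset V) (X : Sym2 V → ℝ)
    (hX : ∀ e, 0 ≤ X e) :
    ∑ a, ∑ b, ind (s(a, b) ∈ E) * (ind (a ∉ W) * (ind (b ∈ W) * X s(a, b))) ≤ ∑ e ∈ E, X e := by
  classical
  set R : Finset (V × V) := (univ : Finset (V × V)).filter
    fun t => s(t.1, t.2) ∈ E ∧ t.1 ∉ W ∧ t.2 ∈ W with hR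
  have h1 : ∑ a, ∑ b, ind (s(a, b) ∈ E) * (ind (a ∉ W) * (ind (b ∈ W) * X s(a, b))) =
      ∑ t ∈ R, X s(t.1, t.2) := by
    rw [← Fintype.sum_prod_type (f := fun t : V × V =>
      ind (s(t.1, t.2) ∈ E) * (ind (t.1 ∉ W) * (ind (t.2 ∈ W) * X s(t.1, t.2)))), hR,
      Finset.sum_filter]
    refine Finset.sum_congr rfl fun t _ => ?_
    by_cases c1 : s(t.1, t.2) ∈ E
    · by_cases c2 : t.1 ∉ W
      · by_cases c3 : t.2 ∈ W
        · rw [if_pos ⟨c1, c2, c3⟩, ind_one c1, ind_one c2, ind_one c3]; ring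
        · rw [if_neg fun h => c3 h.2.2, ind_zero c3]; ring
      · rw [if_neg fun h => c2 h.2.1, ind_zero c2]; ring
    · rw [if_neg fun h => c1 h.1, ind_zero c1]; ring
  rw [h1]
  have h2 : ∑ t ∈ R, X s(t.1, t.2) = ∑ e ∈ R.image (fun t => s(t.1, t.2)), X e := by
    rw [Finset.sum_image]
    rintro ⟨a, b⟩ h ⟨a', b'⟩ h' heq
    simp only [hR, Finset.coe_filter, Set.mem_ofPred_eq, mem_univ, true_and] at h h'
    simp only [Sym2.eq_iff] at heq
    rcases heq with ⟨r1, r2⟩ | ⟨r1, r2⟩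
    · rw [r1, r2]
    · exfalso
      rw [r1] at h
      exact h.2.1 h'.2.2
  rw [h2]
  refine Finset.sum_le_sum_of_subset_of_nonneg (fun e he => ?_) fun e _ _ => hX e
  rw [mem_image] at he
  obtain ⟨t, ht, rfl⟩ := he
  rw [hR, mem_filter] at ht
  exact ht.2.1

/-- the function of the exploration -/
private noncomputable def HH (E : Finset (Sym2 V)) (q T : ℝ) (a : V) (C : Finset V)
    (ω : Finset (Sym2 V)) (G : Finset V) : ℝ :=
  phi T C * ∑ b, ind (s(a, b) ∈ E) * (ind (b ∉ C) * (ind (b ∈ WW E C ω G) -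
    2 * q * ∑ k ∈ C, ∑ y, ind (s(k, y) ∈ E) * (ind (y ∉ C) *
      Ex E q (fun η => ind (b ∈ WW E C (ω ∪ η) G) * ind (y ∈ WW E C (ω ∪ η) G)))))

private theorem HH_inv (E : Finset (Sym2 V)) (q T : ℝ) (a : V) (C : Finset V)
    (ω : Finset (Sym2 V)) (G : Finset V) :
    HH E q T a C (ω ∩ offE E (∅ ∪ C)) (G \ C) = HH E q T a C ω G := by
  have h1 : ∀ η : Finset (Sym2 V), WW E C (ω ∩ offE E (∅ ∪ C) ∪ η) (G \ C) =
      WW E C (ω ∪ η) G := by
    intro η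
    rw [ww_diff E C C (Subset.refl C), ← ww_off E C (ω ∪ η), ← ww_off E C (ω ∩ _ ∪ η),
      empty_union]
    congr 1
    ext e
    simp only [mem_inter, mem_union]
    tauto
  have h2 : WW E C (ω ∩ offE E (∅ ∪ C)) (G \ C) = WW E C ω G := by
    rw [ww_diff E C C (Subset.refl C), empty_union, ww_off]
  unfold HH
  simp only [h1, h2]

/-- for fixed `ζ`, `G` and `a` -/
private theorem fixed_a (E : Finset (Sym2 V)) (q T : ℝ) (hq0 : 0 ≤ q) (hq1 : q ≤ 1)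
    (ζ : Finset (Sym2 V)) (hζ : ζ ⊆ E) (G : Finset V) (a : V) :
    ind (a ∉ cls (ζ ∩ offE E ∅) G) * HH E q T a (cl (ζ ∩ offE E ∅) a) ζ G ≤
      ∑ b, ind (s(a, b) ∈ E) * (ind (a ∉ cls ζ G) * (ind (b ∈ cls ζ G) *
        (Ex E q (fun η => NN E ∅ (ζ ∪ insert s(a, b) η) G -
          NN E ∅ (ζ ∪ η.erase s(a, b)) G)) ^ 2)) := by
  rw [xb_offE_empty, inter_eq_left.2 hζ]
  by_cases ha : a ∈ cls ζ G
  · rw [ind_zero (not_not.2 ha), zero_mul]
    refine Finset.sum_nonneg fun b _ => ?_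
    rw [zero_mul, mul_zero]
  rw [ind_one ha, one_mul]
  unfold HH
  rw [Finset.mul_sum]
  refine Finset.sum_le_sum fun b _ => ?_
  rw [one_mul]
  set K := cl ζ a with hK
  have hφ := phi_nn T K
  by_cases he : s(a, b) ∈ E
  swap
  · rw [ind_zero he]
    simp
  rw [ind_one he, one_mul, one_mul]
  have hsq : 0 ≤ (Ex E q (fun η => NN E ∅ (ζ ∪ insert s(a, b) η) G -
          NN E ∅ (ζ ∪ η.erase s(a, b)) G)) ^ 2 := sq_nonneg _
  by_cases hbK : b ∈ K
  · rw [ind_zero (not_not.2 hbK), zero_mul, mul_zero]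
    exact mul_nonneg (xb_ind_nonneg _) hsq
  rw [ind_one hbK, one_mul]
  have hstep := (nn_step E ∅ ζ G a (notMem_empty a)
    (by rw [xb_offE_empty, inter_eq_left.2 hζ]; exact ha)).2
  rw [xb_offE_empty, inter_eq_left.2 hζ, ← hK, empty_union] at hstep
  have hb : b ∈ WW E K ζ G ↔ b ∈ cls ζ G := by
    rw [← hstep, ww_mem, xb_offE_empty, inter_eq_left.2 hζ]
    exact ⟨fun h => h.2, fun h => ⟨notMem_empty b, h⟩⟩
  have hnn : ∀ b', 0 ≤ ∑ k ∈ K, ∑ y, ind (s(k, y) ∈ E) * (ind (y ∉ K) *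
      Ex E q (fun η => ind (b' ∈ WW E K (ζ ∪ η) G) * ind (y ∈ WW E K (ζ ∪ η) G))) := fun b' =>
    Finset.sum_nonneg fun k _ => Finset.sum_nonneg fun y _ => mul_nonneg (xb_ind_nonneg _)
      (mul_nonneg (xb_ind_nonneg _) (xb_Ex_nonneg _ _ hq0 hq1 _ fun η _ =>
        mul_nonneg (xb_ind_nonneg _) (xb_ind_nonneg _)))
  by_cases hbW : b ∈ cls ζ G
  · rw [ind_one (hb.2 hbW), ind_one hbW, one_mul]
    have h1 := infl E q T hq0 hq1 ζ hζ G a b hbW he
    refine le_trans ?_ h1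
    rw [← hK]
    refine mul_le_mul_of_nonneg_left ?_ hφ
    have h2 := hit_prob E q hq0 hq1 ζ hζ G a ha
    rw [← hK] at h2
    have h3 : ∀ y, Ex E q (fun η => ind (y ∈ WW E K (ζ ∪ η) G)) =
        Ex E q (fun η => ind (b ∈ WW E K (ζ ∪ η) G) * ind (y ∈ WW E K (ζ ∪ η) G)) := by
      intro y
      refine Ex_congr _ _ _ _ fun η _ => ?_
      rw [ind_one (ww_mono E K ζ (ζ ∪ η) G G subset_union_left (Subset.refl G) (hb.2 hbW)), one_mul]
    simp only [h3] at h2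
    linarith
  · rw [ind_zero fun h => hbW (hb.1 h), ind_zero hbW, zero_mul]
    have h1 := hnn b
    have h2 : 0 ≤ 2 * q * ∑ k ∈ K, ∑ y, ind (s(k, y) ∈ E) * (ind (y ∉ K) *
      Ex E q (fun η => ind (b ∈ WW E K (ζ ∪ η) G) * ind (y ∈ WW E K (ζ ∪ η) G))) :=
      mul_nonneg (by linarith) h1
    nlinarith [mul_nonneg hφ h2]

private theorem EG_HH (E : Finset (Sym2 V)) (p1 q h T : ℝ) (a : V) (C : Finset V) :
    EG E p1 h (fun ω G => HH E q T a C ω G) =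
      phi T C * ∑ b, ind (s(a, b) ∈ E) * (ind (b ∉ C) *
        (EG E p1 h (fun ω G => ind (b ∈ WW E C ω G)) -
        2 * q * ∑ k ∈ C, ∑ y, ind (s(k, y) ∈ E) * (ind (y ∉ C) *
          EG E (p1 + q - p1 * q) h (fun ω G => ind (b ∈ WW E C ω G) * ind (y ∈ WW E C ω G))))) := by
  unfold HH
  rw [EG_mul, EG_sum]
  congr 1
  refine Finset.sum_congr rfl fun b _ => ?_
  rw [EG_mul, EG_mul, EG_sub, EG_mul, EG_sum]
  congr 4
  refine Finset.sum_congr rfl fun k _ => ?_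
  rw [EG_sum]
  refine Finset.sum_congr rfl fun y _ => ?_
  rw [EG_mul, EG_mul, EG_two]

open Classical in
private theorem vl1_gen (E : Finset (Sym2 V)) (p1 q h T : ℝ) (hp0 : 0 ≤ p1) (hp1 : p1 ≤ 1)
    (hq0 : 0 ≤ q) (hq1 : q ≤ 1)
    (hh0 : 0 ≤ h) (hh1 : h ≤ 1) :
    q * (1 - q) * ∑ a : V, Ex E p1 (fun ζ =>
      ((cl ζ a).card : ℝ) ^ 2 * ind (((cl ζ a).card : ℝ) ≤ T) * (1 - h) ^ (cl ζ a).card *
      nb E (fun b => if b ∈ cl ζ a then 0 else
        (EG E p1 h (fun ω G => ind (b ∈ WW E (cl ζ a) ω G)) -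
          2 * q * ∑ k ∈ cl ζ a, nb E (fun y => if y ∈ cl ζ a then 0 else
            EG E (p1 + q - p1 * q) h (fun ω G =>
              ind (b ∈ WW E (cl ζ a) ω G) * ind (y ∈ WW E (cl ζ a) ω G))) k)) a) ≤
    EG E (p1 + q - p1 * q) h (fun ω G => NN E ∅ ω G ^ 2) -
      EG E (p1 + q - p1 * q) h (NN E ∅) ^ 2 := by
  -- step 1
  have s1 : EG E p1 h (fun ζ G => Ex E q (fun η => NN E ∅ (ζ ∪ η) G ^ 2) -
      (Ex E q (fun η => NN E ∅ (ζ ∪ η) G)) ^ 2) ≤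
      EG E (p1 + q - p1 * q) h (fun ω G => NN E ∅ ω G ^ 2) -
      EG E (p1 + q - p1 * q) h (NN E ∅) ^ 2 := by
    rw [EG_two, EG_two, EG_sub]
    have := EG_sq E p1 h hp0 hp1 hh0 hh1 (fun ζ G => Ex E q (fun η => NN E ∅ (ζ ∪ η) G))
    linarith
  refine le_trans ?_ s1
  -- step 2
  have s2 : ∀ ζ ⊆ E, ∀ G, q * (1 - q) * ∑ a, ind (a ∉ cls (ζ ∩ offE E ∅) G) *
      HH E q T a (cl (ζ ∩ offE E ∅) a) ζ G ≤ Ex E q (fun η => NN E ∅ (ζ ∪ η) G ^ 2) -
      (Ex E q (fun η => NN E ∅ (ζ ∪ η) G)) ^ 2 := by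
    intro ζ hζ G
    refine le_trans ?_ (first_chaos E q hq0 hq1 (fun η => NN E ∅ (ζ ∪ η) G))
    refine mul_le_mul_of_nonneg_left ?_ (mul_nonneg hq0 (by linarith))
    refine le_trans (Finset.sum_le_sum fun a _ => fixed_a E q T hq0 hq1 ζ hζ G a) ?_
    exact edge_sum E (cls ζ G) (fun f => (Ex E q (fun η => NN E ∅ (ζ ∪ insert f η) G -
          NN E ∅ (ζ ∪ η.erase f) G)) ^ 2) (fun f => sq_nonneg _)
  refine le_trans ?_ (EG_mono E p1 h hp0 hp1 hh0 hh1 _ _ s2)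
  rw [EG_mul, EG_sum]
  refine mul_le_mul_of_nonneg_left (le_of_eq ?_) (mul_nonneg hq0 (by linarith))
  refine Finset.sum_congr rfl fun a _ => ?_
  have g1 := gex E p1 h ∅ a (HH E q T a)
  simp only [HH_inv] at g1
  rw [g1, xb_offE_empty]
  refine Ex_congr _ _ _ _ fun ζ _ => ?_
  beta_reduce
  rw [EG_HH]
  have e1 : ∀ (C : Finset V) (Y : V → ℝ) (x : V), nb E (fun b => if b ∈ C then 0 else Y b) x =
      ∑ b, ind (s(x, b) ∈ E) * (ind (b ∉ C) * Y b) := by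
    intro C Y x
    rw [nb_ind]
    refine Finset.sum_congr rfl fun b _ => ?_
    by_cases hb : b ∈ C
    · rw [if_pos hb, ind_zero (not_not.2 hb)]; ring
    · rw [if_neg hb, ind_one hb]; ring
  rw [e1]
  simp only [e1]
  unfold phi
  ring

end VL1

open Classical in
theorem vl1 (m : ℕ) (p1 q h T : ℝ) (hp0 : 0 ≤ p1) (hp1 : p1 ≤ 1) (hq0 : 0 ≤ q) (hq1 : q ≤ 1)
    (hh0 : 0 ≤ h) (hh1 : h ≤ 1) :
    q * (1 - q) * ∑ a : Q m, Ex (cubeE m) p1 (fun ζ =>
      ((cl ζ a).card : ℝ) ^ 2 * ind (((cl ζ a).card : ℝ) ≤ T) * (1 - h) ^ (cl ζ a).card *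
      nb (cubeE m) (fun b => if b ∈ cl ζ a then 0 else
        (EG (cubeE m) p1 h (fun ω G => ind (b ∈ WW (cubeE m) (cl ζ a) ω G)) -
          2 * q * ∑ k ∈ cl ζ a, nb (cubeE m) (fun y => if y ∈ cl ζ a then 0 else
            EG (cubeE m) (p1 + q - p1 * q) h (fun ω G =>
              ind (b ∈ WW (cubeE m) (cl ζ a) ω G) * ind (y ∈ WW (cubeE m) (cl ζ a) ω G))) k)) a) ≤
    EG (cubeE m) (p1 + q - p1 * q) h (fun ω G => NN (cubeE m) ∅ ω G ^ 2) -
      EG (cubeE m) (p1 + q - p1 * q) h (NN (cubeE m) ∅) ^ 2 := by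
  convert vl1_gen (cubeE m) p1 q h T hp0 hp1 hq0 hq1 hh0 hh1 using 1

end Pool.Agent.Work.MP_b7dc8a_pr
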