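import Pool.Agent.Work.MP_b7dc8a_pr.F.DefI
import Pool.Agent.Work.MP_b7dc8a_pr.F.Taun
import Pool.Agent.Work.MP_b7dc8a_pr.F.Locb
import Pool.Agent.Work.MP_b7dc8a_pr.B.Rect

/-! Module XU (M): uniform bound for the susceptibility outside `U` by its average outside `A ∪ U`.

`F = offE (cubeE m) U`, `A` disjoint from `U`. For `0 <= p' <= p` let `f p' = max_x chi F p' x`. `taun` for
`F` summed over `y` (`∑_y Loc_0(x,y) <= TN`, `loc_sum` with `J = 0`):
`chi F p' x <= 63 TN + (60/2^m) ∑_y chi F p' y`. In the last sum: `y ∈ U`: `chi = 1` (`xb_cl_off`); `y ∈ A`: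
`<= f`; `y ∉ A ∪ U`: `b_obst` (`E := F`, `D := A`, `Θ = card`, `offE F A = offE (cubeE m) (A ∪ U)`):
`chi F p' y <= chi (offE (cubeE m) (A ∪ U)) p' y + ∑_{a∈A} tau F p' y a chi F p' a`, and
`∑_y tau F p' y a = chi F p' a <= f`. Since `f >= 1`:
`f <= 63 TN + 60 + (60/2^m) RU + (120 |A|/2^m) f^2 <= Q + B f^2`, `RU` at `p' <= p` is at most the one at `p`
(`xb_chi_mono_p`). If `B = 0` we are done. Otherwise `4 Q B < 1`: if `f p' <= 1/(2B)` then
`B f^2 <= f/2`, `f <= 2 Q`; `2 Q < 1/(2B)`; `f 0 = 1 <= 2 Q`; `f` is continuous: `b_boot` (B/Rect) with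
`A := 2 Q`, `B := 1/(2B)`. -/

namespace Pool.Agent.Work.MP_b7dc8a_pr

open Finset

private theorem xu_cont {V : Type} [Fintype V] (E : Finset (Sym2 V)) (x : V) :
    Continuous fun p => chi E p x := by
  unfold chi Ex
  fun_prop

private theorem xu_Ex0 {α : Type} [DecidableEq α] (E : Finset α) (F : Finset α → ℝ) :
    Ex E 0 F = F ∅ := by
  induction E using Finset.induction_on generalizing F with
  | empty => rw [Ex_empty]
  | insert e E he ih => rw [Ex_insert e E he, ih F]; ring

private theorem xu_chi0 {V : Type} [Fintype V] [DecidableEq V] (E : Finset (Sym2 V)) (x : V) :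
    chi E 0 x = 1 := by
  unfold chi
  rw [xu_Ex0, xb_cl_off (offE ∅ {x}) ∅ {x} (Finset.empty_subset _) x (Finset.mem_singleton_self x)]
  simp

private theorem xu_TN (m : ℕ) (hm : 2 ≤ m) : (1 : ℝ) ≤ TN m := by
  have h1 := (xn_TT m (by omega)).1
  have h2 : (0 : ℝ) < Real.log m := Real.log_pos (by exact_mod_cast (by omega : 1 < m))
  have h3 : (0 : ℝ) < m := by exact_mod_cast (by omega : 0 < m)
  have h4 : (0 : ℝ) < TT m := lt_of_lt_of_le (mul_pos h3 h2) h1
  have h5 : 0 < TT m := by exact_mod_cast h4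
  have h6 : 1 ≤ TN m := by
    unfold TN
    omega
  exact_mod_cast h6

theorem xu : ∃ m0 : ℕ, ∀ m ≥ m0, ∀ p : ℝ, 0 ≤ p → p * ((m : ℝ) - 1) ≤ 1 + 1 / TN m →
    ∀ A U : Finset (Q m), Disjoint A U → ∀ Qu : ℝ,
    Qu = 123 * TN m + 60 * RU (cubeE m) p A U / 2 ^ m → 4 * Qu * (120 * A.card / 2 ^ m) < 1 →
    ∀ x, chi (offE (cubeE m) U) p x ≤ 2 * Qu := by
  classical
  obtain ⟨m1, htau⟩ := taun
  refine ⟨max 3 m1, fun m hm p h0 hpm A U hAU Qu hQu hB x => ?_⟩
  have hm3 : 3 ≤ m := (le_max_left _ _).trans hm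
  have htau := htau m ((le_max_right _ _).trans hm)
  have hm3' : (3 : ℝ) ≤ m := by exact_mod_cast hm3
  have hTN := xu_TN m (by omega)
  have hTN1 : 1 / (TN m : ℝ) ≤ 1 := by
    rw [div_le_one (by linarith)]
    exact hTN
  have hp1 : p ≤ 1 := by
    have : p * 2 ≤ p * ((m : ℝ) - 1) := mul_le_mul_of_nonneg_left (by linarith) h0
    linarith
  set F := offE (cubeE m) U with hF
  have hFE : F ⊆ cubeE m := xb_offE_subset _ _
  set n : ℝ := 2 ^ m with hn
  have hn0 : 0 < n := by positivity
  have hcard : ((univ : Finset (Q m)).card : ℝ) = n := by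
    rw [Finset.card_univ]
    simp [hn]
  have hRU0 : ∀ q, 0 ≤ q → q ≤ 1 → 0 ≤ RU (cubeE m) q A U := fun q hq0 hq1 =>
    Finset.sum_nonneg fun z _ => le_trans zero_le_one (xb_chi_ge_one _ q hq0 hq1 z)
  have hRUm : ∀ q, 0 ≤ q → q ≤ p → RU (cubeE m) q A U ≤ RU (cubeE m) p A U := fun q hq0 hq1 =>
    Finset.sum_le_sum fun z _ => xb_chi_mono_p _ q p hq0 hq1 hp1 z
  have hQ0 : 1 ≤ Qu := by
    have := hRU0 p h0 hp1
    have : 0 ≤ 60 * RU (cubeE m) p A U / n := by positivity
    rw [hQu]
    linarith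
  -- the quadratic inequality
  have key : ∀ q, 0 ≤ q → q ≤ p → ∀ M : ℝ, (∀ y, chi F q y ≤ M) → ∀ y,
      chi F q y ≤ Qu + 120 * A.card / n * M ^ 2 := by
    intro q hq0 hqp M hM y
    have hq1 : q ≤ 1 := hqp.trans hp1
    have hM1 : 1 ≤ M := (xb_chi_ge_one F q hq0 hq1 y).trans (hM y)
    have hqm : q * ((m : ℝ) - 1) ≤ 1 + 1 / TN m :=
      (mul_le_mul_of_nonneg_right hqp (by linarith)).trans hpm
    have s1 : chi F q y ≤ ∑ z, (3 * Loc m 0 y z + 60 * (TN m + chi F q z) / n) := by
      rw [xb_chi_sum]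
      exact Finset.sum_le_sum fun z _ => htau F q hFE hq0 hqm y z
    have s2 : ∑ z, (3 * Loc m 0 y z + 60 * (TN m + chi F q z) / n) =
        3 * ∑ z, Loc m 0 y z + 60 * TN m + 60 / n * ∑ z, chi F q z := by
      have : ∀ z, 3 * Loc m 0 y z + 60 * (TN m + chi F q z) / n =
          3 * Loc m 0 y z + (60 * TN m / n + 60 / n * chi F q z) := fun z => by ring
      simp only [this]
      rw [Finset.sum_add_distrib, Finset.sum_add_distrib, ← Finset.mul_sum, ← Finset.mul_sum,
        Finset.sum_const, nsmul_eq_mul, hcard]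
      field_simp
      ring
    have s3 : ∑ z, Loc m 0 y z ≤ TN m := by
      have := loc_sum m 0 (by omega) y
      simpa using this
    have s4 : ∑ z, chi F q z ≤ n + RU (cubeE m) p A U + 2 * A.card * M ^ 2 := by
      have t1 : ∀ z, chi F q z ≤ 1 + (if z ∈ A then M else 0) +
          ((if z ∉ A ∪ U then chi (offE (cubeE m) (A ∪ U)) q z else 0) +
            ∑ a ∈ A, tau F q z a * chi F q a) := by
        intro z
        have u0 : 0 ≤ ∑ a ∈ A, tau F q z a * chi F q a := Finset.sum_nonneg fun a _ =>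
          mul_nonneg (xb_tau_nonneg F q hq0 hq1 z a)
            (le_trans zero_le_one (xb_chi_ge_one F q hq0 hq1 a))
        by_cases hzU : z ∈ U
        · have u1 : chi F q z = 1 := by
            unfold chi
            rw [← Ex_const F q 1]
            refine Ex_congr _ _ _ _ fun ω hω => ?_
            rw [xb_cl_off (cubeE m) ω U hω z hzU]
            simp
          have u2 : z ∉ A := fun h => Finset.disjoint_left.1 hAU h hzU
          have u3 : ¬ (z ∉ A ∪ U) := fun h => h (Finset.mem_union_right _ hzU)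
          rw [u1, if_neg u2, if_neg u3]
          linarith
        · by_cases hzA : z ∈ A
          · have u3 : ¬ (z ∉ A ∪ U) := fun h => h (Finset.mem_union_left _ hzA)
            rw [if_pos hzA, if_neg u3]
            have := hM z
            linarith
          · have u3 : z ∉ A ∪ U := by
              rw [Finset.mem_union]
              tauto
            rw [if_neg hzA, if_pos u3]
            have u4 := b_obst F q hq0 hq1 (fun B : Finset (Q m) => (B.card : ℝ))
              (fun A B h => by exact_mod_cast card_le_card h)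
              (fun A B => by exact_mod_cast card_union_le A B) (fun A => Nat.cast_nonneg _) A z hzA
            have u5 : offE F A = offE (cubeE m) (A ∪ U) := by
              rw [hF, xb_offE_offE, Finset.union_comm]
            rw [u5] at u4
            have u6 : chi F q z ≤ chi (offE (cubeE m) (A ∪ U)) q z +
                ∑ a ∈ A, tau F q z a * chi F q a := u4
            linarith
      refine (Finset.sum_le_sum fun z _ => t1 z).trans ?_
      rw [Finset.sum_add_distrib, Finset.sum_add_distrib, Finset.sum_add_distrib]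
      have t2 : ∑ z : Q m, (1 : ℝ) = n := by
        rw [Finset.sum_const, nsmul_eq_mul, mul_one, hcard]
      have t3 : ∑ z : Q m, (if z ∈ A then M else 0) = A.card * M := by
        rw [← Finset.sum_filter, Finset.sum_const, nsmul_eq_mul]
        have : (univ.filter fun z : Q m => z ∈ A) = A := by
          ext z
          simp
        rw [this]
      have t4 : ∑ z : Q m, (if z ∉ A ∪ U then chi (offE (cubeE m) (A ∪ U)) q z else 0) ≤
          RU (cubeE m) p A U := by
        rw [← Finset.sum_filter]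
        refine le_trans (le_of_eq ?_) (hRUm q hq0 hqp)
        unfold RU
        congr 1
      have t5 : ∑ z : Q m, ∑ a ∈ A, tau F q z a * chi F q a ≤ A.card * M ^ 2 := by
        rw [Finset.sum_comm, ← nsmul_eq_mul, ← Finset.sum_const]
        refine Finset.sum_le_sum fun a _ => ?_
        rw [← Finset.sum_mul]
        have v1 : ∑ z, tau F q z a = chi F q a := by
          rw [xb_chi_sum]
          exact Finset.sum_congr rfl fun z _ => xb_tau_comm F q z a
        rw [v1, pow_two]
        have v2 : 0 ≤ chi F q a := le_trans zero_le_one (xb_chi_ge_one F q hq0 hq1 a)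
        exact mul_le_mul (hM a) (hM a) v2 (by linarith)
      rw [t2, t3]
      have t6 : (A.card : ℝ) * M ≤ A.card * M ^ 2 := by
        refine mul_le_mul_of_nonneg_left ?_ (Nat.cast_nonneg _)
        nlinarith
      linarith
    rw [s2] at s1
    have s5 : 60 / n * ∑ z, chi F q z ≤ 60 / n * (n + RU (cubeE m) p A U + 2 * A.card * M ^ 2) :=
      mul_le_mul_of_nonneg_left s4 (by positivity)
    have s6 : 60 / n * (n + RU (cubeE m) p A U + 2 * A.card * M ^ 2) =
        60 + 60 * RU (cubeE m) p A U / n + 120 * A.card / n * M ^ 2 := by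
      field_simp
      ring
    rw [s6] at s5
    rw [hQu]
    linarith
  -- the maximum
  have hne : (univ : Finset (Q m)).Nonempty := ⟨x, Finset.mem_univ x⟩
  let f : ℝ → ℝ := fun q => (univ : Finset (Q m)).sup' hne fun y => chi F q y
  have hf1 : ∀ q y, chi F q y ≤ f q := fun q y =>
    Finset.le_sup' (fun y => chi F q y) (Finset.mem_univ y)
  have hf2 : ∀ q c, (∀ y, chi F q y ≤ c) → f q ≤ c := fun q c h =>
    Finset.sup'_le hne _ fun y _ => h y
  have hf3 : ∀ q, 0 ≤ q → q ≤ p → f q ≤ Qu + 120 * A.card / n * f q ^ 2 := fun q hq0 hqp =>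
    hf2 q _ (key q hq0 hqp (f q) (hf1 q))
  set B : ℝ := 120 * A.card / n with hBdef
  have hB0 : 0 ≤ B := by positivity
  refine (hf1 p x).trans ?_
  rcases hB0.eq_or_lt with hB1 | hB1
  · have := hf3 p h0 le_rfl
    rw [← hB1, zero_mul, add_zero] at this
    linarith
  · have hlt : 2 * Qu < 1 / (2 * B) := by
      rw [lt_div_iff₀ (by positivity)]
      linarith
    refine b_boot p (2 * Qu) (1 / (2 * B)) hlt f ?_ ?_ ?_ p h0 le_rfl
    · exact ContinuousOn.finset_sup'_apply hne fun y _ => (xu_cont F y).continuousOn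
    · refine hf2 0 _ fun y => ?_
      rw [xu_chi0]
      linarith
    · intro q hq0 hqp hq
      have h1 := hf3 q hq0 hqp
      have h2 : 1 ≤ f q := (xb_chi_ge_one F q hq0 (hqp.trans hp1) x).trans (hf1 q x)
      have h3 : B * f q ≤ 1 / 2 := by
        have := mul_le_mul_of_nonneg_left hq hB1.le
        have h4 : B * (1 / (2 * B)) = 1 / 2 := by
          field_simp
        linarith
      have h5 : B * f q ^ 2 ≤ f q / 2 := by nlinarith
      linarith

end Pool.Agent.Work.MP_b7dc8a_pr
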